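import Mathlib

/-!
# LK-27. Degrees of Laurent polynomials

`zL = T 1`, `muL = 2 T(-1) - 1`.  `DegLE f d`: all coefficients above `d` vanish.  The coefficients of
`zL * f` are those of `f` shifted by one; `muL = - 1 + 2 T(-1)`, so `DegLE (muL ^ m) 0` and the coefficient
of `muL ^ m` at `0` is `(-1) ^ m`.
-/

namespace Pool.Agent.Helper65.LK

open LaurentPolynomial

/-- Laurent polynomials with integer coefficients -/
abbrev LP : Type := LaurentPolynomial ℤ

/-- the variable -/
noncomputable def zL : LP := T 1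

/-- the value of the unlink with two components -/
noncomputable def muL : LP := 2 * T (-1) - 1

/-- the coefficient of `z ^ k` -/
def cf1 (f : LP) (k : ℤ) : ℤ := f.coeff k

/-- all coefficients above `d` are zero -/
def DegLE (f : LP) (d : ℤ) : Prop := ∀ k, d < k → cf1 f k = 0

theorem zL_mul_muL : zL * (muL + 1) = 2 := by
  have h : (T 1 : LP) * T (-1) = 1 := by
    rw [← T_add]
    norm_num
  unfold zL muL
  linear_combination 2 * h

theorem cf1_add (f g : LP) (k : ℤ) : cf1 (f + g) k = cf1 f k + cf1 g k := by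
  rfl

theorem cf1_neg (f : LP) (k : ℤ) : cf1 (-f) k = - cf1 f k := by
  rfl

theorem cf1_sub (f g : LP) (k : ℤ) : cf1 (f - g) k = cf1 f k - cf1 g k := by
  rw [sub_eq_add_neg, cf1_add, cf1_neg, sub_eq_add_neg]

theorem cf1_T_mul (n : ℤ) (f : LP) (k : ℤ) : cf1 (T n * f) k = cf1 f (k - n) := by
  unfold cf1 T
  rw [AddMonoidAlgebra.coeff_single_mul_apply, one_mul]
  congr 1
  ring

theorem cf1_zL_mul (f : LP) (k : ℤ) : cf1 (zL * f) k = cf1 f (k - 1) := by
  exact cf1_T_mul 1 f k

theorem cf1_two_mul (f : LP) (k : ℤ) : cf1 (2 * f) k = 2 * cf1 f k := by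
  rw [two_mul, cf1_add, two_mul]

theorem DegLE.mono {f : LP} {d d' : ℤ} (h : DegLE f d) (hd : d ≤ d') : DegLE f d' := by
  intro k hk
  exact h k (lt_of_le_of_lt hd hk)

theorem DegLE.add {f g : LP} {d : ℤ} (hf : DegLE f d) (hg : DegLE g d) : DegLE (f + g) d := by
  intro k hk
  rw [cf1_add, hf k hk, hg k hk, add_zero]

theorem DegLE.neg {f : LP} {d : ℤ} (hf : DegLE f d) : DegLE (-f) d := by
  intro k hk
  rw [cf1_neg, hf k hk, neg_zero]

theorem DegLE.sub {f g : LP} {d : ℤ} (hf : DegLE f d) (hg : DegLE g d) : DegLE (f - g) d := by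
  intro k hk
  rw [cf1_sub, hf k hk, hg k hk, sub_zero]

theorem DegLE.zL_mul {f : LP} {d : ℤ} (hf : DegLE f d) : DegLE (zL * f) (d + 1) := by
  intro k hk
  rw [cf1_zL_mul]
  exact hf _ (by omega)

theorem cf1_muL_mul (f : LP) (k : ℤ) : cf1 (muL * f) k = 2 * cf1 f (k + 1) - cf1 f k := by
  unfold muL
  rw [sub_mul, one_mul, mul_assoc, cf1_sub, cf1_two_mul, cf1_T_mul, sub_neg_eq_add]

theorem degLE_muL_pow_mul (m : ℕ) {f : LP} {d : ℤ} (hf : DegLE f d) :
    DegLE (muL ^ m * f) d := by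
  induction m with
  | zero =>
    rw [pow_zero, one_mul]
    exact hf
  | succ m ih =>
    intro k hk
    rw [pow_succ', mul_assoc, cf1_muL_mul, ih k hk, ih (k + 1) (by omega)]
    ring

theorem cf1_muL_pow_mul (m : ℕ) {f : LP} {d : ℤ} (hf : DegLE f d) :
    cf1 (muL ^ m * f) d = (-1) ^ m * cf1 f d := by
  induction m with
  | zero => rw [pow_zero, one_mul, pow_zero, one_mul]
  | succ m ih =>
    rw [pow_succ', mul_assoc, cf1_muL_mul, ih, degLE_muL_pow_mul m hf (d + 1) (by omega)]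
    ring

theorem cf1_one (k : ℤ) : cf1 1 k = if k = 0 then 1 else 0 := by
  unfold cf1
  rw [← T_zero, T_apply]
  simp only [eq_comm]

theorem degLE_one : DegLE 1 0 := by
  intro k hk
  rw [cf1_one, if_neg (by omega)]

theorem degLE_muL_pow (m : ℕ) : DegLE (muL ^ m) 0 := by
  have h := degLE_muL_pow_mul m degLE_one
  rw [mul_one] at h
  exact h

theorem cf1_muL_pow (m : ℕ) : cf1 (muL ^ m) 0 = (-1) ^ m := by
  have h := cf1_muL_pow_mul m degLE_one
  rw [mul_one, cf1_one, if_pos rfl, mul_one] at h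
  exact h

end Pool.Agent.Helper65.LK
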