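import Pool.Agent.Helper65.LK.Skein

/-!
# Pure diagrams: every vertex is a crossing

`faceP S x = sg (S.α x)` is the face permutation; the dart `(v, i)` stands for the corner between
the darts `(v, i - 1)` and `(v, i)`, so `x`, `faceP S x` are consecutive corners of the same face,
and the two faces along the edge `{x, α x}` are those of `x` and of `α x`.
-/

namespace Pool.Agent.Helper65.LK

variable {V : Type}

/-- the face permutation of a pure diagram -/
def faceP (S : Shadow V) : Equiv.Perm (Dart V) := rot (fun _ => St.over1) * S.α

theorem faceP_apply (S : Shadow V) (x : Dart V) : faceP S x = sg (S.α x) := rfl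

/-- Euler's formula for a pure diagram -/
def PlanarP [Fintype V] (S : Shadow V) : Prop := Planar S (fun _ => St.over1)

/-- A labelling of the faces: adjacent faces have consecutive labels, every face with a nonzero label
has a neighbour with a smaller label, and there is at most one face with label zero for every
connected piece. -/
structure Label [Fintype V] (S : Shadow V) (l : Dart V → ℕ) : Prop where
  face : ∀ x, l (sg x) = l (S.α x)
  step : ∀ x, l (S.α x) = l x + 1 ∨ l x = l (S.α x) + 1
  low : ∀ x, l x ≠ 0 → ∃ y, (faceP S).SameCycle x y ∧ l x = l (S.α y) + 1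
  zero : {q : Quotient (Equiv.Perm.SameCycle.setoid (faceP S)) |
    ∃ x, Quotient.mk _ x = q ∧ l x = 0}.ncard ≤ pieces S (fun _ => St.over1)

/-- a face with one corner -/
def Monogon (S : Shadow V) : Prop := ∃ (v : V) (i : ZMod 4), S.α (v, i) = (v, i + 1)

/-- a face with two corners at different vertices -/
def Bigon (S : Shadow V) : Prop :=
  ∃ (v w : V) (i j : ZMod 4), v ≠ w ∧ S.α (v, i) = (w, j + 1) ∧ S.α (v, i + 1) = (w, j)

/-- a face with three corners at different vertices -/
structure TriP (S : Shadow V) (u : V) (i : ZMod 4) (v : V) (j : ZMod 4) (w : V) (k : ZMod 4) :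
    Prop where
  uv : u ≠ v
  vw : v ≠ w
  wu : w ≠ u
  a1 : S.α (u, i + 1) = (v, j)
  a2 : S.α (v, j + 1) = (w, k)
  a3 : S.α (w, k + 1) = (u, i)

end Pool.Agent.Helper65.LK
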