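import Pool.Agent.Helper65.LK.QPoly
import Pool.Agent.Helper65.LK.Deg
import Pool.Agent.Helper65.LK.PureDefs

/-!
# Connected alternating pure diagrams: definitions

All vertices are crossings with the state `over1`; the diagram is alternating iff `α` joins even
darts with odd darts.
-/

namespace Pool.Agent.Helper65.LK

open Function

variable {V : Type}

/-- the parity of a dart -/
def par (i : ZMod 4) : Bool := decide (i = 1 ∨ i = 3)

/-- the constant state -/
abbrev ov (V : Type) : V → St := fun _ => St.over1

/-- A connected planar alternating diagram. -/
structure APD [Fintype V] (S : Shadow V) : Prop where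
  alt : ∀ x, par (S.α x).2 ≠ par x.2
  planar : PlanarP S
  conn : pieces S (ov V) = 1

/-- the coefficient of `z ^ (n - 1)` in the Q polynomial, `n` the number of crossings -/
noncomputable def kap [Fintype V] [DecidableEq V] (S : Shadow V) : ℤ :=
  cf1 (Q zL muL S (ov V)) ((Fintype.card V : ℤ) - 1)

/-- two corners are corners of the same face -/
def Face (S : Shadow V) (x y : Dart V) : Prop := (faceP S).SameCycle x y

/-- the crossing `v` is nugatory -/
def Nugat (S : Shadow V) (v : V) : Prop := ∃ c : ZMod 4, Face S (v, c) (v, c + 2)

/-- the smoothing which merges the corners `c` and `c + 2` -/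
def mrg (c : ZMod 4) : St := if c = 0 ∨ c = 2 then St.smA else St.smB

/-- the sign at the corner `x` of an orientation `o` of the crossings -/
def sgn (o : V → Bool) (x : Dart V) : Bool := if x.2 = 0 ∨ x.2 = 1 then o x.1 else !(o x.1)

/-- the sign changes along the edge from the corner `x` to the next corner of the face -/
def Chg (S : Shadow V) (o : V → Bool) (x : Dart V) : Prop := sgn o x ≠ sgn o (faceP S x)

/-- A local bipolar orientation with the special crossing `v₀`: the sign is constant on a face iff
the face contains the corner `0` or `2` of `v₀`. -/
def LBO (S : Shadow V) (o : V → Bool) (v₀ : V) : Prop :=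
  ∀ x : Dart V, (∀ y, Face S x y → sgn o y = sgn o x) ↔ (Face S x (v₀, 0) ∨ Face S x (v₀, 2))

end Pool.Agent.Helper65.LK
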