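import Pool.Agent.Helper65.LK.Compress

/-!
# LK-14. Planarity is invariant under isomorphisms; the pure diagram

Let `X` be the set of the darts of the crossings of `s`, `β = partner (Cr s) S s`, `L = loops (Cr s) S s`.
(a) `pieces S s = L + classes (genU (Cr s) S s (rot s))` and `comps S s = L + classes (genU .. (tau s))`
(`gen_classes`; `rot s = tau s` outside the crossings).
(b) `cycles (rot s * S.α) = 2 L + (number of cycles of x ↦ sg (β x) on X)`: start with `x ∈ X` and
apply `f = rot s * S.α` repeatedly: as long as `α (f ^ j x)` is not at a crossing, `f` follows the arc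
of `x`; it reaches `rot s (β x) = sg (β x) ∈ X`.  So the first return map of `f` to `X` is
`x ↦ sg (β x)`, and the cycles of `f` which meet `X` correspond to its cycles.  The cycles of `f`
which do not meet `X` lie in closed arcs, and every closed arc (orbit of the fixed point free
involutions `α, τ`) consists of exactly two cycles of `τ α` (see the header of `SweepEx.lean`).
`Planar.iso`: the numbers of crossings, of classes on `X` and of cycles on `X` are the same for
both diagrams, and the loops contribute `2 L` to both sides of Euler's formula.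

`exists_pure`: let `V' = {v // (s v).isX = true}` and
`α' (v, i) = partner (Cr s) S s (v, i)`; all vertices of `V'` are crossings, so the arcs of
the new diagram are its edges; `φ (v, i) = (v, i)`.  The number of components: (a) for both
diagrams (`k = loops (Cr s) S s`; the new diagram has no loops).
-/

namespace Pool.Agent.Helper65.LK

open Function

section general

/-- transport of generated equivalences -/
theorem ip_eqv {X Y : Type} (e : X ≃ Y) {r : X → X → Prop} {r' : Y → Y → Prop}
    (h : ∀ x y, r x y ↔ r' (e x) (e y)) (x y : X) :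
    Relation.EqvGen r x y ↔ Relation.EqvGen r' (e x) (e y) := by
  constructor
  · intro hxy
    induction hxy with
    | rel x y hxy => exact Relation.EqvGen.rel _ _ ((h x y).1 hxy)
    | refl x => exact Relation.EqvGen.refl _
    | symm x y _ ih => exact Relation.EqvGen.symm _ _ ih
    | trans x y z _ _ ih1 ih2 => exact Relation.EqvGen.trans _ _ _ ih1 ih2
  · intro hxy
    have key : ∀ a b, Relation.EqvGen r' a b → Relation.EqvGen r (e.symm a) (e.symm b) := by
      intro a b hab
      induction hab with
      | rel x y hxy => exact Relation.EqvGen.rel _ _ ((h _ _).2 (by simpa using hxy))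
      | refl x => exact Relation.EqvGen.refl _
      | symm x y _ ih => exact Relation.EqvGen.symm _ _ ih
      | trans x y z _ _ ih1 ih2 => exact Relation.EqvGen.trans _ _ _ ih1 ih2
    simpa using key _ _ hxy

theorem ip_classes {X Y : Type} (e : X ≃ Y) {r : X → X → Prop} {r' : Y → Y → Prop}
    (h : ∀ x y, r x y ↔ r' (e x) (e y)) : classes r = classes r' :=
  Nat.card_congr (Quotient.congr e (ip_eqv e h))

theorem ip_cycles {X Y : Type} (e : X ≃ Y) (f : Equiv.Perm X) (g : Equiv.Perm Y)
    (h : ∀ x, e (f x) = g (e x)) : cycles f = cycles g := by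
  refine Nat.card_congr (Quotient.congr e ?_)
  have hz : ∀ (k : ℤ) x, e ((f ^ k) x) = (g ^ k) (e x) := by
    have hn : ∀ (k : ℕ) x, e ((f ^ k) x) = (g ^ k) (e x) := by
      intro k
      induction k with
      | zero => intro x; rfl
      | succ k ih =>
        intro x
        rw [pow_succ', pow_succ', Equiv.Perm.mul_apply, Equiv.Perm.mul_apply, h, ih]
    intro k x
    rcases k with k | k
    · exact hn k x
    · rw [zpow_negSucc, zpow_negSucc, Equiv.Perm.eq_inv_iff_eq, ← hn]
      congr 1
      exact (f ^ (k + 1)).apply_symm_apply x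
  intro x y
  constructor
  · rintro ⟨k, hk⟩
    exact ⟨k, by rw [← hz, hk]⟩
  · rintro ⟨k, hk⟩
    refine ⟨k, e.injective ?_⟩
    rw [hz, hk]

end general

section oneDiagram

variable {V : Type} (S : Shadow V) (s : V → St)

theorem ip_rot_nc {y : Dart V} (h : ¬ isC s y) : rot s y = tau s y := by
  unfold isC at h
  show (y.1, (s y.1).next y.2) = (y.1, (s y.1).mate y.2)
  rcases hs : s y.1 with _ | _ | _ | _
  · rw [hs] at h; exact absurd rfl h
  · rw [hs] at h; exact absurd rfl h
  · rfl
  · rfl

theorem ip_rot_c {y : Dart V} (h : isC s y) : rot s y = sg y := by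
  unfold isC at h
  show (y.1, (s y.1).next y.2) = (y.1, y.2 + 1)
  rcases hs : s y.1 with _ | _ | _ | _
  · rfl
  · rfl
  · rw [hs] at h; exact absurd h (by decide)
  · rw [hs] at h; exact absurd h (by decide)

theorem ip_tau_tau (y : Dart V) : tau s (tau s y) = y := by
  show (y.1, (s y.1).mate ((s y.1).mate y.2)) = y
  rw [St.mate_mate]

theorem ip_tau_ne (y : Dart V) : tau s y ≠ y := by
  intro h
  exact St.mate_ne (s y.1) y.2 (congrArg Prod.snd h)

/-- the face permutation -/
abbrev ipf : Equiv.Perm (Dart V) := rot s * S.α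

theorem ipf_apply (y : Dart V) : ipf S s y = rot s (S.α y) := rfl

theorem ipf_alpha (y : Dart V) : ipf S s (S.α y) = rot s y := by
  rw [ipf_apply, S.invol]

/-- the darts whose face cycle meets a crossing -/
def ipM (y : Dart V) : Prop := ∃ x, isC s x ∧ (ipf S s).SameCycle x y

theorem ipM_f {y : Dart V} : ipM S s (ipf S s y) ↔ ipM S s y := by
  unfold ipM
  constructor
  · rintro ⟨x, hx, h⟩
    exact ⟨x, hx, Equiv.Perm.sameCycle_apply_right.mp h⟩
  · rintro ⟨x, hx, h⟩
    exact ⟨x, hx, Equiv.Perm.sameCycle_apply_right.mpr h⟩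

theorem ipM_alpha_of_c {x : Dart V} (hx : isC s x) : ipM S s (S.α x) := by
  rw [← ipM_f, ipf_alpha]
  exact ⟨rot s x, hx, Equiv.Perm.SameCycle.refl _ _⟩

theorem ipM_alpha_pow (k : ℕ) (x : Dart V) (hx : isC s x) :
    ipM S s (S.α ((ipf S s ^ k) x)) := by
  induction k with
  | zero => exact ipM_alpha_of_c S s hx
  | succ k ih =>
    by_cases hy : isC s ((ipf S s ^ (k + 1)) x)
    · exact ipM_alpha_of_c S s hy
    · have h1 : (ipf S s ^ (k + 1)) x = rot s (S.α ((ipf S s ^ k) x)) := by
        rw [pow_succ', Equiv.Perm.mul_apply]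
        rfl
      have h2 : ¬ isC s (S.α ((ipf S s ^ k) x)) := by
        intro hc
        apply hy
        rw [h1]
        exact hc
      rw [ip_rot_nc s h2] at h1
      rw [← ipM_f, ipf_alpha, ip_rot_nc s hy, h1, ip_tau_tau]
      exact ih

theorem ipM_alpha [Fintype V] {y : Dart V} (h : ipM S s y) : ipM S s (S.α y) := by
  obtain ⟨x, hx, hxy⟩ := h
  obtain ⟨k, rfl⟩ := hxy.exists_nat_pow_eq
  exact ipM_alpha_pow S s k x hx

theorem ipM_tau [Fintype V] {y : Dart V} (h : ipM S s y) (hy : ¬ isC s y) :
    ipM S s (tau s y) := by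
  rw [← ip_rot_nc s hy, ← ipf_alpha S s y, ipM_f]
  exact ipM_alpha S s h

theorem ipM_arc [Fintype V] {x y : Dart V}
    (h : Relation.EqvGen (arcRel (Cr s) S s) x y) : ipM S s x ↔ ipM S s y := by
  induction h with
  | rel x y hxy =>
    rcases hxy with rfl | ⟨hx, rfl⟩
    · constructor
      · exact ipM_alpha S s
      · intro h
        have := ipM_alpha S s h
        rwa [S.invol] at this
    · constructor
      · intro h
        exact ipM_tau S s h hx
      · intro h
        have := ipM_tau S s h hx
        rwa [ip_tau_tau] at this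
  | refl x => exact Iff.rfl
  | symm x y _ ih => exact ih.symm
  | trans x y z _ _ ih1 ih2 => exact ih1.trans ih2

/-- the darts on closed arcs -/
def ipCl (y : Dart V) : Prop :=
  ∀ x, Relation.EqvGen (arcRel (Cr s) S s) x y → ¬ isC s x

theorem ipCl_iff [Fintype V] (y : Dart V) : ipCl S s y ↔ ¬ ipM S s y := by
  constructor
  · rintro h ⟨x, hx, hxy⟩
    -- the cycle of `y` stays in the arc
    obtain ⟨k, hk⟩ := hxy.symm.exists_nat_pow_eq
    have key : ∀ k : ℕ, Relation.EqvGen (arcRel (Cr s) S s) ((ipf S s ^ k) y) y := by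
      intro k
      induction k with
      | zero => exact Relation.EqvGen.refl _
      | succ k ih =>
        have h1 : (ipf S s ^ (k + 1)) y = rot s (S.α ((ipf S s ^ k) y)) := by
          rw [pow_succ', Equiv.Perm.mul_apply]
          rfl
        have h2 : Relation.EqvGen (arcRel (Cr s) S s) (S.α ((ipf S s ^ k) y)) y :=
          Relation.EqvGen.trans _ _ _ (Relation.EqvGen.symm _ _
            (Relation.EqvGen.rel _ _ (Or.inl rfl))) ih
        have h3 := h _ h2
        rw [h1, ip_rot_nc s h3]
        exact Relation.EqvGen.trans _ _ _ (Relation.EqvGen.symm _ _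
            (Relation.EqvGen.rel _ _ (Or.inr ⟨h3, rfl⟩))) h2
    have h1 := key k
    rw [hk] at h1
    exact h x h1 hx
  · intro h x hxy hx
    exact h ((ipM_arc S s hxy).mp ⟨x, hx, Equiv.Perm.SameCycle.refl _ _⟩)

theorem ipCl_alpha {y : Dart V} (h : ipCl S s y) : ipCl S s (S.α y) := by
  intro x hx
  exact h x (Relation.EqvGen.trans _ _ _ hx (Relation.EqvGen.symm _ _
    (Relation.EqvGen.rel _ _ (Or.inl rfl))))

theorem ipCl_self {y : Dart V} (h : ipCl S s y) : ¬ isC s y := h y (Relation.EqvGen.refl _)

theorem ipCl_f {y : Dart V} (h : ipCl S s y) :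
    ipf S s y = tau s (S.α y) ∧ ipCl S s (ipf S s y) ∧
      Relation.EqvGen (arcRel (Cr s) S s) y (ipf S s y) := by
  have h1 := ipCl_alpha S s h
  have h2 : ipf S s y = tau s (S.α y) := by
    rw [ipf_apply, ip_rot_nc s (ipCl_self S s h1)]
  have h3 : Relation.EqvGen (arcRel (Cr s) S s) y (ipf S s y) := by
    rw [h2]
    exact Relation.EqvGen.trans _ _ _ (Relation.EqvGen.rel _ _ (Or.inl rfl))
      (Relation.EqvGen.rel _ _ (Or.inr ⟨ipCl_self S s h1, rfl⟩))
  refine ⟨h2, ?_, h3⟩
  intro x hx
  exact h x (Relation.EqvGen.trans _ _ _ hx (Relation.EqvGen.symm _ _ h3))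

theorem ipCl_pow {y : Dart V} (h : ipCl S s y) (k : ℕ) :
    ipCl S s ((ipf S s ^ k) y) ∧ Relation.EqvGen (arcRel (Cr s) S s) y ((ipf S s ^ k) y) := by
  induction k with
  | zero => exact ⟨h, Relation.EqvGen.refl _⟩
  | succ k ih =>
    rw [pow_succ', Equiv.Perm.mul_apply]
    obtain ⟨h1, h2, h3⟩ := ipCl_f S s ih.1
    exact ⟨h2, Relation.EqvGen.trans _ _ _ ih.2 h3⟩

/-- a closed arc consists of two different cycles -/
theorem ipCl_ne [Fintype V] {y : Dart V} (h : ipCl S s y) :
    ¬ (ipf S s).SameCycle y (S.α y) := by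
  intro hc
  obtain ⟨k, hk⟩ := hc.exists_nat_pow_eq
  have key : ∀ j, j ≤ k → S.α ((ipf S s ^ j) y) = (ipf S s ^ (k - j)) y := by
    intro j
    induction j with
    | zero =>
      intro _
      rw [Nat.sub_zero, hk]
      rfl
    | succ j ih =>
      intro hj
      have h1 := ih (by omega)
      have h2 := (ipCl_f S s (ipCl_pow S s h j).1).1
      have h3 : (ipf S s ^ (j + 1)) y = tau s ((ipf S s ^ (k - j)) y) := by
        rw [pow_succ', Equiv.Perm.mul_apply, h2, h1]
      have h4 := (ipCl_f S s (ipCl_pow S s h (k - (j + 1))).1).1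
      have h5 : (ipf S s ^ (k - j)) y = tau s (S.α ((ipf S s ^ (k - (j + 1))) y)) := by
        have h6 : k - j = (k - (j + 1)) + 1 := by omega
        rw [h6, pow_succ', Equiv.Perm.mul_apply]
        exact h4
      rw [h3, h5, ip_tau_tau, S.invol]
  rcases Nat.even_or_odd' k with ⟨l, hl | hl⟩
  · have h1 := key l (by omega)
    have h2 : k - l = l := by omega
    rw [h2] at h1
    exact S.noFix _ h1
  · have h1 := key l (by omega)
    have h2 : k - l = l + 1 := by omega
    rw [h2, pow_succ', Equiv.Perm.mul_apply, (ipCl_f S s (ipCl_pow S s h l).1).1] at h1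
    exact ip_tau_ne s _ h1.symm

theorem ipf_conj {y : Dart V} (h : ipCl S s y) :
    ipf S s (S.α (ipf S s y)) = S.α y := by
  rw [ipf_alpha, ip_rot_nc s (ipCl_self S s (ipCl_f S s h).2.1), (ipCl_f S s h).1, ip_tau_tau]

theorem ipCl_alpha_pow {y : Dart V} (h : ipCl S s y) (k : ℕ) :
    (ipf S s).SameCycle (S.α ((ipf S s ^ k) y)) (S.α y) := by
  induction k with
  | zero => exact Equiv.Perm.SameCycle.refl _ _
  | succ k ih =>
    refine Equiv.Perm.SameCycle.trans ?_ ih
    rw [pow_succ', Equiv.Perm.mul_apply, ← ipf_conj S s (ipCl_pow S s h k).1]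
    exact Equiv.Perm.sameCycle_apply_right.mpr (Equiv.Perm.SameCycle.refl _ _)

/-- a closed arc consists of the cycles of `r` and of `α r` -/
theorem ipCl_two [Fintype V] {r y : Dart V} (hr : ipCl S s r)
    (h : Relation.EqvGen (arcRel (Cr s) S s) r y) :
    (ipf S s).SameCycle r y ∨ (ipf S s).SameCycle (S.α r) y := by
  let M' : Dart V → Prop := fun y => (ipf S s).SameCycle r y ∨ (ipf S s).SameCycle (S.α r) y
  have hM : ∀ y, M' y → ipCl S s y ∧ M' (S.α y) := by
    intro y hy
    rcases hy with hy | hy
    · obtain ⟨k, rfl⟩ := hy.exists_nat_pow_eq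
      exact ⟨(ipCl_pow S s hr k).1, Or.inr (ipCl_alpha_pow S s hr k).symm⟩
    · obtain ⟨k, rfl⟩ := hy.exists_nat_pow_eq
      have h1 := ipCl_alpha_pow S s (ipCl_alpha S s hr) k
      rw [S.invol] at h1
      exact ⟨(ipCl_pow S s (ipCl_alpha S s hr) k).1, Or.inl h1.symm⟩
  have hMt : ∀ y, M' y → M' (tau s y) := by
    intro y hy
    obtain ⟨h1, h2⟩ := hM y hy
    rw [← ip_rot_nc s (ipCl_self S s h1), ← ipf_alpha S s y]
    rcases h2 with h2 | h2
    · exact Or.inl (Equiv.Perm.sameCycle_apply_right.mpr h2)
    · exact Or.inr (Equiv.Perm.sameCycle_apply_right.mpr h2)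
  have key : ∀ x y, Relation.EqvGen (arcRel (Cr s) S s) x y → (M' x ↔ M' y) := by
    intro x y hxy
    induction hxy with
    | rel x y hxy =>
      rcases hxy with rfl | ⟨hx, rfl⟩
      · constructor
        · exact fun h => (hM x h).2
        · intro h
          have := (hM _ h).2
          rwa [S.invol] at this
      · constructor
        · exact hMt x
        · intro h
          have := hMt _ h
          rwa [ip_tau_tau] at this
    | refl x => exact Iff.rfl
    | symm x y _ ih => exact ih.symm
    | trans x y z _ _ ih1 ih2 => exact ih1.trans ih2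
  exact (key r y h).mp (Or.inl (Equiv.Perm.SameCycle.refl _ _))

variable [Fintype V]

/-- the crossing darts -/
abbrev XD (s : V → St) : Type := {x : Dart V // isC s x}

/-- the other end of the arc, on the crossing darts -/
noncomputable def ipBeta : Equiv.Perm (XD s) where
  toFun x := ⟨partner (Cr s) S s x.1, (partner_spec (Cr s) S s x.1 x.2).1⟩
  invFun x := ⟨partner (Cr s) S s x.1, (partner_spec (Cr s) S s x.1 x.2).1⟩
  left_inv x := Subtype.ext (partner_partner (Cr s) S s x.1 x.2)
  right_inv x := Subtype.ext (partner_partner (Cr s) S s x.1 x.2)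

/-- rotation of the crossing darts -/
def ipSg : Equiv.Perm (XD s) where
  toFun x := ⟨(x.1.1, x.1.2 + 1), x.2⟩
  invFun x := ⟨(x.1.1, x.1.2 - 1), x.2⟩
  left_inv x := Subtype.ext (by simp)
  right_inv x := Subtype.ext (by simp)

/-- the first return map -/
noncomputable def ipRho : Equiv.Perm (XD s) := ipSg s * ipBeta S s

theorem ipRho_val (x : XD s) : (ipRho S s x).1 = sg (partner (Cr s) S s x.1) := rfl

theorem ip_return (x : Dart V) (hx : isC s x) :
    ∃ m : ℕ, (ipf S s ^ (m + 1)) x = sg (partner (Cr s) S s x) ∧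
      ∀ i, 1 ≤ i → i ≤ m → ¬ isC s ((ipf S s ^ i) x) := by
  obtain ⟨m, z, hz0, hz, -, hp⟩ := partner_path (fun _ => True) (Cr s) (fun _ _ => trivial) S s x hx
  have hpart : ∀ y, partner (fun _ => True) S s y = S.α y := fun y =>
    partner_of_mem (fun _ => True) S s y trivial trivial
  have hzi : ∀ i, i ≤ m → z i = (ipf S s ^ i) x ∧ (1 ≤ i → ¬ isC s (z i)) := by
    intro i
    induction i with
    | zero =>
      intro _
      exact ⟨hz0, fun h => absurd h (by norm_num)⟩
    | succ i ih =>
      intro hi
      obtain ⟨h1, h2⟩ := hz i (by omega)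
      rw [hpart] at h1 h2
      have h3 : ¬ isC s (S.α (z i)) := h1
      refine ⟨?_, fun _ => ?_⟩
      · rw [h2, pow_succ', Equiv.Perm.mul_apply, ← (ih (by omega)).1, ipf_apply, ip_rot_nc s h3]
      · rw [h2]
        exact h3
  refine ⟨m, ?_, ?_⟩
  · have h1 : (ipf S s ^ (m + 1)) x = rot s (S.α (z m)) := by
      rw [pow_succ', Equiv.Perm.mul_apply, ← (hzi m le_rfl).1]
      rfl
    rw [hpart] at hp
    rw [h1, ← hp]
    exact ip_rot_c s (partner_spec (Cr s) S s x hx).1
  · intro i h1 h2
    rw [← (hzi i h2).1]
    exact (hzi i h2).2 h1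

theorem ip_sameCycle (x y : XD s) :
    (ipRho S s).SameCycle x y ↔ (ipf S s).SameCycle x.1 y.1 := by
  constructor
  · intro h
    obtain ⟨k, rfl⟩ := h.exists_nat_pow_eq
    clear h
    induction k with
    | zero => exact Equiv.Perm.SameCycle.refl _ _
    | succ k ih =>
      refine Equiv.Perm.SameCycle.trans ih ?_
      rw [pow_succ', Equiv.Perm.mul_apply]
      obtain ⟨m, hm, -⟩ := ip_return S s ((ipRho S s ^ k) x).1 ((ipRho S s ^ k) x).2
      rw [ipRho_val, ← hm]
      exact Equiv.Perm.sameCycle_pow_right.mpr (Equiv.Perm.SameCycle.refl _ _)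
  · intro h
    obtain ⟨n, hn⟩ := h.exists_nat_pow_eq
    clear h
    induction n using Nat.strong_induction_on generalizing x with
    | _ n ih =>
      rcases Nat.eq_zero_or_pos n with h0 | h0
      · subst h0
        have : x = y := Subtype.ext hn
        rw [this]
      · obtain ⟨m, hm, hm2⟩ := ip_return S s x.1 x.2
        have h1 : m < n := by
          by_contra hcon
          apply hm2 n h0 (by omega)
          rw [hn]
          exact y.2
        have h2 : (ipf S s ^ (n - (m + 1))) (ipRho S s x).1 = y.1 := by
          rw [ipRho_val, ← hm, ← Equiv.Perm.mul_apply, ← pow_add]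
          have h3 : n - (m + 1) + (m + 1) = n := by omega
          rw [h3, hn]
        have h3 := ih (n - (m + 1)) (by omega) (ipRho S s x) h2
        exact Equiv.Perm.sameCycle_apply_left.mp h3

open Classical in
theorem ip_count : cycles (ipf S s) = 2 * loops (Cr s) S s + cycles (ipRho S s) := by
  let Q := Quotient (Equiv.Perm.SameCycle.setoid (ipf S s))
  let P : Q → Prop := fun q => ∃ x : Dart V, isC s x ∧ Quotient.mk _ x = q
  have hfin : Finite Q := Quotient.finite _
  have h1 : Nat.card Q = Nat.card {q : Q // P q} + Nat.card {q : Q // ¬ P q} := by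
    rw [← Nat.card_sum]
    exact Nat.card_congr (Equiv.sumCompl P).symm
  have h2 : Nat.card {q : Q // P q} = cycles (ipRho S s) := by
    symm
    let g : Quotient (Equiv.Perm.SameCycle.setoid (ipRho S s)) → {q : Q // P q} :=
      fun q => Quotient.liftOn q
        (fun x => (⟨Quotient.mk _ x.1, x.1, x.2, rfl⟩ : {q : Q // P q}))
        (fun x y hxy => Subtype.ext (Quotient.sound ((ip_sameCycle S s x y).mp hxy)))
    refine Nat.card_eq_of_bijective g ⟨?_, ?_⟩
    · intro a b
      induction a using Quotient.inductionOn with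
      | _ x =>
        induction b using Quotient.inductionOn with
        | _ y =>
          intro h
          have h3 := Quotient.exact (congrArg Subtype.val h)
          exact Quotient.sound ((ip_sameCycle S s x y).mpr h3)
    · rintro ⟨q, x, hx, rfl⟩
      exact ⟨Quotient.mk _ ⟨x, hx⟩, rfl⟩
  have h3 : Nat.card {q : Q // ¬ P q} = loops (Cr s) S s * 2 := by
    symm
    let Lp := {q : Quotient (Relation.EqvGen.setoid (arcRel (Cr s) S s)) //
      ∀ x : Dart V, Quotient.mk _ x = q → ¬ Cr s x.1}
    have hcl : ∀ (c : Lp) (y : Dart V), Quotient.mk _ y = c.1 → ipCl S s y := by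
      intro c y hy x hx
      apply c.2 x
      rw [← hy]
      exact Quotient.sound hx
    have hnP : ∀ y, ipCl S s y → ¬ P (Quotient.mk _ y) := by
      rintro y hy ⟨x, hx, hxy⟩
      exact (ipCl_iff S s y).mp hy ⟨x, hx, Quotient.exact hxy⟩
    let r : Lp → Dart V := fun c => Quotient.out c.1
    have hr : ∀ c : Lp, Quotient.mk _ (r c) = c.1 := fun c => Quotient.out_eq c.1
    let e : Lp × Bool → Dart V := fun c => if c.2 then r c.1 else S.α (r c.1)
    have he : ∀ c, ipCl S s (e c) := by
      intro c
      show ipCl S s (if c.2 then r c.1 else S.α (r c.1))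
      split_ifs
      · exact hcl c.1 _ (hr c.1)
      · exact ipCl_alpha S s (hcl c.1 _ (hr c.1))
    have hea : ∀ c, Relation.EqvGen (arcRel (Cr s) S s) (r c.1) (e c) := by
      intro c
      show Relation.EqvGen (arcRel (Cr s) S s) (r c.1) (if c.2 then r c.1 else S.α (r c.1))
      split_ifs
      · exact Relation.EqvGen.refl _
      · exact Relation.EqvGen.rel _ _ (Or.inl rfl)
    let g : Lp × Bool → {q : Q // ¬ P q} := fun c => ⟨Quotient.mk _ (e c), hnP _ (he c)⟩
    have hg : Function.Bijective g := by
      constructor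
      · rintro ⟨c, b⟩ ⟨c', b'⟩ h
        have h4 : (ipf S s).SameCycle (e (c, b)) (e (c', b')) :=
          Quotient.exact (congrArg Subtype.val h)
        have h5 : c = c' := by
          obtain ⟨k, hk⟩ := h4.exists_nat_pow_eq
          have h6 := (ipCl_pow S s (he (c, b)) k).2
          rw [hk] at h6
          apply Subtype.ext
          rw [← hr c, ← hr c']
          exact Quotient.sound (Relation.EqvGen.trans _ _ _ (hea (c, b))
            (Relation.EqvGen.trans _ _ _ h6 (Relation.EqvGen.symm _ _ (hea (c', b')))))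
        subst h5
        have hne := ipCl_ne S s (hcl c _ (hr c))
        rcases b with _ | _ <;> rcases b' with _ | _
        · rfl
        · exact absurd h4.symm hne
        · exact absurd h4 hne
        · rfl
      · rintro ⟨q, hq⟩
        induction q using Quotient.inductionOn with
        | _ y =>
          have hy : ipCl S s y := by
            rw [ipCl_iff]
            rintro ⟨x, hx, hxy⟩
            exact hq ⟨x, hx, Quotient.sound hxy⟩
          let c : Lp := ⟨Quotient.mk _ y, fun x hx => hy x (Quotient.exact hx)⟩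
          have hc : Relation.EqvGen (arcRel (Cr s) S s) (r c) y := Quotient.exact (hr c)
          rcases ipCl_two S s (hcl c _ (hr c)) hc with h4 | h4
          · exact ⟨(c, true), Subtype.ext (Quotient.sound h4)⟩
          · exact ⟨(c, false), Subtype.ext (Quotient.sound h4)⟩
    have h4 := Nat.card_eq_of_bijective g hg
    rw [Nat.card_prod, Nat.card_eq_fintype_card (α := Bool), Fintype.card_bool] at h4
    exact h4
  show Nat.card Q = _
  rw [h1, h2, h3]
  ring

/-- the number of crossing darts -/
theorem ip_card : Nat.card (XD s) = 4 * nX s := by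
  classical
  have e : XD s ≃ {v : V // (s v).isX = true} × ZMod 4 :=
    { toFun := fun x => (⟨x.1.1, x.2⟩, x.1.2)
      invFun := fun y => ⟨(y.1.1, y.2), y.1.2⟩
      left_inv := fun x => rfl
      right_inv := fun y => rfl }
  rw [Nat.card_congr e, Nat.card_prod, Nat.card_eq_fintype_card (α := ZMod 4), ZMod.card,
    Nat.card_eq_fintype_card, Fintype.card_subtype, mul_comm]
  rfl

theorem ip_pieces : pieces S s = loops (Cr s) S s + classes (genU (Cr s) S s (rot s)) :=
  gen_classes (Cr s) S s (rot s) (fun _ => rfl) (fun _ h => ip_rot_nc s h)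

theorem ip_comps : comps S s = loops (Cr s) S s + classes (genU (Cr s) S s (tau s)) :=
  gen_classes (Cr s) S s (tau s) (fun _ => rfl) (fun _ _ => rfl)

theorem ip_planar : Planar S s ↔
    cycles (ipRho S s) = nX s + 2 * classes (genU (Cr s) S s (rot s)) := by
  unfold Planar
  have h1 := ip_count S s
  have h2 := ip_pieces S s
  have h3 : cycles (rot s * S.α) = cycles (ipf S s) := rfl
  omega

end oneDiagram

variable {V V' : Type} [Fintype V] [DecidableEq V] [Fintype V'] [DecidableEq V']
  {S : Shadow V} {s : V → St} {S' : Shadow V'} {s' : V' → St}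

/-- the partner is respected -/
theorem DMap.ip_partner (e : DMap S s S' s') (x : XD s) :
    (e.φ (ipBeta S s x)).1 = partner (Cr s') S' s' (e.φ x).1 := by
  obtain ⟨h1, h2, h3, -⟩ := partner_spec (Cr s) S s x.1 x.2
  symm
  apply partner_eq (Cr s') S' s' (e.φ x).1 _ (e.φ x).2 (e.φ (ipBeta S s x)).2
  · intro h
    have h4 : ipBeta S s x = x := e.φ.injective (Subtype.ext h)
    exact h2 (congrArg Subtype.val h4)
  · exact (e.arc x (ipBeta S s x)).mp h3

theorem Planar.iso (e : DMap S s S' s') (h : Planar S s) : Planar S' s' := by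
  rw [ip_planar] at h ⊢
  have h1 : nX s = nX s' := by
    have h2 := Nat.card_congr e.φ
    have h3 : Nat.card (XD s) = Nat.card (XD s') := h2
    rw [ip_card, ip_card] at h3
    omega
  have h2 : cycles (ipRho S s) = cycles (ipRho S' s') := by
    apply ip_cycles e.φ
    intro x
    apply Subtype.ext
    have h3 := e.rot (ipBeta S s x) (ipRho S s x) rfl
    rw [h3, e.ip_partner]
    rfl
  have h3 : classes (genU (Cr s) S s (rot s)) = classes (genU (Cr s') S' s' (rot s')) := by
    apply ip_classes (X := {x : Dart V // Cr s x.1}) (Y := {x : Dart V' // Cr s' x.1}) e.φ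
    intro x y
    unfold genU
    apply or_congr
    · constructor
      · intro hy
        have h4 : y = ipBeta S s x := Subtype.ext hy
        rw [h4]
        exact e.ip_partner x
      · intro hy
        have h4 : e.φ y = e.φ (ipBeta S s x) := Subtype.ext (by rw [e.ip_partner]; exact hy)
        exact congrArg Subtype.val (e.φ.injective h4)
    · have ha : rot s x.1 = sg x.1 := ip_rot_c s x.2
      have hb : rot s' (e.φ x).1 = sg (e.φ x).1 := ip_rot_c s' (e.φ x).2
      constructor
      · intro hy
        exact (e.rot x y (Eq.trans hy ha)).trans hb.symm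
      · intro hy
        have h4 := e.rot x (ipSg s x) rfl
        have h5 : e.φ y = e.φ (ipSg s x) :=
          Subtype.ext (Eq.trans hy (Eq.trans hb h4.symm))
        have h6 : y.1 = sg x.1 := congrArg Subtype.val (e.φ.injective h5)
        exact Eq.trans h6 ha.symm
  rw [← h1, ← h2, ← h3]
  exact h

/-- the pure diagram -/
noncomputable def ipPure (S : Shadow V) (s : V → St) :
    Shadow {v : V // (s v).isX = true} where
  α :=
    { toFun := fun x => (⟨(partner (Cr s) S s (x.1.1, x.2)).1,
          (partner_spec (Cr s) S s (x.1.1, x.2) x.1.2).1⟩, (partner (Cr s) S s (x.1.1, x.2)).2)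
      invFun := fun x => (⟨(partner (Cr s) S s (x.1.1, x.2)).1,
          (partner_spec (Cr s) S s (x.1.1, x.2) x.1.2).1⟩, (partner (Cr s) S s (x.1.1, x.2)).2)
      left_inv := by
        intro x
        have h := partner_partner (Cr s) S s (x.1.1, x.2) x.1.2
        have h2 : (partner (Cr s) S s (partner (Cr s) S s (x.1.1, x.2))).2 = x.2 :=
          congrArg Prod.snd h
        apply Prod.ext
        · exact Subtype.ext (congrArg Prod.fst h)
        · exact h2
      right_inv := by
        intro x
        have h := partner_partner (Cr s) S s (x.1.1, x.2) x.1.2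
        have h2 : (partner (Cr s) S s (partner (Cr s) S s (x.1.1, x.2))).2 = x.2 :=
          congrArg Prod.snd h
        apply Prod.ext
        · exact Subtype.ext (congrArg Prod.fst h)
        · exact h2 }
  invol := by
    intro x
    have h := partner_partner (Cr s) S s (x.1.1, x.2) x.1.2
    have h2 : (partner (Cr s) S s (partner (Cr s) S s (x.1.1, x.2))).2 = x.2 :=
      congrArg Prod.snd h
    apply Prod.ext
    · exact Subtype.ext (congrArg Prod.fst h)
    · exact h2
  noFix := by
    intro x h
    have h1 := (partner_spec (Cr s) S s (x.1.1, x.2) x.1.2).2.1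
    apply h1
    have h2 : (partner (Cr s) S s (x.1.1, x.2)).2 = x.2 :=
      congrArg (fun y : Dart {v : V // (s v).isX = true} => y.2) h
    have h3 : (partner (Cr s) S s (x.1.1, x.2)).1 = x.1.1 :=
      congrArg (fun y : Dart {v : V // (s v).isX = true} => y.1.1) h
    exact Prod.ext h3 h2

/-- the crossing darts as darts of the pure diagram -/
def ipE (s : V → St) : XD s ≃ Dart {v : V // (s v).isX = true} where
  toFun x := (⟨x.1.1, x.2⟩, x.1.2)
  invFun y := ⟨(y.1.1, y.2), y.1.2⟩
  left_inv _ := rfl
  right_inv _ := rfl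

theorem ipPure_alpha (S : Shadow V) (s : V → St) (x : XD s) :
    (ipPure S s).α (ipE s x) = ipE s (ipBeta S s x) := rfl

theorem ipPure_arc (S : Shadow V) (s : V → St) (x y : XD s) :
    Arc S s x.1 y.1 ↔ Arc (ipPure S s) (fun v => s v.1) (ipE s x) (ipE s y) := by
  constructor
  · intro h
    obtain ⟨h1, h2, h3, h4⟩ := partner_spec (Cr s) S s x.1 x.2
    rcases h4 y.1 y.2 h with h5 | h5
    · have : y = x := Subtype.ext h5
      rw [this]
      exact Relation.EqvGen.refl _
    · have : y = ipBeta S s x := Subtype.ext h5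
      rw [this]
      exact Relation.EqvGen.rel _ _ (Or.inl rfl)
  · intro h
    have key : ∀ a b, Arc (ipPure S s) (fun v => s v.1) a b →
        Arc S s ((ipE s).symm a).1 ((ipE s).symm b).1 := by
      intro a b hab
      induction hab with
      | rel a b hab =>
        rcases hab with rfl | ⟨h1, _⟩
        · exact (partner_spec (Cr s) S s ((ipE s).symm a).1 ((ipE s).symm a).2).2.2.1
        · exact absurd a.1.2 h1
      | refl a => exact Relation.EqvGen.refl _
      | symm a b _ ih => exact Relation.EqvGen.symm _ _ ih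
      | trans a b c _ _ ih1 ih2 => exact Relation.EqvGen.trans _ _ _ ih1 ih2
    exact key _ _ h

theorem exists_pure (S : Shadow V) (s : V → St) :
    ∃ (S' : Shadow {v : V // (s v).isX = true}) (e : DMap S s S' (fun v => s v.1)),
      (∀ x, ((e.φ x).1.1.1, (e.φ x).1.2) = x.1) ∧
      ∃ k, comps S s = comps S' (fun v => s v.1) + k := by
  let eφ : XD s ≃ {x : Dart {v : V // (s v).isX = true} // isC (fun v => s v.1) x} :=
    { toFun := fun x => ⟨ipE s x, x.2⟩
      invFun := fun y => (ipE s).symm y.1
      left_inv := fun _ => rfl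
      right_inv := fun _ => rfl }
  refine ⟨ipPure S s, ⟨eφ, ?_, ?_, ?_⟩, ?_, loops (Cr s) S s, ?_⟩
  · intro x y hxy
    have : y = ipSg s x := Subtype.ext hxy
    rw [this]
    rfl
  · intro x y
    exact ipPure_arc S s x y
  · intro x
    rfl
  · intro x
    rfl
  · rw [ip_comps, add_comm]
    congr 1
    apply ip_classes (X := {x : Dart V // Cr s x.1}) (ipE s)
    intro x y
    apply or_congr
    · constructor
      · intro hy
        have h4 : y = ipBeta S s x := Subtype.ext hy
        rw [h4]
        rfl
      · intro hy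
        have h4 : y = ipBeta S s x := (ipE s).injective hy
        exact congrArg Subtype.val h4
    · constructor
      · intro hy
        have h4 : y = ⟨tau s x.1, x.2⟩ := Subtype.ext hy
        rw [h4]
        rfl
      · intro hy
        have h4 : y = ⟨tau s x.1, x.2⟩ := (ipE s).injective hy
        exact congrArg Subtype.val h4

end Pool.Agent.Helper65.LK
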