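import Pool.Agent.Helper65.LK.Tri

/-!
# LK-17b. The triangle move after smoothing

Notation: `S' = S.conj π`.  `far x` is what follows on the arc of `S` which leaves the triangle at an outer dart
`x` of `S`; the outer darts of `S` are `(u,i+2), (u,i+3), (v,j+2), (v,j+3), (w,k+2), (w,k+3)`.
In `S'` the outer darts are `(u,i), (u,i+1), (v,j), (v,j+1), (w,k), (w,k+1)` and the outer dart `y` is
followed by `far (π y)` (two outer darts `x, y` of `S` may be joined to each other; then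
`π x, π y` are joined in `S'`).  The inner arcs of `S'` are
`(u,i+3)-(v,j+2)`, `(v,j+3)-(w,k+2)`, `(w,k+3)-(u,i+2)`.

`tri_iso1` (`turn i` at `u` joins `(u,i+1),(u,i+2)` and `(u,i+3),(u,i)`).
`S` : `(v,j) → far (u,i+2)`, `(v,j+1) → (w,k)`, `(v,j+2), (v,j+3)` outer; `(w,k+1) → far (u,i+3)`,
`(w,k+2), (w,k+3)` outer.
`S'`: `(w,k+1) → far (u,i+2)`, `(w,k+2) → (v,j+3)`, `(w,k+3) → far (v,j+2)`, `(w,k) → far (v,j+3)`;
`(v,j) → far (u,i+3)`, `(v,j+1) → far (w,k+2)`, `(v,j+2) → far (w,k+3)`.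
So `φ (v, j + a) = (w, k + 1 + a)`, `φ (w, k + a) = (v, j + 3 + a)`, identity elsewhere, is an
isomorphism.  `upper`: from `(s v).upper (j+1) ≠ (s w).upper (k+1)`.

`tri_iso2`: all three vertices are smoothed, `turn (i+1)` at `u`, `turn j` at `v`, `turn k` at `w`.
`S` : the twelve darts form three chains `(u,i+2)-(u,i+3)`;
`(v,j+3)-(v,j)-(u,i+1)-(u,i)-(w,k+1)-(w,k+2)`; `(v,j+2)-(v,j+1)-(w,k)-(w,k+3)`.
`S'`: `(u,i)-(u,i+1)` joining `far (w,k+3)` and `far (v,j+2)`; `(v,j)-(v,j+3)-(w,k+2)-(w,k+1)` joining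
`far (u,i+3)` and `far (u,i+2)`; `(v,j+1)-(v,j+2)-(u,i+3)-(u,i+2)-(w,k+3)-(w,k)` joining `far (w,k+2)` and
`far (v,j+3)`.  The same ends are joined, so the identity on the crossing darts is an isomorphism.

The numbers of components are equal in both cases.  One way: let `Ξ` map the darts outside `u, v, w`
to themselves, every outer dart `x` of `S` to `π x` and every inner dart of `S` to `Ξ` of an outer dart in
the same class of `S`; define `Ξ'` from `S'` to `S` in the same way.  `Ξ` and `Ξ'` map steps (`α`, `tau`) into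
classes, and `Ξ' (Ξ x)` is in the class of `x`; so the sets of classes are in bijection.  Another way:
`gen_classes` with `U` = `{u, v, w}` and a finite check.
-/

set_option linter.unusedSectionVars false
set_option linter.unusedSimpArgs false

namespace Pool.Agent.Helper65.LK

open Function

namespace TI

section general

variable {V : Type} [Fintype V]

/-- two crossing darts are connected by partners outside the crossings and `θ` -/
def Qc (S : Shadow V) (s : V → St) (θ : Dart V → Dart V) (x y : Dart V) : Prop :=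
  ∃ (hx : Cr s x.1) (hy : Cr s y.1), Relation.EqvGen (genU (Cr s) S s θ) ⟨x, hx⟩ ⟨y, hy⟩

variable {S S' : Shadow V} {s : V → St} {θ : Dart V → Dart V} {F G : Dart V → Dart V}

theorem Qc.refl {x : Dart V} (hx : Cr s x.1) : Qc S s θ x x :=
  ⟨hx, hx, Relation.EqvGen.refl _⟩

theorem Qc.symm {x y : Dart V} (h : Qc S s θ x y) : Qc S s θ y x := by
  obtain ⟨hx, hy, h⟩ := h
  exact ⟨hy, hx, h.symm⟩

theorem Qc.trans {x y z : Dart V} (h : Qc S s θ x y) (h' : Qc S s θ y z) : Qc S s θ x z := by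
  obtain ⟨hx, hy, h⟩ := h
  obtain ⟨_, hz, h'⟩ := h'
  exact ⟨hx, hz, h.trans _ _ _ h'⟩

theorem Qc.ofP {x y : Dart V} (hx : Cr s x.1) (hy : Cr s y.1)
    (h : partner (Cr s) S s x = y) : Qc S s θ x y :=
  ⟨hx, hy, Relation.EqvGen.rel _ _ (Or.inl h.symm)⟩

theorem Qc.ofT {x y : Dart V} (hx : Cr s x.1) (hy : Cr s y.1)
    (h : θ x = y) : Qc S s θ x y :=
  ⟨hx, hy, Relation.EqvGen.rel _ _ (Or.inr h.symm)⟩

theorem Qc_iff {x y : Dart V} (hx : Cr s x.1) (hy : Cr s y.1) :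
    Qc S s θ x y ↔ Relation.EqvGen (genU (Cr s) S s θ) ⟨x, hx⟩ ⟨y, hy⟩ :=
  ⟨fun ⟨_, _, h⟩ => h, fun h => ⟨hx, hy, h⟩⟩

/-- a map of darts which respects the connections -/
structure Half (S S' : Shadow V) (s : V → St) (θ : Dart V → Dart V) (F : Dart V → Dart V) :
    Prop where
  mem : ∀ x : Dart V, Cr s x.1 → Cr s (F x).1
  P : ∀ x : Dart V, Cr s x.1 → Qc S' s θ (F x) (F (partner (Cr s) S s x))
  T : ∀ x : Dart V, Cr s x.1 → Qc S' s θ (F x) (F (θ x))

theorem Half.fwd (h : Half S S' s θ F) {x y : Dart V} (hxy : Qc S s θ x y) :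
    Qc S' s θ (F x) (F y) := by
  obtain ⟨hx, hy, e⟩ := hxy
  have key : ∀ a b : {x : Dart V // Cr s x.1}, Relation.EqvGen (genU (Cr s) S s θ) a b →
      Qc S' s θ (F a.1) (F b.1) := by
    intro a b hab
    induction hab with
    | rel a b hab =>
      rcases hab with hab | hab
      · rw [hab]; exact h.P _ a.2
      · rw [hab]; exact h.T _ a.2
    | refl a => exact Qc.refl (h.mem _ a.2)
    | symm a b _ ih => exact ih.symm
    | trans a b c _ _ ih1 ih2 => exact ih1.trans ih2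
  exact key _ _ e

theorem Half.iff (h : Half S S' s θ F) (h' : Half S' S s θ G)
    (hGF : ∀ x : Dart V, Cr s x.1 → Qc S s θ (G (F x)) x) {x y : Dart V} (hx : Cr s x.1)
    (hy : Cr s y.1) : Qc S s θ x y ↔ Qc S' s θ (F x) (F y) :=
  ⟨h.fwd, fun e => ((hGF x hx).symm.trans (h'.fwd e)).trans (hGF y hy)⟩

theorem Half.classes (h : Half S S' s θ F) (h' : Half S' S s θ G)
    (hGF : ∀ x : Dart V, Cr s x.1 → Qc S s θ (G (F x)) x)
    (hFG : ∀ x : Dart V, Cr s x.1 → Qc S' s θ (F (G x)) x) :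
    LK.classes (genU (Cr s) S s θ) = LK.classes (genU (Cr s) S' s θ) := by
  unfold LK.classes
  refine Nat.card_congr ?_
  refine ⟨Quotient.map (fun x => ⟨F x.1, h.mem _ x.2⟩) ?_,
    Quotient.map (fun x => ⟨G x.1, h'.mem _ x.2⟩) ?_, ?_, ?_⟩
  · intro a b hab
    exact (Qc_iff _ _).1 (h.fwd ((Qc_iff a.2 b.2).2 hab))
  · intro a b hab
    exact (Qc_iff _ _).1 (h'.fwd ((Qc_iff a.2 b.2).2 hab))
  · intro q
    induction q using Quotient.inductionOn with
    | h a => exact Quotient.sound ((Qc_iff _ _).1 (hGF a.1 a.2))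
  · intro q
    induction q using Quotient.inductionOn with
    | h a => exact Quotient.sound ((Qc_iff _ _).1 (hFG a.1 a.2))

end general

section tri

variable {V : Type} [Fintype V] [DecidableEq V] {S : Shadow V} {s : V → St} {u v w : V}
  {i j k : ZMod 4}

theorem partner_conj (T : Tri S s u i v j w k) (x : Dart V) (hx : Cr s x.1) :
    partner (Cr s) (S.conj (tri u i v j w k)) s (tri u i v j w k x) =
      tri u i v j w k (partner (Cr s) S s x) := by
  obtain ⟨h1, h2, h3, -⟩ := partner_spec (Cr s) S s x hx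
  refine partner_eq _ _ _ _ _ ((T.isC_iff x).2 hx) ((T.isC_iff _).2 h1)
    (fun h => h2 ((tri u i v j w k).injective h)) ((T.arc_iff _ _).2 h3)

theorem loops_conj (T : Tri S s u i v j w k) :
    loops (Cr s) (S.conj (tri u i v j w k)) s = loops (Cr s) S s := by
  unfold loops
  symm
  refine Nat.card_congr (Equiv.subtypeEquiv
    (Quotient.congr (tri u i v j w k : Dart V ≃ Dart V) fun a b => (T.arc_iff a b).symm) ?_)
  intro q
  induction q using Quotient.inductionOn with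
  | h a =>
    constructor
    · intro h x hx hc
      have hx' : tri u i v j w k (tri u i v j w k x) = x :=
        tri_invol i j k T.uv T.vw T.wu x
      refine h (tri u i v j w k x) ?_ ((T.isC_iff x).2 hc)
      refine Quotient.sound ((T.arc_iff _ _).1 ?_)
      rw [hx']
      exact Quotient.exact hx
    · intro h x hx hc
      refine h (tri u i v j w k x) ?_ ((T.isC_iff x).2 hc)
      exact Quotient.sound ((T.arc_iff _ _).2 (Quotient.exact hx))

/-- table with four entries -/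
def pick (a b c d : Dart V) (n : ZMod 4) : Dart V :=
  if n = 0 then a else if n = 1 then b else if n = 2 then c else d

/-- table of the map for the first isomorphism -/
def F1 (u : V) (i : ZMod 4) (v : V) (j : ZMod 4) (w : V) (k : ZMod 4) (x : Dart V) : Dart V :=
  if x.1 = u then pick (v, j) (w, k + 1) (w, k + 1) (v, j) (x.2 - i)
  else if x.1 = v then pick (w, k + 1) (w, k + 2) (u, i + 1) (w, k) (x.2 - j)
  else if x.1 = w then pick (w, k + 2) (v, j) (v, j + 1) (u, i) (x.2 - k)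
  else x

/-- table of the map for the second isomorphism -/
def F2 (u : V) (i : ZMod 4) (v : V) (j : ZMod 4) (w : V) (k : ZMod 4) (x : Dart V) : Dart V :=
  if x.1 = u then pick (w, k) (w, k) (w, k + 1) (v, j) (x.2 - i)
  else if x.1 = v then pick (w, k) (u, i + 1) (u, i + 1) (w, k) (x.2 - j)
  else if x.1 = w then pick (u, i + 1) (w, k) (v, j + 1) (u, i) (x.2 - k)
  else x

theorem z1 : (1 : ZMod 4) ≠ 0 := by decide
theorem z2 : (2 : ZMod 4) ≠ 0 := by decide
theorem z3 : (3 : ZMod 4) ≠ 0 := by decide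
theorem z21 : (2 : ZMod 4) ≠ 1 := by decide
theorem z31 : (3 : ZMod 4) ≠ 1 := by decide
theorem z32 : (3 : ZMod 4) ≠ 2 := by decide
theorem s22 (a : ZMod 4) : a + 2 + 2 = a := by revert a; decide
theorem s21 (a : ZMod 4) : a + 2 + 1 = a + 3 := by revert a; decide
theorem s23 (a : ZMod 4) : a + 2 + 3 = a + 1 := by revert a; decide
theorem s12 (a : ZMod 4) : a + 1 + 2 = a + 3 := by revert a; decide
theorem s32 (a : ZMod 4) : a + 3 + 2 = a + 1 := by revert a; decide

theorem zcases (i a : ZMod 4) : a = i ∨ a = i + 1 ∨ a = i + 2 ∨ a = i + 3 := by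
  revert i a; decide

theorem dcases (u : V) (i : ZMod 4) (v : V) (j : ZMod 4) (w : V) (k : ZMod 4) (x : Dart V) :
    (x.1 ≠ u ∧ x.1 ≠ v ∧ x.1 ≠ w) ∨ x = (u, i) ∨ x = (u, i + 1) ∨ x = (u, i + 2) ∨
      x = (u, i + 3) ∨ x = (v, j) ∨ x = (v, j + 1) ∨ x = (v, j + 2) ∨ x = (v, j + 3) ∨
      x = (w, k) ∨ x = (w, k + 1) ∨ x = (w, k + 2) ∨ x = (w, k + 3) := by
  obtain ⟨y, a⟩ := x
  by_cases h1 : y = u
  · subst h1
    rcases zcases i a with h | h | h | h <;> simp [h]
  by_cases h2 : y = v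
  · subst h2
    rcases zcases j a with h | h | h | h <;> simp [h]
  by_cases h3 : y = w
  · subst h3
    rcases zcases k a with h | h | h | h <;> simp [h]
  · left; exact ⟨h1, h2, h3⟩

theorem F1_apply (i j k : ZMod 4) (uv : u ≠ v) (vw : v ≠ w) (wu : w ≠ u) :
    F1 u i v j w k (u, i) = (v, j) ∧ F1 u i v j w k (u, i + 1) = (w, k + 1) ∧
    F1 u i v j w k (u, i + 2) = (w, k + 1) ∧ F1 u i v j w k (u, i + 3) = (v, j) ∧
    F1 u i v j w k (v, j) = (w, k + 1) ∧ F1 u i v j w k (v, j + 1) = (w, k + 2) ∧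
    F1 u i v j w k (v, j + 2) = (u, i + 1) ∧ F1 u i v j w k (v, j + 3) = (w, k) ∧
    F1 u i v j w k (w, k) = (w, k + 2) ∧ F1 u i v j w k (w, k + 1) = (v, j) ∧
    F1 u i v j w k (w, k + 2) = (v, j + 1) ∧ F1 u i v j w k (w, k + 3) = (u, i) ∧
    ∀ x : Dart V, x.1 ≠ u → x.1 ≠ v → x.1 ≠ w → F1 u i v j w k x = x := by
  refine ⟨?_, ?_, ?_, ?_, ?_, ?_, ?_, ?_, ?_, ?_, ?_, ?_, ?_⟩
  all_goals first
    | (intro x h1 h2 h3; simp [F1, h1, h2, h3])
    | simp [F1, pick, uv, vw, wu, uv.symm, vw.symm, wu.symm, z1, z2, z3, z21, z31, z32]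

theorem F2_apply (i j k : ZMod 4) (uv : u ≠ v) (vw : v ≠ w) (wu : w ≠ u) :
    F2 u i v j w k (u, i) = (w, k) ∧ F2 u i v j w k (u, i + 1) = (w, k) ∧
    F2 u i v j w k (u, i + 2) = (w, k + 1) ∧ F2 u i v j w k (u, i + 3) = (v, j) ∧
    F2 u i v j w k (v, j) = (w, k) ∧ F2 u i v j w k (v, j + 1) = (u, i + 1) ∧
    F2 u i v j w k (v, j + 2) = (u, i + 1) ∧ F2 u i v j w k (v, j + 3) = (w, k) ∧
    F2 u i v j w k (w, k) = (u, i + 1) ∧ F2 u i v j w k (w, k + 1) = (w, k) ∧
    F2 u i v j w k (w, k + 2) = (v, j + 1) ∧ F2 u i v j w k (w, k + 3) = (u, i) ∧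
    ∀ x : Dart V, x.1 ≠ u → x.1 ≠ v → x.1 ≠ w → F2 u i v j w k x = x := by
  refine ⟨?_, ?_, ?_, ?_, ?_, ?_, ?_, ?_, ?_, ?_, ?_, ?_, ?_⟩
  all_goals first
    | (intro x h1 h2 h3; simp [F2, h1, h2, h3])
    | simp [F2, pick, uv, vw, wu, uv.symm, vw.symm, wu.symm, z1, z2, z3, z21, z31, z32]

theorem pf (T : Tri S s u i v j w k) :
    partner (Cr s) S s (u, i + 1) = (v, j) ∧ partner (Cr s) S s (v, j) = (u, i + 1) ∧
    partner (Cr s) S s (v, j + 1) = (w, k) ∧ partner (Cr s) S s (w, k) = (v, j + 1) ∧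
    partner (Cr s) S s (w, k + 1) = (u, i) ∧ partner (Cr s) S s (u, i) = (w, k + 1) := by
  have n1 : ((v, j) : Dart V) ≠ (u, i + 1) := fun h => T.uv (congrArg Prod.fst h).symm
  have n2 : ((w, k) : Dart V) ≠ (v, j + 1) := fun h => T.vw (congrArg Prod.fst h).symm
  have n3 : ((u, i) : Dart V) ≠ (w, k + 1) := fun h => T.wu (congrArg Prod.fst h).symm
  exact ⟨partner_eq _ _ _ _ _ T.cu T.cv n1 T.a1, partner_eq _ _ _ _ _ T.cv T.cu n1.symm T.a1.symm,
    partner_eq _ _ _ _ _ T.cv T.cw n2 T.a2, partner_eq _ _ _ _ _ T.cw T.cv n2.symm T.a2.symm,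
    partner_eq _ _ _ _ _ T.cw T.cu n3 T.a3, partner_eq _ _ _ _ _ T.cu T.cw n3.symm T.a3.symm⟩

/-- the six inner darts -/
def Inn (u : V) (i : ZMod 4) (v : V) (j : ZMod 4) (w : V) (k : ZMod 4) (x : Dart V) : Prop :=
  x = (u, i) ∨ x = (u, i + 1) ∨ x = (v, j) ∨ x = (v, j + 1) ∨ x = (w, k) ∨ x = (w, k + 1)

theorem inn_partner (T : Tri S s u i v j w k) {x : Dart V} (hx : Cr s x.1)
    (h : Inn u i v j w k (partner (Cr s) S s x)) : Inn u i v j w k x := by
  obtain ⟨p1, p2, p3, p4, p5, p6⟩ := pf T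
  have e := partner_partner (Cr s) S s x hx
  rcases h with h | h | h | h | h | h <;> rw [h] at e
  · rw [p6] at e; subst e; simp [Inn]
  · rw [p1] at e; subst e; simp [Inn]
  · rw [p2] at e; subst e; simp [Inn]
  · rw [p3] at e; subst e; simp [Inn]
  · rw [p4] at e; subst e; simp [Inn]
  · rw [p5] at e; subst e; simp [Inn]

/-- the partner condition for a map which agrees with `tri` outside the inner darts -/
theorem halfP {S' : Shadow V} (T : Tri S s u i v j w k) (hS : S' = S.conj (tri u i v j w k))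
    {θ F : Dart V → Dart V} (hm : ∀ x : Dart V, Cr s x.1 → Cr s (F x).1)
    (h1 : F (u, i + 1) = F (v, j)) (h2 : F (v, j + 1) = F (w, k))
    (h3 : F (w, k + 1) = F (u, i))
    (h4 : ∀ x, ¬ Inn u i v j w k x → F x = tri u i v j w k x) (x : Dart V) (hx : Cr s x.1) :
    Qc S' s θ (F x) (F (partner (Cr s) S s x)) := by
  obtain ⟨p1, p2, p3, p4, p5, p6⟩ := pf T
  by_cases hi : Inn u i v j w k x
  · rcases hi with h | h | h | h | h | h <;> subst h
    · rw [p6, h3]; exact Qc.refl (hm _ hx)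
    · rw [p1, h1]; exact Qc.refl (hm _ T.cv)
    · rw [p2, h1]; exact Qc.refl (hm _ hx)
    · rw [p3, h2]; exact Qc.refl (hm _ T.cw)
    · rw [p4, h2]; exact Qc.refl (hm _ hx)
    · rw [p5, h3]; exact Qc.refl (hm _ T.cu)
  · have hi' : ¬ Inn u i v j w k (partner (Cr s) S s x) := fun h => hi (inn_partner T hx h)
    have hp := (partner_spec (Cr s) S s x hx).1
    refine Qc.ofP (hm _ hx) (hm _ hp) ?_
    rw [h4 _ hi, h4 _ hi', hS]
    exact partner_conj T x hx

theorem F1_eq (i j k : ZMod 4) (uv : u ≠ v) (vw : v ≠ w) (wu : w ≠ u) (x : Dart V)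
    (h : ¬ Inn u i v j w k x) : F1 u i v j w k x = tri u i v j w k x := by
  obtain ⟨a1, a2, a3, a4, b1, b2, b3, b4, c1, c2, c3, c4, d⟩ := F1_apply i j k uv vw wu
  obtain ⟨e1, e2, e3, e4, f1, f2, f3, f4, g1, g2, g3, g4, m⟩ := tri_apply i j k uv vw wu
  rcases dcases u i v j w k x with h' | h' | h' | h' | h' | h' | h' | h' | h' | h' | h' | h' | h'
  · rw [d x h'.1 h'.2.1 h'.2.2, m x h'.1 h'.2.1 h'.2.2]
  all_goals subst h'
  all_goals first
    | (exfalso; apply h; simp [Inn]; done)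
    | simp only [a3, a4, b3, b4, c3, c4, e3, e4, f3, f4, g3, g4]

theorem F2_eq (i j k : ZMod 4) (uv : u ≠ v) (vw : v ≠ w) (wu : w ≠ u) (x : Dart V)
    (h : ¬ Inn u i v j w k x) : F2 u i v j w k x = tri u i v j w k x := by
  obtain ⟨a1, a2, a3, a4, b1, b2, b3, b4, c1, c2, c3, c4, d⟩ := F2_apply i j k uv vw wu
  obtain ⟨e1, e2, e3, e4, f1, f2, f3, f4, g1, g2, g3, g4, m⟩ := tri_apply i j k uv vw wu
  rcases dcases u i v j w k x with h' | h' | h' | h' | h' | h' | h' | h' | h' | h' | h' | h' | h'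
  · rw [d x h'.1 h'.2.1 h'.2.2, m x h'.1 h'.2.1 h'.2.2]
  all_goals subst h'
  all_goals first
    | (exfalso; apply h; simp [Inn]; done)
    | simp only [a3, a4, b3, b4, c3, c4, e3, e4, f3, f4, g3, g4]

theorem half1 {S' : Shadow V} (T : Tri S s u i v j w k)
    (T' : Tri S' s u (i + 2) v (j + 2) w (k + 2))
    (hS : S' = S.conj (tri u i v j w k)) {θ : Dart V → Dart V} (hθ : ∀ x, (θ x).1 = x.1)
    (hu : θ (u, i) = (u, i + 3) ∧ θ (u, i + 1) = (u, i + 2) ∧ θ (u, i + 2) = (u, i + 1) ∧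
      θ (u, i + 3) = (u, i))
    (h4 : (∀ a, θ (v, a) = (v, a) ∧ θ (w, a) = (w, a)) ∨
      (∀ a, θ (v, a) = (v, a + 2) ∧ θ (w, a) = (w, a + 2))) :
    Half S S' s θ (F1 u i v j w k) := by
  obtain ⟨a1, a2, a3, a4, b1, b2, b3, b4, c1, c2, c3, c4, d⟩ := F1_apply i j k T.uv T.vw T.wu
  obtain ⟨u1, u2, u3, u4⟩ := hu
  have cu : Cr s u := T.cu
  have cv : Cr s v := T.cv
  have cw : Cr s w := T.cw
  obtain ⟨p1, p2, p3, p4, p5, p6⟩ := pf T'
  simp only [s22, s21, s23] at p1 p2 p3 p4 p5 p6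
  have hm : ∀ x : Dart V, Cr s x.1 → Cr s (F1 u i v j w k x).1 := by
    intro x hx
    rcases dcases u i v j w k x with h' | h' | h' | h' | h' | h' | h' | h' | h' | h' | h' | h' | h'
    · rw [d x h'.1 h'.2.1 h'.2.2]; exact hx
    all_goals subst h'
    all_goals simp only [a1, a2, a3, a4, b1, b2, b3, b4, c1, c2, c3, c4]
    all_goals assumption
  refine ⟨hm, halfP T hS hm (by rw [a2, b1]) (by rw [b2, c1]) (by rw [c2, a1])
    (F1_eq i j k T.uv T.vw T.wu), ?_⟩
  intro x hx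
  rcases h4 with h4 | h4
  · rcases dcases u i v j w k x with h' | h' | h' | h' | h' | h' | h' | h' | h' | h' | h' | h' | h'
    · have h2 : (θ x).1 ≠ u ∧ (θ x).1 ≠ v ∧ (θ x).1 ≠ w := by rw [hθ]; exact h'
      rw [d x h'.1 h'.2.1 h'.2.2, d (θ x) h2.1 h2.2.1 h2.2.2]
      refine Qc.ofT hx ?_ rfl
      rw [hθ]; exact hx
    all_goals subst h'
    all_goals simp only [u1, u2, u3, u4, h4, a1, a2, a3, a4, b1, b2, b3, b4, c1, c2, c3, c4]
    all_goals exact Qc.refl (by assumption)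
  · have t1 : ∀ a, θ (v, a) = (v, a + 2) := fun a => (h4 a).1
    have t2 : ∀ a, θ (w, a) = (w, a + 2) := fun a => (h4 a).2
    have q1 : Qc S' s θ (w, k + 1) (u, i + 1) :=
      ((Qc.ofT cw cw (by rw [t2, s12])).trans (Qc.ofP cw cu p5)).trans (Qc.ofT cu cu u3)
    have q2 : Qc S' s θ (w, k + 2) (w, k) := Qc.ofT cw cw (by rw [t2, s22])
    have q3 : Qc S' s θ (w, k + 2) (v, j + 1) :=
      (Qc.ofP cw cv p4).trans (Qc.ofT cv cv (by rw [t1, s32]))
    have q4 : Qc S' s θ (v, j) (u, i) :=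
      ((Qc.ofT cv cv (t1 j)).trans (Qc.ofP cv cu p2)).trans (Qc.ofT cu cu u4)
    rcases dcases u i v j w k x with h' | h' | h' | h' | h' | h' | h' | h' | h' | h' | h' | h' | h'
    · have h2 : (θ x).1 ≠ u ∧ (θ x).1 ≠ v ∧ (θ x).1 ≠ w := by rw [hθ]; exact h'
      rw [d x h'.1 h'.2.1 h'.2.2, d (θ x) h2.1 h2.2.1 h2.2.2]
      refine Qc.ofT hx ?_ rfl
      rw [hθ]; exact hx
    all_goals subst h'
    all_goals simp only [u1, u2, u3, u4, t1, t2, s22, s12, s32, a1, a2, a3, a4, b1, b2, b3, b4,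
      c1, c2, c3, c4]
    all_goals first
      | exact Qc.refl (by assumption)
      | exact q1
      | exact q1.symm
      | exact q2
      | exact q2.symm
      | exact q3
      | exact q3.symm
      | exact q4
      | exact q4.symm

theorem back1 (T : Tri S s u i v j w k) {θ : Dart V → Dart V}
    (hu : θ (u, i) = (u, i + 3) ∧ θ (u, i + 1) = (u, i + 2) ∧ θ (u, i + 2) = (u, i + 1) ∧
      θ (u, i + 3) = (u, i)) (x : Dart V) (hx : Cr s x.1) :
    Qc S s θ (F1 u (i + 2) v (j + 2) w (k + 2) (F1 u i v j w k x)) x := by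
  obtain ⟨a1, a2, a3, a4, b1, b2, b3, b4, c1, c2, c3, c4, d⟩ := F1_apply i j k T.uv T.vw T.wu
  obtain ⟨e1, e2, e3, e4, f1, f2, f3, f4, g1, g2, g3, g4, m⟩ :=
    F1_apply (i + 2) (j + 2) (k + 2) T.uv T.vw T.wu
  simp only [s22, s21, s23] at e1 e2 e3 e4 f1 f2 f3 f4 g1 g2 g3 g4
  obtain ⟨u1, u2, u3, u4⟩ := hu
  have cu : Cr s u := T.cu
  have cv : Cr s v := T.cv
  have cw : Cr s w := T.cw
  obtain ⟨p1, p2, p3, p4, p5, p6⟩ := pf T
  have q1 : Qc S s θ (u, i + 2) (u, i + 1) := Qc.ofT cu cu u3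
  have q2 : Qc S s θ (u, i + 2) (v, j) := q1.trans (Qc.ofP cu cv p1)
  have q3 : Qc S s θ (u, i + 3) (u, i) := Qc.ofT cu cu u4
  have q4 : Qc S s θ (u, i + 3) (w, k + 1) := q3.trans (Qc.ofP cu cw p6)
  have q5 : Qc S s θ (w, k) (v, j + 1) := Qc.ofP cw cv p4
  rcases dcases u i v j w k x with h' | h' | h' | h' | h' | h' | h' | h' | h' | h' | h' | h' | h'
  · rw [d x h'.1 h'.2.1 h'.2.2, m x h'.1 h'.2.1 h'.2.2]; exact Qc.refl hx
  all_goals subst h'
  all_goals simp only [a1, a2, a3, a4, b1, b2, b3, b4, c1, c2, c3, c4, e1, e2, e3, e4, f1, f2, f3,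
    f4, g1, g2, g3, g4]
  all_goals first
    | exact Qc.refl (by assumption)
    | exact q1
    | exact q2
    | exact q3
    | exact q4
    | exact q5

theorem half2 {S' : Shadow V} (T : Tri S s u i v j w k)
    (T' : Tri S' s u (i + 2) v (j + 2) w (k + 2))
    (hS : S' = S.conj (tri u i v j w k)) {θ : Dart V → Dart V} (hθ : ∀ x, (θ x).1 = x.1)
    (hu : θ (u, i) = (u, i + 1) ∧ θ (u, i + 1) = (u, i) ∧ θ (u, i + 2) = (u, i + 3) ∧
      θ (u, i + 3) = (u, i + 2))
    (hv : θ (v, j) = (v, j + 3) ∧ θ (v, j + 1) = (v, j + 2) ∧ θ (v, j + 2) = (v, j + 1) ∧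
      θ (v, j + 3) = (v, j))
    (hw : θ (w, k) = (w, k + 3) ∧ θ (w, k + 1) = (w, k + 2) ∧ θ (w, k + 2) = (w, k + 1) ∧
      θ (w, k + 3) = (w, k)) :
    Half S S' s θ (F2 u i v j w k) := by
  obtain ⟨a1, a2, a3, a4, b1, b2, b3, b4, c1, c2, c3, c4, d⟩ := F2_apply i j k T.uv T.vw T.wu
  obtain ⟨u1, u2, u3, u4⟩ := hu
  obtain ⟨v1, v2, v3, v4⟩ := hv
  obtain ⟨w1, w2, w3, w4⟩ := hw
  have cu : Cr s u := T.cu
  have cv : Cr s v := T.cv
  have cw : Cr s w := T.cw
  obtain ⟨p1, p2, p3, p4, p5, p6⟩ := pf T'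
  simp only [s22, s21, s23] at p1 p2 p3 p4 p5 p6
  have hm : ∀ x : Dart V, Cr s x.1 → Cr s (F2 u i v j w k x).1 := by
    intro x hx
    rcases dcases u i v j w k x with h' | h' | h' | h' | h' | h' | h' | h' | h' | h' | h' | h' | h'
    · rw [d x h'.1 h'.2.1 h'.2.2]; exact hx
    all_goals subst h'
    all_goals simp only [a1, a2, a3, a4, b1, b2, b3, b4, c1, c2, c3, c4]
    all_goals assumption
  refine ⟨hm, halfP T hS hm (by rw [a2, b1]) (by rw [b2, c1]) (by rw [c2, a1])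
    (F2_eq i j k T.uv T.vw T.wu), ?_⟩
  intro x hx
  have q1 : Qc S' s θ (w, k + 1) (v, j) :=
    ((Qc.ofT cw cw w2).trans (Qc.ofP cw cv p4)).trans (Qc.ofT cv cv v4)
  have q2 : Qc S' s θ (u, i + 1) (u, i) := Qc.ofT cu cu u2
  have q3 : Qc S' s θ (w, k) (v, j + 1) :=
    ((((Qc.ofT cw cw w1).trans (Qc.ofP cw cu p5)).trans (Qc.ofT cu cu u3)).trans
      (Qc.ofP cu cv p1)).trans (Qc.ofT cv cv v3)
  rcases dcases u i v j w k x with h' | h' | h' | h' | h' | h' | h' | h' | h' | h' | h' | h' | h'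
  · have h2 : (θ x).1 ≠ u ∧ (θ x).1 ≠ v ∧ (θ x).1 ≠ w := by rw [hθ]; exact h'
    rw [d x h'.1 h'.2.1 h'.2.2, d (θ x) h2.1 h2.2.1 h2.2.2]
    refine Qc.ofT hx ?_ rfl
    rw [hθ]; exact hx
  all_goals subst h'
  all_goals simp only [u1, u2, u3, u4, v1, v2, v3, v4, w1, w2, w3, w4, a1, a2, a3, a4, b1, b2, b3,
    b4, c1, c2, c3, c4]
  all_goals first
    | exact Qc.refl (by assumption)
    | exact q1
    | exact q1.symm
    | exact q2
    | exact q2.symm
    | exact q3
    | exact q3.symm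

theorem back2 (T : Tri S s u i v j w k) {θ : Dart V → Dart V}
    (hu : θ (u, i) = (u, i + 1) ∧ θ (u, i + 1) = (u, i) ∧ θ (u, i + 2) = (u, i + 3) ∧
      θ (u, i + 3) = (u, i + 2))
    (hv : θ (v, j) = (v, j + 3) ∧ θ (v, j + 1) = (v, j + 2) ∧ θ (v, j + 2) = (v, j + 1) ∧
      θ (v, j + 3) = (v, j)) (x : Dart V) (hx : Cr s x.1) :
    Qc S s θ (F2 u (i + 2) v (j + 2) w (k + 2) (F2 u i v j w k x)) x := by
  obtain ⟨a1, a2, a3, a4, b1, b2, b3, b4, c1, c2, c3, c4, d⟩ := F2_apply i j k T.uv T.vw T.wu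
  obtain ⟨e1, e2, e3, e4, f1, f2, f3, f4, g1, g2, g3, g4, m⟩ :=
    F2_apply (i + 2) (j + 2) (k + 2) T.uv T.vw T.wu
  simp only [s22, s21, s23] at e1 e2 e3 e4 f1 f2 f3 f4 g1 g2 g3 g4
  obtain ⟨u1, u2, u3, u4⟩ := hu
  obtain ⟨v1, v2, v3, v4⟩ := hv
  have cu : Cr s u := T.cu
  have cv : Cr s v := T.cv
  have cw : Cr s w := T.cw
  obtain ⟨p1, p2, p3, p4, p5, p6⟩ := pf T
  have q1 : Qc S s θ (v, j + 3) (v, j) := Qc.ofT cv cv v4
  have q2 : Qc S s θ (v, j + 3) (u, i + 1) := q1.trans (Qc.ofP cv cu p2)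
  have q3 : Qc S s θ (v, j + 3) (u, i) := q2.trans (Qc.ofT cu cu u2)
  have q4 : Qc S s θ (v, j + 3) (w, k + 1) := q3.trans (Qc.ofP cu cw p6)
  have q5 : Qc S s θ (v, j + 2) (v, j + 1) := Qc.ofT cv cv v3
  have q6 : Qc S s θ (v, j + 2) (w, k) := q5.trans (Qc.ofP cv cw p3)
  rcases dcases u i v j w k x with h' | h' | h' | h' | h' | h' | h' | h' | h' | h' | h' | h' | h'
  · rw [d x h'.1 h'.2.1 h'.2.2, m x h'.1 h'.2.1 h'.2.2]; exact Qc.refl hx
  all_goals subst h'
  all_goals simp only [a1, a2, a3, a4, b1, b2, b3, b4, c1, c2, c3, c4, e1, e2, e3, e4, f1, f2, f3,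
    f4, g1, g2, g3, g4]
  all_goals first
    | exact Qc.refl (by assumption)
    | exact q1
    | exact q2
    | exact q3
    | exact q4
    | exact q5
    | exact q6

/-- the involution which generates the arcs -/
def thA (t : V → St) (x : Dart V) : Dart V := if isC t x then x else tau t x

theorem thA_fst (t : V → St) (x : Dart V) : (thA t x).1 = x.1 := by
  unfold thA; split_ifs <;> rfl

theorem arc_Qc (S : Shadow V) {s t : V → St} (htb : Below t s) {x y : Dart V}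
    (hx : Cr s x.1) (hy : Cr s y.1) : Arc S t x y ↔ Qc S s (thA t) x y := by
  rw [Arc_eq_gen, Qc_iff hx hy]
  refine gen_iff (Cr s) S s (thA t) (thA_fst t) ?_ ⟨x, hx⟩ ⟨y, hy⟩
  intro x hx
  have h0 : (s x.1).isX = false := by simpa [Cr] using hx
  have h1 : t x.1 = s x.1 := htb _ h0
  have h2 : ¬ isC t x := by simp [isC, h1, h0]
  unfold thA
  rw [if_neg h2]
  simp [tau, h1]

theorem comps_Qc (S : Shadow V) {s t : V → St} (htb : Below t s) :
    comps S t = loops (Cr s) S s + LK.classes (genU (Cr s) S s (tau t)) := by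
  refine gen_classes (Cr s) S s (tau t) (fun _ => rfl) ?_
  intro x hx
  have h0 : (s x.1).isX = false := by simpa [Cr] using hx
  have h1 : t x.1 = s x.1 := htb _ h0
  simp [tau, h1]

theorem build {S' : Shadow V} {t : V → St} (htb : Below t s)
    (htc : ∀ x, (t x).isX = true → (s x).isX = true) {F G : Dart V → Dart V}
    (hA : Half S S' s (thA t) F) (hA' : Half S' S s (thA t) G)
    (hAb : ∀ x : Dart V, Cr s x.1 → Qc S s (thA t) (G (F x)) x)
    (hC : Half S S' s (tau t) F) (hC' : Half S' S s (tau t) G)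
    (hCb : ∀ x : Dart V, Cr s x.1 → Qc S s (tau t) (G (F x)) x)
    (hCb' : ∀ x : Dart V, Cr s x.1 → Qc S' s (tau t) (F (G x)) x)
    (hL : loops (Cr s) S' s = loops (Cr s) S s)
    (σ : Equiv.Perm (Dart V)) (hσ : ∀ x, isC t x ↔ isC t (σ x))
    (hφ : ∀ x, isC t x → Qc S' s (thA t) (F x) (σ x))
    (hrot : ∀ x, isC t x → σ (sg x) = sg (σ x))
    (hup : ∀ x, isC t x → (t x.1).upper x.2 = (t (σ x).1).upper (σ x).2) :
    Nonempty (DIso S t S' t) := by
  have hcr : ∀ x : Dart V, isC t x → Cr s x.1 := fun x hx => htc _ hx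
  refine ⟨{ φ := Equiv.subtypeEquiv σ hσ, rot := ?_, arc := ?_, upper := ?_, comps := ?_ }⟩
  · rintro ⟨x, hx⟩ ⟨y, hy⟩ h
    simp only [Equiv.subtypeEquiv_apply] at h ⊢
    rw [h]
    exact hrot x hx
  · rintro ⟨x, hx⟩ ⟨y, hy⟩
    simp only [Equiv.subtypeEquiv_apply]
    rw [arc_Qc S htb (hcr _ hx) (hcr _ hy),
      arc_Qc S' htb (hcr _ ((hσ x).1 hx)) (hcr _ ((hσ y).1 hy)),
      hA.iff hA' hAb (hcr _ hx) (hcr _ hy)]
    exact ⟨fun h => ((hφ x hx).symm.trans h).trans (hφ y hy),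
      fun h => ((hφ x hx).trans h).trans (hφ y hy).symm⟩
  · rintro ⟨x, hx⟩
    exact hup x hx
  · rw [comps_Qc S htb, comps_Qc S' htb, hL, hC.classes hC' hCb hCb']

theorem mate_turn (i : ZMod 4) : (St.turn i).mate i = i + 3 ∧ (St.turn i).mate (i + 1) = i + 2 ∧
    (St.turn i).mate (i + 2) = i + 1 ∧ (St.turn i).mate (i + 3) = i := by
  revert i; decide

theorem mate_turn' (i : ZMod 4) : (St.turn (i + 1)).mate i = i + 1 ∧
    (St.turn (i + 1)).mate (i + 1) = i ∧
    (St.turn (i + 1)).mate (i + 2) = i + 3 ∧ (St.turn (i + 1)).mate (i + 3) = i + 2 := by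
  revert i; decide

theorem isX_turn (i : ZMod 4) : (St.turn i).isX = false := by
  revert i; decide

theorem turn_add_two (i : ZMod 4) : St.turn (i + 2) = St.turn i := by
  revert i; decide

theorem mate_isX (q : St) (hq : q.isX = true) (a : ZMod 4) : q.mate a = a + 2 := by
  revert a; cases q <;> first | (simp [St.isX] at hq; done) | decide

/-- the map of the crossing darts in the first isomorphism -/
def sig (v : V) (j : ZMod 4) (w : V) (k : ZMod 4) (x : Dart V) : Dart V :=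
  if x.1 = v then (w, x.2 - j + k + 1) else if x.1 = w then (v, x.2 - k + j + 3) else x

theorem sig_invol (vw : v ≠ w) : Function.Involutive (sig v j w k) := by
  rintro ⟨y, a⟩
  have e1 : ∀ a j k : ZMod 4, a - j + k + 1 - k + j + 3 = a := by decide
  have e2 : ∀ a j k : ZMod 4, a - k + j + 3 - j + k + 1 = a := by decide
  by_cases h1 : y = v
  · subst h1
    simp [sig, vw.symm, e1]
  by_cases h2 : y = w
  · subst h2
    simp [sig, vw.symm, e2]
  · simp [sig, h1, h2]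

theorem upper_shift : ∀ (p q : St) (j k : ZMod 4), p.isX = true → q.isX = true →
    p.upper (j + 1) ≠ q.upper (k + 1) →
    (∀ a : ZMod 4, p.upper a = q.upper (a - j + k + 1)) ∧
    (∀ a : ZMod 4, q.upper a = p.upper (a - k + j + 3)) := by
  intro p q
  cases p <;> cases q <;> decide

end tri

end TI

variable {V : Type} [Fintype V] [DecidableEq V] {S : Shadow V} {s : V → St} {u v w : V}
  {i j k : ZMod 4}

open TI

theorem tri_iso1 (T : Tri S s u i v j w k) (h : (s v).upper (j + 1) ≠ (s w).upper (k + 1)) :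
    Nonempty (DIso S (update s u (St.turn i)) (S.conj (tri u i v j w k))
      (update s u (St.turn i))) := by
  set t := update s u (St.turn i) with ht
  have tu : t u = St.turn i := by simp [ht]
  have hto : ∀ x, x ≠ u → t x = s x := fun x hx => by simp [ht, hx]
  have tv : t v = s v := hto v T.uv.symm
  have tw : t w = s w := hto w T.wu
  have T' := T.conj
  have hSS : S = (S.conj (tri u i v j w k)).conj (tri u (i + 2) v (j + 2) w (k + 2)) := by
    rw [(tri_rot i j k T.uv T.vw T.wu).2, T.conj_conj]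
  have T'' : Tri S s u (i + 2 + 2) v (j + 2 + 2) w (k + 2 + 2) := by
    simpa only [s22] using T
  have htb : Below t s := by
    intro x hx
    refine hto x ?_
    rintro rfl
    rw [T.cu] at hx
    exact absurd hx (by decide)
  have htc : ∀ x, (t x).isX = true → (s x).isX = true := by
    intro x hx
    by_cases hxu : x = u
    · subst hxu; rw [tu, isX_turn] at hx; exact absurd hx (by decide)
    · rwa [hto x hxu] at hx
  -- the values of the involutions at `u`
  obtain ⟨m1, m2, m3, m4⟩ := mate_turn i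
  have nu : ∀ a, ¬ isC t (u, a) := by
    intro a; simp [isC, tu, isX_turn]
  have yv : ∀ a, isC t (v, a) := by intro a; simp [isC, tv, T.cv]
  have yw : ∀ a, isC t (w, a) := by intro a; simp [isC, tw, T.cw]
  have hA : thA t (u, i) = (u, i + 3) ∧ thA t (u, i + 1) = (u, i + 2) ∧
      thA t (u, i + 2) = (u, i + 1) ∧ thA t (u, i + 3) = (u, i) := by
    simp only [thA, nu, if_false, tau, Equiv.coe_fn_mk, tu, m1, m2, m3, m4, and_self]
  have hC : tau t (u, i) = (u, i + 3) ∧ tau t (u, i + 1) = (u, i + 2) ∧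
      tau t (u, i + 2) = (u, i + 1) ∧ tau t (u, i + 3) = (u, i) := by
    simp only [tau, Equiv.coe_fn_mk, tu, m1, m2, m3, m4, and_self]
  have hA2 : thA t (u, i + 2) = (u, i + 2 + 3) ∧ thA t (u, i + 2 + 1) = (u, i + 2 + 2) ∧
      thA t (u, i + 2 + 2) = (u, i + 2 + 1) ∧ thA t (u, i + 2 + 3) = (u, i + 2) := by
    obtain ⟨h1, h2, h3, h4⟩ := hA
    simp only [s22, s21, s23, h1, h2, h3, h4, and_self]
  have hC2 : tau t (u, i + 2) = (u, i + 2 + 3) ∧ tau t (u, i + 2 + 1) = (u, i + 2 + 2) ∧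
      tau t (u, i + 2 + 2) = (u, i + 2 + 1) ∧ tau t (u, i + 2 + 3) = (u, i + 2) := by
    obtain ⟨h1, h2, h3, h4⟩ := hC
    simp only [s22, s21, s23, h1, h2, h3, h4, and_self]
  have h4A : (∀ a, thA t (v, a) = (v, a) ∧ thA t (w, a) = (w, a)) ∨
      (∀ a, thA t (v, a) = (v, a + 2) ∧ thA t (w, a) = (w, a + 2)) := by
    left; intro a
    simp only [thA, yv, yw, if_true, and_self]
  have h4C : (∀ a, tau t (v, a) = (v, a) ∧ tau t (w, a) = (w, a)) ∨
      (∀ a, tau t (v, a) = (v, a + 2) ∧ tau t (w, a) = (w, a + 2)) := by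
    right; intro a
    simp only [tau, Equiv.coe_fn_mk, tv, tw, mate_isX _ T.cv, mate_isX _ T.cw, and_self]
  have bA := back1 T (θ := thA t) hA
  have bC := back1 T (θ := tau t) hC
  have bC' := back1 T' (θ := tau t) hC2
  simp only [s22] at bC'
  have gA := half1 T' T'' hSS (thA_fst t) hA2 h4A
  have gC := half1 T' T'' hSS (θ := ⇑(tau t)) (fun _ => rfl) hC2 h4C
  refine build htb htc (half1 T T' rfl (thA_fst t) hA h4A) gA bA
    (half1 T T' rfl (θ := ⇑(tau t)) (fun _ => rfl) hC h4C) gC bC bC' (loops_conj T)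
    (sig_invol (j := j) (k := k) T.vw).toPerm ?_ ?_ ?_ ?_
  · rintro ⟨y, a⟩
    simp only [Function.Involutive.coe_toPerm]
    by_cases h1 : y = v
    · subst h1; simp [sig, yv, yw]
    by_cases h2 : y = w
    · subst h2; simp [sig, yv, yw, T.vw.symm]
    · simp [sig, h1, h2]
  · obtain ⟨a1, a2, a3, a4, b1, b2, b3, b4, c1, c2, c3, c4, d⟩ := F1_apply i j k T.uv T.vw T.wu
    have cu : Cr s u := T.cu
    have cv : Cr s v := T.cv
    have cw : Cr s w := T.cw
    obtain ⟨p1, p2, p3, p4, p5, p6⟩ := pf T'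
    simp only [s22, s21, s23] at p1 p2 p3 p4 p5 p6
    obtain ⟨u1, u2, u3, u4⟩ := hA
    intro x hx
    simp only [Function.Involutive.coe_toPerm]
    have q1 : Qc (S.conj (tri u i v j w k)) s (thA t) (u, i + 1) (w, k + 3) :=
      (Qc.ofT cu cu u2).trans (Qc.ofP cu cw p6)
    have q2 : Qc (S.conj (tri u i v j w k)) s (thA t) (w, k + 2) (v, j + 3) :=
      Qc.ofP cw cv p4
    have q3 : Qc (S.conj (tri u i v j w k)) s (thA t) (u, i) (v, j + 2) :=
      (Qc.ofT cu cu u1).trans (Qc.ofP cu cv p1)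
    have e1 : ∀ k : ZMod 4, k + 1 + 1 = k + 2 := by decide
    have e2 : ∀ k : ZMod 4, 1 + k + 1 = k + 2 := by decide
    have e3 : ∀ k : ZMod 4, 2 + k + 1 = k + 3 := by decide
    have e4 : ∀ k : ZMod 4, 3 + k + 1 = k := by decide
    have e5 : ∀ k : ZMod 4, 1 + k + 3 = k := by decide
    have e6 : ∀ k : ZMod 4, 2 + k + 3 = k + 1 := by decide
    have e7 : ∀ k : ZMod 4, 3 + k + 3 = k + 2 := by decide
    rcases dcases u i v j w k x with h' | h' | h' | h' | h' | h' | h' | h' | h' | h' | h' | h' | h'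
    · rw [d x h'.1 h'.2.1 h'.2.2]
      have : sig v j w k x = x := by simp [sig, h'.2.1, h'.2.2]
      rw [this]
      exact Qc.refl (htc _ hx)
    all_goals subst h'
    all_goals first
      | exact absurd hx (nu _)
      | simp only [b1, b2, b3, b4, c1, c2, c3, c4, sig, if_true, T.vw.symm, if_false,
          add_sub_cancel_left, sub_self, zero_add, e2, e3, e4, e5, e6, e7]
    all_goals first
      | exact Qc.refl (by assumption)
      | exact q1
      | exact q2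
      | exact q3
  · rintro ⟨y, a⟩ hx
    simp only [Function.Involutive.coe_toPerm]
    by_cases h1 : y = v
    · subst h1
      simp only [sig, sg, if_true, Prod.mk.injEq, true_and]
      ring
    by_cases h2 : y = w
    · subst h2
      simp only [sig, sg, if_true, T.vw.symm, if_false, Prod.mk.injEq, true_and]
      ring
    · simp [sig, sg, h1, h2]
  · obtain ⟨hj, hk⟩ := upper_shift (s v) (s w) j k T.cv T.cw h
    rintro ⟨y, a⟩ hx
    simp only [Function.Involutive.coe_toPerm]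
    by_cases h1 : y = v
    · subst h1
      simp only [sig, if_true, tv, tw]
      exact hj a
    by_cases h2 : y = w
    · subst h2
      simp only [sig, if_true, T.vw.symm, if_false, tv, tw]
      exact hk a
    · simp [sig, h1, h2]

theorem tri_iso2 (T : Tri S s u i v j w k) :
    Nonempty (DIso S
      (update (update (update s u (St.turn (i + 1))) v (St.turn j)) w (St.turn k))
      (S.conj (tri u i v j w k))
      (update (update (update s u (St.turn (i + 1))) v (St.turn j)) w (St.turn k))) := by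
  set t := update (update (update s u (St.turn (i + 1))) v (St.turn j)) w (St.turn k) with ht
  have tw : t w = St.turn k := by simp [ht]
  have tv : t v = St.turn j := by simp [ht, T.vw]
  have tu : t u = St.turn (i + 1) := by simp [ht, T.uv, T.wu.symm]
  have hto : ∀ x, x ≠ u → x ≠ v → x ≠ w → t x = s x := fun x h1 h2 h3 => by simp [ht, h1, h2, h3]
  have T' := T.conj
  have hSS : S = (S.conj (tri u i v j w k)).conj (tri u (i + 2) v (j + 2) w (k + 2)) := by
    rw [(tri_rot i j k T.uv T.vw T.wu).2, T.conj_conj]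
  have T'' : Tri S s u (i + 2 + 2) v (j + 2 + 2) w (k + 2 + 2) := by
    simpa only [s22] using T
  have htb : Below t s := by
    intro x hx
    refine hto x ?_ ?_ ?_
    · rintro rfl; rw [T.cu] at hx; exact absurd hx (by decide)
    · rintro rfl; rw [T.cv] at hx; exact absurd hx (by decide)
    · rintro rfl; rw [T.cw] at hx; exact absurd hx (by decide)
  have htc : ∀ x, (t x).isX = true → (s x).isX = true := by
    intro x hx
    by_cases h1 : x = u
    · subst h1; exact T.cu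
    by_cases h2 : x = v
    · subst h2; exact T.cv
    by_cases h3 : x = w
    · subst h3; exact T.cw
    rwa [hto x h1 h2 h3] at hx
  obtain ⟨m1, m2, m3, m4⟩ := mate_turn' i
  obtain ⟨n1, n2, n3, n4⟩ := mate_turn j
  obtain ⟨o1, o2, o3, o4⟩ := mate_turn k
  have nu : ∀ a, ¬ isC t (u, a) := by intro a; simp [isC, tu, isX_turn]
  have nv : ∀ a, ¬ isC t (v, a) := by intro a; simp [isC, tv, isX_turn]
  have nw : ∀ a, ¬ isC t (w, a) := by intro a; simp [isC, tw, isX_turn]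
  have hAu : thA t (u, i) = (u, i + 1) ∧ thA t (u, i + 1) = (u, i) ∧
      thA t (u, i + 2) = (u, i + 3) ∧ thA t (u, i + 3) = (u, i + 2) := by
    simp only [thA, nu, if_false, tau, Equiv.coe_fn_mk, tu, m1, m2, m3, m4, and_self]
  have hAv : thA t (v, j) = (v, j + 3) ∧ thA t (v, j + 1) = (v, j + 2) ∧
      thA t (v, j + 2) = (v, j + 1) ∧ thA t (v, j + 3) = (v, j) := by
    simp only [thA, nv, if_false, tau, Equiv.coe_fn_mk, tv, n1, n2, n3, n4, and_self]
  have hAw : thA t (w, k) = (w, k + 3) ∧ thA t (w, k + 1) = (w, k + 2) ∧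
      thA t (w, k + 2) = (w, k + 1) ∧ thA t (w, k + 3) = (w, k) := by
    simp only [thA, nw, if_false, tau, Equiv.coe_fn_mk, tw, o1, o2, o3, o4, and_self]
  have hCu : tau t (u, i) = (u, i + 1) ∧ tau t (u, i + 1) = (u, i) ∧
      tau t (u, i + 2) = (u, i + 3) ∧ tau t (u, i + 3) = (u, i + 2) := by
    simp only [tau, Equiv.coe_fn_mk, tu, m1, m2, m3, m4, and_self]
  have hCv : tau t (v, j) = (v, j + 3) ∧ tau t (v, j + 1) = (v, j + 2) ∧
      tau t (v, j + 2) = (v, j + 1) ∧ tau t (v, j + 3) = (v, j) := by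
    simp only [tau, Equiv.coe_fn_mk, tv, n1, n2, n3, n4, and_self]
  have hCw : tau t (w, k) = (w, k + 3) ∧ tau t (w, k + 1) = (w, k + 2) ∧
      tau t (w, k + 2) = (w, k + 1) ∧ tau t (w, k + 3) = (w, k) := by
    simp only [tau, Equiv.coe_fn_mk, tw, o1, o2, o3, o4, and_self]
  have shU : ∀ θ : Dart V → Dart V, (θ (u, i) = (u, i + 1) ∧ θ (u, i + 1) = (u, i) ∧
      θ (u, i + 2) = (u, i + 3) ∧ θ (u, i + 3) = (u, i + 2)) →
      (θ (u, i + 2) = (u, i + 2 + 1) ∧ θ (u, i + 2 + 1) = (u, i + 2) ∧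
      θ (u, i + 2 + 2) = (u, i + 2 + 3) ∧ θ (u, i + 2 + 3) = (u, i + 2 + 2)) := by
    rintro θ ⟨h1, h2, h3, h4⟩
    simp only [s22, s21, s23, h1, h2, h3, h4, and_self]
  have shV : ∀ (x : V) (a : ZMod 4) (θ : Dart V → Dart V), (θ (x, a) = (x, a + 3) ∧
      θ (x, a + 1) = (x, a + 2) ∧ θ (x, a + 2) = (x, a + 1) ∧ θ (x, a + 3) = (x, a)) →
      (θ (x, a + 2) = (x, a + 2 + 3) ∧ θ (x, a + 2 + 1) = (x, a + 2 + 2) ∧
      θ (x, a + 2 + 2) = (x, a + 2 + 1) ∧ θ (x, a + 2 + 3) = (x, a + 2)) := by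
    rintro x a θ ⟨h1, h2, h3, h4⟩
    simp only [s22, s21, s23, h1, h2, h3, h4, and_self]
  have bC' := back2 T' (θ := tau t) (shU _ hCu) (shV _ _ _ hCv)
  simp only [s22] at bC'
  refine build htb htc (half2 T T' rfl (thA_fst t) hAu hAv hAw)
    (half2 T' T'' hSS (thA_fst t) (shU _ hAu) (shV _ _ _ hAv) (shV _ _ _ hAw))
    (back2 T hAu hAv) (half2 T T' rfl (θ := ⇑(tau t)) (fun _ => rfl) hCu hCv hCw)
    (half2 T' T'' hSS (θ := ⇑(tau t)) (fun _ => rfl) (shU _ hCu) (shV _ _ _ hCv) (shV _ _ _ hCw))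
    (back2 T hCu hCv) bC' (loops_conj T) (Equiv.refl _) (fun _ => Iff.rfl) ?_
    (fun _ _ => rfl) (fun _ _ => rfl)
  intro x hx
  obtain ⟨a1, a2, a3, a4, b1, b2, b3, b4, c1, c2, c3, c4, d⟩ := F2_apply i j k T.uv T.vw T.wu
  have h' : x.1 ≠ u ∧ x.1 ≠ v ∧ x.1 ≠ w := by
    refine ⟨?_, ?_, ?_⟩
    · rintro h; exact nu x.2 (by rw [← h]; exact hx)
    · rintro h; exact nv x.2 (by rw [← h]; exact hx)
    · rintro h; exact nw x.2 (by rw [← h]; exact hx)
  rw [d x h'.1 h'.2.1 h'.2.2]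
  exact Qc.refl (htc _ hx)

end Pool.Agent.Helper65.LK
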