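import Pool.Agent.Helper65.LK.Move2
import Pool.Agent.Helper65.LK.TriIso

/-!
# LK-17c. Skein functions are invariant under the third Reidemeister move

Notation: `π = tri u i v j w k`, `S' = S.conj π`.  Call a state `t` below `s` with crossings at `u, v, w`
admissible if not `(t u).upper (i+1) = (t v).upper (j+1) = (t w).upper (k+1)`.
Proof by induction on `nX s`, for all `F, F', Ok, Ok', h` simultaneously.  For an admissible `t` of the
same shape as `s` let `G t = F t - F' t`.
(a) At a crossing `x ∉ {u, v, w}`: `G t + G (update t x (t x).sw) = z (G (update t x smA) + G (update t x smB)) = 0` by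
the skein relations and the induction hypothesis (for `update t x smA` use `IsSkein.restrict`, any
sweep (`exists_sweep`), `Tri.below`).
(b) At `u`, if `t` and `update t u (t u).sw` are both admissible: then `(t v).upper (j+1) ≠ (t w).upper (k+1)`.
`F t + F (update t u (t u).sw) = z (F (t, u : turn i) + F (t, u : turn (i+1)))`, the same for `F'`.
`F (t, u : turn i) = F' (t, u : turn i)` by `tri_iso1` and `iso_eq_true` (`k = 0`, `IsSkein.restrict`).
`(t, u : turn (i+1))` in `S`: `(v,j)-(u,i+1)-(u,i)-(w,k+1)` are on one arc, so `Arc (v,j) (w,k+1)`,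
`Arc (v,j+1) (w,k)`, and `(t v).upper j = (t w).upper (k+1)`: by `skein_R2` `F` has the value of
`(t, u : turn (i+1), v : turn j, w : turn k)`.  In `S'` the triangle has the indices `i+2, j+2, k+2`
(`Tri.conj`) and in the same way, with `(v,j+2), (w,k+3)`, `(v,j+3), (w,k+2)`, `F' (t, u : turn (i+1))` is the value of
`F'` at the same state (`turn (j + 2) = turn j`).  These values are equal by `tri_iso2`.  So
`G t + G (update t u (t u).sw) = 0`.  The same at `v` and `w` by the cyclic symmetry (`Tri.rotate`,
`tri_rot`).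
(c) Let `B` be the set of the darts which are not on the three arcs of the triangle.  Every component
with crossings meets `B` (the crossing darts not in `B` are the six inner darts; the component of
`(u,i)` contains `(u,i+2) ∈ B`, etc.).  By `nice_sameOrd` there is a sweep `g` with `SameOrd S s h g`
and `g (v,j) = g (u,i+1) ± 1`, `g (w,k) = g (v,j+1) ± 1`, `g (u,i) = g (w,k+1) ± 1`.  These six heights are different
(six different strands), so they form three disjoint pairs of consecutive numbers, and
`g (u,i) < g (u,i+1) ↔ g (w,k+1) < g (v,j) ..`: the three pairs `{g (u,i+1), g (v,j)}`, `{g (v,j+1), g (w,k)}`,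
`{g (w,k+1), g (u,i)}` are linearly ordered, and the crossing `u` (`v`, `w`) compares the third with the
first (the first with the second, the second with the third).  So `p = pat s g` is admissible, and
`pat s (fun x => g (π x)) = p` (at `u` the darts `(u,i), (u,i+1)` have in `S'` the heights `g (w,k+3) = g (w,k+1)`
and `g (v,j+2) = g (v,j)`, which compare like `g (u,i)` and `g (u,i+1)`, etc.).  Hence
`F p = mu ^ (comps S s - 1) = F' p` (`Tri.sweep`, `Tri.sameOrd`, `Tri.comps_eq`).
(d) All admissible states of the same shape are connected by the changes in (a), (b) (the six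
admissible patterns at `u, v, w` form a hexagon), so `G = 0`.
-/

namespace Pool.Agent.Helper65.LK

open Function

theorem r3_turn_cases (i : ZMod 4) : (St.turn i = St.smA ∧ St.turn (i + 1) = St.smB) ∨
    (St.turn i = St.smB ∧ St.turn (i + 1) = St.smA) := by
  revert i; decide

theorem r3_turn_two (i : ZMod 4) : St.turn (i + 2) = St.turn i := by
  revert i; decide

theorem r3_turn_three (i : ZMod 4) : St.turn (i + 2 + 1) = St.turn (i + 1) := by
  revert i; decide

theorem r3_turn_isX (i : ZMod 4) : (St.turn i).isX = false := by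
  revert i; decide

theorem r3_turn_mate (i : ZMod 4) : (St.turn (i + 1)).mate (i + 1) = i := by
  revert i; decide

theorem r3_upper_succ (q : St) (hq : q.isX = true) (i : ZMod 4) :
    q.upper i = !(q.upper (i + 1)) := by
  revert i; revert hq; cases q <;> decide

theorem r3_upper_two (q : St) (i : ZMod 4) : q.upper (i + 2) = q.upper i := by
  revert i; cases q <;> decide

theorem r3_sw_upper (q : St) (hq : q.isX = true) (i : ZMod 4) :
    q.sw.upper i = !(q.upper i) := by
  revert i; revert hq; cases q <;> decide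

theorem r3_sw_shape (q : St) : q.sw.shape = q.shape := by
  cases q <;> rfl

theorem r3_sw_isX (q : St) : q.sw.isX = q.isX := by
  cases q <;> rfl

theorem r3_shape_isX {q q' : St} (h : q.shape = q'.shape) : q.isX = q'.isX := by
  revert h; cases q <;> cases q' <;> decide

theorem r3_shape_eq {q q' : St} (h : q.shape = q'.shape) (h' : q'.isX = false) : q = q' := by
  revert h h'; cases q <;> cases q' <;> decide

theorem r3_shape_or {q q' : St} (h : q.shape = q'.shape) : q = q' ∨
    (q'.isX = true ∧ q = q'.sw) := by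
  revert h; cases q <;> cases q' <;> decide

/-- the crossing with a given upper strand -/
def r3X (i : ZMod 4) (a : Bool) : St := if St.over1.upper (i + 1) = a then St.over1 else St.over0

theorem r3X_isX (i : ZMod 4) (a : Bool) : (r3X i a).isX = true := by
  revert i a; decide

theorem r3X_upper (i : ZMod 4) (a : Bool) : (r3X i a).upper (i + 1) = a := by
  revert i a; decide

theorem r3X_sw (i : ZMod 4) (a : Bool) : (r3X i a).sw = r3X i (!a) := by
  revert i a; decide

theorem r3X_eq (i : ZMod 4) {q : St} (hq : q.isX = true) : r3X i (q.upper (i + 1)) = q := by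
  revert i; revert hq; cases q <;> decide

section basic

variable {V : Type}

theorem r3_arc_mono {S : Shadow V} {s t : V → St} (h : Below t s) {x y : Dart V}
    (ha : Arc S s x y) : Arc S t x y := by
  induction ha with
  | rel x y hxy =>
    rcases hxy with rfl | ⟨hx, rfl⟩
    · exact Relation.EqvGen.rel _ _ (Or.inl rfl)
    · have h1 : (s x.1).isX = false := by
        unfold isC at hx
        rcases hc : (s x.1).isX with _ | _
        · rfl
        · exact absurd hc hx
      have h2 := h x.1 h1
      refine Relation.EqvGen.rel _ _ (Or.inr ⟨?_, ?_⟩)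
      · unfold isC
        rw [h2, h1]
        decide
      · show (x.1, (s x.1).mate x.2) = (x.1, (t x.1).mate x.2)
        rw [h2]
  | refl x => exact Relation.EqvGen.refl _
  | symm x y _ ih => exact Relation.EqvGen.symm _ _ ih
  | trans x y z _ _ ih1 ih2 => exact Relation.EqvGen.trans _ _ _ ih1 ih2

theorem r3_below_shape {s t : V → St} (h : SameShape t s) : Below t s :=
  fun v hv => r3_shape_eq (h v) hv

theorem r3_isX_shape {s t : V → St} (h : SameShape t s) (v : V) : (t v).isX = (s v).isX :=
  r3_shape_isX (h v)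

variable [DecidableEq V]

theorem r3_below_update {s t : V → St} (h : Below t s) {v : V} (hv : (s v).isX = true)
    (q : St) : Below (update t v q) s := by
  intro x hx
  have hne : x ≠ v := by
    rintro rfl
    rw [hv] at hx
    exact absurd hx (by decide)
  rw [update_of_ne hne]
  exact h x hx

theorem r3_shape_update {s t : V → St} (h : SameShape t s) {v : V} {q : St}
    (hq : q.shape = (s v).shape) : SameShape (update t v q) s := by
  intro x
  by_cases hx : x = v
  · subst hx
    rw [update_self]
    exact hq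
  · rw [update_of_ne hx]
    exact h x

theorem r3_nX_update [Fintype V] {t : V → St} {v : V} (hv : (t v).isX = true) {q : St}
    (hq : q.isX = false) : nX (update t v q) < nX t := by
  unfold nX
  apply Finset.card_lt_card
  rw [Finset.ssubset_iff_of_subset]
  · refine ⟨v, ?_, ?_⟩
    · rw [Finset.mem_filter]
      exact ⟨Finset.mem_univ _, hv⟩
    · rw [Finset.mem_filter, update_self, hq]
      rintro ⟨_, h⟩
      exact absurd h (by decide)
  · intro x hx
    rw [Finset.mem_filter] at hx ⊢
    refine ⟨Finset.mem_univ _, ?_⟩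
    by_cases hxv : x = v
    · rw [hxv]; exact hv
    · have := hx.2
      rwa [update_of_ne hxv] at this

end basic

variable {V : Type} [Fintype V] [DecidableEq V] {R : Type} [CommRing R] {z mu : R}
  {S : Shadow V} {s : V → St} {F F' : (V → St) → R} {u v w : V} {i j k : ZMod 4}

/-- the two arcs after the smoothing at `u` -/
theorem r3_arcs (T : Tri S s u i v j w k) :
    Arc S (update s u (St.turn (i + 1))) (v, j) (w, k + 1) ∧
      Arc S (update s u (St.turn (i + 1))) (v, j + 1) (w, k) := by
  have hb : Below (update s u (St.turn (i + 1))) s :=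
    r3_below_update (fun _ _ => rfl) T.cu _
  have h1 := r3_arc_mono hb T.a1
  have h2 := r3_arc_mono hb T.a2
  have h3 := r3_arc_mono hb T.a3
  refine ⟨?_, h2⟩
  have h4 : Arc S (update s u (St.turn (i + 1))) (u, i + 1) (u, i) := by
    refine Relation.EqvGen.rel _ _ (Or.inr ⟨?_, ?_⟩)
    · unfold isC
      rw [update_self, r3_turn_isX]
      decide
    · show (u, i) = (u, (update s u (St.turn (i + 1)) u).mate (i + 1))
      rw [update_self, r3_turn_mate]
  exact Relation.EqvGen.trans _ _ _ (Relation.EqvGen.symm _ _ h1)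
    (Relation.EqvGen.trans _ _ _ h4 (Relation.EqvGen.symm _ _ h3))

/-- the change of the crossing at `u` -/
theorem r3_b (hz : z * (mu + 1) = 2) (T : Tri S s u i v j w k)
    (hne : (s v).upper (j + 1) ≠ (s w).upper (k + 1)) {Ok Ok' : (Dart V → ℕ) → Prop}
    (hF : IsSkein z mu S s F Ok) (hF' : IsSkein z mu (S.conj (tri u i v j w k)) s F' Ok') :
    F s + F (update s u (s u).sw) = F' s + F' (update s u (s u).sw) := by
  have hb : ∀ q, Below (update s u q) s := fun q => r3_below_update (fun _ _ => rfl) T.cu q
  have hn : ∀ a, nX (update s u (St.turn a)) < nX s := fun a =>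
    r3_nX_update T.cu (r3_turn_isX a)
  have hsk : F s + F (update s u (s u).sw) =
      z * (F (update s u St.smA) + F (update s u St.smB)) := hF.skein s (fun _ _ => rfl) u T.cu
  have hsk' : F' s + F' (update s u (s u).sw) =
      z * (F' (update s u St.smA) + F' (update s u St.smB)) :=
    hF'.skein s (fun _ _ => rfl) u T.cu
  have key1 : F (update s u (St.turn i)) = F' (update s u (St.turn i)) := by
    obtain ⟨e⟩ := tri_iso1 T hne
    have h := iso_eq_true (z := z) (mu := mu) e.toDMap (k := 0) (by rw [e.comps, add_zero])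
      (Or.inl rfl) (hF.restrict (hb _) (hn i)) (hF'.restrict (hb _) (hn i))
    rw [h, pow_zero, one_mul]
  have key2 : F (update s u (St.turn (i + 1))) = F' (update s u (St.turn (i + 1))) := by
    have hvv : (update s u (St.turn (i + 1)) v) = s v := update_of_ne (Ne.symm T.uv) _ _
    have hww : (update s u (St.turn (i + 1)) w) = s w := update_of_ne T.wu _ _
    obtain ⟨a1, a2⟩ := r3_arcs T
    have h1 := skein_R2 hz (hF.restrict (hb _) (hn (i + 1)))
      (nice_true S (update s u (St.turn (i + 1)))) v w j k T.vw (by rw [hvv]; exact T.cv)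
      (by rw [hww]; exact T.cw) a1 a2 (by
        rw [hvv, hww, r3_upper_succ _ T.cv j]
        rcases h5 : (s v).upper (j + 1) with _ | _ <;>
          rcases h6 : (s w).upper (k + 1) with _ | _ <;> simp [h5, h6] at hne ⊢)
    obtain ⟨b1, b2⟩ := r3_arcs T.conj
    rw [r3_turn_three] at b1 b2
    have h2 := skein_R2 hz (hF'.restrict (hb _) (hn (i + 1)))
      (nice_true (S.conj (tri u i v j w k)) (update s u (St.turn (i + 1)))) v w (j + 2) (k + 2)
      T.vw (by rw [hvv]; exact T.cv) (by rw [hww]; exact T.cw) b1 b2 (by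
        have e1 : k + 2 + 1 = k + 1 + 2 := by ring
        rw [hvv, hww, e1, r3_upper_two, r3_upper_two, r3_upper_succ _ T.cv j]
        rcases h5 : (s v).upper (j + 1) with _ | _ <;>
          rcases h6 : (s w).upper (k + 1) with _ | _ <;> simp [h5, h6] at hne ⊢)
    rw [r3_turn_two, r3_turn_two] at h2
    obtain ⟨e⟩ := tri_iso2 T
    have hb3 : Below (update (update (update s u (St.turn (i + 1))) v (St.turn j)) w
        (St.turn k)) s :=
      r3_below_update (r3_below_update (hb _) T.cv _) T.cw _
    have hn3 : nX (update (update (update s u (St.turn (i + 1))) v (St.turn j)) w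
        (St.turn k)) < nX s := by
      have c1 := hn (i + 1)
      have c2 : nX (update (update s u (St.turn (i + 1))) v (St.turn j)) <
          nX (update s u (St.turn (i + 1))) :=
        r3_nX_update (by rw [hvv]; exact T.cv) (r3_turn_isX j)
      have c3 : nX (update (update (update s u (St.turn (i + 1))) v (St.turn j)) w
          (St.turn k)) < nX (update (update s u (St.turn (i + 1))) v (St.turn j)) :=
        r3_nX_update (by
          rw [update_of_ne (Ne.symm T.vw), hww]
          exact T.cw) (r3_turn_isX k)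
      omega
    have h := iso_eq_true (z := z) (mu := mu) e.toDMap (k := 0) (by rw [e.comps, add_zero])
      (Or.inl rfl) (hF.restrict hb3 hn3) (hF'.restrict hb3 hn3)
    rw [h1, h2, h, pow_zero, one_mul]
  rw [hsk, hsk']
  rcases r3_turn_cases i with ⟨h1, h2⟩ | ⟨h1, h2⟩
  · rw [h1] at key1
    rw [h2] at key2
    rw [key1, key2]
  · rw [h1] at key1
    rw [h2] at key2
    rw [key1, key2]

theorem r3_pat_upper {g : Dart V → ℕ} {v : V} (hv : (s v).isX = true)
    (h2 : g (v, 2) = g (v, 0)) (h3 : g (v, 3) = g (v, 1)) (hne : g (v, 0) ≠ g (v, 1))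
    (i : ZMod 4) : (pat s g v).upper (i + 1) = true ↔ g (v, i) < g (v, i + 1) := by
  have hp : pat s g v = if g (v, 0) < g (v, 1) then St.over1 else St.over0 := by
    unfold pat
    rw [if_pos hv]
  rw [hp]
  have hi : i = 0 ∨ i = 1 ∨ i = 2 ∨ i = 3 := by revert i; decide
  have e1 : (1 : ZMod 4) + 1 = 2 := by decide
  have e2 : (2 : ZMod 4) + 1 = 3 := by decide
  have e3 : (3 : ZMod 4) + 1 = 0 := by decide
  by_cases hlt : g (v, 0) < g (v, 1)
  · rw [if_pos hlt]
    rcases hi with rfl | rfl | rfl | rfl
    · rw [zero_add]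
      exact ⟨fun _ => hlt, fun _ => by decide⟩
    · rw [e1, h2]
      exact ⟨fun h => absurd h (by decide), fun h => absurd hlt (by omega)⟩
    · rw [e2, h2, h3]
      exact ⟨fun _ => hlt, fun _ => by decide⟩
    · rw [e3, h3]
      exact ⟨fun h => absurd h (by decide), fun h => absurd hlt (by omega)⟩
  · rw [if_neg hlt]
    have hgt : g (v, 1) < g (v, 0) := by omega
    rcases hi with rfl | rfl | rfl | rfl
    · rw [zero_add]
      exact ⟨fun h => absurd h (by decide), fun h => absurd h hlt⟩
    · rw [e1, h2]
      exact ⟨fun _ => hgt, fun _ => by decide⟩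
    · rw [e2, h2, h3]
      exact ⟨fun h => absurd h (by decide), fun h => absurd h hlt⟩
    · rw [e3, h3]
      exact ⟨fun _ => hgt, fun _ => by decide⟩

/-- two height functions give the same crossing -/
theorem r3_pat_eq {g g' : Dart V → ℕ} {v : V} (hv : (s v).isX = true)
    (h2 : g (v, 2) = g (v, 0)) (h3 : g (v, 3) = g (v, 1)) (hne : g (v, 0) ≠ g (v, 1))
    (h2' : g' (v, 2) = g' (v, 0)) (h3' : g' (v, 3) = g' (v, 1)) (hne' : g' (v, 0) ≠ g' (v, 1))
    (i : ZMod 4) (h : g (v, i) < g (v, i + 1) ↔ g' (v, i) < g' (v, i + 1)) :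
    pat s g' v = pat s g v := by
  have h4 : (pat s g' v).isX = true ∧ (pat s g v).isX = true := by
    unfold pat
    rw [if_pos hv, if_pos hv]
    constructor <;> split_ifs <;> rfl
  have h5 : (pat s g' v).upper (i + 1) = (pat s g v).upper (i + 1) := by
    have a1 := r3_pat_upper hv h2 h3 hne i
    have a2 := r3_pat_upper hv h2' h3' hne' i
    rw [Bool.eq_iff_iff, a1, a2]
    exact h.symm
  rw [← r3X_eq i h4.1, ← r3X_eq i h4.2, h5]

theorem r3_c (T : Tri S s u i v j w k) {h : Dart V → ℕ} (hs : Sweep S s h) :
    ∃ g, Sweep S s g ∧ SameOrd S s h g ∧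
      ¬ ((pat s g u).upper (i + 1) = (pat s g v).upper (j + 1) ∧
        (pat s g v).upper (j + 1) = (pat s g w).upper (k + 1)) ∧
      pat s (fun x => g (tri u i v j w k x)) = pat s g := by
  have z1 : ∀ a : ZMod 4, a + 1 ≠ a := by decide
  have z2 : ∀ a : ZMod 4, a + 2 ≠ a := by decide
  have z3 : ∀ a : ZMod 4, a + 2 ≠ a + 1 := by decide
  have z4 : ∀ a : ZMod 4, a + 1 + 2 ≠ a := by decide
  have z5 : ∀ a : ZMod 4, a + 1 + 2 ≠ a + 1 := by decide
  have hisu : ∀ a, isC s (u, a) := fun _ => T.cu
  have hisv : ∀ a, isC s (v, a) := fun _ => T.cv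
  have hisw : ∀ a, isC s (w, a) := fun _ => T.cw
  have htau : ∀ x : Dart V, isC s x → tau s x = (x.1, x.2 + 2) := by
    intro x hx
    show (x.1, (s x.1).mate x.2) = (x.1, x.2 + 2)
    unfold isC at hx
    rcases hq : s x.1 with _ | _ | _ | _
    · rfl
    · rfl
    · rw [hq] at hx; exact absurd hx (by decide)
    · rw [hq] at hx; exact absurd hx (by decide)
  have huv := T.uv
  have hvw := T.vw
  have hwu := T.wu
  -- the inner arcs
  have p1 : partner (Cr s) S s (u, i + 1) = (v, j) :=
    partner_eq _ _ _ _ _ T.cu T.cv (fun h => huv (congrArg Prod.fst h).symm) T.a1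
  have p1' : partner (Cr s) S s (v, j) = (u, i + 1) :=
    partner_eq _ _ _ _ _ T.cv T.cu (fun h => huv (congrArg Prod.fst h))
      (Relation.EqvGen.symm _ _ T.a1)
  have p2 : partner (Cr s) S s (v, j + 1) = (w, k) :=
    partner_eq _ _ _ _ _ T.cv T.cw (fun h => hvw (congrArg Prod.fst h).symm) T.a2
  have p2' : partner (Cr s) S s (w, k) = (v, j + 1) :=
    partner_eq _ _ _ _ _ T.cw T.cv (fun h => hvw (congrArg Prod.fst h))
      (Relation.EqvGen.symm _ _ T.a2)
  have p3 : partner (Cr s) S s (w, k + 1) = (u, i) :=
    partner_eq _ _ _ _ _ T.cw T.cu (fun h => hwu (congrArg Prod.fst h).symm) T.a3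
  have p3' : partner (Cr s) S s (u, i) = (w, k + 1) :=
    partner_eq _ _ _ _ _ T.cu T.cw (fun h => hwu (congrArg Prod.fst h))
      (Relation.EqvGen.symm _ _ T.a3)
  let B : Set (Dart V) := {x | x ≠ (u, i + 1) ∧ x ≠ (v, j) ∧ x ≠ (v, j + 1) ∧ x ≠ (w, k) ∧
    x ≠ (w, k + 1) ∧ x ≠ (u, i)}
  have hB1 : ∀ x, isC s x → x ∈ B → partner (Cr s) S s x ∈ B := by
    intro x hx hxB
    obtain ⟨b1, b2, b3, b4, b5, b6⟩ := hxB
    have hpp := partner_partner (Cr s) S s x hx
    refine ⟨?_, ?_, ?_, ?_, ?_, ?_⟩
    · intro he
      rw [he, p1] at hpp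
      exact b2 hpp.symm
    · intro he
      rw [he, p1'] at hpp
      exact b1 hpp.symm
    · intro he
      rw [he, p2] at hpp
      exact b4 hpp.symm
    · intro he
      rw [he, p2'] at hpp
      exact b3 hpp.symm
    · intro he
      rw [he, p3] at hpp
      exact b6 hpp.symm
    · intro he
      rw [he, p3'] at hpp
      exact b5 hpp.symm
  have hcompt : ∀ x, Comp S s x (tau s x) := fun x => Relation.EqvGen.rel _ _ (Or.inr rfl)
  have hB2 : ∀ x, isC s x → ∃ y ∈ B, isC s y ∧ Comp S s x y := by
    intro x hx
    by_cases hxB : x ∈ B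
    · exact ⟨x, hxB, hx, Relation.EqvGen.refl _⟩
    · refine ⟨tau s x, ?_, hx, hcompt x⟩
      rw [htau x hx]
      have hcases : x = (u, i + 1) ∨ x = (v, j) ∨ x = (v, j + 1) ∨ x = (w, k) ∨
          x = (w, k + 1) ∨ x = (u, i) := by
        by_contra hcon
        push Not at hcon
        exact hxB hcon
      have hpr : ∀ (a b : V) (c d : ZMod 4), (a ≠ b ∨ c ≠ d) → ((a, c) : Dart V) ≠ (b, d) := by
        rintro a b c d (h | h) he
        · exact h (congrArg Prod.fst he)
        · exact h (congrArg Prod.snd he)
      rcases hcases with rfl | rfl | rfl | rfl | rfl | rfl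
      · exact ⟨hpr _ _ _ _ (Or.inr (z5 i)), hpr _ _ _ _ (Or.inl huv), hpr _ _ _ _ (Or.inl huv),
          hpr _ _ _ _ (Or.inl (Ne.symm hwu)), hpr _ _ _ _ (Or.inl (Ne.symm hwu)),
          hpr _ _ _ _ (Or.inr (z4 i))⟩
      · exact ⟨hpr _ _ _ _ (Or.inl (Ne.symm huv)), hpr _ _ _ _ (Or.inr (z2 j)),
          hpr _ _ _ _ (Or.inr (z3 j)), hpr _ _ _ _ (Or.inl hvw), hpr _ _ _ _ (Or.inl hvw),
          hpr _ _ _ _ (Or.inl (Ne.symm huv))⟩
      · exact ⟨hpr _ _ _ _ (Or.inl (Ne.symm huv)), hpr _ _ _ _ (Or.inr (z4 j)),
          hpr _ _ _ _ (Or.inr (z5 j)), hpr _ _ _ _ (Or.inl hvw), hpr _ _ _ _ (Or.inl hvw),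
          hpr _ _ _ _ (Or.inl (Ne.symm huv))⟩
      · exact ⟨hpr _ _ _ _ (Or.inl hwu), hpr _ _ _ _ (Or.inl (Ne.symm hvw)),
          hpr _ _ _ _ (Or.inl (Ne.symm hvw)), hpr _ _ _ _ (Or.inr (z2 k)),
          hpr _ _ _ _ (Or.inr (z3 k)), hpr _ _ _ _ (Or.inl hwu)⟩
      · exact ⟨hpr _ _ _ _ (Or.inl hwu), hpr _ _ _ _ (Or.inl (Ne.symm hvw)),
          hpr _ _ _ _ (Or.inl (Ne.symm hvw)), hpr _ _ _ _ (Or.inr (z4 k)),
          hpr _ _ _ _ (Or.inr (z5 k)), hpr _ _ _ _ (Or.inl hwu)⟩
      · exact ⟨hpr _ _ _ _ (Or.inr (z3 i)), hpr _ _ _ _ (Or.inl huv), hpr _ _ _ _ (Or.inl huv),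
          hpr _ _ _ _ (Or.inl (Ne.symm hwu)), hpr _ _ _ _ (Or.inl (Ne.symm hwu)),
          hpr _ _ _ _ (Or.inr (z2 i))⟩
  obtain ⟨g, hg, hord, hadj⟩ := nice_sameOrd hs B hB1 hB2
  have q1 := hadj (u, i + 1) (hisu _) (fun hx => hx.1 rfl)
  have q2 := hadj (v, j + 1) (hisv _) (fun hx => hx.2.2.1 rfl)
  have q3 := hadj (w, k + 1) (hisw _) (fun hx => hx.2.2.2.2.1 rfl)
  rw [p1] at q1
  rw [p2] at q2
  rw [p3] at q3
  -- heights of the strands
  have hg2 : ∀ x : Dart V, isC s x → g (x.1, x.2 + 2) = g x := by
    intro x hx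
    rw [← htau x hx]
    exact hg.const x hx
  have hne : ∀ x y : Dart V, isC s x → isC s y → y ≠ x → y ≠ (x.1, x.2 + 2) → g x ≠ g y := by
    intro x y hx hy h1 h2 he
    rcases hg.inj x y hx hy he with h3 | h3
    · exact h1 h3
    · rw [htau x hx] at h3
      exact h2 h3
  have hnv : ∀ x y : Dart V, isC s x → isC s y → x.1 ≠ y.1 → g x ≠ g y := by
    intro x y hx hy h1
    exact hne x y hx hy (fun h => h1 (by rw [h])) (fun h => h1 (by rw [h]))
  have hns : ∀ (x : V) (a : ZMod 4), (s x).isX = true → g (x, a) ≠ g (x, a + 1) := by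
    intro x a hx
    exact hne (x, a) (x, a + 1) hx hx (fun h => z1 a (congrArg Prod.snd h))
      (fun h => z3 a (congrArg Prod.snd h).symm)
  have dv : ∀ (x : V), (s x).isX = true → g (x, 2) = g (x, 0) ∧ g (x, 3) = g (x, 1) ∧
      g (x, 0) ≠ g (x, 1) := by
    intro x hx
    have h1 := hg2 (x, 0) hx
    have h2 := hg2 (x, 1) hx
    have h3 := hns x 0 hx
    rw [zero_add] at h3
    have e1 : (1 : ZMod 4) + 2 = 3 := by decide
    simp only [zero_add] at h1
    simp only [e1] at h2
    exact ⟨h1, h2, h3⟩
  have n1 := hns u i T.cu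
  have n2 := hns v j T.cv
  have n3 := hns w k T.cw
  have m1 := hnv (u, i + 1) (v, j + 1) (hisu _) (hisv _) huv
  have m2 := hnv (u, i + 1) (w, k) (hisu _) (hisw _) (Ne.symm hwu)
  have m3 := hnv (v, j) (w, k) (hisv _) (hisw _) hvw
  have m4 := hnv (v, j + 1) (w, k + 1) (hisv _) (hisw _) hvw
  have m5 := hnv (v, j + 1) (u, i) (hisv _) (hisu _) (Ne.symm huv)
  have m6 := hnv (w, k) (u, i) (hisw _) (hisu _) hwu
  have m7 := hnv (w, k + 1) (u, i + 1) (hisw _) (hisu _) hwu
  have m8 := hnv (w, k + 1) (v, j) (hisw _) (hisv _) (Ne.symm hvw)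
  have m9 := hnv (u, i) (v, j) (hisu _) (hisv _) huv
  refine ⟨g, hg, hord, ?_, ?_⟩
  · obtain ⟨du1, du2, du3⟩ := dv u T.cu
    obtain ⟨dv1, dv2, dv3⟩ := dv v T.cv
    obtain ⟨dw1, dw2, dw3⟩ := dv w T.cw
    have r1 := r3_pat_upper T.cu du1 du2 du3 i
    have r2 := r3_pat_upper T.cv dv1 dv2 dv3 j
    have r3 := r3_pat_upper T.cw dw1 dw2 dw3 k
    rintro ⟨c1, c2⟩
    rw [c1, r2] at r1
    rw [← c2, r2] at r3
    omega
  · obtain ⟨t1, t2, t3, t4, t5, t6, t7, t8, t9, t10, t11, t12, t13⟩ := tri_apply i j k huv hvw hwu
    obtain ⟨du1, du2, du3⟩ := dv u T.cu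
    obtain ⟨dv1, dv2, dv3⟩ := dv v T.cv
    obtain ⟨dw1, dw2, dw3⟩ := dv w T.cw
    -- the new heights
    have hg' := T.sweep hg
    have dv' : ∀ (x : V), (s x).isX = true →
        (fun x => g (tri u i v j w k x)) (x, 2) = (fun x => g (tri u i v j w k x)) (x, 0) ∧
        (fun x => g (tri u i v j w k x)) (x, 3) = (fun x => g (tri u i v j w k x)) (x, 1) ∧
        (fun x => g (tri u i v j w k x)) (x, 0) ≠ (fun x => g (tri u i v j w k x)) (x, 1) := by
      intro x hx
      have e1 : (1 : ZMod 4) + 2 = 3 := by decide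
      have h1 := hg'.const (x, 0) hx
      have h2 := hg'.const (x, 1) hx
      rw [htau (x, 0) hx] at h1
      rw [htau (x, 1) hx] at h2
      simp only [zero_add] at h1
      simp only [e1] at h2
      refine ⟨h1, h2, fun he => ?_⟩
      rcases hg'.inj (x, 0) (x, 1) hx hx he with h3 | h3
      · have h4 : (1 : ZMod 4) = 0 := congrArg Prod.snd h3
        exact absurd h4 (by decide)
      · rw [htau (x, 0) hx] at h3
        have h4 : (1 : ZMod 4) = 0 + 2 := congrArg Prod.snd h3
        exact absurd h4 (by decide)
    have e3 : ∀ a : ZMod 4, a + 3 = a + 1 + 2 := by decide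
    funext x
    by_cases hxu : x = u
    · subst hxu
      obtain ⟨a1, a2, a3⟩ := dv' x T.cu
      refine r3_pat_eq T.cu du1 du2 du3 a1 a2 a3 i ?_
      show g (x, i) < g (x, i + 1) ↔ g (tri x i v j w k (x, i)) < g (tri x i v j w k (x, i + 1))
      rw [t1, t2, e3, hg2 (w, k + 1) (hisw _), hg2 (v, j) (hisv _)]
      omega
    · by_cases hxv : x = v
      · subst hxv
        obtain ⟨a1, a2, a3⟩ := dv' x T.cv
        refine r3_pat_eq T.cv dv1 dv2 dv3 a1 a2 a3 j ?_
        show g (x, j) < g (x, j + 1) ↔ g (tri u i x j w k (x, j)) < g (tri u i x j w k (x, j + 1))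
        rw [t5, t6, e3, hg2 (u, i + 1) (hisu _), hg2 (w, k) (hisw _)]
        omega
      · by_cases hxw : x = w
        · subst hxw
          obtain ⟨a1, a2, a3⟩ := dv' x T.cw
          refine r3_pat_eq T.cw dw1 dw2 dw3 a1 a2 a3 k ?_
          show g (x, k) < g (x, k + 1) ↔
            g (tri u i v j x k (x, k)) < g (tri u i v j x k (x, k + 1))
          rw [t9, t10, e3, hg2 (v, j + 1) (hisv _), hg2 (u, i) (hisu _)]
          omega
        · unfold pat
          simp only [t13 (x, 0) hxu hxv hxw, t13 (x, 1) hxu hxv hxw]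

/-- the hexagon of admissible patterns -/
theorem r3_hexagon (γ : Bool → Bool → Bool → R)
    (h1 : ∀ a b c, b ≠ c → γ a b c + γ (!a) b c = 0)
    (h2 : ∀ a b c, c ≠ a → γ a b c + γ a (!b) c = 0)
    (h3 : ∀ a b c, a ≠ b → γ a b c + γ a b (!c) = 0)
    {a b c : Bool} (hadm : ¬ (a = b ∧ b = c)) (h0 : γ a b c = 0)
    (a' b' c' : Bool) (hadm' : ¬ (a' = b' ∧ b' = c')) : γ a' b' c' = 0 := by
  have e1 := h2 true true false (by decide)
  have e2 := h3 true false false (by decide)
  have e3 := h1 true false true (by decide)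
  have e4 := h2 false false true (by decide)
  have e5 := h3 false true true (by decide)
  have e6 := h1 false true false (by decide)
  simp only [Bool.not_true, Bool.not_false] at e1 e2 e3 e4 e5 e6
  have hbase : γ true true false = 0 := by
    rcases a with _ | _ <;> rcases b with _ | _ <;> rcases c with _ | _
    · exact absurd ⟨rfl, rfl⟩ hadm
    · linear_combination e1 - e2 + e3 - h0
    · linear_combination e6 - h0
    · linear_combination e6 - e5 + h0
    · linear_combination e1 - h0
    · linear_combination e1 - e2 + h0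
    · exact h0
    · exact absurd ⟨rfl, rfl⟩ hadm
  rcases a' with _ | _ <;> rcases b' with _ | _ <;> rcases c' with _ | _
  · exact absurd ⟨rfl, rfl⟩ hadm'
  · linear_combination e3 - e2 + e1 - hbase
  · linear_combination e6 - hbase
  · linear_combination e5 - e6 + hbase
  · linear_combination e1 - hbase
  · linear_combination e2 - e1 + hbase
  · exact hbase
  · exact absurd ⟨rfl, rfl⟩ hadm'

theorem r3_main (hz : z * (mu + 1) = 2) (F F' : (V → St) → R) (n : ℕ) :
    ∀ (s : V → St), nX s = n → ∀ (T : Tri S s u i v j w k),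
    ¬ ((s u).upper (i + 1) = (s v).upper (j + 1) ∧ (s v).upper (j + 1) = (s w).upper (k + 1)) →
    ∀ (h : Dart V → ℕ), Sweep S s h → ∀ (Ok Ok' : (Dart V → ℕ) → Prop),
    (∀ g, SameOrd S s h g → Ok g) →
    (∀ g, SameOrd (S.conj (tri u i v j w k)) s (fun x => h (tri u i v j w k x)) g → Ok' g) →
    IsSkein z mu S s F Ok → IsSkein z mu (S.conj (tri u i v j w k)) s F' Ok' →
    F s = F' s := by
  induction n using Nat.strong_induction_on with
  | _ n ih =>
  intro s hn T hadm h hs Ok Ok' hOk hOk' hF hF'
  have hTri : ∀ t, SameShape t s → Tri S t u i v j w k := by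
    intro t ht
    exact T.below (r3_below_shape ht) (by rw [r3_isX_shape ht]; exact T.cu)
      (by rw [r3_isX_shape ht]; exact T.cv) (by rw [r3_isX_shape ht]; exact T.cw)
  have huv := T.uv
  have hvw := T.vw
  have hwu := T.wu
  -- (a)
  have hA : ∀ t x, SameShape t s →
      ¬ ((t u).upper (i + 1) = (t v).upper (j + 1) ∧ (t v).upper (j + 1) = (t w).upper (k + 1)) →
      x ≠ u → x ≠ v → x ≠ w → (t x).isX = true →
      F t - F' t + (F (update t x (t x).sw) - F' (update t x (t x).sw)) = 0 := by
    intro t x ht hta hxu hxv hxw hx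
    have hTt := hTri t ht
    have hsx : (s x).isX = true := by rw [← r3_isX_shape ht]; exact hx
    have hlow : ∀ q : St, q.isX = false → F (update t x q) = F' (update t x q) := by
      intro q hq
      have hb : Below (update t x q) s := r3_below_update (r3_below_shape ht) hsx q
      have hnt : nX t = nX s := (sweep_sameShape (S := S) ht h).2.2.2.1
      have hlt : nX (update t x q) < nX s := by
        have := r3_nX_update hx hq
        omega
      have eu : update t x q u = t u := update_of_ne (Ne.symm hxu) _ _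
      have ev : update t x q v = t v := update_of_ne (Ne.symm hxv) _ _
      have ew : update t x q w = t w := update_of_ne (Ne.symm hxw) _ _
      obtain ⟨h₁, hs₁⟩ := exists_sweep S (update t x q)
      exact ih (nX (update t x q)) (by omega) (update t x q) rfl
        (T.below hb (by rw [eu]; exact hTt.cu) (by rw [ev]; exact hTt.cv)
          (by rw [ew]; exact hTt.cw))
        (by rw [eu, ev, ew]; exact hta) h₁ hs₁ (fun _ => True) (fun _ => True)
        (fun _ _ => trivial) (fun _ _ => trivial) (hF.restrict hb hlt) (hF'.restrict hb hlt)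
    have h1 : F t + F (update t x (t x).sw) =
        z * (F (update t x St.smA) + F (update t x St.smB)) :=
      hF.skein t (r3_below_shape ht) x hx
    have h2 : F' t + F' (update t x (t x).sw) =
        z * (F' (update t x St.smA) + F' (update t x St.smB)) :=
      hF'.skein t (r3_below_shape ht) x hx
    rw [hlow St.smA rfl, hlow St.smB rfl] at h1
    linear_combination h1 - h2
  -- (b)
  have hBu : ∀ t, SameShape t s → (t v).upper (j + 1) ≠ (t w).upper (k + 1) →
      F t - F' t + (F (update t u (t u).sw) - F' (update t u (t u).sw)) = 0 := by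
    intro t ht hne
    have h1 := r3_b hz (hTri t ht) hne (hF.sameShape ht) (hF'.sameShape ht)
    linear_combination h1
  have hBv : ∀ t, SameShape t s → (t w).upper (k + 1) ≠ (t u).upper (i + 1) →
      F t - F' t + (F (update t v (t v).sw) - F' (update t v (t v).sw)) = 0 := by
    intro t ht hne
    have h0 := hF'.sameShape ht
    rw [← (tri_rot i j k huv hvw hwu).1] at h0
    have h1 := r3_b hz (hTri t ht).rotate hne (hF.sameShape ht) h0
    linear_combination h1
  have hBw : ∀ t, SameShape t s → (t u).upper (i + 1) ≠ (t v).upper (j + 1) →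
      F t - F' t + (F (update t w (t w).sw) - F' (update t w (t w).sw)) = 0 := by
    intro t ht hne
    have h0 := hF'.sameShape ht
    rw [← (tri_rot i j k huv hvw hwu).1, ← (tri_rot j k i hvw hwu huv).1] at h0
    have h1 := r3_b hz (hTri t ht).rotate.rotate hne (hF.sameShape ht) h0
    linear_combination h1
  -- (c)
  obtain ⟨g, hg, hord, hpa, hpp⟩ := r3_c T hs
  have hps : SameShape (pat s g) s := pat_sameShape s g
  have hp0 : F (pat s g) - F' (pat s g) = 0 := by
    have h1 := hF.top g hg (hOk g hord)
    have h2 := hF'.top (fun x => g (tri u i v j w k x)) (T.sweep hg) (hOk' _ (T.sameOrd hord))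
    rw [hpp, T.comps_eq] at h2
    rw [h1, h2, sub_self]
  -- (d) first the other crossings
  have hA' : ∀ A : Finset V, u ∉ A → v ∉ A → w ∉ A →
      F (fun x => if x ∈ A then s x else pat s g x) -
        F' (fun x => if x ∈ A then s x else pat s g x) = 0 := by
    intro A
    induction A using Finset.induction_on with
    | empty =>
      intro _ _ _
      simpa using hp0
    | insert x A hxA ihA =>
      intro hu hv hw
      rw [Finset.mem_insert, not_or] at hu hv hw
      have h1 := ihA hu.2 hv.2 hw.2
      have hshape : SameShape (fun x => if x ∈ A then s x else pat s g x) s := by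
        intro y
        show (if y ∈ A then s y else pat s g y).shape = (s y).shape
        split_ifs
        · rfl
        · exact hps y
      have hval : (if x ∈ A then s x else pat s g x) = pat s g x := if_neg hxA
      have hupd : (fun y => if y ∈ insert x A then s y else pat s g y) =
          update (fun y => if y ∈ A then s y else pat s g y) x (s x) := by
        funext y
        by_cases hy : y = x
        · subst hy
          rw [update_self, if_pos (Finset.mem_insert_self _ _)]
        · rw [update_of_ne hy]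
          simp only [Finset.mem_insert, hy, false_or]
      rcases r3_shape_or (hps x).symm with h2 | ⟨h2, h3⟩
      · have h4 : update (fun y => if y ∈ A then s y else pat s g y) x (s x) =
            (fun y => if y ∈ A then s y else pat s g y) := by
          funext y
          by_cases hy : y = x
          · subst hy
            rw [update_self]
            show s y = if y ∈ A then s y else pat s g y
            rw [if_neg hxA]
            exact h2
          · rw [update_of_ne hy]
        rw [hupd, h4]
        exact h1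
      · have h5 := hA (fun x => if x ∈ A then s x else pat s g x) x hshape (by
            show ¬ ((if u ∈ A then s u else pat s g u).upper (i + 1) =
                (if v ∈ A then s v else pat s g v).upper (j + 1) ∧
              (if v ∈ A then s v else pat s g v).upper (j + 1) =
                (if w ∈ A then s w else pat s g w).upper (k + 1))
            rw [if_neg hu.2, if_neg hv.2, if_neg hw.2]
            exact hpa) (Ne.symm hu.1) (Ne.symm hv.1) (Ne.symm hw.1) (by
            show (if x ∈ A then s x else pat s g x).isX = true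
            rw [hval]
            exact h2)
        have h6 : (if x ∈ A then s x else pat s g x).sw = s x := by
          rw [hval]
          exact h3.symm
        rw [h6, ← hupd] at h5
        linear_combination h5 - h1
  -- the patterns at `u, v, w`
  let st : Bool → Bool → Bool → V → St := fun a b c =>
    update (update (update s u (r3X i a)) v (r3X j b)) w (r3X k c)
  have stu : ∀ a b c, st a b c u = r3X i a := by
    intro a b c
    show update (update (update s u (r3X i a)) v (r3X j b)) w (r3X k c) u = _
    rw [update_of_ne (Ne.symm hwu), update_of_ne huv, update_self]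
  have stv : ∀ a b c, st a b c v = r3X j b := by
    intro a b c
    show update (update (update s u (r3X i a)) v (r3X j b)) w (r3X k c) v = _
    rw [update_of_ne hvw, update_self]
  have stw : ∀ a b c, st a b c w = r3X k c := by
    intro a b c
    show update (update (update s u (r3X i a)) v (r3X j b)) w (r3X k c) w = _
    rw [update_self]
  have sto : ∀ a b c x, x ≠ u → x ≠ v → x ≠ w → st a b c x = s x := by
    intro a b c x h1 h2 h3
    show update (update (update s u (r3X i a)) v (r3X j b)) w (r3X k c) x = _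
    rw [update_of_ne h3, update_of_ne h2, update_of_ne h1]
  have hext : ∀ (a b c : Bool) (t : V → St), t u = r3X i a → t v = r3X j b → t w = r3X k c →
      (∀ x, x ≠ u → x ≠ v → x ≠ w → t x = s x) → t = st a b c := by
    intro a b c t h1 h2 h3 h4
    funext x
    by_cases hxu : x = u
    · rw [hxu, stu, h1]
    · by_cases hxv : x = v
      · rw [hxv, stv, h2]
      · by_cases hxw : x = w
        · rw [hxw, stw, h3]
        · rw [sto a b c x hxu hxv hxw, h4 x hxu hxv hxw]
  have hXs : ∀ (x : V) (a : Bool) (l : ZMod 4), (s x).isX = true →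
      (r3X l a).shape = (s x).shape := by
    intro x a l hx
    have h1 := r3X_isX l a
    revert h1 hx
    generalize r3X l a = q
    generalize s x = q'
    revert q q'
    decide
  have hst : ∀ a b c, SameShape (st a b c) s := by
    intro a b c
    exact r3_shape_update (r3_shape_update (r3_shape_update (fun _ => rfl) (hXs u a i T.cu))
      (hXs v b j T.cv)) (hXs w c k T.cw)
  let γ : Bool → Bool → Bool → R := fun a b c => F (st a b c) - F' (st a b c)
  have g1 : ∀ a b c, b ≠ c → γ a b c + γ (!a) b c = 0 := by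
    intro a b c hbc
    have h1 := hBu (st a b c) (hst a b c) (by rw [stv, stw, r3X_upper, r3X_upper]; exact hbc)
    have h2 : update (st a b c) u (st a b c u).sw = st (!a) b c := by
      apply hext
      · rw [update_self, stu, r3X_sw]
      · rw [update_of_ne (Ne.symm huv), stv]
      · rw [update_of_ne hwu, stw]
      · intro x h3 h4 h5
        rw [update_of_ne h3, sto a b c x h3 h4 h5]
    rw [h2] at h1
    exact h1
  have g2 : ∀ a b c, c ≠ a → γ a b c + γ a (!b) c = 0 := by
    intro a b c hca
    have h1 := hBv (st a b c) (hst a b c) (by rw [stu, stw, r3X_upper, r3X_upper]; exact hca)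
    have h2 : update (st a b c) v (st a b c v).sw = st a (!b) c := by
      apply hext
      · rw [update_of_ne huv, stu]
      · rw [update_self, stv, r3X_sw]
      · rw [update_of_ne (Ne.symm hvw), stw]
      · intro x h3 h4 h5
        rw [update_of_ne h4, sto a b c x h3 h4 h5]
    rw [h2] at h1
    exact h1
  have g3 : ∀ a b c, a ≠ b → γ a b c + γ a b (!c) = 0 := by
    intro a b c hab
    have h1 := hBw (st a b c) (hst a b c) (by rw [stu, stv, r3X_upper, r3X_upper]; exact hab)
    have h2 : update (st a b c) w (st a b c w).sw = st a b (!c) := by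
      apply hext
      · rw [update_of_ne (Ne.symm hwu), stu]
      · rw [update_of_ne hvw, stv]
      · rw [update_self, stw, r3X_sw]
      · intro x h3 h4 h5
        rw [update_of_ne h5, sto a b c x h3 h4 h5]
    rw [h2] at h1
    exact h1
  -- the starting point
  let A : Finset V := Finset.univ.filter (fun x => x ≠ u ∧ x ≠ v ∧ x ≠ w)
  have hA0 := hA' A (by simp [A]) (by simp [A]) (by simp [A])
  have hpX : ∀ x, (s x).isX = true → (pat s g x).isX = true := by
    intro x hx
    rw [r3_isX_shape hps]
    exact hx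
  have hstart : (fun x => if x ∈ A then s x else pat s g x) =
      st ((pat s g u).upper (i + 1)) ((pat s g v).upper (j + 1))
        ((pat s g w).upper (k + 1)) := by
    apply hext
    · rw [r3X_eq i (hpX u T.cu)]
      exact if_neg (by simp [A])
    · rw [r3X_eq j (hpX v T.cv)]
      exact if_neg (by simp [A])
    · rw [r3X_eq k (hpX w T.cw)]
      exact if_neg (by simp [A])
    · intro x h1 h2 h3
      exact if_pos (by simp [A, h1, h2, h3])
  have hγ0 : γ ((pat s g u).upper (i + 1)) ((pat s g v).upper (j + 1))
      ((pat s g w).upper (k + 1)) = 0 := by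
    show F (st _ _ _) - F' (st _ _ _) = 0
    rw [← hstart]
    exact hA0
  have hfin := r3_hexagon γ g1 g2 g3 hpa hγ0 ((s u).upper (i + 1)) ((s v).upper (j + 1))
    ((s w).upper (k + 1)) hadm
  have hs0 : s = st ((s u).upper (i + 1)) ((s v).upper (j + 1)) ((s w).upper (k + 1)) := by
    apply hext
    · rw [r3X_eq i T.cu]
    · rw [r3X_eq j T.cv]
    · rw [r3X_eq k T.cw]
    · intro x _ _ _
      rfl
  have hfin' : F (st ((s u).upper (i + 1)) ((s v).upper (j + 1)) ((s w).upper (k + 1))) -
      F' (st ((s u).upper (i + 1)) ((s v).upper (j + 1)) ((s w).upper (k + 1))) = 0 := hfin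
  rw [← hs0] at hfin'
  exact sub_eq_zero.mp hfin'

theorem skein_R3 (hz : z * (mu + 1) = 2) (T : Tri S s u i v j w k)
    (hadm : ¬ ((s u).upper (i + 1) = (s v).upper (j + 1) ∧
      (s v).upper (j + 1) = (s w).upper (k + 1)))
    {h : Dart V → ℕ} (hs : Sweep S s h) {Ok Ok' : (Dart V → ℕ) → Prop}
    (hOk : ∀ g, SameOrd S s h g → Ok g)
    (hOk' : ∀ g, SameOrd (S.conj (tri u i v j w k)) s (fun x => h (tri u i v j w k x)) g → Ok' g)
    (hF : IsSkein z mu S s F Ok) (hF' : IsSkein z mu (S.conj (tri u i v j w k)) s F' Ok') :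
    F s = F' s :=
  r3_main hz F F' (nX s) s rfl T hadm h hs Ok Ok' hOk hOk' hF hF'

end Pool.Agent.Helper65.LK
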