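import Pool.Agent.Helper65.LK.Compress

/-!
# LK-05. The number of components after smoothing a crossing

`outer`: apply `gen_classes` and `gen_iff` with `U w ↔ w = v`, `θ = tau (update s v q)`: outside `v`
the states `s` and `update s v q` agree.  `partner U S s (v, i) = (v, o i)` defines `o`, a
fixed point free involution of `ZMod 4` which does not depend on `q` (it depends on the state
outside `v` only), and `C₀ = loops U S s`.
The relation `genU` on the four darts of `v` is generated by `o` and `q.mate`: it has two classes if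
`q.mate = o` and one otherwise (`o` is one of the three fixed point free involutions of `ZMod 4`;
finite check, e.g. for all `o : ZMod 4 → ZMod 4` by `decide` on the relation, or by hand).

`comps_self`: if `(v, 0), (v, 1)` are on the same component then `o ≠ (· + 2)`, so `o` is the
matching of exactly one of the two smoothings.

`comps_kink`: `Arc S s (v,i) (v,i+1)` between darts of crossings does not pass through `v`, hence
`o i = i + 1`, which is the matching of `turn (i + 1)`.

`comps_bigon`: apply `gen_classes` with `U x ↔ x = v ∨ x = w`.  The partner of `(v, i)` is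
`(w, j+1)` and the partner of `(v, i+1)` is `(w, j)`; the four darts `(v, i+2), (v, i+3), (w, j+2),
(w, j+3)` are matched by `partner` in one of three ways.  In each case the number of classes
generated by `partner` and `tau s` is the same as for the state smoothed by `turn i` at `v` and
`turn j` at `w`: in both cases the relation compressed to the four darts is generated by the
outer matching and by `(v, i+2) ~ (w, j+3)`, `(v, i+3) ~ (w, j+2)`.
-/

namespace Pool.Agent.Helper65.LK

open Function

variable {V : Type} [Fintype V] [DecidableEq V]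

omit [Fintype V] [DecidableEq V] in
/-- counting classes by a map whose fibres are the classes -/
private theorem classes_eq_card {X Y : Type} (r : X → X → Prop) (f : X → Y) (hf : Function.Surjective f)
    (h : ∀ x y, Relation.EqvGen r x y ↔ f x = f y) : classes r = Nat.card Y := by
  unfold classes
  have h1 : Relation.EqvGen.setoid r = Setoid.ker f := by
    ext x y
    exact h x y
  rw [h1]
  exact Nat.card_congr (Setoid.quotientKerEquivOfSurjective f hf)

private theorem eqvGen_map {X Y : Type} {r : X → X → Prop} {r' : Y → Y → Prop} (f : X → Y)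
    (h : ∀ x y, r x y → r' (f x) (f y)) {x y : X} (hxy : Relation.EqvGen r x y) :
    Relation.EqvGen r' (f x) (f y) := by
  induction hxy with
  | rel x y hr => exact Relation.EqvGen.rel _ _ (h x y hr)
  | refl x => exact Relation.EqvGen.refl _
  | symm x y _ ih => exact Relation.EqvGen.symm _ _ ih
  | trans x y z _ _ ih1 ih2 => exact Relation.EqvGen.trans _ _ _ ih1 ih2

private theorem eqvGen_equiv {X Y : Type} {r : X → X → Prop} {r' : Y → Y → Prop} (e : X ≃ Y)
    (h : ∀ x y, r x y ↔ r' (e x) (e y)) (x y : X) :
    Relation.EqvGen r x y ↔ Relation.EqvGen r' (e x) (e y) := by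
  constructor
  · exact eqvGen_map e fun x y => (h x y).1
  · intro h1
    have h2 := eqvGen_map (r' := r) e.symm (fun x y hr => (h _ _).2 (by simpa using hr)) h1
    simpa using h2

private theorem classes_equiv {X Y : Type} {r : X → X → Prop} {r' : Y → Y → Prop} (e : X ≃ Y)
    (h : ∀ x y, r x y ↔ r' (e x) (e y)) : classes r = classes r' := by
  unfold classes
  exact Nat.card_congr (Quotient.congr e (eqvGen_equiv e h))

/-- the function with the values `a, b, c, d` -/
private def mk4 (a b c d i : ZMod 4) : ZMod 4 :=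
  if i = 0 then a else if i = 1 then b else if i = 2 then c else d

/-- finite check: the fixed point free involutions -/
private def okk (a b c d : ZMod 4) : Bool :=
  decide (a = 0) || decide (b = 1) || decide (c = 2) || decide (d = 3) ||
    !(decide (∀ i : ZMod 4, mk4 a b c d (mk4 a b c d i) = i)) ||
      (decide (a = 2 ∧ b = 3 ∧ c = 0 ∧ d = 1) || decide (a = 1 ∧ b = 0 ∧ c = 3 ∧ d = 2) ||
        decide (a = 3 ∧ b = 2 ∧ c = 1 ∧ d = 0))

set_option maxRecDepth 100000 in
private theorem okk_all : ∀ a b c d : ZMod 4, okk a b c d = true := by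
  decide

/-- the fixed point free involutions of `ZMod 4` -/
private theorem ffi_cases (o : ZMod 4 → ZMod 4) (h1 : ∀ i, o i ≠ i) (h2 : ∀ i, o (o i) = i) :
    o = St.over1.mate ∨ o = St.smA.mate ∨ o = St.smB.mate := by
  have key : ∀ a b c d : ZMod 4, a ≠ 0 → b ≠ 1 → c ≠ 2 → d ≠ 3 →
      (∀ i : ZMod 4, mk4 a b c d (mk4 a b c d i) = i) →
      (a = 2 ∧ b = 3 ∧ c = 0 ∧ d = 1) ∨ (a = 1 ∧ b = 0 ∧ c = 3 ∧ d = 2) ∨
        (a = 3 ∧ b = 2 ∧ c = 1 ∧ d = 0) := by
    intro a b c d h1 h2 h3 h4 h5
    have h := okk_all a b c d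
    unfold okk at h
    simp only [h1, h2, h3, h4, h5, decide_false, decide_true, Bool.false_or, Bool.not_true,
      implies_true, Bool.or_eq_true, decide_eq_true_eq] at h
    tauto
  have h3 : o = mk4 (o 0) (o 1) (o 2) (o 3) := by
    funext i
    have : i = 0 ∨ i = 1 ∨ i = 2 ∨ i = 3 := by revert i; decide
    rcases this with h | h | h | h <;> subst h
    · rfl
    · rfl
    · rfl
    · rfl
  have h4 := key (o 0) (o 1) (o 2) (o 3) (h1 0) (h1 1) (h1 2) (h1 3) (by
    intro i
    have := h2 i
    rw [h3] at this
    exact this)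
  rcases h4 with ⟨a, b, c, d⟩ | ⟨a, b, c, d⟩ | ⟨a, b, c, d⟩
  · left
    rw [h3, a, b, c, d]
    decide
  · right; left
    rw [h3, a, b, c, d]
    decide
  · right; right
    rw [h3, a, b, c, d]
    decide

private theorem eqvGen_mate (t q : St) (i j : ZMod 4) :
    Relation.EqvGen (fun i j : ZMod 4 => j = t.mate i ∨ j = q.mate i) i j ↔
      (q.mate = t.mate → j = i ∨ j = t.mate i) := by
  constructor
  · intro h hq
    induction h with
    | rel x y h =>
      rcases h with h | h
      · exact Or.inr h
      · rw [hq] at h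
        exact Or.inr h
    | refl x => exact Or.inl rfl
    | symm x y _ ih =>
      rcases ih with ih | ih
      · exact Or.inl ih.symm
      · right
        rw [ih, St.mate_mate]
    | trans x y z _ _ ih1 ih2 =>
      rcases ih1 with rfl | rfl
      · exact ih2
      · rcases ih2 with rfl | rfl
        · exact Or.inr rfl
        · rw [St.mate_mate]
          exact Or.inl rfl
  · intro h
    have a1 : Relation.EqvGen (fun i j : ZMod 4 => j = t.mate i ∨ j = q.mate i) i (t.mate i) :=
      Relation.EqvGen.rel _ _ (Or.inl rfl)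
    have a2 : Relation.EqvGen (fun i j : ZMod 4 => j = t.mate i ∨ j = q.mate i) i (q.mate i) :=
      Relation.EqvGen.rel _ _ (Or.inr rfl)
    have a3 : Relation.EqvGen (fun i j : ZMod 4 => j = t.mate i ∨ j = q.mate i) i
        (q.mate (t.mate i)) :=
      Relation.EqvGen.trans _ _ _ a1 (Relation.EqvGen.rel _ _ (Or.inr rfl))
    by_cases hq : q.mate = t.mate
    · rcases h hq with rfl | rfl
      · exact Relation.EqvGen.refl _
      · exact a1
    · have key : ∀ t q : St, ¬ q.mate = t.mate → ∀ i j : ZMod 4,
          j = i ∨ j = t.mate i ∨ j = q.mate i ∨ j = q.mate (t.mate i) := by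
        intro t q
        cases t <;> cases q <;> decide
      rcases key t q hq i j with rfl | rfl | rfl | rfl
      · exact Relation.EqvGen.refl _
      · exact a1
      · exact a2
      · exact a3

private theorem classes_mate (t q : St) :
    (q.mate = t.mate → classes (fun i j : ZMod 4 => j = t.mate i ∨ j = q.mate i) = 2) ∧
      (q.mate ≠ t.mate → classes (fun i j : ZMod 4 => j = t.mate i ∨ j = q.mate i) = 1) := by
  constructor
  · intro hq
    rw [classes_eq_card _ (fun i : ZMod 4 => decide (i = 0 ∨ i = t.mate 0))]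
    · simp
    · intro b
      have key : ∀ (t : St) (b : Bool), ∃ i : ZMod 4, decide (i = 0 ∨ i = t.mate 0) = b := by
        intro t
        cases t <;> decide
      exact key t b
    · intro x y
      rw [eqvGen_mate]
      have key : ∀ (t : St) (x y : ZMod 4), (y = x ∨ y = t.mate x) ↔
          decide (x = 0 ∨ x = t.mate 0) = decide (y = 0 ∨ y = t.mate 0) := by
        intro t
        cases t <;> decide
      rw [← key t x y]
      exact ⟨fun h => h hq, fun h _ => h⟩
  · intro hq
    rw [classes_eq_card _ (fun _ : ZMod 4 => ())]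
    · simp
    · intro b
      exact ⟨0, rfl⟩
    · intro x y
      rw [eqvGen_mate]
      exact ⟨fun _ => rfl, fun _ h => absurd h hq⟩

theorem outer (S : Shadow V) (s : V → St) (v : V) :
    ∃ (o : ZMod 4 → ZMod 4) (C₀ : ℕ), (∀ i, o i ≠ i) ∧ (∀ i, o (o i) = i) ∧
      (∀ i, Relation.EqvGen (arcRel (fun w => w = v) S s) (v, i) (v, o i)) ∧
      (∀ i j, Relation.EqvGen (arcRel (fun w => w = v) S s) (v, i) (v, j) → j = i ∨ j = o i) ∧
      (∀ q : St, (q.mate = o → comps S (update s v q) = C₀ + 2) ∧
        (q.mate ≠ o → comps S (update s v q) = C₀ + 1)) ∧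
      ∀ (q : St) (i j : ZMod 4), Comp S (update s v q) (v, i) (v, j) ↔
        (q.mate = o → j = i ∨ j = o i) := by
  set U : V → Prop := fun w => w = v with hU
  have hp : ∀ i : ZMod 4, partner U S s (v, i) = (v, (partner U S s (v, i)).2) := by
    intro i
    have h := (partner_spec U S s (v, i) rfl).1
    exact Prod.ext h rfl
  set o : ZMod 4 → ZMod 4 := fun i => (partner U S s (v, i)).2 with ho
  have h1 : ∀ i, o i ≠ i := by
    intro i hi
    refine (partner_spec U S s (v, i) rfl).2.1 ?_
    rw [hp i]
    exact Prod.ext rfl hi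
  have h2 : ∀ i, o (o i) = i := by
    intro i
    have h := partner_partner U S s (v, i) rfl
    rw [hp i] at h
    exact congrArg Prod.snd h
  have h3 : ∀ i, Relation.EqvGen (arcRel U S s) (v, i) (v, o i) := by
    intro i
    have h := (partner_spec U S s (v, i) rfl).2.2.1
    rwa [hp i] at h
  have h4 : ∀ i j, Relation.EqvGen (arcRel U S s) (v, i) (v, j) → j = i ∨ j = o i := by
    intro i j hij
    rcases (partner_spec U S s (v, i) rfl).2.2.2 (v, j) rfl hij with h | h
    · exact Or.inl (congrArg Prod.snd h)
    · right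
      exact congrArg Prod.snd h
  obtain ⟨t, ht⟩ : ∃ t : St, o = t.mate := by
    rcases ffi_cases o h1 h2 with h | h | h
    · exact ⟨_, h⟩
    · exact ⟨_, h⟩
    · exact ⟨_, h⟩
  let e : {x : Dart V // U x.1} ≃ ZMod 4 :=
    { toFun := fun x => x.1.2
      invFun := fun i => ⟨(v, i), rfl⟩
      left_inv := by
        rintro ⟨⟨w, i⟩, hw⟩
        have : w = v := hw
        subst this
        rfl
      right_inv := fun i => rfl }
  have h5 : ∀ (q : St) (x : Dart V), (tau (update s v q) x).1 = x.1 := fun q x => rfl
  have h6 : ∀ (q : St) (x : Dart V), ¬ U x.1 → tau (update s v q) x = tau s x := by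
    intro q x hx
    have h : (update s v q) x.1 = s x.1 := Function.update_of_ne hx _ _
    show (x.1, ((update s v q) x.1).mate x.2) = (x.1, (s x.1).mate x.2)
    rw [h]
  have h7 : ∀ (q : St) (x y : {x : Dart V // U x.1}),
      genU U S s (tau (update s v q)) x y ↔ e y = t.mate (e x) ∨ e y = q.mate (e x) := by
    rintro q ⟨⟨a, i⟩, ha⟩ ⟨⟨b, j⟩, hb⟩
    have ha' : v = a := Eq.symm ha
    have hb' : v = b := Eq.symm hb
    subst ha'
    subst hb'
    show ((v, j) = partner U S s (v, i) ∨ (v, j) = (v, ((update s v q) v).mate i)) ↔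
      (j = t.mate i ∨ j = q.mate i)
    rw [hp i, ← ht, Function.update_self]
    simp only [Prod.mk.injEq, true_and, ho]
  refine ⟨o, loops U S s, h1, h2, h3, h4, fun q => ?_, fun q i j => ?_⟩
  · have h8 : comps S (update s v q) =
        loops U S s + classes (fun i j : ZMod 4 => j = t.mate i ∨ j = q.mate i) := by
      have h9 := gen_classes U S s (tau (update s v q)) (h5 q) (h6 q)
      rw [classes_equiv (r' := fun i j : ZMod 4 => j = t.mate i ∨ j = q.mate i) e (h7 q)] at h9
      exact h9
    rw [h8, ht]
    exact ⟨fun h => by rw [(classes_mate t q).1 h], fun h => by rw [(classes_mate t q).2 h]⟩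
  · rw [ht, ← eqvGen_mate]
    have h9 := gen_iff U S s (tau (update s v q)) (h5 q) (h6 q) ⟨(v, i), rfl⟩ ⟨(v, j), rfl⟩
    rw [eqvGen_equiv (r' := fun i j : ZMod 4 => j = t.mate i ∨ j = q.mate i) e (h7 q)] at h9
    exact h9

private theorem mate_of_isX {t : St} (h : t.isX = true) : t.mate = St.over1.mate := by
  cases t
  · rfl
  · rfl
  · exact absurd h (by decide)
  · exact absurd h (by decide)

theorem comps_self (S : Shadow V) (s : V → St) (v : V) (hv : (s v).isX = true)
    (h : Comp S s (v, 0) (v, 1)) :
    (comps S (update s v St.smA) = comps S s ∧ comps S (update s v St.smB) = comps S s + 1) ∨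
      (comps S (update s v St.smB) = comps S s ∧ comps S (update s v St.smA) = comps S s + 1) := by
  obtain ⟨o, C₀, h1, h2, -, -, h5, h6⟩ := outer S s v
  have h7 := h6 (s v) 0 1
  rw [Function.update_eq_self] at h7
  have h8 := h7.1 h
  have h9 : St.over1.mate ≠ o := by
    intro ho
    rcases h8 ((mate_of_isX hv).trans ho) with h | h
    · exact absurd h (by decide)
    · rw [← ho] at h
      exact absurd h (by decide)
  have h10 : comps S s = C₀ + 1 := by
    have := (h5 (s v)).2 (by rw [mate_of_isX hv]; exact h9)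
    rwa [Function.update_eq_self] at this
  rcases ffi_cases o h1 h2 with ho | ho | ho
  · exact absurd ho.symm h9
  · right
    rw [h10, (h5 St.smA).1 ho.symm, (h5 St.smB).2 (by rw [ho]; decide)]
    exact ⟨rfl, rfl⟩
  · left
    rw [h10, (h5 St.smB).1 ho.symm, (h5 St.smA).2 (by rw [ho]; decide)]
    exact ⟨rfl, rfl⟩

omit [Fintype V] [DecidableEq V] in
private theorem arcRel_mono {U U' : V → Prop} (hU : ∀ w, U' w → U w) (S : Shadow V) (s : V → St)
    {x y : Dart V} (h : Relation.EqvGen (arcRel U S s) x y) :
    Relation.EqvGen (arcRel U' S s) x y :=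
  eqvGen_map id (fun _ _ hr => hr.imp id fun h1 => ⟨fun h2 => h1.1 (hU _ h2), h1.2⟩) h

theorem comps_kink (S : Shadow V) (s : V → St) (v : V) (i : ZMod 4) (hv : (s v).isX = true)
    (h : Arc S s (v, i) (v, i + 1)) :
    comps S (update s v (St.turn i)) = comps S s ∧
      comps S (update s v (St.turn (i + 1))) = comps S s + 1 := by
  obtain ⟨o, C₀, h1, h2, -, h4, h5, h6⟩ := outer S s v
  have h7 : Relation.EqvGen (arcRel (fun w => w = v) S s) (v, i) (v, i + 1) := by
    rw [Arc_eq] at h
    refine arcRel_mono ?_ S s h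
    rintro w rfl
    exact hv
  have h8 : i + 1 = o i := by
    rcases h4 _ _ h7 with h | h
    · exact absurd h ((by decide : ∀ i : ZMod 4, ¬ i + 1 = i) i)
    · exact h
  have h9 : (St.turn (i + 1)).mate = o := by
    rcases ffi_cases o h1 h2 with ho | ho | ho
    · rw [ho] at h8 ⊢
      clear h h7
      revert i
      decide
    · rw [ho] at h8 ⊢
      clear h h7
      revert i
      decide
    · rw [ho] at h8 ⊢
      clear h h7
      revert i
      decide
  have h10 : (St.turn i).mate ≠ o := by
    rw [← h9]
    clear h h7 h8 h9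
    revert i
    decide
  have h11 : (s v).mate ≠ o := by
    rw [← h9, mate_of_isX hv]
    clear h h7 h8 h9 h10
    revert i
    decide
  have h12 : comps S s = C₀ + 1 := by
    have := (h5 (s v)).2 h11
    rwa [Function.update_eq_self] at this
  rw [h12, (h5 _).2 h10, (h5 _).1 h9]
  exact ⟨rfl, rfl⟩

/-- exchange the darts `i`, `i + 1` at `v` and the darts `j`, `j + 1` at `w` -/
private def bsw (v w : V) (i j : ZMod 4) (x : Dart V) : Dart V :=
  if x.1 = v then (x.1, Equiv.swap i (i + 1) x.2) else
    if x.1 = w then (x.1, Equiv.swap j (j + 1) x.2) else x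

omit [Fintype V] in
private theorem bsw_fst (v w : V) (i j : ZMod 4) (x : Dart V) : (bsw v w i j x).1 = x.1 := by
  unfold bsw
  split_ifs <;> rfl

omit [Fintype V] in
private theorem bsw_v (v w : V) (i j k : ZMod 4) :
    bsw v w i j (v, k) = (v, Equiv.swap i (i + 1) k) := by
  unfold bsw
  rw [if_pos rfl]

omit [Fintype V] in
private theorem bsw_w {v w : V} (hvw : v ≠ w) (i j k : ZMod 4) :
    bsw v w i j (w, k) = (w, Equiv.swap j (j + 1) k) := by
  unfold bsw
  rw [if_neg (fun h : w = v => hvw h.symm), if_pos rfl]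

omit [Fintype V] in
private theorem bsw_bsw {v w : V} (hvw : v ≠ w) (i j : ZMod 4) (x : Dart V) :
    bsw v w i j (bsw v w i j x) = x := by
  obtain ⟨a, k⟩ := x
  by_cases h1 : v = a
  · subst h1
    rw [bsw_v, bsw_v, Equiv.swap_apply_self]
  · by_cases h2 : w = a
    · subst h2
      rw [bsw_w hvw, bsw_w hvw, Equiv.swap_apply_self]
    · have h3 : bsw v w i j (a, k) = (a, k) := by
        unfold bsw
        rw [if_neg (fun h => h1 (Eq.symm h)), if_neg (fun h => h2 (Eq.symm h))]
      rw [h3, h3]

omit [Fintype V] in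
private theorem bsw_of_not {v w : V} (i j : ZMod 4) (x : Dart V) (h1 : x ≠ (v, i)) (h2 : x ≠ (v, i + 1))
    (h3 : x ≠ (w, j)) (h4 : x ≠ (w, j + 1)) : bsw v w i j x = x := by
  obtain ⟨a, k⟩ := x
  unfold bsw
  split_ifs with h5 h6
  · have h5' : v = a := Eq.symm h5
    subst h5'
    rw [Equiv.swap_apply_of_ne_of_ne (fun h => h1 (Prod.ext rfl h)) fun h => h2 (Prod.ext rfl h)]
  · have h6' : w = a := Eq.symm h6
    subst h6'
    rw [Equiv.swap_apply_of_ne_of_ne (fun h => h3 (Prod.ext rfl h)) fun h => h4 (Prod.ext rfl h)]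
  · rfl

private theorem turn_swap : ∀ i k : ZMod 4,
    (St.turn i).mate (Equiv.swap i (i + 1) k) = Equiv.swap i (i + 1) (St.over1.mate k) := by
  decide

theorem comps_bigon (S : Shadow V) (s : V → St) (v w : V) (i j : ZMod 4) (hvw : v ≠ w)
    (hv : (s v).isX = true) (hw : (s w).isX = true) (h1 : Arc S s (v, i) (w, j + 1))
    (h2 : Arc S s (v, i + 1) (w, j)) :
    comps S (update (update s v (St.turn i)) w (St.turn j)) = comps S s := by
  set U : V → Prop := fun x => x = v ∨ x = w with hU
  have hUC : ∀ x, U x → Cr s x := by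
    rintro x (rfl | rfl)
    · exact hv
    · exact hw
  have hUv : U v := Or.inl rfl
  have hUw : U w := Or.inr rfl
  rw [Arc_eq] at h1 h2
  replace h1 := arcRel_mono hUC S s h1
  replace h2 := arcRel_mono hUC S s h2
  have p1 : partner U S s (v, i) = (w, j + 1) :=
    partner_eq U S s (v, i) (w, j + 1) hUv hUw (fun h => hvw (congrArg Prod.fst h).symm) h1
  have p2 : partner U S s (v, i + 1) = (w, j) :=
    partner_eq U S s (v, i + 1) (w, j) hUv hUw (fun h => hvw (congrArg Prod.fst h).symm) h2
  have p3 : partner U S s (w, j + 1) = (v, i) := by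
    rw [← p1]
    exact partner_partner U S s _ hUv
  have p4 : partner U S s (w, j) = (v, i + 1) := by
    rw [← p2]
    exact partner_partner U S s _ hUv
  have q1 : bsw v w i j (v, i) = (v, i + 1) := by rw [bsw_v, Equiv.swap_apply_left]
  have q2 : bsw v w i j (v, i + 1) = (v, i) := by rw [bsw_v, Equiv.swap_apply_right]
  have q3 : bsw v w i j (w, j) = (w, j + 1) := by rw [bsw_w hvw, Equiv.swap_apply_left]
  have q4 : bsw v w i j (w, j + 1) = (w, j) := by rw [bsw_w hvw, Equiv.swap_apply_right]
  have hP : ∀ x : Dart V, U x.1 →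
      partner U S s (bsw v w i j x) = bsw v w i j (partner U S s x) := by
    intro x hx
    by_cases c1 : x = (v, i)
    · rw [c1, q1, p1, p2, q4]
    by_cases c2 : x = (v, i + 1)
    · rw [c2, q2, p1, p2, q3]
    by_cases c3 : x = (w, j)
    · rw [c3, q3, p3, p4, q2]
    by_cases c4 : x = (w, j + 1)
    · rw [c4, q4, p3, p4, q1]
    have hpp := partner_partner U S s x hx
    rw [bsw_of_not i j x c1 c2 c3 c4, bsw_of_not]
    · intro h
      rw [h, p1] at hpp
      exact c4 hpp.symm
    · intro h
      rw [h, p2] at hpp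
      exact c3 hpp.symm
    · intro h
      rw [h, p4] at hpp
      exact c2 hpp.symm
    · intro h
      rw [h, p3] at hpp
      exact c1 hpp.symm
  set s'' : V → St := update (update s v (St.turn i)) w (St.turn j) with hs''
  have hsv : s'' v = St.turn i := by
    rw [hs'', Function.update_of_ne hvw, Function.update_self]
  have hsw : s'' w = St.turn j := by
    rw [hs'', Function.update_self]
  have hT : ∀ x : Dart V, U x.1 → tau s'' (bsw v w i j x) = bsw v w i j (tau s x) := by
    rintro ⟨a, k⟩ hx
    rcases hx with hx | hx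
    · have hx' : v = a := Eq.symm hx
      subst hx'
      have e1 : tau s (v, k) = (v, (s v).mate k) := rfl
      rw [e1, bsw_v, bsw_v, mate_of_isX hv, ← turn_swap]
      show (v, (s'' v).mate _) = _
      rw [hsv]
    · have hx' : w = a := Eq.symm hx
      subst hx'
      have e1 : tau s (w, k) = (w, (s w).mate k) := rfl
      rw [e1, bsw_w hvw, bsw_w hvw, mate_of_isX hw, ← turn_swap]
      show (w, (s'' w).mate _) = _
      rw [hsw]
  let e : {x : Dart V // U x.1} ≃ {x : Dart V // U x.1} :=
    { toFun := fun x => ⟨bsw v w i j x.1, by rw [bsw_fst]; exact x.2⟩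
      invFun := fun x => ⟨bsw v w i j x.1, by rw [bsw_fst]; exact x.2⟩
      left_inv := fun x => Subtype.ext (bsw_bsw hvw i j x.1)
      right_inv := fun x => Subtype.ext (bsw_bsw hvw i j x.1) }
  have hinj : ∀ x y : Dart V, x = y ↔ bsw v w i j x = bsw v w i j y := by
    intro x y
    constructor
    · rintro rfl
      rfl
    · intro h
      rw [← bsw_bsw hvw i j x, h, bsw_bsw hvw i j y]
  have hrel : ∀ x y : {x : Dart V // U x.1},
      genU U S s (tau s) x y ↔ genU U S s (tau s'') (e x) (e y) := by
    intro x y
    show (y.1 = partner U S s x.1 ∨ y.1 = tau s x.1) ↔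
      (bsw v w i j y.1 = partner U S s (bsw v w i j x.1) ∨
        bsw v w i j y.1 = tau s'' (bsw v w i j x.1))
    rw [hP x.1 x.2, hT x.1 x.2, ← hinj, ← hinj]
  have c1 := gen_classes U S s (tau s) (fun x => rfl) (fun x _ => rfl)
  have c2 := gen_classes U S s (tau s'') (fun x => rfl) (by
    intro x hx
    have h3 : x.1 ≠ v := fun h => hx (Or.inl h)
    have h4 : x.1 ≠ w := fun h => hx (Or.inr h)
    show (x.1, (s'' x.1).mate x.2) = (x.1, (s x.1).mate x.2)
    rw [hs'', Function.update_of_ne h4, Function.update_of_ne h3])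
  rw [← classes_equiv e hrel, ← c1] at c2
  exact c2

end Pool.Agent.Helper65.LK
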