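import Pool.Agent.Helper65.LK.Skein

/-!
# LK-03. Functions on a hypercube with prescribed edge sums

Proof.  Show by induction on a finite set `A` of crossings of `s`: there is `f` with `f p = m` and
`f t + f (update t v (t v).sw) = g v t` for all `v ∈ A` and all `t` of the same shape as `s` which
agree with `p` outside `A`.  Step `A ∪ {a}`: put `f' t = f t` if `t a = p a`, and
`f' t = g a t - f (update t a (p a))` otherwise.  At `a` use `h1`; at `v ∈ A` and `t a ≠ p a` (so
`t a = (p a).sw`) use `h2 : g a t + g a (update t v ..) = g v t + g v (update t a (t a).sw)`.
In the end `A` is the set of all crossings of `s`; two states of the same shape agree at the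
smoothed vertices.
-/

namespace Pool.Agent.Helper65.LK

open Function

private lemma cube_cases {x y : St} (h : x.shape = y.shape) (hne : x ≠ y) :
    x.isX = true ∧ y = x.sw := by
  revert h hne
  cases x <;> cases y <;> decide

private lemma cube_sw_ne {x : St} (h : x.isX = true) : x.sw ≠ x := by
  revert h
  cases x <;> decide

variable {V : Type} [Fintype V] [DecidableEq V] {R : Type} [CommRing R]

theorem exists_cube (s : V → St) (g : V → (V → St) → R)
    (h1 : ∀ t v, SameShape t s → (t v).isX = true → g v (update t v (t v).sw) = g v t)
    (h2 : ∀ t v w, SameShape t s → v ≠ w → (t v).isX = true → (t w).isX = true →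
      g v t + g v (update t w (t w).sw) = g w t + g w (update t v (t v).sw))
    (p : V → St) (hp : SameShape p s) (m : R) :
    ∃ f : (V → St) → R, f p = m ∧
      ∀ t v, SameShape t s → (t v).isX = true → f t + f (update t v (t v).sw) = g v t := by
  classical
  have key : ∀ A : Finset V, ∃ f : (V → St) → R, f p = m ∧
      ∀ t v, SameShape t s → (t v).isX = true → v ∈ A → (∀ w, w ∉ A → t w = p w) →
        f t + f (update t v (t v).sw) = g v t := by
    intro A
    induction A using Finset.induction_on with
    | empty => exact ⟨fun _ => m, rfl, fun t v _ _ hv => absurd hv (Finset.notMem_empty v)⟩
    | insert a A ha ih =>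
      obtain ⟨f, hfp, hf⟩ := ih
      refine ⟨fun t => if t a = p a then f t else g a t - f (update t a (p a)), ?_, ?_⟩
      · simp [hfp]
      · intro t v ht hv hvA hout
        by_cases hta : t a = p a
        · by_cases hva : v = a
          · subst hva
            have hne : (update t v (t v).sw) v ≠ p v := by
              rw [update_self, ← hta]
              exact cube_sw_ne hv
            simp only [if_pos hta, if_neg hne, update_idem]
            rw [← hta, update_eq_self, h1 t v ht hv]
            ring
          · have hvA' : v ∈ A := (Finset.mem_insert.1 hvA).resolve_left hva
            have h3 : (update t v (t v).sw) a = p a := by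
              rw [update_of_ne (Ne.symm hva), hta]
            simp only [if_pos hta, if_pos h3]
            refine hf t v ht hv hvA' fun w hw => ?_
            by_cases hwa : w = a
            · rw [hwa, hta]
            · exact hout w (by rw [Finset.mem_insert]; push Not; exact ⟨hwa, hw⟩)
        · have hshape : (t a).shape = (p a).shape := (ht a).trans (hp a).symm
          obtain ⟨hX, hpa⟩ := cube_cases hshape hta
          by_cases hva : v = a
          · subst hva
            have h3 : (update t v (t v).sw) v = p v := by rw [update_self, hpa]
            simp only [if_neg hta, if_pos h3]
            rw [← hpa]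
            ring
          · have hvA' : v ∈ A := (Finset.mem_insert.1 hvA).resolve_left hva
            have h3 : (update t v (t v).sw) a ≠ p a := by
              rw [update_of_ne (Ne.symm hva)]
              exact hta
            simp only [if_neg hta, if_neg h3]
            have h4 : SameShape (update t a (p a)) s := by
              intro w
              by_cases hwa : w = a
              · rw [hwa, update_self, hp a]
              · rw [update_of_ne hwa, ht w]
            have h5 : (update t a (p a)) v = t v := update_of_ne hva _ _
            have h6 := hf (update t a (p a)) v h4 (by rw [h5]; exact hv) hvA' (fun w hw => by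
              by_cases hwa : w = a
              · rw [hwa, update_self]
              · rw [update_of_ne hwa]
                exact hout w (by rw [Finset.mem_insert]; push Not; exact ⟨hwa, hw⟩))
            rw [h5] at h6
            have h7 := h2 t a v ht (Ne.symm hva) hX hv
            rw [← hpa] at h7
            rw [update_comm hva]
            linear_combination h7 - h6
  obtain ⟨f, hfp, hf⟩ := key Finset.univ
  exact ⟨f, hfp, fun t v ht hv => hf t v ht hv (Finset.mem_univ v)
    fun w hw => absurd (Finset.mem_univ w) hw⟩

end Pool.Agent.Helper65.LK
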