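import Pool.Agent.Helper65.LK.Arcs

/-!
# LK-02. Counting classes after compressing the arcs outside `U`

Let `θ` preserve the vertex of every dart and agree with `tau s` outside `U`.

`gen_iff`: for darts `x, y` in `U` they are equivalent for the relation generated by `α, θ`
iff they are equivalent for the relation generated on the darts in `U` by `partner` and `θ`.
`←`: `partner_spec` (an `arcRel` chain is a `gen` chain since `θ = tau s` outside `U`).
`→`: extend the second relation to all darts: say `x ≈ y` if either both arcs (classes of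
`EqvGen (arcRel U S s)`) contain darts `x', y'` in `U` with `EqvGen (genU ..) x' y'`, or `x` and `y`
are in the same arc.  Show that `≈` is an equivalence relation containing `gen`: an `α` step stays
in the same arc; a `θ` step at a vertex outside `U` stays in the same arc; a `θ` step at a vertex
of `U` is a `genU` step.  (The darts in `U` on the same arc are `x'` and `partner x'`, hence `genU`
equivalent.)

`gen_classes`: a class of `gen` without darts in `U` is a class of `arcRel` without darts in `U`
and conversely (on such a class the two relations have the same steps); the classes with darts in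
`U` correspond to the classes of `genU` by `gen_iff`.
-/

namespace Pool.Agent.Helper65.LK

variable {V : Type} [Fintype V]

private theorem lift_rel {X Y : Type} {r : X → X → Prop} {q : Y → Y → Prop} (f : X → Y)
    (h : ∀ a b, r a b → Relation.EqvGen q (f a) (f b)) {a b : X} (hab : Relation.EqvGen r a b) :
    Relation.EqvGen q (f a) (f b) := by
  induction hab with
  | rel a b hr => exact h a b hr
  | refl a => exact Relation.EqvGen.refl _
  | symm a b _ ih => exact ih.symm
  | trans a b c _ _ ih1 ih2 => exact ih1.trans _ _ _ ih2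

private theorem arc_gen (U : V → Prop) (S : Shadow V) (s : V → St) (θ : Dart V → Dart V)
    (h2 : ∀ x : Dart V, ¬ U x.1 → θ x = tau s x) {a b : Dart V}
    (h : Relation.EqvGen (arcRel U S s) a b) : Relation.EqvGen (gen S θ) a b := by
  refine lift_rel (q := gen S θ) (fun x => x) ?_ h
  rintro a b (hr | ⟨hU, hr⟩)
  · exact Relation.EqvGen.rel _ _ (Or.inl hr)
  · exact Relation.EqvGen.rel _ _ (Or.inr (by rw [hr, h2 a hU]))

private theorem same_arc (U : V → Prop) (S : Shadow V) (s : V → St) (θ : Dart V → Dart V)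
    (x y : {x : Dart V // U x.1}) (h : Relation.EqvGen (arcRel U S s) x.1 y.1) :
    Relation.EqvGen (genU U S s θ) x y := by
  rcases (partner_spec U S s x.1 x.2).2.2.2 y.1 y.2 h with h' | h'
  · have : y = x := Subtype.ext h'
    rw [this]
    exact Relation.EqvGen.refl _
  · exact Relation.EqvGen.rel _ _ (Or.inl h')

/-- the invariant of the relation generated by `α` and `θ` -/
private def Q (U : V → Prop) (S : Shadow V) (s : V → St) (θ : Dart V → Dart V) (a b : Dart V) :
    Prop :=
  (∀ x y : {x : Dart V // U x.1}, Relation.EqvGen (arcRel U S s) a x.1 →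
    Relation.EqvGen (arcRel U S s) b y.1 → Relation.EqvGen (genU U S s θ) x y) ∧
  ((∃ x : {x : Dart V // U x.1}, Relation.EqvGen (arcRel U S s) a x.1) ↔
    (∃ x : {x : Dart V // U x.1}, Relation.EqvGen (arcRel U S s) b x.1)) ∧
  ((¬ ∃ x : {x : Dart V // U x.1}, Relation.EqvGen (arcRel U S s) a x.1) →
    Relation.EqvGen (arcRel U S s) a b)

private theorem Q_arc (U : V → Prop) (S : Shadow V) (s : V → St) (θ : Dart V → Dart V)
    {a b : Dart V} (h : Relation.EqvGen (arcRel U S s) a b) : Q U S s θ a b := by
  refine ⟨fun x y hx hy => ?_, ⟨?_, ?_⟩, fun _ => h⟩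
  · exact same_arc U S s θ x y ((hx.symm.trans _ _ _ h).trans _ _ _ hy)
  · rintro ⟨x, hx⟩
    exact ⟨x, h.symm.trans _ _ _ hx⟩
  · rintro ⟨x, hx⟩
    exact ⟨x, h.trans _ _ _ hx⟩

private theorem Q_gen (U : V → Prop) (S : Shadow V) (s : V → St) (θ : Dart V → Dart V)
    (h1 : ∀ x, (θ x).1 = x.1) (h2 : ∀ x : Dart V, ¬ U x.1 → θ x = tau s x)
    {a b : Dart V} (h : Relation.EqvGen (gen S θ) a b) : Q U S s θ a b := by
  induction h with
  | rel a b hr =>
    rcases hr with hr | hr
    · exact Q_arc U S s θ (Relation.EqvGen.rel _ _ (Or.inl hr))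
    · by_cases hU : U a.1
      · have hUb : U b.1 := by rw [hr, h1 a]; exact hU
        have key : Relation.EqvGen (genU U S s θ) ⟨a, hU⟩ ⟨b, hUb⟩ :=
          Relation.EqvGen.rel _ _ (Or.inr hr)
        refine ⟨fun x y hx hy => ?_, ⟨?_, ?_⟩, fun hn => ?_⟩
        · exact ((same_arc U S s θ ⟨a, hU⟩ x hx).symm.trans _ _ _ key).trans _ _ _
            (same_arc U S s θ ⟨b, hUb⟩ y hy)
        · rintro _
          exact ⟨⟨b, hUb⟩, Relation.EqvGen.refl _⟩
        · rintro _
          exact ⟨⟨a, hU⟩, Relation.EqvGen.refl _⟩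
        · exact absurd ⟨⟨a, hU⟩, Relation.EqvGen.refl _⟩ hn
      · exact Q_arc U S s θ (Relation.EqvGen.rel _ _ (Or.inr ⟨hU, by rw [hr, h2 a hU]⟩))
  | refl a => exact Q_arc U S s θ (Relation.EqvGen.refl _)
  | symm a b _ ih =>
    obtain ⟨i1, i2, i3⟩ := ih
    refine ⟨fun x y hx hy => (i1 y x hy hx).symm, i2.symm, fun hn => ?_⟩
    exact (i3 (fun h => hn (i2.1 h))).symm
  | trans a b c _ _ ih1 ih2 =>
    obtain ⟨i1, i2, i3⟩ := ih1
    obtain ⟨j1, j2, j3⟩ := ih2
    refine ⟨fun x y hx hy => ?_, i2.trans j2, fun hn => ?_⟩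
    · obtain ⟨z, hz⟩ := i2.1 ⟨x, hx⟩
      exact (i1 x z hx hz).trans _ _ _ (j1 z y hz hy)
    · exact (i3 hn).trans _ _ _ (j3 (fun h => hn (i2.2 h)))

theorem gen_iff (U : V → Prop) (S : Shadow V) (s : V → St) (θ : Dart V → Dart V)
    (h1 : ∀ x, (θ x).1 = x.1) (h2 : ∀ x : Dart V, ¬ U x.1 → θ x = tau s x)
    (x y : {x : Dart V // U x.1}) :
    Relation.EqvGen (gen S θ) x.1 y.1 ↔ Relation.EqvGen (genU U S s θ) x y := by
  constructor
  · intro h
    exact (Q_gen U S s θ h1 h2 h).1 x y (Relation.EqvGen.refl _) (Relation.EqvGen.refl _)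
  · intro h
    refine lift_rel (q := gen S θ) (fun x : {x : Dart V // U x.1} => x.1) ?_ h
    rintro a b (hr | hr)
    · have h3 := (partner_spec U S s a.1 a.2).2.2.1
      rw [← hr] at h3
      exact arc_gen U S s θ h2 h3
    · exact Relation.EqvGen.rel _ _ (Or.inr hr)

/-- the map from the loops and the classes in `U` to the classes -/
private def clMap (U : V → Prop) (S : Shadow V) (s : V → St) (θ : Dart V → Dart V)
    (h1 : ∀ x, (θ x).1 = x.1) (h2 : ∀ x : Dart V, ¬ U x.1 → θ x = tau s x) :
    {q : Quotient (Relation.EqvGen.setoid (arcRel U S s)) //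
      ∀ x : Dart V, Quotient.mk _ x = q → ¬ U x.1} ⊕
      Quotient (Relation.EqvGen.setoid (genU U S s θ)) →
      Quotient (Relation.EqvGen.setoid (gen S θ)) :=
  Sum.elim
    (fun q => Quotient.map (sa := Relation.EqvGen.setoid (arcRel U S s))
      (sb := Relation.EqvGen.setoid (gen S θ)) (fun x => x)
      (fun _ _ h => arc_gen U S s θ h2 h) q.1)
    (Quotient.map (sa := Relation.EqvGen.setoid (genU U S s θ))
      (sb := Relation.EqvGen.setoid (gen S θ)) (fun x => x.1)
      (fun a b h => (gen_iff U S s θ h1 h2 a b).2 h))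

theorem gen_classes (U : V → Prop) (S : Shadow V) (s : V → St) (θ : Dart V → Dart V)
    (h1 : ∀ x, (θ x).1 = x.1) (h2 : ∀ x : Dart V, ¬ U x.1 → θ x = tau s x) :
    classes (gen S θ) = loops U S s + classes (genU U S s θ) := by
  classical
  unfold classes loops
  rw [← Nat.card_sum]
  symm
  apply Nat.card_eq_of_bijective (clMap U S s θ h1 h2)
  constructor
  · rintro (⟨q, hq⟩ | q) (⟨r, hr⟩ | r) h
    · revert hq hr h
      refine Quotient.inductionOn₂ q r ?_
      intro a b ha hb h
      have hg : Relation.EqvGen (gen S θ) a b := Quotient.exact h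
      have hn : ¬ ∃ x : {x : Dart V // U x.1}, Relation.EqvGen (arcRel U S s) a x.1 := by
        rintro ⟨x, hx⟩
        exact ha x.1 (Quotient.sound hx.symm) x.2
      have := (Q_gen U S s θ h1 h2 hg).2.2 hn
      congr 1
      exact Subtype.ext (Quotient.sound this)
    · exfalso
      revert hq h
      refine Quotient.inductionOn₂ q r ?_
      intro a b ha h
      have hg : Relation.EqvGen (gen S θ) a b.1 := Quotient.exact h
      obtain ⟨x, hx⟩ := (Q_gen U S s θ h1 h2 hg).2.1.2 ⟨b, Relation.EqvGen.refl _⟩
      exact ha x.1 (Quotient.sound hx.symm) x.2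
    · exfalso
      revert hr h
      refine Quotient.inductionOn₂ q r ?_
      intro b a ha h
      have hg : Relation.EqvGen (gen S θ) b.1 a := Quotient.exact h
      obtain ⟨x, hx⟩ := (Q_gen U S s θ h1 h2 hg).2.1.1 ⟨b, Relation.EqvGen.refl _⟩
      exact ha x.1 (Quotient.sound hx.symm) x.2
    · revert h
      refine Quotient.inductionOn₂ q r ?_
      intro a b h
      have hg : Relation.EqvGen (gen S θ) a.1 b.1 := Quotient.exact h
      congr 1
      exact Quotient.sound ((gen_iff U S s θ h1 h2 a b).1 hg)
  · intro q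
    refine Quotient.inductionOn q ?_
    intro a
    by_cases hn : ∃ x : {x : Dart V // U x.1}, Relation.EqvGen (arcRel U S s) a x.1
    · obtain ⟨x, hx⟩ := hn
      refine ⟨Sum.inr (Quotient.mk _ x), ?_⟩
      exact Quotient.sound (arc_gen U S s θ h2 hx).symm
    · refine ⟨Sum.inl ⟨Quotient.mk _ a, ?_⟩, rfl⟩
      intro x hx hU
      exact hn ⟨⟨x, hU⟩, Relation.EqvGen.symm _ _ (Quotient.exact hx)⟩

/-- the arcs of `t` as classes of `gen` (`t` arbitrary; steps `y = x` change nothing) -/
theorem Arc_eq_gen (S : Shadow V) (t : V → St) (x y : Dart V) :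
    Arc S t x y ↔ Relation.EqvGen (gen S fun x => if isC t x then x else tau t x) x y := by
  constructor
  · intro h
    refine lift_rel (q := gen S fun x => if isC t x then x else tau t x) (fun x => x) ?_ h
    rintro a b (hr | ⟨hc, hr⟩)
    · exact Relation.EqvGen.rel _ _ (Or.inl hr)
    · refine Relation.EqvGen.rel _ _ (Or.inr ?_)
      simp only [if_neg hc]
      exact hr
  · intro h
    refine lift_rel (q := fun x y => y = S.α x ∨ (¬ isC t x ∧ y = tau t x)) (fun x => x) ?_ h
    rintro a b (hr | hr)
    · exact Relation.EqvGen.rel _ _ (Or.inl hr)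
    · by_cases hc : isC t a
      · simp only [if_pos hc] at hr
        rw [hr]
        exact Relation.EqvGen.refl _
      · simp only [if_neg hc] at hr
        exact Relation.EqvGen.rel _ _ (Or.inr ⟨hc, hr⟩)

end Pool.Agent.Helper65.LK
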