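import Pool.Agent.Helper65.LK.CycU
import Pool.Agent.Helper65.LK.Compress

/-!
# LK-08. Sweeps with the same order of the components are connected by adjacent swaps

Proof.  Let `X` be the set of the darts of the crossings, `b` the partner map, `t = tau s`.
For a component `c`, `x ∈ c ∩ X`, let `m` be the period of `x` under `b t` and `q j = (b t) ^ j x` for
`j : ZMod m`; the strands `{q j, t (q j)}`, are the strands of `c`, each once.  Let `ι` be the increasing
enumeration of the heights of `c` and `g (q j) = ι (e j)`.  Then `cut` says exactly that `e` is `Uni` (as far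
as the component `c` is concerned; two different components never cross the same level, by `sep`).
For a bijection `f : ZMod m ≃ Fin m` which is `Uni` let `g_f (q j) = g_f (t (q j)) = ι (f j)` and `g_f = g` on the
other components; this is again a sweep.  By `cyc_connect` the bijections for `h` and `h'` are connected
by adjacent swaps inside `Uni`, and every such step is, up to an increasing map, of the form `hP2`
(the converse of a step is also a step of this form).  Then induction over the components.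
-/

namespace Pool.Agent.Helper65.LK

namespace SConn

open Function

/-- two involutions without fixed points -/
structure Inv {X : Type} (b t : X → X) : Prop where
  bb : ∀ x, b (b x) = x
  tt : ∀ x, t (t x) = x
  bn : ∀ x, b x ≠ x
  tn : ∀ x, t x ≠ x

/-- components -/
def C {X : Type} (b t : X → X) : X → X → Prop := Relation.EqvGen fun x y => y = b x ∨ y = t x

/-- abstract sweeps -/
structure Swp {X : Type} (b t : X → X) (g : X → ℕ) : Prop where
  const : ∀ x, g (t x) = g x
  inj : ∀ x y, g x = g y → y = x ∨ y = t x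
  cut : ∀ k, {x | g x ≤ k ∧ k < g (b x)}.ncard ≤ 2
  sep : ∀ x y z, g x < g y → g y < g z → C b t x z → C b t x y

/-- cyclic parametrisation of a component -/
structure Cyc {X : Type} (b t : X → X) (x : X) (m : ℕ) (q : ZMod m → X) : Prop where
  step : ∀ j, q (j + 1) = b (t (q j))
  inj : Injective q
  ne : ∀ i j, q i ≠ t (q j)
  comp : ∀ y, C b t x y ↔ ∃ j, y = q j ∨ y = t (q j)

variable {X : Type} {b t : X → X}

theorem C.refl (x : X) : C b t x x := Relation.EqvGen.refl x

theorem C.symm {x y : X} (h : C b t x y) : C b t y x := Relation.EqvGen.symm _ _ h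

theorem C.trans {x y z : X} (h : C b t x y) (h' : C b t y z) : C b t x z :=
  Relation.EqvGen.trans _ _ _ h h'

theorem C.ofb (x : X) : C b t x (b x) := Relation.EqvGen.rel _ _ (Or.inl rfl)

theorem C.oft (x : X) : C b t x (t x) := Relation.EqvGen.rel _ _ (Or.inr rfl)

theorem C_inv (H : Inv b t) (Q : X → Prop) (hb : ∀ x, Q x → Q (b x)) (ht : ∀ x, Q x → Q (t x))
    {x y : X} (h : C b t x y) : Q x ↔ Q y := by
  induction h with
  | rel u v h =>
    rcases h with rfl | rfl
    · exact ⟨hb u, fun h => by have := hb _ h; rwa [H.bb] at this⟩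
    · exact ⟨ht u, fun h => by have := ht _ h; rwa [H.tt] at this⟩
  | refl u => exact Iff.rfl
  | symm u v _ ih => exact ih.symm
  | trans u v w _ _ ih1 ih2 => exact ih1.trans ih2

theorem tinj (H : Inv b t) : Injective t := fun x y h => by
  have := congrArg t h
  rwa [H.tt, H.tt] at this

theorem exists_cyc [Finite X] (H : Inv b t) (x : X) :
    ∃ (m : ℕ) (_ : NeZero m) (q : ZMod m → X), Cyc b t x m q := by
  set f : X → X := fun y => b (t y) with hf
  have hfi : Injective f := fun y z h => by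
    have h1 := congrArg b h
    simp only [hf, H.bb] at h1
    exact tinj H h1
  have hper : x ∈ periodicPts f := hfi.mem_periodicPts x
  have hm : 0 < minimalPeriod f x := minimalPeriod_pos_of_mem_periodicPts hper
  have : NeZero (minimalPeriod f x) := ⟨hm.ne'⟩
  set q : ZMod (minimalPeriod f x) → X := fun j => f^[j.val] x with hq
  have hstep : ∀ j, q (j + 1) = b (t (q j)) := by
    intro j
    simp only [hq]
    rw [ZMod.val_add, ZMod.val_one_eq_one_mod, Nat.add_mod_mod, iterate_mod_minimalPeriod_eq,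
      iterate_succ_apply']
  have hinj : Injective q := by
    intro i j h
    have := iterate_injOn_Iio_minimalPeriod (f := f) (x := x) (ZMod.val_lt i) (ZMod.val_lt j) h
    exact ZMod.val_injective _ this
  have hne : ∀ i j, q i ≠ t (q j) := by
    intro i j h
    have key : ∀ n : ℕ, q (i + n) = t (q (j - n)) := by
      intro n
      induction n with
      | zero => simpa using h
      | succ n ih =>
        have h1 : q (i + (n + 1 : ℕ)) = b (t (q (i + n))) := by
          rw [← hstep]; congr 1; push_cast; ring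
        have h2 : q (j - n) = b (t (q (j - (n + 1 : ℕ)))) := by
          rw [← hstep]; congr 1; push_cast; ring
        rw [h1, ih, H.tt, h2, H.bb]
    have hd : ((j - i).val : ZMod (minimalPeriod f x)) = j - i := ZMod.natCast_zmod_val _
    rcases Nat.even_or_odd' (j - i).val with ⟨n, hn | hn⟩
    · have h1 := key n
      have h2 : j - (n : ZMod (minimalPeriod f x)) = i + n := by
        have : (j - i : ZMod (minimalPeriod f x)) = ((2 * n : ℕ) : ZMod (minimalPeriod f x)) := by
          rw [← hn, hd]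
        push_cast at this
        linear_combination this
      rw [h2] at h1
      exact H.tn _ h1.symm
    · have h1 := key (n + 1)
      have h2 : j - ((n + 1 : ℕ) : ZMod (minimalPeriod f x)) = i + n := by
        have : (j - i : ZMod (minimalPeriod f x)) = ((2 * n + 1 : ℕ) : ZMod (minimalPeriod f x)) := by
          rw [← hn, hd]
        push_cast at this ⊢
        linear_combination this
      have h3 : q (i + (n + 1 : ℕ)) = b (t (q (i + n))) := by
        rw [← hstep]; congr 1; push_cast; ring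
      rw [h2, h3] at h1
      exact H.bn _ h1
  refine ⟨minimalPeriod f x, inferInstance, q, hstep, hinj, hne, fun y => ⟨fun h => ?_, ?_⟩⟩
  · have hx : ∃ j, x = q j ∨ x = t (q j) := ⟨0, Or.inl (by simp [hq])⟩
    refine (C_inv H (fun y => ∃ j, y = q j ∨ y = t (q j)) ?_ ?_ h).1 hx
    · rintro y ⟨j, rfl | rfl⟩
      · refine ⟨j - 1, Or.inr ?_⟩
        have := hstep (j - 1)
        rw [sub_add_cancel] at this
        rw [this, H.bb]
      · exact ⟨j + 1, Or.inl (hstep j).symm⟩
    · rintro y ⟨j, rfl | rfl⟩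
      · exact ⟨j, Or.inr rfl⟩
      · exact ⟨j, Or.inl (H.tt _)⟩
  · have key : ∀ n : ℕ, C b t x (f^[n] x) := by
      intro n
      induction n with
      | zero => exact C.refl x
      | succ n ih =>
        rw [iterate_succ_apply']
        exact (ih.trans (C.oft _)).trans (C.ofb _)
    rintro ⟨j, rfl | rfl⟩
    · exact key _
    · exact (key _).trans (C.oft _)

/-- different components do not cross the same level -/
theorem cross {g : X → ℕ} (hsep : ∀ x y z, g x < g y → g y < g z → C b t x z → C b t x y)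
    (hinj : ∀ x y, g x = g y → C b t x y)
    {x x' y y' : X} (hx : C b t x x') (hy : C b t y y') {k : ℕ} (h1 : g x ≤ k) (h2 : k < g x')
    (h3 : g y ≤ k) (h4 : k < g y') : C b t x y := by
  rcases lt_trichotomy (g x) (g y) with h | h | h
  · exact hsep x y x' h (by omega) hx
  · exact hinj x y h
  · exact (hsep y x y' h (by omega) hy).symm

/-- the order of two elements of different components is the order of the components -/
theorem comp_lt {g : X → ℕ} (hg : Swp b t g) {x x' y y' : X} (hx : C b t x x') (hy : C b t y y')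
    (hxy : ¬ C b t x y) (h : g x < g y) : g x' < g y' := by
  by_contra hn
  have hinj : ∀ x y, g x = g y → C b t x y := fun x y h => by
    rcases hg.inj x y h with rfl | rfl
    · exact C.refl _
    · exact C.oft _
  rcases lt_or_eq_of_le (not_lt.1 hn) with h1 | h1
  · -- g y' < g x'
    rcases lt_trichotomy (g x) (g y') with h2 | h2 | h2
    · exact hxy ((hg.sep x y' x' h2 h1 hx).trans hy.symm)
    · exact hxy ((hinj _ _ h2).trans hy.symm)
    · exact hxy (hy.trans (hg.sep y' x y h2 h hy.symm)).symm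
  · exact hxy (hx.trans ((hinj _ _ h1.symm).trans hy.symm))

/-- order equivalence -/
theorem Swp.oe {g g' : X → ℕ} (hg : Swp b t g) (h : ∀ x y, g x < g y ↔ g' x < g' y) :
    Swp b t g' := by
  have heq : ∀ x y, g' x = g' y → g x = g y := fun x y h1 => by
    have h2 := h x y
    have h3 := h y x
    omega
  have heq' : ∀ x y, g x = g y → g' x = g' y := fun x y h1 => by
    have h2 := h x y
    have h3 := h y x
    omega
  refine ⟨fun x => heq' _ _ (hg.const x), fun x y h1 => hg.inj x y (heq x y h1), fun k => ?_,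
    fun x y z h1 h2 h3 => hg.sep x y z ((h _ _).2 h1) ((h _ _).2 h2) h3⟩
  by_cases hne : ∃ x, g' x ≤ k
  · obtain ⟨x0, hx0, hmax⟩ : ∃ x0, g' x0 ≤ k ∧ ∀ x, g' x ≤ k → g' x ≤ g' x0 := by
      by_contra hcon
      push Not at hcon
      have : ∀ n : ℕ, ∃ x, g' x ≤ k ∧ n ≤ g' x := by
        intro n
        induction n with
        | zero => exact ⟨hne.choose, hne.choose_spec, Nat.zero_le _⟩
        | succ n ih =>
          obtain ⟨x, hx, hn⟩ := ih
          obtain ⟨y, hy, hxy⟩ := hcon x hx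
          exact ⟨y, hy, by omega⟩
      obtain ⟨x, hx, hk⟩ := this (k + 1)
      omega
    have : {x | g' x ≤ k ∧ k < g' (b x)} = {x | g x ≤ g x0 ∧ g x0 < g (b x)} := by
      ext x
      simp only [Set.mem_ofPred_eq]
      have h1 := h x0 x
      have h2 := h x0 (b x)
      constructor
      · rintro ⟨h3, h4⟩
        have := hmax x h3
        exact ⟨by omega, by omega⟩
      · rintro ⟨h3, h4⟩
        have h5 : g' x ≤ g' x0 := by omega
        have h6 : g' x0 < g' (b x) := by omega
        refine ⟨by omega, ?_⟩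
        by_contra hcon
        have := hmax (b x) (by omega)
        omega
    rw [this]
    exact hg.cut _
  · have : {x | g' x ≤ k ∧ k < g' (b x)} = ∅ := by
      ext x
      simp only [Set.mem_ofPred_eq, Set.mem_empty_iff_false, iff_false]
      rintro ⟨h3, _⟩
      exact hne ⟨x, h3⟩
    rw [this]
    simp

section pim

variable {m : ℕ} {x₀ : X} {q : ZMod m → X}

open Classical in
/-- permute the strands of a component -/
noncomputable def pim (t : X → X) (q : ZMod m → X) (σ : ZMod m → ZMod m) (y : X) : X :=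
  if h : ∃ j, y = q j then q (σ h.choose)
  else if h : ∃ j, y = t (q j) then t (q (σ h.choose)) else y

theorem pim_q (hq : Cyc b t x₀ m q) (σ : ZMod m → ZMod m) (j : ZMod m) :
    pim t q σ (q j) = q (σ j) := by
  have h : ∃ i, q j = q i := ⟨j, rfl⟩
  unfold pim
  rw [dif_pos h, ← hq.inj h.choose_spec]

theorem pim_tq (H : Inv b t) (hq : Cyc b t x₀ m q) (σ : ZMod m → ZMod m) (j : ZMod m) :
    pim t q σ (t (q j)) = t (q (σ j)) := by
  have h0 : ¬ ∃ i, t (q j) = q i := fun ⟨i, h⟩ => hq.ne i j h.symm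
  have h : ∃ i, t (q j) = t (q i) := ⟨j, rfl⟩
  unfold pim
  rw [dif_neg h0, dif_pos h, ← hq.inj (tinj H h.choose_spec)]

theorem pim_out (hq : Cyc b t x₀ m q) (σ : ZMod m → ZMod m) {y : X} (hy : ¬ C b t x₀ y) :
    pim t q σ y = y := by
  rw [hq.comp] at hy
  have h1 : ¬ ∃ i, y = q i := fun ⟨i, h⟩ => hy ⟨i, Or.inl h⟩
  have h2 : ¬ ∃ i, y = t (q i) := fun ⟨i, h⟩ => hy ⟨i, Or.inr h⟩
  unfold pim
  rw [dif_neg h1, dif_neg h2]

theorem Cyc.memq (hq : Cyc b t x₀ m q) (j : ZMod m) : C b t x₀ (q j) := (hq.comp _).2 ⟨j, Or.inl rfl⟩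

theorem pim_t (H : Inv b t) (hq : Cyc b t x₀ m q) (σ : ZMod m → ZMod m) (y : X) :
    pim t q σ (t y) = t (pim t q σ y) := by
  by_cases hy : C b t x₀ y
  · obtain ⟨j, rfl | rfl⟩ := (hq.comp y).1 hy
    · rw [pim_tq H hq, pim_q hq]
    · rw [H.tt, pim_q hq, pim_tq H hq, H.tt]
  · rw [pim_out hq σ hy, pim_out hq σ (fun h => hy (h.trans (C.oft y).symm))]

theorem pim_C (H : Inv b t) (hq : Cyc b t x₀ m q) (σ : ZMod m → ZMod m) (y : X) :
    C b t y (pim t q σ y) := by
  by_cases hy : C b t x₀ y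
  · obtain ⟨j, rfl | rfl⟩ := (hq.comp y).1 hy
    · rw [pim_q hq]
      exact hy.symm.trans (hq.memq _)
    · rw [pim_tq H hq]
      exact hy.symm.trans ((hq.memq _).trans (C.oft _))
  · rw [pim_out hq σ hy]
    exact C.refl _

theorem pim_inj (H : Inv b t) (hq : Cyc b t x₀ m q) (σ : Equiv.Perm (ZMod m)) :
    Injective (pim t q σ) := by
  refine LeftInverse.injective (g := pim t q σ.symm) fun y => ?_
  by_cases hy : C b t x₀ y
  · obtain ⟨j, rfl | rfl⟩ := (hq.comp y).1 hy
    · rw [pim_q hq, pim_q hq, Equiv.symm_apply_apply]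
    · rw [pim_tq H hq, pim_tq H hq, Equiv.symm_apply_apply]
  · rw [pim_out hq _ hy, pim_out hq _ hy]

theorem pim_one (H : Inv b t) (hq : Cyc b t x₀ m q) (y : X) : pim t q (Equiv.refl (ZMod m)) y = y := by
  by_cases hy : C b t x₀ y
  · obtain ⟨j, rfl | rfl⟩ := (hq.comp y).1 hy
    · rw [pim_q hq, Equiv.refl_apply]
    · rw [pim_tq H hq, Equiv.refl_apply]
  · rw [pim_out hq _ hy]

theorem up_down [NeZero m] (F : ZMod m → ℕ) (k : ℕ) :
    {j | F j ≤ k ∧ k < F (j + 1)}.ncard = {j | F (j + 1) ≤ k ∧ k < F j}.ncard := by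
  classical
  have h1 : {j | F j ≤ k ∧ k < F (j + 1)} = ((Finset.univ.filter fun j => F j ≤ k) \
      (Finset.univ.filter fun j => F (j + 1) ≤ k) : Finset (ZMod m)) := by
    ext j; simp
  have h2 : {j | F (j + 1) ≤ k ∧ k < F j} = ((Finset.univ.filter fun j => F (j + 1) ≤ k) \
      (Finset.univ.filter fun j => F j ≤ k) : Finset (ZMod m)) := by
    ext j; simp
  rw [h1, h2, Set.ncard_coe_finset, Set.ncard_coe_finset]
  apply Finset.card_sdiff_comm
  refine (Finset.card_bij (fun j _ => j + 1) ?_ ?_ ?_).symm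
  · intro j hj; simpa using hj
  · intro i _ j _ h; exact add_right_cancel h
  · intro j hj
    exact ⟨j - 1, by simpa using hj, by ring⟩

theorem Swp.uni [Finite X] [NeZero m] {G : X → ℕ} (H : Inv b t) (hq : Cyc b t x₀ m q)
    (hG : Swp b t G) (k : ℕ) : {j | G (q j) ≤ k ∧ k < G (q (j + 1))}.ncard ≤ 1 := by
  classical
  have h1 := up_down (fun j => G (q j)) k
  set A := {j | G (q j) ≤ k ∧ k < G (q (j + 1))} with hA
  set B := {j | G (q (j + 1)) ≤ k ∧ k < G (q j)} with hB
  have h2 : ((fun j => t (q j)) '' A ∪ (fun j => q (j + 1)) '' B).ncard ≤ 2 := by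
    refine le_trans (Set.ncard_le_ncard ?_ (Set.toFinite _)) (hG.cut k)
    rintro y (⟨j, ⟨hj1, hj2⟩, rfl⟩ | ⟨j, ⟨hj1, hj2⟩, rfl⟩)
    · simp only [Set.mem_ofPred_eq]
      rw [hG.const, ← hq.step]
      exact ⟨hj1, hj2⟩
    · simp only [Set.mem_ofPred_eq]
      refine ⟨hj1, ?_⟩
      rw [hq.step, H.bb, hG.const]
      exact hj2
  rw [Set.ncard_union_eq ?_ (Set.toFinite _) (Set.toFinite _),
    Set.ncard_image_of_injective _ (fun i j h => hq.inj (tinj H h)),
    Set.ncard_image_of_injective _ (fun i j h => add_right_cancel (hq.inj h))] at h2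
  · have h3 : A.ncard = B.ncard := h1
    omega
  · rw [Set.disjoint_left]
    rintro y ⟨i, _, rfl⟩ ⟨j, _, h⟩
    exact hq.ne _ _ h

theorem Swp.pim [Finite X] [NeZero m] {g : X → ℕ} (H : Inv b t) (hq : Cyc b t x₀ m q)
    (hg : Swp b t g) (σ : Equiv.Perm (ZMod m))
    (hU : ∀ k, {j | g (q (σ j)) ≤ k ∧ k < g (q (σ (j + 1)))}.ncard ≤ 1) :
    Swp b t (g ∘ pim t q σ) := by
  classical
  have hC := pim_C H hq σ
  have hinj' : ∀ x y, (g ∘ SConn.pim t q σ) x = (g ∘ SConn.pim t q σ) y → y = x ∨ y = t x := by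
    intro x y h
    rcases hg.inj _ _ h with h1 | h1
    · exact Or.inl (pim_inj H hq σ h1)
    · rw [← pim_t H hq] at h1
      exact Or.inr (pim_inj H hq σ h1)
  have hsep' : ∀ x y z, (g ∘ SConn.pim t q σ) x < (g ∘ SConn.pim t q σ) y →
      (g ∘ SConn.pim t q σ) y < (g ∘ SConn.pim t q σ) z → C b t x z → C b t x y := by
    intro x y z h1 h2 h3
    exact (hC x).trans ((hg.sep _ _ _ h1 h2 (((hC x).symm.trans h3).trans (hC z))).trans (hC y).symm)
  refine ⟨fun x => ?_, hinj', fun k => ?_, hsep'⟩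
  · simp only [comp_apply]
    rw [pim_t H hq, hg.const]
  · by_cases hex : ∃ y, C b t x₀ y ∧ (g ∘ SConn.pim t q σ) y ≤ k ∧ k < (g ∘ SConn.pim t q σ) (b y)
    · obtain ⟨y, hy, hy1, hy2⟩ := hex
      have h1 := up_down (fun j => g (q (σ j))) k
      have h2 := hU k
      set A := {j | g (q (σ j)) ≤ k ∧ k < g (q (σ (j + 1)))} with hA
      set B := {j | g (q (σ (j + 1))) ≤ k ∧ k < g (q (σ j))} with hB
      have h3 : {x | (g ∘ SConn.pim t q σ) x ≤ k ∧ k < (g ∘ SConn.pim t q σ) (b x)} ⊆
          (fun j => t (q j)) '' A ∪ (fun j => q (j + 1)) '' B := by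
        rintro z ⟨hz1, hz2⟩
        have hz : C b t x₀ z := hy.trans (cross hsep' (fun x y h => by
          rcases hinj' x y h with rfl | rfl
          · exact C.refl _
          · exact C.oft _) (C.ofb y) (C.ofb z) hy1 hy2 hz1 hz2)
        obtain ⟨j, rfl | rfl⟩ := (hq.comp z).1 hz
        · right
          refine ⟨j - 1, ?_, by simp⟩
          have h4 := hq.step (j - 1)
          rw [sub_add_cancel] at h4
          simp only [comp_apply] at hz1 hz2
          rw [pim_q hq] at hz1
          rw [h4, H.bb, pim_tq H hq, hg.const] at hz2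
          simp only [hB, Set.mem_ofPred_eq, sub_add_cancel]
          exact ⟨hz1, hz2⟩
        · left
          refine ⟨j, ?_, rfl⟩
          simp only [comp_apply] at hz1 hz2
          rw [pim_tq H hq, hg.const] at hz1
          rw [← hq.step, pim_q hq] at hz2
          exact ⟨hz1, hz2⟩
      refine le_trans (Set.ncard_le_ncard h3 (Set.toFinite _)) (le_trans (Set.ncard_union_le _ _) ?_)
      have h4 := Set.ncard_image_le (f := fun j => t (q j)) (Set.toFinite A)
      have h5 := Set.ncard_image_le (f := fun j => q (j + 1)) (Set.toFinite B)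
      have h6 : A.ncard = B.ncard := h1
      omega
    · refine le_trans (Set.ncard_le_ncard ?_ (Set.toFinite _)) (hg.cut k)
      rintro z ⟨hz1, hz2⟩
      have hz : ¬ C b t x₀ z := fun h => hex ⟨z, h, hz1, hz2⟩
      simp only [comp_apply] at hz1 hz2
      rw [pim_out hq _ hz] at hz1
      rw [pim_out hq _ (fun h => hz (h.trans (C.ofb z).symm))] at hz2
      exact ⟨hz1, hz2⟩

end pim

/-- increasing enumeration of the values -/
theorem exists_enum {m : ℕ} [NeZero m] (F : ZMod m → ℕ) (hF : Injective F) :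
    ∃ (ι : Fin m → ℕ) (e : ZMod m ≃ Fin m), StrictMono ι ∧ ∀ j, F j = ι (e j) := by
  classical
  have hc : (Finset.univ.image F).card = m := by
    rw [Finset.card_image_of_injective _ hF, Finset.card_univ, ZMod.card]
  have hmem : ∀ j, F j ∈ Finset.univ.image F := fun j =>
    Finset.mem_image_of_mem _ (Finset.mem_univ _)
  let e0 : ZMod m → Fin m := fun j => ((Finset.univ.image F).orderIsoOfFin hc).symm ⟨F j, hmem j⟩
  have he0 : ∀ j, F j = (Finset.univ.image F).orderEmbOfFin hc (e0 j) := by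
    intro j
    have := congrArg Subtype.val
      (((Finset.univ.image F).orderIsoOfFin hc).apply_symm_apply ⟨F j, hmem j⟩)
    exact this.symm
  have hinj : Injective e0 := fun i j h => hF (by rw [he0 i, he0 j, h])
  have hbij : Bijective e0 :=
    (Fintype.bijective_iff_injective_and_card e0).2 ⟨hinj, by simp [ZMod.card]⟩
  exact ⟨(Finset.univ.image F).orderEmbOfFin hc, Equiv.ofBijective e0 hbij,
    ((Finset.univ.image F).orderEmbOfFin hc).strictMono, he0⟩

theorem uni_iff {m : ℕ} [NeZero m] (F : ZMod m → ℕ) (ι : Fin m → ℕ) (e : ZMod m ≃ Fin m)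
    (hι : StrictMono ι) (h : ∀ j, F j = ι (e j)) :
    Uni e ↔ ∀ k, {j | F j ≤ k ∧ k < F (j + 1)}.ncard ≤ 1 := by
  classical
  constructor
  · intro hU K
    by_cases hne : ∃ j, F j ≤ K
    · obtain ⟨j0, hj0, hmax⟩ : ∃ j0, F j0 ≤ K ∧ ∀ j, F j ≤ K → e j ≤ e j0 := by
        have hne' : (Finset.univ.filter fun j => F j ≤ K).Nonempty := by
          obtain ⟨j, hj⟩ := hne
          exact ⟨j, by simpa using hj⟩
        obtain ⟨j0, hj0, hmax⟩ := Finset.exists_max_image _ (fun j => e j) hne'
        exact ⟨j0, by simpa using hj0, fun j hj => hmax j (by simpa using hj)⟩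
      have hiff : ∀ j, F j ≤ K ↔ e j ≤ e j0 := fun j => ⟨hmax j, fun h1 =>
        le_trans (by rw [h j, h j0]; exact hι.monotone h1) hj0⟩
      have : {j | F j ≤ K ∧ K < F (j + 1)} =
          {j | (e j : ℕ) ≤ (e j0 : ℕ) ∧ (e j0 : ℕ) < (e (j + 1) : ℕ)} := by
        ext j
        simp only [Set.mem_ofPred_eq, ← not_le]
        rw [hiff j, hiff (j + 1), Fin.le_def, Fin.le_def]
      rw [this]
      exact hU _
    · have : {j | F j ≤ K ∧ K < F (j + 1)} = ∅ := by
        ext j
        simp only [Set.mem_ofPred_eq, Set.mem_empty_iff_false, iff_false]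
        rintro ⟨h1, _⟩
        exact hne ⟨j, h1⟩
      rw [this]
      simp
  · intro hU k
    by_cases hk : k < m
    · have : {j | (e j : ℕ) ≤ k ∧ k < (e (j + 1) : ℕ)} =
          {j | F j ≤ ι ⟨k, hk⟩ ∧ ι ⟨k, hk⟩ < F (j + 1)} := by
        ext j
        simp only [Set.mem_ofPred_eq]
        rw [h j, h (j + 1), hι.le_iff_le, hι.lt_iff_lt, Fin.le_def, Fin.lt_def]
      rw [this]
      exact hU _
    · have : {j | (e j : ℕ) ≤ k ∧ k < (e (j + 1) : ℕ)} = ∅ := by
        ext j
        simp only [Set.mem_ofPred_eq, Set.mem_empty_iff_false, iff_false]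
        rintro ⟨_, h1⟩
        have := (e (j + 1)).isLt
        omega
      rw [this]
      simp

/-- `P` is closed under order equivalence -/
def Cl1 (b t : X → X) (P : (X → ℕ) → Prop) : Prop :=
  ∀ g g', Swp b t g → Swp b t g' → (∀ x y, g x < g y ↔ g' x < g' y) → P g → P g'

/-- `P` is closed under adjacent swaps -/
def Cl2 (b t : X → X) (P : (X → ℕ) → Prop) : Prop :=
  ∀ g k x y, Swp b t g → Swp b t (fun z => Equiv.swap k (k + 1) (g z)) → g x = k → g y = k + 1 →
    C b t x y → P g → P (fun z => Equiv.swap k (k + 1) (g z))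

/-- general swap of adjacent heights -/
theorem adj {P : (X → ℕ) → Prop} (hP1 : Cl1 b t P) (hP2 : Cl2 b t P)
    {g g' : X → ℕ} (hg : Swp b t g) (hg' : Swp b t g') {x y : X} (hxy : g x < g y)
    (hc : C b t x y) (hno : ∀ z, ¬ (g x < g z ∧ g z < g y))
    (hsw : ∀ z, g' z = Equiv.swap (g x) (g y) (g z)) (h : P g) : P g' := by
  obtain ⟨u, hu⟩ : ∃ u, u = g x := ⟨_, rfl⟩
  obtain ⟨v, hv⟩ : ∃ v, v = g y := ⟨_, rfl⟩
  rw [← hu, ← hv] at hxy
  simp only [← hu, ← hv] at hno hsw
  obtain ⟨ρ, hρ⟩ : ∃ ρ : ℕ → ℕ, ∀ n, ρ n = if n ≤ u then n else n - (v - u - 1) := ⟨_, fun _ => rfl⟩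
  have hρlt : ∀ a c, (a ≤ u ∨ v ≤ a) → (c ≤ u ∨ v ≤ c) → (a < c ↔ ρ a < ρ c) := by
    intro a c ha hc
    rw [hρ, hρ]
    split_ifs <;> omega
  have h1 : ∀ z, g z ≤ u ∨ v ≤ g z := fun z => by
    have := hno z
    omega
  have h2 : ∀ z, g' z ≤ u ∨ v ≤ g' z := fun z => by
    have := h1 z
    rw [hsw, Equiv.swap_apply_def]
    split_ifs <;> omega
  have h3 : Swp b t (fun z => ρ (g z)) := hg.oe fun x y => hρlt _ _ (h1 x) (h1 y)
  have h4 : Swp b t (fun z => ρ (g' z)) := hg'.oe fun x y => hρlt _ _ (h2 x) (h2 y)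
  have h5 : (fun z => ρ (g' z)) = fun z => Equiv.swap u (u + 1) (ρ (g z)) := by
    funext z
    have := h1 z
    rw [hsw, Equiv.swap_apply_def, Equiv.swap_apply_def, hρ, hρ]
    split_ifs <;> omega
  have h6 : P (fun z => ρ (g z)) := hP1 _ _ hg h3 (fun x y => hρlt _ _ (h1 x) (h1 y)) h
  have h7 : P (fun z => ρ (g' z)) := by
    rw [h5] at h4 ⊢
    refine hP2 _ u x y h3 h4 ?_ ?_ hc h6
    · rw [← hu, hρ, if_pos le_rfl]
    · rw [← hv, hρ, if_neg (by omega)]
      omega
  exact hP1 _ _ h4 hg' (fun x y => (hρlt _ _ (h2 x) (h2 y)).symm) h7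

/-- change a sweep on one component -/
theorem one_comp [Finite X] (H : Inv b t) {P : (X → ℕ) → Prop} (hP1 : Cl1 b t P)
    (hP2 : Cl2 b t P) {g h' : X → ℕ} (hg : Swp b t g) (hh : Swp b t h') (x₀ : X) (hPg : P g) :
    ∃ g', Swp b t g' ∧ P g' ∧ (∀ x, ¬ C b t x₀ x → g' x = g x) ∧
      (∀ x, ∃ x', C b t x x' ∧ g' x = g x') ∧
      ∀ x y, C b t x₀ x → C b t x₀ y → (g' x < g' y ↔ h' x < h' y) := by
  obtain ⟨m, hm, q, hq⟩ := exists_cyc H x₀
  have hFinj : ∀ {G : X → ℕ}, Swp b t G → Injective fun j => G (q j) := by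
    intro G hG i j h
    rcases hG.inj _ _ h with h1 | h1
    · exact (hq.inj h1).symm
    · exact absurd h1 (hq.ne _ _)
  obtain ⟨ι, e, hι, he⟩ := exists_enum (fun j => g (q j)) (hFinj hg)
  obtain ⟨ι', e', hι', he'⟩ := exists_enum (fun j => h' (q j)) (hFinj hh)
  have hU : Uni e := (uni_iff _ ι e hι he).2 (hg.uni H hq)
  have hU' : Uni e' := (uni_iff _ ι' e' hι' he').2 (hh.uni H hq)
  obtain ⟨gf, hgf⟩ : ∃ gf : (ZMod m ≃ Fin m) → X → ℕ, ∀ f, gf f =
      g ∘ pim t q (f.trans e.symm : Equiv.Perm (ZMod m)) := ⟨_, fun _ => rfl⟩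
  have hq1 : ∀ (f : ZMod m ≃ Fin m) j, gf f (q j) = ι (f j) := by
    intro f j
    rw [hgf, comp_apply, pim_q hq]
    have := he (e.symm (f j))
    rw [Equiv.apply_symm_apply] at this
    exact this
  have hswp : ∀ f : ZMod m ≃ Fin m, Uni f → Swp b t (gf f) := by
    intro f hf
    have h1 := (uni_iff (fun j => gf f (q j)) ι f hι (hq1 f)).1 hf
    rw [hgf] at h1 ⊢
    refine hg.pim H hq _ fun k => ?_
    have h2 := h1 k
    simp only [comp_apply, pim_q hq] at h2
    exact h2
  have hq2 : ∀ (f : ZMod m ≃ Fin m), Uni f → ∀ z, C b t x₀ z →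
      ∃ j, ∀ f' : ZMod m ≃ Fin m, Uni f' → gf f' z = ι (f' j) := by
    intro f _ z hz
    obtain ⟨j, rfl | rfl⟩ := (hq.comp z).1 hz
    · exact ⟨j, fun f' _ => hq1 f' j⟩
    · exact ⟨j, fun f' hf' => by rw [(hswp f' hf').const, hq1]⟩
  have hout : ∀ (f : ZMod m ≃ Fin m) z, ¬ C b t x₀ z → gf f z = g z := by
    intro f z hz
    rw [hgf, comp_apply, pim_out hq _ hz]
  have hstep : ∀ f f' : ZMod m ≃ Fin m, Uni f → Uni f' → ∀ (k : ℕ) (hk : k + 1 < m),
      f' = f.trans (Equiv.swap ⟨k, Nat.lt_of_succ_lt hk⟩ ⟨k + 1, hk⟩) → P (gf f) → P (gf f') := by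
    intro f f' hf hf' k hk hff hPf
    have hx := hq1 f (f.symm ⟨k, Nat.lt_of_succ_lt hk⟩)
    have hy := hq1 f (f.symm ⟨k + 1, hk⟩)
    rw [Equiv.apply_symm_apply] at hx hy
    have hcx := hq.memq (f.symm ⟨k, Nat.lt_of_succ_lt hk⟩)
    have hcy := hq.memq (f.symm ⟨k + 1, hk⟩)
    have hlt : ι ⟨k, Nat.lt_of_succ_lt hk⟩ < ι ⟨k + 1, hk⟩ := hι (by simp [Fin.lt_def])
    have hsf := hswp f hf
    refine adj hP1 hP2 hsf (hswp f' hf') (x := q (f.symm ⟨k, Nat.lt_of_succ_lt hk⟩))
      (y := q (f.symm ⟨k + 1, hk⟩)) (by rw [hx, hy]; exact hlt) (hcx.symm.trans hcy) ?_ ?_ hPf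
    · rintro z ⟨h1, h2⟩
      have h3 := hsf.sep _ z _ h1 h2 (hcx.symm.trans hcy)
      obtain ⟨j, hj⟩ := hq2 f hf z (hcx.trans h3)
      rw [hj f hf, hx, hι.lt_iff_lt, Fin.lt_def] at h1
      rw [hj f hf, hy, hι.lt_iff_lt, Fin.lt_def] at h2
      simp only at h1 h2
      omega
    · intro z
      rw [hx, hy]
      by_cases hz : C b t x₀ z
      · obtain ⟨j, hj⟩ := hq2 f hf z hz
        rw [hj f hf, hj f' hf', hff, Equiv.trans_apply, hι.injective.swap_apply]
      · rw [hout f z hz, hout f' z hz, Equiv.swap_apply_of_ne_of_ne]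
        · intro h1
          rw [← hout f z hz, ← hx] at h1
          rcases hsf.inj _ _ h1.symm with h2 | h2
          · exact hz (h2 ▸ hcx)
          · exact hz (h2 ▸ hcx.trans (C.oft _))
        · intro h1
          rw [← hout f z hz, ← hy] at h1
          rcases hsf.inj _ _ h1.symm with h2 | h2
          · exact hz (h2 ▸ hcy)
          · exact hz (h2 ▸ hcy.trans (C.oft _))
  have hgen : ∀ a c : ZMod m ≃ Fin m, Relation.EqvGen (fun f g : ZMod m ≃ Fin m => Uni f ∧ Uni g ∧
      ∃ (k : ℕ) (hk : k + 1 < m),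
        g = f.trans (Equiv.swap ⟨k, Nat.lt_of_succ_lt hk⟩ ⟨k + 1, hk⟩)) a c →
      (P (gf a) ↔ P (gf c)) := by
    intro a c h1
    induction h1 with
    | rel f f' h =>
      obtain ⟨hf, hf', k, hk, hff⟩ := h
      refine ⟨hstep f f' hf hf' k hk hff, hstep f' f hf' hf k hk ?_⟩
      rw [hff]
      ext j
      simp
    | refl f => exact Iff.rfl
    | symm f f' _ ih => exact ih.symm
    | trans f f' f'' _ _ ih1 ih2 => exact ih1.trans ih2
  have hchain : P (gf e) ↔ P (gf e') := hgen e e' (cyc_connect m e e' hU hU')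
  have hge : gf e = g := by
    rw [hgf, Equiv.self_trans_symm]
    funext y
    rw [comp_apply, pim_one H hq]
  refine ⟨gf e', hswp e' hU', hchain.1 (by rw [hge]; exact hPg), hout e', fun x => ?_, ?_⟩
  · refine ⟨pim t q (e'.trans e.symm : Equiv.Perm (ZMod m)) x, pim_C H hq _ x, ?_⟩
    rw [hgf, comp_apply]
  · intro x y hx hy
    have key : ∀ x, C b t x₀ x → ∃ j, gf e' x = ι (e' j) ∧ h' x = ι' (e' j) := by
      intro x hx
      obtain ⟨j, rfl | rfl⟩ := (hq.comp x).1 hx
      · exact ⟨j, hq1 e' j, he' j⟩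
      · exact ⟨j, by rw [(hswp e' hU').const, hq1], by rw [hh.const]; exact he' j⟩
    obtain ⟨i, hi1, hi2⟩ := key x hx
    obtain ⟨j, hj1, hj2⟩ := key y hy
    rw [hi1, hi2, hj1, hj2, hι.lt_iff_lt, hι'.lt_iff_lt]

theorem connect [Finite X] (H : Inv b t) {P : (X → ℕ) → Prop} (hP1 : Cl1 b t P)
    (hP2 : Cl2 b t P) {h h' : X → ℕ} (hs : Swp b t h) (hs' : Swp b t h')
    (ho : ∀ x y, ¬ C b t x y → (h x < h y ↔ h' x < h' y)) (hP : P h) : P h' := by
  classical
  have : Fintype X := Fintype.ofFinite X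
  have key : ∀ T : Finset X, ∃ g, Swp b t g ∧ P g ∧
      (∀ x y, ¬ C b t x y → (g x < g y ↔ h' x < h' y)) ∧
      ∀ x ∈ T, ∀ y z, C b t x y → C b t x z → (g y < g z ↔ h' y < h' z) := by
    intro T
    induction T using Finset.induction_on with
    | empty => exact ⟨h, hs, hP, ho, by simp⟩
    | insert x₀ T _ ih =>
      obtain ⟨g, hg, hPg, hgo, hgT⟩ := ih
      obtain ⟨g', hg', hPg', hout, hpres, hin⟩ := one_comp H hP1 hP2 hg hs' x₀ hPg
      refine ⟨g', hg', hPg', ?_, ?_⟩
      · intro x y hxy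
        obtain ⟨x', hx', hx''⟩ := hpres x
        obtain ⟨y', hy', hy''⟩ := hpres y
        rw [hx'', hy'', ← hgo x y hxy]
        exact ⟨comp_lt hg hx'.symm hy'.symm fun h => hxy ((hx'.trans h).trans hy'.symm),
          comp_lt hg hx' hy' hxy⟩
      · intro x hx y z hy hz
        by_cases hc : C b t x₀ x
        · exact hin y z (hc.trans hy) (hc.trans hz)
        · have hxT : x ∈ T := by
            rcases Finset.mem_insert.1 hx with rfl | h
            · exact absurd (C.refl _) hc
            · exact h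
          rw [hout y fun h => hc (h.trans hy.symm), hout z fun h => hc (h.trans hz.symm)]
          exact hgT x hxT y z hy hz
  obtain ⟨g, hg, hPg, hgo, hgT⟩ := key Finset.univ
  refine hP1 g h' hg hs' (fun x y => ?_) hPg
  by_cases hxy : C b t x y
  · exact hgT x (Finset.mem_univ _) x y (C.refl x) hxy
  · exact hgo x y hxy

end SConn

variable {V : Type} [Fintype V]

/-- partner as a map on the darts of the crossings -/
private noncomputable def bX (S : Shadow V) (s : V → St) (x : {x : Dart V // Cr s x.1}) :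
    {x : Dart V // Cr s x.1} :=
  ⟨partner (Cr s) S s x.1, (partner_spec (Cr s) S s x.1 x.2).1⟩

/-- `tau` as a map on the darts of the crossings -/
private def tX (s : V → St) (x : {x : Dart V // Cr s x.1}) : {x : Dart V // Cr s x.1} :=
  ⟨tau s x.1, x.2⟩

private theorem invX (S : Shadow V) (s : V → St) : SConn.Inv (bX S s) (tX s) where
  bb x := Subtype.ext (partner_partner (Cr s) S s x.1 x.2)
  tt x := Subtype.ext ((tau s).left_inv x.1)
  bn x h := (partner_spec (Cr s) S s x.1 x.2).2.1 (congrArg Subtype.val h)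
  tn _ h := St.mate_ne _ _ (congrArg (fun y : {x : Dart V // Cr s x.1} => y.1.2) h)

private theorem compX (S : Shadow V) (s : V → St) (x y : {x : Dart V // Cr s x.1}) :
    SConn.C (bX S s) (tX s) x y ↔ Comp S s x.1 y.1 := by
  have h1 := gen_iff (Cr s) S s (tau s) (fun _ => rfl) (fun _ _ => rfl) x y
  have h2 : (fun x y : {x : Dart V // Cr s x.1} => y = bX S s x ∨ y = tX s x) =
      genU (Cr s) S s (tau s) := by
    funext x y
    simp only [genU, Subtype.ext_iff, bX, tX]
  unfold SConn.C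
  rw [h2]
  exact h1.symm

private theorem swpX (S : Shadow V) (s : V → St) (G : Dart V → ℕ) :
    Sweep S s G ↔ SConn.Swp (bX S s) (tX s) fun x => G x.1 := by
  have hcut : ∀ k, {x : Dart V | isC s x ∧ G x ≤ k ∧ k < G (partner (Cr s) S s x)} =
      Subtype.val '' {x : {x : Dart V // Cr s x.1} | G x.1 ≤ k ∧ k < G (bX S s x).1} := by
    intro k
    ext x
    simp only [Set.mem_ofPred_eq, Set.mem_image, Subtype.exists, exists_and_right, exists_eq_right]
    constructor
    · rintro ⟨h1, h2, h3⟩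
      exact ⟨h1, h2, h3⟩
    · rintro ⟨h1, h2, h3⟩
      exact ⟨h1, h2, h3⟩
  constructor
  · intro h
    refine ⟨fun x => h.const x.1 x.2, fun x y hxy => ?_, fun k => ?_, fun x y z h1 h2 h3 => ?_⟩
    · rcases h.inj x.1 y.1 x.2 y.2 hxy with h1 | h1
      · exact Or.inl (Subtype.ext h1)
      · exact Or.inr (Subtype.ext h1)
    · have h1 := h.cut k
      rw [hcut k, Set.ncard_image_of_injective _ Subtype.val_injective] at h1
      exact h1
    · exact (compX S s x y).2 (h.sep x.1 y.1 z.1 x.2 y.2 z.2 h1 h2 ((compX S s x z).1 h3))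
  · intro h
    refine ⟨fun x hx => h.const ⟨x, hx⟩, fun x y hx hy hxy => ?_, fun k => ?_,
      fun x y z hx hy hz h1 h2 h3 => ?_⟩
    · rcases h.inj ⟨x, hx⟩ ⟨y, hy⟩ hxy with h1 | h1
      · exact Or.inl (congrArg Subtype.val h1)
      · exact Or.inr (congrArg Subtype.val h1)
    · rw [hcut k, Set.ncard_image_of_injective _ Subtype.val_injective]
      exact h.cut k
    · exact (compX S s ⟨x, hx⟩ ⟨y, hy⟩).1 (h.sep ⟨x, hx⟩ ⟨y, hy⟩ ⟨z, hz⟩ h1 h2
        ((compX S s ⟨x, hx⟩ ⟨z, hz⟩).2 h3))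

theorem sweep_connect {S : Shadow V} {s : V → St} {h h' : Dart V → ℕ} (hs : Sweep S s h)
    (hs' : Sweep S s h') (ho : SameOrd S s h h') (P : (Dart V → ℕ) → Prop)
    (hP1 : ∀ g g', Sweep S s g → Sweep S s g' →
      (∀ x y, isC s x → isC s y → (g x < g y ↔ g' x < g' y)) → P g → P g')
    (hP2 : ∀ g k x y, Sweep S s g → Sweep S s (fun z => Equiv.swap k (k + 1) (g z)) →
      isC s x → isC s y → g x = k → g y = k + 1 → Comp S s x y → P g →
      P (fun z => Equiv.swap k (k + 1) (g z))) :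
    P h → P h' := by
  classical
  intro hP
  obtain ⟨ex, hex⟩ : ∃ ex : ({x : Dart V // Cr s x.1} → ℕ) → Dart V → ℕ,
      ∀ g x, ex g x = if hx : Cr s x.1 then g ⟨x, hx⟩ else 0 := ⟨_, fun _ _ => rfl⟩
  have hex1 : ∀ g (x : {x : Dart V // Cr s x.1}), ex g x.1 = g x := fun g x => by
    rw [hex, dif_pos x.2]
  have hexS : ∀ g, SConn.Swp (bX S s) (tX s) g → Sweep S s (ex g) := fun g hg => by
    rw [swpX]
    simp only [hex1]
    exact hg
  have h1 : SConn.Cl1 (bX S s) (tX s) fun g => P (ex g) := by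
    intro g g' hg hg' hgg
    refine hP1 _ _ (hexS g hg) (hexS g' hg') fun x y hx hy => ?_
    have := hgg ⟨x, hx⟩ ⟨y, hy⟩
    rw [← hex1 g, ← hex1 g, ← hex1 g', ← hex1 g'] at this
    exact this
  have h2 : SConn.Cl2 (bX S s) (tX s) fun g => P (ex g) := by
    intro g k x y hg hg' hx hy hxy hPg
    have h3 : Sweep S s (fun z => Equiv.swap k (k + 1) (ex g z)) := by
      rw [swpX]
      simp only [hex1]
      exact hg'
    refine hP1 _ _ h3 (hexS _ hg') (fun x y hx hy => ?_)
      (hP2 (ex g) k x.1 y.1 (hexS g hg) h3 x.2 y.2 (by rw [hex1, hx]) (by rw [hex1, hy])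
        ((compX S s x y).1 hxy) hPg)
    have e1 : ∀ (z : Dart V) (hz : isC s z), Equiv.swap k (k + 1) (ex g z) =
        ex (fun z => Equiv.swap k (k + 1) (g z)) z := by
      intro z hz
      have a1 := hex1 g ⟨z, hz⟩
      have a2 := hex1 (fun z => Equiv.swap k (k + 1) (g z)) ⟨z, hz⟩
      simp only at a1 a2
      rw [a1, a2]
    rw [e1 x hx, e1 y hy]
  have h3 : P (ex fun x => h x.1) := by
    have hsw := (swpX S s h).1 hs
    refine hP1 _ _ hs (hexS _ hsw) (fun x y hx hy => ?_) hP
    have a1 := hex1 (fun x => h x.1) ⟨x, hx⟩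
    have a2 := hex1 (fun x => h x.1) ⟨y, hy⟩
    simp only at a1 a2
    rw [a1, a2]
  have h4 : P (ex fun x => h' x.1) := by
    refine SConn.connect (invX S s) h1 h2 ((swpX S s h).1 hs) ((swpX S s h').1 hs') ?_ h3
    intro x y hxy
    exact ho x.1 y.1 x.2 y.2 fun hc => hxy ((compX S s x y).2 hc)
  refine hP1 _ _ (hexS _ ((swpX S s h').1 hs')) hs' (fun x y hx hy => ?_) h4
  have a1 := hex1 (fun x => h' x.1) ⟨x, hx⟩
  have a2 := hex1 (fun x => h' x.1) ⟨y, hy⟩
  simp only at a1 a2
  rw [a1, a2]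

end Pool.Agent.Helper65.LK
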