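import Pool.Agent.Helper65.LK.Compress

/-!
# LK-09. Smoothing a self crossing at adjacent heights keeps the sweep

Let `t = update s v q`, `k₀, k₀ + 1` the heights of the two strands at `v`.
`const`, `inj`: the darts of the crossings of `t` are darts of crossings of `s`, `tau` is the same.

`cut` at the level `k`: if `k ≠ k₀`, all darts at `v` are on the same side of `k`.  For a
crossing dart `x` of `t` with `h x ≤ k < h (partner_t x)` the `t`-arc from `x` to `partner_t x` is a chain
`x = z_0, partner_s z_0, z_1 = mate_q (partner_s z_0), partner_s z_1, ...` of `s`-arcs joined at `v`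
(`partner` of `t` = the first dart in this chain which is not at `v`; compare `partner_path`, whose
proof is the same with `tau t` instead of `tau s`); each `mate_q` step at `v` stays on the same side of
`k`, so some `z_i` has `h (z_i) ≤ k < h (partner_s z_i)`; choose the first such `i` and map `x` to
`z_i`.  This map is injective, as `x` is obtained from `z_i` by going back along the chain until the first
dart which is not at `v`.  Hence the number for `t` is at most the number for `s`.
If `k = k₀`: no crossing dart of `t` has height `k₀` or `k₀ + 1` (`inj`), so the set for `t` at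
the level `k₀` is the set for `t` at the level `k₀ + 1`.

`sep`: let `h x < h y < h z`, `Comp S t x z`, all three darts at crossings of `t`, and suppose not
`Comp S t x y`.  `Comp S t x z` implies `Comp S s x z` (because `(v,0), (v,1)` are on the same
component of `s`, the smoothing at `v` joins only darts of this component).  By `sep` for `s`:
`Comp S s x y`.  The component of `x, z` in `t` crosses the levels `h y - 1` and `h y`, each at least
twice (a closed curve), so by `cut` for `t` the component of `y` in `t` does not cross them: all its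
heights are equal to `h y`, i.e. it is the single strand `{y, tau y}`, and `partner_t y = tau s y`.
So in `s` the arcs at `y` and `tau s y` both end at `v` (if `partner_s y` were not at `v`, it would be
`partner_t y = tau s y`, and `{y, tau s y}` would be a whole component of `s`, but `x` is on the
component of `y` in `s`).  If `h y > k₀ + 1`: the level `k₀ + 1` of `s` is crossed by the two arcs
at `y` and `tau s y`, by `cut` by no other arc; since `h z > h y > k₀ + 1` and `z` is on the component
of `y` in `s`, going from `z` along this component one has to leave the part above the level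
`k₀ + 1` through another arc; contradiction (the strand `{y, tau s y}` has both arcs going down, so
`z` is not reached from it above the level).  Similarly if `h y < k₀` (with `x` instead of `z` and
the level `k₀ - 1`).
-/

namespace Pool.Agent.Helper65.LK

open Function

variable {V : Type} [Fintype V] [DecidableEq V]

namespace SweepSm

omit [DecidableEq V] in
/-- a property of crossing darts which is kept by `tau` and `partner` is kept along components -/
theorem closed_iff (S : Shadow V) (s : V → St) (A : Dart V → Prop)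
    (hT : ∀ u, isC s u → A u → A (tau s u))
    (hP : ∀ u, isC s u → A u → A (partner (Cr s) S s u))
    {x y : Dart V} (hx : isC s x) (hy : isC s y) (h : Comp S s x y) (hA : A x) : A y := by
  have key := (gen_iff (Cr s) S s (tau s) (fun _ => rfl) (fun _ _ => rfl) ⟨x, hx⟩ ⟨y, hy⟩).1 h
  have gg : ∀ a b : {x : Dart V // Cr s x.1},
      Relation.EqvGen (genU (Cr s) S s (tau s)) a b → (A a.1 ↔ A b.1) := by
    intro a b hab
    induction hab with
    | rel a b hab =>
      rcases hab with hab | hab
      · constructor
        · intro ha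
          rw [hab]
          exact hP _ a.2 ha
        · intro hb
          have h1 := hP _ b.2 hb
          rw [hab, partner_partner _ _ _ _ a.2] at h1
          exact h1
      · constructor
        · intro ha
          rw [hab]
          exact hT _ a.2 ha
        · intro hb
          have h1 := hT _ b.2 hb
          rw [hab] at h1
          have h2 : tau s (tau s a.1) = a.1 := (tau s).left_inv a.1
          rw [h2] at h1
          exact h1
    | refl a => rfl
    | symm a b _ ih => exact ih.symm
    | trans a b c _ _ ih1 ih2 => exact ih1.trans ih2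
  exact (gg _ _ key).1 hA

omit [Fintype V] [DecidableEq V] in
theorem tau_tau {s : V → St} (x : Dart V) : tau s (tau s x) = x := (tau s).left_inv x

omit [Fintype V] [DecidableEq V] in
theorem tau_ne {s : V → St} (x : Dart V) : tau s x ≠ x := by
  intro h
  exact St.mate_ne (s x.1) x.2 (congrArg Prod.snd h)

omit [Fintype V] [DecidableEq V] in
theorem tau_isC {s : V → St} {x : Dart V} (h : isC s x) : isC s (tau s x) := h

omit [DecidableEq V] in
theorem P_isC {S : Shadow V} {s : V → St} {x : Dart V} (h : isC s x) :
    isC s (partner (Cr s) S s x) := (partner_spec (Cr s) S s x h).1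

omit [DecidableEq V] in
theorem P_comp {S : Shadow V} {s : V → St} {x : Dart V} (h : isC s x) :
    Comp S s x (partner (Cr s) S s x) := by
  have h1 := (partner_spec (Cr s) S s x h).2.2.1
  refine Relation.EqvGen.mono ?_ _ _ h1
  rintro a b (hab | hab)
  · exact Or.inl hab
  · exact Or.inr hab.2

/-- the number of arcs crossing a level inside a component is even -/
theorem even_cut (S : Shadow V) (s : V → St) (A : Finset (Dart V))
    (hC : ∀ u ∈ A, isC s u) (hT : ∀ u ∈ A, tau s u ∈ A) :
    Even (A.filter fun u => partner (Cr s) S s u ∉ A).card := by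
  classical
  have e1 : Even A.card := by
    have : ((A.card : ℕ) : ZMod 2) = 0 := by
      have := Finset.sum_involution (s := A) (f := fun _ => (1 : ZMod 2))
        (fun a _ => tau s a) (by intros; decide) (by intro a _ _; exact tau_ne a)
        (by intro a ha; exact hT a ha) (by intro a _; exact tau_tau a)
      simpa using this
    rwa [ZMod.natCast_eq_zero_iff_even] at this
  have e2 : Even (A.filter fun u => partner (Cr s) S s u ∈ A).card := by
    have : (((A.filter fun u => partner (Cr s) S s u ∈ A).card : ℕ) : ZMod 2) = 0 := by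
      have := Finset.sum_involution (s := A.filter fun u => partner (Cr s) S s u ∈ A)
        (f := fun _ => (1 : ZMod 2))
        (fun a _ => partner (Cr s) S s a) (by intros; decide)
        (by
          intro a ha _
          exact (partner_spec (Cr s) S s a (hC a (Finset.mem_filter.1 ha).1)).2.1)
        (by
          intro a ha
          rw [Finset.mem_filter] at ha ⊢
          refine ⟨ha.2, ?_⟩
          rw [partner_partner _ _ _ _ (hC a ha.1)]
          exact ha.1)
        (by
          intro a ha
          exact partner_partner _ _ _ _ (hC a (Finset.mem_filter.1 ha).1))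
      simpa using this
    rwa [ZMod.natCast_eq_zero_iff_even] at this
  have e3 := Finset.card_filter_add_card_filter_not (s := A)
    (fun u => partner (Cr s) S s u ∈ A)
  have : Even ((A.filter fun u => partner (Cr s) S s u ∈ A).card +
      (A.filter fun u => partner (Cr s) S s u ∉ A).card) := by
    rw [e3]; exact e1
  rw [Nat.even_add] at this
  exact this.1 e2

omit [Fintype V] in
theorem tau_upd {s : V → St} {v : V} {q : St} {x : Dart V} (h : x.1 ≠ v) :
    tau (update s v q) x = tau s x := by
  show ((x.1, ((update s v q) x.1).mate x.2) : Dart V) = (x.1, (s x.1).mate x.2)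
  rw [update_of_ne h]

omit [Fintype V] in
theorem isC_upd {s : V → St} {v : V} {q : St} (hq : q.isX = false) {x : Dart V} :
    isC (update s v q) x ↔ isC s x ∧ x.1 ≠ v := by
  unfold isC
  by_cases h : x.1 = v
  · rw [h, update_self, hq]
    simp
  · rw [update_of_ne h]
    simp [h]

omit [Fintype V] in
theorem arcRel_upd (S : Shadow V) {s : V → St} {v : V} (hv : (s v).isX = true) (q : St) :
    arcRel (Cr s) S (update s v q) = arcRel (Cr s) S s := by
  funext x y
  apply propext
  unfold arcRel
  by_cases h : x.1 = v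
  · have : Cr s x.1 := by rw [h]; exact hv
    simp [this]
  · rw [tau_upd h]

omit [Fintype V] in
theorem partner_upd (S : Shadow V) {s : V → St} {v : V} (hv : (s v).isX = true) (q : St) :
    partner (Cr s) S (update s v q) = partner (Cr s) S s := by
  funext x
  unfold partner
  rw [arcRel_upd S hv q]

theorem chain (S : Shadow V) {s : V → St} {v : V} (hv : (s v).isX = true) (q : St)
    (hq : q.isX = false) {x : Dart V} (hx : isC (update s v q) x) :
    ∃ (m : ℕ) (z : ℕ → Dart V), z 0 = x ∧
      (∀ i < m, (partner (Cr s) S s (z i)).1 = v ∧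
        z (i + 1) = tau (update s v q) (partner (Cr s) S s (z i))) ∧
      (∀ i ≤ m, isC s (z i)) ∧
      partner (Cr (update s v q)) S (update s v q) x = partner (Cr s) S s (z m) := by
  obtain ⟨m, z, h0, h1, h2, h3⟩ := partner_path (Cr s) (Cr (update s v q))
    (fun w hw => ((isC_upd (x := (w, 0)) hq).1 hw).1) S (update s v q) x hx
  rw [partner_upd S hv q] at h1 h3
  refine ⟨m, z, h0, fun i hi => ⟨?_, (h1 i hi).2⟩, h2, h3⟩
  by_contra hne
  exact (h1 i hi).1 ((isC_upd hq).2 ⟨P_isC (h2 i hi.le), hne⟩)

theorem back (S : Shadow V) {s : V → St} {v : V} (q : St) (hq : q.isX = false) :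
    ∀ (i j : ℕ) (z w : ℕ → Dart V), isC (update s v q) (z 0) → isC (update s v q) (w 0) →
      (∀ a < i, (partner (Cr s) S s (z a)).1 = v ∧
        z (a + 1) = tau (update s v q) (partner (Cr s) S s (z a))) →
      (∀ a < j, (partner (Cr s) S s (w a)).1 = v ∧
        w (a + 1) = tau (update s v q) (partner (Cr s) S s (w a))) →
      (∀ a ≤ i, isC s (z a)) → (∀ a ≤ j, isC s (w a)) → z i = w j → z 0 = w 0 := by
  intro i
  induction i with
  | zero =>
    intro j z w hz hw h1 h2 h3 h4 h
    rcases j with _ | j
    · exact h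
    · exfalso
      have hh := h2 j (Nat.lt_succ_self j)
      rw [isC_upd hq] at hz
      apply hz.2
      rw [h, hh.2]
      exact hh.1
  | succ i ih =>
    intro j z w hz hw h1 h2 h3 h4 h
    rcases j with _ | j
    · exfalso
      have hh := h1 i (Nat.lt_succ_self i)
      rw [isC_upd hq] at hw
      apply hw.2
      rw [← h, hh.2]
      exact hh.1
    · have e1 := h1 i (Nat.lt_succ_self i)
      have e2 := h2 j (Nat.lt_succ_self j)
      rw [e1.2, e2.2] at h
      have e3 := (tau (update s v q)).injective h
      have e4 : z i = w j := by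
        rw [← partner_partner (Cr s) S s (z i) (h3 i (by omega)),
          ← partner_partner (Cr s) S s (w j) (h4 j (by omega)), e3]
      exact ih j z w hz hw (fun a ha => h1 a (by omega)) (fun a ha => h2 a (by omega))
        (fun a ha => h3 a (by omega)) (fun a ha => h4 a (by omega)) e4

omit [DecidableEq V] in
theorem hgt {S : Shadow V} {s : V → St} {h : Dart V → ℕ} (hs : Sweep S s h) {v : V}
    (hv : (s v).isX = true) (i : ZMod 4) :
    h (v, i) = h (v, 0) ∨ h (v, i) = h (v, 1) := by
  have h2 : h (v, 2) = h (v, 0) := by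
    have h3 := hs.const (v, 0) hv
    have h4 : tau s (v, 0) = (v, 2) := by
      show ((v, (s v).mate 0) : Dart V) = (v, 2)
      cases hsv : s v <;> rw [hsv] at hv <;> first | rfl | (simp [St.isX] at hv)
    rw [← h3, h4]
  have h2' : h (v, 3) = h (v, 1) := by
    have h3 := hs.const (v, 1) hv
    have h4 : tau s (v, 1) = (v, 3) := by
      show ((v, (s v).mate 1) : Dart V) = (v, 3)
      cases hsv : s v <;> rw [hsv] at hv <;> first | rfl | (simp [St.isX] at hv)
    rw [← h3, h4]
  fin_cases i
  · exact Or.inl rfl
  · exact Or.inr rfl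
  · exact Or.inl h2
  · exact Or.inr h2'

omit [Fintype V] [DecidableEq V] in
theorem all_comp {S : Shadow V} {s : V → St} {v : V} (hv : (s v).isX = true)
    (hc : Comp S s (v, 0) (v, 1)) (i : ZMod 4) : Comp S s (v, 0) (v, i) := by
  have h4 : tau s (v, 0) = (v, 2) := by
    show ((v, (s v).mate 0) : Dart V) = (v, 2)
    cases hsv : s v <;> rw [hsv] at hv <;> first | rfl | (simp [St.isX] at hv)
  have h5 : tau s (v, 1) = (v, 3) := by
    show ((v, (s v).mate 1) : Dart V) = (v, 3)
    cases hsv : s v <;> rw [hsv] at hv <;> first | rfl | (simp [St.isX] at hv)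
  fin_cases i
  · exact Relation.EqvGen.refl _
  · exact hc
  · exact Relation.EqvGen.rel _ _ (Or.inr h4.symm)
  · exact hc.trans _ _ _ (Relation.EqvGen.rel _ _ (Or.inr h5.symm))

omit [Fintype V] in
theorem comp_upd {S : Shadow V} {s : V → St} {v : V} (hv : (s v).isX = true)
    (hc : Comp S s (v, 0) (v, 1)) (q : St) {a b : Dart V}
    (hab : Comp S (update s v q) a b) : Comp S s a b := by
  induction hab with
  | rel a b hab =>
    rcases hab with hab | hab
    · exact Relation.EqvGen.rel _ _ (Or.inl hab)
    · by_cases h : a.1 = v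
      · rw [hab]
        obtain ⟨w, i⟩ := a
        subst h
        exact ((all_comp hv hc i).symm).trans _ _ _ (all_comp hv hc _)
      · rw [tau_upd h] at hab
        exact Relation.EqvGen.rel _ _ (Or.inr hab)
  | refl a => exact Relation.EqvGen.refl _
  | symm a b _ ih => exact ih.symm
  | trans a b c _ _ ih1 ih2 => exact ih1.trans _ _ _ ih2

/-- a component of the smoothed diagram and a level away from the smoothed crossing -/
theorem cut_ne {S : Shadow V} {s : V → St} {h : Dart V → ℕ} (hs : Sweep S s h) {v : V}
    (hv : (s v).isX = true) {q : St} (hq : q.isX = false) {k : ℕ}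
    (hk : ∀ a b : Dart V, a.1 = v → b.1 = v → h a ≤ k → h b ≤ k) :
    {x : Dart V | isC (update s v q) x ∧ h x ≤ k ∧
      k < h (partner (Cr (update s v q)) S (update s v q) x)}.ncard ≤ 2 := by
  classical
  set t := update s v q with ht
  set P := partner (Cr s) S s with hP
  have key : ∀ x : Dart V, isC t x → h x ≤ k → k < h (partner (Cr t) S t x) →
      ∃ (i : ℕ) (z : ℕ → Dart V), z 0 = x ∧
        (∀ a < i, (P (z a)).1 = v ∧ z (a + 1) = tau t (P (z a))) ∧
        (∀ a ≤ i, isC s (z a)) ∧ h (z i) ≤ k ∧ k < h (P (z i)) := by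
    intro x hx h1 h2
    obtain ⟨m, z, z0, z1, z2, z3⟩ := chain S hv q hq hx
    rw [z3] at h2
    by_contra hcon
    have hc2 : ∀ i ≤ m, ¬ (h (z i) ≤ k ∧ k < h (P (z i))) := by
      intro i hi hh
      exact hcon ⟨i, z, z0, fun a ha => z1 a (by omega), fun a ha => z2 a (by omega), hh.1, hh.2⟩
    have hc3 : ∀ i ≤ m, h (z i) ≤ k ∧ h (P (z i)) ≤ k := by
      intro i
      induction i with
      | zero =>
        intro hi
        have h3 : h (z 0) ≤ k := by rw [z0]; exact h1
        refine ⟨h3, ?_⟩
        by_contra hh
        exact hc2 0 hi ⟨h3, by omega⟩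
      | succ i ih =>
        intro hi
        have h4 := ih (by omega)
        have h5 := z1 i (by omega)
        have h6 : h (z (i + 1)) ≤ k := by
          apply hk (P (z i)) (z (i + 1)) h5.1 _ h4.2
          rw [h5.2]
          exact h5.1
        refine ⟨h6, ?_⟩
        by_contra hh
        exact hc2 (i + 1) hi ⟨h6, by omega⟩
    exact absurd h2 (not_lt.2 (hc3 m le_rfl).2)
  choose! I Z hZ using key
  refine le_trans (Set.ncard_le_ncard_of_injOn (fun x => Z x (I x)) ?_ ?_ (Set.toFinite _))
    (hs.cut k)
  · rintro x ⟨hx, h1, h2⟩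
    obtain ⟨-, -, z2, z3, z4⟩ := hZ x hx h1 h2
    exact ⟨z2 _ le_rfl, z3, z4⟩
  · rintro x ⟨hx, h1, h2⟩ y ⟨hy, h3, h4⟩ hxy
    obtain ⟨z0, z1, z2, -, -⟩ := hZ x hx h1 h2
    obtain ⟨w0, w1, w2, -, -⟩ := hZ y hy h3 h4
    rw [← z0, ← w0]
    exact back (S := S) q hq (I x) (I y) (Z x) (Z y) (by rw [z0]; exact hx) (by rw [w0]; exact hy)
      z1 w1 z2 w2 hxy

omit [DecidableEq V] in
/-- the closed curves of a diagram with the cut property: a component which crosses a level -/
theorem cross_one {S : Shadow V} {s : V → St} {h : Dart V → ℕ}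
    (hconst : ∀ x, isC s x → h (tau s x) = h x) {x y : Dart V} (hx : isC s x) (hy : isC s y)
    (hxy : Comp S s x y) {k : ℕ} (h1 : h x ≤ k) (h2 : k < h y) :
    ∃ w, isC s w ∧ Comp S s x w ∧ h w ≤ k ∧ k < h (partner (Cr s) S s w) := by
  by_contra hcon
  have := closed_iff S s (fun w => Comp S s x w ∧ h w ≤ k)
    (by
      rintro u hu ⟨hu1, hu2⟩
      refine ⟨hu1.trans _ _ _ (Relation.EqvGen.rel _ _ (Or.inr rfl)), ?_⟩
      rw [hconst u hu]
      exact hu2)
    (by
      rintro u hu ⟨hu1, hu2⟩
      refine ⟨hu1.trans _ _ _ (P_comp hu), ?_⟩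
      by_contra hh
      exact hcon ⟨u, hu, hu1, hu2, by omega⟩)
    hx hy hxy ⟨Relation.EqvGen.refl _, h1⟩
  have := this.2
  omega

/-- a component which crosses a level crosses it twice -/
theorem cross_two {S : Shadow V} {s : V → St} {h : Dart V → ℕ}
    (hconst : ∀ x, isC s x → h (tau s x) = h x) {x y : Dart V} (hx : isC s x) (hy : isC s y)
    (hxy : Comp S s x y) {k : ℕ} (h1 : h x ≤ k) (h2 : k < h y) :
    ∃ w w', w ≠ w' ∧ (isC s w ∧ Comp S s x w ∧ h w ≤ k ∧ k < h (partner (Cr s) S s w)) ∧
      (isC s w' ∧ Comp S s x w' ∧ h w' ≤ k ∧ k < h (partner (Cr s) S s w')) := by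
  classical
  let A : Finset (Dart V) := Finset.univ.filter fun u => isC s u ∧ Comp S s x u ∧ h u ≤ k
  have hA : ∀ u, u ∈ A ↔ isC s u ∧ Comp S s x u ∧ h u ≤ k := by
    intro u
    simp [A]
  have he := even_cut S s A (fun u hu => ((hA u).1 hu).1) (by
    intro u hu
    rw [hA] at hu ⊢
    refine ⟨hu.1, hu.2.1.trans _ _ _ (Relation.EqvGen.rel _ _ (Or.inr rfl)), ?_⟩
    rw [hconst u hu.1]
    exact hu.2.2)
  have hB : ∀ u, u ∈ A.filter (fun u => partner (Cr s) S s u ∉ A) ↔
      isC s u ∧ Comp S s x u ∧ h u ≤ k ∧ k < h (partner (Cr s) S s u) := by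
    intro u
    rw [Finset.mem_filter, hA, hA]
    constructor
    · rintro ⟨⟨a1, a2, a3⟩, a4⟩
      refine ⟨a1, a2, a3, ?_⟩
      by_contra hh
      exact a4 ⟨P_isC a1, a2.trans _ _ _ (P_comp a1), by omega⟩
    · rintro ⟨a1, a2, a3, a4⟩
      refine ⟨⟨a1, a2, a3⟩, ?_⟩
      rintro ⟨-, -, b⟩
      omega
  obtain ⟨w, w1, w2, w3, w4⟩ := cross_one hconst hx hy hxy h1 h2
  have hw : w ∈ A.filter (fun u => partner (Cr s) S s u ∉ A) := (hB w).2 ⟨w1, w2, w3, w4⟩
  have hpos : 0 < (A.filter fun u => partner (Cr s) S s u ∉ A).card := Finset.card_pos.2 ⟨w, hw⟩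
  have h1c : 1 < (A.filter fun u => partner (Cr s) S s u ∉ A).card := by
    rcases he with ⟨r, hr⟩
    omega
  obtain ⟨a, ha, b, hb, hab⟩ := Finset.one_lt_card.1 h1c
  exact ⟨a, b, hab, (hB a).1 ha, (hB b).1 hb⟩

/-- no three crossings of a level -/
theorem no_three {S : Shadow V} {s : V → St} {h : Dart V → ℕ} {k : ℕ}
    (hcut : {x : Dart V | isC s x ∧ h x ≤ k ∧ k < h (partner (Cr s) S s x)}.ncard ≤ 2)
    {a b c : Dart V} (ha : isC s a ∧ h a ≤ k ∧ k < h (partner (Cr s) S s a))
    (hb : isC s b ∧ h b ≤ k ∧ k < h (partner (Cr s) S s b))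
    (hc : isC s c ∧ h c ≤ k ∧ k < h (partner (Cr s) S s c))
    (hab : a ≠ b) : c = a ∨ c = b := by
  by_contra hcon
  push Not at hcon
  have : 2 < {x : Dart V | isC s x ∧ h x ≤ k ∧ k < h (partner (Cr s) S s x)}.ncard :=
    (Set.two_lt_ncard (Set.toFinite _)).2 ⟨a, ha, b, hb, c, hc, hab, hcon.1.symm, hcon.2.symm⟩
  omega

end SweepSm

open SweepSm in
theorem sweep_smooth {S : Shadow V} {s : V → St} {h : Dart V → ℕ} (hs : Sweep S s h) (v : V)
    (hv : (s v).isX = true) (hc : Comp S s (v, 0) (v, 1))
    (ha : h (v, 1) = h (v, 0) + 1 ∨ h (v, 0) = h (v, 1) + 1) (q : St) (hq : q.isX = false) :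
    Sweep S (update s v q) h := by
  classical
  set t := update s v q with ht
  obtain ⟨k0, hk0, hkv⟩ : ∃ k0, (∃ i j, h (v, i) = k0 ∧ h (v, j) = k0 + 1) ∧
      ∀ a : Dart V, a.1 = v → h a = k0 ∨ h a = k0 + 1 := by
    rcases ha with ha | ha
    · refine ⟨h (v, 0), ⟨0, 1, rfl, ha⟩, ?_⟩
      rintro ⟨w, i⟩ hw
      have hw' : w = v := hw
      subst hw'
      rcases hgt hs hv i with h1 | h1 <;> omega
    · refine ⟨h (v, 1), ⟨1, 0, rfl, ha⟩, ?_⟩
      rintro ⟨w, i⟩ hw
      have hw' : w = v := hw
      subst hw'
      rcases hgt hs hv i with h1 | h1 <;> omega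
  have tC : ∀ x, isC t x ↔ isC s x ∧ x.1 ≠ v := fun x => isC_upd hq
  have hconst : ∀ x, isC t x → h (tau t x) = h x := by
    intro x hx
    have hx' := (tC x).1 hx
    rw [ht, tau_upd hx'.2]
    exact hs.const x hx'.1
  have hinj : ∀ x y, isC t x → isC t y → h x = h y → y = x ∨ y = tau t x := by
    intro x y hx hy hxy
    have hx' := (tC x).1 hx
    have hy' := (tC y).1 hy
    rw [ht, tau_upd hx'.2]
    exact hs.inj x y hx'.1 hy'.1 hxy
  -- the heights of the crossings of `t` are different from `k0` and `k0 + 1`
  have hne : ∀ x, isC t x → h x ≠ k0 ∧ h x ≠ k0 + 1 := by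
    intro x hx
    have hx' := (tC x).1 hx
    obtain ⟨i, j, hi, hj⟩ := hk0
    constructor
    · intro h1
      rcases hs.inj (v, i) x hv hx'.1 (by rw [hi, h1]) with h2 | h2
      · exact hx'.2 (by rw [h2])
      · exact hx'.2 (by rw [h2]; rfl)
    · intro h1
      rcases hs.inj (v, j) x hv hx'.1 (by rw [hj, h1]) with h2 | h2
      · exact hx'.2 (by rw [h2])
      · exact hx'.2 (by rw [h2]; rfl)
  have hcutne : ∀ k, k ≠ k0 → {x : Dart V | isC t x ∧ h x ≤ k ∧
      k < h (partner (Cr t) S t x)}.ncard ≤ 2 := by
    intro k hk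
    apply cut_ne hs hv hq
    intro a b ha' hb' hh
    rcases hkv a ha' with h1 | h1 <;> rcases hkv b hb' with h2 | h2 <;> omega
  have hcut : ∀ k, {x : Dart V | isC t x ∧ h x ≤ k ∧
      k < h (partner (Cr t) S t x)}.ncard ≤ 2 := by
    intro k
    by_cases hk : k = k0
    · have h1 := hcutne (k0 + 1) (by omega)
      refine le_trans (le_of_eq ?_) h1
      congr 1
      ext x
      simp only [Set.mem_ofPred_eq]
      constructor
      · rintro ⟨a1, a2, a3⟩
        have := hne (partner (Cr t) S t x) (P_isC a1)
        exact ⟨a1, by omega, by omega⟩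
      · rintro ⟨a1, a2, a3⟩
        have := hne _ a1
        exact ⟨a1, by omega, by omega⟩
    · exact hcutne k hk
  refine ⟨hconst, hinj, hcut, ?_⟩
  intro x y z hx hy hz hxy hyz hxz
  by_contra hcon
  have hx' := (tC x).1 hx
  have hy' := (tC y).1 hy
  have hz' := (tC z).1 hz
  have hxz' : Comp S s x z := comp_upd hv hc q hxz
  have hxy' : Comp S s x y := hs.sep x y z hx'.1 hy'.1 hz'.1 hxy hyz hxz'
  -- the component of `y` in `t` is one strand
  have hDsame : ∀ w, isC t w → Comp S t y w → h w = h y := by
    intro w hw hyw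
    by_contra hwy
    have hnw : ∀ u, Comp S t y u → ¬ Comp S t x u := by
      intro u hu hu'
      exact hcon (hu'.trans _ _ _ hu.symm)
    rcases lt_or_gt_of_ne hwy with h1 | h1
    · -- the level `h y - 1`
      obtain ⟨a, b, hab, ⟨a1, a2, a3, a4⟩, ⟨b1, b2, b3, b4⟩⟩ :=
        cross_two (S := S) hconst hx hz hxz (k := h y - 1) (by omega) (by omega)
      obtain ⟨c, c1, c2, c3, c4⟩ := cross_one (S := S) hconst hw hy hyw.symm (k := h y - 1)
        (by omega) (by omega)
      have c2' : Comp S t y c := hyw.trans _ _ _ c2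
      rcases no_three (hcut (h y - 1)) ⟨a1, a3, a4⟩ ⟨b1, b3, b4⟩ ⟨c1, c3, c4⟩ hab with h2 | h2
      · exact hnw c c2' (h2 ▸ a2)
      · exact hnw c c2' (h2 ▸ b2)
    · obtain ⟨a, b, hab, ⟨a1, a2, a3, a4⟩, ⟨b1, b2, b3, b4⟩⟩ :=
        cross_two (S := S) hconst hx hz hxz (k := h y) (by omega) (by omega)
      obtain ⟨c, c1, c2, c3, c4⟩ := cross_one (S := S) hconst hy hw hyw (k := h y)
        (by omega) (by omega)
      rcases no_three (hcut (h y)) ⟨a1, a3, a4⟩ ⟨b1, b3, b4⟩ ⟨c1, c3, c4⟩ hab with h2 | h2
      · exact hnw c c2 (h2 ▸ a2)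
      · exact hnw c c2 (h2 ▸ b2)
  have hPy : partner (Cr t) S t y = tau s y := by
    have h1 := partner_spec (Cr t) S t y hy
    rcases hinj y _ hy h1.1 (hDsame _ h1.1 (P_comp hy)).symm with h2 | h2
    · exact absurd h2 h1.2.1
    · rw [h2, ht, tau_upd hy'.2]
  have hPy2 : partner (Cr t) S t (tau s y) = y := by
    rw [← hPy]
    exact partner_partner _ _ _ _ hy
  -- general step: if the arc of `s` at `u` does not end at `v`, it is the arc of `t`
  have hstep : ∀ u, isC t u → (partner (Cr s) S s u).1 ≠ v →
      partner (Cr t) S t u = partner (Cr s) S s u := by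
    intro u hu hne2
    obtain ⟨m, w, w0, w1, w2, w3⟩ := chain S hv q hq hu
    rcases m with _ | m
    · rw [w3, w0]
    · exfalso
      apply hne2
      rw [← w0]
      exact (w1 0 (by omega)).1
  have hty : isC t (tau s y) := (tC _).2 ⟨hy'.1, hy'.2⟩
  have hxy2 : Comp S s y x := hxy'.symm
  have hA1 : (partner (Cr s) S s y).1 = v := by
    by_contra hne2
    have e1 : partner (Cr s) S s y = tau s y := by rw [← hstep y hy hne2, hPy]
    have e2 : partner (Cr s) S s (tau s y) = y := by
      rw [← e1]
      exact partner_partner _ _ _ _ hy'.1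
    have := closed_iff S s (fun w => w = y ∨ w = tau s y)
      (by
        rintro u hu (rfl | rfl)
        · exact Or.inr rfl
        · exact Or.inl (tau_tau _))
      (by
        rintro u hu (rfl | rfl)
        · exact Or.inr e1
        · exact Or.inl e2)
      hy'.1 hx'.1 hxy2 (Or.inl rfl)
    rcases this with h2 | h2
    · rw [h2] at hxy; omega
    · rw [h2, hs.const y hy'.1] at hxy; omega
  have hA2 : (partner (Cr s) S s (tau s y)).1 = v := by
    by_contra hne2
    have e2 : partner (Cr s) S s (tau s y) = y := by rw [← hstep _ hty hne2, hPy2]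
    have e1 := partner_partner (Cr s) S s (tau s y) (show isC s (tau s y) from hy'.1)
    rw [e2] at e1
    rw [e1] at hA1
    exact hy'.2 hA1
  have hyk := hne y hy
  have hTy : h (tau s y) = h y := hs.const y hy'.1
  have hw1 := hkv _ hA1
  have hw2 := hkv _ hA2
  have hC1 : isC s (partner (Cr s) S s y) := P_isC hy'.1
  have hC2 : isC s (partner (Cr s) S s (tau s y)) := P_isC (show isC s (tau s y) from hy'.1)
  have hPP1 : partner (Cr s) S s (partner (Cr s) S s y) = y := partner_partner _ _ _ _ hy'.1
  have hPP2 : partner (Cr s) S s (partner (Cr s) S s (tau s y)) = tau s y :=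
    partner_partner _ _ _ _ (show isC s (tau s y) from hy'.1)
  rcases lt_or_ge (k0 + 1) (h y) with hlt | hge
  · -- `z` cannot be reached above the level `k0 + 1`
    have h3 : ∀ c, isC s c → h c ≤ k0 + 1 → k0 + 1 < h (partner (Cr s) S s c) →
        c = partner (Cr s) S s y ∨ c = partner (Cr s) S s (tau s y) := by
      intro c c1 c2 c3
      refine no_three (hs.cut (k0 + 1)) ⟨hC1, by omega, by rw [hPP1]; omega⟩
        ⟨hC2, by omega, by rw [hPP2]; omega⟩ ⟨c1, c2, c3⟩ ?_
      intro hh
      rw [hh, hPP2] at hPP1
      exact tau_ne y hPP1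
    have := closed_iff S s (fun w => k0 + 1 < h w ∧ w ≠ y ∧ w ≠ tau s y)
      (by
        rintro u hu ⟨u1, u2, u3⟩
        refine ⟨by rw [hs.const u hu]; exact u1, ?_, ?_⟩
        · intro hh
          apply u3
          rw [← hh, tau_tau]
        · intro hh
          exact u2 ((tau s).injective hh))
      (by
        rintro u hu ⟨u1, u2, u3⟩
        have hPu : partner (Cr s) S s (partner (Cr s) S s u) = u := partner_partner _ _ _ _ hu
        refine ⟨?_, ?_, ?_⟩
        · by_contra hh
          rcases h3 (partner (Cr s) S s u) (P_isC hu) (by omega) (by rw [hPu]; exact u1) with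
            h4 | h4
          · rw [h4, hPP1] at hPu
            exact u2 hPu.symm
          · rw [h4, hPP2] at hPu
            exact u3 hPu.symm
        · intro hh
          rw [hh] at hPu
          rw [← hPu] at u1
          omega
        · intro hh
          rw [hh] at hPu
          rw [← hPu] at u1
          omega)
      hz'.1 hy'.1 (hxz'.symm.trans _ _ _ hxy')
      ⟨by omega, by rintro rfl; omega, by rintro rfl; omega⟩
    exact this.2.1 rfl
  · -- `x` cannot be reached below the level `k0`
    have hyk2 : h y < k0 := by omega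
    have h3 : ∀ c, isC s c → h c ≤ k0 - 1 → k0 - 1 < h (partner (Cr s) S s c) →
        c = y ∨ c = tau s y := by
      intro c c1 c2 c3
      exact no_three (hs.cut (k0 - 1)) ⟨hy'.1, by omega, by omega⟩
        ⟨hy'.1, by omega, by omega⟩ ⟨c1, c2, c3⟩ (tau_ne y).symm
    have := closed_iff S s (fun w => h w < k0 ∧ w ≠ y ∧ w ≠ tau s y)
      (by
        rintro u hu ⟨u1, u2, u3⟩
        refine ⟨by rw [hs.const u hu]; exact u1, ?_, ?_⟩
        · intro hh
          apply u3
          rw [← hh, tau_tau]
        · intro hh
          exact u2 ((tau s).injective hh))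
      (by
        rintro u hu ⟨u1, u2, u3⟩
        have hPu : partner (Cr s) S s (partner (Cr s) S s u) = u := partner_partner _ _ _ _ hu
        refine ⟨?_, ?_, ?_⟩
        · by_contra hh
          rcases h3 u hu (by omega) (by omega) with h4 | h4
          · exact u2 h4
          · exact u3 h4
        · intro hh
          rw [hh] at hPu
          rw [← hPu] at u1
          omega
        · intro hh
          rw [hh] at hPu
          rw [← hPu] at u1
          omega)
      hx'.1 hy'.1 hxy'
      ⟨by omega, by rintro rfl; omega, by rintro rfl; omega⟩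
    exact this.2.1 rfl

end Pool.Agent.Helper65.LK
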