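import Pool.Agent.Helper65.LK.Unique
import Pool.Agent.Helper65.LK.Cube
import Pool.Agent.Helper65.LK.SweepConn
import Pool.Agent.Helper65.LK.SweepSm
import Pool.Agent.Helper65.LK.CompsV

/-!
# LK-18. Existence of a skein function for a fixed order of the components

Proof.  For every `t` below `s` with fewer crossings choose `F_t` by `hlow` and let `F₀ t = F_t t`.
If `t'` is below `t` then `F_t t' = F_{t'} t'` by uniqueness (`IsSkein.unique`, with `restrict` if
`nX t' < nX t` and `sameShape` otherwise; sweeps exist by `exists_sweep`).  So `F₀` agrees with `F_t` below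
`t`; it satisfies the skein relation at all `t` with `nX t < nX s` and is normalised on all sweeps
there.  For `t` of the same shape as `s` put `g v t = z * (F₀ (update t v smA) + F₀ (update t v smB))`.
`h1` of `exists_cube` is clear and `h2` follows from the skein relations of `F₀` at the states
`update t v smA` etc.:
`g v t + g v (update t w (t w).sw) = z² ∑ F₀ (v, w smoothed in the four ways) = g w t + g w (update t v ..)`.
Take `p = pat s h`, `m = mu ^ (comps S s - 1)`, and let `F t = f t` if `SameShape t s`, `F t = F₀ t`
otherwise.  `skein` and `low` are clear (a state below `s` which is not of the same shape has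
fewer crossings).  `top`: let `h'` be a sweep with `SameOrd S s h h'`; apply `sweep_connect` to
`P g : F (pat s g) = mu ^ (comps S s - 1)`.  `hP1`: `pat s g = pat s g'`.  `hP2`: if the strands of
height `k` and `k + 1` do not meet in a crossing, then `pat s` is not changed.  Otherwise they are the
two strands at a crossing `v`, of the same component, and the pattern is changed exactly at `v`;
`F (pat s g) + F (pat s g') = z * (F₀ (.., v : smA) + F₀ (.., v : smB))`, the states on the right are
`pat (update s v smA) g`, `pat (update s v smB) g`, swept by `sweep_smooth`, so with `comps_self` the right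
hand side is `z * (mu ^ (c - 1) + mu ^ c) = 2 * mu ^ (c - 1)`, `c = comps S s ≥ 1`.
-/

namespace Pool.Agent.Helper65.LK

open Function

variable {V : Type} [Fintype V] [DecidableEq V] {R : Type} [CommRing R] {z mu : R}

private theorem or_refl (t : V → St) : Below t t := fun _ _ => rfl

private theorem or_trans {t' t s : V → St} (h1 : Below t' t) (h2 : Below t s) : Below t' s := by
  intro v hv
  have e1 := h2 v hv
  rw [← e1]
  apply h1
  rw [e1]
  exact hv

private theorem or_sub {t' t : V → St} (h : Below t' t) {v : V} (hv : (t' v).isX = true) :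
    (t v).isX = true := by
  rcases hb : (t v).isX with _ | _
  · rw [h v hb, hb] at hv
    exact absurd hv (by decide)
  · rfl

private theorem or_subset {t' t : V → St} (h : Below t' t) :
    (Finset.univ.filter fun v => (t' v).isX = true) ⊆
      (Finset.univ.filter fun v => (t v).isX = true) := by
  intro v hv
  rw [Finset.mem_filter] at hv ⊢
  exact ⟨hv.1, or_sub h hv.2⟩

private theorem or_ss {p q : St} (h : p.shape = q.shape) :
    p.isX = q.isX ∧ (q.isX = false → p = q) := by
  revert h
  cases p <;> cases q <;> decide

private theorem or_isX {p q : St} (hp : p.isX = true) (hq : q.isX = true) :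
    p.shape = q.shape := by
  revert hp hq
  cases p <;> cases q <;> decide

private theorem or_sw (p : St) : p.sw.shape = p.shape := by
  cases p <;> rfl

private theorem or_smA {p : St} (hp : p.isX = true) : St.smA.shape ≠ p.shape := by
  revert hp
  cases p <;> decide

private theorem or_smB {p : St} (hp : p.isX = true) : St.smB.shape ≠ p.shape := by
  revert hp
  cases p <;> decide

private theorem or_shape {t' t : V → St} (h : Below t' t) (hn : nX t ≤ nX t') :
    SameShape t' t := by
  have heq := Finset.eq_of_subset_of_card_le (or_subset h) hn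
  intro v
  by_cases hv : (t v).isX = true
  · have h1 : v ∈ (Finset.univ.filter fun v => (t' v).isX = true) := by
      rw [heq, Finset.mem_filter]
      exact ⟨Finset.mem_univ v, hv⟩
    exact or_isX (Finset.mem_filter.1 h1).2 hv
  · rw [h v (by simpa using hv)]

private theorem or_below {t s : V → St} (h : SameShape t s) : Below t s := fun v hv =>
  (or_ss (h v)).2 hv

private theorem or_nX {t s : V → St} (h : SameShape t s) : nX t = nX s := by
  unfold nX
  congr 1
  ext v
  rw [Finset.mem_filter, Finset.mem_filter, (or_ss (h v)).1]

/-- changing a crossing -/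
private theorem or_upd {t : V → St} {v : V} (hv : (t v).isX = true) (q : St) :
    Below (update t v q) t := by
  intro w hw
  refine update_of_ne ?_ _ _
  rintro rfl
  rw [hv] at hw
  exact absurd hw (by decide)

private theorem or_upd_sw {t : V → St} (v : V) : SameShape (update t v (t v).sw) t := by
  intro w
  by_cases h : w = v
  · subst h
    rw [update_self, or_sw]
  · rw [update_of_ne h]

private theorem or_lt {t : V → St} {v : V} (hv : (t v).isX = true) {q : St} (hq : q.isX = false) :
    nX (update t v q) < nX t := by
  by_contra h
  have h1 := or_shape (or_upd hv q) (not_lt.1 h) v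
  rw [update_self] at h1
  have h2 := (or_ss h1).1
  rw [hv, hq] at h2
  exact absurd h2 (by decide)

private theorem or_restrict {S : Shadow V} {t t' : V → St} {F : (V → St) → R}
    (hF : IsSkein z mu S t F (fun _ => True)) (h : Below t' t) :
    IsSkein z mu S t' F (fun _ => True) := by
  rcases lt_or_ge (nX t') (nX t) with h1 | h1
  · exact hF.restrict h h1
  · exact hF.sameShape (or_shape h h1)

private theorem or_unique {S : Shadow V} {t : V → St} {F F' : (V → St) → R}
    (hF : IsSkein z mu S t F (fun _ => True)) (hF' : IsSkein z mu S t F' (fun _ => True)) :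
    F t = F' t := by
  obtain ⟨g, hg⟩ := exists_sweep S t
  exact hF.unique hF' hg trivial trivial (or_refl t)

private theorem or_comps_pos (S : Shadow V) (s : V → St) (v : V) : 1 ≤ comps S s := by
  unfold comps classes
  have : Nonempty (Quotient (Relation.EqvGen.setoid
      (fun x y : Dart V => y = S.α x ∨ y = tau s x))) := ⟨Quotient.mk _ (v, 0)⟩
  exact Nat.card_pos

private theorem or_tau {s : V → St} {v : V} (hv : (s v).isX = true) (i : ZMod 4) :
    tau s (v, i) = (v, i + 2) := by
  show (v, (s v).mate i) = (v, i + 2)
  cases h : s v
  · rfl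
  · rfl
  · rw [h] at hv
    exact absurd hv (by decide)
  · rw [h] at hv
    exact absurd hv (by decide)

private theorem or_ne {S : Shadow V} {s : V → St} {g : Dart V → ℕ} (hg : Sweep S s g) {v : V}
    (hv : (s v).isX = true) : g (v, 0) ≠ g (v, 1) := by
  intro h
  rcases hg.inj (v, 0) (v, 1) hv hv h with h1 | h1
  · have h2 : (1 : ZMod 4) = 0 := congrArg Prod.snd h1
    exact absurd h2 (by decide)
  · rw [or_tau hv] at h1
    have h2 : (1 : ZMod 4) = 0 + 2 := congrArg Prod.snd h1
    exact absurd h2 (by decide)

private theorem or_swap {a b k : ℕ} (hab : a ≠ b) (h1 : ¬ (a = k ∧ b = k + 1))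
    (h2 : ¬ (a = k + 1 ∧ b = k)) :
    (Equiv.swap k (k + 1) a < Equiv.swap k (k + 1) b ↔ a < b) := by
  rw [Equiv.swap_apply_def, Equiv.swap_apply_def]
  split_ifs <;> omega

private theorem or_swap' {a b k : ℕ} (h : (a = k ∧ b = k + 1) ∨ (a = k + 1 ∧ b = k)) :
    (Equiv.swap k (k + 1) a < Equiv.swap k (k + 1) b ↔ ¬ a < b) := by
  rw [Equiv.swap_apply_def, Equiv.swap_apply_def]
  split_ifs <;> omega

private theorem or_pat_upd (s : V → St) (g : Dart V → ℕ) (v : V) {q : St} (hq : q.isX = false) :
    update (pat s g) v q = pat (update s v q) g := by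
  funext w
  by_cases h : w = v
  · subst h
    rw [update_self]
    unfold pat
    rw [update_self, if_neg]
    rw [hq]
    decide
  · rw [update_of_ne h]
    unfold pat
    rw [update_of_ne h]

theorem exists_ordered (hz : z * (mu + 1) = 2) (S : Shadow V) (s : V → St)
    (hlow : ∀ t, Below t s → nX t < nX s →
      ∃ F : (V → St) → R, IsSkein z mu S t F (fun _ => True))
    (h : Dart V → ℕ) (hs : Sweep S s h) :
    ∃ F : (V → St) → R, IsSkein z mu S s F (SameOrd S s h) := by
  classical
  choose! FF hFF using hlow
  obtain ⟨F₀, hF₀⟩ : ∃ F₀ : (V → St) → R, F₀ = fun t => FF t t := ⟨_, rfl⟩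
  -- `F₀` agrees with `FF t` below `t`
  have hag : ∀ t, Below t s → nX t < nX s → ∀ t', Below t' t → FF t t' = F₀ t' := by
    intro t ht hn t' ht'
    rw [hF₀]
    have h1 := or_restrict (hFF t ht hn) ht'
    have h2 := hFF t' (or_trans ht' ht) ((Finset.card_le_card (or_subset ht')).trans_lt hn)
    exact or_unique h1 h2
  have hsk : ∀ t, Below t s → nX t < nX s → ∀ v, (t v).isX = true → SkeinAt z F₀ t v := by
    intro t ht hn v hv
    have h1 := (hFF t ht hn).skein t (or_refl t) v hv
    unfold SkeinAt at h1 ⊢
    rw [hag t ht hn t (or_refl t), hag t ht hn _ (or_upd hv _), hag t ht hn _ (or_upd hv _),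
      hag t ht hn _ (or_upd hv _)] at h1
    exact h1
  have hno : ∀ t, Below t s → nX t < nX s → ∀ g, Sweep S t g →
      F₀ (pat t g) = mu ^ (comps S t - 1) := by
    intro t ht hn g hg
    rw [← hag t ht hn _ (or_below (pat_sameShape t g))]
    exact (hFF t ht hn).top g hg trivial
  -- the function on the cube
  obtain ⟨G, hG⟩ : ∃ G : V → (V → St) → R, G = fun v t =>
      z * (F₀ (update t v St.smA) + F₀ (update t v St.smB)) := ⟨_, rfl⟩
  have hG1 : ∀ t v, SameShape t s → (t v).isX = true → G v (update t v (t v).sw) = G v t := by
    intro t v _ _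
    rw [hG]
    simp only [update_idem]
  have hG2' : ∀ t v w, SameShape t s → v ≠ w → (t v).isX = true → (t w).isX = true →
      G v t + G v (update t w (t w).sw) =
        z * (z * (F₀ (update (update t v St.smA) w St.smA) +
          F₀ (update (update t v St.smA) w St.smB)) +
          z * (F₀ (update (update t v St.smB) w St.smA) +
          F₀ (update (update t v St.smB) w St.smB))) := by
    intro t v w ht hvw hv hw
    have key : ∀ q : St, q.isX = false → F₀ (update t v q) +
        F₀ (update (update t w (t w).sw) v q) =
        z * (F₀ (update (update t v q) w St.smA) + F₀ (update (update t v q) w St.smB)) := by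
      intro q hq
      have e1 : (update t v q) w = t w := update_of_ne hvw.symm _ _
      have h1 := hsk (update t v q) (or_trans (or_upd hv q) (or_below ht))
        ((or_lt hv hq).trans_eq (or_nX ht)) w (by rw [e1]; exact hw)
      unfold SkeinAt at h1
      rw [e1] at h1
      rw [update_comm hvw.symm]
      exact h1
    rw [hG]
    simp only
    rw [← key St.smA rfl, ← key St.smB rfl]
    ring
  have hG2 : ∀ t v w, SameShape t s → v ≠ w → (t v).isX = true → (t w).isX = true →
      G v t + G v (update t w (t w).sw) = G w t + G w (update t v (t v).sw) := by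
    intro t v w ht hvw hv hw
    rw [hG2' t v w ht hvw hv hw, hG2' t w v ht hvw.symm hw hv]
    rw [update_comm hvw.symm St.smA St.smA t, update_comm hvw.symm St.smA St.smB t,
      update_comm hvw.symm St.smB St.smA t, update_comm hvw.symm St.smB St.smB t]
    ring
  obtain ⟨f, hf1, hf2⟩ := exists_cube s G hG1 hG2 (pat s h) (pat_sameShape s h)
    (mu ^ (comps S s - 1))
  obtain ⟨F, hF⟩ : ∃ F : (V → St) → R, F = fun t => if SameShape t s then f t else F₀ t :=
    ⟨_, rfl⟩
  have hFs : ∀ t, SameShape t s → F t = f t := by
    intro t ht
    rw [hF]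
    exact if_pos ht
  have hFn : ∀ t, ¬ SameShape t s → F t = F₀ t := by
    intro t ht
    rw [hF]
    exact if_neg ht
  have hskein : ∀ t, Below t s → ∀ v, (t v).isX = true → SkeinAt z F t v := by
    intro t ht v hv
    have hsv : (s v).isX = true := or_sub ht hv
    have nA : ¬ SameShape (update t v St.smA) s := by
      intro h1
      have h2 := h1 v
      rw [update_self] at h2
      exact or_smA hsv h2
    have nB : ¬ SameShape (update t v St.smB) s := by
      intro h1
      have h2 := h1 v
      rw [update_self] at h2
      exact or_smB hsv h2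
    unfold SkeinAt
    rw [hFn _ nA, hFn _ nB]
    by_cases hts : SameShape t s
    · have h1 : SameShape (update t v (t v).sw) s := fun w =>
        (or_upd_sw v w).trans (hts w)
      rw [hFs _ hts, hFs _ h1, hf2 t v hts hv, hG]
    · have h1 : ¬ SameShape (update t v (t v).sw) s := by
        intro h2
        exact hts fun w => (or_upd_sw v w).symm.trans (h2 w)
      have h3 : nX t < nX s := by
        by_contra h4
        exact hts (or_shape ht (not_lt.1 h4))
      rw [hFn _ hts, hFn _ h1]
      exact hsk t ht h3 v hv
  have hlow' : ∀ t, Below t s → nX t < nX s → ∀ g, Sweep S t g →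
      F (pat t g) = mu ^ (comps S t - 1) := by
    intro t ht hn g hg
    rw [hFn]
    · exact hno t ht hn g hg
    · intro h1
      have h2 := or_nX h1
      have h3 := or_nX (pat_sameShape t g)
      omega
  refine ⟨F, hskein, hlow', ?_⟩
  intro h' hs' ho
  have hP : F (pat s h) = mu ^ (comps S s - 1) := by
    rw [hFs _ (pat_sameShape s h)]
    exact hf1
  refine sweep_connect hs hs' ho (fun g => F (pat s g) = mu ^ (comps S s - 1)) ?_ ?_ hP
  · intro g g' _ _ hgg hPg
    have h1 : pat s g = pat s g' := by
      funext v
      unfold pat
      by_cases hv : (s v).isX = true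
      · rw [if_pos hv, if_pos hv]
        simp only [hgg (v, 0) (v, 1) hv hv]
      · rw [if_neg hv, if_neg hv]
    show F (pat s g') = _
    rw [← h1]
    exact hPg
  · intro g k x y hg hg' hx hy hgx hgy hxy hPg
    show F (pat s fun z => Equiv.swap k (k + 1) (g z)) = _
    have hPg' : F (pat s g) = mu ^ (comps S s - 1) := hPg
    by_cases hex : ∃ v, (s v).isX = true ∧
        ((g (v, 0) = k ∧ g (v, 1) = k + 1) ∨ (g (v, 0) = k + 1 ∧ g (v, 1) = k))
    · obtain ⟨v, hv, hvk⟩ := hex
      -- a vertex with these heights is the vertex of `x`
      have hvx : ∀ w, (s w).isX = true →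
          ((g (w, 0) = k ∧ g (w, 1) = k + 1) ∨ (g (w, 0) = k + 1 ∧ g (w, 1) = k)) →
          w = x.1 := by
        intro w hw hwk
        rcases hwk with ⟨h1, _⟩ | ⟨_, h1⟩
        · rcases hg.inj x (w, 0) hx hw (hgx.trans h1.symm) with h2 | h2
          · exact congrArg Prod.fst h2
          · exact congrArg Prod.fst h2
        · rcases hg.inj x (w, 1) hx hw (hgx.trans h1.symm) with h2 | h2
          · exact congrArg Prod.fst h2
          · exact congrArg Prod.fst h2
      have hpat : pat s (fun z => Equiv.swap k (k + 1) (g z)) =
          update (pat s g) v (pat s g v).sw := by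
        funext w
        by_cases hwv : w = v
        · subst hwv
          rw [update_self]
          unfold pat
          rw [if_pos hv, if_pos hv]
          simp only [or_swap' hvk]
          by_cases h1 : g (w, 0) < g (w, 1)
          · rw [if_neg (not_not.2 h1), if_pos h1]
            rfl
          · rw [if_pos h1, if_neg h1]
            rfl
        · rw [update_of_ne hwv]
          unfold pat
          by_cases hw : (s w).isX = true
          · rw [if_pos hw, if_pos hw]
            have h1 : ¬ ((g (w, 0) = k ∧ g (w, 1) = k + 1) ∨
                (g (w, 0) = k + 1 ∧ g (w, 1) = k)) := by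
              intro h2
              exact hwv ((hvx w hw h2).trans (hvx v hv hvk).symm)
            simp only [or_swap (or_ne hg hw) (fun h2 => h1 (Or.inl h2))
              (fun h2 => h1 (Or.inr h2))]
          · rw [if_neg hw, if_neg hw]
      have hcomp : ∀ (a b : Dart V), isC s a → isC s b → g a = g b → Comp S s a b := by
        intro a b ha hb hab
        rcases hg.inj a b ha hb hab with h1 | h1
        · rw [h1]
          exact Relation.EqvGen.refl _
        · exact Relation.EqvGen.rel _ _ (Or.inr h1)
      have hc : Comp S s (v, 0) (v, 1) := by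
        rcases hvk with ⟨h1, h2⟩ | ⟨h1, h2⟩
        · exact Relation.EqvGen.trans _ _ _ (hcomp (v, 0) x hv hx (h1.trans hgx.symm))
            (Relation.EqvGen.trans _ _ _ hxy (hcomp y (v, 1) hy hv (hgy.trans h2.symm)))
        · exact Relation.EqvGen.symm _ _
            (Relation.EqvGen.trans _ _ _ (hcomp (v, 1) x hv hx (h2.trans hgx.symm))
            (Relation.EqvGen.trans _ _ _ hxy (hcomp y (v, 0) hy hv (hgy.trans h1.symm))))
      have ha : g (v, 1) = g (v, 0) + 1 ∨ g (v, 0) = g (v, 1) + 1 := by
        rcases hvk with ⟨h1, h2⟩ | ⟨h1, h2⟩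
        · left
          rw [h1, h2]
        · right
          rw [h1, h2]
      have hpv : (pat s g v).isX = true := by
        rw [(or_ss (pat_sameShape s g v)).1]
        exact hv
      have h1 := hskein (pat s g) (or_below (pat_sameShape s g)) v hpv
      unfold SkeinAt at h1
      rw [← hpat, or_pat_upd s g v rfl, or_pat_upd s g v rfl,
        hlow' (update s v St.smA) (or_upd hv _) (or_lt hv rfl) g
          (sweep_smooth hg v hv hc ha St.smA rfl),
        hlow' (update s v St.smB) (or_upd hv _) (or_lt hv rfl) g
          (sweep_smooth hg v hv hc ha St.smB rfl), hPg'] at h1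
      obtain ⟨c, hcc⟩ : ∃ c, comps S s = c + 1 := ⟨comps S s - 1, by
        have := or_comps_pos S s v
        omega⟩
      have h2 : z * (mu ^ (comps S (update s v St.smA) - 1) +
          mu ^ (comps S (update s v St.smB) - 1)) = 2 * mu ^ (comps S s - 1) := by
        rw [← hz]
        rcases comps_self S s v hv hc with ⟨e1, e2⟩ | ⟨e1, e2⟩
        · rw [e1, e2, hcc, Nat.add_sub_cancel, Nat.add_sub_cancel, pow_succ]
          ring
        · rw [e1, e2, hcc, Nat.add_sub_cancel, Nat.add_sub_cancel, pow_succ]
          ring
      rw [h2] at h1
      linear_combination h1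
    · have h1 : pat s (fun z => Equiv.swap k (k + 1) (g z)) = pat s g := by
        funext w
        unfold pat
        by_cases hw : (s w).isX = true
        · rw [if_pos hw, if_pos hw]
          simp only [or_swap (or_ne hg hw) (fun h2 => hex ⟨w, hw, Or.inl h2⟩)
            (fun h2 => hex ⟨w, hw, Or.inr h2⟩)]
        · rw [if_neg hw, if_neg hw]
      rw [h1]
      exact hPg'

end Pool.Agent.Helper65.LK
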