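import Pool.Agent.Helper65.LK.Steinitz
import Pool.Agent.Helper65.LK.Move3
import Pool.Agent.Helper65.LK.Ordered
import Pool.Agent.Helper65.LK.IsoPlanar

/-!
# LK-25. Skein functions for different orders of the components agree; existence

`Low n` : every planar diagram with fewer than `n` crossings has a skein function.

`agree_pure`: all vertices are crossings.  Let `n = card V`.  Apply `steinitz` to the property `P S`: for all
states `s` without smoothed vertices, all sweeps `h, h'` and all skein functions `F, F'` of `(S, s)` for
`SameOrd S s h` and `SameOrd S s h'`: `F s = F' s`.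
`h1`: `skein_R1` for `F` and for `F'`; the values on `update s v (turn i)` are equal by `unique_low`.
`h2`: there is a state `t` of the same shape as `s` with `(t v).upper i = (t w).upper (j+1)`; for it
`skein_R2` (`nice_sameOrd`) and `unique_low` give `F t = F' t`, and `IsSkein.alt` gives `F s = F' s`.
`h3`: choose `t` of the same shape which is admissible for the triangle (`Tri S t ..` holds, the arcs of a
pure diagram are its edges); let `G, G'` be skein functions on `S' = S.conj π` for the orders of
`fun x => h (π x)` and `fun x => h' (π x)` (`exists_ordered`, from `Low n` and the planarity of `S'`,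
`Tri.sweep`).  By `skein_R3` `F t = G t`, `F' t = G' t`, and `G t = G' t` by `P S'`; so `F t = F' t` and `F s = F' s` by
`IsSkein.alt`.

`agree`: let `(S, s)` be planar.  If `s` has no crossings, `F s = mu ^ (comps S s - 1) = F' s` (`pat s h = s`).
Otherwise let `e : DMap S s S' s'` be as in `exists_pure`; `h, h'` are transported to `g, g'` on `S'`
(`DMap.sweep`), there are skein functions `G, G'` for `SameOrd S' s' g`, `SameOrd S' s' g'`
(`exists_ordered`, `Planar.iso`, `Planar.below`), `F s = mu ^ k * G s'`, `F' s = mu ^ k * G' s'` by `iso_eq`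
(`comps S' s' ≠ 0` as there is a crossing), and `G s' = G' s'` by `agree_pure`.

`exists_skein`: induction on `nX s`: `Low n` for `n = nX s`; take `F` from `exists_ordered` for one sweep
`h`.  For every other sweep `h'` let `F'` be from `exists_ordered` for `h'`; `agree` at the state `pat s h'`
(which has the same shape as `s`; use `IsSkein.sameShape`) gives
`F (pat s h') = F' (pat s h') = mu ^ (comps S s - 1)`.
-/

namespace Pool.Agent.Helper65.LK

open Function

variable {R : Type} [CommRing R]

/-- every planar diagram with fewer than `n` crossings has a skein function -/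
def Low (z mu : R) (n : ℕ) : Prop :=
  ∀ (V : Type) [Fintype V] [DecidableEq V] (S : Shadow V) (s : V → St), Planar S s → nX s < n →
    ∃ F : (V → St) → R, IsSkein z mu S s F (fun _ => True)

variable {z mu : R}

private lemma ag_turn (i : ZMod 4) : (St.turn i).isX = false := by
  unfold St.turn
  split <;> rfl

private lemma ag_upper_sw {q : St} (hq : q.isX = true) (i : ZMod 4) :
    q.sw.upper i = !(q.upper i) := by
  revert i
  cases q
  · decide
  · decide
  · cases hq
  · cases hq

private lemma ag_below_refl {V : Type} (s : V → St) : Below s s := fun _ _ => rfl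

private lemma ag_below {V : Type} [DecidableEq V] {t s : V → St} (ht : Below t s) (v : V)
    (hv : (s v).isX = true) (q : St) : Below (update t v q) s := by
  intro w hw
  have hne : w ≠ v := by
    rintro rfl
    rw [hv] at hw
    cases hw
  rw [update_of_ne hne]
  exact ht w hw

private lemma ag_nX {V : Type} [Fintype V] [DecidableEq V] (t : V → St) (v : V)
    (hv : (t v).isX = true) (q : St) (hq : q.isX = false) : nX (update t v q) < nX t := by
  unfold nX
  refine Finset.card_lt_card ⟨fun w hw => ?_, fun hsub => ?_⟩
  · rw [Finset.mem_filter] at hw ⊢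
    refine ⟨Finset.mem_univ _, ?_⟩
    by_cases hwv : w = v
    · rw [hwv]
      exact hv
    · rw [update_of_ne hwv] at hw
      exact hw.2
  · have h1 := hsub (Finset.mem_filter.2 ⟨Finset.mem_univ v, hv⟩)
    rw [Finset.mem_filter, update_self, hq] at h1
    cases h1.2

private lemma ag_shape_sw {V : Type} [DecidableEq V] (s : V → St) (v : V) :
    SameShape (update s v (s v).sw) s := by
  intro w
  by_cases hw : w = v
  · subst hw
    rw [update_self]
    cases s w <;> rfl
  · rw [update_of_ne hw]

private lemma ag_shape_refl {V : Type} (s : V → St) : SameShape s s := fun _ => rfl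

private lemma ag_shape_isX {V : Type} {t s : V → St} (h : SameShape t s) (v : V) :
    (t v).isX = (s v).isX := by
  have h1 := h v
  revert h1
  generalize t v = a
  generalize s v = b
  cases a <;> cases b <;> simp [St.shape, St.isX]

private lemma ag_planar {V : Type} [Fintype V] [DecidableEq V] {S : Shadow V} {t s : V → St}
    (h : SameShape t s) : Planar S t ↔ Planar S s := by
  obtain ⟨-, -, -, h1, -, -, h2⟩ := sweep_sameShape (S := S) h (fun _ => 0)
  unfold Planar pieces
  rw [h1, h2]

private lemma ag_planarP {V : Type} [Fintype V] [DecidableEq V] {S : Shadow V} {s : V → St}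
    (hX : ∀ v, (s v).isX = true) : Planar S s ↔ PlanarP S := by
  unfold PlanarP
  apply ag_planar
  intro v
  have := hX v
  revert this
  generalize s v = a
  cases a <;> simp [St.shape, St.isX]

private lemma ag_ord {V : Type} [Fintype V] [DecidableEq V] {S : Shadow V} {t s : V → St}
    (h : SameShape t s) (g : Dart V → ℕ) : SameOrd S t g = SameOrd S s g :=
  funext fun g' => propext ((sweep_sameShape (S := S) h g).2.2.2.2.1 g')

private lemma ag_skein {V : Type} [Fintype V] [DecidableEq V] {S : Shadow V} {t s : V → St}
    {F : (V → St) → R} {g : Dart V → ℕ} (hF : IsSkein z mu S s F (SameOrd S s g))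
    (h : SameShape t s) : IsSkein z mu S t F (SameOrd S t g) := by
  rw [ag_ord h]
  exact hF.sameShape h

private lemma ag_sweep {V : Type} [Fintype V] [DecidableEq V] {S : Shadow V} {t s : V → St}
    {g : Dart V → ℕ} (hs : Sweep S s g) (h : SameShape t s) : Sweep S t g :=
  (sweep_sameShape (S := S) h g).1.2 hs

private lemma ag_low {V : Type} [Fintype V] [DecidableEq V] {S : Shadow V} {s : V → St}
    (hp : Planar S s) {n : ℕ} (hlow : Low z mu n) (hn : nX s ≤ n) (t : V → St)
    (ht : Below t s) (h : nX t < nX s) :
    ∃ F : (V → St) → R, IsSkein z mu S t F (fun _ => True) :=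
  hlow V S t (hp.below ht) (lt_of_lt_of_le h hn)

theorem agree_pure (hz : z * (mu + 1) = 2) {V : Type} [Fintype V] [DecidableEq V]
    (S : Shadow V) (s : V → St) (hX : ∀ v, (s v).isX = true) (hp : Planar S s)
    (hlow : Low z mu (nX s)) {h h' : Dart V → ℕ} (hs : Sweep S s h) (hs' : Sweep S s h')
    {F F' : (V → St) → R} (hF : IsSkein z mu S s F (SameOrd S s h))
    (hF' : IsSkein z mu S s F' (SameOrd S s h')) : F s = F' s := by
  rcases isEmpty_or_nonempty V with hV | hV
  · have e1 : pat s h = s := funext fun v => hV.elim v
    have e2 : pat s h' = s := funext fun v => hV.elim v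
    have h1 := hF.top h hs (SameOrd.refl S s h)
    have h2 := hF'.top h' hs' (SameOrd.refl S s h')
    rw [e1] at h1
    rw [e2] at h2
    rw [h1, h2]
  · have hcard : ∀ t : V → St, (∀ v, (t v).isX = true) → nX t = Fintype.card V := by
      intro t ht
      unfold nX
      rw [Finset.filter_true_of_mem (fun v _ => ht v), Finset.card_univ]
    rw [hcard s hX] at hlow
    have key : ∀ (s : V → St), (∀ v, (s v).isX = true) → ∀ (h h' : Dart V → ℕ),
        Sweep S s h → Sweep S s h' → ∀ (F F' : (V → St) → R),
        IsSkein z mu S s F (SameOrd S s h) → IsSkein z mu S s F' (SameOrd S s h') →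
        F s = F' s := by
      refine steinitz (fun S => ∀ (s : V → St), (∀ v, (s v).isX = true) →
        ∀ (h h' : Dart V → ℕ), Sweep S s h → Sweep S s h' → ∀ (F F' : (V → St) → R),
        IsSkein z mu S s F (SameOrd S s h) → IsSkein z mu S s F' (SameOrd S s h') →
        F s = F' s) ?_ ?_ ?_ S ((ag_planarP hX).1 hp)
      · -- a monogon
        intro S hpS hM s hX h h' hs hs' F F' hF hF'
        obtain ⟨v, i, hvi⟩ := hM
        have ha : Arc S s (v, i) (v, i + 1) := Relation.EqvGen.rel _ _ (Or.inl hvi.symm)
        rw [skein_R1 hz hF ⟨h, hs, SameOrd.refl S s h⟩ v i (hX v) ha,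
          skein_R1 hz hF' ⟨h', hs', SameOrd.refl S s h'⟩ v i (hX v) ha]
        exact hF.unique_low hF' (ag_below (ag_below_refl s) v (hX v) _)
          (ag_nX s v (hX v) _ (ag_turn i))
      · -- a bigon
        intro S hpS hB s hX h h' hs hs' F F' hF hF'
        obtain ⟨v, w, i, j, hvw, h1, h2⟩ := hB
        obtain ⟨t, ht, hup⟩ : ∃ t : V → St, SameShape t s ∧
            (t v).upper i = (t w).upper (j + 1) := by
          by_cases hc : (s v).upper i = (s w).upper (j + 1)
          · exact ⟨s, ag_shape_refl s, hc⟩
          · refine ⟨update s v (s v).sw, ag_shape_sw s v, ?_⟩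
            rw [update_self, update_of_ne hvw.symm, ag_upper_sw (hX v)]
            revert hc
            cases (s v).upper i <;> cases (s w).upper (j + 1) <;> simp
        have hXt : ∀ v, (t v).isX = true := fun v => by rw [ag_shape_isX ht]; exact hX v
        have hFt := ag_skein hF ht
        have hFt' := ag_skein hF' ht
        have hst := ag_sweep hs ht
        have hst' := ag_sweep hs' ht
        have a1 : Arc S t (v, i) (w, j + 1) := Relation.EqvGen.rel _ _ (Or.inl h1.symm)
        have a2 : Arc S t (v, i + 1) (w, j) := Relation.EqvGen.rel _ _ (Or.inl h2.symm)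
        have e1 := skein_R2 hz hFt (nice_sameOrd hst) v w i j hvw (hXt v) (hXt w) a1 a2 hup
        have e2 := skein_R2 hz hFt' (nice_sameOrd hst') v w i j hvw (hXt v) (hXt w) a1 a2 hup
        have hb := ag_below (ag_below (ag_below_refl t) v (hXt v) (St.turn i)) w (hXt w)
          (St.turn j)
        have hn : nX (update (update t v (St.turn i)) w (St.turn j)) < nX t := by
          refine lt_trans (ag_nX _ w ?_ _ (ag_turn j)) (ag_nX t v (hXt v) _ (ag_turn i))
          rw [update_of_ne hvw.symm]
          exact hXt w
        have e3 : F t = F' t := by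
          rw [e1, e2]
          exact hFt.unique_low hFt' hb hn
        exact hF.alt hF' ht e3 (ag_shape_refl s)
      · -- a triangle
        intro S u v w i j k hpS hT hpS' ih s hX h h' hs hs' F F' hF hF'
        obtain ⟨t, ht, hadm⟩ : ∃ t : V → St, SameShape t s ∧
            (t u).upper (i + 1) ≠ (t v).upper (j + 1) := by
          by_cases hc : (s u).upper (i + 1) = (s v).upper (j + 1)
          · refine ⟨update s u (s u).sw, ag_shape_sw s u, ?_⟩
            rw [update_self, update_of_ne hT.uv.symm, ag_upper_sw (hX u), hc]
            cases (s v).upper (j + 1) <;> simp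
          · exact ⟨s, ag_shape_refl s, hc⟩
        have hXt : ∀ v, (t v).isX = true := fun v => by rw [ag_shape_isX ht]; exact hX v
        have hFt := ag_skein hF ht
        have hFt' := ag_skein hF' ht
        have hst := ag_sweep hs ht
        have hst' := ag_sweep hs' ht
        have T : Tri S t u i v j w k :=
          ⟨hT.uv, hT.vw, hT.wu, hXt u, hXt v, hXt w,
            Relation.EqvGen.rel _ _ (Or.inl hT.a1.symm),
            Relation.EqvGen.rel _ _ (Or.inl hT.a2.symm),
            Relation.EqvGen.rel _ _ (Or.inl hT.a3.symm)⟩
        have hpt : Planar (S.conj (tri u i v j w k)) t := (ag_planarP hXt).2 hpS'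
        have hlow' := ag_low hpt hlow (hcard t hXt).le
        obtain ⟨G, hG⟩ := exists_ordered hz (S.conj (tri u i v j w k)) t hlow' _ (T.sweep hst)
        obtain ⟨G', hG'⟩ := exists_ordered hz (S.conj (tri u i v j w k)) t hlow' _
          (T.sweep hst')
        have e1 := skein_R3 hz T (fun hh => hadm hh.1) hst (fun g hg => hg) (fun g hg => hg)
          hFt hG
        have e2 := skein_R3 hz T (fun hh => hadm hh.1) hst' (fun g hg => hg) (fun g hg => hg)
          hFt' hG'
        have e3 := ih t hXt _ _ (T.sweep hst) (T.sweep hst') G G' hG hG'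
        have e4 : F t = F' t := by rw [e1, e2, e3]
        exact hF.alt hF' ht e4 (ag_shape_refl s)
    exact key s hX h h' hs hs' F F' hF hF'

theorem agree (hz : z * (mu + 1) = 2) {V : Type} [Fintype V] [DecidableEq V]
    (S : Shadow V) (s : V → St) (hp : Planar S s)
    (hlow : Low z mu (nX s)) {h h' : Dart V → ℕ} (hs : Sweep S s h) (hs' : Sweep S s h')
    {F F' : (V → St) → R} (hF : IsSkein z mu S s F (SameOrd S s h))
    (hF' : IsSkein z mu S s F' (SameOrd S s h')) : F s = F' s := by
  by_cases hc : ∃ v, (s v).isX = true
  · obtain ⟨v0, hv0⟩ := hc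
    obtain ⟨S', e, he, k, hk⟩ := exists_pure S s
    have hX' : ∀ v : {v : V // (s v).isX = true}, (s v.1).isX = true := fun v => v.2
    have hn : nX (fun v : {v : V // (s v).isX = true} => s v.1) = nX s := by
      unfold nX
      rw [Finset.filter_true_of_mem (fun v _ => hX' v), Finset.card_univ,
        Fintype.card_subtype]
    have hh : ∀ (g : Dart V → ℕ) (x : {x : Dart V // isC s x}),
        (fun y : Dart {v : V // (s v).isX = true} => g (y.1.1, y.2)) (e.φ x).1 = g x.1 := by
      intro g x
      simp only
      rw [he x]
    have hp' : Planar S' (fun v => s v.1) := Planar.iso e hp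
    have hlow' := ag_low hp' hlow hn.le
    have hg : Sweep S' (fun v => s v.1) (fun y => h (y.1.1, y.2)) := e.sweep (hh h) hs
    have hg' : Sweep S' (fun v => s v.1) (fun y => h' (y.1.1, y.2)) := e.sweep (hh h') hs'
    obtain ⟨G, hG⟩ := exists_ordered hz S' (fun v => s v.1) hlow' _ hg
    obtain ⟨G', hG'⟩ := exists_ordered hz S' (fun v => s v.1) hlow' _ hg'
    have hc0 : comps S' (fun v => s v.1) ≠ 0 := by
      unfold comps classes
      have : Nonempty (Quotient (Relation.EqvGen.setoid
          fun x y : Dart {v : V // (s v).isX = true} =>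
            y = S'.α x ∨ y = tau (fun v => s v.1) x)) :=
        ⟨Quotient.mk _ (⟨v0, hv0⟩, 0)⟩
      exact Nat.card_pos.ne'
    rw [iso_eq e hk (Or.inr hc0) hF hG (hh h) hs (SameOrd.refl _ _ _) (SameOrd.refl _ _ _),
      iso_eq e hk (Or.inr hc0) hF' hG' (hh h') hs' (SameOrd.refl _ _ _) (SameOrd.refl _ _ _)]
    rw [agree_pure hz S' (fun v => s v.1) hX' hp' (by rw [hn]; exact hlow) hg hg' hG hG']
  · have hno : ∀ v, ¬ (s v).isX = true := fun v hv => hc ⟨v, hv⟩
    have e1 : pat s h = s := by
      funext v
      unfold pat
      rw [if_neg (hno v)]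
    have e2 : pat s h' = s := by
      funext v
      unfold pat
      rw [if_neg (hno v)]
    have h1 := hF.top h hs (SameOrd.refl S s h)
    have h2 := hF'.top h' hs' (SameOrd.refl S s h')
    rw [e1] at h1
    rw [e2] at h2
    rw [h1, h2]

private lemma ag_step (hz : z * (mu + 1) = 2) {V : Type} [Fintype V] [DecidableEq V]
    (S : Shadow V) (s : V → St) (hp : Planar S s) (hlow : Low z mu (nX s)) :
    ∃ F : (V → St) → R, IsSkein z mu S s F (fun _ => True) := by
  obtain ⟨h, hs⟩ := exists_sweep S s
  have hlow' := ag_low hp hlow le_rfl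
  obtain ⟨F, hF⟩ := exists_ordered hz S s hlow' h hs
  refine ⟨F, hF.skein, hF.low, ?_⟩
  intro h' hs' _
  obtain ⟨F', hF'⟩ := exists_ordered hz S s hlow' h' hs'
  have hsh := pat_sameShape s h'
  have hn : nX (pat s h') = nX s := (sweep_sameShape (S := S) hsh h).2.2.2.1
  have e := agree hz S (pat s h') ((ag_planar hsh).2 hp) (by rw [hn]; exact hlow)
    (ag_sweep hs hsh) (ag_sweep hs' hsh) (ag_skein hF hsh) (ag_skein hF' hsh)
  rw [e]
  exact hF'.top h' hs' (SameOrd.refl S s h')

theorem exists_skein (hz : z * (mu + 1) = 2) {V : Type} [Fintype V] [DecidableEq V]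
    (S : Shadow V) (s : V → St) (hp : Planar S s) :
    ∃ F : (V → St) → R, IsSkein z mu S s F (fun _ => True) := by
  have key : ∀ n : ℕ, Low z mu n := by
    intro n
    induction n with
    | zero =>
      intro V _ _ S s _ h
      exact absurd h (Nat.not_lt_zero _)
    | succ n ih =>
      intro V _ _ S s hp h
      rcases Nat.lt_succ_iff_lt_or_eq.1 h with h1 | h1
      · exact ih V S s hp h1
      · exact ag_step hz S s hp (by rw [h1]; exact ih)
  exact ag_step hz S s hp (key _)

end Pool.Agent.Helper65.LK
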