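import Pool.Agent.Helper65.LK.Skein

/-!
# LK-01. Every arc outside `U` has exactly two ends

Proof.  Let `θ x = tau s x` if `x.1 ∉ U` and `θ x = x` if `x.1 ∈ U`; `θ` and `α = S.α` are
involutions, `α` has no fixed point, and the fixed points of `θ` are the darts in `U` (`St.mate_ne`).
`EqvGen (arcRel U S s)` is the orbit relation of the group generated by `α, θ`.  Let `P = θ α`
(a permutation of a finite set), `x` with `θ x = x` and `m ≥ 1` the period of `x` under `P`.
`α P α = P⁻¹ = θ P θ`, `α x = α θ x = P⁻¹ x`; so the orbit of `x` is `{P ^ k x}`, because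
`θ P ^ k x = P ^ (-k) x` and `α P ^ k x = P ^ (-k) α x = P ^ (-k-1) x`.
`θ` fixes `P ^ k x` iff `P ^ (2k) x = x` iff `m ∣ 2 k`; `α` has no fixed point, hence
`P ^ (2 k + 1) x ≠ x` for all `k`, so `m` is even and the fixed points of `θ` in the orbit are
`x` and `P ^ (m / 2) x ≠ x`.
-/

namespace Pool.Agent.Helper65.LK

variable {V : Type} [Fintype V]

open Relation

/-- the involution which is the identity on `U` -/
private noncomputable def theta (U : V → Prop) (s : V → St) (x : Dart V) : Dart V := by
  classical
  exact if U x.1 then x else tau s x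

omit [Fintype V] in
private theorem theta_pos {U : V → Prop} {s : V → St} {x : Dart V} (h : U x.1) :
    theta U s x = x := by
  unfold theta
  rw [if_pos h]

omit [Fintype V] in
private theorem theta_neg {U : V → Prop} {s : V → St} {x : Dart V} (h : ¬ U x.1) :
    theta U s x = tau s x := by
  unfold theta
  rw [if_neg h]

omit [Fintype V] in
private theorem tau_tau (s : V → St) (x : Dart V) : tau s (tau s x) = x := by
  change (x.1, (s x.1).mate ((s x.1).mate x.2)) = x
  rw [St.mate_mate]

omit [Fintype V] in
private theorem tau_fst (s : V → St) (x : Dart V) : (tau s x).1 = x.1 := rfl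

omit [Fintype V] in
private theorem tau_ne (s : V → St) (x : Dart V) : tau s x ≠ x := by
  intro h
  have h2 := congrArg Prod.snd h
  exact St.mate_ne (s x.1) x.2 h2

omit [Fintype V] in
private theorem theta_theta (U : V → Prop) (s : V → St) (x : Dart V) :
    theta U s (theta U s x) = x := by
  by_cases h : U x.1
  · rw [theta_pos h, theta_pos h]
  · rw [theta_neg h, theta_neg (by rwa [tau_fst]), tau_tau]

omit [Fintype V] in
private theorem theta_fix {U : V → Prop} {s : V → St} {x : Dart V} :
    theta U s x = x ↔ U x.1 := by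
  constructor
  · intro h
    by_contra hU
    rw [theta_neg hU] at h
    exact tau_ne s x h
  · exact theta_pos

/-- the involution as a permutation -/
private noncomputable def thetaP (U : V → Prop) (s : V → St) : Equiv.Perm (Dart V) where
  toFun := theta U s
  invFun := theta U s
  left_inv := theta_theta U s
  right_inv := theta_theta U s

/-- the composition -/
private noncomputable def PP (U : V → Prop) (S : Shadow V) (s : V → St) : Equiv.Perm (Dart V) :=
  thetaP U s * S.α

omit [Fintype V] in
private theorem PP_apply (U : V → Prop) (S : Shadow V) (s : V → St) (x : Dart V) :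
    PP U S s x = theta U s (S.α x) := rfl

omit [Fintype V] in
private theorem PP_inv_apply (U : V → Prop) (S : Shadow V) (s : V → St) (x : Dart V) :
    (PP U S s)⁻¹ x = S.α (theta U s x) := by
  rw [Equiv.Perm.inv_eq_iff_eq, PP_apply, S.invol, theta_theta]

omit [Fintype V] in
private theorem theta_zpow (U : V → Prop) (S : Shadow V) (s : V → St) {x : Dart V} (hx : U x.1)
    (k : ℤ) : theta U s ((PP U S s ^ k) x) = (PP U S s ^ (-k)) x := by
  have key : ∀ y : Dart V, ∀ k : ℕ, theta U s ((PP U S s ^ k) y) =
      ((PP U S s)⁻¹ ^ k) (theta U s y) := by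
    intro y k
    induction k with
    | zero => rfl
    | succ k ih =>
      rw [pow_succ', Equiv.Perm.mul_apply, PP_apply, theta_theta, pow_succ', Equiv.Perm.mul_apply,
        ← ih, PP_inv_apply, theta_theta]
  rcases k with k | k
  · rw [Int.ofNat_eq_natCast, zpow_natCast, key, theta_pos hx, zpow_neg, zpow_natCast, inv_pow]
  · rw [zpow_negSucc, Int.neg_negSucc, zpow_natCast]
    have h := key x (k + 1)
    rw [theta_pos hx] at h
    rw [← inv_pow, ← h, theta_theta]

omit [Fintype V] in
private theorem alpha_zpow (U : V → Prop) (S : Shadow V) (s : V → St) {x : Dart V} (hx : U x.1)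
    (k : ℤ) : S.α ((PP U S s ^ k) x) = (PP U S s ^ (-k - 1)) x := by
  have h1 : S.α ((PP U S s ^ k) x) = theta U s ((PP U S s ^ (k + 1)) x) := by
    rw [add_comm, zpow_add, zpow_one, Equiv.Perm.mul_apply, PP_apply, theta_theta]
  rw [h1, theta_zpow U S s hx]
  congr 2
  ring

omit [Fintype V] in
private theorem step_alpha (U : V → Prop) (S : Shadow V) (s : V → St) (x : Dart V) :
    EqvGen (arcRel U S s) x (S.α x) := EqvGen.rel _ _ (Or.inl rfl)

omit [Fintype V] in
private theorem step_theta (U : V → Prop) (S : Shadow V) (s : V → St) (x : Dart V) :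
    EqvGen (arcRel U S s) x (theta U s x) := by
  by_cases h : U x.1
  · rw [theta_pos h]; exact EqvGen.refl _
  · rw [theta_neg h]; exact EqvGen.rel _ _ (Or.inr ⟨h, rfl⟩)

omit [Fintype V] in
private theorem rel_zpow (U : V → Prop) (S : Shadow V) (s : V → St) (x : Dart V)
    (k : ℤ) : EqvGen (arcRel U S s) x ((PP U S s ^ k) x) := by
  have h1 : ∀ y, EqvGen (arcRel U S s) y (PP U S s y) := fun y =>
    EqvGen.trans _ _ _ (step_alpha U S s y) (step_theta U S s _)
  have h2 : ∀ y, EqvGen (arcRel U S s) y ((PP U S s)⁻¹ y) := fun y => by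
    have := h1 ((PP U S s)⁻¹ y)
    rw [← Equiv.Perm.mul_apply, mul_inv_cancel, Equiv.Perm.one_apply] at this
    exact EqvGen.symm _ _ this
  induction k using Int.induction_on with
  | zero => exact EqvGen.refl _
  | succ k ih =>
    rw [add_comm, zpow_add, zpow_one, Equiv.Perm.mul_apply]
    exact EqvGen.trans _ _ _ ih (h1 _)
  | pred k ih =>
    rw [sub_eq_neg_add, zpow_add, zpow_neg_one, Equiv.Perm.mul_apply]
    exact EqvGen.trans _ _ _ ih (h2 _)

omit [Fintype V] in
private theorem mem_orbit (U : V → Prop) (S : Shadow V) (s : V → St) {x : Dart V} (hx : U x.1)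
    {a b : Dart V} (h : EqvGen (arcRel U S s) a b) :
    (∃ k : ℤ, a = (PP U S s ^ k) x) ↔ (∃ k : ℤ, b = (PP U S s ^ k) x) := by
  induction h with
  | rel a b hab =>
    rcases hab with hab | ⟨hU, hab⟩
    · constructor
      · rintro ⟨k, rfl⟩
        exact ⟨-k - 1, by rw [hab, alpha_zpow U S s hx]⟩
      · rintro ⟨k, hk⟩
        refine ⟨-k - 1, ?_⟩
        rw [← alpha_zpow U S s hx, ← hk, hab, S.invol]
    · rw [← theta_neg (U := U) hU] at hab
      constructor
      · rintro ⟨k, rfl⟩
        exact ⟨-k, by rw [hab, theta_zpow U S s hx]⟩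
      · rintro ⟨k, hk⟩
        refine ⟨-k, ?_⟩
        rw [← theta_zpow U S s hx, ← hk, hab, theta_theta]
  | refl a => exact Iff.rfl
  | symm a b _ ih => exact ih.symm
  | trans a b c _ _ ih1 ih2 => exact ih1.trans ih2

private theorem exists_end (U : V → Prop) (S : Shadow V) (s : V → St) (x : Dart V) (hx : U x.1) :
    ∃ y : Dart V, U y.1 ∧ y ≠ x ∧ EqvGen (arcRel U S s) x y ∧
      ∀ z : Dart V, U z.1 → EqvGen (arcRel U S s) x z → z = x ∨ z = y := by
  classical
  set P := PP U S s with hP
  set m : ℕ := Function.minimalPeriod (P • ·) x with hm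
  have hdvd : ∀ n : ℤ, (P ^ n) x = x ↔ (m : ℤ) ∣ n := fun n =>
    MulAction.zpow_smul_eq_iff_minimalPeriod_dvd (a := P) (b := x) (n := n)
  have hm0 : m ≠ 0 := by
    intro h0
    have h1 : (P ^ (orderOf P : ℤ)) x = x := by
      rw [zpow_natCast, pow_orderOf_eq_one]
      rfl
    rw [hdvd, h0] at h1
    have h2 := orderOf_pos P
    obtain ⟨c, hc⟩ := h1
    rw [Nat.cast_zero, zero_mul] at hc
    omega
  have heven : ∃ n, m = 2 * n := by
    rcases Nat.even_or_odd' m with ⟨c, hc | hc⟩
    · exact ⟨c, hc⟩
    · exfalso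
      apply S.noFix ((P ^ (c : ℤ)) x)
      rw [alpha_zpow U S s hx]
      have h1 : (P ^ ((m : ℤ))) x = x := (hdvd _).mpr (dvd_refl _)
      have h2 : (c : ℤ) = (-(c : ℤ) - 1) + m := by rw [hc]; push_cast; ring
      rw [← hP]
      conv_rhs => rw [h2, zpow_add, Equiv.Perm.mul_apply, h1]
  obtain ⟨n, hn⟩ := heven
  have hn0 : n ≠ 0 := by rintro rfl; exact hm0 hn
  refine ⟨(P ^ (n : ℤ)) x, ?_, ?_, rel_zpow U S s x n, ?_⟩
  · rw [← theta_fix (U := U) (s := s), theta_zpow U S s hx]
    have h1 : (P ^ ((m : ℤ))) x = x := (hdvd _).mpr (dvd_refl _)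
    have h2 : (n : ℤ) = -(n : ℤ) + m := by rw [hn]; push_cast; ring
    rw [← hP]
    conv_rhs => rw [h2, zpow_add, Equiv.Perm.mul_apply, h1]
  · rw [Ne, hdvd]
    rintro ⟨c, hc⟩
    rw [hn] at hc
    push_cast at hc
    have hn' : (n : ℤ) ≠ 0 := by exact_mod_cast hn0
    have h3 : (n : ℤ) * (2 * c - 1) = 0 := by linear_combination -hc
    rcases mul_eq_zero.mp h3 with h4 | h4
    · exact hn' h4
    · omega
  · intro z hz hxz
    obtain ⟨k, hk⟩ := (mem_orbit U S s hx hxz).mp ⟨0, rfl⟩
    rw [← hP] at hk
    rw [← theta_fix (U := U) (s := s), hk, theta_zpow U S s hx, ← hP] at hz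
    have h5 : (P ^ (2 * k)) x = x := by
      have h6 : (P ^ k) ((P ^ (-k)) x) = (P ^ k) ((P ^ k) x) := by rw [hz]
      rw [← Equiv.Perm.mul_apply, ← zpow_add, ← Equiv.Perm.mul_apply, ← zpow_add] at h6
      rw [two_mul, ← h6]
      simp
    rw [hdvd, hn] at h5
    push_cast at h5
    have h7 : (n : ℤ) ∣ k := by
      obtain ⟨c, hc⟩ := h5
      exact ⟨c, by linarith⟩
    obtain ⟨j, hj⟩ := h7
    rcases Int.even_or_odd' j with ⟨c, hc | hc⟩
    · left
      rw [hk, hdvd]
      exact ⟨c, by rw [hj, hc, hn]; push_cast; ring⟩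
    · right
      rw [hk]
      have h8 : k = (n : ℤ) + m * c := by rw [hj, hc, hn]; push_cast; ring
      have h9 : (P ^ ((m : ℤ) * c)) x = x := (hdvd _).mpr ⟨c, rfl⟩
      rw [h8, zpow_add, Equiv.Perm.mul_apply, h9]

/-- the two ends of an arc outside `U` -/
theorem partner_spec (U : V → Prop) (S : Shadow V) (s : V → St) (x : Dart V) (hx : U x.1) :
    U (partner U S s x).1 ∧ partner U S s x ≠ x ∧
      Relation.EqvGen (arcRel U S s) x (partner U S s x) ∧
      ∀ y : Dart V, U y.1 → Relation.EqvGen (arcRel U S s) x y → y = x ∨ y = partner U S s x := by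
  obtain ⟨y, hy1, hy2, hy3, hy4⟩ := exists_end U S s x hx
  have h : ∃ y : Dart V, U y.1 ∧ y ≠ x ∧ Relation.EqvGen (arcRel U S s) x y := ⟨y, hy1, hy2, hy3⟩
  have hp : partner U S s x = h.choose := by
    unfold partner
    rw [dif_pos h]
  obtain ⟨h1, h2, h3⟩ := h.choose_spec
  have h4 : h.choose = y := by
    rcases hy4 _ h1 h3 with h5 | h5
    · exact absurd h5 h2
    · exact h5
  rw [hp, h4]
  exact ⟨hy1, hy2, hy3, hy4⟩

/-- `y` is the partner of `x` as soon as it is another end of the same arc -/
theorem partner_eq (U : V → Prop) (S : Shadow V) (s : V → St) (x y : Dart V) (hx : U x.1)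
    (hy : U y.1) (hxy : y ≠ x) (h : Relation.EqvGen (arcRel U S s) x y) :
    partner U S s x = y := by
  rcases (partner_spec U S s x hx).2.2.2 y hy h with h1 | h1
  · exact absurd h1 hxy
  · exact h1.symm

theorem partner_partner (U : V → Prop) (S : Shadow V) (s : V → St) (x : Dart V) (hx : U x.1) :
    partner U S s (partner U S s x) = x := by
  obtain ⟨h1, h2, h3, -⟩ := partner_spec U S s x hx
  exact partner_eq U S s _ x h1 hx h2.symm (EqvGen.symm _ _ h3)

/-- if the edge at `x` ends in `U` then its other end is the partner -/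
theorem partner_of_mem (U : V → Prop) (S : Shadow V) (s : V → St) (x : Dart V) (hx : U x.1)
    (h : U (S.α x).1) : partner U S s x = S.α x :=
  partner_eq U S s x _ hx h (S.noFix x) (step_alpha U S s x)

/-- Removing vertices from `U`: the strands run straight through the vertices which belong to `U`
but not to `U'`.  (Proof: `EqvGen (arcRel U S s) ≤ EqvGen (arcRel U' S s)`; start with
`z 0 = x` and put `z (i + 1) = tau s (partner U S s (z i))` as long as the vertex of
`partner U S s (z i)` is not in `U'`.  All `z i` lie in the `U'`-arc of `x`, for `i ≥ 1` the vertex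
of `z i` is in `U` and not in `U'`.  The map `y ↦ tau s (partner U S s y)` is injective
on the darts in `U`, and a repetition `z i = z j`, `i < j`, would by injectivity give
`z (j - i) = z 0 = x`, whose vertex is in `U'`, a contradiction.  So the process stops at some
`m`, and `partner U S s (z m)` is a dart in `U'` in the `U'`-arc of `x`; it is not `x`: otherwise
`z m = partner U S s x`, and going back from both ends (`z (m - i) = partner U S s (z i)` by
induction) one gets `z i = partner U S s (z i)` or `tau s (z i) = z i` in the middle, both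
impossible.) -/
theorem partner_path (U U' : V → Prop) (hU : ∀ v, U' v → U v) (S : Shadow V) (s : V → St)
    (x : Dart V) (hx : U' x.1) :
    ∃ (m : ℕ) (z : ℕ → Dart V), z 0 = x ∧
      (∀ i < m, ¬ U' (partner U S s (z i)).1 ∧ z (i + 1) = tau s (partner U S s (z i))) ∧
      (∀ i ≤ m, U (z i).1) ∧
      partner U' S s x = partner U S s (z m) := by
  classical
  let z : ℕ → Dart V := fun i => Nat.rec x (fun _ y => tau s (partner U S s y)) i
  have hz0 : z 0 = x := rfl
  have hzs : ∀ i, z (i + 1) = tau s (partner U S s (z i)) := fun i => rfl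
  have hzU : ∀ i, U (z i).1 := by
    intro i
    induction i with
    | zero => exact hU _ hx
    | succ i ih =>
      rw [hzs, tau_fst]
      exact (partner_spec U S s _ ih).1
  have hinj : ∀ a b : Dart V, U a.1 → U b.1 →
      tau s (partner U S s a) = tau s (partner U S s b) → a = b := by
    intro a b ha hb h
    have h1 := (tau s).injective h
    rw [← partner_partner U S s a ha, h1, partner_partner U S s b hb]
  have hback : ∀ i j : ℕ, z i = z (i + j) → z 0 = z j := by
    intro i
    induction i with
    | zero => intro j h; rwa [Nat.zero_add] at h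
    | succ i ih =>
      intro j h
      apply ih
      have h2 : i + 1 + j = (i + j) + 1 := by ring
      rw [h2, hzs, hzs] at h
      exact hinj _ _ (hzU _) (hzU _) h
  have hex : ∃ m, U' (partner U S s (z m)).1 := by
    by_contra hcon
    rw [not_exists] at hcon
    obtain ⟨i, j, hij, hzij⟩ := Finite.exists_ne_map_eq_of_infinite z
    have key : ∀ i j : ℕ, i < j → z i = z j → False := by
      intro i j hij hzij
      obtain ⟨d, rfl⟩ : ∃ d, j = i + d := ⟨j - i, by omega⟩
      have h3 := hback i d hzij
      obtain ⟨e, rfl⟩ : ∃ e, d = e + 1 := ⟨d - 1, by omega⟩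
      apply hcon e
      rw [← tau_fst s, ← hzs, ← h3, hz0]
      exact hx
    rcases lt_or_gt_of_ne hij with h | h
    · exact key i j h hzij
    · exact key j i h hzij.symm
  let m := Nat.find hex
  have hm : U' (partner U S s (z m)).1 := Nat.find_spec hex
  have hlt : ∀ i < m, ¬ U' (partner U S s (z i)).1 := fun i hi => Nat.find_min hex hi
  have hmono : ∀ a b, EqvGen (arcRel U S s) a b → EqvGen (arcRel U' S s) a b := by
    intro a b h
    induction h with
    | rel a b hab =>
      rcases hab with hab | ⟨h1, h2⟩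
      · exact EqvGen.rel _ _ (Or.inl hab)
      · exact EqvGen.rel _ _ (Or.inr ⟨fun h3 => h1 (hU _ h3), h2⟩)
    | refl a => exact EqvGen.refl _
    | symm a b _ ih => exact EqvGen.symm _ _ ih
    | trans a b c _ _ ih1 ih2 => exact EqvGen.trans _ _ _ ih1 ih2
  have hpart : ∀ i, EqvGen (arcRel U' S s) (z i) (partner U S s (z i)) := fun i =>
    hmono _ _ (partner_spec U S s _ (hzU i)).2.2.1
  have hrel : ∀ i ≤ m, EqvGen (arcRel U' S s) x (z i) := by
    intro i
    induction i with
    | zero => intro _; exact EqvGen.refl _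
    | succ i ih =>
      intro hi
      refine EqvGen.trans _ _ _ (ih (by omega)) (EqvGen.trans _ _ _ (hpart i) ?_)
      rw [hzs]
      exact EqvGen.rel _ _ (Or.inr ⟨hlt i (by omega), rfl⟩)
  have hne : partner U S s (z m) ≠ x := by
    intro hcon
    have h0 : z m = partner U S s x := by
      rw [← hcon, partner_partner U S s _ (hzU m)]
    have hsym : ∀ i, i ≤ m → z (m - i) = partner U S s (z i) := by
      intro i
      induction i with
      | zero => intro _; rw [Nat.sub_zero, h0, hz0]
      | succ i ih =>
        intro hi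
        have h1 := ih (by omega)
        have h2 : m - i = (m - (i + 1)) + 1 := by omega
        rw [h2, hzs] at h1
        have h3 : partner U S s (z (m - (i + 1))) = z (i + 1) := by
          rw [hzs, ← h1, tau_tau]
        rw [← h3, partner_partner U S s _ (hzU _)]
    rcases Nat.even_or_odd' m with ⟨c, hc | hc⟩
    · have h1 := hsym c (by omega)
      have h2 : m - c = c := by omega
      rw [h2] at h1
      exact (partner_spec U S s _ (hzU c)).2.1 h1.symm
    · have h1 := hsym c (by omega)
      have h2 : m - c = c + 1 := by omega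
      rw [h2, hzs] at h1
      exact tau_ne s _ h1
  exact ⟨m, z, hz0, fun i hi => ⟨hlt i hi, hzs i⟩, fun i _ => hzU i,
    partner_eq U' S s x _ hx hm hne (EqvGen.trans _ _ _ (hrel m le_rfl) (hpart m))⟩

end Pool.Agent.Helper65.LK
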