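import Pool.Agent.Helper65.LK.TIso

/-!
# LK-43. Algebraic diagrams without branching are given by words

`P E C` is a property of the diagrams `E.dia C` which is invariant under isomorphisms and implies that
there are at most two vertical blocks in the cyclic horizontal sum of `E` and `C`, and
at most two horizontal blocks in the vertical one.  Claim: the diagram is `(PW w).dia leaf` for a word `w`.
Write `E ≈ E'` for `TEq E.tg E'.tg` and `isW E` for `∃ w, E ≈ PW w`.  Tools (from `reroot_h`, `reroot_v`,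
`glue_comm`, `glue_rot2`, `tg_rot`):
 (R1) `(h A B).dia C ≅ A.dia (h B C) ≅ B.dia (h C A)`;
 (R2) `(v A B).dia C ≅ A.dia (v C B.rot) ≅ B.dia (v A.rot C)` (the last one by rotating both tangles:
      `(v B.rot A.rot).dia C.rot ≅ B.rot.dia (v C.rot A)`, rotate again).
 (F0) if `hc B = 0` and `isW A` then `isW (h A B)` and `isW (h B A)` (induction on `B` with the associativity;
      `hc B = 0` means that `B` is a `leaf` or `h B₁ B₂` with `hc B₁ = hc B₂ = 0`); in particular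
      `hc B = 0 → isW B`.  The same for `vc`, `v`.
 (K) for `T` with `T = h ..`, `hc T ≤ 1`, and any `C`: `P T C → isW T`;
 (K') for `T` with `T = v ..`, `vc T ≤ 1`, and any `C`: `P T C → isW T`.
  Simultaneous induction on the size.  (K): `hc T = 0`: (F0).  `hc T = 1`, `T = h A B`: if `hc A = 1`, `hc B = 0`: `P A (h B C)`.
  If `A = h ..`, (K) for `A`; if `A = v ..`: `vc A + vc (h B C) = vc A + 1 ≤ 2`, so (K') for `A`.  So `isW A` and `isW T` by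
  (F0).  If `hc A = 0`, `hc B = 1`: `P B (h C A)`, in the same way.  (K') is symmetric, with (R2).
 (M) for `T` with `hc T = 2` and `C` with `hc C = 0`: `P T C → ∃ A B, isW A ∧ isW B ∧ T.dia C ≅ A.dia B`: induction on `T = h A B`:
  `hc A = hc B = 1`: `T.dia C ≅ A.dia (h B C)`; `isW A`: if `A = h ..` by (K), if `A = v ..` then
  `vc A + 1 ≤ 2` (the outer tangle `h B C` counts one horizontal block), (K'); in the same way `isW B`
  from `B.dia (h C A)`, so `isW (h B C)` by (F0).  `hc A = 2`, `hc B = 0`: `T.dia C ≅ A.dia (h B C)`,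
  `hc (h B C) = 0`, induction.  `hc A = 0`, `hc B = 2`: `B.dia (h C A)`.
 (M') the same for `vc` (with (R2); `vc leaf.rot = 0`, `vc B.rot = vc B`, `isW B.rot`).
 (W) `(PW w₁).dia (PW w₂) ≅ (PW w).dia leaf` for some `w`: induction on `w₂`, moving the outermost letter of `w₂` to the
  other side: `E.dia (h F leaf) ≅ (h leaf E).dia F`, `E.dia (h leaf F) ≅ (h E leaf).dia F`,
  `E.dia (v F leaf) ≅ (v E leaf).dia F`, `E.dia (v leaf F) ≅ (v leaf E).dia F`.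
Main proof: first `E.dia C ≅ T.dia leaf` for some `T` (induction on `C`, (R1), (R2)).  If `T = leaf`: `w = []`.  If `T = h ..`:
`hc T ≤ 2`; (K) or (M) with `C = leaf`, and (W).  If `T = v ..`: the same with `vc`.
-/

namespace Pool.Agent.Helper65.LK

theorem cl_R1a (A B C : Ex) : PEq ((Ex.h A B).dia C) (A.dia (Ex.h B C)) :=
  reroot_h A.tg B.tg C.tg

theorem cl_R1b (A B C : Ex) : PEq ((Ex.h A B).dia C) (B.dia (Ex.h C A)) := by
  have h1 : PEq ((Ex.h A B).dia C) (C.dia (Ex.h A B)) := glue_comm _ _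
  have h2 : PEq ((Ex.h C A).dia B) (C.dia (Ex.h A B)) := cl_R1a C A B
  have h3 : PEq ((Ex.h C A).dia B) (B.dia (Ex.h C A)) := glue_comm _ _
  exact (h1.trans h2.symm).trans h3

theorem cl_R2a (A B C : Ex) : PEq ((Ex.v A B).dia C) (A.dia (Ex.v C B.rot)) := by
  have h1 : PEq (glue (vsum A.tg B.tg) C.tg) (glue A.tg (vsum C.tg B.tg.rot2)) :=
    reroot_v A.tg B.tg C.tg
  have h2 : TEq (vsum C.tg B.tg.rot2) (vsum C.tg B.rot.tg) := (TEq.refl C.tg).vsum (tg_rot B)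
  exact h1.trans ((TEq.refl A.tg).glue h2)

theorem cl_R2b (A B C : Ex) : PEq ((Ex.v A B).dia C) (B.dia (Ex.v A.rot C)) := by
  have h1 : PEq (glue (vsum A.tg B.tg) C.tg) (glue (vsum A.tg B.tg).rot2 C.tg.rot2) :=
    (glue_rot2 _ _).symm
  have h2 : PEq (glue (vsum A.tg B.tg).rot2 C.tg.rot2)
      (glue (vsum B.tg.rot2 A.tg.rot2) C.tg.rot2) := (rot2_vsum A.tg B.tg).glue (TEq.refl _)
  have h3 : PEq (glue (vsum B.tg.rot2 A.tg.rot2) C.tg.rot2)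
      (glue B.tg.rot2 (vsum C.tg.rot2 A.tg.rot2.rot2)) := reroot_v _ _ _
  have h4 : PEq (glue B.tg.rot2 (vsum C.tg.rot2 A.tg.rot2.rot2))
      (glue B.tg.rot2.rot2 (vsum C.tg.rot2 A.tg.rot2.rot2).rot2) := (glue_rot2 _ _).symm
  have h5 : TEq (vsum C.tg.rot2 A.tg.rot2.rot2).rot2
      (vsum A.tg.rot2.rot2.rot2 C.tg.rot2.rot2) := rot2_vsum _ _
  have h6 : TEq (vsum A.tg.rot2.rot2.rot2 C.tg.rot2.rot2) (vsum A.rot.tg C.tg) :=
    ((rot2_rot2 A.tg.rot2).trans (tg_rot A)).vsum (rot2_rot2 C.tg)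
  have h7 : PEq (glue B.tg.rot2.rot2 (vsum C.tg.rot2 A.tg.rot2.rot2).rot2)
      (glue B.tg (vsum A.rot.tg C.tg)) := (rot2_rot2 B.tg).glue (h5.trans h6)
  exact (((h1.trans h2).trans h3).trans h4).trans h7

theorem cl_rot_rot : ∀ E : Ex, E.rot.rot = E
  | Ex.leaf => rfl
  | Ex.h A B => by
    show Ex.h A.rot.rot B.rot.rot = Ex.h A B
    rw [cl_rot_rot A, cl_rot_rot B]
  | Ex.v A B => by
    show Ex.v A.rot.rot B.rot.rot = Ex.v A B
    rw [cl_rot_rot A, cl_rot_rot B]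

theorem cl_vc_rot : ∀ E : Ex, E.rot.vc = E.vc
  | Ex.leaf => rfl
  | Ex.h A B => rfl
  | Ex.v A B => by
    show B.rot.vc + A.rot.vc = A.vc + B.vc
    rw [cl_vc_rot A, cl_vc_rot B, add_comm]

/-- the tangle is the tangle of a word -/
def ClW (E : Ex) : Prop := ∃ w : List (ZMod 4), TEq E.tg (PW w).tg

theorem ClW.of_teq {E F : Ex} (h : TEq E.tg F.tg) (hF : ClW F) : ClW E := by
  obtain ⟨w, hw⟩ := hF
  exact ⟨w, h.trans hw⟩

theorem clW_leaf : ClW Ex.leaf := ⟨[], TEq.refl _⟩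

theorem ClW.hr {A : Ex} (h : ClW A) : ClW (Ex.h A Ex.leaf) := by
  obtain ⟨w, hw⟩ := h
  exact ⟨3 :: w, TEq.hsum hw (TEq.refl _)⟩

theorem ClW.hl {A : Ex} (h : ClW A) : ClW (Ex.h Ex.leaf A) := by
  obtain ⟨w, hw⟩ := h
  exact ⟨1 :: w, TEq.hsum (TEq.refl _) hw⟩

theorem ClW.vb {A : Ex} (h : ClW A) : ClW (Ex.v A Ex.leaf) := by
  obtain ⟨w, hw⟩ := h
  exact ⟨2 :: w, TEq.vsum hw (TEq.refl _)⟩

theorem ClW.va {A : Ex} (h : ClW A) : ClW (Ex.v Ex.leaf A) := by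
  obtain ⟨w, hw⟩ := h
  exact ⟨0 :: w, TEq.vsum (TEq.refl _) hw⟩

theorem cl_F0h : ∀ (B A : Ex), B.hc = 0 → ClW A → ClW (Ex.h A B) ∧ ClW (Ex.h B A)
  | Ex.leaf, _, _, hA => ⟨hA.hr, hA.hl⟩
  | Ex.v B₁ B₂, _, hB, _ => by
    have h1 : (Ex.v B₁ B₂).hc = 1 := rfl
    omega
  | Ex.h B₁ B₂, A, hB, hA => by
    have h0 : B₁.hc + B₂.hc = 0 := hB
    have h1 : B₁.hc = 0 := by omega
    have h2 : B₂.hc = 0 := by omega
    constructor
    · have h3 := (cl_F0h B₂ _ h2 (cl_F0h B₁ A h1 hA).1).1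
      exact ClW.of_teq (F := Ex.h (Ex.h A B₁) B₂) (hsum_assoc A.tg B₁.tg B₂.tg).symm h3
    · have h3 := (cl_F0h B₁ _ h1 (cl_F0h B₂ A h2 hA).2).2
      exact ClW.of_teq (F := Ex.h B₁ (Ex.h B₂ A)) (hsum_assoc B₁.tg B₂.tg A.tg) h3

theorem cl_F0v : ∀ (B A : Ex), B.vc = 0 → ClW A → ClW (Ex.v A B) ∧ ClW (Ex.v B A)
  | Ex.leaf, _, _, hA => ⟨hA.vb, hA.va⟩
  | Ex.h B₁ B₂, _, hB, _ => by
    have h1 : (Ex.h B₁ B₂).vc = 1 := rfl
    omega
  | Ex.v B₁ B₂, A, hB, hA => by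
    have h0 : B₁.vc + B₂.vc = 0 := hB
    have h1 : B₁.vc = 0 := by omega
    have h2 : B₂.vc = 0 := by omega
    constructor
    · have h3 := (cl_F0v B₂ _ h2 (cl_F0v B₁ A h1 hA).1).1
      exact ClW.of_teq (F := Ex.v (Ex.v A B₁) B₂) (vsum_assoc A.tg B₁.tg B₂.tg).symm h3
    · have h3 := (cl_F0v B₁ _ h1 (cl_F0v B₂ A h2 hA).2).2
      exact ClW.of_teq (F := Ex.v B₁ (Ex.v B₂ A)) (vsum_assoc B₁.tg B₂.tg A.tg) h3

theorem cl_hc0 : ∀ B : Ex, B.hc = 0 → ClW B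
  | Ex.leaf, _ => clW_leaf
  | Ex.v B₁ B₂, hB => by
    have h1 : (Ex.v B₁ B₂).hc = 1 := rfl
    omega
  | Ex.h B₁ B₂, hB => by
    have h0 : B₁.hc + B₂.hc = 0 := hB
    exact (cl_F0h B₂ B₁ (by omega) (cl_hc0 B₁ (by omega))).1

theorem cl_vc0 : ∀ B : Ex, B.vc = 0 → ClW B
  | Ex.leaf, _ => clW_leaf
  | Ex.h B₁ B₂, hB => by
    have h1 : (Ex.h B₁ B₂).vc = 1 := rfl
    omega
  | Ex.v B₁ B₂, hB => by
    have h0 : B₁.vc + B₂.vc = 0 := hB
    exact (cl_F0v B₂ B₁ (by omega) (cl_vc0 B₁ (by omega))).1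

theorem cl_PW_rot : ∀ w : List (ZMod 4), (PW w).rot = PW (w.map (· + 2))
  | [] => rfl
  | p :: w => by
    have ih := cl_PW_rot w
    show (addLeaf p (PW w)).rot = addLeaf (p + 2) (PW (w.map (· + 2)))
    rw [← ih]
    have h4 : ∀ p : ZMod 4, p = 0 ∨ p = 1 ∨ p = 2 ∨ p = 3 := by decide
    rcases h4 p with rfl | rfl | rfl | rfl
    · rfl
    · rfl
    · rfl
    · rfl

theorem ClW.rot {E : Ex} (h : ClW E) : ClW E.rot := by
  obtain ⟨w, hw⟩ := h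
  refine ⟨w.map (· + 2), ?_⟩
  rw [← cl_PW_rot]
  exact ((tg_rot E).symm.trans hw.rot2).trans (tg_rot (PW w))

/-- moving the letters to the other side -/
theorem cl_W : ∀ (w₂ w₁ : List (ZMod 4)),
    ∃ w : List (ZMod 4), PEq ((PW w₁).dia (PW w₂)) ((PW w).dia Ex.leaf)
  | [], w₁ => ⟨w₁, PEq.refl _⟩
  | p :: w₂, w₁ => by
    have h4 : ∀ p : ZMod 4, p = 0 ∨ p = 1 ∨ p = 2 ∨ p = 3 := by decide
    rcases h4 p with rfl | rfl | rfl | rfl
    · obtain ⟨w, hw⟩ := cl_W w₂ (0 :: w₁)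
      exact ⟨w, (cl_R2b Ex.leaf (PW w₁) (PW w₂)).symm.trans hw⟩
    · obtain ⟨w, hw⟩ := cl_W w₂ (3 :: w₁)
      exact ⟨w, (cl_R1a (PW w₁) Ex.leaf (PW w₂)).symm.trans hw⟩
    · obtain ⟨w, hw⟩ := cl_W w₂ (2 :: w₁)
      exact ⟨w, (cl_R2a (PW w₁) Ex.leaf (PW w₂)).symm.trans hw⟩
    · obtain ⟨w, hw⟩ := cl_W w₂ (1 :: w₁)
      exact ⟨w, (cl_R1b Ex.leaf (PW w₁) (PW w₂)).symm.trans hw⟩

theorem cl_W2 {A B : Ex} (hA : ClW A) (hB : ClW B) :
    ∃ w : List (ZMod 4), PEq (A.dia B) ((PW w).dia Ex.leaf) := by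
  obtain ⟨w₁, h1⟩ := hA
  obtain ⟨w₂, h2⟩ := hB
  obtain ⟨w, hw⟩ := cl_W w₂ w₁
  exact ⟨w, (h1.glue h2).trans hw⟩

/-- everything to one side -/
theorem cl_left : ∀ (C E : Ex), ∃ T : Ex, PEq (E.dia C) (T.dia Ex.leaf)
  | Ex.leaf, E => ⟨E, PEq.refl _⟩
  | Ex.h C₁ C₂, E => by
    obtain ⟨T, hT⟩ := cl_left C₂ (Ex.h E C₁)
    exact ⟨T, (cl_R1a E C₁ C₂).symm.trans hT⟩
  | Ex.v C₁ C₂, E => by
    obtain ⟨T, hT⟩ := cl_left C₂ (Ex.v C₁.rot E)
    have h1 := cl_R2b C₁.rot E C₂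
    rw [cl_rot_rot] at h1
    exact ⟨T, h1.symm.trans hT⟩

/-- at most one block in the direction of the outermost sum -/
def ClCond : Ex → Prop
  | Ex.leaf => True
  | Ex.h A B => A.hc + B.hc ≤ 1
  | Ex.v A B => A.vc + B.vc ≤ 1

section
variable (P : Ex → Ex → Prop) (h1 : ∀ E C, P E C → E.hc + C.hc ≤ 2)
    (h2 : ∀ E C, P E C → E.vc + C.vc ≤ 2)
    (h3 : ∀ E C E' C', PEq (E.dia C) (E'.dia C') → P E C → P E' C')
include h1 h2

theorem cl_cond_h {A C : Ex} (hP : P A C) (hC : C.vc = 1) (hA : A.hc ≤ 1) : ClCond A := by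
  cases A with
  | leaf => trivial
  | h A₁ A₂ => exact hA
  | v A₁ A₂ =>
    have h4 : (A₁.vc + A₂.vc) + C.vc ≤ 2 := h2 _ _ hP
    show A₁.vc + A₂.vc ≤ 1
    omega

theorem cl_cond_v {A C : Ex} (hP : P A C) (hC : C.hc = 1) (hA : A.vc ≤ 1) : ClCond A := by
  cases A with
  | leaf => trivial
  | v A₁ A₂ => exact hA
  | h A₁ A₂ =>
    have h4 : (A₁.hc + A₂.hc) + C.hc ≤ 2 := h1 _ _ hP
    show A₁.hc + A₂.hc ≤ 1
    omega

include h3

theorem cl_K : ∀ (T C : Ex), P T C → ClCond T → ClW T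
  | Ex.leaf, _, _, _ => clW_leaf
  | Ex.h A B, C, hP, hc => by
    have hc' : A.hc + B.hc ≤ 1 := hc
    have hPA : P A (Ex.h B C) := h3 _ _ _ _ (cl_R1a A B C) hP
    have hPB : P B (Ex.h C A) := h3 _ _ _ _ (cl_R1b A B C) hP
    by_cases hB : B.hc = 0
    · have hA := cl_K A _ hPA (cl_cond_h P h1 h2 hPA rfl (by omega))
      exact (cl_F0h B A hB hA).1
    · have hB' := cl_K B _ hPB (cl_cond_h P h1 h2 hPB rfl (by omega))
      exact (cl_F0h A B (by omega) hB').2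
  | Ex.v A B, C, hP, hc => by
    have hc' : A.vc + B.vc ≤ 1 := hc
    have hPA : P A (Ex.v C B.rot) := h3 _ _ _ _ (cl_R2a A B C) hP
    have hPB : P B (Ex.v A.rot C) := h3 _ _ _ _ (cl_R2b A B C) hP
    by_cases hB : B.vc = 0
    · have hA := cl_K A _ hPA (cl_cond_v P h1 h2 hPA rfl (by omega))
      exact (cl_F0v B A hB hA).1
    · have hB' := cl_K B _ hPB (cl_cond_v P h1 h2 hPB rfl (by omega))
      exact (cl_F0v A B (by omega) hB').2

theorem cl_M : ∀ (T C : Ex), T.hc = 2 → C.hc = 0 → P T C →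
    ∃ A B : Ex, ClW A ∧ ClW B ∧ PEq (T.dia C) (A.dia B)
  | Ex.leaf, _, hT, _, _ => by
    have h4 : Ex.leaf.hc = 0 := rfl
    omega
  | Ex.v A B, _, hT, _, _ => by
    have h4 : (Ex.v A B).hc = 1 := rfl
    omega
  | Ex.h A B, C, hT, hC, hP => by
    have hT' : A.hc + B.hc = 2 := hT
    have hPA : P A (Ex.h B C) := h3 _ _ _ _ (cl_R1a A B C) hP
    have hPB : P B (Ex.h C A) := h3 _ _ _ _ (cl_R1b A B C) hP
    by_cases hA2 : A.hc = 2
    · have h4 : (Ex.h B C).hc = 0 := by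
        show B.hc + C.hc = 0
        omega
      obtain ⟨A', B', h5, h6, h7⟩ := cl_M A (Ex.h B C) hA2 h4 hPA
      exact ⟨A', B', h5, h6, (cl_R1a A B C).trans h7⟩
    · by_cases hB2 : B.hc = 2
      · have h4 : (Ex.h C A).hc = 0 := by
          show C.hc + A.hc = 0
          omega
        obtain ⟨A', B', h5, h6, h7⟩ := cl_M B (Ex.h C A) hB2 h4 hPB
        exact ⟨A', B', h5, h6, (cl_R1b A B C).trans h7⟩
      · have hA := cl_K P h1 h2 h3 A _ hPA (cl_cond_h P h1 h2 hPA rfl (by omega))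
        have hB := cl_K P h1 h2 h3 B _ hPB (cl_cond_h P h1 h2 hPB rfl (by omega))
        exact ⟨A, Ex.h B C, hA, (cl_F0h C B hC hB).1, cl_R1a A B C⟩

theorem cl_M' : ∀ (T C : Ex), T.vc = 2 → C.vc = 0 → P T C →
    ∃ A B : Ex, ClW A ∧ ClW B ∧ PEq (T.dia C) (A.dia B)
  | Ex.leaf, _, hT, _, _ => by
    have h4 : Ex.leaf.vc = 0 := rfl
    omega
  | Ex.h A B, _, hT, _, _ => by
    have h4 : (Ex.h A B).vc = 1 := rfl
    omega
  | Ex.v A B, C, hT, hC, hP => by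
    have hT' : A.vc + B.vc = 2 := hT
    have hPA : P A (Ex.v C B.rot) := h3 _ _ _ _ (cl_R2a A B C) hP
    have hPB : P B (Ex.v A.rot C) := h3 _ _ _ _ (cl_R2b A B C) hP
    by_cases hA2 : A.vc = 2
    · have h4 : (Ex.v C B.rot).vc = 0 := by
        show C.vc + B.rot.vc = 0
        rw [cl_vc_rot]
        omega
      obtain ⟨A', B', h5, h6, h7⟩ := cl_M' A (Ex.v C B.rot) hA2 h4 hPA
      exact ⟨A', B', h5, h6, (cl_R2a A B C).trans h7⟩
    · by_cases hB2 : B.vc = 2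
      · have h4 : (Ex.v A.rot C).vc = 0 := by
          show A.rot.vc + C.vc = 0
          rw [cl_vc_rot]
          omega
        obtain ⟨A', B', h5, h6, h7⟩ := cl_M' B (Ex.v A.rot C) hB2 h4 hPB
        exact ⟨A', B', h5, h6, (cl_R2b A B C).trans h7⟩
      · have hA := cl_K P h1 h2 h3 A _ hPA (cl_cond_v P h1 h2 hPA rfl (by omega))
        have hB := cl_K P h1 h2 h3 B _ hPB (cl_cond_v P h1 h2 hPB rfl (by omega))
        exact ⟨A, Ex.v C B.rot, hA, (cl_F0v C B.rot hC hB.rot).2, cl_R2a A B C⟩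

end

theorem classify (P : Ex → Ex → Prop) (h1 : ∀ E C, P E C → E.hc + C.hc ≤ 2)
    (h2 : ∀ E C, P E C → E.vc + C.vc ≤ 2)
    (h3 : ∀ E C E' C', PEq (E.dia C) (E'.dia C') → P E C → P E' C') (E C : Ex) (h : P E C) :
    ∃ w : List (ZMod 4), PEq (E.dia C) ((PW w).dia Ex.leaf) := by
  obtain ⟨T, hT⟩ := cl_left C E
  have hP : P T Ex.leaf := h3 _ _ _ _ hT h
  suffices hs : ∃ w : List (ZMod 4), PEq (T.dia Ex.leaf) ((PW w).dia Ex.leaf) by
    obtain ⟨w, hw⟩ := hs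
    exact ⟨w, hT.trans hw⟩
  cases T with
  | leaf => exact ⟨[], PEq.refl _⟩
  | h A B =>
    have h4 : A.hc + B.hc + 0 ≤ 2 := h1 (Ex.h A B) Ex.leaf hP
    by_cases h5 : A.hc + B.hc = 2
    · obtain ⟨A', B', h6, h7, h8⟩ := cl_M P h1 h2 h3 (Ex.h A B) Ex.leaf h5 rfl hP
      obtain ⟨w, hw⟩ := cl_W2 h6 h7
      exact ⟨w, h8.trans hw⟩
    · have h6 : ClCond (Ex.h A B) := by
        show A.hc + B.hc ≤ 1
        omega
      exact cl_W2 (cl_K P h1 h2 h3 _ _ hP h6) clW_leaf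
  | v A B =>
    have h4 : A.vc + B.vc + 0 ≤ 2 := h2 (Ex.v A B) Ex.leaf hP
    by_cases h5 : A.vc + B.vc = 2
    · obtain ⟨A', B', h6, h7, h8⟩ := cl_M' P h1 h2 h3 (Ex.v A B) Ex.leaf h5 rfl hP
      obtain ⟨w, hw⟩ := cl_W2 h6 h7
      exact ⟨w, h8.trans hw⟩
    · have h6 : ClCond (Ex.v A B) := by
        show A.vc + B.vc ≤ 1
        omega
      exact cl_W2 (cl_K P h1 h2 h3 _ _ hP h6) clW_leaf

end Pool.Agent.Helper65.LK
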