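import Pool.Agent.Helper65.LK.FlypeWord

/-!
# LK-57. The Conway diagrams `C(a₁, ..., aₙ)` and their moves

`mir D`: all crossings are changed.  `Same.mir`: every step is mapped to a step (`turn` is not changed, the
conditions on `upper` are symmetric under the change of all crossings; `DIso` similarly; planarity does
not depend on the crossings: `SameShape`).

`conway_last`: `cw (l ++ [y, 1]) true` ends with the block of `y` letters `alt p` and the one letter `alt p'`, where
`{p, p'} = {2, 3}`; the base is `bst p'` (`cq`: for odd length the last block is at `3` and the base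
`smA = bst 3`, for even length it is at `2` with the base `smB = bst 2`).  By `dg_base` the last letter
`alt p'` on `bst p'` may be replaced by `alt p` on `bst p` (`alt 3 = (3, over0)`, `alt 2 = (2, over1)`).

`conway_first`: `cw (1 :: y :: l) true = alt 3 :: (y letters alt 2) ++ ...`, closing state `smA = bst 3`.  By
`dg_cap` it is the same as `alt 2 :: ...` with the closing state `smB = bst 2`: `y + 1` letters `(2, over1)`,
then the letters `(3, over0)` of the third block, etc.  `dg_rot` three times (shift by `+1`): the positions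
become `3, 4 = 0, 3, 0, ...`, the base and the closing state are exchanged: closing state `smA`.  By `flype_any`
replace `0` by `2`.  The letters are now `(3, over1)` and `(2, over0)`: the mirror image of
`cw ((y + 1) :: l) true`; the base: `flp (cq (1 :: y :: l)) = cq ((y+1) :: l)` (the length decreases by one).

`conway_rev_odd`: `dg_rev`: the word is reversed and the positions `3, 2` become `1, 2`; both base and closing
state are `smA`.  `flype_any` replaces `1` by `3`.  `(cw a true).reverse = cw a.reverse true` for odd length.
`conway_rev_even`: after `dg_rev` the base is `smA`, the closing state is `smB`; positions: block `i` of `a` is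
at `1` for odd `i` and at `2` for even `i`, the outermost block is `aₙ` (at `2`).  Shift by `+1`: base `smB`, closing
state `smA`, positions `2` (odd `i`) and `3` (even `i`), states `over0` at `2` and `over1` at `3`: the mirror
image of `C(aₙ, ..., a₁)`.
-/

namespace Pool.Agent.Helper65.LK

open Function

private theorem cn_shape (q : St) : q.sw.shape = q.shape := by cases q <;> rfl

private theorem cn_isX (q : St) : q.sw.isX = q.isX := by cases q <;> rfl

private theorem cn_sw_sw (q : St) : q.sw.sw = q := by cases q <;> rfl

private theorem cn_upper (q : St) (h : q.isX = true) (i : ZMod 4) :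
    q.sw.upper i = !q.upper i := by
  revert i
  cases q
  · decide
  · decide
  · exact absurd h (by decide)
  · exact absurd h (by decide)

private theorem cn_turn : ∀ i : ZMod 4, (St.turn i).sw = St.turn i := by decide

private theorem cn_same {V : Type} (s : V → St) : SameShape (fun v => (s v).sw) s :=
  fun v => cn_shape (s v)

private theorem cn_isC {V : Type} (s : V → St) (x : Dart V) :
    isC (fun v => (s v).sw) x ↔ isC s x := by
  unfold isC
  rw [cn_isX]

private theorem cn_tau {V : Type} [Fintype V] [DecidableEq V] (s : V → St) :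
    tau (fun v => (s v).sw) = tau s := by
  apply Equiv.ext
  intro x
  have h : ∀ (q : St) (i : ZMod 4), q.sw.mate i = q.mate i := by
    intro q
    cases q <;> decide
  exact Prod.ext rfl (h _ _)

private theorem cn_arc {V : Type} [Fintype V] [DecidableEq V] (S : Shadow V) (s : V → St) :
    Arc S (fun v => (s v).sw) = Arc S s := by
  unfold Arc
  congr 1
  funext x y
  rw [cn_tau, cn_isC]

/-- the mirror image -/
def mir (D : Dia) : Dia where
  V := D.V
  S := D.S
  s := fun v => (D.s v).sw
  planar := by
    obtain ⟨-, -, -, h1, -, -, h2⟩ := sweep_sameShape (S := D.S) (cn_same D.s) (fun _ => 0)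
    have h3 := D.planar
    unfold Planar pieces at *
    rw [h1, h2]
    exact h3

/-- the Conway diagram `C(a₁, ..., aₙ)` -/
def conway (a : List ℕ) : Dia := Dg (cq a) (cw a true) St.smA

private theorem cn_ext {V : Type} [Fintype V] [DecidableEq V] (S : Shadow V) {s s' : V → St}
    (h : s = s') (hp : Planar S s) (hp' : Planar S s') : Dia.mk V S s hp = Dia.mk V S s' hp' := by
  subst h
  rfl

theorem mir_mir (D : Dia) : Same (mir (mir D)) D := by
  have h : mir (mir D) = D := by
    obtain ⟨V, S, s, hp⟩ := D
    exact cn_ext S (funext fun v => cn_sw_sw (s v)) _ _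
  rw [h]
  exact Relation.EqvGen.refl _

private theorem cn_update {V : Type} [DecidableEq V] (s : V → St) (v : V) (q : St) :
    (fun w => (update s v q w).sw) = update (fun w => (s w).sw) v q.sw := by
  funext w
  by_cases hw : w = v
  · subst hw
    rw [update_self, update_self]
  · rw [update_of_ne hw, update_of_ne hw]

private theorem cn_step {D D' : Dia} (h : Step D D') : Same (mir D) (mir D') := by
  cases h with
  | iso _ e =>
    refine Relation.EqvGen.rel _ _ (Step.iso (mir D) (mir D') ?_)
    refine ⟨⟨(Equiv.subtypeEquivRight (cn_isC D.s)).trans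
      (e.φ.trans (Equiv.subtypeEquivRight (cn_isC D'.s)).symm), ?_, ?_, ?_⟩, ?_⟩
    · intro x y hxy
      exact e.rot ⟨x.1, (cn_isC D.s x.1).1 x.2⟩ ⟨y.1, (cn_isC D.s y.1).1 y.2⟩ hxy
    · intro x y
      have h1 := e.arc ⟨x.1, (cn_isC D.s x.1).1 x.2⟩ ⟨y.1, (cn_isC D.s y.1).1 y.2⟩
      rw [← cn_arc D.S, ← cn_arc D'.S] at h1
      exact h1
    · intro x
      have hx := (cn_isC D.s x.1).1 x.2
      have h1 := e.upper ⟨x.1, hx⟩
      have h2 : ((D.s x.1.1).sw).upper x.1.2 = !(D.s x.1.1).upper x.1.2 := cn_upper _ hx _
      have h3 : ((D'.s (e.φ ⟨x.1, hx⟩).1.1).sw).upper (e.φ ⟨x.1, hx⟩).1.2 =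
          !(D'.s (e.φ ⟨x.1, hx⟩).1.1).upper (e.φ ⟨x.1, hx⟩).1.2 := cn_upper _ (e.φ ⟨x.1, hx⟩).2 _
      exact h2.trans ((congrArg (fun b => !b) h1).trans h3.symm)
    · have h1 := (sweep_sameShape (S := D.S) (cn_same D.s) (fun _ => 0)).2.2.1
      have h2 := (sweep_sameShape (S := D'.S) (cn_same D'.s) (fun _ => 0)).2.2.1
      exact h1.trans (e.comps.trans h2.symm)
  | r1 v i hv h hp =>
    have hp' : Planar (mir D).S (update (mir D).s v (St.turn i)) := by
      have h1 := (mir ⟨D.V, D.S, update D.s v (St.turn i), hp⟩).planar
      have h2 : (mir ⟨D.V, D.S, update D.s v (St.turn i), hp⟩).s =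
          update (mir D).s v (St.turn i) := by
        refine (cn_update D.s v (St.turn i)).trans ?_
        rw [cn_turn]
        rfl
      rw [h2] at h1
      exact h1
    have h3 : mir ⟨D.V, D.S, update D.s v (St.turn i), hp⟩ =
        ⟨(mir D).V, (mir D).S, update (mir D).s v (St.turn i), hp'⟩ := by
      refine cn_ext D.S ?_ _ _
      refine (cn_update D.s v (St.turn i)).trans ?_
      rw [cn_turn]
      rfl
    rw [h3]
    refine Relation.EqvGen.rel _ _ (Step.r1 (mir D) v i ?_ ?_ hp')
    · exact (cn_isX _).trans hv
    · change Arc D.S (fun v => (D.s v).sw) (v, i) (v, i + 1)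
      rw [cn_arc]
      exact h
  | r2 v w i j hvw hv hw h1 h2 hup hp =>
    have he : (fun x => (update (update D.s v (St.turn i)) w (St.turn j) x).sw) =
        update (update (mir D).s v (St.turn i)) w (St.turn j) := by
      rw [cn_update, cn_update, cn_turn, cn_turn]
      rfl
    have hp' : Planar (mir D).S (update (update (mir D).s v (St.turn i)) w (St.turn j)) := by
      have h3 := (mir ⟨D.V, D.S, update (update D.s v (St.turn i)) w (St.turn j), hp⟩).planar
      rw [← he]
      exact h3
    have h3 : mir ⟨D.V, D.S, update (update D.s v (St.turn i)) w (St.turn j), hp⟩ =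
        ⟨(mir D).V, (mir D).S, update (update (mir D).s v (St.turn i)) w (St.turn j), hp'⟩ :=
      cn_ext D.S he _ _
    rw [h3]
    refine Relation.EqvGen.rel _ _ (Step.r2 (mir D) v w i j hvw ?_ ?_ ?_ ?_ ?_ hp')
    · exact (cn_isX _).trans hv
    · exact (cn_isX _).trans hw
    · change Arc D.S (fun v => (D.s v).sw) (v, i) (w, j + 1)
      rw [cn_arc]
      exact h1
    · change Arc D.S (fun v => (D.s v).sw) (v, i + 1) (w, j)
      rw [cn_arc]
      exact h2
    · exact (cn_upper _ hv _).trans ((congrArg (fun b => !b) hup).trans (cn_upper _ hw _).symm)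
  | r3 u v w i j k huv hvw hwu hu hv hw h1 h2 h3 hadm hp =>
    have hp' : Planar ((mir D).S.conj (tri u i v j w k)) (mir D).s :=
      (mir ⟨D.V, D.S.conj (tri u i v j w k), D.s, hp⟩).planar
    refine Relation.EqvGen.rel _ _ (Step.r3 (mir D) u v w i j k huv hvw hwu ?_ ?_ ?_ ?_ ?_ ?_ ?_ hp')
    · exact (cn_isX _).trans hu
    · exact (cn_isX _).trans hv
    · exact (cn_isX _).trans hw
    · change Arc D.S (fun v => (D.s v).sw) (u, i + 1) (v, j)
      rw [cn_arc]
      exact h1
    · change Arc D.S (fun v => (D.s v).sw) (v, j + 1) (w, k)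
      rw [cn_arc]
      exact h2
    · change Arc D.S (fun v => (D.s v).sw) (w, k + 1) (u, i)
      rw [cn_arc]
      exact h3
    · intro h4
      apply hadm
      have e1 : ((mir D).s u).upper (i + 1) = !(D.s u).upper (i + 1) := cn_upper _ hu _
      have e2 : ((mir D).s v).upper (j + 1) = !(D.s v).upper (j + 1) := cn_upper _ hv _
      have e3 : ((mir D).s w).upper (k + 1) = !(D.s w).upper (k + 1) := cn_upper _ hw _
      rw [e1, e2, e3] at h4
      exact ⟨Bool.not_inj h4.1, Bool.not_inj h4.2⟩

theorem Same.mir {D D' : Dia} (h : Same D D') : Same (LK.mir D) (LK.mir D') := by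
  induction h with
  | rel a b hab => exact cn_step hab
  | refl a => exact Relation.EqvGen.refl _
  | symm a b _ ih => exact Relation.EqvGen.symm _ _ ih
  | trans a b c _ _ ih1 ih2 => exact Relation.EqvGen.trans _ _ _ ih1 ih2

theorem mir_n (D : Dia) : (mir D).n = D.n :=
  (sweep_sameShape (S := D.S) (cn_same D.s) (fun _ => 0)).2.2.2.1

theorem mir_symmetric {D : Dia} (h : D.Symmetric) : (mir D).Symmetric := by
  rcases h with h | ⟨ρ, hρ⟩
  · left
    rw [mir_n]
    exact h
  · right
    let e : {x : Dart D.V // isC (fun v => (D.s v).sw) x} ≃ {x : Dart D.V // isC D.s x} :=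
      Equiv.subtypeEquivRight (cn_isC D.s)
    refine ⟨fun x => e.symm (ρ (e x)), ?_, ?_, ?_, ?_, ?_⟩
    · intro x
      change e.symm (ρ (e (e.symm (ρ (e x))))) = x
      rw [e.apply_symm_apply, hρ.invol, e.symm_apply_apply]
    · intro x y hxy
      exact hρ.rot (e x) (e y) hxy
    · intro x y hxy
      have h1 : Arc D.S D.s x.1 y.1 := by
        rw [← cn_arc D.S D.s]
        exact hxy
      have h2 := hρ.arc (e x) (e y) h1
      rw [← cn_arc D.S D.s] at h2
      exact h2
    · intro x
      have h1 := hρ.upper (e x)
      have h2 : ((D.s x.1.1).sw).upper x.1.2 = !(D.s x.1.1).upper x.1.2 := cn_upper _ (e x).2 _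
      have h3 : ((D.s (ρ (e x)).1.1).sw).upper (ρ (e x)).1.2 =
          !(D.s (ρ (e x)).1.1).upper (ρ (e x)).1.2 := cn_upper _ (ρ (e x)).2 _
      exact h3.trans ((congrArg (fun b => !b) h1).trans (congrArg (fun b => !b) h2.symm))
    · rw [← hρ.two]
      symm
      refine Set.ncard_congr (fun x _ => e.symm x) ?_ ?_ ?_
      · intro x hx
        have h1 : Arc D.S D.s x.1 (ρ x).1 := hx
        change Arc D.S (fun v => (D.s v).sw) (e.symm x).1 (e.symm (ρ (e (e.symm x)))).1
        rw [cn_arc, e.apply_symm_apply]
        exact h1
      · intro x y _ _ hxy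
        exact e.symm.injective hxy
      · intro y hy
        have h1 : Arc D.S (fun v => (D.s v).sw) y.1 (e.symm (ρ (e y))).1 := hy
        rw [cn_arc] at h1
        exact ⟨e y, h1, e.symm_apply_apply y⟩

theorem mir_isKnot {D : Dia} (h : D.IsKnot) : (mir D).IsKnot :=
  (sweep_sameShape (S := D.S) (cn_same D.s) (fun _ => 0)).2.2.1.trans h

/-- the number of components is an invariant -/
theorem Same.comps {D D' : Dia} (h : Same D D') : LK.comps D.S D.s = LK.comps D'.S D'.s := by
  induction h with
  | refl a => rfl
  | symm a b _ ih => exact ih.symm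
  | trans a b c _ _ ih1 ih2 => exact ih1.trans ih2
  | rel a b hab =>
    cases hab with
    | iso _ e => exact e.comps
    | r1 v i hv h hp => exact (comps_kink a.S a.s v i hv h).1.symm
    | r2 v w i j hvw hv hw h1 h2 hup hp =>
      exact (comps_bigon a.S a.s v w i j hvw hv hw h1 h2).symm
    | r3 u v w i j k huv hvw hwu hu hv hw h1 h2 h3 hadm hp =>
      have T : Tri a.S a.s u i v j w k := ⟨huv, hvw, hwu, hu, hv, hw, h1, h2, h3⟩
      exact T.comps_eq.symm

/-! ### the words -/

private theorem cn_same_of_eq {D D' : Dia} (h : D = D') : Same D D' := by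
  rw [h]
  exact Relation.EqvGen.refl _

/-- the position of a block -/
private def cnP (b : Bool) : ZMod 4 := if b = true then 3 else 2

private theorem cn_cw (x : ℕ) (l : List ℕ) (b : Bool) :
    cw (x :: l) b = List.replicate x (alt (cnP b)) ++ cw l (!b) := rfl

/-- the parity of the length -/
private def cnF (l : List ℕ) (b : Bool) : Bool := if l.length % 2 = 1 then !b else b

private theorem cnF_cons (x : ℕ) (l : List ℕ) (b : Bool) : cnF (x :: l) b = cnF l (!b) := by
  unfold cnF
  rw [List.length_cons]
  rcases Nat.mod_two_eq_zero_or_one l.length with h | h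
  · have h1 : (l.length + 1) % 2 = 1 := by omega
    rw [if_pos h1, if_neg (by omega)]
  · have h1 : (l.length + 1) % 2 = 0 := by omega
    rw [if_neg (by omega), if_pos h, Bool.not_not]

private theorem cn_append (l m : List ℕ) (b : Bool) : cw (l ++ m) b = cw l b ++ cw m (cnF l b) := by
  induction l generalizing b with
  | nil => rfl
  | cons x l ih =>
    rw [List.cons_append, cn_cw, cn_cw, ih, cnF_cons, List.append_assoc]

private theorem cn_single (x : ℕ) (b : Bool) : cw [x] b = List.replicate x (alt (cnP b)) := by
  rw [cn_cw]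
  change _ ++ [] = _
  rw [List.append_nil]

private theorem cn_reverse (l : List ℕ) (b : Bool) :
    (cw l b).reverse = cw l.reverse (cnF l (!b)) := by
  induction l generalizing b with
  | nil => rfl
  | cons x l ih =>
    rw [cn_cw, List.reverse_append, ih, List.reverse_replicate, List.reverse_cons, cn_append,
      cnF_cons, Bool.not_not]
    congr 1
    rw [cn_single]
    congr 2
    unfold cnF
    rw [List.length_reverse]
    split_ifs <;> simp

private theorem cn_mem (l : List ℕ) (b : Bool) : ∀ x ∈ cw l b, x.2.isX = true := by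
  have h : ∀ p : ZMod 4, (alt p).2.isX = true := by decide
  induction l generalizing b with
  | nil =>
    intro x hx
    exact absurd hx List.not_mem_nil
  | cons n l ih =>
    intro x hx
    rw [cn_cw, List.mem_append] at hx
    rcases hx with hx | hx
    · rw [List.eq_of_mem_replicate hx]
      exact h _
    · exact ih _ x hx

/-- crossing change of a letter -/
private def swL (l : Letter) : Letter := (l.1, l.2.sw)

private theorem cn_tm (q₀ : St) (w : List Letter) :
    TM (wT w) (fun v => (wS q₀ w v).sw) (wT (w.map swL)) (wS q₀.sw (w.map swL)) := by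
  induction w with
  | nil => exact TM.refl _ _
  | cons l w ih =>
    have h := TM.app ih l.1 (fun b => if b = true then l.2.sw else St.smB)
    have h1 : (fun v => (wS q₀ (l :: w) v).sw) =
        Sum.elim (fun v => (wS q₀ w v).sw) (fun b => if b = true then l.2.sw else St.smB) := by
      funext v
      rcases v with v | b
      · rfl
      · cases b <;> rfl
    rw [h1]
    exact h

private theorem cn_mir (q₀ : St) (w : List Letter) (q₁ : St) :
    Same (mir (Dg q₀ w q₁)) (Dg q₀.sw (w.map swL) q₁.sw) := by
  obtain ⟨e⟩ := TM.glue (cn_tm q₀ w) leafT (fun _ => q₁.sw)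
  refine Relation.EqvGen.rel _ _ (Step.iso _ _ ?_)
  have h1 : (mir (Dg q₀ w q₁)).s = Sum.elim (fun v => (wS q₀ w v).sw) (fun _ => q₁.sw) := by
    funext v
    rcases v with v | u <;> rfl
  rw [h1]
  exact e

private theorem cn_cq (a : List ℕ) : cq a = St.smA ∨ cq a = St.smB := by
  unfold cq
  split_ifs
  · exact Or.inl rfl
  · exact Or.inr rfl

private theorem cn_mir_conway (a : List ℕ) :
    Same (mir (conway a)) (Dg (cq a) ((cw a true).map swL) St.smA) := by
  have h := cn_mir (cq a) (cw a true) St.smA
  have h1 : (cq a).sw = cq a := by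
    rcases cn_cq a with h | h <;> rw [h] <;> rfl
  rw [h1] at h
  exact h

private theorem cn_forall_append {R : Letter → Letter → Prop} {a b c d : List Letter}
    (h1 : List.Forall₂ R a b) (h2 : List.Forall₂ R c d) : List.Forall₂ R (a ++ c) (b ++ d) := by
  induction h1 with
  | nil => exact h2
  | cons h _ ih => exact List.Forall₂.cons h ih

private theorem cn_forall_replicate {R : Letter → Letter → Prop} {x y : Letter} (h : R x y)
    (n : ℕ) : List.Forall₂ R (List.replicate n x) (List.replicate n y) := by
  induction n with
  | zero => exact List.Forall₂.nil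
  | succ n ih => exact List.Forall₂.cons h ih

private theorem cn_shift (a : List ℕ) (b : Bool) :
    List.Forall₂ (fun l l' : Letter => l'.2 = l.2 ∧ (l'.1 = l.1 ∨ l'.1 = l.1 + 2))
      ((cw a b).map shiftL) ((cw a (!b)).map swL) := by
  induction a generalizing b with
  | nil => exact List.Forall₂.nil
  | cons x a ih =>
    rw [cn_cw, cn_cw, List.map_append, List.map_append, List.map_replicate, List.map_replicate]
    refine cn_forall_append (cn_forall_replicate ?_ x) (ih _)
    revert b
    decide

private theorem cn_neg (a : List ℕ) (b : Bool) :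
    List.Forall₂ (fun l l' : Letter => l'.2 = l.2 ∧ (l'.1 = l.1 ∨ l'.1 = l.1 + 2))
      ((cw a b).map negL) (cw a b) := by
  induction a generalizing b with
  | nil => exact List.Forall₂.nil
  | cons x a ih =>
    rw [cn_cw, List.map_append, List.map_replicate]
    refine cn_forall_append (cn_forall_replicate ?_ x) (ih _)
    revert b
    decide

private theorem cn_mem_shift (a : List ℕ) (b : Bool) :
    ∀ x ∈ (cw a b).map shiftL, x.2.isX = true := by
  intro x hx
  obtain ⟨y, hy, rfl⟩ := List.mem_map.1 hx
  exact cn_mem a b y hy

private theorem cn_mem_neg (a : List ℕ) (b : Bool) :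
    ∀ x ∈ (cw a b).map negL, x.2.isX = true := by
  intro x hx
  obtain ⟨y, hy, rfl⟩ := List.mem_map.1 hx
  exact cn_mem a b y hy

private theorem cn_odd {a : List ℕ} (h : a.length % 2 = 1) : cq a = St.smA := if_pos h

private theorem cn_even {a : List ℕ} (h : a.length % 2 = 0) : cq a = St.smB :=
  if_neg (by omega)

theorem conway_last (l : List ℕ) (y : ℕ) :
    Same (conway (l ++ [y, 1])) (conway (l ++ [y + 1])) := by
  have hw1 : cw (l ++ [y, 1]) true =
      (cw l true ++ List.replicate y (alt (cnP (cnF l true)))) ++ [alt (cnP (!cnF l true))] := by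
    rw [cn_append, cn_cw, cn_single, List.append_assoc]
    rfl
  have hw2 : cw (l ++ [y + 1]) true =
      (cw l true ++ List.replicate y (alt (cnP (cnF l true)))) ++ [alt (cnP (cnF l true))] := by
    rw [cn_append, cn_single, List.replicate_succ', List.append_assoc]
  have hq1 : cq (l ++ [y, 1]) = bst (cnP (!cnF l true)) := by
    rcases Nat.mod_two_eq_zero_or_one l.length with h | h
    · have h1 : cq (l ++ [y, 1]) = St.smB := cn_even (by
        rw [List.length_append]
        change (l.length + 2) % 2 = 0
        omega)
      rw [h1]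
      unfold cnF
      rw [if_neg (by omega)]
      decide
    · have h1 : cq (l ++ [y, 1]) = St.smA := cn_odd (by
        rw [List.length_append]
        change (l.length + 2) % 2 = 1
        omega)
      rw [h1]
      unfold cnF
      rw [if_pos h]
      decide
  have hq2 : cq (l ++ [y + 1]) = bst (cnP (cnF l true)) := by
    rcases Nat.mod_two_eq_zero_or_one l.length with h | h
    · have h1 : cq (l ++ [y + 1]) = St.smA := cn_odd (by
        rw [List.length_append]
        change (l.length + 1) % 2 = 1
        omega)
      rw [h1]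
      unfold cnF
      rw [if_neg (by omega)]
      decide
    · have h1 : cq (l ++ [y + 1]) = St.smB := cn_even (by
        rw [List.length_append]
        change (l.length + 1) % 2 = 0
        omega)
      rw [h1]
      unfold cnF
      rw [if_pos h]
      decide
  unfold conway
  rw [hw1, hw2, hq1, hq2]
  have hb : ∀ c : Bool, (alt (cnP (!c))).2.isX = true ∧
      (cnP c, if cnP c = cnP (!c) ∨ cnP c = cnP (!c) + 2 then (alt (cnP (!c))).2
        else (alt (cnP (!c))).2.sw) = alt (cnP c) := by decide
  have h := dg_base St.smA (cw l true ++ List.replicate y (alt (cnP (cnF l true))))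
    (cnP (!cnF l true)) (cnP (cnF l true)) (alt (cnP (!cnF l true))).2 (hb _).1
  rw [(hb _).2] at h
  exact h

theorem conway_first (y : ℕ) (l : List ℕ) :
    Same (conway (1 :: y :: l)) (mir (conway ((y + 1) :: l))) := by
  have hx : (cq (1 :: y :: l)).isX = false := by
    rcases cn_cq (1 :: y :: l) with h | h <;> rw [h] <;> rfl
  have hf : flp (cq (1 :: y :: l)) = cq ((y + 1) :: l) := by
    rcases Nat.mod_two_eq_zero_or_one l.length with h | h
    · rw [cn_even (a := 1 :: y :: l) (by
        change (l.length + 2) % 2 = 0
        omega), cn_odd (a := (y + 1) :: l) (by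
        change (l.length + 1) % 2 = 1
        omega)]
      rfl
    · rw [cn_odd (a := 1 :: y :: l) (by
        change (l.length + 2) % 2 = 1
        omega), cn_even (a := (y + 1) :: l) (by
        change (l.length + 1) % 2 = 0
        omega)]
      rfl
  have h1 := dg_cap (cq (1 :: y :: l)) (List.replicate y (alt 2) ++ cw l true) 3 2 St.over0 rfl hx
  have h2 : Same (conway (1 :: y :: l)) (Dg (cq (1 :: y :: l)) (cw ((y + 1) :: l) false) St.smB) := h1
  have h3 := dg_rot (cq (1 :: y :: l)) St.smB hx rfl (cw ((y + 1) :: l) false)
  rw [hf] at h3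
  have hy : (cq ((y + 1) :: l)).isX = false := by
    rcases cn_cq ((y + 1) :: l) with h | h <;> rw [h] <;> rfl
  have h4 := flype_any (cq ((y + 1) :: l)) St.smA hy rfl _ _
    (cn_mem_shift ((y + 1) :: l) false) (cn_shift ((y + 1) :: l) false)
  exact Relation.EqvGen.trans _ _ _ h2 (Relation.EqvGen.trans _ _ _ h3
    (Relation.EqvGen.trans _ _ _ h4 (Relation.EqvGen.symm _ _ (cn_mir_conway ((y + 1) :: l)))))

theorem conway_rev_odd (a : List ℕ) (h : a.length % 2 = 1) :
    Same (conway a.reverse) (conway a) := by
  have h1 : cq a.reverse = St.smA := cn_odd (by rw [List.length_reverse]; exact h)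
  have h2 : cq a = St.smA := cn_odd h
  unfold conway
  rw [h1, h2]
  have h3 := dg_rev St.smA St.smA (cw a.reverse true)
  have h4 : (cw a.reverse true).reverse = cw a true := by
    rw [cn_reverse, List.reverse_reverse]
    congr 1
    unfold cnF
    rw [List.length_reverse, if_pos h]
    rfl
  rw [h4] at h3
  exact Relation.EqvGen.trans _ _ _ h3
    (flype_any St.smA St.smA rfl rfl _ _ (cn_mem_neg a true) (cn_neg a true))

theorem conway_rev_even (a : List ℕ) (h : a.length % 2 = 0) :
    Same (conway a.reverse) (mir (conway a)) := by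
  have h1 : cq a.reverse = St.smB := cn_even (by rw [List.length_reverse]; exact h)
  have h2 : cq a = St.smB := cn_even h
  have h3 := dg_rev St.smB St.smA (cw a.reverse true)
  have h4 : (cw a.reverse true).reverse = cw a false := by
    rw [cn_reverse, List.reverse_reverse]
    congr 1
    unfold cnF
    rw [List.length_reverse, if_neg (by omega)]
    rfl
  rw [h4] at h3
  have h5 := flype_any St.smA St.smB rfl rfl _ _ (cn_mem_neg a false) (cn_neg a false)
  have h6 := dg_rot St.smA St.smB rfl rfl (cw a false)
  have h7 := flype_any St.smB St.smA rfl rfl _ _ (cn_mem_shift a false) (cn_shift a false)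
  have h8 := cn_mir_conway a
  rw [h2] at h8
  have h9 : conway a.reverse = Dg St.smB (cw a.reverse true) St.smA := by
    unfold conway
    rw [h1]
  rw [h9]
  exact Relation.EqvGen.trans _ _ _ h3 (Relation.EqvGen.trans _ _ _ h5
    (Relation.EqvGen.trans _ _ _ h6 (Relation.EqvGen.trans _ _ _ h7
      (Relation.EqvGen.symm _ _ h8))))

end Pool.Agent.Helper65.LK
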