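import Pool.Agent.Helper65.LK.Conway
import Pool.Agent.Helper75.Lamm.Words

/-!
# LK-60. Lists which represent the same two-bridge knot give the same knot

`SameM`: the same link up to mirror image.  `SameM.symm`, `SameM.trans`: with `Same.mir` and `mir_mir`.
`conway_mv`: the three constructors of `Mv`: `rev`: `conway_rev_odd`, `conway_rev_even`; `last`: `conway_last`;
`first`: `conway_first`.  `conway_words`: `Lamm.words` and induction on `EqvGen`.
`crossingNumber_same`, `symCrossingNumber_same`: `D' ↦ D'` or `D' ↦ mir D'` maps the diagrams of `D` to those of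
the other one and preserves the number of crossings (`mir_n`) and the symmetry (`mir_symmetric`).
-/

namespace Pool.Agent.Helper65.LK

open Pool.Agent.Helper75.Lamm (Mv cf Represents SameKnot)

/-- the same link up to mirror image -/
def SameM (D D' : Dia) : Prop := Same D D' ∨ Same D (mir D')

theorem SameM.refl (D : Dia) : SameM D D := Or.inl (Relation.EqvGen.refl D)

theorem SameM.symm {D D' : Dia} (h : SameM D D') : SameM D' D := by
  rcases h with h | h
  · exact Or.inl (Relation.EqvGen.symm _ _ h)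
  · exact Or.inr (Relation.EqvGen.symm _ _ (Relation.EqvGen.trans _ _ _ h.mir (mir_mir D')))

theorem SameM.trans {D D' D'' : Dia} (h : SameM D D') (h' : SameM D' D'') : SameM D D'' := by
  rcases h with h | h <;> rcases h' with h' | h'
  · exact Or.inl (Relation.EqvGen.trans _ _ _ h h')
  · exact Or.inr (Relation.EqvGen.trans _ _ _ h h')
  · exact Or.inr (Relation.EqvGen.trans _ _ _ h h'.mir)
  · exact Or.inl (Relation.EqvGen.trans _ _ _ h (Relation.EqvGen.trans _ _ _ h'.mir (mir_mir D'')))

theorem SameM.isKnot {D D' : Dia} (h : SameM D D') (hD : D.IsKnot) : D'.IsKnot := by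
  rcases h with h | h
  · exact h.comps.symm.trans hD
  · have h1 : (mir D').IsKnot := h.comps.symm.trans hD
    exact (mir_mir D').comps.symm.trans (mir_isKnot h1)

private theorem cm_le {D D' : Dia} (h : SameM D D') : crossingNumber D ≤ crossingNumber D' := by
  unfold crossingNumber
  refine le_iInf fun D₁ => ?_
  rcases h with h | h
  · exact iInf_le (fun D₂ : {D₂ : Dia // Same D D₂} => (D₂.1.n : ℕ∞))
      ⟨D₁.1, Relation.EqvGen.trans _ _ _ h D₁.2⟩
  · have h1 : Same D (mir D₁.1) := Relation.EqvGen.trans _ _ _ h (Same.mir D₁.2)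
    have h2 := iInf_le (fun D₂ : {D₂ : Dia // Same D D₂} => (D₂.1.n : ℕ∞)) ⟨mir D₁.1, h1⟩
    have h3 : (mir D₁.1).n = D₁.1.n := mir_n D₁.1
    rw [← h3]
    exact h2

private theorem cm_sym_le {D D' : Dia} (h : SameM D D') :
    symCrossingNumber D ≤ symCrossingNumber D' := by
  unfold symCrossingNumber
  refine le_iInf fun D₁ => ?_
  rcases h with h | h
  · exact iInf_le (fun D₂ : {D₂ : Dia // Same D D₂ ∧ D₂.Symmetric} => (D₂.1.n : ℕ∞))
      ⟨D₁.1, Relation.EqvGen.trans _ _ _ h D₁.2.1, D₁.2.2⟩
  · have h1 : Same D (mir D₁.1) := Relation.EqvGen.trans _ _ _ h (Same.mir D₁.2.1)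
    have h2 := iInf_le (fun D₂ : {D₂ : Dia // Same D D₂ ∧ D₂.Symmetric} => (D₂.1.n : ℕ∞))
      ⟨mir D₁.1, h1, mir_symmetric D₁.2.2⟩
    have h3 : (mir D₁.1).n = D₁.1.n := mir_n D₁.1
    rw [← h3]
    exact h2

theorem crossingNumber_same {D D' : Dia} (h : SameM D D') :
    crossingNumber D = crossingNumber D' :=
  le_antisymm (cm_le h) (cm_le h.symm)

theorem symCrossingNumber_same {D D' : Dia} (h : SameM D D') :
    symCrossingNumber D = symCrossingNumber D' :=
  le_antisymm (cm_sym_le h) (cm_sym_le h.symm)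

theorem crossingNumber_le_sym (D : Dia) : crossingNumber D ≤ symCrossingNumber D := by
  unfold crossingNumber symCrossingNumber
  exact le_iInf fun D₁ => iInf_le (fun D₂ : {D₂ : Dia // Same D D₂} => (D₂.1.n : ℕ∞))
    ⟨D₁.1, D₁.2.1⟩

theorem conway_mv {a b : List ℕ} (h : Mv a b) : SameM (conway a) (conway b) := by
  cases h with
  | rev _ _ =>
    rcases Nat.mod_two_eq_zero_or_one a.length with h | h
    · exact SameM.symm (Or.inr (conway_rev_even a h))
    · exact SameM.symm (Or.inl (conway_rev_odd a h))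
  | last l y _ => exact Or.inl (conway_last l y)
  | first y l _ => exact Or.inr (conway_first y l)

theorem conway_words (a b : List ℕ) (ha : a ≠ []) (hb : b ≠ []) (hpa : ∀ x ∈ a, 0 < x)
    (hpb : ∀ x ∈ b, 0 < x) (h1 : (cf a).1 = (cf b).1)
    (h2 : SameKnot (cf a).1 (cf a).2 (cf b).2) : SameM (conway a) (conway b) := by
  have h := Pool.Agent.Helper75.Lamm.words a b ha hb hpa hpb h1 h2
  clear h1 h2 ha hb hpa hpb
  induction h with
  | rel _ _ h => exact conway_mv h
  | refl _ => exact SameM.refl _
  | symm _ _ _ ih => exact ih.symm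
  | trans _ _ _ _ _ ih1 ih2 => exact ih1.trans ih2

theorem conway_represents {a b : List ℕ} (ha : a ≠ []) (hpa : ∀ x ∈ a, 0 < x)
    (h : Represents b (cf a).1 (cf a).2) : SameM (conway a) (conway b) :=
  conway_words a b ha h.1 hpa h.2.1 h.2.2.1.symm h.2.2.2

end Pool.Agent.Helper65.LK
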