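import Pool.Agent.Helper65.LK.Kap
import Pool.Agent.Helper65.LK.Conway

/-!
# LK-63. The top coefficient of `Q` and the crossing number of the Conway diagrams

`Same.q`: induction on `EqvGen`, `Q_iso`, `Q_R1`, `Q_R2`, `Q_R3` (with `zL_mul_muL`).

`tm_smA`: the letter `smA` joins the inner ends of the strands `p, p + 1` and their outer ends.  With the base
`bst p` (`smB` for even `p`, `smA` for odd `p`), e.g. `p = 2`: the base joins `1, 2` and `3, 0`, the letter the inner
ends of `2` and `3`: the ports `0, 1` and the ports `2, 3` are joined, as in the tangle with the state `smA = bst 3`.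
There are no closed arcs, no crossings.  (Finite computation for all `p`.)
`dg_smA`: `wD ((p, smA) :: w) = glue (app (wT w) p) leafT ≅ glue (wT w) (app leafT (-p))` (`reroot_app`), `bst p = bst (-p)`; then
`tm_smA (-p)` with `TM.glue` after `glue_comm`, `bst (-p + 1) = bst (p + 1)`.
`dg_kink_out`: `dg_rev`, `dg_kink`, `dg_rev`.

`top_kink`, `top_alt`: positions in `{2, 3}`; `w` is the list of the positions of the inner letters, `p` the position of
the outermost letter, `q` the position of the innermost letter; there are `w.length + 1` crossings.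
`top_kink`: by `dg_kink_out` the value is that of `Dg (bst q) (w.map alt) (bst (p + 1))`.  For `w = []`: `q = p`, no crossings, one
component (finite check), so `Q = 1` by `Q_empty`.  For `w ≠ []`: `Q_deg_le`: the degree is `≤ w.length - 1`.
`top_alt`: for `w = []`: `dg_cap` (to `p' = p + 1`), then `dg_kink`, so again `Q = 1`.  For `w = p' :: w'`: skein relation
at the outermost letter `v = inl (inr true)`.  After the change of this crossing there is an arc with both ends
upper or both lower: `x` the next letter, `y` the outermost letter: `p' = p`: `(x, 2) - (y, 1)`;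
`p = 3, p' = 2`: `(x, 3) - (y, 1)`; `p = 2, p' = 3`: `(x, 2) - (y, 0)`: by `Q_deg_le_two` the degree is `≤ n - 2`, `n = w.length + 1`.
The smoothings: `smB`: `dg_straight`: the closure `bst p` of `w`, `smA`: `dg_smA`: the closure `bst (p + 1)` of `w`.  One of
`bst p`, `bst (p + 1)` is `bst p'`, the other one `bst (p' + 1)`.  So the coefficient is
`top_alt w' + top_kink w' = 2` in both cases (`w' = []`: `1 + 1`; `w' ≠ []`: `2 + 0`).
`top_conway`: `cw a true = (the positions).map alt`, the first position is `3`, `smA = bst 3`, and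
`cq a = bst (last position)`.

`crossing_conway`: `≤` by `conway_n`.  If `Same (conway a) D'` and `D'.n < a.sum`: for `D'.n ≥ 1`, `Q_deg_le` contradicts
`top_conway`; for `D'.n = 0`: one component (`Same.comps`), `Q = 1` by `Q_empty`, but the coefficient at
`a.sum - 1 ≥ 1` is `2`.
`crossing_one`: `conway [1]` is one kink: `Same` to a diagram without crossings; this diagram is `Symmetric`.
-/

namespace Pool.Agent.Helper65.LK

open Function

theorem Same.q {D D' : Dia} (h : Same D D') : Q zL muL D.S D.s = Q zL muL D'.S D'.s := by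
  induction h with
  | refl a => rfl
  | symm a b _ ih => exact ih.symm
  | trans a b c _ _ ih1 ih2 => exact ih1.trans ih2
  | rel a b hab =>
    cases hab with
    | iso _ e => exact Q_iso zL_mul_muL e a.planar
    | r1 v i hv h hp => exact Q_R1 zL_mul_muL a.planar v i hv h
    | r2 v w i j hvw hv hw h1 h2 hup hp =>
      exact Q_R2 zL_mul_muL a.planar v w i j hvw hv hw h1 h2 hup
    | r3 u v w i j k huv hvw hwu hu hv hw h1 h2 h3 hadm hp =>
      have T : Tri a.S a.s u i v j w k := ⟨huv, hvw, hwu, hu, hv, hw, h1, h2, h3⟩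
      exact Q_R3 zL_mul_muL a.planar T hp hadm

/-! ### the smoothed letter -/

/-- the links of the tangle with one letter -/
private def crL (p : ZMod 4) (x : Dart (Unit ⊕ Bool)) : Dart (Unit ⊕ Bool) ⊕ ZMod 4 :=
  match x.1 with
  | Sum.inl _ => Sum.inl (dr (inDart p x.2))
  | Sum.inr b => if (strand p (b, x.2)).2 = true then Sum.inl (Sum.inl (), (strand p (b, x.2)).1)
      else Sum.inr (strand p (b, x.2)).1

/-- the states -/
private def crS (p : ZMod 4) : Unit ⊕ Bool → St :=
  Sum.elim (fun _ => bst p) (fun b => if b = true then St.smA else St.smB)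

private def crT (p : ZMod 4) (x : Dart (Unit ⊕ Bool)) : Dart (Unit ⊕ Bool) :=
  (x.1, (crS p x.1).mate x.2)

private theorem crL_eq (p : ZMod 4) (x : Dart (Unit ⊕ Bool)) : (app leafT p).link x = crL p x := by
  obtain ⟨v | b, j⟩ := x
  · rfl
  · rfl

private theorem crS_eq (p : ZMod 4) : Sum.elim (fun _ : Unit => bst p) (slot St.smA) = crS p := rfl

/-- outer darts of the vertex `true` -/
private def crC (x : Dart (Unit ⊕ Bool)) : Bool :=
  match x.1 with
  | Sum.inl _ => false
  | Sum.inr b => b && decide (x.2 = 2 ∨ x.2 = 3)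

private def crF (p : ZMod 4) (x : Dart (Unit ⊕ Bool)) : Dart Unit :=
  ((), if crC x = true then p else p + 2)

private def crG (p : ZMod 4) (x : Dart Unit) : Dart (Unit ⊕ Bool) := dr (outDart p x.2)

private def crW (p : ZMod 4) (x : Dart (Unit ⊕ Bool)) : ℕ → Dart (Unit ⊕ Bool)
  | 0 => x
  | n + 1 => if n % 2 = 0 then crT p (crW p x n) else
      match crL p (crW p x n) with
      | Sum.inl y => y
      | Sum.inr _ => crW p x n

private theorem crW_arc (p : ZMod 4) (x : Dart (Unit ⊕ Bool)) (n : ℕ) :
    ArcT (app leafT p) (crS p) x (crW p x n) := by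
  have hX : ∀ (p : ZMod 4) (v : Unit ⊕ Bool), ¬ (crS p v).isX = true := by decide
  induction n with
  | zero => exact Relation.EqvGen.refl _
  | succ n ih =>
    refine Relation.EqvGen.trans _ _ _ ih ?_
    rw [crW]
    by_cases hn : n % 2 = 0
    · rw [if_pos hn]
      exact Relation.EqvGen.rel _ _ (Or.inr ⟨hX p _, rfl⟩)
    · rw [if_neg hn]
      cases h : crL p (crW p x n) with
      | inl y =>
        refine Relation.EqvGen.rel _ _ (Or.inl ?_)
        rw [crL_eq]
        exact h
      | inr i => exact Relation.EqvGen.refl _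

private theorem cr1 : ∀ (p : ZMod 4) (x : Dart (Unit ⊕ Bool)),
    (∀ y, crL p x = Sum.inl y → crC y = crC x) ∧ crC (crT p x) = crC x := by decide +kernel

private theorem cr2 : ∀ (p : ZMod 4) (x : Dart Unit), ∃ n : Fin 16,
    crW p (crG p x) n = crG p ((), (bst (p + 1)).mate x.2) := by decide +kernel

private theorem cr3 : ∀ (p : ZMod 4) (x : Dart (Unit ⊕ Bool)), ∃ n : Fin 16,
    crW p (crG p (crF p x)) n = x := by decide +kernel

private theorem cr4 : ∀ (p : ZMod 4) (x : Dart Unit), crF p (crG p x) = x ∨
    x = ((), (bst (p + 1)).mate (crF p (crG p x)).2) := by decide +kernel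

private theorem cr5 : ∀ p : ZMod 4, ¬ (bst p).isX = true := by decide

private theorem cr6 : ∀ (p : ZMod 4) (v : Unit ⊕ Bool), ¬ (crS p v).isX = true := by decide

theorem tm_smA (p : ZMod 4) : TM (app leafT p) (Sum.elim (fun _ => bst p) (slot St.smA)) leafT
    (fun _ => bst (p + 1)) := by
  rw [crS_eq]
  have h4 : ∀ x : Dart Unit, ArcT leafT (fun _ => bst (p + 1)) (crF p (crG p x)) x := by
    intro x
    rcases cr4 p x with h | h
    · rw [h]
      exact Relation.EqvGen.refl _
    · exact Relation.EqvGen.rel _ _ (Or.inr ⟨cr5 _, h⟩)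
  refine TM.of_maps (crF p) (crG p) ?_ ?_ ?_ h4 ?_ ?_ ?_ ?_ ?_ ?_ ?_
  · intro x y h
    have h1 : crC y = crC x := by
      rcases h with h | ⟨-, h⟩
      · rw [crL_eq] at h
        exact (cr1 p x).1 y h
      · rw [h]
        exact (cr1 p x).2
    unfold crF
    rw [h1]
    exact Relation.EqvGen.refl _
  · intro x y h
    have h1 : y = ((), (bst (p + 1)).mate x.2) := by
      rcases h with h | ⟨-, h⟩
      · exact absurd h (by simp [leafT])
      · exact h
    rw [h1]
    obtain ⟨n, hn⟩ := cr2 p x
    rw [← hn]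
    exact crW_arc p _ n
  · intro x
    obtain ⟨n, hn⟩ := cr3 p x
    have h := crW_arc p (crG p (crF p x)) n
    rw [hn] at h
    exact h
  · exact fun x hx => absurd hx (cr6 p x.1)
  · exact fun y hy => absurd hy (cr5 _)
  · exact fun x hx => absurd hx (cr6 p x.1)
  · exact fun y hy => absurd hy (cr5 _)
  · exact fun x hx => absurd hx (cr6 p x.1)
  · exact fun x hx => absurd hx (cr6 p x.1)
  · intro i
    exact h4 ((), i)

private theorem cr_bst : ∀ p : ZMod 4, bst (-p) = bst p ∧ bst (-p + 1) = bst (p + 1) := by decide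

private theorem cr_rev2 (w : List Letter) : (w.reverse.map negL).reverse.map negL = w := by
  simp only [List.map_reverse, List.reverse_reverse, ws_neg]

theorem dg_smA (q₀ : St) (h₀ : q₀.isX = false) (w : List Letter) (p : ZMod 4) :
    Same (Dg q₀ ((p, St.smA) :: w) (bst p)) (Dg q₀ w (bst (p + 1))) := by
  have h1 := dg_rev q₀ (bst p) ((p, St.smA) :: w)
  have e1 : ((p, St.smA) :: w).reverse.map negL = w.reverse.map negL ++ [(-p, St.smA)] := by
    rw [List.reverse_cons, List.map_append]
    rfl
  rw [e1, ← (cr_bst p).1] at h1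
  have h2 : Same (Dg (bst (-p)) (w.reverse.map negL ++ [(-p, St.smA)]) q₀)
      (Dg (bst (-p + 1)) (w.reverse.map negL ++ []) q₀) :=
    dg_tm (w := [(-p, St.smA)]) (w' := []) (tm_smA (-p)) (w.reverse.map negL) q₀
  rw [List.append_nil, (cr_bst p).2] at h2
  have h3 := dg_rev (bst (p + 1)) q₀ (w.reverse.map negL)
  rw [cr_rev2] at h3
  rw [(cr_bst p).1] at h1
  rw [(cr_bst p).1] at h2
  exact h1.tr (h2.tr h3)

theorem dg_kink_out (q₀ : St) (h₀ : q₀.isX = false) (w : List Letter) (p : ZMod 4) (q : St)
    (hq : q.isX = true) : Same (Dg q₀ ((p, q) :: w) (bst (p + 1))) (Dg q₀ w (bst (p + 1))) := by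
  have h1 := dg_rev q₀ (bst (p + 1)) ((p, q) :: w)
  have e1 : ((p, q) :: w).reverse.map negL = w.reverse.map negL ++ [(-p, q)] := by
    rw [List.reverse_cons, List.map_append]
    rfl
  rw [e1] at h1
  have h2 := dg_kink q₀ (w.reverse.map negL) (-p) q hq
  rw [(cr_bst p).2] at h2
  have h3 := dg_rev (bst (p + 1)) q₀ (w.reverse.map negL)
  rw [cr_rev2] at h3
  exact h1.tr (h2.tr h3)

/-! ### the top coefficients -/

private theorem cr_altX : ∀ p : ZMod 4, (alt p).2.isX = true := by decide

private theorem cr_len (q₀ : St) (w : List (ZMod 4)) (q₁ : St) (h₀ : q₀.isX = false)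
    (h₁ : q₁.isX = false) : nX (Dg q₀ (w.map alt) q₁).s = w.length := by
  have h := nX_word (w.map alt) q₀ q₁ h₀ h₁ (by
    intro l hl
    obtain ⟨p, -, rfl⟩ := List.mem_map.1 hl
    exact cr_altX p)
  rw [List.length_map] at h
  exact h

private theorem cr_bstX : ∀ p : ZMod 4, (bst p).isX = false := by decide

/-- walk along the closed diagram without letters -/
private def crE (p : ZMod 4) (x : Dart (Unit ⊕ Unit)) : Dart (Unit ⊕ Unit) :=
  match x.1 with
  | Sum.inl _ => (Sum.inr (), 1 - x.2)
  | Sum.inr _ => (Sum.inl (), 1 - x.2)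

private def crR (p : ZMod 4) (x : Dart (Unit ⊕ Unit)) : Dart (Unit ⊕ Unit) :=
  (x.1, (Sum.elim (fun _ : Unit => bst p) (fun _ : Unit => bst (p + 1)) x.1).mate x.2)

private def crV (p : ZMod 4) : ℕ → Dart (Unit ⊕ Unit)
  | 0 => (Sum.inl (), 0)
  | n + 1 => if n % 2 = 0 then crR p (crV p n) else crE p (crV p n)

private theorem cr7 : ∀ (p : ZMod 4) (x : Dart (Unit ⊕ Unit)), ∃ n : Fin 8, crV p n = x := by
  decide +kernel

private theorem cr8 (p : ZMod 4) (x : Dart (Unit ⊕ Unit)) :
    (Dg (bst p) [] (bst (p + 1))).S.α x = crE p x := by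
  obtain ⟨v | v, j⟩ := x <;> rfl

private theorem cr_comps (p : ZMod 4) :
    comps (Dg (bst p) [] (bst (p + 1))).S (Dg (bst p) [] (bst (p + 1))).s = 1 := by
  have h1 : ∀ n, Relation.EqvGen (fun x y : Dart (Unit ⊕ Unit) =>
      y = (Dg (bst p) [] (bst (p + 1))).S.α x ∨ y = tau (Dg (bst p) [] (bst (p + 1))).s x)
      (crV p 0) (crV p n) := by
    intro n
    induction n with
    | zero => exact Relation.EqvGen.refl _
    | succ n ih =>
      refine Relation.EqvGen.trans _ _ _ ih ?_
      rw [crV]
      by_cases hn : n % 2 = 0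
      · rw [if_pos hn]
        exact Relation.EqvGen.rel _ _ (Or.inr rfl)
      · rw [if_neg hn]
        refine Relation.EqvGen.rel _ _ (Or.inl ?_)
        rw [cr8]
  unfold comps classes
  rw [Nat.card_eq_one_iff_unique]
  refine ⟨⟨?_⟩, ⟨Quotient.mk _ (crV p 0)⟩⟩
  have h2 : ∀ x : Dart (Unit ⊕ Unit), (Quotient.mk (Relation.EqvGen.setoid
      (fun x y : Dart (Unit ⊕ Unit) =>
      y = (Dg (bst p) [] (bst (p + 1))).S.α x ∨ y = tau (Dg (bst p) [] (bst (p + 1))).s x))
      (crV p 0)) = Quotient.mk _ x := by
    intro x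
    obtain ⟨n, hn⟩ := cr7 p x
    have h3 := h1 n
    rw [hn] at h3
    exact Quotient.sound h3
  intro a b
  induction a using Quotient.ind with
  | _ a =>
    induction b using Quotient.ind with
    | _ b => exact (h2 a).symm.trans (h2 b)

private theorem cr_one (p : ZMod 4) : Q zL muL (Dg (bst p) [] (bst (p + 1))).S
    (Dg (bst p) [] (bst (p + 1))).s = 1 := by
  have h1 : nX (Dg (bst p) [] (bst (p + 1))).s = 0 :=
    cr_len (bst p) [] (bst (p + 1)) (cr_bstX _) (cr_bstX _)
  have h2 := Q_empty (S := (Dg (bst p) [] (bst (p + 1))).S) zL_mul_muL h1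
  rw [cr_comps, Nat.sub_self, pow_zero] at h2
  exact h2

private theorem cr_kink1 (p : ZMod 4) (q : St) (hq : q.isX = true) :
    Same (Dg (bst p) [(p, q)] (bst p)) (Dg (bst p) [] (bst (p + 1))) := by
  have h0 : ∀ p : ZMod 4, bst (p + 1 + 1) = bst p := by decide
  have h1 := dg_cap (bst p) [] p (p + 1) q hq (cr_bstX p)
  have h2 : ∀ q' : St, q'.isX = true → Same (Dg (bst p) [(p + 1, q')] (bst (p + 1)))
      (Dg (bst p) [] (bst (p + 1))) := by
    intro q' hq'
    have h3 := dg_kink (bst (p + 1)) [] (p + 1) q' hq'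
    rw [h0] at h3
    exact h3
  refine h1.tr (h2 _ ?_)
  split_ifs
  · exact hq
  · cases q <;> simp_all [St.isX, St.sw]

/-- change of the outermost letter -/
private theorem cr_upd (q₀ : St) (w : List Letter) (p : ZMod 4) (a b q₁ : St) :
    update (wDS q₀ ((p, a) :: w) q₁) (Sum.inl (Sum.inr true : WV w ⊕ Bool)) b =
      wDS q₀ ((p, b) :: w) q₁ := by
  unfold wDS
  rw [Sum.update_elim_inl]
  congr 1
  exact wm_upd1 (wS q₀ w) a b

theorem top_kink (w : List (ZMod 4)) (p q : ZMod 4) (hw : ∀ r ∈ p :: w, r = 2 ∨ r = 3)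
    (hq : (p :: w).getLast (List.cons_ne_nil _ _) = q) :
    cf1 (Q zL muL (Dg (bst q) ((p :: w).map alt) (bst (p + 1))).S
      (Dg (bst q) ((p :: w).map alt) (bst (p + 1))).s) (w.length : ℤ) =
      if w = [] then 1 else 0 := by
  have h1 : Same (Dg (bst q) ((p :: w).map alt) (bst (p + 1)))
      (Dg (bst q) (w.map alt) (bst (p + 1))) :=
    dg_kink_out (bst q) (cr_bstX q) (w.map alt) p (alt p).2 (cr_altX p)
  rw [h1.q]
  by_cases hw0 : w = []
  · subst hw0
    have hqp : p = q := hq
    subst hqp
    rw [if_pos rfl]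
    have h2 := cr_one p
    have h3 : Q zL muL (Dg (bst p) (([] : List (ZMod 4)).map alt) (bst (p + 1))).S
      (Dg (bst p) (([] : List (ZMod 4)).map alt) (bst (p + 1))).s = 1 := h2
    rw [h3, cf1_one]
    rfl
  · rw [if_neg hw0]
    have h2 := cr_len (bst q) w (bst (p + 1)) (cr_bstX _) (cr_bstX _)
    have h3 : 1 ≤ w.length := List.length_pos_iff.2 hw0
    have h4 := Q_deg_le (Dg (bst q) (w.map alt) (bst (p + 1))).planar (by rw [h2]; exact h3)
    rw [h2] at h4
    exact h4 _ (by omega)

/-- the arc between the two outermost letters -/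
private theorem cr_arc (q₀ q₁ : St) (w : List Letter) (p p' : ZMod 4) (a b : St) (i : ZMod 4)
    (x y : ZMod 4) (hx : outDart p' i = (true, x)) (hy : inDart p i = (true, y)) :
    Arc (wD ((p, a) :: (p', b) :: w)) (wDS q₀ ((p, a) :: (p', b) :: w) q₁)
      (Sum.inl (Sum.inl (Sum.inr true : WV w ⊕ Bool) : (WV w ⊕ Bool) ⊕ Bool), x)
      (Sum.inl (Sum.inr true : (WV w ⊕ Bool) ⊕ Bool), y) := by
  have h1 : (app (wT w) p').link (Sum.inr true, x) = Sum.inr i := by
    have h2 := (app (wT w) p').link_port i
    have h3 : (app (wT w) p').port i = (Sum.inr true, x) := by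
      show dr (outDart p' i) = _
      rw [hx]
    rw [h3] at h2
    exact h2
  have h4 : (app (app (wT w) p') p).link (Sum.inl (Sum.inr true), x) =
      Sum.inl (Sum.inr true, y) := by
    have h5 := WM.app_link_dl (app (wT w) p') p ((Sum.inr true, x) : Dart (WV w ⊕ Bool))
    rw [h1] at h5
    refine h5.trans ?_
    simp only [hy]
  refine Relation.EqvGen.rel _ _ (Or.inl ?_)
  show _ = glueα (app (app (wT w) p') p) leafT (Sum.inl (Sum.inl (Sum.inr true)), x)
  simp only [glueα, h4]
  rfl

theorem top_alt (w : List (ZMod 4)) (p q : ZMod 4) (hw : ∀ r ∈ p :: w, r = 2 ∨ r = 3)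
    (hq : (p :: w).getLast (List.cons_ne_nil _ _) = q) :
    cf1 (Q zL muL (Dg (bst q) ((p :: w).map alt) (bst p)).S
      (Dg (bst q) ((p :: w).map alt) (bst p)).s) (w.length : ℤ) =
      if w = [] then 1 else 2 := by
  induction w generalizing p with
  | nil =>
    have hqp : p = q := hq
    subst hqp
    have h1 : Same (Dg (bst p) (([p] : List (ZMod 4)).map alt) (bst p))
        (Dg (bst p) [] (bst (p + 1))) := cr_kink1 p (alt p).2 (cr_altX p)
    rw [h1.q, cr_one, cf1_one, if_pos rfl]
    rfl
  | cons p' w' ih =>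
    rw [if_neg (List.cons_ne_nil _ _)]
    have hw' : ∀ r ∈ p' :: w', r = 2 ∨ r = 3 := fun r hr => hw r (List.mem_cons_of_mem _ hr)
    have hq' : (p' :: w').getLast (List.cons_ne_nil _ _) = q := by
      rw [← hq]
      exact (List.getLast_cons (List.cons_ne_nil _ _)).symm
    have ih1 := ih p' hw' hq'
    have ih2 := top_kink w' p' q hw' hq'
    have hp := hw p List.mem_cons_self
    have hp' := hw' p' List.mem_cons_self
    -- the diagrams
    have hn := cr_len (bst q) (p :: p' :: w') (bst p) (cr_bstX _) (cr_bstX _)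
    let v : (Dg (bst q) ((p :: p' :: w').map alt) (bst p)).V :=
      Sum.inl (Sum.inr true : WV ((p' :: w').map alt) ⊕ Bool)
    have hv : ((Dg (bst q) ((p :: p' :: w').map alt) (bst p)).s v).isX = true := cr_altX p
    have hsk := Q_skein zL_mul_muL (Dg (bst q) ((p :: p' :: w').map alt) (bst p)).planar v hv
    have eu : ∀ c : St, update (Dg (bst q) ((p :: p' :: w').map alt) (bst p)).s v c =
        wDS (bst q) ((p, c) :: (p' :: w').map alt) (bst p) := fun c =>
      cr_upd (bst q) ((p' :: w').map alt) p (alt p).2 c (bst p)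
    have qA : Q zL muL (Dg (bst q) ((p :: p' :: w').map alt) (bst p)).S
        (update (Dg (bst q) ((p :: p' :: w').map alt) (bst p)).s v St.smA) =
        Q zL muL (Dg (bst q) ((p' :: w').map alt) (bst (p + 1))).S
          (Dg (bst q) ((p' :: w').map alt) (bst (p + 1))).s := by
      rw [eu]
      exact (dg_smA (bst q) (cr_bstX q) ((p' :: w').map alt) p).q
    have qB : Q zL muL (Dg (bst q) ((p :: p' :: w').map alt) (bst p)).S
        (update (Dg (bst q) ((p :: p' :: w').map alt) (bst p)).s v St.smB) =
        Q zL muL (Dg (bst q) ((p' :: w').map alt) (bst p)).S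
          (Dg (bst q) ((p' :: w').map alt) (bst p)).s := by
      rw [eu]
      exact (dg_straight (bst q) (bst p) [] ((p' :: w').map alt) p).q
    rw [qA, qB] at hsk
    -- the changed crossing
    have hdeg : cf1 (Q zL muL (Dg (bst q) ((p :: p' :: w').map alt) (bst p)).S
        (update (Dg (bst q) ((p :: p' :: w').map alt) (bst p)).s v
          ((Dg (bst q) ((p :: p' :: w').map alt) (bst p)).s v).sw))
        (((p' :: w').length : ℕ) : ℤ) = 0 := by
      have hsw : ((Dg (bst q) ((p :: p' :: w').map alt) (bst p)).s v).sw = (alt p).2.sw := rfl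
      rw [hsw, eu]
      have hl : ∀ l ∈ (p, (alt p).2.sw) :: (p' :: w').map alt, l.2.isX = true := by
        have h : ∀ p : ZMod 4, (alt p).2.sw.isX = true := by decide
        intro l hl
        rcases List.mem_cons.1 hl with rfl | hl
        · exact h p
        · obtain ⟨r, -, rfl⟩ := List.mem_map.1 hl
          exact cr_altX r
      have hnt := nX_word ((p, (alt p).2.sw) :: (p' :: w').map alt) (bst q) (bst p) (cr_bstX _)
        (cr_bstX _) hl
      have hpl : Planar (wD ((p, (alt p).2.sw) :: (p' :: w').map alt))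
        (wDS (bst q) ((p, (alt p).2.sw) :: (p' :: w').map alt) (bst p)) := planar_word _ _
      have key : ∃ i x y : ZMod 4, outDart p' i = (true, x) ∧ inDart p i = (true, y) ∧
          (alt p').2.upper x = (alt p).2.sw.upper y := by
        have h : ∀ p p' : ZMod 4, (p = 2 ∨ p = 3) → (p' = 2 ∨ p' = 3) →
          ∃ i x y : ZMod 4, outDart p' i = (true, x) ∧ inDart p i = (true, y) ∧
            (alt p').2.upper x = (alt p).2.sw.upper y := by decide
        exact h p p' hp hp'
      obtain ⟨i, x, y, hx, hy, hu⟩ := key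
      have ha := cr_arc (bst q) (bst p) (w'.map alt) p p' (alt p).2.sw (alt p').2 i x y hx hy
      have hdl := Q_deg_le_two hpl (v := (Sum.inl (Sum.inl (Sum.inr true : WV (w'.map alt) ⊕ Bool) :
          (WV (w'.map alt) ⊕ Bool) ⊕ Bool) : ((WV (w'.map alt) ⊕ Bool) ⊕ Bool) ⊕ Unit))
        (w := (Sum.inl (Sum.inr true : (WV (w'.map alt) ⊕ Bool) ⊕ Bool) :
          ((WV (w'.map alt) ⊕ Bool) ⊕ Bool) ⊕ Unit)) (i := x) (j := y)
        (by intro h; cases h) (cr_altX p')
        (by
          have h : ∀ p : ZMod 4, (alt p).2.sw.isX = true := by decide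
          exact h p) ha hu
      refine hdl _ ?_
      rw [hnt]
      simp only [List.length_cons, List.length_map]
      push_cast
      omega
    have hco := congrArg (fun f => cf1 f (((p' :: w').length : ℕ) : ℤ)) hsk
    simp only [cf1_add, cf1_zL_mul] at hco
    rw [hdeg, add_zero] at hco
    have hidx : (((p' :: w').length : ℕ) : ℤ) - 1 = (w'.length : ℤ) := by
      rw [List.length_cons]
      push_cast
      ring
    rw [hidx] at hco
    have hb : ∀ p p' : ZMod 4, (p = 2 ∨ p = 3) → (p' = 2 ∨ p' = 3) →
        (bst p = bst p' ∧ bst (p + 1) = bst (p' + 1)) ∨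
        (bst p = bst (p' + 1) ∧ bst (p + 1) = bst p') := by decide
    rcases hb p p' hp hp' with ⟨h1, h2⟩ | ⟨h1, h2⟩
    · rw [h2, ih2] at hco
      have h3 : cf1 (Q zL muL (Dg (bst q) ((p' :: w').map alt) (bst p)).S
          (Dg (bst q) ((p' :: w').map alt) (bst p)).s) (w'.length : ℤ) =
          if w' = [] then 1 else 2 := by
        rw [h1]
        exact ih1
      rw [h3] at hco
      rw [hco]
      split_ifs <;> norm_num
    · have h3 : cf1 (Q zL muL (Dg (bst q) ((p' :: w').map alt) (bst p)).S
          (Dg (bst q) ((p' :: w').map alt) (bst p)).s) (w'.length : ℤ) =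
          if w' = [] then 1 else 0 := by
        rw [h1]
        exact ih2
      rw [h2, ih1, h3] at hco
      rw [hco]
      split_ifs <;> norm_num

/-! ### the Conway diagrams -/

/-- the positions of the letters -/
private def crP : List ℕ → Bool → List (ZMod 4)
  | [], _ => []
  | x :: l, b => List.replicate x (if b = true then 3 else 2) ++ crP l (!b)

private theorem cr_cw (a : List ℕ) (b : Bool) : cw a b = (crP a b).map alt := by
  induction a generalizing b with
  | nil => rfl
  | cons x l ih =>
    show List.replicate x (alt (if b = true then 3 else 2)) ++ cw l (!b) =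
      (List.replicate x (if b = true then 3 else 2) ++ crP l (!b)).map alt
    rw [ih, List.map_append, List.map_replicate]

private theorem cr_length (a : List ℕ) (b : Bool) : (crP a b).length = a.sum := by
  induction a generalizing b with
  | nil => rfl
  | cons x l ih =>
    show (List.replicate x (if b = true then (3 : ZMod 4) else 2) ++ crP l (!b)).length = _
    rw [List.length_append, List.length_replicate, ih, List.sum_cons]

private theorem cr_mem (a : List ℕ) (b : Bool) : ∀ r ∈ crP a b, r = 2 ∨ r = 3 := by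
  induction a generalizing b with
  | nil => exact fun r hr => absurd hr List.not_mem_nil
  | cons x l ih =>
    intro r hr
    have hr' : r ∈ List.replicate x (if b = true then (3 : ZMod 4) else 2) ++ crP l (!b) := hr
    rw [List.mem_append] at hr'
    rcases hr' with h | h
    · rw [List.eq_of_mem_replicate h]
      split_ifs
      · exact Or.inr rfl
      · exact Or.inl rfl
    · exact ih _ r h

private theorem cr_last (a : List ℕ) (b : Bool) (hpa : ∀ x ∈ a, 0 < x) (h : crP a b ≠ []) :
    (crP a b).getLast h =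
      if (a.length % 2 = 1) = (b = true) then (3 : ZMod 4) else 2 := by
  induction a generalizing b with
  | nil => exact absurd rfl h
  | cons x l ih =>
    have hx : 0 < x := hpa x List.mem_cons_self
    have hl : ∀ y ∈ l, 0 < y := fun y hy => hpa y (List.mem_cons_of_mem _ hy)
    by_cases hl0 : l = []
    · subst hl0
      have h1 : crP [x] b = List.replicate x (if b = true then (3 : ZMod 4) else 2) := by
        show _ ++ [] = _
        rw [List.append_nil]
      have h2 : (crP [x] b).getLast h ∈ crP [x] b := List.getLast_mem h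
      have h3 : (crP [x] b).getLast h ∈ List.replicate x (if b = true then (3 : ZMod 4) else 2) :=
        h1 ▸ h2
      rw [List.eq_of_mem_replicate h3]
      cases b <;> simp
    · have hne : crP l (!b) ≠ [] := by
        intro h0
        have h1 := cr_length l (!b)
        rw [h0] at h1
        obtain ⟨y, l', rfl⟩ := List.exists_cons_of_ne_nil hl0
        have h2 := hl y List.mem_cons_self
        simp only [List.length_nil, List.sum_cons] at h1
        omega
      have h1 : (crP (x :: l) b).getLast h = (crP l (!b)).getLast hne :=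
        List.getLast_append_of_ne_nil _ hne
      rw [h1, ih (!b) hl, List.length_cons]
      rcases Nat.mod_two_eq_zero_or_one l.length with h2 | h2
      · have h3 : (l.length + 1) % 2 = 1 := by omega
        rw [h2, h3]
        cases b <;> simp
      · have h3 : (l.length + 1) % 2 = 0 := by omega
        rw [h2, h3]
        cases b <;> simp

private theorem cr_cqX (a : List ℕ) : (cq a).isX = false := by
  unfold cq
  split_ifs <;> rfl

theorem conway_n (a : List ℕ) : (conway a).n = a.sum := by
  have h := cr_len (cq a) (crP a true) St.smA (cr_cqX a) rfl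
  rw [← cr_cw, cr_length] at h
  exact h

theorem top_conway (a : List ℕ) (hpa : ∀ x ∈ a, 0 < x) (h : 2 ≤ a.sum) :
    cf1 (Q zL muL (conway a).S (conway a).s) ((a.sum : ℤ) - 1) = 2 := by
  have hlen := cr_length a true
  have hne : crP a true ≠ [] := by
    intro h0
    rw [h0, List.length_nil] at hlen
    omega
  obtain ⟨p, w, hpw⟩ := List.exists_cons_of_ne_nil hne
  have hmem := cr_mem a true
  have hlast := cr_last a true hpa hne
  have hp3 : p = 3 := by
    cases a with
    | nil => exact absurd rfl hne
    | cons x l =>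
      have hx : 0 < x := hpa x List.mem_cons_self
      obtain ⟨y, rfl⟩ : ∃ y, x = y + 1 := ⟨x - 1, by omega⟩
      have h1 : crP ((y + 1) :: l) true = 3 :: (List.replicate y 3 ++ crP l false) := rfl
      rw [h1] at hpw
      exact (List.cons.inj hpw).1.symm
  have hq : bst ((crP a true).getLast hne) = cq a := by
    rw [hlast]
    unfold cq
    by_cases h1 : a.length % 2 = 1
    · rw [if_pos (by simp [h1]), if_pos h1]
      decide
    · rw [if_neg (by simp [h1]), if_neg h1]
      decide
  have hc : conway a = Dg (bst ((p :: w).getLast (List.cons_ne_nil _ _)))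
      ((p :: w).map alt) (bst p) := by
    have e1 : (crP a true).getLast hne = (p :: w).getLast (List.cons_ne_nil _ _) := by
      congr 1
    rw [← e1, hq, hp3, ← hp3, ← hpw, ← cr_cw]
    unfold conway
    have e2 : bst p = St.smA := by rw [hp3]; decide
    rw [e2]
  have ht := top_alt w p _ (by rw [← hpw]; exact hmem) rfl
  rw [hc]
  rw [hpw, List.length_cons] at hlen
  have hw : w ≠ [] := by
    rintro rfl
    rw [List.length_nil] at hlen
    omega
  rw [if_neg hw] at ht
  have e3 : (a.sum : ℤ) - 1 = (w.length : ℤ) := by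
    rw [← hlen]
    push_cast
    ring
  rw [e3]
  exact ht

theorem crossing_conway (a : List ℕ) (hpa : ∀ x ∈ a, 0 < x) (h : 2 ≤ a.sum)
    (hk : (conway a).IsKnot) : crossingNumber (conway a) = (a.sum : ℕ∞) := by
  unfold crossingNumber
  apply le_antisymm
  · refine (iInf_le _ ⟨conway a, Same.rfl' _⟩).trans ?_
    rw [conway_n]
  · refine le_iInf ?_
    rintro ⟨D', hD'⟩
    rw [Nat.cast_le]
    by_contra hlt
    push Not at hlt
    have htop := top_conway a hpa h
    rw [hD'.q] at htop
    by_cases h0 : D'.n = 0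
    · have h1 := Q_empty (S := D'.S) zL_mul_muL h0
      have h2 : comps D'.S D'.s = 1 := by
        rw [← hD'.comps]
        exact hk
      rw [h1, h2, Nat.sub_self, pow_zero, cf1_one, if_neg (by omega)] at htop
      exact absurd htop (by norm_num)
    · have h1 := Q_deg_le D'.planar (by
        have : 1 ≤ D'.n := Nat.one_le_iff_ne_zero.2 h0
        exact this)
      have h2 := h1 ((a.sum : ℤ) - 1) (by
        have : D'.n < a.sum := hlt
        have h3 : (nX D'.s : ℤ) < a.sum := by exact_mod_cast this
        omega)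
      rw [h2] at htop
      exact absurd htop (by norm_num)

theorem crossing_one : symCrossingNumber (conway [1]) = 0 := by
  have h1 : Same (conway [1]) (Dg (bst 3) [] (bst (3 + 1))) :=
    cr_kink1 3 (alt 3).2 (cr_altX 3)
  have h2 : (Dg (bst 3) [] (bst (3 + 1))).n = 0 :=
    cr_len (bst 3) [] (bst (3 + 1)) (cr_bstX _) (cr_bstX _)
  unfold symCrossingNumber
  refine le_antisymm ?_ (by simp)
  refine (iInf_le _ ⟨Dg (bst 3) [] (bst (3 + 1)), h1, Or.inl h2⟩).trans ?_
  rw [h2]
  simp

end Pool.Agent.Helper65.LK
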