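import Mathlib

/-!
# LK-07. Cyclic unimodal orders are connected by adjacent swaps

`e : ZMod m ≃ Fin m` is unimodal if for every level `k` at most one `j` has `e j ≤ k < e (j + 1)`
(then also at most one `j` has `e j > k ≥ e (j + 1)`, as these two numbers are equal: telescoping
sum of the indicator of `e j ≤ k`; so every sublevel set is a cyclic interval).

Proof of `cyc_connect`.  (a) Let `e` be cyclic unimodal with top element `t` (`e t = m - 1`).  Use
the coordinate `cc t j` on the path `t+1, t+2, ..., t`.  If the coordinates of the elements of height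
`0, 1, 2, ...` are not increasing, then exchanging the two heights at the first descent keeps `e`
unimodal and increases `∑ e j * cc t j`.  Hence `e` is connected with
`C_t : t+1 < t+2 < ... < t-1 < t`.
(b) `C_t` is connected with `C_(t-1)`: swap the two top elements `t-1 < t` of `C_t`; the result
`t+1 < ... < t-2 < t < t-1` is cyclic unimodal with top element `t - 1`, so connected with `C_(t-1)`
by (a).  (`m ≥ 2`; for `m = 1` there is nothing to prove.)  Hence all `C_t` are connected.
-/

namespace Pool.Agent.Helper65.LK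

/-- every level is crossed upwards at most once -/
def Uni {m : ℕ} (e : ZMod m ≃ Fin m) : Prop :=
  ∀ k : ℕ, {j : ZMod m | (e j : ℕ) ≤ k ∧ k < (e (j + 1) : ℕ)}.ncard ≤ 1

section cyc

variable {m : ℕ} [NeZero m]

/-- coordinate on the path `t+1, ..., t` -/
private def cc (t j : ZMod m) : ℕ := (j - t - 1).val

private lemma cc_lt (t j : ZMod m) : cc t j < m := ZMod.val_lt _

private lemma cc_cast (t j : ZMod m) : t + 1 + (cc t j : ZMod m) = j := by
  unfold cc
  rw [ZMod.natCast_zmod_val]
  ring

private lemma cc_add (t : ZMod m) (n : ℕ) (hn : n < m) : cc t (t + 1 + (n : ZMod m)) = n := by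
  unfold cc
  have : t + 1 + (n : ZMod m) - t - 1 = n := by ring
  rw [this, ZMod.val_natCast_of_lt hn]

private lemma cc_top (t : ZMod m) : cc t t = m - 1 := by
  have hm : 0 < m := NeZero.pos m
  have h : t + 1 + ((m - 1 : ℕ) : ZMod m) = t := by
    have h1 : ((m - 1 + 1 : ℕ) : ZMod m) = 0 := by
      rw [Nat.sub_add_cancel (by omega)]
      exact ZMod.natCast_self m
    rw [Nat.cast_add, Nat.cast_one] at h1
    linear_combination h1
  have h2 := cc_add t (m - 1) (by omega)
  rwa [h] at h2

private lemma cc_inj {t j j' : ZMod m} (h : cc t j = cc t j') : j = j' := by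
  rw [← cc_cast t j, h, cc_cast]

private lemma cc_succ (t : ZMod m) {j : ZMod m} (h : j ≠ t) : cc t (j + 1) = cc t j + 1 := by
  have h1 : cc t j + 1 < m := by
    have h2 := cc_lt t j
    by_contra hc
    have h3 : cc t j = m - 1 := by omega
    exact h (cc_inj (h3.trans (cc_top t).symm))
  have h2 : t + 1 + ((cc t j + 1 : ℕ) : ZMod m) = j + 1 := by
    rw [Nat.cast_add, Nat.cast_one, ← add_assoc, cc_cast]
  have h3 := cc_add t _ h1
  rwa [h2] at h3

/-- walking up along the path from an element of `A` to an element outside `A` -/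
private lemma walk (t : ZMod m) (A : ZMod m → Prop) :
    ∀ (n : ℕ) {x y : ZMod m}, A x → ¬ A y → cc t x + n = cc t y →
      ∃ u, A u ∧ ¬ A (u + 1) ∧ cc t x ≤ cc t u ∧ cc t u < cc t y := by
  intro n
  induction n with
  | zero =>
    intro x y hx hy h
    rw [add_zero] at h
    rw [cc_inj h] at hx
    exact absurd hx hy
  | succ n ih =>
    intro x y hx hy h
    have hxt : x ≠ t := by
      intro hxt
      rw [hxt, cc_top] at h
      have := cc_lt t y
      omega
    have h1 := cc_succ t hxt
    by_cases hx1 : A (x + 1)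
    · obtain ⟨u, hu1, hu2, hu3, hu4⟩ := ih hx1 hy (by omega)
      exact ⟨u, hu1, hu2, by omega, hu4⟩
    · exact ⟨x, hx, hx1, le_rfl, by omega⟩

private lemma walk' (t : ZMod m) (A : ZMod m → Prop) {x y : ZMod m} (hx : A x) (hy : ¬ A y)
    (h : cc t x ≤ cc t y) : ∃ u, A u ∧ ¬ A (u + 1) ∧ cc t x ≤ cc t u ∧ cc t u < cc t y :=
  walk t A (cc t y - cc t x) hx hy (by omega)

private lemma uni_iff {e : ZMod m ≃ Fin m} : Uni e ↔ ∀ (k : ℕ) (j j' : ZMod m),
    (e j : ℕ) ≤ k → k < (e (j + 1) : ℕ) → (e j' : ℕ) ≤ k → k < (e (j' + 1) : ℕ) → j = j' := by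
  unfold Uni
  constructor
  · intro h k j j' h1 h2 h3 h4
    exact (Set.ncard_le_one (Set.toFinite _)).1 (h k) j ⟨h1, h2⟩ j' ⟨h3, h4⟩
  · intro h k
    rw [Set.ncard_le_one (Set.toFinite _)]
    rintro j ⟨h1, h2⟩ j' ⟨h3, h4⟩
    exact h k j j' h1 h2 h3 h4

/-- the exchange of two neighbouring heights -/
private def sw {k : ℕ} (hk : k + 1 < m) (x : Fin m) : Fin m :=
  Equiv.swap ⟨k, Nat.lt_of_succ_lt hk⟩ ⟨k + 1, hk⟩ x

private lemma sw_val {k : ℕ} (hk : k + 1 < m) (x : Fin m) :
    (sw hk x : ℕ) = if (x : ℕ) = k then k + 1 else if (x : ℕ) = k + 1 then k else x := by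
  unfold sw
  rw [Equiv.swap_apply_def]
  by_cases h1 : (x : ℕ) = k
  · have : x = ⟨k, Nat.lt_of_succ_lt hk⟩ := Fin.ext h1
    rw [if_pos this, if_pos h1]
  · have h1' : x ≠ ⟨k, Nat.lt_of_succ_lt hk⟩ := fun h => h1 (by rw [h])
    rw [if_neg h1', if_neg h1]
    by_cases h2 : (x : ℕ) = k + 1
    · have : x = ⟨k + 1, hk⟩ := Fin.ext h2
      rw [if_pos this, if_pos h2]
    · have h2' : x ≠ ⟨k + 1, hk⟩ := fun h => h2 (by rw [h])
      rw [if_neg h2', if_neg h2]

/-- `e` followed by the exchange of two neighbouring heights -/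
private def esw (e : ZMod m ≃ Fin m) {k : ℕ} (hk : k + 1 < m) : ZMod m ≃ Fin m :=
  e.trans (Equiv.swap ⟨k, Nat.lt_of_succ_lt hk⟩ ⟨k + 1, hk⟩)

private lemma esw_val (e : ZMod m ≃ Fin m) {k : ℕ} (hk : k + 1 < m) (j : ZMod m) :
    (esw e hk j : ℕ) = if (e j : ℕ) = k then k + 1 else if (e j : ℕ) = k + 1 then k else e j :=
  sw_val hk (e j)

private lemma uni_esw {e : ZMod m ≃ Fin m} (he : Uni e) {k : ℕ} (hk : k + 1 < m)
    (h : ∀ j j' : ZMod m, ((e j : ℕ) < k ∨ (e j : ℕ) = k + 1) →
      ¬ ((e (j + 1) : ℕ) < k ∨ (e (j + 1) : ℕ) = k + 1) →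
      ((e j' : ℕ) < k ∨ (e j' : ℕ) = k + 1) →
      ¬ ((e (j' + 1) : ℕ) < k ∨ (e (j' + 1) : ℕ) = k + 1) → j = j') : Uni (esw e hk) := by
  rw [uni_iff] at he ⊢
  intro i j j' h1 h2 h3 h4
  have key : ∀ x : ZMod m, ((esw e hk x : ℕ) ≤ i ↔
      if i = k then ((e x : ℕ) < k ∨ (e x : ℕ) = k + 1) else (e x : ℕ) ≤ i) := by
    intro x
    rw [esw_val]
    split_ifs <;> omega
  rw [← not_le] at h2 h4
  rw [key] at h1 h2 h3 h4
  by_cases hi : i = k
  · rw [if_pos hi] at h1 h2 h3 h4
    exact h j j' h1 h2 h3 h4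
  · rw [if_neg hi] at h1 h2 h3 h4
    exact he i j j' h1 (not_le.1 h2) h3 (not_le.1 h4)

/-- the increasing order on the path `t+1, ..., t` -/
private def CC (t : ZMod m) : ZMod m ≃ Fin m where
  toFun j := ⟨cc t j, cc_lt t j⟩
  invFun k := t + 1 + ((k : ℕ) : ZMod m)
  left_inv j := cc_cast t j
  right_inv k := Fin.ext (cc_add t k k.2)

private lemma CC_val (t j : ZMod m) : (CC t j : ℕ) = cc t j := rfl

private lemma uni_CC (t : ZMod m) : Uni (CC t) := by
  rw [uni_iff]
  intro k j j' h1 h2 h3 h4
  simp only [CC_val] at h1 h2 h3 h4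
  have key : ∀ j : ZMod m, cc t j ≤ k → k < cc t (j + 1) → cc t j = k := by
    intro j h1 h2
    by_cases hj : j = t
    · subst hj
      rw [cc_top] at h1
      have := cc_lt j (j + 1)
      omega
    · rw [cc_succ t hj] at h2
      omega
  exact cc_inj ((key j h1 h2).trans (key j' h3 h4).symm)

/-- the relation of the theorem -/
private def rr (f g : ZMod m ≃ Fin m) : Prop :=
  Uni f ∧ Uni g ∧ ∃ (k : ℕ) (hk : k + 1 < m),
    g = f.trans (Equiv.swap ⟨k, Nat.lt_of_succ_lt hk⟩ ⟨k + 1, hk⟩)

/-- the weight -/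
private def wt (t : ZMod m) (e : ZMod m ≃ Fin m) : ℤ := ∑ j, (e j : ℤ) * (cc t j : ℤ)

private lemma wt_esw (t : ZMod m) (e : ZMod m ≃ Fin m) {k : ℕ} (hk : k + 1 < m) {P Q : ZMod m}
    (hP : (e P : ℕ) = k + 1) (hQ : (e Q : ℕ) = k) :
    wt t (esw e hk) = wt t e + cc t Q - cc t P := by
  have h1 : ∀ j : ZMod m, ((esw e hk j : ℕ) : ℤ) =
      ((e j : ℕ) : ℤ) + (if j = Q then 1 else 0) - (if j = P then 1 else 0) := by
    intro j
    rw [esw_val]
    by_cases hjQ : j = Q
    · subst hjQ
      have hne : j ≠ P := by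
        intro h
        rw [h, hP] at hQ
        omega
      rw [if_pos hQ, if_pos rfl, if_neg hne, hQ]
      push_cast
      ring
    · by_cases hjP : j = P
      · subst hjP
        rw [if_neg (by omega), if_pos hP, if_neg hjQ, if_pos rfl, hP]
        push_cast
        ring
      · have e1 : (e j : ℕ) ≠ k := by
          intro h
          apply hjQ
          apply e.injective
          apply Fin.ext
          rw [h, hQ]
        have e2 : (e j : ℕ) ≠ k + 1 := by
          intro h
          apply hjP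
          apply e.injective
          apply Fin.ext
          rw [h, hP]
        rw [if_neg e1, if_neg e2, if_neg hjQ, if_neg hjP]
        ring
  unfold wt
  simp only [h1, add_mul, sub_mul, Finset.sum_add_distrib, Finset.sum_sub_distrib, ite_mul,
    one_mul, zero_mul, Finset.sum_ite_eq', Finset.mem_univ, if_true]

/-- the exchange at the first descent keeps `e` unimodal -/
private lemma uni_descent {t : ZMod m} {e : ZMod m ≃ Fin m} (he : Uni e) (ht : (e t : ℕ) = m - 1)
    {k : ℕ} (hk : k + 1 < m) {P Q : ZMod m} (hP : (e P : ℕ) = k + 1) (hQ : (e Q : ℕ) = k)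
    (hPQ : cc t P < cc t Q) (hW : ∀ W : ZMod m, (e W : ℕ) + 1 = k → cc t W < cc t Q) :
    Uni (esw e hk) := by
  have hu := uni_iff.1 he
  have hk2 : k + 1 < m - 1 := by
    by_contra hc
    have : P = t := e.injective (Fin.ext (by omega))
    rw [this, cc_top] at hPQ
    have := cc_lt t Q
    omega
  have hPne : P + 1 ≠ P := by
    intro h
    have hPt : P ≠ t := by
      intro h'
      rw [h', ht] at hP
      omega
    have := cc_succ t hPt
    rw [h] at this
    omega
  have hccle : ∀ x : ZMod m, cc t x ≤ cc t t := by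
    intro x
    rw [cc_top]
    have := cc_lt t x
    omega
  -- level `k + 1`
  have h1 : (e (P + 1) : ℕ) ≤ k + 1 := by
    by_contra hc
    obtain ⟨v, hv1, hv2, hv3, -⟩ := walk' t (fun x => (e x : ℕ) ≤ k + 1) (x := Q) (y := t)
      (by show (e Q : ℕ) ≤ k + 1; omega) (by show ¬ (e t : ℕ) ≤ k + 1; omega) (hccle Q)
    have := hu (k + 1) P v (by omega) (by omega) hv1 (by simpa using hv2)
    rw [← this] at hv3
    omega
  rcases Nat.eq_zero_or_pos k with hk0 | hk0
  · -- the bottom level
    subst hk0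
    refine uni_esw he hk fun j j' g1 _ g3 _ => ?_
    have e1 : j = P := e.injective (Fin.ext (by omega))
    have e2 : j' = P := e.injective (Fin.ext (by omega))
    rw [e1, e2]
  · obtain ⟨W, hWe⟩ : ∃ W : ZMod m, (e W : ℕ) + 1 = k :=
      ⟨e.symm ⟨k - 1, by omega⟩, by rw [Equiv.apply_symm_apply]; show k - 1 + 1 = k; omega⟩
    obtain ⟨u, hu1, hu2, hu3, hu4⟩ := walk' t (fun x => (e x : ℕ) < k) (x := W) (y := Q)
      (by show (e W : ℕ) < k; omega) (by show ¬ (e Q : ℕ) < k; omega) (hW W hWe).le
    have hu1' : (e u : ℕ) < k := hu1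
    have hu2' : ¬ (e (u + 1) : ℕ) < k := hu2
    have huQ : u + 1 = Q := by
      by_contra hne
      have h2 : (e (u + 1) : ℕ) ≠ k := by
        intro h
        exact hne (e.injective (Fin.ext (by rw [h, hQ])))
      obtain ⟨v, hv1, hv2, hv3, -⟩ := walk' t (fun x => (e x : ℕ) ≤ k) (x := Q) (y := t)
        (by show (e Q : ℕ) ≤ k; omega) (by show ¬ (e t : ℕ) ≤ k; omega) (hccle Q)
      have := hu k u v (by omega) (by omega) hv1 (by simpa using hv2)
      rw [← this] at hv3
      omega
    have h3 : (e (P + 1) : ℕ) < k := by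
      have n1 : (e (P + 1) : ℕ) ≠ k + 1 := by
        intro h
        exact hPne (e.injective (Fin.ext (by rw [h, hP])))
      have n2 : (e (P + 1) : ℕ) ≠ k := by
        intro h
        have h4 : P + 1 = Q := e.injective (Fin.ext (by rw [h, hQ]))
        have h5 : P = u := by
          rw [← huQ] at h4
          exact add_right_cancel h4
        rw [h5] at hP
        omega
      omega
    refine uni_esw he hk fun j j' g1 g2 g3 g4 => ?_
    have key : ∀ j : ZMod m, ((e j : ℕ) < k ∨ (e j : ℕ) = k + 1) →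
        ¬ ((e (j + 1) : ℕ) < k ∨ (e (j + 1) : ℕ) = k + 1) →
        (e j : ℕ) ≤ k - 1 ∧ k - 1 < (e (j + 1) : ℕ) := by
      intro j g1 g2
      rcases g1 with g1 | g1
      · omega
      · have : j = P := e.injective (Fin.ext (by rw [g1, hP]))
        rw [this] at g2
        omega
    obtain ⟨a1, a2⟩ := key j g1 g2
    obtain ⟨b1, b2⟩ := key j' g3 g4
    exact hu (k - 1) j j' a1 a2 b1 b2

/-- a unimodal order is connected with the increasing one with the same top element -/
private lemma connect_CC {t : ZMod m} {e : ZMod m ≃ Fin m} (he : Uni e)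
    (ht : (e t : ℕ) = m - 1) : Relation.EqvGen rr e (CC t) := by
  obtain ⟨f, ⟨hf1, hf2, hf3⟩, hmax⟩ := Set.exists_max_image
    {f : ZMod m ≃ Fin m | Relation.EqvGen rr e f ∧ Uni f ∧ (f t : ℕ) = m - 1} (wt t)
    (Set.toFinite _) ⟨e, Relation.EqvGen.refl e, he, ht⟩
  have hm : 0 < m := NeZero.pos m
  -- no descent
  have hno : ∀ k : ℕ, ∀ hk : k + 1 < m,
      cc t (f.symm ⟨k, by omega⟩) < cc t (f.symm ⟨k + 1, hk⟩) := by
    intro k
    induction k using Nat.strong_induction_on with
    | _ k ih =>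
      intro hk
      by_contra hc
      have hQ : (f (f.symm ⟨k, by omega⟩) : ℕ) = k := by rw [Equiv.apply_symm_apply]
      have hP : (f (f.symm ⟨k + 1, hk⟩) : ℕ) = k + 1 := by rw [Equiv.apply_symm_apply]
      have hne : cc t (f.symm ⟨k + 1, hk⟩) ≠ cc t (f.symm ⟨k, by omega⟩) := by
        intro h
        have := cc_inj h
        rw [this, hQ] at hP
        omega
      have hlt : cc t (f.symm ⟨k + 1, hk⟩) < cc t (f.symm ⟨k, by omega⟩) := by omega
      have hW : ∀ W : ZMod m, (f W : ℕ) + 1 = k → cc t W < cc t (f.symm ⟨k, by omega⟩) := by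
        intro W hW
        have h1 := ih (k - 1) (by omega) (by omega)
        have e1 : f.symm ⟨k - 1, by omega⟩ = W := by
          rw [Equiv.symm_apply_eq]
          apply Fin.ext
          show k - 1 = (f W : ℕ)
          omega
        have e2 : (⟨k - 1 + 1, by omega⟩ : Fin m) = ⟨k, by omega⟩ := by
          apply Fin.ext
          show k - 1 + 1 = k
          omega
        rw [e1, e2] at h1
        exact h1
      have hu := uni_descent hf2 hf3 hk hP hQ hlt hW
      have hr : Relation.EqvGen rr e (esw f hk) :=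
        Relation.EqvGen.trans _ _ _ hf1 (Relation.EqvGen.rel _ _ ⟨hf2, hu, k, hk, rfl⟩)
      have htop : (esw f hk t : ℕ) = m - 1 := by
        rw [esw_val]
        have h1 : k + 1 ≠ m - 1 := by
          intro h
          have : f.symm ⟨k + 1, hk⟩ = t := by
            rw [Equiv.symm_apply_eq]
            apply Fin.ext
            show k + 1 = (f t : ℕ)
            omega
          rw [this, cc_top] at hlt
          have := cc_lt t (f.symm ⟨k, by omega⟩)
          omega
        rw [if_neg (by omega), if_neg (by omega)]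
        exact hf3
      have h1 := hmax (esw f hk) ⟨hr, hu, htop⟩
      rw [wt_esw t f hk hP hQ] at h1
      omega
  -- the coordinates are the heights
  have hge : ∀ k : ℕ, ∀ hk : k < m, k ≤ cc t (f.symm ⟨k, hk⟩) := by
    intro k
    induction k with
    | zero => intro _; exact Nat.zero_le _
    | succ k ih =>
      intro hk
      have h1 := ih (by omega)
      have h2 := hno k hk
      omega
  have hle : ∀ d k : ℕ, ∀ hk : k < m, k + d = m - 1 → cc t (f.symm ⟨k, hk⟩) ≤ k := by
    intro d
    induction d with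
    | zero =>
      intro k hk hkd
      have := cc_lt t (f.symm ⟨k, hk⟩)
      omega
    | succ d ih =>
      intro k hk hkd
      have h1 := ih (k + 1) (by omega) (by omega)
      have h2 := hno k (by omega)
      omega
  have hfC : f = CC t := by
    apply Equiv.ext
    intro j
    apply Fin.ext
    rw [CC_val]
    have h1 := hge (f j) (f j).2
    have h2 := hle (m - 1 - (f j : ℕ)) (f j) (f j).2 (by have := (f j).2; omega)
    have e1 : f.symm ⟨(f j : ℕ), (f j).2⟩ = j := f.symm_apply_apply j
    rw [e1] at h1 h2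
    omega
  rw [← hfC]
  exact hf1

private lemma CC_step (t : ZMod m) : Relation.EqvGen rr (CC t) (CC (t - 1)) := by
  have hm : 0 < m := NeZero.pos m
  by_cases h1 : m = 1
  · subst h1
    have : CC t = CC (t - 1) := by
      apply Equiv.ext
      intro j
      exact Subsingleton.elim _ _
    rw [this]
    exact Relation.EqvGen.refl _
  · have hk : m - 2 + 1 < m := by omega
    have hu : Uni (esw (CC t) hk) := by
      refine uni_esw (uni_CC t) hk fun j j' _ g2 _ g4 => ?_
      have key : ∀ j : ZMod m, ¬ ((CC t (j + 1) : ℕ) < m - 2 ∨ (CC t (j + 1) : ℕ) = m - 2 + 1) →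
          (CC t (j + 1) : ℕ) = m - 2 := by
        intro j g
        have := (CC t (j + 1)).2
        omega
      have e1 := key j g2
      have e2 := key j' g4
      have e3 : j + 1 = j' + 1 := (CC t).injective (Fin.ext (by rw [e1, e2]))
      exact add_right_cancel e3
    refine Relation.EqvGen.trans _ (esw (CC t) hk) _
      (Relation.EqvGen.rel _ _ ⟨uni_CC t, hu, m - 2, hk, rfl⟩) (connect_CC hu ?_)
    have hne : t - 1 ≠ t := by
      intro h
      have h2 : (1 : ZMod m) = 0 := by linear_combination -h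
      have h3 : Fact (1 < m) := ⟨by omega⟩
      exact one_ne_zero h2
    have h4 := cc_succ t hne
    rw [sub_add_cancel, cc_top] at h4
    rw [esw_val, CC_val, if_pos (by omega)]
    omega

private lemma CC_all (n : ℕ) (t : ZMod m) : Relation.EqvGen rr (CC t) (CC (t - n)) := by
  induction n with
  | zero =>
    rw [Nat.cast_zero, sub_zero]
    exact Relation.EqvGen.refl _
  | succ n ih =>
    have h := CC_step (t - (n : ZMod m))
    have e : t - ((n + 1 : ℕ) : ZMod m) = t - (n : ZMod m) - 1 := by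
      rw [Nat.cast_add, Nat.cast_one]
      ring
    rw [e]
    exact Relation.EqvGen.trans _ _ _ ih h

end cyc

theorem cyc_connect (m : ℕ) [NeZero m] (e e' : ZMod m ≃ Fin m) (he : Uni e) (he' : Uni e') :
    Relation.EqvGen (fun f g : ZMod m ≃ Fin m => Uni f ∧ Uni g ∧
      ∃ (k : ℕ) (hk : k + 1 < m),
        g = f.trans (Equiv.swap ⟨k, Nat.lt_of_succ_lt hk⟩ ⟨k + 1, hk⟩)) e e' := by
  have hm : 0 < m := NeZero.pos m
  have htop : ∀ e : ZMod m ≃ Fin m, (e (e.symm ⟨m - 1, by omega⟩) : ℕ) = m - 1 := by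
    intro e
    rw [Equiv.apply_symm_apply]
  have h1 := connect_CC he (htop e)
  have h2 := connect_CC he' (htop e')
  have h3 := CC_all ((e.symm ⟨m - 1, by omega⟩ - e'.symm ⟨m - 1, by omega⟩ : ZMod m).val)
    (e.symm ⟨m - 1, by omega⟩)
  rw [ZMod.natCast_zmod_val, sub_sub_cancel] at h3
  exact Relation.EqvGen.trans _ _ _ h1 (Relation.EqvGen.trans _ _ _ h3
    (Relation.EqvGen.symm _ _ h2))

end Pool.Agent.Helper65.LK
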