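import Mathlib

/-!
# Link diagrams as four-valent maps with states

A diagram is a finite set `V` of vertices; at every vertex `v` there are four darts `(v, 0), (v, 1),
(v, 2), (v, 3)` in counterclockwise order.  `α` joins the darts in pairs (the edges).  The state of a
vertex says whether it is a crossing (and which strand is the upper one) or whether it has been
smoothed in one of the two possible ways.
-/

namespace Pool.Agent.Helper65.LK

/-- the darts: `(v, i)` is the `i`-th dart at the vertex `v`, in counterclockwise order -/
abbrev Dart (V : Type) : Type := V × ZMod 4

/-- The state of a vertex.  `over1`, `over0`: a crossing; the strand through the darts 1 and 3, or the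
strand through the darts 0 and 2, is the upper one.  `smA`, `smB`: no crossing, two arcs joining the
darts 0, 1 and 2, 3, or 1, 2 and 3, 0. -/
inductive St
  | over1 | over0 | smA | smB
  deriving DecidableEq, Fintype

namespace St

/-- is the vertex a crossing? -/
def isX : St → Bool
  | over1 => true
  | over0 => true
  | smA => false
  | smB => false

/-- the other end of the strand through the vertex which starts with the dart `i` -/
def mate : St → ZMod 4 → ZMod 4
  | over1, i => i + 2
  | over0, i => i + 2
  | smA, i => if i = 0 ∨ i = 2 then i + 1 else i - 1
  | smB, i => if i = 0 ∨ i = 2 then i - 1 else i + 1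

/-- the next dart in counterclockwise order on the boundary of the same face -/
def next : St → ZMod 4 → ZMod 4
  | over1, i => i + 1
  | over0, i => i + 1
  | smA, i => mate smA i
  | smB, i => mate smB i

/-- inverse of `next` -/
def prev : St → ZMod 4 → ZMod 4
  | over1, i => i - 1
  | over0, i => i - 1
  | smA, i => mate smA i
  | smB, i => mate smB i

/-- the dart `i` belongs to the upper strand of a crossing -/
def upper : St → ZMod 4 → Bool
  | over1, i => decide (i = 1 ∨ i = 3)
  | over0, i => decide (i = 0 ∨ i = 2)
  | smA, _ => false
  | smB, _ => false

/-- crossing change -/
def sw : St → St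
  | over1 => over0
  | over0 => over1
  | smA => smA
  | smB => smB

/-- two states have the same shape if they are equal or both crossings -/
def shape : St → St
  | over1 => over1
  | over0 => over1
  | smA => smA
  | smB => smB

/-- the smoothing which joins the darts `i + 1`, `i + 2` and the darts `i + 3`, `i` -/
def turn (i : ZMod 4) : St := if i = 0 ∨ i = 2 then smB else smA

theorem mate_mate (t : St) (i : ZMod 4) : t.mate (t.mate i) = i := by
  revert i; cases t <;> decide

theorem mate_ne (t : St) (i : ZMod 4) : t.mate i ≠ i := by
  revert i; cases t <;> decide

theorem next_prev (t : St) (i : ZMod 4) : t.next (t.prev i) = i := by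
  revert i; cases t <;> decide

theorem prev_next (t : St) (i : ZMod 4) : t.prev (t.next i) = i := by
  revert i; cases t <;> decide

end St

/-- A fixed point free involution of the darts. -/
structure Shadow (V : Type) where
  /-- the other end of the edge -/
  α : Equiv.Perm (Dart V)
  invol : ∀ x, α (α x) = x
  noFix : ∀ x, α x ≠ x

variable {V : Type}

/-- the other end of the strand through a vertex -/
def tau (s : V → St) : Equiv.Perm (Dart V) where
  toFun x := (x.1, (s x.1).mate x.2)
  invFun x := (x.1, (s x.1).mate x.2)
  left_inv x := by simp [St.mate_mate]
  right_inv x := by simp [St.mate_mate]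

/-- the rotation at the vertices, along the faces -/
def rot (s : V → St) : Equiv.Perm (Dart V) where
  toFun x := (x.1, (s x.1).next x.2)
  invFun x := (x.1, (s x.1).prev x.2)
  left_inv x := by simp [St.prev_next]
  right_inv x := by simp [St.next_prev]

/-- the dart belongs to a crossing -/
def isC (s : V → St) (x : Dart V) : Prop := (s x.1).isX = true

instance (s : V → St) (x : Dart V) : Decidable (isC s x) := by unfold isC; infer_instance

/-- next dart at the same vertex, counterclockwise -/
def sg (x : Dart V) : Dart V := (x.1, x.2 + 1)

/-- Two darts are on the same arc: they are joined by a path which meets no crossing. -/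
def Arc (S : Shadow V) (s : V → St) : Dart V → Dart V → Prop :=
  Relation.EqvGen fun x y => y = S.α x ∨ (¬ isC s x ∧ y = tau s x)

/-- Two darts are on the same component of the link. -/
def Comp (S : Shadow V) (s : V → St) : Dart V → Dart V → Prop :=
  Relation.EqvGen fun x y => y = S.α x ∨ y = tau s x

/-- Two darts are in the same connected piece of the diagram. -/
def Piece (S : Shadow V) (s : V → St) : Dart V → Dart V → Prop :=
  Relation.EqvGen fun x y => y = S.α x ∨ y = rot s x

/-- the number of classes of an equivalence relation generated by `r` -/
noncomputable def classes {X : Type} (r : X → X → Prop) : ℕ :=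
  Nat.card (Quotient (Relation.EqvGen.setoid r))

/-- the number of components of the link -/
noncomputable def comps (S : Shadow V) (s : V → St) : ℕ :=
  classes fun x y => y = S.α x ∨ y = tau s x

/-- the number of connected pieces of the diagram -/
noncomputable def pieces (S : Shadow V) (s : V → St) : ℕ :=
  classes fun x y => y = S.α x ∨ y = rot s x

/-- the number of cycles of a permutation, fixed points included -/
noncomputable def cycles {X : Type} (π : Equiv.Perm X) : ℕ :=
  Nat.card (Quotient (Equiv.Perm.SameCycle.setoid π))

/-- the number of crossings -/
def nX [Fintype V] (s : V → St) : ℕ := (Finset.univ.filter fun v => (s v).isX = true).card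

/-- The diagram can be drawn in the sphere (Euler's formula, summed over the connected pieces; a
circle without crossings is a piece with two faces). -/
def Planar [Fintype V] (S : Shadow V) (s : V → St) : Prop :=
  cycles (rot s * S.α) = nX s + 2 * pieces S s

end Pool.Agent.Helper65.LK
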