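import Pool.Agent.Helper65.LK.Word

/-!
# Diagrams, Reidemeister equivalence, crossing numbers and symmetric diagrams: definitions
-/

namespace Pool.Agent.Helper65.LK

open Function

/-- A planar link diagram. -/
structure Dia where
  /-- the vertices -/
  V : Type
  [fin : Fintype V]
  [dec : DecidableEq V]
  /-- the edges -/
  S : Shadow V
  /-- the states of the vertices -/
  s : V → St
  planar : Planar S s

attribute [instance] Dia.fin Dia.dec

/-- Isomorphisms and Reidemeister moves between planar diagrams. -/
inductive Step : Dia → Dia → Prop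
  | iso (D D' : Dia) (e : DIso D.S D.s D'.S D'.s) : Step D D'
  | r1 (D : Dia) (v : D.V) (i : ZMod 4) (hv : (D.s v).isX = true)
      (h : Arc D.S D.s (v, i) (v, i + 1))
      (hp : Planar D.S (update D.s v (St.turn i))) :
      Step D ⟨D.V, D.S, update D.s v (St.turn i), hp⟩
  | r2 (D : Dia) (v w : D.V) (i j : ZMod 4) (hvw : v ≠ w) (hv : (D.s v).isX = true)
      (hw : (D.s w).isX = true) (h1 : Arc D.S D.s (v, i) (w, j + 1))
      (h2 : Arc D.S D.s (v, i + 1) (w, j)) (hup : (D.s v).upper i = (D.s w).upper (j + 1))
      (hp : Planar D.S (update (update D.s v (St.turn i)) w (St.turn j))) :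
      Step D ⟨D.V, D.S, update (update D.s v (St.turn i)) w (St.turn j), hp⟩
  | r3 (D : Dia) (u v w : D.V) (i j k : ZMod 4) (huv : u ≠ v) (hvw : v ≠ w) (hwu : w ≠ u)
      (hu : (D.s u).isX = true) (hv : (D.s v).isX = true) (hw : (D.s w).isX = true)
      (h1 : Arc D.S D.s (u, i + 1) (v, j)) (h2 : Arc D.S D.s (v, j + 1) (w, k))
      (h3 : Arc D.S D.s (w, k + 1) (u, i))
      (hadm : ¬ ((D.s u).upper (i + 1) = (D.s v).upper (j + 1) ∧
        (D.s v).upper (j + 1) = (D.s w).upper (k + 1)))
      (hp : Planar (D.S.conj (tri u i v j w k)) D.s) :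
      Step D ⟨D.V, D.S.conj (tri u i v j w k), D.s, hp⟩

/-- Two planar diagrams represent the same link. -/
def Same : Dia → Dia → Prop := Relation.EqvGen Step

/-- the number of crossings -/
def Dia.n (D : Dia) : ℕ := nX D.s

/-- the diagram represents a knot -/
def Dia.IsKnot (D : Dia) : Prop := comps D.S D.s = 1

/-- the crossing number of the link represented by `D` -/
noncomputable def crossingNumber (D : Dia) : ℕ∞ :=
  ⨅ D' : {D' : Dia // Same D D'}, (D'.1.n : ℕ∞)

/-- The involution `ρ` of the darts of the crossings is the symmetry of the diagram given by the half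
turn about an axis in the plane of projection which meets the link in exactly two points: it
reverses the orientation of the plane, exchanges the upper and the lower strands, respects the
arcs, and exactly two arcs are mapped to themselves. -/
structure IsSym {V : Type} (S : Shadow V) (s : V → St)
    (ρ : {x : Dart V // isC s x} → {x : Dart V // isC s x}) : Prop where
  invol : ∀ x, ρ (ρ x) = x
  rot : ∀ x y : {x : Dart V // isC s x}, (y : Dart V) = sg x.1 → sg (ρ y).1 = (ρ x).1
  arc : ∀ x y, Arc S s x.1 y.1 → Arc S s (ρ x).1 (ρ y).1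
  upper : ∀ x, (s (ρ x).1.1).upper (ρ x).1.2 = !(s x.1.1).upper x.1.2
  two : {x | Arc S s x.1 (ρ x).1}.ncard = 4

/-- The diagram has a symmetry as in the definition of symmetric diagrams of strongly invertible
knots (a circle without crossings has such a symmetry). -/
def Dia.Symmetric (D : Dia) : Prop := D.n = 0 ∨ ∃ ρ, IsSym D.S D.s ρ

/-- the equivariant crossing number (infinite if there is no symmetric diagram) -/
noncomputable def symCrossingNumber (D : Dia) : ℕ∞ :=
  ⨅ D' : {D' : Dia // Same D D' ∧ D'.Symmetric}, (D'.1.n : ℕ∞)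

end Pool.Agent.Helper65.LK
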