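import Pool.Agent.Helper65.LK.Ex

/-!
# LK-86. Linear colourings of algebraic tangles with values in `ℝ / ℤ`

`LCol T k`: all vertices are crossings with the state `over1`; `k` is constant along the edges and the upper
strands (darts `1, 3`), and the two ends of the lower strand have the arithmetic mean `k (v, 1)`.
`HasPQ T P Q`: for all `a h v ∈ ℝ / ℤ` with `Q h = P v` there is such a colouring with the values `a + h, a, a - v, a + h - v` at the ports `0, 1, 2, 3`.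
`leaf`: `P = Q = 1`: the values at the darts `1, 3` are `a`, at `0, 2` they are `a + h`, `a - h`.
`divide`: let `L = lcm Q₁ Q₂`, `g = gcd Q₁ Q₂`, `P = (Q₂ P₁ + Q₁ P₂) / g`.  Choose real numbers `x, y` with classes `h, v`:
  `L x - P y = n ∈ ℤ`.  By Bezout `n = n₁ (Q₂ / g) + n₂ (Q₁ / g)`.  `x₁ = (P₁ y + n₁) / Q₁`, `x₂ = (P₂ y + n₂) / Q₂`:
  `L (x₁ + x₂) = (Q₂ / g) (P₁ y + n₁) + (Q₁ / g) (P₂ y + n₂) = P y + n = L x`, so `x₁ + x₂ = x`.
`hsum`: the values at the ports of `A`: `a + h₁, a, a - v, a + h₁ - v`, of `B`: `a + h, a + h₁, a + h₁ - v, a + h - v`.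
`vsum`: `P = lcm P₁ P₂`, `Q = (P₂ Q₁ + P₁ Q₂) / gcd P₁ P₂`, `divide` with the roles of `h` and `v` exchanged: `v = v₁ + v₂`;
  the values at the ports of `A`: `a + h, a, a - v₁, a + h - v₁`, of `B`: `a + h - v₁, a - v₁, a - v, a + h - v`.
`(Q₂ P₁ + Q₁ P₂) / g ≥ 2`, as `Q₂ / g ≥ 1`, `Q₁ / g ≥ 1` are integers and `P₁, P₂ ≥ 1`.
-/

namespace Pool.Agent.Helper65.LK

/-- `ℝ / ℤ` -/
abbrev RZ : Type := AddCircle (1 : ℝ)

/-- linear colourings of a tangle all of whose vertices are crossings with the state `over1` -/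
structure LCol {V : Type} (T : Tangle V) (k : Dart V → RZ) : Prop where
  link : ∀ x y, T.link x = Sum.inl y → k y = k x
  ovr : ∀ v, k (v, 3) = k (v, 1)
  und : ∀ v, k (v, 0) + k (v, 2) = k (v, 1) + k (v, 1)

/-- the possible boundary values -/
def HasPQ {V : Type} (T : Tangle V) (P Q : ℕ) : Prop :=
  ∀ a h v : RZ, Q • h = P • v → ∃ k, LCol T k ∧ k (T.port 0) = a + h ∧ k (T.port 1) = a ∧
    k (T.port 2) = a - v ∧ k (T.port 3) = a + h - v

private theorem pq_int (m : ℤ) : (((m : ℤ) : ℝ) : RZ) = 0 := by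
  rw [AddCircle.coe_eq_zero_iff]
  exact ⟨m, by simp⟩

private theorem pq_nsmul (m : ℕ) (x : ℝ) : m • (x : RZ) = (((m : ℝ) * x : ℝ) : RZ) := by
  rw [← AddCircle.coe_nsmul, nsmul_eq_mul]

theorem divide (P₁ Q₁ P₂ Q₂ : ℕ) (hQ₁ : 0 < Q₁) (hQ₂ : 0 < Q₂) (h v : RZ)
    (hh : (Nat.lcm Q₁ Q₂) • h = ((Q₂ * P₁ + Q₁ * P₂) / Nat.gcd Q₁ Q₂) • v) :
    ∃ h₁ h₂ : RZ, h₁ + h₂ = h ∧ Q₁ • h₁ = P₁ • v ∧ Q₂ • h₂ = P₂ • v := by
  obtain ⟨x, rfl⟩ := QuotientAddGroup.mk_surjective h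
  obtain ⟨y, rfl⟩ := QuotientAddGroup.mk_surjective v
  change (Nat.lcm Q₁ Q₂) • (x : RZ) = ((Q₂ * P₁ + Q₁ * P₂) / Nat.gcd Q₁ Q₂) • (y : RZ) at hh
  change ∃ h₁ h₂ : RZ, h₁ + h₂ = (x : RZ) ∧ Q₁ • h₁ = P₁ • (y : RZ) ∧ Q₂ • h₂ = P₂ • (y : RZ)
  have hg : 0 < Nat.gcd Q₁ Q₂ := Nat.gcd_pos_of_pos_left _ hQ₁
  obtain ⟨g, hgd⟩ : ∃ g, g = Nat.gcd Q₁ Q₂ := ⟨_, rfl⟩
  obtain ⟨q₁, hq₁⟩ : g ∣ Q₁ := hgd ▸ Nat.gcd_dvd_left _ _
  obtain ⟨q₂, hq₂⟩ : g ∣ Q₂ := hgd ▸ Nat.gcd_dvd_right _ _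
  rw [← hgd] at hg hh
  have hcop : Nat.Coprime q₁ q₂ := by
    have h1 : g * Nat.gcd q₁ q₂ = g * 1 := by
      rw [← Nat.gcd_mul_left, ← hq₁, ← hq₂, ← hgd, mul_one]
    exact Nat.eq_of_mul_eq_mul_left hg h1
  have hq₁p : 0 < q₁ := by
    rcases Nat.eq_zero_or_pos q₁ with h | h
    · rw [h, mul_zero] at hq₁; omega
    · exact h
  have hq₂p : 0 < q₂ := by
    rcases Nat.eq_zero_or_pos q₂ with h | h
    · rw [h, mul_zero] at hq₂; omega
    · exact h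
  have hL : Nat.lcm Q₁ Q₂ = g * q₁ * q₂ := by
    rw [hq₁, hq₂, Nat.lcm_mul_left, hcop.lcm_eq_mul, mul_assoc]
  have hP : (Q₂ * P₁ + Q₁ * P₂) / g = q₂ * P₁ + q₁ * P₂ := by
    have e : Q₂ * P₁ + Q₁ * P₂ = g * (q₂ * P₁ + q₁ * P₂) := by
      rw [hq₁, hq₂]; ring
    rw [e, Nat.mul_div_cancel_left _ hg]
  rw [hL, hP, pq_nsmul, pq_nsmul, ← sub_eq_zero, ← AddCircle.coe_sub,
    AddCircle.coe_eq_zero_iff] at hh
  obtain ⟨n, hn⟩ := hh
  have hn' : (n : ℝ) = ((g * q₁ * q₂ : ℕ) : ℝ) * x - ((q₂ * P₁ + q₁ * P₂ : ℕ) : ℝ) * y := by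
    rw [← hn]
    simp
  obtain ⟨n₁, n₂, hb⟩ : ∃ n₁ n₂ : ℤ, n = n₁ * q₂ + n₂ * q₁ := by
    have hb := Nat.gcd_eq_gcd_ab q₁ q₂
    rw [hcop] at hb
    refine ⟨n * Nat.gcdB q₁ q₂, n * Nat.gcdA q₁ q₂, ?_⟩
    have e : n = n * ((1 : ℕ) : ℤ) := by simp
    conv_lhs => rw [e, hb]
    ring
  have hg0 : (g : ℝ) ≠ 0 := by exact_mod_cast hg.ne'
  have h10 : (q₁ : ℝ) ≠ 0 := by exact_mod_cast hq₁p.ne'
  have h20 : (q₂ : ℝ) ≠ 0 := by exact_mod_cast hq₂p.ne'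
  have hQ1 : (Q₁ : ℝ) = g * q₁ := by rw [hq₁]; push_cast; ring
  have hQ2 : (Q₂ : ℝ) = g * q₂ := by rw [hq₂]; push_cast; ring
  refine ⟨(((P₁ * y + n₁) / (g * q₁) : ℝ) : RZ), (((P₂ * y + n₂) / (g * q₂) : ℝ) : RZ), ?_, ?_, ?_⟩
  · rw [← AddCircle.coe_add]
    congr 1
    have hbR : (n : ℝ) = n₁ * q₂ + n₂ * q₁ := by rw [hb]; push_cast; ring
    rw [hbR] at hn'
    push_cast at hn'
    field_simp
    linarith
  · rw [pq_nsmul, pq_nsmul, hQ1]
    have e : (g : ℝ) * q₁ * ((P₁ * y + n₁) / (g * q₁)) = P₁ * y + n₁ := by field_simp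
    rw [e, AddCircle.coe_add, pq_int, add_zero]
  · rw [pq_nsmul, pq_nsmul, hQ2]
    have e : (g : ℝ) * q₂ * ((P₂ * y + n₂) / (g * q₂)) = P₂ * y + n₂ := by field_simp
    rw [e, AddCircle.coe_add, pq_int, add_zero]

private theorem pq_z4 : ∀ i : ZMod 4, i = 0 ∨ i = 1 ∨ i = 2 ∨ i = 3 := by decide

theorem HasPQ.leaf : HasPQ leafT 1 1 := by
  intro a h v hh
  rw [one_smul, one_smul] at hh
  subst hh
  refine ⟨fun x => if x.2 = 0 then a + h else if x.2 = 2 then a - h else a, ⟨?_, ?_, ?_⟩, ?_, ?_,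
    ?_, ?_⟩
  · intro x y hxy
    cases hxy
  · intro v
    have h1 : ¬ ((3 : ZMod 4) = 0) := by decide
    have h2 : ¬ ((3 : ZMod 4) = 2) := by decide
    have h3 : ¬ ((1 : ZMod 4) = 0) := by decide
    have h4 : ¬ ((1 : ZMod 4) = 2) := by decide
    simp only [h1, h2, h3, h4, if_false]
  · intro v
    have h2 : ¬ ((2 : ZMod 4) = 0) := by decide
    have h3 : ¬ ((1 : ZMod 4) = 0) := by decide
    have h4 : ¬ ((1 : ZMod 4) = 2) := by decide
    simp only [h2, h3, h4, if_false, if_true]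
    abel
  · show (if (0 : ZMod 4) = 0 then a + h else if (0 : ZMod 4) = 2 then a - h else a) = a + h
    rw [if_pos rfl]
  · show (if (1 : ZMod 4) = 0 then a + h else if (1 : ZMod 4) = 2 then a - h else a) = a
    rw [if_neg (by decide), if_neg (by decide)]
  · show (if (2 : ZMod 4) = 0 then a + h else if (2 : ZMod 4) = 2 then a - h else a) = a - h
    rw [if_neg (by decide), if_pos rfl]
  · show (if (3 : ZMod 4) = 0 then a + h else if (3 : ZMod 4) = 2 then a - h else a) = a + h - h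
    rw [if_neg (by decide), if_neg (by decide), add_sub_cancel_right]

private theorem pq_link_A {V : Type} {A : Tangle V} {v : V} {j i : ZMod 4}
    (h : A.link (v, j) = Sum.inr i) : (v, j) = A.port i := (A.port_link _ _ h).symm

theorem HasPQ.hsum {V W : Type} {A : Tangle V} {B : Tangle W} {P₁ Q₁ P₂ Q₂ : ℕ}
    (hA : HasPQ A P₁ Q₁) (hB : HasPQ B P₂ Q₂) (hQ₁ : 0 < Q₁) (hQ₂ : 0 < Q₂) :
    HasPQ (hsum A B) ((Q₂ * P₁ + Q₁ * P₂) / Nat.gcd Q₁ Q₂) (Nat.lcm Q₁ Q₂) := by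
  intro a h v hh
  obtain ⟨h₁, h₂, hs, e1, e2⟩ := divide P₁ Q₁ P₂ Q₂ hQ₁ hQ₂ h v hh
  obtain ⟨kA, lA, a0, a1, a2, a3⟩ := hA a h₁ v e1
  obtain ⟨kB, lB, b0, b1, b2, b3⟩ := hB (a + h₁) h₂ v e2
  have f0 : kA (A.port 0) = kB (B.port 1) := by rw [a0, b1]
  have f3 : kA (A.port 3) = kB (B.port 2) := by rw [a3, b2]
  refine ⟨fun x => Sum.elim (fun v => kA (v, x.2)) (fun w => kB (w, x.2)) x.1, ⟨?_, ?_, ?_⟩, ?_, ?_,
    ?_, ?_⟩
  · rintro ⟨v | w, j⟩ y hxy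
    · cases hl : A.link (v, j) with
      | inl z =>
        simp only [LK.hsum, hl, Sum.inl.injEq] at hxy
        subst hxy
        exact lA.link _ _ hl
      | inr i =>
        have hp := pq_link_A hl
        simp only [LK.hsum, hl] at hxy
        rcases pq_z4 i with rfl | rfl | rfl | rfl
        · rw [if_neg (by decide)] at hxy
          simp only [Sum.inl.injEq] at hxy
          subst hxy
          show kB (B.port (1 - 0)) = kA (v, j)
          rw [hp, f0]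
          rfl
        · rw [if_pos (by decide)] at hxy
          cases hxy
        · rw [if_pos (by decide)] at hxy
          cases hxy
        · rw [if_neg (by decide)] at hxy
          simp only [Sum.inl.injEq] at hxy
          subst hxy
          show kB (B.port (1 - 3)) = kA (v, j)
          rw [hp, f3]
          rfl
    · cases hl : B.link (w, j) with
      | inl z =>
        simp only [LK.hsum, hl, Sum.inl.injEq] at hxy
        subst hxy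
        exact lB.link _ _ hl
      | inr i =>
        have hp := pq_link_A hl
        simp only [LK.hsum, hl] at hxy
        rcases pq_z4 i with rfl | rfl | rfl | rfl
        · rw [if_neg (by decide)] at hxy
          cases hxy
        · rw [if_pos (by decide)] at hxy
          simp only [Sum.inl.injEq] at hxy
          subst hxy
          show kA (A.port (1 - 1)) = kB (w, j)
          rw [hp, ← f0]
          rfl
        · rw [if_pos (by decide)] at hxy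
          simp only [Sum.inl.injEq] at hxy
          subst hxy
          show kA (A.port (1 - 2)) = kB (w, j)
          rw [hp, ← f3]
          rfl
        · rw [if_neg (by decide)] at hxy
          cases hxy
  · rintro (v | w)
    · exact lA.ovr v
    · exact lB.ovr w
  · rintro (v | w)
    · exact lA.und v
    · exact lB.und w
  · show kB (B.port 0) = a + h
    rw [b0, ← hs, add_assoc]
  · show kA (A.port 1) = a
    exact a1
  · show kA (A.port 2) = a - v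
    exact a2
  · show kB (B.port 3) = a + h - v
    rw [b3, ← hs, add_assoc]

theorem HasPQ.vsum {V W : Type} {A : Tangle V} {B : Tangle W} {P₁ Q₁ P₂ Q₂ : ℕ}
    (hA : HasPQ A P₁ Q₁) (hB : HasPQ B P₂ Q₂) (hP₁ : 0 < P₁) (hP₂ : 0 < P₂) :
    HasPQ (vsum A B) (Nat.lcm P₁ P₂) ((P₂ * Q₁ + P₁ * Q₂) / Nat.gcd P₁ P₂) := by
  intro a h v hh
  obtain ⟨v₁, v₂, hs, e1, e2⟩ := divide Q₁ P₁ Q₂ P₂ hP₁ hP₂ v h hh.symm
  obtain ⟨kA, lA, a0, a1, a2, a3⟩ := hA a h v₁ e1.symm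
  obtain ⟨kB, lB, b0, b1, b2, b3⟩ := hB (a - v₁) h v₂ e2.symm
  have f2 : kA (A.port 2) = kB (B.port 1) := by rw [a2, b1]
  have f3 : kA (A.port 3) = kB (B.port 0) := by rw [a3, b0]; abel
  refine ⟨fun x => Sum.elim (fun v => kA (v, x.2)) (fun w => kB (w, x.2)) x.1, ⟨?_, ?_, ?_⟩, ?_, ?_,
    ?_, ?_⟩
  · rintro ⟨v | w, j⟩ y hxy
    · cases hl : A.link (v, j) with
      | inl z =>
        simp only [LK.vsum, hl, Sum.inl.injEq] at hxy
        subst hxy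
        exact lA.link _ _ hl
      | inr i =>
        have hp := pq_link_A hl
        simp only [LK.vsum, hl] at hxy
        rcases pq_z4 i with rfl | rfl | rfl | rfl
        · rw [if_pos (by decide)] at hxy
          cases hxy
        · rw [if_pos (by decide)] at hxy
          cases hxy
        · rw [if_neg (by decide)] at hxy
          simp only [Sum.inl.injEq] at hxy
          subst hxy
          show kB (B.port (3 - 2)) = kA (v, j)
          rw [hp, f2]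
          rfl
        · rw [if_neg (by decide)] at hxy
          simp only [Sum.inl.injEq] at hxy
          subst hxy
          show kB (B.port (3 - 3)) = kA (v, j)
          rw [hp, f3]
          rfl
    · cases hl : B.link (w, j) with
      | inl z =>
        simp only [LK.vsum, hl, Sum.inl.injEq] at hxy
        subst hxy
        exact lB.link _ _ hl
      | inr i =>
        have hp := pq_link_A hl
        simp only [LK.vsum, hl] at hxy
        rcases pq_z4 i with rfl | rfl | rfl | rfl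
        · rw [if_pos (by decide)] at hxy
          simp only [Sum.inl.injEq] at hxy
          subst hxy
          show kA (A.port (3 - 0)) = kB (w, j)
          rw [hp, ← f3]
          rfl
        · rw [if_pos (by decide)] at hxy
          simp only [Sum.inl.injEq] at hxy
          subst hxy
          show kA (A.port (3 - 1)) = kB (w, j)
          rw [hp, ← f2]
          rfl
        · rw [if_neg (by decide)] at hxy
          cases hxy
        · rw [if_neg (by decide)] at hxy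
          cases hxy
  · rintro (v | w)
    · exact lA.ovr v
    · exact lB.ovr w
  · rintro (v | w)
    · exact lA.und v
    · exact lB.und w
  · show kA (A.port 0) = a + h
    exact a0
  · show kA (A.port 1) = a
    exact a1
  · show kB (B.port 2) = a - v
    rw [b2, ← hs]
    abel
  · show kB (B.port 3) = a + h - v
    rw [b3, ← hs]
    abel

private theorem pq_ge {P₁ Q₁ P₂ Q₂ : ℕ} (hP₁ : 0 < P₁) (hP₂ : 0 < P₂) (hQ₁ : 0 < Q₁)
    (hQ₂ : 0 < Q₂) : 2 ≤ (Q₂ * P₁ + Q₁ * P₂) / Nat.gcd Q₁ Q₂ := by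
  have hg : 0 < Nat.gcd Q₁ Q₂ := Nat.gcd_pos_of_pos_left _ hQ₁
  rw [Nat.le_div_iff_mul_le hg]
  have h1 : Nat.gcd Q₁ Q₂ ≤ Q₁ := Nat.le_of_dvd hQ₁ (Nat.gcd_dvd_left _ _)
  have h2 : Nat.gcd Q₁ Q₂ ≤ Q₂ := Nat.le_of_dvd hQ₂ (Nat.gcd_dvd_right _ _)
  have h3 : Q₂ ≤ Q₂ * P₁ := Nat.le_mul_of_pos_right _ hP₁
  have h4 : Q₁ ≤ Q₁ * P₂ := Nat.le_mul_of_pos_right _ hP₂
  omega

theorem exists_pq : ∀ E : Ex, ∃ P Q : ℕ, 0 < P ∧ 0 < Q ∧ HasPQ E.tg P Q
  | Ex.leaf => ⟨1, 1, one_pos, one_pos, HasPQ.leaf⟩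
  | Ex.h A B => by
    obtain ⟨P₁, Q₁, hP₁, hQ₁, h₁⟩ := exists_pq A
    obtain ⟨P₂, Q₂, hP₂, hQ₂, h₂⟩ := exists_pq B
    exact ⟨_, _, lt_of_lt_of_le two_pos (pq_ge hP₁ hP₂ hQ₁ hQ₂), Nat.lcm_pos hQ₁ hQ₂,
      HasPQ.hsum h₁ h₂ hQ₁ hQ₂⟩
  | Ex.v A B => by
    obtain ⟨P₁, Q₁, hP₁, hQ₁, h₁⟩ := exists_pq A
    obtain ⟨P₂, Q₂, hP₂, hQ₂, h₂⟩ := exists_pq B
    exact ⟨_, _, Nat.lcm_pos hP₁ hP₂, lt_of_lt_of_le two_pos (pq_ge hQ₁ hQ₂ hP₁ hP₂),
      HasPQ.vsum h₁ h₂ hP₁ hP₂⟩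

theorem exists_pq_v (A B : Ex) : ∃ P Q : ℕ, 0 < P ∧ 2 ≤ Q ∧ HasPQ (Ex.v A B).tg P Q := by
  obtain ⟨P₁, Q₁, hP₁, hQ₁, h₁⟩ := exists_pq A
  obtain ⟨P₂, Q₂, hP₂, hQ₂, h₂⟩ := exists_pq B
  exact ⟨_, _, Nat.lcm_pos hP₁ hP₂, pq_ge hQ₁ hQ₂ hP₁ hP₂, HasPQ.vsum h₁ h₂ hP₁ hP₂⟩

theorem exists_pq_h (A B : Ex) : ∃ P Q : ℕ, 2 ≤ P ∧ 0 < Q ∧ HasPQ (Ex.h A B).tg P Q := by
  obtain ⟨P₁, Q₁, hP₁, hQ₁, h₁⟩ := exists_pq A
  obtain ⟨P₂, Q₂, hP₂, hQ₂, h₂⟩ := exists_pq B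
  exact ⟨_, _, pq_ge hP₁ hP₂ hQ₁ hQ₂, Nat.lcm_pos hQ₁ hQ₂, HasPQ.hsum h₁ h₂ hQ₁ hQ₂⟩

end Pool.Agent.Helper65.LK
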