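import Pool.Agent.Helper65.LK.RichDefs
import Pool.Agent.Helper65.LK.PQ

/-!
# LK-85. Reflections with respect to a symmetric bilinear form, dihedral families

`rfl3 B e x = x - 2 B(e, x) e`.
`rf_rfl3`: `B e e = 1` gives the square `1`; the range of `rfl3 B e - 1` is the line of `e` (`x = e` is mapped to `-2 e`).
`rfl3_conj`: `s_m s_k s_m = s_{s_m k}`, `s_m k = k - 2 B(m, k) m`, as `B (s_m x) (s_m y) = B x y`; `rfl3_neg`.
`exists_family`: `t₀ = 1 / Q`, `B e e' = cos (π t₀)`, `sin (π t₀) > 0` since `Q ≥ 2`.  Let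
`f = (e' - cos (π t₀) e) / sin (π t₀)`: `B e f = 0`, `B f f = 1`.  `u t = cos (π t) e + sin (π t) f`: `B (u s) (u t) = cos (π (s - t))`,
`u (t + 1) = - u t`, `u 0 = e`, `u t₀ = e'`, `u k - 2 B (u m) (u k) u m = - u (2 m - k)` (addition theorems).  So `t ↦ rfl3 B (u t)` has
the period `1` and gives a function `R` on `ℝ / ℤ` (`Function.Periodic.lift`).
`exists_form`: the Gram matrix with respect to the standard basis.
`wr_top`: the lines of `e 0, e 1, e 2` generate `ℝ³`.
-/

namespace Pool.Agent.Helper65.LK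

/-- the standard basis -/
def e3 (i : Fin 3) : Fin 3 → ℝ := Pi.single i 1

/-- the reflection defined by `e` -/
def rfl3 (B : LinearMap.BilinForm ℝ (Fin 3 → ℝ)) (e : Fin 3 → ℝ) : M3 :=
  LinearMap.id - (2 : ℝ) • (B e).smulRight e

private theorem rfl3_apply (B : LinearMap.BilinForm ℝ (Fin 3 → ℝ)) (e x : Fin 3 → ℝ) :
    rfl3 B e x = x - (2 * B e x) • e := by
  simp [rfl3, mul_smul]

private theorem wr_rfl3_aux (B : LinearMap.BilinForm ℝ (Fin 3 → ℝ)) (e : Fin 3 → ℝ)
    (he : B e e = 1) : Wr (rfl3 B e) = Submodule.span ℝ {e} := by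
  apply le_antisymm
  · rintro _ ⟨x, rfl⟩
    rw [LinearMap.sub_apply, Module.End.one_apply, rfl3_apply]
    refine Submodule.mem_span_singleton.2 ⟨-(2 * B e x), ?_⟩
    module
  · rw [Submodule.span_singleton_le_iff_mem]
    refine ⟨(-(1 / 2) : ℝ) • e, ?_⟩
    rw [LinearMap.sub_apply, Module.End.one_apply, rfl3_apply, map_smul, he]
    simp only [smul_eq_mul]
    module

theorem rf_rfl3 (B : LinearMap.BilinForm ℝ (Fin 3 → ℝ)) (e : Fin 3 → ℝ) (he : B e e = 1) :
    Rf (rfl3 B e) := by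
  refine ⟨?_, ?_⟩
  · apply LinearMap.ext
    intro x
    rw [Module.End.mul_apply, Module.End.one_apply, rfl3_apply, rfl3_apply, map_sub, map_smul, he]
    simp only [smul_eq_mul]
    module
  · rw [wr_rfl3_aux B e he]
    have hne : e ≠ 0 := by
      rintro rfl
      simp at he
    rw [finrank_span_singleton hne]

theorem wr_rfl3 (B : LinearMap.BilinForm ℝ (Fin 3 → ℝ)) (e : Fin 3 → ℝ) (he : B e e = 1) :
    Wr (rfl3 B e) = Submodule.span ℝ {e} := wr_rfl3_aux B e he

theorem rfl3_neg (B : LinearMap.BilinForm ℝ (Fin 3 → ℝ)) (e : Fin 3 → ℝ) :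
    rfl3 B (-e) = rfl3 B e := by
  apply LinearMap.ext
  intro x
  rw [rfl3_apply, rfl3_apply, map_neg, LinearMap.neg_apply]
  module

theorem rfl3_conj (B : LinearMap.BilinForm ℝ (Fin 3 → ℝ)) (hB : ∀ x y, B x y = B y x)
    (m k : Fin 3 → ℝ) (hm : B m m = 1) :
    rfl3 B m * rfl3 B k * rfl3 B m = rfl3 B (k - (2 * B m k) • m) := by
  apply LinearMap.ext
  intro x
  rw [Module.End.mul_apply, Module.End.mul_apply]
  simp only [rfl3_apply, map_sub, map_smul, LinearMap.sub_apply, LinearMap.smul_apply, smul_eq_mul,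
    hm, hB k m]
  module

theorem exists_family (B : LinearMap.BilinForm ℝ (Fin 3 → ℝ)) (hB : ∀ x y, B x y = B y x)
    (e e' : Fin 3 → ℝ) (he : B e e = 1) (he' : B e' e' = 1) (Q : ℕ) (hQ : 2 ≤ Q)
    (h : B e e' = Real.cos (Real.pi / Q)) :
    ∃ R : RZ → M3, (∀ k, Rf (R k)) ∧ (∀ m k, R m * R k * R m = R (m + m - k)) ∧
      R 0 = rfl3 B e ∧ R (((1 / Q : ℝ)) : RZ) = rfl3 B e' := by
  have hQ0 : (0 : ℝ) < Q := by
    have : 0 < Q := by omega
    exact_mod_cast this
  have hQ1 : (1 : ℝ) < Q := by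
    have : 1 < Q := by omega
    exact_mod_cast this
  set c := Real.cos (Real.pi / Q) with hc
  set d := Real.sin (Real.pi / Q) with hd
  have hd0 : 0 < d := by
    refine Real.sin_pos_of_pos_of_lt_pi (by positivity) ?_
    exact div_lt_self Real.pi_pos hQ1
  have hcd : c ^ 2 + d ^ 2 = 1 := by
    rw [hc, hd]
    exact Real.cos_sq_add_sin_sq _
  let f : Fin 3 → ℝ := d⁻¹ • (e' - c • e)
  have hef : B e f = 0 := by
    simp only [f, map_smul, map_sub, smul_eq_mul, h, he]
    ring
  have hff : B f f = 1 := by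
    simp only [f, map_smul, map_sub, LinearMap.smul_apply, LinearMap.sub_apply, smul_eq_mul, h, he,
      he', hB e' e]
    field_simp
    linarith
  have hfe : B f e = 0 := by rw [hB, hef]
  let u : ℝ → Fin 3 → ℝ := fun t => Real.cos (Real.pi * t) • e + Real.sin (Real.pi * t) • f
  have hBu : ∀ s t, B (u s) (u t) = Real.cos (Real.pi * s) * Real.cos (Real.pi * t) +
      Real.sin (Real.pi * s) * Real.sin (Real.pi * t) := by
    intro s t
    simp only [u, map_smul, map_add, LinearMap.smul_apply, LinearMap.add_apply, smul_eq_mul, hef,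
      hfe, hff, he]
    ring
  have huu : ∀ t, B (u t) (u t) = 1 := by
    intro t
    rw [hBu]
    have := Real.cos_sq_add_sin_sq (Real.pi * t)
    linarith
  have hu1 : ∀ t, u (t + 1) = - u t := by
    intro t
    simp only [u]
    rw [mul_add, mul_one, Real.cos_add_pi, Real.sin_add_pi]
    module
  have hper : Function.Periodic (fun t => rfl3 B (u t)) (1 : ℝ) := by
    intro t
    beta_reduce
    rw [hu1, rfl3_neg]
  have hrefl : ∀ m k, u k - (2 * B (u m) (u k)) • u m = - u (m + m - k) := by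
    intro m k
    rw [hBu]
    simp only [u]
    have e1 : Real.pi * (m + m - k) = Real.pi * m + Real.pi * m - Real.pi * k := by ring
    rw [e1, Real.cos_sub, Real.sin_sub, Real.cos_add, Real.sin_add]
    have h2 : Real.sin (Real.pi * m) ^ 2 = 1 - Real.cos (Real.pi * m) ^ 2 := by
      have := Real.cos_sq_add_sin_sq (Real.pi * m)
      linarith
    have h3 : Real.cos (Real.pi * k) - 2 * (Real.cos (Real.pi * m) * Real.cos (Real.pi * k) +
        Real.sin (Real.pi * m) * Real.sin (Real.pi * k)) * Real.cos (Real.pi * m) =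
        -((Real.cos (Real.pi * m) * Real.cos (Real.pi * m) - Real.sin (Real.pi * m) *
          Real.sin (Real.pi * m)) * Real.cos (Real.pi * k) + (Real.sin (Real.pi * m) *
          Real.cos (Real.pi * m) + Real.cos (Real.pi * m) * Real.sin (Real.pi * m)) *
          Real.sin (Real.pi * k)) := by
      linear_combination (Real.cos (Real.pi * k)) * (-1) * h2
    have h4 : Real.sin (Real.pi * k) - 2 * (Real.cos (Real.pi * m) * Real.cos (Real.pi * k) +
        Real.sin (Real.pi * m) * Real.sin (Real.pi * k)) * Real.sin (Real.pi * m) =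
        -((Real.sin (Real.pi * m) * Real.cos (Real.pi * m) + Real.cos (Real.pi * m) *
          Real.sin (Real.pi * m)) * Real.cos (Real.pi * k) - (Real.cos (Real.pi * m) *
          Real.cos (Real.pi * m) - Real.sin (Real.pi * m) * Real.sin (Real.pi * m)) *
          Real.sin (Real.pi * k)) := by
      linear_combination (Real.sin (Real.pi * k)) * (-1) * h2
    rw [neg_add, ← neg_smul, ← neg_smul, ← h3, ← h4]
    module
  refine ⟨fun x => hper.lift x, ?_, ?_, ?_, ?_⟩
  · intro k
    induction k using QuotientAddGroup.induction_on with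
    | H t =>
      change Rf (hper.lift (t : AddCircle (1 : ℝ)))
      rw [hper.lift_coe]
      exact rf_rfl3 B _ (huu t)
  · intro m k
    induction m using QuotientAddGroup.induction_on with
    | H s =>
      induction k using QuotientAddGroup.induction_on with
      | H t =>
        have e1 : ((s : AddCircle (1 : ℝ)) + (s : AddCircle (1 : ℝ)) - (t : AddCircle (1 : ℝ))) =
            ((s + s - t : ℝ) : AddCircle (1 : ℝ)) := rfl
        change hper.lift (s : AddCircle (1 : ℝ)) * hper.lift (t : AddCircle (1 : ℝ)) *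
          hper.lift (s : AddCircle (1 : ℝ)) = hper.lift ((s : AddCircle (1 : ℝ)) +
            (s : AddCircle (1 : ℝ)) - (t : AddCircle (1 : ℝ)))
        rw [e1, hper.lift_coe, hper.lift_coe, hper.lift_coe, rfl3_conj B hB _ _ (huu s), hrefl,
          rfl3_neg]
  · have e1 : (0 : RZ) = ((0 : ℝ) : AddCircle (1 : ℝ)) := rfl
    beta_reduce
    rw [e1, hper.lift_coe]
    simp [u]
  · beta_reduce
    rw [hper.lift_coe]
    congr 1
    simp only [u]
    have e1 : Real.pi * (1 / (Q : ℝ)) = Real.pi / Q := by ring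
    rw [e1, ← hc, ← hd]
    simp only [f]
    rw [smul_smul, mul_inv_cancel₀ hd0.ne']
    module

theorem exists_form (c₁ c₂ c₃ : ℝ) : ∃ B : LinearMap.BilinForm ℝ (Fin 3 → ℝ),
    (∀ x y, B x y = B y x) ∧ (∀ i, B (e3 i) (e3 i) = 1) ∧ B (e3 0) (e3 1) = c₁ ∧
      B (e3 1) (e3 2) = c₂ ∧ B (e3 2) (e3 0) = c₃ := by
  refine ⟨LinearMap.mk₂ ℝ (fun x y => x 0 * y 0 + x 1 * y 1 + x 2 * y 2 +
    c₁ * (x 0 * y 1 + x 1 * y 0) + c₂ * (x 1 * y 2 + x 2 * y 1) + c₃ * (x 2 * y 0 + x 0 * y 2))
    (fun x x' y => by simp only [Pi.add_apply]; ring)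
    (fun a x y => by simp only [Pi.smul_apply, smul_eq_mul]; ring)
    (fun x y y' => by simp only [Pi.add_apply]; ring)
    (fun a x y => by simp only [Pi.smul_apply, smul_eq_mul]; ring), ?_, ?_, ?_, ?_, ?_⟩
  · intro x y
    simp only [LinearMap.mk₂_apply]
    ring
  · intro i
    fin_cases i <;> simp [e3, LinearMap.mk₂_apply]
  · simp [e3, LinearMap.mk₂_apply]
  · simp [e3, LinearMap.mk₂_apply]
  · simp [e3, LinearMap.mk₂_apply]

theorem wr_top (B : LinearMap.BilinForm ℝ (Fin 3 → ℝ)) (hB : ∀ i, B (e3 i) (e3 i) = 1)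
    {X : Type} (c : X → M3) (h : ∀ i, ∃ x, c x = rfl3 B (e3 i)) : (⨆ x, Wr (c x)) = ⊤ := by
  have h1 : ∀ i, e3 i ∈ ⨆ x, Wr (c x) := by
    intro i
    obtain ⟨x, hx⟩ := h i
    have h2 : e3 i ∈ Wr (c x) := by
      rw [hx, wr_rfl3 B _ (hB i)]
      exact Submodule.mem_span_singleton_self _
    exact (le_iSup (fun x => Wr (c x)) x) h2
  rw [eq_top_iff]
  intro v _
  have h3 : v = ∑ i, v i • e3 i := by
    funext j
    simp [e3, Finset.sum_apply, Pi.single_apply]
  rw [h3]
  exact Submodule.sum_mem _ fun i _ => Submodule.smul_mem _ _ (h1 i)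

end Pool.Agent.Helper65.LK
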