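import Pool.Agent.Helper65.LK.APD
import Pool.Agent.Helper65.LK.IsoPlanar

/-!
# LK-30. Smoothing a crossing of a connected alternating diagram

`S` is a connected alternating diagram with at least two crossings, `c` a corner of `v` such that
the corners `c` and `c + 2` of `v` are in different faces.  The smoothing `mrg c` joins the darts
`c, c+1` and `c+2, c+3` of `v` (it cuts off the corners `c+1`, `c+3` and merges the faces of the
corners `c` and `c+2`).  The new diagram `S'` lives on `{w // w ≠ v}`;
`α' x = partner (fun w => w ≠ v) S s x` with `s = update (ov V) v (mrg c)`: this is `α x` if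
`α x` is not at `v`; if `α x = (v, i)` and `j` is the dart joined to `i`, it is `α (v, j)` if this is not at `v`,
and otherwise one has to go through `v` once more.  (All the arcs between the vertices `≠ v` are found in
this way, `partner_spec`.)
`alt`: passing through `v` changes the parity (`j = i ± 1`), as does `α`.
`planar`: `Planar S s` by `Planar.below`, then `Planar.iso` for the map `DMap S s S' (ov _)`, which is the
identity on the crossing darts.
`conn`: `rot s * S.α = swap (v,c) (v,c+2) * (rot (ov V) * S.α)` (see `Euler.lean` (b): also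
`rot s = swap * rot (ov V)` for the same pair), the two corners are in different cycles of
`faceP S`, so `cycles (rot s * S.α) = cycles (faceP S) - 1`, and the planarity of both gives
`pieces S s = pieces S (ov V) = 1`; there is a crossing, so no loops and `pieces S' (ov _) = 1` (`gen_classes`
with `U = (· ≠ v)`).
`Face`: the cycles of `swap (v,c) (v,c+2) * faceP S` are the cycles of `faceP S` with the two cycles merged, and
`faceP S'` is its first return map to the darts not at `v` (as in `IsoPlanar.lean` (b)); two
darts not at `v` are in the same cycle of the first return map iff they are in the same cycle.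
`Q`: `Q_map` with `k = 0`: `comps S s = comps S' (ov _)` since there are no loops (`gen_classes`).
`Erase` also records `α'` away from `v`.
-/

namespace Pool.Agent.Helper65.LK

open Function

variable {V : Type} [Fintype V] [DecidableEq V]

/-- the dart of the larger diagram -/
def up {v : V} (x : Dart {w : V // w ≠ v}) : Dart V := (x.1.1, x.2)

/-- `S'` is obtained from `S` by the smoothing of `v` which merges the corners `c` and `c + 2`. -/
structure Erase (S : Shadow V) (v : V) (c : ZMod 4) (S' : Shadow {w : V // w ≠ v}) : Prop where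
  apd : APD S'
  face : ∀ x y, Face S' x y ↔ (Face S (up x) (up y) ∨
    (Face S (up x) (v, c) ∧ Face S (up y) (v, c + 2)) ∨
    (Face S (up x) (v, c + 2) ∧ Face S (up y) (v, c)))
  far : ∀ x, (S.α (up x)).1 ≠ v → up (S'.α x) = S.α (up x)
  near : ∀ x i j, S.α (up x) = (v, i) → (mrg c).mate i = j → (S.α (v, j)).1 ≠ v →
    up (S'.α x) = S.α (v, j)
  q : ∀ (R : Type) [CommRing R] (z mu : R), z * (mu + 1) = 2 →
    Q z mu S (update (ov V) v (mrg c)) = Q z mu S' (ov _)

omit [Fintype V] [DecidableEq V] in
private theorem er_sg (v : V) (i j : ZMod 4) (h : i + 1 = j) : sg ((v, i) : Dart V) = (v, j) := by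
  rw [← h]
  rfl

private theorem er_sameCycle {X Y : Type} (e : X ≃ Y) (f : Equiv.Perm X) (g : Equiv.Perm Y)
    (h : ∀ x, e (f x) = g (e x)) (x y : X) :
    f.SameCycle x y ↔ g.SameCycle (e x) (e y) := by
  have hz : ∀ (k : ℤ) x, e ((f ^ k) x) = (g ^ k) (e x) := by
    have hn : ∀ (k : ℕ) x, e ((f ^ k) x) = (g ^ k) (e x) := by
      intro k
      induction k with
      | zero => intro x; rfl
      | succ k ih =>
        intro x
        rw [pow_succ', pow_succ', Equiv.Perm.mul_apply, Equiv.Perm.mul_apply, h, ih]
    intro k x
    rcases k with k | k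
    · exact hn k x
    · rw [zpow_negSucc, zpow_negSucc, Equiv.Perm.eq_inv_iff_eq, ← hn]
      congr 1
      exact (f ^ (k + 1)).apply_symm_apply x
  constructor
  · rintro ⟨k, hk⟩
    exact ⟨k, by rw [← hz, hk]⟩
  · rintro ⟨k, hk⟩
    refine ⟨k, e.injective ?_⟩
    rw [hz, hk]

/-- the pure diagram on the set `P` of the crossings -/
private theorem er_pure (S : Shadow V) (s : V → St) (P : V → Prop)
    (hP : (fun w => (s w).isX = true) = P) :
    ∃ (S' : Shadow {w : V // P w}) (_ : DMap S s S' (fun w => s w.1)),
      (∀ x : Dart {w : V // P w},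
        (((S'.α x).1.1, (S'.α x).2) : Dart V) = partner (Cr s) S s (x.1.1, x.2)) ∧
      comps S s = loops (Cr s) S s + comps S' (fun w => s w.1) ∧
      classes (genU (Cr s) S s (rot s)) = pieces S' (fun w => s w.1) ∧
      ∀ x y : Dart {w : V // P w}, (rot (fun w : {w : V // P w} => s w.1) * S'.α).SameCycle x y ↔
        (rot s * S.α).SameCycle (x.1.1, x.2) (y.1.1, y.2) := by
  subst hP
  let eφ : XD s ≃ {x : Dart {v : V // (s v).isX = true} // isC (fun v => s v.1) x} :=
    { toFun := fun x => ⟨ipE s x, x.2⟩
      invFun := fun y => (ipE s).symm y.1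
      left_inv := fun _ => rfl
      right_inv := fun _ => rfl }
  refine ⟨ipPure S s, ⟨eφ, ?_, ?_, ?_⟩, ?_, ?_, ?_, ?_⟩
  · intro x y hxy
    have : y = ipSg s x := Subtype.ext hxy
    rw [this]
    rfl
  · intro x y
    exact ipPure_arc S s x y
  · intro x
    rfl
  · intro x
    rfl
  · rw [ip_comps]
    congr 1
    apply ip_classes (X := {x : Dart V // Cr s x.1}) (ipE s)
    intro x y
    apply or_congr
    · constructor
      · intro hy
        have h4 : y = ipBeta S s x := Subtype.ext hy
        rw [h4]
        rfl
      · intro hy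
        have h4 : y = ipBeta S s x := (ipE s).injective hy
        exact congrArg Subtype.val h4
    · constructor
      · intro hy
        have h4 : y = ⟨tau s x.1, x.2⟩ := Subtype.ext hy
        rw [h4]
        rfl
      · intro hy
        have h4 : y = ⟨tau s x.1, x.2⟩ := (ipE s).injective hy
        exact congrArg Subtype.val h4
  · apply ip_classes (X := {x : Dart V // Cr s x.1}) (ipE s)
    intro x y
    apply or_congr
    · constructor
      · intro hy
        have h4 : y = ipBeta S s x := Subtype.ext hy
        rw [h4]
        rfl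
      · intro hy
        have h4 : y = ipBeta S s x := (ipE s).injective hy
        exact congrArg Subtype.val h4
    · constructor
      · intro hy
        have h4 : y = ⟨rot s x.1, x.2⟩ := Subtype.ext hy
        rw [h4]
        rfl
      · intro hy
        have h4 : y = ⟨rot s x.1, x.2⟩ := (ipE s).injective hy
        exact congrArg Subtype.val h4
  · intro x y
    have h1 := er_sameCycle (ipE s) (ipRho S s)
      (rot (fun w : {w : V // (s w).isX = true} => s w.1) * (ipPure S s).α) (by
        intro x
        have h2 : ipRho S s x = ⟨rot s (ipBeta S s x).1, (ipBeta S s x).2⟩ := by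
          apply Subtype.ext
          exact (ip_rot_c s (ipBeta S s x).2).symm
        rw [h2]
        rfl) ((ipE s).symm x) ((ipE s).symm y)
    rw [Equiv.apply_symm_apply, Equiv.apply_symm_apply] at h1
    rw [← h1, ip_sameCycle]
    rfl

theorem exists_erase {S : Shadow V} (hS : APD S) (v : V) (c : ZMod 4)
    (hc : ¬ Face S (v, c) (v, c + 2)) (hn : 2 ≤ Fintype.card V) :
    ∃ S', Erase S v c S' := by
  set s : V → St := update (ov V) v (mrg c) with hs
  have hq : (mrg c).isX = false := by
    unfold mrg
    split_ifs <;> rfl
  have hsv : s v = mrg c := update_self _ _ _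
  have hsw : ∀ w, w ≠ v → s w = St.over1 := fun w hw => update_of_ne hw _ _
  have hisX : ∀ w, (s w).isX = true ↔ w ≠ v := by
    intro w
    constructor
    · rintro h rfl
      rw [hsv, hq] at h
      exact absurd h (by decide)
    · intro h
      rw [hsw w h]
      rfl
  have hP : (fun w => (s w).isX = true) = fun w => w ≠ v := funext fun w => propext (hisX w)
  have hov : (ov V v).isX = true := rfl
  -- planarity
  have hpl : Planar S s := by
    apply Planar.below hS.planar
    intro w hw
    exact absurd hw (by simp [St.isX])
  -- the face permutation of the smoothed diagram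
  obtain ⟨a, b, hab, hrot, hac⟩ : ∃ a b : Dart V, a ≠ b ∧
      rot s * S.α = faceP S * Equiv.swap a b ∧
      ((faceP S a = (v, c) ∧ faceP S b = (v, c + 2)) ∨
        (faceP S a = (v, c + 2) ∧ faceP S b = (v, c))) := by
    have hα : S.α⁻¹ = S.α := by
      rw [inv_eq_iff_mul_eq_one]
      exact Equiv.ext S.invol
    refine ⟨S.α (e_a (mrg c) v), S.α (e_b (mrg c) v), fun h => e_ab _ v (S.α.injective h), ?_, ?_⟩
    · have := Equiv.mul_swap_eq_swap_mul S.α (S.α (e_a (mrg c) v)) (S.α (e_b (mrg c) v))
      rw [S.invol, S.invol] at this
      rw [hs, e_rot_update hov hq, mul_assoc, ← this, ← mul_assoc]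
      rfl
    · rw [faceP_apply, faceP_apply, S.invol, S.invol]
      have key : ∀ c : ZMod 4, (sg (e_a (mrg c) v) = (v, c) ∧ sg (e_b (mrg c) v) = (v, c + 2)) ∨
          (sg (e_a (mrg c) v) = (v, c + 2) ∧ sg (e_b (mrg c) v) = (v, c)) := by
        have k0 : mrg 0 = St.smA := by decide
        have k1 : mrg 1 = St.smB := by decide
        have k2 : mrg 2 = St.smA := by decide
        have k3 : mrg 3 = St.smB := by decide
        have m1 : e_a St.smA v = (v, 1) := rfl
        have m2 : e_b St.smA v = (v, 3) := rfl
        have m3 : e_a St.smB v = (v, 0) := rfl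
        have m4 : e_b St.smB v = (v, 2) := rfl
        intro c
        fin_cases c
        · right
          refine ⟨?_, ?_⟩
          · show sg (e_a (mrg 0) v) = (v, 0 + 2)
            rw [k0, m1]
            exact er_sg v _ _ (by decide)
          · show sg (e_b (mrg 0) v) = (v, 0)
            rw [k0, m2]
            exact er_sg v _ _ (by decide)
        · left
          refine ⟨?_, ?_⟩
          · show sg (e_a (mrg 1) v) = (v, 1)
            rw [k1, m3]
            exact er_sg v _ _ (by decide)
          · show sg (e_b (mrg 1) v) = (v, 1 + 2)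
            rw [k1, m4]
            exact er_sg v _ _ (by decide)
        · left
          refine ⟨?_, ?_⟩
          · show sg (e_a (mrg 2) v) = (v, 2)
            rw [k2, m1]
            exact er_sg v _ _ (by decide)
          · show sg (e_b (mrg 2) v) = (v, 2 + 2)
            rw [k2, m2]
            exact er_sg v _ _ (by decide)
        · right
          refine ⟨?_, ?_⟩
          · show sg (e_a (mrg 3) v) = (v, 3 + 2)
            rw [k3, m3]
            exact er_sg v _ _ (by decide)
          · show sg (e_b (mrg 3) v) = (v, 3)
            rw [k3, m4]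
            exact er_sg v _ _ (by decide)
      exact key c
  have hfa : ∀ x, (faceP S).SameCycle x (faceP S x) := fun x =>
    Equiv.Perm.sameCycle_apply_right.mpr (Equiv.Perm.SameCycle.refl _ _)
  have hnab : ¬ (faceP S).SameCycle a b := by
    intro h
    apply hc
    have h1 : (faceP S).SameCycle (faceP S a) (faceP S b) :=
      ((hfa a).symm.trans h).trans (hfa b)
    rcases hac with ⟨h2, h3⟩ | ⟨h2, h3⟩
    · rw [h2, h3] at h1
      exact h1
    · rw [h2, h3] at h1
      exact h1.symm
  have hcyc : cycles (rot s * S.α) + 1 = cycles (faceP S) := by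
    rw [hrot]
    exact e_cycles_swap_of_not _ hab hnab
  have hnXov : nX (ov V) = Fintype.card V := by
    unfold nX
    have h1 : (Finset.univ.filter fun w => (ov V w).isX = true) = Finset.univ :=
      Finset.filter_true_of_mem (fun _ _ => rfl)
    rw [h1]
    rfl
  have hnX : nX s + 1 = Fintype.card V := by
    rw [hs, e_nX_update hov hq, hnXov]
  have hpieces : pieces S s = 1 := by
    have h1 : cycles (faceP S) = nX (ov V) + 2 * pieces S (ov V) := hS.planar
    have h2 : cycles (rot s * S.α) = nX s + 2 * pieces S s := hpl
    rw [hS.conn, hnXov] at h1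
    omega
  obtain ⟨w, hw⟩ : ∃ w : V, w ≠ v := by
    have : Nontrivial V := Fintype.one_lt_card_iff_nontrivial.mp (by omega)
    exact exists_ne v
  have hpos : 0 < classes (genU (Cr s) S s (rot s)) := by
    have : Nonempty (Quotient (Relation.EqvGen.setoid (genU (Cr s) S s (rot s)))) :=
      ⟨Quotient.mk _ ⟨((w, 0) : Dart V), (hisX w).2 hw⟩⟩
    exact Nat.card_pos
  have hp2 := ip_pieces S s
  have hloops : loops (Cr s) S s = 0 := by omega
  have hcl1 : classes (genU (Cr s) S s (rot s)) = 1 := by omega
  obtain ⟨S', e, hα', hcomps, hpie, hface⟩ := er_pure S s (fun w => w ≠ v) hP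
  have hst : (fun w : {w : V // w ≠ v} => s w.1) = ov _ := by
    funext w
    exact hsw w.1 w.2
  rw [hst] at hpie hface hcomps
  have e' : DMap S s S' (ov _) := hst ▸ e
  have hup : ∀ x, up (S'.α x) = partner (Cr s) S s (up x) := hα'
  refine ⟨S', ⟨⟨?_, ?_, ?_⟩, ?_, ?_, ?_, ?_⟩⟩
  · -- alternating
    intro x
    obtain ⟨m, z, hz0, hz, -, hp⟩ := partner_path (fun _ => True) (Cr s) (fun _ _ => trivial) S s
      (up x) ((hisX _).2 x.1.2)
    have hpart : ∀ y, partner (fun _ => True) S s y = S.α y := fun y =>
      partner_of_mem (fun _ => True) S s y trivial trivial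
    have hpar : ∀ i, i ≤ m → par (z i).2 = par x.2 := by
      intro i
      induction i with
      | zero =>
        intro _
        rw [hz0]
        rfl
      | succ i ih =>
        intro hi
        obtain ⟨h1, h2⟩ := hz i (by omega)
        rw [hpart] at h1 h2
        have h3 : (S.α (z i)).1 = v := by
          by_contra hcon
          exact h1 ((hisX _).2 hcon)
        have h4 : (z (i + 1)).2 = (mrg c).mate (S.α (z i)).2 := by
          rw [h2]
          show (s (S.α (z i)).1).mate (S.α (z i)).2 = _
          rw [h3, hsv]
        have h5 := hS.alt (z i)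
        have h6 := ih (by omega)
        have h7 : ∀ (c j : ZMod 4), par ((mrg c).mate j) ≠ par j := by decide
        have h8 := h7 c (S.α (z i)).2
        rw [h4, ← h6]
        revert h5 h8
        generalize par (S.α (z i)).2 = p1
        generalize par (z i).2 = p2
        generalize par ((mrg c).mate (S.α (z i)).2) = p3
        revert p1 p2 p3
        decide
    have h1 : (S'.α x).2 = (S.α (z m)).2 := by
      have h2 := hup x
      rw [hp, hpart] at h2
      exact congrArg Prod.snd h2
    rw [h1, ← hpar m le_rfl]
    exact hS.alt (z m)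
  · exact Planar.iso e' hpl
  · rw [← hpie, hcl1]
  · -- faces
    intro x y
    have h1 : Face S' x y ↔ (rot s * S.α).SameCycle (up x) (up y) := hface x y
    rw [h1]
    have hsame : (rot s * S.α).SameCycle a b := by
      by_contra hcon
      rw [hrot] at hcon
      exact hnab ((e_swap_dichotomy _ hab).mpr hcon)
    have h2 : (rot s * S.α).SameCycle (up x) (up y) ↔ ((faceP S).SameCycle (up x) (up y) ∨
        (((faceP S).SameCycle (up x) a ∨ (faceP S).SameCycle (up x) b) ∧
          ((faceP S).SameCycle (up y) a ∨ (faceP S).SameCycle (up y) b))) := by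
      have h3 := e_eqvGen_add (fun x y => y = faceP S x) a b (up x) (up y)
      have h4 := e_join_swap_iff (faceP S) a b (up x) (up y)
      have h5 := e_eqvGen_add (fun x y => y = (faceP S * Equiv.swap a b) x) a b (up x) (up y)
      simp only [← e_sameCycle_iff] at h3 h5
      rw [h4] at h5
      rw [← h3, h5, ← hrot]
      constructor
      · exact Or.inl
      · rintro (h6 | ⟨h6, h7⟩)
        · exact h6
        · have h8 : (rot s * S.α).SameCycle (up x) a := by
            rcases h6 with h6 | h6
            · exact h6
            · exact h6.trans hsame.symm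
          have h9 : (rot s * S.α).SameCycle (up y) a := by
            rcases h7 with h7 | h7
            · exact h7
            · exact h7.trans hsame.symm
          exact h8.trans h9.symm
    rw [h2]
    unfold Face
    have ha : ∀ z, (faceP S).SameCycle z a ↔ (faceP S).SameCycle z (faceP S a) := fun z =>
      Equiv.Perm.sameCycle_apply_right.symm
    have hb : ∀ z, (faceP S).SameCycle z b ↔ (faceP S).SameCycle z (faceP S b) := fun z =>
      Equiv.Perm.sameCycle_apply_right.symm
    simp only [ha, hb]
    rcases hac with ⟨h3, h4⟩ | ⟨h3, h4⟩ <;> rw [h3, h4]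
    · constructor
      · rintro (h | ⟨h5 | h5, h6 | h6⟩)
        · exact Or.inl h
        · exact Or.inl (h5.trans h6.symm)
        · exact Or.inr (Or.inl ⟨h5, h6⟩)
        · exact Or.inr (Or.inr ⟨h5, h6⟩)
        · exact Or.inl (h5.trans h6.symm)
      · rintro (h | ⟨h5, h6⟩ | ⟨h5, h6⟩)
        · exact Or.inl h
        · exact Or.inr ⟨Or.inl h5, Or.inr h6⟩
        · exact Or.inr ⟨Or.inr h5, Or.inl h6⟩
    · constructor
      · rintro (h | ⟨h5 | h5, h6 | h6⟩)
        · exact Or.inl h
        · exact Or.inl (h5.trans h6.symm)
        · exact Or.inr (Or.inr ⟨h5, h6⟩)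
        · exact Or.inr (Or.inl ⟨h5, h6⟩)
        · exact Or.inl (h5.trans h6.symm)
      · rintro (h | ⟨h5, h6⟩ | ⟨h5, h6⟩)
        · exact Or.inl h
        · exact Or.inr ⟨Or.inr h5, Or.inl h6⟩
        · exact Or.inr ⟨Or.inl h5, Or.inr h6⟩
  · -- far
    intro x hx
    rw [hup]
    exact partner_of_mem (Cr s) S s (up x) ((hisX _).2 x.1.2) ((hisX _).2 hx)
  · -- near
    intro x i j h1 h2 h3
    rw [hup]
    apply partner_eq (Cr s) S s (up x) _ ((hisX _).2 x.1.2) ((hisX _).2 h3)
    · intro h4
      have h5 : ((v, j) : Dart V) = (v, i) := by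
        rw [← h1, ← h4, S.invol]
      have h6 : j = i := congrArg Prod.snd h5
      rw [h6] at h2
      exact St.mate_ne _ _ h2
    · have g1 : Relation.EqvGen (arcRel (Cr s) S s) (up x) (v, i) := by
        rw [← h1]
        exact Relation.EqvGen.rel _ _ (Or.inl rfl)
      have g2 : Relation.EqvGen (arcRel (Cr s) S s) (v, i) (v, j) := by
        apply Relation.EqvGen.rel
        right
        refine ⟨?_, ?_⟩
        · intro h4
          exact (hisX v).1 h4 rfl
        · show ((v, j) : Dart V) = (v, (s v).mate i)
          rw [hsv, h2]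
      have g3 : Relation.EqvGen (arcRel (Cr s) S s) (v, j) (S.α (v, j)) :=
        Relation.EqvGen.rel _ _ (Or.inl rfl)
      exact (g1.trans _ _ _ g2).trans _ _ _ g3
  · -- Q
    intro R _ z mu hz
    have h1 := Q_map hz e' (k := 0) (by rw [add_zero, hcomps, hloops, zero_add]) (Or.inl rfl) hpl
    rw [pow_zero, one_mul] at h1
    exact h1

end Pool.Agent.Helper65.LK
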