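import Pool.Agent.Helper65.LK.Compress

/-!
# LK-12. Euler's inequality; smoothing keeps planarity

Write `c(s) = cycles (rot s * S.α)`, `p(s) = pieces S s`.
(a) If `s` has no crossings then `rot s = tau s` and `c(s) = 2 p(s)`: the classes of `p(s)` are the
orbits of the group generated by the fixed point free involutions `α, τ`; each is the union of the
cycles of `x` and of `τ x` under `τ α`, which are different (see the header of `SweepEx.lean`).
(b) Let `s v` be a crossing and `q = smA` or `smB`, `t = update s v q`.  `rot t = rot s * swap a b` with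
`a = (v,1), b = (v,3)` for `smA` and `a = (v,0), b = (v,2)` for `smB` (check the four darts;
`St.next`).  Hence `rot t * α = rot s * swap a b * α = (rot s * α) * swap (α a) (α b)`, and multiplication by
a transposition changes the number of cycles by exactly one: it is increased iff the two points
are in the same cycle of `rot s * α`, and then they are in different cycles of the product.
(c) `p(t) ∈ {p(s), p(s) + 1}`; if `p(t) = p(s) + 1` then `a` and `b` are in different pieces of `t`,
so `α a`, `α b` are in different cycles of `rot t * α` and `c(t) = c(s) + 1`.  (`Piece S s` is generated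
by `Piece S t` together with the pair `(a, b)`: the four darts at `v` are joined in `s`; in `t` the
rotation joins them in two pairs, `a, b` in different pairs.)
(d) Euler's inequality `c(s) ≤ nX s + 2 p(s)` by induction on `nX s`, from (a), (b), (c):
if `p(t) = p(s)`, `c(s) ≤ c(t) + 1 ≤ nX t + 2 p(t) + 1`; if `p(t) = p(s) + 1`,
`c(s) = c(t) - 1 ≤ nX t + 2 p(s) + 2 - 1`.
(e) If `s` is planar, so is `t`: `c(t) ≥ c(s) - 1 = nX t + 2 p(s)`; if `p(t) = p(s)` equality follows from
Euler's inequality; if `p(t) = p(s) + 1` then `c(t) = c(s) + 1 = nX t + 2 p(t)`.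
Changing crossings changes neither `rot` nor `nX` nor `pieces`.
-/

namespace Pool.Agent.Helper65.LK

open Function

section general

variable {X : Type}

theorem e_sameCycle_iff (π : Equiv.Perm X) [Finite X] (x y : X) :
    π.SameCycle x y ↔ Relation.EqvGen (fun x y => y = π x) x y := by
  constructor
  · rintro ⟨i, rfl⟩
    have key : ∀ (n : ℕ) (z : X), Relation.EqvGen (fun x y => y = π x) z ((π ^ n) z) := by
      intro n
      induction n with
      | zero => intro z; exact Relation.EqvGen.refl _
      | succ n ih =>
        intro z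
        rw [pow_succ']
        exact (ih z).trans _ _ _ (Relation.EqvGen.rel _ _ rfl)
    obtain ⟨n, rfl | rfl⟩ := i.eq_nat_or_neg
    · rw [zpow_natCast]; exact key n x
    · have h := key n ((π ^ (-(n : ℤ))) x)
      rw [zpow_neg, zpow_natCast] at h ⊢
      rw [← Equiv.Perm.mul_apply, mul_inv_cancel, Equiv.Perm.one_apply] at h
      exact h.symm _ _
  · intro h
    induction h with
    | rel x y h => exact ⟨1, by rw [zpow_one]; exact h.symm⟩
    | refl x => exact Equiv.Perm.SameCycle.refl _ _
    | symm x y _ ih => exact ih.symm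
    | trans x y z _ _ ih1 ih2 => exact ih1.trans ih2

theorem e_classes_congr {r r' : X → X → Prop}
    (h : ∀ x y, Relation.EqvGen r x y ↔ Relation.EqvGen r' x y) : classes r = classes r' := by
  unfold classes
  have : Relation.EqvGen.setoid r = Relation.EqvGen.setoid r' := by
    ext x y
    exact h x y
  rw [this]

theorem e_cycles_eq [Finite X] (π : Equiv.Perm X) : cycles π = classes (fun x y => y = π x) := by
  unfold cycles classes
  have : Equiv.Perm.SameCycle.setoid π = Relation.EqvGen.setoid (fun x y => y = π x) := by
    ext x y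
    exact e_sameCycle_iff π x y
  rw [this]

/-- adding a pair to a relation -/
theorem e_eqvGen_add (r : X → X → Prop) (a b x y : X) :
    Relation.EqvGen (fun x y => r x y ∨ (x = a ∧ y = b)) x y ↔
      Relation.EqvGen r x y ∨ ((Relation.EqvGen r x a ∨ Relation.EqvGen r x b) ∧
        (Relation.EqvGen r y a ∨ Relation.EqvGen r y b)) := by
  have mono : ∀ x y, Relation.EqvGen r x y →
      Relation.EqvGen (fun x y => r x y ∨ (x = a ∧ y = b)) x y := by
    intro x y h
    induction h with
    | rel x y h => exact Relation.EqvGen.rel _ _ (Or.inl h)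
    | refl x => exact Relation.EqvGen.refl _
    | symm x y _ ih => exact ih.symm _ _
    | trans x y z _ _ ih1 ih2 => exact ih1.trans _ _ _ ih2
  have hab : Relation.EqvGen (fun x y => r x y ∨ (x = a ∧ y = b)) a b :=
    Relation.EqvGen.rel _ _ (Or.inr ⟨rfl, rfl⟩)
  constructor
  · intro h
    induction h with
    | rel x y h =>
      rcases h with h | ⟨rfl, rfl⟩
      · exact Or.inl (Relation.EqvGen.rel _ _ h)
      · exact Or.inr ⟨Or.inl (Relation.EqvGen.refl _), Or.inr (Relation.EqvGen.refl _)⟩
    | refl x => exact Or.inl (Relation.EqvGen.refl _)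
    | symm x y _ ih =>
      rcases ih with h | ⟨h1, h2⟩
      · exact Or.inl (h.symm _ _)
      · exact Or.inr ⟨h2, h1⟩
    | trans x y z _ _ ih1 ih2 =>
      rcases ih1 with h1 | ⟨h1, h1'⟩
      · rcases ih2 with h2 | ⟨h2, h2'⟩
        · exact Or.inl (h1.trans _ _ _ h2)
        · refine Or.inr ⟨?_, h2'⟩
          rcases h2 with h2 | h2
          · exact Or.inl (h1.trans _ _ _ h2)
          · exact Or.inr (h1.trans _ _ _ h2)
      · rcases ih2 with h2 | ⟨h2, h2'⟩
        · refine Or.inr ⟨h1, ?_⟩
          rcases h1' with h1' | h1'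
          · exact Or.inl ((h2.symm _ _).trans _ _ _ h1')
          · exact Or.inr ((h2.symm _ _).trans _ _ _ h1')
        · exact Or.inr ⟨h1, h2'⟩
  · rintro (h | ⟨h1, h2⟩)
    · exact mono _ _ h
    · have g1 : Relation.EqvGen (fun x y => r x y ∨ (x = a ∧ y = b)) x a := by
        rcases h1 with h1 | h1
        · exact mono _ _ h1
        · exact (mono _ _ h1).trans _ _ _ (hab.symm _ _)
      have g2 : Relation.EqvGen (fun x y => r x y ∨ (x = a ∧ y = b)) y a := by
        rcases h2 with h2 | h2
        · exact mono _ _ h2
        · exact (mono _ _ h2).trans _ _ _ (hab.symm _ _)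
      exact g1.trans _ _ _ (g2.symm _ _)

theorem e_classes_add_of_rel (r : X → X → Prop) (a b : X) (h : Relation.EqvGen r a b) :
    classes (fun x y => r x y ∨ (x = a ∧ y = b)) = classes r := by
  apply e_classes_congr
  intro x y
  rw [e_eqvGen_add]
  constructor
  · rintro (h1 | ⟨h1, h2⟩)
    · exact h1
    · have g1 : Relation.EqvGen r x a := by
        rcases h1 with h1 | h1
        · exact h1
        · exact h1.trans _ _ _ (h.symm _ _)
      have g2 : Relation.EqvGen r y a := by
        rcases h2 with h2 | h2
        · exact h2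
        · exact h2.trans _ _ _ (h.symm _ _)
      exact g1.trans _ _ _ (g2.symm _ _)
  · exact Or.inl

theorem e_classes_add_of_not [Finite X] (r : X → X → Prop) (a b : X)
    (h : ¬ Relation.EqvGen r a b) :
    classes (fun x y => r x y ∨ (x = a ∧ y = b)) + 1 = classes r := by
  classical
  set r' : X → X → Prop := fun x y => r x y ∨ (x = a ∧ y = b) with hr'
  let Q := Quotient (Relation.EqvGen.setoid r)
  let Q' := Quotient (Relation.EqvGen.setoid r')
  have hmk : ∀ x y : X, (Quotient.mk (Relation.EqvGen.setoid r) x : Q) = Quotient.mk _ y ↔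
      Relation.EqvGen r x y := fun x y => Quotient.eq (r := Relation.EqvGen.setoid r)
  have hmk' : ∀ x y : X, (Quotient.mk (Relation.EqvGen.setoid r') x : Q') = Quotient.mk _ y ↔
      Relation.EqvGen r' x y := fun x y => Quotient.eq (r := Relation.EqvGen.setoid r')
  have mono : ∀ x y, Relation.EqvGen r x y → Relation.EqvGen r' x y := fun x y hxy =>
    (e_eqvGen_add r a b x y).mpr (Or.inl hxy)
  let f : Q → Q' := Quotient.map' id (fun x y hxy => mono x y hxy)
  have hf : ∀ x, f (Quotient.mk _ x) = Quotient.mk _ x := fun x => rfl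
  let g : {q : Q // q ≠ Quotient.mk _ b} → Q' := fun q => f q.1
  have hg : Function.Bijective g := by
    constructor
    · rintro ⟨p, hp⟩ ⟨q, hq⟩ hpq
      apply Subtype.ext
      change p = q
      obtain ⟨x, rfl⟩ := Quotient.exists_rep p
      obtain ⟨y, rfl⟩ := Quotient.exists_rep q
      have h1 : Relation.EqvGen r' x y := (hmk' x y).mp hpq
      have hx : ¬ Relation.EqvGen r x b := fun hxb => hp ((hmk x b).mpr hxb)
      have hy : ¬ Relation.EqvGen r y b := fun hyb => hq ((hmk y b).mpr hyb)
      rw [hmk]
      rcases (e_eqvGen_add r a b x y).mp h1 with h2 | ⟨h2, h3⟩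
      · exact h2
      · rcases h2 with h2 | h2
        · rcases h3 with h3 | h3
          · exact h2.trans _ _ _ (h3.symm _ _)
          · exact absurd h3 hy
        · exact absurd h2 hx
    · intro q
      obtain ⟨y, rfl⟩ := Quotient.exists_rep q
      by_cases hy : Relation.EqvGen r y b
      · refine ⟨⟨Quotient.mk _ a, fun hab => h ((hmk a b).mp hab)⟩, ?_⟩
        change (Quotient.mk _ a : Q') = Quotient.mk _ y
        rw [hmk', e_eqvGen_add]
        exact Or.inr ⟨Or.inl (Relation.EqvGen.refl _), Or.inr hy⟩
      · exact ⟨⟨Quotient.mk _ y, fun hyb => hy ((hmk y b).mp hyb)⟩, rfl⟩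
  have h1 : Nat.card {q : Q // q ≠ Quotient.mk _ b} = Nat.card Q' := Nat.card_congr (Equiv.ofBijective g hg)
  have h2 : Nat.card {q : Q // q ≠ Quotient.mk _ b} + 1 = Nat.card Q := by
    have : Fintype Q := Fintype.ofFinite Q
    rw [Nat.card_eq_fintype_card, Nat.card_eq_fintype_card, Fintype.card_subtype_compl,
      Fintype.card_subtype_eq]
    have : 0 < Fintype.card Q := Fintype.card_pos_iff.mpr ⟨Quotient.mk _ b⟩
    omega
  unfold classes
  rw [← h2, ← h1]

/-- periodic orbit criterion -/
theorem e_not_sameCycle {f : Equiv.Perm X} {x y : X} {m : ℕ} (hm : 0 < m) (hx : (f ^ m) x = x)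
    (h : ∀ k, 1 ≤ k → k ≤ m → (f ^ k) x ≠ y) : ¬ f.SameCycle x y := by
  rintro ⟨i, hi⟩
  have h1 : (f ^ (i % (m : ℤ))) x = y := by
    rw [← hi]
    conv_rhs => rw [← Int.emod_add_mul_ediv i m]
    rw [zpow_add, Equiv.Perm.mul_apply, zpow_mul]
    congr 1
    rw [zpow_natCast]
    exact (Function.IsFixedPt.perm_zpow hx _).symm
  have h2 : 0 ≤ i % (m : ℤ) := Int.emod_nonneg _ (by omega)
  have h3 : i % (m : ℤ) < m := Int.emod_lt_of_pos _ (by omega)
  obtain ⟨r, hr⟩ := Int.eq_ofNat_of_zero_le h2
  rw [hr] at h1 h3
  rw [zpow_natCast] at h1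
  by_cases hr0 : r = 0
  · subst hr0
    rw [pow_zero, Equiv.Perm.one_apply] at h1
    exact h m hm le_rfl (by rw [hx, h1])
  · exact h r (by omega) (by omega) h1

theorem e_swap_dichotomy [Finite X] [DecidableEq X] (π : Equiv.Perm X) {a b : X} (hab : a ≠ b) :
    π.SameCycle a b ↔ ¬ (π * Equiv.swap a b).SameCycle a b := by
  classical
  set π' := π * Equiv.swap a b with hπ'
  -- first return of `b` to the pair
  have hex : ∃ m : ℕ, 0 < m ∧ ((π ^ m) b = a ∨ (π ^ m) b = b) := by
    obtain ⟨n, hn, hn'⟩ : ∃ n : ℕ, 0 < n ∧ (π ^ n) b = b := by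
      have : Fintype X := Fintype.ofFinite X
      exact ⟨orderOf π, orderOf_pos π, by rw [pow_orderOf_eq_one]; rfl⟩
    exact ⟨n, hn, Or.inr hn'⟩
  set m := Nat.find hex with hm
  obtain ⟨hm0, hmab⟩ := Nat.find_spec hex
  rw [← hm] at hm0 hmab
  have hmin : ∀ k, 0 < k → k < m → (π ^ k) b ≠ a ∧ (π ^ k) b ≠ b := by
    intro k hk hkm
    have := Nat.find_min hex (m := k) (by rw [← hm]; exact hkm)
    push Not at this
    exact this hk
  have hfollow : ∀ k, 1 ≤ k → k ≤ m → (π' ^ k) a = (π ^ k) b := by
    intro k hk
    induction k, hk using Nat.le_induction with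
    | base =>
      intro _
      rw [pow_one, pow_one, hπ', Equiv.Perm.mul_apply, Equiv.swap_apply_left]
    | succ k hk ih =>
      intro hkm
      obtain ⟨h1, h2⟩ := hmin k (by omega) (by omega)
      rw [pow_succ', Equiv.Perm.mul_apply, ih (by omega), hπ', Equiv.Perm.mul_apply,
        Equiv.swap_apply_of_ne_of_ne h1 h2, ← Equiv.Perm.mul_apply, ← pow_succ']
  rcases hmab with h1 | h1
  · -- `a` is reached
    have e1 : π.SameCycle a b := by
      apply Equiv.Perm.SameCycle.symm
      exact ⟨m, by rw [zpow_natCast]; exact h1⟩
    have e2 : ¬ π'.SameCycle a b := by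
      apply e_not_sameCycle hm0
      · rw [hfollow m hm0 le_rfl, h1]
      · intro k hk hkm
        rw [hfollow k hk hkm]
        rcases eq_or_lt_of_le hkm with hkm | hkm
        · rw [hkm, h1]; exact hab
        · exact (hmin k hk hkm).2
    exact ⟨fun _ => e2, fun _ => e1⟩
  · have e1 : ¬ π.SameCycle b a := by
      apply e_not_sameCycle hm0 h1
      intro k hk hkm
      rcases eq_or_lt_of_le hkm with hkm | hkm
      · rw [hkm, h1]; exact hab.symm
      · exact (hmin k hk hkm).1
    have e2 : π'.SameCycle a b := ⟨m, by rw [zpow_natCast, hfollow m hm0 le_rfl, h1]⟩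
    exact ⟨fun h => absurd h.symm e1, fun h => absurd e2 h⟩

theorem e_join_swap (π : Equiv.Perm X) [DecidableEq X] (a b x y : X)
    (h : Relation.EqvGen (fun x y => y = (π * Equiv.swap a b) x ∨ (x = a ∧ y = b)) x y) :
    Relation.EqvGen (fun x y => y = π x ∨ (x = a ∧ y = b)) x y := by
  induction h with
  | rel x y h =>
    rcases h with h | h
    · by_cases hxa : x = a
      · subst hxa
        rw [Equiv.Perm.mul_apply, Equiv.swap_apply_left] at h
        exact (Relation.EqvGen.rel x b (Or.inr ⟨rfl, rfl⟩)).trans _ _ _
          (Relation.EqvGen.rel _ _ (Or.inl h))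
      · by_cases hxb : x = b
        · subst hxb
          rw [Equiv.Perm.mul_apply, Equiv.swap_apply_right] at h
          exact ((Relation.EqvGen.rel a x (Or.inr ⟨rfl, rfl⟩)).symm _ _).trans _ _ _
            (Relation.EqvGen.rel _ _ (Or.inl h))
        · rw [Equiv.Perm.mul_apply, Equiv.swap_apply_of_ne_of_ne hxa hxb] at h
          exact Relation.EqvGen.rel _ _ (Or.inl h)
    · exact Relation.EqvGen.rel _ _ (Or.inr h)
  | refl x => exact Relation.EqvGen.refl _
  | symm x y _ ih => exact ih.symm _ _
  | trans x y z _ _ ih1 ih2 => exact ih1.trans _ _ _ ih2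

theorem e_join_swap_iff (π : Equiv.Perm X) [DecidableEq X] (a b x y : X) :
    Relation.EqvGen (fun x y => y = (π * Equiv.swap a b) x ∨ (x = a ∧ y = b)) x y ↔
    Relation.EqvGen (fun x y => y = π x ∨ (x = a ∧ y = b)) x y := by
  constructor
  · exact e_join_swap π a b x y
  · intro h
    apply e_join_swap (π * Equiv.swap a b) a b x y
    rw [mul_assoc, Equiv.swap_mul_self, mul_one]
    exact h

theorem e_cycles_swap_of_same [Finite X] [DecidableEq X] (π : Equiv.Perm X) {a b : X}
    (hab : a ≠ b) (h : π.SameCycle a b) : cycles (π * Equiv.swap a b) = cycles π + 1 := by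
  have h' := (e_swap_dichotomy π hab).mp h
  rw [e_sameCycle_iff] at h h'
  rw [e_cycles_eq, e_cycles_eq, ← e_classes_add_of_rel _ a b h, ← e_classes_add_of_not _ a b h']
  rw [e_classes_congr (e_join_swap_iff π a b)]

theorem e_cycles_swap_of_not [Finite X] [DecidableEq X] (π : Equiv.Perm X) {a b : X}
    (hab : a ≠ b) (h : ¬ π.SameCycle a b) : cycles (π * Equiv.swap a b) + 1 = cycles π := by
  have h' : (π * Equiv.swap a b).SameCycle a b := by
    by_contra hcon
    exact h ((e_swap_dichotomy π hab).mpr hcon)
  rw [e_sameCycle_iff] at h h'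
  rw [e_cycles_eq, e_cycles_eq, ← e_classes_add_of_rel _ a b h', ← e_classes_add_of_not _ a b h]
  rw [e_classes_congr (e_join_swap_iff π a b)]

/-- Two fixed point free involutions: the product has twice as many cycles as there are orbits. -/
theorem e_two_involutions [Finite X] (α τ : Equiv.Perm X) (hα : ∀ x, α (α x) = x)
    (hτ : ∀ x, τ (τ x) = x) (hα' : ∀ x, α x ≠ x) (hτ' : ∀ x, τ x ≠ x) :
    cycles (τ * α) = 2 * classes (fun x y => y = α x ∨ y = τ x) := by
  classical
  set σ := τ * α with hσ
  have hαα : α * α = 1 := Equiv.ext hα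
  have hττ : τ * τ = 1 := Equiv.ext hτ
  have hαinv : α⁻¹ = α := by rw [inv_eq_iff_mul_eq_one]; exact hαα
  have hτinv : τ⁻¹ = τ := by rw [inv_eq_iff_mul_eq_one]; exact hττ
  have hσinv : σ⁻¹ = α * τ := by rw [hσ, mul_inv_rev, hαinv, hτinv]
  -- conjugation
  have hconj : ∀ (i : ℤ) (x : X), α ((σ ^ i) x) = (σ ^ (-i)) (α x) := by
    intro i x
    have h1 : α * σ * α⁻¹ = σ⁻¹ := by
      rw [hσinv, hσ, hαinv, mul_assoc, mul_assoc, hαα, mul_one]
    have h2 : α * σ ^ i * α⁻¹ = σ ^ (-i) := by
      rw [← conj_zpow, h1, inv_zpow', ]
    have h3 : α * σ ^ i = σ ^ (-i) * α := by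
      rw [← h2]; group
    exact congrArg (fun f : Equiv.Perm X => f x) h3
  -- `α x` is in another cycle than `x`
  have hne : ∀ x, ¬ σ.SameCycle x (α x) := by
    rintro x ⟨i, hi⟩
    rcases Int.even_or_odd' i with ⟨l, rfl | rfl⟩
    · have h1 : α ((σ ^ l) x) = (σ ^ l) x := by
        rw [hconj, ← hi, ← Equiv.Perm.mul_apply, ← zpow_add]
        congr 2
        ring
      exact hα' _ h1
    · have h1 : α ((σ ^ l) x) = σ ((σ ^ l) x) := by
        rw [hconj, ← hi, ← Equiv.Perm.mul_apply, ← zpow_add]
        have : -l + (2 * l + 1) = 1 + l := by ring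
        rw [this, zpow_add, zpow_one, Equiv.Perm.mul_apply]
      rw [hσ, Equiv.Perm.mul_apply] at h1
      exact hτ' _ h1.symm
  have hgen : ∀ x y, Relation.EqvGen (fun x y => y = α x ∨ y = τ x) x y ↔
      (σ.SameCycle x y ∨ σ.SameCycle x (α y)) := by
    intro x y
    have hαs : ∀ x y, σ.SameCycle x y → σ.SameCycle (α x) (α y) := by
      rintro x y ⟨i, rfl⟩
      exact ⟨-i, (hconj i x).symm⟩
    constructor
    · intro h
      induction h with
      | rel x y h =>
        rcases h with rfl | rfl
        · right
          rw [hα]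
        · right
          refine ⟨-1, ?_⟩
          rw [zpow_neg_one, hσinv, Equiv.Perm.mul_apply]
      | refl x => exact Or.inl (Equiv.Perm.SameCycle.refl _ _)
      | symm x y _ ih =>
        rcases ih with h | h
        · exact Or.inl h.symm
        · right
          have := hαs _ _ h
          rw [hα] at this
          exact this.symm
      | trans x y z _ _ ih1 ih2 =>
        rcases ih1 with h1 | h1
        · rcases ih2 with h2 | h2
          · exact Or.inl (h1.trans h2)
          · exact Or.inr (h1.trans h2)
        · rcases ih2 with h2 | h2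
          · exact Or.inr (h1.trans (hαs _ _ h2))
          · left
            have := hαs _ _ h2
            rw [hα] at this
            exact h1.trans this
    · have key : ∀ x y, σ.SameCycle x y → Relation.EqvGen (fun x y => y = α x ∨ y = τ x) x y := by
        intro x y h
        rw [e_sameCycle_iff] at h
        induction h with
        | rel x y h =>
          rw [hσ, Equiv.Perm.mul_apply] at h
          exact (Relation.EqvGen.rel x (α x) (Or.inl rfl)).trans _ _ _
            (Relation.EqvGen.rel _ _ (Or.inr h))
        | refl x => exact Relation.EqvGen.refl _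
        | symm x y _ ih => exact ih.symm _ _
        | trans x y z _ _ ih1 ih2 => exact ih1.trans _ _ _ ih2
      rintro (h | h)
      · exact key _ _ h
      · exact (key _ _ h).trans _ _ _ (Relation.EqvGen.rel _ _ (Or.inl (hα y).symm))
  -- the map on quotients
  let r : X → X → Prop := fun x y => y = α x ∨ y = τ x
  let Q := Quotient (Equiv.Perm.SameCycle.setoid σ)
  let Q' := Quotient (Relation.EqvGen.setoid r)
  have hmk : ∀ x y : X, (Quotient.mk (Equiv.Perm.SameCycle.setoid σ) x : Q) = Quotient.mk _ y ↔
      σ.SameCycle x y := fun x y => Quotient.eq (r := Equiv.Perm.SameCycle.setoid σ)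
  have hmk' : ∀ x y : X, (Quotient.mk (Relation.EqvGen.setoid r) x : Q') = Quotient.mk _ y ↔
      Relation.EqvGen r x y := fun x y => Quotient.eq (r := Relation.EqvGen.setoid r)
  let f : Q → Q' := Quotient.map' id (fun x y hxy => (hgen x y).mpr (Or.inl hxy))
  have hf : ∀ x, f (Quotient.mk _ x) = Quotient.mk _ x := fun x => rfl
  have : Fintype Q := Fintype.ofFinite Q
  have : Fintype Q' := Fintype.ofFinite Q'
  have hfib : ∀ p : Q', (Finset.univ.filter fun q : Q => f q = p).card = 2 := by
    intro p
    obtain ⟨x, rfl⟩ := Quotient.exists_rep p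
    have : (Finset.univ.filter fun q : Q => f q = Quotient.mk _ x) =
        {Quotient.mk _ x, Quotient.mk _ (α x)} := by
      ext q
      obtain ⟨y, rfl⟩ := Quotient.exists_rep q
      rw [Finset.mem_filter, Finset.mem_insert, Finset.mem_singleton, hf, hmk', hmk, hmk]
      constructor
      · rintro ⟨-, h⟩
        rcases (hgen y x).mp h with h | h
        · exact Or.inl h
        · exact Or.inr h
      · intro h
        refine ⟨Finset.mem_univ _, (hgen y x).mpr h⟩
    rw [this, Finset.card_pair]
    intro h
    exact hne x ((hmk _ _).mp h)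
  unfold cycles classes
  rw [Nat.card_eq_fintype_card, Nat.card_eq_fintype_card, ← Finset.card_univ,
    Finset.card_eq_sum_card_fiberwise (f := f) (t := Finset.univ) (fun _ _ => by simp)]
  simp only [hfib]
  rw [Finset.sum_const, Finset.card_univ, smul_eq_mul, mul_comm]

end general

variable {V : Type} [Fintype V] [DecidableEq V]

omit [DecidableEq V] in
theorem e_rot_eq_tau {s : V → St} (h : nX s = 0) : rot s = tau s := by
  apply Equiv.ext
  intro x
  have hx : (s x.1).isX = false := by
    unfold nX at h
    rw [Finset.card_eq_zero, Finset.filter_eq_empty_iff] at h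
    have := h (Finset.mem_univ x.1)
    simpa using this
  change (x.1, (s x.1).next x.2) = (x.1, (s x.1).mate x.2)
  cases hs : s x.1 <;> rw [hs] at hx <;> simp_all [St.isX, St.next]

omit [Fintype V] [DecidableEq V] in
theorem e_tau_tau (s : V → St) (x : Dart V) : tau s (tau s x) = x := by
  change ((x.1, (s x.1).mate ((s x.1).mate x.2)) : Dart V) = x
  rw [St.mate_mate]

omit [Fintype V] [DecidableEq V] in
theorem e_tau_ne (s : V → St) (x : Dart V) : tau s x ≠ x := by
  intro h
  have : (s x.1).mate x.2 = x.2 := congrArg Prod.snd h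
  exact St.mate_ne _ _ this

theorem e_zero (S : Shadow V) {s : V → St} (h : nX s = 0) :
    cycles (rot s * S.α) = 2 * pieces S s := by
  unfold pieces
  rw [e_rot_eq_tau h]
  exact e_two_involutions S.α (tau s) S.invol (e_tau_tau s) S.noFix (e_tau_ne s)

/-- the pair of darts whose exchange is the smoothing -/
def e_a (q : St) (v : V) : Dart V := if q = St.smA then (v, 1) else (v, 0)
/-- the second dart -/
def e_b (q : St) (v : V) : Dart V := if q = St.smA then (v, 3) else (v, 2)

theorem e_ab (q : St) (v : V) : e_a q v ≠ e_b q v := by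
  unfold e_a e_b
  split_ifs
  · intro h
    have h1 : (1 : ZMod 4) = 3 := congrArg Prod.snd h
    exact absurd h1 (by decide)
  · intro h
    have h1 : (0 : ZMod 4) = 2 := congrArg Prod.snd h
    exact absurd h1 (by decide)

theorem e_rot_update {s : V → St} {v : V} (hv : (s v).isX = true) {q : St}
    (hq : q.isX = false) :
    rot (update s v q) = rot s * Equiv.swap (e_a q v) (e_b q v) := by
  have hsv : ∀ i, (s v).next i = i + 1 := by
    intro i
    cases hs : s v <;> rw [hs] at hv <;> simp_all [St.isX, St.next]
  apply Equiv.ext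
  rintro ⟨u, i⟩
  rw [Equiv.Perm.mul_apply]
  by_cases hu : u = v
  · subst hu
    have hL : rot (update s u q) (u, i) = (u, q.next i) := by
      change ((u, (update s u q u).next i) : Dart V) = _
      rw [update_self]
    have hR : ∀ j : ZMod 4, rot s (u, j) = (u, j + 1) := by
      intro j
      change ((u, (s u).next j) : Dart V) = _
      rw [hsv]
    rw [hL]
    have hsw : Equiv.swap (e_a q u) (e_b q u) (u, i) = (u, (if q = St.smA then Equiv.swap (1 : ZMod 4) 3
        else Equiv.swap (0 : ZMod 4) 2) i) := by
      have gen : ∀ a b : ZMod 4, Equiv.swap ((u, a) : Dart V) (u, b) (u, i) = (u, Equiv.swap a b i) := by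
        intro a b
        by_cases h1 : i = a
        · rw [h1, Equiv.swap_apply_left, Equiv.swap_apply_left]
        · by_cases h2 : i = b
          · rw [h2, Equiv.swap_apply_right, Equiv.swap_apply_right]
          · rw [Equiv.swap_apply_of_ne_of_ne h1 h2, Equiv.swap_apply_of_ne_of_ne]
            · exact fun h => h1 (congrArg Prod.snd h)
            · exact fun h => h2 (congrArg Prod.snd h)
      unfold e_a e_b
      split_ifs
      · exact gen 1 3
      · exact gen 0 2
    rw [hsw, hR]
    congr 1
    cases q
    · simp [St.isX] at hq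
    · simp [St.isX] at hq
    · have key : ∀ i : ZMod 4, St.smA.next i = (if St.smA = St.smA then Equiv.swap (1 : ZMod 4) 3
        else Equiv.swap (0 : ZMod 4) 2) i + 1 := by decide
      exact key i
    · have key : ∀ i : ZMod 4, St.smB.next i = (if St.smB = St.smA then Equiv.swap (1 : ZMod 4) 3
        else Equiv.swap (0 : ZMod 4) 2) i + 1 := by decide
      exact key i
  · have h1 : ∀ j : ZMod 4, ((u, i) : Dart V) ≠ (v, j) := by
      intro j h
      exact hu (congrArg Prod.fst h)
    have hsw : Equiv.swap (e_a q v) (e_b q v) (u, i) = (u, i) := by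
      unfold e_a e_b
      apply Equiv.swap_apply_of_ne_of_ne
      · split_ifs <;> exact h1 _
      · split_ifs <;> exact h1 _
    rw [hsw]
    change ((u, (update s v q u).next i) : Dart V) = (u, (s u).next i)
    rw [update_of_ne hu]

theorem e_cycles_update (S : Shadow V) {s : V → St} {v : V} (hv : (s v).isX = true) {q : St}
    (hq : q.isX = false) :
    (cycles (rot (update s v q) * S.α) = cycles (rot s * S.α) + 1) ∨
    ((rot (update s v q) * S.α).SameCycle (S.α (e_a q v)) (S.α (e_b q v)) ∧
      cycles (rot (update s v q) * S.α) + 1 = cycles (rot s * S.α)) := by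
  have hα : S.α⁻¹ = S.α := by
    rw [inv_eq_iff_mul_eq_one]
    exact Equiv.ext S.invol
  have h1 : rot (update s v q) * S.α =
      (rot s * S.α) * Equiv.swap (S.α (e_a q v)) (S.α (e_b q v)) := by
    rw [e_rot_update hv hq, mul_assoc, mul_assoc]
    congr 1
    have := Equiv.mul_swap_eq_swap_mul S.α (S.α (e_a q v)) (S.α (e_b q v))
    rw [S.invol, S.invol] at this
    exact this.symm
  have hne : S.α (e_a q v) ≠ S.α (e_b q v) := fun h => e_ab q v (S.α.injective h)
  by_cases hs : (rot s * S.α).SameCycle (S.α (e_a q v)) (S.α (e_b q v))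
  · left
    rw [h1]
    exact e_cycles_swap_of_same _ hne hs
  · right
    refine ⟨?_, ?_⟩
    · rw [h1]
      by_contra hcon
      exact hs ((e_swap_dichotomy _ hne).mpr hcon)
    · rw [h1]
      exact e_cycles_swap_of_not _ hne hs

theorem e_pieces_update (S : Shadow V) {s : V → St} {v : V} (hv : (s v).isX = true) {q : St}
    (hq : q.isX = false) :
    (pieces S (update s v q) = pieces S s ∧ Piece S (update s v q) (e_a q v) (e_b q v)) ∨
    (pieces S (update s v q) = pieces S s + 1 ∧ ¬ Piece S (update s v q) (e_a q v) (e_b q v)) := by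
  have hsv : ∀ i, rot s (v, i) = (v, i + 1) := by
    intro i
    change ((v, (s v).next i) : Dart V) = _
    cases hs : s v <;> rw [hs] at hv <;> simp_all [St.isX, St.next]
  have hstep : ∀ x, rot (update s v q) x = rot s (Equiv.swap (e_a q v) (e_b q v) x) := by
    intro x
    rw [e_rot_update hv hq]
    rfl
  -- the four darts at `v` are joined in `s`
  have hfour : ∀ i j : ZMod 4,
      Relation.EqvGen (fun x y => y = S.α x ∨ y = rot s x) (v, i) (v, j) := by
    intro i j
    have hk : ∀ k : ℕ, Relation.EqvGen (fun x y => y = S.α x ∨ y = rot s x) (v, i) (v, i + k) := by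
      intro k
      induction k with
      | zero => simpa using Relation.EqvGen.refl _
      | succ k ih =>
        refine ih.trans _ _ _ (Relation.EqvGen.rel _ _ (Or.inr ?_))
        rw [hsv]
        push_cast
        rw [add_assoc]
    have := hk (j - i).val
    rw [ZMod.natCast_zmod_val] at this
    simpa using this
  have hjoin : ∀ x y, Relation.EqvGen (fun x y => (y = S.α x ∨ y = rot (update s v q) x) ∨
      (x = e_a q v ∧ y = e_b q v)) x y ↔
      Relation.EqvGen (fun x y => y = S.α x ∨ y = rot s x) x y := by
    intro x y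
    constructor
    · intro h
      induction h with
      | rel x y h =>
        rcases h with (h | h) | ⟨h1, h2⟩
        · exact Relation.EqvGen.rel _ _ (Or.inl h)
        · rw [hstep] at h
          have h1 : Relation.EqvGen (fun x y => y = S.α x ∨ y = rot s x) x
              (Equiv.swap (e_a q v) (e_b q v) x) := by
            rw [Equiv.swap_apply_def]
            split_ifs with h2 h3
            · rw [h2]
              unfold e_a e_b
              split_ifs <;> exact hfour _ _
            · rw [h3]
              unfold e_a e_b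
              split_ifs <;> exact hfour _ _
            · exact Relation.EqvGen.refl _
          exact h1.trans _ _ _ (Relation.EqvGen.rel _ _ (Or.inr h))
        · rw [h1, h2]
          unfold e_a e_b
          split_ifs <;> exact hfour _ _
      | refl x => exact Relation.EqvGen.refl _
      | symm x y _ ih => exact ih.symm _ _
      | trans x y z _ _ ih1 ih2 => exact ih1.trans _ _ _ ih2
    · intro h
      have hab : Relation.EqvGen (fun x y => (y = S.α x ∨ y = rot (update s v q) x) ∨
          (x = e_a q v ∧ y = e_b q v)) (e_a q v) (e_b q v) :=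
        Relation.EqvGen.rel _ _ (Or.inr ⟨rfl, rfl⟩)
      induction h with
      | rel x y h =>
        rcases h with h | h
        · exact Relation.EqvGen.rel _ _ (Or.inl (Or.inl h))
        · have h0 : y = rot (update s v q) (Equiv.swap (e_a q v) (e_b q v) x) := by
            rw [hstep, Equiv.swap_apply_self]
            exact h
          have h1 : Relation.EqvGen (fun x y => (y = S.α x ∨ y = rot (update s v q) x) ∨
              (x = e_a q v ∧ y = e_b q v)) x (Equiv.swap (e_a q v) (e_b q v) x) := by
            rw [Equiv.swap_apply_def]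
            split_ifs with h2 h3
            · rw [h2]; exact hab
            · rw [h3]; exact hab.symm _ _
            · exact Relation.EqvGen.refl _
          exact h1.trans _ _ _ (Relation.EqvGen.rel _ _ (Or.inl (Or.inr h0)))
      | refl x => exact Relation.EqvGen.refl _
      | symm x y _ ih => exact ih.symm _ _
      | trans x y z _ _ ih1 ih2 => exact ih1.trans _ _ _ ih2
  by_cases hp : Piece S (update s v q) (e_a q v) (e_b q v)
  · left
    refine ⟨?_, hp⟩
    have := e_classes_add_of_rel (fun x y => y = S.α x ∨ y = rot (update s v q) x) _ _ hp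
    unfold pieces
    rw [← this]
    exact e_classes_congr hjoin
  · right
    refine ⟨?_, hp⟩
    have := e_classes_add_of_not (fun x y => y = S.α x ∨ y = rot (update s v q) x) _ _ hp
    unfold pieces
    rw [← this, e_classes_congr hjoin]

theorem e_piece_of_sameCycle (S : Shadow V) (t : V → St) (a b : Dart V)
    (h : (rot t * S.α).SameCycle (S.α a) (S.α b)) : Piece S t a b := by
  have h1 : Piece S t (S.α a) (S.α b) := by
    rw [e_sameCycle_iff] at h
    unfold Piece
    generalize S.α a = a' at h ⊢
    generalize S.α b = b' at h ⊢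
    induction h with
    | rel x y h =>
      rw [Equiv.Perm.mul_apply] at h
      exact (Relation.EqvGen.rel x (S.α x) (Or.inl rfl)).trans _ _ _
        (Relation.EqvGen.rel _ _ (Or.inr h))
    | refl x => exact Relation.EqvGen.refl _
    | symm x y _ ih => exact ih.symm _ _
    | trans x y z _ _ ih1 ih2 => exact ih1.trans _ _ _ ih2
  have h2 : ∀ a, Piece S t a (S.α a) := fun a => Relation.EqvGen.rel _ _ (Or.inl rfl)
  exact ((h2 a).trans _ _ _ h1).trans _ _ _ ((h2 b).symm _ _)

theorem e_nX_update {s : V → St} {v : V} (hv : (s v).isX = true) {q : St}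
    (hq : q.isX = false) : nX (update s v q) + 1 = nX s := by
  unfold nX
  have : (Finset.univ.filter fun u => (update s v q u).isX = true) =
      (Finset.univ.filter fun u => (s u).isX = true).erase v := by
    ext u
    rw [Finset.mem_erase, Finset.mem_filter, Finset.mem_filter]
    by_cases hu : u = v
    · subst hu
      simp [hq]
    · simp [hu]
  rw [this, Finset.card_erase_add_one]
  rw [Finset.mem_filter]
  exact ⟨Finset.mem_univ _, hv⟩

theorem euler_le (S : Shadow V) (s : V → St) :
    cycles (rot s * S.α) ≤ nX s + 2 * pieces S s := by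
  induction hn : nX s generalizing s with
  | zero => rw [e_zero S hn]; omega
  | succ n ih =>
    have : 0 < nX s := by omega
    unfold nX at this
    rw [Finset.card_pos] at this
    obtain ⟨v, hv⟩ := this
    rw [Finset.mem_filter] at hv
    have hn' := e_nX_update hv.2 (q := St.smA) rfl
    have h1 := ih (update s v St.smA) (by omega)
    rcases e_pieces_update S hv.2 (q := St.smA) rfl with ⟨hp, _⟩ | ⟨hp, hp'⟩
    · rcases e_cycles_update S hv.2 (q := St.smA) rfl with hc | ⟨_, hc⟩ <;> omega
    · rcases e_cycles_update S hv.2 (q := St.smA) rfl with hc | ⟨hc', hc⟩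
      · omega
      · exact absurd (e_piece_of_sameCycle S _ _ _ hc') hp'

theorem e_planar_update {S : Shadow V} {s : V → St} (h : Planar S s) {v : V}
    (hv : (s v).isX = true) {q : St} (hq : q.isX = false) : Planar S (update s v q) := by
  unfold Planar at h ⊢
  have hn' := e_nX_update hv hq
  have h1 := euler_le S (update s v q)
  rcases e_pieces_update S hv hq with ⟨hp, _⟩ | ⟨hp, hp'⟩
  · rcases e_cycles_update S hv hq with hc | ⟨_, hc⟩ <;> omega
  · rcases e_cycles_update S hv hq with hc | ⟨hc', hc⟩
    · omega
    · exact absurd (e_piece_of_sameCycle S _ _ _ hc') hp'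

/-- a state without crossings is planar -/
theorem planar_of_nX_eq_zero {S : Shadow V} {s : V → St} (h : nX s = 0) : Planar S s := by
  unfold Planar
  rw [e_zero S h, h, zero_add]

theorem Planar.below {S : Shadow V} {s t : V → St} (h : Planar S s) (ht : Below t s) :
    Planar S t := by
  induction hn : nX s generalizing s with
  | zero =>
    have : t = s := by
      funext v
      apply ht
      unfold nX at hn
      rw [Finset.card_eq_zero, Finset.filter_eq_empty_iff] at hn
      have := hn (Finset.mem_univ v)
      simpa using this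
    rw [this]
    exact h
  | succ n ih =>
    by_cases hex : ∃ v, (s v).isX = true ∧ (t v).isX = false
    · obtain ⟨v, hv, htv⟩ := hex
      have hn' := e_nX_update hv htv
      apply ih (e_planar_update h hv htv) _ (by omega)
      intro u hu
      by_cases huv : u = v
      · subst huv
        rw [update_self]
      · rw [update_of_ne huv] at hu ⊢
        exact ht u hu
    · push Not at hex
      have hsame : ∀ v, (t v).isX = (s v).isX ∧ (t v).next = (s v).next := by
        intro v
        by_cases hv : (s v).isX = true
        · have h1 := hex v hv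
          have h2 : (t v).isX = true := by simpa using h1
          refine ⟨by rw [hv, h2], ?_⟩
          funext i
          cases hs : s v <;> cases ht' : t v <;> rw [hs] at hv <;> rw [ht'] at h2 <;>
            simp_all [St.isX, St.next]
        · have hv' : (s v).isX = false := by simpa using hv
          rw [ht v hv']
          exact ⟨rfl, rfl⟩
      have hrot : rot t = rot s := by
        apply Equiv.ext
        intro x
        change ((x.1, (t x.1).next x.2) : Dart V) = (x.1, (s x.1).next x.2)
        rw [(hsame x.1).2]
      have hnX : nX t = nX s := by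
        unfold nX
        simp only [(hsame _).1]
      unfold Planar at h ⊢
      have hpc : pieces S t = pieces S s := by
        unfold pieces
        rw [hrot]
      rw [hrot, hnX, hpc]
      exact h

end Pool.Agent.Helper65.LK
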