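import Pool.Agent.Helper65.LK.Tangle
import Pool.Agent.Helper65.LK.APD

/-!
# Algebraic tangles: definitions

All vertices are crossings with the state `over1`; the sums join darts of different parity, so the
diagrams are alternating.
-/

namespace Pool.Agent.Helper65.LK

/-- expressions for algebraic tangles -/
inductive Ex
  | leaf : Ex
  | h : Ex → Ex → Ex
  | v : Ex → Ex → Ex

namespace Ex

/-- the crossings of an expression -/
def Lv : Ex → Type
  | leaf => Unit
  | h A B => A.Lv ⊕ B.Lv
  | v A B => A.Lv ⊕ B.Lv

instance fintype : ∀ E : Ex, Fintype E.Lv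
  | leaf => inferInstanceAs (Fintype Unit)
  | h A B => by
    have := fintype A
    have := fintype B
    exact inferInstanceAs (Fintype (A.Lv ⊕ B.Lv))
  | v A B => by
    have := fintype A
    have := fintype B
    exact inferInstanceAs (Fintype (A.Lv ⊕ B.Lv))

instance decEq : ∀ E : Ex, DecidableEq E.Lv
  | leaf => inferInstanceAs (DecidableEq Unit)
  | h A B => by
    have := decEq A
    have := decEq B
    exact inferInstanceAs (DecidableEq (A.Lv ⊕ B.Lv))
  | v A B => by
    have := decEq A
    have := decEq B
    exact inferInstanceAs (DecidableEq (A.Lv ⊕ B.Lv))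

/-- the tangle of an expression: `h A B` is the horizontal sum (`A` on the left), `v A B` the
vertical sum (`A` above) -/
def tg : (E : Ex) → Tangle E.Lv
  | leaf => leafT
  | h A B => hsum A.tg B.tg
  | v A B => vsum A.tg B.tg

/-- the number of crossings -/
def size : Ex → ℕ
  | leaf => 1
  | h A B => A.size + B.size
  | v A B => A.size + B.size

/-- the number of vertical blocks in a horizontal sum -/
def hc : Ex → ℕ
  | leaf => 0
  | h A B => A.hc + B.hc
  | v _ _ => 1

/-- the number of horizontal blocks in a vertical sum -/
def vc : Ex → ℕ
  | leaf => 0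
  | h _ _ => 1
  | v A B => A.vc + B.vc

/-- the expression of the tangle rotated by a half turn -/
def rot : Ex → Ex
  | leaf => leaf
  | h A B => h B.rot A.rot
  | v A B => v B.rot A.rot

/-- the diagram obtained by glueing two algebraic tangles -/
def dia (E C : Ex) : Shadow (E.Lv ⊕ C.Lv) := glue E.tg C.tg

end Ex

end Pool.Agent.Helper65.LK
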