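import Pool.Agent.Helper65.LK.TIso

/-!
# LK-41. Replacing a crossing by two crossings

`expand S w b`: a new vertex `u = inr ()` is inserted at the corner `b` of `w` (the sector between the darts
`b - 1` and `b`), so that `w` and `u` bound a face with two corners.  The map
`out` sends the darts `(w, b-1)`, `(w, b)` to `(u, b+3)`, `(u, b)` and the other darts to themselves;
`α (out x) = out (α x)`, and `(w, b-1) - (u, b+2)`, `(w, b) - (u, b+1)` are joined.
-/

namespace Pool.Agent.Helper65.LK

variable {V V' W : Type}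

section
variable [DecidableEq V] [DecidableEq V'] [DecidableEq W]

/-- the dart of the larger diagram at the same place, seen from outside -/
def outD (w : V) (b : ZMod 4) (x : Dart V) : Dart (V ⊕ Unit) :=
  if x = (w, b - 1) then (Sum.inr (), b + 3) else if x = (w, b) then (Sum.inr (), b)
  else (Sum.inl x.1, x.2)

/-- left inverse of `outD`, defined on its image -/
def outI (w : V) (b : ZMod 4) (x : Dart (V ⊕ Unit)) : Option (Dart V) :=
  match x.1 with
  | Sum.inl v => if (v, x.2) = (w, b - 1) ∨ (v, x.2) = (w, b) then none else some (v, x.2)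
  | Sum.inr _ => if x.2 = b + 3 then some (w, b - 1) else if x.2 = b then some (w, b) else none

/-- the two inner edges -/
def innD (w : V) (b : ZMod 4) (x : Dart (V ⊕ Unit)) : Dart (V ⊕ Unit) :=
  match x.1 with
  | Sum.inl _ => if x.2 = b then (Sum.inr (), b + 1) else (Sum.inr (), b + 2)
  | Sum.inr _ => if x.2 = b + 1 then (Sum.inl w, b) else (Sum.inl w, b - 1)

private theorem z4_a (b : ZMod 4) : b - 1 ≠ b := by revert b; decide

private theorem z4_b (b : ZMod 4) : b + 3 ≠ b := by revert b; decide

private theorem z4_c (b : ZMod 4) : b + 2 ≠ b + 1 := by revert b; decide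

private theorem z4_d (b : ZMod 4) : b + 1 ≠ b + 3 := by revert b; decide

private theorem z4_e (b : ZMod 4) : b + 1 ≠ b := by revert b; decide

private theorem z4_f (b : ZMod 4) : b + 2 ≠ b + 3 := by revert b; decide

private theorem z4_g (b : ZMod 4) : b + 2 ≠ b := by revert b; decide

private theorem z4_h (b : ZMod 4) : ∀ i : ZMod 4, i ≠ b + 3 → i ≠ b → i = b + 1 ∨ i = b + 2 := by
  revert b; decide

theorem outI_outD (w : V) (b : ZMod 4) (x : Dart V) : outI w b (outD w b x) = some x := by
  unfold outD
  by_cases h1 : x = (w, b - 1)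
  · rw [if_pos h1, h1]
    simp [outI]
  · rw [if_neg h1]
    by_cases h2 : x = (w, b)
    · rw [if_pos h2, h2]
      simp [outI, (z4_b b).symm]
    · rw [if_neg h2]
      simp only [outI]
      rw [if_neg]
      rintro (h | h)
      · exact h1 h
      · exact h2 h

theorem outD_of_outI (w : V) (b : ZMod 4) (x : Dart (V ⊕ Unit)) (y : Dart V)
    (h : outI w b x = some y) : outD w b y = x := by
  obtain ⟨v | u, i⟩ := x
  · simp only [outI] at h
    by_cases h1 : (v, i) = (w, b - 1) ∨ (v, i) = (w, b)
    · rw [if_pos h1] at h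
      cases h
    · rw [if_neg h1] at h
      rw [not_or] at h1
      cases h
      unfold outD
      rw [if_neg h1.1, if_neg h1.2]
  · simp only [outI] at h
    by_cases h1 : i = b + 3
    · rw [if_pos h1] at h
      cases h
      unfold outD
      rw [if_pos rfl, h1]
    · rw [if_neg h1] at h
      by_cases h2 : i = b
      · rw [if_pos h2] at h
        cases h
        unfold outD
        rw [if_neg, if_pos rfl, h2]
        intro h3
        exact z4_a b (congrArg Prod.snd h3).symm
      · rw [if_neg h2] at h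
        cases h

theorem outI_none_iff (w : V) (b : ZMod 4) (x : Dart (V ⊕ Unit)) : outI w b x = none ↔
    (x = (Sum.inl w, b - 1) ∨ x = (Sum.inl w, b) ∨ x = (Sum.inr (), b + 1) ∨
      x = (Sum.inr (), b + 2)) := by
  obtain ⟨v | u, i⟩ := x
  · simp only [outI]
    by_cases h1 : (v, i) = (w, b - 1) ∨ (v, i) = (w, b)
    · rw [if_pos h1]
      simp only [Prod.mk.injEq] at h1
      simp only [Prod.mk.injEq, Sum.inl.injEq, true_iff]
      tauto
    · rw [if_neg h1]
      simp only [Prod.mk.injEq] at h1
      simp only [Prod.mk.injEq, Sum.inl.injEq, reduceCtorEq, false_and, or_false, false_iff]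
      exact h1
  · simp only [outI]
    by_cases h1 : i = b + 3
    · rw [if_pos h1]
      subst h1
      simp only [Prod.mk.injEq, reduceCtorEq, false_and, false_or, true_and, false_iff, not_or]
      exact ⟨(z4_d b).symm, (z4_f b).symm⟩
    · rw [if_neg h1]
      by_cases h2 : i = b
      · rw [if_pos h2]
        subst h2
        simp only [Prod.mk.injEq, reduceCtorEq, false_and, false_or, true_and, false_iff, not_or]
        exact ⟨(z4_e i).symm, (z4_g i).symm⟩
      · rw [if_neg h2]
        simp only [Prod.mk.injEq, reduceCtorEq, false_and, false_or, true_and, true_iff]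
        exact z4_h b i h1 h2

/-- the involution of the expanded diagram -/
def expα (S : Shadow V) (w : V) (b : ZMod 4) (x : Dart (V ⊕ Unit)) : Dart (V ⊕ Unit) :=
  match outI w b x with
  | some y => outD w b (S.α y)
  | none => innD w b x

omit [DecidableEq V] in
private theorem innD_1 (w : V) (b : ZMod 4) :
    innD w b ((Sum.inl w, b - 1) : Dart (V ⊕ Unit)) = (Sum.inr (), b + 2) := by
  simp [innD, z4_a b]

omit [DecidableEq V] in
private theorem innD_2 (w : V) (b : ZMod 4) :
    innD w b ((Sum.inl w, b) : Dart (V ⊕ Unit)) = (Sum.inr (), b + 1) := by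
  simp [innD]

omit [DecidableEq V] in
private theorem innD_3 (w : V) (b : ZMod 4) :
    innD w b ((Sum.inr (), b + 1) : Dart (V ⊕ Unit)) = (Sum.inl w, b) := by
  simp [innD]

omit [DecidableEq V] in
private theorem innD_4 (w : V) (b : ZMod 4) :
    innD w b ((Sum.inr (), b + 2) : Dart (V ⊕ Unit)) = (Sum.inl w, b - 1) := by
  simp [innD, z4_c b]

private theorem outI_innD (w : V) (b : ZMod 4) (x : Dart (V ⊕ Unit)) (h : outI w b x = none) :
    outI w b (innD w b x) = none := by
  rw [outI_none_iff] at h ⊢
  rcases h with h | h | h | h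
  · subst h; rw [innD_1]; simp
  · subst h; rw [innD_2]; simp
  · subst h; rw [innD_3]; simp
  · subst h; rw [innD_4]; simp

private theorem innD_innD (w : V) (b : ZMod 4) (x : Dart (V ⊕ Unit)) (h : outI w b x = none) :
    innD w b (innD w b x) = x := by
  rw [outI_none_iff] at h
  rcases h with h | h | h | h
  · subst h; rw [innD_1, innD_4]
  · subst h; rw [innD_2, innD_3]
  · subst h; rw [innD_3, innD_2]
  · subst h; rw [innD_4, innD_1]

private theorem innD_ne (w : V) (b : ZMod 4) (x : Dart (V ⊕ Unit)) (h : outI w b x = none) :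
    innD w b x ≠ x := by
  rw [outI_none_iff] at h
  rcases h with h | h | h | h
  · subst h; rw [innD_1]; simp
  · subst h; rw [innD_2]; simp
  · subst h; rw [innD_3]; simp
  · subst h; rw [innD_4]; simp

private theorem expα_out (S : Shadow V) (w : V) (b : ZMod 4) (y : Dart V) :
    expα S w b (outD w b y) = outD w b (S.α y) := by
  simp only [expα, outI_outD]

private theorem expα_none (S : Shadow V) (w : V) (b : ZMod 4) (x : Dart (V ⊕ Unit))
    (h : outI w b x = none) : expα S w b x = innD w b x := by
  simp only [expα, h]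

private theorem out_cases (w : V) (b : ZMod 4) (x : Dart (V ⊕ Unit)) :
    (∃ y, x = outD w b y) ∨ outI w b x = none := by
  cases h : outI w b x with
  | none => exact Or.inr rfl
  | some y => exact Or.inl ⟨y, (outD_of_outI w b x y h).symm⟩

private theorem outD_inj (w : V) (b : ZMod 4) {x y : Dart V} (h : outD w b x = outD w b y) :
    x = y := by
  have h1 := congrArg (outI w b) h
  rw [outI_outD, outI_outD] at h1
  exact Option.some.inj h1

theorem expα_invol (S : Shadow V) (w : V) (b : ZMod 4) (x : Dart (V ⊕ Unit)) :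
    expα S w b (expα S w b x) = x := by
  rcases out_cases w b x with ⟨y, rfl⟩ | h
  · rw [expα_out, expα_out, S.invol]
  · rw [expα_none S w b x h, expα_none S w b _ (outI_innD w b x h), innD_innD w b x h]

theorem expα_ne (S : Shadow V) (w : V) (b : ZMod 4) (x : Dart (V ⊕ Unit)) :
    expα S w b x ≠ x := by
  rcases out_cases w b x with ⟨y, rfl⟩ | h
  · rw [expα_out]
    intro h1
    exact S.noFix y (outD_inj w b h1)
  · rw [expα_none S w b x h]
    exact innD_ne w b x h

/-- the expanded diagram -/
def expand (S : Shadow V) (w : V) (b : ZMod 4) : Shadow (V ⊕ Unit) where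
  α := ⟨expα S w b, expα S w b, expα_invol S w b, expα_invol S w b⟩
  invol := expα_invol S w b
  noFix := expα_ne S w b

/-- the expanded tangle -/
def expandT (T : Tangle V) (w : V) (b : ZMod 4) : Tangle (V ⊕ Unit) where
  port i := outD w b (T.port i)
  link x := match outI w b x with
    | some y => match T.link y with
      | Sum.inl z => Sum.inl (outD w b z)
      | Sum.inr i => Sum.inr i
    | none => Sum.inl (innD w b x)
  link_port i := by
    simp only [outI_outD, T.link_port]
  port_link x i h := by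
    rcases out_cases w b x with ⟨y, rfl⟩ | h1
    · simp only [outI_outD] at h
      cases hy : T.link y with
      | inl z => simp [hy] at h
      | inr j =>
        simp only [hy, Sum.inr.injEq] at h
        subst h
        rw [T.port_link y j hy]
    · simp [h1] at h
  invol x y h := by
    rcases out_cases w b x with ⟨x, rfl⟩ | h1
    · simp only [outI_outD] at h
      cases hy : T.link x with
      | inl z =>
        simp only [hy, Sum.inl.injEq] at h
        subst h
        simp only [outI_outD, T.invol x z hy]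
      | inr j => simp [hy] at h
    · simp only [h1, Sum.inl.injEq] at h
      subst h
      simp only [outI_innD w b x h1, innD_innD w b x h1]
  noFix x h := by
    rcases out_cases w b x with ⟨x, rfl⟩ | h1
    · simp only [outI_outD] at h
      cases hy : T.link x with
      | inl z =>
        simp only [hy, Sum.inl.injEq] at h
        have h2 := outD_inj w b h
        subst h2
        exact T.noFix _ hy
      | inr j => simp [hy] at h
    · simp only [h1, Sum.inl.injEq] at h
      exact innD_ne w b x h1 h

private theorem eT_inl (T : Tangle V) (w : V) (b : ZMod 4) {y z : Dart V}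
    (h : T.link y = Sum.inl z) :
    (expandT T w b).link (outD w b y) = Sum.inl (outD w b z) := by
  simp only [expandT, outI_outD, h]

private theorem eT_inr (T : Tangle V) (w : V) (b : ZMod 4) {y : Dart V} {i : ZMod 4}
    (h : T.link y = Sum.inr i) :
    (expandT T w b).link (outD w b y) = Sum.inr i := by
  simp only [expandT, outI_outD, h]

private theorem eT_none (T : Tangle V) (w : V) (b : ZMod 4) {x : Dart (V ⊕ Unit)}
    (h : outI w b x = none) :
    (expandT T w b).link x = Sum.inl (innD w b x) := by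
  simp only [expandT, h]

private theorem eT_port (T : Tangle V) (w : V) (b : ZMod 4) (i : ZMod 4) :
    (expandT T w b).port i = outD w b (T.port i) := rfl

section aux
omit [DecidableEq V] [DecidableEq W]

private theorem gl_inl (T : Tangle V) (C : Tangle W) {x y : Dart V} (h : T.link x = Sum.inl y) :
    glueα T C (dl x) = dl y := by
  simp only [glueα, h]

private theorem gl_inr (T : Tangle V) (C : Tangle W) {x : Dart V} {i : ZMod 4}
    (h : T.link x = Sum.inr i) : glueα T C (dl x) = dr (C.port (1 - i)) := by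
  simp only [glueα, h]

private theorem gr_inl (T : Tangle V) (C : Tangle W) {x y : Dart W} (h : C.link x = Sum.inl y) :
    glueα T C (dr x) = dr y := by
  simp only [glueα, h]

private theorem gr_inr (T : Tangle V) (C : Tangle W) {x : Dart W} {i : ZMod 4}
    (h : C.link x = Sum.inr i) : glueα T C (dr x) = dl (T.port (1 - i)) := by
  simp only [glueα, h]

private theorem hl_inl (A : Tangle V) (B : Tangle W) {x y : Dart V} (h : A.link x = Sum.inl y) :
    (hsum A B).link (dl x) = Sum.inl (dl y) := by
  simp only [hsum, h]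

private theorem hl_inr1 (A : Tangle V) (B : Tangle W) {x : Dart V} {i : ZMod 4}
    (h : A.link x = Sum.inr i) (hi : i = 1 ∨ i = 2) : (hsum A B).link (dl x) = Sum.inr i := by
  simp only [hsum, h, hi, if_true]

private theorem hl_inr2 (A : Tangle V) (B : Tangle W) {x : Dart V} {i : ZMod 4}
    (h : A.link x = Sum.inr i) (hi : ¬ (i = 1 ∨ i = 2)) :
    (hsum A B).link (dl x) = Sum.inl (dr (B.port (1 - i))) := by
  simp only [hsum, h, hi, if_false]

private theorem hr_inl (A : Tangle V) (B : Tangle W) {x y : Dart W} (h : B.link x = Sum.inl y) :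
    (hsum A B).link (dr x) = Sum.inl (dr y) := by
  simp only [hsum, h]

private theorem hr_inr1 (A : Tangle V) (B : Tangle W) {x : Dart W} {i : ZMod 4}
    (h : B.link x = Sum.inr i) (hi : i = 1 ∨ i = 2) :
    (hsum A B).link (dr x) = Sum.inl (dl (A.port (1 - i))) := by
  simp only [hsum, h, hi, if_true]

private theorem hr_inr2 (A : Tangle V) (B : Tangle W) {x : Dart W} {i : ZMod 4}
    (h : B.link x = Sum.inr i) (hi : ¬ (i = 1 ∨ i = 2)) :
    (hsum A B).link (dr x) = Sum.inr i := by
  simp only [hsum, h, hi, if_false]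

private theorem vl_inl (A : Tangle V) (B : Tangle W) {x y : Dart V} (h : A.link x = Sum.inl y) :
    (vsum A B).link (dl x) = Sum.inl (dl y) := by
  simp only [vsum, h]

private theorem vl_inr1 (A : Tangle V) (B : Tangle W) {x : Dart V} {i : ZMod 4}
    (h : A.link x = Sum.inr i) (hi : i = 0 ∨ i = 1) : (vsum A B).link (dl x) = Sum.inr i := by
  simp only [vsum, h, hi, if_true]

private theorem vl_inr2 (A : Tangle V) (B : Tangle W) {x : Dart V} {i : ZMod 4}
    (h : A.link x = Sum.inr i) (hi : ¬ (i = 0 ∨ i = 1)) :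
    (vsum A B).link (dl x) = Sum.inl (dr (B.port (3 - i))) := by
  simp only [vsum, h, hi, if_false]

private theorem vr_inl (A : Tangle V) (B : Tangle W) {x y : Dart W} (h : B.link x = Sum.inl y) :
    (vsum A B).link (dr x) = Sum.inl (dr y) := by
  simp only [vsum, h]

private theorem vr_inr1 (A : Tangle V) (B : Tangle W) {x : Dart W} {i : ZMod 4}
    (h : B.link x = Sum.inr i) (hi : i = 0 ∨ i = 1) :
    (vsum A B).link (dr x) = Sum.inl (dl (A.port (3 - i))) := by
  simp only [vsum, h, hi, if_true]

private theorem vr_inr2 (A : Tangle V) (B : Tangle W) {x : Dart W} {i : ZMod 4}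
    (h : B.link x = Sum.inr i) (hi : ¬ (i = 0 ∨ i = 1)) :
    (vsum A B).link (dr x) = Sum.inr i := by
  simp only [vsum, h, hi, if_false]

private def fL (V W : Type) : (V ⊕ W) ⊕ Unit ≃ (V ⊕ Unit) ⊕ W where
  toFun := fun x => match x with
    | Sum.inl (Sum.inl v) => Sum.inl (Sum.inl v)
    | Sum.inl (Sum.inr w) => Sum.inr w
    | Sum.inr u => Sum.inl (Sum.inr u)
  invFun := fun x => match x with
    | Sum.inl (Sum.inl v) => Sum.inl (Sum.inl v)
    | Sum.inl (Sum.inr u) => Sum.inr u
    | Sum.inr w => Sum.inl (Sum.inr w)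
  left_inv := by rintro ((v | w) | u) <;> rfl
  right_inv := by rintro ((v | u) | w) <;> rfl

private def fR (V W : Type) : (V ⊕ W) ⊕ Unit ≃ V ⊕ (W ⊕ Unit) where
  toFun := fun x => match x with
    | Sum.inl (Sum.inl v) => Sum.inl v
    | Sum.inl (Sum.inr w) => Sum.inr (Sum.inl w)
    | Sum.inr u => Sum.inr (Sum.inr u)
  invFun := fun x => match x with
    | Sum.inl v => Sum.inl (Sum.inl v)
    | Sum.inr (Sum.inl w) => Sum.inl (Sum.inr w)
    | Sum.inr (Sum.inr u) => Sum.inr u
  left_inv := by rintro ((v | w) | u) <;> rfl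
  right_inv := by rintro (v | (w | u)) <;> rfl

private def FL (x : Dart ((V ⊕ W) ⊕ Unit)) : Dart ((V ⊕ Unit) ⊕ W) := (fL V W x.1, x.2 + 0)

private def FR (x : Dart ((V ⊕ W) ⊕ Unit)) : Dart (V ⊕ (W ⊕ Unit)) := (fR V W x.1, x.2 + 0)

end aux

private theorem FL_1 (w : V) (b : ZMod 4) (y : Dart V) :
    FL (outD (Sum.inl w : V ⊕ W) b (dl y)) = dl (outD w b y) := by
  unfold outD
  by_cases h1 : y = (w, b - 1)
  · subst h1
    simp [FL, fL]
  · rw [if_neg h1]
    have h1' : (dl y : Dart (V ⊕ W)) ≠ (Sum.inl w, b - 1) := by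
      intro h
      apply h1
      rw [Prod.mk.injEq, Sum.inl.injEq] at h
      exact Prod.ext h.1 h.2
    rw [if_neg h1']
    by_cases h2 : y = (w, b)
    · subst h2
      simp [FL, fL]
    · rw [if_neg h2]
      have h2' : (dl y : Dart (V ⊕ W)) ≠ (Sum.inl w, b) := by
        intro h
        apply h2
        rw [Prod.mk.injEq, Sum.inl.injEq] at h
        exact Prod.ext h.1 h.2
      rw [if_neg h2']
      simp [FL, fL]

private theorem FL_2 (w : V) (b : ZMod 4) (z : Dart W) :
    FL (outD (Sum.inl w : V ⊕ W) b (dr z)) = dr z := by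
  unfold outD
  rw [if_neg (by simp), if_neg (by simp)]
  simp [FL, fL]

private theorem FL_3 (w : V) (b : ZMod 4) (x : Dart ((V ⊕ W) ⊕ Unit))
    (h : outI (Sum.inl w) b x = none) : ∃ x', FL x = dl x' ∧ outI w b x' = none ∧
      FL (innD (Sum.inl w) b x) = dl (innD w b x') := by
  rw [outI_none_iff] at h
  rcases h with h | h | h | h
  · subst h
    refine ⟨(Sum.inl w, b - 1), by simp [FL, fL], by rw [outI_none_iff]; simp, ?_⟩
    rw [innD_1, innD_1]
    simp [FL, fL]
  · subst h
    refine ⟨(Sum.inl w, b), by simp [FL, fL], by rw [outI_none_iff]; simp, ?_⟩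
    rw [innD_2, innD_2]
    simp [FL, fL]
  · subst h
    refine ⟨(Sum.inr (), b + 1), by simp [FL, fL], by rw [outI_none_iff]; simp, ?_⟩
    rw [innD_3, innD_3]
    simp [FL, fL]
  · subst h
    refine ⟨(Sum.inr (), b + 2), by simp [FL, fL], by rw [outI_none_iff]; simp, ?_⟩
    rw [innD_4, innD_4]
    simp [FL, fL]

private theorem FR_1 (w : W) (b : ZMod 4) (y : Dart V) :
    FR (outD (Sum.inr w : V ⊕ W) b (dl y)) = dl y := by
  unfold outD
  rw [if_neg (by simp), if_neg (by simp)]
  simp [FR, fR]

private theorem FR_2 (w : W) (b : ZMod 4) (y : Dart W) :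
    FR (outD (Sum.inr w : V ⊕ W) b (dr y)) = dr (outD w b y) := by
  unfold outD
  by_cases h1 : y = (w, b - 1)
  · subst h1
    simp [FR, fR]
  · rw [if_neg h1]
    have h1' : (dr y : Dart (V ⊕ W)) ≠ (Sum.inr w, b - 1) := by
      intro h
      apply h1
      rw [Prod.mk.injEq, Sum.inr.injEq] at h
      exact Prod.ext h.1 h.2
    rw [if_neg h1']
    by_cases h2 : y = (w, b)
    · subst h2
      simp [FR, fR]
    · rw [if_neg h2]
      have h2' : (dr y : Dart (V ⊕ W)) ≠ (Sum.inr w, b) := by
        intro h
        apply h2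
        rw [Prod.mk.injEq, Sum.inr.injEq] at h
        exact Prod.ext h.1 h.2
      rw [if_neg h2']
      simp [FR, fR]

private theorem FR_3 (w : W) (b : ZMod 4) (x : Dart ((V ⊕ W) ⊕ Unit))
    (h : outI (Sum.inr w) b x = none) : ∃ x', FR x = dr x' ∧ outI w b x' = none ∧
      FR (innD (Sum.inr w) b x) = dr (innD w b x') := by
  rw [outI_none_iff] at h
  rcases h with h | h | h | h
  · subst h
    refine ⟨(Sum.inl w, b - 1), by simp [FR, fR], by rw [outI_none_iff]; simp, ?_⟩
    rw [innD_1, innD_1]
    simp [FR, fR]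
  · subst h
    refine ⟨(Sum.inl w, b), by simp [FR, fR], by rw [outI_none_iff]; simp, ?_⟩
    rw [innD_2, innD_2]
    simp [FR, fR]
  · subst h
    refine ⟨(Sum.inr (), b + 1), by simp [FR, fR], by rw [outI_none_iff]; simp, ?_⟩
    rw [innD_3, innD_3]
    simp [FR, fR]
  · subst h
    refine ⟨(Sum.inr (), b + 2), by simp [FR, fR], by rw [outI_none_iff]; simp, ?_⟩
    rw [innD_4, innD_4]
    simp [FR, fR]

theorem expand_glue_left (T : Tangle V) (C : Tangle W) (w : V) (b : ZMod 4) :
    PEq (expand (glue T C) (Sum.inl w) b) (glue (expandT T w b) C) := by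
  refine ⟨⟨fL V W, fun _ => 0, fun _ => Or.inl rfl, fun x => ?_⟩⟩
  change glueα (expandT T w b) C (FL x) = FL (expα (glue T C) (Sum.inl w) b x)
  rcases out_cases (Sum.inl w) b x with ⟨y, rfl⟩ | h
  · rw [expα_out]
    change _ = FL (outD (Sum.inl w) b (glueα T C y))
    obtain ⟨v | w', i⟩ := y
    · change glueα (expandT T w b) C (FL (outD (Sum.inl w) b (dl (v, i)))) =
        FL (outD (Sum.inl w) b (glueα T C (dl (v, i))))
      rw [FL_1]
      cases hy : T.link (v, i) with
      | inl z => rw [gl_inl _ _ (eT_inl T w b hy), gl_inl T C hy, FL_1]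
      | inr j => rw [gl_inr _ _ (eT_inr T w b hy), gl_inr T C hy, FL_2]
    · change glueα (expandT T w b) C (FL (outD (Sum.inl w) b (dr (w', i)))) =
        FL (outD (Sum.inl w) b (glueα T C (dr (w', i))))
      rw [FL_2]
      cases hy : C.link (w', i) with
      | inl z => rw [gr_inl _ _ hy, gr_inl T C hy, FL_2]
      | inr j => rw [gr_inr _ _ hy, gr_inr T C hy, FL_1, eT_port]
  · rw [expα_none _ _ _ _ h]
    obtain ⟨x', h1, h2, h3⟩ := FL_3 w b x h
    rw [h1, h3, gl_inl _ _ (eT_none T w b h2)]

theorem expand_glue_right (T : Tangle V) (C : Tangle W) (w : W) (b : ZMod 4) :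
    PEq (expand (glue T C) (Sum.inr w) b) (glue T (expandT C w b)) := by
  refine ⟨⟨fR V W, fun _ => 0, fun _ => Or.inl rfl, fun x => ?_⟩⟩
  change glueα T (expandT C w b) (FR x) = FR (expα (glue T C) (Sum.inr w) b x)
  rcases out_cases (Sum.inr w) b x with ⟨y, rfl⟩ | h
  · rw [expα_out]
    change _ = FR (outD (Sum.inr w) b (glueα T C y))
    obtain ⟨v | w', i⟩ := y
    · change glueα T (expandT C w b) (FR (outD (Sum.inr w) b (dl (v, i)))) =
        FR (outD (Sum.inr w) b (glueα T C (dl (v, i))))
      rw [FR_1]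
      cases hy : T.link (v, i) with
      | inl z => rw [gl_inl _ _ hy, gl_inl T C hy, FR_1]
      | inr j => rw [gl_inr _ _ hy, gl_inr T C hy, FR_2, eT_port]
    · change glueα T (expandT C w b) (FR (outD (Sum.inr w) b (dr (w', i)))) =
        FR (outD (Sum.inr w) b (glueα T C (dr (w', i))))
      rw [FR_2]
      cases hy : C.link (w', i) with
      | inl z => rw [gr_inl _ _ (eT_inl C w b hy), gr_inl T C hy, FR_2]
      | inr j => rw [gr_inr _ _ (eT_inr C w b hy), gr_inr T C hy, FR_1]
  · rw [expα_none _ _ _ _ h]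
    obtain ⟨x', h1, h2, h3⟩ := FR_3 w b x h
    rw [h1, h3, gr_inl _ _ (eT_none C w b h2)]

omit [DecidableEq V] [DecidableEq V'] in
private theorem tEq_mk {T : Tangle V} {T' : Tangle V'} (f : V ≃ V')
    (h : ∀ x : Dart V, T'.link (f x.1, x.2 + 0) =
      Sum.map (fun y : Dart V => ((f y.1, y.2 + 0) : Dart V')) id (T.link x)) : TEq T T' :=
  ⟨⟨f, fun _ => 0, fun _ => Or.inl rfl, fun x => by rw [h x]; cases T.link x <;> rfl⟩⟩

theorem expandT_hsum_left (A : Tangle V) (B : Tangle W) (w : V) (b : ZMod 4) :
    TEq (expandT (hsum A B) (Sum.inl w) b) (hsum (expandT A w b) B) := by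
  refine tEq_mk (fL V W) fun x => ?_
  change (hsum (expandT A w b) B).link (FL x) =
    Sum.map FL id ((expandT (hsum A B) (Sum.inl w) b).link x)
  rcases out_cases (Sum.inl w) b x with ⟨y, rfl⟩ | h
  · obtain ⟨v | w', i⟩ := y
    · change (hsum (expandT A w b) B).link (FL (outD (Sum.inl w) b (dl (v, i)))) =
        Sum.map FL id ((expandT (hsum A B) (Sum.inl w) b).link (outD (Sum.inl w) b (dl (v, i))))
      rw [FL_1]
      cases hy : A.link (v, i) with
      | inl z =>
        rw [hl_inl _ _ (eT_inl A w b hy), eT_inl _ _ _ (hl_inl A B hy)]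
        simp only [Sum.map_inl, FL_1]
      | inr k =>
        by_cases hk : k = 1 ∨ k = 2
        · rw [hl_inr1 _ _ (eT_inr A w b hy) hk, eT_inr _ _ _ (hl_inr1 A B hy hk)]
          rfl
        · rw [hl_inr2 _ _ (eT_inr A w b hy) hk, eT_inl _ _ _ (hl_inr2 A B hy hk)]
          simp only [Sum.map_inl, FL_2]
    · change (hsum (expandT A w b) B).link (FL (outD (Sum.inl w) b (dr (w', i)))) =
        Sum.map FL id ((expandT (hsum A B) (Sum.inl w) b).link (outD (Sum.inl w) b (dr (w', i))))
      rw [FL_2]
      cases hy : B.link (w', i) with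
      | inl z =>
        rw [hr_inl _ _ hy, eT_inl _ _ _ (hr_inl A B hy)]
        simp only [Sum.map_inl, FL_2]
      | inr k =>
        by_cases hk : k = 1 ∨ k = 2
        · rw [hr_inr1 _ _ hy hk, eT_inl _ _ _ (hr_inr1 A B hy hk)]
          simp only [Sum.map_inl, FL_1, eT_port]
        · rw [hr_inr2 _ _ hy hk, eT_inr _ _ _ (hr_inr2 A B hy hk)]
          rfl
  · obtain ⟨x', h1, h2, h3⟩ := FL_3 w b x h
    rw [eT_none _ _ _ h, h1, hl_inl _ _ (eT_none A w b h2)]
    simp only [Sum.map_inl, h3]

theorem expandT_hsum_right (A : Tangle V) (B : Tangle W) (w : W) (b : ZMod 4) :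
    TEq (expandT (hsum A B) (Sum.inr w) b) (hsum A (expandT B w b)) := by
  refine tEq_mk (fR V W) fun x => ?_
  change (hsum A (expandT B w b)).link (FR x) =
    Sum.map FR id ((expandT (hsum A B) (Sum.inr w) b).link x)
  rcases out_cases (Sum.inr w) b x with ⟨y, rfl⟩ | h
  · obtain ⟨v | w', i⟩ := y
    · change (hsum A (expandT B w b)).link (FR (outD (Sum.inr w) b (dl (v, i)))) =
        Sum.map FR id ((expandT (hsum A B) (Sum.inr w) b).link (outD (Sum.inr w) b (dl (v, i))))
      rw [FR_1]
      cases hy : A.link (v, i) with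
      | inl z =>
        rw [hl_inl _ _ hy, eT_inl _ _ _ (hl_inl A B hy)]
        simp only [Sum.map_inl, FR_1]
      | inr k =>
        by_cases hk : k = 1 ∨ k = 2
        · rw [hl_inr1 _ _ hy hk, eT_inr _ _ _ (hl_inr1 A B hy hk)]
          rfl
        · rw [hl_inr2 _ _ hy hk, eT_inl _ _ _ (hl_inr2 A B hy hk)]
          simp only [Sum.map_inl, FR_2, eT_port]
    · change (hsum A (expandT B w b)).link (FR (outD (Sum.inr w) b (dr (w', i)))) =
        Sum.map FR id ((expandT (hsum A B) (Sum.inr w) b).link (outD (Sum.inr w) b (dr (w', i))))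
      rw [FR_2]
      cases hy : B.link (w', i) with
      | inl z =>
        rw [hr_inl _ _ (eT_inl B w b hy), eT_inl _ _ _ (hr_inl A B hy)]
        simp only [Sum.map_inl, FR_2]
      | inr k =>
        by_cases hk : k = 1 ∨ k = 2
        · rw [hr_inr1 _ _ (eT_inr B w b hy) hk, eT_inl _ _ _ (hr_inr1 A B hy hk)]
          simp only [Sum.map_inl, FR_1]
        · rw [hr_inr2 _ _ (eT_inr B w b hy) hk, eT_inr _ _ _ (hr_inr2 A B hy hk)]
          rfl
  · obtain ⟨x', h1, h2, h3⟩ := FR_3 w b x h
    rw [eT_none _ _ _ h, h1, hr_inl _ _ (eT_none B w b h2)]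
    simp only [Sum.map_inl, h3]

theorem expandT_vsum_left (A : Tangle V) (B : Tangle W) (w : V) (b : ZMod 4) :
    TEq (expandT (vsum A B) (Sum.inl w) b) (vsum (expandT A w b) B) := by
  refine tEq_mk (fL V W) fun x => ?_
  change (vsum (expandT A w b) B).link (FL x) =
    Sum.map FL id ((expandT (vsum A B) (Sum.inl w) b).link x)
  rcases out_cases (Sum.inl w) b x with ⟨y, rfl⟩ | h
  · obtain ⟨v | w', i⟩ := y
    · change (vsum (expandT A w b) B).link (FL (outD (Sum.inl w) b (dl (v, i)))) =
        Sum.map FL id ((expandT (vsum A B) (Sum.inl w) b).link (outD (Sum.inl w) b (dl (v, i))))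
      rw [FL_1]
      cases hy : A.link (v, i) with
      | inl z =>
        rw [vl_inl _ _ (eT_inl A w b hy), eT_inl _ _ _ (vl_inl A B hy)]
        simp only [Sum.map_inl, FL_1]
      | inr k =>
        by_cases hk : k = 0 ∨ k = 1
        · rw [vl_inr1 _ _ (eT_inr A w b hy) hk, eT_inr _ _ _ (vl_inr1 A B hy hk)]
          rfl
        · rw [vl_inr2 _ _ (eT_inr A w b hy) hk, eT_inl _ _ _ (vl_inr2 A B hy hk)]
          simp only [Sum.map_inl, FL_2]
    · change (vsum (expandT A w b) B).link (FL (outD (Sum.inl w) b (dr (w', i)))) =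
        Sum.map FL id ((expandT (vsum A B) (Sum.inl w) b).link (outD (Sum.inl w) b (dr (w', i))))
      rw [FL_2]
      cases hy : B.link (w', i) with
      | inl z =>
        rw [vr_inl _ _ hy, eT_inl _ _ _ (vr_inl A B hy)]
        simp only [Sum.map_inl, FL_2]
      | inr k =>
        by_cases hk : k = 0 ∨ k = 1
        · rw [vr_inr1 _ _ hy hk, eT_inl _ _ _ (vr_inr1 A B hy hk)]
          simp only [Sum.map_inl, FL_1, eT_port]
        · rw [vr_inr2 _ _ hy hk, eT_inr _ _ _ (vr_inr2 A B hy hk)]
          rfl
  · obtain ⟨x', h1, h2, h3⟩ := FL_3 w b x h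
    rw [eT_none _ _ _ h, h1, vl_inl _ _ (eT_none A w b h2)]
    simp only [Sum.map_inl, h3]

theorem expandT_vsum_right (A : Tangle V) (B : Tangle W) (w : W) (b : ZMod 4) :
    TEq (expandT (vsum A B) (Sum.inr w) b) (vsum A (expandT B w b)) := by
  refine tEq_mk (fR V W) fun x => ?_
  change (vsum A (expandT B w b)).link (FR x) =
    Sum.map FR id ((expandT (vsum A B) (Sum.inr w) b).link x)
  rcases out_cases (Sum.inr w) b x with ⟨y, rfl⟩ | h
  · obtain ⟨v | w', i⟩ := y
    · change (vsum A (expandT B w b)).link (FR (outD (Sum.inr w) b (dl (v, i)))) =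
        Sum.map FR id ((expandT (vsum A B) (Sum.inr w) b).link (outD (Sum.inr w) b (dl (v, i))))
      rw [FR_1]
      cases hy : A.link (v, i) with
      | inl z =>
        rw [vl_inl _ _ hy, eT_inl _ _ _ (vl_inl A B hy)]
        simp only [Sum.map_inl, FR_1]
      | inr k =>
        by_cases hk : k = 0 ∨ k = 1
        · rw [vl_inr1 _ _ hy hk, eT_inr _ _ _ (vl_inr1 A B hy hk)]
          rfl
        · rw [vl_inr2 _ _ hy hk, eT_inl _ _ _ (vl_inr2 A B hy hk)]
          simp only [Sum.map_inl, FR_2, eT_port]
    · change (vsum A (expandT B w b)).link (FR (outD (Sum.inr w) b (dr (w', i)))) =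
        Sum.map FR id ((expandT (vsum A B) (Sum.inr w) b).link (outD (Sum.inr w) b (dr (w', i))))
      rw [FR_2]
      cases hy : B.link (w', i) with
      | inl z =>
        rw [vr_inl _ _ (eT_inl B w b hy), eT_inl _ _ _ (vr_inl A B hy)]
        simp only [Sum.map_inl, FR_2]
      | inr k =>
        by_cases hk : k = 0 ∨ k = 1
        · rw [vr_inr1 _ _ (eT_inr B w b hy) hk, eT_inl _ _ _ (vr_inr1 A B hy hk)]
          simp only [Sum.map_inl, FR_1]
        · rw [vr_inr2 _ _ (eT_inr B w b hy) hk, eT_inr _ _ _ (vr_inr2 A B hy hk)]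
          rfl
  · obtain ⟨x', h1, h2, h3⟩ := FR_3 w b x h
    rw [eT_none _ _ _ h, h1, vr_inl _ _ (eT_none B w b h2)]
    simp only [Sum.map_inl, h3]

/-- the expansion of the tangle with one crossing: `h leaf leaf` for even `b`, `v leaf leaf` for
odd `b` (for `b = 0` the new crossing is on the right, `b = 1` above, `b = 2` left, `b = 3` below) -/
theorem expandT_leaf (b : ZMod 4) : TEq (expandT leafT () b)
    (if b = 0 ∨ b = 2 then Ex.h Ex.leaf Ex.leaf else Ex.v Ex.leaf Ex.leaf).tg := by
  have h0 : TEq (expandT leafT () 0) (hsum leafT leafT) :=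
    tEq_mk (Equiv.refl _) (by decide)
  have h1 : TEq (expandT leafT () 1) (vsum leafT leafT) :=
    tEq_mk (Equiv.sumComm _ _) (by decide)
  have h2 : TEq (expandT leafT () 2) (hsum leafT leafT) :=
    tEq_mk (Equiv.sumComm _ _) (by decide)
  have h3 : TEq (expandT leafT () 3) (vsum leafT leafT) :=
    tEq_mk (Equiv.refl _) (by decide)
  have hb : b = 0 ∨ b = 1 ∨ b = 2 ∨ b = 3 := by revert b; decide
  rcases hb with rfl | rfl | rfl | rfl
  · rw [if_pos (by decide)]
    exact h0
  · rw [if_neg (by decide)]
    exact h1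
  · rw [if_pos (by decide)]
    exact h2
  · rw [if_neg (by decide)]
    exact h3

theorem expand_congr {S : Shadow V} {S' : Shadow V'} (e : PIso S S') (w : V) (b : ZMod 4) :
    PEq (expand S w b) (expand S' (e.f w) (b + e.c w)) := by
  let F : Dart (V ⊕ Unit) → Dart (V' ⊕ Unit) := fun x =>
    (Equiv.sumCongr e.f (Equiv.refl Unit) x.1, x.2 + Sum.elim e.c (fun _ => e.c w) x.1)
  have hF : ∀ y : Dart V, F (outD w b y) = outD (e.f w) (b + e.c w) (e.f y.1, y.2 + e.c y.1) := by
    intro y
    unfold outD
    by_cases h1 : y = (w, b - 1)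
    · subst h1
      rw [if_pos rfl, if_pos (by simp only [Prod.mk.injEq, true_and]; ring)]
      simp only [F, Sum.elim_inr]
      exact Prod.ext rfl (by simp only; ring)
    · rw [if_neg h1]
      have h1' : ¬ ((e.f y.1, y.2 + e.c y.1) = (e.f w, b + e.c w - 1)) := by
        intro h
        rw [Prod.mk.injEq] at h
        have h3 := e.f.injective h.1
        apply h1
        refine Prod.ext h3 ?_
        have h4 := h.2
        rw [h3] at h4
        have h5 : b + e.c w - 1 = (b - 1) + e.c w := by ring
        rw [h5] at h4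
        exact add_right_cancel h4
      rw [if_neg h1']
      by_cases h2 : y = (w, b)
      · subst h2
        rw [if_pos rfl, if_pos rfl]
        rfl
      · rw [if_neg h2]
        have h2' : ¬ ((e.f y.1, y.2 + e.c y.1) = (e.f w, b + e.c w)) := by
          intro h
          rw [Prod.mk.injEq] at h
          have h3 := e.f.injective h.1
          apply h2
          refine Prod.ext h3 ?_
          have h4 := h.2
          rw [h3] at h4
          exact add_right_cancel h4
        rw [if_neg h2']
        rfl
  refine ⟨⟨Equiv.sumCongr e.f (Equiv.refl Unit), Sum.elim e.c (fun _ => e.c w), ?_, fun x => ?_⟩⟩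
  · rintro (v | u)
    · exact e.even v
    · exact e.even w
  · change expα S' (e.f w) (b + e.c w) (F x) = F (expα S w b x)
    rcases out_cases w b x with ⟨y, rfl⟩ | h
    · rw [hF, expα_out, expα_out, e.map, hF]
    · rw [expα_none _ _ _ _ h]
      rw [outI_none_iff] at h
      rcases h with h | h | h | h
      · subst h
        have h1 : F (Sum.inl w, b - 1) = (Sum.inl (e.f w), (b + e.c w) - 1) :=
          Prod.ext rfl (by simp only [F, Sum.elim_inl]; ring)
        rw [innD_1, h1, expα_none _ _ _ _ (by rw [outI_none_iff]; simp), innD_1]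
        exact Prod.ext rfl (by simp only [F, Sum.elim_inr]; ring)
      · subst h
        have h1 : F (Sum.inl w, b) = (Sum.inl (e.f w), b + e.c w) := rfl
        rw [innD_2, h1, expα_none _ _ _ _ (by rw [outI_none_iff]; simp), innD_2]
        exact Prod.ext rfl (by simp only [F, Sum.elim_inr]; ring)
      · subst h
        have h1 : F (Sum.inr (), b + 1) = (Sum.inr (), (b + e.c w) + 1) :=
          Prod.ext rfl (by simp only [F, Sum.elim_inr]; ring)
        rw [innD_3, h1, expα_none _ _ _ _ (by rw [outI_none_iff]; simp), innD_3]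
        rfl
      · subst h
        have h1 : F (Sum.inr (), b + 2) = (Sum.inr (), (b + e.c w) + 2) :=
          Prod.ext rfl (by simp only [F, Sum.elim_inr]; ring)
        rw [innD_4, h1, expα_none _ _ _ _ (by rw [outI_none_iff]; simp), innD_4]
        exact Prod.ext rfl (by simp only [F, Sum.elim_inl]; ring)

end

/-- the expansion of an algebraic tangle is an algebraic tangle (induction on `E`) -/
theorem exists_expand (E : Ex) (w : E.Lv) (b : ZMod 4) :
    ∃ E' : Ex, TEq (expandT E.tg w b) E'.tg := by
  induction E with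
  | leaf => exact ⟨_, expandT_leaf b⟩
  | h A B ihA ihB =>
    rcases w with w | w
    · obtain ⟨A', hA⟩ := ihA w
      exact ⟨Ex.h A' B, (expandT_hsum_left A.tg B.tg w b).trans (hA.hsum (TEq.refl _))⟩
    · obtain ⟨B', hB⟩ := ihB w
      exact ⟨Ex.h A B', (expandT_hsum_right A.tg B.tg w b).trans ((TEq.refl _).hsum hB)⟩
  | v A B ihA ihB =>
    rcases w with w | w
    · obtain ⟨A', hA⟩ := ihA w
      exact ⟨Ex.v A' B, (expandT_vsum_left A.tg B.tg w b).trans (hA.vsum (TEq.refl _))⟩
    · obtain ⟨B', hB⟩ := ihB w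
      exact ⟨Ex.v A B', (expandT_vsum_right A.tg B.tg w b).trans ((TEq.refl _).vsum hB)⟩

/-- the expansion of an algebraic diagram is an algebraic diagram -/
theorem exists_expand_dia (E C : Ex) (w : E.Lv ⊕ C.Lv) (b : ZMod 4) :
    ∃ E' C' : Ex, PEq (expand (E.dia C) w b) (E'.dia C') := by
  rcases w with w | w
  · obtain ⟨E', hE⟩ := exists_expand E w b
    exact ⟨E', C, (expand_glue_left E.tg C.tg w b).trans (hE.glue (TEq.refl _))⟩
  · obtain ⟨C', hC⟩ := exists_expand C w b
    exact ⟨E, C', (expand_glue_right E.tg C.tg w b).trans ((TEq.refl _).glue hC)⟩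

end Pool.Agent.Helper65.LK
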