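import Pool.Agent.Helper65.LK.PathWord
import Pool.Agent.Helper65.LK.IsoPlanar

/-!
# LK-40. Isomorphisms of pure diagrams and of tangles which preserve the parity of the darts

`PIso S S'`: a bijection of the vertices together with rotations of the vertices by `0` or `2`.
`TIso T T'`: the same for tangles, the ports are preserved.  All statements are direct computations: give
`f`, `c` and check `map` by cases (vertices in a summand; `link x = inl y` or `inr i`).
`glue_comm`: `f = Sum.swap`, `c = 0`.  `glue_rot2`: `f = id`, `c = 0`.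
`hsum_assoc`, `vsum_assoc`, `reroot_h`, `reroot_v`: `f` = the associativity of `⊕` (and `Sum.swap` where
needed), `c = 0`: `glue (hsum A B) C`: `A.0 - B.1`, `A.3 - B.2`, `A.1 - C.0`, `A.2 - C.3`, `B.0 - C.1`, `B.3 - C.2`, and
these are the connections in `glue A (hsum B C)`.  `glue (vsum A B) C`: `A.2 - B.1`, `A.3 - B.0`, `A.0 - C.1`,
`A.1 - C.0`, `B.2 - C.3`, `B.3 - C.2`, the same in `glue A (vsum C B.rot2)`.
`leaf_rot2`: `f = id`, `c = 2`.  `rot2_hsum`: `(hsum A B).rot2` and `hsum B.rot2 A.rot2` (`f = Sum.swap`).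
-/

namespace Pool.Agent.Helper65.LK

variable {V V' V'' W W' U : Type}

/-- an isomorphism of pure diagrams which preserves the parity of the darts -/
structure PIso (S : Shadow V) (S' : Shadow V') where
  /-- the vertices -/
  f : V ≃ V'
  /-- the rotations -/
  c : V → ZMod 4
  even : ∀ v, c v = 0 ∨ c v = 2
  map : ∀ x : Dart V, S'.α (f x.1, x.2 + c x.1) =
    (f (S.α x).1, (S.α x).2 + c (S.α x).1)

/-- the map of the darts -/
def PIso.d {S : Shadow V} {S' : Shadow V'} (e : PIso S S') (x : Dart V) : Dart V' :=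
  (e.f x.1, x.2 + e.c x.1)

/-- an isomorphism of tangles which preserves the parity of the darts and the ports -/
structure TIso (T : Tangle V) (T' : Tangle V') where
  /-- the vertices -/
  f : V ≃ V'
  /-- the rotations -/
  c : V → ZMod 4
  even : ∀ v, c v = 0 ∨ c v = 2
  map : ∀ x : Dart V, T'.link (f x.1, x.2 + c x.1) = match T.link x with
    | Sum.inl y => Sum.inl (f y.1, y.2 + c y.1)
    | Sum.inr i => Sum.inr i

theorem TIso.port {T : Tangle V} {T' : Tangle V'} (e : TIso T T') (i : ZMod 4) :
    T'.port i = (e.f (T.port i).1, (T.port i).2 + e.c (T.port i).1) := by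
  have h := e.map (T.port i)
  rw [T.link_port] at h
  exact T'.port_link _ _ h

private theorem z4_cases : ∀ i : ZMod 4, i = 0 ∨ i = 1 ∨ i = 2 ∨ i = 3 := by decide

/-- two diagrams are isomorphic -/
def PEq (S : Shadow V) (S' : Shadow V') : Prop := Nonempty (PIso S S')

/-- two tangles are isomorphic -/
def TEq (T : Tangle V) (T' : Tangle V') : Prop := Nonempty (TIso T T')

theorem PEq.refl (S : Shadow V) : PEq S S :=
  ⟨⟨Equiv.refl _, fun _ => 0, fun _ => Or.inl rfl, fun x => by simp⟩⟩

theorem PEq.symm {S : Shadow V} {S' : Shadow V'} (h : PEq S S') : PEq S' S := by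
  obtain ⟨e⟩ := h
  refine ⟨⟨e.f.symm, fun v => - e.c (e.f.symm v), fun v => ?_, fun x => ?_⟩⟩
  · rcases e.even (e.f.symm v) with h | h <;> rw [h] <;> decide
  · have h := e.map (e.f.symm x.1, x.2 + - e.c (e.f.symm x.1))
    simp only [Equiv.apply_symm_apply, neg_add_cancel_right] at h
    have h2 : S'.α x = S'.α (x.1, x.2) := rfl
    rw [h2, h]
    simp

theorem PEq.trans {S : Shadow V} {S' : Shadow V'} {S'' : Shadow V''} (h : PEq S S')
    (h' : PEq S' S'') : PEq S S'' := by
  obtain ⟨e⟩ := h
  obtain ⟨e'⟩ := h'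
  refine ⟨⟨e.f.trans e'.f, fun v => e.c v + e'.c (e.f v), fun v => ?_, fun x => ?_⟩⟩
  · rcases e.even v with h | h <;> rcases e'.even (e.f v) with h' | h' <;> rw [h, h'] <;> decide
  · have h := e.map x
    have h' := e'.map (e.f x.1, x.2 + e.c x.1)
    rw [h] at h'
    simp only [Equiv.trans_apply, ← add_assoc]
    exact h'

theorem TEq.refl (T : Tangle V) : TEq T T :=
  ⟨⟨Equiv.refl _, fun _ => 0, fun _ => Or.inl rfl, fun x => by
    have h : T.link (x.1, x.2) = T.link x := rfl
    simp only [Equiv.refl_apply, add_zero, h]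
    cases T.link x <;> rfl⟩⟩

theorem TEq.symm {T : Tangle V} {T' : Tangle V'} (h : TEq T T') : TEq T' T := by
  obtain ⟨e⟩ := h
  refine ⟨⟨e.f.symm, fun v => - e.c (e.f.symm v), fun v => ?_, fun x => ?_⟩⟩
  · rcases e.even (e.f.symm v) with h | h <;> rw [h] <;> decide
  · have h := e.map (e.f.symm x.1, x.2 + - e.c (e.f.symm x.1))
    simp only [Equiv.apply_symm_apply, neg_add_cancel_right] at h
    have h2 : T'.link x = T'.link (x.1, x.2) := rfl
    rw [h2, h]
    cases T.link (e.f.symm x.1, x.2 + - e.c (e.f.symm x.1)) with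
    | inl y => simp
    | inr i => rfl

theorem TEq.trans {T : Tangle V} {T' : Tangle V'} {T'' : Tangle V''} (h : TEq T T')
    (h' : TEq T' T'') : TEq T T'' := by
  obtain ⟨e⟩ := h
  obtain ⟨e'⟩ := h'
  refine ⟨⟨e.f.trans e'.f, fun v => e.c v + e'.c (e.f v), fun v => ?_, fun x => ?_⟩⟩
  · rcases e.even v with h | h <;> rcases e'.even (e.f v) with h' | h' <;> rw [h, h'] <;> decide
  · have h := e.map x
    have h' := e'.map (e.f x.1, x.2 + e.c x.1)
    simp only [Equiv.trans_apply, ← add_assoc]
    rw [h'] 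
    cases hx : T.link x with
    | inl y =>
      rw [hx] at h
      simp only at h
      rw [h]
    | inr i =>
      rw [hx] at h
      simp only at h
      rw [h]

theorem TEq.glue {T : Tangle V} {T' : Tangle V'} {C : Tangle W} {C' : Tangle W'}
    (h : TEq T T') (h' : TEq C C') : PEq (glue T C) (LK.glue T' C') := by
  obtain ⟨e⟩ := h
  obtain ⟨e'⟩ := h'
  refine ⟨⟨Equiv.sumCongr e.f e'.f, Sum.elim e.c e'.c, ?_, ?_⟩⟩
  · rintro (v | w)
    · exact e.even v
    · exact e'.even w
  · rintro ⟨v | w, j⟩
    · have h := e.map (v, j)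
      cases hx : T.link (v, j) with
      | inl y =>
        rw [hx] at h
        have h2 : T'.link (e.f v, j + e.c v) = Sum.inl (e.f y.1, y.2 + e.c y.1) := h
        show glueα T' C' (Sum.inl (e.f v), j + e.c v) = _
        have h3 : (LK.glue T C).α (Sum.inl v, j) = dl y := by
          show glueα T C (Sum.inl v, j) = _
          simp only [glueα, hx]
        rw [h3]
        simp only [glueα, h2]
        rfl
      | inr i =>
        rw [hx] at h
        have h2 : T'.link (e.f v, j + e.c v) = Sum.inr i := h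
        show glueα T' C' (Sum.inl (e.f v), j + e.c v) = _
        have h3 : (LK.glue T C).α (Sum.inl v, j) = dr (C.port (1 - i)) := by
          show glueα T C (Sum.inl v, j) = _
          simp only [glueα, hx]
        rw [h3]
        simp only [glueα, h2, e'.port]
        rfl
    · have h := e'.map (w, j)
      cases hx : C.link (w, j) with
      | inl y =>
        rw [hx] at h
        have h2 : C'.link (e'.f w, j + e'.c w) = Sum.inl (e'.f y.1, y.2 + e'.c y.1) := h
        show glueα T' C' (Sum.inr (e'.f w), j + e'.c w) = _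
        have h3 : (LK.glue T C).α (Sum.inr w, j) = dr y := by
          show glueα T C (Sum.inr w, j) = _
          simp only [glueα, hx]
        rw [h3]
        simp only [glueα, h2]
        rfl
      | inr i =>
        rw [hx] at h
        have h2 : C'.link (e'.f w, j + e'.c w) = Sum.inr i := h
        show glueα T' C' (Sum.inr (e'.f w), j + e'.c w) = _
        have h3 : (LK.glue T C).α (Sum.inr w, j) = dl (T.port (1 - i)) := by
          show glueα T C (Sum.inr w, j) = _
          simp only [glueα, hx]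
        rw [h3]
        simp only [glueα, h2, e.port]
        rfl

theorem TEq.hsum {T : Tangle V} {T' : Tangle V'} {C : Tangle W} {C' : Tangle W'}
    (h : TEq T T') (h' : TEq C C') : TEq (hsum T C) (LK.hsum T' C') := by
  obtain ⟨e⟩ := h
  obtain ⟨e'⟩ := h'
  refine ⟨⟨Equiv.sumCongr e.f e'.f, Sum.elim e.c e'.c, ?_, ?_⟩⟩
  · rintro (v | w)
    · exact e.even v
    · exact e'.even w
  · rintro ⟨v | w, j⟩
    · have h := e.map (v, j)
      cases hx : T.link (v, j) with
      | inl y =>
        rw [hx] at h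
        have h2 : T'.link (e.f v, j + e.c v) = Sum.inl (e.f y.1, y.2 + e.c y.1) := h
        show (LK.hsum T' C').link (Sum.inl (e.f v), j + e.c v) = _
        simp only [LK.hsum, hx, h2]
        rfl
      | inr i =>
        rw [hx] at h
        have h2 : T'.link (e.f v, j + e.c v) = Sum.inr i := h
        show (LK.hsum T' C').link (Sum.inl (e.f v), j + e.c v) = _
        simp only [LK.hsum, hx, h2, e'.port]
        rcases z4_cases i with rfl | rfl | rfl | rfl <;> rfl
    · have h := e'.map (w, j)
      cases hx : C.link (w, j) with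
      | inl y =>
        rw [hx] at h
        have h2 : C'.link (e'.f w, j + e'.c w) = Sum.inl (e'.f y.1, y.2 + e'.c y.1) := h
        show (LK.hsum T' C').link (Sum.inr (e'.f w), j + e'.c w) = _
        simp only [LK.hsum, hx, h2]
        rfl
      | inr i =>
        rw [hx] at h
        have h2 : C'.link (e'.f w, j + e'.c w) = Sum.inr i := h
        show (LK.hsum T' C').link (Sum.inr (e'.f w), j + e'.c w) = _
        simp only [LK.hsum, hx, h2, e.port]
        rcases z4_cases i with rfl | rfl | rfl | rfl <;> rfl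

theorem TEq.vsum {T : Tangle V} {T' : Tangle V'} {C : Tangle W} {C' : Tangle W'}
    (h : TEq T T') (h' : TEq C C') : TEq (vsum T C) (LK.vsum T' C') := by
  obtain ⟨e⟩ := h
  obtain ⟨e'⟩ := h'
  refine ⟨⟨Equiv.sumCongr e.f e'.f, Sum.elim e.c e'.c, ?_, ?_⟩⟩
  · rintro (v | w)
    · exact e.even v
    · exact e'.even w
  · rintro ⟨v | w, j⟩
    · have h := e.map (v, j)
      cases hx : T.link (v, j) with
      | inl y =>
        rw [hx] at h
        have h2 : T'.link (e.f v, j + e.c v) = Sum.inl (e.f y.1, y.2 + e.c y.1) := h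
        show (LK.vsum T' C').link (Sum.inl (e.f v), j + e.c v) = _
        simp only [LK.vsum, hx, h2]
        rfl
      | inr i =>
        rw [hx] at h
        have h2 : T'.link (e.f v, j + e.c v) = Sum.inr i := h
        show (LK.vsum T' C').link (Sum.inl (e.f v), j + e.c v) = _
        simp only [LK.vsum, hx, h2, e'.port]
        rcases z4_cases i with rfl | rfl | rfl | rfl <;> rfl
    · have h := e'.map (w, j)
      cases hx : C.link (w, j) with
      | inl y =>
        rw [hx] at h
        have h2 : C'.link (e'.f w, j + e'.c w) = Sum.inl (e'.f y.1, y.2 + e'.c y.1) := h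
        show (LK.vsum T' C').link (Sum.inr (e'.f w), j + e'.c w) = _
        simp only [LK.vsum, hx, h2]
        rfl
      | inr i =>
        rw [hx] at h
        have h2 : C'.link (e'.f w, j + e'.c w) = Sum.inr i := h
        show (LK.vsum T' C').link (Sum.inr (e'.f w), j + e'.c w) = _
        simp only [LK.vsum, hx, h2, e.port]
        rcases z4_cases i with rfl | rfl | rfl | rfl <;> rfl

theorem TEq.rot2 {T : Tangle V} {T' : Tangle V'} (h : TEq T T') : TEq T.rot2 T'.rot2 := by
  obtain ⟨e⟩ := h
  refine ⟨⟨e.f, e.c, e.even, fun x => ?_⟩⟩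
  have h := e.map x
  cases hx : T.link x with
  | inl y =>
    rw [hx] at h
    have h2 : T'.link (e.f x.1, x.2 + e.c x.1) = Sum.inl (e.f y.1, y.2 + e.c y.1) := h
    simp only [Tangle.rot2, hx, h2]
  | inr i =>
    rw [hx] at h
    have h2 : T'.link (e.f x.1, x.2 + e.c x.1) = Sum.inr i := h
    simp only [Tangle.rot2, hx, h2]

theorem rot2_rot2 (T : Tangle V) : TEq T.rot2.rot2 T := by
  refine ⟨⟨Equiv.refl _, fun _ => 0, fun _ => Or.inl rfl, fun x => ?_⟩⟩
  have h0 : T.link (x.1, x.2) = T.link x := rfl
  simp only [Equiv.refl_apply, add_zero, h0]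
  cases hx : T.link x with
  | inl y => simp only [Tangle.rot2, hx]
  | inr i => simp only [Tangle.rot2, hx, z4_add22]

theorem leaf_rot2 : TEq leafT.rot2 leafT := by
  refine ⟨⟨Equiv.refl _, fun _ => 2, fun _ => Or.inr rfl, fun x => ?_⟩⟩
  rfl

theorem rot2_hsum (A : Tangle V) (B : Tangle W) : TEq (hsum A B).rot2 (hsum B.rot2 A.rot2) := by
  refine ⟨⟨Equiv.sumComm _ _, fun _ => 0, fun _ => Or.inl rfl, ?_⟩⟩
  rintro ⟨v | w, j⟩
  · show (hsum B.rot2 A.rot2).link (Sum.inr v, j + 0) = _
    rw [add_zero]
    cases hx : A.link (v, j) with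
    | inl y =>
      simp only [hsum, Tangle.rot2, hx, add_zero]
      rfl
    | inr i =>
      simp only [hsum, Tangle.rot2, hx, add_zero]
      rcases z4_cases i with rfl | rfl | rfl | rfl <;> rfl
  · show (hsum B.rot2 A.rot2).link (Sum.inl w, j + 0) = _
    rw [add_zero]
    cases hx : B.link (w, j) with
    | inl y =>
      simp only [hsum, Tangle.rot2, hx, add_zero]
      rfl
    | inr i =>
      simp only [hsum, Tangle.rot2, hx, add_zero]
      rcases z4_cases i with rfl | rfl | rfl | rfl <;> rfl

theorem rot2_vsum (A : Tangle V) (B : Tangle W) : TEq (vsum A B).rot2 (vsum B.rot2 A.rot2) := by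
  refine ⟨⟨Equiv.sumComm _ _, fun _ => 0, fun _ => Or.inl rfl, ?_⟩⟩
  rintro ⟨v | w, j⟩
  · show (vsum B.rot2 A.rot2).link (Sum.inr v, j + 0) = _
    rw [add_zero]
    cases hx : A.link (v, j) with
    | inl y =>
      simp only [vsum, Tangle.rot2, hx, add_zero]
      rfl
    | inr i =>
      simp only [vsum, Tangle.rot2, hx, add_zero]
      rcases z4_cases i with rfl | rfl | rfl | rfl <;> rfl
  · show (vsum B.rot2 A.rot2).link (Sum.inl w, j + 0) = _
    rw [add_zero]
    cases hx : B.link (w, j) with
    | inl y =>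
      simp only [vsum, Tangle.rot2, hx, add_zero]
      rfl
    | inr i =>
      simp only [vsum, Tangle.rot2, hx, add_zero]
      rcases z4_cases i with rfl | rfl | rfl | rfl <;> rfl

theorem hsum_assoc (A : Tangle V) (B : Tangle W) (C : Tangle U) :
    TEq (hsum (hsum A B) C) (hsum A (hsum B C)) := by
  refine ⟨⟨Equiv.sumAssoc _ _ _, fun _ => 0, fun _ => Or.inl rfl, ?_⟩⟩
  rintro ⟨(v | w) | u, j⟩
  · show (hsum A (hsum B C)).link (Sum.inl v, j + 0) = _
    rw [add_zero]
    cases hx : A.link (v, j) with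
    | inl y =>
      simp only [hsum, hx, add_zero]
      rfl
    | inr i =>
      simp only [hsum, hx, add_zero]
      rcases z4_cases i with rfl | rfl | rfl | rfl <;> rfl
  · show (hsum A (hsum B C)).link (Sum.inr (Sum.inl w), j + 0) = _
    rw [add_zero]
    cases hx : B.link (w, j) with
    | inl y =>
      simp only [hsum, hx, add_zero]
      rfl
    | inr i =>
      simp only [hsum, hx, add_zero]
      rcases z4_cases i with rfl | rfl | rfl | rfl <;> rfl
  · show (hsum A (hsum B C)).link (Sum.inr (Sum.inr u), j + 0) = _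
    rw [add_zero]
    cases hx : C.link (u, j) with
    | inl y =>
      simp only [hsum, hx, add_zero]
      rfl
    | inr i =>
      simp only [hsum, hx, add_zero]
      rcases z4_cases i with rfl | rfl | rfl | rfl <;> rfl

theorem vsum_assoc (A : Tangle V) (B : Tangle W) (C : Tangle U) :
    TEq (vsum (vsum A B) C) (vsum A (vsum B C)) := by
  refine ⟨⟨Equiv.sumAssoc _ _ _, fun _ => 0, fun _ => Or.inl rfl, ?_⟩⟩
  rintro ⟨(v | w) | u, j⟩
  · show (vsum A (vsum B C)).link (Sum.inl v, j + 0) = _
    rw [add_zero]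
    cases hx : A.link (v, j) with
    | inl y =>
      simp only [vsum, hx, add_zero]
      rfl
    | inr i =>
      simp only [vsum, hx, add_zero]
      rcases z4_cases i with rfl | rfl | rfl | rfl <;> rfl
  · show (vsum A (vsum B C)).link (Sum.inr (Sum.inl w), j + 0) = _
    rw [add_zero]
    cases hx : B.link (w, j) with
    | inl y =>
      simp only [vsum, hx, add_zero]
      rfl
    | inr i =>
      simp only [vsum, hx, add_zero]
      rcases z4_cases i with rfl | rfl | rfl | rfl <;> rfl
  · show (vsum A (vsum B C)).link (Sum.inr (Sum.inr u), j + 0) = _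
    rw [add_zero]
    cases hx : C.link (u, j) with
    | inl y =>
      simp only [vsum, hx, add_zero]
      rfl
    | inr i =>
      simp only [vsum, hx, add_zero]
      rcases z4_cases i with rfl | rfl | rfl | rfl <;> rfl

theorem glue_comm (T : Tangle V) (C : Tangle W) : PEq (glue T C) (glue C T) := by
  refine ⟨⟨Equiv.sumComm _ _, fun _ => 0, fun _ => Or.inl rfl, ?_⟩⟩
  rintro ⟨v | w, j⟩
  · show glueα C T (Sum.inr v, j + 0) = _
    have h3 : (glue T C).α (Sum.inl v, j) = glueα T C (Sum.inl v, j) := rfl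
    rw [add_zero, h3]
    cases hx : T.link (v, j) with
    | inl y =>
      simp only [glueα, hx, add_zero]
      rfl
    | inr i =>
      simp only [glueα, hx, add_zero]
      rfl
  · show glueα C T (Sum.inl w, j + 0) = _
    have h3 : (glue T C).α (Sum.inr w, j) = glueα T C (Sum.inr w, j) := rfl
    rw [add_zero, h3]
    cases hx : C.link (w, j) with
    | inl y =>
      simp only [glueα, hx, add_zero]
      rfl
    | inr i =>
      simp only [glueα, hx, add_zero]
      rfl

theorem glue_rot2 (T : Tangle V) (C : Tangle W) : PEq (glue T.rot2 C.rot2) (glue T C) := by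
  refine ⟨⟨Equiv.refl _, fun _ => 0, fun _ => Or.inl rfl, ?_⟩⟩
  rintro ⟨v | w, j⟩
  · show glueα T C (Sum.inl v, j + 0) = _
    have h3 : (glue T.rot2 C.rot2).α (Sum.inl v, j) = glueα T.rot2 C.rot2 (Sum.inl v, j) := rfl
    rw [add_zero, h3]
    cases hx : T.link (v, j) with
    | inl y =>
      simp only [glueα, Tangle.rot2, hx, add_zero]
      rfl
    | inr i =>
      simp only [glueα, Tangle.rot2, hx, add_zero]
      rcases z4_cases i with rfl | rfl | rfl | rfl <;> rfl
  · show glueα T C (Sum.inr w, j + 0) = _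
    have h3 : (glue T.rot2 C.rot2).α (Sum.inr w, j) = glueα T.rot2 C.rot2 (Sum.inr w, j) := rfl
    rw [add_zero, h3]
    cases hx : C.link (w, j) with
    | inl y =>
      simp only [glueα, Tangle.rot2, hx, add_zero]
      rfl
    | inr i =>
      simp only [glueα, Tangle.rot2, hx, add_zero]
      rcases z4_cases i with rfl | rfl | rfl | rfl <;> rfl

theorem reroot_h (A : Tangle V) (B : Tangle W) (C : Tangle U) :
    PEq (glue (hsum A B) C) (glue A (hsum B C)) := by
  refine ⟨⟨Equiv.sumAssoc _ _ _, fun _ => 0, fun _ => Or.inl rfl, ?_⟩⟩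
  rintro ⟨(v | w) | u, j⟩
  · show glueα A (hsum B C) (Sum.inl v, j + 0) = _
    have h3 : (glue (hsum A B) C).α (Sum.inl (Sum.inl v), j) =
      glueα (hsum A B) C (Sum.inl (Sum.inl v), j) := rfl
    rw [add_zero, h3]
    cases hx : A.link (v, j) with
    | inl y =>
      simp only [glueα, hsum, hx, add_zero]
      rfl
    | inr i =>
      simp only [glueα, hsum, hx, add_zero]
      rcases z4_cases i with rfl | rfl | rfl | rfl <;> rfl
  · show glueα A (hsum B C) (Sum.inr (Sum.inl w), j + 0) = _
    have h3 : (glue (hsum A B) C).α (Sum.inl (Sum.inr w), j) =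
      glueα (hsum A B) C (Sum.inl (Sum.inr w), j) := rfl
    rw [add_zero, h3]
    cases hx : B.link (w, j) with
    | inl y =>
      simp only [glueα, hsum, hx, add_zero]
      rfl
    | inr i =>
      simp only [glueα, hsum, hx, add_zero]
      rcases z4_cases i with rfl | rfl | rfl | rfl <;> rfl
  · show glueα A (hsum B C) (Sum.inr (Sum.inr u), j + 0) = _
    have h3 : (glue (hsum A B) C).α (Sum.inr u, j) = glueα (hsum A B) C (Sum.inr u, j) := rfl
    rw [add_zero, h3]
    cases hx : C.link (u, j) with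
    | inl y =>
      simp only [glueα, hsum, hx, add_zero]
      rfl
    | inr i =>
      simp only [glueα, hsum, hx, add_zero]
      rcases z4_cases i with rfl | rfl | rfl | rfl <;> rfl

theorem reroot_v (A : Tangle V) (B : Tangle W) (C : Tangle U) :
    PEq (glue (vsum A B) C) (glue A (vsum C B.rot2)) := by
  refine ⟨⟨(Equiv.sumAssoc _ _ _).trans (Equiv.sumCongr (Equiv.refl _) (Equiv.sumComm _ _)),
    fun _ => 0, fun _ => Or.inl rfl, ?_⟩⟩
  rintro ⟨(v | w) | u, j⟩
  · show glueα A (vsum C B.rot2) (Sum.inl v, j + 0) = _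
    have h3 : (glue (vsum A B) C).α (Sum.inl (Sum.inl v), j) =
      glueα (vsum A B) C (Sum.inl (Sum.inl v), j) := rfl
    rw [add_zero, h3]
    cases hx : A.link (v, j) with
    | inl y =>
      simp only [glueα, vsum, hx, add_zero]
      rfl
    | inr i =>
      simp only [glueα, vsum, Tangle.rot2, hx, add_zero]
      rcases z4_cases i with rfl | rfl | rfl | rfl <;> rfl
  · show glueα A (vsum C B.rot2) (Sum.inr (Sum.inr w), j + 0) = _
    have h3 : (glue (vsum A B) C).α (Sum.inl (Sum.inr w), j) =
      glueα (vsum A B) C (Sum.inl (Sum.inr w), j) := rfl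
    rw [add_zero, h3]
    cases hx : B.link (w, j) with
    | inl y =>
      simp only [glueα, vsum, Tangle.rot2, hx, add_zero]
      rfl
    | inr i =>
      simp only [glueα, vsum, Tangle.rot2, hx, add_zero]
      rcases z4_cases i with rfl | rfl | rfl | rfl <;> rfl
  · show glueα A (vsum C B.rot2) (Sum.inr (Sum.inl u), j + 0) = _
    have h3 : (glue (vsum A B) C).α (Sum.inr u, j) = glueα (vsum A B) C (Sum.inr u, j) := rfl
    rw [add_zero, h3]
    cases hx : C.link (u, j) with
    | inl y =>
      simp only [glueα, vsum, hx, add_zero]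
      rfl
    | inr i =>
      simp only [glueα, vsum, Tangle.rot2, hx, add_zero]
      rcases z4_cases i with rfl | rfl | rfl | rfl <;> rfl

theorem tg_rot (E : Ex) : TEq E.tg.rot2 E.rot.tg := by
  induction E with
  | leaf => exact leaf_rot2
  | h A B ihA ihB => exact (rot2_hsum A.tg B.tg).trans (TEq.hsum ihB ihA)
  | v A B ihA ihB => exact (rot2_vsum A.tg B.tg).trans (TEq.vsum ihB ihA)

private theorem z4_par0 : ∀ i : ZMod 4, par (i + 0) = par i := by decide

private theorem z4_par2 : ∀ i : ZMod 4, par (i + 2) = par i := by decide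

private theorem z4_up (i c : ZMod 4) (h : c = 0 ∨ c = 2) :
    St.over1.upper (i + c) = St.over1.upper i := by
  rcases h with rfl | rfl
  · rw [add_zero]
  · exact z4_par2 i

/-- the bijection of the darts -/
private def PIso.eqv {S : Shadow V} {S' : Shadow V'} (e : PIso S S') : Dart V ≃ Dart V' where
  toFun := e.d
  invFun y := (e.f.symm y.1, y.2 - e.c (e.f.symm y.1))
  left_inv x := by simp [PIso.d]
  right_inv y := by simp [PIso.d]

private theorem PIso.alpha {S : Shadow V} {S' : Shadow V'} (e : PIso S S') (x : Dart V) :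
    S'.α (e.eqv x) = e.eqv (S.α x) := e.map x

private theorem PIso.eqv_sg {S : Shadow V} {S' : Shadow V'} (e : PIso S S') (x : Dart V) :
    sg (e.eqv x) = e.eqv (sg x) := by
  show (e.f x.1, x.2 + e.c x.1 + 1) = (e.f x.1, x.2 + 1 + e.c x.1)
  rw [add_right_comm]

private theorem PIso.eqv_rot {S : Shadow V} {S' : Shadow V'} (e : PIso S S') (x : Dart V) :
    LK.rot (ov V') (e.eqv x) = e.eqv (LK.rot (ov V) x) := e.eqv_sg x

private theorem PIso.eqv_tau {S : Shadow V} {S' : Shadow V'} (e : PIso S S') (x : Dart V) :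
    tau (ov V') (e.eqv x) = e.eqv (tau (ov V) x) := by
  show (e.f x.1, x.2 + e.c x.1 + 2) = (e.f x.1, x.2 + 2 + e.c x.1)
  rw [add_right_comm]

/-- an isomorphism which preserves the parity gives an isomorphism of the alternating diagrams -/
theorem PEq.dmap {S : Shadow V} {S' : Shadow V'} (h : PEq S S') :
    Nonempty (DMap S (ov V) S' (ov V')) := by
  obtain ⟨e⟩ := h
  refine ⟨⟨?_, ?_, ?_, ?_⟩⟩
  · exact e.eqv.subtypeEquiv (fun _ => ⟨fun _ => rfl, fun _ => rfl⟩)
  · intro x y hxy
    show e.eqv y.1 = sg (e.eqv x.1)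
    rw [hxy, e.eqv_sg]
  · intro x y
    refine ip_eqv e.eqv ?_ x.1 y.1
    intro a b
    have h1 : isC (ov V) a := rfl
    have h2 : isC (ov V') (e.eqv a) := rfl
    simp only [h1, h2, not_true_eq_false, false_and, or_false, e.alpha]
    exact e.eqv.injective.eq_iff.symm
  · intro x
    exact (z4_up x.1.2 (e.c x.1.1) (e.even x.1.1)).symm

theorem PEq.diso [Fintype V] [Fintype V'] {S : Shadow V} {S' : Shadow V'} (h : PEq S S') :
    Nonempty (DIso S (ov V) S' (ov V')) := by
  obtain ⟨φ⟩ := h.dmap
  obtain ⟨e⟩ := h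
  refine ⟨⟨φ, ?_⟩⟩
  refine ip_classes e.eqv ?_
  intro a b
  rw [e.alpha, e.eqv_tau, e.eqv.injective.eq_iff, e.eqv.injective.eq_iff]

theorem PEq.apd [Fintype V] [Fintype V'] {S : Shadow V} {S' : Shadow V'} (h : PEq S S')
    (hS : APD S) : APD S' := by
  classical
  obtain ⟨φ⟩ := h.dmap
  obtain ⟨e⟩ := h
  refine ⟨?_, ?_, ?_⟩
  · intro y
    obtain ⟨x, rfl⟩ := e.eqv.surjective y
    rw [e.alpha]
    have hp : ∀ z : Dart V, par (e.eqv z).2 = par z.2 := fun z =>
      z4_up z.2 (e.c z.1) (e.even z.1)
    rw [hp, hp]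
    exact hS.alt x
  · exact Planar.iso φ hS.planar
  · rw [← hS.conn]
    symm
    refine ip_classes e.eqv ?_
    intro a b
    rw [e.alpha, e.eqv_rot, e.eqv.injective.eq_iff, e.eqv.injective.eq_iff]

theorem PEq.kap [Fintype V] [DecidableEq V] [Fintype V'] [DecidableEq V'] {S : Shadow V}
    {S' : Shadow V'} (h : PEq S S') (hS : APD S) : LK.kap S' = LK.kap S := by
  obtain ⟨φ⟩ := h.diso
  obtain ⟨e⟩ := h
  unfold LK.kap
  rw [← Q_iso zL_mul_muL φ hS.planar, Fintype.card_congr e.f]

end Pool.Agent.Helper65.LK
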