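import Pool.Agent.Helper65.LK.Dia
import Pool.Agent.Helper65.LK.APD
import Pool.Agent.Helper65.LK.TIso

/-!
# LK-65. Symmetries of pure alternating diagrams

`SymP S ρ`: all vertices are crossings with the state `over1`, `ρ` reverses the rotation, respects the
edges and exchanges the parity of the darts (that is, the upper and the lower strands), and exactly two
edges (four darts) are mapped to themselves.

`SymP.isSym`: in a pure diagram `Arc S (ov V) x y ↔ y = x ∨ y = S.α x` (no vertex is smoothed, `α` is an involution),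
all darts are crossing darts, `(ov V v).upper i = par i`; `ρ x = x` is impossible because of the parity.
`SymP.transport`: along `e : PIso S S'`: `ρ' = e.d ∘ ρ ∘ e.d⁻¹`; `e.d` is a bijection (`PIso.d`), commutes with `α`
and `sg`, and preserves the parity.
-/

namespace Pool.Agent.Helper65.LK

open Function

variable {V V' : Type}

/-- a symmetry of a pure alternating diagram -/
structure SymP (S : Shadow V) (ρ : Dart V → Dart V) : Prop where
  invol : ∀ x, ρ (ρ x) = x
  rot : ∀ x, sg (ρ (sg x)) = ρ x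
  edge : ∀ x, ρ (S.α x) = S.α (ρ x)
  flip : ∀ x, par (ρ x).2 ≠ par x.2
  two : {x | ρ x = S.α x}.ncard = 4

theorem arc_ov (S : Shadow V) (x y : Dart V) : Arc S (ov V) x y ↔ (y = x ∨ y = S.α x) := by
  constructor
  · intro h
    induction h with
    | rel a b h =>
      rcases h with h | ⟨h, -⟩
      · exact Or.inr h
      · exact absurd rfl h
    | refl a => exact Or.inl rfl
    | symm a b _ ih =>
      rcases ih with h | h
      · exact Or.inl h.symm
      · right
        rw [h, S.invol]
    | trans a b c _ _ ih1 ih2 =>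
      rcases ih1 with h1 | h1 <;> rcases ih2 with h2 | h2
      · left; rw [h2, h1]
      · right; rw [h2, h1]
      · right; rw [h2, h1]
      · left; rw [h2, h1, S.invol]
  · rintro (h | h)
    · rw [h]; exact Relation.EqvGen.refl _
    · exact Relation.EqvGen.rel _ _ (Or.inl h)

theorem sd_upper (i : ZMod 4) : St.over1.upper i = par i := rfl

theorem SymP.isSym {S : Shadow V} {ρ : Dart V → Dart V} (h : SymP S ρ) :
    IsSym S (ov V) (fun x => ⟨ρ x.1, rfl⟩) where
  invol x := Subtype.ext (h.invol x.1)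
  rot x y hxy := by
    have h1 := h.rot x.1
    show sg (ρ y.1) = ρ x.1
    rw [hxy]
    exact h1
  arc x y hxy := by
    rw [arc_ov] at hxy ⊢
    rcases hxy with hxy | hxy
    · left
      show ρ y.1 = ρ x.1
      rw [hxy]
    · right
      show ρ y.1 = S.α (ρ x.1)
      rw [hxy, h.edge]
  upper x := by
    have h1 := h.flip x.1
    show par (ρ x.1).2 = !par x.1.2
    revert h1
    cases par (ρ x.1).2 <;> cases par x.1.2 <;> simp
  two := by
    have e : ({x : {x : Dart V // isC (ov V) x} | Arc S (ov V) x.1 (ρ x.1)}) =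
        (fun x : {x : Dart V // isC (ov V) x} => x.1) ⁻¹' {x | ρ x = S.α x} := by
      ext x
      show Arc S (ov V) x.1 (ρ x.1) ↔ ρ x.1 = S.α x.1
      rw [arc_ov]
      constructor
      · rintro (h1 | h1)
        · exact absurd (congrArg (fun z : Dart V => par z.2) h1) (h.flip x.1)
        · exact h1
      · exact Or.inr
    show ({x : {x : Dart V // isC (ov V) x} | Arc S (ov V) x.1 (ρ x.1)}).ncard = 4
    rw [e, Set.ncard_preimage_of_injective_subset_range (fun a b hab => Subtype.ext hab)]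
    · exact h.two
    · intro x _
      exact ⟨⟨x, rfl⟩, rfl⟩

theorem SymP.of_isSym {S : Shadow V}
    {ρ : {x : Dart V // isC (ov V) x} → {x : Dart V // isC (ov V) x}}
    (h : IsSym S (ov V) ρ) : SymP S (fun x => (ρ ⟨x, rfl⟩).1) := by
  have hfl : ∀ x : Dart V, par (ρ ⟨x, rfl⟩).1.2 ≠ par x.2 := by
    intro x h1
    have h2 : par (ρ ⟨x, rfl⟩).1.2 = !par x.2 := h.upper ⟨x, rfl⟩
    rw [h1] at h2
    revert h2
    cases par x.2 <;> simp
  have hinv : ∀ x : Dart V, (ρ ⟨(ρ ⟨x, rfl⟩).1, rfl⟩).1 = x := by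
    intro x
    have h1 := h.invol ⟨x, rfl⟩
    exact congrArg Subtype.val h1
  refine ⟨hinv, ?_, ?_, hfl, ?_⟩
  · intro x
    exact h.rot ⟨x, rfl⟩ ⟨sg x, rfl⟩ rfl
  · intro x
    have h1 := h.arc ⟨x, rfl⟩ ⟨S.α x, rfl⟩ ((arc_ov S _ _).2 (Or.inr rfl))
    rw [arc_ov] at h1
    rcases h1 with h1 | h1
    · exfalso
      have h2 := hinv (S.α x)
      have h3 := hinv x
      have h4 : (⟨(ρ ⟨S.α x, rfl⟩).1, rfl⟩ : {x : Dart V // isC (ov V) x}) =
          ⟨(ρ ⟨x, rfl⟩).1, rfl⟩ := Subtype.ext h1
      rw [h4, h3] at h2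
      exact S.noFix x h2.symm
    · exact h1
  · have e : ({x : {x : Dart V // isC (ov V) x} | Arc S (ov V) x.1 (ρ x).1}) =
        (fun x : {x : Dart V // isC (ov V) x} => x.1) ⁻¹' {x | (ρ ⟨x, rfl⟩).1 = S.α x} := by
      ext x
      show Arc S (ov V) x.1 (ρ x).1 ↔ (ρ ⟨x.1, rfl⟩).1 = S.α x.1
      rw [arc_ov]
      constructor
      · rintro (h1 | h1)
        · exact absurd (congrArg (fun z : Dart V => par z.2) h1) (hfl x.1)
        · exact h1
      · exact Or.inr
    have h4 := h.two
    rw [e, Set.ncard_preimage_of_injective_subset_range (fun a b hab => Subtype.ext hab)] at h4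
    · exact h4
    · intro x _
      exact ⟨⟨x, rfl⟩, rfl⟩

private theorem sd_par_add : ∀ i c : ZMod 4, (c = 0 ∨ c = 2) → par (i + c) = par i := by
  decide

theorem SymP.transport {S : Shadow V} {S' : Shadow V'} (e : PIso S S') {ρ : Dart V → Dart V}
    (h : SymP S ρ) : ∃ ρ' : Dart V' → Dart V', SymP S' ρ' := by
  let D : Dart V ≃ Dart V' :=
    { toFun := fun x => (e.f x.1, x.2 + e.c x.1)
      invFun := fun y => (e.f.symm y.1, y.2 - e.c (e.f.symm y.1))
      left_inv := fun x => by simp
      right_inv := fun y => by simp }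
  have hα : ∀ x, S'.α (D x) = D (S.α x) := e.map
  have hsg : ∀ x, D (sg x) = sg (D x) := by
    intro x
    show (e.f x.1, x.2 + 1 + e.c x.1) = (e.f x.1, x.2 + e.c x.1 + 1)
    rw [add_right_comm]
  have hpar : ∀ x, par (D x).2 = par x.2 := fun x => sd_par_add _ _ (e.even x.1)
  have hα' : ∀ y, D.symm (S'.α y) = S.α (D.symm y) := by
    intro y
    rw [Equiv.symm_apply_eq, ← hα, Equiv.apply_symm_apply]
  have hsg' : ∀ y, D.symm (sg y) = sg (D.symm y) := by
    intro y
    rw [Equiv.symm_apply_eq, hsg, Equiv.apply_symm_apply]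
  have hpar' : ∀ y, par (D.symm y).2 = par y.2 := by
    intro y
    rw [← hpar (D.symm y), Equiv.apply_symm_apply]
  refine ⟨fun y => D (ρ (D.symm y)), ⟨?_, ?_, ?_, ?_, ?_⟩⟩
  · intro y
    show D (ρ (D.symm (D (ρ (D.symm y))))) = y
    rw [Equiv.symm_apply_apply, h.invol, Equiv.apply_symm_apply]
  · intro y
    show sg (D (ρ (D.symm (sg y)))) = D (ρ (D.symm y))
    rw [hsg', ← hsg, h.rot]
  · intro y
    show D (ρ (D.symm (S'.α y))) = S'.α (D (ρ (D.symm y)))
    rw [hα', h.edge, hα]
  · intro y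
    show par (D (ρ (D.symm y))).2 ≠ par y.2
    rw [hpar, ← hpar' y]
    exact h.flip _
  · have e1 : {y | D (ρ (D.symm y)) = S'.α y} = D.symm ⁻¹' {x | ρ x = S.α x} := by
      ext y
      show D (ρ (D.symm y)) = S'.α y ↔ ρ (D.symm y) = S.α (D.symm y)
      rw [← hα', Equiv.eq_symm_apply]
    show {y | D (ρ (D.symm y)) = S'.α y}.ncard = 4
    rw [e1, Set.ncard_preimage_of_injective_subset_range D.symm.injective]
    · exact h.two
    · intro x _
      exact ⟨D x, D.symm_apply_apply x⟩

end Pool.Agent.Helper65.LK
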