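import Pool.Agent.Helper65.LK.Kap
import Pool.Agent.Helper65.LK.SymDefs

/-!
# LK-64. Diagrams with maximal degree are alternating

Let `D` be a planar diagram of a knot with `n ≥ 2` crossings whose coefficient of `Q` at `n - 1` is `2`.
(1) `exists_pure`: a diagram `S₁` on the crossings `V' = {v // (D.s v).isX}` with the states `s₁ v = D.s v`, `e : DMap D.S D.s S₁ s₁`
    (the identity on the darts).  `comps D = 1` and `comps S₁ s₁ ≥ 1` (there are darts), so `k = 0`, `comps S₁ s₁ = 1`, and
    `e` is a `DIso`; `Planar S₁ s₁` (`Planar.iso`); `Q` is the same (`Q_iso`).  `card V' = nX D.s`.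
(2) Alternating: if `S₁.α (v, i) = (w, j)` then `upper (v, i) ≠ upper (w, j)`.  For `v ≠ w`: otherwise `Q_deg_le_two`
    contradicts the coefficient at `n - 1`.  For `v = w`: `j = i + 1` or `j = i - 1`: clear (`upper` of neighbours is
    different).  `j = i + 2`: then `{(v, i), (v, i + 2)}` is a component, but there is only one and `(v, i + 1)` is not in it.
(3) Let `r v = 0` if `s₁ v = over1` and `r v = 1` if `s₁ v = over0`, `π (v, i) = (v, i + r v)`, `S' = S₁.conj π`.  Then
    `par (π x).2 = upper x`, so `par (S'.α x).2 ≠ par x.2`; `π` gives a `DIso S₁ s₁ S' (ov V')`.  So `Planar`,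
    `comps S' (ov V') = 1`, hence `pieces S' (ov V') = 1` (every component is contained in a piece; there
    is a dart).  So `APD S'`, and `kap S'` is the coefficient of `Q` of `D` (`Q_iso`).
(4) `ρ' = φ ∘ ρ ∘ φ⁻¹` for the composed map `φ` of the crossing darts; apply `SymP.of_isSym`: `IsSym` is
    transported by a `DMap` (the conditions on `rot`, `arc`, `upper` and the number of fixed arcs).
`Same D D'`: `Step.iso`.
-/

namespace Pool.Agent.Helper65.LK

open Function

/-- transport of a symmetry -/
theorem IsSym.map {V V' : Type} {S : Shadow V} {s : V → St} {S' : Shadow V'} {s' : V' → St}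
    (e : DMap S s S' s') {ρ : {x : Dart V // isC s x} → {x : Dart V // isC s x}}
    (h : IsSym S s ρ) : IsSym S' s' (fun x => e.φ (ρ (e.φ.symm x))) := by
  refine ⟨?_, ?_, ?_, ?_, ?_⟩
  · intro x
    simp only [Equiv.symm_apply_apply, h.invol, Equiv.apply_symm_apply]
  · intro x y hxy
    have h1 : e.φ.symm y = ⟨sg (e.φ.symm x).1, (e.φ.symm x).2⟩ := by
      rw [Equiv.symm_apply_eq]
      apply Subtype.ext
      rw [e.rot (e.φ.symm x) ⟨sg (e.φ.symm x).1, (e.φ.symm x).2⟩ rfl, Equiv.apply_symm_apply]
      exact hxy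
    have h2 := h.rot (e.φ.symm x) (e.φ.symm y) (by rw [h1])
    exact (e.rot (ρ (e.φ.symm y)) (ρ (e.φ.symm x)) h2.symm).symm
  · intro x y hxy
    refine (e.arc _ _).1 (h.arc _ _ ((e.arc _ _).2 ?_))
    rw [Equiv.apply_symm_apply, Equiv.apply_symm_apply]
    exact hxy
  · intro x
    have h1 := h.upper (e.φ.symm x)
    rw [e.upper, e.upper (e.φ.symm x), Equiv.apply_symm_apply] at h1
    exact h1
  · have h1 : {x : {x : Dart V' // isC s' x} | Arc S' s' x.1 (e.φ (ρ (e.φ.symm x))).1} =
        e.φ '' {x | Arc S s x.1 (ρ x).1} := by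
      ext x
      constructor
      · intro hx
        refine ⟨e.φ.symm x, ?_, e.φ.apply_symm_apply x⟩
        refine (e.arc _ _).2 ?_
        rw [Equiv.apply_symm_apply]
        exact hx
      · rintro ⟨a, ha, rfl⟩
        show Arc S' s' (e.φ a).1 (e.φ (ρ (e.φ.symm (e.φ a)))).1
        rw [Equiv.symm_apply_apply]
        exact (e.arc _ _).1 ha
    rw [h1, Set.ncard_image_of_injective _ e.φ.injective]
    exact h.two

private theorem ma_mate {t : St} (h : t.isX = true) (i : ZMod 4) : t.mate i = i + 2 := by
  cases t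
  · rfl
  · rfl
  · exact absurd h (by decide)
  · exact absurd h (by decide)

/-- the rotation which makes the strand through the darts 1 and 3 the upper one -/
private def rr (t : St) : ZMod 4 := if t = St.over0 then 1 else 0

private theorem par_rr : ∀ (t : St) (i : ZMod 4), t.isX = true → par (i + rr t) = t.upper i := by
  decide

private theorem upper_ne : ∀ (t : St) (i : ZMod 4), t.isX = true →
    t.upper (i + 1) ≠ t.upper i ∧ t.upper (i + 3) ≠ t.upper i := by
  decide

private theorem z4_ne : ∀ i j : ZMod 4, j ≠ i → j = i + 1 ∨ j = i + 3 ∨ j = i + 2 := by decide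

/-- the rotation of the darts at the vertices -/
private def rotP {V : Type} (r : V → ZMod 4) : Equiv.Perm (Dart V) where
  toFun x := (x.1, x.2 + r x.1)
  invFun x := (x.1, x.2 - r x.1)
  left_inv x := by simp
  right_inv x := by simp

private theorem conj_apply {V : Type} (S : Shadow V) (π : Equiv.Perm (Dart V)) (x : Dart V) :
    (S.conj π).α (π x) = π (S.α x) := by
  show π (S.α (π.symm (π x))) = π (S.α x)
  rw [Equiv.symm_apply_apply]

private theorem classes_one {X : Type} {r : X → X → Prop} (h : classes r = 1) (x y : X) :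
    Relation.EqvGen r x y := by
  have h1 := (Nat.card_eq_one_iff_unique.1 h).1
  exact Quotient.exact (h1.elim (Quotient.mk (Relation.EqvGen.setoid r) x)
    (Quotient.mk (Relation.EqvGen.setoid r) y))

private theorem classes_eq_one {X : Type} {r : X → X → Prop} (x₀ : X)
    (h : ∀ x y, Relation.EqvGen r x y) : classes r = 1 := by
  refine Nat.card_eq_one_iff_unique.2 ⟨⟨?_⟩, ⟨Quotient.mk _ x₀⟩⟩
  intro a b
  induction a using Quotient.inductionOn
  induction b using Quotient.inductionOn
  exact Quotient.sound (h _ _)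

private theorem classes_pos {X : Type} [Finite X] {r : X → X → Prop} (x₀ : X) :
    1 ≤ classes r := by
  have : Nonempty (Quotient (Relation.EqvGen.setoid r)) := ⟨Quotient.mk _ x₀⟩
  exact Nat.card_pos

section pure

variable {V : Type} [Fintype V] [DecidableEq V] {S : Shadow V} {s : V → St}

omit [DecidableEq V] in
private theorem ma_nX (hX : ∀ v, (s v).isX = true) : nX s = Fintype.card V := by
  unfold nX
  rw [Finset.filter_true_of_mem (fun v _ => hX v)]
  rfl

/-- an arc joins an upper and a lower dart -/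
private theorem ma_alt (hX : ∀ v, (s v).isX = true) (hp : Planar S s) (hc : comps S s = 1)
    (hQ : cf1 (Q zL muL S s) ((nX s : ℤ) - 1) = 2) (x : Dart V) :
    (s (S.α x).1).upper (S.α x).2 ≠ (s x.1).upper x.2 := by
  obtain ⟨v, i⟩ := x
  rcases hw : S.α (v, i) with ⟨w, j⟩
  show (s w).upper j ≠ (s v).upper i
  by_cases hvw : v = w
  · subst hvw
    have hji : j ≠ i := by
      intro h
      apply S.noFix (v, i)
      rw [hw, h]
    rcases z4_ne i j hji with h | h | h
    · rw [h]
      exact (upper_ne (s v) i (hX v)).1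
    · rw [h]
      exact (upper_ne (s v) i (hX v)).2
    · exfalso
      subst h
      have hw' : S.α (v, i + 2) = (v, i) := by
        rw [← hw, S.invol]
      have h4 : ∀ i : ZMod 4, i + 2 + 2 = i := by decide
      have hinv : ∀ a b : Dart V, Relation.EqvGen (fun x y => y = S.α x ∨ y = tau s x) a b →
          ((a = (v, i) ∨ a = (v, i + 2)) ↔ (b = (v, i) ∨ b = (v, i + 2))) := by
        intro a b hab
        induction hab with
        | rel a b hab =>
          have key : ∀ f : Dart V → Dart V, (∀ x, f (f x) = x) → f (v, i) = (v, i + 2) →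
              ((a = (v, i) ∨ a = (v, i + 2)) ↔ (f a = (v, i) ∨ f a = (v, i + 2))) := by
            intro f hf h1
            have h2 : f (v, i + 2) = (v, i) := by rw [← h1, hf]
            constructor
            · rintro (h | h)
              · rw [h, h1]; exact Or.inr rfl
              · rw [h, h2]; exact Or.inl rfl
            · rintro (h | h)
              · right
                rw [← hf a, h, h1]
              · left
                rw [← hf a, h, h2]
          rcases hab with rfl | rfl
          · exact key S.α S.invol hw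
          · refine key (tau s) (fun x => ?_) ?_
            · show (x.1, (s x.1).mate ((s x.1).mate x.2)) = x
              rw [St.mate_mate]
            · show (v, (s v).mate i) = (v, i + 2)
              rw [ma_mate (hX v)]
        | refl a => exact Iff.rfl
        | symm a b _ ih => exact ih.symm
        | trans a b c _ _ ih1 ih2 => exact ih1.trans ih2
      have h5 := (hinv _ _ (classes_one hc (v, i) (v, i + 1))).1 (Or.inl rfl)
      have h6 : ∀ i : ZMod 4, i + 1 ≠ i ∧ i + 1 ≠ i + 2 := by decide
      rcases h5 with h5 | h5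
      · exact (h6 i).1 (congrArg Prod.snd h5)
      · exact (h6 i).2 (congrArg Prod.snd h5)
  · intro hup
    have h1 := Q_deg_le_two hp hvw (hX v) (hX w) (i := i) (j := j)
      (Relation.EqvGen.rel _ _ (Or.inl hw.symm)) hup.symm
    have h2 := h1 ((nX s : ℤ) - 1) (by omega)
    rw [h2] at hQ
    exact absurd hQ (by norm_num)

private noncomputable def ma_iso (hX : ∀ v, (s v).isX = true) :
    DIso S s (S.conj (rotP fun v => rr (s v))) (ov V) where
  φ := (rotP fun v => rr (s v)).subtypeEquiv fun x => ⟨fun _ => rfl, fun _ => hX x.1⟩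
  rot x y hxy := by
    show rotP (fun v => rr (s v)) y.1 = sg (rotP (fun v => rr (s v)) x.1)
    rw [hxy]
    show (x.1.1, x.1.2 + 1 + rr (s x.1.1)) = (x.1.1, x.1.2 + rr (s x.1.1) + 1)
    rw [add_right_comm]
  arc x y := by
    refine ip_eqv (rotP fun v => rr (s v)) ?_ x.1 y.1
    intro a b
    have h1 : isC s a := hX a.1
    have h2 : isC (ov V) ((rotP fun v => rr (s v)) a) := rfl
    rw [conj_apply]
    simp only [h1, h2, not_true_eq_false, false_and, or_false]
    exact (rotP fun v => rr (s v)).injective.eq_iff.symm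
  upper x := (par_rr (s x.1.1) x.1.2 (hX x.1.1)).symm
  comps := by
    refine ip_classes (rotP fun v => rr (s v)) ?_
    intro a b
    have h1 : tau (ov V) ((rotP fun v => rr (s v)) a) = (rotP fun v => rr (s v)) (tau s a) := by
      show (a.1, a.2 + rr (s a.1) + 2) = (a.1, (s a.1).mate a.2 + rr (s a.1))
      rw [ma_mate (hX a.1), add_right_comm]
    rw [conj_apply, h1]
    exact or_congr (rotP fun v => rr (s v)).injective.eq_iff.symm
      (rotP fun v => rr (s v)).injective.eq_iff.symm

omit [Fintype V] [DecidableEq V] in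
private theorem ma_pieces (hc : comps S (ov V) = 1) : pieces S (ov V) = 1 := by
  have h0 : Nonempty (Dart V) := by
    by_contra h
    rw [not_nonempty_iff] at h
    have h1 := (Nat.card_eq_one_iff_unique.1 hc).2
    obtain ⟨q⟩ := h1
    induction q using Quotient.inductionOn with
    | _ x => exact h.elim x
  obtain ⟨x₀⟩ := h0
  refine classes_eq_one x₀ fun x y => ?_
  have h1 := classes_one hc x y
  induction h1 with
  | rel a b hab =>
    rcases hab with rfl | rfl
    · exact Relation.EqvGen.rel _ _ (Or.inl rfl)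
    · have h2 : tau (ov V) a = rot (ov V) (rot (ov V) a) := by
        show (a.1, a.2 + 2) = (a.1, a.2 + 1 + 1)
        have h3 : ∀ i : ZMod 4, i + 2 = i + 1 + 1 := by decide
        rw [h3]
      rw [h2]
      exact Relation.EqvGen.trans _ _ _ (Relation.EqvGen.rel _ _ (Or.inr rfl))
        (Relation.EqvGen.rel _ _ (Or.inr rfl))
  | refl a => exact Relation.EqvGen.refl _
  | symm a b _ ih => exact Relation.EqvGen.symm _ _ ih
  | trans a b c _ _ ih1 ih2 => exact Relation.EqvGen.trans _ _ _ ih1 ih2

end pure

theorem min_pure (D : Dia) (hk : D.IsKnot) (hn : 2 ≤ D.n)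
    (hQ : cf1 (Q zL muL D.S D.s) ((D.n : ℤ) - 1) = 2) :
    ∃ (V' : Type) (_ : Fintype V') (_ : DecidableEq V') (S' : Shadow V')
      (hp : Planar S' (ov V')), APD S' ∧ Fintype.card V' = D.n ∧ kap S' = 2 ∧
      Same D ⟨V', S', ov V', hp⟩ ∧ (D.Symmetric → ∃ ρ, SymP S' ρ) := by
  obtain ⟨S₁, e, -, k, hkk⟩ := exists_pure D.S D.s
  have hX : ∀ v : {v : D.V // (D.s v).isX = true}, (D.s v.1).isX = true := fun v => v.2
  have hcard : Fintype.card {v : D.V // (D.s v).isX = true} = D.n := by
    rw [Fintype.card_subtype]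
    rfl
  have hnX : nX (fun v : {v : D.V // (D.s v).isX = true} => D.s v.1) = D.n := by
    rw [ma_nX hX, hcard]
  have hne : Nonempty {v : D.V // (D.s v).isX = true} := by
    rw [← Fintype.card_pos_iff, hcard]
    omega
  obtain ⟨v₀⟩ := hne
  have hk' : comps D.S D.s = 1 := hk
  have hpos : 1 ≤ comps S₁ (fun v : {v : D.V // (D.s v).isX = true} => D.s v.1) :=
    classes_pos ((v₀, 0) : Dart {v : D.V // (D.s v).isX = true})
  have hc1 : comps S₁ (fun v : {v : D.V // (D.s v).isX = true} => D.s v.1) = 1 := by omega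
  let e1 : DIso D.S D.s S₁ (fun v : {v : D.V // (D.s v).isX = true} => D.s v.1) :=
    { e with comps := by rw [hk', hc1] }
  have hp1 : Planar S₁ (fun v : {v : D.V // (D.s v).isX = true} => D.s v.1) :=
    Planar.iso e D.planar
  have hQ1 : Q zL muL D.S D.s =
      Q zL muL S₁ (fun v : {v : D.V // (D.s v).isX = true} => D.s v.1) :=
    Q_iso zL_mul_muL e1 D.planar
  have hQ2 : cf1 (Q zL muL S₁ (fun v : {v : D.V // (D.s v).isX = true} => D.s v.1))
      ((nX (fun v : {v : D.V // (D.s v).isX = true} => D.s v.1) : ℤ) - 1) = 2 := by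
    rw [← hQ1, hnX]
    exact hQ
  have halt := ma_alt hX hp1 hc1 hQ2
  let e2 := ma_iso (S := S₁) hX
  have hp2 := Planar.iso e2.toDMap hp1
  have hc2 : comps (S₁.conj (rotP fun v => rr (D.s v.1)))
      (ov {v : D.V // (D.s v).isX = true}) = 1 := by
    rw [← hc1]
    exact e2.comps.symm
  have hapd : APD (S₁.conj (rotP fun v => rr (D.s v.1))) := by
    refine ⟨?_, hp2, ma_pieces hc2⟩
    intro y
    obtain ⟨x, rfl⟩ := (rotP fun v : {v : D.V // (D.s v).isX = true} => rr (D.s v.1)).surjective y
    rw [conj_apply]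
    have h1 : ∀ x : Dart {v : D.V // (D.s v).isX = true},
        par ((rotP fun v : {v : D.V // (D.s v).isX = true} => rr (D.s v.1)) x).2 =
          (D.s x.1.1).upper x.2 := fun x => par_rr (D.s x.1.1) x.2 x.1.2
    rw [h1, h1]
    exact halt x
  refine ⟨{v : D.V // (D.s v).isX = true}, inferInstance, inferInstance,
    S₁.conj (rotP fun v => rr (D.s v.1)), hp2, hapd, hcard, ?_, ?_, ?_⟩
  · unfold kap
    rw [← Q_iso zL_mul_muL e2 hp1, hcard, ← hnX]
    exact hQ2
  · refine Relation.EqvGen.trans _ ⟨_, S₁, _, hp1⟩ _ (Relation.EqvGen.rel _ _ ?_)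
      (Relation.EqvGen.rel _ _ ?_)
    · exact Step.iso D ⟨_, S₁, _, hp1⟩ e1
    · exact Step.iso ⟨_, S₁, _, hp1⟩ ⟨_, _, _, hp2⟩ e2
  · rintro (h | ⟨ρ, hρ⟩)
    · omega
    · exact ⟨_, SymP.of_isSym (IsSym.map e2.toDMap (IsSym.map e hρ))⟩

end Pool.Agent.Helper65.LK
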