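import Pool.Agent.Helper65.LK.Conway
import Pool.Agent.Helper75.Lamm.Defs

/-!
# LK-61. If the Conway diagram is a knot then the numerator is odd

Let `T` be a tangle with the state `s`, `f : ZMod 4 → Bool`.  A colouring with the boundary values `f` is
`c : Dart V → Bool` with `c y = c x` if `T.link x = inl y`, `c (tau s x) = c x`, and `c (T.port i) = f i`.
For the word tangle `(wT w, wS q₀ w)` with all letters crossings we claim by induction on `w` that a colouring
exists for every `f` which is constant on the pairs of the matching `M w`:  for `w = []` the matching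
is `{01|23}` if `q₀ = smA` and `{12|30}` if `q₀ = smB`; the letter at `p` exchanges `p` and `p + 1` in
the matching (the colours inside are `f ∘ swap p (p+1)`; the two strands of the vertex `false` run
straight).  The three matchings: `M0 = {01|23}`, `M1 = {12|30}`, `M2 = {02|13}`.  A letter at `p ∈ {1, 3}` exchanges
`M0` and `M2` and fixes `M1`, a letter at `p ∈ {0, 2}` exchanges `M1` and `M2` and fixes `M0`.

For `cw l b`, `(N, D) = cf l` and the base state of the whole list (so that the base is `smB` for
`l = [], b = true` and `smA` for `l = [], b = false`) the matching is, by induction on `l`: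
`b = true`: `M0` iff `N` even; `M1` iff `D` even (and `N` odd); `M2` iff both are odd;
`b = false`: `M1` iff `N` even; `M0` iff `D` even (and `N` odd); `M2` iff both are odd
(`N`, `D` are never both even).  E.g. `b = true`, `x :: l`: `(x N + D, N)` with `x` letters at `3`.

So if `N` is even the matching of the whole word is `M0`; take `f 0 = f 1 = true`, `f 2 = f 3 = false`.  The closing
vertex has the state `smA`; the port `i` is joined with the dart `1 - i`: the darts `0, 1` get the colour `true`,
the darts `2, 3` the colour `false`.  This colouring of the darts of the diagram is constant on the components,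
so there are at least two components.
-/

namespace Pool.Agent.Helper65.LK

open Pool.Agent.Helper75.Lamm (cf)

/-- the word tangle has a colouring with the boundary values `f` -/
private def OdCol (q₀ : St) (w : List Letter) (f : ZMod 4 → Bool) : Prop :=
  ∃ c : Dart (WV w) → Bool, (∀ x y, (wT w).link x = Sum.inl y → c y = c x) ∧
    (∀ x, c (tau (wS q₀ w) x) = c x) ∧ ∀ i, c ((wT w).port i) = f i

/-- exchange of `p` and `p + 1` -/
private def odSw (p i : ZMod 4) : ZMod 4 := if i = p then p + 1 else if i = p + 1 then p else i

private theorem od_step (q₀ : St) (w : List Letter) (p : ZMod 4) (q : St) (hq : q.isX = true)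
    (f : ZMod 4 → Bool) (h : OdCol q₀ w (fun i => f (odSw p i))) :
    OdCol q₀ ((p, q) :: w) f := by
  obtain ⟨c, h1, h2, h3⟩ := h
  refine ⟨fun x => match x.1 with
    | Sum.inl v => c (v, x.2)
    | Sum.inr b => if (strand p (b, x.2)).2 = true then f (odSw p (strand p (b, x.2)).1)
        else f (strand p (b, x.2)).1, ?_, ?_, ?_⟩
  · rintro ⟨v | b, j⟩ y hxy
    · cases hx : (wT w).link (v, j) with
      | inl z =>
        have e : (wT ((p, q) :: w)).link (Sum.inl v, j) = Sum.inl (dl z) := by
          simp only [wT, app, hx] <;> rfl
        rw [e] at hxy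
        have hy : y = dl z := (Sum.inl.inj hxy).symm
        subst hy
        exact h1 _ _ hx
      | inr i =>
        have e : (wT ((p, q) :: w)).link (Sum.inl v, j) = Sum.inl (dr (inDart p i)) := by
          simp only [wT, app, hx] <;> rfl
        rw [e] at hxy
        have hy : y = dr (inDart p i) := (Sum.inl.inj hxy).symm
        subst hy
        have h4 : strand p ((inDart p i).1, (inDart p i).2) = (i, true) := strand_inDart p i
        change (if (strand p ((inDart p i).1, (inDart p i).2)).2 = true then
          f (odSw p (strand p ((inDart p i).1, (inDart p i).2)).1)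
          else f (strand p ((inDart p i).1, (inDart p i).2)).1) = c (v, j)
        rw [h4, if_pos rfl, ← (wT w).port_link _ _ hx]
        exact (h3 i).symm
    · change (if (strand p (b, j)).2 = true then
        Sum.inl (dl ((wT w).port (strand p (b, j)).1)) else Sum.inr (strand p (b, j)).1) =
          Sum.inl y at hxy
      by_cases hs : (strand p (b, j)).2 = true
      · rw [if_pos hs] at hxy
        have hy : y = dl ((wT w).port (strand p (b, j)).1) := (Sum.inl.inj hxy).symm
        subst hy
        change c ((wT w).port (strand p (b, j)).1) = if (strand p (b, j)).2 = true then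
          f (odSw p (strand p (b, j)).1) else f (strand p (b, j)).1
        rw [if_pos hs]
        exact h3 _
      · rw [if_neg hs] at hxy
        cases hxy
  · rintro ⟨v | b, j⟩
    · exact h2 (v, j)
    · have key : ∀ (p : ZMod 4) (b : Bool) (j : ZMod 4),
          (if (strand p (b, if b = true then j + 2 else St.smB.mate j)).2 = true then
            odSw p (strand p (b, if b = true then j + 2 else St.smB.mate j)).1
            else (strand p (b, if b = true then j + 2 else St.smB.mate j)).1) =
          if (strand p (b, j)).2 = true then odSw p (strand p (b, j)).1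
            else (strand p (b, j)).1 := by decide
      have hm : (wS q₀ ((p, q) :: w) (Sum.inr b)).mate j =
          if b = true then j + 2 else St.smB.mate j := by
        cases b
        · rfl
        · change q.mate j = j + 2
          cases q
          · rfl
          · rfl
          · exact absurd hq (by decide)
          · exact absurd hq (by decide)
      change (if (strand p (b, (wS q₀ ((p, q) :: w) (Sum.inr b)).mate j)).2 = true then
          f (odSw p (strand p (b, (wS q₀ ((p, q) :: w) (Sum.inr b)).mate j)).1)
          else f (strand p (b, (wS q₀ ((p, q) :: w) (Sum.inr b)).mate j)).1) =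
        if (strand p (b, j)).2 = true then f (odSw p (strand p (b, j)).1)
          else f (strand p (b, j)).1
      rw [hm, ← apply_ite f, ← apply_ite f, key p b j]
  · intro i
    have h4 : strand p ((outDart p i).1, (outDart p i).2) = (i, false) := strand_outDart p i
    change (if (strand p ((outDart p i).1, (outDart p i).2)).2 = true then
      f (odSw p (strand p ((outDart p i).1, (outDart p i).2)).1)
      else f (strand p ((outDart p i).1, (outDart p i).2)).1) = f i
    rw [h4, if_neg (by simp)]

/-- the three matchings `{01|23}`, `{12|30}`, `{02|13}` -/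
private def odM (m : Fin 3) : ZMod 4 → ZMod 4 :=
  if m = 0 then St.smA.mate else if m = 1 then St.smB.mate else St.over1.mate

/-- the action of a letter at `p` on the matchings -/
private def odA (p : ZMod 4) (m : Fin 3) : Fin 3 :=
  if p = 1 ∨ p = 3 then (if m = 0 then 2 else if m = 1 then 1 else 0)
    else (if m = 0 then 0 else if m = 1 then 2 else 1)

private theorem od_sw (p : ZMod 4) (m : Fin 3) (i : ZMod 4) :
    odSw p (odM m i) = odM (odA p m) (odSw p i) := by
  revert p m i
  decide

/-- the colourings exist for all boundary values constant on the matching -/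
private def OdAll (q₀ : St) (w : List Letter) (m : Fin 3) : Prop :=
  ∀ f : ZMod 4 → Bool, (∀ i, f (odM m i) = f i) → OdCol q₀ w f

private theorem od_all_step (q₀ : St) (w : List Letter) (m : Fin 3) (p : ZMod 4) (q : St)
    (hq : q.isX = true) (h : OdAll q₀ w m) : OdAll q₀ ((p, q) :: w) (odA p m) := by
  intro f hf
  refine od_step q₀ w p q hq f (h _ fun i => ?_)
  rw [od_sw]
  exact hf _

private theorem od_all_nil (q₀ : St) (m : Fin 3) (h : ∀ i, q₀.mate i = odM m i) :
    OdAll q₀ [] m := by
  intro f hf
  refine ⟨fun x => f x.2, ?_, ?_, ?_⟩
  · intro x y hxy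
    cases hxy
  · intro x
    change f (q₀.mate x.2) = f x.2
    rw [h]
    exact hf _
  · intro i
    rfl

private theorem od_all_rep (q₀ : St) (w : List Letter) (m : Fin 3) (l : Letter)
    (hq : l.2.isX = true) (h : OdAll q₀ w m) (x : ℕ) :
    OdAll q₀ (List.replicate x l ++ w) ((odA l.1)^[x] m) := by
  induction x with
  | zero => exact h
  | succ x ih =>
    rw [List.replicate_succ, List.cons_append, Function.iterate_succ_apply']
    exact od_all_step q₀ _ _ l.1 l.2 hq ih

private theorem od_iter (p : ZMod 4) (m : Fin 3) (x : ℕ) :
    (odA p)^[x] m = if x % 2 = 0 then m else odA p m := by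
  have h2 : ∀ (p : ZMod 4) (m : Fin 3), odA p (odA p m) = m := by decide
  induction x with
  | zero => rfl
  | succ x ih =>
    rw [Function.iterate_succ_apply', ih]
    rcases Nat.mod_two_eq_zero_or_one x with h | h
    · rw [if_pos h, if_neg (by omega)]
    · rw [if_neg (by omega), if_pos (by omega), h2]

/-- the matching of a word, from the parities of numerator and denominator -/
private def odMt (b N D : Bool) : Fin 3 :=
  if N = false then (if b = true then 0 else 1) else if D = false then (if b = true then 1 else 0)
    else 2

private def pr (n : ℕ) : Bool := decide (n % 2 = 1)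

private theorem od_cw (l : List ℕ) (b : Bool) (q₀ : St)
    (hq : ∀ i, q₀.mate i = odM (odMt (if l.length % 2 = 0 then b else !b) true false) i) :
    (pr (cf l).1 = true ∨ pr (cf l).2 = true) ∧
      OdAll q₀ (cw l b) (odMt b (pr (cf l).1) (pr (cf l).2)) := by
  induction l generalizing b with
  | nil => exact ⟨Or.inl rfl, od_all_nil q₀ _ hq⟩
  | cons x l ih =>
    have hq' : ∀ i, q₀.mate i =
        odM (odMt (if l.length % 2 = 0 then (!b) else !(!b)) true false) i := by
      rcases Nat.mod_two_eq_zero_or_one l.length with h | h
      · rw [if_pos h]
        rw [List.length_cons, if_neg (by omega)] at hq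
        exact hq
      · rw [if_neg (by omega), Bool.not_not]
        rw [List.length_cons, if_pos (by omega)] at hq
        exact hq
    obtain ⟨h1, h2⟩ := ih (!b) hq'
    have hx : ∀ b : Bool, (alt (if b = true then 3 else 2)).2.isX = true := by decide
    have h3 := od_all_rep q₀ _ _ (alt (if b = true then 3 else 2)) (hx b) h2 x
    have e1 : pr (cf (x :: l)).1 = xor (pr x && pr (cf l).1) (pr (cf l).2) := by
      change pr (x * (cf l).1 + (cf l).2) = _
      unfold pr
      rw [Nat.add_mod, Nat.mul_mod]
      rcases Nat.mod_two_eq_zero_or_one x with a | a <;>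
      rcases Nat.mod_two_eq_zero_or_one (cf l).1 with b | b <;>
      rcases Nat.mod_two_eq_zero_or_one (cf l).2 with c | c <;>
      rw [a, b, c] <;> decide
    have e2 : pr (cf (x :: l)).2 = pr (cf l).1 := rfl
    refine ⟨?_, ?_⟩
    · rw [e1, e2]
      revert h1
      generalize pr x = X
      generalize pr (cf l).1 = N
      generalize pr (cf l).2 = D
      revert X N D
      decide
    · change OdAll q₀ (List.replicate x (alt (if b = true then 3 else 2)) ++ cw l (!b)) _
      have e3 : odMt b (pr (cf (x :: l)).1) (pr (cf (x :: l)).2) =
          (odA (alt (if b = true then 3 else 2)).1)^[x]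
            (odMt (!b) (pr (cf l).1) (pr (cf l).2)) := by
        rw [od_iter, e1, e2]
        have h4 : (x % 2 = 0) ↔ pr x = false := by
          unfold pr
          rw [decide_eq_false_iff_not]
          omega
        rw [if_congr h4 rfl rfl]
        clear h3 h2 hq hq' ih e1 e2 h4 hx
        revert h1
        generalize pr x = X
        generalize pr (cf l).1 = N
        generalize pr (cf l).2 = D
        revert b X N D
        decide
      rw [e3]
      exact h3

theorem conway_odd (a : List ℕ) (h : (conway a).IsKnot) : Odd (cf a).1 := by
  by_contra hodd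
  have hN : pr (cf a).1 = false := by
    unfold pr
    rw [decide_eq_false_iff_not]
    intro h1
    exact hodd (Nat.odd_iff.2 h1)
  have hq : ∀ i, (cq a).mate i =
      odM (odMt (if a.length % 2 = 0 then true else !true) true false) i := by
    unfold cq
    rcases Nat.mod_two_eq_zero_or_one a.length with h | h
    · rw [if_neg (by omega), if_pos h]
      decide
    · rw [if_pos h, if_neg (by omega)]
      decide
  obtain ⟨-, h2⟩ := od_cw a true (cq a) hq
  rw [hN] at h2
  have h3 : ∀ D : Bool, odMt true false D = 0 := by decide
  rw [h3] at h2
  obtain ⟨c, c1, c2, c3⟩ := h2 (fun i => decide (i = 0 ∨ i = 1)) (by decide)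
  -- the colouring of the diagram
  let g : Dart (WV (cw a true) ⊕ Unit) → Bool := fun x => match x.1 with
    | Sum.inl v => c (v, x.2)
    | Sum.inr _ => decide (x.2 = 0 ∨ x.2 = 1)
  have hα : ∀ x, g ((wD (cw a true)).α x) = g x := by
    rintro ⟨v | u, j⟩
    · cases hx : (wT (cw a true)).link (v, j) with
      | inl y =>
        have e : (wD (cw a true)).α (Sum.inl v, j) = dl y := by
          change glueα (wT (cw a true)) leafT (Sum.inl v, j) = dl y
          simp only [glueα, hx]
        rw [e]
        exact c1 _ _ hx
      | inr i =>
        have e : (wD (cw a true)).α (Sum.inl v, j) = dr (leafT.port (1 - i)) := by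
          change glueα (wT (cw a true)) leafT (Sum.inl v, j) = dr (leafT.port (1 - i))
          simp only [glueα, hx]
        have h4 := c3 i
        rw [(wT (cw a true)).port_link _ _ hx] at h4
        rw [e]
        change decide (1 - i = 0 ∨ 1 - i = 1) = c (v, j)
        rw [h4]
        have h5 : ∀ i : ZMod 4, decide (1 - i = 0 ∨ 1 - i = 1) = decide (i = 0 ∨ i = 1) := by
          decide
        exact h5 i
    · change c ((wT (cw a true)).port (1 - j)) = decide (j = 0 ∨ j = 1)
      rw [c3]
      revert j
      decide
  have hτ : ∀ x, g (tau (wDS (cq a) (cw a true) St.smA) x) = g x := by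
    rintro ⟨v | u, j⟩
    · exact c2 (v, j)
    · change decide (St.smA.mate j = 0 ∨ St.smA.mate j = 1) = decide (j = 0 ∨ j = 1)
      revert j
      decide
  have hc : ∀ x y, Relation.EqvGen (fun x y : Dart (WV (cw a true) ⊕ Unit) =>
      y = (wD (cw a true)).α x ∨ y = tau (wDS (cq a) (cw a true) St.smA) x) x y → g x = g y := by
    intro x y hxy
    induction hxy with
    | rel x y hr =>
      rcases hr with rfl | rfl
      · exact (hα x).symm
      · exact (hτ x).symm
    | refl x => rfl
    | symm x y _ ih => exact ih.symm
    | trans x y z _ _ ih1 ih2 => exact ih1.trans ih2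
  have h5 : Nat.card (Quotient (Relation.EqvGen.setoid
      (fun x y : Dart (WV (cw a true) ⊕ Unit) =>
        y = (wD (cw a true)).α x ∨ y = tau (wDS (cq a) (cw a true) St.smA) x))) = 1 := h
  obtain ⟨h6, -⟩ := Nat.card_eq_one_iff_unique.1 h5
  have h7 := Quotient.exact (h6.elim (Quotient.mk _ (Sum.inr (), 0))
    (Quotient.mk _ (Sum.inr (), 2)))
  have h8 := hc _ _ h7
  have h9 : decide ((0 : ZMod 4) = 0 ∨ (0 : ZMod 4) = 1) =
      decide ((2 : ZMod 4) = 0 ∨ (2 : ZMod 4) = 1) := h8
  exact absurd h9 (by decide)

end Pool.Agent.Helper65.LK
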