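import Pool.Agent.Helper65.LK.FlypeWord
import Pool.Agent.Helper65.LK.Conway

/-!
# LK-62. The pure diagram of a word is a Conway diagram

`tm_addLeaf`: both tangles arise from `E.tg` by adding a crossing.  Dart `i` of the new leaf corresponds to the dart
`i - 1` of the new letter for `p = 3`, `i` for `p = 2`, `i + 1` for `p = 1`, `i + 2` for `p = 0`; the vertex `false` of the slot has
the state `smB`, its strands run straight.  E.g. `p = 3`, `hsum E leafT`: `E.port 0 - (leaf, 1)`, `E.port 3 - (leaf, 2)`,
ports `0, 3` = leaf darts `0, 3`; `app E 3`: `E.port 0 - (true, 0)`, `E.port 3 - (true, 1)`, the port `3` is `(true, 2)`, the port `0` is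
`(true, 3)`, the ports `1, 2` of `E` run straight through the vertex `false`.  `p = 2`, `vsum E leafT`: `E.port 2 - (leaf, 1)`,
`E.port 3 - (leaf, 0)`.  `p = 1`, `hsum leafT E`: `E.port 1 - (leaf, 0)`, `E.port 2 - (leaf, 3)`.  `p = 0`, `vsum leafT E`: `E.port 0 - (leaf, 3)`,
`E.port 1 - (leaf, 2)`.  The states: `upper (leaf, i) = par i`, `alt p` has the state `over1` for even `p`
and `over0` for odd `p`.

`tm_word`: induction on `w`.  `w = []`: `tm_leaf` and `tm_base` (`bst 2 = smB`, `bst 3 = smA`, `over1.sw = over0`,
`alt 3 = (3, over0)`).  `p :: w`: `TM.app` applied to the induction hypothesis, and `tm_addLeaf`.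

`pure_word`: `(PW w).dia leaf = glue (PW w).tg leafT` with the state `over1` at the closing leaf.
`glue T leafT ≅ glue leafT T` (`glue_comm`), `leafT` with `over1` `≅ app leafT 1` with the base `smA` and the letter
`over0` (`tm_leaf`, `tm_base`), `glue (app leafT 1) T ≅ glue leafT (app T (-1))` (`reroot_app`), `-1 = 3`, and
`glue_comm` again.  The isomorphisms `PIso` give `DIso` by `PIso.diso`; `DIso` can be composed (lemma).

`pure_conway`: `Step.iso` with `pure_word`; by `flype_any` all positions may be changed to `3` (odd) and `2` (even):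
`alt p` and `alt (p + 2)` have the same state.  The result is the word `cw (expansion w) true` with the base
`smA`, if the innermost letter `alt 3` belongs to the last block, that is if the last block is horizontal (the
number of blocks is odd, `cq = smA`); if the number of blocks is even then `dg_base` replaces
`alt 3` on `smA = bst 3` by `alt 2` on `smB = bst 2`.  General statement on lists, by induction on `w`:
`cw (blocks w b k) b = replicate k (alt (if b then 3 else 2)) ++ (w with positions 3, 2) ++ [alt p₀]`, where `p₀ = 3` or `2`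
according to the last block.
-/

namespace Pool.Agent.Helper65.LK

open Function

private theorem z4c : ∀ i : ZMod 4, i = 0 ∨ i = 1 ∨ i = 2 ∨ i = 3 := by decide

/-- the dart of the new leaf which is joined with the port `i` -/
private def pwg (p i : ZMod 4) : ZMod 4 := if par p = true then 1 - i else 3 - i

private theorem pwg_in : ∀ p i : ZMod 4, bq p i = true → inDart p i = (true, pwg p i + (2 - p)) := by
  decide

private theorem pwg_out : ∀ p i : ZMod 4, bq p i = true → outDart p i = (true, i + (2 - p)) := by
  decide

private theorem pwg_in' : ∀ p i : ZMod 4, bq p i = false → (inDart p i).1 = false := by decide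

private theorem pwg_out' : ∀ p i : ZMod 4, bq p i = false → (outDart p i).1 = false := by decide

private theorem pwg_s2 : ∀ p j : ZMod 4, bq p j = false →
    strand p (true, j + (2 - p)) = (pwg p j, true) := by decide

private theorem pwg_s3 : ∀ p j : ZMod 4, (strand p (true, j)).2 = true →
    bq p (strand p (true, j)).1 = true ∧ pwg p (strand p (true, j)).1 = j - (2 - p) := by decide

private theorem pwg_b : ∀ p j : ZMod 4, bq p j = false → bq p (pwg p j) = true := by decide

private theorem pwg_inv : ∀ p j : ZMod 4, pwg p (pwg p j) = j := by decide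

private theorem pwg_up : ∀ p j : ZMod 4, St.over1.upper j = (alt p).2.upper (j + (2 - p)) := by
  decide

private theorem pwg_X : ∀ p : ZMod 4, (alt p).2.isX = true := by decide

private theorem pwg_mate : ∀ (p : ZMod 4) (b : Bool) (j : ZMod 4),
    strand p (b, St.smB.mate j) = ((strand p (b, j)).1, !(strand p (b, j)).2) := by decide

private theorem pw_rel {V : Type} {T : Tangle V} {s : V → St} {x y : Dart V}
    (h : T.link x = Sum.inl y) : ArcT T s x y := Relation.EqvGen.rel _ _ (Or.inl h)

private theorem pw_straight {V : Type} (T : Tangle V) (s : V → St) (p : ZMod 4) (q : St)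
    (j : ZMod 4) : ArcT (app T p) (Sum.elim s (slot q)) (dr (false, j))
      (dl (T.port (strand p (false, j)).1)) := by
  by_cases hs : (strand p (false, j)).2 = true
  · apply pw_rel
    rw [WM.app_link_dr, if_pos hs]
  · have h1 : ArcT (app T p) (Sum.elim s (slot q)) (dr (false, j))
        (dr (false, St.smB.mate j)) := by
      refine Relation.EqvGen.rel _ _ (Or.inr ⟨?_, rfl⟩)
      intro h
      have h2 : St.smB.isX = true := h
      exact absurd h2 (by decide)
    have h2 := pwg_mate p false j
    have hs' : (strand p (false, j)).2 = false := by simpa using hs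
    refine Relation.EqvGen.trans _ _ _ h1 (pw_rel ?_)
    rw [WM.app_link_dr, h2, hs']
    rfl

private theorem pw_add {V Z : Type} (T : Tangle V) (p : ZMod 4) (T' : Tangle Z) (d : V ⊕ Unit ≃ Z)
    (h1 : ∀ x y, T.link x = Sum.inl y →
      T'.link (d (Sum.inl x.1), x.2) = Sum.inl (d (Sum.inl y.1), y.2))
    (h2 : ∀ i, bq p i = true → T'.link (d (Sum.inl (T.port i).1), (T.port i).2) =
      Sum.inl (d (Sum.inr ()), pwg p i))
    (h3 : ∀ i, bq p i = false → T'.link (d (Sum.inl (T.port i).1), (T.port i).2) = Sum.inr i)
    (h4 : ∀ j, bq p j = true → T'.link (d (Sum.inr ()), j) = Sum.inr j) :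
    TM T' (ov Z) (app T p) (Sum.elim (ov V) (slot (alt p).2)) := by
  obtain ⟨zl, hzl⟩ : ∃ zl : Dart V → Dart Z, ∀ x, zl x = (d (Sum.inl x.1), x.2) := ⟨_, fun _ => rfl⟩
  obtain ⟨zr, hzr⟩ : ∃ zr : ZMod 4 → Dart Z, ∀ j, zr j = (d (Sum.inr ()), j) := ⟨_, fun _ => rfl⟩
  have h1' : ∀ x y, T.link x = Sum.inl y → T'.link (zl x) = Sum.inl (zl y) := by
    intro x y h
    rw [hzl, hzl]
    exact h1 x y h
  have h2' : ∀ i, bq p i = true → T'.link (zl (T.port i)) = Sum.inl (zr (pwg p i)) := by
    intro i h
    rw [hzl, hzr]
    exact h2 i h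
  have h3' : ∀ i, bq p i = false → T'.link (zl (T.port i)) = Sum.inr i := by
    intro i h
    rw [hzl]
    exact h3 i h
  have h4' : ∀ j, bq p j = true → T'.link (zr j) = Sum.inr j := by
    intro j h
    rw [hzr]
    exact h4 j h
  have h5 : ∀ j, bq p j = false → T'.link (zr j) = Sum.inl (zl (T.port (pwg p j))) := by
    intro j h
    have h6 := T'.invol _ _ (h2' (pwg p j) (pwg_b p j h))
    rw [pwg_inv] at h6
    exact h6
  have hz : ∀ z : Dart Z, (∃ x, z = zl x) ∨ ∃ j, z = zr j := by
    rintro ⟨z, j⟩
    obtain ⟨v | u, rfl⟩ := d.surjective z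
    · exact Or.inl ⟨(v, j), (hzl (v, j)).symm⟩
    · exact Or.inr ⟨j, (hzr j).symm⟩
  obtain ⟨F, hFl, hFr⟩ : ∃ F : Dart Z → Dart (V ⊕ Bool), (∀ x, F (zl x) = dl x) ∧
      ∀ j, F (zr j) = dr (true, j + (2 - p)) := by
    refine ⟨fun z => match d.symm z.1 with
      | Sum.inl v => (Sum.inl v, z.2)
      | Sum.inr _ => (Sum.inr true, z.2 + (2 - p)), fun x => ?_, fun j => ?_⟩
    · rw [hzl]
      simp only [Equiv.symm_apply_apply]
    · rw [hzr]
      simp only [Equiv.symm_apply_apply]
  obtain ⟨G, hGl, hGt, hGf⟩ : ∃ G : Dart (V ⊕ Bool) → Dart Z, (∀ x, G (dl x) = zl x) ∧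
      (∀ j, G (dr (true, j)) = zr (j - (2 - p))) ∧
      ∀ j, G (dr (false, j)) = zl (T.port (strand p (false, j)).1) := by
    exact ⟨fun x => match x.1 with
      | Sum.inl v => zl (v, x.2)
      | Sum.inr true => zr (x.2 - (2 - p))
      | Sum.inr false => zl (T.port (strand p (false, x.2)).1), fun x => rfl, fun j => rfl,
      fun j => rfl⟩
  have hGF : ∀ z, G (F z) = z := by
    intro z
    rcases hz z with ⟨x, rfl⟩ | ⟨j, rfl⟩
    · rw [hFl, hGl]
    · rw [hFr, hGt, add_sub_cancel_right]
  refine TM.of_maps F G ?_ ?_ ?_ ?_ ?_ ?_ ?_ ?_ ?_ ?_ ?_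
  · rintro x y (h | ⟨h, -⟩)
    · rcases hz x with ⟨a, rfl⟩ | ⟨j, rfl⟩
      · cases hx : T.link a with
        | inl b =>
          rw [h1' a b hx, Sum.inl.injEq] at h
          rw [← h, hFl, hFl]
          apply pw_rel
          rw [WM.app_link_dl, hx]
        | inr i =>
          have ha := T.port_link a i hx
          subst ha
          by_cases hb : bq p i = true
          · rw [h2' i hb, Sum.inl.injEq] at h
            rw [← h, hFl, hFr, ← pwg_in p i hb]
            apply pw_rel
            rw [WM.app_link_dl, hx]
          · have hb' : bq p i = false := by simpa using hb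
            rw [h3' i hb'] at h
            cases h
      · by_cases hb : bq p j = true
        · rw [h4' j hb] at h
          cases h
        · have hb' : bq p j = false := by simpa using hb
          rw [h5 j hb', Sum.inl.injEq] at h
          rw [← h, hFl, hFr]
          apply pw_rel
          rw [WM.app_link_dr, pwg_s2 p j hb']
          rfl
    · exact absurd rfl h
  · rintro x y (h | ⟨h, rfl⟩)
    · obtain ⟨v | b, j⟩ := x
      · have e1 : ((Sum.inl v, j) : Dart (V ⊕ Bool)) = dl (v, j) := rfl
        rw [e1, WM.app_link_dl] at h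
        rw [e1, hGl]
        cases hx : T.link (v, j) with
        | inl b =>
          simp only [hx, Sum.inl.injEq] at h
          rw [← h, hGl]
          exact pw_rel (h1' _ _ hx)
        | inr i =>
          simp only [hx, Sum.inl.injEq] at h
          have ha := T.port_link _ i hx
          rw [← ha, ← h]
          by_cases hb : bq p i = true
          · have e2 : (dr (inDart p i) : Dart (V ⊕ Bool)) = dr (true, pwg p i + (2 - p)) := by
              rw [pwg_in p i hb]
            rw [e2, hGt, add_sub_cancel_right]
            exact pw_rel (h2' i hb)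
          · have hb' : bq p i = false := by simpa using hb
            have e2 : inDart p i = (false, (inDart p i).2) := Prod.ext (pwg_in' p i hb') rfl
            have e3 : (strand p (false, (inDart p i).2)).1 = i := by
              rw [← e2, strand_inDart]
            have e4 : (dr (inDart p i) : Dart (V ⊕ Bool)) = dr (false, (inDart p i).2) := by
              rw [← e2]
            rw [e4, hGf, e3]
            exact Relation.EqvGen.refl _
      · have e1 : ((Sum.inr b, j) : Dart (V ⊕ Bool)) = dr (b, j) := rfl
        rw [e1, WM.app_link_dr] at h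
        rw [e1]
        by_cases hs : (strand p (b, j)).2 = true
        · rw [if_pos hs, Sum.inl.injEq] at h
          rw [← h, hGl]
          cases b with
          | true =>
            obtain ⟨e2, e3⟩ := pwg_s3 p j hs
            rw [hGt, ← e3]
            exact Relation.EqvGen.symm _ _ (pw_rel (h2' _ e2))
          | false =>
            rw [hGf]
            exact Relation.EqvGen.refl _
        · rw [if_neg hs] at h
          cases h
    · obtain ⟨v | b, j⟩ := x
      · exact absurd rfl h
      · cases b with
        | true => exact absurd (pwg_X p) h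
        | false =>
          have e1 : ((Sum.inr false, j) : Dart (V ⊕ Bool)) = dr (false, j) := rfl
          have e2 : tau (Sum.elim (ov V) (slot (alt p).2)) ((Sum.inr false, j) : Dart (V ⊕ Bool)) =
            dr (false, St.smB.mate j) := rfl
          rw [e2, e1, hGf, hGf, pwg_mate]
          exact Relation.EqvGen.refl _
  · intro z
    rw [hGF]
    exact Relation.EqvGen.refl _
  · rintro ⟨v | b, j⟩
    · have e1 : ((Sum.inl v, j) : Dart (V ⊕ Bool)) = dl (v, j) := rfl
      rw [e1, hGl, hFl]
      exact Relation.EqvGen.refl _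
    · have e1 : ((Sum.inr b, j) : Dart (V ⊕ Bool)) = dr (b, j) := rfl
      rw [e1]
      cases b with
      | true =>
        rw [hGt, hFr, sub_add_cancel]
        exact Relation.EqvGen.refl _
      | false =>
        rw [hGf, hFl]
        exact Relation.EqvGen.symm _ _ (pw_straight T _ p _ j)
  · intro z _
    rcases hz z with ⟨x, rfl⟩ | ⟨j, rfl⟩
    · rw [hFl]
      rfl
    · rw [hFr]
      exact pwg_X p
  · intro y _
    rfl
  · intro z _
    exact hGF z
  · rintro ⟨v | b, j⟩ h
    · have e1 : ((Sum.inl v, j) : Dart (V ⊕ Bool)) = dl (v, j) := rfl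
      rw [e1, hGl, hFl]
    · cases b with
      | true =>
        have e1 : ((Sum.inr true, j) : Dart (V ⊕ Bool)) = dr (true, j) := rfl
        rw [e1, hGt, hFr, sub_add_cancel]
      | false =>
        have h2 : St.smB.isX = true := h
        exact absurd h2 (by decide)
  · intro z _
    rcases hz z with ⟨x, rfl⟩ | ⟨j, rfl⟩
    · have e1 : sg (zl x) = zl (sg x) := by
        rw [hzl, hzl]
        rfl
      rw [e1, hFl, hFl]
      rfl
    · have e1 : sg (zr j) = zr (j + 1) := by
        rw [hzr, hzr]
        rfl
      rw [e1, hFr, hFr]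
      show ((Sum.inr true, j + 1 + (2 - p)) : Dart (V ⊕ Bool)) = (Sum.inr true, j + (2 - p) + 1)
      rw [add_right_comm]
  · intro z _
    rcases hz z with ⟨x, rfl⟩ | ⟨j, rfl⟩
    · rw [hFl, hzl]
      rfl
    · rw [hFr, hzr]
      exact pwg_up p j
  · intro i
    have e0 : (app T p).port i = dr (outDart p i) := rfl
    by_cases hb : bq p i = true
    · have e1 := T'.port_link _ _ (h4' i hb)
      rw [e1, hFr, e0, pwg_out p i hb]
      exact Relation.EqvGen.refl _
    · have hb' : bq p i = false := by simpa using hb
      have e1 := T'.port_link _ _ (h3' i hb')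
      have e2 : outDart p i = (false, (outDart p i).2) := Prod.ext (pwg_out' p i hb') rfl
      have e3 : (strand p (false, (outDart p i).2)).1 = i := by
        rw [← e2, strand_outDart]
      have e4 : (dr (outDart p i) : Dart (V ⊕ Bool)) = dr (false, (outDart p i).2) := by
        rw [← e2]
      have e5 := pw_straight T (ov V) p (alt p).2 (outDart p i).2
      rw [e3] at e5
      rw [e1, hFl, e0, e4]
      exact Relation.EqvGen.symm _ _ e5

theorem tm_addLeaf (p : ZMod 4) (E : Ex) :
    TM (addLeaf p E).tg (ov _) (app E.tg p) (Sum.elim (ov _) (slot (alt p).2)) := by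
  have hl : ∀ i, E.tg.link ((E.tg.port i).1, (E.tg.port i).2) = Sum.inr i := E.tg.link_port
  rcases z4c p with rfl | rfl | rfl | rfl
  · refine pw_add E.tg 0 (vsum leafT E.tg) (Equiv.sumComm _ _) ?_ ?_ ?_ ?_
    · intro x y h
      have h' : E.tg.link (x.1, x.2) = Sum.inl y := h
      simp only [Equiv.sumComm_apply, Sum.swap_inl, vsum, h']
    · intro i hi
      simp only [Equiv.sumComm_apply, Sum.swap_inl, vsum, hl]
      rcases z4c i with rfl | rfl | rfl | rfl <;> first | rfl | exact absurd hi (by decide)
    · intro i hi
      simp only [Equiv.sumComm_apply, Sum.swap_inl, vsum, hl]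
      rcases z4c i with rfl | rfl | rfl | rfl <;> first | rfl | exact absurd hi (by decide)
    · intro i hi
      simp only [Equiv.sumComm_apply, Sum.swap_inr, vsum, leafT]
      rcases z4c i with rfl | rfl | rfl | rfl <;> first | rfl | exact absurd hi (by decide)
  · refine pw_add E.tg 1 (hsum leafT E.tg) (Equiv.sumComm _ _) ?_ ?_ ?_ ?_
    · intro x y h
      have h' : E.tg.link (x.1, x.2) = Sum.inl y := h
      simp only [Equiv.sumComm_apply, Sum.swap_inl, hsum, h']
    · intro i hi
      simp only [Equiv.sumComm_apply, Sum.swap_inl, hsum, hl]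
      rcases z4c i with rfl | rfl | rfl | rfl <;> first | rfl | exact absurd hi (by decide)
    · intro i hi
      simp only [Equiv.sumComm_apply, Sum.swap_inl, hsum, hl]
      rcases z4c i with rfl | rfl | rfl | rfl <;> first | rfl | exact absurd hi (by decide)
    · intro i hi
      simp only [Equiv.sumComm_apply, Sum.swap_inr, hsum, leafT]
      rcases z4c i with rfl | rfl | rfl | rfl <;> first | rfl | exact absurd hi (by decide)
  · refine pw_add E.tg 2 (vsum E.tg leafT) (Equiv.refl _) ?_ ?_ ?_ ?_
    · intro x y h
      have h' : E.tg.link (x.1, x.2) = Sum.inl y := h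
      simp only [Equiv.refl_apply, vsum, h']
    · intro i hi
      simp only [Equiv.refl_apply, vsum, hl]
      rcases z4c i with rfl | rfl | rfl | rfl <;> first | rfl | exact absurd hi (by decide)
    · intro i hi
      simp only [Equiv.refl_apply, vsum, hl]
      rcases z4c i with rfl | rfl | rfl | rfl <;> first | rfl | exact absurd hi (by decide)
    · intro i hi
      simp only [Equiv.refl_apply, vsum, leafT]
      rcases z4c i with rfl | rfl | rfl | rfl <;> first | rfl | exact absurd hi (by decide)
  · refine pw_add E.tg 3 (hsum E.tg leafT) (Equiv.refl _) ?_ ?_ ?_ ?_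
    · intro x y h
      have h' : E.tg.link (x.1, x.2) = Sum.inl y := h
      simp only [Equiv.refl_apply, hsum, h']
    · intro i hi
      simp only [Equiv.refl_apply, hsum, hl]
      rcases z4c i with rfl | rfl | rfl | rfl <;> first | rfl | exact absurd hi (by decide)
    · intro i hi
      simp only [Equiv.refl_apply, hsum, hl]
      rcases z4c i with rfl | rfl | rfl | rfl <;> first | rfl | exact absurd hi (by decide)
    · intro i hi
      simp only [Equiv.refl_apply, hsum, leafT]
      rcases z4c i with rfl | rfl | rfl | rfl <;> first | rfl | exact absurd hi (by decide)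

theorem tm_word (w : List (ZMod 4)) :
    TM (PW w).tg (ov _) (wT (w.map alt ++ [alt 3])) (wS St.smA (w.map alt ++ [alt 3])) := by
  induction w with
  | nil => exact tm_leaf.trans (tm_base 2 3 St.over1 rfl)
  | cons p w ih => exact (tm_addLeaf p (PW w)).trans (ih.app p (slot (alt p).2))

private theorem pw_trans {V V' V'' : Type} {S : Shadow V} {s : V → St} {S' : Shadow V'}
    {s' : V' → St} {S'' : Shadow V''} {s'' : V'' → St} (h : Nonempty (DIso S s S' s'))
    (h' : Nonempty (DIso S' s' S'' s'')) : Nonempty (DIso S s S'' s'') := by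
  obtain ⟨e⟩ := h
  obtain ⟨e'⟩ := h'
  exact ⟨⟨⟨e.φ.trans e'.φ, fun x y hxy => e'.rot _ _ (e.rot x y hxy),
    fun x y => (e.arc x y).trans (e'.arc _ _), fun x => (e.upper x).trans (e'.upper _)⟩,
    e.comps.trans e'.comps⟩⟩

private theorem pw_wsp {V V' : Type} [Fintype V] [Fintype V'] {S : Shadow V} {s : V → St}
    {S' : Shadow V'} {s' : V' → St} (h : WsP S s S' s') : Nonempty (DIso S s S' s') := by
  obtain ⟨e, he⟩ := h
  exact e.diso _ _ he

theorem pure_word (w : List (ZMod 4)) :
    Nonempty (DIso ((PW w).dia Ex.leaf) (ov _) (wD (alt 3 :: (w.map alt ++ [alt 3])))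
      (wDS St.smA (alt 3 :: (w.map alt ++ [alt 3])) St.smA)) := by
  have h0 : (ov ((PW w).Lv ⊕ Unit)) = Sum.elim (ov _) (fun _ : Unit => St.over1) := by
    funext x
    rcases x with x | x <;> rfl
  have h1 := (tm_word w).glue leafT (fun _ => St.over1)
  have h2 := pw_wsp (ws_comm (wT (w.map alt ++ [alt 3])) leafT
    (wS St.smA (w.map alt ++ [alt 3])) (fun _ => St.over1))
  have h3 : TM leafT (fun _ => St.over1) (app leafT 1)
      (Sum.elim (fun _ => St.smA) (slot St.over0)) := tm_leaf.trans (tm_base 2 1 St.over1 rfl)
  have h4 := h3.glue (wT (w.map alt ++ [alt 3])) (wS St.smA (w.map alt ++ [alt 3]))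
  have h5 := pw_wsp (ws_reroot leafT (wT (w.map alt ++ [alt 3])) 1 (fun _ => St.smA)
    (slot St.over0) (wS St.smA (w.map alt ++ [alt 3])))
  have h6 := pw_wsp (ws_comm leafT (app (wT (w.map alt ++ [alt 3])) (-1)) (fun _ => St.smA)
    (Sum.elim (wS St.smA (w.map alt ++ [alt 3])) (slot St.over0)))
  have h7 := pw_trans h1 (pw_trans h2 (pw_trans h4 (pw_trans h5 h6)))
  rw [← h0] at h7
  exact h7

theorem planar_pw (w : List (ZMod 4)) : Planar ((PW w).dia Ex.leaf) (ov _) := by
  obtain ⟨e⟩ := pure_word w
  exact Planar.iso e.toDMap.symm (planar_word _ _)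

/-- the pure diagram of a word -/
def pwD (w : List (ZMod 4)) : Dia where
  V := (PW w).Lv ⊕ Ex.leaf.Lv
  S := (PW w).dia Ex.leaf
  s := ov _
  planar := planar_pw w

/-- the position of a block -/
private def pP (b : Bool) : ZMod 4 := if b = true then 3 else 2

/-- the direction of the last block -/
private def lastP : List (ZMod 4) → Bool → Bool
  | [], b => b
  | p :: w, _ => lastP w (par p)

private theorem cw_cons (x : ℕ) (l : List ℕ) (b : Bool) :
    cw (x :: l) b = List.replicate x (alt (pP b)) ++ cw l (!b) := rfl

private theorem cw_blocks (w : List (ZMod 4)) : ∀ (b : Bool) (k : ℕ),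
    cw (blocks w b k) b = List.replicate k (alt (pP b)) ++
      (w.map (fun p => alt (pP (par p))) ++ [alt (pP (lastP w b))]) := by
  induction w with
  | nil =>
    intro b k
    show cw [k + 1] b = _
    rw [cw_cons, List.replicate_succ']
    simp [cw, lastP]
  | cons p w ih =>
    intro b k
    by_cases hb : b = par p
    · have e1 : blocks (p :: w) b k = blocks w b (k + 1) := if_pos hb
      rw [e1, ih, List.replicate_succ', List.map_cons]
      have e2 : lastP (p :: w) b = lastP w b := by rw [hb]; rfl
      rw [e2, ← hb]
      simp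
    · have e1 : blocks (p :: w) b k = k :: blocks w (!b) 1 := if_neg hb
      have e3 : par p = !b := by
        cases b <;> cases h : par p <;> simp_all
      have e2 : lastP (p :: w) b = lastP w (!b) := by
        rw [← e3]
        rfl
      rw [e1, cw_cons, ih, List.map_cons, e2, e3]
      simp

private theorem len_blocks (w : List (ZMod 4)) : ∀ (b : Bool) (k : ℕ),
    (blocks w b k).length % 2 = if lastP w b = b then 1 else 0 := by
  induction w with
  | nil =>
    intro b k
    have e1 : lastP [] b = b := rfl
    rw [e1, if_pos rfl]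
    rfl
  | cons p w ih =>
    intro b k
    by_cases hb : b = par p
    · have e1 : blocks (p :: w) b k = blocks w b (k + 1) := if_pos hb
      have e2 : lastP (p :: w) b = lastP w b := by rw [hb]; rfl
      rw [e1, e2, ih]
    · have e1 : blocks (p :: w) b k = k :: blocks w (!b) 1 := if_neg hb
      have e3 : par p = !b := by
        cases b <;> cases h : par p <;> simp_all
      have e2 : lastP (p :: w) b = lastP w (!b) := by
        rw [← e3]
        rfl
      have e4 := ih (!b) 1
      rw [e1, e2, List.length_cons]
      by_cases h : lastP w (!b) = !b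
      · rw [if_pos h] at e4
        have h' : ¬ lastP w (!b) = b := by
          rw [h]
          cases b <;> decide
        rw [if_neg h']
        omega
      · rw [if_neg h] at e4
        have h' : lastP w (!b) = b := by
          cases b <;> cases h1 : lastP w _ <;> simp_all
        rw [if_pos h']
        omega

private theorem cq_exp (w : List (ZMod 4)) : cq (expansion w) = bst (pP (lastP w true)) := by
  unfold cq expansion
  rw [len_blocks]
  cases lastP w true <;> rfl

private theorem cw_exp (w : List (ZMod 4)) : cw (expansion w) true =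
    alt 3 :: (w.map (fun p => alt (pP (par p))) ++ [alt (pP (lastP w true))]) :=
  cw_blocks w true 1

private theorem alt_pP : ∀ p : ZMod 4, (alt (pP (par p))).2 = (alt p).2 ∧
    ((alt (pP (par p))).1 = (alt p).1 ∨ (alt (pP (par p))).1 = (alt p).1 + 2) := by decide

theorem pure_conway (w : List (ZMod 4)) : Same (pwD w) (conway (expansion w)) := by
  obtain ⟨e⟩ := pure_word w
  have h1 : Same (pwD w) (Dg St.smA (alt 3 :: (w.map alt ++ [alt 3])) St.smA) :=
    Relation.EqvGen.rel _ _ (Step.iso _ _ e)
  have h2 : Same (Dg St.smA (alt 3 :: (w.map alt ++ [alt 3])) St.smA)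
      (Dg St.smA (alt 3 :: (w.map (fun p => alt (pP (par p))) ++ [alt 3])) St.smA) := by
    apply flype_any St.smA St.smA rfl rfl
    · intro l hl
      rcases List.mem_cons.1 hl with rfl | hl
      · rfl
      · rcases List.mem_append.1 hl with hl | hl
        · obtain ⟨p, _, rfl⟩ := List.mem_map.1 hl
          exact pwg_X p
        · rw [List.mem_singleton.1 hl]
          rfl
    · refine List.Forall₂.cons ⟨rfl, Or.inl rfl⟩ ?_
      induction w with
      | nil => exact List.Forall₂.cons ⟨rfl, Or.inl rfl⟩ List.Forall₂.nil
      | cons p w ih => exact List.Forall₂.cons (alt_pP p) (ih (pure_word w).some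
          (Relation.EqvGen.rel _ _ (Step.iso _ _ (pure_word w).some)))
  have h3 : Same (Dg St.smA (alt 3 :: (w.map (fun p => alt (pP (par p))) ++ [alt 3])) St.smA)
      (conway (expansion w)) := by
    unfold conway
    rw [cq_exp, cw_exp]
    cases lastP w true with
    | true => exact Relation.EqvGen.refl _
    | false =>
      have h4 := dg_base St.smA (alt 3 :: w.map (fun p => alt (pP (par p)))) 3 2 St.over0 rfl
      exact h4
  exact (h1.trans _ _ _ h2).trans _ _ _ h3

private theorem card_addLeaf (p : ZMod 4) (E : Ex) :
    Nat.card (addLeaf p E).Lv = Nat.card E.Lv + 1 := by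
  have h0 : Nat.card Unit = 1 := Nat.card_unique
  have h1 : Nat.card (Unit ⊕ E.Lv) = Nat.card E.Lv + 1 := by
    rw [Nat.card_sum, h0, add_comm]
  have h2 : Nat.card (E.Lv ⊕ Unit) = Nat.card E.Lv + 1 := by
    rw [Nat.card_sum, h0]
  rcases z4c p with rfl | rfl | rfl | rfl
  · exact h1
  · exact h1
  · exact h2
  · exact h2

private theorem card_PW (w : List (ZMod 4)) : Nat.card (PW w).Lv = w.length + 1 := by
  induction w with
  | nil =>
    have h0 : Nat.card Unit = 1 := Nat.card_unique
    exact h0
  | cons p w ih =>
    rw [List.length_cons, ← ih]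
    exact card_addLeaf p (PW w)

theorem pwD_n (w : List (ZMod 4)) : (pwD w).n = w.length + 2 := by
  have h1 : (pwD w).n = Nat.card ((PW w).Lv ⊕ Unit) := by
    have h2 : (Finset.univ.filter fun v : (pwD w).V => ((pwD w).s v).isX = true) = Finset.univ :=
      Finset.filter_true_of_mem (fun _ _ => rfl)
    unfold Dia.n nX
    rw [h2, Finset.card_univ, ← Nat.card_eq_fintype_card]
    rfl
  have h0 : Nat.card Unit = 1 := Nat.card_unique
  rw [h1, Nat.card_sum, card_PW, h0]

private theorem sum_blocks (w : List (ZMod 4)) : ∀ (b : Bool) (k : ℕ),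
    (blocks w b k).sum = w.length + k + 1 := by
  induction w with
  | nil =>
    intro b k
    simp [blocks]
  | cons p w ih =>
    intro b k
    by_cases hb : b = par p
    · have e1 : blocks (p :: w) b k = blocks w b (k + 1) := if_pos hb
      rw [e1, ih, List.length_cons]
      omega
    · have e1 : blocks (p :: w) b k = k :: blocks w (!b) 1 := if_neg hb
      rw [e1, List.sum_cons, ih, List.length_cons]
      omega

theorem expansion_sum (w : List (ZMod 4)) : (expansion w).sum = w.length + 2 := by
  unfold expansion
  rw [sum_blocks]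

private theorem pos_blocks (w : List (ZMod 4)) : ∀ (b : Bool) (k : ℕ), 0 < k →
    blocks w b k ≠ [] ∧ ∀ x ∈ blocks w b k, 0 < x := by
  induction w with
  | nil =>
    intro b k hk
    simp [blocks]
  | cons p w ih =>
    intro b k hk
    by_cases hb : b = par p
    · have e1 : blocks (p :: w) b k = blocks w b (k + 1) := if_pos hb
      rw [e1]
      exact ih b (k + 1) (by omega)
    · have e1 : blocks (p :: w) b k = k :: blocks w (!b) 1 := if_neg hb
      rw [e1]
      refine ⟨List.cons_ne_nil _ _, ?_⟩
      intro x hx
      rcases List.mem_cons.1 hx with rfl | hx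
      · exact hk
      · exact (ih (!b) 1 one_pos).2 x hx

theorem expansion_pos (w : List (ZMod 4)) :
    expansion w ≠ [] ∧ ∀ x ∈ expansion w, 0 < x := pos_blocks w true 1 one_pos

end Pool.Agent.Helper65.LK
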