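import Pool.Agent.Helper65.LK.Dihedral

/-!
# LK-87. Diagrams with three blocks are rich

`Walk B l e w ns`: a walk from `e` to `w` through the roots `ns`, with the list `l` of orders: two consecutive
roots are equal or have the product `cos (π / q)`.
`reach_h`: induction on `E`.  `leaf`: `l = []`, the constant colouring.  `v A B`: `l = [Q]`, `Q` from `exists_pq_v`;
the walk is `[e, w]`.  If `e = w`: the constant colouring.  If `B e w = cos (π / Q)`: `R` from `exists_family`,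
`HasPQ` with `a = 0`, `h = 1 / Q`, `v = 0` (`Q h = 1 = 0`): `k` is `1/Q, 0, 0, 1/Q` at the ports `0, 1, 2, 3`, and
`c = R ∘ k`: at a dart `(v, i)`, `i` odd (upper): `k (v, i + 2) = k (v, i)`; `i` even: `k (v, i + 2) = 2 k (v, i + 1) - k (v, i)`, so
`R (k (v, i + 2)) = R (k (v, i+1)) R (k (v, i)) R (k (v, i+1))`.  `h A B`: `l = l_A ++ l_B`, `Walk.split`, `TCol.hsum`.
`reach_v`: the same with top (ports `0, 1`) and bottom (ports `2, 3`); `h A B`: `exists_pq_h`, `HasPQ` with `a = 0`, `h = 0`,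
`v = - 1 / P`: `k` is `0, 0, 1/P, 1/P` at the ports `0, 1, 2, 3`; `v A B`: `TCol.vsum`.
`rich_hc`: `l_E ++ l_C = q₁ :: q₂ :: q₃ :: l`; `B` from `exists_form` with `cos (π / qᵢ)`; the walk
`e3 0, e3 1, e3 2, e3 0, e3 0, ..., e3 0`.  Split it: `E` from `e3 0` (left) to `m` (right), `C` from `m` (left) to `e3 0` (right).
The port `i` of `E` is joined with the port `1 - i` of `C`: right with left.  `TCol.glue`, `wr_top`.
`rich_vc`: top is joined with top, bottom with bottom: use the closed walk for `l_E ++ l_C.reverse`, `E` from `e3 0` to `m`,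
and the reverse of the second part, `C` from `e3 0` (top) to `m` (bottom).
-/

namespace Pool.Agent.Helper65.LK

/-- equal roots, or roots with the product `cos (π / q)` -/
def Adj (B : LinearMap.BilinForm ℝ (Fin 3 → ℝ)) (q : ℕ) (e e' : Fin 3 → ℝ) : Prop :=
  e = e' ∨ B e e' = Real.cos (Real.pi / q)

/-- walks -/
inductive Walk (B : LinearMap.BilinForm ℝ (Fin 3 → ℝ)) :
    List ℕ → (Fin 3 → ℝ) → (Fin 3 → ℝ) → List (Fin 3 → ℝ) → Prop
  | nil (e : Fin 3 → ℝ) (he : B e e = 1) : Walk B [] e e [e]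
  | cons {q : ℕ} {l : List ℕ} {e m w : Fin 3 → ℝ} {ns : List (Fin 3 → ℝ)} (he : B e e = 1)
      (h : Adj B q e m) (hw : Walk B l m w ns) : Walk B (q :: l) e w (e :: ns)

private theorem Walk.fst {B : LinearMap.BilinForm ℝ (Fin 3 → ℝ)} {l : List ℕ}
    {e w : Fin 3 → ℝ} {ns : List (Fin 3 → ℝ)} (h : Walk B l e w ns) : B e e = 1 ∧ B w w = 1 := by
  induction h with
  | nil e he => exact ⟨he, he⟩
  | cons he _ _ ih => exact ⟨he, ih.2⟩

private theorem Walk.snoc {B : LinearMap.BilinForm ℝ (Fin 3 → ℝ)} {q : ℕ} {l : List ℕ}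
    {e m w : Fin 3 → ℝ} {ns : List (Fin 3 → ℝ)} (h : Walk B l e m ns) (ha : Adj B q m w)
    (hw : B w w = 1) : Walk B (l ++ [q]) e w (ns ++ [w]) := by
  induction h with
  | nil e he => exact Walk.cons he ha (Walk.nil w hw)
  | cons he h1 _ ih => exact Walk.cons he h1 (ih ha)

theorem Walk.split {B : LinearMap.BilinForm ℝ (Fin 3 → ℝ)} {l₁ l₂ : List ℕ}
    {e w : Fin 3 → ℝ} {ns : List (Fin 3 → ℝ)} (h : Walk B (l₁ ++ l₂) e w ns) :
    ∃ m ns₁ ns₂, Walk B l₁ e m ns₁ ∧ Walk B l₂ m w ns₂ ∧ ∀ x ∈ ns, x ∈ ns₁ ∨ x ∈ ns₂ := by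
  induction l₁ generalizing e ns with
  | nil => exact ⟨e, [e], ns, Walk.nil e h.fst.1, h, fun x hx => Or.inr hx⟩
  | cons q l ih =>
    rw [List.cons_append] at h
    cases h with
    | cons he ha hw =>
      obtain ⟨m', ns₁, ns₂, h1, h2, h3⟩ := ih hw
      refine ⟨m', e :: ns₁, ns₂, Walk.cons he ha h1, h2, fun x hx => ?_⟩
      rcases List.mem_cons.1 hx with rfl | hx
      · exact Or.inl (List.mem_cons_self ..)
      · rcases h3 x hx with h4 | h4
        · exact Or.inl (List.mem_cons_of_mem _ h4)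
        · exact Or.inr h4

theorem Walk.reverse {B : LinearMap.BilinForm ℝ (Fin 3 → ℝ)} (hB : ∀ x y, B x y = B y x)
    {l : List ℕ} {e w : Fin 3 → ℝ} {ns : List (Fin 3 → ℝ)} (h : Walk B l e w ns) :
    Walk B l.reverse w e ns.reverse := by
  induction h with
  | nil e he => exact Walk.nil e he
  | cons he ha _ ih =>
    rw [List.reverse_cons, List.reverse_cons]
    refine ih.snoc ?_ he
    rcases ha with h1 | h1
    · exact Or.inl h1.symm
    · exact Or.inr (by rw [hB]; exact h1)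

private theorem elim_over1 {V W : Type} :
    (Sum.elim (fun _ : V => St.over1) (fun _ : W => St.over1)) = fun _ => St.over1 := by
  funext x
  cases x <;> rfl

private theorem const_col {V : Type} (T : Tangle V) (B : LinearMap.BilinForm ℝ (Fin 3 → ℝ))
    (e : Fin 3 → ℝ) (he : B e e = 1) : TCol T (fun _ => St.over1) (fun _ => rfl3 B e) := by
  refine ⟨fun _ => rf_rfl3 B e he, fun _ _ _ => rfl, fun _ _ => rfl, fun _ _ => rfl, fun _ _ _ => ?_⟩
  rw [(rf_rfl3 B e he).1, one_mul]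

private theorem z4_odd : ∀ i : ZMod 4, decide (i = 1 ∨ i = 3) = true → i = 1 ∨ i = 3 := by decide

private theorem z4_even : ∀ i : ZMod 4, decide (i = 1 ∨ i = 3) = false → i = 0 ∨ i = 2 := by decide

private theorem lcol_col {V : Type} {T : Tangle V} {k : Dart V → RZ} (hk : LCol T k) {R : RZ → M3}
    (h1 : ∀ k, Rf (R k)) (h2 : ∀ m k, R m * R k * R m = R (m + m - k)) :
    TCol T (fun _ => St.over1) (fun x => R (k x)) := by
  refine ⟨fun _ => h1 _, fun x y hxy => by rw [hk.link x y hxy], fun x hx => absurd rfl hx, ?_, ?_⟩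
  · rintro ⟨v, j⟩ hj
    rcases z4_odd j hj with rfl | rfl
    · show R (k (v, 1 + 2)) = R (k (v, 1))
      rw [show (1 + 2 : ZMod 4) = 3 by decide, hk.ovr]
    · show R (k (v, 3 + 2)) = R (k (v, 3))
      rw [show (3 + 2 : ZMod 4) = 1 by decide, hk.ovr]
  · rintro ⟨v, j⟩ _ hj
    rcases z4_even j hj with rfl | rfl
    · show R (k (v, 0 + 2)) = R (k (v, 0 + 1)) * R (k (v, 0)) * R (k (v, 0 + 1))
      rw [h2, show (0 + 2 : ZMod 4) = 2 by decide, show (0 + 1 : ZMod 4) = 1 by decide, ← hk.und v]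
      congr 1
      abel
    · show R (k (v, 2 + 2)) = R (k (v, 2 + 1)) * R (k (v, 2)) * R (k (v, 2 + 1))
      rw [h2, show (2 + 2 : ZMod 4) = 0 by decide, show (2 + 1 : ZMod 4) = 3 by decide, hk.ovr,
        ← hk.und v]
      congr 1
      abel

private theorem nsmul_inv (Q : ℕ) (hQ : 2 ≤ Q) : Q • (((1 / Q : ℝ)) : RZ) = 0 := by
  have h1 : (Q : ℝ) ≠ 0 := by
    have : 0 < Q := by omega
    exact_mod_cast this.ne'
  rw [← AddCircle.coe_nsmul, nsmul_eq_mul, mul_one_div_cancel h1]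
  exact AddCircle.coe_period (1 : ℝ)

private theorem block {V : Type} (T : Tangle V) (B : LinearMap.BilinForm ℝ (Fin 3 → ℝ))
    (hB : ∀ x y, B x y = B y x) (Q : ℕ) (hQ : 2 ≤ Q) (p₀ p₁ p₂ p₃ : Bool)
    (hT : ∃ k, LCol T k ∧ k (T.port 0) = (if p₀ then (((1 / Q : ℝ)) : RZ) else 0) ∧
      k (T.port 1) = (if p₁ then (((1 / Q : ℝ)) : RZ) else 0) ∧
      k (T.port 2) = (if p₂ then (((1 / Q : ℝ)) : RZ) else 0) ∧
      k (T.port 3) = (if p₃ then (((1 / Q : ℝ)) : RZ) else 0))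
    (i₀ i₁ : ZMod 4)
    (hi₀ : ∀ k : ZMod 4 → RZ, k 0 = (if p₀ then (((1 / Q : ℝ)) : RZ) else 0) →
      k 1 = (if p₁ then (((1 / Q : ℝ)) : RZ) else 0) →
      k 2 = (if p₂ then (((1 / Q : ℝ)) : RZ) else 0) →
      k 3 = (if p₃ then (((1 / Q : ℝ)) : RZ) else 0) → k i₀ = 0 ∧ k i₁ = (((1 / Q : ℝ)) : RZ))
    (e w : Fin 3 → ℝ) (ns : List (Fin 3 → ℝ)) (h : Walk B [Q] e w ns) :
    ∃ c, TCol T (fun _ => St.over1) c ∧ c (T.port 0) = rfl3 B (if p₀ then w else e) ∧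
      c (T.port 1) = rfl3 B (if p₁ then w else e) ∧ c (T.port 2) = rfl3 B (if p₂ then w else e) ∧
      c (T.port 3) = rfl3 B (if p₃ then w else e) ∧ ∀ x ∈ ns, ∃ y, c y = rfl3 B x := by
  obtain ⟨k, hk, h0, h1, h2, h3⟩ := hT
  obtain ⟨hk0, hk1⟩ := hi₀ (fun i => k (T.port i)) h0 h1 h2 h3
  cases h with
  | cons he ha hw =>
    cases hw with
    | nil _ hw =>
      rcases ha with h4 | h4
      · subst h4
        refine ⟨fun _ => rfl3 B e, const_col T B e he, ?_, ?_, ?_, ?_, fun x hx => ⟨T.port 0, ?_⟩⟩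
        · split_ifs <;> rfl
        · split_ifs <;> rfl
        · split_ifs <;> rfl
        · split_ifs <;> rfl
        · simp only [List.mem_cons, List.not_mem_nil, or_false, or_self] at hx
          rw [hx]
      · obtain ⟨R, hR1, hR2, hR3, hR4⟩ := exists_family B hB e w he hw Q hQ h4
        refine ⟨fun x => R (k x), lcol_col hk hR1 hR2, ?_, ?_, ?_, ?_, fun x hx => ?_⟩
        · show R (k (T.port 0)) = _
          rw [h0]; split_ifs <;> assumption
        · show R (k (T.port 1)) = _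
          rw [h1]; split_ifs <;> assumption
        · show R (k (T.port 2)) = _
          rw [h2]; split_ifs <;> assumption
        · show R (k (T.port 3)) = _
          rw [h3]; split_ifs <;> assumption
        · simp only [List.mem_cons, List.not_mem_nil, or_false] at hx
          rcases hx with rfl | rfl
          · refine ⟨T.port i₀, ?_⟩
            show R (k (T.port i₀)) = _
            rw [hk0, hR3]
          · refine ⟨T.port i₁, ?_⟩
            show R (k (T.port i₁)) = _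
            rw [hk1, hR4]

theorem reach_h (E : Ex) : ∃ l : List ℕ, l.length = E.hc ∧ (∀ q ∈ l, 2 ≤ q) ∧
    ∀ B : LinearMap.BilinForm ℝ (Fin 3 → ℝ), (∀ x y, B x y = B y x) → ∀ e w ns,
      Walk B l e w ns → ∃ c, TCol E.tg (fun _ => St.over1) c ∧ c (E.tg.port 1) = rfl3 B e ∧
        c (E.tg.port 2) = rfl3 B e ∧ c (E.tg.port 0) = rfl3 B w ∧
        c (E.tg.port 3) = rfl3 B w ∧ ∀ x ∈ ns, ∃ y, c y = rfl3 B x := by
  induction E with
  | leaf =>
    refine ⟨[], rfl, by simp, fun B hB e w ns h => ?_⟩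
    cases h with
    | nil _ he =>
      refine ⟨fun _ => rfl3 B e, const_col _ B e he, rfl, rfl, rfl, rfl, fun x hx => ⟨Ex.leaf.tg.port 0, ?_⟩⟩
      rw [List.mem_singleton.1 hx]
  | h A C ihA ihC =>
    obtain ⟨lA, hA1, hA2, hA3⟩ := ihA
    obtain ⟨lC, hC1, hC2, hC3⟩ := ihC
    refine ⟨lA ++ lC, by rw [List.length_append, hA1, hC1]; rfl, fun q hq => ?_, fun B hB e w ns h => ?_⟩
    · rcases List.mem_append.1 hq with h1 | h1
      · exact hA2 q h1
      · exact hC2 q h1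
    · obtain ⟨m, ns₁, ns₂, h1, h2, h3⟩ := h.split
      obtain ⟨c, hc, c1, c2, c0, c3, hcn⟩ := hA3 B hB e m ns₁ h1
      obtain ⟨d, hd, d1, d2, d0, d3, hdn⟩ := hC3 B hB m w ns₂ h2
      have h5 := hc.hsum hd (c0.trans d1.symm) (c3.trans d2.symm)
      rw [elim_over1] at h5
      refine ⟨jn c d, h5, c1, c2, d0, d3, fun x hx => ?_⟩
      rcases h3 x hx with h6 | h6
      · obtain ⟨y, hy⟩ := hcn x h6
        exact ⟨dl y, hy⟩
      · obtain ⟨y, hy⟩ := hdn x h6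
        exact ⟨dr y, hy⟩
  | v A C _ _ =>
    obtain ⟨P, Q, _, hQ, hPQ⟩ := exists_pq_v A C
    refine ⟨[Q], rfl, by simpa using hQ, fun B hB e w ns h => ?_⟩
    obtain ⟨k, hk, k0, k1, k2, k3⟩ := hPQ 0 (((1 / Q : ℝ)) : RZ) 0 (by rw [nsmul_inv Q hQ, smul_zero])
    obtain ⟨c, hc, c0, c1, c2, c3, hn⟩ := block (Ex.v A C).tg B hB Q hQ true false false true
      ⟨k, hk, by simpa using k0, by simpa using k1, by simpa using k2, by simpa using k3⟩
      1 0 (fun k h0 h1 _ _ => ⟨by simpa using h1, by simpa using h0⟩)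
      e w ns h
    exact ⟨c, hc, c1, c2, c0, c3, hn⟩

theorem reach_v (E : Ex) : ∃ l : List ℕ, l.length = E.vc ∧ (∀ q ∈ l, 2 ≤ q) ∧
    ∀ B : LinearMap.BilinForm ℝ (Fin 3 → ℝ), (∀ x y, B x y = B y x) → ∀ e w ns,
      Walk B l e w ns → ∃ c, TCol E.tg (fun _ => St.over1) c ∧ c (E.tg.port 0) = rfl3 B e ∧
        c (E.tg.port 1) = rfl3 B e ∧ c (E.tg.port 2) = rfl3 B w ∧
        c (E.tg.port 3) = rfl3 B w ∧ ∀ x ∈ ns, ∃ y, c y = rfl3 B x := by
  induction E with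
  | leaf =>
    refine ⟨[], rfl, by simp, fun B hB e w ns h => ?_⟩
    cases h with
    | nil _ he =>
      refine ⟨fun _ => rfl3 B e, const_col _ B e he, rfl, rfl, rfl, rfl, fun x hx => ⟨Ex.leaf.tg.port 0, ?_⟩⟩
      rw [List.mem_singleton.1 hx]
  | v A C ihA ihC =>
    obtain ⟨lA, hA1, hA2, hA3⟩ := ihA
    obtain ⟨lC, hC1, hC2, hC3⟩ := ihC
    refine ⟨lA ++ lC, by rw [List.length_append, hA1, hC1]; rfl, fun q hq => ?_, fun B hB e w ns h => ?_⟩
    · rcases List.mem_append.1 hq with h1 | h1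
      · exact hA2 q h1
      · exact hC2 q h1
    · obtain ⟨m, ns₁, ns₂, h1, h2, h3⟩ := h.split
      obtain ⟨c, hc, c0, c1, c2, c3, hcn⟩ := hA3 B hB e m ns₁ h1
      obtain ⟨d, hd, d0, d1, d2, d3, hdn⟩ := hC3 B hB m w ns₂ h2
      have h5 := hc.vsum hd (c2.trans d1.symm) (c3.trans d0.symm)
      rw [elim_over1] at h5
      refine ⟨jn c d, h5, c0, c1, d2, d3, fun x hx => ?_⟩
      rcases h3 x hx with h6 | h6
      · obtain ⟨y, hy⟩ := hcn x h6
        exact ⟨dl y, hy⟩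
      · obtain ⟨y, hy⟩ := hdn x h6
        exact ⟨dr y, hy⟩
  | h A C _ _ =>
    obtain ⟨P, Q, hP, _, hPQ⟩ := exists_pq_h A C
    refine ⟨[P], rfl, by simpa using hP, fun B hB e w ns h => ?_⟩
    obtain ⟨k, hk, k0, k1, k2, k3⟩ := hPQ 0 0 (-(((1 / P : ℝ)) : RZ))
      (by rw [smul_neg, nsmul_inv P hP, smul_zero, neg_zero])
    obtain ⟨c, hc, c0, c1, c2, c3, hn⟩ := block (Ex.h A C).tg B hB P hP false false true true
      ⟨k, hk, by simpa using k0, by simpa using k1, by simpa using k2, by simpa using k3⟩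
      1 2 (fun k _ h1 h2 _ => ⟨by simpa using h1, by simpa using h2⟩)
      e w ns h
    exact ⟨c, hc, c0, c1, c2, c3, hn⟩

private theorem const_walk (B : LinearMap.BilinForm ℝ (Fin 3 → ℝ)) (e : Fin 3 → ℝ) (he : B e e = 1)
    (l : List ℕ) : ∃ ns, Walk B l e e ns := by
  induction l with
  | nil => exact ⟨[e], Walk.nil e he⟩
  | cons q l ih =>
    obtain ⟨ns, h⟩ := ih
    exact ⟨e :: ns, Walk.cons he (Or.inl rfl) h⟩

private theorem tri_walk (l : List ℕ) (hl : 3 ≤ l.length) :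
    ∃ (B : LinearMap.BilinForm ℝ (Fin 3 → ℝ)) (ns : List (Fin 3 → ℝ)), (∀ x y, B x y = B y x) ∧
      (∀ i, B (e3 i) (e3 i) = 1) ∧ Walk B l (e3 0) (e3 0) ns ∧ ∀ i, e3 i ∈ ns := by
  match l, hl with
  | q₁ :: q₂ :: q₃ :: l, _ =>
    obtain ⟨B, hB, h1, h2, h3, h4⟩ := exists_form (Real.cos (Real.pi / q₁)) (Real.cos (Real.pi / q₂))
      (Real.cos (Real.pi / q₃))
    obtain ⟨ns, hns⟩ := const_walk B (e3 0) (h1 0) l
    refine ⟨B, e3 0 :: e3 1 :: e3 2 :: ns, hB, h1,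
      Walk.cons (h1 0) (Or.inr h2) (Walk.cons (h1 1) (Or.inr h3) (Walk.cons (h1 2) (Or.inr h4) hns)),
      fun i => ?_⟩
    fin_cases i <;> simp

private theorem z4_cases : ∀ i : ZMod 4, (i = 0 ∧ 1 - i = 1) ∨ (i = 1 ∧ 1 - i = 0) ∨
    (i = 2 ∧ 1 - i = 3) ∨ (i = 3 ∧ 1 - i = 2) := by decide

theorem rich_hc (E C : Ex) (h : 3 ≤ E.hc + C.hc) : Rich (E.dia C) (fun _ => St.over1) := by
  obtain ⟨lE, hE1, _, hE3⟩ := reach_h E
  obtain ⟨lC, hC1, _, hC3⟩ := reach_h C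
  obtain ⟨B, ns, hB, hB1, hw, hns⟩ := tri_walk (lE ++ lC) (by rw [List.length_append, hE1, hC1]; exact h)
  obtain ⟨m, ns₁, ns₂, h1, h2, h3⟩ := hw.split
  obtain ⟨c, hc, c1, c2, c0, c3, hcn⟩ := hE3 B hB _ _ ns₁ h1
  obtain ⟨d, hd, d1, d2, d0, d3, hdn⟩ := hC3 B hB _ _ ns₂ h2
  have h5 := hc.glue hd (fun i => by
    rcases z4_cases i with ⟨h6, h7⟩ | ⟨h6, h7⟩ | ⟨h6, h7⟩ | ⟨h6, h7⟩
    · rw [h7, h6, c0, d1]
    · rw [h7, h6, c1, d0]
    · rw [h7, h6, c2, d3]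
    · rw [h7, h6, c3, d2])
  rw [elim_over1] at h5
  refine ⟨jn c d, h5, wr_top B hB1 (jn c d) fun i => ?_⟩
  rcases h3 _ (hns i) with h6 | h6
  · obtain ⟨y, hy⟩ := hcn _ h6
    exact ⟨dl y, hy⟩
  · obtain ⟨y, hy⟩ := hdn _ h6
    exact ⟨dr y, hy⟩

theorem rich_vc (E C : Ex) (h : 3 ≤ E.vc + C.vc) : Rich (E.dia C) (fun _ => St.over1) := by
  obtain ⟨lE, hE1, _, hE3⟩ := reach_v E
  obtain ⟨lC, hC1, _, hC3⟩ := reach_v C
  obtain ⟨B, ns, hB, hB1, hw, hns⟩ := tri_walk (lE ++ lC.reverse)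
    (by rw [List.length_append, List.length_reverse, hE1, hC1]; exact h)
  obtain ⟨m, ns₁, ns₂, h1, h2, h3⟩ := hw.split
  have h2' := h2.reverse hB
  rw [List.reverse_reverse] at h2'
  obtain ⟨c, hc, c0, c1, c2, c3, hcn⟩ := hE3 B hB _ _ ns₁ h1
  obtain ⟨d, hd, d0, d1, d2, d3, hdn⟩ := hC3 B hB _ _ _ h2'
  have h5 := hc.glue hd (fun i => by
    rcases z4_cases i with ⟨h6, h7⟩ | ⟨h6, h7⟩ | ⟨h6, h7⟩ | ⟨h6, h7⟩
    · rw [h7, h6, c0, d1]
    · rw [h7, h6, c1, d0]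
    · rw [h7, h6, c2, d3]
    · rw [h7, h6, c3, d2])
  rw [elim_over1] at h5
  refine ⟨jn c d, h5, wr_top B hB1 (jn c d) fun i => ?_⟩
  rcases h3 _ (hns i) with h6 | h6
  · obtain ⟨y, hy⟩ := hcn _ h6
    exact ⟨dl y, hy⟩
  · obtain ⟨y, hy⟩ := hdn _ (List.mem_reverse.2 h6)
    exact ⟨dr y, hy⟩

end Pool.Agent.Helper65.LK
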