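import Pool.Agent.Helper65.LK.RichDefs
import Pool.Agent.Helper65.LK.Arcs

/-!
# LK-82. Colourings and the first two Reidemeister moves

`rich_R1`: the two diagrams have the same colourings.  Let `a = c (v, i) = c (v, i + 1)` (they are on the same
arc).  If `c` is a colouring of `(S, s)`: one of the two darts is upper, the other one is lower, so all four
darts at `v` have the colour `a` (`a a a = a`).  If `c` is a colouring for the state `turn i` at `v` (it joins
`i + 1, i + 2` and `i + 3, i`): an arc of `(S, s)` from `(v, i)` to `(v, i + 1)` runs only through smoothed vertices, so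
it is also contained in an arc of the new diagram (induction on `EqvGen`: the generating steps of `Arc S s` are
also steps of the new diagram, as `v` is a crossing in `(S, s)`),
so again all four colours are equal.

`rich_R2`: arcs `(v, i) ~ (w, j + 1)` and `(v, i + 1) ~ (w, j)` of `(S, s)`.  Let `A = {x | Arc S s (v, i) x}`,
`B = {x | Arc S s (v, i + 1) x}`; the only crossing darts in `A` are `(v, i)`, `(w, j + 1)`, the only ones in `B` are
`(v, i + 1)`, `(w, j)` (`Arcs.lean`: an arc has at most two crossing darts).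
(mp) `c` a colouring of `(S, s)`; `a = c (v, i + 2)`, `b = c (v, i + 3)`.  If `(v, i)` is upper then `(w, j + 1)` is upper,
 `c = a` on `A`, `c (w, j + 3) = a`, `c = a b a` on `B`, `c (w, j + 2) = b`.  If `(v, i)` is lower then `(v, i + 1)` and `(w, j)` are upper:
 `c = b` on `B`, `c (w, j + 2) = b`, `c = b a b` on `A`, `c (w, j + 3) = a`.  In both cases let `c' = b` on `A`, `c' = a` on `B`,
 `c' = c` elsewhere: it is a colouring of the new diagram: at `v` the darts `i + 1, i + 2` have the colour `a`,
 the darts `i + 3, i` the colour `b`; at `w` the darts `j + 3, j` the colour `a`, the darts `j + 1, j + 2` the colour `b`.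
 Every `Wr (c x)` is contained in `⨆ Wr (c' y)` (`Wr_conj`), so the supremum is again `⊤`.
(mpr) `c'` a colouring of the new diagram: `a = c' (v, i + 2)`, `b = c' (v, i + 3)`; then `c' (v, i + 1) = a`, `c' (w, j) = a`,
 `c' (w, j + 3) = a`, `c' (v, i) = b`, `c' (w, j + 1) = b`, `c' (w, j + 2) = b`.  Define `c = a` on `A`, `c = a b a` on `B` if `(v, i)` is upper,
 and `c = b a b` on `A`, `c = b` on `B` if it is lower, `c = c'` elsewhere.
-/

namespace Pool.Agent.Helper65.LK

open Function

variable {V : Type}

/-! ### local conditions -/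

/-- the conditions on a colouring at a vertex -/
private def Loc (t : St) (f : ZMod 4 → M3) : Prop :=
  (t.isX = false → ∀ k, f (t.mate k) = f k) ∧ (∀ k, t.upper k = true → f (t.mate k) = f k) ∧
    (t.isX = true → ∀ k, t.upper k = false → f (t.mate k) = f (k + 1) * f k * f (k + 1))

private theorem col_iff {S : Shadow V} {s : V → St} {c : Dart V → M3} :
    Col S s c ↔ (∀ x, Rf (c x)) ∧ (∀ x, c (S.α x) = c x) ∧
      ∀ u, Loc (s u) (fun k => c (u, k)) := by
  constructor
  · intro h
    refine ⟨h.rf, h.edge, fun u => ⟨fun hx k => h.smooth (u, k) ?_, fun k hk => h.ovr (u, k) hk,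
      fun hx k hk => h.und (u, k) hx hk⟩⟩
    intro h'
    have h2 : (s u).isX = true := h'
    rw [hx] at h2
    exact Bool.noConfusion h2
  · rintro ⟨h1, h2, h3⟩
    refine ⟨h1, h2, fun x hx => (h3 x.1).1 ?_ x.2, fun x hx => (h3 x.1).2.1 x.2 hx,
      fun x hx hu => (h3 x.1).2.2 hx x.2 hu⟩
    have h4 : ¬ (s x.1).isX = true := hx
    exact Bool.eq_false_of_not_eq_true h4

private theorem smooth_upper : ∀ (t : St) (k : ZMod 4), t.isX = false → t.upper k = false := by
  decide

private theorem cross_mate : ∀ (t : St) (k : ZMod 4), t.isX = true → t.mate k = k + 2 := by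
  decide

private theorem cross_upper1 : ∀ (t : St) (k : ZMod 4), t.isX = true →
    t.upper (k + 1) = !t.upper k := by
  decide

private theorem cross_upper2 : ∀ (t : St) (k : ZMod 4), t.isX = true →
    t.upper (k + 2) = t.upper k := by
  decide

private theorem turn_isX : ∀ i : ZMod 4, (St.turn i).isX = false := by decide

private theorem turn_mate : ∀ i : ZMod 4, (St.turn i).mate i = i + 3 ∧
    (St.turn i).mate (i + 1) = i + 2 ∧ (St.turn i).mate (i + 2) = i + 1 ∧
    (St.turn i).mate (i + 3) = i := by
  decide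

private theorem four (i : ZMod 4) : ∀ k : ZMod 4, k = i ∨ k = i + 1 ∨ k = i + 2 ∨ k = i + 3 := by
  revert i
  decide

private theorem loc_smooth {t : St} (ht : t.isX = false) {f : ZMod 4 → M3} :
    Loc t f ↔ ∀ k, f (t.mate k) = f k := by
  constructor
  · intro h
    exact h.1 ht
  · intro h
    refine ⟨fun _ => h, fun k _ => h k, fun h' => ?_⟩
    rw [ht] at h'
    exact Bool.noConfusion h'

private theorem loc_turn {i : ZMod 4} {f : ZMod 4 → M3} :
    Loc (St.turn i) f ↔ f (i + 1) = f (i + 2) ∧ f (i + 3) = f i := by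
  rw [loc_smooth (turn_isX i)]
  obtain ⟨h0, h1, h2, h3⟩ := turn_mate i
  constructor
  · intro h
    have e1 := h (i + 2)
    have e2 := h i
    rw [h2] at e1
    rw [h0] at e2
    exact ⟨e1, e2⟩
  · rintro ⟨e1, e2⟩ k
    rcases four i k with rfl | rfl | rfl | rfl
    · rw [h0, e2]
    · rw [h1, e1]
    · rw [h2, e1]
    · rw [h3, e2]

private theorem add12 (i : ZMod 4) : i + 1 + 2 = i + 3 := by revert i; decide
private theorem add22 (i : ZMod 4) : i + 2 + 2 = i := by revert i; decide
private theorem add32 (i : ZMod 4) : i + 3 + 2 = i + 1 := by revert i; decide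
private theorem add11 (i : ZMod 4) : i + 1 + 1 = i + 2 := by revert i; decide
private theorem add21 (i : ZMod 4) : i + 2 + 1 = i + 3 := by revert i; decide
private theorem add31 (i : ZMod 4) : i + 3 + 1 = i := by revert i; decide
private theorem add13 (i : ZMod 4) : i + 1 + 3 = i := by revert i; decide

private theorem loc_cross {t : St} (ht : t.isX = true) {i : ZMod 4} (hi : t.upper i = true)
    {f : ZMod 4 → M3} : Loc t f ↔ f (i + 2) = f i ∧
      f (i + 3) = f (i + 2) * f (i + 1) * f (i + 2) ∧ f (i + 1) = f i * f (i + 3) * f i := by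
  have u1 : t.upper (i + 1) = false := by rw [cross_upper1 t i ht, hi]; rfl
  have u2 : t.upper (i + 2) = true := by rw [cross_upper2 t i ht, hi]
  have u3 : t.upper (i + 3) = false := by
    have := cross_upper1 t (i + 2) ht
    rw [add21, u2] at this
    exact this
  constructor
  · rintro ⟨_, h1, h2⟩
    have e1 := h1 i hi
    have e2 := h2 ht (i + 1) u1
    have e3 := h2 ht (i + 3) u3
    rw [cross_mate t _ ht] at e1 e2 e3
    rw [add12, add11] at e2
    rw [add32, add31] at e3
    exact ⟨e1, e2, e3⟩
  · rintro ⟨e1, e2, e3⟩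
    refine ⟨fun h => ?_, fun k hk => ?_, fun _ k hk => ?_⟩
    · rw [ht] at h
      exact Bool.noConfusion h
    · rw [cross_mate t _ ht]
      rcases four i k with rfl | rfl | rfl | rfl
      · exact e1
      · rw [u1] at hk
        exact Bool.noConfusion hk
      · rw [add22, e1]
      · rw [u3] at hk
        exact Bool.noConfusion hk
    · rw [cross_mate t _ ht]
      rcases four i k with rfl | rfl | rfl | rfl
      · rw [hi] at hk
        exact Bool.noConfusion hk
      · rw [add12, add11]
        exact e2
      · rw [u2] at hk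
        exact Bool.noConfusion hk
      · rw [add32, add31]
        exact e3

private theorem loc_const {t : St} {f : ZMod 4 → M3} {a : M3} (ha : a * a = 1)
    (h : ∀ k, f k = a) : Loc t f := by
  refine ⟨fun _ k => ?_, fun k _ => ?_, fun _ k _ => ?_⟩
  · rw [h, h]
  · rw [h, h]
  · rw [h, h, h, ha, one_mul]

private theorem upper_or {t : St} (ht : t.isX = true) {i : ZMod 4} (hi : ¬ t.upper i = true) :
    t.upper (i + 1) = true := by
  rw [cross_upper1 t i ht]
  cases h : t.upper i
  · rfl
  · exact absurd h hi

private theorem inv3 {a : M3} (ha : a * a = 1) : a * a * a = a := by rw [ha, one_mul]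

private theorem inv5 {a b : M3} (ha : a * a = 1) : a * (a * b * a) * a = b := by
  have : a * (a * b * a) * a = (a * a) * b * (a * a) := by noncomm_ring
  rw [this, ha, one_mul, mul_one]

variable [Fintype V] [DecidableEq V] {S : Shadow V} {s : V → St}

omit [Fintype V] [DecidableEq V] in
private theorem arc_of {s' : V → St} (h : ∀ u, (s u).isX = false → s' u = s u) {x y : Dart V}
    (hxy : Arc S s x y) : Arc S s' x y := by
  refine hxy.mono ?_
  rintro a b (hab | ⟨hab, hb⟩)
  · exact Or.inl hab
  · right
    have h1 : ¬ (s a.1).isX = true := hab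
    have h2 := h a.1 (Bool.eq_false_of_not_eq_true h1)
    refine ⟨?_, ?_⟩
    · show ¬ (s' a.1).isX = true
      rw [h2]
      exact h1
    · rw [hb]
      show (a.1, (s a.1).mate a.2) = (a.1, (s' a.1).mate a.2)
      rw [h2]

omit [Fintype V] in
private theorem r1_iff {c : Dart V → M3} (v : V) (i : ZMod 4) (hv : (s v).isX = true)
    (h : Arc S s (v, i) (v, i + 1)) : Col S s c ↔ Col S (update s v (St.turn i)) c := by
  have hs' : ∀ u, u ≠ v → update s v (St.turn i) u = s u := fun u hu => update_of_ne hu _ _
  have hsv : update s v (St.turn i) v = St.turn i := update_self _ _ _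
  constructor
  · intro hc
    have ha : c (v, i) * c (v, i) = 1 := (hc.rf _).1
    have h1 : c (v, i + 1) = c (v, i) := hc.arc h
    obtain ⟨hr, he, hl⟩ := col_iff.1 hc
    refine col_iff.2 ⟨hr, he, fun u => ?_⟩
    by_cases hu : u = v
    · subst hu
      refine loc_const ha ?_
      have hlv := hl u
      by_cases hi : (s u).upper i = true
      · obtain ⟨e1, e2, _⟩ := (loc_cross hv hi).1 hlv
        intro k
        show c (u, k) = c (u, i)
        rcases four i k with rfl | rfl | rfl | rfl
        · rfl
        · exact h1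
        · exact e1
        · refine e2.trans ?_
          rw [show c (u, i + 2) = c (u, i) from e1, h1, inv3 ha]
      · obtain ⟨e1, e2, e3⟩ := (loc_cross hv (upper_or hv hi)).1 hlv
        simp only [add12, add13, add11] at e1 e2 e3
        intro k
        show c (u, k) = c (u, i)
        rcases four i k with rfl | rfl | rfl | rfl
        · rfl
        · exact h1
        · rw [e3, h1, inv3 ha]
        · rw [e1, h1]
    · rw [hs' u hu]
      exact hl u
  · intro hc
    have ha : c (v, i) * c (v, i) = 1 := (hc.rf _).1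
    have h1 : c (v, i + 1) = c (v, i) := hc.arc (arc_of (fun u hu => by
      have : u ≠ v := by
        rintro rfl
        rw [hv] at hu
        exact Bool.noConfusion hu
      exact hs' u this) h)
    obtain ⟨hr, he, hl⟩ := col_iff.1 hc
    refine col_iff.2 ⟨hr, he, fun u => ?_⟩
    by_cases hu : u = v
    · subst hu
      refine loc_const ha ?_
      have hlv := hl u
      rw [hsv] at hlv
      obtain ⟨e1, e2⟩ := loc_turn.1 hlv
      intro k
      show c (u, k) = c (u, i)
      rcases four i k with rfl | rfl | rfl | rfl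
      · rfl
      · exact h1
      · exact e1.symm.trans h1
      · exact e2
    · have := hl u
      rw [hs' u hu] at this
      exact this

theorem rich_R1 (v : V) (i : ZMod 4) (hv : (s v).isX = true) (h : Arc S s (v, i) (v, i + 1)) :
    Rich S s ↔ Rich S (update s v (St.turn i)) := by
  constructor
  · rintro ⟨c, hc, ht⟩
    exact ⟨c, (r1_iff v i hv h).1 hc, ht⟩
  · rintro ⟨c, hc, ht⟩
    exact ⟨c, (r1_iff v i hv h).2 hc, ht⟩

/-! ### the second move -/

open Classical in
/-- change of a colouring on two sets -/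
private noncomputable def md (A B : Set (Dart V)) (p q : M3) (c : Dart V → M3) (x : Dart V) : M3 :=
  if x ∈ A then p else if x ∈ B then q else c x

omit [Fintype V] [DecidableEq V] in
private theorem md_A {A B : Set (Dart V)} {p q : M3} {c : Dart V → M3} {x : Dart V} (h : x ∈ A) :
    md A B p q c x = p := if_pos h

omit [Fintype V] [DecidableEq V] in
private theorem md_B {A B : Set (Dart V)} {p q : M3} {c : Dart V → M3} {x : Dart V} (h : x ∉ A)
    (h' : x ∈ B) : md A B p q c x = q := by
  unfold md
  rw [if_neg h, if_pos h']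

omit [Fintype V] [DecidableEq V] in
private theorem md_C {A B : Set (Dart V)} {p q : M3} {c : Dart V → M3} {x : Dart V} (h : x ∉ A)
    (h' : x ∉ B) : md A B p q c x = c x := by
  unfold md
  rw [if_neg h, if_neg h']

omit [Fintype V] [DecidableEq V] in
private theorem md_congr {A B : Set (Dart V)} {p q : M3} {c : Dart V → M3} {x y : Dart V}
    (hA : x ∈ A ↔ y ∈ A) (hB : x ∈ B ↔ y ∈ B) (hc : c x = c y) :
    md A B p q c x = md A B p q c y := by
  by_cases h : x ∈ A
  · rw [md_A h, md_A (hA.1 h)]
  · have h' : y ∉ A := fun h' => h (hA.2 h')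
    by_cases h2 : x ∈ B
    · rw [md_B h h2, md_B h' (hB.1 h2)]
    · rw [md_C h h2, md_C h' fun h3 => h2 (hB.2 h3), hc]

omit [Fintype V] [DecidableEq V] in
private theorem md_col {s₁ s₂ : V → St} {v w : V} (h₁ : ∀ u, u ≠ v → u ≠ w → s₁ u = s u)
    (h₂ : ∀ u, u ≠ v → u ≠ w → s₂ u = s u) {A B : Set (Dart V)} {p q : M3} {c : Dart V → M3}
    (hp : Rf p) (hq : Rf q) (hc : Col S s₁ c)
    (hA1 : ∀ x, S.α x ∈ A ↔ x ∈ A) (hB1 : ∀ x, S.α x ∈ B ↔ x ∈ B)
    (hA2 : ∀ x, ¬ isC s x → (tau s x ∈ A ↔ x ∈ A)) (hB2 : ∀ x, ¬ isC s x → (tau s x ∈ B ↔ x ∈ B))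
    (hA3 : ∀ x ∈ A, isC s x → x.1 = v ∨ x.1 = w) (hB3 : ∀ x ∈ B, isC s x → x.1 = v ∨ x.1 = w)
    (hv : Loc (s₂ v) (fun k => md A B p q c (v, k)))
    (hw : Loc (s₂ w) (fun k => md A B p q c (w, k))) : Col S s₂ (md A B p q c) := by
  obtain ⟨hr, he, hl⟩ := col_iff.1 hc
  refine col_iff.2 ⟨fun x => ?_, fun x => md_congr (hA1 x) (hB1 x) (he x), fun u => ?_⟩
  · by_cases h : x ∈ A
    · rw [md_A h]
      exact hp
    · by_cases h2 : x ∈ B
      · rw [md_B h h2]
        exact hq
      · rw [md_C h h2]
        exact hr x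
  · by_cases huv : u = v
    · rw [huv]
      exact hv
    · by_cases huw : u = w
      · rw [huw]
        exact hw
      · have hlu := hl u
        rw [h₁ u huv huw] at hlu
        rw [h₂ u huv huw]
        by_cases hx : (s u).isX = true
        · have e : (fun k => md A B p q c (u, k)) = fun k => c (u, k) := by
            funext k
            refine md_C (fun h => ?_) (fun h => ?_)
            · rcases hA3 _ h hx with h' | h'
              · exact huv h'
              · exact huw h'
            · rcases hB3 _ h hx with h' | h'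
              · exact huv h'
              · exact huw h'
          rw [e]
          exact hlu
        · have hx' := Bool.eq_false_of_not_eq_true hx
          rw [loc_smooth hx'] at hlu ⊢
          intro k
          exact md_congr (hA2 (u, k) hx) (hB2 (u, k) hx) (hlu k)

private theorem arc_alpha {a x : Dart V} : Arc S s a (S.α x) ↔ Arc S s a x := by
  have h : Arc S s x (S.α x) := Relation.EqvGen.rel _ _ (Or.inl rfl)
  exact ⟨fun h' => Relation.EqvGen.trans _ _ _ h' (Relation.EqvGen.symm _ _ h),
    fun h' => Relation.EqvGen.trans _ _ _ h' h⟩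

private theorem arc_tau {a x : Dart V} (hx : ¬ isC s x) : Arc S s a (tau s x) ↔ Arc S s a x := by
  have h : Arc S s x (tau s x) := Relation.EqvGen.rel _ _ (Or.inr ⟨hx, rfl⟩)
  exact ⟨fun h' => Relation.EqvGen.trans _ _ _ h' (Relation.EqvGen.symm _ _ h),
    fun h' => Relation.EqvGen.trans _ _ _ h' h⟩

private theorem arc_ends {x y z : Dart V} (hx : isC s x) (hy : isC s y) (hz : isC s z)
    (hxy : Arc S s x y) (hxz : Arc S s x z) (hne : y ≠ x) : z = x ∨ z = y := by
  obtain ⟨_, _, _, h4⟩ := partner_spec (Cr s) S s x hx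
  rcases h4 y hy hxy with h | h
  · exact absurd h hne
  · rcases h4 z hz hxz with h' | h'
    · exact Or.inl h'
    · exact Or.inr (h'.trans h.symm)

private theorem sup_top {c c' : Dart V → M3} (hc : (⨆ x, Wr (c x)) = ⊤)
    (h : ∀ x, Wr (c x) ≤ ⨆ y, Wr (c' y)) : (⨆ y, Wr (c' y)) = ⊤ := by
  rw [← top_le_iff, ← hc]
  exact iSup_le h

private theorem one_ne (i : ZMod 4) : i + 1 ≠ i := by revert i; decide
private theorem two_ne (i : ZMod 4) : i + 2 ≠ i := by revert i; decide
private theorem three_ne (i : ZMod 4) : i + 3 ≠ i := by revert i; decide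
private theorem two_ne1 (i : ZMod 4) : i + 2 ≠ i + 1 := by revert i; decide
private theorem three_ne1 (i : ZMod 4) : i + 3 ≠ i + 1 := by revert i; decide

theorem rich_R2 (v w : V) (i j : ZMod 4) (hvw : v ≠ w) (hv : (s v).isX = true)
    (hw : (s w).isX = true) (h1 : Arc S s (v, i) (w, j + 1)) (h2 : Arc S s (v, i + 1) (w, j))
    (hup : (s v).upper i = (s w).upper (j + 1)) :
    Rich S s ↔ Rich S (update (update s v (St.turn i)) w (St.turn j)) := by
  set s' := update (update s v (St.turn i)) w (St.turn j) with hs'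
  have hs'u : ∀ u, u ≠ v → u ≠ w → s' u = s u := by
    intro u hu1 hu2
    rw [hs', update_of_ne hu2, update_of_ne hu1]
  have hs'v : s' v = St.turn i := by rw [hs', update_of_ne hvw, update_self]
  have hs'w : s' w = St.turn j := by rw [hs', update_self]
  set A : Set (Dart V) := {x | Arc S s (v, i) x} with hA
  set B : Set (Dart V) := {x | Arc S s (v, i + 1) x} with hB
  have hAC : ∀ x ∈ A, isC s x → x = (v, i) ∨ x = (w, j + 1) := fun x hx hC =>
    arc_ends hv hw hC h1 hx fun h => hvw (congrArg Prod.fst h).symm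
  have hBC : ∀ x ∈ B, isC s x → x = (v, i + 1) ∨ x = (w, j) := fun x hx hC =>
    arc_ends hv hw hC h2 hx fun h => hvw (congrArg Prod.fst h).symm
  have hvA : ∀ k, (v, k) ∈ A → k = i := by
    intro k hk
    rcases hAC _ hk hv with h | h
    · exact congrArg Prod.snd h
    · exact absurd (congrArg Prod.fst h) hvw
  have hwA : ∀ k, (w, k) ∈ A → k = j + 1 := by
    intro k hk
    rcases hAC _ hk hw with h | h
    · exact absurd (congrArg Prod.fst h).symm hvw
    · exact congrArg Prod.snd h
  have hvB : ∀ k, (v, k) ∈ B → k = i + 1 := by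
    intro k hk
    rcases hBC _ hk hv with h | h
    · exact congrArg Prod.snd h
    · exact absurd (congrArg Prod.fst h) hvw
  have hwB : ∀ k, (w, k) ∈ B → k = j := by
    intro k hk
    rcases hBC _ hk hw with h | h
    · exact absurd (congrArg Prod.fst h).symm hvw
    · exact congrArg Prod.snd h
  have hviA : ((v, i) : Dart V) ∈ A := Relation.EqvGen.refl _
  have hviB : ((v, i + 1) : Dart V) ∈ B := Relation.EqvGen.refl _
  -- the values of a modified colouring at `v` and `w`
  have val : ∀ (p q : M3) (c : Dart V → M3),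
      md A B p q c (v, i) = p ∧ md A B p q c (v, i + 1) = q ∧
      md A B p q c (v, i + 2) = c (v, i + 2) ∧ md A B p q c (v, i + 3) = c (v, i + 3) ∧
      md A B p q c (w, j) = q ∧ md A B p q c (w, j + 1) = p ∧
      md A B p q c (w, j + 2) = c (w, j + 2) ∧ md A B p q c (w, j + 3) = c (w, j + 3) := by
    intro p q c
    exact ⟨md_A hviA, md_B (fun h => one_ne i (hvA _ h)) hviB,
      md_C (fun h => two_ne i (hvA _ h)) (fun h => two_ne1 i (hvB _ h)),
      md_C (fun h => three_ne i (hvA _ h)) (fun h => three_ne1 i (hvB _ h)),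
      md_B (fun h => one_ne j (hwA _ h).symm) h2, md_A h1,
      md_C (fun h => two_ne1 j (hwA _ h)) (fun h => two_ne j (hwB _ h)),
      md_C (fun h => three_ne1 j (hwA _ h)) (fun h => three_ne j (hwB _ h))⟩
  have col : ∀ {s₁ s₂ : V → St} (_ : ∀ u, u ≠ v → u ≠ w → s₁ u = s u)
      (_ : ∀ u, u ≠ v → u ≠ w → s₂ u = s u) {p q : M3} {c : Dart V → M3} (_ : Rf p) (_ : Rf q)
      (_ : Col S s₁ c) (_ : Loc (s₂ v) (fun k => md A B p q c (v, k)))
      (_ : Loc (s₂ w) (fun k => md A B p q c (w, k))), Col S s₂ (md A B p q c) := by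
    intro s₁ s₂ e1 e2 p q c hp hq hc hlv hlw
    refine md_col e1 e2 hp hq hc (fun x => arc_alpha) (fun x => arc_alpha) (fun x => arc_tau)
      (fun x => arc_tau) ?_ ?_ hlv hlw
    · intro x hx hC
      rcases hAC x hx hC with h | h
      · exact Or.inl (congrArg Prod.fst h)
      · exact Or.inr (congrArg Prod.fst h)
    · intro x hx hC
      rcases hBC x hx hC with h | h
      · exact Or.inl (congrArg Prod.fst h)
      · exact Or.inr (congrArg Prod.fst h)
  constructor
  · rintro ⟨c, hc, ht⟩
    set a := c (v, i + 2) with ha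
    set b := c (v, i + 3) with hb
    have haa : a * a = 1 := (hc.rf _).1
    have hbb : b * b = 1 := (hc.rf _).1
    have e1 : c (w, j + 1) = c (v, i) := hc.arc h1
    have e2 : c (w, j) = c (v, i + 1) := hc.arc h2
    have hlv := (col_iff.1 hc).2.2 v
    have hlw := (col_iff.1 hc).2.2 w
    have key : c (w, j + 2) = b ∧ c (w, j + 3) = a ∧
        ((c (v, i) = a ∧ c (v, i + 1) = a * b * a) ∨
          (c (v, i) = b * a * b ∧ c (v, i + 1) = b)) := by
      by_cases hi : (s v).upper i = true
      · have hj : (s w).upper (j + 1) = true := hup ▸ hi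
        obtain ⟨f1, _, f3⟩ := (loc_cross hv hi).1 hlv
        obtain ⟨g1, _, g3⟩ := (loc_cross hw hj).1 hlw
        simp only [add12, add13, add11] at f1 f3 g1 g3
        have q1 : c (v, i) = a := f1.symm
        have q2 : c (v, i + 1) = a * b * a := by rw [f3, q1]
        refine ⟨?_, ?_, Or.inl ⟨q1, q2⟩⟩
        · rw [g3, e1, e2, q1, q2, inv5 haa]
        · rw [g1, e1, q1]
      · have hi' := upper_or hv hi
        have hj' : (s w).upper j = true := by
          by_contra hcon
          apply hi
          rw [hup]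
          exact upper_or hw hcon
        obtain ⟨f1, f2, _⟩ := (loc_cross hv hi').1 hlv
        obtain ⟨g1, g2, _⟩ := (loc_cross hw hj').1 hlw
        simp only [add12, add13, add11] at f1 f2 g1 g2
        have q1 : c (v, i + 1) = b := f1.symm
        have q2 : c (v, i) = b * a * b := f2
        have q3 : c (w, j + 2) = b := by rw [g1, e2, q1]
        refine ⟨q3, ?_, Or.inr ⟨q2, q1⟩⟩
        rw [g2, q3, e1, q2, inv5 hbb]
    obtain ⟨k1, k2, k3⟩ := key
    obtain ⟨m1, m2, m3, m4, m5, m6, m7, m8⟩ := val b a c
    refine ⟨md A B b a c, col (fun _ _ _ => rfl) hs'u (hc.rf _) (hc.rf _) hc ?_ ?_, ?_⟩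
    · rw [hs'v, loc_turn]
      exact ⟨m2.trans m3.symm, m4.trans m1.symm⟩
    · rw [hs'w, loc_turn]
      exact ⟨m6.trans (k1.symm.trans m7.symm), (m8.trans k2).trans m5.symm⟩
    · have wa : Wr a ≤ ⨆ y, Wr (md A B b a c y) := by
        refine le_trans (le_of_eq ?_) (le_iSup (fun y => Wr (md A B b a c y)) (v, i + 2))
        rw [m3]
      have wb : Wr b ≤ ⨆ y, Wr (md A B b a c y) := by
        refine le_trans (le_of_eq ?_) (le_iSup (fun y => Wr (md A B b a c y)) (v, i + 3))
        rw [m4]
      refine sup_top ht fun x => ?_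
      by_cases hxA : x ∈ A
      · have hx : c x = c (v, i) := hc.arc hxA
        rw [hx]
        rcases k3 with ⟨k3, _⟩ | ⟨k3, _⟩
        · rw [k3]
          exact wa
        · rw [k3]
          exact (Wr_conj hbb).trans (sup_le wb wa)
      · by_cases hxB : x ∈ B
        · have hx : c x = c (v, i + 1) := hc.arc hxB
          rw [hx]
          rcases k3 with ⟨_, k3⟩ | ⟨_, k3⟩
          · rw [k3]
            exact (Wr_conj haa).trans (sup_le wa wb)
          · rw [k3]
            exact wb
        · refine le_trans (le_of_eq ?_) (le_iSup (fun y => Wr (md A B b a c y)) x)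
          rw [md_C hxA hxB]
  · rintro ⟨c, hc, ht⟩
    set a := c (v, i + 2) with ha
    set b := c (v, i + 3) with hb
    have haR : Rf a := hc.rf _
    have hbR : Rf b := hc.rf _
    have haa : a * a = 1 := haR.1
    have hbb : b * b = 1 := hbR.1
    have harc : ∀ {x y : Dart V}, Arc S s x y → c y = c x := fun {x y} h => hc.arc (arc_of
      (fun u hu => hs'u u (by
        rintro rfl
        rw [hv] at hu
        exact Bool.noConfusion hu) (by
        rintro rfl
        rw [hw] at hu
        exact Bool.noConfusion hu)) h)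
    have e1 : c (w, j + 1) = c (v, i) := harc h1
    have e2 : c (w, j) = c (v, i + 1) := harc h2
    have hlv := (col_iff.1 hc).2.2 v
    have hlw := (col_iff.1 hc).2.2 w
    rw [hs'v, loc_turn] at hlv
    rw [hs'w, loc_turn] at hlw
    obtain ⟨f1, f2⟩ := hlv
    obtain ⟨g1, g2⟩ := hlw
    have k1 : c (v, i + 1) = a := f1
    have k2 : c (v, i) = b := f2.symm
    have k3 : c (w, j + 2) = b := by
      have : c (w, j + 1) = c (w, j + 2) := g1
      rw [← this, e1, k2]
    have k4 : c (w, j + 3) = a := by
      have : c (w, j + 3) = c (w, j) := g2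
      rw [this, e2, k1]
    have main : ∀ p q : M3, Rf p → Rf q →
        Loc (s v) (fun k => md A B p q c (v, k)) → Loc (s w) (fun k => md A B p q c (w, k)) →
        Rich S s := by
      intro p q hp hq hlv hlw
      obtain ⟨m1, m2, m3, m4, m5, m6, m7, m8⟩ := val p q c
      refine ⟨md A B p q c, col hs'u (fun _ _ _ => rfl) hp hq hc hlv hlw, ?_⟩
      have wa : Wr a ≤ ⨆ y, Wr (md A B p q c y) := by
        refine le_trans (le_of_eq ?_) (le_iSup (fun y => Wr (md A B p q c y)) (v, i + 2))
        rw [m3]
      have wb : Wr b ≤ ⨆ y, Wr (md A B p q c y) := by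
        refine le_trans (le_of_eq ?_) (le_iSup (fun y => Wr (md A B p q c y)) (v, i + 3))
        rw [m4]
      refine sup_top ht fun x => ?_
      by_cases hxA : x ∈ A
      · have hx : c x = c (v, i) := harc hxA
        rw [hx, k2]
        exact wb
      · by_cases hxB : x ∈ B
        · have hx : c x = c (v, i + 1) := harc hxB
          rw [hx, k1]
          exact wa
        · refine le_trans (le_of_eq ?_) (le_iSup (fun y => Wr (md A B p q c y)) x)
          rw [md_C hxA hxB]
    by_cases hi : (s v).upper i = true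
    · have hj : (s w).upper (j + 1) = true := hup ▸ hi
      obtain ⟨m1, m2, m3, m4, m5, m6, m7, m8⟩ := val a (a * b * a) c
      refine main a (a * b * a) haR (haR.conj hbR) ?_ ?_
      · rw [loc_cross hv hi]
        refine ⟨?_, ?_, ?_⟩
        · rw [m3, m1]
        · rw [m4, m3, m2, ← ha, ← hb, inv5 haa]
        · rw [m2, m1, m4]
      · rw [loc_cross hw hj]
        simp only [add12, add13, add11]
        refine ⟨?_, ?_, ?_⟩
        · rw [m8, m6, k4]
        · rw [m5, m8, m7, k4, k3]
        · rw [m7, m6, m5, k3, inv5 haa]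
    · have hi' := upper_or hv hi
      have hj' : (s w).upper j = true := by
        by_contra hcon
        apply hi
        rw [hup]
        exact upper_or hw hcon
      obtain ⟨m1, m2, m3, m4, m5, m6, m7, m8⟩ := val (b * a * b) b c
      refine main (b * a * b) b (hbR.conj haR) hbR ?_ ?_
      · rw [loc_cross hv hi']
        simp only [add12, add13, add11]
        refine ⟨?_, ?_, ?_⟩
        · rw [m4, m2]
        · rw [m1, m4, m3]
        · rw [m3, m2, m1, ← ha, inv5 hbb]
      · rw [loc_cross hw hj']
        refine ⟨?_, ?_, ?_⟩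
        · rw [m7, m5, k3]
        · rw [m8, m7, m6, k4, k3, inv5 hbb]
        · rw [m6, m5, m8, k4]

end Pool.Agent.Helper65.LK
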