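import Pool.Agent.Helper65.LK.Compress

/-!
# LK-17a. The triangle move: basic facts

`π = tri u i v j w k` is the product of six disjoint transpositions of the twelve darts at `u, v, w`
(`u, v, w` distinct); it maps the strand through a dart of one of the vertices to a strand of another
vertex: `π (x, a + 2) = π (x, a) + 2`, i.e. `π` commutes with `tau s` when `u, v, w` are crossings, and it
fixes all darts at other vertices.  The new involution is `α' = π α π⁻¹ = π α π`.
`conj_arc`, `conj_comp`: apply `π` to every step of a chain (`α' (π x) = π (α x)`, `tau s (π x) = π (tau s x)`;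
non-crossing darts are fixed by `π`, and so `isC s (π x) ↔ isC s x`).  `conj_sweep` follows: every
condition for `fun x => h (π x)` and `S.conj π` at `x` is the condition for `h` and `S` at `π x`
(`partner` for `S.conj π` at `x` is `π (partner at π x)`).
`conj_tri`: `(u, i+3) = π (v, j)` and `(v, j+2) = π (u, i+1)`, so `Arc (u, i+3) (v, j+2)` for `S.conj π`, etc.
`conj_conj`: `tri u (i+2) v (j+2) w (k+2) = tri u i v j w k`, and `π * π = 1`.
-/

namespace Pool.Agent.Helper65.LK

open Function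

variable {V : Type} [DecidableEq V]

/-- three crossings whose arcs bound a triangle -/
structure Tri (S : Shadow V) (s : V → St) (u : V) (i : ZMod 4) (v : V) (j : ZMod 4) (w : V)
    (k : ZMod 4) : Prop where
  uv : u ≠ v
  vw : v ≠ w
  wu : w ≠ u
  cu : (s u).isX = true
  cv : (s v).isX = true
  cw : (s w).isX = true
  a1 : Arc S s (u, i + 1) (v, j)
  a2 : Arc S s (v, j + 1) (w, k)
  a3 : Arc S s (w, k + 1) (u, i)

theorem lk17_z1 : (1 : ZMod 4) ≠ 0 := by decide
theorem lk17_z2 : (2 : ZMod 4) ≠ 0 := by decide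
theorem lk17_z3 : (3 : ZMod 4) ≠ 0 := by decide
theorem lk17_z12 : (1 : ZMod 4) ≠ 2 := by decide
theorem lk17_z13 : (1 : ZMod 4) ≠ 3 := by decide
theorem lk17_z23 : (2 : ZMod 4) ≠ 3 := by decide

theorem lk17_cases (a i : ZMod 4) : a = i ∨ a = i + 1 ∨ a = i + 2 ∨ a = i + 3 := by
  revert a i
  decide

theorem tri_apply {u v w : V} (i j k : ZMod 4) (uv : u ≠ v) (vw : v ≠ w) (wu : w ≠ u) :
    tri u i v j w k (u, i) = (w, k + 3) ∧ tri u i v j w k (u, i + 1) = (v, j + 2) ∧
    tri u i v j w k (u, i + 2) = (w, k + 1) ∧ tri u i v j w k (u, i + 3) = (v, j) ∧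
    tri u i v j w k (v, j) = (u, i + 3) ∧ tri u i v j w k (v, j + 1) = (w, k + 2) ∧
    tri u i v j w k (v, j + 2) = (u, i + 1) ∧ tri u i v j w k (v, j + 3) = (w, k) ∧
    tri u i v j w k (w, k) = (v, j + 3) ∧ tri u i v j w k (w, k + 1) = (u, i + 2) ∧
    tri u i v j w k (w, k + 2) = (v, j + 1) ∧ tri u i v j w k (w, k + 3) = (u, i) ∧
    ∀ x : Dart V, x.1 ≠ u → x.1 ≠ v → x.1 ≠ w → tri u i v j w k x = x := by
  have z1 := lk17_z1
  have z2 := lk17_z2
  have z3 := lk17_z3
  have z12 := lk17_z12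
  have z13 := lk17_z13
  have z23 := lk17_z23
  have vu := uv.symm
  have wv := vw.symm
  have uw := wu.symm
  refine ⟨?_, ?_, ?_, ?_, ?_, ?_, ?_, ?_, ?_, ?_, ?_, ?_, ?_⟩
  all_goals try
    simp [tri, Equiv.swap_apply_def, Prod.ext_iff, z1, z2, z3, z12, z13, z23, z1.symm, z2.symm,
      z3.symm, z12.symm, z13.symm, z23.symm, uv, vw, wu, vu, wv, uw]
  all_goals
    intro a b h1 h2 h3
    simp [h1, h2, h3]

/-- a property of all darts can be checked at the twelve darts of the triangle and at the others -/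
theorem lk17_ind (u v w : V) (i j k : ZMod 4) (P : Dart V → Prop)
    (u0 : P (u, i)) (u1 : P (u, i + 1)) (u2 : P (u, i + 2)) (u3 : P (u, i + 3))
    (v0 : P (v, j)) (v1 : P (v, j + 1)) (v2 : P (v, j + 2)) (v3 : P (v, j + 3))
    (w0 : P (w, k)) (w1 : P (w, k + 1)) (w2 : P (w, k + 2)) (w3 : P (w, k + 3))
    (h : ∀ x : Dart V, x.1 ≠ u → x.1 ≠ v → x.1 ≠ w → P x) (x : Dart V) : P x := by
  obtain ⟨x, a⟩ := x
  by_cases h1 : x = u
  · subst h1
    rcases lk17_cases a i with rfl | rfl | rfl | rfl <;> assumption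
  by_cases h2 : x = v
  · subst h2
    rcases lk17_cases a j with rfl | rfl | rfl | rfl <;> assumption
  by_cases h3 : x = w
  · subst h3
    rcases lk17_cases a k with rfl | rfl | rfl | rfl <;> assumption
  exact h (x, a) h1 h2 h3

theorem tri_invol {u v w : V} (i j k : ZMod 4) (uv : u ≠ v) (vw : v ≠ w) (wu : w ≠ u)
    (x : Dart V) : tri u i v j w k (tri u i v j w k x) = x := by
  obtain ⟨u0, u1, u2, u3, v0, v1, v2, v3, w0, w1, w2, w3, h⟩ := tri_apply i j k uv vw wu
  refine lk17_ind u v w i j k (fun x => tri u i v j w k (tri u i v j w k x) = x) ?_ ?_ ?_ ?_ ?_ ?_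
    ?_ ?_ ?_ ?_ ?_ ?_ ?_ x
  · rw [u0, w3]
  · rw [u1, v2]
  · rw [u2, w1]
  · rw [u3, v0]
  · rw [v0, u3]
  · rw [v1, w2]
  · rw [v2, u1]
  · rw [v3, w0]
  · rw [w0, v3]
  · rw [w1, u2]
  · rw [w2, v1]
  · rw [w3, u0]
  · intro x h1 h2 h3
    rw [h x h1 h2 h3, h x h1 h2 h3]

theorem tri_inv {u v w : V} (i j k : ZMod 4) (uv : u ≠ v) (vw : v ≠ w) (wu : w ≠ u) :
    (tri u i v j w k)⁻¹ = tri u i v j w k := by
  apply inv_eq_of_mul_eq_one_right
  apply Equiv.ext
  intro x
  exact tri_invol i j k uv vw wu x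

/-- the strands are respected -/
theorem tri_add_two {u v w : V} (i j k : ZMod 4) (uv : u ≠ v) (vw : v ≠ w) (wu : w ≠ u)
    (x : V) (a : ZMod 4) :
    tri u i v j w k (x, a + 2) = ((tri u i v j w k (x, a)).1, (tri u i v j w k (x, a)).2 + 2) := by
  obtain ⟨u0, u1, u2, u3, v0, v1, v2, v3, w0, w1, w2, w3, h⟩ := tri_apply i j k uv vw wu
  have e1 : ∀ a : ZMod 4, a + 1 + 2 = a + 3 := by decide
  have e2 : ∀ a : ZMod 4, a + 2 + 2 = a := by decide
  have e3 : ∀ a : ZMod 4, a + 3 + 2 = a + 1 := by decide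
  have key := lk17_ind u v w i j k (fun x => tri u i v j w k (x.1, x.2 + 2) =
    ((tri u i v j w k x).1, (tri u i v j w k x).2 + 2)) ?_ ?_ ?_ ?_ ?_ ?_
    ?_ ?_ ?_ ?_ ?_ ?_ ?_ (x, a)
  · exact key
  · simp only [u0, u2, e3]
  · simp only [e1, u1, u3, e2]
  · simp only [e2, u0, u2, e1]
  · simp only [e3, u1, u3]
  · simp only [v0, v2, e3]
  · simp only [e1, v1, v3, e2]
  · simp only [e2, v0, v2, e1]
  · simp only [e3, v1, v3]
  · simp only [w0, w2, e3]
  · simp only [e1, w1, w3, e2]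
  · simp only [e2, w0, w2, e1]
  · simp only [e3, w1, w3]
  · intro x h1 h2 h3
    rw [h x h1 h2 h3, h (x.1, x.2 + 2) h1 h2 h3]

theorem tri_rot {u v w : V} (i j k : ZMod 4) (uv : u ≠ v) (vw : v ≠ w) (wu : w ≠ u) :
    tri v j w k u i = tri u i v j w k ∧ tri u (i + 2) v (j + 2) w (k + 2) = tri u i v j w k := by
  obtain ⟨u0, u1, u2, u3, v0, v1, v2, v3, w0, w1, w2, w3, h⟩ := tri_apply i j k uv vw wu
  constructor
  · obtain ⟨b0, b1, b2, b3, c0, c1, c2, c3, a0, a1, a2, a3, h'⟩ := tri_apply j k i vw wu uv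
    apply Equiv.ext
    refine lk17_ind u v w i j k (fun x => tri v j w k u i x = tri u i v j w k x) ?_ ?_ ?_ ?_ ?_ ?_
      ?_ ?_ ?_ ?_ ?_ ?_ ?_
    · rw [u0, a0]
    · rw [u1, a1]
    · rw [u2, a2]
    · rw [u3, a3]
    · rw [v0, b0]
    · rw [v1, b1]
    · rw [v2, b2]
    · rw [v3, b3]
    · rw [w0, c0]
    · rw [w1, c1]
    · rw [w2, c2]
    · rw [w3, c3]
    · intro x h1 h2 h3
      rw [h x h1 h2 h3, h' x h2 h3 h1]
  · obtain ⟨a0, a1, a2, a3, b0, b1, b2, b3, c0, c1, c2, c3, h'⟩ :=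
      tri_apply (i + 2) (j + 2) (k + 2) uv vw wu
    have e1 : ∀ a : ZMod 4, a + 2 + 1 = a + 3 := by decide
    have e2 : ∀ a : ZMod 4, a + 2 + 2 = a := by decide
    have e3 : ∀ a : ZMod 4, a + 2 + 3 = a + 1 := by decide
    simp only [e1, e2, e3] at a0 a1 a2 a3 b0 b1 b2 b3 c0 c1 c2 c3
    apply Equiv.ext
    refine lk17_ind u v w i j k (fun x => tri u (i + 2) v (j + 2) w (k + 2) x =
      tri u i v j w k x) ?_ ?_ ?_ ?_ ?_ ?_ ?_ ?_ ?_ ?_ ?_ ?_ ?_
    · rw [u0, a2]
    · rw [u1, a3]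
    · rw [u2, a0]
    · rw [u3, a1]
    · rw [v0, b2]
    · rw [v1, b3]
    · rw [v2, b0]
    · rw [v3, b1]
    · rw [w0, c2]
    · rw [w1, c3]
    · rw [w2, c0]
    · rw [w3, c1]
    · intro x h1 h2 h3
      rw [h x h1 h2 h3, h' x h1 h2 h3]

variable {S : Shadow V} {s : V → St} {u v w : V} {i j k : ZMod 4}

theorem Tri.rotate (T : Tri S s u i v j w k) : Tri S s v j w k u i :=
  ⟨T.vw, T.wu, T.uv, T.cv, T.cw, T.cu, T.a2, T.a3, T.a1⟩

omit [DecidableEq V] in
theorem lk17_arc_below {t : V → St} (ht : Below t s) {x y : Dart V} (h : Arc S s x y) :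
    Arc S t x y := by
  refine Relation.EqvGen.mono ?_ _ _ h
  rintro a b (h1 | ⟨h1, h2⟩)
  · exact Or.inl h1
  · have h3 : (s a.1).isX = false := by
      unfold isC at h1
      simpa using h1
    have h4 := ht a.1 h3
    refine Or.inr ⟨?_, ?_⟩
    · unfold isC
      rw [h4]
      exact h1
    · rw [h2]
      change (a.1, (s a.1).mate a.2) = (a.1, (t a.1).mate a.2)
      rw [h4]

theorem Tri.below (T : Tri S s u i v j w k) {t : V → St} (ht : Below t s)
    (hu : (t u).isX = true) (hv : (t v).isX = true) (hw : (t w).isX = true) :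
    Tri S t u i v j w k :=
  ⟨T.uv, T.vw, T.wu, hu, hv, hw, lk17_arc_below ht T.a1, lk17_arc_below ht T.a2,
    lk17_arc_below ht T.a3⟩

theorem Tri.isC_iff (T : Tri S s u i v j w k) (x : Dart V) :
    isC s (tri u i v j w k x) ↔ isC s x := by
  obtain ⟨u0, u1, u2, u3, v0, v1, v2, v3, w0, w1, w2, w3, h⟩ := tri_apply i j k T.uv T.vw T.wu
  have cu := T.cu
  have cv := T.cv
  have cw := T.cw
  refine lk17_ind u v w i j k (fun x => isC s (tri u i v j w k x) ↔ isC s x) ?_ ?_ ?_ ?_ ?_ ?_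
    ?_ ?_ ?_ ?_ ?_ ?_ ?_ x
  · rw [u0]; simp only [isC, cu, cw]
  · rw [u1]; simp only [isC, cu, cv]
  · rw [u2]; simp only [isC, cu, cw]
  · rw [u3]; simp only [isC, cu, cv]
  · rw [v0]; simp only [isC, cu, cv]
  · rw [v1]; simp only [isC, cv, cw]
  · rw [v2]; simp only [isC, cu, cv]
  · rw [v3]; simp only [isC, cv, cw]
  · rw [w0]; simp only [isC, cv, cw]
  · rw [w1]; simp only [isC, cu, cw]
  · rw [w2]; simp only [isC, cv, cw]
  · rw [w3]; simp only [isC, cu, cw]
  · intro x h1 h2 h3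
    rw [h x h1 h2 h3]

/-- the permutation commutes with the strands through the vertices -/
theorem Tri.tau_comm (T : Tri S s u i v j w k) (x : Dart V) :
    tau s (tri u i v j w k x) = tri u i v j w k (tau s x) := by
  have hX : ∀ t : St, t.isX = true → ∀ a, t.mate a = a + 2 := by
    intro t ht a
    cases t
    · rfl
    · rfl
    · exact absurd ht (by decide)
    · exact absurd ht (by decide)
  have htau : ∀ y : Dart V, isC s y → tau s y = (y.1, y.2 + 2) := by
    intro y hy
    change (y.1, (s y.1).mate y.2) = (y.1, y.2 + 2)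
    rw [hX _ hy]
  by_cases hx : isC s x
  · rw [htau _ ((T.isC_iff x).2 hx), htau _ hx]
    exact (tri_add_two i j k T.uv T.vw T.wu x.1 x.2).symm
  · have h := (tri_apply i j k T.uv T.vw T.wu).2.2.2.2.2.2.2.2.2.2.2.2
    have h1 : x.1 ≠ u := fun h => hx (by unfold isC; rw [h]; exact T.cu)
    have h2 : x.1 ≠ v := fun h => hx (by unfold isC; rw [h]; exact T.cv)
    have h3 : x.1 ≠ w := fun h => hx (by unfold isC; rw [h]; exact T.cw)
    rw [h x h1 h2 h3, h (tau s x) h1 h2 h3]

omit [DecidableEq V] in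
theorem lk17_eqv {r r' : Dart V → Dart V → Prop} (π : Equiv.Perm (Dart V))
    (h : ∀ x y, r' (π x) (π y) ↔ r x y) (x y : Dart V) :
    Relation.EqvGen r' (π x) (π y) ↔ Relation.EqvGen r x y := by
  constructor
  · intro h1
    have h2 : ∀ a b, Relation.EqvGen r' a b → Relation.EqvGen r (π⁻¹ a) (π⁻¹ b) := by
      intro a b hab
      induction hab with
      | rel a b hab =>
        refine Relation.EqvGen.rel _ _ ((h _ _).1 ?_)
        simpa using hab
      | refl a => exact Relation.EqvGen.refl _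
      | symm a b _ ih => exact Relation.EqvGen.symm _ _ ih
      | trans a b c _ _ ih1 ih2 => exact Relation.EqvGen.trans _ _ _ ih1 ih2
    have h3 := h2 _ _ h1
    simpa using h3
  · intro h1
    induction h1 with
    | rel a b hab => exact Relation.EqvGen.rel _ _ ((h _ _).2 hab)
    | refl a => exact Relation.EqvGen.refl _
    | symm a b _ ih => exact Relation.EqvGen.symm _ _ ih
    | trans a b c _ _ ih1 ih2 => exact Relation.EqvGen.trans _ _ _ ih1 ih2

omit [DecidableEq V] in
theorem lk17_conj (π : Equiv.Perm (Dart V)) (x y : Dart V) :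
    π y = (S.conj π).α (π x) ↔ y = S.α x := by
  change π y = (π * S.α * π⁻¹) (π x) ↔ y = S.α x
  have e : (π * S.α * π⁻¹) (π x) = π (S.α x) := by simp
  rw [e]
  exact π.injective.eq_iff

theorem Tri.arc_iff (T : Tri S s u i v j w k) (x y : Dart V) :
    Arc (S.conj (tri u i v j w k)) s (tri u i v j w k x) (tri u i v j w k y) ↔ Arc S s x y := by
  apply lk17_eqv
  intro x y
  rw [lk17_conj, T.isC_iff, T.tau_comm, (tri u i v j w k).injective.eq_iff]

theorem Tri.comp_rel (T : Tri S s u i v j w k) (x y : Dart V) :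
    (tri u i v j w k y = (S.conj (tri u i v j w k)).α (tri u i v j w k x) ∨
      tri u i v j w k y = tau s (tri u i v j w k x)) ↔ (y = S.α x ∨ y = tau s x) := by
  rw [lk17_conj, T.tau_comm, (tri u i v j w k).injective.eq_iff]

theorem Tri.comp_iff (T : Tri S s u i v j w k) (x y : Dart V) :
    Comp (S.conj (tri u i v j w k)) s (tri u i v j w k x) (tri u i v j w k y) ↔
      Comp S s x y := by
  apply lk17_eqv
  exact T.comp_rel

theorem Tri.comps_eq (T : Tri S s u i v j w k) :
    comps (S.conj (tri u i v j w k)) s = comps S s := by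
  unfold comps classes
  refine (Nat.card_congr (Quotient.congr (tri u i v j w k) ?_)).symm
  intro x y
  exact (lk17_eqv _ T.comp_rel x y).symm

theorem Tri.partner_eq [Fintype V] (T : Tri S s u i v j w k) (x : Dart V) (hx : isC s x) :
    tri u i v j w k (partner (Cr s) (S.conj (tri u i v j w k)) s x) =
      partner (Cr s) S s (tri u i v j w k x) := by
  have hinv := tri_invol i j k T.uv T.vw T.wu
  have hx' : isC s (tri u i v j w k x) := (T.isC_iff x).2 hx
  obtain ⟨h1, h2, h3, _⟩ := partner_spec (Cr s) S s (tri u i v j w k x) hx'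
  have h4 : partner (Cr s) (S.conj (tri u i v j w k)) s x =
      tri u i v j w k (partner (Cr s) S s (tri u i v j w k x)) := by
    apply LK.partner_eq (Cr s) _ s x _ hx
    · exact (T.isC_iff _).2 h1
    · intro h
      apply h2
      rw [← hinv (partner (Cr s) S s (tri u i v j w k x)), h]
    · have h5 := (T.arc_iff (tri u i v j w k x) (partner (Cr s) S s (tri u i v j w k x))).2 h3
      rw [hinv x] at h5
      exact h5
  rw [h4, hinv]

theorem Tri.sweep [Fintype V] (T : Tri S s u i v j w k) {h : Dart V → ℕ} (hs : Sweep S s h) :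
    Sweep (S.conj (tri u i v j w k)) s (fun x => h (tri u i v j w k x)) := by
  have hinv := tri_invol i j k T.uv T.vw T.wu
  constructor
  · intro x hx
    rw [← T.tau_comm]
    exact hs.const _ ((T.isC_iff x).2 hx)
  · intro x y hx hy hxy
    rcases hs.inj _ _ ((T.isC_iff x).2 hx) ((T.isC_iff y).2 hy) hxy with h1 | h1
    · exact Or.inl ((tri u i v j w k).injective h1)
    · rw [T.tau_comm] at h1
      exact Or.inr ((tri u i v j w k).injective h1)
  · intro m
    have e : {x : Dart V | isC s x ∧ h (tri u i v j w k x) ≤ m ∧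
        m < h (tri u i v j w k (partner (Cr s) (S.conj (tri u i v j w k)) s x))} =
        (tri u i v j w k) '' {x : Dart V | isC s x ∧ h x ≤ m ∧ m < h (partner (Cr s) S s x)} := by
      ext x
      simp only [Set.mem_ofPred_eq, Set.mem_image]
      constructor
      · rintro ⟨h1, h2, h3⟩
        refine ⟨tri u i v j w k x, ⟨(T.isC_iff x).2 h1, h2, ?_⟩, hinv x⟩
        rw [← T.partner_eq x h1]
        exact h3
      · rintro ⟨y, ⟨h1, h2, h3⟩, rfl⟩
        refine ⟨(T.isC_iff y).2 h1, ?_, ?_⟩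
        · rw [hinv]
          exact h2
        · rw [T.partner_eq _ ((T.isC_iff y).2 h1), hinv]
          exact h3
    rw [e, Set.ncard_image_of_injective _ (tri u i v j w k).injective]
    exact hs.cut m
  · intro x y z hx hy hz hxy hyz hc
    have h1 := hs.sep _ _ _ ((T.isC_iff x).2 hx) ((T.isC_iff y).2 hy) ((T.isC_iff z).2 hz) hxy hyz
    have key : ∀ a b, Comp (S.conj (tri u i v j w k)) s a b ↔
        Comp S s (tri u i v j w k a) (tri u i v j w k b) := by
      intro a b
      have := T.comp_iff (tri u i v j w k a) (tri u i v j w k b)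
      rw [hinv, hinv] at this
      exact this
    rw [key] at hc ⊢
    exact h1 hc

theorem Tri.sameOrd (T : Tri S s u i v j w k) {h h' : Dart V → ℕ} (ho : SameOrd S s h h') :
    SameOrd (S.conj (tri u i v j w k)) s (fun x => h (tri u i v j w k x))
      (fun x => h' (tri u i v j w k x)) := by
  have hinv := tri_invol i j k T.uv T.vw T.wu
  intro x y hx hy hc
  apply ho _ _ ((T.isC_iff x).2 hx) ((T.isC_iff y).2 hy)
  intro h1
  apply hc
  have := T.comp_iff (tri u i v j w k x) (tri u i v j w k y)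
  rw [hinv, hinv] at this
  exact this.2 h1

theorem Tri.conj (T : Tri S s u i v j w k) :
    Tri (S.conj (tri u i v j w k)) s u (i + 2) v (j + 2) w (k + 2) := by
  obtain ⟨u0, u1, u2, u3, v0, v1, v2, v3, w0, w1, w2, w3, h⟩ := tri_apply i j k T.uv T.vw T.wu
  have e1 : ∀ a : ZMod 4, a + 2 + 1 = a + 3 := by decide
  refine ⟨T.uv, T.vw, T.wu, T.cu, T.cv, T.cw, ?_, ?_, ?_⟩
  · rw [e1, ← v0, ← u1]
    exact (T.arc_iff _ _).2 (Relation.EqvGen.symm _ _ T.a1)
  · rw [e1, ← w0, ← v1]
    exact (T.arc_iff _ _).2 (Relation.EqvGen.symm _ _ T.a2)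
  · rw [e1, ← u0, ← w1]
    exact (T.arc_iff _ _).2 (Relation.EqvGen.symm _ _ T.a3)

omit [DecidableEq V] in
theorem lk17_ext {S S' : Shadow V} (h : S.α = S'.α) : S = S' := by
  cases S
  cases S'
  cases h
  rfl

theorem Tri.conj_conj (T : Tri S s u i v j w k) :
    (S.conj (tri u i v j w k)).conj (tri u i v j w k) = S := by
  apply lk17_ext
  change tri u i v j w k * (tri u i v j w k * S.α * (tri u i v j w k)⁻¹) *
    (tri u i v j w k)⁻¹ = S.α
  rw [tri_inv i j k T.uv T.vw T.wu]
  apply Equiv.ext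
  intro x
  simp only [Equiv.Perm.mul_apply, tri_invol i j k T.uv T.vw T.wu]

end Pool.Agent.Helper65.LK
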