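import Pool.Agent.Helper65.LK.RichDefs
import Pool.Agent.Helper65.LK.Tri

/-!
# LK-83. Colourings and the third Reidemeister move

Let `π = tri u i v j w k`, `S' = S.conj π`.  `π` commutes with `tau s` at the smoothed vertices (it moves only
darts at `u, v, w`), so `Arc S' s (π x) (π y) ↔ Arc S s x y` (see `Tri.lean`, `Move3.lean`).
Strands of `S` (colours of outer end, middle, outer end):
 strand 1: `p₁ = c (u, i+3)`, `n₁ = c (u, i+1) = c (v, j)`, `q₁ = c (v, j+2)`;
 strand 2: `p₂ = c (v, j+3)`, `n₂ = c (v, j+1) = c (w, k)`, `q₂ = c (w, k+2)`;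
 strand 3: `p₃ = c (w, k+3)`, `n₃ = c (w, k+1) = c (u, i)`, `q₃ = c (u, i+2)`.
In `S'` we look for the colouring `c' = c ∘ π⁻¹`, except on the three arcs
 `A₁ = {π x | Arc S s (u, i+1) x}`, `A₂ = {π x | Arc S s (v, j+1) x}`, `A₃ = {π x | Arc S s (w, k+1) x}`,
where it has the values `m₁, m₂, m₃`.  By `tri_apply` the colours in `S'` are:
 at `u`: `i ↦ p₃`, `i+1 ↦ q₁`, `i+2 ↦ m₃`, `i+3 ↦ m₁`;
 at `v`: `j ↦ p₁`, `j+1 ↦ q₂`, `j+2 ↦ m₁`, `j+3 ↦ m₂`;
 at `w`: `k ↦ p₂`, `k+1 ↦ q₃`, `k+2 ↦ m₂`, `k+3 ↦ m₃`.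
The states are not changed: at `u` strand 3 (darts `i, i+2`) and strand 1 (`i+1, i+3`) cross, at `v` strand 1 (`j, j+2`) and
strand 2 (`j+1, j+3`), at `w` strand 2 (`k, k+2`) and strand 3 (`k+1, k+3`), with the same upper strands as in `S`.
Each of the three strands passes two crossings.  In each of the six admissible cases (all except the two cyclic
ones, where `upper (u, i+1)`, `upper (v, j+1)`, `upper (w, k+1)` are equal) there are a top, a middle and a bottom strand.
`m₁, m₂, m₃` are defined by the rule at one of the two crossings, the rule at the other crossing is checked.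
Example: strand 1 top, strand 2 middle, strand 3 bottom.  In `S`: `p₁ = n₁ = q₁ = a`, `n₂ = q₂ = a p₂ a`, `n₃ = n₂ p₃ n₂`,
`q₃ = a n₃ a = p₂ a p₃ a p₂`.  In `S'`: `m₁ = a`, `m₂ = p₂` (`= a q₂ a`), `m₃ = a p₃ a` (at `u`), and at `w` the rule is
`m₃ = p₂ q₃ p₂`, which is true.  The other cases are similar (insert the values and use `x * x = 1`).
The spaces `Wr` of `n₁, n₂, n₃` are contained in the sum of the others (`Wr_conj`), and all outer colours are
values of `c'` again.
`rich_R3_iff`: `S` arises from `S'` by the same move: `S'.conj (tri u (i+2) v (j+2) w (k+2)) = S`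
(`tri u (i+2) v (j+2) w (k+2) = tri u i v j w k`, an involution), with the arcs
`(u, i+3) ~ (v, j+2)`, `(v, j+3) ~ (w, k+2)`, `(w, k+3) ~ (u, i+2)` of `S'`, and `upper` has the period two.
-/

namespace Pool.Agent.Helper65.LK

open Function

variable {V : Type} [Fintype V] [DecidableEq V] {S : Shadow V} {s : V → St}

omit [DecidableEq V] in
/-- an arc has exactly two ends -/
private theorem r3_end {x y z : Dart V} (hx : isC s x) (hy : isC s y) (hz : isC s z) (hxy : y ≠ x)
    (h : Arc S s x y) : Arc S s x z ↔ z = x ∨ z = y := by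
  constructor
  · intro h2
    rcases (partner_spec (Cr s) S s x hx).2.2.2 z hz h2 with h3 | h3
    · exact Or.inl h3
    · rw [partner_eq (Cr s) S s x y hx hy hxy h] at h3
      exact Or.inr h3
  · rintro (rfl | rfl)
    · exact Relation.EqvGen.refl _
    · exact h

open Classical in
/-- the colouring `c` with new values on three arcs -/
private noncomputable def r3d (S : Shadow V) (s : V → St) (x₁ x₂ x₃ : Dart V)
    (c : Dart V → M3) (m₁ m₂ m₃ : M3) (x : Dart V) : M3 :=
  if Arc S s x₁ x then m₁ else if Arc S s x₂ x then m₂ else if Arc S s x₃ x then m₃ else c x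

omit [Fintype V] [DecidableEq V] in
private theorem r3d_inv {x₁ x₂ x₃ : Dart V} {c : Dart V → M3} {m₁ m₂ m₃ : M3} {x y : Dart V}
    (h : Arc S s x y) (hc : c y = c x) :
    r3d S s x₁ x₂ x₃ c m₁ m₂ m₃ y = r3d S s x₁ x₂ x₃ c m₁ m₂ m₃ x := by
  have h1 : ∀ z, Arc S s z y ↔ Arc S s z x := fun z =>
    ⟨fun h2 => Relation.EqvGen.trans _ _ _ h2 (Relation.EqvGen.symm _ _ h),
      fun h2 => Relation.EqvGen.trans _ _ _ h2 h⟩
  unfold r3d
  by_cases g1 : Arc S s x₁ x
  · rw [if_pos g1, if_pos ((h1 _).2 g1)]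
  rw [if_neg g1, if_neg (fun g => g1 ((h1 _).1 g))]
  by_cases g2 : Arc S s x₂ x
  · rw [if_pos g2, if_pos ((h1 _).2 g2)]
  rw [if_neg g2, if_neg (fun g => g2 ((h1 _).1 g))]
  by_cases g3 : Arc S s x₃ x
  · rw [if_pos g3, if_pos ((h1 _).2 g3)]
  rw [if_neg g3, if_neg (fun g => g3 ((h1 _).1 g)), hc]

private theorem r3_up {t : St} (ht : t.isX = true) (a : ZMod 4) :
    t.upper (a + 2) = t.upper a ∧ t.upper (a + 1) = !t.upper a ∧ t.upper (a + 3) = !t.upper a := by
  cases t
  · revert a
    decide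
  · revert a
    decide
  · exact absurd ht (by decide)
  · exact absurd ht (by decide)

/-- the rule at a crossing -/
private def XC (U : Bool) (x0 x1 x2 x3 : M3) : Prop :=
  (U = true → x1 = x3 ∧ x2 = x1 * x0 * x1) ∧ (U = false → x0 = x2 ∧ x3 = x0 * x1 * x0)

omit [Fintype V] [DecidableEq V] in
private theorem r3_tau {x : V} (hX : (s x).isX = true) (a : ZMod 4) : tau s (x, a) = (x, a + 2) := by
  change (x, (s x).mate a) = (x, a + 2)
  cases h : s x
  · rfl
  · rfl
  · rw [h] at hX
    exact absurd hX (by decide)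
  · rw [h] at hX
    exact absurd hX (by decide)

omit [Fintype V] [DecidableEq V] in
private theorem r3_of_col {c : Dart V → M3} (h : Col S s c) {x : V} (hX : (s x).isX = true)
    (a : ZMod 4) :
    XC ((s x).upper (a + 1)) (c (x, a)) (c (x, a + 1)) (c (x, a + 2)) (c (x, a + 3)) := by
  have e1 : a + 1 + 2 = a + 3 := by ring
  have e2 : a + 1 + 1 = a + 2 := by ring
  have hu := (r3_up hX a).2.1
  constructor
  · intro hU
    rw [hU] at hu
    have hl : (s x).upper a = false := by
      revert hu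
      cases (s x).upper a <;> decide
    have h1 := h.ovr (x, a + 1) hU
    have h2 := h.und (x, a) hX hl
    rw [r3_tau hX, e1] at h1
    rw [r3_tau hX] at h2
    exact ⟨h1.symm, h2⟩
  · intro hU
    rw [hU] at hu
    have hl : (s x).upper a = true := by
      revert hu
      cases (s x).upper a <;> decide
    have h1 := h.ovr (x, a) hl
    have h2 := h.und (x, a + 1) hX hU
    rw [r3_tau hX] at h1
    rw [r3_tau hX, e1] at h2
    have h3 : sg (x, a + 1) = (x, a + 2) := by
      unfold sg
      rw [e2]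
    rw [h3, h1] at h2
    exact ⟨h1.symm, h2⟩

omit [Fintype V] [DecidableEq V] in
private theorem r3_to_col {e : Dart V → M3} {x : V} (hX : (s x).isX = true) (a : ZMod 4)
    (hi : ∀ b, e (x, b) * e (x, b) = 1)
    (h : XC ((s x).upper (a + 1)) (e (x, a)) (e (x, a + 1)) (e (x, a + 2)) (e (x, a + 3)))
    (b : ZMod 4) :
    ((s x).upper b = true → e (tau s (x, b)) = e (x, b)) ∧
      ((s x).upper b = false → e (tau s (x, b)) = e (sg (x, b)) * e (x, b) * e (sg (x, b))) := by
  have e1 : a + 1 + 2 = a + 3 := by ring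
  have e2 : a + 2 + 2 = a := by
    have : (4 : ZMod 4) = 0 := by decide
    linear_combination this
  have e3 : a + 3 + 2 = a + 1 := by
    have : (4 : ZMod 4) = 0 := by decide
    linear_combination this
  have e4 : a + 1 + 1 = a + 2 := by ring
  have e5 : a + 2 + 1 = a + 3 := by ring
  have e6 : a + 3 + 1 = a := by
    have : (4 : ZMod 4) = 0 := by decide
    linear_combination this
  obtain ⟨u2, u1, u3⟩ := r3_up hX a
  have hi0 := hi a
  have hi1 := hi (a + 1)
  rw [r3_tau hX]
  unfold sg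
  unfold XC at h
  rw [u1] at h
  rcases lk17_cases b a with rfl | rfl | rfl | rfl
  · cases hU : (s x).upper b
    · rw [hU] at h
      exact ⟨fun h' => absurd h' (by decide), fun _ => (h.1 rfl).2⟩
    · rw [hU] at h
      exact ⟨fun _ => (h.2 rfl).1.symm, fun h' => absurd h' (by decide)⟩
  · rw [u1]
    dsimp only
    rw [e1, e4]
    cases hU : (s x).upper a
    · rw [hU] at h
      exact ⟨fun _ => (h.1 rfl).1.symm, fun h' => absurd h' (by decide)⟩
    · rw [hU] at h
      obtain ⟨h1, h2⟩ := h.2 rfl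
      refine ⟨fun h' => absurd h' (by decide), fun _ => ?_⟩
      rw [← h1]
      exact h2
  · rw [u2]
    dsimp only
    rw [e2, e5]
    cases hU : (s x).upper a
    · rw [hU] at h
      obtain ⟨h1, h2⟩ := h.1 rfl
      refine ⟨fun h' => absurd h' (by decide), fun _ => ?_⟩
      rw [← h1, h2]
      calc e (x, a) = (e (x, a + 1) * e (x, a + 1)) * e (x, a) *
            (e (x, a + 1) * e (x, a + 1)) := by rw [hi1, one_mul, mul_one]
        _ = _ := by simp only [mul_assoc]
    · rw [hU] at h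
      exact ⟨fun _ => (h.2 rfl).1, fun h' => absurd h' (by decide)⟩
  · rw [u3]
    dsimp only
    rw [e3, e6]
    cases hU : (s x).upper a
    · rw [hU] at h
      exact ⟨fun _ => (h.1 rfl).1, fun h' => absurd h' (by decide)⟩
    · rw [hU] at h
      obtain ⟨h1, h2⟩ := h.2 rfl
      refine ⟨fun h' => absurd h' (by decide), fun _ => ?_⟩
      rw [h2]
      calc e (x, a + 1) = (e (x, a) * e (x, a)) * e (x, a + 1) *
            (e (x, a) * e (x, a)) := by rw [hi0, one_mul, mul_one]
        _ = _ := by simp only [mul_assoc]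

/-- strand 1 is above strand 3 at `u`, strand 2 is above strand 3 at `w` -/
private theorem r3_main {u v w : V} {i j k : ZMod 4} (T : Tri S s u i v j w k)
    (hU1 : (s u).upper (i + 1) = true) (hU3 : (s w).upper (k + 1) = false) (h : Rich S s) :
    Rich (S.conj (tri u i v j w k)) s := by
  obtain ⟨c, hc, htop⟩ := h
  obtain ⟨u0, u1, u2, u3, v0, v1, v2, v3, w0, w1, w2, w3, hoth⟩ := tri_apply i j k T.uv T.vw T.wu
  have z1 := lk17_z1
  have z2 := lk17_z2
  have z3 := lk17_z3
  have z12 := lk17_z12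
  have z13 := lk17_z13
  have z23 := lk17_z23
  have uv := T.uv
  have vw := T.vw
  have wu := T.wu
  have vu := uv.symm
  have wv := vw.symm
  have uw := wu.symm
  have cu : ∀ a, isC s (u, a) := fun a => T.cu
  have cv : ∀ a, isC s (v, a) := fun a => T.cv
  have cw : ∀ a, isC s (w, a) := fun a => T.cw
  -- the arcs of the triangle
  have A1 : ∀ z, isC s z → (Arc S s (u, i + 1) z ↔ z = (u, i + 1) ∨ z = (v, j)) := fun z hz =>
    r3_end (cu _) (cv _) hz (by simp [vu]) T.a1
  have A2 : ∀ z, isC s z → (Arc S s (v, j + 1) z ↔ z = (v, j + 1) ∨ z = (w, k)) := fun z hz =>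
    r3_end (cv _) (cw _) hz (by simp [wv]) T.a2
  have A3 : ∀ z, isC s z → (Arc S s (w, k + 1) z ↔ z = (w, k + 1) ∨ z = (u, i)) := fun z hz =>
    r3_end (cw _) (cu _) hz (by simp [uw]) T.a3
  -- the rules at the crossings
  have Xu := (r3_of_col hc T.cu i).1 hU1
  have Xv := r3_of_col hc T.cv j
  have Xw := (r3_of_col hc T.cw k).2 hU3
  have a1 : c (v, j) = c (u, i + 1) := hc.arc T.a1
  have a2 : c (w, k) = c (v, j + 1) := hc.arc T.a2
  have a3 : c (u, i) = c (w, k + 1) := hc.arc T.a3
  have inv : ∀ x, c x * c x = 1 := fun x => (hc.rf x).1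
  obtain ⟨d, hd⟩ : ∃ d, d = r3d S s (u, i + 1) (v, j + 1) (w, k + 1) c (c (v, j + 2))
    (c (v, j + 3)) (c (v, j + 2) * c (w, k + 3) * c (v, j + 2)) := ⟨_, rfl⟩
  have d1 : ∀ x, Arc S s (u, i + 1) x → d x = c (v, j + 2) := by
    intro x hx
    rw [hd]
    exact if_pos hx
  have d2 : ∀ x, isC s x → x = (v, j + 1) ∨ x = (w, k) → d x = c (v, j + 3) := by
    intro x hx hx2
    have h1 : ¬ Arc S s (u, i + 1) x := by
      rw [A1 x hx]
      rcases hx2 with rfl | rfl <;> simp [z1, vu, wu, wv]
    rw [hd]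
    unfold r3d
    rw [if_neg h1, if_pos ((A2 x hx).2 hx2)]
  have d3 : ∀ x, isC s x → x = (w, k + 1) ∨ x = (u, i) →
      d x = c (v, j + 2) * c (w, k + 3) * c (v, j + 2) := by
    intro x hx hx2
    have h1 : ¬ Arc S s (u, i + 1) x := by
      rw [A1 x hx]
      rcases hx2 with rfl | rfl <;> simp [z1, wu, wv, uv]
    have h2 : ¬ Arc S s (v, j + 1) x := by
      rw [A2 x hx]
      rcases hx2 with rfl | rfl <;> simp [z1, wv, uv, uw]
    rw [hd]
    unfold r3d
    rw [if_neg h1, if_neg h2, if_pos ((A3 x hx).2 hx2)]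
  have d4 : ∀ x, ¬ Arc S s (u, i + 1) x → ¬ Arc S s (v, j + 1) x → ¬ Arc S s (w, k + 1) x →
      d x = c x := by
    intro x h1 h2 h3
    rw [hd]
    unfold r3d
    rw [if_neg h1, if_neg h2, if_neg h3]
  have d5 : ∀ x, isC s x → x ≠ (u, i + 1) → x ≠ (v, j) → x ≠ (v, j + 1) → x ≠ (w, k) →
      x ≠ (w, k + 1) → x ≠ (u, i) → d x = c x := by
    intro x hx h1 h2 h3 h4 h5 h6
    apply d4
    · rw [A1 x hx]
      tauto
    · rw [A2 x hx]
      tauto
    · rw [A3 x hx]
      tauto
  -- the values of the new colouring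
  have eu0 : d (tri u i v j w k (u, i)) = c (w, k + 3) := by
    rw [u0]
    apply d5 _ (cw _) <;> simp [wu, wv, z3, z13.symm]
  have eu1 : d (tri u i v j w k (u, i + 1)) = c (v, j + 2) := by
    rw [u1]
    apply d5 _ (cv _) <;> simp [vu, vw, z2, z12.symm]
  have eu2 : d (tri u i v j w k (u, i + 2)) = c (v, j + 2) * c (w, k + 3) * c (v, j + 2) := by
    rw [u2]
    exact d3 _ (cw _) (Or.inl rfl)
  have eu3 : d (tri u i v j w k (u, i + 3)) = c (v, j + 2) := by
    rw [u3]
    exact d1 _ T.a1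
  have ev0 : d (tri u i v j w k (v, j)) = c (u, i + 3) := by
    rw [v0]
    apply d5 _ (cu _) <;> simp [uv, uw, z3, z13.symm]
  have ev1 : d (tri u i v j w k (v, j + 1)) = c (w, k + 2) := by
    rw [v1]
    apply d5 _ (cw _) <;> simp [wu, wv, z2, z12.symm]
  have ev2 : d (tri u i v j w k (v, j + 2)) = c (v, j + 2) := by
    rw [v2]
    exact d1 _ (Relation.EqvGen.refl _)
  have ev3 : d (tri u i v j w k (v, j + 3)) = c (v, j + 3) := by
    rw [v3]
    exact d2 _ (cw _) (Or.inr rfl)
  have ew0 : d (tri u i v j w k (w, k)) = c (v, j + 3) := by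
    rw [w0]
    apply d5 _ (cv _) <;> simp [vu, vw, z3, z13.symm]
  have ew1 : d (tri u i v j w k (w, k + 1)) = c (u, i + 2) := by
    rw [w1]
    apply d5 _ (cu _) <;> simp [uv, uw, z2, z12.symm]
  have ew2 : d (tri u i v j w k (w, k + 2)) = c (v, j + 3) := by
    rw [w2]
    exact d2 _ (cv _) (Or.inl rfl)
  have ew3 : d (tri u i v j w k (w, k + 3)) = c (v, j + 2) * c (w, k + 3) * c (v, j + 2) := by
    rw [w3]
    exact d3 _ (cu _) (Or.inr rfl)
  have hrf : ∀ x, Rf (d x) := by
    intro x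
    rw [hd]
    unfold r3d
    split_ifs
    · exact hc.rf _
    · exact hc.rf _
    · exact Rf.conj (hc.rf _) (hc.rf _)
    · exact hc.rf _
  have hinv := tri_invol i j k T.uv T.vw T.wu
  -- the rules in the new diagram
  have Yu : XC ((s u).upper (i + 1)) (d (tri u i v j w k (u, i))) (d (tri u i v j w k (u, i + 1)))
      (d (tri u i v j w k (u, i + 2))) (d (tri u i v j w k (u, i + 3))) := by
    rw [eu0, eu1, eu2, eu3, hU1]
    exact ⟨fun _ => ⟨rfl, rfl⟩, fun h' => absurd h' (by decide)⟩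
  have Yv : XC ((s v).upper (j + 1)) (d (tri u i v j w k (v, j))) (d (tri u i v j w k (v, j + 1)))
      (d (tri u i v j w k (v, j + 2))) (d (tri u i v j w k (v, j + 3))) := by
    rw [ev0, ev1, ev2, ev3, ← Xu.1, ← a1, ← Xw.1, a2]
    exact Xv
  have Yw : XC ((s w).upper (k + 1)) (d (tri u i v j w k (w, k))) (d (tri u i v j w k (w, k + 1)))
      (d (tri u i v j w k (w, k + 2))) (d (tri u i v j w k (w, k + 3))) := by
    rw [ew0, ew1, ew2, ew3, hU3]
    refine ⟨fun h' => absurd h' (by decide), fun _ => ⟨rfl, ?_⟩⟩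
    have n3 : c (w, k + 1) = c (v, j + 1) * c (w, k + 3) * c (v, j + 1) := by
      rw [Xw.2, a2]
      calc c (w, k + 1) = (c (v, j + 1) * c (v, j + 1)) * c (w, k + 1) *
            (c (v, j + 1) * c (v, j + 1)) := by rw [inv, one_mul, mul_one]
        _ = _ := by simp only [mul_assoc]
    have hAB : c (v, j + 3) * c (v, j) * c (v, j + 1) = c (v, j + 2) ∧
        c (v, j + 1) * c (v, j) * c (v, j + 3) = c (v, j + 2) := by
      cases hU2 : (s v).upper (j + 1)
      · obtain ⟨h1, h2⟩ := Xv.2 hU2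
        rw [h2, ← h1]
        constructor
        · calc c (v, j) * c (v, j + 1) * c (v, j) * c (v, j) * c (v, j + 1) =
              c (v, j) * (c (v, j + 1) * (c (v, j) * c (v, j)) * c (v, j + 1)) := by
                simp only [mul_assoc]
            _ = c (v, j) := by rw [inv, mul_one, inv, mul_one]
        · calc c (v, j + 1) * c (v, j) * (c (v, j) * c (v, j + 1) * c (v, j)) =
              (c (v, j + 1) * (c (v, j) * c (v, j)) * c (v, j + 1)) * c (v, j) := by
                simp only [mul_assoc]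
            _ = c (v, j) := by rw [inv, mul_one, inv, one_mul]
      · obtain ⟨h1, h2⟩ := Xv.1 hU2
        rw [h2, ← h1]
        exact ⟨rfl, rfl⟩
    rw [Xu.2, a3, n3, ← a1]
    calc c (v, j + 2) * c (w, k + 3) * c (v, j + 2) =
        (c (v, j + 3) * c (v, j) * c (v, j + 1)) * c (w, k + 3) *
          (c (v, j + 1) * c (v, j) * c (v, j + 3)) := by rw [hAB.1, hAB.2]
      _ = _ := by simp only [mul_assoc]
  have key : ∀ x : Dart V, isC s x →
      ((s x.1).upper x.2 = true → d (tri u i v j w k (tau s x)) = d (tri u i v j w k x)) ∧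
      ((s x.1).upper x.2 = false → d (tri u i v j w k (tau s x)) =
        d (tri u i v j w k (sg x)) * d (tri u i v j w k x) * d (tri u i v j w k (sg x))) := by
    rintro ⟨x, b⟩ hx
    by_cases h1 : x = u
    · subst h1
      exact r3_to_col (e := fun y => d (tri x i v j w k y)) T.cu i (fun b => (hrf _).1) Yu b
    by_cases h2 : x = v
    · subst h2
      exact r3_to_col (e := fun y => d (tri u i x j w k y)) T.cv j (fun b => (hrf _).1) Yv b
    by_cases h3 : x = w
    · subst h3
      exact r3_to_col (e := fun y => d (tri u i v j x k y)) T.cw k (fun b => (hrf _).1) Yw b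
    have h4 : ∀ a : ZMod 4, d (tri u i v j w k (x, a)) = c (x, a) := by
      intro a
      rw [hoth (x, a) h1 h2 h3]
      exact d5 _ hx (by simp [h1]) (by simp [h2]) (by simp [h2]) (by simp [h3]) (by simp [h3])
        (by simp [h1])
    rw [r3_tau hx]
    unfold sg
    dsimp only
    rw [h4, h4, h4]
    have h5 := hc.ovr (x, b)
    have h6 := hc.und (x, b) hx
    rw [r3_tau hx] at h5 h6
    exact ⟨h5, h6⟩
  refine ⟨fun x => d (tri u i v j w k x), ⟨fun x => hrf _, fun x => ?_, fun x hx => ?_,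
    fun x hx => ?_, fun x hx hx2 => (key x hx).2 hx2⟩, ?_⟩
  · have h1 : tri u i v j w k ((S.conj (tri u i v j w k)).α x) = S.α (tri u i v j w k x) := by
      change tri u i v j w k ((tri u i v j w k * S.α * (tri u i v j w k)⁻¹) x) =
        S.α (tri u i v j w k x)
      rw [tri_inv i j k T.uv T.vw T.wu]
      exact hinv _
    show d _ = d _
    rw [h1, hd]
    exact r3d_inv (Relation.EqvGen.rel _ _ (Or.inl rfl)) (hc.edge _)
  · have hx' : ¬ isC s (tri u i v j w k x) := fun h' => hx ((T.isC_iff x).1 h')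
    show d _ = d _
    rw [← T.tau_comm, hd]
    exact r3d_inv (Relation.EqvGen.rel _ _ (Or.inr ⟨hx', rfl⟩)) (hc.smooth _ hx')
  · have hx' : isC s x := by
      unfold isC
      revert hx
      cases (s x.1)
      · intro _; rfl
      · intro _; rfl
      · intro h'; exact absurd h' (by simp [St.upper])
      · intro h'; exact absurd h' (by simp [St.upper])
    exact (key x hx').1 hx
  · rw [eq_top_iff, ← htop]
    refine iSup_le fun x => ?_
    have hle : ∀ y, Wr (d y) ≤ ⨆ x, Wr (d (tri u i v j w k x)) := by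
      intro y
      have h1 := le_iSup (fun x => Wr (d (tri u i v j w k x))) (tri u i v j w k y)
      rw [hinv] at h1
      exact h1
    have g1 : Wr (c (v, j)) ≤ ⨆ x, Wr (d (tri u i v j w k x)) := by
      have h1 := le_iSup (fun x => Wr (d (tri u i v j w k x))) (v, j)
      rw [ev0, ← Xu.1, ← a1] at h1
      exact h1
    have g2 : Wr (c (v, j + 1)) ≤ ⨆ x, Wr (d (tri u i v j w k x)) := by
      have h1 := le_iSup (fun x => Wr (d (tri u i v j w k x))) (v, j + 1)
      rw [ev1, ← Xw.1, a2] at h1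
      exact h1
    have g3 : Wr (c (w, k + 3)) ≤ ⨆ x, Wr (d (tri u i v j w k x)) := by
      have h1 := le_iSup (fun x => Wr (d (tri u i v j w k x))) (u, i)
      rw [eu0] at h1
      exact h1
    by_cases h1 : Arc S s (u, i + 1) x
    · rw [hc.arc h1, ← a1]
      exact g1
    by_cases h2 : Arc S s (v, j + 1) x
    · rw [hc.arc h2]
      exact g2
    by_cases h3 : Arc S s (w, k + 1) x
    · have n3 : c (w, k + 1) = c (v, j + 1) * c (w, k + 3) * c (v, j + 1) := by
        rw [Xw.2, a2]
        calc c (w, k + 1) = (c (v, j + 1) * c (v, j + 1)) * c (w, k + 1) *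
              (c (v, j + 1) * c (v, j + 1)) := by rw [inv, one_mul, mul_one]
          _ = _ := by simp only [mul_assoc]
      rw [hc.arc h3, n3]
      exact (Wr_conj (inv _)).trans (sup_le g2 g3)
    rw [← d4 x h1 h2 h3]
    exact hle x

theorem rich_R3 {u v w : V} {i j k : ZMod 4} (T : Tri S s u i v j w k)
    (hadm : ¬ ((s u).upper (i + 1) = (s v).upper (j + 1) ∧
      (s v).upper (j + 1) = (s w).upper (k + 1))) (h : Rich S s) :
    Rich (S.conj (tri u i v j w k)) s := by
  have r1 := (tri_rot i j k T.uv T.vw T.wu).1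
  have r2 := (tri_rot j k i T.vw T.wu T.uv).1
  cases h1 : (s u).upper (i + 1) <;> cases h2 : (s v).upper (j + 1) <;>
    cases h3 : (s w).upper (k + 1)
  · exact absurd ⟨h1.trans h2.symm, h2.trans h3.symm⟩ hadm
  · have := r3_main T.rotate.rotate h3 h2 h
    rwa [r2, r1] at this
  · have := r3_main T.rotate h2 h1 h
    rwa [r1] at this
  · have := r3_main T.rotate h2 h1 h
    rwa [r1] at this
  · exact r3_main T h1 h3 h
  · have := r3_main T.rotate.rotate h3 h2 h
    rwa [r2, r1] at this
  · exact r3_main T h1 h3 h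
  · exact absurd ⟨h1.trans h2.symm, h2.trans h3.symm⟩ hadm

theorem rich_R3_iff {u v w : V} {i j k : ZMod 4} (T : Tri S s u i v j w k)
    (hadm : ¬ ((s u).upper (i + 1) = (s v).upper (j + 1) ∧
      (s v).upper (j + 1) = (s w).upper (k + 1))) :
    Rich S s ↔ Rich (S.conj (tri u i v j w k)) s := by
  refine ⟨rich_R3 T hadm, fun h => ?_⟩
  have e1 : ∀ a : ZMod 4, a + 2 + 1 = (a + 1) + 2 := by
    intro a
    ring
  have h1 : (s u).upper (i + 2 + 1) = (s u).upper (i + 1) := by
    rw [e1]
    exact (r3_up T.cu _).1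
  have h2 : (s v).upper (j + 2 + 1) = (s v).upper (j + 1) := by
    rw [e1]
    exact (r3_up T.cv _).1
  have h3 : (s w).upper (k + 2 + 1) = (s w).upper (k + 1) := by
    rw [e1]
    exact (r3_up T.cw _).1
  have h4 := rich_R3 T.conj (by rw [h1, h2, h3]; exact hadm) h
  rw [(tri_rot i j k T.uv T.vw T.wu).2, T.conj_conj] at h4
  exact h4

end Pool.Agent.Helper65.LK
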