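import Pool.Agent.Helper65.LK.RichIso
import Pool.Agent.Helper65.LK.RichMoves
import Pool.Agent.Helper65.LK.RichR3
import Pool.Agent.Helper65.LK.Conway

/-!
# LK-84. Richness is an invariant; word diagrams are not rich

`rich_same`: induction on `EqvGen`; `Step` by cases.
`tcol_word`: a colouring of the tangle `(wT w, wS q₀ w)`, all letters crossings (or smoothed), `q₀` smoothed: the
four darts of the base have only two colours `a, b`.  By induction on `w` all colours `g` satisfy
`Wr g ≤ Wr a ⊔ Wr b`: the inner darts of a new vertex are joined to ports of the inner tangle, the outer ends of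
the strands have the same colour or a conjugate `g h g` with `g, h` of this kind (`Wr_conj`).  (The darts `0, 1` of
the new vertex are the inner ones, `2, 3` the outer ones; `tau` joins `0, 2` and `1, 3` for a crossing, `1, 2` and
`3, 0` for `smB`, and for `smA` it joins the inner ends and the outer ends: exclude this by `hw`.)
`not_rich_word`: by `Col.left` and `tcol_word`; the darts of the closing vertex are joined to the ports of the word tangle.
So `⨆ Wr (c x) ≤ Wr a ⊔ Wr b`, which has dimension at most `2 < 3`.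
-/

namespace Pool.Agent.Helper65.LK

open Function

theorem rich_same {D D' : Dia} (h : Same D D') : Rich D.S D.s ↔ Rich D'.S D'.s := by
  induction h with
  | refl a => exact Iff.rfl
  | symm a b _ ih => exact ih.symm
  | trans a b c _ _ ih1 ih2 => exact ih1.trans ih2
  | rel a b hab =>
    cases hab with
    | iso _ e => exact rich_iso e
    | r1 v i hv h hp => exact rich_R1 v i hv h
    | r2 v w i j hvw hv hw h1 h2 hup hp => exact rich_R2 v w i j hvw hv hw h1 h2 hup
    | r3 u v w i j k huv hvw hwu hu hv hw h1 h2 h3 hadm hp =>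
      have T : Tri a.S a.s u i v j w k := ⟨huv, hvw, hwu, hu, hv, hw, h1, h2, h3⟩
      exact rich_R3_iff T hadm

private theorem rw_z4 : ∀ j : ZMod 4, j = 0 ∨ j = 1 ∨ j = 2 ∨ j = 3 := by decide

private theorem rw_leaf (q₀ : St) (h₀ : q₀.isX = false) (c : Dart Unit → M3)
    (h : TCol leafT (fun _ => q₀) c) :
    ∃ a b : M3, Rf a ∧ Rf b ∧ ∀ x, Wr (c x) ≤ Wr a ⊔ Wr b := by
  refine ⟨c ((), 0), c ((), 2), h.rf _, h.rf _, ?_⟩
  have hn : ∀ x : Dart Unit, ¬ isC (fun _ : Unit => q₀) x := by
    intro x hx
    have h1 : q₀.isX = true := hx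
    rw [h₀] at h1
    exact absurd h1 (by decide)
  rintro ⟨⟨⟩, j⟩
  cases q₀ with
  | over1 => exact absurd h₀ (by decide)
  | over0 => exact absurd h₀ (by decide)
  | smA =>
    have h1 : c ((), 1) = c ((), 0) := h.smooth ((), 0) (hn _)
    have h3 : c ((), 3) = c ((), 2) := h.smooth ((), 2) (hn _)
    rcases rw_z4 j with rfl | rfl | rfl | rfl
    · exact le_sup_left
    · rw [h1]
      exact le_sup_left
    · exact le_sup_right
    · rw [h3]
      exact le_sup_right
  | smB =>
    have h1 : c ((), 3) = c ((), 0) := h.smooth ((), 0) (hn _)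
    have h3 : c ((), 1) = c ((), 2) := h.smooth ((), 2) (hn _)
    rcases rw_z4 j with rfl | rfl | rfl | rfl
    · exact le_sup_left
    · rw [h3]
      exact le_sup_right
    · exact le_sup_right
    · rw [h1]
      exact le_sup_left

private theorem rw_app {V : Type} (T : Tangle V) (s : V → St) (p : ZMod 4) (q : St)
    (hq : q.isX = true) (c : Dart (V ⊕ Bool) → M3)
    (h : TCol (app T p) (Sum.elim s (fun b => if b = true then q else St.smB)) c)
    (P : Submodule ℝ (Fin 3 → ℝ)) (hP : ∀ x : Dart V, Wr (c (dl x)) ≤ P) :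
    ∀ x, Wr (c x) ≤ P := by
  have hin : ∀ y : Bool × ZMod 4, (strand p y).2 = true → Wr (c (dr y)) ≤ P := by
    intro y hy
    have h1 : (app T p).link (dr y) = Sum.inl (dl (T.port (strand p y).1)) := by
      show (app T p).link (dr y) = _
      obtain ⟨b, j⟩ := y
      show (if (strand p (b, j)).2 = true then
        Sum.inl (dl (T.port (strand p (b, j)).1)) else Sum.inr (strand p (b, j)).1) = _
      rw [if_pos hy]
    have h2 := h.link _ _ h1
    rw [← h2]
    exact hP _
  have hs : ∀ (b : Bool), (strand p (b, 0)).2 = true ∧ (strand p (b, 1)).2 = true := by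
    intro b
    exact ⟨rfl, rfl⟩
  have h0 : ∀ b : Bool, Wr (c (Sum.inr b, 0)) ≤ P := fun b => hin (b, 0) (hs b).1
  have h1 : ∀ b : Bool, Wr (c (Sum.inr b, 1)) ≤ P := fun b => hin (b, 1) (hs b).2
  have hout : ∀ b : Bool, Wr (c (Sum.inr b, 2)) ≤ P ∧ Wr (c (Sum.inr b, 3)) ≤ P := by
    intro b
    cases b with
    | false =>
      have e1 : c (Sum.inr false, 1) = c (Sum.inr false, 2) :=
        h.smooth (Sum.inr false, 2) (by
          intro hx
          have h9 : St.smB.isX = true := hx
          exact absurd h9 (by decide))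
      have e2 : c (Sum.inr false, 0) = c (Sum.inr false, 3) :=
        h.smooth (Sum.inr false, 3) (by
          intro hx
          have h9 : St.smB.isX = true := hx
          exact absurd h9 (by decide))
      rw [← e1, ← e2]
      exact ⟨h1 false, h0 false⟩
    | true =>
      cases q with
      | smA => exact absurd hq (by decide)
      | smB => exact absurd hq (by decide)
      | over1 =>
        have e1 : c (Sum.inr true, 3) = c (Sum.inr true, 1) :=
          h.ovr (Sum.inr true, 1) (by decide : St.over1.upper 1 = true)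
        have e2 : c (Sum.inr true, 2) = c (Sum.inr true, 1) * c (Sum.inr true, 0) *
            c (Sum.inr true, 1) := h.und (Sum.inr true, 0) rfl
              (by decide : St.over1.upper 0 = false)
        rw [e1, e2]
        exact ⟨(Wr_conj (h.rf _).1).trans (sup_le (h1 true) (h0 true)), h1 true⟩
      | over0 =>
        have e1 : c (Sum.inr true, 2) = c (Sum.inr true, 0) :=
          h.ovr (Sum.inr true, 0) (by decide : St.over0.upper 0 = true)
        have e2 : c (Sum.inr true, 3) = c (Sum.inr true, 2) * c (Sum.inr true, 1) *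
            c (Sum.inr true, 2) := h.und (Sum.inr true, 1) rfl
              (by decide : St.over0.upper 1 = false)
        rw [e2, e1]
        exact ⟨h0 true, (Wr_conj (h.rf _).1).trans (sup_le (h0 true) (h1 true))⟩
  rintro ⟨v | b, j⟩
  · exact hP (v, j)
  · rcases rw_z4 j with rfl | rfl | rfl | rfl
    · exact h0 b
    · exact h1 b
    · exact (hout b).1
    · exact (hout b).2

private theorem rw_restrict {V : Type} {T : Tangle V} {s : V → St} {p : ZMod 4} {r : Bool → St}
    {c : Dart (V ⊕ Bool) → M3} (h : TCol (app T p) (Sum.elim s r) c) :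
    TCol T s (fun x => c (dl x)) := by
  refine ⟨fun x => h.rf _, ?_, fun x hx => h.smooth (dl x) hx, fun x hx => h.ovr (dl x) hx,
    fun x hx hu => h.und (dl x) hx hu⟩
  intro x y hxy
  refine h.link (dl x) (dl y) ?_
  obtain ⟨v, j⟩ := x
  show (match T.link (v, j) with
      | Sum.inl y => Sum.inl (dl y)
      | Sum.inr i => Sum.inl (dr (inDart p i))) = _
  rw [hxy]

theorem tcol_word (q₀ : St) (h₀ : q₀.isX = false) (w : List Letter)
    (hw : ∀ l ∈ w, l.2.isX = true) (c : Dart (WV w) → M3) (h : TCol (wT w) (wS q₀ w) c) :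
    ∃ a b : M3, Rf a ∧ Rf b ∧ ∀ x, Wr (c x) ≤ Wr a ⊔ Wr b := by
  induction w with
  | nil => exact rw_leaf q₀ h₀ c h
  | cons l w ih =>
    have h' : TCol (app (wT w) l.1)
        (Sum.elim (wS q₀ w) (fun b => if b = true then l.2 else St.smB)) c := h
    obtain ⟨a, b, ha, hb, hab⟩ := ih (fun x hx => hw x (List.mem_cons_of_mem _ hx))
      (fun x => c (dl x)) (rw_restrict h')
    exact ⟨a, b, ha, hb, rw_app (wT w) (wS q₀ w) l.1 l.2 (hw l List.mem_cons_self) c h' _ hab⟩

theorem not_rich_word (q₀ : St) (h₀ : q₀.isX = false) (w : List Letter)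
    (hw : ∀ l ∈ w, l.2.isX = true) (q₁ : St) : ¬ Rich (wD w) (wDS q₀ w q₁) := by
  rintro ⟨c, hc, htop⟩
  have hc' : Col (glue (wT w) leafT) (Sum.elim (wS q₀ w) (fun _ => q₁)) c := hc
  obtain ⟨a, b, ha, hb, hab⟩ := tcol_word q₀ h₀ w hw _ hc'.left
  have hall : ∀ x, Wr (c x) ≤ Wr a ⊔ Wr b := by
    rintro ⟨v | ⟨⟩, j⟩
    · exact hab (v, j)
    · have h1 : c (dl ((wT w).port (1 - j))) = c (Sum.inr (), j) := hc'.edge (Sum.inr (), j)
      rw [← h1]
      exact hab _
  have h2 : (⊤ : Submodule ℝ (Fin 3 → ℝ)) ≤ Wr a ⊔ Wr b := by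
    rw [← htop]
    exact iSup_le hall
  have h3 := Submodule.finrank_mono h2
  have h4 := Submodule.finrank_add_le_finrank_add_finrank (Wr a) (Wr b)
  have h5 : Module.finrank ℝ (⊤ : Submodule ℝ (Fin 3 → ℝ)) = 3 := by
    rw [finrank_top]
    simp
  have h6 := ha.2
  have h7 := hb.2
  omega

private theorem rw_mem (l : List ℕ) (b : Bool) : ∀ x ∈ cw l b, x.2.isX = true := by
  have h : ∀ p : ZMod 4, (alt p).2.isX = true := by decide
  induction l generalizing b with
  | nil =>
    intro x hx
    exact absurd hx List.not_mem_nil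
  | cons n l ih =>
    intro x hx
    have hx' : x ∈ List.replicate n (alt (if b = true then 3 else 2)) ++ cw l (!b) := hx
    rw [List.mem_append] at hx'
    rcases hx' with hx | hx
    · rw [List.eq_of_mem_replicate hx]
      exact h _
    · exact ih _ x hx

theorem not_rich_conway (a : List ℕ) : ¬ Rich (conway a).S (conway a).s := by
  have h0 : (cq a).isX = false := by
    unfold cq
    split_ifs <;> rfl
  exact not_rich_word (cq a) h0 (cw a true) (rw_mem a true) St.smA

end Pool.Agent.Helper65.LK
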