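import Pool.Agent.Helper65.LK.Reduce

/-!
# LK-34b. A crossing without an isolated corner
-/

namespace Pool.Agent.Helper65.LK

open Function

variable {V : Type} [Fintype V] [DecidableEq V] {S : Shadow V} {o : V → Bool} {v₀ : V}

private theorem lk34b_face_refl (x : Dart V) : Face S x x := Equiv.Perm.SameCycle.refl _ _

private theorem lk34b_face_symm {x y : Dart V} (h : Face S x y) : Face S y x :=
  Equiv.Perm.SameCycle.symm h

private theorem lk34b_face_trans {x y z : Dart V} (h : Face S x y) (h' : Face S y z) :
    Face S x z := Equiv.Perm.SameCycle.trans h h'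

private theorem lk34b_face_faceP (x : Dart V) : Face S (faceP S x) x :=
  lk34b_face_symm ((Equiv.Perm.sameCycle_apply_right (f := faceP S)).2 (lk34b_face_refl x))

/-- the previous corner of the face -/
private theorem lk34b_pre (x : Dart V) : faceP S (S.α (x.1, x.2 - 1)) = x := by
  rw [faceP_apply, S.invol]
  simp [sg]

private theorem lk34b_chg_pre (hS : APD S) {x : Dart V} (h : Sg S o x) :
    Chg S o (S.α (x.1, x.2 - 1)) := (chg_iff hS o _).2 h.2

private theorem lk34b_not_special (h : LBO S o v₀) {x : Dart V} (hx : Sg S o x) :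
    ¬ Special S v₀ x := fun hs => lbo_chg_special h hs hx.1

/-- a face contains at most one corner with `Sg` -/
private theorem lk34b_unique (hS : APD S) (h : LBO S o v₀) (h1 : ∀ x, faceP S x ≠ x)
    (h2 : ∀ x, faceP S (faceP S x) ≠ x) {x x' : Dart V} (hx : Sg S o x) (hx' : Sg S o x')
    (hf : Face S x x') : x = x' := by
  have hcard := lbo_two hS h x (lk34b_not_special h hx)
  set y := S.α (x.1, x.2 - 1) with hy
  set y' := S.α (x'.1, x'.2 - 1) with hy'
  have ey : faceP S y = x := lk34b_pre x
  have ey' : faceP S y' = x' := lk34b_pre x'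
  have hyf : Face S x y := by
    have := lk34b_face_faceP (S := S) y
    rwa [ey] at this
  have hyf' : Face S x' y' := by
    have := lk34b_face_faceP (S := S) y'
    rwa [ey'] at this
  obtain ⟨a, b, hab, hset⟩ := Set.ncard_eq_two.1 hcard
  have mem : ∀ z, Face S x z → Chg S o z → z = a ∨ z = b := by
    intro z hz hz'
    have : z ∈ {y : Dart V | Face S x y ∧ Chg S o y} := ⟨hz, hz'⟩
    rw [hset] at this
    simpa using this
  have m1 := mem x (lk34b_face_refl x) hx.1
  have m2 := mem y hyf (lk34b_chg_pre hS hx)
  have m3 := mem x' hf hx'.1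
  have m4 := mem y' (lk34b_face_trans hf hyf') (lk34b_chg_pre hS hx')
  have n1 : x ≠ y := by
    intro e
    apply h1 y
    rw [ey, e]
  have n2 : x' ≠ y' := by
    intro e
    apply h1 y'
    rw [ey', e]
  by_contra hne
  -- then `x' = y` and `y' = x`
  have k1 : x' = y := by
    rcases m1 with m1 | m1 <;> rcases m2 with m2 | m2 <;> rcases m3 with m3 | m3 <;>
      first
        | exact absurd (m1.trans m2.symm) n1
        | exact absurd (m1.trans m3.symm) hne
        | exact m3.trans m2.symm
  have k2 : y' = x := by
    rcases m1 with m1 | m1 <;> rcases m3 with m3 | m3 <;> rcases m4 with m4 | m4 <;>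
      first
        | exact absurd (m1.trans m3.symm) hne
        | exact absurd (m3.trans m4.symm) n2
        | exact m4.trans m1.symm
  have e1 : faceP S x = y := by
    rw [← k1, ← ey', k2]
  apply h2 x
  rw [e1, ey]

/-- if there is no face with one or two corners then some crossing has no `Sg` corner.  Proof:
by `lbo_two` and the size of the faces, a face which is not special has at most one corner `x` with `Sg`
(two different such corners would be neighbours of each other on both sides), a special face has
none (`lbo_chg_special`).  `Sg (v₀, 1)` and `Sg (v₀, 3)`: `¬ Chg (v₀, 0)`, `¬ Chg (v₀, 2)`, and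
`¬ Chg (α (v₀, 3))`, `¬ Chg (α (v₀, 1))` because `faceP S (α (v₀, 3)) = (v₀, 0)` is special; by `chg_iff`
`Chg (v₀, 3)`, `Chg (v₀, 1)`.  If every `v ≠ v₀` had a corner with `Sg`, then together with `(v₀, 1)`,
`(v₀, 3)` there would be `n + 1` corners with `Sg` in different faces, but only `n` faces are not
special (`card_faces`). -/
theorem exists_free (hS : APD S) (h : LBO S o v₀)
    (h1 : ∀ x, faceP S x ≠ x) (h2 : ∀ x, faceP S (faceP S x) ≠ x) :
    ∃ v, v ≠ v₀ ∧ ∀ c, ¬ Sg S o (v, c) := by
  classical
  by_contra hcon
  push Not at hcon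
  have hsp0 : Special S v₀ (v₀, 0) := Or.inl (lk34b_face_refl _)
  have hsp2 : Special S v₀ (v₀, 2) := Or.inr (lk34b_face_refl _)
  have hS1 : Sg S o (v₀, 1) := by
    refine ⟨?_, ?_⟩
    · have e : faceP S (S.α (v₀, 1)) = (v₀, 2) := by
        rw [faceP_apply, S.invol]
        rfl
      have hs : Special S v₀ (S.α (v₀, 1)) := by
        right
        have := lk34b_face_faceP (S := S) (S.α (v₀, 1))
        rw [e] at this
        exact lk34b_face_symm this
      have := lbo_chg_special h hs
      rw [chg_iff hS] at this
      exact not_not.1 this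
    · have e : ((v₀, 1) : Dart V).2 - 1 = (0 : ZMod 4) := by
        show (1 : ZMod 4) - 1 = 0
        decide
      rw [e]
      exact lbo_chg_special h hsp0
  have hS3 : Sg S o (v₀, 3) := by
    refine ⟨?_, ?_⟩
    · have e : faceP S (S.α (v₀, 3)) = (v₀, 0) := by
        rw [faceP_apply, S.invol]
        rfl
      have hs : Special S v₀ (S.α (v₀, 3)) := by
        left
        have := lk34b_face_faceP (S := S) (S.α (v₀, 3))
        rw [e] at this
        exact lk34b_face_symm this
      have := lbo_chg_special h hs
      rw [chg_iff hS] at this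
      exact not_not.1 this
    · have e : ((v₀, 3) : Dart V).2 - 1 = (2 : ZMod 4) := by
        show (3 : ZMod 4) - 1 = 2
        decide
      rw [e]
      exact lbo_chg_special h hsp2
  have hdiff : ¬ Face S (v₀, 0) (v₀, 2) := by
    intro hf
    have := (h (v₀, 0)).2 hsp0 _ hf
    have e0 : sgn o (v₀, (0 : ZMod 4)) = o v₀ := by simp [sgn]
    have e2 : sgn o (v₀, (2 : ZMod 4)) = !(o v₀) := by
      have hd : ¬ ((2 : ZMod 4) = 0 ∨ (2 : ZMod 4) = 1) := by decide
      unfold sgn
      rw [if_neg hd]
    rw [e0, e2] at this
    cases hov : o v₀ <;> simp [hov] at this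
  -- a corner with `Sg` for every crossing
  have hex : ∀ v, ∃ x : Dart V, x.1 = v ∧ Sg S o x ∧ x ≠ (v₀, 3) := by
    intro v
    by_cases hv : v = v₀
    · subst hv
      have hd : ¬ ((1 : ZMod 4) = 3) := by decide
      exact ⟨(v, 1), rfl, hS1, fun e => hd (congrArg Prod.snd e)⟩
    · obtain ⟨c, hc⟩ := hcon v hv
      exact ⟨(v, c), rfl, hc, fun e => hv (congrArg Prod.fst e)⟩
  choose g hg1 hg2 hg3 using hex
  let Q := Quotient (Equiv.Perm.SameCycle.setoid (faceP S))
  let F : V ⊕ Fin 3 → Q := fun t => match t with
    | Sum.inl v => Quotient.mk _ (g v)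
    | Sum.inr i => Quotient.mk _ (if i = 0 then (v₀, 0) else if i = 1 then (v₀, 2) else (v₀, 3))
  have hns : ∀ v, ¬ Special S v₀ (g v) := fun v => lk34b_not_special h (hg2 v)
  have hns3 : ¬ Special S v₀ (v₀, 3) := lk34b_not_special h hS3
  have hF : Function.Injective F := by
    have hgg : ∀ v w, Face S (g v) (g w) → v = w := by
      intro v w hf
      have := lk34b_unique hS h h1 h2 (hg2 v) (hg2 w) hf
      rw [← hg1 v, ← hg1 w, this]
    have hg0 : ∀ v, ¬ Face S (g v) (v₀, 0) := fun v hf => hns v (Or.inl hf)
    have hgt : ∀ v, ¬ Face S (g v) (v₀, 2) := fun v hf => hns v (Or.inr hf)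
    have hgr : ∀ v, ¬ Face S (g v) (v₀, 3) := fun v hf =>
      hg3 v (lk34b_unique hS h h1 h2 (hg2 v) hS3 hf)
    have h30 : ¬ Face S (v₀, 3) (v₀, 0) := fun hf => hns3 (Or.inl hf)
    have h32 : ¬ Face S (v₀, 3) (v₀, 2) := fun hf => hns3 (Or.inr hf)
    have hex : ∀ {x y : Dart V}, (Quotient.mk (Equiv.Perm.SameCycle.setoid (faceP S)) x =
        Quotient.mk (Equiv.Perm.SameCycle.setoid (faceP S)) y) → Face S x y := by
      intro x y hxy
      exact Quotient.exact hxy
    rintro (v | i) (w | j) hvw
    · exact congrArg Sum.inl (hgg v w (hex hvw))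
    · exfalso
      have := hex hvw
      fin_cases j
      · exact hg0 v this
      · exact hgt v this
      · exact hgr v this
    · exfalso
      have := lk34b_face_symm (hex hvw)
      fin_cases i
      · exact hg0 w this
      · exact hgt w this
      · exact hgr w this
    · congr 1
      have := hex hvw
      fin_cases i <;> fin_cases j
      · rfl
      · exact absurd this hdiff
      · exact absurd (lk34b_face_symm this) h30
      · exact absurd (lk34b_face_symm this) hdiff
      · rfl
      · exact absurd (lk34b_face_symm this) h32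
      · exact absurd this h30
      · exact absurd this h32
      · rfl
  have hfin : Finite Q := Quotient.finite _
  have hle := Nat.card_le_card_of_injective F hF
  have hc : Nat.card Q = Fintype.card V + 2 := card_faces hS
  rw [hc, Nat.card_sum, Nat.card_eq_fintype_card, Nat.card_eq_fintype_card, Fintype.card_fin] at hle
  omega

end Pool.Agent.Helper65.LK
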