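import Pool.Agent.Helper65.LK.Two
import Pool.Agent.Helper65.LK.Erase

/-!
# LK-35. Extending a local bipolar orientation from a smoothing

`S'` is obtained from `S` by the smoothing at `v` which merges the corners `c`, `c + 2` (`Erase`), `v` is not nugatory,
`o'` is a local bipolar orientation of `S'` with the special crossing `v₀`.  Let `y_i = S.α (v, i)` and write
`f = faceP S`, `f' = faceP S'`.  `v` is not nugatory, so no `y_i` is at `v`: `α (v,i) = (v,i+1)`
implies `f (v, i) = sg (v, i+1) = (v, i+2)`, and `α (v,i) = (v,i+3)` implies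
`f (v, i + 3) = sg (v, i) = (v, i + 1)`, both make `v` nugatory; `α (v,i) = (v,i+2)` contradicts `alt`.
`f y_i = (v, i + 1)`, `f (v, i) = sg y_i`.  `Erase.far`: `f' = f` except at the darts `y_i`, and by `near`
`α' y_c = y_{c+1}`, `α' y_{c+2} = y_{c+3}`.
The two merged faces: `f`-cycles `(v, c) W₁` and `(v, c+2) W₂`, where `W₁` starts with `sg y_c` and ends with
`y_{c+3}`, `W₂` starts with `sg y_{c+2}` and ends with `y_{c+1}`; the merged `f'`-cycle is `W₁ W₂`.
`W₁, W₂` are not empty.  Let `A₁, A₂` be the numbers of changes inside `W₁`, `W₂`, `J₁` (`J₂`) `= 1` if the signs of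
`y_{c+3}` and `sg y_{c+2}` (of `y_{c+1}` and `sg y_c`) are different, else `0`.  We look for the sign `a` of the
corner `(v, c)` (then `! a` is the sign of `(v, c+2)`; this determines `o v`).
(i) the merged face is not special: `A₁ + J₁ + A₂ + J₂ = 2` (`lbo_two` for `S'`).
  `A₁, A₂ ≥ 1`: then `A₁ = A₂ = 1`, and the faces `(v,c) W₁`, `(v,c+2) W₂` have exactly two changes for
  every `a`.
  `A₁ = 0`, `W₁` constant with sign `p`: `a = ! p`: the first face has two changes, the second one
  `A₂ + [y_{c+1} ≠ p] + [p ≠ sg y_{c+2}] = A₂ + J₂ + J₁ = 2`.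
  `A₂ = 0`, `W₂` constant with sign `q`: `a = q`, in the same way.
(ii) the merged face is special, with constant sign `p` (`c` is even); it contains exactly one of the two special
  corners `(v₀, 0), (v₀, 2)` (they have different signs).  If this corner is in `W₁`: `a = p`, the first face
  is constant, the second one has two changes; if it is in `W₂`: `a = ! p`.
Now count all changes: `S` has `2 n`, `S'` has `2 (n - 1)` (`card_chg`).  The faces which are not
related to `v` have the same changes in `S` and `S'`.  The faces of `(v, c+1)` and `(v, c+3)` in `S` are obtained from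
faces of `S'` by inserting a corner, so their numbers of changes are at least as large.  In case (i) the
two unmerged faces have together `4 = 2 + 2` changes, in case (ii) `2 = 0 + 2`.  So the total is
`2 n` only if the faces of `(v, c+1)`, `(v, c+3)` have the same number of changes as in `S'`: two if they are
not special, none if they are special.  Hence `LBO S o v₀` (`lbo_of`).  The special faces of `S`: those of
the corners `(v₀, 0)`, `(v₀, 2)`.
-/

namespace Pool.Agent.Helper65.LK

open Function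

variable {V : Type} [Fintype V] [DecidableEq V] {S : Shadow V}

namespace L35

/-- the sign at the corner `i` of a crossing with the orientation `b` -/
def sb (b : Bool) (i : ZMod 4) : Bool := if i = 0 ∨ i = 1 then b else !b

theorem sb_two (b : Bool) (i : ZMod 4) : sb b (i + 2) = !sb b i := by
  revert b i; decide

theorem sb_even (b : Bool) (i : ZMod 4) (h : par i = false) : sb b (i + 1) = sb b i := by
  revert b i; decide

theorem sb_odd (b : Bool) (i : ZMod 4) (h : par i = true) : sb b (i + 1) = !sb b i := by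
  revert b i; decide

theorem sb_ex (a : Bool) (i : ZMod 4) : ∃ b, sb b i = a := by
  revert a i; decide

theorem par_succ (i : ZMod 4) : par (i + 1) = !par i := by
  revert i; decide

theorem par_two (i : ZMod 4) : par (i + 2) = par i := by
  revert i; decide

theorem par_cases (i j : ZMod 4) (h : par i = par j) : i = j ∨ j = i + 2 := by
  revert i j; decide

theorem zmod_cases (c i : ZMod 4) : i = c ∨ i = c + 1 ∨ i = c + 2 ∨ i = c + 3 := by
  revert c i; decide

theorem z4_add4 : ∀ c : ZMod 4, c + 2 + 2 = c := by decide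

theorem z4_ne : ∀ c : ZMod 4, c ≠ c + 1 ∧ c ≠ c + 2 ∧ c ≠ c + 3 ∧ c + 2 ≠ c + 1 ∧ c + 2 ≠ c + 3 ∧
    c + 3 ≠ c + 1 := by decide

theorem sgn_eq_sb {W : Type} (o : W → Bool) (x : Dart W) : sgn o x = sb (o x.1) x.2 := rfl

/-- the dart of the smaller diagram -/
def dn {v : V} (X : Dart V) (h : X.1 ≠ v) : Dart {w : V // w ≠ v} := (⟨X.1, h⟩, X.2)

omit [Fintype V] [DecidableEq V] in
theorem up_dn {v : V} (X : Dart V) (h : X.1 ≠ v) : up (dn X h) = X := rfl

omit [Fintype V] [DecidableEq V] in
theorem face_next (S : Shadow V) (x : Dart V) : Face S x (sg (S.α x)) :=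
  Equiv.Perm.sameCycle_apply_right.2 (Equiv.Perm.SameCycle.refl _ _)

omit [Fintype V] [DecidableEq V] in
theorem face_alpha (S : Shadow V) (v : V) (i : ZMod 4) : Face S (S.α (v, i)) (v, i + 1) := by
  have h := face_next S (S.α (v, i))
  rw [S.invol] at h
  exact h

section

variable {v v₀ : V}

theorem face_inj (hS : APD S) (hnug : ¬ Nugat S v) {i j : ZMod 4} (h : Face S (v, i) (v, j)) :
    i = j := by
  rcases par_cases i j (Face.par_eq hS h) with h1 | h1
  · exact h1
  · subst h1
    exact absurd ⟨i, h⟩ hnug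

theorem alpha_ne (hS : APD S) (hnug : ¬ Nugat S v) (i : ZMod 4) : (S.α (v, i)).1 ≠ v := by
  intro h
  have h1 : S.α (v, i) = (v, (S.α (v, i)).2) := Prod.ext h rfl
  have h2 := face_alpha S v i
  rw [h1] at h2
  have h3 := face_inj hS hnug h2
  have h4 := face_next S (v, i)
  rw [h1, h3] at h4
  refine hnug ⟨i, ?_⟩
  have h5 : sg ((v, i + 1) : Dart V) = (v, i + 2) := by
    unfold sg
    simp only [Prod.mk.injEq, true_and]
    ring
  rwa [h5] at h4

/-- `y_i = S.α (v, i)` as a dart of the smaller diagram -/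
def yy (hS : APD S) (hnug : ¬ Nugat S v) (i : ZMod 4) : Dart {w : V // w ≠ v} :=
  dn (S.α (v, i)) (alpha_ne hS hnug i)

theorem yy_mem (hS : APD S) (hnug : ¬ Nugat S v) (i : ZMod 4) :
    Face S (up (yy hS hnug i)) (v, i + 1) := face_alpha S v i

theorem sg_yy_mem (hS : APD S) (hnug : ¬ Nugat S v) (i : ZMod 4) :
    Face S (up (sg (yy hS hnug i))) (v, i) := (face_next S (v, i)).symm

theorem yy_par (hS : APD S) (hnug : ¬ Nugat S v) (i : ZMod 4) :
    par (yy hS hnug i).2 = !par i := by
  have h := hS.alt (v, i)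
  change par (S.α (v, i)).2 ≠ par i at h
  change par (S.α (v, i)).2 = !par i
  revert h
  generalize par (S.α (v, i)).2 = a
  generalize par i = b
  revert a b
  decide

theorem sgn_sg {W : Type} (o' : W → Bool) (x : Dart W) :
    sgn o' (sg x) = if par x.2 = true then !(sgn o' x) else sgn o' x := by
  rw [sgn_eq_sb, sgn_eq_sb]
  change sb (o' x.1) (x.2 + 1) = _
  cases h : par x.2
  · rw [sb_even _ _ h]
    simp
  · rw [sb_odd _ _ h]
    simp

variable {c : ZMod 4} {S' : Shadow {w : V // w ≠ v}} {o' : {w : V // w ≠ v} → Bool}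

/-- the relation between the faces of the two diagrams -/
def FaceRel (S : Shadow V) (v : V) (c : ZMod 4) (S' : Shadow {w : V // w ≠ v}) : Prop :=
  ∀ x y, Face S' x y ↔ (Face S (up x) (up y) ∨
    (Face S (up x) (v, c) ∧ Face S (up y) (v, c + 2)) ∨
    (Face S (up x) (v, c + 2) ∧ Face S (up y) (v, c)))

omit [Fintype V] [DecidableEq V] in
theorem FaceRel.two (h : FaceRel S v c S') : FaceRel S v (c + 2) S' := by
  intro x y
  rw [h x y, z4_add4]
  tauto

omit [Fintype V] [DecidableEq V] in
theorem special_of_face {x y : Dart V} (h : Face S x y) (hx : Special S v₀ x) :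
    Special S v₀ y := by
  rcases hx with hx | hx
  · exact Or.inl (h.symm.trans hx)
  · exact Or.inr (h.symm.trans hx)

theorem special_par (hS : APD S) {i : ZMod 4} (h : Special S v₀ (v, i)) : par i = false := by
  rcases h with h | h
  · have h1 := Face.par_eq hS h
    have h2 : par (0 : ZMod 4) = false := by decide
    exact h1.trans h2
  · have h1 := Face.par_eq hS h
    have h2 : par (2 : ZMod 4) = false := by decide
    exact h1.trans h2

/-- the conditions on the orientation of the new crossing -/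
def Cond (S : Shadow V) (v v₀ : V) (o' : {w : V // w ≠ v} → Bool) (b : Bool) : Prop :=
  ∀ i : ZMod 4, (Special S v₀ (v, i) → ∀ x, Face S (up x) (v, i) → sgn o' x = sb b i) ∧
    (¬ Special S v₀ (v, i) → ∃ x, Face S (up x) (v, i) ∧ sgn o' x ≠ sb b i)

theorem unmerged (hS : APD S) (hnug : ¬ Nugat S v) (hF : FaceRel S v c S') {i : ZMod 4}
    (hi : i = c + 1 ∨ i = c + 3) {x y : Dart {w : V // w ≠ v}} (hx : Face S (up x) (v, i)) :
    Face S' x y ↔ Face S (up y) (v, i) := by
  rw [hF x y]
  constructor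
  · rintro (h | ⟨h, -⟩ | ⟨h, -⟩)
    · exact h.symm.trans hx
    · exfalso
      have h1 := face_inj hS hnug (h.symm.trans hx)
      rw [← h1] at hi
      rcases hi with hi | hi
      · exact (z4_ne c).1 hi
      · exact (z4_ne c).2.2.1 hi
    · exfalso
      have h1 := face_inj hS hnug (h.symm.trans hx)
      rw [← h1] at hi
      rcases hi with hi | hi
      · exact (z4_ne c).2.2.2.1 hi
      · exact (z4_ne c).2.2.2.2.1 hi
  · intro h
    exact Or.inl (hx.trans h.symm)

omit [Fintype V] [DecidableEq V] in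
theorem merged (hF : FaceRel S v c S') {x y : Dart {w : V // w ≠ v}}
    (hx : Face S (up x) (v, c) ∨ Face S (up x) (v, c + 2)) :
    Face S' x y ↔ (Face S (up y) (v, c) ∨ Face S (up y) (v, c + 2)) := by
  rw [hF x y]
  constructor
  · rintro (h | ⟨-, h⟩ | ⟨-, h⟩)
    · rcases hx with hx | hx
      · exact Or.inl (h.symm.trans hx)
      · exact Or.inr (h.symm.trans hx)
    · exact Or.inr h
    · exact Or.inl h
  · rintro (h | h)
    · rcases hx with hx | hx
      · exact Or.inl (hx.trans h.symm)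
      · exact Or.inr (Or.inr ⟨hx, h⟩)
    · rcases hx with hx | hx
      · exact Or.inr (Or.inl ⟨hx, h⟩)
      · exact Or.inl (hx.trans h.symm)

/-- an unmerged face which is not special -/
theorem cond_unmerged (hS : APD S) (hnug : ¬ Nugat S v) (hF : FaceRel S v c S') (hv : v₀ ≠ v)
    (h : LBO S' o' ⟨v₀, hv⟩) {i : ZMod 4} (hi : i = c + 1 ∨ i = c + 3)
    (hns : ¬ Special S v₀ (v, i)) (b : Bool) :
    ∃ x, Face S (up x) (v, i) ∧ sgn o' x ≠ b := by
  have hx := sg_yy_mem hS hnug i
  have h1 : ¬ (Face S' (sg (yy hS hnug i)) (⟨v₀, hv⟩, 0) ∨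
      Face S' (sg (yy hS hnug i)) (⟨v₀, hv⟩, 2)) := by
    rw [unmerged hS hnug hF hi hx, unmerged hS hnug hF hi hx]
    rintro (h1 | h1)
    · exact hns (Or.inl h1.symm)
    · exact hns (Or.inr h1.symm)
  rw [← h] at h1
  push Not at h1
  obtain ⟨y, hy, hy2⟩ := h1
  by_cases hb : sgn o' (sg (yy hS hnug i)) = b
  · refine ⟨y, (unmerged hS hnug hF hi hx).1 hy, ?_⟩
    rw [← hb]
    exact hy2
  · exact ⟨_, hx, hb⟩

/-- an unmerged face which is special -/
theorem unmerged_special (hS : APD S) (hnug : ¬ Nugat S v) (hF : FaceRel S v c S') (hv : v₀ ≠ v)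
    (h : LBO S' o' ⟨v₀, hv⟩) {i : ZMod 4} (hi : i = c + 1 ∨ i = c + 3)
    (hs : Special S v₀ (v, i)) {x y : Dart {w : V // w ≠ v}} (hx : Face S (up x) (v, i))
    (hy : Face S (up y) (v, i)) : sgn o' x = sgn o' y := by
  have h1 : Face S' y (⟨v₀, hv⟩, 0) ∨ Face S' y (⟨v₀, hv⟩, 2) := by
    rw [unmerged hS hnug hF hi hy, unmerged hS hnug hF hi hy]
    rcases hs with hs | hs
    · exact Or.inl hs.symm
    · exact Or.inr hs.symm
  exact (h y).2 h1 x ((unmerged hS hnug hF hi hy).2 hx)

omit [Fintype V] [DecidableEq V] in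
theorem merged_special (hF : FaceRel S v c S') (hv : v₀ ≠ v)
    (h : LBO S' o' ⟨v₀, hv⟩) (hs : Special S v₀ (v, c) ∨ Special S v₀ (v, c + 2))
    {x y : Dart {w : V // w ≠ v}} (hx : Face S (up x) (v, c) ∨ Face S (up x) (v, c + 2))
    (hy : Face S (up y) (v, c) ∨ Face S (up y) (v, c + 2)) : sgn o' x = sgn o' y := by
  have h1 : Face S' y (⟨v₀, hv⟩, 0) ∨ Face S' y (⟨v₀, hv⟩, 2) := by
    rw [merged hF hy, merged hF hy]
    rcases hs with (hs | hs) | (hs | hs)
    · exact Or.inl (Or.inl hs.symm)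
    · exact Or.inr (Or.inl hs.symm)
    · exact Or.inl (Or.inr hs.symm)
    · exact Or.inr (Or.inr hs.symm)
  exact (h y).2 h1 x ((merged hF hy).2 hx)

omit [Fintype V] [DecidableEq V] in
theorem sgn_v0 (o' : {w : V // w ≠ v} → Bool) (hv : v₀ ≠ v) :
    sgn o' ((⟨v₀, hv⟩, 2) : Dart {w : V // w ≠ v}) =
      !(sgn o' ((⟨v₀, hv⟩, 0) : Dart {w : V // w ≠ v})) := by
  rw [sgn_eq_sb, sgn_eq_sb]
  have := sb_two (o' ⟨v₀, hv⟩) 0
  rwa [zero_add] at this

/-- two different special faces have corners of `v₀` with different signs -/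
theorem two_special (hS : APD S) (hnug : ¬ Nugat S v) (hv : v₀ ≠ v) {i j : ZMod 4} (hij : i ≠ j)
    (hi : Special S v₀ (v, i)) (hj : Special S v₀ (v, j)) :
    ∃ x y : Dart {w : V // w ≠ v}, Face S (up x) (v, i) ∧ Face S (up y) (v, j) ∧
      sgn o' x = !(sgn o' y) := by
  rcases hi with hi | hi <;> rcases hj with hj | hj
  · exact absurd (face_inj hS hnug (hi.trans hj.symm)) hij
  · refine ⟨(⟨v₀, hv⟩, 0), (⟨v₀, hv⟩, 2), hi.symm, hj.symm, ?_⟩
    rw [sgn_v0, Bool.not_not]
  · exact ⟨(⟨v₀, hv⟩, 2), (⟨v₀, hv⟩, 0), hi.symm, hj.symm, sgn_v0 o' hv⟩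
  · exact absurd (face_inj hS hnug (hi.trans hj.symm)) hij

/-- the case that the face of `(v, c)` is special -/
theorem cond_even (hS : APD S) (hnug : ¬ Nugat S v) (hF : FaceRel S v c S') (hv : v₀ ≠ v)
    (h : LBO S' o' ⟨v₀, hv⟩) (hs : Special S v₀ (v, c)) : ∃ b, Cond S v v₀ o' b := by
  have hpar := special_par hS hs
  have hx := sg_yy_mem hS hnug c
  obtain ⟨b, hb⟩ := sb_ex (sgn o' (sg (yy hS hnug c))) c
  have hns : ¬ Special S v₀ (v, c + 2) := by
    intro hs2
    obtain ⟨x, y, hx, hy, hxy⟩ := two_special (o' := o') hS hnug hv (i := c) (j := c + 2)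
      (z4_ne c).2.1 hs hs2
    have := merged_special hF hv h (Or.inl hs) (Or.inl hx) (Or.inr hy)
    rw [this] at hxy
    revert hxy
    cases sgn o' y <;> decide
  refine ⟨b, fun i => ?_⟩
  rcases zmod_cases c i with hi | hi | hi | hi
  · subst hi
    refine ⟨fun _ x hx2 => ?_, fun h2 => absurd hs h2⟩
    rw [hb]
    exact merged_special hF hv h (Or.inl hs) (Or.inl hx2) (Or.inl hx)
  · have hns1 : ¬ Special S v₀ (v, i) := by
      intro h2
      have := special_par hS h2
      rw [hi, par_succ, hpar] at this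
      exact absurd this (by decide)
    exact ⟨fun h2 => absurd h2 hns1, fun _ => cond_unmerged hS hnug hF hv h (Or.inl hi) hns1 _⟩
  · subst hi
    refine ⟨fun h2 => absurd h2 hns, fun _ => ⟨_, sg_yy_mem hS hnug (c + 2), ?_⟩⟩
    rw [merged_special hF hv h (Or.inl hs) (Or.inr (sg_yy_mem hS hnug (c + 2))) (Or.inl hx),
      sb_two, hb]
    cases sgn o' (sg (yy hS hnug c)) <;> decide
  · have hns1 : ¬ Special S v₀ (v, i) := by
      intro h2
      have := special_par hS h2
      have h3 : c + 3 = c + 2 + 1 := by ring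
      rw [hi, h3, par_succ, par_two, hpar] at this
      exact absurd this (by decide)
    exact ⟨fun h2 => absurd h2 hns1, fun _ => cond_unmerged hS hnug hF hv h (Or.inr hi) hns1 _⟩

/-- the case that the face of `(v, c + 1)` is special -/
theorem cond_odd (hS : APD S) (hnug : ¬ Nugat S v) (hF : FaceRel S v c S') (hv : v₀ ≠ v)
    (h : LBO S' o' ⟨v₀, hv⟩) (hs : Special S v₀ (v, c + 1)) : ∃ b, Cond S v v₀ o' b := by
  have hpar1 := special_par hS hs
  have hpar : par c = true := by
    rw [par_succ] at hpar1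
    revert hpar1
    cases par c <;> decide
  have hx := sg_yy_mem hS hnug (c + 1)
  set p := sgn o' (sg (yy hS hnug (c + 1))) with hp
  obtain ⟨b, hb⟩ := sb_ex p (c + 1)
  have hb0 : sb b c = !p := by
    have := sb_odd b c hpar
    rw [hb] at this
    rw [this, Bool.not_not]
  have hb2 : sb b (c + 2) = p := by
    rw [sb_two, hb0, Bool.not_not]
  have hb3 : sb b (c + 3) = !p := by
    have h3 : c + 3 = c + 1 + 2 := by ring
    rw [h3, sb_two, hb]
  refine ⟨b, fun i => ?_⟩
  rcases zmod_cases c i with hi | hi | hi | hi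
  · subst hi
    refine ⟨fun h2 => ?_, fun _ => ⟨sg (yy hS hnug i), sg_yy_mem hS hnug i, ?_⟩⟩
    · have := special_par hS h2
      rw [hpar] at this
      exact absurd this (by decide)
    · have h4 : sgn o' (yy hS hnug i) = p :=
        unmerged_special hS hnug hF hv h (Or.inl rfl) hs (yy_mem hS hnug i) hx
      rw [sgn_sg, yy_par, hpar, h4, hb0]
      cases p <;> decide
  · subst hi
    refine ⟨fun _ x hx2 => ?_, fun h2 => absurd hs h2⟩
    rw [hb]
    exact unmerged_special hS hnug hF hv h (Or.inl rfl) hs hx2 hx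
  · subst hi
    refine ⟨fun h2 => ?_, fun _ => ⟨yy hS hnug (c + 1), ?_, ?_⟩⟩
    · have := special_par hS h2
      rw [par_two, hpar] at this
      exact absurd this (by decide)
    · have h5 := yy_mem hS hnug (c + 1)
      have h6 : c + 1 + 1 = c + 2 := by ring
      rwa [h6] at h5
    · have h4 : sgn o' (sg (yy hS hnug (c + 1))) = p := rfl
      rw [sgn_sg, yy_par, hpar1] at h4
      simp only [Bool.not_false, if_true] at h4
      rw [hb2, ← h4]
      cases sgn o' (yy hS hnug (c + 1)) <;> decide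
  · refine ⟨fun h2 x hx2 => ?_, fun hns => cond_unmerged hS hnug hF hv h (Or.inr hi) hns _⟩
    obtain ⟨x1, y1, hx1, hy1, hxy⟩ := two_special (o' := o') hS hnug hv (i := i) (j := c + 1)
      (by rw [hi]; exact (z4_ne c).2.2.2.2.2) h2 hs
    have e1 := unmerged_special hS hnug hF hv h (Or.inr hi) h2 hx2 hx1
    have e2 : sgn o' y1 = p := unmerged_special hS hnug hF hv h (Or.inl rfl) hs hy1 hx
    rw [e1, hxy, e2, hi, hb3]

/-- the case that no face at `v` is special -/
theorem cond_none (hS : APD S) (hnug : ¬ Nugat S v) (hF : FaceRel S v c S') (hv : v₀ ≠ v)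
    (h : LBO S' o' ⟨v₀, hv⟩) (hs : ∀ i, ¬ Special S v₀ (v, i)) : ∃ b, Cond S v v₀ o' b := by
  have hx0 := sg_yy_mem hS hnug c
  have hx2 := sg_yy_mem hS hnug (c + 2)
  have hnc : ∃ y, (Face S (up y) (v, c) ∨ Face S (up y) (v, c + 2)) ∧
      sgn o' y ≠ sgn o' (sg (yy hS hnug c)) := by
    have h1 : ¬ (Face S' (sg (yy hS hnug c)) (⟨v₀, hv⟩, 0) ∨
        Face S' (sg (yy hS hnug c)) (⟨v₀, hv⟩, 2)) := by
      rw [merged hF (Or.inl hx0), merged hF (Or.inl hx0)]
      rintro ((h1 | h1) | (h1 | h1))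
      · exact hs _ (Or.inl h1.symm)
      · exact hs _ (Or.inl h1.symm)
      · exact hs _ (Or.inr h1.symm)
      · exact hs _ (Or.inr h1.symm)
    rw [← h] at h1
    push Not at h1
    obtain ⟨y, hy, hy2⟩ := h1
    exact ⟨y, (merged hF (Or.inl hx0)).1 hy, hy2⟩
  have hkey : ∃ a : Bool, (∃ x, Face S (up x) (v, c) ∧ sgn o' x ≠ a) ∧
      (∃ x, Face S (up x) (v, c + 2) ∧ sgn o' x = a) := by
    obtain ⟨y, hy, hy2⟩ := hnc
    by_cases h1 : sgn o' (sg (yy hS hnug (c + 2))) = sgn o' (sg (yy hS hnug c))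
    · rcases hy with hy | hy
      · exact ⟨sgn o' (sg (yy hS hnug c)), ⟨y, hy, hy2⟩, ⟨_, hx2, h1⟩⟩
      · exact ⟨sgn o' y, ⟨_, hx0, fun he => hy2 he.symm⟩, ⟨y, hy, rfl⟩⟩
    · exact ⟨sgn o' (sg (yy hS hnug (c + 2))), ⟨_, hx0, fun he => h1 he.symm⟩, ⟨_, hx2, rfl⟩⟩
  obtain ⟨a, ⟨x, hx, hxa⟩, ⟨z, hz, hza⟩⟩ := hkey
  obtain ⟨b, hb⟩ := sb_ex a c
  refine ⟨b, fun i => ⟨fun h2 => absurd h2 (hs i), fun _ => ?_⟩⟩
  rcases zmod_cases c i with hi | hi | hi | hi
  · subst hi
    exact ⟨x, hx, by rw [hb]; exact hxa⟩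
  · exact cond_unmerged hS hnug hF hv h (Or.inl hi) (hs i) _
  · subst hi
    refine ⟨z, hz, ?_⟩
    rw [sb_two, hb, hza]
    cases a <;> decide
  · exact cond_unmerged hS hnug hF hv h (Or.inr hi) (hs i) _

theorem exists_cond (hS : APD S) (hnug : ¬ Nugat S v) (hF : FaceRel S v c S') (hv : v₀ ≠ v)
    (h : LBO S' o' ⟨v₀, hv⟩) : ∃ b, Cond S v v₀ o' b := by
  by_cases h0 : Special S v₀ (v, c)
  · exact cond_even hS hnug hF hv h h0
  by_cases h1 : Special S v₀ (v, c + 1)
  · exact cond_odd hS hnug hF hv h h1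
  by_cases h2 : Special S v₀ (v, c + 2)
  · exact cond_even hS hnug hF.two hv h h2
  by_cases h3 : Special S v₀ (v, c + 3)
  · have h4 : c + 3 = c + 2 + 1 := by ring
    rw [h4] at h3
    exact cond_odd hS hnug hF.two hv h h3
  · refine cond_none hS hnug hF hv h fun i => ?_
    rcases zmod_cases c i with hi | hi | hi | hi <;> subst hi <;> assumption

end

end L35

open L35

theorem lbo_lift (hS : APD S) {v v₀ : V} (hv : v₀ ≠ v) (hnug : ¬ Nugat S v) {c : ZMod 4}
    {S' : Shadow {w : V // w ≠ v}} (hE : Erase S v c S') {o' : {w : V // w ≠ v} → Bool}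
    (h : LBO S' o' ⟨v₀, hv⟩) : ∃ o : V → Bool, (∀ w, o w.1 = o' w) ∧ LBO S o v₀ := by
  obtain ⟨b, hb⟩ := exists_cond hS hnug hE.face hv h
  set o : V → Bool := fun w => if hw : w ≠ v then o' ⟨w, hw⟩ else b with ho
  have ho1 : ∀ w : {w : V // w ≠ v}, o w.1 = o' w := by
    intro w
    rw [ho]
    simp only
    rw [dif_pos w.2]
  have ho2 : o v = b := by
    rw [ho]
    simp
  have hup : ∀ x : Dart {w : V // w ≠ v}, sgn o (up x) = sgn o' x := by
    intro x
    rw [sgn_eq_sb, sgn_eq_sb]
    change sb (o x.1.1) x.2 = _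
    rw [ho1]
  have hvi : ∀ i, sgn o (v, i) = sb b i := by
    intro i
    rw [sgn_eq_sb]
    change sb (o v) i = _
    rw [ho2]
  refine ⟨o, ho1, fun X => ?_⟩
  by_cases hX : ∃ i, Face S X (v, i)
  · obtain ⟨i, hi⟩ := hX
    constructor
    · intro hc
      by_contra hns
      have hns1 : ¬ Special S v₀ (v, i) := by
        intro h2
        exact hns (special_of_face hi.symm h2)
      obtain ⟨x, hx, hx2⟩ := (hb i).2 hns1
      have e1 := hc (v, i) hi
      have e2 := hc (up x) (hi.trans hx.symm)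
      rw [hup] at e2
      rw [hvi] at e1
      exact hx2 (e2.trans e1.symm)
    · intro hs
      have hs1 : Special S v₀ (v, i) := special_of_face hi hs
      have hall : ∀ Y, Face S Y (v, i) → sgn o Y = sb b i := by
        intro Y hY
        by_cases hYv : Y.1 = v
        · have e1 : Y = (v, Y.2) := Prod.ext hYv rfl
          rw [e1] at hY ⊢
          have := face_inj hS hnug hY
          rw [hvi, this]
        · have e2 := (hb i).1 hs1 (dn Y hYv) hY
          rw [← hup] at e2
          exact e2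
      intro Y hY
      rw [hall Y (hY.symm.trans hi), hall X hi]
  · push Not at hX
    have hne : ∀ Y, Face S X Y → Y.1 ≠ v := by
      intro Y hY hYv
      apply hX Y.2
      have e1 : Y = (v, Y.2) := Prod.ext hYv rfl
      rwa [← e1]
    have hXv := hne X (Equiv.Perm.SameCycle.refl _ _)
    have hF : ∀ y, Face S' (dn X hXv) y ↔ Face S X (up y) := by
      intro y
      rw [hE.face]
      constructor
      · rintro (h1 | ⟨h1, -⟩ | ⟨h1, -⟩)
        · exact h1
        · exact absurd h1 (hX _)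
        · exact absurd h1 (hX _)
      · intro h1
        exact Or.inl h1
    have h1 := h (dn X hXv)
    rw [hF, hF] at h1
    change _ ↔ Face S X (v₀, 0) ∨ Face S X (v₀, 2) at h1
    rw [← h1]
    constructor
    · intro h2 y hy
      rw [← hup, ← hup]
      exact h2 (up y) ((hF y).1 hy)
    · intro h2 Y hY
      have h3 := h2 (dn Y (hne Y hY)) ((hF _).2 hY)
      rw [← hup, ← hup] at h3
      exact h3

end Pool.Agent.Helper65.LK
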