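import Pool.Agent.Helper65.LK.Kap
import Pool.Agent.Helper65.LK.Free
import Pool.Agent.Helper65.LK.Lift

/-!
# LK-36. A connected alternating diagram with `kap = 2` has a face with two corners

`exists_lbo`: induction on `n = card V ≥ 2`.  `kap S > 0`, so there is no nugatory crossing (`kap_nug`).
Choose `v ≠ v₀`, `SA`, `SB` by `exists_erase` (`c = 0`, `c = 1`).  `kap S = kap SA + kap SB`, so
`kap SA > 0` or `kap SB > 0`.  If `n ≥ 3`, apply the induction hypothesis and `lbo_lift`.  If `n = 2`: there is no nugatory crossing,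
so no edge joins a vertex with itself; by planarity (`card_faces`: four faces, hence all faces have two
corners, as there are eight corners and no face with one corner) `S.α (v₀, i) = (v, j₀ - i)` with an odd `j₀`
(if `S.α (v₀, i) = (v, j)` then `faceP S (faceP S (v₀, i + 1)) = (v₀, i + 1)` forces
`S.α (v₀, i + 1) = (v, j - 1)`).  The faces are `{(v₀, i), (v, j₀ + 1 - i)}`.  Choose `o v₀` arbitrary and `o v` such
that `sgn (v, j₀ + 1) = sgn (v₀, 0)` (`j₀ + 1` is even).  Then the faces with even corners are constant,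
and the faces with odd corners are not: `sgn (v₀, 1) = sgn (v₀, 0) = sgn (v, j₀ + 1) ≠ sgn (v, j₀)`, the same for
`(v₀, 3)`.  So it is a `LBO`.

`kap_ge_two`: `LBO S o v₀` implies `kap S ≥ 2` for `n ≥ 2` by induction: no nugatory crossing
(`lbo_not_nugat`); choose `v ≠ v₀`; `kap S = kap SA + kap SB`, both `≥ 0` (`kap_nonneg`).  `n = 2`: both are `1`
(`kap_one`).  `n ≥ 3`: by `lbo_good` and `lbo_restrict` (`c = 1` if not `Sg` at the even corners, `c = 0` if
not `Sg` at the odd ones) one of `SA, SB` has a `LBO`, so its `kap` is `≥ 2`.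

`exists_two_face`: suppose no face has exactly two corners.  There is no face with one corner (such a
corner `x = faceP S x` makes its vertex nugatory: `α x = x⁻`, so the corners `x⁻ = (v, c - 1)` and
`(v, c + 1)` are in the same face: `faceP S (v, c-1) = sg (α x⁻) = sg x = (v, c+1)`; then `kap S = 0`).
Let `o` be from `exists_lbo` (any `v₀`), `v` from `exists_free`.  By `lbo_restrict` both `SA` and `SB` have a
`LBO`, so `kap S = kap SA + kap SB ≥ 4`, contradiction.
The two corners of the face are at different vertices: `faceP S (v, a) = (v, b)` and `(v, b) ↦ (v, a)`: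
`a = b ± 1` contradicts the parity, `b = a + 2`: nugatory.
-/

namespace Pool.Agent.Helper65.LK

open Function

variable {V : Type} [Fintype V] [DecidableEq V] {S : Shadow V}

omit [Fintype V] [DecidableEq V] in
private theorem sp_face_next (x : Dart V) : Face S x (faceP S x) :=
  Equiv.Perm.sameCycle_apply_right.2 (Equiv.Perm.SameCycle.refl _ _)

private theorem sp_par_ne (i j : ZMod 4) (h : par j ≠ par i) : j = i + 1 ∨ j = i + 3 := by
  revert i j; decide

private theorem sp_par_eq (i j : ZMod 4) (h : par i = par j) : j = i ∨ j = i + 2 := by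
  revert i j; decide

private theorem sp_add (i : ZMod 4) : i + 3 + 1 = i ∧ i + 3 + 2 = i + 1 ∧ i + 1 + 1 = i + 2 := by
  revert i; decide

omit [DecidableEq V] in
/-- an edge from a vertex to itself makes it nugatory -/
private theorem sp_nug_self (hS : APD S) (v : V) (i : ZMod 4) (h : (S.α (v, i)).1 = v) :
    Nugat S v := by
  have hpar := hS.alt (v, i)
  have e : S.α (v, i) = (v, (S.α (v, i)).2) := Prod.ext h rfl
  rcases sp_par_ne i (S.α (v, i)).2 hpar with h1 | h1
  · refine ⟨i, ?_⟩
    have h2 : faceP S (v, i) = (v, i + 2) := by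
      rw [faceP_apply, e, h1]
      show (v, i + 1 + 1) = _
      rw [(sp_add i).2.2]
    rw [← h2]
    exact sp_face_next _
  · refine ⟨i + 3, ?_⟩
    have h3 : S.α (v, i + 3) = (v, i) := by
      rw [h1] at e
      rw [← e, S.invol]
    have h2 : faceP S (v, i + 3) = (v, i + 3 + 2) := by
      rw [faceP_apply, h3, (sp_add i).2.1]
      rfl
    rw [← h2]
    exact sp_face_next _

omit [DecidableEq V] in
/-- a face with one corner makes its vertex nugatory -/
private theorem sp_nug_one (hS : APD S) (x : Dart V) (h : faceP S x = x) : Nugat S x.1 := by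
  apply sp_nug_self hS x.1 x.2
  have h1 : sg (S.α x) = x := h
  have h2 := congrArg Prod.fst h1
  exact h2

private theorem sp_four (a b c d : ZMod 4) (ha : par a ≠ par 0) (hb : par b ≠ par 1)
    (hc : par c ≠ par 2) (hd : par d ≠ par 3) (hac : a ≠ c) (hbd : b ≠ d)
    (h : b ≠ a + 1) : (a = 1 ∨ a = 3) ∧ b = a - 1 ∧ c = a - 2 ∧ d = a - 3 := by
  revert a b c d; decide

/-- a diagram with two crossings, none of them nugatory -/
private theorem sp_two (hS : APD S) (hn : Fintype.card V = 2) (hnug : ∀ v, ¬ Nugat S v) (v₀ : V) :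
    ∃ v, v ≠ v₀ ∧ (∀ w, w = v₀ ∨ w = v) ∧
      ∃ a : ZMod 4, (a = 1 ∨ a = 3) ∧ ∀ i, S.α (v₀, i) = (v, a - i) := by
  obtain ⟨x, y, hxy, huniv⟩ := Finset.card_eq_two.1 hn
  have hall : ∀ w : V, w = x ∨ w = y := by
    intro w
    have : w ∈ (Finset.univ : Finset V) := Finset.mem_univ w
    rw [huniv] at this
    simpa using this
  obtain ⟨v, hv, hw⟩ : ∃ v, v ≠ v₀ ∧ ∀ w, w = v₀ ∨ w = v := by
    rcases hall v₀ with h | h
    · subst h
      exact ⟨y, hxy.symm, hall⟩
    · subst h
      exact ⟨x, hxy, fun w => (hall w).symm⟩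
  refine ⟨v, hv, hw, ?_⟩
  have hf : ∀ i, S.α (v₀, i) = (v, (S.α (v₀, i)).2) := by
    intro i
    refine Prod.ext ?_ rfl
    rcases hw (S.α (v₀, i)).1 with h | h
    · exact absurd (sp_nug_self hS v₀ i h) (hnug v₀)
    · exact h
  have hinj : ∀ i j, (S.α (v₀, i)).2 = (S.α (v₀, j)).2 → i = j := by
    intro i j h
    have h1 : S.α (v₀, i) = S.α (v₀, j) := by rw [hf i, hf j, h]
    have h2 := S.α.injective h1
    exact congrArg Prod.snd h2
  have hne : ∀ i, (S.α (v₀, i + 1)).2 ≠ (S.α (v₀, i)).2 + 1 := by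
    intro i h
    apply hnug v₀
    refine ⟨i, ?_⟩
    have h1 : faceP S (v₀, i) = S.α (v₀, i + 1) := by
      rw [faceP_apply, hf i, hf (i + 1), h]
      rfl
    have h2 : faceP S (faceP S (v₀, i)) = (v₀, i + 2) := by
      rw [h1, faceP_apply, S.invol]
      show (v₀, i + 1 + 1) = _
      rw [(sp_add i).2.2]
    rw [← h2]
    exact (sp_face_next _).trans (sp_face_next _)
  have h4 := sp_four (S.α (v₀, 0)).2 (S.α (v₀, 1)).2 (S.α (v₀, 2)).2 (S.α (v₀, 3)).2
    (hS.alt _) (hS.alt _) (hS.alt _) (hS.alt _)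
    (fun h => absurd (hinj _ _ h) (by decide)) (fun h => absurd (hinj _ _ h) (by decide))
    (by simpa using hne 0)
  refine ⟨(S.α (v₀, 0)).2, h4.1, fun i => ?_⟩
  rw [hf i]
  have : ∀ i : ZMod 4, i = 0 ∨ i = 1 ∨ i = 2 ∨ i = 3 := by decide
  rcases this i with rfl | rfl | rfl | rfl
  · rw [sub_zero]
  · rw [h4.2.1]
  · rw [h4.2.2.1]
  · rw [h4.2.2.2]

private theorem sp_alg (a j : ZMod 4) : a - (a - j) = j ∧ a - (a + 1 - j) + 1 = j ∧
    a - j + 1 = a + 1 - j := by
  refine ⟨?_, ?_, ?_⟩ <;> ring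

/-- the faces of such a diagram -/
private theorem sp_two_face {v₀ v : V} {a : ZMod 4} (h : ∀ i, S.α (v₀, i) = (v, a - i)) :
    (∀ i, faceP S (v₀, i) = (v, a + 1 - i)) ∧ ∀ j, faceP S (v, j) = (v₀, a + 1 - j) := by
  constructor
  · intro i
    rw [faceP_apply, h i]
    show (v, a - i + 1) = _
    rw [(sp_alg a i).2.2]
  · intro j
    have h1 : S.α (v₀, a - j) = (v, j) := by
      rw [h, (sp_alg a j).1]
    have h2 : S.α (v, j) = (v₀, a - j) := by
      rw [← h1, S.invol]
    rw [faceP_apply, h2]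
    show (v₀, a - j + 1) = _
    rw [(sp_alg a j).2.2]

private theorem sp_invol (hS : APD S) (hn : Fintype.card V = 2) (hnug : ∀ v, ¬ Nugat S v)
    (x : Dart V) : faceP S (faceP S x) = x := by
  obtain ⟨v, -, -, a, -, h⟩ := sp_two hS hn hnug x.1
  obtain ⟨h1, h2⟩ := sp_two_face h
  have e : x = (x.1, x.2) := rfl
  rw [e, h1, h2]
  refine Prod.ext rfl ?_
  show a + 1 - (a + 1 - x.2) = x.2
  ring

omit [Fintype V] [DecidableEq V] in
private theorem sp_face_iff (h : ∀ x, faceP S (faceP S x) = x) (x y : Dart V) :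
    Face S x y ↔ y = x ∨ y = faceP S x := by
  constructor
  · rintro ⟨k, hk⟩
    have h2 : (faceP S) ^ 2 = 1 := by
      ext1 z
      rw [pow_two, Equiv.Perm.mul_apply, h]
      rfl
    rcases Int.even_or_odd' k with ⟨m, hm | hm⟩
    · left
      rw [hm, zpow_mul] at hk
      have : (faceP S) ^ (2 : ℤ) = 1 := by exact_mod_cast h2
      rw [this, one_zpow] at hk
      exact hk.symm
    · right
      rw [hm, zpow_add, zpow_mul, zpow_one] at hk
      have : (faceP S) ^ (2 : ℤ) = 1 := by exact_mod_cast h2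
      rw [this, one_zpow, one_mul] at hk
      exact hk.symm
  · rintro (rfl | rfl)
    · exact Equiv.Perm.SameCycle.refl _ _
    · exact sp_face_next _

private theorem sp_sgn_a (a i : ZMod 4) (ha : a = 1 ∨ a = 3) :
    ((if a + 1 - i = 0 ∨ a + 1 - i = 1 then decide (a = 3) else !(decide (a = 3))) =
      (if i = 0 ∨ i = 1 then true else !true)) ↔ (i = 0 ∨ i = 2) := by
  revert a i; decide

private theorem sp_sgn_b (a j : ZMod 4) (ha : a = 1 ∨ a = 3) :
    ((if a + 1 - j = 0 ∨ a + 1 - j = 1 then true else !true) =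
      (if j = 0 ∨ j = 1 then decide (a = 3) else !(decide (a = 3)))) ↔
        (a + 1 - j = 0 ∨ a + 1 - j = 2) := by
  revert a j; decide

private theorem sp_lbo_two (hS : APD S) (hn : Fintype.card V = 2) (hnug : ∀ v, ¬ Nugat S v)
    (v₀ : V) : ∃ o : V → Bool, LBO S o v₀ := by
  obtain ⟨v, hv, hw, a, ha, h⟩ := sp_two hS hn hnug v₀
  obtain ⟨h1, h2⟩ := sp_two_face h
  have hinv := sp_invol hS hn hnug
  refine ⟨fun w => if w = v₀ then true else decide (a = 3), fun x => ?_⟩
  set o : V → Bool := fun w => if w = v₀ then true else decide (a = 3) with ho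
  have ho0 : o v₀ = true := by simp [ho]
  have hov : o v = decide (a = 3) := by simp [ho, hv]
  have hL : (∀ y, Face S x y → sgn o y = sgn o x) ↔ sgn o (faceP S x) = sgn o x := by
    constructor
    · intro H
      exact H _ (sp_face_next x)
    · intro H y hy
      rcases (sp_face_iff hinv x y).1 hy with rfl | rfl
      · rfl
      · exact H
  rw [hL, sp_face_iff hinv, sp_face_iff hinv]
  obtain ⟨w, i⟩ := x
  rcases hw w with rfl | rfl
  · rw [h1]
    have e1 : sgn o (v, a + 1 - i) =
        (if a + 1 - i = 0 ∨ a + 1 - i = 1 then decide (a = 3) else !(decide (a = 3))) := by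
      show (if a + 1 - i = 0 ∨ a + 1 - i = 1 then o v else !(o v)) = _
      rw [hov]
    have e2 : sgn o (w, i) = (if i = 0 ∨ i = 1 then true else !true) := by
      show (if i = 0 ∨ i = 1 then o w else !(o w)) = _
      rw [ho0]
    rw [e1, e2, sp_sgn_a a i ha]
    constructor
    · rintro (rfl | rfl)
      · exact Or.inl (Or.inl rfl)
      · exact Or.inr (Or.inl rfl)
    · rintro ((h | h) | (h | h))
      · exact Or.inl (congrArg Prod.snd h).symm
      · exact absurd (congrArg Prod.fst h).symm hv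
      · exact Or.inr (congrArg Prod.snd h).symm
      · exact absurd (congrArg Prod.fst h).symm hv
  · rw [h2]
    have e1 : sgn o (v₀, a + 1 - i) =
        (if a + 1 - i = 0 ∨ a + 1 - i = 1 then true else !true) := by
      show (if a + 1 - i = 0 ∨ a + 1 - i = 1 then o v₀ else !(o v₀)) = _
      rw [ho0]
    have e2 : sgn o (w, i) = (if i = 0 ∨ i = 1 then decide (a = 3) else !(decide (a = 3))) := by
      show (if i = 0 ∨ i = 1 then o w else !(o w)) = _
      rw [hov]
    rw [e1, e2, sp_sgn_b a i ha]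
    constructor
    · rintro (h | h)
      · exact Or.inl (Or.inr (by rw [h]))
      · exact Or.inr (Or.inr (by rw [h]))
    · rintro ((h | h) | (h | h))
      · exact absurd (congrArg Prod.fst h).symm hv
      · exact Or.inl (congrArg Prod.snd h).symm
      · exact absurd (congrArg Prod.fst h).symm hv
      · exact Or.inr (congrArg Prod.snd h).symm

theorem not_nugat_of_kap (hS : APD S) (hn : 2 ≤ Fintype.card V) (hk : kap S ≠ 0) (v : V) :
    ¬ Nugat S v := fun h => hk (kap_nug hS hn h)

private theorem sp_card (v : V) : Fintype.card {w : V // w ≠ v} = Fintype.card V - 1 := by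
  simp

private theorem sp_erase (hS : APD S) (hn : 2 ≤ Fintype.card V) (hnug : ∀ v, ¬ Nugat S v)
    (v : V) : ∃ SA SB, Erase S v 0 SA ∧ Erase S v 1 SB ∧ kap S = kap SA + kap SB := by
  obtain ⟨SA, hA⟩ := exists_erase hS v 0 (fun h => hnug v ⟨0, h⟩) hn
  obtain ⟨SB, hB⟩ := exists_erase hS v 1 (fun h => hnug v ⟨1, h⟩) hn
  exact ⟨SA, SB, hA, hB, kap_rec hS hn hA hB⟩

private theorem sp_exists_ne (hn : 2 ≤ Fintype.card V) (v₀ : V) : ∃ v, v₀ ≠ v := by
  have : Nontrivial V := Fintype.one_lt_card_iff_nontrivial.1 (by omega)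
  obtain ⟨v, hv⟩ := exists_ne v₀
  exact ⟨v, hv.symm⟩

private theorem sp_exists_lbo (n : ℕ) : ∀ (V : Type) [Fintype V] [DecidableEq V] (S : Shadow V),
    APD S → Fintype.card V = n → 2 ≤ n → 0 < kap S → ∀ v₀ : V, ∃ o : V → Bool, LBO S o v₀ := by
  induction n with
  | zero => intro V _ _ S _ _ h; omega
  | succ n ih =>
    intro V _ _ S hS hc hn hk v₀
    have hn' : 2 ≤ Fintype.card V := by omega
    have hnug := not_nugat_of_kap hS hn' hk.ne'
    by_cases h2 : n + 1 = 2
    · exact sp_lbo_two hS (by omega) hnug v₀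
    · obtain ⟨v, hv⟩ := sp_exists_ne hn' v₀
      obtain ⟨SA, SB, hA, hB, hkap⟩ := sp_erase hS hn' hnug v
      have hcard : Fintype.card {w : V // w ≠ v} = n := by rw [sp_card, hc]; omega
      rcases lt_or_ge 0 (kap SA) with h | h
      · obtain ⟨o', ho'⟩ := ih {w : V // w ≠ v} SA hA.apd hcard (by omega) h ⟨v₀, hv⟩
        obtain ⟨o, -, ho⟩ := lbo_lift hS hv (hnug v) hA ho'
        exact ⟨o, ho⟩
      · have h' : 0 < kap SB := by
          rw [hkap] at hk
          linarith
        obtain ⟨o', ho'⟩ := ih {w : V // w ≠ v} SB hB.apd hcard (by omega) h' ⟨v₀, hv⟩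
        obtain ⟨o, -, ho⟩ := lbo_lift hS hv (hnug v) hB ho'
        exact ⟨o, ho⟩

theorem exists_lbo (hS : APD S) (hn : 2 ≤ Fintype.card V) (hk : 0 < kap S) (v₀ : V) :
    ∃ o : V → Bool, LBO S o v₀ :=
  sp_exists_lbo _ V S hS rfl hn hk v₀

private theorem sp_kap_ge_two (n : ℕ) : ∀ (V : Type) [Fintype V] [DecidableEq V] (S : Shadow V),
    APD S → Fintype.card V = n → 2 ≤ n → ∀ (o : V → Bool) (v₀ : V), LBO S o v₀ →
      2 ≤ kap S := by
  induction n with
  | zero => intro V _ _ S _ _ h; omega
  | succ n ih =>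
    intro V _ _ S hS hc hn o v₀ h
    have hn' : 2 ≤ Fintype.card V := by omega
    have hnug := lbo_not_nugat hS hn' h
    obtain ⟨v, hv⟩ := sp_exists_ne hn' v₀
    obtain ⟨SA, SB, hA, hB, hkap⟩ := sp_erase hS hn' hnug v
    have hcard : Fintype.card {w : V // w ≠ v} = n := by rw [sp_card, hc]; omega
    have hA0 := kap_nonneg hA.apd
    have hB0 := kap_nonneg hB.apd
    by_cases h2 : n + 1 = 2
    · have hA1 := kap_one hA.apd (by omega)
      have hB1 := kap_one hB.apd (by omega)
      rw [hkap, hA1, hB1]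
      norm_num
    · rcases lbo_good h v with hg | hg
      · have hL := lbo_restrict hS hn' h hv hB
          (by
            have : (1 : ZMod 4) + 1 = 2 := by decide
            rw [this]
            exact hg.2)
          (by
            have : (1 : ZMod 4) + 3 = 0 := by decide
            rw [this]
            exact hg.1)
        have := ih {w : V // w ≠ v} SB hB.apd hcard (by omega) _ _ hL
        rw [hkap]
        linarith
      · have hL := lbo_restrict hS hn' h hv hA (by simpa using hg.1) (by simpa using hg.2)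
        have := ih {w : V // w ≠ v} SA hA.apd hcard (by omega) _ _ hL
        rw [hkap]
        linarith

theorem kap_ge_two (hS : APD S) (hn : 2 ≤ Fintype.card V) {o : V → Bool} {v₀ : V}
    (h : LBO S o v₀) : 2 ≤ kap S :=
  sp_kap_ge_two _ V S hS rfl hn o v₀ h

theorem exists_two_face (hS : APD S) (hn : 2 ≤ Fintype.card V) (hk : kap S = 2) :
    ∃ (v w : V) (a b : ZMod 4), v ≠ w ∧ faceP S (v, a) = (w, b) ∧ faceP S (w, b) = (v, a) := by
  have hk0 : kap S ≠ 0 := by rw [hk]; norm_num
  have hnug := not_nugat_of_kap hS hn hk0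
  have h1 : ∀ x, faceP S x ≠ x := fun x hx => hnug x.1 (sp_nug_one hS x hx)
  have hV : Nonempty V := Fintype.card_pos_iff.1 (by omega)
  obtain ⟨v₀⟩ := hV
  obtain ⟨x, hx⟩ : ∃ x, faceP S (faceP S x) = x := by
    by_contra hcon
    push Not at hcon
    by_cases h2 : Fintype.card V = 2
    · exact hcon (v₀, 0) (sp_invol hS h2 hnug _)
    · obtain ⟨o, ho⟩ := exists_lbo hS hn (by rw [hk]; norm_num) v₀
      obtain ⟨v, hv, hfree⟩ := exists_free hS ho h1 hcon
      obtain ⟨SA, SB, hA, hB, hkap⟩ := sp_erase hS hn hnug v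
      have hLA := lbo_restrict hS hn ho hv.symm hA (hfree _) (hfree _)
      have hLB := lbo_restrict hS hn ho hv.symm hB (hfree _) (hfree _)
      have hcard : 2 ≤ Fintype.card {w : V // w ≠ v} := by rw [sp_card]; omega
      have k1 := kap_ge_two hA.apd hcard hLA
      have k2 := kap_ge_two hB.apd hcard hLB
      rw [hk] at hkap
      linarith
  refine ⟨x.1, (faceP S x).1, x.2, (faceP S x).2, ?_, rfl, hx⟩
  intro he
  have hface : Face S x (faceP S x) := sp_face_next x
  have hpar := Face.par_eq hS hface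
  rcases sp_par_eq _ _ hpar with h | h
  · exact h1 x (Prod.ext he.symm h)
  · apply hnug x.1
    refine ⟨x.2, ?_⟩
    have e : faceP S x = (x.1, x.2 + 2) := Prod.ext he.symm h
    rw [← e]
    exact hface

end Pool.Agent.Helper65.LK
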