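import Pool.Agent.Helper65.LK.Expand
import Pool.Agent.Helper65.LK.SerPar

/-!
# LK-42. Connected alternating diagrams with `kap = 2` are algebraic

`kap_collapse`: let `(v, a), (w, b)` be the corners of a face with two corners, `v ≠ w`: `S.α (v, a) = (w, b - 1)`,
`S.α (w, b) = (v, a - 1)`.  `S₁` is obtained by the smoothing of `v` which merges the corners `a`, `a + 2` (it joins the
darts `a, a+1` and `a+2, a+3`), `S₂` by the one which merges `a + 1`, `a + 3`: in `S₂` the darts `(w, b-1)` and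
`(w, b)` are joined (through the darts `a, a - 1` of `v`), a kink, so `w` is nugatory (`faceP (w, b-1) = sg (w, b)`)
and `kap S₂ = 0` if there are at least two vertices besides `v` (`kap_nug`).  So
`kap S = kap S₁` by `kap_rec` (for `a` even `S₁` belongs to `c = 0`, note that `Erase S v a` for
`a = 2` is `Erase S v 0`, as `mrg 2 = mrg 0`, and for `a` odd to `c = 1`; both `Erase`s exist because there
is no nugatory crossing (`not_nugat_of_kap`, as `kap S ≠ 0`)).

`collapse_expand`: the new edges: `S₁.α (w, b-1) = S.α (v, a+1)`, `S₁.α (w, b) = S.α (v, a+2)` (`Erase.near`; `v` is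
not nugatory, so the darts `S.α (v, a+1)`, `S.α (v, a+2)` are not at `v`).  The isomorphism from
`expand S₁ w b` to `S`: the identity on the vertices `≠ v`, and the new vertex is mapped to `v`, rotated by
`a - (b + 2)` (even: `a` and `b` have the same parity, by `alt`): its darts
`b+2, b+3, b, b+1` correspond to the darts `a, a+1, a+2, a+3` of `v`.

`exists_tree`: induction on `n`.  `n = 2`: no nugatory crossing, so (see the header of `SerPar.lean`)
`S.α (v₀, i) = (v, j₀ - i)` with `j₀ ∈ {1, 3}`: `S` is isomorphic to `leaf.dia leaf` (`f` the bijection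
`v₀ ↦ inl, v ↦ inr`, `c = 0` for `j₀ = 1` and `c v = 2` for `j₀ = 3`).
`n ≥ 3`: `exists_two_face`, `kap_collapse`, the induction hypothesis for `S₁`, `collapse_expand`, `expand_congr`,
`exists_expand_dia`.
-/

namespace Pool.Agent.Helper65.LK

open Function

variable {V : Type} [Fintype V] [DecidableEq V] {S : Shadow V}

omit [Fintype V] [DecidableEq V] in
private theorem tr_face_next (x : Dart V) : Face S x (faceP S x) :=
  Equiv.Perm.sameCycle_apply_right.2 (Equiv.Perm.SameCycle.refl _ _)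

private theorem tr_par_ne (i j : ZMod 4) (h : par j ≠ par i) : j = i + 1 ∨ j = i + 3 := by
  revert i j; decide

private theorem tr_add (i : ZMod 4) : i + 3 + 1 = i ∧ i + 3 + 2 = i + 1 ∧ i + 1 + 1 = i + 2 := by
  revert i; decide

omit [DecidableEq V] in
/-- an edge from a vertex to itself makes it nugatory -/
private theorem tr_nug_self (hS : APD S) (v : V) (i : ZMod 4) (h : (S.α (v, i)).1 = v) :
    Nugat S v := by
  have hpar := hS.alt (v, i)
  have e : S.α (v, i) = (v, (S.α (v, i)).2) := Prod.ext h rfl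
  rcases tr_par_ne i (S.α (v, i)).2 hpar with h1 | h1
  · refine ⟨i, ?_⟩
    have h2 : faceP S (v, i) = (v, i + 2) := by
      rw [faceP_apply, e, h1]
      show (v, i + 1 + 1) = _
      rw [(tr_add i).2.2]
    rw [← h2]
    exact tr_face_next _
  · refine ⟨i + 3, ?_⟩
    have h3 : S.α (v, i + 3) = (v, i) := by
      rw [h1] at e
      rw [← e, S.invol]
    have h2 : faceP S (v, i + 3) = (v, i + 3 + 2) := by
      rw [faceP_apply, h3, (tr_add i).2.1]
      rfl
    rw [← h2]
    exact tr_face_next _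

private theorem tr_four (a b c d : ZMod 4) (ha : par a ≠ par 0) (hb : par b ≠ par 1)
    (hc : par c ≠ par 2) (hd : par d ≠ par 3) (hac : a ≠ c) (hbd : b ≠ d)
    (h : b ≠ a + 1) : (a = 1 ∨ a = 3) ∧ b = a - 1 ∧ c = a - 2 ∧ d = a - 3 := by
  revert a b c d; decide

/-- a diagram with two crossings, none of them nugatory -/
private theorem tr_two (hS : APD S) (hn : Fintype.card V = 2) (hnug : ∀ v, ¬ Nugat S v) (v₀ : V) :
    ∃ v, v ≠ v₀ ∧ (∀ w, w = v₀ ∨ w = v) ∧
      ∃ a : ZMod 4, (a = 1 ∨ a = 3) ∧ ∀ i, S.α (v₀, i) = (v, a - i) := by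
  obtain ⟨x, y, hxy, huniv⟩ := Finset.card_eq_two.1 hn
  have hall : ∀ w : V, w = x ∨ w = y := by
    intro w
    have : w ∈ (Finset.univ : Finset V) := Finset.mem_univ w
    rw [huniv] at this
    simpa using this
  obtain ⟨v, hv, hw⟩ : ∃ v, v ≠ v₀ ∧ ∀ w, w = v₀ ∨ w = v := by
    rcases hall v₀ with h | h
    · subst h
      exact ⟨y, hxy.symm, hall⟩
    · subst h
      exact ⟨x, hxy, fun w => (hall w).symm⟩
  refine ⟨v, hv, hw, ?_⟩
  have hf : ∀ i, S.α (v₀, i) = (v, (S.α (v₀, i)).2) := by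
    intro i
    refine Prod.ext ?_ rfl
    rcases hw (S.α (v₀, i)).1 with h | h
    · exact absurd (tr_nug_self hS v₀ i h) (hnug v₀)
    · exact h
  have hinj : ∀ i j, (S.α (v₀, i)).2 = (S.α (v₀, j)).2 → i = j := by
    intro i j h
    have h1 : S.α (v₀, i) = S.α (v₀, j) := by rw [hf i, hf j, h]
    have h2 := S.α.injective h1
    exact congrArg Prod.snd h2
  have hne : ∀ i, (S.α (v₀, i + 1)).2 ≠ (S.α (v₀, i)).2 + 1 := by
    intro i h
    apply hnug v₀
    refine ⟨i, ?_⟩
    have h1 : faceP S (v₀, i) = S.α (v₀, i + 1) := by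
      rw [faceP_apply, hf i, hf (i + 1), h]
      rfl
    have h2 : faceP S (faceP S (v₀, i)) = (v₀, i + 2) := by
      rw [h1, faceP_apply, S.invol]
      show (v₀, i + 1 + 1) = _
      rw [(tr_add i).2.2]
    rw [← h2]
    exact (tr_face_next _).trans (tr_face_next _)
  have h4 := tr_four (S.α (v₀, 0)).2 (S.α (v₀, 1)).2 (S.α (v₀, 2)).2 (S.α (v₀, 3)).2
    (hS.alt _) (hS.alt _) (hS.alt _) (hS.alt _)
    (fun h => absurd (hinj _ _ h) (by decide)) (fun h => absurd (hinj _ _ h) (by decide))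
    (by simpa using hne 0)
  refine ⟨(S.α (v₀, 0)).2, h4.1, fun i => ?_⟩
  rw [hf i]
  have : ∀ i : ZMod 4, i = 0 ∨ i = 1 ∨ i = 2 ∨ i = 3 := by decide
  rcases this i with rfl | rfl | rfl | rfl
  · rw [sub_zero]
  · rw [h4.2.1]
  · rw [h4.2.2.1]
  · rw [h4.2.2.2]

private theorem tr_mrg (c : ZMod 4) : mrg (c + 2) = mrg c ∧ (mrg c).mate c = c + 1 ∧
    (mrg c).mate (c + 1) = c ∧ (mrg c).mate (c + 2) = c + 3 ∧ (mrg c).mate (c + 3) = c + 2 ∧
    (mrg (c + 1)).mate c = c + 3 ∧ c + 2 + 2 = c := by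
  revert c; decide

private theorem tr_erase_two {v : V} {c : ZMod 4} {S' : Shadow {w : V // w ≠ v}}
    (h : Erase S v c S') : Erase S v (c + 2) S' := by
  obtain ⟨m1, -, -, -, -, -, m2⟩ := tr_mrg c
  refine ⟨h.apd, fun x y => ?_, h.far, ?_, ?_⟩
  · rw [m2, h.face x y]
    constructor
    · rintro (h | h | h)
      · exact Or.inl h
      · exact Or.inr (Or.inr h)
      · exact Or.inr (Or.inl h)
    · rintro (h | h | h)
      · exact Or.inl h
      · exact Or.inr (Or.inr h)
      · exact Or.inr (Or.inl h)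
  · rw [m1]
    exact h.near
  · rw [m1]
    exact h.q

private theorem tr_erase_par {v : V} {c : ZMod 4} {S' : Shadow {w : V // w ≠ v}}
    (h : Erase S v c S') : (c = 0 ∨ c = 2 → Erase S v 0 S') ∧ (c = 1 ∨ c = 3 → Erase S v 1 S') := by
  have e1 : (2 : ZMod 4) + 2 = 0 := by decide
  have e2 : (3 : ZMod 4) + 2 = 1 := by decide
  constructor
  · rintro (rfl | rfl)
    · exact h
    · have := tr_erase_two h
      rwa [e1] at this
  · rintro (rfl | rfl)
    · exact h
    · have := tr_erase_two h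
      rwa [e2] at this

omit [Fintype V] [DecidableEq V] in
private theorem tr_alpha {v w : V} {a b : ZMod 4} (h1 : faceP S (v, a) = (w, b)) :
    S.α (v, a) = (w, b - 1) := by
  have h2 : sg (S.α (v, a)) = (w, b) := h1
  have h4 : (S.α (v, a)).1 = w := congrArg (fun z : Dart V => z.1) h2
  refine Prod.ext h4 ?_
  have h3 : (S.α (v, a)).2 + 1 = b := congrArg (fun z : Dart V => z.2) h2
  show (S.α (v, a)).2 = b - 1
  rw [← h3, add_sub_cancel_right]

theorem kap_collapse (hS : APD S) (hn : 3 ≤ Fintype.card V) (hk : kap S ≠ 0) {v w : V}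
    {a b : ZMod 4} (hvw : v ≠ w) (h1 : faceP S (v, a) = (w, b)) (h2 : faceP S (w, b) = (v, a))
    {S₁ : Shadow {u : V // u ≠ v}} (hE : Erase S v a S₁) : kap S₁ = kap S := by
  have hnug := not_nugat_of_kap hS (by omega) hk v
  have e1 : ∀ a : ZMod 4, a + 1 + 2 = a + 3 := by decide
  obtain ⟨S₂, hE₂⟩ := exists_erase hS v (a + 1) (fun h => hnug ⟨a + 1, h⟩) (by omega)
  have a1 := tr_alpha h1
  have a2 := tr_alpha h2
  have hcard : 2 ≤ Fintype.card {u : V // u ≠ v} := by
    have : Fintype.card {u : V // u ≠ v} = Fintype.card V - 1 := by simp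
    omega
  obtain ⟨-, -, -, -, -, m6, -⟩ := tr_mrg a
  have e3 : a + 3 = a - 1 := by clear * -; revert a; decide
  -- the kink
  have hw : S₂.α (⟨w, hvw.symm⟩, b - 1) = (⟨w, hvw.symm⟩, b) := by
    have h3 : up (S₂.α (⟨w, hvw.symm⟩, b - 1)) = S.α (v, a + 3) := by
      refine hE₂.near _ a (a + 3) ?_ m6 ?_
      · show S.α (w, b - 1) = (v, a)
        rw [← a1, S.invol]
      · rw [e3, ← a2, S.invol]
        exact hvw.symm
    rw [e3, ← a2, S.invol] at h3
    have h4 := congrArg (fun z : Dart V => z.1) h3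
    have h5 := congrArg (fun z : Dart V => z.2) h3
    exact Prod.ext (Subtype.ext h4) h5
  have hnug₂ : Nugat S₂ ⟨w, hvw.symm⟩ := by
    refine ⟨b - 1, ?_⟩
    have h3 : faceP S₂ (⟨w, hvw.symm⟩, b - 1) = (⟨w, hvw.symm⟩, b - 1 + 2) := by
      rw [faceP_apply, hw]
      refine Prod.ext rfl ?_
      show b + 1 = b - 1 + 2
      clear * -
      revert b; decide
    rw [← h3]
    exact tr_face_next _
  have hk₂ : kap S₂ = 0 := kap_nug hE₂.apd hcard hnug₂
  have hp1 := tr_erase_par hE
  have hp2 := tr_erase_par hE₂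
  have hcase : ∀ a : ZMod 4, ((a = 0 ∨ a = 2) ∧ (a + 1 = 1 ∨ a + 1 = 3)) ∨
      ((a = 1 ∨ a = 3) ∧ (a + 1 = 0 ∨ a + 1 = 2)) := by decide
  rcases hcase a with ⟨c1, c2⟩ | ⟨c1, c2⟩
  · rw [kap_rec hS (by omega) (hp1.1 c1) (hp2.2 c2), hk₂, add_zero]
  · rw [kap_rec hS (by omega) (hp2.1 c2) (hp1.2 c1), hk₂, zero_add]

private theorem tr_z (b : ZMod 4) : b - 1 ≠ b ∧ b - 1 = b + 3 ∧ b + 1 ≠ b + 3 ∧ b + 2 ≠ b := by
  revert b; decide

private theorem tr_par (a b : ZMod 4) (h : par (b - 1) ≠ par a) :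
    a + 2 - b = 0 ∨ a + 2 - b = 2 := by
  revert a b; decide

private theorem tr_shift (a b : ZMod 4) : b + 3 + (a + 2 - b) = a + 1 ∧ b + (a + 2 - b) = a + 2 ∧
    b + 2 + (a + 2 - b) = a ∧ b + 1 + (a + 2 - b) = a - 1 ∧ a - 1 = a + 3 := by
  revert a b; decide

/-- the vertices of the expanded diagram -/
private def trF (v : V) : {u : V // u ≠ v} ⊕ Unit ≃ V where
  toFun := Sum.elim (fun u => u.1) (fun _ => v)
  invFun u := if h : u = v then Sum.inr () else Sum.inl ⟨u, h⟩
  left_inv := by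
    rintro (⟨u, hu⟩ | ⟨⟩)
    · simp [hu]
    · simp
  right_inv u := by
    by_cases h : u = v
    · simp [h]
    · simp [h]

theorem collapse_expand (hS : APD S) {v w : V} {a b : ZMod 4} (hvw : w ≠ v)
    (hnug : ¬ Nugat S v) (h1 : faceP S (v, a) = (w, b)) (h2 : faceP S (w, b) = (v, a))
    {S₁ : Shadow {u : V // u ≠ v}} (hE : Erase S v a S₁) :
    PEq (expand S₁ ⟨w, hvw⟩ b) S := by
  have a1 := tr_alpha h1
  have a2 := tr_alpha h2
  have a1' : S.α (w, b - 1) = (v, a) := by rw [← a1, S.invol]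
  have a2' : S.α (v, a - 1) = (w, b) := by rw [← a2, S.invol]
  obtain ⟨z1, z2, z3, z4⟩ := tr_z b
  obtain ⟨s1, s2, s3, s4, s5⟩ := tr_shift a b
  obtain ⟨-, m1, m2, m3, m4, -, -⟩ := tr_mrg a
  have hself : ∀ i, (S.α (v, i)).1 ≠ v := fun i h => hnug (tr_nug_self hS v i h)
  set w' : {u : V // u ≠ v} := ⟨w, hvw⟩ with hw'
  let d : Dart ({u : V // u ≠ v} ⊕ Unit) → Dart V :=
    fun x => (trF v x.1, x.2 + Sum.elim (fun _ => (0 : ZMod 4)) (fun _ => a + 2 - b) x.1)
  have dl : ∀ (u : {u : V // u ≠ v}) (i : ZMod 4), d (Sum.inl u, i) = (u.1, i) := by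
    intro u i
    show ((u.1, i + 0) : Dart V) = _
    rw [add_zero]
  have dr : ∀ i : ZMod 4, d (Sum.inr (), i) = (v, i + (a + 2 - b)) := fun i => rfl
  -- the outer darts
  have D1 : d (outD w' b (w', b - 1)) = (v, a + 1) := by
    rw [outD, if_pos rfl, dr, s1]
  have D2 : d (outD w' b (w', b)) = (v, a + 2) := by
    rw [outD, if_neg (fun h => z1 (congrArg Prod.snd h).symm), if_pos rfl, dr, s2]
  have D3 : ∀ y, y ≠ (w', b - 1) → y ≠ (w', b) → d (outD w' b y) = up y := by
    intro y g1 g2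
    rw [outD, if_neg g1, if_neg g2, dl]
    rfl
  have hup : ∀ y z : Dart {u : V // u ≠ v}, up y = up z → y = z := by
    intro y z h
    have h4 := congrArg (fun z : Dart V => z.1) h
    have h5 := congrArg (fun z : Dart V => z.2) h
    exact Prod.ext (Subtype.ext h4) h5
  have hupv : ∀ y : Dart {u : V // u ≠ v}, (up y).1 ≠ v := fun y => y.1.2
  have key : ∀ y, S.α (d (outD w' b y)) = d (outD w' b (S₁.α y)) := by
    intro y
    by_cases g1 : y = (w', b - 1)
    · subst g1
      have h3 : up (S₁.α (w', b - 1)) = S.α (v, a + 1) :=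
        hE.near _ a (a + 1) a1' m1 (hself _)
      rw [D1, D3 _ (S₁.noFix _), h3]
      intro h4
      rw [h4] at h3
      have h5 : S.α (v, a - 1) = S.α (v, a + 1) := by rw [a2', ← h3]; rfl
      have h6 : a - 1 = a + 1 := congrArg Prod.snd (S.α.injective h5)
      revert h6
      clear * -
      revert a
      decide
    by_cases g2 : y = (w', b)
    · subst g2
      have h3 : up (S₁.α (w', b)) = S.α (v, a + 2) :=
        hE.near _ (a + 3) (a + 2) (by rw [← s5]; exact a2) m4 (hself _)
      rw [D2, D3 _ ?_ (S₁.noFix _), h3]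
      intro h4
      rw [h4] at h3
      have h5 : S.α (v, a) = S.α (v, a + 2) := by rw [a1, ← h3]; rfl
      have h6 : a = a + 2 := congrArg Prod.snd (S.α.injective h5)
      revert h6
      clear * -
      revert a
      decide
    rw [D3 y g1 g2]
    by_cases g3 : (S.α (up y)).1 = v
    · have g4 : S.α (up y) = (v, (S.α (up y)).2) := Prod.ext g3 rfl
      have g5 : S.α (v, (S.α (up y)).2) = up y := by rw [← g4, S.invol]
      have hi : ∀ i a : ZMod 4, i = a ∨ i = a - 1 ∨ i = a + 1 ∨ i = a + 2 := by decide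
      rcases hi (S.α (up y)).2 a with g6 | g6 | g6 | g6
      · exfalso
        rw [g6, a1] at g5
        exact g1 (hup _ _ g5.symm)
      · exfalso
        rw [g6, a2'] at g5
        exact g2 (hup _ _ g5.symm)
      · rw [g6] at g4
        have h3 : up (S₁.α y) = S.α (v, a) := hE.near _ (a + 1) a g4 m2 (hself _)
        have h4 : S₁.α y = (w', b - 1) := hup _ _ (by rw [h3, a1]; rfl)
        rw [h4, D1, g4]
      · rw [g6] at g4
        have h3 : up (S₁.α y) = S.α (v, a + 3) := hE.near _ (a + 2) (a + 3) g4 m3 (hself _)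
        have h4 : S₁.α y = (w', b) := hup _ _ (by rw [h3, ← s5, a2']; rfl)
        rw [h4, D2, g4]
    · have h3 := hE.far y g3
      rw [D3, h3]
      · intro h4
        rw [h4] at h3
        have h5 : S.α (w, b - 1) = up y := by
          have : S.α (up y) = (w, b - 1) := h3.symm
          rw [← this, S.invol]
        rw [a1'] at h5
        exact hupv y (congrArg Prod.fst h5).symm
      · intro h4
        rw [h4] at h3
        have h5 : S.α (w, b) = up y := by
          have : S.α (up y) = (w, b) := h3.symm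
          rw [← this, S.invol]
        rw [a2] at h5
        exact hupv y (congrArg Prod.fst h5).symm
  have main : ∀ x, S.α (d x) = d (expα S₁ w' b x) := by
    intro x
    cases hx : outI w' b x with
    | some y =>
      have h3 := outD_of_outI w' b x y hx
      have h4 : expα S₁ w' b x = outD w' b (S₁.α y) := by
        unfold expα
        rw [hx]
      rw [h4, ← key, h3]
    | none =>
      have h4 : expα S₁ w' b x = innD w' b x := by
        unfold expα
        rw [hx]
      rw [h4]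
      rcases (outI_none_iff w' b x).1 hx with rfl | rfl | rfl | rfl
      · show S.α (d (Sum.inl w', b - 1)) = d (if b - 1 = b then _ else _)
        rw [if_neg z1, dl, dr, s3]
        exact a1'
      · show S.α (d (Sum.inl w', b)) = d (if b = b then _ else _)
        rw [if_pos rfl, dl, dr, s4]
        exact a2
      · show S.α (d (Sum.inr (), b + 1)) = d (if b + 1 = b + 1 then _ else _)
        rw [if_pos rfl, dl, dr, s4]
        exact a2'
      · show S.α (d (Sum.inr (), b + 2)) = d (if b + 2 = b + 1 then _ else _)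
        have z5 : b + 2 ≠ b + 1 := by clear * -; revert b; decide
        rw [if_neg z5, dl, dr, s3]
        exact a1
  refine ⟨⟨trF v, Sum.elim (fun _ => (0 : ZMod 4)) (fun _ => a + 2 - b), ?_, main⟩⟩
  rintro (u | u)
  · exact Or.inl rfl
  · apply tr_par
    have := hS.alt (v, a)
    rwa [a1] at this

/-- the vertices of a diagram with two crossings -/
private def trTwo {v₀ v : V} (hv : v ≠ v₀) (hw : ∀ w, w = v₀ ∨ w = v) : V ≃ Unit ⊕ Unit where
  toFun u := if u = v₀ then Sum.inl () else Sum.inr ()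
  invFun := Sum.elim (fun _ => v₀) (fun _ => v)
  left_inv u := by
    rcases hw u with rfl | rfl
    · simp
    · simp [hv]
  right_inv := by
    rintro (⟨⟩ | ⟨⟩)
    · simp
    · simp [hv]

private theorem tr_leaf (hS : APD S) (hn : Fintype.card V = 2) (hnug : ∀ v, ¬ Nugat S v) :
    PEq S (Ex.leaf.dia Ex.leaf) := by
  have hV : Nonempty V := Fintype.card_pos_iff.1 (by omega)
  obtain ⟨v₀⟩ := hV
  obtain ⟨v, hv, hw, a, ha, h⟩ := tr_two hS hn hnug v₀
  have h' : ∀ j, S.α (v, j) = (v₀, a - j) := by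
    intro j
    have h1 : S.α (v₀, a - j) = (v, j) := by
      rw [h]
      refine Prod.ext rfl ?_
      show a - (a - j) = j
      ring
    rw [← h1, S.invol]
  have e1 : (trTwo hv hw) v₀ = Sum.inl () := by simp [trTwo]
  have e2 : (trTwo hv hw) v = Sum.inr () := by simp [trTwo, hv]
  refine ⟨⟨trTwo hv hw, fun u => if u = v₀ then 0 else 1 - a, ?_, ?_⟩⟩
  · intro u
    by_cases hu : u = v₀
    · simp [hu]
    · rw [if_neg hu]
      rcases ha with rfl | rfl
      · left; decide
      · right; decide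
  · rintro ⟨u, i⟩
    rcases hw u with rfl | rfl
    · show glueα leafT leafT (trTwo hv hw u, i + if u = u then 0 else 1 - a) = _
      rw [if_pos rfl, add_zero, h]
      show _ = (trTwo hv hw v, a - i + if v = u then 0 else 1 - a)
      rw [if_neg hv, e1, e2]
      show ((Sum.inr (), 1 - i) : Dart (Unit ⊕ Unit)) = (Sum.inr (), a - i + (1 - a))
      refine Prod.ext rfl ?_
      show 1 - i = a - i + (1 - a)
      ring
    · show glueα leafT leafT (trTwo hv hw u, i + if u = v₀ then 0 else 1 - a) = _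
      rw [if_neg hv, h']
      show _ = (trTwo hv hw v₀, a - i + if v₀ = v₀ then 0 else 1 - a)
      rw [if_pos rfl, e1, e2]
      show ((Sum.inl (), 1 - (i + (1 - a))) : Dart (Unit ⊕ Unit)) = (Sum.inl (), a - i + 0)
      refine Prod.ext rfl ?_
      show 1 - (i + (1 - a)) = a - i + 0
      ring

private theorem tr_tree (n : ℕ) : ∀ (V : Type) [Fintype V] [DecidableEq V] (S : Shadow V),
    APD S → Fintype.card V = n → 2 ≤ n → kap S = 2 → ∃ E C : Ex, PEq S (E.dia C) := by
  induction n with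
  | zero => intro V _ _ S _ _ h; omega
  | succ n ih =>
    intro V _ _ S hS hc hn hk
    have hn' : 2 ≤ Fintype.card V := by omega
    have hk0 : kap S ≠ 0 := by rw [hk]; norm_num
    have hnug := not_nugat_of_kap hS hn' hk0
    by_cases h2 : n + 1 = 2
    · exact ⟨Ex.leaf, Ex.leaf, tr_leaf hS (by omega) hnug⟩
    · obtain ⟨v, w, a, b, hvw, f1, f2⟩ := exists_two_face hS hn' hk
      obtain ⟨S₁, hE⟩ := exists_erase hS v a (fun h => hnug v ⟨a, h⟩) hn'
      have hk₁ : kap S₁ = 2 := by
        rw [kap_collapse hS (by omega) hk0 hvw f1 f2 hE, hk]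
      have hcard : Fintype.card {u : V // u ≠ v} = n := by
        have : Fintype.card {u : V // u ≠ v} = Fintype.card V - 1 := by simp
        omega
      obtain ⟨E, C, ⟨e⟩⟩ := ih {u : V // u ≠ v} S₁ hE.apd hcard (by omega) hk₁
      have q1 := collapse_expand hS hvw.symm (hnug v) f1 f2 hE
      have q2 := expand_congr e ⟨w, hvw.symm⟩ b
      obtain ⟨E', C', q3⟩ := exists_expand_dia E C (e.f ⟨w, hvw.symm⟩) (b + e.c ⟨w, hvw.symm⟩)
      exact ⟨E', C', q1.symm.trans (q2.trans q3)⟩

theorem exists_tree (hS : APD S) (hn : 2 ≤ Fintype.card V) (hk : kap S = 2) :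
    ∃ E C : Ex, PEq S (E.dia C) :=
  tr_tree _ V S hS rfl hn hk

end Pool.Agent.Helper65.LK
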