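import Pool.Agent.Helper65.LK.Classify
import Pool.Agent.Helper65.LK.Tree
import Pool.Agent.Helper65.LK.RichWord
import Pool.Agent.Helper65.LK.RichHC

/-!
# LK-71. Colourings by reflections exclude the branching

`exists_word`: `exists_tree`, and `classify` for `P E C := ¬ Rich (E.dia C) (ov _)`, with `rich_hc`, `rich_vc` and
`rich_iso` (`PEq.diso`; the types of the crossings of expressions are finite).
-/

namespace Pool.Agent.Helper65.LK

theorem exists_word {V : Type} [Fintype V] [DecidableEq V] {S : Shadow V} (hS : APD S)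
    (hn : 2 ≤ Fintype.card V) (hk : kap S = 2) (hr : ¬ Rich S (ov V)) :
    ∃ w : List (ZMod 4), PEq S ((PW w).dia Ex.leaf) := by
  obtain ⟨E, C, hE⟩ := exists_tree hS hn hk
  have hP : ¬ Rich (E.dia C) (ov _) := by
    intro h
    obtain ⟨e⟩ := hE.diso
    exact hr ((rich_iso e).2 h)
  obtain ⟨w, hw⟩ := classify (fun E C => ¬ Rich (E.dia C) (ov _))
    (fun E C h => by
      by_contra h'
      exact h (rich_hc E C (by omega)))
    (fun E C h => by
      by_contra h'
      exact h (rich_vc E C (by omega)))
    (fun E C E' C' he h h' => by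
      obtain ⟨e⟩ := he.diso
      exact h ((rich_iso e).2 h')) E C hP
  exact ⟨w, hE.trans hw⟩

end Pool.Agent.Helper65.LK
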