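import Pool.Agent.Helper65.LK.SymDefs
import Pool.Agent.Helper75.Lamm.Defs

/-!
# LK-66. Symmetric diagrams for the expansions of type (A)

The reflection in the horizontal line maps the port `i` to the port `3 - i` and the dart `(v, i)` of a crossing to
a dart `(v', 3 - i)`.
`RefT T ρ k`: `ρ` is such a reflection of the tangle `T` (all vertices are crossings), `k` is the number of darts `x` with
`T.link x = inl (ρ x)`.
`refT_two`: `vsum leafT leafT`: the leaves `A` (above), `B`; `(A, 2) - (B, 1)`, `(A, 3) - (B, 0)`; `ρ` exchanges the leaves and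
maps the dart `i` to `3 - i`: `(A, 2) ↦ (B, 1)`, `(A, 3) ↦ (B, 0)`: the four inner darts are on fixed edges.
`RefT.right`: `hsum T leafT`: `T.port 0 - (leaf, 1)`, `T.port 3 - (leaf, 2)`; `ρ` is `ρ` on `T` and `i ↦ 3 - i` on the leaf; the two
new edges are exchanged.
`RefT.pair`: `vsum leafT (vsum T leafT)`, leaves `A` (above), `B` (below): `(A, 2) - T.port 1`, `(A, 3) - T.port 0`,
`T.port 2 - (B, 1)`, `T.port 3 - (B, 0)`; `ρ` exchanges `A` and `B` with `i ↦ 3 - i`; the new edges are
exchanged in pairs, none is fixed.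
`RefT.symP`: `glue T leafT`: `T.port i - (leaf, 1 - i)`; `i ↦ 3 - i` on the leaf: `(leaf, 1 - i) ↦ (leaf, 2 + i)`, `= (leaf, 1 - (3 - i))`.
`SymW.symP`: `PW [2] = v leaf leaf`, `PW (3 :: w) = h (PW w) leaf`, `PW (0 :: 2 :: w) = v leaf (v (PW w) leaf)`.

`exists_symW`: for `b = x₁ :: y₁ :: x₂ :: y₂ :: ...`, `yᵢ` even: `w` consists of `x₁ - 1` letters `3`, then `y₁ / 2` pairs `0, 2`, then
`x₂` letters `3`, etc., in the last block `y / 2 - 1` pairs `0, 2` and one letter `2`.  By the definition of `blocks` (the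
letters `0, 2` are not horizontal, `3` is): `expansion w = b`.
Induction: for `b = x :: y :: l`: `blocks (replicate k 3 ++ w) true j = blocks w true (j + k)`,
`blocks (m pairs 0, 2 ++ w) false j = blocks w false (j + 2 m)`.
-/

namespace Pool.Agent.Helper65.LK

open Pool.Agent.Helper75.Lamm (TypeA)

/-- a reflection of a tangle in the horizontal line -/
structure RefT {V : Type} (T : Tangle V) (ρ : Dart V → Dart V) (k : ℕ) : Prop where
  invol : ∀ x, ρ (ρ x) = x
  rot : ∀ x, sg (ρ (sg x)) = ρ x
  flip : ∀ x, par (ρ x).2 ≠ par x.2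
  link : ∀ x y, T.link x = Sum.inl y → T.link (ρ x) = Sum.inl (ρ y)
  port : ∀ i, ρ (T.port i) = T.port (3 - i)
  fix : {x | T.link x = Sum.inl (ρ x)}.ncard = k

private def r2 (x : Dart (Unit ⊕ Unit)) : Dart (Unit ⊕ Unit) := (x.1.swap, 3 - x.2)

theorem refT_two : ∃ ρ, RefT (vsum leafT leafT) ρ 4 := by
  refine ⟨r2, ?_, ?_, ?_, ?_, ?_, ?_⟩
  · decide
  · decide
  · decide
  · decide
  · decide
  · have : {x | (vsum leafT leafT).link x = Sum.inl (r2 x)} =
        ↑(Finset.univ.filter fun x => (vsum leafT leafT).link x = Sum.inl (r2 x)) := by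
      ext x
      simp
    rw [this, Set.ncard_coe_finset]
    decide

private theorem z4_a : ∀ i : ZMod 4, 3 - (3 - i) = i := by decide

private theorem z4_b : ∀ i : ZMod 4, 3 - (i + 1) + 1 = 3 - i := by decide

private theorem z4_c : ∀ i : ZMod 4, par (3 - i) ≠ par i := by decide

private theorem z4_d : ∀ i : ZMod 4, (3 - i = 1 ∨ 3 - i = 2) ↔ (i = 1 ∨ i = 2) := by decide

private theorem z4_e : ∀ i : ZMod 4, 1 - (3 - i) = 3 - (1 - i) := by decide

private theorem z4_f : ∀ i : ZMod 4, (3 - i = 0 ∨ 3 - i = 1) ↔ ¬ (i = 0 ∨ i = 1) := by decide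

/-- the reflection of the link at a port -/
private theorem RefT.link_inr {V : Type} {T : Tangle V} {ρ : Dart V → Dart V} {k : ℕ}
    (h : RefT T ρ k) {x : Dart V} {i : ZMod 4} (hx : T.link x = Sum.inr i) :
    T.link (ρ x) = Sum.inr (3 - i) := by
  have h1 := T.port_link x i hx
  rw [← h1, h.port, T.link_port]

private def rR {V : Type} (ρ : Dart V → Dart V) (x : Dart (V ⊕ Unit)) : Dart (V ⊕ Unit) :=
  match x.1 with
  | Sum.inl v => dl (ρ (v, x.2))
  | Sum.inr _ => (Sum.inr (), 3 - x.2)

private theorem rR_inl {V : Type} (ρ : Dart V → Dart V) (v : V) (j : ZMod 4) :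
    rR ρ (Sum.inl v, j) = dl (ρ (v, j)) := rfl

private theorem rR_inr {V : Type} (ρ : Dart V → Dart V) (u : Unit) (j : ZMod 4) :
    rR ρ (Sum.inr u, j) = (Sum.inr (), 3 - j) := rfl

private theorem rR_invol {V : Type} {ρ : Dart V → Dart V} (h : ∀ x, ρ (ρ x) = x)
    (x : Dart (V ⊕ Unit)) : rR ρ (rR ρ x) = x := by
  obtain ⟨v | u, j⟩ := x
  · rw [rR_inl]
    show dl (ρ (ρ (v, j))) = _
    rw [h]
  · rw [rR_inr, rR_inr, z4_a]

private theorem rR_rot {V : Type} {ρ : Dart V → Dart V} (h : ∀ x, sg (ρ (sg x)) = ρ x)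
    (x : Dart (V ⊕ Unit)) : sg (rR ρ (sg x)) = rR ρ x := by
  obtain ⟨v | u, j⟩ := x
  · show dl (sg (ρ (sg (v, j)))) = _
    rw [h]
    rfl
  · show ((Sum.inr (), 3 - (j + 1) + 1) : Dart (V ⊕ Unit)) = _
    rw [z4_b]
    rfl

private theorem rR_flip {V : Type} {ρ : Dart V → Dart V} (h : ∀ x, par (ρ x).2 ≠ par x.2)
    (x : Dart (V ⊕ Unit)) : par (rR ρ x).2 ≠ par x.2 := by
  obtain ⟨v | u, j⟩ := x
  · exact h (v, j)
  · exact z4_c j

theorem RefT.right {V : Type} {T : Tangle V} {ρ : Dart V → Dart V} {k : ℕ} (h : RefT T ρ k) :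
    ∃ ρ', RefT (hsum T leafT) ρ' k := by
  refine ⟨rR ρ, rR_invol h.invol, rR_rot h.rot, rR_flip h.flip, ?_, ?_, ?_⟩
  · intro x y hxy
    obtain ⟨v | u, j⟩ := x
    · cases hT : T.link (v, j) with
      | inl z =>
        simp only [hsum, hT, Sum.inl.injEq] at hxy
        subst hxy
        have h1 := h.link _ _ hT
        rw [rR_inl]
        simp only [hsum]
        have h2 : T.link ((ρ (v, j)).1, (ρ (v, j)).2) = Sum.inl (ρ z) := h1
        simp only [h2]
        rfl
      | inr i =>
        by_cases hi : i = 1 ∨ i = 2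
        · simp [hsum, hT, hi] at hxy
        · simp only [hsum, hT, hi, if_false, Sum.inl.injEq, leafT] at hxy
          subst hxy
          have h1 := h.link_inr hT
          rw [rR_inl]
          simp only [hsum]
          have h2 : T.link ((ρ (v, j)).1, (ρ (v, j)).2) = Sum.inr (3 - i) := h1
          have hi' : ¬ (3 - i = 1 ∨ 3 - i = 2) := by rw [z4_d]; exact hi
          simp only [h2, hi', if_false, leafT]
          rw [rR_inr, z4_e]
    · by_cases hi : j = 1 ∨ j = 2
      · simp only [hsum, leafT, hi, if_true, Sum.inl.injEq] at hxy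
        subst hxy
        rw [rR_inr]
        have hi' : (3 - j = 1 ∨ 3 - j = 2) := by rw [z4_d]; exact hi
        simp only [hsum, leafT, hi', if_true]
        rw [z4_e]
        have h1 := h.port (1 - j)
        rw [← h1]
        rfl
      · simp [hsum, leafT, hi] at hxy
  · intro i
    by_cases hi : i = 1 ∨ i = 2
    · have hi' : (3 - i = 1 ∨ 3 - i = 2) := by rw [z4_d]; exact hi
      simp only [hsum, hi, hi', if_true]
      have h1 := h.port i
      rw [← h1]
      rfl
    · have hi' : ¬ (3 - i = 1 ∨ 3 - i = 2) := by rw [z4_d]; exact hi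
      simp only [hsum, hi, hi', if_false]
      rfl
  · rw [← h.fix]
    have hset : {x | (hsum T leafT).link x = Sum.inl (rR ρ x)} =
        (fun x : Dart V => (dl x : Dart (V ⊕ Unit))) '' {x | T.link x = Sum.inl (ρ x)} := by
      ext ⟨v | u, j⟩
      · simp only [Set.mem_ofPred_eq, Set.mem_image]
        constructor
        · intro hx
          refine ⟨(v, j), ?_, rfl⟩
          cases hT : T.link (v, j) with
          | inl z =>
            simp only [hsum, hT, Sum.inl.injEq] at hx
            rw [rR_inl] at hx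
            have h1 := Prod.mk.inj hx
            rw [Prod.ext (Sum.inl.inj h1.1) h1.2]
          | inr i =>
            exfalso
            by_cases hi : i = 1 ∨ i = 2
            · simp [hsum, hT, hi] at hx
            · simp [hsum, hT, hi, rR_inl] at hx
        · rintro ⟨⟨v', j'⟩, hx, he⟩
          have h1 := Prod.mk.inj he
          have h2 : v' = v := Sum.inl.inj h1.1
          have h3 : j' = j := h1.2
          subst h2
          subst h3
          simp only [hsum, hx]
          rfl
      · simp only [Set.mem_ofPred_eq, Set.mem_image]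
        constructor
        · intro hx
          exfalso
          by_cases hi : j = 1 ∨ j = 2
          · simp [hsum, leafT, hi, rR_inr] at hx
          · simp [hsum, leafT, hi] at hx
        · rintro ⟨⟨v', j'⟩, hx, he⟩
          simp at he
    rw [hset]
    apply Set.ncard_image_of_injective
    intro x y hxy
    have h1 := Prod.mk.inj hxy
    exact Prod.ext (Sum.inl.inj h1.1) h1.2

private def rP {V : Type} (ρ : Dart V → Dart V) (x : Dart (Unit ⊕ (V ⊕ Unit))) :
    Dart (Unit ⊕ (V ⊕ Unit)) :=
  match x.1 with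
  | Sum.inl _ => (Sum.inr (Sum.inr ()), 3 - x.2)
  | Sum.inr (Sum.inl v) => dr (dl (ρ (v, x.2)))
  | Sum.inr (Sum.inr _) => (Sum.inl (), 3 - x.2)

private theorem rP_a {V : Type} (ρ : Dart V → Dart V) (u : Unit) (j : ZMod 4) :
    rP ρ (Sum.inl u, j) = (Sum.inr (Sum.inr ()), 3 - j) := rfl

private theorem rP_t {V : Type} (ρ : Dart V → Dart V) (v : V) (j : ZMod 4) :
    rP ρ (Sum.inr (Sum.inl v), j) = dr (dl (ρ (v, j))) := rfl

private theorem rP_b {V : Type} (ρ : Dart V → Dart V) (u : Unit) (j : ZMod 4) :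
    rP ρ (Sum.inr (Sum.inr u), j) = (Sum.inl (), 3 - j) := rfl

private theorem lk_a {V : Type} (T : Tangle V) (u : Unit) (j : ZMod 4) :
    (vsum leafT (vsum T leafT)).link (Sum.inl u, j) = if j = 0 ∨ j = 1 then Sum.inr j else
      Sum.inl (dr (dl (T.port (3 - j)))) := by
  by_cases hj : j = 0 ∨ j = 1
  · simp only [vsum, leafT, hj, if_true]
  · have hj' : 3 - j = 0 ∨ 3 - j = 1 := by rw [z4_f]; exact hj
    simp only [vsum, leafT, hj, hj', if_false, if_true]

private theorem lk_b {V : Type} (T : Tangle V) (u : Unit) (j : ZMod 4) :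
    (vsum leafT (vsum T leafT)).link (Sum.inr (Sum.inr u), j) = if j = 0 ∨ j = 1 then
      Sum.inl (dr (dl (T.port (3 - j)))) else Sum.inr j := by
  by_cases hj : j = 0 ∨ j = 1
  · simp only [vsum, leafT, hj, if_true]
  · simp only [vsum, leafT, hj, if_false]

private theorem lk_tl {V : Type} (T : Tangle V) {x z : Dart V} (h : T.link x = Sum.inl z) :
    (vsum leafT (vsum T leafT)).link (dr (dl x)) = Sum.inl (dr (dl z)) := by
  have h' : T.link (x.1, x.2) = Sum.inl z := h
  simp only [vsum, h']

private theorem lk_tr {V : Type} (T : Tangle V) {x : Dart V} {i : ZMod 4}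
    (h : T.link x = Sum.inr i) :
    (vsum leafT (vsum T leafT)).link (dr (dl x)) = Sum.inl (if i = 0 ∨ i = 1 then
      (Sum.inl (), 3 - i) else (Sum.inr (Sum.inr ()), 3 - i)) := by
  have h' : T.link (x.1, x.2) = Sum.inr i := h
  by_cases hi : i = 0 ∨ i = 1
  · simp only [vsum, leafT, h', hi, if_true]
  · simp only [vsum, leafT, h', hi, if_false]

theorem RefT.pair {V : Type} {T : Tangle V} {ρ : Dart V → Dart V} {k : ℕ} (h : RefT T ρ k) :
    ∃ ρ', RefT (vsum leafT (vsum T leafT)) ρ' k := by
  refine ⟨rP ρ, ?_, ?_, ?_, ?_, ?_, ?_⟩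
  · rintro ⟨u | v | u, j⟩
    · rw [rP_a, rP_b, z4_a]
    · show dr (dl (ρ (ρ (v, j)))) = _
      rw [h.invol]
    · rw [rP_b, rP_a, z4_a]
  · rintro ⟨u | v | u, j⟩
    · show ((Sum.inr (Sum.inr ()), 3 - (j + 1) + 1) : Dart (Unit ⊕ (V ⊕ Unit))) = _
      rw [z4_b]
      rfl
    · show dr (dl (sg (ρ (sg (v, j))))) = _
      rw [h.rot]
      rfl
    · show ((Sum.inl (), 3 - (j + 1) + 1) : Dart (Unit ⊕ (V ⊕ Unit))) = _
      rw [z4_b]
      rfl
  · rintro ⟨u | v | u, j⟩
    · exact z4_c j
    · exact h.flip (v, j)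
    · exact z4_c j
  · rintro ⟨u | v | u, j⟩ y hxy
    · rw [lk_a] at hxy
      by_cases hj : j = 0 ∨ j = 1
      · simp [hj] at hxy
      · rw [if_neg hj, Sum.inl.injEq] at hxy
        have hj' : 3 - j = 0 ∨ 3 - j = 1 := by rw [z4_f]; exact hj
        rw [← hxy, rP_a, lk_b, if_pos hj', ← h.port]
        rfl
    · cases hT : T.link (v, j) with
      | inl z =>
        have h1 : (vsum leafT (vsum T leafT)).link (Sum.inr (Sum.inl v), j) =
          Sum.inl (dr (dl z)) := lk_tl T hT
        rw [h1, Sum.inl.injEq] at hxy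
        rw [← hxy, rP_t, lk_tl T (h.link _ _ hT)]
        rfl
      | inr i =>
        have h1 : (vsum leafT (vsum T leafT)).link (Sum.inr (Sum.inl v), j) = _ := lk_tr T hT
        rw [h1, Sum.inl.injEq] at hxy
        rw [← hxy, rP_t, lk_tr T (h.link_inr hT)]
        by_cases hi : i = 0 ∨ i = 1
        · have hi' : ¬ (3 - i = 0 ∨ 3 - i = 1) := by rw [z4_f, not_not]; exact hi
          rw [if_pos hi, if_neg hi', rP_a]
        · have hi' : (3 - i = 0 ∨ 3 - i = 1) := by rw [z4_f]; exact hi
          rw [if_neg hi, if_pos hi', rP_b]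
    · rw [lk_b] at hxy
      by_cases hj : j = 0 ∨ j = 1
      · rw [if_pos hj, Sum.inl.injEq] at hxy
        have hj' : ¬ (3 - j = 0 ∨ 3 - j = 1) := by rw [z4_f, not_not]; exact hj
        rw [← hxy, rP_b, lk_a, if_neg hj', ← h.port]
        rfl
      · simp [hj] at hxy
  · intro i
    by_cases hi : i = 0 ∨ i = 1
    · have hi' : ¬ (3 - i = 0 ∨ 3 - i = 1) := by rw [z4_f, not_not]; exact hi
      simp only [vsum, hi, hi', if_true, if_false]
      rfl
    · have hi' : (3 - i = 0 ∨ 3 - i = 1) := by rw [z4_f]; exact hi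
      simp only [vsum, hi, hi', if_true, if_false]
      rfl
  · rw [← h.fix]
    have hset : {x | (vsum leafT (vsum T leafT)).link x = Sum.inl (rP ρ x)} =
        (fun x : Dart V => (dr (dl x) : Dart (Unit ⊕ (V ⊕ Unit)))) ''
          {x | T.link x = Sum.inl (ρ x)} := by
      ext ⟨u | v | u, j⟩
      · simp only [Set.mem_ofPred_eq, Set.mem_image]
        constructor
        · intro hx
          exfalso
          rw [lk_a, rP_a] at hx
          by_cases hj : j = 0 ∨ j = 1
          · simp [hj] at hx
          · simp [hj] at hx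
        · rintro ⟨⟨v', j'⟩, hx, he⟩
          simp at he
      · simp only [Set.mem_ofPred_eq, Set.mem_image]
        constructor
        · intro hx
          refine ⟨(v, j), ?_, rfl⟩
          cases hT : T.link (v, j) with
          | inl z =>
            have h1 : (vsum leafT (vsum T leafT)).link (Sum.inr (Sum.inl v), j) =
              Sum.inl (dr (dl z)) := lk_tl T hT
            rw [h1, Sum.inl.injEq, rP_t] at hx
            have h2 := Prod.mk.inj hx
            rw [Prod.ext (Sum.inl.inj (Sum.inr.inj h2.1)) h2.2]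
          | inr i =>
            exfalso
            have h1 : (vsum leafT (vsum T leafT)).link (Sum.inr (Sum.inl v), j) = _ := lk_tr T hT
            rw [h1, Sum.inl.injEq, rP_t] at hx
            by_cases hi : i = 0 ∨ i = 1
            · simp [hi] at hx
            · simp [hi] at hx
        · rintro ⟨⟨v', j'⟩, hx, he⟩
          have h1 := Prod.mk.inj he
          have h2 : v' = v := Sum.inl.inj (Sum.inr.inj h1.1)
          have h3 : j' = j := h1.2
          subst h2
          subst h3
          exact lk_tl T hx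
      · simp only [Set.mem_ofPred_eq, Set.mem_image]
        constructor
        · intro hx
          exfalso
          rw [lk_b, rP_b] at hx
          by_cases hj : j = 0 ∨ j = 1
          · simp [hj] at hx
          · simp [hj] at hx
        · rintro ⟨⟨v', j'⟩, hx, he⟩
          simp at he
    rw [hset]
    apply Set.ncard_image_of_injective
    intro x y hxy
    have h1 := Prod.mk.inj hxy
    exact Prod.ext (Sum.inl.inj (Sum.inr.inj h1.1)) h1.2

theorem RefT.symP {V : Type} {T : Tangle V} {ρ : Dart V → Dart V} (h : RefT T ρ 4) :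
    ∃ ρ', SymP (glue T leafT) ρ' := by
  refine ⟨rR ρ, rR_invol h.invol, rR_rot h.rot, ?_, rR_flip h.flip, ?_⟩
  · intro x
    show rR ρ (glueα T leafT x) = glueα T leafT (rR ρ x)
    obtain ⟨v | u, j⟩ := x
    · cases hT : T.link (v, j) with
      | inl z =>
        have h1 := h.link _ _ hT
        rw [rR_inl]
        have h2 : T.link ((ρ (v, j)).1, (ρ (v, j)).2) = Sum.inl (ρ z) := h1
        simp only [glueα, hT, h2]
        rfl
      | inr i =>
        have h1 := h.link_inr hT
        rw [rR_inl]
        have h2 : T.link ((ρ (v, j)).1, (ρ (v, j)).2) = Sum.inr (3 - i) := h1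
        simp only [glueα, hT, h2, leafT]
        rw [rR_inr, z4_e]
    · rw [rR_inr]
      simp only [glueα, leafT]
      rw [z4_e, ← h.port]
      rfl
  · rw [← h.fix]
    have hset : {x | rR ρ x = (glue T leafT).α x} =
        (fun x : Dart V => (dl x : Dart (V ⊕ Unit))) '' {x | T.link x = Sum.inl (ρ x)} := by
      ext ⟨v | u, j⟩
      · simp only [Set.mem_ofPred_eq, Set.mem_image]
        constructor
        · intro hx
          refine ⟨(v, j), ?_, rfl⟩
          have hx : rR ρ (Sum.inl v, j) = glueα T leafT (Sum.inl v, j) := hx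
          cases hT : T.link (v, j) with
          | inl z =>
            simp only [glueα, hT] at hx
            rw [rR_inl] at hx
            have h1 := Prod.mk.inj hx
            rw [Prod.ext (Sum.inl.inj h1.1) h1.2]
          | inr i =>
            exfalso
            simp [glueα, hT, rR_inl] at hx
        · rintro ⟨⟨v', j'⟩, hx, he⟩
          have h1 := Prod.mk.inj he
          have h2 : v' = v := Sum.inl.inj h1.1
          have h3 : j' = j := h1.2
          subst h2
          subst h3
          show rR ρ (Sum.inl v', j') = glueα T leafT (Sum.inl v', j')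
          simp only [glueα, hx]
          rfl
      · simp only [Set.mem_ofPred_eq, Set.mem_image]
        constructor
        · intro hx
          exfalso
          have hx : rR ρ (Sum.inr u, j) = glueα T leafT (Sum.inr u, j) := hx
          simp [glueα, leafT, rR_inr] at hx
        · rintro ⟨⟨v', j'⟩, hx, he⟩
          simp at he
    rw [hset]
    apply Set.ncard_image_of_injective
    intro x y hxy
    have h1 := Prod.mk.inj hxy
    exact Prod.ext (Sum.inl.inj h1.1) h1.2

/-- the words of the symmetric diagrams of type (A) -/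
inductive SymW : List (ZMod 4) → Prop
  | base : SymW [2]
  | three {w : List (ZMod 4)} (h : SymW w) : SymW (3 :: w)
  | pair {w : List (ZMod 4)} (h : SymW w) : SymW (0 :: 2 :: w)

private theorem al0 (E : Ex) : addLeaf 0 E = Ex.v Ex.leaf E := by
  unfold addLeaf
  rw [if_pos rfl]

private theorem al2 (E : Ex) : addLeaf 2 E = Ex.v E Ex.leaf := by
  unfold addLeaf
  rw [if_neg (by decide), if_neg (by decide), if_pos rfl]

private theorem al3 (E : Ex) : addLeaf 3 E = Ex.h E Ex.leaf := by
  unfold addLeaf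
  rw [if_neg (by decide), if_neg (by decide), if_neg (by decide)]

private theorem SymW.refT {w : List (ZMod 4)} (h : SymW w) : ∃ ρ, RefT (PW w).tg ρ 4 := by
  induction h with
  | base =>
    have h1 : PW [2] = Ex.v Ex.leaf Ex.leaf := al2 _
    rw [h1]
    exact refT_two
  | @three w _ ih =>
    have h1 : PW (3 :: w) = Ex.h (PW w) Ex.leaf := al3 _
    rw [h1]
    obtain ⟨ρ, hρ⟩ := ih
    exact hρ.right
  | @pair w _ ih =>
    have h1 : PW (0 :: 2 :: w) = Ex.v Ex.leaf (Ex.v (PW w) Ex.leaf) := by
      show addLeaf 0 (addLeaf 2 (PW w)) = _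
      rw [al2, al0]
    rw [h1]
    obtain ⟨ρ, hρ⟩ := ih
    exact hρ.pair

theorem SymW.symP {w : List (ZMod 4)} (h : SymW w) : ∃ ρ, SymP ((PW w).dia Ex.leaf) ρ := by
  obtain ⟨ρ, hρ⟩ := h.refT
  exact hρ.symP

private def GoodA : List ℕ → Prop
  | [] => True
  | [_] => False
  | x :: y :: l => 0 < x ∧ 0 < y ∧ Even y ∧ GoodA l

private theorem goodA_of : ∀ b : List ℕ, (∀ x ∈ b, 0 < x) → TypeA b → GoodA b
  | [], _, _ => trivial
  | [x], _, h => by
    have := h.1
    simp at this
  | x :: y :: l, hp, h => by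
    refine ⟨hp x (by simp), hp y (by simp), ?_, goodA_of l (fun z hz => hp z (by simp [hz])) ?_⟩
    · have := h.2 1 (by simp) (by norm_num)
      simpa using this
    · refine ⟨?_, ?_⟩
      · have := h.1
        simp only [List.length_cons] at this
        rw [Nat.even_iff] at this ⊢
        omega
      · intro i hi hi2
        have := h.2 (i + 2) (by simp only [List.length_cons]; omega) (by omega)
        simpa using this

private theorem bl_three (w : List (ZMod 4)) (k : ℕ) :
    blocks (3 :: w) true k = blocks w true (k + 1) := by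
  rw [blocks, if_pos (by decide)]

private theorem bl_three' (w : List (ZMod 4)) (k : ℕ) :
    blocks (3 :: w) false k = k :: blocks w true 1 := by
  rw [blocks, if_neg (by decide)]
  rfl

private theorem bl_pair (w : List (ZMod 4)) (k : ℕ) :
    blocks (0 :: 2 :: w) false k = blocks w false (k + 2) := by
  rw [blocks, if_pos (by decide), blocks, if_pos (by decide)]

private theorem bl_pair' (w : List (ZMod 4)) (k : ℕ) :
    blocks (0 :: 2 :: w) true k = k :: blocks w false 2 := by
  rw [blocks, if_neg (by decide), Bool.not_true, blocks, if_pos (by decide)]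

private theorem bl_pairs {w : List (ZMod 4)} {c : ℕ} {l : List ℕ} (h : SymW w)
    (hw : ∀ k, blocks w false k = (k + c) :: l) (m : ℕ) :
    ∃ w', SymW w' ∧ ∀ k, blocks w' false k = (k + (c + 2 * m)) :: l := by
  induction m with
  | zero => exact ⟨w, h, hw⟩
  | succ m ih =>
    obtain ⟨w', h1, h2⟩ := ih
    refine ⟨0 :: 2 :: w', SymW.pair h1, fun k => ?_⟩
    rw [bl_pair, h2]
    congr 1
    ring

private theorem bl_pairs' {w : List (ZMod 4)} {c : ℕ} {l : List ℕ} (h : SymW w)
    (hw : ∀ k, blocks w false k = (k + c) :: l) (m : ℕ) :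
    ∃ w', SymW w' ∧ ∀ k, blocks w' true k = k :: (c + 2 * (m + 1)) :: l := by
  obtain ⟨w', h1, h2⟩ := bl_pairs h hw m
  refine ⟨0 :: 2 :: w', SymW.pair h1, fun k => ?_⟩
  rw [bl_pair', h2]
  congr 2
  ring

private theorem bl_threes {w : List (ZMod 4)} {l : List ℕ} (h : SymW w)
    (hw : ∀ k, blocks w true k = k :: l) (a : ℕ) :
    ∃ w', SymW w' ∧ ∀ k, blocks w' true k = (k + a) :: l := by
  induction a with
  | zero => exact ⟨w, h, hw⟩
  | succ a ih =>
    obtain ⟨w', h1, h2⟩ := ih
    refine ⟨3 :: w', SymW.three h1, fun k => ?_⟩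
    rw [bl_three, h2]
    congr 1
    ring

private theorem symw_aux : ∀ (l : List ℕ) (y : ℕ), 0 < y → Even y → GoodA l →
    ∀ a, ∃ w, SymW w ∧ ∀ k, blocks w true k = (k + a) :: y :: l
  | [], y, hy, he, _, a => by
    obtain ⟨m, hm⟩ := he
    have hb : ∀ k, blocks [2] false k = (k + 2) :: [] := by
      intro k
      rw [blocks, if_pos (by decide), blocks]
    have hb' : ∀ k, blocks [2] true k = k :: 2 :: [] := by
      intro k
      rw [blocks, if_neg (by decide), blocks]
    rcases Nat.lt_or_ge m 2 with h2 | h2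
    · have hy2 : y = 2 := by omega
      subst hy2
      exact bl_threes SymW.base hb' a
    · obtain ⟨w', h1, h3⟩ := bl_pairs' SymW.base hb (m - 2)
      have hy2 : 2 + 2 * (m - 2 + 1) = y := by omega
      rw [hy2] at h3
      exact bl_threes h1 h3 a
  | [_], _, _, _, h, _ => h.elim
  | x₂ :: y₂ :: l₂, y, hy, he, h, a => by
    obtain ⟨hx2, hy2, he2, hl2⟩ := h
    obtain ⟨m, hm⟩ := he
    obtain ⟨w'', h1, h2⟩ := symw_aux l₂ y₂ hy2 he2 hl2 (x₂ - 1)
    have h3 : ∀ k, blocks (3 :: w'') false k = (k + 0) :: x₂ :: y₂ :: l₂ := by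
      intro k
      rw [bl_three', h2]
      have : 1 + (x₂ - 1) = x₂ := by omega
      rw [this]
      rfl
    obtain ⟨w', h4, h5⟩ := bl_pairs' (SymW.three h1) h3 (m - 1)
    have hy3 : 0 + 2 * (m - 1 + 1) = y := by omega
    rw [hy3] at h5
    exact bl_threes h4 h5 a

theorem exists_symW (b : List ℕ) (hb : b ≠ []) (hp : ∀ x ∈ b, 0 < x) (h : TypeA b) :
    ∃ w, SymW w ∧ expansion w = b := by
  have hg := goodA_of b hp h
  match b, hb, hg with
  | x :: y :: l, _, hg =>
    obtain ⟨hx, hy, he, hl⟩ := hg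
    obtain ⟨w, h1, h2⟩ := symw_aux l y hy he hl (x - 1)
    refine ⟨w, h1, ?_⟩
    rw [expansion, h2]
    have : 1 + (x - 1) = x := by omega
    rw [this]

end Pool.Agent.Helper65.LK
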