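import Pool.Agent.Helper65.LK.SymDefs
import Pool.Agent.Helper75.Lamm.Defs
import Pool.Agent.Helper65.LK.Classify

/-!
# LK-67. Symmetric diagrams for the expansions of type (B)

The reflection in the vertical line maps the port `i` to the port `1 - i` and darts `(v, i)` to darts `(v', c - i)`, `c` odd.
`E.refl` is the reflected expression, `RefI T T' f`: `f` is such a reflection from `T` to `T'`.
`refI_leaf`: `i ↦ 1 - i`.  `RefI.hsum`: from `hsum A B` to `hsum B' A'`: `A.port 0 - B.port 1` ↦ `A'.port 1 - B'.port 0`,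
`A.port 3 - B.port 2` ↦ `A'.port 2 - B'.port 3`.  `RefI.vsum`: from `vsum A B` to `vsum A' B'`: `A.port 2 - B.port 1` ↦
`A'.port 3 - B'.port 0`, `A.port 3 - B.port 0` ↦ `A'.port 2 - B'.port 1`.

`symP_double`: `E = X`, `X' = E.refl`, `f : X → X'`.  `p = 3`: `glue (hsum X leafT) X'`: the edges `X.port 0 - (leaf, 1)`,
`X.port 3 - (leaf, 2)`, `X.port 1 - X'.port 0`, `X.port 2 - X'.port 3`, `(leaf, 0) - X'.port 1`, `(leaf, 3) - X'.port 2`.  `ρ` exchanges `X` and `X'`
by `f`, `f⁻¹` and maps `(leaf, i)` to `(leaf, 1 - i)`: `X.port 1 ↦ X'.port 0`, `X.port 2 ↦ X'.port 3`: these two edges are fixed, and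
`X.port 0 - (leaf, 1)` ↦ `X'.port 1 - (leaf, 0)`, `X.port 3 - (leaf, 2)` ↦ `X'.port 2 - (leaf, 3)`.
`p = 2`: `glue (vsum X leafT) X'`: `X.port 2 - (leaf, 1)`, `X.port 3 - (leaf, 0)`, `X.port 0 - X'.port 1`, `X.port 1 - X'.port 0`,
`(leaf, 2) - X'.port 3`, `(leaf, 3) - X'.port 2`; `(leaf, i) ↦ (leaf, 3 - i)`; the edges `X.port 0 - X'.port 1`, `X.port 1 - X'.port 0` are fixed,
`X.port 2 - (leaf, 1)` ↦ `X'.port 3 - (leaf, 2)`, `X.port 3 - (leaf, 0)` ↦ `X'.port 2 - (leaf, 3)`.  The edges inside `X` go to
edges inside `X'`, so exactly two edges (four darts) are fixed.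

`pw_move`: induction on `w₂` as `cl_W` in `Classify.lean` (moving one letter `q` of the right hand side: the letter `-q` on the
left hand side; see `cl_R1a`, `cl_R1b`, `cl_R2a`, `cl_R2b` there, you may import `Classify`).

`exists_typeB`: let `Z` be the list of the positions: `b₁` times `3`, `b₂` times `2`, `b₃` times `3`, ....  As `b` is a palindrome of
odd length, `Z` is a palindrome; its length `b.sum` is odd (the middle entry is odd, the others come in pairs), and
`≥ 3`.  Remove the first and the last element (both `3`): `z` is a palindrome of odd length, so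
`z = w.reverse ++ p :: w` with `p ∈ {2, 3}`.  `expansion z`: the closing crossing replaces the removed first letter, the
innermost crossing is counted in the last block of `z`.  If the last entry of `b` is at least `2`, this is `b`.  If it
is `1` then `b = l ++ [y, 1]` (since `b.sum ≥ 2`) and `expansion z = l ++ [y + 1]`.
(General statement for positive lists `b` with `b.sum ≥ 2`, by induction on `b`, with `blocks _ c k`, `c` arbitrary.)
-/

namespace Pool.Agent.Helper65.LK

open Pool.Agent.Helper75.Lamm (TypeB)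

/-- the expression of the tangle reflected in the vertical line -/
def Ex.refl : Ex → Ex
  | leaf => leaf
  | h A B => h B.refl A.refl
  | v A B => v A.refl B.refl

/-- a reflection from `T` to `T'` in the vertical line -/
structure RefI {V V' : Type} (T : Tangle V) (T' : Tangle V') (f : Dart V ≃ Dart V') : Prop where
  rot : ∀ x, sg (f (sg x)) = f x
  flip : ∀ x, par (f x).2 ≠ par x.2
  link : ∀ x y, T.link x = Sum.inl y → T'.link (f x) = Sum.inl (f y)
  port : ∀ i, f (T.port i) = T'.port (1 - i)

private theorem z4c : ∀ i : ZMod 4, i = 0 ∨ i = 1 ∨ i = 2 ∨ i = 3 := by decide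

/-- a reflection in the vertical line, given by the vertices and the rotations -/
structure SbIso {V V' : Type} (T : Tangle V) (T' : Tangle V') where
  /-- the vertices -/
  f : V ≃ V'
  /-- the rotations -/
  c : V → ZMod 4
  odd : ∀ v, c v = 1 ∨ c v = 3
  map : ∀ x : Dart V, T'.link (f x.1, c x.1 - x.2) = match T.link x with
    | Sum.inl y => Sum.inl (f y.1, c y.1 - y.2)
    | Sum.inr i => Sum.inr (1 - i)

/-- the map of the darts -/
def SbIso.d {V V' : Type} {T : Tangle V} {T' : Tangle V'} (e : SbIso T T') : Dart V ≃ Dart V' where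
  toFun x := (e.f x.1, e.c x.1 - x.2)
  invFun y := (e.f.symm y.1, e.c (e.f.symm y.1) - y.2)
  left_inv x := by simp
  right_inv y := by simp

theorem SbIso.port {V V' : Type} {T : Tangle V} {T' : Tangle V'} (e : SbIso T T') (i : ZMod 4) :
    T'.port (1 - i) = (e.f (T.port i).1, e.c (T.port i).1 - (T.port i).2) := by
  have h := e.map (T.port i)
  rw [T.link_port] at h
  exact T'.port_link _ _ h

theorem SbIso.port' {V V' : Type} {T : Tangle V} {T' : Tangle V'} (e : SbIso T T') (i : ZMod 4) :
    (e.f (T.port (1 - i)).1, e.c (T.port (1 - i)).1 - (T.port (1 - i)).2) = T'.port i := by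
  rw [← e.port (1 - i), z4_sub11]

/-- the reflection of one crossing -/
def SbIso.leaf : SbIso leafT leafT where
  f := Equiv.refl _
  c := fun _ => 1
  odd := fun _ => Or.inl rfl
  map := fun _ => rfl

/-- the reflection of a horizontal sum -/
def SbIso.hsum {V V' W W' : Type} {A : Tangle V} {A' : Tangle V'} {B : Tangle W}
    {B' : Tangle W'} (e : SbIso A A') (e' : SbIso B B') :
    SbIso (LK.hsum A B) (LK.hsum B' A') where
  f := (Equiv.sumCongr e.f e'.f).trans (Equiv.sumComm _ _)
  c := Sum.elim e.c e'.c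
  odd := by
    rintro (v | w)
    · exact e.odd v
    · exact e'.odd w
  map := by
    rintro ⟨v | w, j⟩
    · have h := e.map (v, j)
      cases hx : A.link (v, j) with
      | inl y =>
        rw [hx] at h
        have h2 : A'.link (e.f v, e.c v - j) = Sum.inl (e.f y.1, e.c y.1 - y.2) := h
        show (LK.hsum B' A').link (Sum.inr (e.f v), e.c v - j) = _
        simp only [LK.hsum, hx, h2]
        rfl
      | inr i =>
        rw [hx] at h
        have h2 : A'.link (e.f v, e.c v - j) = Sum.inr (1 - i) := h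
        show (LK.hsum B' A').link (Sum.inr (e.f v), e.c v - j) = _
        simp only [LK.hsum, hx, h2, ← e'.port']
        rcases z4c i with rfl | rfl | rfl | rfl <;> rfl
    · have h := e'.map (w, j)
      cases hx : B.link (w, j) with
      | inl y =>
        rw [hx] at h
        have h2 : B'.link (e'.f w, e'.c w - j) = Sum.inl (e'.f y.1, e'.c y.1 - y.2) := h
        show (LK.hsum B' A').link (Sum.inl (e'.f w), e'.c w - j) = _
        simp only [LK.hsum, hx, h2]
        rfl
      | inr i =>
        rw [hx] at h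
        have h2 : B'.link (e'.f w, e'.c w - j) = Sum.inr (1 - i) := h
        show (LK.hsum B' A').link (Sum.inl (e'.f w), e'.c w - j) = _
        simp only [LK.hsum, hx, h2, ← e.port']
        rcases z4c i with rfl | rfl | rfl | rfl <;> rfl

/-- the reflection of a vertical sum -/
def SbIso.vsum {V V' W W' : Type} {A : Tangle V} {A' : Tangle V'} {B : Tangle W}
    {B' : Tangle W'} (e : SbIso A A') (e' : SbIso B B') :
    SbIso (LK.vsum A B) (LK.vsum A' B') where
  f := Equiv.sumCongr e.f e'.f
  c := Sum.elim e.c e'.c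
  odd := by
    rintro (v | w)
    · exact e.odd v
    · exact e'.odd w
  map := by
    rintro ⟨v | w, j⟩
    · have h := e.map (v, j)
      cases hx : A.link (v, j) with
      | inl y =>
        rw [hx] at h
        have h2 : A'.link (e.f v, e.c v - j) = Sum.inl (e.f y.1, e.c y.1 - y.2) := h
        show (LK.vsum A' B').link (Sum.inl (e.f v), e.c v - j) = _
        simp only [LK.vsum, hx, h2]
        rfl
      | inr i =>
        rw [hx] at h
        have h2 : A'.link (e.f v, e.c v - j) = Sum.inr (1 - i) := h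
        show (LK.vsum A' B').link (Sum.inl (e.f v), e.c v - j) = _
        simp only [LK.vsum, hx, h2, ← e'.port']
        rcases z4c i with rfl | rfl | rfl | rfl <;> rfl
    · have h := e'.map (w, j)
      cases hx : B.link (w, j) with
      | inl y =>
        rw [hx] at h
        have h2 : B'.link (e'.f w, e'.c w - j) = Sum.inl (e'.f y.1, e'.c y.1 - y.2) := h
        show (LK.vsum A' B').link (Sum.inr (e'.f w), e'.c w - j) = _
        simp only [LK.vsum, hx, h2]
        rfl
      | inr i =>
        rw [hx] at h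
        have h2 : B'.link (e'.f w, e'.c w - j) = Sum.inr (1 - i) := h
        show (LK.vsum A' B').link (Sum.inr (e'.f w), e'.c w - j) = _
        simp only [LK.vsum, hx, h2, ← e.port']
        rcases z4c i with rfl | rfl | rfl | rfl <;> rfl

/-- the reflection of an expression -/
def Ex.sbIso : ∀ E : Ex, SbIso E.tg E.refl.tg
  | leaf => SbIso.leaf
  | h A B => A.sbIso.hsum B.sbIso
  | v A B => A.sbIso.vsum B.sbIso

private theorem z4_flip : ∀ c i : ZMod 4, c = 1 ∨ c = 3 → par (c - i) ≠ par i := by decide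

theorem SbIso.refI {V V' : Type} {T : Tangle V} {T' : Tangle V'} (e : SbIso T T') :
    RefI T T' e.d where
  rot x := by
    show (e.f x.1, e.c x.1 - (x.2 + 1) + 1) = (e.f x.1, e.c x.1 - x.2)
    rw [sub_add_eq_sub_sub, sub_add_cancel]
  flip x := z4_flip _ _ (e.odd x.1)
  link x y h := by
    have h1 := e.map x
    rw [h] at h1
    exact h1
  port i := (e.port i).symm

theorem exists_refI (E : Ex) : ∃ f, RefI E.tg E.refl.tg f :=
  ⟨E.sbIso.d, E.sbIso.refI⟩

theorem refl_PW (w : List (ZMod 4)) : (PW w).refl = PW (w.map (fun p => -p)) := by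
  induction w with
  | nil => rfl
  | cons p w ih =>
    show (addLeaf p (PW w)).refl = addLeaf (-p) (PW (w.map (fun p => -p)))
    rw [← ih]
    rcases z4c p with rfl | rfl | rfl | rfl
    · rfl
    · rfl
    · rfl
    · rfl

/-- the reflection which exchanges two tangles and reflects the crossing in the middle -/
def sb_rhoD {V V' : Type} (d : Dart V ≃ Dart V') (m : ZMod 4)
    (x : Dart ((V ⊕ Unit) ⊕ V')) : Dart ((V ⊕ Unit) ⊕ V') :=
  match x.1 with
  | Sum.inl (Sum.inl v) => (Sum.inr (d (v, x.2)).1, (d (v, x.2)).2)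
  | Sum.inl (Sum.inr _) => (Sum.inl (Sum.inr ()), m - x.2)
  | Sum.inr v => (Sum.inl (Sum.inl (d.symm (v, x.2)).1), (d.symm (v, x.2)).2)

section Double

variable {V V' : Type} {X : Tangle V} {X' : Tangle V'}

theorem sb_rhoD_invol (d : Dart V ≃ Dart V') (m : ZMod 4) (x : Dart ((V ⊕ Unit) ⊕ V')) :
    sb_rhoD d m (sb_rhoD d m x) = x := by
  obtain ⟨(v | u) | w, j⟩ := x
  · have h : d.symm ((d (v, j)).1, (d (v, j)).2) = (v, j) := d.symm_apply_apply (v, j)
    simp only [sb_rhoD, h]
  · simp [sb_rhoD]
  · have h : d ((d.symm (w, j)).1, (d.symm (w, j)).2) = (w, j) := d.apply_symm_apply (w, j)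
    simp only [sb_rhoD, h]

theorem sb_rhoD_rot (e : SbIso X X') (m : ZMod 4) (x : Dart ((V ⊕ Unit) ⊕ V')) :
    sg (sb_rhoD e.d m (sg x)) = sb_rhoD e.d m x := by
  obtain ⟨(v | u) | w, j⟩ := x
  · show (Sum.inr (e.f v), e.c v - (j + 1) + 1) = (Sum.inr (e.f v), e.c v - j)
    rw [sub_add_eq_sub_sub, sub_add_cancel]
  · show (Sum.inl (Sum.inr ()), m - (j + 1) + 1) = (Sum.inl (Sum.inr ()), m - j)
    rw [sub_add_eq_sub_sub, sub_add_cancel]
  · show (Sum.inl (Sum.inl (e.f.symm w)), e.c (e.f.symm w) - (j + 1) + 1) =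
      (Sum.inl (Sum.inl (e.f.symm w)), e.c (e.f.symm w) - j)
    rw [sub_add_eq_sub_sub, sub_add_cancel]

theorem sb_rhoD_flip (e : SbIso X X') (m : ZMod 4) (hm : m = 1 ∨ m = 3)
    (x : Dart ((V ⊕ Unit) ⊕ V')) : par (sb_rhoD e.d m x).2 ≠ par x.2 := by
  obtain ⟨(v | u) | w, j⟩ := x
  · exact z4_flip _ _ (e.odd v)
  · exact z4_flip _ _ hm
  · exact z4_flip _ _ (e.odd (e.f.symm w))

theorem sb_rhoD_inl (e : SbIso X X') (m : ZMod 4) (v : V) (j : ZMod 4) :
    sb_rhoD e.d m (Sum.inl (Sum.inl v), j) = (Sum.inr (e.f v), e.c v - j) := rfl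

theorem SbIso.link_inl (e : SbIso X X') {v : V} {j : ZMod 4} {y : Dart V}
    (h : X.link (v, j) = Sum.inl y) :
    X'.link (e.f v, e.c v - j) = Sum.inl (e.f y.1, e.c y.1 - y.2) := by
  have h1 := e.map (v, j)
  rw [h] at h1
  exact h1

theorem SbIso.link_inr (e : SbIso X X') {v : V} {j : ZMod 4} {i : ZMod 4}
    (h : X.link (v, j) = Sum.inr i) :
    X'.link (e.f v, e.c v - j) = Sum.inr (1 - i) := by
  have h1 := e.map (v, j)
  rw [h] at h1
  exact h1

/-- the edges on the right hand side follow from those on the left hand side -/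
theorem sb_rhoD_edge_of (e : SbIso X X') (m : ZMod 4) (S : Shadow ((V ⊕ Unit) ⊕ V'))
    (h1 : ∀ v j, sb_rhoD e.d m (S.α (Sum.inl (Sum.inl v), j)) =
      S.α (sb_rhoD e.d m (Sum.inl (Sum.inl v), j)))
    (h2 : ∀ j, sb_rhoD e.d m (S.α (Sum.inl (Sum.inr ()), j)) =
      S.α (sb_rhoD e.d m (Sum.inl (Sum.inr ()), j))) (x : Dart ((V ⊕ Unit) ⊕ V')) :
    sb_rhoD e.d m (S.α x) = S.α (sb_rhoD e.d m x) := by
  obtain ⟨(v | u) | w, j⟩ := x
  · exact h1 v j
  · exact h2 j
  · have h3 : sb_rhoD e.d m (Sum.inr w, j) =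
        (Sum.inl (Sum.inl (e.d.symm (w, j)).1), (e.d.symm (w, j)).2) := rfl
    have h4 := h1 (e.d.symm (w, j)).1 (e.d.symm (w, j)).2
    rw [← h3, sb_rhoD_invol] at h4
    rw [← h4, sb_rhoD_invol]

theorem sb_rhoD_two (e : SbIso X X') (m : ZMod 4) (S : Shadow ((V ⊕ Unit) ⊕ V')) (a b : ZMod 4)
    (hab : a ≠ b)
    (he : ∀ x, sb_rhoD e.d m (S.α x) = S.α (sb_rhoD e.d m x))
    (h1 : ∀ v j, sb_rhoD e.d m (Sum.inl (Sum.inl v), j) = S.α (Sum.inl (Sum.inl v), j) ↔
      (X.link (v, j) = Sum.inr a ∨ X.link (v, j) = Sum.inr b))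
    (h2 : ∀ j, sb_rhoD e.d m (Sum.inl (Sum.inr ()), j) ≠ S.α (Sum.inl (Sum.inr ()), j)) :
    {x | sb_rhoD e.d m x = S.α x}.ncard = 4 := by
  have hlk : ∀ (x : Dart V) (i : ZMod 4), X.link x = Sum.inr i ↔ x = X.port i := by
    intro x i
    constructor
    · intro h
      exact (X.port_link _ _ h).symm
    · rintro rfl
      exact X.link_port i
  let g : Bool × Bool → Dart ((V ⊕ Unit) ⊕ V') := fun y =>
    if y.1 = true then dl (dl (X.port (if y.2 = true then a else b)))
    else sb_rhoD e.d m (dl (dl (X.port (if y.2 = true then a else b))))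
  have hpi : ∀ i j : ZMod 4, X.port i = X.port j → i = j := by
    intro i j h
    have h3 := X.link_port i
    rw [h, X.link_port, Sum.inr.injEq] at h3
    exact h3.symm
  have hdl : ∀ x y : Dart V, (dl (dl x) : Dart ((V ⊕ Unit) ⊕ V')) = dl (dl y) → x = y := by
    rintro ⟨v, i⟩ ⟨w, j⟩ h
    simp only [dl, Prod.mk.injEq, Sum.inl.injEq] at h
    exact Prod.ext h.1 h.2
  have hri : ∀ x y, sb_rhoD e.d m x = sb_rhoD e.d m y → x = y := by
    intro x y h
    rw [← sb_rhoD_invol e.d m x, h, sb_rhoD_invol]
  have hab' : ∀ s t : Bool, (if s = true then a else b) = (if t = true then a else b) →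
      s = t := by
    intro s t h
    cases s <;> cases t
    · rfl
    · exact absurd h.symm hab
    · exact absurd h hab
    · rfl
  have hg : Function.Injective g := by
    rintro ⟨s, t⟩ ⟨s', t'⟩ h
    cases s <;> cases s'
    · have h3 := hab' _ _ (hpi _ _ (hdl _ _ (hri _ _ h)))
      exact Prod.ext rfl h3
    · exfalso
      have h3 : (Sum.inr (e.f (X.port (if t = true then a else b)).1) : (V ⊕ Unit) ⊕ V') =
        Sum.inl (Sum.inl (X.port (if t' = true then a else b)).1) := congrArg Prod.fst h
      cases h3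
    · exfalso
      have h3 : (Sum.inl (Sum.inl (X.port (if t = true then a else b)).1) : (V ⊕ Unit) ⊕ V') =
        Sum.inr (e.f (X.port (if t' = true then a else b)).1) := congrArg Prod.fst h
      cases h3
    · have h3 := hab' _ _ (hpi _ _ (hdl _ _ h))
      exact Prod.ext rfl h3
  have hin : ∀ v j, (Sum.inl (Sum.inl v), j) ∈ {x | sb_rhoD e.d m x = S.α x} ↔
      ((v, j) = X.port a ∨ (v, j) = X.port b) := by
    intro v j
    rw [← hlk, ← hlk]
    exact h1 v j
  have hsym : ∀ x, sb_rhoD e.d m x ∈ {x | sb_rhoD e.d m x = S.α x} ↔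
      x ∈ {x | sb_rhoD e.d m x = S.α x} := by
    intro x
    show sb_rhoD e.d m (sb_rhoD e.d m x) = S.α (sb_rhoD e.d m x) ↔ sb_rhoD e.d m x = S.α x
    rw [← he]
    exact ⟨fun h => hri _ _ h, fun h => congrArg _ h⟩
  have hset : {x | sb_rhoD e.d m x = S.α x} = Set.range g := by
    ext x
    constructor
    · intro hx
      obtain ⟨(v | u) | w, j⟩ := x
      · rcases (hin v j).1 hx with h3 | h3
        · refine ⟨(true, true), ?_⟩
          show dl (dl (X.port a)) = _
          rw [← h3]
        · refine ⟨(true, false), ?_⟩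
          show dl (dl (X.port b)) = _
          rw [← h3]
      · exact absurd hx (h2 j)
      · have h4 : sb_rhoD e.d m (Sum.inr w, j) =
          (Sum.inl (Sum.inl (e.d.symm (w, j)).1), (e.d.symm (w, j)).2) := rfl
        have h5 := (hsym _).2 hx
        rw [h4] at h5
        rcases (hin _ _).1 h5 with h3 | h3
        · refine ⟨(false, true), ?_⟩
          show sb_rhoD e.d m (dl (dl (X.port a))) = _
          rw [← h3]
          show sb_rhoD e.d m (Sum.inl (Sum.inl (e.d.symm (w, j)).1), (e.d.symm (w, j)).2) = _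
          rw [← h4, sb_rhoD_invol]
        · refine ⟨(false, false), ?_⟩
          show sb_rhoD e.d m (dl (dl (X.port b))) = _
          rw [← h3]
          show sb_rhoD e.d m (Sum.inl (Sum.inl (e.d.symm (w, j)).1), (e.d.symm (w, j)).2) = _
          rw [← h4, sb_rhoD_invol]
    · rintro ⟨⟨s, t⟩, rfl⟩
      have h3 : dl (dl (X.port (if t = true then a else b))) ∈
          {x | sb_rhoD e.d m x = S.α x} := by
        refine (hin _ _).2 ?_
        cases t
        · exact Or.inr rfl
        · exact Or.inl rfl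
      cases s
      · exact (hsym _).2 h3
      · exact h3
  rw [hset, ← Nat.card_coe_set_eq, Nat.card_congr (Equiv.ofInjective g hg).symm]
  simp

theorem sb_rhoD_dl (e : SbIso X X') (m k : ZMod 4) :
    sb_rhoD e.d m (dl (dl (X.port k))) = dr (X'.port (1 - k)) := by
  rw [e.port]
  rfl

theorem sb_rhoD_dr (e : SbIso X X') (m k : ZMod 4) :
    sb_rhoD e.d m (dr (X'.port k)) = dl (dl (X.port (1 - k))) := by
  have h := sb_rhoD_dl e m (1 - k)
  rw [z4_sub11] at h
  rw [← h, sb_rhoD_invol]

/-- the symmetry with a crossing in the middle -/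
theorem sb_symP_middle (e : SbIso X X') (T : Tangle (V ⊕ Unit)) (m a b : ZMod 4)
    (hm : m = 1 ∨ m = 3) (hab : a ≠ b)
    (hT1 : ∀ v j y, X.link (v, j) = Sum.inl y → T.link (Sum.inl v, j) = Sum.inl (dl y))
    (hT2 : ∀ v j k, X.link (v, j) = Sum.inr k → T.link (Sum.inl v, j) =
      if k = a ∨ k = b then Sum.inr k else Sum.inl (Sum.inr (), m - k))
    (hT3 : ∀ j, T.link (Sum.inr (), j) =
      if j = a ∨ j = b then Sum.inl (dl (X.port (m - j))) else Sum.inr j)
    (hT4 : ∀ k, T.port k = if k = a ∨ k = b then dl (X.port k) else (Sum.inr (), k))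
    (hP1 : ∀ k, (k = a ∨ k = b) → ¬ (m - k = a ∨ m - k = b))
    (hP2 : ∀ k, ¬ (k = a ∨ k = b) → (m - k = a ∨ m - k = b)) :
    SymP (glue T X') (sb_rhoD e.d m) := by
  have hmm : ∀ k, m - (m - k) = k := fun k => sub_sub_cancel m k
  have hl : ∀ k, sb_rhoD e.d m (dl (dl (X.port k))) = dr (X'.port (1 - k)) :=
    fun k => sb_rhoD_dl e m k
  have hr : ∀ k, sb_rhoD e.d m (dr (X'.port k)) = dl (dl (X.port (1 - k))) :=
    fun k => sb_rhoD_dr e m k
  -- the values of `α`
  have v1 : ∀ v j y, X.link (v, j) = Sum.inl y →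
      glueα T X' (Sum.inl (Sum.inl v), j) = dl (dl y) := by
    intro v j y h
    simp only [glueα, hT1 v j y h]
  have v2 : ∀ v j k, X.link (v, j) = Sum.inr k → (k = a ∨ k = b) →
      glueα T X' (Sum.inl (Sum.inl v), j) = dr (X'.port (1 - k)) := by
    intro v j k h hk
    simp only [glueα, hT2 v j k h, if_pos hk]
  have v3 : ∀ v j k, X.link (v, j) = Sum.inr k → ¬ (k = a ∨ k = b) →
      glueα T X' (Sum.inl (Sum.inl v), j) = (Sum.inl (Sum.inr ()), m - k) := by
    intro v j k h hk
    simp only [glueα, hT2 v j k h, if_neg hk]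
  have v4 : ∀ j, (j = a ∨ j = b) →
      glueα T X' (Sum.inl (Sum.inr ()), j) = dl (dl (X.port (m - j))) := by
    intro j hj
    simp only [glueα, hT3 j, if_pos hj]
  have v5 : ∀ j, ¬ (j = a ∨ j = b) →
      glueα T X' (Sum.inl (Sum.inr ()), j) = dr (X'.port (1 - j)) := by
    intro j hj
    simp only [glueα, hT3 j, if_neg hj]
  have h1 : ∀ v j, sb_rhoD e.d m ((glue T X').α (Sum.inl (Sum.inl v), j)) =
      (glue T X').α (sb_rhoD e.d m (Sum.inl (Sum.inl v), j)) := by
    intro v j
    rw [sb_rhoD_inl]
    show sb_rhoD e.d m (glueα T X' (Sum.inl (Sum.inl v), j)) =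
      glueα T X' (Sum.inr (e.f v), e.c v - j)
    cases hx : X.link (v, j) with
    | inl y =>
      have h2 := e.link_inl hx
      rw [v1 v j y hx]
      simp only [glueα, h2]
      rfl
    | inr k =>
      have h2 := e.link_inr hx
      have h3 : glueα T X' (Sum.inr (e.f v), e.c v - j) = dl (T.port k) := by
        simp only [glueα, h2, z4_sub11]
      rw [h3, hT4]
      by_cases hk : k = a ∨ k = b
      · rw [v2 v j k hx hk, if_pos hk, hr, z4_sub11]
      · rw [v3 v j k hx hk, if_neg hk]
        show (Sum.inl (Sum.inr ()), m - (m - k)) = _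
        rw [hmm]
  have h2 : ∀ j, sb_rhoD e.d m ((glue T X').α (Sum.inl (Sum.inr ()), j)) =
      (glue T X').α (sb_rhoD e.d m (Sum.inl (Sum.inr ()), j)) := by
    intro j
    show sb_rhoD e.d m (glueα T X' (Sum.inl (Sum.inr ()), j)) =
      glueα T X' (Sum.inl (Sum.inr ()), m - j)
    by_cases hj : j = a ∨ j = b
    · rw [v4 j hj, v5 (m - j) (hP1 j hj), hl]
    · rw [v5 j hj, v4 (m - j) (hP2 j hj), hr, z4_sub11, hmm]
  have h3 := sb_rhoD_edge_of e m (glue T X') h1 h2
  refine ⟨sb_rhoD_invol e.d m, sb_rhoD_rot e m, h3, sb_rhoD_flip e m hm, ?_⟩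
  refine sb_rhoD_two e m (glue T X') a b hab h3 ?_ ?_
  · intro v j
    rw [sb_rhoD_inl]
    show (Sum.inr (e.f v), e.c v - j) = glueα T X' (Sum.inl (Sum.inl v), j) ↔ _
    cases hx : X.link (v, j) with
    | inl y =>
      rw [v1 v j y hx]
      constructor
      · intro h
        have h4 := congrArg Prod.fst h
        cases h4
      · rintro (h | h)
        · cases h
        · cases h
    | inr k =>
      have h4 := X.port_link _ _ hx
      have h5 := e.port k
      rw [h4] at h5
      by_cases hk : k = a ∨ k = b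
      · rw [v2 v j k hx hk, h5]
        refine ⟨fun _ => ?_, fun _ => rfl⟩
        rcases hk with rfl | rfl
        · exact Or.inl rfl
        · exact Or.inr rfl
      · rw [v3 v j k hx hk]
        constructor
        · intro h
          have h6 := congrArg Prod.fst h
          cases h6
        · rintro (h | h)
          · exact absurd (Or.inl (Sum.inr.inj h)) hk
          · exact absurd (Or.inr (Sum.inr.inj h)) hk
  · intro j h
    have h6 : (Sum.inl (Sum.inr ()), m - j) = glueα T X' (Sum.inl (Sum.inr ()), j) := h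
    by_cases hj : j = a ∨ j = b
    · rw [v4 j hj] at h6
      have h7 := congrArg Prod.fst h6
      cases h7
    · rw [v5 j hj] at h6
      have h7 := congrArg Prod.fst h6
      cases h7

theorem sb_symP_hdouble (e : SbIso X X') : SymP (glue (hsum X leafT) X') (sb_rhoD e.d 1) := by
  refine sb_symP_middle e (hsum X leafT) 1 1 2 (Or.inl rfl) (by decide) ?_ ?_ ?_ ?_
    (by decide) (by decide)
  · intro v j y h
    simp only [hsum, h]
  · intro v j k h
    simp only [hsum, h]
    rfl
  · intro j
    rfl
  · intro k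
    rfl

theorem sb_symP_vdouble (e : SbIso X X') : SymP (glue (vsum X leafT) X') (sb_rhoD e.d 3) := by
  refine sb_symP_middle e (vsum X leafT) 3 0 1 (Or.inr rfl) (by decide) ?_ ?_ ?_ ?_
    (by decide) (by decide)
  · intro v j y h
    simp only [vsum, h]
  · intro v j k h
    simp only [vsum, h]
    rfl
  · intro j
    rfl
  · intro k
    rfl

end Double

theorem symP_double (p : ZMod 4) (hp : p = 2 ∨ p = 3) (E : Ex) :
    ∃ ρ, SymP ((addLeaf p E).dia E.refl) ρ := by
  rcases hp with rfl | rfl
  · exact ⟨_, sb_symP_vdouble E.sbIso⟩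
  · exact ⟨_, sb_symP_hdouble E.sbIso⟩

theorem pw_move (w₁ w₂ : List (ZMod 4)) : PEq ((PW w₁).dia (PW w₂))
    ((PW ((w₂.map (fun p => -p)).reverse ++ w₁)).dia Ex.leaf) := by
  induction w₂ generalizing w₁ with
  | nil => exact PEq.refl _
  | cons p w ih =>
    have h1 : ((p :: w).map (fun p => -p)).reverse ++ w₁ =
        (w.map (fun p => -p)).reverse ++ (-p :: w₁) := by simp
    rw [h1]
    refine PEq.trans ?_ (ih (-p :: w₁))
    rcases z4c p with rfl | rfl | rfl | rfl
    · exact (cl_R2b Ex.leaf (PW w₁) (PW w)).symm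
    · exact (cl_R1a (PW w₁) Ex.leaf (PW w)).symm
    · exact (cl_R2a (PW w₁) Ex.leaf (PW w)).symm
    · exact (cl_R1b Ex.leaf (PW w₁) (PW w)).symm

theorem symP_pal (p : ZMod 4) (hp : p = 2 ∨ p = 3) (w : List (ZMod 4)) :
    ∃ ρ, SymP ((PW (w.reverse ++ p :: w)).dia Ex.leaf) ρ := by
  obtain ⟨ρ, hρ⟩ := symP_double p hp (PW w)
  have h1 := pw_move (p :: w) (w.map (fun p => -p))
  have h2 : ((w.map (fun p => -p)).map (fun p => -p)) = w := by
    rw [List.map_map]
    have h3 : ((fun p : ZMod 4 => -p) ∘ fun p => -p) = id := by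
      funext p
      exact neg_neg p
    rw [h3, List.map_id]
  rw [h2, ← refl_PW] at h1
  obtain ⟨e⟩ := h1
  exact hρ.transport e

/-- the letter of a block -/
def SbcolB (c : Bool) : ZMod 4 := if c = true then 3 else 2

theorem par_SbcolB (c : Bool) : par (SbcolB c) = c := by cases c <;> decide

theorem SbcolB_or (c : Bool) : SbcolB c = 2 ∨ SbcolB c = 3 := by
  cases c
  · exact Or.inl rfl
  · exact Or.inr rfl

/-- the letters of the blocks -/
def SbZB : List ℕ → Bool → List (ZMod 4)
  | [], _ => []
  | x :: l, c => List.replicate x (SbcolB c) ++ SbZB l (!c)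

theorem SbZB_mem (b : List ℕ) : ∀ (c : Bool) (p : ZMod 4), p ∈ SbZB b c → p = 2 ∨ p = 3 := by
  induction b with
  | nil =>
    intro c p h
    cases h
  | cons x l ih =>
    intro c p h
    rcases List.mem_append.1 h with h | h
    · rw [List.eq_of_mem_replicate h]
      exact SbcolB_or c
    · exact ih _ p h

theorem SbZB_length (b : List ℕ) : ∀ c : Bool, (SbZB b c).length = b.sum := by
  induction b with
  | nil =>
    intro c
    rfl
  | cons x l ih =>
    intro c
    show (List.replicate x (SbcolB c) ++ SbZB l (!c)).length = _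
    rw [List.length_append, List.length_replicate, ih, List.sum_cons]

/-- the colour of the block with the number `n` -/
def SbaltB (c : Bool) : ℕ → Bool
  | 0 => c
  | n + 1 => SbaltB (!c) n

theorem SbaltB_succ (n : ℕ) : ∀ c : Bool, SbaltB c (n + 1) = !SbaltB c n := by
  induction n with
  | zero => exact fun c => rfl
  | succ n ih =>
    intro c
    show SbaltB (!c) (n + 1) = !SbaltB (!c) n
    exact ih (!c)

theorem SbaltB_not (n : ℕ) (c : Bool) : SbaltB (!c) n = !SbaltB c n := SbaltB_succ n c

theorem SbaltB_SbaltB (n : ℕ) : ∀ c : Bool, SbaltB (SbaltB c n) n = c := by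
  induction n with
  | zero => exact fun c => rfl
  | succ n ih =>
    intro c
    rw [SbaltB_succ, SbaltB_succ, SbaltB_not, Bool.not_not, ih]

theorem SbZB_concat (b : List ℕ) (x : ℕ) :
    ∀ c : Bool, SbZB (b ++ [x]) c = SbZB b c ++ List.replicate x (SbcolB (SbaltB c b.length)) := by
  induction b with
  | nil =>
    intro c
    simp [SbZB, SbaltB]
  | cons y l ih =>
    intro c
    show List.replicate y (SbcolB c) ++ SbZB (l ++ [x]) (!c) =
      (List.replicate y (SbcolB c) ++ SbZB l (!c)) ++ _
    rw [ih, List.append_assoc]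
    rfl

theorem SbZB_reverse (b : List ℕ) : ∀ c : Bool,
    (SbZB b c).reverse = SbZB b.reverse (!SbaltB c b.length) := by
  induction b with
  | nil =>
    intro c
    rfl
  | cons x l ih =>
    intro c
    show (List.replicate x (SbcolB c) ++ SbZB l (!c)).reverse = _
    rw [List.reverse_append, ih, List.reverse_replicate, List.reverse_cons, SbZB_concat,
      List.length_reverse, List.length_cons, SbaltB_succ, SbaltB_not, Bool.not_not, SbaltB_SbaltB]

theorem SbaltB_odd (n : ℕ) (c : Bool) (hn : Odd n) : SbaltB c n = !c := by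
  obtain ⟨k, rfl⟩ := hn
  induction k with
  | zero => rfl
  | succ k ih =>
    have h1 : 2 * (k + 1) + 1 = (2 * k + 1) + 1 + 1 := by ring
    rw [h1, SbaltB_succ, SbaltB_succ, ih, Bool.not_not]

theorem SbZB_pal (b : List ℕ) (hb : Odd b.length) (hr : b.reverse = b) :
    (SbZB b true).reverse = SbZB b true := by
  rw [SbZB_reverse, hr, SbaltB_odd _ _ hb]
  rfl

theorem sb_blocks_replicate (c : Bool) (w : List (ZMod 4)) (m : ℕ) :
    ∀ k : ℕ, blocks (List.replicate m (SbcolB c) ++ w) c k = blocks w c (k + m) := by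
  induction m with
  | zero =>
    intro k
    rfl
  | succ m ih =>
    intro k
    show (if c = par (SbcolB c) then blocks (List.replicate m (SbcolB c) ++ w) c (k + 1)
      else _) = _
    rw [if_pos (par_SbcolB c).symm, ih]
    congr 1
    omega

theorem sb_blocks_dropLast (l : List ℕ) : ∀ (_ : ∀ x ∈ l, 0 < x) (x : ℕ) (c : Bool) (k : ℕ),
    List.replicate x (SbcolB c) ++ SbZB l (!c) ≠ [] →
    (blocks (List.replicate x (SbcolB c) ++ SbZB l (!c)).dropLast c k = (k + x) :: l ∨
      ∃ l' y, (k + x) :: l = l' ++ [y, 1] ∧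
        blocks (List.replicate x (SbcolB c) ++ SbZB l (!c)).dropLast c k = l' ++ [y + 1]) := by
  induction l with
  | nil =>
    intro _ x c k hne
    left
    have h1 : SbZB [] (!c) = [] := rfl
    rw [h1, List.append_nil] at hne ⊢
    cases x with
    | zero => exact absurd rfl hne
    | succ x =>
      rw [List.dropLast_replicate]
      have h2 := sb_blocks_replicate c [] x k
      rw [List.append_nil] at h2
      show blocks (List.replicate x (SbcolB c)) c k = _
      rw [h2]
      rfl
  | cons y l ih =>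
    intro hp x c k _
    have hy : 0 < y := hp y List.mem_cons_self
    obtain ⟨y, rfl⟩ : ∃ y', y = y' + 1 := ⟨y - 1, by omega⟩
    have hp' : ∀ x ∈ l, 0 < x := fun x hx => hp x (List.mem_cons_of_mem _ hx)
    have h1 : SbZB ((y + 1) :: l) (!c) =
      SbcolB (!c) :: (List.replicate y (SbcolB (!c)) ++ SbZB l (!!c)) := rfl
    rw [h1, List.dropLast_append_of_ne_nil (by simp), sb_blocks_replicate]
    by_cases hR : List.replicate y (SbcolB (!c)) ++ SbZB l (!!c) = []
    · right
      rw [hR]
      have h2 : y = 0 ∧ SbZB l (!!c) = [] := by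
        rw [List.append_eq_nil_iff, List.replicate_eq_nil_iff] at hR
        exact hR
      obtain ⟨rfl, h3⟩ := h2
      have h4 : l.sum = 0 := by
        rw [← SbZB_length l (!!c), h3]
        rfl
      have h5 : l = [] := by
        cases l with
        | nil => rfl
        | cons z l =>
          have h6 := hp' z List.mem_cons_self
          rw [List.sum_cons] at h4
          omega
      subst h5
      exact ⟨[], k + x, rfl, rfl⟩
    · rw [List.dropLast_cons_of_ne_nil hR]
      have h2 : blocks (SbcolB (!c) :: (List.replicate y (SbcolB (!c)) ++ SbZB l (!!c)).dropLast) c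
          (k + x) = (k + x) ::
            blocks (List.replicate y (SbcolB (!c)) ++ SbZB l (!!c)).dropLast (!c) 1 := by
        show (if c = par (SbcolB (!c)) then _ else _) = _
        rw [if_neg]
        rw [par_SbcolB]
        cases c <;> decide
      rw [h2]
      rcases ih hp' y (!c) 1 hR with h3 | ⟨l', z, h3, h4⟩
      · left
        rw [h3, add_comm 1 y]
      · right
        refine ⟨(k + x) :: l', z, ?_, ?_⟩
        · rw [List.cons_append, ← h3, add_comm 1 y]
        · rw [h4, List.cons_append]

theorem sb_pal_split (z : List (ZMod 4)) (h : List.Palindrome z) : Odd z.length →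
    ∃ (p : ZMod 4) (w : List (ZMod 4)), z = w.reverse ++ p :: w := by
  induction h with
  | nil =>
    intro h
    exact absurd h (by decide)
  | singleton x => exact fun _ => ⟨x, [], rfl⟩
  | @cons_concat x l _ ih =>
    intro h
    have h1 : (x :: (l ++ [x])).length = l.length + 2 := by simp
    rw [h1, Nat.odd_add] at h
    have h2 : Odd l.length := h.2 (by decide)
    obtain ⟨p, w, hw⟩ := ih h2
    refine ⟨p, w ++ [x], ?_⟩
    rw [hw]
    simp

/-- the sum of a list of type (B) is odd -/
theorem sb_odd_sum_typeB (b : List ℕ) (h : TypeB b) : Odd b.sum := by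
  obtain ⟨h1, h2, h3⟩ := h
  obtain ⟨k, hk⟩ := h1
  have hk2 : b.length / 2 = k := by omega
  have hlt : k < b.length := by omega
  rw [hk2] at h3
  have h4 : b = b.take k ++ b[k] :: b.drop (k + 1) := by
    rw [← List.drop_eq_getElem_cons hlt, List.take_append_drop]
  have h5 : b.getD k 0 = b[k] := by
    rw [List.getD_eq_getElem?_getD, List.getElem?_eq_getElem hlt]
    rfl
  rw [h5] at h3
  have h6 : b.take k = (b.drop (k + 1)).reverse := by
    have h7 : (b.drop (k + 1)).reverse ++ b[k] :: (b.take k).reverse =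
        b.take k ++ b[k] :: b.drop (k + 1) := by
      rw [← h4]
      have h8 : (b.take k ++ b[k] :: b.drop (k + 1)).reverse = b := by
        rw [← h4, h2]
      refine Eq.trans ?_ h8
      rw [List.reverse_append, List.reverse_cons, List.append_assoc]
      rfl
    have h8 : (b.drop (k + 1)).reverse.length = (b.take k).length := by
      rw [List.length_reverse, List.length_drop, List.length_take]
      omega
    exact (List.append_inj h7 h8).1.symm
  rw [h4, List.sum_append, List.sum_cons, h6, List.sum_reverse]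
  obtain ⟨m, hm⟩ := h3
  exact ⟨m + (b.drop (k + 1)).sum, by rw [hm]; ring⟩

theorem exists_typeB (b : List ℕ) (hp : ∀ x ∈ b, 0 < x) (h : TypeB b) (hb : 2 ≤ b.sum) :
    ∃ (p : ZMod 4) (w : List (ZMod 4)), (p = 2 ∨ p = 3) ∧
      (expansion (w.reverse ++ p :: w) = b ∨
        ∃ l y, b = l ++ [y, 1] ∧ expansion (w.reverse ++ p :: w) = l ++ [y + 1]) := by
  have hodd := sb_odd_sum_typeB b h
  cases b with
  | nil => exact absurd hb (by decide)
  | cons x l =>
    have hx : 0 < x := hp x List.mem_cons_self
    obtain ⟨x, rfl⟩ : ∃ x', x = x' + 1 := ⟨x - 1, by omega⟩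
    have hp' : ∀ x ∈ l, 0 < x := fun x hx => hp x (List.mem_cons_of_mem _ hx)
    have hpal : List.Palindrome (SbZB ((x + 1) :: l) true) :=
      List.Palindrome.of_reverse_eq (SbZB_pal _ h.1 h.2.1)
    have hlen := SbZB_length ((x + 1) :: l) true
    have hmem := SbZB_mem ((x + 1) :: l) true
    have hZ : SbZB ((x + 1) :: l) true =
      SbcolB true :: (List.replicate x (SbcolB true) ++ SbZB l (!true)) := rfl
    have hne : List.replicate x (SbcolB true) ++ SbZB l (!true) ≠ [] := by
      intro h0
      rw [hZ, h0] at hlen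
      simp only [List.length_cons, List.length_nil] at hlen
      omega
    have hB := sb_blocks_dropLast l hp' x true 1 hne
    rw [add_comm 1 x] at hB
    generalize hzz : SbZB ((x + 1) :: l) true = Z at *
    cases hpal with
    | nil => cases hZ
    | singleton y =>
      simp only [List.length_cons, List.length_nil] at hlen
      omega
    | @cons_concat y z hz =>
      rw [List.cons_eq_cons] at hZ
      rw [← hZ.2, List.dropLast_concat] at hB
      have h1 : Odd z.length := by
        have h2 : (y :: (z ++ [y])).length = z.length + 2 := by simp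
        rw [← hlen, h2, Nat.odd_add] at hodd
        exact hodd.2 (by decide)
      obtain ⟨p, w, hw⟩ := sb_pal_split z hz h1
      refine ⟨p, w, ?_, ?_⟩
      · apply hmem
        rw [hw]
        simp
      · rw [← hw]
        exact hB

end Pool.Agent.Helper65.LK
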