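import Pool.Agent.Helper65.LK.SymDefs
import Pool.Agent.Helper75.Lamm.TaitWord

/-!
# LK-70. Symmetric alternating diagrams given by words have an expansion of type (A) or (B)

Owner: helper75 (block T).  The proof is `word_main` of `Pool.Agent.Helper75.Lamm.TaitWord`, applied
to the symmetry transported to the diagram of the word.
-/

namespace Pool.Agent.Helper65.LK

open Pool.Agent.Helper75.Lamm (cf Represents TypeA TypeB word_main)

theorem tait_main {V : Type} [Fintype V] [DecidableEq V] {S : Shadow V} (hS : APD S)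
    (w : List (ZMod 4)) (e : PEq S ((PW w).dia Ex.leaf)) {ρ : Dart V → Dart V} (hρ : SymP S ρ)
    (hodd : Odd (cf (expansion w)).1) :
    ∃ b : List ℕ, (TypeA b ∨ TypeB b) ∧
      Represents b (cf (expansion w)).1 (cf (expansion w)).2 := by
  have hS' := e.apd hS
  obtain ⟨e'⟩ := e
  obtain ⟨ρ', h⟩ := hρ.transport e'
  refine word_main w hS' ⟨ρ', ρ', h.invol, h.invol⟩ h.invol h.rot h.edge (fun x => ?_) h.two hodd
  have h1 : par (ρ' x).2 ≠ par x.2 := h.flip x
  show par (ρ' x).2 = !par x.2
  revert h1
  cases par (ρ' x).2 <;> cases par x.2 <;> simp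

end Pool.Agent.Helper65.LK
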