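import Pool.Agent.Helper65.LK.ConwayMv
import Pool.Agent.Helper65.LK.Odd
import Pool.Agent.Helper65.LK.PureWord
import Pool.Agent.Helper65.LK.Cross
import Pool.Agent.Helper65.LK.MinAlt
import Pool.Agent.Helper65.LK.SymA
import Pool.Agent.Helper65.LK.SymB
import Pool.Agent.Helper65.LK.RichIface
import Pool.Agent.Helper65.LK.TaitIface

/-!
# LK-72. The final assembly

`sym_upper`: for `b` of type (A) or (B), `b.sum ≥ 2`: there is a symmetric diagram `D` with `Same D (conway b)` and
`D.n = b.sum`.  Type (A): `exists_symW`, `SymW.symP`, `SymP.isSym`, `pure_conway`, `pwD_n`, `expansion_sum`.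
Type (B): `exists_typeB`, `symP_pal`, the same; if `b = l ++ [y, 1]` also `conway_last` (the sums are equal).
`lamm_if`: `b` of type (A) or (B), `SameM (conway a) (conway b)`.  Then `conway b` is a knot.  If `b.sum ≥ 2`:
`crossingNumber (conway b) = b.sum` (`crossing_conway`) and `symCrossingNumber (conway b) ≤ b.sum`, and
`crossingNumber_le_sym`; now use `crossingNumber_same`, `symCrossingNumber_same`.  If `b.sum = 1` then `b = [1]`:
`crossing_one`.
`lamm_only`: let `symCrossingNumber (conway a) = crossingNumber (conway a)`.  If `a.sum = 1` then `a = [1]` is of type (B).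
Let `a.sum ≥ 2`: `crossingNumber (conway a) = a.sum`, so there is a symmetric `D` with `Same (conway a) D`, `D.n = a.sum`
(an infimum of a set of extended natural numbers which is finite is attained).  `D.IsKnot`, `Q` of `D` is `Q` of
`conway a`: `top_conway`.  `min_pure`: `S'`, `kap S' = 2`, `SymP S' ρ`, `Same D S'`.  `¬ Rich S' (ov _)` by `rich_same` and
`not_rich_conway`.  `exists_word`: `PEq S' ((PW w).dia leaf)`, so `Same` (`PEq.diso`, `Step.iso`) to `pwD w` and to
`conway (expansion w)` (`pure_conway`).  This is a knot, so `conway_odd` for `expansion w`, and `tait_main` gives `b` of type (A) or (B) with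
`Represents b (cf (expansion w)).1 (cf (expansion w)).2`; `conway_represents` for `expansion w` (`expansion_pos`).
-/

namespace Pool.Agent.Helper65.LK

open Pool.Agent.Helper75.Lamm (TypeA TypeB)

private theorem fin_symm {D D' : Dia} (h : Same D D') : Same D' D := Relation.EqvGen.symm _ _ h

private theorem fin_trans {D D' D'' : Dia} (h : Same D D') (h' : Same D' D'') : Same D D'' :=
  Relation.EqvGen.trans _ _ _ h h'

private theorem fin_pw (w : List (ZMod 4)) (h : ∃ ρ, SymP ((PW w).dia Ex.leaf) ρ) :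
    (pwD w).Symmetric := by
  obtain ⟨ρ, hρ⟩ := h
  exact Or.inr ⟨_, hρ.isSym⟩

private theorem fin_pw_n (w : List (ZMod 4)) : (pwD w).n = (expansion w).sum := by
  rw [pwD_n, expansion_sum]

theorem sym_upper (b : List ℕ) (hb : b ≠ []) (hp : ∀ x ∈ b, 0 < x) (h : TypeA b ∨ TypeB b)
    (hs : 2 ≤ b.sum) : ∃ D : Dia, Same D (conway b) ∧ D.Symmetric ∧ D.n = b.sum := by
  rcases h with h | h
  · obtain ⟨w, hw, hexp⟩ := exists_symW b hb hp h
    refine ⟨pwD w, ?_, fin_pw w hw.symP, ?_⟩
    · rw [← hexp]
      exact pure_conway w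
    · rw [← hexp]
      exact fin_pw_n w
  · obtain ⟨p, w, hpp, hw⟩ := exists_typeB b hp h hs
    refine ⟨pwD (w.reverse ++ p :: w), ?_, fin_pw _ (symP_pal p hpp w), ?_⟩
    · rcases hw with hw | ⟨l, y, hb', hw⟩
      · rw [← hw]
        exact pure_conway _
      · have h1 := pure_conway (w.reverse ++ p :: w)
        rw [hw] at h1
        rw [hb']
        exact fin_trans h1 (fin_symm (conway_last l y))
    · rcases hw with hw | ⟨l, y, hb', hw⟩
      · rw [fin_pw_n, hw]
      · rw [fin_pw_n, hw, hb']
        simp [List.sum_append]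

private theorem fin_one {b : List ℕ} (hb : b ≠ []) (hp : ∀ x ∈ b, 0 < x) (hs : ¬ 2 ≤ b.sum) :
    b = [1] := by
  match b, hb, hp, hs with
  | [], hb, _, _ => exact absurd rfl hb
  | [x], _, hp, hs =>
    have h1 : 0 < x := hp x (by simp)
    simp only [List.sum_cons, List.sum_nil] at hs
    have h2 : x = 1 := by omega
    rw [h2]
  | x :: y :: l, _, hp, hs =>
    have h1 : 0 < x := hp x (by simp)
    have h2 : 0 < y := hp y (by simp)
    simp only [List.sum_cons] at hs
    omega

theorem lamm_if (a b : List ℕ) (hk : (conway a).IsKnot) (hb : b ≠ []) (hp : ∀ x ∈ b, 0 < x)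
    (h : TypeA b ∨ TypeB b) (hab : SameM (conway a) (conway b)) :
    symCrossingNumber (conway a) = crossingNumber (conway a) := by
  rw [symCrossingNumber_same hab, crossingNumber_same hab]
  have hkb : (conway b).IsKnot := hab.isKnot hk
  apply le_antisymm _ (crossingNumber_le_sym _)
  by_cases hs : 2 ≤ b.sum
  · obtain ⟨D, hD, hS, hn⟩ := sym_upper b hb hp h hs
    have h1 : symCrossingNumber (conway b) ≤ (D.n : ℕ∞) :=
      iInf_le (fun D' : {D' : Dia // Same (conway b) D' ∧ D'.Symmetric} => (D'.1.n : ℕ∞))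
        ⟨D, fin_symm hD, hS⟩
    rw [hn] at h1
    rw [crossing_conway b hp hs hkb]
    exact h1
  · have h1 := fin_one hb hp hs
    subst h1
    rw [crossing_one]
    exact bot_le

theorem lamm_only (a : List ℕ) (ha : a ≠ []) (hpa : ∀ x ∈ a, 0 < x) (hk : (conway a).IsKnot)
    (h : symCrossingNumber (conway a) = crossingNumber (conway a)) :
    ∃ b : List ℕ, b ≠ [] ∧ (∀ x ∈ b, 0 < x) ∧ (TypeA b ∨ TypeB b) ∧
      SameM (conway a) (conway b) := by
  by_cases hs : 2 ≤ a.sum
  · have hc := crossing_conway a hpa hs hk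
    rw [hc] at h
    have hne : Nonempty {D' : Dia // Same (conway a) D' ∧ D'.Symmetric} := by
      by_contra hne
      rw [not_nonempty_iff] at hne
      have h1 : symCrossingNumber (conway a) = ⊤ := by
        unfold symCrossingNumber
        exact iInf_of_empty _
      rw [h1] at h
      exact (ENat.natCast_ne_top _) h.symm
    obtain ⟨⟨D, hD, hDs⟩, hDn⟩ := ENat.exists_eq_iInf
      (fun D' : {D' : Dia // Same (conway a) D' ∧ D'.Symmetric} => (D'.1.n : ℕ∞))
    have hn : D.n = a.sum := by
      have h1 : (D.n : ℕ∞) = (a.sum : ℕ∞) := hDn.trans h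
      exact_mod_cast h1
    have hDk : D.IsKnot := (hD.comps).symm.trans hk
    have hQ : cf1 (Q zL muL D.S D.s) ((D.n : ℤ) - 1) = 2 := by
      rw [← hD.q, hn]
      exact top_conway a hpa hs
    obtain ⟨V', hF, hDq, S', hp', hapd, hcard, hkap, hsame, hsym⟩ :=
      min_pure D hDk (by rw [hn]; exact hs) hQ
    have hsame' : Same (conway a) ⟨V', S', ov V', hp'⟩ := fin_trans hD hsame
    have hr : ¬ Rich S' (ov V') := by
      intro hr
      exact not_rich_conway a ((rich_same hsame').2 hr)
    obtain ⟨w, hw⟩ := exists_word hapd (by rw [hcard, hn]; exact hs) hkap hr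
    obtain ⟨e⟩ := hw.diso
    have h1 : Same (⟨V', S', ov V', hp'⟩ : Dia) (pwD w) :=
      Relation.EqvGen.rel _ _ (Step.iso ⟨V', S', ov V', hp'⟩ (pwD w) e)
    have h2 : Same (conway a) (conway (expansion w)) :=
      fin_trans hsame' (fin_trans h1 (pure_conway w))
    have hkw : (conway (expansion w)).IsKnot := (h2.comps).symm.trans hk
    obtain ⟨ρ, hρ⟩ := hsym hDs
    obtain ⟨b, hAB, hb⟩ := tait_main hapd w hw hρ (conway_odd _ hkw)
    have h3 := conway_represents (expansion_pos w).1 (expansion_pos w).2 hb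
    exact ⟨b, hb.1, hb.2.1, hAB, SameM.trans (Or.inl h2) h3⟩
  · have h1 := fin_one ha hpa hs
    subst h1
    refine ⟨[1], by simp, by simp, Or.inr ⟨by simp, by simp, by simp⟩, SameM.refl _⟩

theorem lamm (a : List ℕ) (ha : a ≠ []) (hpa : ∀ x ∈ a, 0 < x) (hk : (conway a).IsKnot) :
    symCrossingNumber (conway a) = crossingNumber (conway a) ↔
      ∃ b : List ℕ, b ≠ [] ∧ (∀ x ∈ b, 0 < x) ∧ (TypeA b ∨ TypeB b) ∧
        (Same (conway a) (conway b) ∨ Same (conway a) (mir (conway b))) := by
  constructor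
  · intro h
    exact lamm_only a ha hpa hk h
  · rintro ⟨b, hb, hp, h, hab⟩
    exact lamm_if a b hk hb hp h hab

end Pool.Agent.Helper65.LK
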