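import Pool.Agent.Helper65.LK.PureDefs
import Pool.Agent.Helper65.LK.Tri
import Pool.Agent.Helper65.LK.Euler

/-!
# LK-22. The triangle move for pure diagrams

Let `π = tri u i v j w k`, `S' = S.conj π`, `L = l (u, i+1)` (the label of the triangle
`(u,i+1), (v,j+1), (w,k+1)`; `faceP` maps them cyclically).  Faces of `S` around the triangle: `(v,j), (u,i+2)`
are consecutive corners of the face across the edge `uv`, `(w,k), (v,j+2)` and `(u,i), (w,k+2)` similarly.  In
`S'` the triangle is `(u,i+3), (v,j+3), (w,k+3)`, and `(v,j+2), (u,i)`; `(w,k+2), (v,j)`; `(u,i+2), (w,k)` are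
consecutive corners.
Define `Ξ : Dart V → Dart V` by
`Ξ (w,k+1) = (u,i+2)`, `Ξ (u,i+1) = (v,j+2)`, `Ξ (v,j+1) = (w,k+2)`,
`Ξ (v,j+2) = Ξ (u,i) = (w,k+3)`, `Ξ (w,k+2) = Ξ (v,j) = (u,i+3)`, `Ξ (u,i+2) = Ξ (w,k) = (v,j+3)`,
`Ξ (u,i+3) = Ξ (v,j+3) = Ξ (w,k+3) = (u,i+1)`, and `Ξ x = x` at other vertices.
`(faceP S).SameCycle (Ξ x) (Ξ (faceP S' x))` for all `x`: for the three darts of the new triangle and for the
first corners `(v,j+2), (w,k+2), (u,i+2)` this is clear; in all other cases `α x`-steps of the outer darts: for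
an outer or outside dart `y` of `S`, `Ξ (sg (π y)) ~ sg y` (`~`: the same face of `S`).  Every face of `S`
contains some `Ξ x`.  Hence `cycles (faceP S') ≥ cycles (faceP S)`.
`pieces`: the darts at `u, v, w` are in one piece, in `S` and in `S'`; `Piece S x y → Piece S' x y` and conversely
(for `y = α x`: `x ~ π x ~ α' (π x) = π (α x) ~ α x`).
With `euler_le` for `S'`: `S'` is planar.

Labels: `l' x = l (Ξ x)` except `l' x = L - 1` for the three darts of the new triangle.
As `l (u,i+1) = l (u,i+3) + 2`: `l (u,i) = l (u,i+2) = L - 1`, `l (v,j) = l (w,k+2) = L - 1`,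
`l (w,k) = l (v,j+2) = e ∈ {L - 1, L + 1}`, `l (v,j+3) ∈ {L, L - 2}`, `l (w,k+3) ∈ {L, L - 2}`, both equal to
`L` if `e = L + 1`.
`face`: from the property of `Ξ` (`l (sg x) = l (α' x)` says that `l'` is constant along `faceP S'`,
put `x = α' y`).  `step`: the edges of the new triangle: neighbours `l (u,i+3), l (v,j+3), l (w,k+3) ∈ {L, L-2}`;
the outer edges: as before the move (the two corners on both sides are, up to `Ξ`, the same faces).
`low`: new triangle: `l (u,i+3) = L - 2`.  A face which contains `Ξ x`, `l (Ξ x) ≠ 0`: in `S` there is a dart `y` in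
this face with `l (α y) + 1 = l y`.  If the edge `y` is not an edge of the triangle, it is an outer or outside
edge, which is still there in `S'` (with the same two faces).  If it is an edge of the triangle and `y` is
on the outer side, then `l y = L + 1`, so `e = L + 1` and the face is the one of `(w,k), (v,j+2)`; its outer
edge at `v` has on the other side the face of `(v,j+3)`, of label `L`.  (`y` cannot be on the inner
side, as the old triangle is no longer there; for the darts with `Ξ x = (u,i+1)` see above.)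
`zero`: the faces of `S'` with label zero are mapped by `Ξ` injectively to the faces of `S` with label
zero (`L - 1 ≥ 1`; `Ξ` is injective on the faces of `S'` since the numbers of faces are equal).
Sum: `∑ l' - ∑ l = l (u,i+3) + l (v,j+3) + l (w,k+3) - l (v,j) - l (w,k) - l (u,i) - 3 L + 3 (L - 1) < 0`:
`(L - 2) + l (v,j+3) + l (w,k+3) - 2 (L - 1) - e - 3`, which is `≤ -2` for `e = L - 1` and `= -4`
for `e = L + 1`.
(All this was checked by computer on random examples.)
-/

set_option linter.unusedSimpArgs false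
set_option linter.unusedSectionVars false
set_option linter.unusedVariables false

namespace Pool.Agent.Helper65.LK

namespace Flip

variable {V : Type}

/-! ### generalities -/

theorem zcase (i a : ZMod 4) : a = i ∨ a = i + 1 ∨ a = i + 2 ∨ a = i + 3 := by
  revert i a; decide

theorem sg0 (x : V) (a : ZMod 4) : sg (x, a) = (x, a + 1) := rfl

theorem sg1 (x : V) (a : ZMod 4) : sg (x, a + 1) = (x, a + 2) := by
  have : ∀ a : ZMod 4, a + 1 + 1 = a + 2 := by decide
  simp [sg, this]

theorem sg2 (x : V) (a : ZMod 4) : sg (x, a + 2) = (x, a + 3) := by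
  have : ∀ a : ZMod 4, a + 2 + 1 = a + 3 := by decide
  simp [sg, this]

theorem sg3 (x : V) (a : ZMod 4) : sg (x, a + 3) = (x, a) := by
  have : ∀ a : ZMod 4, a + 3 + 1 = a := by decide
  simp [sg, this]

theorem sum_four (f : ZMod 4 → ℕ) (i : ZMod 4) :
    ∑ a, f a = f i + f (i + 1) + f (i + 2) + f (i + 3) := by
  rw [← Equiv.sum_comp (Equiv.addLeft i) f]
  have : ∀ g : ZMod 4 → ℕ, ∑ a, g a = g 0 + g 1 + g 2 + g 3 := fun g => Fin.sum_univ_four g
  rw [this]
  simp

theorem sameCycle_map {X Y : Type} {f : Equiv.Perm X} {g : Equiv.Perm Y} {θ : Y → X}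
    (h : ∀ x, f.SameCycle (θ x) (θ (g x))) {x y : Y} (hxy : g.SameCycle x y) :
    f.SameCycle (θ x) (θ y) := by
  obtain ⟨n, rfl⟩ := hxy
  induction n using Int.induction_on with
  | zero => simpa using Equiv.Perm.SameCycle.refl f (θ x)
  | succ n ih =>
    refine ih.trans ?_
    rw [add_comm, zpow_add, zpow_one, Equiv.Perm.mul_apply]
    exact h _
  | pred n ih =>
    refine ih.trans ?_
    have := h ((g ^ (-(n : ℤ) - 1)) x)
    have e : g ((g ^ (-(n : ℤ) - 1)) x) = (g ^ (-(n : ℤ))) x := by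
      rw [← Equiv.Perm.mul_apply, ← zpow_one_add]
      congr 2
      ring
    rw [e] at this
    exact this.symm

variable [DecidableEq V]

/-- the map from the corners of the new diagram to those of the old one -/
def xi (u : V) (i : ZMod 4) (v : V) (j : ZMod 4) (w : V) (k : ZMod 4) (x : Dart V) : Dart V :=
  if x.1 = u then
    if x.2 = i then (w, k + 3) else if x.2 = i + 1 then (v, j + 2) else
      if x.2 = i + 2 then (v, j + 3) else (u, i + 1)
  else if x.1 = v then
    if x.2 = j then (u, i + 3) else if x.2 = j + 1 then (w, k + 2) else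
      if x.2 = j + 2 then (w, k + 3) else (u, i + 1)
  else if x.1 = w then
    if x.2 = k then (v, j + 3) else if x.2 = k + 1 then (u, i + 2) else
      if x.2 = k + 2 then (u, i + 3) else (u, i + 1)
  else x

theorem z4 : (1 : ZMod 4) ≠ 0 ∧ (2 : ZMod 4) ≠ 0 ∧ (3 : ZMod 4) ≠ 0 ∧ (2 : ZMod 4) ≠ 1 ∧
    (3 : ZMod 4) ≠ 1 ∧ (3 : ZMod 4) ≠ 2 := by decide

theorem xi_apply {u v w : V} (i j k : ZMod 4) (uv : u ≠ v) (vw : v ≠ w) (wu : w ≠ u) :
    (xi u i v j w k (u, i) = (w, k + 3) ∧ xi u i v j w k (u, i + 1) = (v, j + 2) ∧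
    xi u i v j w k (u, i + 2) = (v, j + 3) ∧ xi u i v j w k (u, i + 3) = (u, i + 1)) ∧
    (xi u i v j w k (v, j) = (u, i + 3) ∧ xi u i v j w k (v, j + 1) = (w, k + 2) ∧
    xi u i v j w k (v, j + 2) = (w, k + 3) ∧ xi u i v j w k (v, j + 3) = (u, i + 1)) ∧
    (xi u i v j w k (w, k) = (v, j + 3) ∧ xi u i v j w k (w, k + 1) = (u, i + 2) ∧
    xi u i v j w k (w, k + 2) = (u, i + 3) ∧ xi u i v j w k (w, k + 3) = (u, i + 1)) ∧
    ∀ x : Dart V, x.1 ≠ u → x.1 ≠ v → x.1 ≠ w → xi u i v j w k x = x := by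
  obtain ⟨h1, h2, h3, h4, h5, h6⟩ := z4
  have uv' := uv.symm
  have vw' := vw.symm
  have wu' := wu.symm
  refine ⟨⟨?_, ?_, ?_, ?_⟩, ⟨?_, ?_, ?_, ?_⟩, ⟨?_, ?_, ?_, ?_⟩, ?_⟩
  all_goals first
    | (intro x hu hv hw; simp [xi, hu, hv, hw])
    | simp [xi, h1, h2, h3, h4, h5, h6, uv, vw, wu, uv', vw', wu']

/-- the darts of the edges of the triangle -/
def Inn (u : V) (i : ZMod 4) (v : V) (j : ZMod 4) (w : V) (k : ZMod 4) (x : Dart V) : Prop :=
  x = (u, i) ∨ x = (u, i + 1) ∨ x = (v, j) ∨ x = (v, j + 1) ∨ x = (w, k) ∨ x = (w, k + 1)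

theorem out_cases {u v w : V} {i j k : ZMod 4} {x : Dart V} (h : ¬ Inn u i v j w k x) :
    x = (u, i + 2) ∨ x = (u, i + 3) ∨ x = (v, j + 2) ∨ x = (v, j + 3) ∨ x = (w, k + 2) ∨
      x = (w, k + 3) ∨ (x.1 ≠ u ∧ x.1 ≠ v ∧ x.1 ≠ w) := by
  obtain ⟨y, a⟩ := x
  unfold Inn at h
  push Not at h
  obtain ⟨h1, h2, h3, h4, h5, h6⟩ := h
  by_cases hu : y = u
  · subst hu
    rcases zcase i a with rfl | rfl | rfl | rfl <;> simp_all
  by_cases hv : y = v
  · subst hv
    rcases zcase j a with rfl | rfl | rfl | rfl <;> simp_all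
  by_cases hw : y = w
  · subst hw
    rcases zcase k a with rfl | rfl | rfl | rfl <;> simp_all
  · simp [hu, hv, hw]

section

variable {S : Shadow V} {u v w : V} {i j k : ZMod 4}

theorem inn_α (T : TriP S u i v j w k) {x : Dart V} (h : Inn u i v j w k x) :
    Inn u i v j w k (S.α x) := by
  have b1 : S.α (v, j) = (u, i + 1) := by rw [← T.a1, S.invol]
  have b2 : S.α (w, k) = (v, j + 1) := by rw [← T.a2, S.invol]
  have b3 : S.α (u, i) = (w, k + 1) := by rw [← T.a3, S.invol]
  unfold Inn at h ⊢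
  rcases h with rfl | rfl | rfl | rfl | rfl | rfl <;> simp [T.a1, T.a2, T.a3, b1, b2, b3]

theorem out_α (T : TriP S u i v j w k) {x : Dart V} (h : ¬ Inn u i v j w k x) :
    ¬ Inn u i v j w k (S.α x) := by
  intro h'
  apply h
  have := inn_α T h'
  rwa [S.invol] at this

/-- the new involution -/
theorem conj_α (T : TriP S u i v j w k) (x : Dart V) :
    (S.conj (tri u i v j w k)).α (tri u i v j w k x) = tri u i v j w k (S.α x) := by
  simp [Shadow.conj]

theorem xi_out (T : TriP S u i v j w k) {y : Dart V} (h : ¬ Inn u i v j w k y) :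
    xi u i v j w k (tri u i v j w k y) = y := by
  obtain ⟨⟨p0, p1, p2, p3⟩, ⟨q0, q1, q2, q3⟩, ⟨r0, r1, r2, r3⟩, ho⟩ := xi_apply i j k T.uv T.vw T.wu
  obtain ⟨a0, a1, a2, a3, b0, b1, b2, b3, c0, c1, c2, c3, hπ⟩ := tri_apply i j k T.uv T.vw T.wu
  rcases out_cases h with rfl | rfl | rfl | rfl | rfl | rfl | ⟨h1, h2, h3⟩
  · rw [a2, r1]
  · rw [a3, q0]
  · rw [b2, p1]
  · rw [b3, r0]
  · rw [c2, q1]
  · rw [c3, p0]
  · rw [hπ _ h1 h2 h3, ho _ h1 h2 h3]

theorem xi_sg (T : TriP S u i v j w k) {y : Dart V} (h : ¬ Inn u i v j w k y) :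
    (faceP S).SameCycle (xi u i v j w k (sg (tri u i v j w k y))) (sg y) := by
  obtain ⟨⟨p0, p1, p2, p3⟩, ⟨q0, q1, q2, q3⟩, ⟨r0, r1, r2, r3⟩, ho⟩ := xi_apply i j k T.uv T.vw T.wu
  obtain ⟨a0, a1, a2, a3, b0, b1, b2, b3, c0, c1, c2, c3, hπ⟩ := tri_apply i j k T.uv T.vw T.wu
  have d1 : S.α (v, j) = (u, i + 1) := by rw [← T.a1, S.invol]
  have d2 : S.α (w, k) = (v, j + 1) := by rw [← T.a2, S.invol]
  have d3 : S.α (u, i) = (w, k + 1) := by rw [← T.a3, S.invol]
  have f1 : faceP S (v, j) = (u, i + 2) := by rw [faceP_apply, d1, sg1]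
  have f2 : faceP S (w, k) = (v, j + 2) := by rw [faceP_apply, d2, sg1]
  have f3 : faceP S (u, i) = (w, k + 2) := by rw [faceP_apply, d3, sg1]
  have key : ∀ x y : Dart V, faceP S x = y → (faceP S).SameCycle y x := fun x y h => by
    rw [← h]; exact (Equiv.Perm.sameCycle_apply_right.2 (Equiv.Perm.SameCycle.refl _ _)).symm
  rcases out_cases h with rfl | rfl | rfl | rfl | rfl | rfl | ⟨h1, h2, h3⟩
  · rw [a2, sg1, sg2, r2]
  · rw [a3, sg0, sg3, q1]; exact key _ _ f3
  · rw [b2, sg1, sg2, p2]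
  · rw [b3, sg0, sg3, r1]; exact key _ _ f1
  · rw [c2, sg1, sg2, q2]
  · rw [c3, sg0, sg3, p1]; exact key _ _ f2
  · rw [hπ _ h1 h2 h3, ho (sg y) h1 h2 h3]

/-- `Ξ` is constant along the faces -/
theorem xi_face (T : TriP S u i v j w k) (x : Dart V) :
    (faceP S).SameCycle (xi u i v j w k x)
      (xi u i v j w k (faceP (S.conj (tri u i v j w k)) x)) := by
  obtain ⟨⟨p0, p1, p2, p3⟩, ⟨q0, q1, q2, q3⟩, ⟨r0, r1, r2, r3⟩, ho⟩ := xi_apply i j k T.uv T.vw T.wu
  obtain ⟨a0, a1, a2, a3, b0, b1, b2, b3, c0, c1, c2, c3, hπ⟩ := tri_apply i j k T.uv T.vw T.wu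
  have d1 : S.α (v, j) = (u, i + 1) := by rw [← T.a1, S.invol]
  have d2 : S.α (w, k) = (v, j + 1) := by rw [← T.a2, S.invol]
  have d3 : S.α (u, i) = (w, k + 1) := by rw [← T.a3, S.invol]
  have hinv := tri_invol i j k T.uv T.vw T.wu
  obtain ⟨z, rfl⟩ : ∃ z, x = tri u i v j w k (S.α z) := ⟨S.α (tri u i v j w k x), by
    rw [S.invol, hinv]⟩
  rw [faceP_apply, conj_α T, S.invol]
  by_cases h : Inn u i v j w k z
  · unfold Inn at h
    rcases h with rfl | rfl | rfl | rfl | rfl | rfl
    · rw [d3, c1, a0, sg3, p2, r0]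
    · rw [T.a1, b0, a1, sg2, p3, q3]
    · rw [d1, a1, b0, sg3, q2, p0]
    · rw [T.a2, c0, b1, sg2, q3, r3]
    · rw [d2, b1, c0, sg3, r2, q0]
    · rw [T.a3, a0, c1, sg2, r3, p3]
  · rw [xi_out T (out_α T h)]
    refine Equiv.Perm.SameCycle.trans ?_ (xi_sg T h).symm
    have : faceP S (S.α z) = sg z := by rw [faceP_apply, S.invol]
    rw [← this]
    exact Equiv.Perm.sameCycle_apply_right.2 (Equiv.Perm.SameCycle.refl _ _)

theorem xi_same (T : TriP S u i v j w k) {x y : Dart V}
    (h : (faceP (S.conj (tri u i v j w k))).SameCycle x y) :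
    (faceP S).SameCycle (xi u i v j w k x) (xi u i v j w k y) :=
  sameCycle_map (xi_face T) h

theorem xi_surj (T : TriP S u i v j w k) (y : Dart V) :
    ∃ x, (faceP S).SameCycle (xi u i v j w k x) y := by
  obtain ⟨⟨p0, p1, p2, p3⟩, ⟨q0, q1, q2, q3⟩, ⟨r0, r1, r2, r3⟩, ho⟩ := xi_apply i j k T.uv T.vw T.wu
  have d1 : S.α (v, j) = (u, i + 1) := by rw [← T.a1, S.invol]
  have d2 : S.α (w, k) = (v, j + 1) := by rw [← T.a2, S.invol]
  have d3 : S.α (u, i) = (w, k + 1) := by rw [← T.a3, S.invol]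
  have f1 : faceP S (v, j) = (u, i + 2) := by rw [faceP_apply, d1, sg1]
  have f2 : faceP S (w, k) = (v, j + 2) := by rw [faceP_apply, d2, sg1]
  have f3 : faceP S (u, i) = (w, k + 2) := by rw [faceP_apply, d3, sg1]
  have g1 : faceP S (u, i + 1) = (v, j + 1) := by rw [faceP_apply, T.a1, sg0]
  have g2 : faceP S (v, j + 1) = (w, k + 1) := by rw [faceP_apply, T.a2, sg0]
  have key : ∀ x y : Dart V, faceP S x = y → (faceP S).SameCycle x y := fun x y h => by
    rw [← h]; exact Equiv.Perm.sameCycle_apply_right.2 (Equiv.Perm.SameCycle.refl _ _)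
  by_cases h : Inn u i v j w k y
  · unfold Inn at h
    rcases h with rfl | rfl | rfl | rfl | rfl | rfl
    · exact ⟨(v, j + 1), by rw [q1]; exact (key _ _ f3).symm⟩
    · exact ⟨(u, i + 3), by rw [p3]⟩
    · exact ⟨(w, k + 1), by rw [r1]; exact (key _ _ f1).symm⟩
    · exact ⟨(u, i + 3), by rw [p3]; exact key _ _ g1⟩
    · exact ⟨(u, i + 1), by rw [p1]; exact (key _ _ f2).symm⟩
    · exact ⟨(u, i + 3), by rw [p3]; exact (key _ _ g1).trans (key _ _ g2)⟩
  · exact ⟨tri u i v j w k y, by rw [xi_out T h]⟩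

/-- the induced map from the faces of the new diagram to those of the old one -/
def xiQ (T : TriP S u i v j w k) :
    Quotient (Equiv.Perm.SameCycle.setoid (faceP (S.conj (tri u i v j w k)))) →
      Quotient (Equiv.Perm.SameCycle.setoid (faceP S)) :=
  Quotient.map' (xi u i v j w k) fun _ _ h => xi_same T h

theorem xiQ_surj (T : TriP S u i v j w k) : Function.Surjective (xiQ T) := by
  intro q
  induction q using Quotient.inductionOn with
  | _ y =>
    obtain ⟨x, hx⟩ := xi_surj T y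
    exact ⟨Quotient.mk _ x, Quotient.sound hx⟩

theorem cycles_le [Fintype V] (T : TriP S u i v j w k) :
    cycles (faceP S) ≤ cycles (faceP (S.conj (tri u i v j w k))) :=
  Nat.card_le_card_of_surjective _ (xiQ_surj T)

/-! ### the connected pieces -/

theorem piece_vertex (S : Shadow V) (s : V → St) (hs : ∀ a, (s a).isX = true) (a : V)
    (m n : ZMod 4) : Piece S s (a, m) (a, n) := by
  have h1 : ∀ m, Piece S s (a, m) (a, m + 1) := by
    intro m
    refine Relation.EqvGen.rel _ _ (Or.inr ?_)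
    have := hs a
    unfold rot
    cases h : s a <;> simp_all [St.next, St.isX]
  have h2 : Piece S s (a, m) (a, m + 2) := by
    have := (h1 m).trans _ _ _ (h1 (m + 1))
    have e : ∀ m : ZMod 4, m + 1 + 1 = m + 2 := by decide
    rwa [e] at this
  have h3 : Piece S s (a, m) (a, m + 3) := by
    have := h2.trans _ _ _ (h1 (m + 2))
    have e : ∀ m : ZMod 4, m + 2 + 1 = m + 3 := by decide
    rwa [e] at this
  rcases zcase m n with rfl | rfl | rfl | rfl
  · exact Relation.EqvGen.refl _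
  · exact h1 _
  · exact h2
  · exact h3

theorem piece_tri (T : TriP S u i v j w k) (x : Dart V) :
    Piece (S.conj (tri u i v j w k)) (fun _ => St.over1) x (tri u i v j w k x) := by
  obtain ⟨a0, a1, a2, a3, b0, b1, b2, b3, c0, c1, c2, c3, hπ⟩ := tri_apply i j k T.uv T.vw T.wu
  set S' := S.conj (tri u i v j w k) with hS'
  have hs : ∀ a : V, ((fun _ => St.over1 : V → St) a).isX = true := fun _ => rfl
  have hv := piece_vertex S' (fun _ => St.over1) hs
  have e1 : S'.α (v, j + 2) = (u, i + 3) := by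
    have := conj_α T (u, i + 1)
    rwa [T.a1, a1, b0] at this
  have e2 : S'.α (w, k + 2) = (v, j + 3) := by
    have := conj_α T (v, j + 1)
    rwa [T.a2, b1, c0] at this
  have k1 : Piece S' (fun _ => St.over1) (v, j + 2) (u, i + 3) :=
    Relation.EqvGen.rel _ _ (Or.inl e1.symm)
  have k2 : Piece S' (fun _ => St.over1) (w, k + 2) (v, j + 3) :=
    Relation.EqvGen.rel _ _ (Or.inl e2.symm)
  have key : ∀ y : Dart V, y.1 = u ∨ y.1 = v ∨ y.1 = w →
      Piece S' (fun _ => St.over1) y (v, j) := by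
    rintro ⟨y, a⟩ (h | h | h)
    · simp only at h
      subst h
      exact (hv _ a (i + 3)).trans _ _ _ ((k1.symm).trans _ _ _ (hv _ _ _))
    · simp only at h
      subst h
      exact hv _ _ _
    · simp only at h
      subst h
      exact (hv _ a (k + 2)).trans _ _ _ (k2.trans _ _ _ (hv _ _ _))
  by_cases h : x.1 = u ∨ x.1 = v ∨ x.1 = w
  · refine (key x h).trans _ _ _ ((key _ ?_).symm)
    obtain ⟨y, a⟩ := x
    simp only at h
    rcases h with rfl | rfl | rfl
    · rcases zcase i a with rfl | rfl | rfl | rfl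
      · rw [a0]; simp
      · rw [a1]; simp
      · rw [a2]; simp
      · rw [a3]; simp
    · rcases zcase j a with rfl | rfl | rfl | rfl
      · rw [b0]; simp
      · rw [b1]; simp
      · rw [b2]; simp
      · rw [b3]; simp
    · rcases zcase k a with rfl | rfl | rfl | rfl
      · rw [c0]; simp
      · rw [c1]; simp
      · rw [c2]; simp
      · rw [c3]; simp
  · push Not at h
    rw [hπ x h.1 h.2.1 h.2.2]
    exact Relation.EqvGen.refl _

theorem piece_conj (T : TriP S u i v j w k) {x y : Dart V}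
    (h : Piece S (fun _ => St.over1) x y) :
    Piece (S.conj (tri u i v j w k)) (fun _ => St.over1) x y := by
  unfold Piece at h
  induction h with
  | rel x y h =>
    rcases h with rfl | rfl
    · refine (piece_tri T x).trans _ _ _ (Relation.EqvGen.trans _ _ _ ?_ (piece_tri T (S.α x)).symm)
      exact Relation.EqvGen.rel _ _ (Or.inl (conj_α T x).symm)
    · exact Relation.EqvGen.rel _ _ (Or.inr rfl)
  | refl x => exact Relation.EqvGen.refl _
  | symm x y _ ih => exact ih.symm
  | trans x y z _ _ ih1 ih2 => exact ih1.trans _ _ _ ih2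

variable [Fintype V]

theorem pieces_le (T : TriP S u i v j w k) :
    pieces (S.conj (tri u i v j w k)) (fun _ => St.over1) ≤ pieces S (fun _ => St.over1) := by
  unfold pieces classes
  let f : Quotient (Relation.EqvGen.setoid
        (fun x y : Dart V => y = S.α x ∨ y = rot (fun _ => St.over1) x)) →
      Quotient (Relation.EqvGen.setoid
        (fun x y : Dart V => y = (S.conj (tri u i v j w k)).α x ∨
          y = rot (fun _ => St.over1) x)) :=
    Quotient.map' id fun _ _ h => piece_conj T h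
  have hf : Function.Surjective f := by
    intro q
    induction q using Quotient.inductionOn with
    | _ y => exact ⟨Quotient.mk _ y, rfl⟩
  exact Nat.card_le_card_of_surjective f hf

theorem conj_all (hp : PlanarP S) (T : TriP S u i v j w k) :
    PlanarP (S.conj (tri u i v j w k)) ∧
      pieces S (fun _ => St.over1) ≤ pieces (S.conj (tri u i v j w k)) (fun _ => St.over1) ∧
      cycles (faceP (S.conj (tri u i v j w k))) ≤ cycles (faceP S) := by
  have h1 := cycles_le T
  have h2 := pieces_le T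
  have h3 := euler_le (S.conj (tri u i v j w k)) (fun _ => St.over1)
  have h4 : cycles (faceP S) = nX (fun _ : V => St.over1) + 2 * pieces S (fun _ => St.over1) := hp
  have h5 : cycles (rot (fun _ => St.over1) * (S.conj (tri u i v j w k)).α) =
    cycles (faceP (S.conj (tri u i v j w k))) := rfl
  refine ⟨?_, ?_, ?_⟩
  · show cycles (faceP (S.conj (tri u i v j w k))) = _
    rw [h5] at h3
    omega
  · omega
  · omega

theorem xiQ_bij (hp : PlanarP S) (T : TriP S u i v j w k) : Function.Bijective (xiQ T) :=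
  (xiQ_surj T).bijective_of_nat_card_le (conj_all hp T).2.2

theorem xi_inj (hp : PlanarP S) (T : TriP S u i v j w k) {x y : Dart V}
    (h : (faceP S).SameCycle (xi u i v j w k x) (xi u i v j w k y)) :
    (faceP (S.conj (tri u i v j w k))).SameCycle x y := by
  have : (Quotient.mk (Equiv.Perm.SameCycle.setoid (faceP (S.conj (tri u i v j w k)))) x) =
      Quotient.mk _ y := by
    apply (xiQ_bij hp T).1
    exact Quotient.sound h
  exact Quotient.exact this

end

/-! ### the labels -/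

variable [Fintype V]

/-- the darts of the new triangle -/
def Trg (u : V) (i : ZMod 4) (v : V) (j : ZMod 4) (w : V) (k : ZMod 4) (x : Dart V) : Prop :=
  x = (u, i + 3) ∨ x = (v, j + 3) ∨ x = (w, k + 3)

open Classical in
/-- the new labels -/
noncomputable def lab (l : Dart V → ℕ) (u : V) (i : ZMod 4) (v : V) (j : ZMod 4) (w : V)
    (k : ZMod 4) (x : Dart V) : ℕ :=
  if Trg u i v j w k x then l (u, i + 1) - 1 else l (xi u i v j w k x)

theorem lab_const {S : Shadow V} {l : Dart V → ℕ} (hl : ∀ x, l (sg x) = l (S.α x))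
    {x y : Dart V} (h : (faceP S).SameCycle x y) : l x = l y := by
  have h1 : ∀ x, l (faceP S x) = l x := by
    intro x
    rw [faceP_apply, hl, S.invol]
  obtain ⟨n, rfl⟩ := h
  induction n using Int.induction_on with
  | zero => simp
  | succ n ih =>
    rw [add_comm, zpow_add, zpow_one, Equiv.Perm.mul_apply, h1]
    exact ih
  | pred n ih =>
    rw [ih, ← h1 (((faceP S) ^ (-(n : ℤ) - 1)) x), ← Equiv.Perm.mul_apply, ← zpow_one_add]
    congr 3
    ring

/-- the labels around the triangle -/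
theorem lab_facts {S : Shadow V} {u v w : V} {i j k : ZMod 4}
    (T : TriP S u i v j w k) {l : Dart V → ℕ} (hf : ∀ x, l (sg x) = l (S.α x))
    (hs : ∀ x, l (S.α x) = l x + 1 ∨ l x = l (S.α x) + 1)
    (hg : l (u, i + 1) = l (u, i + 3) + 2) :
    ∃ c e p q : ℕ, (l (u, i) = c + 1 ∧ l (u, i + 1) = c + 2 ∧ l (u, i + 2) = c + 1 ∧
      l (u, i + 3) = c) ∧ (l (v, j) = c + 1 ∧ l (v, j + 1) = c + 2 ∧ l (v, j + 2) = e ∧
      l (v, j + 3) = p) ∧ (l (w, k) = e ∧ l (w, k + 1) = c + 2 ∧ l (w, k + 2) = c + 1 ∧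
      l (w, k + 3) = q) ∧ l (S.α (v, j + 2)) = p ∧ (e = c + 1 ∨ e = c + 3) ∧
      (p = c ∨ p = c + 2) ∧ (q = c ∨ q = c + 2) ∧ (e = c + 3 → p = c + 2 ∧ q = c + 2) := by
  have d1 : S.α (v, j) = (u, i + 1) := by rw [← T.a1, S.invol]
  have d2 : S.α (w, k) = (v, j + 1) := by rw [← T.a2, S.invol]
  have d3 : S.α (u, i) = (w, k + 1) := by rw [← T.a3, S.invol]
  have hv : ∀ x, l (sg x) = l x + 1 ∨ l x = l (sg x) + 1 := fun x => by rw [hf]; exact hs x
  have u0 := hv (u, i)
  have u1 := hv (u, i + 1)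
  have u2 := hv (u, i + 2)
  have u3 := hv (u, i + 3)
  have v0 := hv (v, j)
  have v1 := hv (v, j + 1)
  have v2 := hv (v, j + 2)
  have v3 := hv (v, j + 3)
  have w0 := hv (w, k)
  have w1 := hv (w, k + 1)
  have w2 := hv (w, k + 2)
  have w3 := hv (w, k + 3)
  have f1 := hf (u, i)
  have f2 := hf (u, i + 1)
  have f3 := hf (v, j)
  have f4 := hf (v, j + 1)
  have f5 := hf (w, k)
  have f6 := hf (w, k + 1)
  have f7 := hf (v, j + 2)
  rw [d3] at f1
  rw [T.a1] at f2
  rw [d1] at f3
  rw [T.a2] at f4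
  rw [d2] at f5
  rw [T.a3] at f6
  rw [sg2] at f7
  rw [sg0] at u0 v0 w0 f1 f3 f5
  rw [sg1] at u1 v1 w1 f2 f4 f6
  rw [sg2] at u2 v2 w2
  rw [sg3] at u3 v3 w3
  refine ⟨l (u, i + 3), l (w, k), l (v, j + 3), l (w, k + 3), ?_⟩
  generalize l (u, i) = x1 at *
  generalize l (u, i + 1) = x2 at *
  generalize l (u, i + 2) = x3 at *
  generalize l (u, i + 3) = x4 at *
  generalize l (v, j) = x5 at *
  generalize l (v, j + 1) = x6 at *
  generalize l (v, j + 2) = x7 at *
  generalize l (v, j + 3) = x8 at *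
  generalize l (w, k) = x9 at *
  generalize l (w, k + 1) = x10 at *
  generalize l (w, k + 2) = x11 at *
  generalize l (w, k + 3) = x12 at *
  generalize l (S.α (v, j + 2)) = x13 at *
  clear hf hs hv
  omega

theorem sum_lt {u v w : V} (uv : u ≠ v) (vw : v ≠ w) (wu : w ≠ u) (f g : Dart V → ℕ)
    (h : ∀ x, x ≠ u → x ≠ v → x ≠ w → ∀ a, f (x, a) = g (x, a))
    {A B C D E F : ℕ} (hA : ∑ a, f (u, a) = A) (hB : ∑ a, f (v, a) = B)
    (hC : ∑ a, f (w, a) = C) (hD : ∑ a, g (u, a) = D) (hE : ∑ a, g (v, a) = E)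
    (hF : ∑ a, g (w, a) = F) (h3 : A + B + C < D + E + F) :
    ∑ x, f x < ∑ x, g x := by
  subst hA hB hC hD hE hF
  rw [Fintype.sum_prod_type, Fintype.sum_prod_type]
  have hsum : ∀ f : V → ℕ,
      ∑ x, f x = (f u + f v + f w) + ∑ x ∈ ({u, v, w} : Finset V)ᶜ, f x := by
    intro f
    rw [← Finset.sum_add_sum_compl ({u, v, w} : Finset V)]
    congr 1
    rw [Finset.sum_insert (by simp [uv, wu.symm]), Finset.sum_insert (by simp [vw]),
      Finset.sum_singleton, add_assoc]
  rw [hsum, hsum (fun x => ∑ y, g (x, y))]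
  have e : ∑ x ∈ ({u, v, w} : Finset V)ᶜ, ∑ y, f (x, y) =
      ∑ x ∈ ({u, v, w} : Finset V)ᶜ, ∑ y, g (x, y) := by
    refine Finset.sum_congr rfl fun x hx => Finset.sum_congr rfl fun y _ => ?_
    simp only [Finset.mem_compl, Finset.mem_insert, Finset.mem_singleton, not_or] at hx
    exact h x hx.1 hx.2.1 hx.2.2 y
  rw [e]
  exact Nat.add_lt_add_right h3 _

end Flip

open Flip

variable {V : Type} [Fintype V] [DecidableEq V]

theorem planar_conj {S : Shadow V} (hp : PlanarP S) {u v w : V} {i j k : ZMod 4}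
    (T : TriP S u i v j w k) : PlanarP (S.conj (tri u i v j w k)) :=
  (conj_all hp T).1

theorem label_conj {S : Shadow V} (hp : PlanarP S) {u v w : V} {i j k : ZMod 4}
    (T : TriP S u i v j w k) {l : Dart V → ℕ} (hl : Label S l)
    (hg : l (u, i + 1) = l (u, i + 3) + 2) :
    ∃ l', Label (S.conj (tri u i v j w k)) l' ∧ ∑ x, l' x < ∑ x, l x := by
  obtain ⟨hf, hs, hlow, hz⟩ := hl
  obtain ⟨c, e, p, q, ⟨lu0, lu1, lu2, lu3⟩, ⟨lv0, lv1, lv2, lv3⟩, ⟨lw0, lw1, lw2, lw3⟩, lp,
    he, hp', hq', hepq⟩ := lab_facts T hf hs hg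
  obtain ⟨⟨p0, p1, p2, p3⟩, ⟨q0, q1, q2, q3⟩, ⟨r0, r1, r2, r3⟩, ho⟩ := xi_apply i j k T.uv T.vw T.wu
  obtain ⟨a0, a1, a2, a3, b0, b1, b2, b3, c0, c1, c2, c3, hπ⟩ := tri_apply i j k T.uv T.vw T.wu
  have d1 : S.α (v, j) = (u, i + 1) := by rw [← T.a1, S.invol]
  have d2 : S.α (w, k) = (v, j + 1) := by rw [← T.a2, S.invol]
  have d3 : S.α (u, i) = (w, k + 1) := by rw [← T.a3, S.invol]
  have hinv := tri_invol i j k T.uv T.vw T.wu
  have uv := T.uv
  have vw := T.vw
  have wu := T.wu
  have uv' := uv.symm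
  have vw' := vw.symm
  have wu' := wu.symm
  obtain ⟨n1, n2, n3, n4, n5, n6⟩ := z4
  -- the new labels
  obtain ⟨l', LT, LN⟩ : ∃ l' : Dart V → ℕ, (∀ x, Trg u i v j w k x → l' x = c + 1) ∧
      (∀ x, ¬ Trg u i v j w k x → l' x = l (xi u i v j w k x)) := by
    refine ⟨lab l u i v j w k, fun x hx => ?_, fun x hx => ?_⟩
    · simp [lab, hx, lu1]
    · simp [lab, hx]
  have tu : Trg u i v j w k (u, i + 3) := Or.inl rfl
  have tv : Trg u i v j w k (v, j + 3) := Or.inr (Or.inl rfl)
  have tw : Trg u i v j w k (w, k + 3) := Or.inr (Or.inr rfl)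
  have nu : ∀ a, a = i ∨ a = i + 1 ∨ a = i + 2 → ¬ Trg u i v j w k (u, a) := by
    rintro a (rfl | rfl | rfl) <;> simp [Trg, uv, wu', n1, n2, n3, n4, n5, n6, n3.symm, n5.symm, n6.symm]
  have nv : ∀ a, a = j ∨ a = j + 1 ∨ a = j + 2 → ¬ Trg u i v j w k (v, a) := by
    rintro a (rfl | rfl | rfl) <;> simp [Trg, uv', vw, n1, n2, n3, n4, n5, n6, n3.symm, n5.symm, n6.symm]
  have nw : ∀ a, a = k ∨ a = k + 1 ∨ a = k + 2 → ¬ Trg u i v j w k (w, a) := by
    rintro a (rfl | rfl | rfl) <;> simp [Trg, vw', wu, n1, n2, n3, n4, n5, n6, n3.symm, n5.symm, n6.symm]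
  have eu0 : l' (u, i) = q := by rw [LN _ (nu _ (by simp)), p0, lw3]
  have eu1 : l' (u, i + 1) = e := by rw [LN _ (nu _ (by simp)), p1, lv2]
  have eu2 : l' (u, i + 2) = p := by rw [LN _ (nu _ (by simp)), p2, lv3]
  have eu3 := LT _ tu
  have ev0 : l' (v, j) = c := by rw [LN _ (nv _ (by simp)), q0, lu3]
  have ev1 : l' (v, j + 1) = c + 1 := by rw [LN _ (nv _ (by simp)), q1, lw2]
  have ev2 : l' (v, j + 2) = q := by rw [LN _ (nv _ (by simp)), q2, lw3]
  have ev3 := LT _ tv
  have ew0 : l' (w, k) = p := by rw [LN _ (nw _ (by simp)), r0, lv3]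
  have ew1 : l' (w, k + 1) = c + 1 := by rw [LN _ (nw _ (by simp)), r1, lu2]
  have ew2 : l' (w, k + 2) = c := by rw [LN _ (nw _ (by simp)), r2, lu3]
  have ew3 := LT _ tw
  -- the labels of the outer darts
  have out : ∀ y, ¬ Inn u i v j w k y → l' (tri u i v j w k y) = l y := by
    intro y hy
    rw [LN, xi_out T hy]
    rcases out_cases hy with rfl | rfl | rfl | rfl | rfl | rfl | ⟨h1, h2, h3⟩
    · rw [a2]; exact nw _ (by simp)
    · rw [a3]; exact nv _ (by simp)
    · rw [b2]; exact nu _ (by simp)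
    · rw [b3]; exact nw _ (by simp)
    · rw [c2]; exact nv _ (by simp)
    · rw [c3]; exact nu _ (by simp)
    · rw [hπ _ h1 h2 h3]
      rintro (rfl | rfl | rfl) <;> simp_all
  have out' : ∀ y, ¬ Inn u i v j w k y →
      l' (sg (tri u i v j w k y)) = l (sg y) := by
    intro y hy
    rw [LN, lab_const hf (xi_sg T hy)]
    rcases out_cases hy with rfl | rfl | rfl | rfl | rfl | rfl | ⟨h1, h2, h3⟩
    · rw [a2, sg1]; exact nw _ (by simp)
    · rw [a3, sg0]; exact nv _ (by simp)
    · rw [b2, sg1]; exact nu _ (by simp)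
    · rw [b3, sg0]; exact nw _ (by simp)
    · rw [c2, sg1]; exact nv _ (by simp)
    · rw [c3, sg0]; exact nu _ (by simp)
    · rw [hπ _ h1 h2 h3]
      intro h
      have e : (sg y).1 = y.1 := rfl
      rcases h with h | h | h <;> rw [h] at e <;> simp_all
  have face' : ∀ x, l' (sg x) =
      l' ((S.conj (tri u i v j w k)).α x) := by
    intro x
    obtain ⟨z, rfl⟩ : ∃ z, x = tri u i v j w k z := ⟨tri u i v j w k x, (hinv x).symm⟩
    rw [conj_α T]
    by_cases h : Inn u i v j w k z
    · unfold Inn at h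
      rcases h with rfl | rfl | rfl | rfl | rfl | rfl
      · rw [d3, c1, a0, sg3, eu2, ew0]
      · rw [T.a1, b0, a1, sg2, eu3, ev3]
      · rw [d1, a1, b0, sg3, ev2, eu0]
      · rw [T.a2, c0, b1, sg2, ev3, ew3]
      · rw [d2, b1, c0, sg3, ew2, ev0]
      · rw [T.a3, a0, c1, sg2, ew3, eu3]
    · rw [out _ (out_α T h), out' _ h]
      exact hf z
  refine ⟨l', ⟨face', ?_, ?_, ?_⟩, ?_⟩
  · -- step
    intro x
    obtain ⟨z, rfl⟩ : ∃ z, x = tri u i v j w k z := ⟨tri u i v j w k x, (hinv x).symm⟩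
    rw [conj_α T]
    by_cases h : Inn u i v j w k z
    · unfold Inn at h
      rcases h with rfl | rfl | rfl | rfl | rfl | rfl
      · rw [d3, c1, a0, eu2, ew3]; clear * - he hp' hq' hepq; omega
      · rw [T.a1, b0, a1, ev2, eu3]; clear * - he hp' hq' hepq; omega
      · rw [d1, a1, b0, eu3, ev2]; clear * - he hp' hq' hepq; omega
      · rw [T.a2, c0, b1, ev3, ew2]; clear * - he hp' hq' hepq; omega
      · rw [d2, b1, c0, ew2, ev3]; clear * - he hp' hq' hepq; omega
      · rw [T.a3, a0, c1, ew3, eu2]; clear * - he hp' hq' hepq; omega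
    · rw [out _ (out_α T h), out _ h]
      exact hs z
  · -- low
    intro x hx
    by_cases hxt : (faceP (S.conj (tri u i v j w k))).SameCycle x (u, i + 3)
    · have hx' : l' x = c + 1 := by rw [lab_const face' hxt, eu3]
      refine ⟨(v, j + 3), hxt.trans ?_, ?_⟩
      · have e1 : faceP (S.conj (tri u i v j w k)) (u, i + 3) = (v, j + 3) := by
          have := conj_α T (v, j)
          rw [b0, d1, a1] at this
          rw [faceP_apply, this, sg2]
        rw [← e1]
        exact Equiv.Perm.sameCycle_apply_right.2 (Equiv.Perm.SameCycle.refl _ _)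
      · have := conj_α T (w, k)
        rw [c0, d2, b1] at this
        rw [this, hx', ew2]
    · have hxn : ¬ Trg u i v j w k x := by
        rintro (rfl | rfl | rfl)
        · exact hxt (Equiv.Perm.SameCycle.refl _ _)
        · have e1 : faceP (S.conj (tri u i v j w k)) (u, i + 3) = (v, j + 3) := by
            have := conj_α T (v, j)
            rw [b0, d1, a1] at this
            rw [faceP_apply, this, sg2]
          apply hxt
          rw [← e1]
          exact Equiv.Perm.sameCycle_apply_left.2 (Equiv.Perm.SameCycle.refl _ _)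
        · have e1 : faceP (S.conj (tri u i v j w k)) (w, k + 3) = (u, i + 3) := by
            have := conj_α T (u, i)
            rw [a0, d3, c1] at this
            rw [faceP_apply, this, sg2]
          apply hxt
          rw [← e1]
          exact Equiv.Perm.sameCycle_apply_right.2 (Equiv.Perm.SameCycle.refl _ _)
      have hx1 : l' x = l (xi u i v j w k x) := LN _ hxn
      -- it suffices to find a suitable outer dart
      have main : ∀ y, ¬ Inn u i v j w k y → (faceP S).SameCycle (xi u i v j w k x) y →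
          l (xi u i v j w k x) = l (S.α y) + 1 →
          ∃ y, (faceP (S.conj (tri u i v j w k))).SameCycle x y ∧
            l' x = l' ((S.conj (tri u i v j w k)).α y) + 1 := by
        intro y hy h1 h2
        refine ⟨tri u i v j w k y, xi_inj hp T ?_, ?_⟩
        · rw [xi_out T hy]; exact h1
        · rw [conj_α T, out _ (out_α T hy), hx1, h2]
      obtain ⟨y, hy1, hy2⟩ := hlow (xi u i v j w k x) (by rwa [hx1] at hx)
      have hy3 : l (xi u i v j w k x) = l y := lab_const hf hy1
      by_cases h : Inn u i v j w k y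
      · unfold Inn at h
        have g1 : faceP S (u, i + 1) = (v, j + 1) := by rw [faceP_apply, T.a1, sg0]
        have g2 : faceP S (v, j + 1) = (w, k + 1) := by rw [faceP_apply, T.a2, sg0]
        have f2 : faceP S (w, k) = (v, j + 2) := by rw [faceP_apply, d2, sg1]
        have key : ∀ x y : Dart V, faceP S x = y → (faceP S).SameCycle x y := fun x y h => by
          rw [← h]; exact Equiv.Perm.sameCycle_apply_right.2 (Equiv.Perm.SameCycle.refl _ _)
        rcases h with rfl | rfl | rfl | rfl | rfl | rfl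
        · rw [lu0] at hy3
          rw [d3, lw1, hy3] at hy2
          clear * - hy2
          omega
        · exact absurd (xi_inj hp T (by rw [p3]; exact hy1)) hxt
        · rw [lv0] at hy3
          rw [d1, lu1, hy3] at hy2
          clear * - hy2
          omega
        · exact absurd (xi_inj hp T (by rw [p3]; exact hy1.trans (key _ _ g1).symm)) hxt
        · rw [lw0] at hy3
          rw [d2, lv1, hy3] at hy2
          refine main (v, j + 2) ?_ (hy1.trans (key _ _ f2)) ?_
          · simp [Inn, uv', vw, n1, n2, n3, n4, n5, n6]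
          · rw [lp, hy3]
            clear * - hy2 hepq
            omega
        · exact absurd (xi_inj hp T (by
            rw [p3]; exact hy1.trans ((key _ _ g1).trans (key _ _ g2)).symm)) hxt
      · exact main y h hy1 hy2
  · -- zero
    refine le_trans ?_ (hz.trans (conj_all hp T).2.1)
    refine Set.ncard_le_ncard_of_injOn (xiQ T) ?_ ((xiQ_bij hp T).1.injOn)
    rintro q ⟨x, rfl, hx⟩
    refine ⟨xi u i v j w k x, rfl, ?_⟩
    by_cases ht : Trg u i v j w k x
    · rw [LT _ ht] at hx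
      exact absurd hx (Nat.succ_ne_zero _)
    · rwa [LN _ ht] at hx
  · -- the sum
    refine sum_lt uv vw wu l' l ?_
      (A := q + e + p + (c + 1)) (B := c + (c + 1) + q + (c + 1))
      (C := p + (c + 1) + c + (c + 1))
      (D := (c + 1) + (c + 2) + (c + 1) + c) (E := (c + 1) + (c + 2) + e + p)
      (F := e + (c + 2) + (c + 1) + q)
      (by rw [sum_four _ i, eu0, eu1, eu2, eu3]) (by rw [sum_four _ j, ev0, ev1, ev2, ev3])
      (by rw [sum_four _ k, ew0, ew1, ew2, ew3]) (by rw [sum_four _ i, lu0, lu1, lu2, lu3])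
      (by rw [sum_four _ j, lv0, lv1, lv2, lv3]) (by rw [sum_four _ k, lw0, lw1, lw2, lw3]) ?_
    · intro x h1 h2 h3 a
      rw [LN, ho _ h1 h2 h3]
      rintro (h | h | h)
      · exact h1 (congrArg Prod.fst h)
      · exact h2 (congrArg Prod.fst h)
      · exact h3 (congrArg Prod.fst h)
    · clear * - he hp' hq' hepq
      omega

end Pool.Agent.Helper65.LK
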