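import Mathlib

/-!
# LK-55. The algebra of flypes

Notation: `u i = σ (i+2) * σ (i+1) * σ i` and `u' i = (σ (i+2))⁻¹ * (σ (i+1))⁻¹ * (σ i)⁻¹`.
(1) `u i * σ j = σ (j - 1) * u i` for `j = i + 1, i + 2` (braid relations), hence also for the inverses, and the
same for `u' i`: e.g. `σ₂ σ₁ σ₀ σ₁ = σ₂ σ₀ σ₁ σ₀ = σ₀ σ₂ σ₁ σ₀`, `σ₂ σ₁ σ₀ σ₂ = σ₂ σ₁ σ₂ σ₀ = σ₁ σ₂ σ₁ σ₀`.
(2) Let `Good x` say: `σ p x = σ (p + 2) x` for all `p`, and `u i x = ρ x`, `u' i x = ρ x` for all `i`.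
`Good x` implies `(σ p)⁻¹ x = (σ (p+2))⁻¹ x` (apply `(σ p)⁻¹ (σ (p+2))⁻¹` to `σ (p+2) x = σ p x`).
(3) `Good x → Good (σ j x)` and `Good ((σ j)⁻¹ x)`.  Let `τ = σ^(±1)`.
 * `u i (τ j x)`: choose `j' ∈ {j, j + 2}` with `j' ∈ {i + 1, i + 2}`; `τ j x = τ j' x`, so
   `u i (τ j x) = u i (τ j' x) = τ (j' - 1) (u i x) = τ (j' - 1) (ρ x) = ρ (τ j' x) = ρ (τ j x)`.  The same for `u'`.
 * `σ p (τ j x) = σ (p + 2) (τ j x)`: if `p = j` or `p = j + 2`: `σ p` and `σ (p+2)` commute with each other and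
   `σ j σ j x = σ j σ (j+2) x = σ (j+2) σ j x`; similarly for the inverse.
   If `p = j ± 1`: it is enough to treat `τ = σ` and the statement for `σ p`, and for `τ = σ⁻¹` the
   statement for `(σ p)⁻¹` (equivalent by (2), whose proof only uses the first property and commutation).
   `τ = σ`: let `p = j + 1`: from `u j x = ρ x`: `σ (j+1) (σ j x) = (σ (j+2))⁻¹ (ρ x) = ρ ((σ (j+3))⁻¹ x)`;
   from `u (j+2) x = ρ x`: `σ (j+4) σ (j+3) σ (j+2) x = ρ x`, so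
   `σ (j+3) (σ (j+2) x) = (σ j)⁻¹ (ρ x) = ρ ((σ (j+1))⁻¹ x)`; `σ (j+2) x = σ j x` and
   `(σ (j+1))⁻¹ x = (σ (j+3))⁻¹ x`, so `σ (j+1) (σ j x) = σ (j+3) (σ j x)`.
   `τ = σ⁻¹`: the same with `u'`.
(4) `Good a` and `Good b`: `σ p a = σ (p+2) a`: for odd `p` both sides are `a`, for even `p` it is the hypothesis;
   `u 0 a = σ₂ σ₁ σ₀ a = σ₂ σ₁ σ₁⁻¹ b = σ₂ b = b`, `u 1 a = σ₃ σ₂ σ₁ a = σ₃ σ₂ a = σ₃ σ₀ a = σ₃ σ₁⁻¹ b = σ₃ σ₃⁻¹ b = b`, etc.,
   `ρ a = b`; the others similarly (`b` is `a` shifted by one).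
(5) So `Good x` for all `x` in the orbits of `a` and `b`.
-/

namespace Pool.Agent.Helper65.LK

section flype

variable {X : Type}

private theorem p_ai (f : Equiv.Perm X) (x : X) : f (f⁻¹ x) = x := by
  rw [← Equiv.Perm.mul_apply, mul_inv_cancel, Equiv.Perm.one_apply]

private theorem p_ia (f : Equiv.Perm X) (x : X) : f⁻¹ (f x) = x := by
  rw [← Equiv.Perm.mul_apply, inv_mul_cancel, Equiv.Perm.one_apply]

private theorem idx4 (j p : ZMod 4) : p = j ∨ p = j + 1 ∨ p = j + 2 ∨ p = j + 3 := by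
  revert p j
  decide

private theorem idx5 (j : ZMod 4) : j + 3 + 2 = j + 1 := by
  revert j
  decide

private theorem idx6 (j : ZMod 4) : j + 2 + 2 = j := by
  revert j
  decide

/-- the relations between the three permutations and the rotation -/
private structure Rel (τ : ZMod 4 → Equiv.Perm X) (ρ : Equiv.Perm X) : Prop where
  br : ∀ p, τ p * τ (p + 1) * τ p = τ (p + 1) * τ p * τ (p + 1)
  comm : ∀ p, τ p * τ (p + 2) = τ (p + 2) * τ p
  rho : ∀ p, SemiconjBy ρ (τ p) (τ (p - 1))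

private theorem Rel.inv {τ : ZMod 4 → Equiv.Perm X} {ρ : Equiv.Perm X} (h : Rel τ ρ) :
    Rel (fun p => (τ p)⁻¹) ρ where
  br p := by
    have h1 := congrArg (fun g => g⁻¹) (h.br p)
    simpa only [mul_inv_rev, mul_assoc] using h1
  comm p := by
    have h1 := congrArg (fun g => g⁻¹) (h.comm p)
    simpa only [mul_inv_rev] using h1.symm
  rho p := (h.rho p).inv_right

private theorem Rel.s1 {τ : ZMod 4 → Equiv.Perm X} {ρ : Equiv.Perm X} (h : Rel τ ρ)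
    (i : ZMod 4) : SemiconjBy (τ (i + 2) * τ (i + 1) * τ i) (τ (i + 1)) (τ i) := by
  show τ (i + 2) * τ (i + 1) * τ i * τ (i + 1) = τ i * (τ (i + 2) * τ (i + 1) * τ i)
  calc τ (i + 2) * τ (i + 1) * τ i * τ (i + 1)
      = τ (i + 2) * (τ (i + 1) * τ i * τ (i + 1)) := by simp only [mul_assoc]
    _ = τ (i + 2) * (τ i * τ (i + 1) * τ i) := by rw [h.br i]
    _ = (τ (i + 2) * τ i) * (τ (i + 1) * τ i) := by simp only [mul_assoc]
    _ = (τ i * τ (i + 2)) * (τ (i + 1) * τ i) := by rw [h.comm i]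
    _ = τ i * (τ (i + 2) * τ (i + 1) * τ i) := by simp only [mul_assoc]

private theorem Rel.s2 {τ : ZMod 4 → Equiv.Perm X} {ρ : Equiv.Perm X} (h : Rel τ ρ)
    (i : ZMod 4) : SemiconjBy (τ (i + 2) * τ (i + 1) * τ i) (τ (i + 2)) (τ (i + 1)) := by
  have hb := h.br (i + 1)
  have e : i + 1 + 1 = i + 2 := by ring
  rw [e] at hb
  show τ (i + 2) * τ (i + 1) * τ i * τ (i + 2) = τ (i + 1) * (τ (i + 2) * τ (i + 1) * τ i)
  calc τ (i + 2) * τ (i + 1) * τ i * τ (i + 2)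
      = τ (i + 2) * τ (i + 1) * (τ i * τ (i + 2)) := by simp only [mul_assoc]
    _ = τ (i + 2) * τ (i + 1) * (τ (i + 2) * τ i) := by rw [h.comm i]
    _ = (τ (i + 2) * τ (i + 1) * τ (i + 2)) * τ i := by simp only [mul_assoc]
    _ = (τ (i + 1) * τ (i + 2) * τ (i + 1)) * τ i := by rw [hb]
    _ = τ (i + 1) * (τ (i + 2) * τ (i + 1) * τ i) := by simp only [mul_assoc]

/-- the good points -/
private structure Good (τ : ZMod 4 → Equiv.Perm X) (ρ : Equiv.Perm X) (x : X) : Prop where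
  a : ∀ p, τ p x = τ (p + 2) x
  b : ∀ i, (τ (i + 2) * τ (i + 1) * τ i) x = ρ x
  b' : ∀ i, ((τ (i + 2))⁻¹ * (τ (i + 1))⁻¹ * (τ i)⁻¹) x = ρ x

private theorem a_inv {τ : ZMod 4 → Equiv.Perm X} {ρ : Equiv.Perm X} (h : Rel τ ρ) {x : X}
    {p : ZMod 4} (hx : τ p x = τ (p + 2) x) : (τ p)⁻¹ x = (τ (p + 2))⁻¹ x := by
  have h1 : τ p (τ (p + 2) ((τ p)⁻¹ x)) = τ p (τ (p + 2) ((τ (p + 2))⁻¹ x)) := by
    rw [← Equiv.Perm.mul_apply, h.comm p, Equiv.Perm.mul_apply, p_ai,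
      p_ai, hx]
  exact (τ (p + 2)).injective ((τ p).injective h1)

private theorem Good.inv {τ : ZMod 4 → Equiv.Perm X} {ρ : Equiv.Perm X} (h : Rel τ ρ) {x : X}
    (hx : Good τ ρ x) : Good (fun p => (τ p)⁻¹) ρ x where
  a p := a_inv h (hx.a p)
  b i := hx.b' i
  b' i := by
    simp only [inv_inv]
    exact hx.b i

private theorem idx (i j : ZMod 4) : (j = i + 1 ∨ j = i + 2) ∨ (j + 2 = i + 1 ∨ j + 2 = i + 2) := by
  revert i j
  decide

private theorem step_b {τ : ZMod 4 → Equiv.Perm X} {ρ : Equiv.Perm X} {x : X}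
    (hrho : ∀ p, SemiconjBy ρ (τ p) (τ (p - 1))) (ha : ∀ p, τ p x = τ (p + 2) x)
    {v : Equiv.Perm X} {i : ZMod 4} (h1 : SemiconjBy v (τ (i + 1)) (τ i))
    (h2 : SemiconjBy v (τ (i + 2)) (τ (i + 1))) (hv : v x = ρ x) (j : ZMod 4) :
    v (τ j x) = ρ (τ j x) := by
  have k : ∀ j, (j = i + 1 ∨ j = i + 2) → v (τ j x) = ρ (τ j x) := by
    intro j hj
    have k1 : SemiconjBy v (τ j) (τ (j - 1)) := by
      rcases hj with rfl | rfl
      · rw [add_sub_cancel_right]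
        exact h1
      · have e : i + 2 - 1 = i + 1 := by ring
        rw [e]
        exact h2
    have k2 := congrArg (fun g : Equiv.Perm X => g x) k1.eq
    have k3 := congrArg (fun g : Equiv.Perm X => g x) (hrho j).eq
    simp only [Equiv.Perm.mul_apply] at k2 k3
    rw [k2, k3, hv]
  rcases idx i j with hj | hj
  · exact k j hj
  · rw [ha j]
    exact k _ hj

private theorem adj {τ : ZMod 4 → Equiv.Perm X} {ρ : Equiv.Perm X} (h : Rel τ ρ) {x : X}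
    (hx : Good τ ρ x) (j : ZMod 4) : τ (j + 1) (τ j x) = τ (j + 3) (τ j x) := by
  have e1 : j + 2 + 2 = j := idx6 j
  have e2 : j + 2 + 1 = j + 3 := by ring
  have e3 : j + 3 - 1 = j + 2 := by ring
  have e4 : j + 1 - 1 = j := by ring
  have e5 : j + 1 + 2 = j + 3 := by ring
  have h1 := hx.b j
  have h2 := hx.b (j + 2)
  rw [e1, e2] at h2
  simp only [Equiv.Perm.mul_apply] at h1 h2
  have r1 := congrArg (fun g : Equiv.Perm X => g x) (h.inv.rho (j + 3)).eq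
  have r2 := congrArg (fun g : Equiv.Perm X => g x) (h.inv.rho (j + 1)).eq
  simp only [Equiv.Perm.mul_apply, e3, e4] at r1 r2
  have h3 : τ (j + 1) (τ j x) = (τ (j + 2))⁻¹ (ρ x) := by
    rw [← h1, p_ia]
  have h4 : τ (j + 3) (τ (j + 2) x) = (τ j)⁻¹ (ρ x) := by
    rw [← h2, p_ia]
  have h5 := a_inv h (hx.a (j + 1))
  rw [e5] at h5
  rw [h3, hx.a j, h4, ← r1, ← r2, h5]

private theorem step {τ : ZMod 4 → Equiv.Perm X} {ρ : Equiv.Perm X} (h : Rel τ ρ) {x : X}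
    (hx : Good τ ρ x) (j : ZMod 4) : Good τ ρ (τ j x) where
  a p := by
    have e1 : j + 2 + 2 = j := idx6 j
    have hself : τ j (τ j x) = τ (j + 2) (τ j x) := by
      have h1 := congrArg (fun g : Equiv.Perm X => g x) (h.comm j)
      simp only [Equiv.Perm.mul_apply] at h1
      rw [← h1, ← hx.a j]
    rcases idx4 j p with rfl | rfl | rfl | rfl
    · exact hself
    · have e : j + 1 + 2 = j + 3 := by ring
      rw [e]
      exact adj h hx j
    · rw [e1]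
      exact hself.symm
    · rw [idx5]
      exact (adj h hx j).symm
  b i := step_b h.rho hx.a (h.s1 i) (h.s2 i) (hx.b i) j
  b' i := step_b h.rho hx.a
    (by simpa only [inv_inv] using (h.inv.s1 i).inv_right)
    (by simpa only [inv_inv] using (h.inv.s2 i).inv_right) (hx.b' i) j

private theorem step' {τ : ZMod 4 → Equiv.Perm X} {ρ : Equiv.Perm X} (h : Rel τ ρ) {x : X}
    (hx : Good τ ρ x) (j : ZMod 4) : Good τ ρ ((τ j)⁻¹ x) := by
  have h1 := (step h.inv (hx.inv h) j).inv h.inv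
  simpa only [inv_inv] using h1

private theorem step_closure {τ : ZMod 4 → Equiv.Perm X} {ρ : Equiv.Perm X} (h : Rel τ ρ)
    {g : Equiv.Perm X} (hg : g ∈ Subgroup.closure (Set.range τ)) :
    ∀ x, Good τ ρ x → Good τ ρ (g x) ∧ Good τ ρ (g⁻¹ x) := by
  induction hg using Subgroup.closure_induction with
  | mem g hg =>
    obtain ⟨j, rfl⟩ := hg
    exact fun x hx => ⟨step h hx j, step' h hx j⟩
  | one => exact fun x hx => ⟨hx, by simpa using hx⟩
  | mul g k _ _ ihg ihk =>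
    intro x hx
    refine ⟨?_, ?_⟩
    · rw [Equiv.Perm.mul_apply]
      exact (ihg _ (ihk x hx).1).1
    · rw [mul_inv_rev, Equiv.Perm.mul_apply]
      exact (ihk _ (ihg x hx).2).2
  | inv g _ ih =>
    intro x hx
    refine ⟨(ih x hx).2, ?_⟩
    rw [inv_inv]
    exact (ih x hx).1

end flype

theorem flype_algebra {X : Type} (σ : ZMod 4 → Equiv.Perm X) (ρ : Equiv.Perm X)
    (hbr : ∀ p, σ p * σ (p + 1) * σ p = σ (p + 1) * σ p * σ (p + 1))
    (hcomm : ∀ p, σ p * σ (p + 2) = σ (p + 2) * σ p)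
    (hρ : ∀ p, ρ * σ p = σ (p - 1) * ρ) (a b : X) (hab : ρ a = b) (hba : ρ b = a)
    (ha1 : σ 1 a = a) (ha3 : σ 3 a = a) (hb0 : σ 0 b = b) (hb2 : σ 2 b = b)
    (ha02 : σ 0 a = σ 2 a) (hb13 : σ 1 b = σ 3 b)
    (hab1 : σ 0 a = (σ 1)⁻¹ b) (hab2 : (σ 0)⁻¹ a = σ 1 b)
    (x : X) (hx : ∃ g ∈ Subgroup.closure (Set.range σ), x = g a ∨ x = g b) (p : ZMod 4) :
    σ p x = σ (p + 2) x := by
  have h : Rel σ ρ := ⟨hbr, hcomm, hρ⟩
  have n0 : (0 : ZMod 4) + 2 = 2 := by decide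
  have n1 : (1 : ZMod 4) + 2 = 3 := by decide
  have n2 : (2 : ZMod 4) + 2 = 0 := by decide
  have n3 : (3 : ZMod 4) + 2 = 1 := by decide
  have m0 : (0 : ZMod 4) + 1 = 1 := by decide
  have m1 : (1 : ZMod 4) + 1 = 2 := by decide
  have m2 : (2 : ZMod 4) + 1 = 3 := by decide
  have m3 : (3 : ZMod 4) + 1 = 0 := by decide
  have all4 : ∀ {P : ZMod 4 → Prop}, P 0 → P 1 → P 2 → P 3 → ∀ i, P i := by
    intro P p0 p1 p2 p3 i
    have hi : i = 0 ∨ i = 1 ∨ i = 2 ∨ i = 3 := by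
      revert i
      decide
    rcases hi with rfl | rfl | rfl | rfl <;> assumption
  have ha02' : (σ 0)⁻¹ a = (σ 2)⁻¹ a := by
    have := a_inv h (x := a) (p := 0) (by rw [n0]; exact ha02)
    rwa [n0] at this
  have hb13' : (σ 1)⁻¹ b = (σ 3)⁻¹ b := by
    have := a_inv h (x := b) (p := 1) (by rw [n1]; exact hb13)
    rwa [n1] at this
  have ha1' : (σ 1)⁻¹ a = a := by rw [Equiv.Perm.inv_eq_iff_eq, ha1]
  have ha3' : (σ 3)⁻¹ a = a := by rw [Equiv.Perm.inv_eq_iff_eq, ha3]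
  have hb0' : (σ 0)⁻¹ b = b := by rw [Equiv.Perm.inv_eq_iff_eq, hb0]
  have hb2' : (σ 2)⁻¹ b = b := by rw [Equiv.Perm.inv_eq_iff_eq, hb2]
  have f1 : σ 1 ((σ 1)⁻¹ b) = b := p_ai _ _
  have f3 : σ 3 ((σ 1)⁻¹ b) = b := by rw [hb13', p_ai]
  have f1' : (σ 1)⁻¹ (σ 1 b) = b := p_ia _ _
  have f3' : (σ 3)⁻¹ (σ 1 b) = b := by rw [hb13, p_ia]
  have g0 : σ 0 (σ 1 b) = a := by rw [← hab2, p_ai]
  have g2 : σ 2 (σ 1 b) = a := by rw [← hab2, ha02', p_ai]
  have g0' : (σ 0)⁻¹ ((σ 1)⁻¹ b) = a := by rw [← hab1, p_ia]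
  have g2' : (σ 2)⁻¹ ((σ 1)⁻¹ b) = a := by rw [← hab1, ha02, p_ia]
  have ga : Good σ ρ a := by
    refine ⟨all4 ?_ ?_ ?_ ?_, all4 ?_ ?_ ?_ ?_, all4 ?_ ?_ ?_ ?_⟩
    · rw [n0]; exact ha02
    · rw [n1, ha1, ha3]
    · rw [n2]; exact ha02.symm
    · rw [n3, ha1, ha3]
    · simp only [n0, m0, Equiv.Perm.mul_apply]
      rw [hab1, f1, hb2, hab]
    · simp only [n1, m1, Equiv.Perm.mul_apply]
      rw [ha1, ← ha02, hab1, f3, hab]
    · simp only [n2, m2, Equiv.Perm.mul_apply]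
      rw [← ha02, hab1, f3, hb0, hab]
    · simp only [n3, m3, Equiv.Perm.mul_apply]
      rw [ha3, hab1, f1, hab]
    · simp only [n0, m0, Equiv.Perm.mul_apply]
      rw [hab2, f1', hb2', hab]
    · simp only [n1, m1, Equiv.Perm.mul_apply]
      rw [ha1', ← ha02', hab2, f3', hab]
    · simp only [n2, m2, Equiv.Perm.mul_apply]
      rw [← ha02', hab2, f3', hb0', hab]
    · simp only [n3, m3, Equiv.Perm.mul_apply]
      rw [ha3', hab2, f1', hab]
  have gb : Good σ ρ b := by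
    refine ⟨all4 ?_ ?_ ?_ ?_, all4 ?_ ?_ ?_ ?_, all4 ?_ ?_ ?_ ?_⟩
    · rw [n0, hb0, hb2]
    · rw [n1]; exact hb13
    · rw [n2, hb0, hb2]
    · rw [n3]; exact hb13.symm
    · simp only [n0, m0, Equiv.Perm.mul_apply]
      rw [hb0, g2, hba]
    · simp only [n1, m1, Equiv.Perm.mul_apply]
      rw [g2, ha3, hba]
    · simp only [n2, m2, Equiv.Perm.mul_apply]
      rw [hb2, ← hb13, g0, hba]
    · simp only [n3, m3, Equiv.Perm.mul_apply]
      rw [← hb13, g0, ha1, hba]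
    · simp only [n0, m0, Equiv.Perm.mul_apply]
      rw [hb0', g2', hba]
    · simp only [n1, m1, Equiv.Perm.mul_apply]
      rw [g2', ha3', hba]
    · simp only [n2, m2, Equiv.Perm.mul_apply]
      rw [hb2', ← hb13', g0', hba]
    · simp only [n3, m3, Equiv.Perm.mul_apply]
      rw [← hb13', g0', ha1', hba]
  obtain ⟨g, hg, hxg⟩ := hx
  rcases hxg with rfl | rfl
  · exact (step_closure h hg a ga).1.a p
  · exact (step_closure h hg b gb).1.a p

end Pool.Agent.Helper65.LK
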