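import Pool.Agent.Helper65.LK.WMoves

/-!
# LK-54. Rotating a word diagram and turning it inside out

`PIso.diso`: a `PIso` (rotations by `0` or `2`) which respects the states gives an isomorphism of the diagrams:
`mate`, `upper` and `isX` are invariant under the rotation by `2`.

`dg_rot`: the positions of all letters are shifted by `-1`.  The isomorphism `(wD w, wDS q₀ w q₁) →
(wD w', wDS (flp q₀) w' (flp q₁))`, `w' = w.map (p ↦ p - 1)`: the new vertices of the slots are mapped to
the new vertices without rotation (the strand `i` becomes the strand `i - 1`); the base vertex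
`(v, i) ↦ (v, i - 1)`, the closing vertex `(v, j) ↦ (v, j + 1)` (the port `i` is joined with the dart `1 - i`, the
port `i - 1` with the dart `2 - i`).  `smA` and `smB` are exchanged at these two vertices.

`reroot_app`: `(glue (app T p) C)`: the dart `i` of a new vertex corresponds to the dart `i + 2` of the new vertex of
`app C (-p)`.  `T.port p - (true, 1)`, `T.port (p+1) - (true, 0)`, `(true, 2) - C.port (1-p)`,
`(true, 3) - C.port (-p)`; in `app C (-p)`: `C.port (-p) - (true, 1)`, `C.port (1-p) - (true, 0)`, and the outer darts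
`(true, 2)` (strand `-p`), `(true, 3)` (strand `1 - p`) are joined with `T.port (1 + p)`, `T.port p`.  The same for
the vertex `false` with `p + 2` (`-(p + 2) = - p + 2`).
`dg_rev`: apply `reroot_app` to all letters one after the other, then `glue_comm`: the general
statement is `glue (wT (u ++ w)) C ≅ glue (wT w) (C with the letters of u, first letter innermost, positions negated)`.
`dg_cap`: by `dg_rev`, `dg_base`, `dg_rev`: for the outermost letter.
-/

namespace Pool.Agent.Helper65.LK

open Function

variable {V V' W : Type}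

/-! ### isomorphisms with rotations -/

theorem ws_class {X Y : Type} (e : X ≃ Y) {r : X → X → Prop} {r' : Y → Y → Prop}
    (h : ∀ x y, r x y ↔ r' (e x) (e y)) : classes r = classes r' :=
  ip_classes e h

/-- the map of the darts as a bijection -/
def wsD (f : V ≃ V') (c : V → ZMod 4) : Dart V ≃ Dart V' where
  toFun x := (f x.1, x.2 + c x.1)
  invFun y := (f.symm y.1, y.2 - c (f.symm y.1))
  left_inv x := by simp
  right_inv y := by simp

theorem ws_iso {S : Shadow V} {S' : Shadow V'} (f : V ≃ V') (c : V → ZMod 4)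
    (map : ∀ x : Dart V, S'.α (f x.1, x.2 + c x.1) = (f (S.α x).1, (S.α x).2 + c (S.α x).1))
    (s : V → St) (s' : V' → St) (hX : ∀ v, (s' (f v)).isX = (s v).isX)
    (hm : ∀ v i, (s' (f v)).mate (i + c v) = (s v).mate i + c v)
    (hu : ∀ v i, (s v).isX = true → (s' (f v)).upper (i + c v) = (s v).upper i) :
    Nonempty (DIso S s S' s') := by
  have hd : ∀ x, S'.α (wsD f c x) = wsD f c (S.α x) := map
  have hC : ∀ x, isC s' (wsD f c x) ↔ isC s x := by
    intro x
    unfold isC
    show (s' (f x.1)).isX = true ↔ _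
    rw [hX]
  have htau : ∀ x, tau s' (wsD f c x) = wsD f c (tau s x) := by
    intro x
    show (f x.1, (s' (f x.1)).mate (x.2 + c x.1)) = (f x.1, (s x.1).mate x.2 + c x.1)
    rw [hm]
  have harc : ∀ x y, Arc S s x y ↔ Arc S' s' (wsD f c x) (wsD f c y) := by
    refine ip_eqv (wsD f c) ?_
    intro x y
    rw [hd, hC, htau, (wsD f c).apply_eq_iff_eq, (wsD f c).apply_eq_iff_eq]
  refine ⟨{
    φ := {
      toFun := fun x => ⟨wsD f c x.1, (hC x.1).2 x.2⟩
      invFun := fun y => ⟨(wsD f c).symm y.1, by
        rw [← hC, Equiv.apply_symm_apply]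
        exact y.2⟩
      left_inv := fun x => Subtype.ext (Equiv.symm_apply_apply _ _)
      right_inv := fun y => Subtype.ext (Equiv.apply_symm_apply _ _) }
    rot := ?_
    arc := fun x y => harc x.1 y.1
    upper := ?_
    comps := ?_ }⟩
  · intro x y hxy
    show wsD f c y.1 = sg (wsD f c x.1)
    rw [hxy]
    show ((f x.1.1, x.1.2 + 1 + c x.1.1) : Dart V') = (f x.1.1, x.1.2 + c x.1.1 + 1)
    rw [add_right_comm]
  · intro x
    exact (hu x.1.1 x.1.2 x.2).symm
  · unfold LK.comps
    refine ws_class (wsD f c) ?_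
    intro x y
    rw [hd, htau, (wsD f c).apply_eq_iff_eq, (wsD f c).apply_eq_iff_eq]

theorem ws_mate2 : ∀ (q : St) (i : ZMod 4), q.mate (i + 2) = q.mate i + 2 := by
  intro q
  cases q <;> decide

theorem ws_upper2 : ∀ (q : St) (i : ZMod 4), q.upper (i + 2) = q.upper i := by
  intro q
  cases q <;> decide

theorem PIso.diso [Fintype V] [Fintype V'] {S : Shadow V} {S' : Shadow V'} (e : PIso S S')
    (s : V → St) (s' : V' → St) (h : ∀ v, s' (e.f v) = s v) : Nonempty (DIso S s S' s') := by
  refine ws_iso e.f e.c e.map s s' (fun v => by rw [h]) (fun v i => ?_) (fun v i _ => ?_)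
  · rw [h]
    rcases e.even v with h1 | h1
    · rw [h1, add_zero, add_zero]
    · rw [h1, ws_mate2]
  · rw [h]
    rcases e.even v with h1 | h1
    · rw [h1, add_zero]
    · rw [h1, ws_upper2]

/-- exchange of the two smoothings -/
def flp (q : St) : St := if q = St.smA then St.smB else St.smA

/-- shift of the position -/
def shiftL (l : Letter) : Letter := (l.1 - 1, l.2)

/-- negation of the position -/
def negL (l : Letter) : Letter := (-l.1, l.2)

/-! ### rotation -/

/-- the map of the vertices -/
def wsE : (w : List Letter) → WV w ≃ WV (w.map shiftL)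
  | [] => Equiv.refl Unit
  | _ :: w => Equiv.sumCongr (wsE w) (Equiv.refl Bool)

/-- the rotations -/
def wsC : (w : List Letter) → WV w → ZMod 4
  | [] => fun _ => -1
  | _ :: w => Sum.elim (wsC w) (fun _ => 0)

/-- a rotation of a tangle -/
def WsR (T : Tangle V) (T' : Tangle V') (f : V ≃ V') (c : V → ZMod 4) : Prop :=
  ∀ x : Dart V, T'.link (f x.1, x.2 + c x.1) = match T.link x with
    | Sum.inl y => Sum.inl (f y.1, y.2 + c y.1)
    | Sum.inr i => Sum.inr (i - 1)

theorem WsR.inl {T : Tangle V} {T' : Tangle V'} {f : V ≃ V'} {c : V → ZMod 4}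
    (h : WsR T T' f c) {x y : Dart V} (hx : T.link x = Sum.inl y) :
    T'.link (f x.1, x.2 + c x.1) = Sum.inl (f y.1, y.2 + c y.1) := by
  have h1 := h x
  rw [hx] at h1
  exact h1

theorem WsR.inr {T : Tangle V} {T' : Tangle V'} {f : V ≃ V'} {c : V → ZMod 4}
    (h : WsR T T' f c) {x : Dart V} {i : ZMod 4} (hx : T.link x = Sum.inr i) :
    T'.link (f x.1, x.2 + c x.1) = Sum.inr (i - 1) := by
  have h1 := h x
  rw [hx] at h1
  exact h1

theorem WsR.port {T : Tangle V} {T' : Tangle V'} {f : V ≃ V'} {c : V → ZMod 4}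
    (h : WsR T T' f c) (i : ZMod 4) :
    T'.port (i - 1) = (f (T.port i).1, (T.port i).2 + c (T.port i).1) :=
  T'.port_link _ _ (h.inr (T.link_port i))

theorem ws_in : ∀ p i : ZMod 4, inDart (p - 1) (i - 1) = inDart p i := by decide

theorem ws_str : ∀ (p : ZMod 4) (x : Bool × ZMod 4),
    strand (p - 1) x = ((strand p x).1 - 1, (strand p x).2) := by decide

theorem WsR.app {T : Tangle V} {T' : Tangle V'} {f : V ≃ V'} {c : V → ZMod 4}
    (h : WsR T T' f c) (p : ZMod 4) :
    WsR (LK.app T p) (LK.app T' (p - 1)) (Equiv.sumCongr f (Equiv.refl Bool))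
      (Sum.elim c (fun _ => 0)) := by
  rintro ⟨v | b, j⟩
  · show (LK.app T' (p - 1)).link (Sum.inl (f v), j + c v) = _
    cases hx : T.link (v, j) with
    | inl y =>
      have h1 := h.inl hx
      simp only [LK.app, h1, hx]
      rfl
    | inr i =>
      have h1 := h.inr hx
      simp only [LK.app, h1, hx, ws_in]
      show _ = Sum.inl (Sum.inr (inDart p i).1, (inDart p i).2 + 0)
      rw [add_zero]
  · show (LK.app T' (p - 1)).link (Sum.inr b, j + 0) = _
    rw [add_zero]
    have h2 := ws_str p (b, j)
    by_cases hs : (strand p (b, j)).2 = true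
    · have h3 : (strand (p - 1) (b, j)).2 = true := by rw [h2]; exact hs
      have h4 : (strand (p - 1) (b, j)).1 = (strand p (b, j)).1 - 1 := by rw [h2]
      simp only [LK.app, h3, hs, if_true, h4, h.port]
      rfl
    · have hs' : (strand p (b, j)).2 = false := by simpa using hs
      have h3 : (strand (p - 1) (b, j)).2 = false := by rw [h2]; exact hs'
      have h4 : (strand (p - 1) (b, j)).1 = (strand p (b, j)).1 - 1 := by rw [h2]
      simp only [LK.app, h3, hs', Bool.false_eq_true, if_false, h4]

theorem ws_word : ∀ w : List Letter, WsR (wT w) (wT (w.map shiftL)) (wsE w) (wsC w)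
  | [] => fun x => by
    show (Sum.inr (x.2 + -1) : Dart Unit ⊕ ZMod 4) = Sum.inr (x.2 - 1)
    rw [sub_eq_add_neg]
  | l :: w => (ws_word w).app l.1

theorem ws_flp1 : ∀ (q : St) (i : ZMod 4), q.isX = false →
    (flp q).mate (i + -1) = q.mate i + -1 := by
  intro q
  cases q <;> decide

theorem ws_flp2 : ∀ (q : St) (i : ZMod 4), q.isX = false →
    (flp q).mate (i + 1) = q.mate i + 1 := by
  intro q
  cases q <;> decide

theorem ws_flp3 : ∀ (q : St), (flp q).isX = false := by
  intro q
  cases q <;> decide

theorem ws_st (q₀ : St) (h₀ : q₀.isX = false) : ∀ (w : List Letter) (v : WV w),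
    (wS (flp q₀) (w.map shiftL) (wsE w v)).isX = (wS q₀ w v).isX ∧
    (∀ i, (wS (flp q₀) (w.map shiftL) (wsE w v)).mate (i + wsC w v) =
      (wS q₀ w v).mate i + wsC w v) ∧
    (∀ i, (wS q₀ w v).isX = true →
      (wS (flp q₀) (w.map shiftL) (wsE w v)).upper (i + wsC w v) = (wS q₀ w v).upper i)
  | [], v => by
    refine ⟨?_, ?_, ?_⟩
    · show (flp q₀).isX = q₀.isX
      rw [h₀, ws_flp3]
    · intro i
      exact ws_flp1 q₀ i h₀
    · intro i hi
      have h1 : q₀.isX = true := hi
      rw [h₀] at h1
      exact absurd h1 (by decide)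
  | l :: w, Sum.inl v => ws_st q₀ h₀ w v
  | l :: w, Sum.inr b => by
    refine ⟨rfl, ?_, ?_⟩
    · intro i
      show (if b = true then l.2 else St.smB).mate (i + 0) =
        (if b = true then l.2 else St.smB).mate i + 0
      rw [add_zero, add_zero]
    · intro i _
      show (if b = true then l.2 else St.smB).upper (i + 0) =
        (if b = true then l.2 else St.smB).upper i
      rw [add_zero]

theorem dg_rot (q₀ q₁ : St) (h₀ : q₀.isX = false) (h₁ : q₁.isX = false) (w : List Letter) :
    Same (Dg q₀ w q₁) (Dg (flp q₀) (w.map shiftL) (flp q₁)) := by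
  have h := ws_word w
  obtain ⟨e⟩ : Nonempty (DIso (wD w) (wDS q₀ w q₁) (wD (w.map shiftL))
      (wDS (flp q₀) (w.map shiftL) (flp q₁))) := by
    refine ws_iso (Equiv.sumCongr (wsE w) (Equiv.refl Unit)) (Sum.elim (wsC w) (fun _ => 1))
      ?_ _ _ ?_ ?_ ?_
    · rintro ⟨v | u, j⟩
      · show glueα (wT (w.map shiftL)) leafT (Sum.inl (wsE w v), j + wsC w v) = _
        cases hx : (wT w).link (v, j) with
        | inl y =>
          have h1 := h.inl hx
          have h2 : (wD w).α (Sum.inl v, j) = dl y := by
            show glueα (wT w) leafT (Sum.inl v, j) = dl y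
            simp only [glueα, hx]
          rw [h2]
          simp only [glueα, h1]
          rfl
        | inr i =>
          have h1 := h.inr hx
          have h2 : (wD w).α (Sum.inl v, j) = dr (leafT.port (1 - i)) := by
            show glueα (wT w) leafT (Sum.inl v, j) = dr (leafT.port (1 - i))
            simp only [glueα, hx]
          rw [h2]
          simp only [glueα, h1]
          show ((Sum.inr (), 1 - (i - 1)) : Dart (WV (w.map shiftL) ⊕ Unit)) =
            (Sum.inr (), 1 - i + 1)
          congr 1
          ring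
      · have h2 : (wD w).α (Sum.inr u, j) = dl ((wT w).port (1 - j)) := rfl
        rw [h2]
        show (dl ((wT (w.map shiftL)).port (1 - (j + 1))) : Dart (WV (w.map shiftL) ⊕ Unit)) = _
        have h3 : 1 - (j + 1) = 1 - j - 1 := by ring
        rw [h3, h.port]
        rfl
    · rintro (v | u)
      · exact (ws_st q₀ h₀ w v).1
      · show (flp q₁).isX = q₁.isX
        rw [h₁, ws_flp3]
    · rintro (v | u) i
      · exact (ws_st q₀ h₀ w v).2.1 i
      · exact ws_flp2 q₁ i h₁
    · rintro (v | u) i hi
      · exact (ws_st q₀ h₀ w v).2.2 i hi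
      · have h5 : q₁.isX = true := hi
        rw [h₁] at h5
        exact absurd h5 (by decide)
  exact Relation.EqvGen.rel _ _ (Step.iso _ _ e)

/-! ### turning inside out -/

theorem ws_out : ∀ p i : ZMod 4,
    outDart (-p) (1 - i) = ((inDart p i).1, (inDart p i).2 + 2) := by decide

theorem ws_out2 : ∀ p i : ZMod 4,
    inDart (-p) i = ((outDart p (1 - i)).1, (outDart p (1 - i)).2 + 2) := by decide

theorem ws_str2 : ∀ (p : ZMod 4) (b : Bool) (j : ZMod 4),
    strand (-p) (b, j + 2) = (1 - (strand p (b, j)).1, !(strand p (b, j)).2) := by decide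

/-- the map of the vertices -/
def wsF (V W : Type) : (V ⊕ Bool) ⊕ W ≃ V ⊕ (W ⊕ Bool) where
  toFun x := match x with
    | Sum.inl (Sum.inl v) => Sum.inl v
    | Sum.inl (Sum.inr b) => Sum.inr (Sum.inr b)
    | Sum.inr w => Sum.inr (Sum.inl w)
  invFun x := match x with
    | Sum.inl v => Sum.inl (Sum.inl v)
    | Sum.inr (Sum.inr b) => Sum.inl (Sum.inr b)
    | Sum.inr (Sum.inl w) => Sum.inr w
  left_inv x := by rcases x with (v | b) | w <;> rfl
  right_inv x := by rcases x with v | w | b <;> rfl

theorem reroot_app (T : Tangle V) (C : Tangle W) (p : ZMod 4) :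
    ∃ e : PIso (glue (app T p) C) (glue T (app C (-p))),
      (∀ v, e.f (Sum.inl (Sum.inl v)) = Sum.inl v) ∧
      (∀ b, e.f (Sum.inl (Sum.inr b)) = Sum.inr (Sum.inr b)) ∧
      ∀ w, e.f (Sum.inr w) = Sum.inr (Sum.inl w) := by
  refine ⟨{
    f := wsF V W
    c := Sum.elim (Sum.elim (fun _ => 0) (fun _ => 2)) (fun _ => 0)
    even := ?_
    map := ?_ }, fun _ => rfl, fun _ => rfl, fun _ => rfl⟩
  · rintro ((v | b) | w)
    · exact Or.inl rfl
    · exact Or.inr rfl
    · exact Or.inl rfl
  · rintro ⟨(v | b) | w, j⟩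
    · show glueα T (app C (-p)) (Sum.inl v, j + 0) = _
      rw [add_zero]
      cases hx : T.link (v, j) with
      | inl y =>
        have h1 : (app T p).link (Sum.inl v, j) = Sum.inl (dl y) := by
          simp only [app, hx]
        have h2 : (glue (app T p) C).α (Sum.inl (Sum.inl v), j) = dl (dl y) := by
          show glueα (app T p) C (Sum.inl (Sum.inl v), j) = _
          simp only [glueα, h1]
        rw [h2]
        simp only [glueα, hx]
        show (dl y : Dart (V ⊕ (W ⊕ Bool))) = (Sum.inl y.1, y.2 + 0)
        rw [add_zero]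
      | inr i =>
        have h1 : (app T p).link (Sum.inl v, j) = Sum.inl (dr (inDart p i)) := by
          simp only [app, hx]
        have h2 : (glue (app T p) C).α (Sum.inl (Sum.inl v), j) = dl (dr (inDart p i)) := by
          show glueα (app T p) C (Sum.inl (Sum.inl v), j) = _
          simp only [glueα, h1]
        rw [h2]
        simp only [glueα, hx]
        show (dr (dr (outDart (-p) (1 - i))) : Dart (V ⊕ (W ⊕ Bool))) =
          (Sum.inr (Sum.inr (inDart p i).1), (inDart p i).2 + 2)
        rw [ws_out]
    · show glueα T (app C (-p)) (Sum.inr (Sum.inr b), j + 2) = _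
      have hs2 := ws_str2 p b j
      by_cases hs : (strand p (b, j)).2 = true
      · have h1 : (app T p).link (Sum.inr b, j) =
            Sum.inl (dl (T.port (strand p (b, j)).1)) := by
          simp only [app, hs, if_true]
        have h2 : (glue (app T p) C).α (Sum.inl (Sum.inr b), j) =
            dl (dl (T.port (strand p (b, j)).1)) := by
          show glueα (app T p) C (Sum.inl (Sum.inr b), j) = _
          simp only [glueα, h1]
        have h3 : (app C (-p)).link (Sum.inr b, j + 2) =
            Sum.inr (1 - (strand p (b, j)).1) := by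
          have h4 : (strand (-p) (b, j + 2)).2 = false := by rw [hs2, hs]; rfl
          have h5 : (strand (-p) (b, j + 2)).1 = 1 - (strand p (b, j)).1 := by rw [hs2]
          simp only [app, h4, Bool.false_eq_true, if_false, h5]
        rw [h2]
        simp only [glueα, h3, z4_sub11]
        show (dl (T.port (strand p (b, j)).1) : Dart (V ⊕ (W ⊕ Bool))) =
          (Sum.inl (T.port (strand p (b, j)).1).1, (T.port (strand p (b, j)).1).2 + 0)
        rw [add_zero]
      · have hs' : (strand p (b, j)).2 = false := by simpa using hs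
        have h1 : (app T p).link (Sum.inr b, j) = Sum.inr (strand p (b, j)).1 := by
          simp only [app, hs', Bool.false_eq_true, if_false]
        have h2 : (glue (app T p) C).α (Sum.inl (Sum.inr b), j) =
            dr (C.port (1 - (strand p (b, j)).1)) := by
          show glueα (app T p) C (Sum.inl (Sum.inr b), j) = _
          simp only [glueα, h1]
        have h3 : (app C (-p)).link (Sum.inr b, j + 2) =
            Sum.inl (dl (C.port (1 - (strand p (b, j)).1))) := by
          have h4 : (strand (-p) (b, j + 2)).2 = true := by rw [hs2, hs']; rfl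
          have h5 : (strand (-p) (b, j + 2)).1 = 1 - (strand p (b, j)).1 := by rw [hs2]
          simp only [app, h4, if_true, h5]
        rw [h2]
        simp only [glueα, h3]
        show (dr (dl (C.port (1 - (strand p (b, j)).1))) : Dart (V ⊕ (W ⊕ Bool))) =
          (Sum.inr (Sum.inl (C.port (1 - (strand p (b, j)).1)).1),
            (C.port (1 - (strand p (b, j)).1)).2 + 0)
        rw [add_zero]
    · show glueα T (app C (-p)) (Sum.inr (Sum.inl w), j + 0) = _
      rw [add_zero]
      cases hx : C.link (w, j) with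
      | inl y =>
        have h1 : (app C (-p)).link (Sum.inl w, j) = Sum.inl (dl y) := by
          simp only [app, hx]
        have h2 : (glue (app T p) C).α (Sum.inr w, j) = dr y := by
          show glueα (app T p) C (Sum.inr w, j) = _
          simp only [glueα, hx]
        rw [h2]
        simp only [glueα, h1]
        show (dr (dl y) : Dart (V ⊕ (W ⊕ Bool))) = (Sum.inr (Sum.inl y.1), y.2 + 0)
        rw [add_zero]
      | inr i =>
        have h1 : (app C (-p)).link (Sum.inl w, j) = Sum.inl (dr (inDart (-p) i)) := by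
          simp only [app, hx]
        have h2 : (glue (app T p) C).α (Sum.inr w, j) = dl (dr (outDart p (1 - i))) := by
          show glueα (app T p) C (Sum.inr w, j) = _
          simp only [glueα, hx]
          rfl
        rw [h2]
        simp only [glueα, h1]
        show (dr (dr (inDart (-p) i)) : Dart (V ⊕ (W ⊕ Bool))) =
          (Sum.inr (Sum.inr (outDart p (1 - i)).1), (outDart p (1 - i)).2 + 2)
        rw [ws_out2]

/-- isomorphic with the states -/
def WsP (S : Shadow V) (s : V → St) (S' : Shadow V') (s' : V' → St) : Prop :=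
  ∃ e : PIso S S', ∀ v, s' (e.f v) = s v

theorem WsP.refl (S : Shadow V) (s : V → St) : WsP S s S s :=
  ⟨{ f := Equiv.refl V
     c := fun _ => 0
     even := fun _ => Or.inl rfl
     map := fun x => by
      show S.α (x.1, x.2 + 0) = ((S.α x).1, (S.α x).2 + 0)
      rw [add_zero, add_zero] }, fun _ => rfl⟩

theorem ws_even : ∀ a b : ZMod 4, (a = 0 ∨ a = 2) → (b = 0 ∨ b = 2) → (a + b = 0 ∨ a + b = 2) := by
  decide

theorem WsP.trans {V'' : Type} {S : Shadow V} {s : V → St} {S' : Shadow V'} {s' : V' → St}
    {S'' : Shadow V''} {s'' : V'' → St} (h : WsP S s S' s') (h' : WsP S' s' S'' s'') :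
    WsP S s S'' s'' := by
  obtain ⟨e, he⟩ := h
  obtain ⟨e', he'⟩ := h'
  refine ⟨{
    f := e.f.trans e'.f
    c := fun v => e.c v + e'.c (e.f v)
    even := fun v => ws_even _ _ (e.even v) (e'.even (e.f v))
    map := ?_ }, ?_⟩
  · intro x
    have h1 := e.map x
    have h2 := e'.map (e.f x.1, x.2 + e.c x.1)
    rw [h1] at h2
    show S''.α (e'.f (e.f x.1), x.2 + (e.c x.1 + e'.c (e.f x.1))) =
      (e'.f (e.f (S.α x).1), (S.α x).2 + (e.c (S.α x).1 + e'.c (e.f (S.α x).1)))
    rw [← add_assoc, ← add_assoc]
    exact h2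
  · intro v
    show s'' (e'.f (e.f v)) = s v
    rw [he', he]

theorem ws_reroot (T : Tangle V) (C : Tangle W) (p : ZMod 4) (s : V → St) (q : Bool → St)
    (c : W → St) : WsP (glue (app T p) C) (Sum.elim (Sum.elim s q) c)
      (glue T (app C (-p))) (Sum.elim s (Sum.elim c q)) := by
  obtain ⟨e, h1, h2, h3⟩ := reroot_app T C p
  refine ⟨e, ?_⟩
  rintro ((x | b) | x)
  · rw [h1]
    rfl
  · rw [h2]
    rfl
  · rw [h3]
    rfl

theorem ws_step (q₀ q₁ : St) (l : Letter) (w v : List Letter) :
    WsP (glue (wT (l :: w)) (wT v)) (Sum.elim (wS q₀ (l :: w)) (wS q₁ v))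
      (glue (wT w) (wT (negL l :: v))) (Sum.elim (wS q₀ w) (wS q₁ (negL l :: v))) :=
  ws_reroot (wT w) (wT v) l.1 (wS q₀ w) (fun b => if b = true then l.2 else St.smB) (wS q₁ v)

theorem ws_split (q₀ q₁ : St) (w : List Letter) : ∀ (u v : List Letter),
    WsP (glue (wT (u ++ w)) (wT v)) (Sum.elim (wS q₀ (u ++ w)) (wS q₁ v))
      (glue (wT w) (wT (u.reverse.map negL ++ v)))
      (Sum.elim (wS q₀ w) (wS q₁ (u.reverse.map negL ++ v)))
  | [], v => WsP.refl _ _
  | l :: u, v => by
    have h1 := ws_step q₀ q₁ l (u ++ w) v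
    have h2 := ws_split q₀ q₁ w u (negL l :: v)
    have h3 : (l :: u).reverse.map negL ++ v = u.reverse.map negL ++ (negL l :: v) := by
      simp
    rw [h3]
    exact h1.trans h2

theorem ws_split' (q₀ q₁ : St) (u w : List Letter) :
    WsP (wD (u ++ w)) (wDS q₀ (u ++ w) q₁)
      (glue (wT w) (wT (u.reverse.map negL)))
      (Sum.elim (wS q₀ w) (wS q₁ (u.reverse.map negL))) := by
  have h1 := ws_split q₀ q₁ w u []
  rw [List.append_nil] at h1
  exact h1

/-- splitting a word diagram into an inner and an outer tangle -/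
theorem dg_split (q₀ q₁ : St) (u w : List Letter) :
    Nonempty (DIso (wD (u ++ w)) (wDS q₀ (u ++ w) q₁)
      (glue (wT w) (wT (u.reverse.map negL))) (Sum.elim (wS q₀ w) (wS q₁ (u.reverse.map negL)))) := by
  obtain ⟨e, he⟩ := ws_split' q₀ q₁ u w
  exact e.diso _ _ he

theorem ws_comm (T : Tangle V) (C : Tangle W) (s : V → St) (c : W → St) :
    WsP (glue T C) (Sum.elim s c) (glue C T) (Sum.elim c s) := by
  refine ⟨{
    f := Equiv.sumComm V W
    c := fun _ => 0
    even := fun _ => Or.inl rfl
    map := ?_ }, ?_⟩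
  · rintro ⟨v | w, j⟩
    · show glueα C T (Sum.inr v, j + 0) = _
      rw [add_zero]
      cases hx : T.link (v, j) with
      | inl y =>
        have h2 : (glue T C).α (Sum.inl v, j) = dl y := by
          show glueα T C (Sum.inl v, j) = _
          simp only [glueα, hx]
        rw [h2]
        simp only [glueα, hx]
        show (dr y : Dart (W ⊕ V)) = (Sum.inr y.1, y.2 + 0)
        rw [add_zero]
      | inr i =>
        have h2 : (glue T C).α (Sum.inl v, j) = dr (C.port (1 - i)) := by
          show glueα T C (Sum.inl v, j) = _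
          simp only [glueα, hx]
        rw [h2]
        simp only [glueα, hx]
        show (dl (C.port (1 - i)) : Dart (W ⊕ V)) =
          (Sum.inl (C.port (1 - i)).1, (C.port (1 - i)).2 + 0)
        rw [add_zero]
    · show glueα C T (Sum.inl w, j + 0) = _
      rw [add_zero]
      cases hx : C.link (w, j) with
      | inl y =>
        have h2 : (glue T C).α (Sum.inr w, j) = dr y := by
          show glueα T C (Sum.inr w, j) = _
          simp only [glueα, hx]
        rw [h2]
        simp only [glueα, hx]
        show (dl y : Dart (W ⊕ V)) = (Sum.inl y.1, y.2 + 0)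
        rw [add_zero]
      | inr i =>
        have h2 : (glue T C).α (Sum.inr w, j) = dl (T.port (1 - i)) := by
          show glueα T C (Sum.inr w, j) = _
          simp only [glueα, hx]
        rw [h2]
        simp only [glueα, hx]
        show (dr (T.port (1 - i)) : Dart (W ⊕ V)) =
          (Sum.inr (T.port (1 - i)).1, (T.port (1 - i)).2 + 0)
        rw [add_zero]
  · rintro (v | w) <;> rfl

theorem ws_append_nil (w : List Letter) : w ++ [] = w := List.append_nil w

theorem dg_rev (q₀ q₁ : St) (w : List Letter) :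
    Same (Dg q₀ w q₁) (Dg q₁ (w.reverse.map negL) q₀) := by
  have h1 := ws_split' q₀ q₁ w []
  rw [List.append_nil] at h1
  have h2 : WsP (glue (wT []) (wT (w.reverse.map negL)))
      (Sum.elim (wS q₀ []) (wS q₁ (w.reverse.map negL)))
      (wD (w.reverse.map negL)) (wDS q₁ (w.reverse.map negL) q₀) :=
    ws_comm _ _ _ _
  obtain ⟨e, he⟩ := h1.trans h2
  obtain ⟨d⟩ := e.diso _ _ he
  exact Relation.EqvGen.rel _ _ (Step.iso _ _ d)

theorem ws_bst : ∀ p : ZMod 4, bst (-p) = bst p := by decide

theorem ws_par : ∀ p p' : ZMod 4, (-p' = -p ∨ -p' = -p + 2) ↔ (p' = p ∨ p' = p + 2) := by decide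

theorem ws_neg (w : List Letter) : (w.map negL).map negL = w := by
  rw [List.map_map]
  have h : negL ∘ negL = id := by
    funext l
    show (- - l.1, l.2) = l
    rw [neg_neg]
  rw [h, List.map_id]

theorem dg_cap (q₀ : St) (w : List Letter) (p p' : ZMod 4) (q : St) (hq : q.isX = true)
    (h₀ : q₀.isX = false) :
    Same (Dg q₀ ((p, q) :: w) (bst p))
      (Dg q₀ ((p', if p' = p ∨ p' = p + 2 then q else q.sw) :: w) (bst p')) := by
  have key : ∀ (p : ZMod 4) (q : St), Same (Dg q₀ ((p, q) :: w) (bst p))
      (Dg (bst (-p)) (w.reverse.map negL ++ [(-p, q)]) q₀) := by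
    intro p q
    have h1 := dg_rev q₀ (bst p) ((p, q) :: w)
    have h2 : ((p, q) :: w).reverse.map negL = w.reverse.map negL ++ [(-p, q)] := by
      simp [negL]
    rw [h2] at h1
    rw [ws_bst]
    exact h1
  have h3 := dg_base q₀ (w.reverse.map negL) (-p) (-p') q hq
  have h4 := key p q
  have h5 := key p' (if p' = p ∨ p' = p + 2 then q else q.sw)
  simp only [ws_par] at h3
  exact (h4.trans _ _ _ h3).trans _ _ _ (h5.symm _ _)

end Pool.Agent.Helper65.LK
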