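import Pool.Agent.Helper65.LK.Flype
import Pool.Agent.Helper65.LK.WSym

/-!
# LK-56. Flypes of word diagrams

Signed letters `(p, b)`: the state is `over1` if `b = true`, `over0` if `b = false`.  `x ≈ y` for
`x = (q₀, w)`, `y = (q₀', w')` (a base and a word) if `Dg q₀ (u ++ w) q₁` and `Dg q₀' (u ++ w') q₁` are `Same` for all
words `u` and both closing states `q₁`.  On the quotient `X` let `σ p` be the class of
`(q₀, (p, true) :: w)`, with the inverse `(p, false) :: w` (`dg_cancel`), and `ρ` the class of
`(other base, w with all positions shifted by -1)` (`dg_rot`; well defined: shift `u` back and exchange `q₁`).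
The relations: `dg_braid` (three equal signs), `dg_comm`, `ρ` clear; `a = (smB, [])`, `b = (smA, [])`: `dg_kink`,
`dg_base`.  Every element of `X` is in the orbit of `a` or `b`.  So `σ p x = σ (p + 2) x`, and then also
`(σ p)⁻¹ x = (σ (p+2))⁻¹ x`: this is `flype_one`; `flype_any` by induction on the list.
-/

namespace Pool.Agent.Helper65.LK

/-- a letter with a sign -/
def sl (l : ZMod 4 × Bool) : Letter := (l.1, if l.2 = true then St.over1 else St.over0)

/-! ### the quotient -/

namespace FW

/-- a base (`true` for `smA`) and a word of signed letters -/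
abbrev P : Type := Bool × List (ZMod 4 × Bool)

/-- the base -/
def bs (b : Bool) : St := if b = true then St.smA else St.smB

/-- the word -/
def wd (w : List (ZMod 4 × Bool)) : List Letter := w.map sl

theorem bs_isX (b : Bool) : (bs b).isX = false := by cases b <;> decide

theorem exists_bs : ∀ q : St, q.isX = false → ∃ b, bs b = q := by
  intro q hq
  cases q with
  | smA => exact ⟨true, rfl⟩
  | smB => exact ⟨false, rfl⟩
  | _ => exact absurd hq (by decide)

/-- the relation -/
def R (x y : P) : Prop := ∀ (u : List Letter) (q₁ : St), q₁.isX = false →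
  Same (Dg (bs x.1) (u ++ wd x.2) q₁) (Dg (bs y.1) (u ++ wd y.2) q₁)

instance st : Setoid P where
  r := R
  iseqv := {
    refl := fun _ _ _ _ => Same.rfl' _
    symm := fun h u q₁ h₁ => (h u q₁ h₁).sym
    trans := fun h h' u q₁ h₁ => (h u q₁ h₁).tr (h' u q₁ h₁) }

/-- the quotient -/
abbrev X : Type := Quotient st

/-- adding a letter -/
def cs (l : ZMod 4 × Bool) (x : P) : P := (x.1, l :: x.2)

theorem R.cs {x y : P} (h : R x y) (l : ZMod 4 × Bool) : R (cs l x) (cs l y) := by
  intro u q₁ h₁
  have h2 := h (u ++ [sl l]) q₁ h₁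
  rw [List.append_assoc, List.append_assoc] at h2
  exact h2

/-- adding a letter -/
def C (l : ZMod 4 × Bool) : X → X := Quotient.map (cs l) fun _ _ h => R.cs h l

theorem C_mk (l : ZMod 4 × Bool) (x : P) : C l (Quotient.mk st x) = Quotient.mk st (cs l x) := rfl

theorem C_cancel (p : ZMod 4) (b : Bool) (x : X) : C (p, !b) (C (p, b) x) = x := by
  induction x using Quotient.ind with
  | _ x =>
  rw [C_mk, C_mk]
  apply Quotient.sound
  intro u q₁ _
  have h := dg_cancel (bs x.1) q₁ u (wd x.2) p (if b = true then St.over1 else St.over0)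
    (by cases b <;> rfl)
  have h2 : (if b = true then St.over1 else St.over0).sw =
      (if (!b) = true then St.over1 else St.over0) := by cases b <;> rfl
  rw [h2] at h
  exact h

/-- the generators -/
def σ (p : ZMod 4) : Equiv.Perm X where
  toFun := C (p, true)
  invFun := C (p, false)
  left_inv := C_cancel p true
  right_inv := C_cancel p false

/-- rotation -/
def rt (x : P) : P := (!x.1, x.2.map fun l => (l.1 - 1, l.2))

theorem wd_rt (x : P) : wd (rt x).2 = (wd x.2).map shiftL := by
  unfold wd rt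
  rw [List.map_map, List.map_map]
  rfl

theorem bs_rt (x : P) : bs (rt x).1 = flp (bs x.1) := by
  obtain ⟨b, w⟩ := x
  cases b <;> rfl

theorem flp_flp (q : St) (h : q.isX = false) : flp (flp q) = q := by
  cases q with
  | smA => rfl
  | smB => rfl
  | _ => exact absurd h (by decide)

theorem flp_isX (q : St) : (flp q).isX = false := by
  cases q <;> decide

theorem unshift (u : List Letter) : ∃ u' : List Letter, u'.map shiftL = u := by
  refine ⟨u.map fun l => (l.1 + 1, l.2), ?_⟩
  rw [List.map_map]
  have h : (shiftL ∘ fun l : Letter => (l.1 + 1, l.2)) = id := by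
    funext l
    show (l.1 + 1 - 1, l.2) = l
    rw [add_sub_cancel_right]
  rw [h, List.map_id]

theorem R.rt {x y : P} (h : R x y) : R (rt x) (rt y) := by
  intro u q₁ h₁
  obtain ⟨u', rfl⟩ := unshift u
  have key : ∀ x : P, Same (Dg (bs x.1) (u' ++ wd x.2) (flp q₁))
      (Dg (bs (FW.rt x).1) (u'.map shiftL ++ wd (FW.rt x).2) q₁) := by
    intro x
    have h2 := dg_rot (bs x.1) (flp q₁) (bs_isX _) (flp_isX _) (u' ++ wd x.2)
    rw [List.map_append, ← wd_rt, ← bs_rt, flp_flp _ h₁] at h2
    exact h2
  exact (key x).sym.tr ((h u' (flp q₁) (flp_isX _)).tr (key y))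

/-- rotation -/
def Rt : X → X := Quotient.map rt fun _ _ h => R.rt h

theorem rt4 (x : P) : rt (rt (rt (rt x))) = x := by
  obtain ⟨b, w⟩ := x
  unfold rt
  simp only [Bool.not_not, List.map_map]
  refine Prod.ext rfl ?_
  show List.map _ w = w
  conv_rhs => rw [← List.map_id w]
  congr 1
  funext l
  obtain ⟨i, c⟩ := l
  show (i - 1 - 1 - 1 - 1, c) = (i, c)
  have h : ∀ i : ZMod 4, i - 1 - 1 - 1 - 1 = i := by decide
  rw [h]

theorem Rt4 (x : X) : Rt (Rt (Rt (Rt x))) = x := by
  induction x using Quotient.ind with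
  | _ x =>
  show Quotient.mk st (rt (rt (rt (rt x)))) = _
  rw [rt4]

/-- rotation -/
def ρ : Equiv.Perm X where
  toFun := Rt
  invFun x := Rt (Rt (Rt x))
  left_inv := Rt4
  right_inv := Rt4

theorem σ_mk (p : ZMod 4) (x : P) : σ p (Quotient.mk st x) = Quotient.mk st (cs (p, true) x) := rfl

theorem σi_mk (p : ZMod 4) (x : P) :
    (σ p)⁻¹ (Quotient.mk st x) = Quotient.mk st (cs (p, false) x) := rfl

theorem ρ_mk (x : P) : ρ (Quotient.mk st x) = Quotient.mk st (rt x) := rfl

theorem br (p : ZMod 4) : σ p * σ (p + 1) * σ p = σ (p + 1) * σ p * σ (p + 1) := by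
  apply Equiv.ext
  intro x
  induction x using Quotient.ind with
  | _ x =>
  simp only [Equiv.Perm.mul_apply, σ_mk]
  apply Quotient.sound
  intro u q₁ _
  exact dg_braid (bs x.1) q₁ u (wd x.2) p St.over1 St.over1 St.over1 rfl rfl rfl (by decide)

theorem cm (p : ZMod 4) : σ p * σ (p + 2) = σ (p + 2) * σ p := by
  apply Equiv.ext
  intro x
  induction x using Quotient.ind with
  | _ x =>
  simp only [Equiv.Perm.mul_apply, σ_mk]
  apply Quotient.sound
  intro u q₁ _
  exact (dg_comm (bs x.1) q₁ u (wd x.2) p St.over1 St.over1).sym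

theorem ρσ (p : ZMod 4) : ρ * σ p = σ (p - 1) * ρ := by
  apply Equiv.ext
  intro x
  induction x using Quotient.ind with
  | _ x =>
  simp only [Equiv.Perm.mul_apply, σ_mk, ρ_mk]
  rfl

/-- the trivial word with the base `smB` -/
def a : X := Quotient.mk st (false, [])

/-- the trivial word with the base `smA` -/
def b : X := Quotient.mk st (true, [])

theorem kinkA (p : ZMod 4) (c : Bool) (h : bst (p + 1) = bs c) :
    σ p (Quotient.mk st (c, [])) = Quotient.mk st (c, []) := by
  rw [σ_mk]
  apply Quotient.sound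
  intro u q₁ _
  have h2 := dg_kink q₁ u p St.over1 rfl
  rw [h] at h2
  show Same (Dg (bs c) (u ++ [(p, St.over1)]) q₁) (Dg (bs c) (u ++ []) q₁)
  rw [List.append_nil]
  exact h2

theorem base (p p' : ZMod 4) (c c' : Bool) (d d' : Bool) (hp : bst p = bs c) (hp' : bst p' = bs c')
    (hd : d' = if p' = p ∨ p' = p + 2 then d else !d) :
    Quotient.mk st (c, [(p, d)]) = Quotient.mk st (c', [(p', d')]) := by
  apply Quotient.sound
  intro u q₁ _
  have h2 := dg_base q₁ u p p' (if d = true then St.over1 else St.over0) (by cases d <;> rfl)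
  rw [hp, hp'] at h2
  have h3 : (if p' = p ∨ p' = p + 2 then (if d = true then St.over1 else St.over0)
      else (if d = true then St.over1 else St.over0).sw) =
      if d' = true then St.over1 else St.over0 := by
    rw [hd]
    by_cases h : p' = p ∨ p' = p + 2
    · rw [if_pos h, if_pos h]
    · rw [if_neg h, if_neg h]
      cases d <;> rfl
  rw [h3] at h2
  exact h2

theorem orbit (x : P) : ∃ g ∈ Subgroup.closure (Set.range σ), Quotient.mk st x = g a ∨
    Quotient.mk st x = g b := by
  obtain ⟨c, w⟩ := x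
  induction w with
  | nil =>
    refine ⟨1, Subgroup.one_mem _, ?_⟩
    cases c
    · exact Or.inl rfl
    · exact Or.inr rfl
  | cons l w ih =>
    obtain ⟨g, hg, h⟩ := ih
    obtain ⟨p, d⟩ := l
    have hσ : σ p ∈ Subgroup.closure (Set.range σ) := Subgroup.subset_closure ⟨p, rfl⟩
    cases d with
    | true =>
      refine ⟨σ p * g, Subgroup.mul_mem _ hσ hg, ?_⟩
      rcases h with h | h
      · left
        rw [Equiv.Perm.mul_apply, ← h]
        rfl
      · right
        rw [Equiv.Perm.mul_apply, ← h]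
        rfl
    | false =>
      refine ⟨(σ p)⁻¹ * g, Subgroup.mul_mem _ (Subgroup.inv_mem _ hσ) hg, ?_⟩
      rcases h with h | h
      · left
        rw [Equiv.Perm.mul_apply, ← h]
        rfl
      · right
        rw [Equiv.Perm.mul_apply, ← h]
        rfl

theorem main (x : X) (p : ZMod 4) : σ p x = σ (p + 2) x := by
  refine flype_algebra σ ρ br cm ρσ a b rfl rfl ?_ ?_ ?_ ?_ ?_ ?_ ?_ ?_ x ?_ p
  · exact kinkA 1 false (by decide)
  · exact kinkA 3 false (by decide)
  · exact kinkA 0 true (by decide)
  · exact kinkA 2 true (by decide)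
  · exact base 0 2 false false true true (by decide) (by decide) (by decide)
  · exact base 1 3 true true true true (by decide) (by decide) (by decide)
  · exact base 0 1 false true true false (by decide) (by decide) (by decide)
  · exact base 0 1 false true false true (by decide) (by decide) (by decide)
  · induction x using Quotient.ind with
    | _ x => exact orbit x

theorem main' (x : X) (p : ZMod 4) : (σ p)⁻¹ x = (σ (p + 2))⁻¹ x := by
  have h := main ((σ p)⁻¹ x) p
  rw [← Equiv.Perm.mul_apply, mul_inv_cancel, Equiv.Perm.one_apply] at h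
  rw [Equiv.Perm.eq_inv_iff_eq]
  exact h.symm

theorem mainC (x : X) (p : ZMod 4) (d : Bool) : C (p, d) x = C (p + 2, d) x := by
  cases d
  · exact main' x p
  · exact main x p

theorem exists_wd : ∀ w : List Letter, (∀ l ∈ w, l.2.isX = true) → ∃ w', wd w' = w
  | [], _ => ⟨[], rfl⟩
  | (p, q) :: w, h => by
    obtain ⟨w', rfl⟩ := exists_wd w fun l hl => h l (List.mem_cons_of_mem _ hl)
    have hq : q.isX = true := h _ List.mem_cons_self
    cases q with
    | over0 => exact ⟨(p, false) :: w', rfl⟩
    | over1 => exact ⟨(p, true) :: w', rfl⟩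
    | smA => exact absurd hq (by decide)
    | smB => exact absurd hq (by decide)

theorem one (q₀ q₁ : St) (h₀ : q₀.isX = false) (h₁ : q₁.isX = false) (u w : List Letter)
    (hw : ∀ l ∈ w, l.2.isX = true) (p : ZMod 4) (q : St) (hq : q.isX = true) :
    Same (Dg q₀ (u ++ (p, q) :: w) q₁) (Dg q₀ (u ++ (p + 2, q) :: w) q₁) := by
  obtain ⟨c, rfl⟩ := exists_bs q₀ h₀
  obtain ⟨w', rfl⟩ := exists_wd w hw
  obtain ⟨d, rfl⟩ : ∃ d : Bool, (if d = true then St.over1 else St.over0) = q := by
    cases q with
    | over0 => exact ⟨false, rfl⟩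
    | over1 => exact ⟨true, rfl⟩
    | smA => exact absurd hq (by decide)
    | smB => exact absurd hq (by decide)
  have h := Quotient.exact (mainC (Quotient.mk st (c, w')) p d)
  exact h u q₁ h₁

theorem any (q₀ q₁ : St) (h₀ : q₀.isX = false) (h₁ : q₁.isX = false) {w w' : List Letter}
    (h : List.Forall₂ (fun l l' : Letter => l'.2 = l.2 ∧ (l'.1 = l.1 ∨ l'.1 = l.1 + 2)) w w') :
    (∀ l ∈ w, l.2.isX = true) → (∀ l ∈ w', l.2.isX = true) ∧
      ∀ u : List Letter, Same (Dg q₀ (u ++ w) q₁) (Dg q₀ (u ++ w') q₁) := by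
  induction h with
  | nil => exact fun _ => ⟨fun l hl => absurd hl (by simp), fun u => Same.rfl' _⟩
  | @cons l l' w w' hl _ ih =>
    intro hw
    obtain ⟨ih1, ih2⟩ := ih fun l hl => hw l (List.mem_cons_of_mem _ hl)
    have hl0 : l.2.isX = true := hw l List.mem_cons_self
    refine ⟨?_, ?_⟩
    · intro m hm
      rcases List.mem_cons.1 hm with rfl | hm
      · rw [hl.1]
        exact hl0
      · exact ih1 m hm
    · intro u
      have h1 := ih2 (u ++ [l])
      rw [List.append_assoc, List.append_assoc] at h1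
      obtain ⟨p, q⟩ := l
      obtain ⟨p', q'⟩ := l'
      obtain ⟨e1, e2⟩ := hl
      simp only at e1 e2 hl0
      subst e1
      rcases e2 with rfl | rfl
      · exact h1
      · exact Same.tr h1 (one q₀ q₁ h₀ h₁ u w' ih1 p _ hl0)

end FW

theorem flype_one (q₀ q₁ : St) (h₀ : q₀.isX = false) (h₁ : q₁.isX = false) (u w : List Letter)
    (hu : ∀ l ∈ u, l.2.isX = true) (hw : ∀ l ∈ w, l.2.isX = true) (p : ZMod 4) (q : St)
    (hq : q.isX = true) :
    Same (Dg q₀ (u ++ (p, q) :: w) q₁) (Dg q₀ (u ++ (p + 2, q) :: w) q₁) := by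
  have _ := hu
  exact FW.one q₀ q₁ h₀ h₁ u w hw p q hq

/-- the positions of the letters may be changed by `2` -/
theorem flype_any (q₀ q₁ : St) (h₀ : q₀.isX = false) (h₁ : q₁.isX = false) (w w' : List Letter)
    (hw : ∀ l ∈ w, l.2.isX = true)
    (h : List.Forall₂ (fun l l' : Letter => l'.2 = l.2 ∧ (l'.1 = l.1 ∨ l'.1 = l.1 + 2)) w w') :
    Same (Dg q₀ w q₁) (Dg q₀ w' q₁) :=
  (FW.any q₀ q₁ h₀ h₁ h hw).2 []

end Pool.Agent.Helper65.LK
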