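import Pool.Agent.Helper65.LK.PureDefs

/-!
# LK-21. A labelled planar diagram has a monogon, a bigon or a good triangle

Notation `f = faceP S`, `x⁻ = sg⁻¹ x = (x.1, x.2 - 1)`; `l x⁻ = l (α (f⁻¹ x))` since `α (f⁻¹ x) = x⁻`, and
`l (sg x) = l (α x)`.  Around a vertex the labels of consecutive corners differ by one.
Call `x` *down* if `l (α x) + 1 = l x` (i.e. `l (sg x) + 1 = l x`), otherwise `l (sg x) = l x + 1`.
Types of corners: `T x : l (sg x) + 1 = l x`, `l x⁻ + 1 = l x`, `l (sg (sg x)) = l x`;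
`H x : l (sg (sg x)) + 2 = l x` (then `l (sg x) + 1 = l x`, `l x⁻ + 1 = l x`);
`D x : l (sg x) = l x + 1`, `l x⁻ + 1 = l x`; `D' x : l (sg x) + 1 = l x`, `l x⁻ = l x + 1`.
`λ x : D x ∧ D' (f x)`;  `h x : H x ∧ H (f x)`.
Weights `W x = 2 [T x] + [h x] + 4 [D x] - [λ x]` (integers).

(1) `∑ W = 4 n`: around a vertex with labels `a, a+1, a, a+1` there are two corners of type `T` and none of
type `D`; around a vertex with labels `a, a+1, a+2, a+1` there is one corner of type `D` and none of type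
`T` (these are the only possibilities), so `∑ (2 [T] + 4 [D]) = 4 n`.  And `λ x ↔ h (α x)`: if `λ x`, then
the labels at the vertex of `x` are `l x⁻ = l x - 1, l x, l x + 1, l x`, so `H (sg x)`, and `f (α x) = sg x`;
with `z = f x`, `D' z` gives the labels `l z⁻ = l z + 1, l z, l z - 1, l z`, so `H z⁻`, and
`z⁻ = α x`.  Conversely `H (α x)`, `H (sg x)` give `λ x` in the same way.  So `#λ = #h`.

(2) Assume that there is no monogon, no bigon and no good triangle.  No monogon: `f x ≠ x` (if
`f x = x` then `α x = x⁻`).  No bigon: `f (f x) ≠ x` (let `x = (v, a)`, `f x = (w, b)`: `α (v,a) = (w,b-1)`,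
`α (w,b) = (v,a-1)`; if `v ≠ w` this is a bigon with `i = a - 1, j = b - 1`; if `v = w`: `b = a+1`
contradicts `noFix`, `b = a + 2` gives `α (v,a) = (v,a+1)`, a monogon, `b = a + 3`: `α (v,b) = (v,a-1) = (v,b)`).
No good triangle: if `H x` then `f (f (f x)) ≠ x` (let `x = (u,i+1)`, `f x = (v,j+1)`, `f (f x) = (w,k+1)`; then
`a1, a2, a3` hold; `u ≠ v`: only the corner `x` at `u` has the label `l x`; the same for `w`; `v = w`:
`k = j+1` contradicts `noFix` at `(v,j+1)`, `k = j + 2` gives a monogon `α (v,j+1) = (v,j+2)`, `k = j + 3`: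
`α (w,k+1) = α (v,j) = (u,i+1) ≠ (u,i)`).

(3) The sum of `W` over every face with nonzero label is at least `4`.  All `W x ≥ 0`, `D x` implies
`W x ≥ 3`, `T x` implies `W x ≥ 2`, `h x` implies `W x ≥ 1` (`T, H, D` exclude each other).  By `low` the face
contains a down dart.
Case (b): it contains a dart which is not down.  Then there is `y` in the face with `D y` (the first dart which
is not down after a down dart).  If not `λ y`, `W y = 4`.  If there is another `y'` with `D y'` in the face,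
`W y + W y' ≥ 6`.  Otherwise `λ y` and all darts of the face except `y` are down (a second dart which is
not down would, after the down dart `f y`, give a second `D`).  Let `z = f (f y) ≠ y`; `f y` and `z` are
down, so `T z` or `H z`.  If `T z` then `W y + W z ≥ 5`.  If `H z` then `f z ≠ y` by (2) (`f z = y` would
give `f (f (f z)) = z`), so `f z` is down, `T (f z)` or `H (f z)`: `W y + W (f z) ≥ 5` or
`W y + W z ≥ 3 + 1`.
Case (a): all darts of the face are down; then every dart is `T` or `H`.  Two different darts with `T`: sum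
`≥ 4`.  Exactly one, `y`: `f y, f² y, f³ y` are `H` and different from `y` (`f³ y = y` would contradict (2) at
`f y`), so `h (f y)`, `h (f² y)` and the sum is `≥ 2 + 1 + 1`.  None: all are `H`, `x, f x, f² x, f³ x` are
different and have `h`: sum `≥ 4`.

(4) So `4 n = ∑ W ≥ 4 (cycles (faceP S) - #zero faces) ≥ 4 (n + 2 C - C) = 4 (n + C)` and `C ≥ 1`:
contradiction.
-/

namespace Pool.Agent.Helper65.LK

variable {V : Type} [Fintype V] [DecidableEq V]

/-! ### sums -/

private lemma le_sum1 {X : Type} {s : Finset X} {W : X → ℤ} (h0 : ∀ y, 0 ≤ W y) {a : X}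
    (ha : a ∈ s) : W a ≤ ∑ y ∈ s, W y :=
  Finset.single_le_sum (fun y _ => h0 y) ha

private lemma le_sum2 {X : Type} [DecidableEq X] {s : Finset X} {W : X → ℤ}
    (h0 : ∀ y, 0 ≤ W y) {a b : X} (ha : a ∈ s) (hb : b ∈ s) (hab : a ≠ b) :
    W a + W b ≤ ∑ y ∈ s, W y := by
  rw [← Finset.sum_pair hab]
  apply Finset.sum_le_sum_of_subset_of_nonneg
  · intro y hy
    simp only [Finset.mem_insert, Finset.mem_singleton] at hy
    rcases hy with rfl | rfl <;> assumption
  · intro y _ _
    exact h0 y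

private lemma le_sum3 {X : Type} [DecidableEq X] {s : Finset X} {W : X → ℤ}
    (h0 : ∀ y, 0 ≤ W y) {a b c : X} (ha : a ∈ s) (hb : b ∈ s) (hc : c ∈ s) (hab : a ≠ b)
    (hac : a ≠ c) (hbc : b ≠ c) : W a + (W b + W c) ≤ ∑ y ∈ s, W y := by
  have h1 : ∑ y ∈ ({a, b, c} : Finset X), W y = W a + (W b + W c) := by
    rw [Finset.sum_insert (by simp [hab, hac]), Finset.sum_pair hbc]
  rw [← h1]
  apply Finset.sum_le_sum_of_subset_of_nonneg
  · intro y hy
    simp only [Finset.mem_insert, Finset.mem_singleton] at hy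
    rcases hy with rfl | rfl | rfl <;> assumption
  · intro y _ _
    exact h0 y

private lemma le_sum4 {X : Type} [DecidableEq X] {s : Finset X} {W : X → ℤ}
    (h0 : ∀ y, 0 ≤ W y) {a b c d : X} (ha : a ∈ s) (hb : b ∈ s) (hc : c ∈ s) (hd : d ∈ s)
    (hab : a ≠ b) (hac : a ≠ c) (had : a ≠ d) (hbc : b ≠ c) (hbd : b ≠ d) (hcd : c ≠ d) :
    W a + (W b + (W c + W d)) ≤ ∑ y ∈ s, W y := by
  have h1 : ∑ y ∈ ({a, b, c, d} : Finset X), W y = W a + (W b + (W c + W d)) := by
    rw [Finset.sum_insert (by simp [hab, hac, had]), Finset.sum_insert (by simp [hbc, hbd]),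
      Finset.sum_pair hcd]
  rw [← h1]
  apply Finset.sum_le_sum_of_subset_of_nonneg
  · intro y hy
    simp only [Finset.mem_insert, Finset.mem_singleton] at hy
    rcases hy with rfl | rfl | rfl | rfl <;> assumption
  · intro y _ _
    exact h0 y

/-- The sum over a face. -/
private lemma face_sum {X : Type} [DecidableEq X] (f : Equiv.Perm X) (s : Finset X) (W : X → ℤ)
    (d T H : X → Prop) (h0 : ∀ y, 0 ≤ W y) (hs : ∀ y ∈ s, f y ∈ s)
    (hc : ∀ y ∈ s, ∀ z ∈ s, ∃ n : ℕ, (f ^ n) y = z)
    (hD3 : ∀ y, d y → ¬ d (f y) → 3 ≤ W (f y))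
    (hD4 : ∀ y, d y → ¬ d (f y) → ¬ d (f (f y)) → 4 ≤ W (f y))
    (hTH : ∀ y, d y → d (f y) → T (f y) ∨ H (f y))
    (hT : ∀ y, T y → 2 ≤ W y) (hH : ∀ y, H y → H (f y) → 1 ≤ W y)
    (n1 : ∀ y, f y ≠ y) (n2 : ∀ y, f (f y) ≠ y) (n3 : ∀ y, H y → f (f (f y)) ≠ y)
    (hd : ∃ y ∈ s, d y) : 4 ≤ ∑ y ∈ s, W y := by
  obtain ⟨x, hx, hdx⟩ := hd
  by_cases hb : ∃ z ∈ s, ¬ d z
  · obtain ⟨z, hz, hdz⟩ := hb
    obtain ⟨n, hn⟩ := hc x hx z hz
    -- a down dart followed by a dart which is not down
    have key : ∃ y ∈ s, d y ∧ ¬ d (f y) := by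
      by_contra hcon
      push Not at hcon
      have hall : ∀ m : ℕ, (f ^ m) x ∈ s ∧ d ((f ^ m) x) := by
        intro m
        induction m with
        | zero => exact ⟨hx, hdx⟩
        | succ m ih =>
          rw [pow_succ', Equiv.Perm.mul_apply]
          exact ⟨hs _ ih.1, hcon _ ih.1 ih.2⟩
      apply hdz
      rw [← hn]
      exact (hall n).2
    obtain ⟨w, hw, hdw, hdy⟩ := key
    have hy : f w ∈ s := hs _ hw
    have hy1 : f (f w) ∈ s := hs _ hy
    have hy2 : f (f (f w)) ∈ s := hs _ hy1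
    have hy3 : f (f (f (f w))) ∈ s := hs _ hy2
    have w0 := hD3 w hdw hdy
    by_cases h1 : d (f (f w))
    · have ne2 : f w ≠ f (f (f w)) := (n2 (f w)).symm
      by_cases h2 : d (f (f (f w)))
      · rcases hTH _ h1 h2 with hT2 | hH2
        · have := le_sum2 h0 hy hy2 ne2
          have := hT _ hT2
          linarith
        · have ne3 : f w ≠ f (f (f (f w))) := by
            intro h
            apply n3 _ hH2
            rw [← h]
          by_cases h3 : d (f (f (f (f w))))
          · rcases hTH _ h2 h3 with hT3 | hH3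
            · have := le_sum2 h0 hy hy3 ne3
              have := hT _ hT3
              linarith
            · have := le_sum2 h0 hy hy2 ne2
              have := hH _ hH2 hH3
              linarith
          · have := le_sum2 h0 hy hy3 ne3
            have := hD3 _ h2 h3
            linarith
      · have := le_sum2 h0 hy hy2 ne2
        have := hD3 _ h1 h2
        linarith
    · have := le_sum1 h0 hy
      have := hD4 w hdw hdy h1
      linarith
  · push Not at hb
    have hTH' : ∀ y ∈ s, T (f y) ∨ H (f y) := fun y hy => hTH y (hb y hy) (hb _ (hs _ hy))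
    by_cases hTe : ∃ y ∈ s, T y
    · obtain ⟨y, hy, hTy⟩ := hTe
      have hy1 : f y ∈ s := hs _ hy
      have hy2 : f (f y) ∈ s := hs _ hy1
      have hy3 : f (f (f y)) ∈ s := hs _ hy2
      have w0 := hT y hTy
      rcases hTH' y hy with hT1 | hH1
      · have := le_sum2 h0 hy hy1 (n1 y).symm
        have := hT _ hT1
        linarith
      · rcases hTH' _ hy1 with hT2 | hH2
        · have := le_sum2 h0 hy hy2 (n2 y).symm
          have := hT _ hT2
          linarith
        · have ne3 : y ≠ f (f (f y)) := by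
            intro h
            apply n3 _ hH1
            rw [← h]
          rcases hTH' _ hy2 with hT3 | hH3
          · have := le_sum2 h0 hy hy3 ne3
            have := hT _ hT3
            linarith
          · have := le_sum3 h0 hy hy1 hy2 (n1 y).symm (n2 y).symm (n1 (f y)).symm
            have := hH _ hH1 hH2
            have := hH _ hH2 hH3
            linarith
    · push Not at hTe
      have hHs : ∀ y ∈ s, H (f y) := fun y hy =>
        (hTH' y hy).resolve_left (hTe _ (hs _ hy))
      have hy1 : f x ∈ s := hs _ hx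
      have hy2 : f (f x) ∈ s := hs _ hy1
      have hy3 : f (f (f x)) ∈ s := hs _ hy2
      have hy4 : f (f (f (f x))) ∈ s := hs _ hy3
      have a1 := hHs x hx
      have a2 := hHs _ hy1
      have a3 := hHs _ hy2
      have a4 := hHs _ hy3
      have a5 := hHs _ hy4
      have := le_sum4 h0 hy1 hy2 hy3 hy4 (n1 _).symm (n2 _).symm (n3 _ a1).symm (n1 _).symm
        (n2 _).symm (n1 _).symm
      have := hH _ a1 a2
      have := hH _ a2 a3
      have := hH _ a3 a4
      have := hH _ a4 a5
      linarith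

/-! ### types of corners -/

private def Tt (l : Dart V → ℕ) (x : Dart V) : Prop :=
  l (sg x) + 1 = l x ∧ l (sg (sg (sg x))) + 1 = l x ∧ l (sg (sg x)) = l x

private def Ht (l : Dart V → ℕ) (x : Dart V) : Prop := l (sg (sg x)) + 2 = l x

private def Dt (l : Dart V → ℕ) (x : Dart V) : Prop :=
  l (sg x) = l x + 1 ∧ l (sg (sg (sg x))) + 1 = l x

private def Dt' (l : Dart V → ℕ) (x : Dart V) : Prop :=
  l (sg x) + 1 = l x ∧ l (sg (sg (sg x))) = l x + 1

private def dn (l : Dart V → ℕ) (x : Dart V) : Prop := l (sg x) + 1 = l x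

omit [Fintype V] [DecidableEq V] in
private lemma sg4 (x : Dart V) : sg (sg (sg (sg x))) = x := by
  obtain ⟨v, i⟩ := x
  show (v, i + 1 + 1 + 1 + 1) = (v, i)
  have : i + 1 + 1 + 1 + 1 = i := by
    revert i; decide
  rw [this]

omit [DecidableEq V] in
private lemma stp {S : Shadow V} {l : Dart V → ℕ} (hl : Label S l) (x : Dart V) :
    l (sg x) = l x + 1 ∨ l x = l (sg x) + 1 := by
  rw [hl.face]
  exact hl.step x

omit [DecidableEq V] in
private lemma lface {S : Shadow V} {l : Dart V → ℕ} (hl : Label S l) (x : Dart V) :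
    l (faceP S x) = l x := by
  rw [faceP_apply, hl.face, S.invol]

omit [DecidableEq V] in
private lemma lprev {S : Shadow V} {l : Dart V → ℕ} (hl : Label S l) (x : Dart V) :
    l (sg (sg (sg (faceP S x)))) = l (sg x) := by
  rw [faceP_apply, sg4, hl.face]

open Classical in
/-- the weight -/
private noncomputable def Wt (S : Shadow V) (l : Dart V → ℕ) (x : Dart V) : ℤ :=
  2 * (if Tt l x then 1 else 0) + (if Ht l x ∧ Ht l (faceP S x) then 1 else 0)
    + 4 * (if Dt l x then 1 else 0) - (if Dt l x ∧ Dt' l (faceP S x) then 1 else 0)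

omit [Fintype V] [DecidableEq V] in
private lemma Wt_nonneg (S : Shadow V) (l : Dart V → ℕ) (x : Dart V) : 0 ≤ Wt S l x := by
  classical
  unfold Wt
  split_ifs <;> first | omega | (exfalso; tauto)

omit [Fintype V] [DecidableEq V] in
private lemma Wt_D (S : Shadow V) (l : Dart V → ℕ) (x : Dart V) (h : Dt l x) :
    3 ≤ Wt S l x := by
  classical
  unfold Wt
  rw [if_pos h]
  split_ifs <;> omega

omit [Fintype V] [DecidableEq V] in
private lemma Wt_D4 (S : Shadow V) (l : Dart V → ℕ) (x : Dart V) (h : Dt l x)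
    (h' : ¬ Dt' l (faceP S x)) : 4 ≤ Wt S l x := by
  classical
  have h2 : ¬ (Dt l x ∧ Dt' l (faceP S x)) := fun hh => h' hh.2
  unfold Wt
  rw [if_pos h, if_neg h2]
  split_ifs <;> omega

omit [Fintype V] [DecidableEq V] in
private lemma Wt_T (S : Shadow V) (l : Dart V → ℕ) (x : Dart V) (h : Tt l x) :
    2 ≤ Wt S l x := by
  classical
  have hD : ¬ Dt l x := by
    rintro ⟨h1, -⟩
    have := h.1
    omega
  have h2 : ¬ (Dt l x ∧ Dt' l (faceP S x)) := fun hh => hD hh.1
  unfold Wt
  rw [if_pos h, if_neg hD, if_neg h2]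
  split_ifs <;> omega

omit [Fintype V] [DecidableEq V] in
private lemma Wt_H (S : Shadow V) (l : Dart V → ℕ) (x : Dart V)
    (h : Ht l x) (h' : Ht l (faceP S x)) (hD : ¬ Dt l x) : 1 ≤ Wt S l x := by
  classical
  have h1 : Ht l x ∧ Ht l (faceP S x) := ⟨h, h'⟩
  have h2 : ¬ (Dt l x ∧ Dt' l (faceP S x)) := fun hh => hD hh.1
  unfold Wt
  rw [if_pos h1, if_neg hD, if_neg h2]
  split_ifs <;> omega

/-! ### the sum of all the weights -/

omit [DecidableEq V] in
private lemma lam_iff {S : Shadow V} {l : Dart V → ℕ} (hl : Label S l) (x : Dart V) :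
    (Dt l x ∧ Dt' l (faceP S x)) ↔ (Ht l (S.α x) ∧ Ht l (faceP S (S.α x))) := by
  have e1 : faceP S (S.α x) = sg x := by rw [faceP_apply, S.invol]
  have e2 : faceP S x = sg (S.α x) := rfl
  have s1 := stp hl (S.α x)
  have s2 := stp hl (sg (S.α x))
  have s3 := stp hl x
  have s4 := stp hl (sg (sg (sg x)))
  rw [sg4] at s4
  rw [e1, e2]
  unfold Dt Dt' Ht
  rw [sg4]
  constructor
  · rintro ⟨⟨h1, h2⟩, h3, h4⟩
    omega
  · rintro ⟨h1, h2⟩
    omega

omit [DecidableEq V] in
private lemma vertex_sum {S : Shadow V} {l : Dart V → ℕ} (hl : Label S l) (v : V) :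
    haveI := Classical.decPred (Tt l)
    haveI := Classical.decPred (Dt l)
    ∑ i : ZMod 4, ((2 * (if Tt l (v, i) then 1 else 0) + 4 * (if Dt l (v, i) then 1 else 0)) : ℤ)
      = 4 := by
  classical
  have s0 : sg (v, (0 : ZMod 4)) = (v, 1) := rfl
  have s1 : sg (v, (1 : ZMod 4)) = (v, 2) := rfl
  have s2 : sg (v, (2 : ZMod 4)) = (v, 3) := rfl
  have s3 : sg (v, (3 : ZMod 4)) = (v, 0) := rfl
  have t0 := stp hl (v, 0)
  have t1 := stp hl (v, 1)
  have t2 := stp hl (v, 2)
  have t3 := stp hl (v, 3)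
  rw [s0] at t0
  rw [s1] at t1
  rw [s2] at t2
  rw [s3] at t3
  have key : ∀ g : ZMod 4 → ℤ, ∑ i : ZMod 4, g i = g 0 + g 1 + g 2 + g 3 := fun g =>
    Fin.sum_univ_four g
  rw [key]
  have T0 : Tt l (v, 0) ↔ (l (v, 1) + 1 = l (v, 0) ∧ l (v, 3) + 1 = l (v, 0) ∧
      l (v, 2) = l (v, 0)) := by unfold Tt; rw [s0, s1, s2]
  have T1 : Tt l (v, 1) ↔ (l (v, 2) + 1 = l (v, 1) ∧ l (v, 0) + 1 = l (v, 1) ∧
      l (v, 3) = l (v, 1)) := by unfold Tt; rw [s1, s2, s3]
  have T2 : Tt l (v, 2) ↔ (l (v, 3) + 1 = l (v, 2) ∧ l (v, 1) + 1 = l (v, 2) ∧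
      l (v, 0) = l (v, 2)) := by unfold Tt; rw [s2, s3, s0]
  have T3 : Tt l (v, 3) ↔ (l (v, 0) + 1 = l (v, 3) ∧ l (v, 2) + 1 = l (v, 3) ∧
      l (v, 1) = l (v, 3)) := by unfold Tt; rw [s3, s0, s1]
  have D0 : Dt l (v, 0) ↔ (l (v, 1) = l (v, 0) + 1 ∧ l (v, 3) + 1 = l (v, 0)) := by
    unfold Dt; rw [s0, s1, s2]
  have D1 : Dt l (v, 1) ↔ (l (v, 2) = l (v, 1) + 1 ∧ l (v, 0) + 1 = l (v, 1)) := by
    unfold Dt; rw [s1, s2, s3]
  have D2 : Dt l (v, 2) ↔ (l (v, 3) = l (v, 2) + 1 ∧ l (v, 1) + 1 = l (v, 2)) := by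
    unfold Dt; rw [s2, s3, s0]
  have D3 : Dt l (v, 3) ↔ (l (v, 0) = l (v, 3) + 1 ∧ l (v, 2) + 1 = l (v, 3)) := by
    unfold Dt; rw [s3, s0, s1]
  simp only [T0, T1, T2, T3, D0, D1, D2, D3]
  clear T0 T1 T2 T3 D0 D1 D2 D3
  generalize l (v, 0) = a0 at *
  generalize l (v, 1) = a1 at *
  generalize l (v, 2) = a2 at *
  generalize l (v, 3) = a3 at *
  rcases t0 with t0 | t0 <;> rcases t1 with t1 | t1 <;> rcases t2 with t2 | t2 <;>
    rcases t3 with t3 | t3 <;>
    first
    | (exfalso; omega)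
    | ((repeat' (split <;> first | (exfalso; omega) | skip)); omega)

omit [DecidableEq V] in
private lemma total {S : Shadow V} {l : Dart V → ℕ} (hl : Label S l) :
    ∑ x, Wt S l x = 4 * (Fintype.card V : ℤ) := by
  classical
  have h1 : ∑ x, Wt S l x =
      ∑ x : Dart V, ((2 * (if Tt l x then 1 else 0) + 4 * (if Dt l x then 1 else 0)) : ℤ)
      + (∑ x : Dart V, (if Ht l x ∧ Ht l (faceP S x) then 1 else 0 : ℤ)
        - ∑ x : Dart V, (if Dt l x ∧ Dt' l (faceP S x) then 1 else 0 : ℤ)) := by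
    rw [← Finset.sum_sub_distrib, ← Finset.sum_add_distrib]
    apply Finset.sum_congr rfl
    intro x _
    unfold Wt
    have : ∀ a b c d : ℤ, 2 * a + b + 4 * c - d = 2 * a + 4 * c + (b - d) := by
      intro a b c d; ring
    convert this _ _ _ _ using 2
  have h2 : ∑ x : Dart V, (if Dt l x ∧ Dt' l (faceP S x) then 1 else 0 : ℤ) =
      ∑ x : Dart V, (if Ht l x ∧ Ht l (faceP S x) then 1 else 0 : ℤ) := by
    rw [← Equiv.sum_comp S.α]
    apply Finset.sum_congr rfl
    intro x _
    have := lam_iff hl (S.α x)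
    rw [S.invol] at this
    have h3 := lam_iff hl x
    by_cases hx : Dt l (S.α x) ∧ Dt' l (faceP S (S.α x))
    · rw [if_pos hx, if_pos (this.1 hx)]
    · rw [if_neg hx, if_neg (fun hh => hx (this.2 hh))]
  rw [h1, h2, sub_self, add_zero, Fintype.sum_prod_type]
  rw [Finset.sum_congr rfl (fun v _ => ?_)]
  · rw [Finset.sum_const, Finset.card_univ, nsmul_eq_mul, mul_comm]
  · have := vertex_sum hl v
    convert this

/-! ### no monogon, no bigon, no good triangle -/

private lemma z31 (a : ZMod 4) : a + 3 + 1 = a := by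
  revert a; decide

private lemma zne (a : ZMod 4) : a ≠ a + 1 := by
  revert a; decide

private lemma cases4 (a b : ZMod 4) : b = a ∨ b = a + 1 ∨ b = a + 2 ∨ b = a + 3 := by
  revert a b; decide

omit [Fintype V] [DecidableEq V] in
private lemma no1 {S : Shadow V} (hm : ¬ Monogon S) (x : Dart V) : faceP S x ≠ x := by
  intro h
  rcases hα : S.α x with ⟨w, j⟩
  have h1 : x = (w, j + 1) := by
    rw [← h, faceP_apply, hα]; rfl
  apply hm
  refine ⟨w, j, ?_⟩
  calc S.α (w, j) = S.α (S.α x) := by rw [hα]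
    _ = x := S.invol x
    _ = (w, j + 1) := h1

omit [Fintype V] [DecidableEq V] in
private lemma no2 {S : Shadow V} (hm : ¬ Monogon S) (hb : ¬ Bigon S) (x : Dart V) :
    faceP S (faceP S x) ≠ x := by
  intro h
  rcases hα : S.α x with ⟨w, b⟩
  have h1 : faceP S x = (w, b + 1) := by
    rw [faceP_apply, hα]; rfl
  rcases hβ : S.α (w, b + 1) with ⟨v, a⟩
  have h2 : x = (v, a + 1) := by
    rw [← h, h1, faceP_apply, hβ]; rfl
  have h4 : S.α (v, a + 1) = (w, b) := by rw [← h2, hα]
  have h5 : S.α (v, a) = (w, b + 1) := by rw [← hβ, S.invol]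
  by_cases hvw : v = w
  · subst hvw
    rcases cases4 a b with rfl | rfl | rfl | rfl
    · exact hm ⟨v, b, h5⟩
    · exact S.noFix _ h4
    · apply hm
      refine ⟨v, a + 1, ?_⟩
      rw [h4]
      congr 1
      ring
    · apply S.noFix (v, a)
      rw [h5, z31]
  · exact hb ⟨v, w, a, b, hvw, h5, h4⟩

omit [DecidableEq V] in
private lemma no3 {S : Shadow V} {l : Dart V → ℕ} (hl : Label S l) (hm : ¬ Monogon S)
    (hb : ¬ Bigon S) (ht : ¬ ∃ (u v w : V) (i j k : ZMod 4), TriP S u i v j w k ∧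
      l (u, i + 1) = l (u, i + 3) + 2) (x : Dart V) (hx : Ht l x) :
    faceP S (faceP S (faceP S x)) ≠ x := by
  intro h
  rcases hα : S.α x with ⟨v, j⟩
  have h1 : faceP S x = (v, j + 1) := by
    rw [faceP_apply, hα]; rfl
  rcases hβ : S.α (v, j + 1) with ⟨w, k⟩
  have h2 : faceP S (faceP S x) = (w, k + 1) := by
    rw [h1, faceP_apply, hβ]; rfl
  rcases hγ : S.α (w, k + 1) with ⟨u, i⟩
  have h3 : x = (u, i + 1) := by
    rw [← h, h2, faceP_apply, hγ]; rfl
  have l1 : l (v, j + 1) = l x := by rw [← h1, lface hl]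
  have l2 : l (w, k + 1) = l x := by rw [← h2, lface hl, lface hl]
  have e1 : sg x = (u, i + 2) := by
    rw [h3]
    show (u, i + 1 + 1) = (u, i + 2)
    congr 1
    ring
  have e2 : sg (u, i + 2) = (u, i + 3) := by
    show (u, i + 2 + 1) = (u, i + 3)
    congr 1
    ring
  have e3 : sg (u, i + 3) = (u, i) := by
    show (u, i + 3 + 1) = (u, i)
    rw [z31]
  have e0 : sg (u, i) = x := by
    rw [h3]; rfl
  have s1 := stp hl x
  have s2 := stp hl (u, i + 2)
  have s3 := stp hl (u, i + 3)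
  have s0 := stp hl (u, i)
  have hx' : l (sg (sg x)) + 2 = l x := hx
  rw [e1, e2] at hx'
  rw [e1] at s1
  rw [e2] at s2
  rw [e3] at s3
  rw [e0] at s0
  have huniq : ∀ m : ZMod 4, l (u, m) = l x → m = i + 1 := by
    intro m hmm
    rcases cases4 i m with rfl | rfl | rfl | rfl
    · exfalso; omega
    · rfl
    · exfalso; omega
    · exfalso; omega
  apply ht
  refine ⟨u, v, w, i, j, k, ⟨?_, ?_, ?_, ?_, hβ, hγ⟩, ?_⟩
  · rintro rfl
    apply no1 hm x
    rw [h1, h3, huniq _ l1]
  · rintro rfl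
    rcases cases4 j k with rfl | rfl | rfl | rfl
    · apply no1 hm (v, k + 1)
      rw [faceP_apply, hβ]; rfl
    · exact S.noFix _ hβ
    · apply hm
      refine ⟨v, j + 1, ?_⟩
      rw [hβ]
      congr 1
      ring
    · have h5 : S.α (v, j) = (u, i) := by
        rw [← hγ, z31]
      have h6 : S.α (v, j) = (u, i + 1) := by rw [← hα, S.invol, h3]
      rw [h5] at h6
      exact zne i (congrArg Prod.snd h6)
  · rintro rfl
    apply no2 hm hb x
    rw [h2, h3, huniq _ l2]
  · rw [← h3, hα]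
  · rw [← h3]
    omega

theorem exists_good [Nonempty V] (S : Shadow V) (hp : PlanarP S) (l : Dart V → ℕ)
    (hl : Label S l) :
    Monogon S ∨ Bigon S ∨ ∃ (u v w : V) (i j k : ZMod 4), TriP S u i v j w k ∧
      l (u, i + 1) = l (u, i + 3) + 2 := by
  by_contra hcon
  rw [not_or, not_or] at hcon
  obtain ⟨hm, hb, ht⟩ := hcon
  classical
  have n1 := no1 hm
  have n2 := no2 hm hb
  have n3 := no3 hl hm hb ht
  have : Fintype (Quotient (Equiv.Perm.SameCycle.setoid (faceP S))) := Fintype.ofFinite _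
  -- the sum over a face
  have hface : ∀ q : Quotient (Equiv.Perm.SameCycle.setoid (faceP S)),
      ¬ (∃ x, Quotient.mk _ x = q ∧ l x = 0) →
      4 ≤ ∑ x ∈ Finset.univ.filter (fun x => (Quotient.mk _ x :
        Quotient (Equiv.Perm.SameCycle.setoid (faceP S))) = q), Wt S l x := by
    intro q hq
    obtain ⟨x0, rfl⟩ := Quotient.exists_rep q
    have hx0 : l x0 ≠ 0 := fun h0 => hq ⟨x0, rfl, h0⟩
    obtain ⟨y, hy, hly⟩ := hl.low x0 hx0
    have hmem : ∀ z, z ∈ Finset.univ.filter (fun x => (Quotient.mk _ x :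
        Quotient (Equiv.Perm.SameCycle.setoid (faceP S))) = Quotient.mk _ x0) ↔
        (faceP S).SameCycle z x0 := by
      intro z
      rw [Finset.mem_filter]
      constructor
      · rintro ⟨-, h⟩
        exact Quotient.exact h
      · intro h
        exact ⟨Finset.mem_univ _, Quotient.sound h⟩
    have hpow : ∀ (n : ℕ) (z : Dart V), l (((faceP S) ^ n) z) = l z := by
      intro n
      induction n with
      | zero => intro z; rfl
      | succ n ih =>
        intro z
        rw [pow_succ', Equiv.Perm.mul_apply, lface hl, ih]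
    have hnat : ∀ z z' : Dart V, (faceP S).SameCycle z z' → ∃ n : ℕ, ((faceP S) ^ n) z = z' := by
      intro z z' h
      obtain ⟨n, -, -, hn⟩ := h.exists_pow_eq''
      exact ⟨n, hn⟩
    apply face_sum (faceP S) _ (Wt S l) (dn l) (Tt l) (Ht l) (Wt_nonneg S l)
    · intro z hz
      rw [hmem] at hz ⊢
      exact Equiv.Perm.sameCycle_apply_left.2 hz
    · intro z hz z' hz'
      rw [hmem] at hz hz'
      exact hnat _ _ (hz.trans hz'.symm)
    · intro z hz hz'
      apply Wt_D
      have h1 := stp hl (faceP S z)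
      have h2 := lprev hl z
      have h3 := lface hl z
      unfold dn at hz hz'
      exact ⟨by omega, by omega⟩
    · intro z hz hz' hz''
      apply Wt_D4
      · have h1 := stp hl (faceP S z)
        have h2 := lprev hl z
        have h3 := lface hl z
        unfold dn at hz hz'
        exact ⟨by omega, by omega⟩
      · exact fun h => hz'' h.1
    · intro z hz hz'
      have h1 := stp hl (sg (faceP S z))
      have h2 := lprev hl z
      have h3 := lface hl z
      unfold dn at hz hz'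
      unfold Tt Ht
      omega
    · exact Wt_T S l
    · intro z hz hz'
      apply Wt_H S l z hz hz'
      rintro ⟨h1, -⟩
      have h2 := stp hl (sg z)
      unfold Ht at hz
      omega
    · exact n1
    · exact n2
    · exact n3
    · refine ⟨y, (hmem y).2 hy.symm, ?_⟩
      obtain ⟨n, hn⟩ := hnat _ _ hy
      have h1 := hpow n x0
      rw [hn] at h1
      show l (sg y) + 1 = l y
      rw [hl.face]
      omega
  -- counting
  have hsum : ∑ x, Wt S l x = ∑ q : Quotient (Equiv.Perm.SameCycle.setoid (faceP S)),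
      ∑ x ∈ Finset.univ.filter (fun x => (Quotient.mk _ x :
        Quotient (Equiv.Perm.SameCycle.setoid (faceP S))) = q), Wt S l x :=
    (Finset.sum_fiberwise _ _ _).symm
  obtain ⟨Z, hZ⟩ : ∃ Z : Finset (Quotient (Equiv.Perm.SameCycle.setoid (faceP S))), ∀ q,
      q ∈ Z ↔ ∃ x, Quotient.mk _ x = q ∧ l x = 0 :=
    ⟨Finset.univ.filter (fun q => ∃ x, Quotient.mk _ x = q ∧ l x = 0), fun q => by simp⟩
  have hZc : Z.card ≤ pieces S (fun _ => St.over1) := by
    have h1 := hl.zero
    have h2 : {q : Quotient (Equiv.Perm.SameCycle.setoid (faceP S)) |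
        ∃ x, Quotient.mk _ x = q ∧ l x = 0} = (Z : Set _) := by
      ext q
      rw [Finset.mem_coe, hZ]
      rfl
    rw [h2, Set.ncard_coe_finset] at h1
    exact h1
  have hge : (4 : ℤ) * ((Fintype.card (Quotient (Equiv.Perm.SameCycle.setoid (faceP S))) : ℤ)
      - Z.card) ≤ ∑ x, Wt S l x := by
    rw [hsum]
    have h1 : ∑ q ∈ Finset.univ \ Z, (4 : ℤ) ≤ ∑ q ∈ Finset.univ \ Z,
        ∑ x ∈ Finset.univ.filter (fun x => (Quotient.mk _ x :
        Quotient (Equiv.Perm.SameCycle.setoid (faceP S))) = q), Wt S l x := by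
      apply Finset.sum_le_sum
      intro q hq
      apply hface
      rw [← hZ]
      exact (Finset.mem_sdiff.1 hq).2
    have h2 : ∑ q ∈ Finset.univ \ Z,
        ∑ x ∈ Finset.univ.filter (fun x => (Quotient.mk _ x :
        Quotient (Equiv.Perm.SameCycle.setoid (faceP S))) = q), Wt S l x ≤
        ∑ q : Quotient (Equiv.Perm.SameCycle.setoid (faceP S)),
        ∑ x ∈ Finset.univ.filter (fun x => (Quotient.mk _ x :
        Quotient (Equiv.Perm.SameCycle.setoid (faceP S))) = q), Wt S l x := by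
      apply Finset.sum_le_sum_of_subset_of_nonneg (Finset.subset_univ _)
      intro q _ _
      exact Finset.sum_nonneg fun x _ => Wt_nonneg S l x
    have h3 : ∑ q ∈ Finset.univ \ Z, (4 : ℤ) =
        4 * ((Fintype.card (Quotient (Equiv.Perm.SameCycle.setoid (faceP S))) : ℤ) - Z.card) := by
      rw [Finset.sum_const, Finset.card_sdiff_of_subset (Finset.subset_univ _), Finset.card_univ,
        nsmul_eq_mul, Nat.cast_sub (Finset.card_le_univ _)]
      ring
    linarith
  have htot := total hl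
  have hcyc : Fintype.card (Quotient (Equiv.Perm.SameCycle.setoid (faceP S))) =
      Fintype.card V + 2 * pieces S (fun _ => St.over1) := by
    have h1 : cycles (faceP S) = nX (fun _ : V => St.over1) + 2 * pieces S (fun _ => St.over1) := hp
    have h2 : nX (fun _ : V => St.over1) = Fintype.card V := by
      unfold nX
      simp [St.isX]
    rw [h2] at h1
    rw [← h1]
    unfold cycles
    rw [Nat.card_eq_fintype_card]
  have hpc : 0 < pieces S (fun _ : V => St.over1) := by
    unfold pieces classes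
    have : Nonempty (Quotient (Relation.EqvGen.setoid fun x y : Dart V =>
        y = S.α x ∨ y = (rot fun _ => St.over1) x)) :=
      ⟨Quotient.mk _ (Classical.arbitrary V, 0)⟩
    exact Nat.card_pos
  have h5 : (Fintype.card (Quotient (Equiv.Perm.SameCycle.setoid (faceP S))) : ℤ) =
      Fintype.card V + 2 * (pieces S (fun _ : V => St.over1) : ℤ) := by
    rw [hcyc]; push_cast; ring
  have h6 : (Z.card : ℤ) ≤ (pieces S (fun _ : V => St.over1) : ℤ) := by exact_mod_cast hZc
  have h7 : (0 : ℤ) < (pieces S (fun _ : V => St.over1) : ℤ) := by exact_mod_cast hpc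
  rw [htot, h5] at hge
  linarith

end Pool.Agent.Helper65.LK
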