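import Pool.Agent.Helper65.LK.Unique
import Pool.Agent.Helper65.LK.Compress

/-!
# LK-13. Skein functions on isomorphic diagrams

Proof of `iso_eq`.  The bijection `φ` commutes with `sg`, so it induces a bijection `f` between the
crossings and numbers `c v` with `φ (v, i) = (f v, i + c v)`.  For a state `t` below `s` let
`t' (f v) = rotSt (c v) (t v)`, and `t' = s'` at the smoothed vertices of `s'`; here
`rotSt c q = q` for even `c`, and `rotSt c` exchanges `smA, smB` and `over1, over0` for odd `c`;
`(rotSt c q).mate (i + c) = q.mate i + c`, `(rotSt c q).upper (i + c) = q.upper i`,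
`rotSt c q.sw = (rotSt c q).sw`.  Then `t'` is below `s'`, `s` corresponds to `s'` (`upper`), and
`t ↦ t'` is compatible with updates and has an inverse.
Arcs: for crossing darts `x, y` of `t`: `Arc S t x y ↔ Arc S' t' (φ x) (φ y)`, by `Arc_eq_gen` and
`gen_iff` with `U = Cr s` (resp. `Cr s'`): `partner` is respected by `φ` because `arc` is, and
`tau t` corresponds to `tau t'`.  Also `Comp` corresponds and
`comps S t = loops (Cr s) S s + K`, `comps S' t' = loops (Cr s') S' s' + K` with the same `K`
(`gen_classes` with `θ = tau t`), so `comps S t = comps S' t' + k` for all `t` below `s` (take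
`t = s` first).
Sweeps of `(S, t)` correspond to sweeps of `(S', t')`: all conditions are about crossing darts.
Now use `skein_unique` with `F₁ = F`, `F₂ t = mu ^ k * F' t'`.  `h3`: for `t` with fewer crossings
than `s` take `p = pat t g` for a sweep `g` of `(S, t)` and the corresponding sweep `g'` of
`(S', t')` (`exists_sweep`): `F p = mu ^ (comps S t - 1) = mu ^ k * mu ^ (comps S' t' - 1)`; here
`comps S' t' ≠ 0` if `comps S' s' ≠ 0` (both say that `V'` is nonempty).  For `t` with
`nX t = nX s` (so `SameShape t s`) take `p = pat s h`.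
`pat t' g' = (pat t g)'`: `upper` of `pat t g` at a dart says that its height is the larger one.
-/

namespace Pool.Agent.Helper65.LK

open Function

variable {V V' : Type} [Fintype V] [DecidableEq V] [Fintype V'] [DecidableEq V'] {R : Type}
  [CommRing R] {z mu : R} {S : Shadow V} {s : V → St} {S' : Shadow V'} {s' : V' → St}

/-! ### rotation of states -/

/-- the state of a vertex after renumbering the darts: dart `i` becomes dart `i - j` -/
private def rotSt (j : ZMod 4) (q : St) : St :=
  if j = 1 ∨ j = 3 then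
    (match q with
      | St.over1 => St.over0
      | St.over0 => St.over1
      | St.smA => St.smB
      | St.smB => St.smA)
  else q

private theorem rotSt_isX (j : ZMod 4) (q : St) : (rotSt j q).isX = q.isX := by
  revert j; cases q <;> decide

private theorem rotSt_mate (j i : ZMod 4) (q : St) :
    (rotSt j q).mate (i - j) = q.mate i - j := by
  revert j i; cases q <;> decide

private theorem rotSt_upper (j i : ZMod 4) (q : St) :
    (rotSt j q).upper (i - j) = q.upper i := by
  revert j i; cases q <;> decide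

private theorem rotSt_sw (j : ZMod 4) (q : St) : (rotSt j q).sw = rotSt j q.sw := by
  revert j; cases q <;> decide

private theorem rotSt_eq (j : ZMod 4) (q q' : St) (h1 : q.isX = true) (h2 : q'.isX = true)
    (h : ∀ i, q.upper i = q'.upper (i - j)) : q' = rotSt j q := by
  revert j; cases q <;> cases q' <;> first | (exact absurd h1 (by decide)) | (exact absurd h2 (by decide)) | decide

private theorem rotSt_sm (j : ZMod 4) :
    (rotSt j St.smA = St.smA ∧ rotSt j St.smB = St.smB) ∨
      (rotSt j St.smA = St.smB ∧ rotSt j St.smB = St.smA) := by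
  revert j; decide

/-! ### generalities -/

private theorem eqvGen_equiv {X Y : Type} (f : X ≃ Y) {r : X → X → Prop} {r' : Y → Y → Prop}
    (h : ∀ x y, r x y ↔ r' (f x) (f y)) (x y : X) :
    Relation.EqvGen r x y ↔ Relation.EqvGen r' (f x) (f y) := by
  constructor
  · intro hxy
    induction hxy with
    | rel a b hab => exact Relation.EqvGen.rel _ _ ((h a b).1 hab)
    | refl a => exact Relation.EqvGen.refl _
    | symm a b _ ih => exact Relation.EqvGen.symm _ _ ih
    | trans a b c _ _ ih1 ih2 => exact Relation.EqvGen.trans _ _ _ ih1 ih2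
  · intro hxy
    have key : ∀ a b : Y, Relation.EqvGen r' a b → Relation.EqvGen r (f.symm a) (f.symm b) := by
      intro a b hab
      induction hab with
      | rel a b hab =>
        refine Relation.EqvGen.rel _ _ ((h _ _).2 ?_)
        rwa [f.apply_symm_apply, f.apply_symm_apply]
      | refl a => exact Relation.EqvGen.refl _
      | symm a b _ ih => exact Relation.EqvGen.symm _ _ ih
      | trans a b c _ _ ih1 ih2 => exact Relation.EqvGen.trans _ _ _ ih1 ih2
    have := key _ _ hxy
    rwa [f.symm_apply_apply, f.symm_apply_apply] at this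

private theorem classes_equiv {X Y : Type} (f : X ≃ Y) {r : X → X → Prop} {r' : Y → Y → Prop}
    (h : ∀ x y, r x y ↔ r' (f x) (f y)) : classes r = classes r' := by
  unfold classes
  exact Nat.card_congr (Quotient.congr f (eqvGen_equiv f h))

omit [Fintype V] [DecidableEq V] [Fintype V'] [DecidableEq V'] in
private theorem phi_shift (e : DMap S s S' s') (x : {x : Dart V // isC s x}) (k : ℕ) :
    ∀ y : {x : Dart V // isC s x}, y.1 = (x.1.1, x.1.2 + (k : ZMod 4)) →
      (e.φ y).1 = ((e.φ x).1.1, (e.φ x).1.2 + (k : ZMod 4)) := by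
  induction k with
  | zero =>
    intro y hy
    have : y = x := by
      apply Subtype.ext
      rw [hy]
      simp
    rw [this]
    simp
  | succ k ih =>
    intro y hy
    have hz : isC s (x.1.1, x.1.2 + (k : ZMod 4)) := x.2
    have h1 := ih ⟨(x.1.1, x.1.2 + (k : ZMod 4)), hz⟩ rfl
    have h2 := e.rot ⟨(x.1.1, x.1.2 + (k : ZMod 4)), hz⟩ y (by
      rw [hy]
      unfold sg
      push_cast
      rw [add_assoc])
    rw [h2, h1]
    unfold sg
    push_cast
    rw [add_assoc]

omit [Fintype V] [DecidableEq V] [Fintype V'] [DecidableEq V'] in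
private theorem phi_vert (e : DMap S s S' s') (x y : {x : Dart V // isC s x})
    (h : y.1.1 = x.1.1) :
    (e.φ y).1 = ((e.φ x).1.1, (e.φ x).1.2 + (y.1.2 - x.1.2)) := by
  have h1 := phi_shift e x (y.1.2 - x.1.2).val y (by
    rw [ZMod.natCast_zmod_val]
    apply Prod.ext
    · exact h
    · simp)
  rwa [ZMod.natCast_zmod_val] at h1

omit [Fintype V] [DecidableEq V] [Fintype V'] [DecidableEq V'] in
private theorem symm_rot (e : DMap S s S' s') (x y : {x : Dart V' // isC s' x})
    (hxy : (y : Dart V') = sg x.1) : (e.φ.symm y : Dart V) = sg (e.φ.symm x).1 := by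
  have h1 : isC s (sg (e.φ.symm x).1) := (e.φ.symm x).2
  have h2 := e.rot (e.φ.symm x) ⟨sg (e.φ.symm x).1, h1⟩ rfl
  rw [e.φ.apply_symm_apply] at h2
  have h3 : e.φ ⟨sg (e.φ.symm x).1, h1⟩ = y := by
    apply Subtype.ext
    rw [h2, hxy]
  rw [← h3, e.φ.symm_apply_apply]

/-- the other direction of a map of diagrams -/
private def symmAux (e : DMap S s S' s') : DMap S' s' S s where
  φ := e.φ.symm
  rot x y hxy := symm_rot e x y hxy
  arc x y := by
    have h := e.arc (e.φ.symm x) (e.φ.symm y)
    rw [e.φ.apply_symm_apply, e.φ.apply_symm_apply] at h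
    exact h.symm
  upper x := by
    have h := e.upper (e.φ.symm x)
    rw [e.φ.apply_symm_apply] at h
    exact h.symm

/-! ### transport of states -/

open Classical in
/-- the state on the second diagram which corresponds to `t` -/
private noncomputable def tr (e : DMap S s S' s') (t : V → St) (v' : V') : St :=
  if h : isC s' (v', 0) then
    rotSt (e.φ.symm ⟨(v', 0), h⟩).1.2 (t (e.φ.symm ⟨(v', 0), h⟩).1.1)
  else s' v'

omit [Fintype V] [DecidableEq V] [Fintype V'] [DecidableEq V'] in
private theorem tr_apply (e : DMap S s S' s') (t : V → St) (x : {x : Dart V // isC s x}) :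
    tr e t (e.φ x).1.1 = rotSt (x.1.2 - (e.φ x).1.2) (t x.1.1) := by
  have h : isC s' ((e.φ x).1.1, 0) := (e.φ x).2
  have h1 := phi_vert (symmAux e) (e.φ x) ⟨((e.φ x).1.1, 0), h⟩ rfl
  have h2 : (e.φ.symm ⟨((e.φ x).1.1, 0), h⟩).1 = (x.1.1, x.1.2 - (e.φ x).1.2) := by
    have h3 : (symmAux e).φ = e.φ.symm := rfl
    rw [h3, e.φ.symm_apply_apply] at h1
    rw [h1]
    simp [sub_eq_add_neg]
  unfold tr
  rw [dif_pos h, h2]

omit [Fintype V] [DecidableEq V] [Fintype V'] [DecidableEq V'] in
private theorem tr_isX (e : DMap S s S' s') (t : V → St) (x : {x : Dart V // isC s x}) :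
    isC (tr e t) (e.φ x).1 ↔ isC t x.1 := by
  have h := congrArg St.isX (tr_apply e t x)
  rw [rotSt_isX] at h
  constructor
  · intro hh
    exact h.symm.trans hh
  · intro hh
    exact h.trans hh

omit [Fintype V] [DecidableEq V] [Fintype V'] [DecidableEq V'] in
private theorem tr_tau (e : DMap S s S' s') (t : V → St) (x y : {x : Dart V // isC s x})
    (hy : y.1 = tau t x.1) : (e.φ y).1 = tau (tr e t) (e.φ x).1 := by
  have h1 : y.1.1 = x.1.1 := by rw [hy]; rfl
  have h2 : y.1.2 = (t x.1.1).mate x.1.2 := by rw [hy]; rfl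
  rw [phi_vert e x y h1, h2]
  change _ = ((e.φ x).1.1, (tr e t (e.φ x).1.1).mate (e.φ x).1.2)
  rw [tr_apply]
  have h3 := rotSt_mate (x.1.2 - (e.φ x).1.2) x.1.2 (t x.1.1)
  rw [sub_sub_cancel] at h3
  rw [h3]
  apply Prod.ext
  · rfl
  · simp only
    ring

omit [Fintype V] [DecidableEq V] [Fintype V'] [DecidableEq V'] in
private theorem tr_self (e : DMap S s S' s') : tr e s = s' := by
  funext v'
  by_cases h : isC s' (v', 0)
  · set x := e.φ.symm ⟨(v', 0), h⟩ with hx
    have hφ : (e.φ x).1 = (v', 0) := by rw [hx, e.φ.apply_symm_apply]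
    have h1 : tr e s v' = rotSt x.1.2 (s x.1.1) := by
      unfold tr
      rw [dif_pos h]
    rw [h1]
    symm
    apply rotSt_eq
    · exact x.2
    · exact h
    · intro i
      have hi : isC s (x.1.1, i) := x.2
      have h2 := e.upper ⟨(x.1.1, i), hi⟩
      have h3 := phi_vert e x ⟨(x.1.1, i), hi⟩ rfl
      rw [hφ] at h3
      rw [h3] at h2
      simp only [zero_add] at h2
      exact h2
  · unfold tr
    rw [dif_neg h]

omit [Fintype V] [DecidableEq V] [Fintype V'] [DecidableEq V'] in
private theorem tr_below (e : DMap S s S' s') (t : V → St) : Below (tr e t) s' := by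
  intro v' hv'
  unfold tr
  rw [dif_neg]
  intro h
  unfold isC at h
  simp only at h
  rw [hv'] at h
  exact absurd h (by decide)

omit [Fintype V] [Fintype V'] in
private theorem tr_update (e : DMap S s S' s') (t : V → St) (q : St)
    (x : {x : Dart V // isC s x}) :
    tr e (update t x.1.1 q) =
      update (tr e t) (e.φ x).1.1 (rotSt (x.1.2 - (e.φ x).1.2) q) := by
  funext w'
  by_cases hw : w' = (e.φ x).1.1
  · rw [hw, update_self, tr_apply, update_self]
  · rw [update_of_ne hw]
    unfold tr
    by_cases h : isC s' (w', 0)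
    · rw [dif_pos h, dif_pos h, update_of_ne]
      intro hcon
      apply hw
      have h1 := phi_vert e x (e.φ.symm ⟨(w', 0), h⟩) hcon
      rw [e.φ.apply_symm_apply] at h1
      exact congrArg Prod.fst h1
    · rw [dif_neg h, dif_neg h]

omit [Fintype V] [DecidableEq V] in
private theorem below_isC {t s : V → St} (ht : Below t s) {x : Dart V} (hx : isC t x) :
    isC s x := by
  unfold isC at *
  by_contra hcon
  have h1 : (s x.1).isX = false := by
    cases hh : (s x.1).isX with
    | true => exact absurd hh hcon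
    | false => rfl
  rw [ht x.1 h1, h1] at hx
  exact absurd hx (by decide)

omit [DecidableEq V] [DecidableEq V'] in
private theorem partner_phi (e : DMap S s S' s') (x y : {x : Dart V // isC s x}) :
    y.1 = partner (Cr s) S s x.1 ↔ (e.φ y).1 = partner (Cr s') S' s' (e.φ x).1 := by
  obtain ⟨h1, h2, h3, h4⟩ := partner_spec (Cr s) S s x.1 x.2
  have key : ∀ z : {x : Dart V // isC s x}, z.1 = partner (Cr s) S s x.1 →
      (e.φ z).1 = partner (Cr s') S' s' (e.φ x).1 := by
    intro z hz
    symm
    apply partner_eq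
    · exact (e.φ x).2
    · exact (e.φ z).2
    · intro hcon
      have h5 : e.φ z = e.φ x := Subtype.ext hcon
      have h6 := e.φ.injective h5
      rw [h6] at hz
      exact h2 hz.symm
    · rw [← hz] at h3
      exact (e.arc x z).1 h3
  constructor
  · exact key y
  · intro hy
    have h5 := key ⟨partner (Cr s) S s x.1, h1⟩ rfl
    rw [← h5] at hy
    have h6 := e.φ.injective (Subtype.ext hy)
    rw [h6]

omit [DecidableEq V] [DecidableEq V'] in
private theorem genU_phi (e : DMap S s S' s') {θ : Dart V → Dart V} {θ' : Dart V' → Dart V'}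
    (hθ : ∀ x, (θ x).1 = x.1)
    (h : ∀ x y : {x : Dart V // isC s x}, y.1 = θ x.1 → (e.φ y).1 = θ' (e.φ x).1)
    (x y : {x : Dart V // isC s x}) :
    genU (Cr s) S s θ x y ↔ genU (Cr s') S' s' θ' (e.φ x) (e.φ y) := by
  unfold genU
  refine or_congr (partner_phi e x y) ?_
  constructor
  · exact h x y
  · intro hy
    have hz : isC s (θ x.1) := by
      have := x.2
      unfold isC at *
      rw [hθ]
      exact this
    have h5 := h x ⟨θ x.1, hz⟩ rfl
    rw [← h5] at hy
    have h6 := e.φ.injective (Subtype.ext hy)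
    rw [h6]

omit [DecidableEq V] [DecidableEq V'] in
private theorem comp_phi (e : DMap S s S' s') {t : V → St} (ht : Below t s)
    (x y : {x : Dart V // isC s x}) :
    Comp S t x.1 y.1 ↔ Comp S' (tr e t) (e.φ x).1 (e.φ y).1 := by
  have hb := tr_below e t
  have h1 := gen_iff (Cr s) S s (tau t) (fun _ => rfl) (fun x hx => by
    have h2 : t x.1 = s x.1 := ht x.1 (by
      unfold Cr at hx
      simpa using hx)
    change (x.1, (t x.1).mate x.2) = (x.1, (s x.1).mate x.2)
    rw [h2]) x y
  have h2 := gen_iff (Cr s') S' s' (tau (tr e t)) (fun _ => rfl) (fun x hx => by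
    have h2 : tr e t x.1 = s' x.1 := hb x.1 (by
      unfold Cr at hx
      simpa using hx)
    change (x.1, (tr e t x.1).mate x.2) = (x.1, (s' x.1).mate x.2)
    rw [h2]) (e.φ x) (e.φ y)
  have h3 := eqvGen_equiv (X := {x : Dart V // Cr s x.1}) (Y := {x : Dart V' // Cr s' x.1}) e.φ
    (genU_phi e (θ := tau t) (θ' := tau (tr e t)) (fun _ => rfl) (fun x y => tr_tau e t x y)) x y
  unfold Comp
  exact h1.trans (h3.trans h2.symm)

omit [DecidableEq V] [DecidableEq V'] in
private theorem comps_phi (e : DMap S s S' s') {t : V → St} (ht : Below t s) :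
    comps S t + loops (Cr s') S' s' = comps S' (tr e t) + loops (Cr s) S s := by
  have hb := tr_below e t
  have h1 := gen_classes (Cr s) S s (tau t) (fun _ => rfl) (fun x hx => by
    have h2 : t x.1 = s x.1 := ht x.1 (by
      unfold Cr at hx
      simpa using hx)
    change (x.1, (t x.1).mate x.2) = (x.1, (s x.1).mate x.2)
    rw [h2])
  have h2 := gen_classes (Cr s') S' s' (tau (tr e t)) (fun _ => rfl) (fun x hx => by
    have h2 : tr e t x.1 = s' x.1 := hb x.1 (by
      unfold Cr at hx
      simpa using hx)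
    change (x.1, (tr e t x.1).mate x.2) = (x.1, (s' x.1).mate x.2)
    rw [h2])
  have h3 := classes_equiv (X := {x : Dart V // Cr s x.1}) (Y := {x : Dart V' // Cr s' x.1}) e.φ
    (genU_phi e (θ := tau t) (θ' := tau (tr e t)) (fun _ => rfl) (fun x y => tr_tau e t x y))
  have h4 : comps S t = classes (gen S (tau t)) := rfl
  have h5 : comps S' (tr e t) = classes (gen S' (tau (tr e t))) := rfl
  rw [h4, h5, h1, h2, h3]
  ring

open Classical in
omit [DecidableEq V] [DecidableEq V'] in
private theorem arc_phi (e : DMap S s S' s') {t : V → St} (ht : Below t s)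
    (x y : {x : Dart V // isC s x}) :
    Arc S t x.1 y.1 ↔ Arc S' (tr e t) (e.φ x).1 (e.φ y).1 := by
  have hb := tr_below e t
  rw [Arc_eq_gen, Arc_eq_gen]
  have h1 := gen_iff (Cr s) S s (fun x => if isC t x then x else tau t x) (fun x => by
      split_ifs <;> rfl) (fun x hx => by
    have h2 : t x.1 = s x.1 := ht x.1 (by
      unfold Cr at hx
      simpa using hx)
    have h3 : ¬ isC t x := by
      unfold isC
      rw [h2]
      exact hx
    rw [if_neg h3]
    change (x.1, (t x.1).mate x.2) = (x.1, (s x.1).mate x.2)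
    rw [h2]) x y
  have h2 := gen_iff (Cr s') S' s' (fun x => if isC (tr e t) x then x else tau (tr e t) x)
    (fun x => by
      split_ifs <;> rfl) (fun x hx => by
    have h2 : tr e t x.1 = s' x.1 := hb x.1 (by
      unfold Cr at hx
      simpa using hx)
    have h3 : ¬ isC (tr e t) x := by
      unfold isC
      rw [h2]
      exact hx
    rw [if_neg h3]
    change (x.1, (tr e t x.1).mate x.2) = (x.1, (s' x.1).mate x.2)
    rw [h2]) (e.φ x) (e.φ y)
  have h3 := eqvGen_equiv (X := {x : Dart V // Cr s x.1}) (Y := {x : Dart V' // Cr s' x.1}) e.φ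
    (genU_phi e (θ := fun x => if isC t x then x else tau t x)
      (θ' := fun x => if isC (tr e t) x then x else tau (tr e t) x) (fun x => by
      split_ifs <;> rfl) (fun x y hy => by
        by_cases hx : isC t x.1
        · rw [if_pos hx] at hy
          rw [if_pos ((tr_isX e t x).2 hx), Subtype.ext hy]
        · rw [if_neg hx] at hy
          rw [if_neg (fun hh => hx ((tr_isX e t x).1 hh))]
          exact tr_tau e t x y hy)) x y
  exact h1.trans (h3.trans h2.symm)

/-- the map of diagrams for states below `s` -/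
private noncomputable def trMap (e : DMap S s S' s') {t : V → St} (ht : Below t s) :
    DMap S t S' (tr e t) where
  φ :=
    { toFun := fun x => ⟨(e.φ ⟨x.1, below_isC ht x.2⟩).1, (tr_isX e t _).2 x.2⟩
      invFun := fun x => ⟨(e.φ.symm ⟨x.1, below_isC (tr_below e t) x.2⟩).1, by
        have h := tr_isX e t (e.φ.symm ⟨x.1, below_isC (tr_below e t) x.2⟩)
        rw [e.φ.apply_symm_apply] at h
        exact h.1 x.2⟩
      left_inv := fun x => by
        apply Subtype.ext
        simp
      right_inv := fun x => by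
        apply Subtype.ext
        simp }
  rot x y hxy := e.rot ⟨x.1, below_isC ht x.2⟩ ⟨y.1, below_isC ht y.2⟩ hxy
  arc x y := arc_phi e ht ⟨x.1, below_isC ht x.2⟩ ⟨y.1, below_isC ht y.2⟩
  upper x := by
    change (t x.1.1).upper x.1.2 =
      (tr e t (e.φ ⟨x.1, below_isC ht x.2⟩).1.1).upper (e.φ ⟨x.1, below_isC ht x.2⟩).1.2
    rw [tr_apply]
    have h3 := rotSt_upper (x.1.2 - (e.φ ⟨x.1, below_isC ht x.2⟩).1.2) x.1.2 (t x.1.1)
    rw [sub_sub_cancel] at h3
    rw [h3]

omit [DecidableEq V] [DecidableEq V'] in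
private theorem sweep_aux (e : DMap S s S' s') {h : Dart V → ℕ} {h' : Dart V' → ℕ}
    (hh : ∀ x, h' (e.φ x).1 = h x.1) (hs : Sweep S s h) : Sweep S' s' h' := by
  have htau : ∀ x y : {x : Dart V // isC s x}, y.1 = tau s x.1 →
      (e.φ y).1 = tau s' (e.φ x).1 := by
    intro x y hy
    have := tr_tau e s x y hy
    rwa [tr_self] at this
  have hcomp : ∀ x y : {x : Dart V // isC s x}, Comp S s x.1 y.1 ↔
      Comp S' s' (e.φ x).1 (e.φ y).1 := by
    intro x y
    have := comp_phi e (t := s) (fun _ _ => rfl) x y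
    rwa [tr_self] at this
  have hsurj : ∀ x' : Dart V', isC s' x' → ∃ x : {x : Dart V // isC s x}, (e.φ x).1 = x' := by
    intro x' hx'
    refine ⟨e.φ.symm ⟨x', hx'⟩, ?_⟩
    rw [e.φ.apply_symm_apply]
  refine ⟨?_, ?_, ?_, ?_⟩
  · intro x' hx'
    obtain ⟨x, rfl⟩ := hsurj x' hx'
    have h1 : isC s (tau s x.1) := x.2
    rw [← htau x ⟨tau s x.1, h1⟩ rfl, hh, hh]
    exact hs.const x.1 x.2
  · intro x' y' hx' hy' hxy
    obtain ⟨x, rfl⟩ := hsurj x' hx'
    obtain ⟨y, rfl⟩ := hsurj y' hy'
    rw [hh, hh] at hxy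
    rcases hs.inj x.1 y.1 x.2 y.2 hxy with h1 | h1
    · left
      rw [Subtype.ext h1]
    · right
      exact htau x y h1
  · intro k
    have h1 : {x : Dart V' | isC s' x ∧ h' x ≤ k ∧ k < h' (partner (Cr s') S' s' x)} ⊆
        (fun x : {x : Dart V // isC s x} => (e.φ x).1) ''
          {x | h x.1 ≤ k ∧ k < h (partner (Cr s) S s x.1)} := by
      intro x' hx'
      obtain ⟨hx1, hx2, hx3⟩ := hx'
      obtain ⟨x, rfl⟩ := hsurj x' hx1
      refine ⟨x, ⟨?_, ?_⟩, rfl⟩
      · rwa [hh] at hx2
      · have h2 := (partner_spec (Cr s) S s x.1 x.2).1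
        have h3 := (partner_phi e x ⟨partner (Cr s) S s x.1, h2⟩).1 rfl
        rw [← h3, hh] at hx3
        exact hx3
    have h2 : (Subtype.val '' {x : {x : Dart V // isC s x} | h x.1 ≤ k ∧
        k < h (partner (Cr s) S s x.1)}) ⊆
        {x : Dart V | isC s x ∧ h x ≤ k ∧ k < h (partner (Cr s) S s x)} := by
      rintro _ ⟨x, ⟨hx1, hx2⟩, rfl⟩
      exact ⟨x.2, hx1, hx2⟩
    calc _ ≤ ((fun x : {x : Dart V // isC s x} => (e.φ x).1) ''
          {x | h x.1 ≤ k ∧ k < h (partner (Cr s) S s x.1)}).ncard :=
          Set.ncard_le_ncard h1 (Set.toFinite _)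
      _ ≤ {x : {x : Dart V // isC s x} | h x.1 ≤ k ∧
        k < h (partner (Cr s) S s x.1)}.ncard := Set.ncard_image_le (Set.toFinite _)
      _ = (Subtype.val '' {x : {x : Dart V // isC s x} | h x.1 ≤ k ∧
        k < h (partner (Cr s) S s x.1)}).ncard :=
          (Set.ncard_image_of_injective _ Subtype.val_injective).symm
      _ ≤ {x : Dart V | isC s x ∧ h x ≤ k ∧ k < h (partner (Cr s) S s x)}.ncard :=
          Set.ncard_le_ncard h2 (Set.toFinite _)
      _ ≤ 2 := hs.cut k
  · intro x' y' z' hx' hy' hz' h1 h2 h3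
    obtain ⟨x, rfl⟩ := hsurj x' hx'
    obtain ⟨y, rfl⟩ := hsurj y' hy'
    obtain ⟨z, rfl⟩ := hsurj z' hz'
    rw [hh, hh] at h1 h2
    exact (hcomp x y).1 (hs.sep x.1 y.1 z.1 x.2 y.2 z.2 h1 h2 ((hcomp x z).2 h3))

omit [Fintype V] [DecidableEq V] [Fintype V'] [DecidableEq V'] in
private theorem tr_apply0 (e : DMap S s S' s') (t : V → St) (v' : V') (h : isC s' (v', 0)) :
    tr e t v' = rotSt (e.φ.symm ⟨(v', 0), h⟩).1.2 (t (e.φ.symm ⟨(v', 0), h⟩).1.1) := by
  unfold tr
  rw [dif_pos h]

omit [DecidableEq V] in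
private theorem sweep_consts {t : V → St} {g : Dart V → ℕ} (hs : Sweep S t g) {v : V}
    (hX : (t v).isX = true) : g (v, 2) = g (v, 0) ∧ g (v, 3) = g (v, 1) ∧ g (v, 0) ≠ g (v, 1) := by
  have hm : ∀ i, (t v).mate i = i + 2 := by
    cases hh : t v with
    | over1 => intro i; rfl
    | over0 => intro i; rfl
    | smA => rw [hh] at hX; exact absurd hX (by decide)
    | smB => rw [hh] at hX; exact absurd hX (by decide)
  have hc : ∀ i, g (v, i + 2) = g (v, i) := by
    intro i
    have h1 := hs.const (v, i) hX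
    change g (v, (t v).mate i) = g (v, i) at h1
    rwa [hm] at h1
  refine ⟨?_, ?_, ?_⟩
  · have := hc 0
    rwa [zero_add] at this
  · have := hc 1
    have e : (1 : ZMod 4) + 2 = 3 := by decide
    rwa [e] at this
  · intro hcon
    rcases hs.inj (v, 0) (v, 1) hX hX hcon with h1 | h1
    · have h9 : (1 : ZMod 4) = 0 := congrArg Prod.snd h1
      exact absurd h9 (by decide)
    · have h2 : ((v, 1) : Dart V) = (v, (t v).mate 0) := h1
      rw [hm] at h2
      have h9 : (1 : ZMod 4) = 0 + 2 := congrArg Prod.snd h2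
      exact absurd h9 (by decide)

omit [DecidableEq V] [Fintype V'] [DecidableEq V'] in
private theorem tr_pat (e : DMap S s S' s') {t : V → St} {g : Dart V → ℕ}
    {g' : Dart V' → ℕ} (hg : ∀ x, g' (e.φ x).1 = g x.1) (hs : Sweep S t g) :
    tr e (pat t g) = pat (tr e t) g' := by
  funext v'
  by_cases h : isC s' (v', 0)
  · have e1 := tr_apply0 e (pat t g) v' h
    have e2 := tr_apply0 e t v' h
    set x := e.φ.symm ⟨(v', 0), h⟩ with hx
    have hφ : (e.φ x).1 = (v', 0) := by rw [hx, e.φ.apply_symm_apply]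
    rw [e1]
    by_cases hX : (t x.1.1).isX = true
    · have hX' : (tr e t v').isX = true := by rw [e2, rotSt_isX, hX]
      have h0 : g' (v', 0) = g (x.1.1, x.1.2) := by
        rw [← hφ, hg]
      have h1 : g' (v', 1) = g (x.1.1, x.1.2 + 1) := by
        have hi : isC s (x.1.1, x.1.2 + 1) := x.2
        have h2 := phi_vert e x ⟨(x.1.1, x.1.2 + 1), hi⟩ rfl
        rw [hφ] at h2
        simp only [zero_add, add_sub_cancel_left] at h2
        rw [← h2, hg]
      have h3 : pat (tr e t) g' v' =
          if g (x.1.1, x.1.2) < g (x.1.1, x.1.2 + 1) then St.over1 else St.over0 := by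
        unfold pat
        rw [if_pos hX', h0, h1]
      have h4 : pat t g x.1.1 = if g (x.1.1, 0) < g (x.1.1, 1) then St.over1 else St.over0 := by
        unfold pat
        rw [if_pos hX]
      rw [h3, h4]
      obtain ⟨c1, c2, c3⟩ := sweep_consts hs hX
      have hj : ∀ j : ZMod 4, j = 0 ∨ j = 1 ∨ j = 2 ∨ j = 3 := by decide
      generalize x.1.2 = j
      generalize x.1.1 = w at *
      rcases hj j with hj | hj | hj | hj
      · subst hj
        rw [zero_add]
        unfold rotSt
        rw [if_neg (by decide)]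
      · subst hj
        have e3 : (1 : ZMod 4) + 1 = 2 := by decide
        rw [e3, c1]
        unfold rotSt
        rw [if_pos (by decide)]
        rcases lt_or_gt_of_ne c3 with h5 | h5
        · rw [if_pos h5, if_neg (by omega)]
        · rw [if_neg (by omega), if_pos h5]
      · subst hj
        have e3 : (2 : ZMod 4) + 1 = 3 := by decide
        rw [e3, c1, c2]
        unfold rotSt
        rw [if_neg (by decide)]
      · subst hj
        have e3 : (3 : ZMod 4) + 1 = 0 := by decide
        rw [e3, c2]
        unfold rotSt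
        rw [if_pos (by decide)]
        rcases lt_or_gt_of_ne c3 with h5 | h5
        · rw [if_pos h5, if_neg (by omega)]
        · rw [if_neg (by omega), if_pos h5]
    · have hX' : ¬ (tr e t v').isX = true := by rw [e2, rotSt_isX]; exact hX
      have h3 : pat (tr e t) g' v' = tr e t v' := by
        unfold pat
        rw [if_neg hX']
      have h4 : pat t g x.1.1 = t x.1.1 := by
        unfold pat
        rw [if_neg hX]
      rw [h3, h4, e2]
  · have e1 : ∀ u, tr e u v' = s' v' := by
      intro u
      unfold tr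
      rw [dif_neg h]
    rw [e1]
    unfold pat
    rw [e1]
    exact (if_neg (show ¬ (s' v').isX = true from h)).symm

omit [DecidableEq V] in
private theorem card_darts (t : V → St) : Nat.card {x : Dart V // isC t x} = nX t * 4 := by
  classical
  have h1 : Nat.card {x : Dart V // isC t x} = Nat.card ({v : V // (t v).isX = true} × ZMod 4) :=
    Nat.card_congr
      { toFun := fun x => (⟨x.1.1, x.2⟩, x.1.2)
        invFun := fun y => ⟨(y.1.1, y.2), y.1.2⟩
        left_inv := fun x => rfl
        right_inv := fun y => rfl }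
  rw [h1, Nat.card_prod, Nat.card_zmod, Nat.card_eq_fintype_card, Fintype.card_subtype]
  rfl

omit [DecidableEq V] [DecidableEq V'] in
private theorem nX_phi (e : DMap S s S' s') : nX s = nX s' := by
  have h1 := card_darts s
  have h2 := card_darts s'
  have h3 := Nat.card_congr e.φ
  omega

omit [DecidableEq V] in
private theorem comps_ne {t t' : V → St} (h : comps S t ≠ 0) : comps S t' ≠ 0 := by
  unfold comps classes at *
  rw [Nat.card_ne_zero] at h ⊢
  obtain ⟨⟨q⟩, _⟩ := h
  obtain ⟨x, _⟩ := Quotient.exists_rep q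
  exact ⟨⟨Quotient.mk _ x⟩, inferInstance⟩

omit [DecidableEq V] in
private theorem sameShape_of_nX {t : V → St} (ht : Below t s) (hn : ¬ nX t < nX s) :
    SameShape s t := by
  classical
  have hsub : (Finset.univ.filter fun v => (t v).isX = true) ⊆
      (Finset.univ.filter fun v => (s v).isX = true) := by
    intro v hv
    rw [Finset.mem_filter] at hv ⊢
    exact ⟨Finset.mem_univ _, below_isC ht (x := (v, 0)) hv.2⟩
  have heq := Finset.eq_of_subset_of_card_le hsub (by
    unfold nX at hn
    omega)
  intro v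
  by_cases h : (s v).isX = true
  · have h1 : (t v).isX = true := by
      have : v ∈ (Finset.univ.filter fun v => (t v).isX = true) := by
        rw [heq, Finset.mem_filter]
        exact ⟨Finset.mem_univ _, h⟩
      exact (Finset.mem_filter.1 this).2
    revert h h1
    cases s v <;> cases t v <;> decide
  · have h1 : (s v).isX = false := by simpa using h
    rw [ht v h1]

theorem iso_eq (e : DMap S s S' s') {k : ℕ} (hk : comps S s = comps S' s' + k)
    (h0 : k = 0 ∨ comps S' s' ≠ 0) {F : (V → St) → R} {F' : (V' → St) → R}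
    {Ok : (Dart V → ℕ) → Prop} {Ok' : (Dart V' → ℕ) → Prop} (hF : IsSkein z mu S s F Ok)
    (hF' : IsSkein z mu S' s' F' Ok') {h : Dart V → ℕ} {h' : Dart V' → ℕ}
    (hh : ∀ x, h' (e.φ x).1 = h x.1) (hs : Sweep S s h) (ho : Ok h) (ho' : Ok' h') :
    F s = mu ^ k * F' s' := by
  classical
  have hk' : ∀ t, Below t s → comps S t = comps S' (tr e t) + k := by
    intro t ht
    have h1 := comps_phi e ht
    have h2 := comps_phi e (t := s) (fun _ _ => rfl)
    rw [tr_self] at h2
    omega
  have hpow : ∀ t, Below t s →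
      mu ^ (comps S t - 1) = mu ^ k * mu ^ (comps S' (tr e t) - 1) := by
    intro t ht
    have h1 := hk' t ht
    rcases h0 with h0 | h0
    · subst h0
      rw [h1, pow_zero, one_mul, add_zero]
    · have h2 : comps S' (tr e t) ≠ 0 := comps_ne h0
      rw [h1, ← pow_add]
      congr 1
      omega
  have key := skein_unique z s F (fun t => mu ^ k * F' (tr e t)) hF.skein ?_ ?_ s
    (fun _ _ => rfl)
  · simp only [tr_self] at key
    exact key
  · intro t ht v hX
    have hx : isC s ((v, 0) : Dart V) := below_isC ht (x := (v, 0)) hX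
    have hu : ∀ q, tr e (update t v q) = update (tr e t) (e.φ ⟨(v, 0), hx⟩).1.1
        (rotSt (0 - (e.φ ⟨(v, 0), hx⟩).1.2) q) := fun q => tr_update e t q ⟨(v, 0), hx⟩
    have ha : tr e t (e.φ ⟨(v, 0), hx⟩).1.1 = rotSt (0 - (e.φ ⟨(v, 0), hx⟩).1.2) (t v) :=
      tr_apply e t ⟨(v, 0), hx⟩
    generalize (e.φ ⟨(v, 0), hx⟩).1.1 = v' at hu ha
    generalize (0 : ZMod 4) - (e.φ ⟨(v, 0), hx⟩).1.2 = j at hu ha
    have h1 := hF'.skein (tr e t) (tr_below e t) v' (by rw [ha, rotSt_isX, hX])
    unfold SkeinAt at h1 ⊢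
    simp only
    rw [hu, hu, hu, ← rotSt_sw, ← ha]
    rcases rotSt_sm j with ⟨a, b⟩ | ⟨a, b⟩
    · rw [a, b]
      linear_combination mu ^ k * h1
    · rw [a, b]
      linear_combination mu ^ k * h1
  · intro t ht
    by_cases hn : nX t < nX s
    · obtain ⟨g, hg⟩ := exists_sweep S t
      let g' : Dart V' → ℕ := fun x' =>
        if hx : isC s' x' then g (e.φ.symm ⟨x', hx⟩).1 else 0
      have hgg : ∀ x, g' (e.φ x).1 = g x.1 := by
        intro x
        change (if hx : isC s' (e.φ x).1 then g (e.φ.symm ⟨(e.φ x).1, hx⟩).1 else 0) = g x.1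
        rw [dif_pos (e.φ x).2]
        have : (⟨(e.φ x).1, (e.φ x).2⟩ : {x : Dart V' // isC s' x}) = e.φ x := rfl
        rw [this, e.φ.symm_apply_apply]
      have hg' : Sweep S' (tr e t) g' :=
        sweep_aux (trMap e ht) (fun x => hgg ⟨x.1, below_isC ht x.2⟩) hg
      refine ⟨pat t g, pat_sameShape t g, ?_⟩
      rw [tr_pat e hgg hg, hF.low t ht hn g hg, hF'.low (tr e t) (tr_below e t) ?_ g' hg']
      · exact hpow t ht
      · rw [← nX_phi (trMap e ht), ← nX_phi e]
        exact hn
    · refine ⟨pat s h, fun v => (pat_sameShape s h v).trans (sameShape_of_nX ht hn v), ?_⟩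
      rw [tr_pat e hh hs, tr_self, hF.top h hs ho, hF'.top h' (sweep_aux e hh hs) ho']
      have := hpow s (fun _ _ => rfl)
      rwa [tr_self] at this

/-- transport of sweeps and of the order of the components -/
theorem DMap.sweep (e : DMap S s S' s') {h : Dart V → ℕ} {h' : Dart V' → ℕ}
    (hh : ∀ x, h' (e.φ x).1 = h x.1) (hs : Sweep S s h) : Sweep S' s' h' :=
  sweep_aux e hh hs

/-- the other direction of a map of diagrams -/
def DMap.symm (e : DMap S s S' s') : DMap S' s' S s where
  φ := e.φ.symm
  rot x y hxy := by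
    exact symm_rot e x y hxy
  arc x y := by
    have h := e.arc (e.φ.symm x) (e.φ.symm y)
    rw [e.φ.apply_symm_apply, e.φ.apply_symm_apply] at h
    exact h.symm
  upper x := by
    have h := e.upper (e.φ.symm x)
    rw [e.φ.apply_symm_apply] at h
    exact h.symm

theorem iso_eq_true (e : DMap S s S' s') {k : ℕ} (hk : comps S s = comps S' s' + k)
    (h0 : k = 0 ∨ comps S' s' ≠ 0) {F : (V → St) → R} {F' : (V' → St) → R}
    (hF : IsSkein z mu S s F (fun _ => True)) (hF' : IsSkein z mu S' s' F' (fun _ => True)) :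
    F s = mu ^ k * F' s' := by
  classical
  obtain ⟨g, hg⟩ := exists_sweep S s
  refine iso_eq e hk h0 hF hF' (h := g)
    (h' := fun x' => if hx : isC s' x' then g (e.φ.symm ⟨x', hx⟩).1 else 0) ?_ hg trivial trivial
  intro x
  rw [dif_pos (e.φ x).2]
  have : (⟨(e.φ x).1, (e.φ x).2⟩ : {x : Dart V' // isC s' x}) = e.φ x := rfl
  rw [this, e.φ.symm_apply_apply]

end Pool.Agent.Helper65.LK
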