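import Pool.Agent.Helper65.LK.PureDefs

/-!
# LK-19. The faces of a planar pure diagram can be coloured with two colours

Proof (linear algebra over `ZMod 2`; `n = card V`, `C = pieces`, `n + 2 C` faces, `2 n` edges).
Let `Φ` be the space of functions `f : Dart V → ZMod 2` which are constant on the faces
(`f (faceP S x) = f x`), of dimension `n + 2 C`; `E` the space of functions `g` with `g (α x) = g x`, of
dimension `2 n`; `W = V → ZMod 2`.
`∂₂ : Φ → E, (∂₂ f) x = f x + f (α x)`.  Its kernel consists of the functions which are constant on the classes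
generated by `α` and `faceP S`, i.e. by `α` and `sg`, i.e. on the pieces: dimension `C`.  So the
rank of `∂₂` is `n + C`.
`∂₁ : E → W, (∂₁ g) v = ∑ i, g (v, i)`.  The functionals on `W` which vanish on the image of `∂₁` are given by
the `g'` with `g' v + g' w = 0` for every edge between `v` and `w` (test with the indicator function of
`{x, α x}`): constant on pieces, dimension `C`.  So the rank of `∂₁` is `n - C` and its kernel has
dimension `n + C`.
`∂₁ ∂₂ = 0`: `f (α x) = f (sg x)` for `f ∈ Φ` (`faceP S (α x) = sg x`), and
`∑ i, (f (v, i) + f (v, i + 1)) = 0`.  Hence the image of `∂₂` is the kernel of `∂₁`.  The constant function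
`1` is in the kernel of `∂₁` (`4 = 0`), so `1 = ∂₂ f`: `f x + f (α x) = 1`, and `f (sg x) = f (α x) = f x + 1`.
-/

namespace Pool.Agent.Helper65.LK

variable {V : Type} [Fintype V] [DecidableEq V]

/-- the faces -/
private abbrev FQ (S : Shadow V) : Type :=
  Quotient (Equiv.Perm.SameCycle.setoid (faceP S))

/-- the relation generating the pieces -/
private abbrev pr (S : Shadow V) : Dart V → Dart V → Prop :=
  fun x y => y = S.α x ∨ y = rot (fun _ => St.over1) x

/-- the pieces -/
private abbrev PQ (S : Shadow V) : Type := Quotient (Relation.EqvGen.setoid (pr S))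

private theorem two_eq (a : ZMod 2) : a + a = 0 := CharTwo.add_self_eq_zero a

private theorem eq_of_add {a b : ZMod 2} (h : a + b = 0) : a = b := by
  have h1 := congrArg (fun t => t + b) h
  simp only [zero_add] at h1
  rwa [add_assoc, two_eq, add_zero] at h1

omit [Fintype V] [DecidableEq V] in
/-- the map from faces to pieces -/
private theorem piece_of_face (S : Shadow V) {x y : Dart V} (h : (faceP S).SameCycle x y) :
    (Quotient.mk _ x : PQ S) = Quotient.mk _ y := by
  have step : ∀ z : Dart V, (Quotient.mk _ (faceP S z) : PQ S) = Quotient.mk _ z := by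
    intro z
    apply Quotient.sound
    apply Relation.EqvGen.symm
    apply Relation.EqvGen.trans _ (S.α z)
    · exact Relation.EqvGen.rel _ _ (Or.inl rfl)
    · exact Relation.EqvGen.rel _ _ (Or.inr rfl)
  obtain ⟨k, rfl⟩ := h
  have nat : ∀ (m : ℕ) (z : Dart V), (Quotient.mk _ ((faceP S ^ m) z) : PQ S) = Quotient.mk _ z := by
    intro m
    induction m with
    | zero => intro z; rfl
    | succ m ih =>
      intro z
      rw [pow_succ', Equiv.Perm.mul_apply, step, ih]
  obtain ⟨m, rfl | rfl⟩ := k.eq_nat_or_neg
  · rw [zpow_natCast, nat]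
  · have h1 := nat m ((faceP S ^ (-(m : ℤ))) x)
    have h2 : (faceP S ^ m) ((faceP S ^ (-(m : ℤ))) x) = x := by
      rw [← Equiv.Perm.mul_apply, ← zpow_natCast, ← zpow_add, add_neg_cancel, zpow_zero,
        Equiv.Perm.one_apply]
    rw [h2] at h1
    exact h1

private def toPiece (S : Shadow V) : FQ S → PQ S :=
  Quotient.lift (fun x => (Quotient.mk _ x : PQ S)) fun _ _ h => piece_of_face S h

/-- the coboundary map of the faces -/
private def d2 (S : Shadow V) : (FQ S → ZMod 2) →ₗ[ZMod 2] (Dart V → ZMod 2) where
  toFun f x := f (Quotient.mk _ x) + f (Quotient.mk _ (S.α x))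
  map_add' f g := by
    funext x
    simp only [Pi.add_apply]
    ring
  map_smul' c f := by
    funext x
    simp only [Pi.smul_apply, smul_eq_mul, RingHom.id_apply]
    ring

private def pull (S : Shadow V) : (PQ S → ZMod 2) →ₗ[ZMod 2] (FQ S → ZMod 2) where
  toFun p q := p (toPiece S q)
  map_add' _ _ := rfl
  map_smul' _ _ := rfl

omit [Fintype V] [DecidableEq V] in
private theorem face_alpha (S : Shadow V) (x : Dart V) :
    (Quotient.mk _ (S.α x) : FQ S) = Quotient.mk _ (sg x) := by
  apply Quotient.sound
  refine ⟨1, ?_⟩
  rw [zpow_one, faceP_apply, S.invol]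

omit [Fintype V] [DecidableEq V] in
private theorem ker_d2 (S : Shadow V) : LinearMap.ker (d2 S) ≤ LinearMap.range (pull S) := by
  intro f hf
  have h : ∀ x, f (Quotient.mk _ x) = f (Quotient.mk _ (S.α x)) := by
    intro x
    exact eq_of_add (congrFun (LinearMap.mem_ker.1 hf) x)
  have h' : ∀ x y : Dart V, Relation.EqvGen (pr S) x y →
      f (Quotient.mk _ x) = f (Quotient.mk _ y) := by
    intro x y hxy
    induction hxy with
    | rel x y hr =>
      rcases hr with rfl | rfl
      · exact h x
      · rw [h x, face_alpha]
        rfl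
    | refl x => rfl
    | symm x y _ ih => exact ih.symm
    | trans x y z _ _ ih1 ih2 => exact ih1.trans ih2
  refine ⟨Quotient.lift (fun x => f (Quotient.mk _ x)) h', ?_⟩
  funext q
  induction q using Quotient.inductionOn with
  | h x => rfl

/-- the incidence matrix -/
private def Mm (S : Shadow V) : Matrix (Dart V ⊕ V) (Dart V) (ZMod 2) :=
  Matrix.of fun r y => Sum.elim
    (fun x => (if y = x then 1 else 0) + (if y = S.α x then 1 else 0))
    (fun v => if y.1 = v then 1 else 0) r

private theorem Mm_mulVec_inl (S : Shadow V) (g : Dart V → ZMod 2) (x : Dart V) :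
    (Mm S).mulVec g (Sum.inl x) = g x + g (S.α x) := by
  unfold Matrix.mulVec dotProduct Mm
  simp only [Matrix.of_apply, Sum.elim_inl, add_mul, ite_mul, one_mul, zero_mul,
    Finset.sum_add_distrib, Finset.sum_ite_eq', Finset.mem_univ, if_true]

private theorem Mm_mulVec_inr (S : Shadow V) (g : Dart V → ZMod 2) (v : V) :
    (Mm S).mulVec g (Sum.inr v) = ∑ i : ZMod 4, g (v, i) := by
  unfold Matrix.mulVec dotProduct Mm
  simp only [Matrix.of_apply, Sum.elim_inr, ite_mul, one_mul, zero_mul]
  rw [Fintype.sum_prod_type, Finset.sum_eq_single v]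
  · simp
  · intro w _ hw
    simp [hw]
  · intro h
    exact absurd (Finset.mem_univ v) h

private theorem MmT_mulVec (S : Shadow V) (c : Dart V ⊕ V → ZMod 2) (y : Dart V) :
    (Mm S).transpose.mulVec c y = c (Sum.inl y) + c (Sum.inl (S.α y)) + c (Sum.inr y.1) := by
  unfold Matrix.mulVec dotProduct Mm
  simp only [Matrix.transpose_apply, Matrix.of_apply, Fintype.sum_sum_type, Sum.elim_inl,
    Sum.elim_inr, add_mul, ite_mul, one_mul, zero_mul, Finset.sum_add_distrib,
    Finset.sum_ite_eq, Finset.mem_univ, if_true]
  congr 2
  rw [Finset.sum_eq_single (S.α y)]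
  · rw [if_pos (S.invol y).symm]
  · intro x _ hx
    rw [if_neg]
    rintro rfl
    exact hx (S.invol x).symm
  · intro h
    exact absurd (Finset.mem_univ _) h

/-- one dart of every edge -/
private noncomputable def half (S : Shadow V) : Finset (Dart V) :=
  Finset.univ.filter fun x => Fintype.equivFin (Dart V) x < Fintype.equivFin (Dart V) (S.α x)

omit [DecidableEq V] in
private theorem card_half (S : Shadow V) : (half S).card = 2 * Fintype.card V := by
  have h1 : (half S).card = (Finset.univ.filter fun x : Dart V =>
      Fintype.equivFin (Dart V) (S.α x) < Fintype.equivFin (Dart V) x).card := by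
    refine Finset.card_bij' (fun x _ => S.α x) (fun x _ => S.α x) ?_ ?_ ?_ ?_
    · intro x hx
      simp only [half, Finset.mem_filter, Finset.mem_univ, true_and] at hx ⊢
      rwa [S.invol]
    · intro x hx
      simp only [half, Finset.mem_filter, Finset.mem_univ, true_and] at hx ⊢
      rwa [S.invol]
    · intro x _
      exact S.invol x
    · intro x _
      exact S.invol x
  have h2 : (half S).card + (Finset.univ.filter fun x : Dart V =>
      Fintype.equivFin (Dart V) (S.α x) < Fintype.equivFin (Dart V) x).card =
      Fintype.card (Dart V) := by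
    have h0 := Finset.card_filter_add_card_filter_not
      (s := (Finset.univ : Finset (Dart V)))
      (fun x => Fintype.equivFin (Dart V) x < Fintype.equivFin (Dart V) (S.α x))
    rw [Finset.card_univ] at h0
    refine Eq.trans ?_ h0
    unfold half
    congr 2
    ext x
    simp only [Finset.mem_filter, Finset.mem_univ, true_and, not_lt]
    constructor
    · exact le_of_lt
    · intro h
      refine lt_of_le_of_ne h ?_
      intro e
      exact S.noFix x ((Fintype.equivFin (Dart V)).injective e)
  have h3 : Fintype.card (Dart V) = Fintype.card V * 4 := by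
    rw [Fintype.card_prod, ZMod.card]
  omega

/-- parametrization of the kernel of the transpose -/
private noncomputable def psi (S : Shadow V) :
    ((↥(half S) → ZMod 2) × (PQ S → ZMod 2)) →ₗ[ZMod 2] (Dart V ⊕ V → ZMod 2) where
  toFun c r := Sum.elim
    (fun x => if h : x ∈ half S then c.1 ⟨x, h⟩ else
      if h' : S.α x ∈ half S then c.1 ⟨S.α x, h'⟩ + c.2 (Quotient.mk _ x) else 0)
    (fun v => c.2 (Quotient.mk _ (v, 0))) r
  map_add' c c' := by
    funext r
    rcases r with x | v
    · simp only [Sum.elim_inl, Pi.add_apply, Prod.fst_add, Prod.snd_add]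
      split_ifs
      · rfl
      · ring
      · ring
    · simp only [Sum.elim_inr, Pi.add_apply, Prod.snd_add]
  map_smul' a c := by
    funext r
    rcases r with x | v
    · simp only [Sum.elim_inl, Pi.smul_apply, Prod.smul_fst, Prod.smul_snd, smul_eq_mul,
        RingHom.id_apply]
      split_ifs
      · rfl
      · ring
      · ring
    · simp only [Sum.elim_inr, Pi.smul_apply, Prod.smul_snd, RingHom.id_apply]

private theorem ker_MmT (S : Shadow V) :
    LinearMap.ker (Mm S).transpose.mulVecLin ≤ LinearMap.range (psi S) := by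
  intro c hc
  have h : ∀ y, c (Sum.inl y) + c (Sum.inl (S.α y)) + c (Sum.inr y.1) = 0 := by
    intro y
    rw [← MmT_mulVec]
    exact congrFun (LinearMap.mem_ker.1 hc) y
  have hα : ∀ y : Dart V, c (Sum.inr y.1) = c (Sum.inr (S.α y).1) := by
    intro y
    have h1 := h y
    have h2 := h (S.α y)
    rw [S.invol, add_comm (c (Sum.inl (S.α y)))] at h2
    have h3 := eq_of_add h1
    have h4 := eq_of_add h2
    exact h3.symm.trans h4
  have h' : ∀ x y : Dart V, Relation.EqvGen (pr S) x y →
      c (Sum.inr x.1) = c (Sum.inr y.1) := by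
    intro x y hxy
    induction hxy with
    | rel x y hr =>
      rcases hr with rfl | rfl
      · exact hα x
      · rfl
    | refl x => rfl
    | symm x y _ ih => exact ih.symm
    | trans x y z _ _ ih1 ih2 => exact ih1.trans ih2
  refine ⟨(fun x => c (Sum.inl x.1), Quotient.lift (fun x => c (Sum.inr x.1)) h'), ?_⟩
  funext r
  rcases r with x | v
  · show (if h : x ∈ half S then c (Sum.inl x) else
      if h' : S.α x ∈ half S then c (Sum.inl (S.α x)) + c (Sum.inr x.1) else 0) = c (Sum.inl x)
    by_cases hx : x ∈ half S
    · rw [dif_pos hx]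
    · have hx' : S.α x ∈ half S := by
        simp only [half, Finset.mem_filter, Finset.mem_univ, true_and, not_lt] at hx ⊢
        rw [S.invol]
        refine lt_of_le_of_ne hx ?_
        intro e
        exact S.noFix x ((Fintype.equivFin (Dart V)).injective e)
      rw [dif_neg hx, dif_pos hx']
      have h1 := h x
      rw [add_assoc] at h1
      exact (eq_of_add h1).symm
  · rfl

theorem two_colour (S : Shadow V) (hp : PlanarP S) :
    ∃ c : Dart V → ZMod 2, (∀ x, c (sg x) = c x + 1) ∧ ∀ x, c (S.α x) = c x + 1 := by
  classical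
  have : Fintype (FQ S) := Fintype.ofFinite _
  have : Fintype (PQ S) := Fintype.ofFinite _
  have hF : Fintype.card (FQ S) = Fintype.card V + 2 * Fintype.card (PQ S) := by
    have h1 : Nat.card (FQ S) = nX (fun _ : V => St.over1) + 2 * Nat.card (PQ S) := hp
    have h2 : nX (fun _ : V => St.over1) = Fintype.card V := by
      have h3 : (Finset.univ.filter fun v : V => ((fun _ : V => St.over1) v).isX = true) =
          Finset.univ := Finset.filter_true_of_mem (fun v _ => rfl)
      unfold nX
      rw [h3, Finset.card_univ]
    rwa [Nat.card_eq_fintype_card, Nat.card_eq_fintype_card, h2] at h1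
  have hD : Fintype.card (Dart V) = Fintype.card V * 4 := by
    rw [Fintype.card_prod, ZMod.card]
  -- the rank of `d2`
  have r1 := LinearMap.finrank_range_add_finrank_ker (d2 S)
  have r2 : Module.finrank (ZMod 2) (LinearMap.ker (d2 S)) ≤ Fintype.card (PQ S) := by
    refine (Submodule.finrank_mono (ker_d2 S)).trans ?_
    refine (LinearMap.finrank_range_le _).trans ?_
    rw [Module.finrank_fintype_fun_eq_card]
  rw [Module.finrank_fintype_fun_eq_card] at r1
  -- the kernel of the incidence matrix
  have m1 := LinearMap.finrank_range_add_finrank_ker (Mm S).mulVecLin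
  have m2 := LinearMap.finrank_range_add_finrank_ker (Mm S).transpose.mulVecLin
  have m3 : Module.finrank (ZMod 2) (LinearMap.range (Mm S).transpose.mulVecLin) =
      Module.finrank (ZMod 2) (LinearMap.range (Mm S).mulVecLin) := (Mm S).rank_transpose
  have m4 : Module.finrank (ZMod 2) (LinearMap.ker (Mm S).transpose.mulVecLin) ≤
      2 * Fintype.card V + Fintype.card (PQ S) := by
    refine (Submodule.finrank_mono (ker_MmT S)).trans ?_
    refine (LinearMap.finrank_range_le _).trans ?_
    rw [Module.finrank_prod, Module.finrank_fintype_fun_eq_card,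
      Module.finrank_fintype_fun_eq_card, Fintype.card_coe, card_half]
  rw [Module.finrank_fintype_fun_eq_card] at m1 m2
  rw [Fintype.card_sum] at m2
  -- the range of `d2` is the kernel
  have hle : LinearMap.range (d2 S) ≤ LinearMap.ker (Mm S).mulVecLin := by
    rintro _ ⟨f, rfl⟩
    rw [LinearMap.mem_ker]
    funext r
    rw [Matrix.mulVecLin_apply]
    rcases r with x | v
    · rw [Mm_mulVec_inl]
      show (f (Quotient.mk _ x) + f (Quotient.mk _ (S.α x))) +
        (f (Quotient.mk _ (S.α x)) + f (Quotient.mk _ (S.α (S.α x)))) = 0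
      rw [S.invol, add_comm (f (Quotient.mk _ (S.α x)))]
      exact two_eq _
    · rw [Mm_mulVec_inr]
      show ∑ i : ZMod 4, (f (Quotient.mk _ (v, i)) + f (Quotient.mk _ (S.α (v, i)))) = 0
      rw [Finset.sum_add_distrib]
      have : ∑ i : ZMod 4, f (Quotient.mk _ (S.α (v, i))) =
          ∑ i : ZMod 4, f (Quotient.mk _ (v, i)) := by
        rw [← Equiv.sum_comp (Equiv.addRight (1 : ZMod 4))
          (fun i => f (Quotient.mk _ (v, i)))]
        refine Finset.sum_congr rfl fun i _ => ?_
        rw [face_alpha]
        rfl
      rw [this]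
      exact two_eq _
  have heq : LinearMap.range (d2 S) = LinearMap.ker (Mm S).mulVecLin := by
    apply Submodule.eq_of_le_of_finrank_le hle
    omega
  have hone : (fun _ => 1 : Dart V → ZMod 2) ∈ LinearMap.ker (Mm S).mulVecLin := by
    rw [LinearMap.mem_ker]
    funext r
    rw [Matrix.mulVecLin_apply]
    rcases r with x | v
    · rw [Mm_mulVec_inl]
      exact two_eq _
    · rw [Mm_mulVec_inr]
      rw [Finset.sum_const, Finset.card_univ, ZMod.card, Pi.zero_apply]
      have h4 : ((4 : ℕ) • (1 : ZMod 2)) = 0 := by decide
      exact h4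
  rw [← heq] at hone
  obtain ⟨f, hf⟩ := hone
  have h1 : ∀ x, f (Quotient.mk _ (S.α x)) = f (Quotient.mk _ x) + 1 := by
    intro x
    have : f (Quotient.mk _ x) + f (Quotient.mk _ (S.α x)) = 1 := congrFun hf x
    rw [← this, ← add_assoc, two_eq, zero_add]
  refine ⟨fun x => f (Quotient.mk _ x), fun x => ?_, h1⟩
  have := h1 x
  rw [face_alpha] at this
  exact this

end Pool.Agent.Helper65.LK
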