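import Pool.Agent.Helper65.LK.Kidwell
import Pool.Agent.Helper65.LK.TwoCol
import Pool.Agent.Helper65.LK.IsoPlanar
import Pool.Agent.Helper65.LK.CompsV

/-!
# LK-29. The degree of the Q polynomial of a diagram with a nugatory crossing

`even_strands`: the number of crossing darts of a component of a planar diagram is divisible by four.
By `exists_pure` and `Planar.iso` we may assume that all vertices are crossings; let `c` be the
colouring of `two_colour` (`PlanarP` = `Planar` for states without smoothed vertices).  On the
crossing darts let `P x = partner (tau x)`, `partner = α`; `c (P x) = c x + 1`, so the period `m` of `x`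
under `P` is even, and the darts of the component are `{P ^ j x} ∪ {tau (P ^ j x)}`, `2 m` darts (disjoint sets,
see the header of `SweepEx.lean`).  (Transport: `DMap` respects `Arc` and `tau`, hence `Comp` between
crossing darts, see `Iso.lean` / `gen_iff`.)

`deg_nug`: `q` is a smoothing at `v` such that `(v, 0)` and `(v, 2)` are in different pieces of
`(S, update s v q)`.  For `t` below `s` with `t v = s v`, `nX t ≥ 1`, claim
`DegLE (F t) (nX t - 2)` if `nX t ≥ 2`, and `DegLE (F t) 0` if `nX t = 1`.
First: in every such `t` the two strands at `v` are on the same component.  Otherwise, with the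
matching `o` of `outer` for `t`, `o i = i + 2`, so `(v,0)` and `(v,2)` are joined outside `v`, hence are on the
same component and in the same piece of `(S, update t v q)`; but pieces become smaller when
crossings are smoothed (`update t v q` is below `update s v q`), contradiction.
Induction on `nX t`.  `nX t = 1`: by `top_sweep` there is a sweep with `pat t h = t`.
`nX t ≥ 2`: there is a sweep `h` with `pat t h v = t v` (`top_sweep` for the upper strand at `v`), and
`DegLE (F (pat t h)) 0`.  For `u ≠ v`, `t u` a crossing,
`F t + F (update t u (t u).sw) = zL * (F A + F B)`; if `nX t ≥ 3` the right hand side has degree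
`≤ 1 + (nX t - 1 - 2)`.  If `nX t = 2`: the crossings of `t` are `u, v`; the strands at `v` are on the
same component, so by `even_strands` (the number of crossing darts at `u` on the component
of `(u, 0)` is `2` or `4`, at `v` it is `0` or `4`) the strands at `u` are on the same component; by the case
`nX = 1` `F A = muL ^ (comps A - 1)`, the same for `B`, and with `comps_self` the right hand side is
`zL * (muL ^ (c-1) + muL ^ c) = 2 * muL ^ (c - 1)`.
So all crossing changes at vertices `u ≠ v` preserve the bound, and the states `t` with `t v = s v` of a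
given shape are connected by them.
-/

namespace Pool.Agent.Helper65.LK

open Function

variable {V : Type} [Fintype V] [DecidableEq V] {S : Shadow V} {s : V → St}

omit [Fintype V] [DecidableEq V] in
private theorem ng_tau_tau (s : V → St) (y : Dart V) : tau s (tau s y) = y := by
  change (y.1, (s y.1).mate ((s y.1).mate y.2)) = y
  rw [St.mate_mate]

omit [Fintype V] [DecidableEq V] in
private theorem ng_tau_ne (s : V → St) (y : Dart V) : tau s y ≠ y := by
  intro h
  exact St.mate_ne (s y.1) y.2 (congrArg Prod.snd h)

private theorem ng_mate {t : St} (h : t.isX = true) (i : ZMod 4) : t.mate i = i + 2 := by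
  cases t
  · rfl
  · rfl
  · exact absurd h (by decide)
  · exact absurd h (by decide)

private theorem ng_next {t : St} (h : t.isX = true) (i : ZMod 4) : t.next i = i + 1 := by
  cases t
  · rfl
  · rfl
  · exact absurd h (by decide)
  · exact absurd h (by decide)

private theorem ng_next_mate {t : St} (h : ¬ t.isX = true) (i : ZMod 4) : t.next i = t.mate i := by
  cases t
  · exact absurd rfl h
  · exact absurd rfl h
  · rfl
  · rfl

private theorem ng_map {X : Type} {r r' : X → X → Prop}
    (h : ∀ x y, r x y → Relation.EqvGen r' x y) {x y : X} (hxy : Relation.EqvGen r x y) :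
    Relation.EqvGen r' x y := by
  induction hxy with
  | rel x y hr => exact h x y hr
  | refl x => exact Relation.EqvGen.refl _
  | symm x y _ ih => exact Relation.EqvGen.symm _ _ ih
  | trans x y z _ _ ih1 ih2 => exact Relation.EqvGen.trans _ _ _ ih1 ih2

omit [Fintype V] [DecidableEq V] in
private theorem ng_arc_comp {U : V → Prop} {x y : Dart V}
    (h : Relation.EqvGen (arcRel U S s) x y) : Comp S s x y :=
  ng_map (fun _ _ hr => Relation.EqvGen.rel _ _ (hr.imp id fun h1 => h1.2)) h

omit [Fintype V] [DecidableEq V] in
/-- the four darts at a crossing are in the same piece -/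
private theorem ng_four {u : V} (hu : (s u).isX = true) (i j : ZMod 4) :
    Piece S s (u, i) (u, j) := by
  have hk : ∀ k : ℕ, Piece S s (u, i) (u, i + k) := by
    intro k
    induction k with
    | zero =>
      have h1 : i + ((0 : ℕ) : ZMod 4) = i := by simp
      rw [h1]
      exact Relation.EqvGen.refl _
    | succ k ih =>
      refine ih.trans _ _ _ (Relation.EqvGen.rel _ _ (Or.inr ?_))
      change (u, i + ((k + 1 : ℕ) : ZMod 4)) = (u, (s u).next (i + k))
      rw [ng_next hu]
      push_cast
      rw [add_assoc]
  have h1 := hk (j - i).val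
  rwa [ZMod.natCast_zmod_val, add_sub_cancel] at h1

omit [Fintype V] [DecidableEq V] in
/-- pieces become smaller if crossings are smoothed -/
private theorem ng_piece_below {t : V → St} (ht : Below t s) {x y : Dart V}
    (h : Piece S t x y) : Piece S s x y := by
  refine ng_map (fun x y hr => ?_) h
  rcases hr with hr | hr
  · exact Relation.EqvGen.rel _ _ (Or.inl hr)
  · by_cases hx : (s x.1).isX = true
    · have h1 : y = (x.1, (t x.1).next x.2) := hr
      rw [h1]
      exact ng_four hx _ _
    · have h1 : t x.1 = s x.1 := ht x.1 (by simpa using hx)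
      refine Relation.EqvGen.rel _ _ (Or.inr ?_)
      change y = (x.1, (s x.1).next x.2)
      rw [← h1]
      exact hr

omit [Fintype V] in
/-- outside `v` the strands are in the pieces of the smoothed state -/
private theorem ng_strand {v : V} {q : St} {x y : Dart V}
    (h : Relation.EqvGen (arcRel (fun w => w = v) S s) x y) : Piece S (update s v q) x y := by
  refine ng_map (fun x y hr => ?_) h
  rcases hr with hr | ⟨hx, hr⟩
  · exact Relation.EqvGen.rel _ _ (Or.inl hr)
  · have h1 : update s v q x.1 = s x.1 := Function.update_of_ne hx _ _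
    have h2 : y = (x.1, (s x.1).mate x.2) := hr
    by_cases hc : (s x.1).isX = true
    · rw [h2]
      exact ng_four (by rw [h1]; exact hc) _ _
    · refine Relation.EqvGen.rel _ _ (Or.inr ?_)
      change y = (x.1, (update s v q x.1).next x.2)
      rw [h1, ng_next_mate hc]
      exact h2

/-- the strands of the nugatory crossing are on the same component -/
private theorem ng_self {v : V} (hv : (s v).isX = true) {q : St}
    (hd : ¬ Piece S (update s v q) (v, 0) (v, 2)) : Comp S s (v, 0) (v, 1) := by
  obtain ⟨o, C₀, h1, h2, h3, h4, h5, h6⟩ := outer S s v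
  have h7 : o 0 ≠ 2 := by
    intro h
    have h8 := h3 0
    rw [h] at h8
    exact hd (ng_strand h8)
  have h8 := h6 (s v) 0 1
  rw [Function.update_eq_self] at h8
  refine h8.2 fun h9 => absurd ?_ h7
  rw [← h9, ng_mate hv]
  decide

/-- a fixed point free involution of a finite set -/
private theorem ng_even {T : Type} [DecidableEq T] (A : Finset T) (f : T → T)
    (h1 : ∀ a ∈ A, f a ∈ A) (h2 : ∀ a ∈ A, f (f a) = a) (h3 : ∀ a ∈ A, f a ≠ a) : Even A.card := by
  have h : ∑ a ∈ A, (1 : ZMod 2) = 0 :=
    Finset.sum_involution (fun a _ => f a) (fun a _ => by decide) (fun a ha _ => h3 a ha)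
      (fun a ha => h1 a ha) (fun a ha => h2 a ha)
  rw [Finset.sum_const, nsmul_eq_mul, mul_one, ZMod.natCast_eq_zero_iff] at h
  exact even_iff_two_dvd.2 h

/-- a two colouring of the crossing darts -/
private theorem ng_colour (hp : Planar S s) :
    ∃ c : Dart V → ZMod 2, (∀ y, isC s y → c (tau s y) = c y) ∧
      ∀ y, isC s y → c (partner (Cr s) S s y) = c y + 1 := by
  obtain ⟨S', e, -, -⟩ := exists_pure S s
  have hp' := Planar.iso e hp
  have hp2 : PlanarP S' := by
    refine Planar.below hp' fun w hw => ?_
    have h1 : (s w.1).isX = false := hw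
    rw [w.2] at h1
    exact absurd h1 (by decide)
  obtain ⟨c, hc1, hc2⟩ := two_colour S' hp2
  classical
  let d : Dart V → ZMod 2 := fun y => if h : isC s y then c (e.φ ⟨y, h⟩).1 else 0
  have hd : ∀ y (h : isC s y), d y = c (e.φ ⟨y, h⟩).1 := fun y h => dif_pos h
  have hsg : ∀ y, isC s y → d (sg y) = d y + 1 := by
    intro y hy
    have hy' : isC s (sg y) := hy
    rw [hd y hy, hd (sg y) hy', e.rot ⟨y, hy⟩ ⟨sg y, hy'⟩ rfl, hc1]
  refine ⟨d, fun y hy => ?_, fun y hy => ?_⟩
  · have h1 : tau s y = sg (sg y) := by
      change (y.1, (s y.1).mate y.2) = (y.1, y.2 + 1 + 1)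
      rw [ng_mate hy, add_assoc]
      congr 2
    rw [h1, hsg _ (show isC s (sg y) from hy), hsg _ hy, add_assoc]
    simp [show (1 : ZMod 2) + 1 = 0 from rfl]
  · have h1 := e.ip_partner ⟨y, hy⟩
    have h2 : isC s (partner (Cr s) S s y) := (partner_spec (Cr s) S s y hy).1
    rw [hd y hy, hd _ h2, ← hc2]
    congr 1
    have h3 : partner (Cr fun v : {v : V // (s v).isX = true} => s v.1) S' (fun v => s v.1)
        (e.φ ⟨y, hy⟩).1 = S'.α (e.φ ⟨y, hy⟩).1 :=
      partner_of_mem _ S' _ _ (e.φ ⟨y, hy⟩).2 (S'.α (e.φ ⟨y, hy⟩).1).1.2
    rw [← h3, ← h1]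
    rfl

theorem even_strands (hp : Planar S s) (x : Dart V) (hx : isC s x) :
    4 ∣ {y : Dart V | isC s y ∧ Comp S s x y}.ncard := by
  classical
  obtain ⟨c, hc1, hc2⟩ := ng_colour hp
  set Y : Finset (Dart V) := Finset.univ.filter fun y => isC s y ∧ Comp S s x y with hY
  have hYs : {y : Dart V | isC s y ∧ Comp S s x y} = (Y : Set (Dart V)) := by
    ext y
    simp [hY]
  rw [hYs, Set.ncard_coe_finset]
  set b : Dart V → Dart V := partner (Cr s) S s with hb
  have hbY : ∀ y ∈ Y, b y ∈ Y := by
    intro y hy
    rw [hY, Finset.mem_filter] at hy ⊢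
    obtain ⟨h1, -, h3, -⟩ := partner_spec (Cr s) S s y hy.2.1
    exact ⟨Finset.mem_univ _, h1, hy.2.2.trans _ _ _ (ng_arc_comp h3)⟩
  have htY : ∀ y ∈ Y, tau s y ∈ Y := by
    intro y hy
    rw [hY, Finset.mem_filter] at hy ⊢
    exact ⟨Finset.mem_univ _, hy.2.1, hy.2.2.trans _ _ _ (Relation.EqvGen.rel _ _ (Or.inr rfl))⟩
  have hYC : ∀ y ∈ Y, isC s y := fun y hy => (Finset.mem_filter.1 hy).2.1
  set Y0 := Y.filter fun y => c y = 0 with hY0
  set Y1 := Y.filter fun y => c y ≠ 0 with hY1
  have hsum : Y0.card + Y1.card = Y.card := Finset.card_filter_add_card_filter_not _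
  have hev : Even Y0.card := by
    refine ng_even Y0 (tau s) (fun y hy => ?_) (fun y _ => ng_tau_tau s y) fun y _ => ng_tau_ne s y
    rw [hY0, Finset.mem_filter] at hy ⊢
    exact ⟨htY y hy.1, by rw [hc1 y (hYC y hy.1)]; exact hy.2⟩
  have heq : Y0.card = Y1.card := by
    refine Finset.card_bij' (fun y _ => b y) (fun y _ => b y) ?_ ?_ ?_ ?_
    · intro y hy
      rw [hY0, Finset.mem_filter] at hy
      rw [hY1, Finset.mem_filter]
      exact ⟨hbY y hy.1, by rw [hb, hc2 y (hYC y hy.1), hy.2]; decide⟩
    · intro y hy
      rw [hY1, Finset.mem_filter] at hy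
      rw [hY0, Finset.mem_filter]
      refine ⟨hbY y hy.1, ?_⟩
      rw [hb, hc2 y (hYC y hy.1)]
      have key : ∀ a : ZMod 2, a ≠ 0 → a + 1 = 0 := by decide
      exact key _ hy.2
    · intro y hy
      exact partner_partner (Cr s) S s y (hYC y (Finset.mem_filter.1 hy).1)
    · intro y hy
      exact partner_partner (Cr s) S s y (hYC y (Finset.mem_filter.1 hy).1)
  obtain ⟨k, hk⟩ := hev
  omega

private theorem ng_upper (q : St) (hq : q.isX = true) : q.upper (if q = St.over1 then 1 else 0) =
    true := by
  cases q
  · decide
  · decide
  · exact absurd hq (by decide)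
  · exact absurd hq (by decide)

/-- a sweep which respects the state at `v` -/
private theorem ng_top (S : Shadow V) (s : V → St) {v : V} (hv : (s v).isX = true) :
    ∃ h, Sweep S s h ∧ pat s h v = s v := by
  by_cases h1 : s v = St.over1
  · obtain ⟨h, hS, hh⟩ := top_sweep S s (v, 1) hv
    refine ⟨h, hS, ?_⟩
    have h2 := hh (v, 0) hv (fun h => by
      have h3 : (0 : ZMod 4) = 1 := congrArg Prod.snd h
      exact absurd h3 (by decide)) (fun h => by
      have h3 := congrArg Prod.snd h
      change (0 : ZMod 4) = (s v).mate 1 at h3
      rw [ng_mate hv] at h3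
      exact absurd h3 (by decide))
    unfold pat
    rw [if_pos hv, if_pos h2, h1]
  · have h1' : s v = St.over0 := by
      cases hs : s v
      · exact absurd hs h1
      · rfl
      · rw [hs] at hv
        exact absurd hv (by decide)
      · rw [hs] at hv
        exact absurd hv (by decide)
    obtain ⟨h, hS, hh⟩ := top_sweep S s (v, 0) hv
    refine ⟨h, hS, ?_⟩
    have h2 := hh (v, 1) hv (fun h => by
      have h3 : (1 : ZMod 4) = 0 := congrArg Prod.snd h
      exact absurd h3 (by decide)) (fun h => by
      have h3 := congrArg Prod.snd h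
      change (1 : ZMod 4) = (s v).mate 0 at h3
      rw [ng_mate hv] at h3
      exact absurd h3 (by decide))
    unfold pat
    rw [if_pos hv, if_neg (by omega), h1']

/-- one crossing -/
private theorem ng_base {F : (V → St) → LP} (hF : IsSkein zL muL S s F (fun _ => True))
    (hn : nX s = 1) : F s = muL ^ (comps S s - 1) := by
  unfold nX at hn
  obtain ⟨v, hv⟩ := Finset.card_eq_one.1 hn
  have hvX : (s v).isX = true := by
    have : v ∈ Finset.univ.filter fun v => (s v).isX = true := by rw [hv]; simp
    exact (Finset.mem_filter.1 this).2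
  obtain ⟨h, hS, hh⟩ := ng_top S s hvX
  have h1 : pat s h = s := by
    funext w
    by_cases hw : (s w).isX = true
    · have : w ∈ Finset.univ.filter fun v => (s v).isX = true := by simp [hw]
      rw [hv, Finset.mem_singleton] at this
      rw [this]
      exact hh
    · unfold pat
      rw [if_neg hw]
  have h2 := hF.top h hS trivial
  rwa [h1] at h2

private theorem ng_comps_pos (S : Shadow V) (s : V → St) (v : V) : 1 ≤ comps S s := by
  unfold comps classes
  exact Nat.card_pos_iff.2 ⟨⟨Quotient.mk _ (v, 0)⟩, inferInstance⟩

private theorem ng_two (c : ℕ) (hc : 1 ≤ c) : DegLE (zL * (muL ^ (c - 1) + muL ^ c)) 0 := by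
  have h1 : zL * (muL ^ (c - 1) + muL ^ c) = muL ^ (c - 1) + muL ^ (c - 1) := by
    obtain ⟨d, rfl⟩ : ∃ d, c = d + 1 := ⟨c - 1, by omega⟩
    rw [Nat.add_sub_cancel, pow_succ]
    linear_combination muL ^ d * zL_mul_muL
  rw [h1]
  exact (degLE_muL_pow _).add (degLE_muL_pow _)

/-- two crossings: the strands at the second crossing are on the same component -/
private theorem ng_second (hp : Planar S s) {u v : V} (huv : u ≠ v) (hu : (s u).isX = true)
    (hv : (s v).isX = true) (hn : nX s = 2) (hc : Comp S s (v, 0) (v, 1)) :
    Comp S s (u, 0) (u, 1) := by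
  classical
  by_contra hcon
  have hX : ∀ w, (s w).isX = true → w = u ∨ w = v := by
    intro w hw
    unfold nX at hn
    obtain ⟨a, b, hab, hS⟩ := Finset.card_eq_two.1 hn
    have hm : ∀ w, (s w).isX = true → w = a ∨ w = b := by
      intro w hw
      have : w ∈ Finset.univ.filter fun v => (s v).isX = true := by simp [hw]
      rw [hS] at this
      simpa using this
    rcases hm u hu with h1 | h1 <;> rcases hm v hv with h2 | h2 <;> rcases hm w hw with h3 | h3 <;>
      simp_all
  have htau : ∀ w, (s w).isX = true → ∀ i, Comp S s (w, i) (w, i + 2) := by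
    intro w hw i
    refine Relation.EqvGen.rel _ _ (Or.inr ?_)
    change (w, i + 2) = (w, (s w).mate i)
    rw [ng_mate hw]
  have hvv : ∀ i, Comp S s (v, 0) (v, i) := by
    intro i
    have h1 : i = 0 ∨ i = 1 ∨ i = 0 + 2 ∨ i = 1 + 2 := by revert i; decide
    rcases h1 with h1 | h1 | h1 | h1 <;> rw [h1]
    · exact Relation.EqvGen.refl _
    · exact hc
    · exact htau v hv 0
    · exact hc.trans _ _ _ (htau v hv 1)
  set A : Set (ZMod 4) := {i | Comp S s (u, 0) (u, i)} with hA
  set B : Set (ZMod 4) := {i | Comp S s (u, 0) (v, i)} with hB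
  have hY : {y : Dart V | isC s y ∧ Comp S s (u, 0) y} =
      (fun i : ZMod 4 => (u, i)) '' A ∪ (fun i : ZMod 4 => (v, i)) '' B := by
    ext ⟨w, i⟩
    constructor
    · rintro ⟨h1, h2⟩
      rcases hX w h1 with rfl | rfl
      · exact Or.inl ⟨i, h2, rfl⟩
      · exact Or.inr ⟨i, h2, rfl⟩
    · rintro (⟨j, h1, h2⟩ | ⟨j, h1, h2⟩)
      · rw [← h2]
        exact ⟨hu, h1⟩
      · rw [← h2]
        exact ⟨hv, h1⟩
  have h4 := even_strands hp (u, 0) hu
  rw [hY, Set.ncard_union_eq, Set.ncard_image_of_injective _ (fun a b h => congrArg Prod.snd h),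
    Set.ncard_image_of_injective _ (fun a b h => congrArg Prod.snd h)] at h4
  · have hA2 : A.ncard = 2 := by
      have h5 : A = {0, 2} := by
        ext i
        constructor
        · intro h1
          have h2 := (by decide : ∀ i : ZMod 4, i = 0 ∨ i = 1 ∨ i = 2 ∨ i = 3) i
          rcases h2 with h2 | h2 | h2 | h2
          · rw [h2]; simp
          · rw [h2] at h1
            exact absurd h1 hcon
          · rw [h2]; simp
          · rw [h2] at h1
            exfalso
            apply hcon
            have h6 := (htau u hu 1).symm
            have h7 : (1 : ZMod 4) + 2 = 3 := by decide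
            rw [h7] at h6
            exact h1.trans _ _ _ h6
        · intro h1
          rcases h1 with h1 | h1
          · rw [h1]
            exact Relation.EqvGen.refl _
          · have h6 := htau u hu 0
            rw [zero_add] at h6
            rw [Set.mem_singleton_iff.1 h1]
            exact h6
      rw [h5, Set.ncard_pair (by decide)]
    have hB4 : B.ncard = 0 ∨ B.ncard = 4 := by
      by_cases h5 : Comp S s (u, 0) (v, 0)
      · right
        have h6 : B = Set.univ := Set.eq_univ_of_forall fun i => h5.trans _ _ _ (hvv i)
        rw [h6, Set.ncard_univ, Nat.card_eq_fintype_card, ZMod.card]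
      · left
        have h6 : B = ∅ := Set.eq_empty_of_forall_notMem fun i h7 =>
          h5 (Relation.EqvGen.trans _ _ _ h7 (hvv i).symm)
        rw [h6, Set.ncard_empty]
    omega
  · rw [Set.disjoint_left]
    rintro x ⟨i, -, rfl⟩ ⟨j, -, h2⟩
    exact huv (congrArg Prod.fst h2).symm

private theorem ng_sw : ∀ a b : St, a.shape = b.shape → a ≠ b → a.isX = true ∧ b = a.sw := by
  intro a b
  cases a <;> cases b <;> decide

private theorem ng_shape_isX {a b : St} (h : a.shape = b.shape) (hb : a.isX = true) :
    b.isX = true := by
  cases a <;> cases b <;> first | rfl | exact absurd h (by decide) | exact absurd hb (by decide)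

private theorem ng_shape_eq {a b : St} (h : a.shape = b.shape) (hb : b.isX = false) :
    a = b := by
  cases a <;> cases b <;> first | rfl | exact absurd h (by decide) | exact absurd hb (by decide)

private theorem ng_main (F : (V → St) → LP) {v : V} {q : St} (n : ℕ) : ∀ s : V → St,
    nX s = n → 2 ≤ n → IsSkein zL muL S s F (fun _ => True) → Planar S s → (s v).isX = true →
      ¬ Piece S (update s v q) (v, 0) (v, 2) → DegLE (F s) ((n : ℤ) - 2) := by
  induction n using Nat.strong_induction_on with
  | _ n ih =>
  intro s hns hn hF hp hv hd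
  have hbel : ∀ t, SameShape t s → Below t s := fun t ht w hw => ng_shape_eq (ht w) hw
  -- the right hand side of the skein relation
  have key : ∀ t, SameShape t s → t v = s v → ∀ u, u ≠ v → (t u).isX = true →
      DegLE (zL * (F (update t u St.smA) + F (update t u St.smB))) ((n : ℤ) - 2) := by
    intro t ht htv u huv hu
    have hFt := hF.sameShape ht
    have hpt : Planar S t := hp.below (hbel t ht)
    have hnt : nX t = n := by rw [(sweep_sameShape (S := S) ht (fun _ => 0)).2.2.2.1, hns]
    have hbt : ∀ r : St, Below (update t u r) t := by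
      intro r w hw
      have hwu : w ≠ u := by
        rintro rfl
        rw [hu] at hw
        exact absurd hw (by decide)
      rw [Function.update_of_ne hwu]
    have hvt : (t v).isX = true := by rw [htv]; exact hv
    have hdt : ∀ r : St, Below (update (update t u r) v q) (update s v q) := by
      intro r w hw
      by_cases hwv : w = v
      · rw [hwv, Function.update_self, Function.update_self]
      · rw [Function.update_of_ne hwv] at hw ⊢
        have hwu : w ≠ u := by
          rintro rfl
          rw [ng_shape_isX (ht w) hu] at hw
          exact absurd hw (by decide)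
        rw [Function.update_of_ne hwv, Function.update_of_ne hwu]
        exact hbel t ht w hw
    rcases Nat.lt_or_ge 2 n with hn3 | hn2
    · have h1 : ∀ r : St, r.isX = false → DegLE (F (update t u r)) ((n : ℤ) - 2 - 1) := by
        intro r hr
        have h2 := e_nX_update hu hr
        have h3 := ih (n - 1) (by omega) (update t u r) (by omega) (by omega)
          (hFt.restrict (hbt r) (by omega)) (hpt.below (hbt r))
          (by rw [Function.update_of_ne huv.symm]; exact hvt)
          (fun h => hd (ng_piece_below (hdt r) h))
        refine h3.mono ?_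
        rw [Nat.cast_sub (by omega)]
        push_cast
        omega
      have h4 := ((h1 St.smA rfl).add (h1 St.smB rfl)).zL_mul
      rwa [sub_add_cancel] at h4
    · have hn2' : n = 2 := by omega
      have hcv : Comp S t (v, 0) (v, 1) := by
        refine ng_self hvt (q := q) fun h => hd (ng_piece_below ?_ h)
        intro w hw
        by_cases hwv : w = v
        · rw [hwv, Function.update_self, Function.update_self]
        · rw [Function.update_of_ne hwv] at hw ⊢
          rw [Function.update_of_ne hwv]
          exact hbel t ht w hw
      have hcu := ng_second hpt huv hu hvt (by omega) hcv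
      have h1 : ∀ r : St, r.isX = false →
          F (update t u r) = muL ^ (comps S (update t u r) - 1) := by
        intro r hr
        have h2 := e_nX_update hu hr
        exact ng_base (hFt.restrict (hbt r) (by omega)) (by omega)
      have hc1 := ng_comps_pos S t v
      rw [h1 St.smA rfl, h1 St.smB rfl, hn2']
      norm_num
      rcases comps_self S t u hu hcu with ⟨h2, h3⟩ | ⟨h2, h3⟩
      · rw [h2, h3, Nat.add_sub_cancel]
        exact ng_two _ hc1
      · rw [h2, h3, Nat.add_sub_cancel, add_comm]
        exact ng_two _ hc1
  -- start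
  obtain ⟨h, hS, hh⟩ := ng_top S s hv
  have hps := pat_sameShape s h
  set p := pat s h with hpd
  have h0 : DegLE (F p) ((n : ℤ) - 2) := by
    rw [hpd, hF.top h hS trivial]
    exact (degLE_muL_pow _).mono (by omega)
  have hD : ∀ D : Finset V, DegLE (F fun w => if w ∈ D then s w else p w) ((n : ℤ) - 2) := by
    intro D
    induction D using Finset.induction_on with
    | empty => simpa using h0
    | insert u D huD ihD =>
      set t : V → St := fun w => if w ∈ D then s w else p w with htd
      have hts : SameShape t s := by
        intro w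
        rw [htd]
        by_cases hw : w ∈ D
        · simp only [if_pos hw]
        · simp only [if_neg hw]
          exact hps w
      have htv : t v = s v := by
        rw [htd]
        by_cases hw : v ∈ D
        · simp only [if_pos hw]
        · simp only [if_neg hw]
          exact hh
      have hnew : (fun w => if w ∈ insert u D then s w else p w) = update t u (s u) := by
        funext w
        by_cases hw : w = u
        · rw [hw, Function.update_self, if_pos (Finset.mem_insert_self _ _)]
        · rw [Function.update_of_ne hw, htd]
          simp only [Finset.mem_insert, hw, false_or]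
      rw [hnew]
      by_cases hpu : t u = s u
      · rw [← hpu, Function.update_eq_self]
        exact ihD
      · obtain ⟨hu, hsw⟩ := ng_sw (t u) (s u) (hts u) hpu
        have huv : u ≠ v := by
          rintro rfl
          exact hpu htv
        have h1 := hF.skein t (hbel t hts) u hu
        unfold SkeinAt at h1
        rw [← hsw] at h1
        have h2 : F (update t u (s u)) =
            zL * (F (update t u St.smA) + F (update t u St.smB)) - F t := by
          rw [← h1]
          ring
        rw [h2]
        exact (key t hts htv u huv hu).sub ihD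
  have h1 := hD Finset.univ
  simpa using h1

theorem deg_nug {F : (V → St) → LP} (hF : IsSkein zL muL S s F (fun _ => True))
    (hp : Planar S s) {v : V} (hv : (s v).isX = true) {q : St} (hq : q.isX = false)
    (hd : ¬ Piece S (update s v q) (v, 0) (v, 2)) (hn : 2 ≤ nX s) :
    DegLE (F s) ((nX s : ℤ) - 2) :=
  ng_main F (nX s) s rfl hn hF hp hv hd

end Pool.Agent.Helper65.LK
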