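import Pool.Agent.Helper65.LK.Erase
import Pool.Agent.Helper65.LK.Nug

/-!
# LK-31. The coefficient `kap` of a connected alternating diagram

`S` is a connected alternating diagram with `n = card V` crossings, `F` the skein function of
`(S, ov V)` (`exists_fun`, `Planar S (ov V)`), so that `F t = Q zL muL S t` below `ov V` (all states).
`upper_ne`: `(ov V x.1).upper x.2 = par x.2`.

`kap_nug`: let the corners `(v, c)`, `(v, c + 2)` be in the same face, `q = mrg c`, `s = update (ov V) v q`.
`cycles (rot s * S.α) = cycles (faceP S) + 1` (the transposition `(v,c) (v,c+2)` splits a cycle; see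
`Euler.lean` (b)), so by the planarity of both `pieces S s = pieces S (ov V) + 1 = 2`; therefore
`(v, 0)` and `(v, 2)` are in different pieces of `(S, s)` (otherwise `Piece S s = Piece S (ov V)`: `mrg c`
joins the darts at `v` in two pairs, each contains one of `0, 2`).  By `deg_nug`
`DegLE (F (ov V)) (n - 2)`.

`kap_rec`: the skein relation at `v`: `F (ov V) + F t = zL * (F A + F B)`, `t = update (ov V) v over0`,
`A = update (ov V) v smA`, `B = update (ov V) v smB`.  There is an arc from `v` to another vertex
`w` (the diagram is connected and `n ≥ 2`): `α (v, i) = (w, j)`, `par i ≠ par j`; in the state `t` the darts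
`(v, i)` and `(w, j)` are both upper or both lower, so `DegLE (F t) (n - 2)` by `deg_le_two`.  Compare
the coefficients of `z ^ (n - 1)` and use `Erase.q` (`mrg 0 = smA`, `mrg 1 = smB`).
`kap_one`: one crossing: `F (ov V)` has degree `≤ 0` ...: by `alt` and `noFix`, `α (v, 0)` is
`(v, 1)` or `(v, 3)`: a kink, so by `Q_R1` and `Q_empty` the value is `muL ^ (comps - 1)`, and the number
of components is one (the four darts are on one component), so `Q = 1`.
`kap_nonneg`, `kap_even`: strong induction on `n`: `kap = 0` if there is a nugatory crossing,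
otherwise `kap_rec`; for `n = 2` the two terms are `1` (`kap_one`).
-/

namespace Pool.Agent.Helper65.LK

open Function

variable {V : Type} [Fintype V] [DecidableEq V] {S : Shadow V}

omit [Fintype V] [DecidableEq V] in
private theorem kp_alpha (S : Shadow V) (s : V → St) (x : Dart V) : Piece S s x (S.α x) :=
  Relation.EqvGen.rel _ _ (Or.inl rfl)

omit [Fintype V] [DecidableEq V] in
private theorem kp_rot (S : Shadow V) (s : V → St) (x : Dart V) : Piece S s x (rot s x) :=
  Relation.EqvGen.rel _ _ (Or.inr rfl)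

private theorem kp_isX : ∀ i : ZMod 4, (mrg i).isX = false := by decide

private theorem kp_next : ∀ i : ZMod 4, (mrg i).next i = i + 1 := by decide

private theorem kp_next2 : ∀ i : ZMod 4, (mrg i).next (i + 2) = i + 3 := by decide

private theorem kp_mate : ∀ i : ZMod 4, (mrg i).mate i = i + 1 := by decide

private theorem kp_mrg2 : ∀ i : ZMod 4, mrg (i + 2) = mrg i := by decide

private theorem kp_four : ∀ i j : ZMod 4, j = i ∨ j = i + 1 ∨ j = i + 2 ∨ j = i + 3 := by decide

/-- the state in which only `v` is smoothed -/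
private abbrev kp_s (v : V) (i : ZMod 4) : V → St := update (ov V) v (mrg i)

omit [Fintype V] in
private theorem kp_rot_v (v : V) (i : ZMod 4) : rot (kp_s v i) (v, i) = (v, i + 1) := by
  change ((v, (update (ov V) v (mrg i) v).next i) : Dart V) = _
  rw [update_self, kp_next]

omit [Fintype V] in
private theorem kp_rot_v2 (v : V) (i : ZMod 4) : rot (kp_s v i) (v, i + 2) = (v, i + 3) := by
  change ((v, (update (ov V) v (mrg i) v).next (i + 2)) : Dart V) = _
  rw [update_self, kp_next2]

omit [Fintype V] in
private theorem kp_rot_ne {v w : V} (i j : ZMod 4) (hw : w ≠ v) :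
    rot (kp_s v i) (w, j) = (w, j + 1) := by
  change ((w, (update (ov V) v (mrg i) w).next j) : Dart V) = _
  rw [update_of_ne hw]
  rfl

omit [Fintype V] in
private theorem kp_v1 (S : Shadow V) (v : V) (i : ZMod 4) :
    Piece S (kp_s v i) (v, i) (v, i + 1) := by
  have h := kp_rot S (kp_s v i) (v, i)
  rwa [kp_rot_v] at h

omit [Fintype V] in
private theorem kp_v2 (S : Shadow V) (v : V) (i : ZMod 4) :
    Piece S (kp_s v i) (v, i + 2) (v, i + 3) := by
  have h := kp_rot S (kp_s v i) (v, i + 2)
  rwa [kp_rot_v2] at h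

omit [Fintype V] in
private theorem kp_w (S : Shadow V) {v w : V} (i : ZMod 4) (hw : w ≠ v) (j : ZMod 4) :
    Piece S (kp_s v i) (w, 0) (w, j) := by
  have hk : ∀ k : ℕ, Piece S (kp_s v i) (w, 0) (w, (k : ZMod 4)) := by
    intro k
    induction k with
    | zero => rw [Nat.cast_zero]; exact Relation.EqvGen.refl _
    | succ k ih =>
      have h := kp_rot S (kp_s v i) (w, (k : ZMod 4))
      rw [kp_rot_ne i _ hw] at h
      rw [Nat.cast_add, Nat.cast_one]
      exact ih.trans _ _ _ h
  have h := hk j.val
  rwa [ZMod.natCast_zmod_val] at h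

private theorem kp_key (v : V) (i : ZMod 4) :
    (e_a (mrg i) v = (v, i + 3) ∧ e_b (mrg i) v = (v, i + 1)) ∨
      (e_a (mrg i) v = (v, i + 1) ∧ e_b (mrg i) v = (v, i + 3)) := by
  have h1 : ∀ i : ZMod 4, ((if mrg i = St.smA then (1 : ZMod 4) else 0) = i + 3 ∧
      (if mrg i = St.smA then (3 : ZMod 4) else 2) = i + 1) ∨
      ((if mrg i = St.smA then (1 : ZMod 4) else 0) = i + 1 ∧
      (if mrg i = St.smA then (3 : ZMod 4) else 2) = i + 3) := by decide
  have h2 : e_a (mrg i) v = (v, if mrg i = St.smA then (1 : ZMod 4) else 0) := by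
    unfold e_a
    split_ifs <;> rfl
  have h3 : e_b (mrg i) v = (v, if mrg i = St.smA then (3 : ZMod 4) else 2) := by
    unfold e_b
    split_ifs <;> rfl
  rw [h2, h3]
  rcases h1 i with ⟨a, b⟩ | ⟨a, b⟩
  · left; rw [a, b]; exact ⟨rfl, rfl⟩
  · right; rw [a, b]; exact ⟨rfl, rfl⟩

/-- the two sides are in different pieces -/
private theorem kp_not (hS : APD S) (v : V) (i : ZMod 4) (h : Face S (v, i) (v, i + 2)) :
    ¬ Piece S (kp_s v i) (v, i) (v, i + 2) := by
  have hv : (ov V v).isX = true := rfl
  have hq := kp_isX i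
  have hα : S.α⁻¹ = S.α := by
    rw [inv_eq_iff_mul_eq_one]
    exact Equiv.ext S.invol
  have h1 : rot (update (ov V) v (mrg i)) * S.α =
      (rot (ov V) * S.α) * Equiv.swap (S.α (e_a (mrg i) v)) (S.α (e_b (mrg i) v)) := by
    rw [e_rot_update hv hq, mul_assoc, mul_assoc]
    congr 1
    have := Equiv.mul_swap_eq_swap_mul S.α (S.α (e_a (mrg i) v)) (S.α (e_b (mrg i) v))
    rw [S.invol, S.invol] at this
    exact this.symm
  have hne : S.α (e_a (mrg i) v) ≠ S.α (e_b (mrg i) v) := fun h => e_ab (mrg i) v (S.α.injective h)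
  have hA : ∀ x, Face S (S.α x) (sg x) := fun x => ⟨1, by
    rw [zpow_one, faceP_apply, S.invol]⟩
  have h31 : ∀ i : ZMod 4, i + 3 + 1 = i := by decide
  have h11 : ∀ i : ZMod 4, i + 1 + 1 = i + 2 := by decide
  have hA3 : Face S (S.α (v, i + 3)) (v, i) := by
    have h2 := hA (v, i + 3)
    have h3 : sg ((v, i + 3) : Dart V) = (v, i) := by
      change ((v, i + 3 + 1) : Dart V) = _
      rw [h31]
    rwa [h3] at h2
  have hA1 : Face S (S.α (v, i + 1)) (v, i + 2) := by
    have h2 := hA (v, i + 1)
    have h3 : sg ((v, i + 1) : Dart V) = (v, i + 2) := by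
      change ((v, i + 1 + 1) : Dart V) = _
      rw [h11]
    rwa [h3] at h2
  have hF : Face S (S.α (v, i + 3)) (S.α (v, i + 1)) := (hA3.trans h).trans hA1.symm
  have hs : (rot (ov V) * S.α).SameCycle (S.α (e_a (mrg i) v)) (S.α (e_b (mrg i) v)) := by
    rcases kp_key v i with ⟨a, b⟩ | ⟨a, b⟩
    · rw [a, b]; exact hF
    · rw [a, b]; exact hF.symm
  have hc : cycles (rot (update (ov V) v (mrg i)) * S.α) = cycles (rot (ov V) * S.α) + 1 := by
    rw [h1]
    exact e_cycles_swap_of_same _ hne hs
  have hpl : Planar S (ov V) := hS.planar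
  have hp := e_planar_update hpl hv hq
  have hn := e_nX_update hv hq
  have hco := hS.conn
  unfold Planar at hp hpl
  rcases e_pieces_update S hv hq with ⟨hp1, _⟩ | ⟨_, hp2⟩
  · omega
  · intro hcon
    apply hp2
    have h1 := kp_v1 S v i
    have h2 := kp_v2 S v i
    have h3 : Piece S (kp_s v i) (v, i + 1) (v, i + 3) :=
      ((h1.symm _ _).trans _ _ _ hcon).trans _ _ _ h2
    rcases kp_key v i with ⟨a, b⟩ | ⟨a, b⟩
    · rw [a, b]; exact h3.symm _ _
    · rw [a, b]; exact h3
/-- the degree bound for all planar diagrams -/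
theorem Q_deg_le {s : V → St} (hp : Planar S s) (hn : 1 ≤ nX s) :
    DegLE (Q zL muL S s) ((nX s : ℤ) - 1) := by
  obtain ⟨F, hF, hQ⟩ := exists_fun zL_mul_muL hp
  rw [hQ s (fun _ _ => rfl)]
  exact deg_le hF hn

theorem Q_deg_le_two {s : V → St} (hp : Planar S s) {v w : V} {i j : ZMod 4} (hvw : v ≠ w)
    (hv : (s v).isX = true) (hw : (s w).isX = true) (ha : Arc S s (v, i) (w, j))
    (hup : (s v).upper i = (s w).upper j) : DegLE (Q zL muL S s) ((nX s : ℤ) - 2) := by
  obtain ⟨F, hF, hQ⟩ := exists_fun zL_mul_muL hp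
  rw [hQ s (fun _ _ => rfl)]
  exact deg_le_two hF hvw hv hw ha hup

private theorem kp_nX : nX (ov V) = Fintype.card V := by
  unfold nX
  rw [Finset.filter_true_of_mem (p := fun v => (ov V v).isX = true) (fun _ _ => rfl),
    Finset.card_univ]

private theorem kp_nX_sw (v : V) : nX (update (ov V) v St.over0) = Fintype.card V := by
  unfold nX
  rw [Finset.filter_true_of_mem, Finset.card_univ]
  intro w _
  by_cases hw : w = v
  · subst hw
    rw [update_self]
    rfl
  · rw [update_of_ne hw]
    rfl

private theorem kp_not02 (hS : APD S) (v : V) (c : ZMod 4) (h : Face S (v, c) (v, c + 2)) :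
    ¬ Piece S (update (ov V) v (mrg c)) (v, 0) (v, 2) := by
  have h0 := kp_not hS v c h
  have h1 := kp_v1 S v c
  have h2 := kp_v2 S v c
  intro h3
  apply h0
  have h4 : ∀ c : ZMod 4, c = 0 ∨ c = 1 ∨ c = 2 ∨ c = 3 := by decide
  rcases h4 c with rfl | rfl | rfl | rfl
  · exact h3
  · -- (1,2), (3,0)
    exact (h1.trans _ _ _ (h3.symm _ _)).trans _ _ _ ((show Piece S (kp_s v 1) (v, 3) (v, 0) from h2).symm _ _)
  · exact h3.symm _ _
  · have a1 : Piece S (kp_s v 3) (v, 3) (v, 0) := h1
    have a2 : Piece S (kp_s v 3) (v, 1) (v, 2) := h2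
    exact (a1.trans _ _ _ h3).trans _ _ _ (a2.symm _ _)

theorem kap_nug (hS : APD S) (hn : 2 ≤ Fintype.card V) {v : V} (hv : Nugat S v) :
    kap S = 0 := by
  obtain ⟨c, hc⟩ := hv
  obtain ⟨F, hF, hQ⟩ := exists_fun zL_mul_muL (show Planar S (ov V) from hS.planar)
  have h1 := deg_nug hF (show Planar S (ov V) from hS.planar) (v := v) rfl (kp_isX c)
    (kp_not02 hS v c hc) (by rw [kp_nX]; exact hn)
  unfold kap
  rw [hQ (ov V) (fun _ _ => rfl)]
  apply h1
  rw [kp_nX]
  linarith

private theorem kp_alt (hS : APD S) (x : Dart V) : par (S.α x).2 ≠ par x.2 := hS.alt x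

/-- some dart of `v` leads to another vertex -/
private theorem kp_out (hS : APD S) (hn : 2 ≤ Fintype.card V) (v : V) :
    ∃ i, (S.α (v, i)).1 ≠ v := by
  by_contra hcon
  push Not at hcon
  obtain ⟨w, hw⟩ := Fintype.exists_ne_of_one_lt_card (by omega) v
  have hc := hS.conn
  have hP : Piece S (ov V) (v, 0) (w, 0) := by
    unfold pieces classes at hc
    have h1 : Subsingleton (Quotient (Relation.EqvGen.setoid
        (fun x y : Dart V => y = S.α x ∨ y = rot (ov V) x))) := by
      have h2 := (Nat.card_eq_one_iff_unique.mp hc).1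
      exact h2
    have h3 : (Quotient.mk (Relation.EqvGen.setoid
        (fun x y : Dart V => y = S.α x ∨ y = rot (ov V) x)) (v, 0)) =
        Quotient.mk _ (w, 0) := Subsingleton.elim _ _
    exact Quotient.exact h3
  have key : ∀ x y : Dart V, Piece S (ov V) x y → (x.1 = v ↔ y.1 = v) := by
    intro x y h
    induction h with
    | rel a b h =>
      rcases h with h | h
      · rw [h]
        constructor
        · intro ha
          have := hcon a.2
          rw [← ha] at this
          rw [← ha]
          exact this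
        · intro hb
          have h2 := hcon (S.α a).2
          have h3 : ((v, (S.α a).2) : Dart V) = S.α a := by rw [← hb]
          rw [h3, S.invol] at h2
          exact h2
      · rw [h]
        exact Iff.rfl
    | refl a => exact Iff.rfl
    | symm a b _ ih => exact ih.symm
    | trans a b c _ _ ih1 ih2 => exact ih1.trans ih2
  exact hw ((key _ _ hP).1 rfl)

theorem kap_rec (hS : APD S) (hn : 2 ≤ Fintype.card V) {v : V} {SA SB : Shadow {w : V // w ≠ v}}
    (hA : Erase S v 0 SA) (hB : Erase S v 1 SB) : kap S = kap SA + kap SB := by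
  have hp : Planar S (ov V) := hS.planar
  have hsk := Q_skein zL_mul_muL hp v rfl
  have hqA : Q zL muL S (update (ov V) v St.smA) = Q zL muL SA (ov _) :=
    hA.q LP zL muL zL_mul_muL
  have hqB : Q zL muL S (update (ov V) v St.smB) = Q zL muL SB (ov _) :=
    hB.q LP zL muL zL_mul_muL
  rw [hqA, hqB] at hsk
  have hswe : (ov V v).sw = St.over0 := rfl
  rw [hswe] at hsk
  obtain ⟨i, hi⟩ := kp_out hS hn v
  have hp' : Planar S (update (ov V) v St.over0) := by
    apply Planar.below hp
    intro w hw
    exact absurd hw (by simp [St.isX])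
  have hdeg : DegLE (Q zL muL S (update (ov V) v St.over0)) ((Fintype.card V : ℤ) - 2) := by
    rw [← kp_nX_sw v]
    have e1 : (update (ov V) v St.over0) v = St.over0 := update_self _ _ _
    have e2 : (update (ov V) v St.over0) (S.α (v, i)).1 = St.over1 := update_of_ne hi _ _
    apply Q_deg_le_two hp' (v := v) (w := (S.α (v, i)).1) (i := i) (j := (S.α (v, i)).2)
      (fun h => hi h.symm)
    · rw [e1]; rfl
    · rw [e2]; rfl
    · exact Relation.EqvGen.rel _ _ (Or.inl rfl)
    · rw [e1, e2]
      have h1 := hS.alt (v, i)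
      have h2 : ∀ a b : ZMod 4, par b ≠ par a → St.over0.upper a = St.over1.upper b := by decide
      exact h2 _ _ h1
  have hco := congrArg (fun f => cf1 f ((Fintype.card V : ℤ) - 1)) hsk
  simp only [cf1_add, cf1_zL_mul] at hco
  rw [hdeg _ (by linarith), add_zero] at hco
  have hcard : ((Fintype.card {w : V // w ≠ v} : ℕ) : ℤ) = (Fintype.card V : ℤ) - 1 := by
    have h1 : Fintype.card {w : V // w ≠ v} = Fintype.card V - 1 := by
      rw [Fintype.card_subtype_compl (fun w => w = v)]
      simp
    rw [h1]
    have h2 : 1 ≤ Fintype.card V := by omega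
    push_cast [Nat.cast_sub h2]
    ring
  unfold kap
  rw [hco, hcard]


theorem kap_one (hS : APD S) (hn : Fintype.card V = 1) : kap S = 1 := by
  obtain ⟨v, hv⟩ := Fintype.card_eq_one_iff.mp hn
  have hp : Planar S (ov V) := hS.planar
  have hd : ∀ i : ZMod 4, (S.α (v, i)).1 = v := fun i => hv _
  have hd' : ∀ i : ZMod 4, S.α (v, i) = (v, (S.α (v, i)).2) := fun i => Prod.ext (hd i) rfl
  have key : ∀ i : ZMod 4, S.α (v, i) = (v, i + 1) → kap S = 1 := by
    intro i hi
    have hj : S.α (v, i + 2) = (v, i + 3) := by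
      have h4 : ∀ a b : ZMod 4, b = a ∨ b = a + 1 ∨ b = a + 2 ∨ b = a + 3 := by decide
      have h20 : ∀ a : ZMod 4, a + 2 ≠ a := by decide
      have h21 : ∀ a : ZMod 4, a + 2 ≠ a + 1 := by decide
      rcases h4 i (S.α (v, i + 2)).2 with h | h | h | h
      · exfalso
        have h1 := hd' (i + 2)
        rw [h] at h1
        have h2 := S.invol (v, i + 2)
        rw [h1, hi] at h2
        exact h21 i (congrArg Prod.snd h2).symm
      · exfalso
        have h1 := hd' (i + 2)
        rw [h] at h1
        have h2 := S.invol (v, i + 2)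
        have h3 := S.invol (v, i)
        rw [hi] at h3
        rw [h1, h3] at h2
        exact h20 i (congrArg Prod.snd h2).symm
      · exfalso
        have h1 := hd' (i + 2)
        rw [h] at h1
        exact S.noFix _ h1
      · have h1 := hd' (i + 2)
        rw [h] at h1
        exact h1
    have h1 := Q_R1 zL_mul_muL hp v i rfl (Relation.EqvGen.rel _ _ (Or.inl hi.symm))
    have hup : (update (ov V) v (St.turn i)) v = St.turn i := update_self _ _ _
    have h0 : nX (update (ov V) v (St.turn i)) = 0 := by
      unfold nX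
      rw [Finset.card_eq_zero, Finset.filter_eq_empty_iff]
      intro w _
      rw [hv w, hup]
      have h5 : ∀ i : ZMod 4, ¬ (St.turn i).isX = true := by decide
      exact h5 i
    have h2 := Q_empty (S := S) zL_mul_muL h0
    have hcc : comps S (update (ov V) v (St.turn i)) = 1 := by
      unfold comps classes
      rw [Nat.card_eq_one_iff_unique]
      refine ⟨⟨?_⟩, ⟨Quotient.mk _ (v, 0)⟩⟩
      have hall : ∀ x : Dart V, Comp S (update (ov V) v (St.turn i)) (v, i) x := by
        intro x
        have e1 : Comp S (update (ov V) v (St.turn i)) (v, i) (v, i + 1) :=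
          Relation.EqvGen.rel _ _ (Or.inl hi.symm)
        have e2 : Comp S (update (ov V) v (St.turn i)) (v, i + 1) (v, i + 2) := by
          apply Relation.EqvGen.rel
          right
          show ((v, i + 2) : Dart V) = (v, ((update (ov V) v (St.turn i)) v).mate (i + 1))
          rw [hup]
          have h5 : ∀ i : ZMod 4, (St.turn i).mate (i + 1) = i + 2 := by decide
          rw [h5]
        have e3 : Comp S (update (ov V) v (St.turn i)) (v, i + 2) (v, i + 3) :=
          Relation.EqvGen.rel _ _ (Or.inl hj.symm)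
        have h4 : ∀ a b : ZMod 4, b = a ∨ b = a + 1 ∨ b = a + 2 ∨ b = a + 3 := by decide
        obtain ⟨w, j⟩ := x
        obtain rfl := hv w
        rcases h4 i j with rfl | rfl | rfl | rfl
        · exact Relation.EqvGen.refl _
        · exact e1
        · exact e1.trans _ _ _ e2
        · exact (e1.trans _ _ _ e2).trans _ _ _ e3
      intro a b
      refine Quotient.inductionOn₂ a b ?_
      intro x y
      exact Quotient.sound (((hall x).symm _ _).trans _ _ _ (hall y))
    unfold kap
    rw [h1, h2, hcc, hn]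
    show cf1 (muL ^ 0) 0 = 1
    rw [pow_zero, cf1_one, if_pos rfl]
  have h6 := hS.alt (v, 0)
  have h7 : ∀ a : ZMod 4, par a ≠ par 0 → a = 1 ∨ a = 3 := by decide
  rcases h7 _ h6 with h | h
  · apply key 0
    rw [hd' 0, h]
    rfl
  · apply key 3
    have h1 := hd' 0
    rw [h] at h1
    have h2 := S.invol (v, 0)
    rw [h1] at h2
    exact h2

private theorem kp_card_pos (hS : APD S) : 1 ≤ Fintype.card V := by
  by_contra h
  have h1 : Fintype.card V = 0 := by omega
  have h2 : IsEmpty V := Fintype.card_eq_zero_iff.mp h1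
  have h3 := hS.conn
  unfold pieces classes at h3
  have h4 : IsEmpty (Quotient (Relation.EqvGen.setoid
      (fun x y : Dart V => y = S.α x ∨ y = rot (ov V) x))) := by
    constructor
    intro q
    refine Quotient.inductionOn q ?_
    intro x
    exact h2.elim x.1
  rw [Nat.card_of_isEmpty] at h3
  exact absurd h3 (by decide)

private theorem kp_card_sub (v : V) :
    Fintype.card {w : V // w ≠ v} = Fintype.card V - 1 := by
  rw [Fintype.card_subtype_compl (fun w => w = v)]
  simp

private theorem kp_both : ∀ (n : ℕ) (V : Type) [Fintype V] [DecidableEq V] (S : Shadow V),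
    APD S → Fintype.card V = n → 0 ≤ kap S ∧ (2 ≤ n → Even (kap S)) := by
  intro n
  induction n using Nat.strong_induction_on with
  | _ n ih =>
    intro V _ _ S hS hn
    have hpos := kp_card_pos hS
    by_cases h1 : n = 1
    · rw [kap_one hS (by omega)]
      exact ⟨by decide, fun h => by omega⟩
    have h2 : 2 ≤ Fintype.card V := by omega
    obtain ⟨v⟩ : Nonempty V := Fintype.card_pos_iff.mp (by omega)
    by_cases hv : Nugat S v
    · rw [kap_nug hS h2 hv]
      exact ⟨le_refl _, fun _ => Even.zero⟩
    · obtain ⟨SA, hA⟩ := exists_erase hS v 0 (fun h => hv ⟨0, h⟩) h2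
      obtain ⟨SB, hB⟩ := exists_erase hS v 1 (fun h => hv ⟨1, h⟩) h2
      rw [kap_rec hS h2 hA hB]
      have hc := kp_card_sub v
      have iA := ih (n - 1) (by omega) {w : V // w ≠ v} SA hA.apd (by rw [hc, hn])
      have iB := ih (n - 1) (by omega) {w : V // w ≠ v} SB hB.apd (by rw [hc, hn])
      refine ⟨add_nonneg iA.1 iB.1, fun _ => ?_⟩
      by_cases h3 : n = 2
      · rw [kap_one hA.apd (by omega), kap_one hB.apd (by omega)]
        exact ⟨1, rfl⟩
      · exact (iA.2 (by omega)).add (iB.2 (by omega))

theorem kap_nonneg (hS : APD S) : 0 ≤ kap S := (kp_both _ V S hS rfl).1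

theorem kap_even (hS : APD S) (hn : 2 ≤ Fintype.card V) : Even (kap S) :=
  (kp_both _ V S hS rfl).2 hn

end Pool.Agent.Helper65.LK
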