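import Pool.Agent.Helper65.LK.QPoly
import Pool.Agent.Helper65.LK.Deg

/-!
# LK-28. Kidwell's bound for the degree of the Q polynomial

`top_sweep`: let `r` be injective on the components and largest on the component of `x`; apply
`exists_sweep_order` with `B = {x, partner x} ∪ {all darts on the other components}`.  With
`P y = partner (tau y)` and `x_j = P ^ j x` the strands of the component of `x` are `x_0, ..., x_(m-1)`, and the
height changes by one along all arcs except the arc at `x = x_0`; as the heights are distinct, they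
are monotone: `h x_j = h x + j` or `h x_j = h x - j`.  In the second case the strand of `x` is the highest
one.  In the first case replace `h` by `h' y = (2 * h x + m - 1) - h y` on the component of `x`: the order
inside the component is reversed, its range is the same, `cut` (the set for `h'` at the level `k` of this
range is the image under `partner` of the set for `h` at a reflected level) and `sep` remain true.
(Here the explicit construction of LK-06 is copied; `kw_reflect` exchanges top and bottom.)
`top_sweep_two`: the same with the base arc at `tau s x`, i.e. `x_0 = tau s x`, `x_1 = P x_0 = partner x = y`: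
the strand of `x` is the highest and the strand of `y` the second.  `bot_sweep_two`: `r` smallest on the
component of `x`, and the strand of `x` the lowest one.

`deg_le`: claim for all `t` below `s` with `t v = s v`: `DegLE (F t) (nX t - 1)`; induction on `nX t`.  Let
`x` be a dart at `v` with `(s v).upper x.2 = true` and `h` a sweep of `(S, t)` with the strand of `x` on the
top; then `p = pat t h` has `p v = t v` and `F p = muL ^ _` has degree `≤ 0 ≤ nX t - 1`.  All states of the
same shape as `t` with `t v = s v` are reached from `p` by crossing changes at `u ≠ v`, and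
`F t + F (update t u (t u).sw) = zL * (F (t, u : smA) + F (t, u : smB))` has degree `≤ 1 + (nX t - 2)`.

`deg_le_two`: the same with `t v = s v`, `t w = s w` and the bound `nX t - 2`; `h` is a sweep whose two
highest (if `(s v).upper i = true`) or lowest strands are those of `(v, i)` and `(w, j)`.  The arc from
`(v, i)` to `(w, j)` persists when other crossings are smoothed.
-/

namespace Pool.Agent.Helper65.LK

open Function

section TwoInv

variable {T : Type} {b t : T → T}

/-- the composition of the two involutions -/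
private def kwBt (b t : T → T) (x : T) : T := b (t x)

private theorem kwBt_inj (hb : ∀ x, b (b x) = x) (ht : ∀ x, t (t x) = x) :
    Function.Injective (kwBt b t) := by
  intro x y h
  have h1 : b (b (t x)) = b (b (t y)) := congrArg b h
  rw [hb, hb] at h1
  rw [← ht x, h1, ht]

private theorem kwBt_t (hb : ∀ x, b (b x) = x) (ht : ∀ x, t (t x) = x) (x : T) :
    kwBt b t (t (kwBt b t x)) = t x := by
  unfold kwBt
  rw [ht, hb]

private theorem kw_iter_ne1 (hb : ∀ x, b (b x) = x) (ht : ∀ x, t (t x) = x) (hbn : ∀ x, b x ≠ x)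
    (htn : ∀ x, t x ≠ x) (n : ℕ) : ∀ x, (kwBt b t)^[n] x ≠ t x := by
  induction n using Nat.strong_induction_on with
  | _ n ih =>
    intro x h
    rcases n with _ | _ | n
    · exact htn x h.symm
    · exact hbn (t x) h
    · rw [Function.iterate_succ_apply', Function.iterate_succ_apply, ← kwBt_t hb ht x] at h
      exact ih n (by omega) _ (kwBt_inj hb ht h)

private theorem kw_iter_ne2 (hb : ∀ x, b (b x) = x) (ht : ∀ x, t (t x) = x)
    (hbn : ∀ x, b x ≠ x) (htn : ∀ x, t x ≠ x) (i j : ℕ) (p : T) :
    (kwBt b t)^[i] p ≠ t ((kwBt b t)^[j] p) := by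
  have key : ∀ i j : ℕ, j ≤ i → (kwBt b t)^[i] p ≠ t ((kwBt b t)^[j] p) := by
    intro i j hij h
    obtain ⟨d, rfl⟩ : ∃ d, i = d + j := ⟨i - j, by omega⟩
    rw [Function.iterate_add_apply] at h
    exact kw_iter_ne1 hb ht hbn htn d _ h
  intro h
  rcases le_total j i with hij | hij
  · exact key i j hij h
  · apply key j i hij
    rw [h, ht]

/-- the label `j` of a point `z` of the orbit of `p` -/
private def KwLab (b t : T → T) (p z : T) (j : ℕ) : Prop :=
  j < Function.minimalPeriod (kwBt b t) p ∧ (z = (kwBt b t)^[j] p ∨ z = t ((kwBt b t)^[j] p))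

private theorem KwLab.unique (hb : ∀ x, b (b x) = x) (ht : ∀ x, t (t x) = x) (hbn : ∀ x, b x ≠ x)
    (htn : ∀ x, t x ≠ x) {p z : T} {i j : ℕ} (hi : KwLab b t p z i) (hj : KwLab b t p z j) :
    i = j := by
  have key : (kwBt b t)^[i] p = (kwBt b t)^[j] p := by
    rcases hi.2 with h1 | h1 <;> rcases hj.2 with h2 | h2
    · rw [← h1, ← h2]
    · exact absurd (h1.symm.trans h2) (kw_iter_ne2 hb ht hbn htn i j p)
    · exact absurd (h2.symm.trans h1) (kw_iter_ne2 hb ht hbn htn j i p)
    · have h3 := h1.symm.trans h2
      have h4 := congrArg t h3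
      rwa [ht, ht] at h4
  exact (Function.iterate_eq_iterate_iff_of_lt_minimalPeriod hi.1 hj.1).mp key

variable [Finite T]

private theorem kw_period_pos (hb : ∀ x, b (b x) = x) (ht : ∀ x, t (t x) = x) (p : T) :
    0 < Function.minimalPeriod (kwBt b t) p :=
  Function.minimalPeriod_pos_of_mem_periodicPts
    (Function.Injective.mem_periodicPts (kwBt_inj hb ht) p)

private theorem kw_exists_lab (hb : ∀ x, b (b x) = x) (ht : ∀ x, t (t x) = x) (p : T) (k : ℕ)
    (z : T) (hz : z = (kwBt b t)^[k] p ∨ z = t ((kwBt b t)^[k] p)) : ∃ j, KwLab b t p z j := by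
  refine ⟨k % Function.minimalPeriod (kwBt b t) p, Nat.mod_lt _ (kw_period_pos hb ht p), ?_⟩
  rwa [Function.iterate_mod_minimalPeriod_eq]

private theorem kw_orbit_lab (hb : ∀ x, b (b x) = x) (ht : ∀ x, t (t x) = x) (p : T) {x y : T}
    (h : Relation.EqvGen (fun x y => y = b x ∨ y = t x) x y) :
    (∃ j, KwLab b t p x j) ↔ ∃ j, KwLab b t p y j := by
  have key_t : ∀ x, (∃ j, KwLab b t p x j) → ∃ j, KwLab b t p (t x) j := by
    rintro x ⟨j, -, h | h⟩
    · exact kw_exists_lab hb ht p j _ (Or.inr (by rw [h]))
    · exact kw_exists_lab hb ht p j _ (Or.inl (by rw [h, ht]))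
  have key_b : ∀ x, (∃ j, KwLab b t p x j) → ∃ j, KwLab b t p (b x) j := by
    rintro x ⟨j, hj, h | h⟩
    · rcases j with _ | j
      · obtain ⟨m, hm⟩ : ∃ m, Function.minimalPeriod (kwBt b t) p = m + 1 :=
          ⟨Function.minimalPeriod (kwBt b t) p - 1, by omega⟩
        have h1 : (kwBt b t)^[m + 1] p = p := by
          rw [← hm]; exact Function.iterate_minimalPeriod
        refine kw_exists_lab hb ht p m _ (Or.inr ?_)
        rw [Function.iterate_succ_apply'] at h1
        have h2 : x = kwBt b t ((kwBt b t)^[m] p) := by rw [h1]; exact h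
        rw [h2]
        exact hb _
      · refine kw_exists_lab hb ht p j _ (Or.inr ?_)
        rw [h, Function.iterate_succ_apply']
        exact hb _
    · refine kw_exists_lab hb ht p (j + 1) _ (Or.inl ?_)
      rw [h, Function.iterate_succ_apply']
      rfl
  induction h with
  | rel x y hxy =>
    rcases hxy with rfl | rfl
    · exact ⟨key_b x, fun h => by have := key_b _ h; rwa [hb] at this⟩
    · exact ⟨key_t x, fun h => by have := key_t _ h; rwa [ht] at this⟩
  | refl x => exact Iff.rfl
  | symm x y _ ih => exact ih.symm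
  | trans x y z _ _ ih1 ih2 => exact ih1.trans ih2

/-- the heights for two involutions without fixed points, `p` is a lowest point -/
private theorem kw_core (hb : ∀ x, b (b x) = x) (ht : ∀ x, t (t x) = x) (hbn : ∀ x, b x ≠ x)
    (htn : ∀ x, t x ≠ x) (r : T → ℕ)
    (hr : ∀ x y, Relation.EqvGen (fun x y => y = b x ∨ y = t x) x y ↔ r x = r y) (p : T)
    (hp : ∀ x, r p ≤ r x) :
    ∃ h : T → ℕ, (∀ x, h (t x) = h x) ∧ (∀ x y, h x = h y → y = x ∨ y = t x) ∧
      (∀ k, {x | h x ≤ k ∧ k < h (b x)}.ncard ≤ 2) ∧
      (∀ x y z, h x < h y → h y < h z → r x = r z → r x = r y) ∧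
      (∀ x, h p ≤ h x) ∧ h (b (t p)) ≤ h p + 1 := by
  classical
  have hex : ∀ n, ∃ y : T, ((∃ x, r x = n) → r y = n) ∧ (r p = n → y = p) := by
    intro n
    by_cases hn : r p = n
    · exact ⟨p, fun _ => hn, fun _ => rfl⟩
    · by_cases hn' : ∃ x, r x = n
      · obtain ⟨x, hx⟩ := hn'
        exact ⟨x, fun _ => hx, fun h => absurd h hn⟩
      · exact ⟨p, fun h => absurd h hn', fun h => absurd h hn⟩
  choose g hg using hex
  have hgr : ∀ x, r (g (r x)) = r x := fun x => (hg (r x)).1 ⟨x, rfl⟩
  have hgp : g (r p) = p := (hg (r p)).2 rfl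
  obtain ⟨N, hN⟩ := (Set.finite_range fun p => Function.minimalPeriod (kwBt b t) p).bddAbove
  have hN' : ∀ p, Function.minimalPeriod (kwBt b t) p ≤ N := fun p => hN ⟨p, rfl⟩
  have hlab : ∀ x, ∃ j, KwLab b t (g (r x)) x j := by
    intro x
    have h1 := (hr (g (r x)) x).mpr (hgr x)
    rw [← kw_orbit_lab hb ht (g (r x)) h1]
    exact kw_exists_lab hb ht _ 0 _ (Or.inl rfl)
  choose J hJ using hlab
  have hrt : ∀ x, r (t x) = r x := fun x =>
    ((hr x (t x)).mp (Relation.EqvGen.rel _ _ (Or.inr rfl))).symm
  have hrb : ∀ x, r (b x) = r x := fun x =>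
    ((hr x (b x)).mp (Relation.EqvGen.rel _ _ (Or.inl rfl))).symm
  have hJeq : ∀ x p j, p = g (r x) → KwLab b t p x j → J x = j := by
    rintro x p j rfl h
    exact (hJ x).unique hb ht hbn htn h
  have hJN : ∀ x, J x < N := fun x => lt_of_lt_of_le (hJ x).1 (hN' _)
  have hNpos : 0 < N := lt_of_le_of_lt (Nat.zero_le _) (hJN p)
  have hlt : ∀ x y, r x < r y → N * r x + J x < N * r y + J y := by
    intro x y hxy
    have h1 := Nat.mul_le_mul_left N (Nat.succ_le_of_lt hxy)
    rw [Nat.mul_succ] at h1
    have h2 := hJN x
    omega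
  -- the four kinds of arcs
  have hstep : ∀ x, (x = g (r x) ∧ J x = 0) ∨ (b x = g (r x) ∧ J (b x) = 0) ∨
      (x = t ((kwBt b t)^[J x] (g (r x))) ∧ J (b x) = J x + 1) ∨ J x = J (b x) + 1 := by
    intro x
    have hp := kw_period_pos hb ht (g (r x))
    obtain ⟨h1, h2 | h2⟩ := hJ x
    · rcases hj : J x with _ | j
      · left
        rw [hj] at h2
        exact ⟨h2, rfl⟩
      · right; right; right
        rw [hj] at h1 h2
        have h3 : J (b x) = j := by
          refine hJeq (b x) (g (r x)) j (by rw [hrb]) ⟨by omega, Or.inr ?_⟩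
          conv_lhs => rw [h2, Function.iterate_succ_apply']
          exact hb _
        rw [h3]
    · have h3 : b x = (kwBt b t)^[J x + 1] (g (r x)) := by
        conv_lhs => rw [h2]
        rw [Function.iterate_succ_apply']
        rfl
      by_cases h4 : J x + 1 < Function.minimalPeriod (kwBt b t) (g (r x))
      · right; right; left
        exact ⟨h2, hJeq (b x) (g (r x)) _ (by rw [hrb]) ⟨h4, Or.inl h3⟩⟩
      · right; left
        have h5 : J x + 1 = Function.minimalPeriod (kwBt b t) (g (r x)) := by omega
        rw [h5, Function.iterate_minimalPeriod] at h3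
        exact ⟨h3, hJeq (b x) (g (r x)) _ (by rw [hrb]) ⟨hp, Or.inl h3⟩⟩
  have hJp : J p = 0 := hJeq p p 0 hgp.symm ⟨kw_period_pos hb ht p, Or.inl rfl⟩
  refine ⟨fun x => N * r x + J x, ?_, ?_, ?_, ?_, ?_, ?_⟩
  · intro x
    have h1 : J (t x) = J x := by
      refine hJeq (t x) (g (r x)) _ (by rw [hrt]) ⟨(hJ x).1, ?_⟩
      rcases (hJ x).2 with h2 | h2
      · right
        rw [← h2]
      · left
        conv_lhs => rw [h2]
        rw [ht]
    simp only [hrt, h1]
  · intro x y hxy
    simp only at hxy
    have h1 : r x = r y := by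
      rcases lt_trichotomy (r x) (r y) with h | h | h
      · have := hlt x y h; omega
      · exact h
      · have := hlt y x h; omega
    have h2 : J x = J y := by rw [h1] at hxy; omega
    have hx := (hJ x).2
    have hy := (hJ y).2
    rw [← h1, ← h2] at hy
    rcases hx with hx | hx <;> rcases hy with hy | hy
    · left; rw [hx, ← hy]
    · right; rw [← hx] at hy; exact hy
    · right
      rw [← hy] at hx
      rw [hx, ht]
    · left; rw [hx, ← hy]
  · intro k
    have hsub : {x | N * r x + J x ≤ k ∧ k < N * r (b x) + J (b x)} ⊆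
        {g (k / N), t ((kwBt b t)^[k % N] (g (k / N)))} := by
      rintro x ⟨h1, h2⟩
      rw [hrb] at h2
      have h3 : k / N = r x := by
        apply Nat.div_eq_of_lt_le
        · rw [mul_comm]; omega
        · have := hJN (b x)
          rw [Nat.succ_mul, mul_comm (r x)]
          omega
      have h4 : N * (k / N) + k % N = k := Nat.div_add_mod k N
      rw [h3] at h4
      rw [h3]
      rcases hstep x with h | h | h | h
      · left; exact h.1
      · exfalso; omega
      · right
        have h5 : k % N = J x := by omega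
        rw [h5]
        exact h.1
      · exfalso; omega
    calc _ ≤ ({g (k / N), t ((kwBt b t)^[k % N] (g (k / N)))} : Set T).ncard :=
          Set.ncard_le_ncard hsub (Set.toFinite _)
      _ ≤ 2 := by
          refine (Set.ncard_insert_le _ _).trans ?_
          rw [Set.ncard_singleton]
  · intro x y z hxy hyz hxz
    simp only at hxy hyz
    rcases lt_trichotomy (r x) (r y) with h | h | h
    · have := hlt z y (hxz ▸ h)
      omega
    · exact h
    · have := hlt y x h
      omega
  · intro x
    simp only [hJp]
    have := Nat.mul_le_mul_left N (hp x)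
    omega
  · simp only [hrb, hrt, hJp]
    have h1 : J (b (t p)) ≤ 1 := by
      by_cases h2 : 1 < Function.minimalPeriod (kwBt b t) p
      · exact (hJeq (b (t p)) p 1 (by rw [hrb, hrt, hgp]) ⟨h2, Or.inl rfl⟩).le
      · have h3 : Function.minimalPeriod (kwBt b t) p = 1 := by
          have := kw_period_pos hb ht p
          omega
        have h4 : b (t p) = p := by
          have h5 := Function.iterate_minimalPeriod (f := kwBt b t) (x := p)
          rw [h3, Function.iterate_one] at h5
          exact h5
        rw [h4, hJp]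
        exact Nat.zero_le 1
    omega

end TwoInv

variable {V : Type} [Fintype V] [DecidableEq V] {S : Shadow V} {s : V → St}

omit [Fintype V] [DecidableEq V] in
private theorem kw_tau_tau (s : V → St) (x : Dart V) : tau s (tau s x) = x := by
  change (x.1, (s x.1).mate ((s x.1).mate x.2)) = x
  rw [St.mate_mate]

omit [Fintype V] [DecidableEq V] in
private theorem kw_tau_ne (s : V → St) (x : Dart V) : tau s x ≠ x := by
  intro h
  have h2 := congrArg Prod.snd h
  exact St.mate_ne (s x.1) x.2 h2

omit [DecidableEq V] in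
/-- a sweep with the strand of `p` at the bottom; the next strand in the direction of `tau s p`
is the second one (or the same) -/
private theorem kw_bot (S : Shadow V) (s : V → St) (p : Dart V) (hp : isC s p) :
    ∃ h, Sweep S s h ∧ (∀ z, isC s z → h p ≤ h z) ∧
      h (partner (Cr s) S s (tau s p)) ≤ h p + 1 := by
  classical
  -- the numbers of the components
  let Q := Quotient (Relation.EqvGen.setoid fun x y : Dart V => y = S.α x ∨ y = tau s x)
  let e : Q ≃ Fin (Nat.card Q) := Finite.equivFin Q
  let r : Dart V → ℕ := fun x => if Comp S s p x then 0 else (e (Quotient.mk _ x)).val + 1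
  have hr : ∀ x y, isC s x → isC s y → (Comp S s x y ↔ r x = r y) := by
    intro x y _ _
    by_cases h1 : Comp S s p x <;> by_cases h2 : Comp S s p y
    · have h3 : r x = 0 := if_pos h1
      have h4 : r y = 0 := if_pos h2
      rw [h3, h4]
      exact ⟨fun _ => rfl, fun _ => (h1.symm).trans _ _ _ h2⟩
    · have h3 : r x = 0 := if_pos h1
      have h4 : r y = (e (Quotient.mk _ y)).val + 1 := if_neg h2
      rw [h3, h4]
      exact ⟨fun h => absurd (h1.trans _ _ _ h) h2, fun h => absurd h.symm (Nat.succ_ne_zero _)⟩
    · have h3 : r x = (e (Quotient.mk _ x)).val + 1 := if_neg h1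
      have h4 : r y = 0 := if_pos h2
      rw [h3, h4]
      exact ⟨fun h => absurd (h2.trans _ _ _ h.symm) h1, fun h => absurd h (Nat.succ_ne_zero _)⟩
    · have h3 : r x = (e (Quotient.mk _ x)).val + 1 := if_neg h1
      have h4 : r y = (e (Quotient.mk _ y)).val + 1 := if_neg h2
      rw [h3, h4]
      constructor
      · intro hxy
        have h5 : (Quotient.mk _ x : Q) = Quotient.mk _ y := Quotient.sound hxy
        rw [h5]
      · intro hxy
        have h5 := e.injective (Fin.ext (Nat.succ_injective hxy))
        exact Quotient.exact h5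
  have hrp : r p = 0 := if_pos (Relation.EqvGen.refl _)
  have hpp : ∀ x : {x : Dart V // Cr s x.1}, Cr s (partner (Cr s) S s x.1).1 := fun x =>
    (partner_spec (Cr s) S s x.1 x.2).1
  let b : {x : Dart V // Cr s x.1} → {x : Dart V // Cr s x.1} := fun x =>
    ⟨partner (Cr s) S s x.1, hpp x⟩
  let t : {x : Dart V // Cr s x.1} → {x : Dart V // Cr s x.1} := fun x => ⟨tau s x.1, x.2⟩
  have hb : ∀ x, b (b x) = x := fun x => Subtype.ext (partner_partner (Cr s) S s x.1 x.2)
  have ht : ∀ x, t (t x) = x := fun x => Subtype.ext (kw_tau_tau s x.1)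
  have hbn : ∀ x, b x ≠ x := fun x h =>
    (partner_spec (Cr s) S s x.1 x.2).2.1 (congrArg Subtype.val h)
  have htn : ∀ x, t x ≠ x := fun x h => kw_tau_ne s x.1 (congrArg Subtype.val h)
  have hgen : (fun x y : {x : Dart V // Cr s x.1} => y = b x ∨ y = t x) =
      genU (Cr s) S s (tau s) := by
    funext x y
    exact propext (or_congr Subtype.ext_iff Subtype.ext_iff)
  have hcomp : ∀ x y : {x : Dart V // Cr s x.1},
      Relation.EqvGen (fun x y : {x : Dart V // Cr s x.1} => y = b x ∨ y = t x) x y ↔
        Comp S s x.1 y.1 := by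
    intro x y
    rw [hgen]
    exact (gen_iff (Cr s) S s (tau s) (fun _ => rfl) (fun _ _ => rfl) x y).symm
  obtain ⟨h, h1, h2, h3, h4, h5, h6⟩ := kw_core hb ht hbn htn (fun x => r x.1)
    (fun x y => (hcomp x y).trans (hr x.1 y.1 x.2 y.2)) ⟨p, hp⟩
    (fun x => by rw [hrp]; exact Nat.zero_le _)
  let H : Dart V → ℕ := fun x => if hx : isC s x then h ⟨x, hx⟩ else 0
  have hH : ∀ x (hx : isC s x), H x = h ⟨x, hx⟩ := fun x hx => dif_pos hx
  have hHb : ∀ x (hx : isC s x), H (partner (Cr s) S s x) = h (b ⟨x, hx⟩) := fun x hx =>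
    hH _ (hpp ⟨x, hx⟩)
  refine ⟨H, ⟨?_, ?_, ?_, ?_⟩, ?_, ?_⟩
  · intro x hx
    rw [hH x hx, hH (tau s x) hx]
    exact h1 ⟨x, hx⟩
  · intro x y hx hy hxy
    rw [hH x hx, hH y hy] at hxy
    rcases h2 _ _ hxy with h7 | h7
    · exact Or.inl (congrArg Subtype.val h7)
    · exact Or.inr (congrArg Subtype.val h7)
  · intro k
    have hset : {x : Dart V | isC s x ∧ H x ≤ k ∧ k < H (partner (Cr s) S s x)} =
        Subtype.val '' {x : {x : Dart V // Cr s x.1} | h x ≤ k ∧ k < h (b x)} := by
      ext x
      constructor
      · rintro ⟨hx, h7, h8⟩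
        rw [hH x hx] at h7
        rw [hHb x hx] at h8
        exact ⟨⟨x, hx⟩, ⟨h7, h8⟩, rfl⟩
      · rintro ⟨⟨y, hy⟩, ⟨h7, h8⟩, rfl⟩
        refine ⟨hy, ?_, ?_⟩
        · rw [hH y hy]; exact h7
        · rw [hHb y hy]; exact h8
    rw [hset, Set.ncard_image_of_injective _ Subtype.val_injective]
    exact h3 k
  · intro x y z hx hy hz hxy hyz hxz
    rw [hH x hx, hH y hy] at hxy
    rw [hH y hy, hH z hz] at hyz
    exact (hr x y hx hy).mpr (h4 ⟨x, hx⟩ ⟨y, hy⟩ ⟨z, hz⟩ hxy hyz ((hr x z hx hz).mp hxz))
  · intro z hz
    rw [hH p hp, hH z hz]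
    exact h5 ⟨z, hz⟩
  · rw [hH p hp, hHb (tau s p) hp]
    exact h6

omit [DecidableEq V] in
/-- the reflected sweep -/
private theorem kw_reflect {S : Shadow V} {s : V → St} {h : Dart V → ℕ} (hS : Sweep S s h) :
    ∃ h', Sweep S s h' ∧ ∀ x y, h' x < h' y ↔ h y < h x := by
  obtain ⟨M, hM⟩ := (Set.finite_range h).bddAbove
  have hM' : ∀ x, h x ≤ M := fun x => hM ⟨x, rfl⟩
  refine ⟨fun x => M - h x, ⟨?_, ?_, ?_, ?_⟩, ?_⟩
  · intro x hx
    simp only [hS.const x hx]
  · intro x y hx hy hxy
    refine hS.inj x y hx hy ?_
    have := hM' x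
    have := hM' y
    omega
  · intro k
    rcases lt_or_ge k M with hk | hk
    · refine le_trans (Set.ncard_le_ncard_of_injOn (partner (Cr s) S s) ?_ ?_
        (Set.toFinite _)) (hS.cut (M - k - 1))
      · rintro x ⟨hx, h1, h2⟩
        have h3 := hM' x
        have h4 := hM' (partner (Cr s) S s x)
        refine ⟨(partner_spec (Cr s) S s x hx).1, ?_, ?_⟩
        · omega
        · rw [partner_partner (Cr s) S s x hx]
          omega
      · rintro x ⟨hx, -, -⟩ y ⟨hy, -, -⟩ hxy
        rw [← partner_partner (Cr s) S s x hx, hxy, partner_partner (Cr s) S s y hy]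
    · have h1 : {x : Dart V | isC s x ∧ M - h x ≤ k ∧ k < M - h (partner (Cr s) S s x)} = ∅ := by
        ext x
        constructor
        · rintro ⟨-, -, h2⟩
          omega
        · intro h2
          exact absurd h2 (Set.notMem_empty x)
      simp only [h1, Set.ncard_empty]
      exact Nat.zero_le 2
  · intro x y z hx hy hz hxy hyz hxz
    have h1 := hM' x
    have h2 := hM' y
    have h3 := hM' z
    have h4 := hS.sep z y x hz hy hx (by omega) (by omega) (Relation.EqvGen.symm _ _ hxz)
    exact Relation.EqvGen.trans _ _ _ hxz h4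
  · intro x y
    have h1 := hM' x
    have h2 := hM' y
    show M - h x < M - h y ↔ h y < h x
    omega

/-- a sweep with the strand of `x` on the top -/
theorem top_sweep (S : Shadow V) (s : V → St) (x : Dart V) (hx : isC s x) :
    ∃ h, Sweep S s h ∧ ∀ y, isC s y → y ≠ x → y ≠ tau s x → h y < h x := by
  obtain ⟨h, hS, h1, -⟩ := kw_bot S s x hx
  obtain ⟨h', hS', h2⟩ := kw_reflect hS
  refine ⟨h', hS', fun y hy hyx hyt => ?_⟩
  rw [h2]
  refine lt_of_le_of_ne (h1 y hy) fun h3 => ?_
  rcases hS.inj x y hx hy h3 with h4 | h4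
  · exact hyx h4
  · exact hyt h4

/-- a sweep with the strands of `x` and of `partner x` at the bottom -/
theorem bot_sweep_two (S : Shadow V) (s : V → St) (x y : Dart V) (hx : isC s x) (hy : isC s y)
    (hxy : x.1 ≠ y.1) (ha : Arc S s x y) :
    ∃ h, Sweep S s h ∧ ∀ z, isC s z → z ≠ x → z ≠ tau s x → z ≠ y → z ≠ tau s y →
      h x < h z ∧ h y < h z := by
  have hpy : partner (Cr s) S s x = y :=
    partner_eq (Cr s) S s x y hx hy (fun h => hxy (congrArg Prod.fst h).symm) ha
  obtain ⟨h, hS, h1, h2⟩ := kw_bot S s (tau s x) hx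
  rw [kw_tau_tau, hpy] at h2
  rw [hS.const x hx] at h1 h2
  refine ⟨h, hS, fun z hz z1 z2 z3 z4 => ?_⟩
  have h3 := h1 z hz
  have h4 : h x ≠ h z := by
    intro h5
    rcases hS.inj x z hx hz h5 with h6 | h6
    · exact z1 h6
    · exact z2 h6
  have h5 : h y ≠ h z := by
    intro h5
    rcases hS.inj y z hy hz h5 with h6 | h6
    · exact z3 h6
    · exact z4 h6
  constructor <;> omega

/-- a sweep with the strands of `x` and of `partner x` on the top -/
theorem top_sweep_two (S : Shadow V) (s : V → St) (x y : Dart V) (hx : isC s x) (hy : isC s y)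
    (hxy : x.1 ≠ y.1) (ha : Arc S s x y) :
    ∃ h, Sweep S s h ∧ ∀ z, isC s z → z ≠ x → z ≠ tau s x → z ≠ y → z ≠ tau s y →
      h z < h x ∧ h z < h y := by
  obtain ⟨h, hS, h1⟩ := bot_sweep_two S s x y hx hy hxy ha
  obtain ⟨h', hS', h2⟩ := kw_reflect hS
  refine ⟨h', hS', fun z hz z1 z2 z3 z4 => ?_⟩
  rw [h2, h2]
  exact h1 z hz z1 z2 z3 z4

private theorem kw_cases {x y : St} (h : x.shape = y.shape) (hne : x ≠ y) :
    x.isX = true ∧ y = x.sw := by
  revert h hne
  cases x <;> cases y <;> decide

private theorem kw_shape_eq {x y : St} (h : x.shape = y.shape) (hx : x.isX = false) : x = y := by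
  revert h hx
  cases x <;> cases y <;> decide

private theorem kw_shape_isX {x y : St} (h : x.shape = y.shape) : x.isX = y.isX := by
  revert h
  cases x <;> cases y <;> decide

private theorem kw_isX_shape {x y : St} (hx : x.isX = true) (hy : y.isX = true) :
    x.shape = y.shape := by
  revert hx hy
  cases x <;> cases y <;> decide

private theorem kw_sw_shape (x : St) : x.sw.shape = x.shape := by
  cases x <;> decide

omit [Fintype V] [DecidableEq V] in
private theorem kw_below_shape {t t' s : V → St} (h : SameShape t' t) (ht : Below t s) :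
    Below t' s := by
  intro v hv
  have h1 := ht v hv
  have h2 : t v = t' v := kw_shape_eq (h v).symm (by rw [h1]; exact hv)
  rw [← h2, h1]

omit [Fintype V] in
private theorem kw_below_update {t s : V → St} (h : Below t s) {v : V} (hv : (t v).isX = true)
    (x : St) : Below (update t v x) s := by
  intro w hw
  by_cases hwv : w = v
  · subst hwv
    have := h w hw
    rw [this, hw] at hv
    exact absurd hv (by decide)
  · rw [update_of_ne hwv]
    exact h w hw

omit [Fintype V] [DecidableEq V] in
private theorem kw_isX_of_below {s t : V → St} (ht : Below t s) {v : V} (hv : (t v).isX = true) :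
    (s v).isX = true := by
  by_contra h
  have h1 : (s v).isX = false := by simpa using h
  rw [ht v h1, h1] at hv
  exact absurd hv (by simp)

omit [DecidableEq V] in
private theorem kw_lt_or_shape {s t : V → St} (ht : Below t s) :
    nX t < nX s ∨ SameShape t s := by
  classical
  have hsub : (Finset.univ.filter fun v => (t v).isX = true) ⊆
      (Finset.univ.filter fun v => (s v).isX = true) := by
    intro v hv
    rw [Finset.mem_filter] at hv ⊢
    exact ⟨hv.1, kw_isX_of_below ht hv.2⟩
  by_cases h : nX t < nX s
  · exact Or.inl h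
  · right
    have heq : (Finset.univ.filter fun v => (t v).isX = true) =
        (Finset.univ.filter fun v => (s v).isX = true) :=
      Finset.eq_of_subset_of_card_le hsub (not_lt.1 h)
    intro v
    by_cases hv : (s v).isX = true
    · have : v ∈ Finset.univ.filter fun v => (t v).isX = true := by
        rw [heq, Finset.mem_filter]
        exact ⟨Finset.mem_univ _, hv⟩
      exact kw_isX_shape (Finset.mem_filter.1 this).2 hv
    · rw [ht v (by simpa using hv)]

private theorem kw_nX_update {t : V → St} {v : V} (hv : (t v).isX = true) {x : St}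
    (hx : x.isX = false) : nX (update t v x) + 1 = nX t := by
  unfold nX
  have h1 : (Finset.univ.filter fun w => (t w).isX = true) =
      insert v (Finset.univ.filter fun w => (update t v x w).isX = true) := by
    ext w
    rw [Finset.mem_insert, Finset.mem_filter, Finset.mem_filter]
    by_cases hwv : w = v
    · subst hwv
      rw [update_self]
      simp [hv]
    · rw [update_of_ne hwv]
      simp [hwv]
  rw [h1, Finset.card_insert_of_notMem]
  rw [Finset.mem_filter, update_self, hx]
  simp

/-- the value on a swept diagram -/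
private theorem kw_top {F : (V → St) → LP} (hF : IsSkein zL muL S s F (fun _ => True))
    {t : V → St} (ht : Below t s) {h : Dart V → ℕ} (hS : Sweep S t h) :
    F (pat t h) = muL ^ (comps S t - 1) := by
  rcases kw_lt_or_shape ht with hn | hn
  · exact hF.low t ht hn h hS
  · obtain ⟨e1, e2, e3, -⟩ := sweep_sameShape (S := S) hn h
    rw [e2, e3]
    exact hF.top h (e1.1 hS) trivial

/-- the general induction: the crossings in `W` are fixed -/
private theorem kw_gen {F : (V → St) → LP} (hF : IsSkein zL muL S s F (fun _ => True))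
    (W : Finset V) (hW : ∀ w ∈ W, (s w).isX = true)
    (hp : ∀ t, Below t s → (∀ w ∈ W, t w = s w) →
      ∃ h, Sweep S t h ∧ ∀ w ∈ W, pat t h w = s w) :
    ∀ n : ℕ, ∀ t, Below t s → (∀ w ∈ W, t w = s w) → nX t = n →
      DegLE (F t) ((n : ℤ) - W.card) := by
  classical
  intro n
  induction n using Nat.strong_induction_on with
  | _ n ih =>
    intro t ht htW hn
    have hcard : W.card ≤ n := by
      rw [← hn]
      unfold nX
      refine Finset.card_le_card fun w hw => ?_
      rw [Finset.mem_filter]
      refine ⟨Finset.mem_univ w, ?_⟩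
      rw [htW w hw]
      exact hW w hw
    obtain ⟨h, hS, hpW⟩ := hp t ht htW
    have h0 : DegLE (F (pat t h)) ((n : ℤ) - W.card) := by
      rw [kw_top hF ht hS]
      exact (degLE_muL_pow _).mono (by omega)
    have key : ∀ A : Finset V, ∀ t' : V → St, SameShape t' t → (∀ w ∈ W, t' w = s w) →
        (∀ v, v ∉ A → t' v = pat t h v) → DegLE (F t') ((n : ℤ) - W.card) := by
      intro A
      induction A using Finset.induction_on with
      | empty =>
        intro t' _ _ hout
        have : t' = pat t h := funext fun v => hout v (Finset.notMem_empty v)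
        rw [this]
        exact h0
      | insert a A ha ihA =>
        intro t' ht' ht'W hout
        by_cases hta : t' a = pat t h a
        · refine ihA t' ht' ht'W fun w hw => ?_
          by_cases hwa : w = a
          · rw [hwa, hta]
          · exact hout w (by rw [Finset.mem_insert]; push Not; exact ⟨hwa, hw⟩)
        · obtain ⟨hX, hpa⟩ := kw_cases ((ht' a).trans (pat_sameShape t h a).symm) hta
          have haW : a ∉ W := by
            intro haW
            rw [ht'W a haW, hpW a haW] at hta
            exact hta rfl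
          have hb : Below t' s := kw_below_shape ht' ht
          have hupdW : ∀ q : St, ∀ w ∈ W, update t' a q w = s w := by
            intro q w hw
            have hwa : w ≠ a := fun h => haW (h ▸ hw)
            rw [update_of_ne hwa]
            exact ht'W w hw
          have h1 := hF.skein t' hb a hX
          unfold SkeinAt at h1
          have h2 := ihA (update t' a (t' a).sw) (fun w => by
            by_cases hwa : w = a
            · subst hwa
              rw [update_self, kw_sw_shape, ht' w]
            · rw [update_of_ne hwa, ht' w]) (hupdW _) (fun w hw => by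
            by_cases hwa : w = a
            · rw [hwa, update_self, hpa]
            · rw [update_of_ne hwa]
              exact hout w (by rw [Finset.mem_insert]; push Not; exact ⟨hwa, hw⟩))
          have hn' : nX t' = n := by
            rw [(sweep_sameShape (S := S) ht' h).2.2.2.1, hn]
          have h3 : ∀ q : St, q.isX = false →
              DegLE (F (update t' a q)) ((n : ℤ) - 1 - W.card) := by
            intro q hq
            have h4 := kw_nX_update hX hq
            have h5 := ih (nX (update t' a q)) (by omega) (update t' a q)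
              (kw_below_update hb hX q) (hupdW q) rfl
            refine h5.mono ?_
            omega
          have h4 := ((h3 St.smA rfl).add (h3 St.smB rfl)).zL_mul
          rw [← h1] at h4
          have h5 := (h4.mono (d' := (n : ℤ) - W.card) (by omega)).sub h2
          rwa [add_sub_cancel_right] at h5
    exact key Finset.univ t (fun _ => rfl) htW fun v hv => absurd (Finset.mem_univ v) hv

/-- the strand of the dart `(v, i)` decides the crossing at `v` -/
private theorem kw_pat {t : V → St} {h : Dart V → ℕ} (hS : Sweep S t h) {v : V}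
    (hv : (t v).isX = true) {i : ZMod 4}
    (hi : if (t v).upper i = true then h (v, i + 1) < h (v, i) else h (v, i) < h (v, i + 1)) :
    pat t h v = t v := by
  have htau : ∀ j : ZMod 4, tau t (v, j) = (v, j + 2) := by
    intro j
    show (v, (t v).mate j) = (v, j + 2)
    revert hv
    cases t v <;> intro hv <;> first | rfl | exact absurd hv (by decide)
  have h2 : ∀ j : ZMod 4, h (v, j + 2) = h (v, j) := by
    intro j
    rw [← htau j]
    exact hS.const (v, j) hv
  have h02 : h (v, 2) = h (v, 0) := h2 0
  have h13 : h (v, 3) = h (v, 1) := h2 1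
  unfold pat
  rw [if_pos hv]
  have hi4 : i = 0 ∨ i = 1 ∨ i = 2 ∨ i = 3 :=
    (by decide : ∀ i : ZMod 4, i = 0 ∨ i = 1 ∨ i = 2 ∨ i = 3) i
  revert hv hi
  generalize t v = q
  intro hv hi
  have e1 : h (v, 0 + 1) = h (v, 1) := rfl
  have e2 : h (v, 1 + 1) = h (v, 0) := h02
  have e3 : h (v, 2 + 1) = h (v, 1) := h13
  have e4 : h (v, 3 + 1) = h (v, 0) := rfl
  cases q
  · rcases hi4 with rfl | rfl | rfl | rfl
    · rw [if_neg (by decide), e1] at hi
      rw [if_pos hi]
    · rw [if_pos (by decide), e2] at hi
      rw [if_pos hi]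
    · rw [if_neg (by decide), e3, h02] at hi
      rw [if_pos hi]
    · rw [if_pos (by decide), e4, h13] at hi
      rw [if_pos hi]
  · rcases hi4 with rfl | rfl | rfl | rfl
    · rw [if_pos (by decide), e1] at hi
      rw [if_neg (by omega)]
    · rw [if_neg (by decide), e2] at hi
      rw [if_neg (by omega)]
    · rw [if_pos (by decide), e3, h02] at hi
      rw [if_neg (by omega)]
    · rw [if_neg (by decide), e4, h13] at hi
      rw [if_neg (by omega)]
  · exact absurd hv (by decide)
  · exact absurd hv (by decide)

private theorem kw_exists_upper {q : St} (hq : q.isX = true) : ∃ i : ZMod 4, q.upper i = true := by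
  revert hq
  cases q <;> decide

private theorem kw_add_one (i : ZMod 4) : i + 1 ≠ i := by
  revert i
  decide

omit [Fintype V] [DecidableEq V] in
private theorem kw_ne_tau {t : V → St} {v : V} (hv : (t v).isX = true) (i : ZMod 4) :
    (v, i + 1) ≠ tau t (v, i) := by
  intro h
  have h1 : i + 1 = (t v).mate i := congrArg Prod.snd h
  have h2 : ∀ (q : St), q.isX = true → ∀ i : ZMod 4, i + 1 ≠ q.mate i := by
    intro q
    cases q <;> decide
  exact h2 (t v) hv i h1

/-- the general bound -/
theorem deg_le {F : (V → St) → LP} (hF : IsSkein zL muL S s F (fun _ => True))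
    (hn : 1 ≤ nX s) : DegLE (F s) ((nX s : ℤ) - 1) := by
  classical
  obtain ⟨v, hv⟩ : ∃ v, (s v).isX = true := by
    unfold nX at hn
    obtain ⟨v, hv⟩ := Finset.card_pos.1 hn
    exact ⟨v, (Finset.mem_filter.1 hv).2⟩
  obtain ⟨i, hi⟩ := kw_exists_upper hv
  have h1 := kw_gen hF {v} (fun w hw => by rw [Finset.mem_singleton.1 hw]; exact hv)
    (fun t ht htW => ?_) (nX s) s (fun _ _ => rfl) (fun _ _ => rfl) rfl
  · rw [Finset.card_singleton, Nat.cast_one] at h1
    exact h1
  · have htv : t v = s v := htW v (Finset.mem_singleton_self v)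
    have htX : (t v).isX = true := by rw [htv]; exact hv
    obtain ⟨h, hS, h2⟩ := top_sweep S t (v, i) htX
    refine ⟨h, hS, fun w hw => ?_⟩
    rw [Finset.mem_singleton.1 hw, ← htv]
    refine kw_pat hS htX (i := i) ?_
    rw [htv, if_pos hi]
    exact h2 (v, i + 1) htX (fun h => kw_add_one i (congrArg Prod.snd h)) (kw_ne_tau htX i)

/-- a state with two consecutive overpasses or underpasses -/
theorem deg_le_two {F : (V → St) → LP} (hF : IsSkein zL muL S s F (fun _ => True))
    {v w : V} {i j : ZMod 4} (hvw : v ≠ w) (hv : (s v).isX = true) (hw : (s w).isX = true)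
    (ha : Arc S s (v, i) (w, j)) (hup : (s v).upper i = (s w).upper j) :
    DegLE (F s) ((nX s : ℤ) - 2) := by
  classical
  have h1 := kw_gen hF {v, w} (fun u hu => by
      rcases Finset.mem_insert.1 hu with h | h
      · rw [h]; exact hv
      · rw [Finset.mem_singleton.1 h]; exact hw)
    (fun t ht htW => ?_) (nX s) s (fun _ _ => rfl) (fun _ _ => rfl) rfl
  · rw [Finset.card_pair hvw] at h1
    exact h1
  · have htv : t v = s v := htW v (Finset.mem_insert_self v _)
    have htw : t w = s w := htW w (Finset.mem_insert_of_mem (Finset.mem_singleton_self w))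
    have htvX : (t v).isX = true := by rw [htv]; exact hv
    have htwX : (t w).isX = true := by rw [htw]; exact hw
    have hat : Arc S t (v, i) (w, j) := by
      refine Relation.EqvGen.mono (r := fun x y => y = S.α x ∨ (¬ isC s x ∧ y = tau s x)) ?_
        (v, i) (w, j) ha
      rintro x y (h | ⟨h2, h3⟩)
      · exact Or.inl h
      · have h4 : t x.1 = s x.1 := ht x.1 (by simpa [isC] using h2)
        refine Or.inr ⟨?_, ?_⟩
        · unfold isC at h2 ⊢
          rwa [h4]
        · rw [h3]
          show (x.1, (s x.1).mate x.2) = (x.1, (t x.1).mate x.2)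
          rw [h4]
    have n1 : ((v, i + 1) : Dart V) ≠ (v, i) := fun h => kw_add_one i (congrArg Prod.snd h)
    have n2 : ((v, i + 1) : Dart V) ≠ tau t (v, i) := kw_ne_tau htvX i
    have n3 : ((v, i + 1) : Dart V) ≠ (w, j) := fun h => hvw (congrArg Prod.fst h)
    have n4 : ((v, i + 1) : Dart V) ≠ tau t (w, j) := fun h => hvw (congrArg Prod.fst h)
    have m1 : ((w, j + 1) : Dart V) ≠ (v, i) := fun h => hvw (congrArg Prod.fst h).symm
    have m2 : ((w, j + 1) : Dart V) ≠ tau t (v, i) := fun h => hvw (congrArg Prod.fst h).symm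
    have m3 : ((w, j + 1) : Dart V) ≠ (w, j) := fun h => kw_add_one j (congrArg Prod.snd h)
    have m4 : ((w, j + 1) : Dart V) ≠ tau t (w, j) := kw_ne_tau htwX j
    by_cases hi : (s v).upper i = true
    · obtain ⟨h, hS, h2⟩ := top_sweep_two S t (v, i) (w, j) htvX htwX hvw hat
      refine ⟨h, hS, fun u hu => ?_⟩
      rcases Finset.mem_insert.1 hu with h3 | h3
      · rw [h3, ← htv]
        refine kw_pat hS htvX (i := i) ?_
        rw [htv, if_pos hi]
        exact (h2 (v, i + 1) htvX n1 n2 n3 n4).1
      · rw [Finset.mem_singleton.1 h3, ← htw]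
        refine kw_pat hS htwX (i := j) ?_
        rw [htw, ← hup, if_pos hi]
        exact (h2 (w, j + 1) htwX m1 m2 m3 m4).2
    · obtain ⟨h, hS, h2⟩ := bot_sweep_two S t (v, i) (w, j) htvX htwX hvw hat
      refine ⟨h, hS, fun u hu => ?_⟩
      rcases Finset.mem_insert.1 hu with h3 | h3
      · rw [h3, ← htv]
        refine kw_pat hS htvX (i := i) ?_
        rw [htv, if_neg hi]
        exact (h2 (v, i + 1) htvX n1 n2 n3 n4).1
      · rw [Finset.mem_singleton.1 h3, ← htw]
        refine kw_pat hS htwX (i := j) ?_
        rw [htw, ← hup, if_neg hi]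
        exact (h2 (w, j + 1) htwX m1 m2 m3 m4).2

end Pool.Agent.Helper65.LK
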