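import Pool.Agent.Helper65.LK.TwoCol

/-!
# LK-20. Distance labels

Choose a dart `r` in every piece; let `R 0 x` say that `x` is in the same face as the chosen dart of its
piece, `R (m + 1) x` that there is `y` in the same face as `x` with `R m (α y)`.  Every `x` has some `m`
with `R m x`: the set of the `x` with this property is closed under `faceP S` and `α` (both directions),
hence under `sg`, and contains the chosen darts.  Let `l x` be the smallest such `m`.
`l` is constant on faces, so `l (sg x) = l (α x)` (`faceP S (α x) = sg x`).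
`l (α x) ≤ l x + 1` and `l x ≤ l (α x) + 1`; with the colouring `c` of `two_colour`, `R m x` implies
`c x = c r + m` for the chosen dart `r` of the piece, so `l (α x) ≠ l x`.  `low` is clear from the minimality.
The faces with label zero are the faces of the chosen darts, at most one per piece.
-/

namespace Pool.Agent.Helper65.LK

variable {V : Type} [Fintype V] [DecidableEq V]

/-- the relation of the pieces -/
private def lbRel (S : Shadow V) (x y : Dart V) : Prop :=
  y = S.α x ∨ y = rot (fun _ => St.over1) x

/-- the pieces -/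
private abbrev LbQ (S : Shadow V) : Type := Quotient (Relation.EqvGen.setoid (lbRel S))

/-- the piece of a dart -/
private def lbPiece (S : Shadow V) (x : Dart V) : LbQ S := Quotient.mk _ x

/-- the chosen dart in the piece -/
private noncomputable def lbRep (S : Shadow V) (x : Dart V) : Dart V := (lbPiece S x).out

/-- the distance relation -/
private def lbR (S : Shadow V) : ℕ → Dart V → Prop
  | 0, x => (faceP S).SameCycle (lbRep S x) x
  | m + 1, x => ∃ y, (faceP S).SameCycle x y ∧ lbR S m (S.α y)

omit [Fintype V] [DecidableEq V] in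
private lemma lb_rot (x : Dart V) : rot (fun _ => St.over1) x = sg x := rfl

omit [Fintype V] [DecidableEq V] in
private lemma lb_piece_alpha (S : Shadow V) (x : Dart V) : lbPiece S (S.α x) = lbPiece S x :=
  (Quotient.sound (s := Relation.EqvGen.setoid (lbRel S))
    (Relation.EqvGen.rel x (S.α x) (Or.inl rfl : lbRel S x (S.α x)))).symm

omit [Fintype V] [DecidableEq V] in
private lemma lb_piece_sg (S : Shadow V) (x : Dart V) : lbPiece S (sg x) = lbPiece S x :=
  (Quotient.sound (s := Relation.EqvGen.setoid (lbRel S))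
    (Relation.EqvGen.rel x (sg x) (Or.inr rfl : lbRel S x (sg x)))).symm

omit [Fintype V] [DecidableEq V] in
private lemma lb_inv {X : Type} (S : Shadow V) (f : Dart V → X) (h : ∀ x, f (faceP S x) = f x)
    {x y : Dart V} (hxy : (faceP S).SameCycle x y) : f x = f y := by
  obtain ⟨i, hi⟩ := hxy
  have key : ∀ i : ℤ, ∀ x, f (((faceP S) ^ i) x) = f x := by
    intro i
    induction i using Int.induction_on with
    | zero => intro x; rfl
    | succ i ih =>
      intro x
      rw [zpow_add_one, Equiv.Perm.mul_apply, ih, h]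
    | pred i ih =>
      intro x
      rw [zpow_sub_one, Equiv.Perm.mul_apply, ih]
      have h1 := h ((faceP S)⁻¹ x)
      have h2 : faceP S ((faceP S)⁻¹ x) = x := Equiv.apply_symm_apply (faceP S) x
      rw [h2] at h1
      exact h1.symm
  rw [← hi, key]

omit [Fintype V] [DecidableEq V] in
private lemma lb_piece_face (S : Shadow V) {x y : Dart V} (h : (faceP S).SameCycle x y) :
    lbPiece S x = lbPiece S y :=
  lb_inv S (lbPiece S) (fun x => by rw [faceP_apply, lb_piece_sg, lb_piece_alpha]) h

omit [Fintype V] [DecidableEq V] in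
private lemma lb_rep_eq (S : Shadow V) {x y : Dart V} (h : lbPiece S x = lbPiece S y) :
    lbRep S x = lbRep S y := by
  unfold lbRep
  rw [h]

omit [Fintype V] [DecidableEq V] in
private lemma lb_piece_rep (S : Shadow V) (x : Dart V) : lbPiece S (lbRep S x) = lbPiece S x :=
  Quotient.out_eq _

omit [Fintype V] [DecidableEq V] in
private lemma lbR_face (S : Shadow V) (m : ℕ) {x y : Dart V} (h : (faceP S).SameCycle x y)
    (hx : lbR S m x) : lbR S m y := by
  cases m with
  | zero =>
    have h1 : lbRep S x = lbRep S y := lb_rep_eq S (lb_piece_face S h)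
    show (faceP S).SameCycle (lbRep S y) y
    rw [← h1]
    exact Equiv.Perm.SameCycle.trans hx h
  | succ m =>
    obtain ⟨z, hz, hz'⟩ := hx
    exact ⟨z, h.symm.trans hz, hz'⟩

omit [Fintype V] [DecidableEq V] in
private lemma lbR_alpha (S : Shadow V) (m : ℕ) {x : Dart V} (hx : lbR S m x) :
    lbR S (m + 1) (S.α x) :=
  ⟨S.α x, Equiv.Perm.SameCycle.refl _ _, by rw [S.invol]; exact hx⟩

omit [Fintype V] [DecidableEq V] in
private lemma lbR_exists (S : Shadow V) (x : Dart V) : ∃ m, lbR S m x := by
  have hal : ∀ x, (∃ m, lbR S m x) → ∃ m, lbR S m (S.α x) := fun x ⟨m, hm⟩ =>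
    ⟨m + 1, lbR_alpha S m hm⟩
  have hfa : ∀ x y, (faceP S).SameCycle x y → (∃ m, lbR S m x) → ∃ m, lbR S m y :=
    fun x y h ⟨m, hm⟩ => ⟨m, lbR_face S m h hm⟩
  have hcyc : ∀ x, (faceP S).SameCycle (S.α x) (sg x) := by
    intro x
    refine ⟨1, ?_⟩
    rw [zpow_one, faceP_apply, S.invol]
  have hrel : ∀ x y, Relation.EqvGen (lbRel S) x y →
      ((∃ m, lbR S m x) ↔ ∃ m, lbR S m y) := by
    intro x y h
    induction h with
    | rel x y h =>
      rcases h with h | h
      · rw [h]
        refine ⟨hal x, fun h1 => ?_⟩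
        have := hal _ h1
        rwa [S.invol] at this
      · rw [h, lb_rot]
        refine ⟨fun h1 => hfa _ _ (hcyc x) (hal x h1), fun h1 => ?_⟩
        have := hal _ (hfa _ _ (hcyc x).symm h1)
        rwa [S.invol] at this
    | refl x => exact Iff.rfl
    | symm x y _ ih => exact ih.symm
    | trans x y z _ _ ih1 ih2 => exact ih1.trans ih2
  have h1 : Relation.EqvGen (lbRel S) (lbRep S x) x :=
    Quotient.exact (s := Relation.EqvGen.setoid (lbRel S)) (lb_piece_rep S x)
  refine (hrel _ _ h1).1 ⟨0, ?_⟩
  show (faceP S).SameCycle (lbRep S (lbRep S x)) (lbRep S x)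
  rw [lb_rep_eq S (lb_piece_rep S x)]

open Classical in
/-- the label -/
private noncomputable def lbl (S : Shadow V) (x : Dart V) : ℕ := Nat.find (lbR_exists S x)

omit [Fintype V] [DecidableEq V] in
private lemma lbl_spec (S : Shadow V) (x : Dart V) : lbR S (lbl S x) x := by
  classical
  exact Nat.find_spec (lbR_exists S x)

omit [Fintype V] [DecidableEq V] in
private lemma lbl_le (S : Shadow V) {x : Dart V} {m : ℕ} (h : lbR S m x) : lbl S x ≤ m := by
  classical
  exact Nat.find_min' (lbR_exists S x) h

omit [Fintype V] [DecidableEq V] in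
private lemma lbl_face (S : Shadow V) {x y : Dart V} (h : (faceP S).SameCycle x y) :
    lbl S x = lbl S y :=
  le_antisymm (lbl_le S (lbR_face S _ h.symm (lbl_spec S y)))
    (lbl_le S (lbR_face S _ h (lbl_spec S x)))

omit [Fintype V] [DecidableEq V] in
private lemma lbl_alpha (S : Shadow V) (x : Dart V) : lbl S (S.α x) ≤ lbl S x + 1 :=
  lbl_le S (lbR_alpha S _ (lbl_spec S x))

omit [Fintype V] [DecidableEq V] in
private lemma lbl_alpha' (S : Shadow V) (x : Dart V) : lbl S x ≤ lbl S (S.α x) + 1 := by
  have := lbl_alpha S (S.α x)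
  rwa [S.invol] at this

omit [Fintype V] [DecidableEq V] in
private lemma lb_colour (S : Shadow V) {c : Dart V → ZMod 2} (h1 : ∀ x, c (sg x) = c x + 1)
    (h2 : ∀ x, c (S.α x) = c x + 1) (m : ℕ) : ∀ x, lbR S m x → c x = c (lbRep S x) + m := by
  have hface : ∀ {x y : Dart V}, (faceP S).SameCycle x y → c x = c y := fun h =>
    lb_inv S c (fun x => by
      rw [faceP_apply, h1, h2, add_assoc]
      have : (1 : ZMod 2) + 1 = 0 := by decide
      rw [this, add_zero]) h
  induction m with
  | zero =>
    intro x hx
    rw [Nat.cast_zero, add_zero]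
    exact (hface hx).symm
  | succ m ih =>
    intro x hx
    obtain ⟨y, hy, hy'⟩ := hx
    have h3 := ih _ hy'
    have h4 : lbRep S (S.α y) = lbRep S x :=
      lb_rep_eq S ((lb_piece_alpha S y).trans (lb_piece_face S hy).symm)
    rw [h4, h2, ← hface hy] at h3
    have h5 : c x = c (lbRep S x) + m - 1 := by rw [← h3]; ring
    rw [h5, Nat.cast_add, Nat.cast_one]
    have : (1 : ZMod 2) = -1 := by decide
    rw [sub_eq_add_neg, ← this]
    ring

theorem exists_label (S : Shadow V) (hp : PlanarP S) : ∃ l : Dart V → ℕ, Label S l := by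
  obtain ⟨c, hc1, hc2⟩ := two_colour S hp
  refine ⟨lbl S, ?_, ?_, ?_, ?_⟩
  · intro x
    refine (lbl_face S ⟨1, ?_⟩).symm
    rw [zpow_one, faceP_apply, S.invol]
  · intro x
    have h1 := lb_colour S hc1 hc2 _ x (lbl_spec S x)
    have h2 := lb_colour S hc1 hc2 _ (S.α x) (lbl_spec S (S.α x))
    rw [lb_rep_eq S (lb_piece_alpha S x), hc2, h1] at h2
    have hne : lbl S (S.α x) ≠ lbl S x := by
      intro h
      rw [h] at h2
      have h3 : (1 : ZMod 2) = 0 := by
        have := add_left_cancel (h2.trans (add_zero _).symm)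
        exact this
      exact absurd h3 (by decide)
    have h3 := lbl_alpha S x
    have h4 := lbl_alpha' S x
    omega
  · intro x hx
    obtain ⟨m, hm⟩ := Nat.exists_eq_succ_of_ne_zero hx
    have h1 := lbl_spec S x
    rw [hm] at h1
    obtain ⟨y, hy, hy'⟩ := h1
    refine ⟨y, hy, ?_⟩
    have h2 := lbl_le S hy'
    have h3 := lbl_alpha' S y
    rw [← lbl_face S hy] at h3
    omega
  · have hsub : {q : Quotient (Equiv.Perm.SameCycle.setoid (faceP S)) |
        ∃ x, Quotient.mk _ x = q ∧ lbl S x = 0} ⊆
        (fun p : LbQ S => (Quotient.mk (Equiv.Perm.SameCycle.setoid (faceP S)) p.out)) ''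
          Set.univ := by
      rintro q ⟨x, hxq, hx0⟩
      refine ⟨lbPiece S x, Set.mem_univ _, ?_⟩
      rw [← hxq]
      have h1 := lbl_spec S x
      rw [hx0] at h1
      exact Quotient.sound h1
    have hfin : Finite (LbQ S) := Quotient.finite _
    refine (Set.ncard_le_ncard hsub (Set.toFinite _)).trans
      ((Set.ncard_image_le (Set.toFinite _)).trans (le_of_eq ?_))
    rw [Set.ncard_univ]
    rfl

end Pool.Agent.Helper65.LK
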