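import Pool.Agent.Helper65.LK.TMap

/-!
# LK-51. Local isomorphisms of word tangles

The strands at a new vertex: `0` = inner end of `q + 1`, `1` = inner end of `q`, `2` = outer end of `q`, `3` = outer end
of `q + 1`; the state `smB` joins `1, 2` and `3, 0`: both strands run straight through.

`tm_straight`: both new vertices have the state `smB`: the strands `i` run straight from
the port `i` of `T` to the port `i` of `app T p`; `φ` = the inclusion.
`tm_comm`: in `app (app T p) (p + 2)` the first letter is on the strands `p, p+1`, the second one on the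
strands `p+2, p+3`; the other strands run straight; `φ` exchanges the two letters.
`tm_base`: a tangle with one crossing and no other arcs: the darts of the crossing are connected with the ports
as follows.  `app leafT p`, base state `smB` (ports `1, 2` and `3, 0` joined), `p` even: the inner ends of the
letter are joined through the base with the strands `p + 3` and `p + 2`: the darts `0, 1, 2, 3` of the
letter lead to the ports `p + 2, p + 3, p, p + 1` (`i ↦ i + p + 2`).  Base state `smA` (ports `0, 1` and
`2, 3` joined), `p` odd: the same: `0, 1, 2, 3` lead to the ports `p + 2, p + 3, p, p + 1`.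
So for even `p` the crossing has its even darts at the even ports, for odd `p` at the odd
ports: `over1` for even `p` corresponds to `over0` for odd `p`; `φ` is the rotation by `p - p'`.
(All cases can be treated by finite computation.)
-/

namespace Pool.Agent.Helper65.LK

open Function

variable {V : Type} [Fintype V]

/-- states of a slot: the letter has the state `q` -/
def slot (q : St) (b : Bool) : St := if b = true then q else St.smB

private theorem arc_link {V : Type} {T : Tangle V} {s : V → St} {x y : Dart V}
    (h : T.link x = Sum.inl y) : ArcT T s x y :=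
  Relation.EqvGen.rel _ _ (Or.inl h)

private theorem arc_tau {V : Type} {T : Tangle V} {s : V → St} {x : Dart V}
    (h : ¬ isC s x) : ArcT T s x (tau s x) :=
  Relation.EqvGen.rel _ _ (Or.inr ⟨h, rfl⟩)

private theorem arc_refl {V : Type} {T : Tangle V} {s : V → St} (x : Dart V) : ArcT T s x x :=
  Relation.EqvGen.refl x

private theorem arc_symm {V : Type} {T : Tangle V} {s : V → St} {x y : Dart V}
    (h : ArcT T s x y) : ArcT T s y x :=
  Relation.EqvGen.symm _ _ h

private theorem arc_trans {V : Type} {T : Tangle V} {s : V → St} {x y z : Dart V}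
    (h : ArcT T s x y) (h' : ArcT T s y z) : ArcT T s x z :=
  Relation.EqvGen.trans _ _ _ h h'

private theorem arc_map {V V' : Type} {T : Tangle V} {s : V → St} {T' : Tangle V'}
    {s' : V' → St} (f : Dart V → Dart V')
    (hf : ∀ x y, relT T s x y → ArcT T' s' (f x) (f y)) {x y : Dart V} (h : ArcT T s x y) :
    ArcT T' s' (f x) (f y) := by
  induction h with
  | rel a b hab => exact hf a b hab
  | refl a => exact arc_refl _
  | symm a b _ ih => exact arc_symm ih
  | trans a b c _ _ ih1 ih2 => exact arc_trans ih1 ih2

private theorem tm_of_red {V V' : Type} (T : Tangle V) (s : V → St) (T' : Tangle V')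
    (s' : V' → St) (f : Dart V → Dart V') (g : Dart V' → Dart V)
    (hf : ∀ x y, relT T s x y → ArcT T' s' (f x) (f y))
    (hg : ∀ x y, relT T' s' x y → ArcT T s (g x) (g y))
    (gf : ∀ x, ArcT T s (g (f x)) x) (fg : ∀ x, ArcT T' s' (f (g x)) x)
    (hp : ∀ i, ArcT T' s' (f (T.port i)) (T'.port i))
    (cf : ∀ x, isC s x → isC s' (f x) ∧ g (f x) = x)
    (cg : ∀ x, isC s' x → isC s (g x) ∧ f (g x) = x)
    (rt : ∀ x, isC s x → f (sg x) = sg (f x))
    (up : ∀ x, isC s x → (s x.1).upper x.2 = (s' (f x).1).upper (f x).2) : TM T s T' s' := by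
  have key : ∀ x y, ArcT T s x y ↔ ArcT T' s' (f x) (f y) := fun x y =>
    ⟨arc_map f hf, fun h => arc_trans (arc_symm (gf x)) (arc_trans (arc_map g hg h) (gf y))⟩
  have keyp : ∀ x i, ArcT T s x (T.port i) ↔ ArcT T' s' (f x) (T'.port i) := fun x i =>
    (key x _).trans ⟨fun h => arc_trans h (hp i), fun h => arc_trans h (arc_symm (hp i))⟩
  let e : Quotient (Relation.EqvGen.setoid (relT T s)) ≃
      Quotient (Relation.EqvGen.setoid (relT T' s')) :=
    { toFun := Quotient.map f (fun a b h => arc_map f hf h)
      invFun := Quotient.map g (fun a b h => arc_map g hg h)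
      left_inv := by
        intro q
        induction q using Quotient.inductionOn with
        | h a => exact Quotient.sound (gf a)
      right_inv := by
        intro q
        induction q using Quotient.inductionOn with
        | h a => exact Quotient.sound (fg a) }
  refine ⟨⟨⟨fun x => ⟨f x.1, (cf x.1 x.2).1⟩, fun x => ⟨g x.1, (cg x.1 x.2).1⟩,
    fun x => Subtype.ext (cf x.1 x.2).2, fun x => Subtype.ext (cg x.1 x.2).2⟩,
    fun x y h => ?_, fun x y => key _ _, fun x i => keyp _ _, fun i j => ?_,
    fun x => up x.1 x.2, ?_⟩⟩
  · show f y.1 = sg (f x.1)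
    rw [h]
    exact rt x.1 x.2
  · rw [keyp]
    exact ⟨fun h => arc_trans (arc_symm (hp i)) h, fun h => arc_trans (hp i) h⟩
  · refine Nat.card_congr (e.subtypeEquiv fun q => ?_)
    induction q using Quotient.inductionOn with
    | h a =>
      show (_ ∧ _) ↔ ((∀ x : Dart V', Quotient.mk _ x = Quotient.mk _ (f a) → ¬ isC s' x) ∧
        ∀ i, Quotient.mk _ (T'.port i) ≠ Quotient.mk _ (f a))
      refine and_congr ?_ ?_
      · constructor
        · intro h x hx hc
          refine h (g x) (Quotient.sound ?_) (cg x hc).1
          exact arc_trans (arc_map g hg (Quotient.exact hx)) (gf a)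
        · intro h x hx hc
          exact h (f x) (Quotient.sound (arc_map f hf (Quotient.exact hx))) (cf x hc).1
      · refine forall_congr' fun i => not_congr ?_
        constructor
        · intro h
          exact Quotient.sound (arc_trans (arc_symm (hp i)) (arc_map f hf (Quotient.exact h)))
        · intro h
          refine Quotient.sound ?_
          have h1 : ArcT T' s' (T'.port i) (f a) := Quotient.exact h
          exact arc_symm ((keyp a i).mpr (arc_symm h1))

private theorem tm_of_inv {V V' : Type} (T : Tangle V) (s : V → St) (T' : Tangle V')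
    (s' : V' → St) (c : Dart V → ZMod 4) (c' : Dart V' → ZMod 4)
    (hc : ∀ x y, relT T s x y → c x = c y) (hc' : ∀ x y, relT T' s' x y → c' x = c' y)
    (pc : ∀ x, ArcT T s x (T.port (c x))) (pc' : ∀ x, ArcT T' s' x (T'.port (c' x)))
    (cp : ∀ i, c (T.port i) = i) (cp' : ∀ i, c' (T'.port i) = i)
    (φ : {x : Dart V // isC s x} ≃ {x : Dart V' // isC s' x}) (hφ : ∀ x, c' (φ x).1 = c x.1)
    (rt : ∀ x y : {x : Dart V // isC s x}, (y : Dart V) = sg x.1 → (φ y : Dart V') = sg (φ x).1)
    (up : ∀ x : {x : Dart V // isC s x},
      (s x.1.1).upper x.1.2 = (s' (φ x).1.1).upper (φ x).1.2) : TM T s T' s' := by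
  have k1 : ∀ x y, ArcT T s x y ↔ c x = c y := by
    intro x y
    constructor
    · intro h
      induction h with
      | rel a b hab => exact hc a b hab
      | refl a => rfl
      | symm a b _ ih => exact ih.symm
      | trans a b d _ _ ih1 ih2 => exact ih1.trans ih2
    · intro h
      refine arc_trans (pc x) ?_
      rw [h]
      exact arc_symm (pc y)
  have k2 : ∀ x y, ArcT T' s' x y ↔ c' x = c' y := by
    intro x y
    constructor
    · intro h
      induction h with
      | rel a b hab => exact hc' a b hab
      | refl a => rfl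
      | symm a b _ ih => exact ih.symm
      | trans a b d _ _ ih1 ih2 => exact ih1.trans ih2
    · intro h
      refine arc_trans (pc' x) ?_
      rw [h]
      exact arc_symm (pc' y)
  refine ⟨⟨φ, rt, fun x y => ?_, fun x i => ?_, fun i j => ?_, up, ?_⟩⟩
  · rw [k1, k2, hφ, hφ]
  · rw [k1, k2, hφ, cp, cp']
  · rw [k1, k2, cp, cp, cp', cp']
  · have e1 : loopsT T s = 0 := by
      have : IsEmpty {q : Quotient (Relation.EqvGen.setoid (relT T s)) //
          (∀ x : Dart V, Quotient.mk _ x = q → ¬ isC s x) ∧ ∀ i, Quotient.mk _ (T.port i) ≠ q} := by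
        refine ⟨fun q => ?_⟩
        obtain ⟨q, h1, h2⟩ := q
        induction q using Quotient.inductionOn with
        | h a => exact h2 (c a) (Quotient.sound (arc_symm (pc a)))
      exact Nat.card_of_isEmpty
    have e2 : loopsT T' s' = 0 := by
      have : IsEmpty {q : Quotient (Relation.EqvGen.setoid (relT T' s')) //
          (∀ x : Dart V', Quotient.mk _ x = q → ¬ isC s' x) ∧
            ∀ i, Quotient.mk _ (T'.port i) ≠ q} := by
        refine ⟨fun q => ?_⟩
        obtain ⟨q, h1, h2⟩ := q
        induction q using Quotient.inductionOn with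
        | h a => exact h2 (c' a) (Quotient.sound (arc_symm (pc' a)))
      exact Nat.card_of_isEmpty
    rw [e1, e2]

private theorem link_dl_inl {V : Type} {T : Tangle V} {p : ZMod 4} {x y : Dart V}
    (h : T.link x = Sum.inl y) : (app T p).link (dl x) = Sum.inl (dl y) := by
  obtain ⟨v, j⟩ := x
  simp [app, h]

private theorem link_dl_port {V : Type} (T : Tangle V) (p i : ZMod 4) :
    (app T p).link (dl (T.port i)) = Sum.inl (dr (inDart p i)) := by
  simp [app, T.link_port]

private theorem link_inDart {V : Type} (T : Tangle V) (p i : ZMod 4) :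
    (app T p).link (dr (inDart p i)) = Sum.inl (dl (T.port i)) := by
  have h : strand p ((inDart p i).1, (inDart p i).2) = (i, true) := strand_inDart p i
  simp [app, h]

private theorem link_dr {V : Type} {T : Tangle V} {p : ZMod 4} {x : Bool × ZMod 4}
    (h : (strand p x).2 = true) :
    (app T p).link (dr x) = Sum.inl (dl (T.port (strand p x).1)) := by
  simp [app, h]

private theorem link_dr_out {V : Type} {T : Tangle V} {p : ZMod 4} {x : Bool × ZMod 4}
    (h : (strand p x).2 = false) :
    (app T p).link (dr x) = Sum.inr (strand p x).1 := by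
  simp [app, h]

private theorem strand_mate : ∀ (p : ZMod 4) (b : Bool) (j : ZMod 4),
    strand p (b, St.smB.mate j) = ((strand p (b, j)).1, !(strand p (b, j)).2) := by decide

private theorem tau_dr {V : Type} (s : V ⊕ Bool → St) (b : Bool) (j : ZMod 4)
    (h : s (Sum.inr b) = St.smB) :
    tau s (dr (b, j) : Dart (V ⊕ Bool)) = dr (b, St.smB.mate j) := by
  simp [tau, h]

private theorem not_isC {V : Type} (s : V ⊕ Bool → St) (b : Bool) (j : ZMod 4)
    (h : s (Sum.inr b) = St.smB) : ¬ isC s (dr (b, j) : Dart (V ⊕ Bool)) := by
  simp [isC, h, St.isX]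

private theorem straight_in {V : Type} (T : Tangle V) (p : ZMod 4) (s : V ⊕ Bool → St) (b : Bool)
    (j : ZMod 4) (h : s (Sum.inr b) = St.smB) :
    ArcT (app T p) s (dr (b, j)) (dl (T.port (strand p (b, j)).1)) := by
  by_cases hs : (strand p (b, j)).2 = true
  · exact arc_link (link_dr hs)
  · have hs' : (strand p (b, j)).2 = false := by simpa using hs
    have h1 : ArcT (app T p) s (dr (b, j)) (dr (b, St.smB.mate j)) := by
      have := arc_tau (T := app T p) (not_isC s b j h)
      rwa [tau_dr s b j h] at this
    refine arc_trans h1 (arc_link ?_)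
    have h2 := strand_mate p b j
    rw [link_dr (by rw [h2, hs']; rfl), h2]

private theorem straight_out {V : Type} (T : Tangle V) (p : ZMod 4) (s : V ⊕ Bool → St) (b : Bool)
    (j : ZMod 4) (h : s (Sum.inr b) = St.smB) :
    ArcT (app T p) s (dr (b, j)) (dr (outDart p (strand p (b, j)).1)) := by
  by_cases hs : (strand p (b, j)).2 = true
  · have h1 : ArcT (app T p) s (dr (b, j)) (dr (b, St.smB.mate j)) := by
      have := arc_tau (T := app T p) (not_isC s b j h)
      rwa [tau_dr s b j h] at this
    have h2 := strand_mate p b j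
    have h3 : outDart p (strand p (b, j)).1 = (b, St.smB.mate j) := by
      have h4 := outDart_strand p (b, St.smB.mate j) (by rw [h2, hs]; rfl)
      rwa [h2] at h4
    rw [h3]
    exact h1
  · have hs' : (strand p (b, j)).2 = false := by simpa using hs
    rw [outDart_strand p (b, j) hs']
    exact arc_refl _

private theorem arc_dl {V : Type} {T : Tangle V} {s : V → St} {p : ZMod 4} {q : Bool → St}
    {x y : Dart V} (h : ArcT T s x y) : ArcT (app T p) (Sum.elim s q) (dl x) (dl y) := by
  refine arc_map (fun x => dl x) ?_ h
  rintro x y (h | ⟨h, rfl⟩)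
  · exact arc_link (link_dl_inl h)
  · exact arc_tau (s := Sum.elim s q) (x := dl x) h

theorem tm_straight (T : Tangle V) (s : V → St) (p : ZMod 4) :
    TM (app T p) (Sum.elim s (slot St.smB)) T s := by
  have hsl : ∀ b, slot St.smB b = St.smB := by decide
  let f : Dart (V ⊕ Bool) → Dart V := fun x => match x.1 with
    | Sum.inl v => (v, x.2)
    | Sum.inr b => T.port (strand p (b, x.2)).1
  have hf1 : ∀ x : Dart V, f (dl x) = x := fun x => rfl
  have hf2 : ∀ x : Bool × ZMod 4, f (dr x) = T.port (strand p x).1 := fun x => rfl
  refine tm_of_red _ _ _ _ f (fun x => dl x) ?_ ?_ ?_ ?_ ?_ ?_ ?_ ?_ ?_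
  · rintro ⟨v | b, j⟩ y (h | ⟨h, rfl⟩)
    · cases hx : T.link (v, j) with
      | inl z =>
        have h1 : (app T p).link (Sum.inl v, j) = Sum.inl (dl z) := link_dl_inl hx
        rw [h1, Sum.inl.injEq] at h
        subst h
        exact arc_link hx
      | inr i =>
        have h1 : (app T p).link (Sum.inl v, j) = Sum.inl (dr (inDart p i)) := by
          have h2 := link_dl_port T p i
          rwa [T.port_link _ _ hx] at h2
        rw [h1, Sum.inl.injEq] at h
        subst h
        rw [hf2, strand_inDart]
        have h3 : f (Sum.inl v, j) = T.port i := (T.port_link _ _ hx).symm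
        rw [h3]
        exact arc_refl _
    · exact arc_tau (s := s) (x := (v, j)) h
    · by_cases hs : (strand p (b, j)).2 = true
      · have h1 : (app T p).link (Sum.inr b, j) = _ := link_dr (x := (b, j)) hs
        rw [h1, Sum.inl.injEq] at h
        subst h
        exact arc_refl _
      · have hs' : (strand p (b, j)).2 = false := by simpa using hs
        have h1 : (app T p).link (Sum.inr b, j) = _ := link_dr_out (x := (b, j)) hs'
        rw [h1] at h
        cases h
    · have h1 : tau (Sum.elim s (slot St.smB)) (Sum.inr b, j) = dr (b, St.smB.mate j) :=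
        tau_dr (Sum.elim s (slot St.smB)) b j (hsl b)
      rw [h1, hf2, strand_mate]
      exact arc_refl _
  · rintro x y (h | ⟨h, rfl⟩)
    · exact arc_link (link_dl_inl h)
    · exact arc_tau (s := Sum.elim s (slot St.smB)) (x := dl x) h
  · rintro ⟨v | b, j⟩
    · exact arc_refl _
    · exact arc_symm (straight_in T p _ b j (hsl b))
  · intro x
    exact arc_refl _
  · intro i
    have h1 : (app T p).port i = dr (outDart p i) := rfl
    rw [h1, hf2, strand_outDart]
    exact arc_refl _
  · rintro ⟨v | b, j⟩ h
    · exact ⟨h, rfl⟩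
    · exact absurd h (not_isC _ b j (hsl b))
  · intro x h
    exact ⟨h, rfl⟩
  · rintro ⟨v | b, j⟩ h
    · rfl
    · exact absurd h (not_isC _ b j (hsl b))
  · rintro ⟨v | b, j⟩ h
    · rfl
    · exact absurd h (not_isC _ b j (hsl b))

/-- the map which exchanges the two letters -/
private def cmap {V : Type} (T : Tangle V) (p p' : ZMod 4) (x : Dart ((V ⊕ Bool) ⊕ Bool)) :
    Dart ((V ⊕ Bool) ⊕ Bool) :=
  match x.1 with
  | Sum.inl (Sum.inl v) => (Sum.inl (Sum.inl v), x.2)
  | Sum.inl (Sum.inr b) => if b = true then dr (true, x.2) else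
      dl (dl (T.port (strand p (false, x.2)).1))
  | Sum.inr b => if b = true then dl (dr (true, x.2)) else
      dr (outDart p (strand p' (false, x.2)).1)

private theorem in_true : ∀ (p p' i : ZMod 4), p' = p + 2 → bq p i = true →
    (inDart p i).1 = true ∧ (inDart p' i).1 = false ∧ (outDart p i).1 = true ∧
      (outDart p' i).1 = false := by decide

private theorem bq_strand : ∀ (p : ZMod 4) (b : Bool) (j : ZMod 4),
    bq p (strand p (b, j)).1 = b := by decide

private theorem p_swap : ∀ (p p' : ZMod 4), p' = p + 2 → p = p' + 2 := by decide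

private theorem bq_not : ∀ (p p' i : ZMod 4), p' = p + 2 → bq p' i = !(bq p i) := by decide

section comm

variable {V : Type} (T : Tangle V) (p p' : ZMod 4)

private theorem cmap_ll (x : Dart V) : cmap T p p' (dl (dl x)) = dl (dl x) := rfl

private theorem cmap_lt (x : Bool × ZMod 4) (h : x.1 = true) : cmap T p p' (dl (dr x)) = dr x := by
  obtain ⟨b, j⟩ := x
  cases h
  rfl

private theorem cmap_lf (x : Bool × ZMod 4) (h : x.1 = false) :
    cmap T p p' (dl (dr x)) = dl (dl (T.port (strand p x).1)) := by
  obtain ⟨b, j⟩ := x
  cases h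
  rfl

private theorem cmap_rt (x : Bool × ZMod 4) (h : x.1 = true) : cmap T p p' (dr x) = dl (dr x) := by
  obtain ⟨b, j⟩ := x
  cases h
  rfl

private theorem cmap_rf (x : Bool × ZMod 4) (h : x.1 = false) :
    cmap T p p' (dr x) = dr (outDart p (strand p' x).1) := by
  obtain ⟨b, j⟩ := x
  cases h
  rfl

variable (s : V → St) (q q' : St)

/-- from a port of `T` -/
private theorem comm1 (hp : p' = p + 2) (i : ZMod 4) :
    ArcT (app (app T p') p) (Sum.elim (Sum.elim s (slot q')) (slot q))
      (dl (dl (T.port i))) (cmap T p p' (dl (dr (inDart p i)))) := by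
  cases hb : bq p i with
  | true =>
    have h := in_true p p' i hp hb
    rw [cmap_lt T p p' _ h.1]
    have h1 : ArcT (app (app T p') p) (Sum.elim (Sum.elim s (slot q')) (slot q))
        (dl (dl (T.port i))) (dl (dr (inDart p' i))) := arc_dl (arc_link (link_dl_port T p' i))
    have h2 := straight_out T p' (Sum.elim s (slot q')) (inDart p' i).1 (inDart p' i).2
      (by rw [h.2.1]; rfl)
    have h3 : strand p' ((inDart p' i).1, (inDart p' i).2) = (i, true) := strand_inDart p' i
    rw [h3] at h2
    refine arc_trans h1 (arc_trans (arc_dl h2) (arc_link ?_))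
    exact link_dl_port (app T p') p i
  | false =>
    have h' : p = p' + 2 := p_swap p p' hp
    have h := in_true p' p i h' (by rw [bq_not p p' i hp, hb]; rfl)
    rw [cmap_lf T p p' _ h.2.1, strand_inDart]
    exact arc_refl _

/-- between the two layers -/
private theorem comm2 (hp : p' = p + 2) (i : ZMod 4) :
    ArcT (app (app T p') p) (Sum.elim (Sum.elim s (slot q')) (slot q))
      (cmap T p p' (dl (dr (outDart p i)))) (cmap T p p' (dr (inDart p' i))) := by
  cases hb : bq p i with
  | true =>
    have h := in_true p p' i hp hb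
    rw [cmap_lt T p p' _ h.2.2.1, cmap_rf T p p' _ h.2.1, strand_inDart]
    exact arc_refl _
  | false =>
    have h' : p = p' + 2 := p_swap p p' hp
    have h := in_true p' p i h' (by rw [bq_not p p' i hp, hb]; rfl)
    rw [cmap_lf T p p' _ h.2.2.2, cmap_rt T p p' _ h.1, strand_outDart]
    exact arc_dl (arc_link (link_dl_port T p' i))

private theorem comm_step (hp : p' = p + 2) (x y : Dart ((V ⊕ Bool) ⊕ Bool))
    (h : relT (app (app T p) p') (Sum.elim (Sum.elim s (slot q)) (slot q')) x y) :
    ArcT (app (app T p') p) (Sum.elim (Sum.elim s (slot q')) (slot q))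
      (cmap T p p' x) (cmap T p p' y) := by
  rcases h with h | ⟨h, rfl⟩
  · obtain ⟨(v | b) | b, j⟩ := x
    · cases hx : T.link (v, j) with
      | inl z =>
        have h1 : (app (app T p) p').link (Sum.inl (Sum.inl v), j) = Sum.inl (dl (dl z)) :=
          link_dl_inl (link_dl_inl hx)
        rw [h1, Sum.inl.injEq] at h
        subst h
        exact arc_dl (arc_dl (arc_link hx))
      | inr i =>
        have h1 : (app (app T p) p').link (Sum.inl (Sum.inl v), j) =
            Sum.inl (dl (dr (inDart p i))) := by
          apply link_dl_inl (x := ((Sum.inl v : V ⊕ Bool), j))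
          have h2 := link_dl_port T p i
          rwa [T.port_link _ _ hx] at h2
        rw [h1, Sum.inl.injEq] at h
        subst h
        have h3 := comm1 T p p' s q q' hp i
        rw [T.port_link _ _ hx] at h3
        exact h3
    · by_cases hs : (strand p (b, j)).2 = true
      · have h1 : (app (app T p) p').link (Sum.inl (Sum.inr b), j) =
            Sum.inl (dl (dl (T.port (strand p (b, j)).1))) :=
          link_dl_inl (x := ((Sum.inr b : V ⊕ Bool), j)) (link_dr (x := (b, j)) hs)
        rw [h1, Sum.inl.injEq] at h
        subst h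
        have h3 := comm1 T p p' s q q' hp (strand p (b, j)).1
        rw [inDart_strand p (b, j) hs] at h3
        exact arc_symm h3
      · have hs' : (strand p (b, j)).2 = false := by simpa using hs
        have h1 : (app (app T p) p').link (Sum.inl (Sum.inr b), j) =
            Sum.inl (dr (inDart p' (strand p (b, j)).1)) := by
          have h2 := link_dl_port (app T p) p' (strand p (b, j)).1
          have h4 : (app T p).port (strand p (b, j)).1 = dr (b, j) := by
            show dr (outDart p (strand p (b, j)).1) = _
            rw [outDart_strand p (b, j) hs']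
          rwa [h4] at h2
        rw [h1, Sum.inl.injEq] at h
        subst h
        have h3 := comm2 T p p' s q q' hp (strand p (b, j)).1
        rw [outDart_strand p (b, j) hs'] at h3
        exact h3
    · by_cases hs : (strand p' (b, j)).2 = true
      · have h1 : (app (app T p) p').link (Sum.inr b, j) = _ := link_dr (x := (b, j)) hs
        rw [h1, Sum.inl.injEq] at h
        subst h
        have h3 := comm2 T p p' s q q' hp (strand p' (b, j)).1
        rw [inDart_strand p' (b, j) hs] at h3
        exact arc_symm h3
      · have hs' : (strand p' (b, j)).2 = false := by simpa using hs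
        have h1 : (app (app T p) p').link (Sum.inr b, j) = _ := link_dr_out (x := (b, j)) hs'
        rw [h1] at h
        cases h
  · obtain ⟨(v | b) | b, j⟩ := x
    · exact arc_tau (s := Sum.elim (Sum.elim s (slot q')) (slot q))
        (x := ((Sum.inl (Sum.inl v) : (V ⊕ Bool) ⊕ Bool), j)) h
    · cases b with
      | true =>
        exact arc_tau (s := Sum.elim (Sum.elim s (slot q')) (slot q))
          (x := ((Sum.inr true : (V ⊕ Bool) ⊕ Bool), j)) h
      | false =>
        have h1 : tau (Sum.elim (Sum.elim s (slot q)) (slot q'))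
            (Sum.inl (Sum.inr false), j) = dl (dr (false, St.smB.mate j)) := rfl
        have h2 : cmap T p p' (Sum.inl (Sum.inr false), j) = dl (dl (T.port
          (strand p (false, j)).1)) := rfl
        rw [h1, cmap_lf T p p' _ rfl, strand_mate, h2]
        exact arc_refl _
    · cases b with
      | true =>
        exact arc_tau (s := Sum.elim (Sum.elim s (slot q')) (slot q))
          (x := ((Sum.inl (Sum.inr true) : (V ⊕ Bool) ⊕ Bool), j)) h
      | false =>
        have h1 : tau (Sum.elim (Sum.elim s (slot q)) (slot q'))
            (Sum.inr false, j) = dr (false, St.smB.mate j) := rfl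
        have h2 : cmap T p p' (Sum.inr false, j) = dr (outDart p
          (strand p' (false, j)).1) := rfl
        rw [h1, cmap_rf T p p' _ rfl, strand_mate, h2]
        exact arc_refl _

private theorem comm_inv (hp : p' = p + 2) (x : Dart ((V ⊕ Bool) ⊕ Bool)) :
    ArcT (app (app T p) p') (Sum.elim (Sum.elim s (slot q)) (slot q'))
      (cmap T p' p (cmap T p p' x)) x := by
  obtain ⟨(v | b) | b, j⟩ := x
  · exact arc_refl _
  · cases b with
    | true => exact arc_refl _
    | false =>
      have h1 := straight_in T p (Sum.elim s (slot q)) false j rfl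
      exact arc_dl (arc_symm h1)
  · cases b with
    | true => exact arc_refl _
    | false =>
      have h0 : cmap T p p' (Sum.inr false, j) = dr (outDart p (strand p' (false, j)).1) := rfl
      have hb : bq p (strand p' (false, j)).1 = true := by
        have h' : p = p' + 2 := p_swap p p' hp
        rw [bq_not p' p _ h', bq_strand]
        rfl
      have h2 := in_true p p' _ hp hb
      rw [h0, cmap_rt T p' p _ h2.2.2.1]
      exact arc_symm (straight_in (app T p) p' _ false j rfl)

private theorem comm_port (hp : p' = p + 2) (i : ZMod 4) :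
    ArcT (app (app T p') p) (Sum.elim (Sum.elim s (slot q')) (slot q))
      (cmap T p p' ((app (app T p) p').port i)) ((app (app T p') p).port i) := by
  have h0 : (app (app T p) p').port i = dr (outDart p' i) := rfl
  have h0' : (app (app T p') p).port i = dr (outDart p i) := rfl
  rw [h0, h0']
  have h' : p = p' + 2 := p_swap p p' hp
  cases hb : bq p i with
  | true =>
    have h := in_true p p' i hp hb
    rw [cmap_rf T p p' _ h.2.2.2, strand_outDart]
    exact arc_refl _
  | false =>
    have h := in_true p' p i h' (by rw [bq_not p p' i hp, hb]; rfl)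
    rw [cmap_rt T p p' _ h.2.2.1]
    have h1 : ArcT (app (app T p') p) (Sum.elim (Sum.elim s (slot q')) (slot q))
        (dl (dr (outDart p' i))) (dr (inDart p i)) := arc_link (link_dl_port (app T p') p i)
    have h2 := straight_out (app T p') p (Sum.elim (Sum.elim s (slot q')) (slot q))
      (inDart p i).1 (inDart p i).2 (by rw [h.2.1]; rfl)
    have h3 : strand p ((inDart p i).1, (inDart p i).2) = (i, true) := strand_inDart p i
    rw [h3] at h2
    exact arc_trans h1 h2

private theorem comm_cr (x : Dart ((V ⊕ Bool) ⊕ Bool))
    (h : isC (Sum.elim (Sum.elim s (slot q)) (slot q')) x) :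
    isC (Sum.elim (Sum.elim s (slot q')) (slot q)) (cmap T p p' x) ∧
      cmap T p' p (cmap T p p' x) = x ∧ cmap T p p' (sg x) = sg (cmap T p p' x) ∧
      (Sum.elim (Sum.elim s (slot q)) (slot q') x.1).upper x.2 =
        (Sum.elim (Sum.elim s (slot q')) (slot q) (cmap T p p' x).1).upper
          (cmap T p p' x).2 := by
  obtain ⟨(v | b) | b, j⟩ := x
  · exact ⟨h, rfl, rfl, rfl⟩
  · cases b with
    | true => exact ⟨h, rfl, rfl, rfl⟩
    | false => exact absurd h (by simp [isC, slot, St.isX])
  · cases b with
    | true => exact ⟨h, rfl, rfl, rfl⟩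
    | false => exact absurd h (by simp [isC, slot, St.isX])

end comm

theorem tm_comm (T : Tangle V) (s : V → St) (p : ZMod 4) (q q' : St) :
    TM (app (app T p) (p + 2)) (Sum.elim (Sum.elim s (slot q)) (slot q'))
      (app (app T (p + 2)) p) (Sum.elim (Sum.elim s (slot q')) (slot q)) := by
  have h' : ∀ p : ZMod 4, p = p + 2 + 2 := by decide
  exact tm_of_red _ _ _ _ (cmap T p (p + 2)) (cmap T (p + 2) p)
    (fun x y h => comm_step T p (p + 2) s q q' rfl x y h)
    (fun x y h => comm_step T (p + 2) p s q' q (h' p) x y h)
    (fun x => comm_inv T p (p + 2) s q q' rfl x)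
    (fun x => comm_inv T (p + 2) p s q' q (h' p) x)
    (fun i => comm_port T p (p + 2) s q q' rfl i)
    (fun x h => ⟨(comm_cr T p (p + 2) s q q' x h).1, (comm_cr T p (p + 2) s q q' x h).2.1⟩)
    (fun x h => ⟨(comm_cr T (p + 2) p s q' q x h).1, (comm_cr T (p + 2) p s q' q x h).2.1⟩)
    (fun x h => (comm_cr T p (p + 2) s q q' x h).2.2.1)
    (fun x h => (comm_cr T p (p + 2) s q q' x h).2.2.2)

/-- the base state on which the letter at `p` is not a kink -/
def bst (p : ZMod 4) : St := if p = 0 ∨ p = 2 then St.smB else St.smA

/-- the port of an arc of the tangle with one letter -/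
private def cb (p : ZMod 4) (x : Dart (Unit ⊕ Bool)) : ZMod 4 :=
  match x.1 with
  | Sum.inl _ => if x.2 = p then p + 3 else if x.2 = p + 1 then p + 2 else x.2
  | Sum.inr b => if b = true then x.2 + p + 2 else (strand p (b, x.2)).1

/-- the states of the tangle with one letter -/
private def sb (p : ZMod 4) (q : St) : Unit ⊕ Bool → St := Sum.elim (fun _ => bst p) (slot q)

private theorem sb_eq (p : ZMod 4) (q : St) : Sum.elim (fun _ => bst p) (slot q) = sb p q := rfl

private theorem cb_l1 : ∀ p j : ZMod 4, cb p (dr (inDart p j)) = cb p (dl ((), j)) := by decide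

private theorem cb_l2 : ∀ (p : ZMod 4) (x : Bool × ZMod 4), (strand p x).2 = true →
    cb p (dl ((), (strand p x).1)) = cb p (dr x) := by decide

private theorem cb_t1 : ∀ p j : ZMod 4, cb p (dl ((), (bst p).mate j)) = cb p (dl ((), j)) := by
  decide

private theorem cb_t2 : ∀ p j : ZMod 4, cb p (dr (false, St.smB.mate j)) =
    cb p (dr (false, j)) := by
  decide

private theorem cb_port : ∀ p i : ZMod 4, cb p (dr (outDart p i)) = i := by decide

private theorem cb_step (p : ZMod 4) (q : St) (hq : q.isX = true) (x y : Dart (Unit ⊕ Bool))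
    (h : relT (app leafT p) (sb p q) x y) : cb p x = cb p y := by
  rcases h with h | ⟨h, rfl⟩
  · obtain ⟨v | b, j⟩ := x
    · have h1 : (app leafT p).link (Sum.inl v, j) = Sum.inl (dr (inDart p j)) := rfl
      rw [h1, Sum.inl.injEq] at h
      subst h
      exact (cb_l1 p j).symm
    · by_cases hs : (strand p (b, j)).2 = true
      · have h1 : (app leafT p).link (Sum.inr b, j) = _ := link_dr (x := (b, j)) hs
        rw [h1, Sum.inl.injEq] at h
        subst h
        exact (cb_l2 p (b, j) hs).symm
      · have hs' : (strand p (b, j)).2 = false := by simpa using hs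
        have h1 : (app leafT p).link (Sum.inr b, j) = _ := link_dr_out (x := (b, j)) hs'
        rw [h1] at h
        cases h
  · obtain ⟨v | b, j⟩ := x
    · exact (cb_t1 p j).symm
    · cases b with
      | true =>
        exact absurd hq h
      | false => exact (cb_t2 p j).symm

/-- the other end of the base arc -/
private theorem cb_dl : ∀ p j : ZMod 4, bq p j = false → cb p (dl ((), j)) = j := by decide

private theorem cb_dl' : ∀ p j : ZMod 4, bq p j = true → bq p ((bst p).mate j) = false ∧
    cb p (dl ((), j)) = (bst p).mate j := by decide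

private theorem cb_true : ∀ p j : ZMod 4, (strand p (true, j)).2 = true →
    bq p (strand p (true, j)).1 = true ∧
      cb p (dl ((), (strand p (true, j)).1)) = cb p (dr (true, j)) := by decide

private theorem cb_true' : ∀ p j : ZMod 4, (strand p (true, j)).2 = false →
    (true, j) = outDart p (cb p (dr (true, j))) := by decide

private theorem bst_isX : ∀ p : ZMod 4, (bst p).isX = false := by decide

private theorem arc_base0 (p : ZMod 4) (q : St) (j : ZMod 4) (hb : bq p j = false) :
    ArcT (app leafT p) (sb p q) (dl ((), j)) ((app leafT p).port j) := by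
  have h1 : ArcT (app leafT p) (sb p q) (dl ((), j)) (dr (inDart p j)) :=
    arc_link (link_dl_port leafT p j)
  have h0 : (inDart p j).1 = false := hb
  have h2 := straight_out leafT p (sb p q) (inDart p j).1 (inDart p j).2 (by rw [h0]; rfl)
  have h3 : strand p ((inDart p j).1, (inDart p j).2) = (j, true) := strand_inDart p j
  rw [h3] at h2
  exact arc_trans h1 h2

private theorem arc_base (p : ZMod 4) (q : St) (j : ZMod 4) :
    ArcT (app leafT p) (sb p q) (dl ((), j)) ((app leafT p).port (cb p (dl ((), j)))) := by
  cases hb : bq p j with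
  | false =>
    rw [cb_dl p j hb]
    exact arc_base0 p q j hb
  | true =>
    have h := cb_dl' p j hb
    rw [h.2]
    have h1 : ArcT (app leafT p) (sb p q) (dl ((), j)) (dl ((), (bst p).mate j)) := by
      refine arc_tau (s := sb p q) (x := dl ((), j)) ?_
      show ¬ (bst p).isX = true
      rw [bst_isX]
      decide
    exact arc_trans h1 (arc_base0 p q _ h.1)

private theorem cb_arc (p : ZMod 4) (q : St) (x : Dart (Unit ⊕ Bool)) :
    ArcT (app leafT p) (sb p q) x ((app leafT p).port (cb p x)) := by
  obtain ⟨v | b, j⟩ := x
  · exact arc_base p q j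
  · cases b with
    | false => exact straight_out leafT p (sb p q) false j rfl
    | true =>
      by_cases hs : (strand p (true, j)).2 = true
      · have h := cb_true p j hs
        have h1 : ArcT (app leafT p) (sb p q) (dr (true, j))
          (dl ((), (strand p (true, j)).1)) := arc_link (link_dr (x := (true, j)) hs)
        have h2 := arc_base p q (strand p (true, j)).1
        rw [h.2] at h2
        exact arc_trans h1 h2
      · have hs' : (strand p (true, j)).2 = false := by simpa using hs
        have h := cb_true' p j hs'
        have h1 : (app leafT p).port (cb p (Sum.inr true, j)) = (Sum.inr true, j) := by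
          show dr (outDart p (cb p (dr (true, j)))) = _
          rw [← h]
        rw [h1]
        exact arc_refl _

private theorem sb_cr (p : ZMod 4) (q : St) (x : Dart (Unit ⊕ Bool)) (h : isC (sb p q) x) :
    x = (Sum.inr true, x.2) := by
  obtain ⟨v | b, j⟩ := x
  · have h1 : (bst p).isX = true := h
    rw [bst_isX] at h1
    cases h1
  · cases b with
    | true => rfl
    | false => exact absurd h (by simp [isC, sb, slot, St.isX])

/-- the crossing darts of two tangles with one letter -/
private def phib (p p' : ZMod 4) (q q' : St) (hq : q.isX = true) (hq' : q'.isX = true) :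
    {x : Dart (Unit ⊕ Bool) // isC (sb p q) x} ≃
      {x : Dart (Unit ⊕ Bool) // isC (sb p' q') x} where
  toFun x := ⟨(Sum.inr true, x.1.2 + (p - p')), hq'⟩
  invFun x := ⟨(Sum.inr true, x.1.2 + (p' - p)), hq⟩
  left_inv x := by
    apply Subtype.ext
    show ((Sum.inr true : Unit ⊕ Bool), x.1.2 + (p - p') + (p' - p)) = x.1
    rw [sb_cr p q x.1 x.2]
    have h : x.1.2 + (p - p') + (p' - p) = x.1.2 := by ring
    simp only [h]
  right_inv x := by
    apply Subtype.ext
    show ((Sum.inr true : Unit ⊕ Bool), x.1.2 + (p' - p) + (p - p')) = x.1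
    rw [sb_cr p' q' x.1 x.2]
    have h : x.1.2 + (p' - p) + (p - p') = x.1.2 := by ring
    simp only [h]

private theorem upper_base : ∀ (p p' j : ZMod 4) (q : St), q.isX = true →
    q.upper j = (if p' = p ∨ p' = p + 2 then q else q.sw).upper (j + (p - p')) := by decide

private theorem isX_base : ∀ (p p' : ZMod 4) (q : St), q.isX = true →
    (if p' = p ∨ p' = p + 2 then q else q.sw).isX = true := by decide

theorem tm_base (p p' : ZMod 4) (q : St) (hq : q.isX = true) :
    TM (app leafT p) (Sum.elim (fun _ => bst p) (slot q)) (app leafT p')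
      (Sum.elim (fun _ => bst p') (slot (if p' = p ∨ p' = p + 2 then q else q.sw))) := by
  have hq' := isX_base p p' q hq
  rw [sb_eq, sb_eq]
  refine tm_of_inv _ _ _ _ (cb p) (cb p') (cb_step p q hq) (cb_step p' _ hq') (cb_arc p q)
    (cb_arc p' _) (fun i => cb_port p i) (fun i => cb_port p' i) (phib p p' q _ hq hq') ?_ ?_ ?_
  · intro x
    have h := sb_cr p q x.1 x.2
    rw [h]
    show x.1.2 + (p - p') + p' + 2 = x.1.2 + p + 2
    ring
  · intro x y h
    show ((Sum.inr true : Unit ⊕ Bool), y.1.2 + (p - p')) = (Sum.inr true, x.1.2 + (p - p') + 1)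
    rw [h]
    have h1 : (sg x.1).2 + (p - p') = x.1.2 + (p - p') + 1 := by
      show x.1.2 + 1 + (p - p') = _
      ring
    rw [h1]
  · intro x
    have h := sb_cr p q x.1 x.2
    have h1 := upper_base p p' x.1.2 q hq
    have h2 : sb p q x.1.1 = q := by
      rw [h]
      rfl
    rw [h2]
    exact h1

/-- the tangle with one crossing -/
theorem tm_leaf : TM leafT (fun _ => St.over1) (app leafT 2)
    (Sum.elim (fun _ => St.smB) (slot St.over1)) := by
  have e : (fun _ : Unit => St.smB) = fun _ => bst 2 := rfl
  rw [e, sb_eq]
  refine tm_of_inv _ _ _ _ (fun x => x.2) (cb 2) ?_ (cb_step 2 _ rfl) ?_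
    (cb_arc 2 _) (fun i => rfl) (fun i => cb_port 2 i)
    ⟨fun x => ⟨(Sum.inr true, x.1.2), rfl⟩, fun x => ⟨((), x.1.2), rfl⟩,
      fun x => rfl, fun x => Subtype.ext (sb_cr 2 _ x.1 x.2).symm⟩ ?_ ?_ ?_
  · rintro x y (h | ⟨h, rfl⟩)
    · cases h
    · exact absurd rfl h
  · intro x
    exact arc_refl _
  · intro x
    show x.1.2 + 2 + 2 = x.1.2
    exact z4_add22 _
  · intro x y h
    show ((Sum.inr true : Unit ⊕ Bool), y.1.2) = (Sum.inr true, x.1.2 + 1)
    rw [h]
    rfl
  · intro x
    rfl

end Pool.Agent.Helper65.LK
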