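import Pool.Agent.Helper65.LK.CompsV

/-!
# LK-10. Removing strands from a sweep

`sweep_straight`: let `U' = Cr t`.  By hypothesis `partner (Cr t) S t x = partner (Cr t) S s x` for
the crossing darts `x` of `t` (`partner_eq`).  By `partner_path` the latter is reached from `x` by
`z 0 = x`, `z (i + 1) = tau s (partner (Cr s) S s (z i))`; heights do not change under `tau s`; so if
`h x ≤ k < h (partner ..)` there is a first `i` with `h (z i) ≤ k < h (partner (Cr s) S s (z i))`.  The
map `x ↦ z i` is injective (go back until the first dart whose vertex is a crossing of `t`).  So `cut`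
for `t` follows from `cut` for `s`.  `Comp S t x y ↔ Comp S s x y` for crossing darts of `t`: both
are generated by `partner (Cr t) S t = partner (Cr t) S s` and `tau s = tau t` on these darts (`gen_iff`
with `U = Cr t`, once for `t` with `θ = tau t` and once for `s` with `θ = tau s`).

`sweep_kink`: `t = update s v (turn i)`, `Arc S s (v,i) (v,i+1)`.  The arcs of `t`: `arcRel (Cr t) S t`
and `arcRel (Cr t) S s` differ only in the steps at `v`: `turn i` joins `(v,i+1),(v,i+2)` and `(v,i+3),(v,i)`,
`tau s` joins `(v,i),(v,i+2)` and `(v,i+1),(v,i+3)`; since `(v,i)` and `(v,i+1)` are joined by the arc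
outside `v`, in both cases the four darts of `v` are in the same class, so the equivalence relations
are equal.

`sweep_bigon`: the same with `v, w`: in both cases the classes of the darts at `v, w` are generated
by the arcs of `s` and `(v,i) ~ (w,j+1) ~ (v,i+2) ~ (w,j+3)`, `(v,i+1) ~ (w,j) ~ (v,i+3) ~ (w,j+2)` for
`tau s`; for the smoothed state `t`: `(v,i+2) ~ (v,i+1) ~ (w,j) ~ (w,j+3)` and
`(v,i+3) ~ (v,i) ~ (w,j+1) ~ (w,j+2)`.  So for the four outer darts `(v,i+2), (w,j+3)` resp.
`(v,i+3), (w,j+2)` the same pairs are joined (the inner darts `(v,i), (v,i+1), (w,j), (w,j+1)` are not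
ends of arcs to crossing darts of `t`, only the classes of the crossing darts of `t` matter):
compress both relations to the set of all darts except these four inner darts.
-/

namespace Pool.Agent.Helper65.LK

open Function

variable {V : Type} [Fintype V] [DecidableEq V]

private theorem ss_mate {q : St} (h : q.isX = true) (l : ZMod 4) : q.mate l = l + 2 := by
  cases q
  · rfl
  · rfl
  · exact absurd h (by decide)
  · exact absurd h (by decide)

private theorem ss_turnX (i : ZMod 4) : (St.turn i).isX = false := by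
  revert i; decide

private theorem ss_turn (i : ZMod 4) : (St.turn i).mate i = i + 3 ∧
    (St.turn i).mate (i + 1) = i + 2 ∧ (St.turn i).mate (i + 2) = i + 1 ∧
    (St.turn i).mate (i + 3) = i := by
  revert i; decide

private theorem ss_cases (i j : ZMod 4) : j = i ∨ j = i + 1 ∨ j = i + 2 ∨ j = i + 3 := by
  revert i j; decide

private theorem ss_ne (i : ZMod 4) : i + 1 ≠ i ∧ i + 2 ≠ i ∧ i + 3 ≠ i ∧ i + 2 ≠ i + 1 ∧
    i + 3 ≠ i + 1 ∧ i + 3 ≠ i + 2 := by
  revert i; decide

private theorem ss_two (i : ZMod 4) : i + 1 + 2 = i + 3 ∧ i + 2 + 2 = i ∧ i + 3 + 2 = i + 1 := by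
  revert i; decide

private theorem ss_le {X : Type} {r r' : X → X → Prop}
    (h : ∀ a b, r a b → Relation.EqvGen r' a b) {a b : X} (hab : Relation.EqvGen r a b) :
    Relation.EqvGen r' a b := by
  induction hab with
  | rel a b h1 => exact h a b h1
  | refl a => exact Relation.EqvGen.refl a
  | symm a b _ ih => exact Relation.EqvGen.symm _ _ ih
  | trans a b c _ _ ih1 ih2 => exact Relation.EqvGen.trans _ _ _ ih1 ih2

open Classical in
/-- interchange of two classes -/
private noncomputable def ssw {X : Type} (r0 : X → X → Prop) (p q a : X) : X :=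
  if Relation.EqvGen r0 p a then q else if Relation.EqvGen r0 q a then p else a

private theorem ssw_one {X : Type} {r0 : X → X → Prop} {p q a : X}
    (h : Relation.EqvGen r0 p a) : ssw r0 p q a = q := if_pos h

private theorem ssw_two {X : Type} {r0 : X → X → Prop} {p q a : X}
    (h : ¬ Relation.EqvGen r0 p a) (h' : Relation.EqvGen r0 q a) : ssw r0 p q a = p := by
  unfold ssw
  rw [if_neg h, if_pos h']

private theorem ssw_three {X : Type} {r0 : X → X → Prop} {p q a : X}
    (h : ¬ Relation.EqvGen r0 p a) (h' : ¬ Relation.EqvGen r0 q a) : ssw r0 p q a = a := by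
  unfold ssw
  rw [if_neg h, if_neg h']

private theorem ssw_le {X : Type} {r0 r1 r2 : X → X → Prop} {p q : X}
    (h : ∀ a b, r1 a b → Relation.EqvGen r0 a b ∨
      Relation.EqvGen r2 (ssw r0 p q a) (ssw r0 p q b))
    (hr : ∀ a b, r0 a b → Relation.EqvGen r2 a b) {a b : X} (hab : Relation.EqvGen r1 a b) :
    Relation.EqvGen r2 (ssw r0 p q a) (ssw r0 p q b) := by
  induction hab with
  | rel a b h1 =>
    rcases h a b h1 with h2 | h2
    · by_cases hp : Relation.EqvGen r0 p a
      · rw [ssw_one hp, ssw_one (Relation.EqvGen.trans _ _ _ hp h2)]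
        exact Relation.EqvGen.refl _
      · have hp' : ¬ Relation.EqvGen r0 p b := fun hb =>
          hp (Relation.EqvGen.trans _ _ _ hb (Relation.EqvGen.symm _ _ h2))
        by_cases hq : Relation.EqvGen r0 q a
        · rw [ssw_two hp hq, ssw_two hp' (Relation.EqvGen.trans _ _ _ hq h2)]
          exact Relation.EqvGen.refl _
        · have hq' : ¬ Relation.EqvGen r0 q b := fun hb =>
            hq (Relation.EqvGen.trans _ _ _ hb (Relation.EqvGen.symm _ _ h2))
          rw [ssw_three hp hq, ssw_three hp' hq']
          exact ss_le hr h2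
    · exact h2
  | refl a => exact Relation.EqvGen.refl _
  | symm a b _ ih => exact Relation.EqvGen.symm _ _ ih
  | trans a b c _ _ ih1 ih2 => exact Relation.EqvGen.trans _ _ _ ih1 ih2

/-- going back along a chain -/
private theorem ss_back {X : Type} {U U' : X → Prop} {p τ : X → X} (hp : ∀ x, U x → p (p x) = x)
    (hτ : ∀ x, τ (τ x) = x) (hU' : ∀ x, U' (τ x) → U' x) :
    ∀ (i j : ℕ) (z z' : ℕ → X), U' (z 0) → U' (z' 0) →
      (∀ l < i, ¬ U' (p (z l)) ∧ z (l + 1) = τ (p (z l)) ∧ U (z l)) →
      (∀ l < j, ¬ U' (p (z' l)) ∧ z' (l + 1) = τ (p (z' l)) ∧ U (z' l)) →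
      z i = z' j → z 0 = z' 0 := by
  intro i
  induction i with
  | zero =>
    intro j z z' h1 h2 _ h4 h5
    rcases j with _ | j
    · exact h5
    · exfalso
      obtain ⟨e1, e2, _⟩ := h4 j (Nat.lt_succ_self j)
      rw [h5, e2] at h1
      exact e1 (hU' _ h1)
  | succ n ih =>
    intro j z z' h1 h2 h3 h4 h5
    rcases j with _ | j
    · exfalso
      obtain ⟨e1, e2, _⟩ := h3 n (Nat.lt_succ_self n)
      rw [← h5, e2] at h2
      exact e1 (hU' _ h2)
    · obtain ⟨_, e2, e3⟩ := h3 n (Nat.lt_succ_self n)
      obtain ⟨_, f2, f3⟩ := h4 j (Nat.lt_succ_self j)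
      refine ih j z z' h1 h2 (fun l hl => h3 l (by omega)) (fun l hl => h4 l (by omega)) ?_
      have h6 : p (z n) = p (z' j) := by
        have h7 := congrArg τ h5
        rw [e2, f2, hτ, hτ] at h7
        exact h7
      rw [← hp _ e3, h6, hp _ f3]

theorem sweep_straight {S : Shadow V} {s t : V → St} {h : Dart V → ℕ} (hs : Sweep S s h)
    (ht1 : ∀ v, (t v).isX = true → t v = s v) (ht2 : Below t s)
    (ha : ∀ x y, isC t x → isC t y →
      (Arc S t x y ↔ Relation.EqvGen (arcRel (Cr t) S s) x y)) :
    Sweep S t h := by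
  have hC : ∀ x : Dart V, isC t x → isC s x := by
    intro x hx
    have h1 : (t x.1).isX = true := hx
    show (s x.1).isX = true
    rw [← ht1 _ h1]
    exact h1
  have htau : ∀ x : Dart V, isC t x → tau t x = tau s x := by
    intro x hx
    show (x.1, (t x.1).mate x.2) = (x.1, (s x.1).mate x.2)
    rw [ht1 _ hx]
  have hpart : ∀ x : Dart V, isC t x → partner (Cr t) S t x = partner (Cr t) S s x := by
    intro x hx
    obtain ⟨e1, e2, e3, _⟩ := partner_spec (Cr t) S t x hx
    exact (partner_eq (Cr t) S s x _ hx e1 e2 ((ha x _ hx e1).1 e3)).symm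
  have hcomp : ∀ x y : Dart V, isC t x → isC t y → (Comp S t x y ↔ Comp S s x y) := by
    intro x y hx hy
    have e1 := gen_iff (Cr t) S t (tau t) (fun _ => rfl) (fun _ _ => rfl) ⟨x, hx⟩ ⟨y, hy⟩
    have e2 := gen_iff (Cr t) S s (tau s) (fun _ => rfl) (fun _ _ => rfl) ⟨x, hx⟩ ⟨y, hy⟩
    have e3 : genU (Cr t) S t (tau t) = genU (Cr t) S s (tau s) := by
      funext a b
      unfold genU
      rw [hpart a.1 a.2, htau a.1 a.2]
    rw [e3] at e1
    exact e1.trans e2.symm
  refine ⟨?_, ?_, ?_, ?_⟩
  · intro x hx
    rw [htau x hx]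
    exact hs.const x (hC x hx)
  · intro x y hx hy hxy
    rw [htau x hx]
    exact hs.inj x y (hC x hx) (hC y hy) hxy
  · intro k
    have key : ∀ x : Dart V, x ∈ {x : Dart V | isC t x ∧ h x ≤ k ∧ k < h (partner (Cr t) S t x)} →
        ∃ w : Dart V, (isC s w ∧ h w ≤ k ∧ k < h (partner (Cr s) S s w)) ∧
          ∃ (i : ℕ) (z : ℕ → Dart V), z 0 = x ∧ z i = w ∧
            ∀ l < i, ¬ Cr t (partner (Cr s) S s (z l)).1 ∧
              z (l + 1) = tau s (partner (Cr s) S s (z l)) ∧ Cr s (z l).1 := by
      rintro x ⟨hx, hxk, hkx⟩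
      obtain ⟨m, z, hz0, hz1, hz2, hz3⟩ := partner_path (Cr s) (Cr t)
        (fun v hv => by
          have h1 : (t v).isX = true := hv
          show (s v).isX = true
          rw [← ht1 _ h1]
          exact h1) S s x hx
      rw [hpart x hx, hz3] at hkx
      have hex : ∃ i, k < h (partner (Cr s) S s (z i)) := ⟨m, hkx⟩
      classical
      have hi1 := Nat.find_spec hex
      have hi2 : Nat.find hex ≤ m := Nat.find_min' hex hkx
      have hi3 : ∀ l < Nat.find hex, ¬ k < h (partner (Cr s) S s (z l)) := fun l hl =>
        Nat.find_min hex hl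
      generalize Nat.find hex = i at hi1 hi2 hi3
      refine ⟨z i, ⟨hz2 i hi2, ?_, hi1⟩, i, z, hz0, rfl, fun l hl =>
        ⟨(hz1 l (by omega)).1, (hz1 l (by omega)).2, hz2 l (by omega)⟩⟩
      rcases i with _ | i
      · rw [hz0]
        exact hxk
      · rw [(hz1 i (by omega)).2, hs.const _ (partner_spec (Cr s) S s (z i) (hz2 i (by omega))).1]
        exact not_lt.1 (hi3 i (Nat.lt_succ_self i))
    choose! f hf1 hf2 using key
    refine le_trans ?_ (hs.cut k)
    refine Set.ncard_le_ncard_of_injOn f hf1 ?_ (Set.toFinite _)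
    intro x hx x' hx' hxx
    obtain ⟨i, z, hz0, hzi, hz⟩ := hf2 x hx
    obtain ⟨i', z', hz0', hzi', hz'⟩ := hf2 x' hx'
    have h0 := ss_back (U := fun x : Dart V => Cr s x.1) (U' := fun x : Dart V => Cr t x.1)
      (p := partner (Cr s) S s) (τ := tau s)
      (fun y hy => partner_partner (Cr s) S s y hy) (fun y => (tau s).left_inv y)
      (fun y hy => hy) i i' z z' (by rw [hz0]; exact hx.1) (by rw [hz0']; exact hx'.1) hz hz'
      (by rw [hzi, hzi', hxx])
    rw [hz0, hz0'] at h0
    exact h0
  · intro x y z hx hy hz hxy hyz hxz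
    rw [hcomp x y hx hy]
    exact hs.sep x y z (hC x hx) (hC y hy) (hC z hz) hxy hyz ((hcomp x z hx hz).1 hxz)

theorem sweep_kink {S : Shadow V} {s : V → St} {h : Dart V → ℕ} (hs : Sweep S s h) (v : V)
    (i : ZMod 4) (hv : (s v).isX = true) (h1 : Arc S s (v, i) (v, i + 1)) :
    Sweep S (update s v (St.turn i)) h := by
  set t := update s v (St.turn i) with ht
  have htv : t v = St.turn i := update_self _ _ _
  have htw : ∀ w, w ≠ v → t w = s w := fun w hw => update_of_ne hw _ _
  have hCv : ¬ Cr t v := by
    intro h2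
    have h3 : (t v).isX = true := h2
    rw [htv, ss_turnX] at h3
    exact absurd h3 (by decide)
  have hCt : ∀ w, Cr t w → w ≠ v := by
    rintro w hw rfl
    exact hCv hw
  have hCs : ∀ w, ¬ Cr s w → w ≠ v ∧ ¬ Cr t w := by
    intro w hw
    have hwv : w ≠ v := by
      rintro rfl
      exact hw hv
    refine ⟨hwv, fun h2 => hw ?_⟩
    have h3 : (t w).isX = true := h2
    rw [htw w hwv] at h3
    exact h3
  -- the arcs of `s` in both relations
  have hr1 : ∀ a b, arcRel (Cr s) S s a b → arcRel (Cr t) S s a b := by
    rintro a b (h2 | ⟨h2, h3⟩)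
    · exact Or.inl h2
    · exact Or.inr ⟨(hCs _ h2).2, h3⟩
  have hr2 : ∀ a b, arcRel (Cr s) S s a b → arcRel (Cr t) S t a b := by
    rintro a b (h2 | ⟨h2, h3⟩)
    · exact Or.inl h2
    · refine Or.inr ⟨(hCs _ h2).2, ?_⟩
      rw [h3]
      show (a.1, (s a.1).mate a.2) = (a.1, (t a.1).mate a.2)
      rw [htw _ (hCs _ h2).1]
  have k1 : Relation.EqvGen (arcRel (Cr t) S s) (v, i) (v, i + 1) :=
    ss_le (fun a b hab => Relation.EqvGen.rel _ _ (hr1 a b hab)) h1
  have k2 : Relation.EqvGen (arcRel (Cr t) S t) (v, i) (v, i + 1) :=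
    ss_le (fun a b hab => Relation.EqvGen.rel _ _ (hr2 a b hab)) h1
  have m1 : ∀ l, Relation.EqvGen (arcRel (Cr t) S s) (v, l) (v, l + 2) := by
    intro l
    refine Relation.EqvGen.rel _ _ (Or.inr ⟨hCv, ?_⟩)
    show (v, l + 2) = (v, (s v).mate l)
    rw [ss_mate hv]
  have m2 : ∀ l, Relation.EqvGen (arcRel (Cr t) S t) (v, l) (v, (St.turn i).mate l) := by
    intro l
    refine Relation.EqvGen.rel _ _ (Or.inr ⟨hCv, ?_⟩)
    show (v, (St.turn i).mate l) = (v, (t v).mate l)
    rw [htv]
  have a1 : ∀ l, Relation.EqvGen (arcRel (Cr t) S s) (v, i) (v, l) := by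
    intro l
    have e2 := m1 i
    have e3 := m1 (i + 1)
    rw [(ss_two i).1] at e3
    rcases ss_cases i l with rfl | rfl | rfl | rfl
    · exact Relation.EqvGen.refl _
    · exact k1
    · exact e2
    · exact Relation.EqvGen.trans _ _ _ k1 e3
  have a2 : ∀ l, Relation.EqvGen (arcRel (Cr t) S t) (v, i) (v, l) := by
    intro l
    have e2 := m2 i
    have e3 := m2 (i + 1)
    rw [(ss_turn i).1] at e2
    rw [(ss_turn i).2.1] at e3
    rcases ss_cases i l with rfl | rfl | rfl | rfl
    · exact Relation.EqvGen.refl _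
    · exact k2
    · exact Relation.EqvGen.trans _ _ _ k2 e3
    · exact e2
  refine sweep_straight hs ?_ ?_ ?_
  · intro w hw
    exact htw w (hCt w hw)
  · intro w hw
    refine htw w ?_
    rintro rfl
    rw [hv] at hw
    exact absurd hw (by decide)
  · intro x y _ _
    constructor
    · intro h2
      refine ss_le ?_ h2
      rintro a b (h3 | ⟨h3, h4⟩)
      · exact Relation.EqvGen.rel _ _ (Or.inl h3)
      · by_cases hav : a.1 = v
        · obtain ⟨a1', a2'⟩ := a
          obtain ⟨b1', b2'⟩ := b
          have hav' : a1' = v := hav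
          have hb : b1' = v := (congrArg Prod.fst h4).trans hav
          rw [hav', hb]
          exact Relation.EqvGen.trans _ _ _ (Relation.EqvGen.symm _ _ (a1 a2')) (a1 b2')
        · refine Relation.EqvGen.rel _ _ (Or.inr ⟨h3, ?_⟩)
          rw [h4]
          show (a.1, (t a.1).mate a.2) = (a.1, (s a.1).mate a.2)
          rw [htw _ hav]
    · intro h2
      refine ss_le ?_ h2
      rintro a b (h3 | ⟨h3, h4⟩)
      · exact Relation.EqvGen.rel _ _ (Or.inl h3)
      · by_cases hav : a.1 = v
        · obtain ⟨a1', a2'⟩ := a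
          obtain ⟨b1', b2'⟩ := b
          have hav' : a1' = v := hav
          have hb : b1' = v := (congrArg Prod.fst h4).trans hav
          rw [hav', hb]
          exact Relation.EqvGen.trans _ _ _ (Relation.EqvGen.symm _ _ (a2 a2')) (a2 b2')
        · refine Relation.EqvGen.rel _ _ (Or.inr ⟨h3, ?_⟩)
          rw [h4]
          show (a.1, (s a.1).mate a.2) = (a.1, (t a.1).mate a.2)
          rw [htw _ hav]

theorem sweep_bigon {S : Shadow V} {s : V → St} {h : Dart V → ℕ} (hs : Sweep S s h) (v w : V)
    (i j : ZMod 4) (hvw : v ≠ w) (hv : (s v).isX = true) (hw : (s w).isX = true)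
    (h1 : Arc S s (v, i) (w, j + 1)) (h2 : Arc S s (v, i + 1) (w, j)) :
    Sweep S (update (update s v (St.turn i)) w (St.turn j)) h := by
  set t := update (update s v (St.turn i)) w (St.turn j) with ht
  have htw : t w = St.turn j := update_self _ _ _
  have htv : t v = St.turn i := by
    rw [ht, update_of_ne hvw, update_self]
  have hto : ∀ u, u ≠ v → u ≠ w → t u = s u := by
    intro u h3 h4
    rw [ht, update_of_ne h4, update_of_ne h3]
  have hCv : ¬ Cr t v := by
    intro h3
    have h4 : (t v).isX = true := h3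
    rw [htv, ss_turnX] at h4
    exact absurd h4 (by decide)
  have hCw : ¬ Cr t w := by
    intro h3
    have h4 : (t w).isX = true := h3
    rw [htw, ss_turnX] at h4
    exact absurd h4 (by decide)
  have hCs : ∀ u, ¬ Cr s u → u ≠ v ∧ u ≠ w ∧ ¬ Cr t u := by
    intro u hu
    have huv : u ≠ v := by
      rintro rfl
      exact hu hv
    have huw : u ≠ w := by
      rintro rfl
      exact hu hw
    refine ⟨huv, huw, fun h3 => hu ?_⟩
    have h4 : (t u).isX = true := h3
    rw [hto u huv huw] at h4
    exact h4
  have hCts : ∀ u, Cr t u → Cr s u := by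
    intro u hu
    by_contra h3
    exact (hCs u h3).2.2 hu
  have hr1 : ∀ a b, arcRel (Cr s) S s a b → Relation.EqvGen (arcRel (Cr t) S s) a b := by
    rintro a b (h3 | ⟨h3, h4⟩)
    · exact Relation.EqvGen.rel _ _ (Or.inl h3)
    · exact Relation.EqvGen.rel _ _ (Or.inr ⟨(hCs _ h3).2.2, h4⟩)
  have hr2 : ∀ a b, arcRel (Cr s) S s a b → Relation.EqvGen (arcRel (Cr t) S t) a b := by
    rintro a b (h3 | ⟨h3, h4⟩)
    · exact Relation.EqvGen.rel _ _ (Or.inl h3)
    · refine Relation.EqvGen.rel _ _ (Or.inr ⟨(hCs _ h3).2.2, ?_⟩)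
      rw [h4]
      show (a.1, (s a.1).mate a.2) = (a.1, (t a.1).mate a.2)
      rw [hto _ (hCs _ h3).1 (hCs _ h3).2.1]
  -- the two inner arcs
  have A1 : ∀ y : Dart V, Cr s y.1 → Arc S s (v, i) y → y = (v, i) ∨ y = (w, j + 1) := by
    intro y hy hay
    obtain ⟨_, _, _, e4⟩ := partner_spec (Cr s) S s (v, i) hv
    have e5 : partner (Cr s) S s (v, i) = (w, j + 1) := by
      refine partner_eq (Cr s) S s (v, i) (w, j + 1) hv hw ?_ h1
      intro h3
      exact hvw (congrArg Prod.fst h3).symm
    rw [← e5]
    exact e4 y hy hay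
  have A2 : ∀ y : Dart V, Cr s y.1 → Arc S s (v, i + 1) y → y = (v, i + 1) ∨ y = (w, j) := by
    intro y hy hay
    obtain ⟨_, _, _, e4⟩ := partner_spec (Cr s) S s (v, i + 1) hv
    have e5 : partner (Cr s) S s (v, i + 1) = (w, j) := by
      refine partner_eq (Cr s) S s (v, i + 1) (w, j) hv hw ?_ h2
      intro h3
      exact hvw (congrArg Prod.fst h3).symm
    rw [← e5]
    exact e4 y hy hay
  have hv' : ∀ l : ZMod 4, l ≠ i → ¬ Arc S s (v, i) (v, l) := by
    intro l hl h3
    rcases A1 (v, l) hv h3 with h4 | h4
    · exact hl (congrArg Prod.snd h4)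
    · exact hvw (congrArg Prod.fst h4)
  have hv'' : ∀ l : ZMod 4, l ≠ i + 1 → ¬ Arc S s (v, i + 1) (v, l) := by
    intro l hl h3
    rcases A2 (v, l) hv h3 with h4 | h4
    · exact hl (congrArg Prod.snd h4)
    · exact hvw (congrArg Prod.fst h4)
  have hw' : ∀ l : ZMod 4, l ≠ j + 1 → ¬ Arc S s (v, i) (w, l) := by
    intro l hl h3
    rcases A1 (w, l) hw h3 with h4 | h4
    · exact hvw (congrArg Prod.fst h4).symm
    · exact hl (congrArg Prod.snd h4)
  have hw'' : ∀ l : ZMod 4, l ≠ j → ¬ Arc S s (v, i + 1) (w, l) := by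
    intro l hl h3
    rcases A2 (w, l) hw h3 with h4 | h4
    · exact hvw (congrArg Prod.fst h4).symm
    · exact hl (congrArg Prod.snd h4)
  obtain ⟨i1, i2, i3, i4, i5, i6⟩ := ss_ne i
  obtain ⟨j1, j2, j3, j4, j5, j6⟩ := ss_ne j
  set σ : Dart V → Dart V := ssw (arcRel (Cr s) S s) (v, i) (v, i + 1) with hσ
  have s1 : σ (v, i) = (v, i + 1) := ssw_one (Relation.EqvGen.refl _)
  have s2 : σ (v, i + 1) = (v, i) := ssw_two (hv' _ i1) (Relation.EqvGen.refl _)
  have s3 : σ (v, i + 2) = (v, i + 2) := ssw_three (hv' _ i2) (hv'' _ i4)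
  have s4 : σ (v, i + 3) = (v, i + 3) := ssw_three (hv' _ i3) (hv'' _ i5)
  have s5 : σ (w, j + 1) = (v, i + 1) := ssw_one h1
  have s6 : σ (w, j) = (v, i) := ssw_two (hw' _ j1.symm) h2
  have s7 : σ (w, j + 2) = (w, j + 2) := ssw_three (hw' _ j4) (hw'' _ j2)
  have s8 : σ (w, j + 3) = (w, j + 3) := ssw_three (hw' _ j5) (hw'' _ j3)
  have s9 : ∀ x : Dart V, isC t x → σ x = x := by
    intro x hx
    have hxs : Cr s x.1 := hCts _ hx
    have hxv : x.1 ≠ v := by
      intro h3
      exact hCv (h3 ▸ hx)
    have hxw : x.1 ≠ w := by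
      intro h3
      exact hCw (h3 ▸ hx)
    refine ssw_three ?_ ?_
    · intro h3
      rcases A1 x hxs h3 with h4 | h4
      · exact hxv (congrArg Prod.fst h4)
      · exact hxw (congrArg Prod.fst h4)
    · intro h3
      rcases A2 x hxs h3 with h4 | h4
      · exact hxv (congrArg Prod.fst h4)
      · exact hxw (congrArg Prod.fst h4)
  -- the steps
  have m1 : ∀ l, Relation.EqvGen (arcRel (Cr t) S s) (v, l) (v, l + 2) := by
    intro l
    refine Relation.EqvGen.rel _ _ (Or.inr ⟨hCv, ?_⟩)
    show (v, l + 2) = (v, (s v).mate l)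
    rw [ss_mate hv]
  have m1' : ∀ l, Relation.EqvGen (arcRel (Cr t) S s) (w, l) (w, l + 2) := by
    intro l
    refine Relation.EqvGen.rel _ _ (Or.inr ⟨hCw, ?_⟩)
    show (w, l + 2) = (w, (s w).mate l)
    rw [ss_mate hw]
  have m2 : ∀ l, Relation.EqvGen (arcRel (Cr t) S t) (v, l) (v, (St.turn i).mate l) := by
    intro l
    refine Relation.EqvGen.rel _ _ (Or.inr ⟨hCv, ?_⟩)
    show (v, (St.turn i).mate l) = (v, (t v).mate l)
    rw [htv]
  have m2' : ∀ l, Relation.EqvGen (arcRel (Cr t) S t) (w, l) (w, (St.turn j).mate l) := by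
    intro l
    refine Relation.EqvGen.rel _ _ (Or.inr ⟨hCw, ?_⟩)
    show (w, (St.turn j).mate l) = (w, (t w).mate l)
    rw [htw]
  have k1 : Relation.EqvGen (arcRel (Cr t) S s) (v, i) (w, j + 1) := ss_le hr1 h1
  have k1' : Relation.EqvGen (arcRel (Cr t) S s) (v, i + 1) (w, j) := ss_le hr1 h2
  have k2 : Relation.EqvGen (arcRel (Cr t) S t) (v, i) (w, j + 1) := ss_le hr2 h1
  have k2' : Relation.EqvGen (arcRel (Cr t) S t) (v, i + 1) (w, j) := ss_le hr2 h2
  -- joins for `s`
  have b1 : Relation.EqvGen (arcRel (Cr t) S s) (v, i) (v, i + 2) := m1 i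
  have b2 : Relation.EqvGen (arcRel (Cr t) S s) (v, i + 1) (v, i + 3) := by
    have e := m1 (i + 1)
    rwa [(ss_two i).1] at e
  have b3 : Relation.EqvGen (arcRel (Cr t) S s) (v, i) (w, j + 3) := by
    have e := m1' (j + 1)
    rw [(ss_two j).1] at e
    exact Relation.EqvGen.trans _ _ _ k1 e
  have b4 : Relation.EqvGen (arcRel (Cr t) S s) (v, i + 1) (w, j + 2) :=
    Relation.EqvGen.trans _ _ _ k1' (m1' j)
  -- joins for `t`
  have c1 : Relation.EqvGen (arcRel (Cr t) S t) (v, i + 1) (v, i + 2) := by
    have e := m2 (i + 1)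
    rwa [(ss_turn i).2.1] at e
  have c2 : Relation.EqvGen (arcRel (Cr t) S t) (v, i) (v, i + 3) := by
    have e := m2 i
    rwa [(ss_turn i).1] at e
  have c3 : Relation.EqvGen (arcRel (Cr t) S t) (v, i + 1) (w, j + 3) := by
    have e := m2' j
    rw [(ss_turn j).1] at e
    exact Relation.EqvGen.trans _ _ _ k2' e
  have c4 : Relation.EqvGen (arcRel (Cr t) S t) (v, i) (w, j + 2) := by
    have e := m2' (j + 1)
    rw [(ss_turn j).2.1] at e
    exact Relation.EqvGen.trans _ _ _ k2 e
  refine sweep_straight hs ?_ ?_ ?_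
  · intro u hu
    refine hto u ?_ ?_
    · rintro rfl
      exact hCv hu
    · rintro rfl
      exact hCw hu
  · intro u hu
    refine hto u ?_ ?_
    · rintro rfl
      rw [hv] at hu
      exact absurd hu (by decide)
    · rintro rfl
      rw [hw] at hu
      exact absurd hu (by decide)
  · intro x y hx hy
    constructor
    · intro h3
      have h4 : Relation.EqvGen (arcRel (Cr t) S s) (σ x) (σ y) := by
        refine ssw_le (r1 := arcRel (Cr t) S t) ?_ hr1 h3
        rintro a b (h5 | ⟨h5, h6⟩)
        · exact Or.inl (Relation.EqvGen.rel _ _ (Or.inl h5))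
        · by_cases has : Cr s a.1
          · right
            have hab : a.1 = v ∨ a.1 = w := by
              by_contra h7
              push Not at h7
              apply h5
              show (t a.1).isX = true
              rw [hto _ h7.1 h7.2]
              exact has
            obtain ⟨a1, a2⟩ := a
            have hab' : a1 = v ∨ a1 = w := hab
            rcases hab' with rfl | rfl
            · have h7 : b = (a1, (St.turn i).mate a2) := by
                rw [h6, ← htv]
                rfl
              rw [h7]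
              rcases ss_cases i a2 with rfl | rfl | rfl | rfl
              · rw [(ss_turn a2).1]
                show Relation.EqvGen _ (σ _) (σ _)
                rw [s1, s4]
                exact b2
              · rw [(ss_turn i).2.1]
                show Relation.EqvGen _ (σ _) (σ _)
                rw [s2, s3]
                exact b1
              · rw [(ss_turn i).2.2.1]
                show Relation.EqvGen _ (σ _) (σ _)
                rw [s3, s2]
                exact Relation.EqvGen.symm _ _ b1
              · rw [(ss_turn i).2.2.2]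
                show Relation.EqvGen _ (σ _) (σ _)
                rw [s4, s1]
                exact Relation.EqvGen.symm _ _ b2
            · have h7 : b = (a1, (St.turn j).mate a2) := by
                rw [h6, ← htw]
                rfl
              rw [h7]
              rcases ss_cases j a2 with rfl | rfl | rfl | rfl
              · rw [(ss_turn a2).1]
                show Relation.EqvGen _ (σ _) (σ _)
                rw [s6, s8]
                exact b3
              · rw [(ss_turn j).2.1]
                show Relation.EqvGen _ (σ _) (σ _)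
                rw [s5, s7]
                exact b4
              · rw [(ss_turn j).2.2.1]
                show Relation.EqvGen _ (σ _) (σ _)
                rw [s7, s5]
                exact Relation.EqvGen.symm _ _ b4
              · rw [(ss_turn j).2.2.2]
                show Relation.EqvGen _ (σ _) (σ _)
                rw [s8, s6]
                exact Relation.EqvGen.symm _ _ b3
          · left
            refine Relation.EqvGen.rel _ _ (Or.inr ⟨has, ?_⟩)
            rw [h6]
            show (a.1, (t a.1).mate a.2) = (a.1, (s a.1).mate a.2)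
            rw [hto _ (hCs _ has).1 (hCs _ has).2.1]
      rw [s9 x hx, s9 y hy] at h4
      exact h4
    · intro h3
      have h4 : Relation.EqvGen (arcRel (Cr t) S t) (σ x) (σ y) := by
        refine ssw_le (r1 := arcRel (Cr t) S s) ?_ hr2 h3
        rintro a b (h5 | ⟨h5, h6⟩)
        · exact Or.inl (Relation.EqvGen.rel _ _ (Or.inl h5))
        · by_cases has : Cr s a.1
          · right
            have hab : a.1 = v ∨ a.1 = w := by
              by_contra h7
              push Not at h7
              apply h5
              show (t a.1).isX = true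
              rw [hto _ h7.1 h7.2]
              exact has
            obtain ⟨a1, a2⟩ := a
            have hab' : a1 = v ∨ a1 = w := hab
            rcases hab' with rfl | rfl
            · have h7 : b = (a1, a2 + 2) := by
                rw [h6, ← ss_mate hv]
                rfl
              rw [h7]
              rcases ss_cases i a2 with rfl | rfl | rfl | rfl
              · show Relation.EqvGen _ (σ _) (σ _)
                rw [s1, s3]
                exact c1
              · rw [(ss_two i).1]
                show Relation.EqvGen _ (σ _) (σ _)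
                rw [s2, s4]
                exact c2
              · rw [(ss_two i).2.1]
                show Relation.EqvGen _ (σ _) (σ _)
                rw [s3, s1]
                exact Relation.EqvGen.symm _ _ c1
              · rw [(ss_two i).2.2]
                show Relation.EqvGen _ (σ _) (σ _)
                rw [s4, s2]
                exact Relation.EqvGen.symm _ _ c2
            · have h7 : b = (a1, a2 + 2) := by
                rw [h6, ← ss_mate hw]
                rfl
              rw [h7]
              rcases ss_cases j a2 with rfl | rfl | rfl | rfl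
              · show Relation.EqvGen _ (σ _) (σ _)
                rw [s6, s7]
                exact c4
              · rw [(ss_two j).1]
                show Relation.EqvGen _ (σ _) (σ _)
                rw [s5, s8]
                exact c3
              · rw [(ss_two j).2.1]
                show Relation.EqvGen _ (σ _) (σ _)
                rw [s7, s6]
                exact Relation.EqvGen.symm _ _ c4
              · rw [(ss_two j).2.2]
                show Relation.EqvGen _ (σ _) (σ _)
                rw [s8, s5]
                exact Relation.EqvGen.symm _ _ c3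
          · exact Or.inl (Relation.EqvGen.rel _ _ (Or.inr ⟨has, h6⟩))
      rw [s9 x hx, s9 y hy] at h4
      exact h4

end Pool.Agent.Helper65.LK
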