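import Pool.Agent.Helper65.LK.Iso
import Pool.Agent.Helper65.LK.SweepStraight

/-!
# LK-15. Skein functions are invariant under the first Reidemeister move

Proof by induction on `nX s`.  For `t` of the same shape as `s` let
`G t = F t - F (update t v (turn i))`.  At a crossing `w ≠ v` the skein relations of `F` at `t` and at
`update t v (turn i)` give `G t + G (update t w (t w).sw) = z * (G (update t w smA) + G (update t w smB))`,
and the right hand side is zero by the induction hypothesis, applied to the states
`update t w smA`, `update t w smB` (with `IsSkein.restrict`; `Arc` only becomes larger when crossings are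
smoothed, and `exists_sweep` provides the sweep).  At `v`:
`F t + F (update t v (t v).sw) = z * (F (update t v (turn i)) + F (update t v (turn (i + 1))))`, and
`F (update t v (turn (i+1))) = mu * F (update t v (turn i))` by `iso_eq_true` with `k = 1`: both states
have the same crossing darts (those of `s` outside `v`), the same arcs between them, and by
`comps_kink` the numbers of components differ by one (the arcs: `(v,i+2)` and `(v,i+3)` are joined in
both states, in one of them through `(v,i), (v,i+1)`; the new state has the additional loop `(v,i), (v,i+1)`).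
So `G t + G (update t v (t v).sw) = z (1 + mu) F (update t v (turn i)) - 2 F (update t v (turn i)) = 0`.
By `alt_zero` it is enough to have `G p = 0` for one `p` of the same shape: take `p = pat s h`:
`F p = mu ^ (comps S s - 1)`, and `update p v (turn i) = pat (update s v (turn i)) h`, which is swept by
`sweep_kink` and has the same number of components (`comps_kink`), so `F` has the same value there.
-/

namespace Pool.Agent.Helper65.LK

open Function

variable {V : Type} [Fintype V] [DecidableEq V] {R : Type} [CommRing R] {z mu : R}
  {S : Shadow V} {s : V → St} {F : (V → St) → R} {Ok : (Dart V → ℕ) → Prop}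

private theorem m1_turn_isX (i : ZMod 4) : (St.turn i).isX = false := by
  revert i; decide

private theorem m1_sw_isX (q : St) : q.sw.isX = q.isX := by
  cases q <;> rfl

private theorem m1_mate_turn (i j : ZMod 4) :
    (j = i ∧ (St.turn i).mate j = i + 3) ∨ (j = i + 1 ∧ (St.turn i).mate j = i + 2) ∨
      (j = i + 2 ∧ (St.turn i).mate j = i + 1) ∨ (j = i + 3 ∧ (St.turn i).mate j = i) := by
  revert i j; decide

private theorem m1_mate_turn' (i j : ZMod 4) :
    (j = i ∧ (St.turn (i + 1)).mate j = i + 1) ∨ (j = i + 1 ∧ (St.turn (i + 1)).mate j = i) ∨
      (j = i + 2 ∧ (St.turn (i + 1)).mate j = i + 3) ∨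
      (j = i + 3 ∧ (St.turn (i + 1)).mate j = i + 2) := by
  revert i j; decide

private theorem m1_mt0 (i : ZMod 4) : (St.turn i).mate i = i + 3 := by
  revert i; decide

private theorem m1_mt1 (i : ZMod 4) : (St.turn i).mate (i + 1) = i + 2 := by
  revert i; decide

private theorem m1_mt2 (i : ZMod 4) : (St.turn (i + 1)).mate (i + 2) = i + 3 := by
  revert i; decide

private theorem m1_ne (i : ZMod 4) : i + 1 ≠ i := by
  revert i; decide

private theorem m1_turns (i : ZMod 4) :
    (St.turn i = St.smA ∧ St.turn (i + 1) = St.smB) ∨
      (St.turn i = St.smB ∧ St.turn (i + 1) = St.smA) := by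
  revert i; decide

omit [Fintype V] in
private theorem m1_shape_isX {t s : V → St} (h : SameShape t s) (v : V) :
    (t v).isX = (s v).isX := by
  have := h v
  revert this
  cases t v <;> cases s v <;> simp [St.shape, St.isX]

omit [Fintype V] in
private theorem m1_shape_eq {t s : V → St} (h : SameShape t s) (v : V)
    (hs : (s v).isX = false) : t v = s v := by
  have := h v
  revert this hs
  cases t v <;> cases s v <;> simp [St.shape, St.isX]

omit [Fintype V] in
private theorem m1_below {t s : V → St} (h : SameShape t s) : Below t s :=
  fun v hv => m1_shape_eq h v hv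

omit [Fintype V] in
private theorem m1_below_update {t s : V → St} (h : SameShape t s) (w : V)
    (hw : (s w).isX = true) (q : St) : Below (update t w q) s := by
  intro u hu
  have huw : u ≠ w := by
    rintro rfl
    rw [hw] at hu
    exact absurd hu (by decide)
  rw [update_of_ne huw]
  exact m1_shape_eq h u hu

private theorem m1_nX_update {t s : V → St} (h : SameShape t s) (w : V)
    (hw : (s w).isX = true) (q : St) (hq : q.isX = false) : nX (update t w q) < nX s := by
  unfold nX
  apply Finset.card_lt_card
  rw [Finset.ssubset_iff_of_subset]
  · refine ⟨w, by simp [hw], ?_⟩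
    simp [hq]
  · intro u hu
    simp only [Finset.mem_filter, Finset.mem_univ, true_and] at hu ⊢
    by_cases huw : u = w
    · rw [huw]; exact hw
    · rw [update_of_ne huw] at hu
      rw [← m1_shape_isX h u]
      exact hu

omit [Fintype V] [DecidableEq V] in
private theorem m1_arc_step {S : Shadow V} {s : V → St} (x : Dart V) :
    Arc S s x (S.α x) := Relation.EqvGen.rel _ _ (Or.inl rfl)

omit [Fintype V] [DecidableEq V] in
private theorem m1_arc_tau {S : Shadow V} {s : V → St} (x : Dart V) (h : ¬ isC s x) :
    Arc S s x (tau s x) := Relation.EqvGen.rel _ _ (Or.inr ⟨h, rfl⟩)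

/-- smoothing and changing crossings makes `Arc` larger -/
private theorem m1_arc_mono {S : Shadow V} {s t : V → St} (h : Below t s) {x y : Dart V}
    (hxy : Arc S s x y) : Arc S t x y := by
  have hstep : ∀ a b : Dart V, (b = S.α a ∨ (¬ isC s a ∧ b = tau s a)) → Arc S t a b := by
    intro a b hab
    rcases hab with rfl | ⟨h1, rfl⟩
    · exact m1_arc_step a
    · have h2 : t a.1 = s a.1 := h a.1 (by
        unfold isC at h1
        simpa using h1)
      have h3 : tau s a = tau t a := by
        show (a.1, (s a.1).mate a.2) = (a.1, (t a.1).mate a.2)
        rw [h2]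
      rw [h3]
      apply m1_arc_tau
      unfold isC at h1 ⊢
      rw [h2]
      exact h1
  induction hxy with
  | rel a b hab => exact hstep a b hab
  | refl a => exact Relation.EqvGen.refl a
  | symm a b _ ih => exact Relation.EqvGen.symm _ _ ih
  | trans a b c _ _ ih1 ih2 => exact Relation.EqvGen.trans _ _ _ ih1 ih2

omit [Fintype V] in
/-- the arcs of the two smoothings at a kink -/
private theorem m1_arc_AB [Fintype V] {S : Shadow V} {t : V → St} (v : V) (i : ZMod 4)
    (hv : (t v).isX = true) (h1 : Arc S t (v, i) (v, i + 1)) (x y : Dart V)
    (hx : isC t x) (hxv : x.1 ≠ v) (hy : isC t y) (hyv : y.1 ≠ v) :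
    Arc S (update t v (St.turn (i + 1))) x y ↔ Arc S (update t v (St.turn i)) x y := by
  classical
  set A := update t v (St.turn (i + 1)) with hA
  set B := update t v (St.turn i) with hB
  have bA : Below A t := by
    intro u hu
    have huv : u ≠ v := by
      rintro rfl
      rw [hv] at hu
      exact absurd hu (by decide)
    rw [hA, update_of_ne huv]
  have bB : Below B t := by
    intro u hu
    have huv : u ≠ v := by
      rintro rfl
      rw [hv] at hu
      exact absurd hu (by decide)
    rw [hB, update_of_ne huv]
  have hAv : A v = St.turn (i + 1) := by rw [hA, update_self]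
  have hBv : B v = St.turn i := by rw [hB, update_self]
  have tA : ∀ j, Arc S A (v, j) (v, (St.turn (i + 1)).mate j) := by
    intro j
    have h2 : tau A (v, j) = (v, (St.turn (i + 1)).mate j) := by
      show (v, (A v).mate j) = _
      rw [hAv]
    rw [← h2]
    apply m1_arc_tau
    unfold isC
    show ¬ (A v).isX = true
    rw [hAv, m1_turn_isX]
    decide
  have tB : ∀ j, Arc S B (v, j) (v, (St.turn i).mate j) := by
    intro j
    have h2 : tau B (v, j) = (v, (St.turn i).mate j) := by
      show (v, (B v).mate j) = _
      rw [hBv]
    rw [← h2]
    apply m1_arc_tau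
    unfold isC
    show ¬ (B v).isX = true
    rw [hBv, m1_turn_isX]
    decide
  have eA : Arc S A (v, i + 2) (v, i + 3) := by
    have := tA (i + 2)
    rwa [m1_mt2] at this
  have eB0 : Arc S B (v, i) (v, i + 3) := by
    have := tB i
    rwa [m1_mt0] at this
  have eB1 : Arc S B (v, i + 1) (v, i + 2) := by
    have := tB (i + 1)
    rwa [m1_mt1] at this
  have hk := m1_arc_mono bB h1
  constructor
  · intro h
    clear hx hxv hy hyv
    induction h with
    | rel a b hab =>
      rcases hab with rfl | ⟨h2, rfl⟩
      · exact m1_arc_step a
      · by_cases hav : a.1 = v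
        · obtain ⟨a1, j⟩ := a
          simp only at hav
          subst hav
          have h3 : tau A (a1, j) = (a1, (St.turn (i + 1)).mate j) := by
            show (a1, (A a1).mate j) = _
            rw [hAv]
          rw [h3]
          rcases m1_mate_turn' i j with h | h | h | h
          · rw [h.2, h.1]; exact hk
          · rw [h.2, h.1]; exact Relation.EqvGen.symm _ _ hk
          · rw [h.2, h.1]
            exact Relation.EqvGen.trans _ _ _ (Relation.EqvGen.symm _ _ eB1)
              (Relation.EqvGen.trans _ _ _ (Relation.EqvGen.symm _ _ hk) eB0)
          · rw [h.2, h.1]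
            exact Relation.EqvGen.symm _ _ (Relation.EqvGen.trans _ _ _
              (Relation.EqvGen.symm _ _ eB1)
              (Relation.EqvGen.trans _ _ _ (Relation.EqvGen.symm _ _ hk) eB0))
        · have h3 : A a.1 = t a.1 := by rw [hA, update_of_ne hav]
          have h4 : B a.1 = t a.1 := by rw [hB, update_of_ne hav]
          have h5 : tau A a = tau B a := by
            show (a.1, (A a.1).mate a.2) = (a.1, (B a.1).mate a.2)
            rw [h3, h4]
          rw [h5]
          apply m1_arc_tau
          unfold isC at h2 ⊢
          rw [h4, ← h3]
          exact h2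
    | refl a => exact Relation.EqvGen.refl a
    | symm a b _ ih => exact Relation.EqvGen.symm _ _ ih
    | trans a b c _ _ ih1 ih2 => exact Relation.EqvGen.trans _ _ _ ih1 ih2
  · -- the class of the kink contains no other crossing darts
    have hpart : partner (Cr t) S t (v, i) = (v, i + 1) := by
      apply partner_eq (Cr t) S t (v, i) (v, i + 1) hv hv
      · intro h
        exact m1_ne i (congrArg Prod.snd h)
      · exact h1
    have hcls : ∀ y : Dart V, isC t y → Arc S t (v, i) y → y.1 = v := by
      intro y hy h
      obtain ⟨_, _, _, h3⟩ := partner_spec (Cr t) S t (v, i) hv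
      rcases h3 y hy h with h4 | h4
      · rw [h4]
      · rw [h4, hpart]
    let c : Dart V → Dart V := fun a => if Arc S t (v, i) a then (v, i + 2) else a
    have hcpos : ∀ a, Arc S t (v, i) a → c a = (v, i + 2) := fun a h => if_pos h
    have hcneg : ∀ a, ¬ Arc S t (v, i) a → c a = a := fun a h => if_neg h
    have hsame : ∀ a b, Arc S t a b → Arc S A (c a) (c b) := by
      intro a b hab
      by_cases ha : Arc S t (v, i) a
      · have hb : Arc S t (v, i) b := Relation.EqvGen.trans _ _ _ ha hab
        rw [hcpos a ha, hcpos b hb]
        exact Relation.EqvGen.refl _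
      · have hb : ¬ Arc S t (v, i) b := fun h =>
          ha (Relation.EqvGen.trans _ _ _ h (Relation.EqvGen.symm _ _ hab))
        rw [hcneg a ha, hcneg b hb]
        exact m1_arc_mono bA hab
    have hc2 : Arc S A (c (v, i + 2)) (v, i + 2) := by
      by_cases h : Arc S t (v, i) (v, i + 2)
      · rw [hcpos _ h]; exact Relation.EqvGen.refl _
      · rw [hcneg _ h]; exact Relation.EqvGen.refl _
    have hc3 : Arc S A (c (v, i + 3)) (v, i + 2) := by
      by_cases h : Arc S t (v, i) (v, i + 3)
      · rw [hcpos _ h]; exact Relation.EqvGen.refl _
      · rw [hcneg _ h]; exact Relation.EqvGen.symm _ _ eA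
    have hc0 : Arc S A (c (v, i)) (v, i + 2) := by
      rw [hcpos _ (Relation.EqvGen.refl _)]
      exact Relation.EqvGen.refl _
    have hc1 : Arc S A (c (v, i + 1)) (v, i + 2) := by
      rw [hcpos _ h1]
      exact Relation.EqvGen.refl _
    have hv4 : ∀ j, Arc S A (c (v, j)) (v, i + 2) := by
      intro j
      rcases m1_mate_turn i j with h | h | h | h
      · rw [h.1]; exact hc0
      · rw [h.1]; exact hc1
      · rw [h.1]; exact hc2
      · rw [h.1]; exact hc3
    have key : ∀ a b, Arc S B a b → Arc S A (c a) (c b) := by
      intro a b hab
      induction hab with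
      | rel a b hab =>
        rcases hab with rfl | ⟨h2, rfl⟩
        · exact hsame _ _ (m1_arc_step a)
        · by_cases hav : a.1 = v
          · obtain ⟨a1, j⟩ := a
            simp only at hav
            subst hav
            exact Relation.EqvGen.trans _ _ _ (hv4 j) (Relation.EqvGen.symm _ _ (hv4 _))
          · have h4 : B a.1 = t a.1 := by rw [hB, update_of_ne hav]
            have h5 : tau B a = tau t a := by
              show (a.1, (B a.1).mate a.2) = (a.1, (t a.1).mate a.2)
              rw [h4]
            rw [h5]
            apply hsame
            apply m1_arc_tau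
            unfold isC at h2 ⊢
            rw [← h4]
            exact h2
      | refl a => exact Relation.EqvGen.refl _
      | symm a b _ ih => exact Relation.EqvGen.symm _ _ ih
      | trans a b c _ _ ih1 ih2 => exact Relation.EqvGen.trans _ _ _ ih1 ih2
    intro h
    have h2 := key x y h
    rwa [hcneg x (fun h => hxv (hcls x hx h)), hcneg y (fun h => hyv (hcls y hy h))] at h2

omit [Fintype V] in
private theorem m1_isC_update {t : V → St} {v : V} {q : St} (hq : q.isX = false) (x : Dart V) :
    isC (update t v q) x ↔ x.1 ≠ v ∧ isC t x := by
  unfold isC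
  by_cases hx : x.1 = v
  · rw [hx, update_self, hq]
    simp
  · rw [update_of_ne hx]
    simp [hx]

omit [DecidableEq V] in
private theorem m1_comps_ne_zero [Nonempty V] (S : Shadow V) (t : V → St) : comps S t ≠ 0 := by
  unfold comps classes
  classical
  obtain ⟨v⟩ := ‹Nonempty V›
  have : Nonempty (Quotient (Relation.EqvGen.setoid
      (fun x y : Dart V => y = S.α x ∨ y = tau t x))) := ⟨Quotient.mk _ (v, 0)⟩
  have : Finite (Quotient (Relation.EqvGen.setoid
      (fun x y : Dart V => y = S.α x ∨ y = tau t x))) := inferInstance
  exact Nat.card_pos.ne'

/-- the two smoothings of a kink -/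
private theorem m1_kink (hF : IsSkein z mu S s F Ok) {t : V → St} (ht : SameShape t s) (v : V)
    (i : ZMod 4) (hv : (s v).isX = true) (h1 : Arc S s (v, i) (v, i + 1)) :
    F (update t v (St.turn (i + 1))) = mu * F (update t v (St.turn i)) := by
  have hvt : (t v).isX = true := by rw [m1_shape_isX ht v]; exact hv
  have h1t : Arc S t (v, i) (v, i + 1) := m1_arc_mono (m1_below ht) h1
  have hFA := hF.restrict (m1_below_update ht v hv (St.turn (i + 1)))
    (m1_nX_update ht v hv _ (m1_turn_isX _))
  have hFB := hF.restrict (m1_below_update ht v hv (St.turn i))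
    (m1_nX_update ht v hv _ (m1_turn_isX _))
  have hiff : ∀ x : Dart V, isC (update t v (St.turn (i + 1))) x ↔
      isC (update t v (St.turn i)) x := by
    intro x
    rw [m1_isC_update (m1_turn_isX _), m1_isC_update (m1_turn_isX _)]
  let e : DMap S (update t v (St.turn (i + 1))) S (update t v (St.turn i)) :=
    { φ := Equiv.subtypeEquivRight hiff
      rot := fun x y hxy => hxy
      arc := fun x y => by
        have hx := (m1_isC_update (m1_turn_isX _) x.1).1 x.2
        have hy := (m1_isC_update (m1_turn_isX _) y.1).1 y.2
        exact m1_arc_AB v i hvt h1t x.1 y.1 hx.2 hx.1 hy.2 hy.1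
      upper := fun x => by
        have hx := (m1_isC_update (m1_turn_isX _) x.1).1 x.2
        show (update t v (St.turn (i + 1)) x.1.1).upper x.1.2 =
          (update t v (St.turn i) x.1.1).upper x.1.2
        rw [update_of_ne hx.1, update_of_ne hx.1] }
  obtain ⟨k1, k2⟩ := comps_kink S t v i hvt h1t
  have : Nonempty V := ⟨v⟩
  have := iso_eq_true e (k := 1) (by rw [k2, k1]) (Or.inr (m1_comps_ne_zero _ _)) hFA hFB
  rw [this, pow_one]

theorem skein_R1 (hz : z * (mu + 1) = 2) (hF : IsSkein z mu S s F Ok)
    (hok : ∃ h, Sweep S s h ∧ Ok h) (v : V) (i : ZMod 4) (hv : (s v).isX = true)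
    (h1 : Arc S s (v, i) (v, i + 1)) : F s = F (update s v (St.turn i)) := by
  induction hn : nX s using Nat.strong_induction_on generalizing s Ok with
  | _ n ih =>
    subst hn
    have low : ∀ t, SameShape t s → ∀ w, w ≠ v → (s w).isX = true → ∀ q : St, q.isX = false →
        F (update t w q) = F (update (update t w q) v (St.turn i)) := by
      intro t ht w hwv hw q hq
      have hb := m1_below_update ht w hw q
      have hlt := m1_nX_update ht w hw q hq
      refine ih _ hlt (hF.restrict hb hlt) ?_ ?_ (m1_arc_mono hb h1) rfl
      · obtain ⟨h, hh⟩ := exists_sweep S (update t w q)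
        exact ⟨h, hh, trivial⟩
      · rw [update_of_ne (Ne.symm hwv), m1_shape_isX ht v]
        exact hv
    obtain ⟨h, hsw, hOk⟩ := hok
    have hG : ∀ t w, SameShape t s → (t w).isX = true →
        (F t - F (update t v (St.turn i))) +
          (F (update t w (t w).sw) - F (update (update t w (t w).sw) v (St.turn i))) = 0 := by
      intro t w ht hw
      have hws : (s w).isX = true := by rw [← m1_shape_isX ht w]; exact hw
      have hsk := hF.skein t (m1_below ht) w hw
      unfold SkeinAt at hsk
      by_cases hwv : w = v
      · subst hwv
        have hk := m1_kink hF ht w i hv h1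
        rw [update_idem]
        have hsum : F (update t w St.smA) + F (update t w St.smB) =
            F (update t w (St.turn i)) + F (update t w (St.turn (i + 1))) := by
          rcases m1_turns i with h | h
          · rw [h.1, h.2]
          · rw [h.1, h.2]; ring
        rw [hsum, hk] at hsk
        have : F t + F (update t w (t w).sw) = 2 * F (update t w (St.turn i)) := by
          rw [hsk, ← hz]; ring
        linear_combination this
      · have hb' : Below (update t v (St.turn i)) s := m1_below_update ht v hv _
        have hw' : (update t v (St.turn i) w).isX = true := by rw [update_of_ne hwv]; exact hw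
        have hsk' := hF.skein _ hb' w hw'
        unfold SkeinAt at hsk'
        rw [update_of_ne hwv] at hsk'
        have hA := low t ht w hwv hws St.smA rfl
        have hB := low t ht w hwv hws St.smB rfl
        rw [update_comm (Ne.symm hwv), update_comm (Ne.symm hwv), update_comm (Ne.symm hwv),
          ← hA, ← hB] at hsk'
        linear_combination hsk - hsk'
    have hp : F (pat s h) - F (update (pat s h) v (St.turn i)) = 0 := by
      have h2 : update (pat s h) v (St.turn i) = pat (update s v (St.turn i)) h := by
        funext u
        by_cases huv : u = v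
        · subst huv
          rw [update_self]
          unfold pat
          rw [update_self, if_neg]
          rw [m1_turn_isX]
          decide
        · rw [update_of_ne huv]
          unfold pat
          rw [update_of_ne huv]
      have hb := m1_below_update (fun _ => rfl : SameShape s s) v hv (St.turn i)
      have hlt := m1_nX_update (fun _ => rfl : SameShape s s) v hv (St.turn i) (m1_turn_isX _)
      rw [h2, hF.top h hsw hOk, hF.low _ hb hlt h (sweep_kink hsw v i hv h1),
        (comps_kink S s v i hv h1).1, sub_self]
    have := alt_zero s (fun t => F t - F (update t v (St.turn i))) hG (pat s h)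
      (pat_sameShape s h) hp s (fun _ => rfl)
    exact sub_eq_zero.1 this

end Pool.Agent.Helper65.LK
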