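import Pool.Agent.Helper65.LK.Move1

/-!
# LK-16. Skein functions are invariant under the second Reidemeister move

Proof by induction on `nX s`.  Call a state `t` of the same shape as `s` admissible if
`(t v).upper i = (t w).upper (j + 1)`, and let `G t = F t - F (update (update t v (turn i)) w (turn j))`.
(a) At a crossing `x ≠ v, w`: `G t + G (update t x (t x).sw) = z * (G (update t x smA) + G (update t x smB)) = 0`
by the skein relations and the induction hypothesis (`IsSkein.restrict`, `nice_true`; `Arc` becomes larger).
(b) `F t = F t''` for `t'' = ` `t` changed at `v` and at `w` (which is admissible, too):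
`F t + F t' = z (F (t, v : turn i) + F (t, v : turn (i+1)))` for `t' = update t v (t v).sw`, and
`F t' + F t'' = z (F (t', w : turn j) + F (t', w : turn (j+1)))`.  The right hand sides agree:
 * `(t, v : turn (i+1))` has the kink `Arc (w, j) (w, j+1)` (through `(v,i), (v,i+1)`), so by
   `skein_R1` it has the value of `(t, v : turn (i+1), w : turn j)`; `(t', w : turn (j+1))` has the
   kink `Arc (v, i) (v, i+1)`, so it has the value of `(t, v : turn i, w : turn (j+1))`.  These two
   states are isomorphic (`iso_eq_true`, `k = 0`, identity on the crossing darts): in both of them the outer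
   ends are joined as `(v,i+2) ~ (v,i+3)`, `(w,j+2) ~ (w,j+3)` (the eight darts at `v, w` form exactly two
   chains with these ends, no closed loop).
 * `(t, v : turn i)` and `(t', w : turn j)` are isomorphic: in the first one the crossing `w` is left
   with `(w,j) ~ (v,i+2)` and `(w,j+1) ~ (v,i+3)` (outer ends), in the second one the crossing `v` with
   `(v,i) ~ (w,j+2)`, `(v,i+1) ~ (w,j+3)`.  The isomorphism is `(w, j + c) ↦ (v, i + 2 + c)` and the
   identity on the other crossing darts; `upper`: `(t w).upper (j+1) = (t v).upper i =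
   ((t v).sw).upper (i + 3)`, as `t` is admissible.  `k = 0`: no closed loops.
(c) Let `B` be the set of all darts which are not on the two arcs `(v,i),(w,j+1)` and `(v,i+1),(w,j)`;
every component with crossings meets `B` (the component of `(v,i)` contains `(v,i+2) ∈ B`, etc.; the
only crossing darts not in `B` are `(v,i), (w,j+1), (v,i+1), (w,j)`).  By `Nice` there is a sweep `h`
with `Ok h` such that `h (w,j+1) = h (v,i) ± 1`, `h (w,j) = h (v,i+1) ± 1`; these four heights are different
(`inj`: the four darts are on four different strands), so `h (v,i) < h (v,i+1) ↔ h (w,j+1) < h (w,j)`, i.e.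
`p = pat s h` is admissible.  `F p = mu ^ (comps S s - 1)` by `top`, and `F` has the same value on
`update (update p v (turn i)) w (turn j) = pat (..) h` by `low`, `sweep_bigon` and `comps_bigon`.  So
`G p = 0`.
(d) Every admissible state of the same shape is obtained from `p` by changes at crossings `≠ v, w` and
by simultaneous changes at `v` and `w`; so `G = 0` on all of them by (a), (b) (in (b) the
states `t` and `t''` are the same after smoothing `v` and `w`).
-/

namespace Pool.Agent.Helper65.LK

open Function

variable {V : Type} [Fintype V] [DecidableEq V] {R : Type} [CommRing R] {z mu : R}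
  {S : Shadow V} {s : V → St} {F : (V → St) → R} {Ok : (Dart V → ℕ) → Prop}

/-! ### states -/

private theorem m2_isX_sw {q : St} (h : q.isX = true) : q.sw.isX = true := by
  cases q <;> simp_all [St.isX, St.sw]

private theorem m2_isX_turn (i : ZMod 4) : (St.turn i).isX = false := by
  revert i; decide

private theorem m2_shape_sw (q : St) : q.sw.shape = q.shape := by
  cases q <;> rfl

private theorem m2_shape_isX {p q : St} (h : p.shape = q.shape) : p.isX = q.isX := by
  revert h; cases p <;> cases q <;> simp [St.shape, St.isX]

private theorem m2_shape_eq {p q : St} (h : p.shape = q.shape) (hq : q.isX = false) : p = q := by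
  revert h hq; cases p <;> cases q <;> simp [St.shape, St.isX]

private theorem m2_shape_of_isX {p q : St} (hp : p.isX = true) (hq : q.isX = true) :
    p.shape = q.shape := by
  revert hp hq; cases p <;> cases q <;> simp [St.shape, St.isX]

private theorem m2_upper_eq {p q : St} (hp : p.isX = true) (hq : q.isX = true) (i : ZMod 4)
    (h : p.upper i = q.upper i) : p = q := by
  revert i hp hq; cases p <;> cases q <;> decide

private theorem m2_upper_ne {p q : St} (hp : p.isX = true) (hq : q.isX = true) (i : ZMod 4)
    (h : p.upper i ≠ q.upper i) : p = q.sw := by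
  revert i hp hq; cases p <;> cases q <;> decide

private theorem m2_upper_map {p q : St} (hp : p.isX = true) (hq : q.isX = true) (i j k : ZMod 4)
    (h : p.upper i = q.upper (j + 1)) : q.upper k = p.sw.upper (k - j + i + 2) := by
  revert i j k hp hq; cases p <;> cases q <;> decide

private theorem m2_turn0 (i : ZMod 4) : (St.turn i).mate i = i + 3 := by revert i; decide
private theorem m2_turn1 (i : ZMod 4) : (St.turn i).mate (i + 1) = i + 2 := by revert i; decide
private theorem m2_turn2 (i : ZMod 4) : (St.turn i).mate (i + 2) = i + 1 := by revert i; decide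
private theorem m2_turn3 (i : ZMod 4) : (St.turn i).mate (i + 3) = i := by revert i; decide
private theorem m2_turn'0 (i : ZMod 4) : (St.turn (i + 1)).mate i = i + 1 := by revert i; decide
private theorem m2_turn'1 (i : ZMod 4) : (St.turn (i + 1)).mate (i + 1) = i := by revert i; decide
private theorem m2_turn'2 (i : ZMod 4) : (St.turn (i + 1)).mate (i + 2) = i + 3 := by
  revert i; decide
private theorem m2_turn'3 (i : ZMod 4) : (St.turn (i + 1)).mate (i + 3) = i + 2 := by
  revert i; decide

private theorem m2_add_cases (i k : ZMod 4) : k = i ∨ k = i + 1 ∨ k = i + 2 ∨ k = i + 3 := by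
  revert i k; decide

private theorem m2_ne1 (i : ZMod 4) : i + 1 ≠ i := by revert i; decide
private theorem m2_ne2 (i : ZMod 4) : i + 2 ≠ i := by revert i; decide
private theorem m2_ne3 (i : ZMod 4) : i + 3 ≠ i := by revert i; decide
private theorem m2_ne12 (i : ZMod 4) : i + 1 ≠ i + 2 := by revert i; decide
private theorem m2_ne13 (i : ZMod 4) : i + 1 ≠ i + 3 := by revert i; decide

private theorem m2_turn_cases (i : ZMod 4) : (St.turn i = St.smA ∧ St.turn (i + 1) = St.smB) ∨
    (St.turn i = St.smB ∧ St.turn (i + 1) = St.smA) := by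
  revert i; decide

private theorem m2_nX_lt {t : V → St} {x : V} {q : St} (hx : (t x).isX = true)
    (hq : q.isX = false) : nX (update t x q) < nX t := by
  unfold nX
  apply Finset.card_lt_card
  rw [Finset.ssubset_iff_of_subset]
  · refine ⟨x, by simp [hx], by simp [hq]⟩
  · intro y hy
    simp only [Finset.mem_filter, Finset.mem_univ, true_and] at hy ⊢
    by_cases hyx : y = x
    · subst hyx; exact hx
    · rwa [update_of_ne hyx] at hy

omit [Fintype V] in
private theorem m2_below_update {t s : V → St} (h : Below t s) {x : V} (q : St)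
    (hx : (s x).isX = true) : Below (update t x q) s := by
  intro y hy
  have hyx : y ≠ x := fun e => by rw [e, hx] at hy; exact absurd hy (by simp)
  rw [update_of_ne hyx]
  exact h y hy

omit [Fintype V] [DecidableEq V] in
private theorem m2_below_refl (t : V → St) : Below t t := fun _ _ => rfl

omit [Fintype V] [DecidableEq V] in
private theorem m2_below_of_same {t s : V → St} (h : SameShape t s) : Below t s :=
  fun v hv => m2_shape_eq (h v) hv

omit [Fintype V] in
private theorem m2_same_update {t s : V → St} (h : SameShape t s) {x : V} {q : St}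
    (hq : q.isX = true) (hx : (s x).isX = true) : SameShape (update t x q) s := by
  intro y
  by_cases hyx : y = x
  · subst hyx
    rw [update_self]
    exact m2_shape_of_isX hq hx
  · rw [update_of_ne hyx]
    exact h y

omit [Fintype V] [DecidableEq V] in
private theorem m2_arc_below {t t' : V → St} (h : Below t' t) {x y : Dart V} (hxy : Arc S t x y) :
    Arc S t' x y := by
  induction hxy with
  | rel a b hab =>
    refine Relation.EqvGen.rel _ _ ?_
    rcases hab with hab | ⟨h1, h2⟩
    · exact Or.inl hab
    · right
      have h3 : (t a.1).isX = false := by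
        unfold isC at h1
        simpa using h1
      have h4 := h a.1 h3
      refine ⟨?_, ?_⟩
      · unfold isC
        rw [h4]
        exact h1
      · rw [h2]
        show (a.1, (t a.1).mate a.2) = (a.1, (t' a.1).mate a.2)
        rw [h4]
  | refl a => exact Relation.EqvGen.refl a
  | symm a b _ ih => exact Relation.EqvGen.symm _ _ ih
  | trans a b c _ _ ih1 ih2 => exact Relation.EqvGen.trans _ _ _ ih1 ih2

omit [Fintype V] [DecidableEq V] in
private theorem m2_arc_refl (t : V → St) (x : Dart V) : Arc S t x x := Relation.EqvGen.refl x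

omit [Fintype V] [DecidableEq V] in
private theorem m2_arc_symm {t : V → St} {x y : Dart V} (h : Arc S t x y) : Arc S t y x :=
  Relation.EqvGen.symm _ _ h

omit [Fintype V] [DecidableEq V] in
private theorem m2_arc_trans {t : V → St} {x y u : Dart V} (h : Arc S t x y) (h' : Arc S t y u) :
    Arc S t x u := Relation.EqvGen.trans _ _ _ h h'

omit [Fintype V] [DecidableEq V] in
private theorem m2_arc_mate {t : V → St} {v : V} {q : St} (hv : t v = q) (hq : q.isX = false)
    {k l : ZMod 4} (hk : q.mate k = l) : Arc S t (v, k) (v, l) := by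
  refine Relation.EqvGen.rel _ _ (Or.inr ⟨?_, ?_⟩)
  · unfold isC
    simp [hv, hq]
  · show (v, l) = (v, (t v).mate k)
    rw [hv, hk]

/-- the configuration of a bigon -/
private structure Big (S : Shadow V) (t : V → St) (v : V) (i : ZMod 4) (w : V) (j : ZMod 4) :
    Prop where
  ne : v ≠ w
  hv : (t v).isX = true
  hw : (t w).isX = true
  a1 : Arc S t (v, i) (w, j + 1)
  a2 : Arc S t (v, i + 1) (w, j)

omit [Fintype V] [DecidableEq V] in
private theorem Big.swap {t : V → St} {v w : V} {i j : ZMod 4} (h : Big S t v i w j) :
    Big S t w j v i :=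
  ⟨h.ne.symm, h.hw, h.hv, m2_arc_symm h.a2, m2_arc_symm h.a1⟩

omit [DecidableEq V] in
private theorem m2_ends {t : V → St} {x y u : Dart V} (hx : isC t x) (hy : isC t y) (hu : isC t u)
    (hxy : Arc S t x y) (hne : x ≠ y) (h : Arc S t x u) : u = x ∨ u = y := by
  rw [Arc_eq] at hxy h
  have h1 := partner_eq (Cr t) S t x y hx hy hne.symm hxy
  have h2 := (partner_spec (Cr t) S t x hx).2.2.2 u hu h
  rwa [h1] at h2

omit [DecidableEq V] in
private theorem Big.endsA {t : V → St} {v w : V} {i j : ZMod 4} (h : Big S t v i w j) {u : Dart V}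
    (hu : isC t u) (hau : Arc S t u (v, i)) : u = (v, i) ∨ u = (w, j + 1) :=
  m2_ends (x := (v, i)) (y := (w, j + 1)) h.hv h.hw hu h.a1
    (fun e => h.ne (congrArg Prod.fst e)) (m2_arc_symm hau)

omit [DecidableEq V] in
private theorem Big.endsB {t : V → St} {v w : V} {i j : ZMod 4} (h : Big S t v i w j) {u : Dart V}
    (hu : isC t u) (hau : Arc S t u (v, i + 1)) : u = (v, i + 1) ∨ u = (w, j) :=
  m2_ends (x := (v, i + 1)) (y := (w, j)) h.hv h.hw hu h.a2
    (fun e => h.ne (congrArg Prod.fst e)) (m2_arc_symm hau)

omit [DecidableEq V] in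
private theorem Big.notAB {t : V → St} {v w : V} {i j : ZMod 4} (h : Big S t v i w j)
    {u : Dart V} (h1 : Arc S t u (v, i)) (h2 : Arc S t u (v, i + 1)) : False := by
  have h3 := h.endsA (u := (v, i + 1)) h.hv (m2_arc_trans (m2_arc_symm h2) h1)
  rcases h3 with h3 | h3
  · exact m2_ne1 i (congrArg Prod.snd h3)
  · exact h.ne (congrArg Prod.fst h3)

omit [DecidableEq V] in
private theorem Big.outer {t : V → St} {v w : V} {i j : ZMod 4} (h : Big S t v i w j)
    {u : Dart V} (hu : isC t u) (h1 : u ≠ (v, i)) (h2 : u ≠ (v, i + 1)) (h3 : u ≠ (w, j))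
    (h4 : u ≠ (w, j + 1)) : ¬ Arc S t u (v, i) ∧ ¬ Arc S t u (v, i + 1) := by
  constructor
  · intro h5
    rcases h.endsA hu h5 with h6 | h6
    · exact h1 h6
    · exact h4 h6
  · intro h5
    rcases h.endsB hu h5 with h6 | h6
    · exact h2 h6
    · exact h3 h6

omit [Fintype V] [DecidableEq V] in
private theorem m2_ne_v {v w : V} (h : v ≠ w) (i j : ZMod 4) : ((v, i) : Dart V) ≠ (w, j) :=
  fun e => h (congrArg Prod.fst e)

omit [Fintype V] [DecidableEq V] in
private theorem m2_ne_i {v : V} {i j : ZMod 4} (h : i ≠ j) : ((v, i) : Dart V) ≠ (v, j) :=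
  fun e => h (congrArg Prod.snd e)

omit [DecidableEq V] in
private theorem Big.out2 {t : V → St} {v w : V} {i j : ZMod 4} (h : Big S t v i w j) :
    ¬ Arc S t (v, i + 2) (v, i) ∧ ¬ Arc S t (v, i + 2) (v, i + 1) :=
  h.outer (u := (v, i + 2)) h.hv (m2_ne_i (m2_ne2 i)) (m2_ne_i (m2_ne12 i).symm)
    (fun e => h.ne (congrArg Prod.fst e)) (fun e => h.ne (congrArg Prod.fst e))

omit [DecidableEq V] in
private theorem Big.out3 {t : V → St} {v w : V} {i j : ZMod 4} (h : Big S t v i w j) :
    ¬ Arc S t (v, i + 3) (v, i) ∧ ¬ Arc S t (v, i + 3) (v, i + 1) :=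
  h.outer (u := (v, i + 3)) h.hv (m2_ne_i (m2_ne3 i)) (m2_ne_i (m2_ne13 i).symm)
    (fun e => h.ne (congrArg Prod.fst e)) (fun e => h.ne (congrArg Prod.fst e))

omit [DecidableEq V] in
private theorem Big.out2w {t : V → St} {v w : V} {i j : ZMod 4} (h : Big S t v i w j) :
    ¬ Arc S t (w, j + 2) (v, i) ∧ ¬ Arc S t (w, j + 2) (v, i + 1) :=
  h.outer (u := (w, j + 2)) h.hw (fun e => h.ne.symm (congrArg Prod.fst e))
    (fun e => h.ne.symm (congrArg Prod.fst e)) (m2_ne_i (m2_ne2 j)) (m2_ne_i (m2_ne12 j).symm)

omit [DecidableEq V] in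
private theorem Big.out3w {t : V → St} {v w : V} {i j : ZMod 4} (h : Big S t v i w j) :
    ¬ Arc S t (w, j + 3) (v, i) ∧ ¬ Arc S t (w, j + 3) (v, i + 1) :=
  h.outer (u := (w, j + 3)) h.hw (fun e => h.ne.symm (congrArg Prod.fst e))
    (fun e => h.ne.symm (congrArg Prod.fst e)) (m2_ne_i (m2_ne3 j)) (m2_ne_i (m2_ne13 j).symm)

/-- the state `c` agrees with `t` outside `v`, `w` -/
private def Agr (t c : V → St) (v w : V) : Prop := ∀ x, x ≠ v → x ≠ w → c x = t x

omit [Fintype V] [DecidableEq V] in
private theorem m2_agr_below {t c : V → St} {v w : V} (h : Agr t c v w) (hv : (t v).isX = true)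
    (hw : (t w).isX = true) : Below c t := by
  intro x hx
  refine h x ?_ ?_
  · intro e; rw [e, hv] at hx; exact absurd hx (by simp)
  · intro e; rw [e, hw] at hx; exact absurd hx (by simp)

/-! ### the first pair of states: both crossings smoothed -/

open Classical in
omit [DecidableEq V] in
private theorem m2_AA {t a b : V → St} {v w : V} {i j : ZMod 4} (h : Big S t v i w j)
    (ha : Agr t a v w) (hb : Agr t b v w) (hav : a v = St.turn (i + 1)) (haw : a w = St.turn j)
    (hbv : b v = St.turn i) (hbw : b w = St.turn (j + 1)) {x y : Dart V} (hxy : Arc S a x y)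
    (hx : isC a x) (hy : isC a y) : Arc S b x y := by
  have hbb : Below b t := m2_agr_below hb h.hv h.hw
  set f : Dart V → Dart V := fun x =>
    if Arc S t x (v, i) ∨ Arc S t x (v, i + 1) then (w, j + 2) else x with hf
  have hstep : ∀ x y, Arc S t x y → Arc S b (f x) (f y) := by
    intro x y hxy
    have hiff : (Arc S t x (v, i) ∨ Arc S t x (v, i + 1)) ↔
        (Arc S t y (v, i) ∨ Arc S t y (v, i + 1)) :=
      or_congr ⟨fun h => m2_arc_trans (m2_arc_symm hxy) h, fun h => m2_arc_trans hxy h⟩
        ⟨fun h => m2_arc_trans (m2_arc_symm hxy) h, fun h => m2_arc_trans hxy h⟩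
    by_cases hx : Arc S t x (v, i) ∨ Arc S t x (v, i + 1)
    · have hy := hiff.1 hx
      simp only [hf, if_pos hx, if_pos hy]
      exact m2_arc_refl _ _
    · have hy : ¬ (Arc S t y (v, i) ∨ Arc S t y (v, i + 1)) := fun h => hx (hiff.2 h)
      simp only [hf, if_neg hx, if_neg hy]
      exact m2_arc_below hbb hxy
  have fin : ∀ u, (Arc S t u (v, i) ∨ Arc S t u (v, i + 1)) → f u = (w, j + 2) := by
    intro u hu
    simp only [hf, if_pos hu]
  have fout : ∀ u, ¬ Arc S t u (v, i) ∧ ¬ Arc S t u (v, i + 1) → f u = u := by
    intro u hu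
    have : ¬ (Arc S t u (v, i) ∨ Arc S t u (v, i + 1)) := by tauto
    simp only [hf, if_neg this]
  have f0 : f (v, i) = (w, j + 2) := fin _ (Or.inl (m2_arc_refl _ _))
  have f1 : f (v, i + 1) = (w, j + 2) := fin _ (Or.inr (m2_arc_refl _ _))
  have f2 : f (v, i + 2) = (v, i + 2) := fout _ h.out2
  have f3 : f (v, i + 3) = (v, i + 3) := fout _ h.out3
  have g0 : f (w, j) = (w, j + 2) := fin _ (Or.inr (m2_arc_symm h.a2))
  have g1 : f (w, j + 1) = (w, j + 2) := fin _ (Or.inl (m2_arc_symm h.a1))
  have g2 : f (w, j + 2) = (w, j + 2) := fout _ h.out2w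
  have g3 : f (w, j + 3) = (w, j + 3) := fout _ h.out3w
  have hT := m2_isX_turn i
  have hT' := m2_isX_turn (j + 1)
  -- joins in `b`
  have e1 : Arc S b (v, i + 2) (v, i + 3) :=
    m2_arc_trans (m2_arc_mate hbv hT (m2_turn2 i)) (m2_arc_trans (m2_arc_below hbb h.a2)
      (m2_arc_trans (m2_arc_mate hbw hT' (m2_turn'0 j))
        (m2_arc_trans (m2_arc_symm (m2_arc_below hbb h.a1)) (m2_arc_mate hbv hT (m2_turn0 i)))))
  have e2 : Arc S b (w, j + 2) (w, j + 3) := m2_arc_mate hbw hT' (m2_turn'2 j)
  have main : ∀ x y, Arc S a x y → Arc S b (f x) (f y) := by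
    intro x y hxy
    induction hxy with
    | rel x y hr =>
      rcases hr with hr | ⟨h1, h2⟩
      · exact hstep x y (Relation.EqvGen.rel _ _ (Or.inl hr))
      · obtain ⟨u, k⟩ := x
        have h2' : y = (u, (a u).mate k) := h2
        by_cases huv : u = v
        · subst huv
          rw [hav] at h2'
          rcases m2_add_cases i k with rfl | rfl | rfl | rfl
          · rw [m2_turn'0] at h2'; rw [h2', f0, f1]; exact m2_arc_refl _ _
          · rw [m2_turn'1] at h2'; rw [h2', f0, f1]; exact m2_arc_refl _ _
          · rw [m2_turn'2] at h2'; rw [h2', f2, f3]; exact e1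
          · rw [m2_turn'3] at h2'; rw [h2', f2, f3]; exact m2_arc_symm e1
        · by_cases huw : u = w
          · subst huw
            rw [haw] at h2'
            rcases m2_add_cases j k with rfl | rfl | rfl | rfl
            · rw [m2_turn0] at h2'; rw [h2', g0, g3]; exact e2
            · rw [m2_turn1] at h2'; rw [h2', g1, g2]; exact m2_arc_refl _ _
            · rw [m2_turn2] at h2'; rw [h2', g1, g2]; exact m2_arc_refl _ _
            · rw [m2_turn3] at h2'; rw [h2', g0, g3]; exact m2_arc_symm e2
          · have hu := ha u huv huw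
            refine hstep _ _ (Relation.EqvGen.rel _ _ (Or.inr ⟨?_, ?_⟩))
            · unfold isC at h1 ⊢
              rw [← hu]
              exact h1
            · rw [h2', hu]
              rfl
    | refl x => exact m2_arc_refl _ _
    | symm x y _ ih => exact m2_arc_symm ih
    | trans x y z _ _ ih1 ih2 => exact m2_arc_trans ih1 ih2
  have hcr : ∀ u : Dart V, isC a u → f u = u := by
    intro u hu
    have huv : u.1 ≠ v := by
      intro e
      unfold isC at hu
      rw [e, hav, m2_isX_turn] at hu
      exact absurd hu (by simp)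
    have huw : u.1 ≠ w := by
      intro e
      unfold isC at hu
      rw [e, haw, m2_isX_turn] at hu
      exact absurd hu (by simp)
    have hut : isC t u := by
      unfold isC at hu ⊢
      rwa [ha u.1 huv huw] at hu
    exact fout u (h.outer hut (fun e => huv (congrArg Prod.fst e)) (fun e => huv (congrArg Prod.fst e))
      (fun e => huw (congrArg Prod.fst e)) (fun e => huw (congrArg Prod.fst e)))
  have := main x y hxy
  rwa [hcr x hx, hcr y hy] at this

/-! ### the second pair of states: one crossing smoothed -/

/-- the map of the crossing darts -/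
private def flipD (v : V) (i : ZMod 4) (w : V) (j : ZMod 4) (x : Dart V) : Dart V :=
  if x.1 = w then (v, x.2 - j + i + 2) else x

omit [Fintype V] in
private theorem flipD_w (v : V) (i : ZMod 4) (w : V) (j c : ZMod 4) :
    flipD v i w j (w, j + c) = (v, i + 2 + c) := by
  unfold flipD
  rw [if_pos rfl]
  congr 1
  show j + c - j + i + 2 = i + 2 + c
  ring

omit [Fintype V] in
private theorem flipD_ne (v : V) (i : ZMod 4) (w : V) (j : ZMod 4) {x : Dart V} (h : x.1 ≠ w) :
    flipD v i w j x = x := by
  unfold flipD
  rw [if_neg h]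

omit [Fintype V] in
private theorem flipD_flipD {v w : V} (i j : ZMod 4) {x : Dart V} (hx : x.1 ≠ v) :
    flipD w j v i (flipD v i w j x) = x := by
  by_cases h : x.1 = w
  · have h1 : flipD v i w j x = (v, x.2 - j + i + 2) := by
      unfold flipD
      rw [if_pos h]
    rw [h1]
    unfold flipD
    rw [if_pos rfl]
    have h4 : (2 : ZMod 4) + 2 = 0 := by decide
    have h5 : x.2 - j + i + 2 - i + j + 2 = x.2 := by
      have : x.2 - j + i + 2 - i + j + 2 = x.2 + (2 + 2) := by ring
      rw [this, h4, add_zero]
    show (w, x.2 - j + i + 2 - i + j + 2) = x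
    rw [h5, ← h]
  · rw [flipD_ne v i w j h, flipD_ne w j v i hx]

open Classical in
private theorem m2_CC {t a b : V → St} {v w : V} {i j : ZMod 4} (h : Big S t v i w j)
    (ha : Agr t a v w) (hb : Agr t b v w) (hav : a v = St.turn i) (haw : (a w).isX = true)
    (hbw : b w = St.turn j) {x y : Dart V} (hxy : Arc S a x y)
    (hx : isC a x) (hy : isC a y) : Arc S b (flipD v i w j x) (flipD v i w j y) := by
  have hbb : Below b t := m2_agr_below hb h.hv h.hw
  set f : Dart V → Dart V := fun x =>
    if Arc S t x (v, i) then (v, i + 3) else if Arc S t x (v, i + 1) then (v, i + 2) else x with hf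
  have hstep : ∀ x y, Arc S t x y → Arc S b (f x) (f y) := by
    intro x y hxy
    have hiff : Arc S t x (v, i) ↔ Arc S t y (v, i) :=
      ⟨fun h => m2_arc_trans (m2_arc_symm hxy) h, fun h => m2_arc_trans hxy h⟩
    have hiff' : Arc S t x (v, i + 1) ↔ Arc S t y (v, i + 1) :=
      ⟨fun h => m2_arc_trans (m2_arc_symm hxy) h, fun h => m2_arc_trans hxy h⟩
    by_cases hx : Arc S t x (v, i)
    · simp only [hf, if_pos hx, if_pos (hiff.1 hx)]
      exact m2_arc_refl _ _
    · by_cases hx' : Arc S t x (v, i + 1)
      · simp only [hf, if_neg hx, if_neg (fun h => hx (hiff.2 h)), if_pos hx', if_pos (hiff'.1 hx')]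
        exact m2_arc_refl _ _
      · simp only [hf, if_neg hx, if_neg (fun h => hx (hiff.2 h)), if_neg hx',
          if_neg (fun h => hx' (hiff'.2 h))]
        exact m2_arc_below hbb hxy
  have finA : ∀ u, Arc S t u (v, i) → f u = (v, i + 3) := by
    intro u hu
    simp only [hf, if_pos hu]
  have finB : ∀ u, Arc S t u (v, i + 1) → f u = (v, i + 2) := by
    intro u hu
    have : ¬ Arc S t u (v, i) := fun h' => h.notAB h' hu
    simp only [hf, if_neg this, if_pos hu]
  have fout : ∀ u, ¬ Arc S t u (v, i) ∧ ¬ Arc S t u (v, i + 1) → f u = u := by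
    intro u hu
    simp only [hf, if_neg hu.1, if_neg hu.2]
  have f0 : f (v, i) = (v, i + 3) := finA _ (m2_arc_refl _ _)
  have f1 : f (v, i + 1) = (v, i + 2) := finB _ (m2_arc_refl _ _)
  have f2 : f (v, i + 2) = (v, i + 2) := fout _ h.out2
  have f3 : f (v, i + 3) = (v, i + 3) := fout _ h.out3
  have g0 : f (w, j) = (v, i + 2) := finB _ (m2_arc_symm h.a2)
  have g1 : f (w, j + 1) = (v, i + 3) := finA _ (m2_arc_symm h.a1)
  have g2 : f (w, j + 2) = (w, j + 2) := fout _ h.out2w
  have g3 : f (w, j + 3) = (w, j + 3) := fout _ h.out3w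
  have hT := m2_isX_turn j
  have main : ∀ x y, Arc S a x y → Arc S b (f x) (f y) := by
    intro x y hxy
    induction hxy with
    | rel x y hr =>
      rcases hr with hr | ⟨h1, h2⟩
      · exact hstep x y (Relation.EqvGen.rel _ _ (Or.inl hr))
      · obtain ⟨u, k⟩ := x
        have h2' : y = (u, (a u).mate k) := h2
        by_cases huv : u = v
        · subst huv
          rw [hav] at h2'
          rcases m2_add_cases i k with rfl | rfl | rfl | rfl
          · rw [m2_turn0] at h2'; rw [h2', f0, f3]; exact m2_arc_refl _ _
          · rw [m2_turn1] at h2'; rw [h2', f1, f2]; exact m2_arc_refl _ _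
          · rw [m2_turn2] at h2'; rw [h2', f1, f2]; exact m2_arc_refl _ _
          · rw [m2_turn3] at h2'; rw [h2', f0, f3]; exact m2_arc_refl _ _
        · by_cases huw : u = w
          · subst huw
            exact absurd haw h1
          · have hu := ha u huv huw
            refine hstep _ _ (Relation.EqvGen.rel _ _ (Or.inr ⟨?_, ?_⟩))
            · unfold isC at h1 ⊢
              rw [← hu]
              exact h1
            · rw [h2', hu]
              rfl
    | refl x => exact m2_arc_refl _ _
    | symm x y _ ih => exact m2_arc_symm ih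
    | trans x y z _ _ ih1 ih2 => exact m2_arc_trans ih1 ih2
  have hcr : ∀ u : Dart V, isC a u → Arc S b (f u) (flipD v i w j u) := by
    intro u hu
    have huv : u.1 ≠ v := by
      intro e
      unfold isC at hu
      rw [e, hav, m2_isX_turn] at hu
      exact absurd hu (by simp)
    by_cases huw : u.1 = w
    · obtain ⟨u, k⟩ := u
      have huw' : u = w := huw
      subst huw'
      have hz0 : j = j + 0 := by ring
      rcases m2_add_cases j k with rfl | rfl | rfl | rfl
      · have e := flipD_w v i u k 0
        rw [add_zero, add_zero] at e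
        rw [e, g0]
        exact m2_arc_refl _ _
      · have e3 : i + 2 + 1 = i + 3 := by ring
        rw [flipD_w, g1, e3]
        exact m2_arc_refl _ _
      · have e4 : i + 2 + 2 = i := by
          have h4 : (2 : ZMod 4) + 2 = 0 := by decide
          rw [add_assoc, h4, add_zero]
        rw [flipD_w, g2, e4]
        exact m2_arc_trans (m2_arc_mate hbw hT (m2_turn2 j))
          (m2_arc_symm (m2_arc_below hbb h.a1))
      · have e4 : i + 2 + 3 = i + 1 := by
          have h4 : (2 : ZMod 4) + 3 = 1 := by decide
          rw [add_assoc, h4]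
        rw [flipD_w, g3, e4]
        exact m2_arc_trans (m2_arc_mate hbw hT (m2_turn3 j))
          (m2_arc_symm (m2_arc_below hbb h.a2))
    · have hut : isC t u := by
        unfold isC at hu ⊢
        rwa [ha u.1 huv huw] at hu
      rw [flipD_ne _ _ _ _ huw, fout u (h.outer hut (fun e => huv (congrArg Prod.fst e))
        (fun e => huv (congrArg Prod.fst e))
        (fun e => huw (congrArg Prod.fst e)) (fun e => huw (congrArg Prod.fst e)))]
      exact m2_arc_refl _ _
  exact m2_arc_trans (m2_arc_symm (hcr x hx)) (m2_arc_trans (main x y hxy) (hcr y hy))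

/-! ### numbers of components -/

private theorem m2_invol (o : ZMod 4 → ZMod 4) (h1 : ∀ i, o i ≠ i) (h2 : ∀ i, o (o i) = i)
    (p : St) (hp : p.isX = true) (k : ZMod 4) :
    (p.mate = o ∧ (St.turn k).mate ≠ o ∧ (St.turn (k + 1)).mate ≠ o) ∨
    (p.mate ≠ o ∧ (St.turn k).mate = o ∧ (St.turn (k + 1)).mate ≠ o) ∨
    (p.mate ≠ o ∧ (St.turn k).mate ≠ o ∧ (St.turn (k + 1)).mate = o) := by
  have key : ∀ a b c d : ZMod 4, a ≠ 0 ∧ b ≠ 1 ∧ c ≠ 2 ∧ d ≠ 3 ∧
      (if a = 0 then a else if a = 1 then b else if a = 2 then c else d) = 0 ∧
      (if b = 0 then a else if b = 1 then b else if b = 2 then c else d) = 1 ∧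
      (if c = 0 then a else if c = 1 then b else if c = 2 then c else d) = 2 ∧
      (if d = 0 then a else if d = 1 then b else if d = 2 then c else d) = 3 →
      (a = 1 ∧ b = 0 ∧ c = 3 ∧ d = 2) ∨ (a = 2 ∧ b = 3 ∧ c = 0 ∧ d = 1) ∨
        (a = 3 ∧ b = 2 ∧ c = 1 ∧ d = 0) := by decide
  have ext' : ∀ g : ZMod 4 → ZMod 4, g = o ↔ (g 0 = o 0 ∧ g 1 = o 1 ∧ g 2 = o 2 ∧ g 3 = o 3) := by
    intro g
    constructor
    · rintro rfl
      exact ⟨rfl, rfl, rfl, rfl⟩
    · rintro ⟨g0, g1, g2, g3⟩
      funext x
      have hx : x = 0 ∨ x = 1 ∨ x = 2 ∨ x = 3 := by revert x; decide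
      rcases hx with rfl | rfl | rfl | rfl
      · exact g0
      · exact g1
      · exact g2
      · exact g3
  have q0 := h1 0
  have q1 := h1 1
  have q2 := h1 2
  have q3 := h1 3
  have r0 := h2 0
  have r1 := h2 1
  have r2 := h2 2
  have r3 := h2 3
  simp only [ne_eq, ext']
  obtain ⟨a, ha⟩ : ∃ a, a = o 0 := ⟨_, rfl⟩
  obtain ⟨b, hb⟩ : ∃ b, b = o 1 := ⟨_, rfl⟩
  obtain ⟨c, hc⟩ : ∃ c, c = o 2 := ⟨_, rfl⟩
  obtain ⟨d, hd⟩ : ∃ d, d = o 3 := ⟨_, rfl⟩
  have sel : ∀ x : ZMod 4, o x = if x = 0 then a else if x = 1 then b else if x = 2 then c else d := by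
    intro x
    have hx : x = 0 ∨ x = 1 ∨ x = 2 ∨ x = 3 := by revert x; decide
    rcases hx with rfl | rfl | rfl | rfl
    · simpa using ha.symm
    · rw [← hb]; rfl
    · rw [← hc]; rfl
    · rw [← hd]; rfl
  rw [← ha, sel] at r0
  rw [← hb, sel] at r1
  rw [← hc, sel] at r2
  rw [← hd, sel] at r3
  rw [← ha] at q0
  rw [← hb] at q1
  rw [← hc] at q2
  rw [← hd] at q3
  rw [← ha, ← hb, ← hc, ← hd]
  rcases key a b c d ⟨q0, q1, q2, q3, r0, r1, r2, r3⟩ with
    ⟨ka, kb, kc, kd⟩ | ⟨ka, kb, kc, kd⟩ | ⟨ka, kb, kc, kd⟩ <;> rw [ka, kb, kc, kd] <;>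
    clear * - hp <;> revert k <;> cases p <;> first | exact absurd hp (by decide) | decide

private theorem m2_three (S : Shadow V) (s : V → St) (v : V) (p : St) (hp : p.isX = true)
    (k : ZMod 4) :
    (comps S (update s v p) = comps S (update s v (St.turn k)) + 1 ∧
      comps S (update s v (St.turn k)) = comps S (update s v (St.turn (k + 1)))) ∨
    (comps S (update s v (St.turn k)) = comps S (update s v p) + 1 ∧
      comps S (update s v p) = comps S (update s v (St.turn (k + 1)))) ∨
    (comps S (update s v (St.turn (k + 1))) = comps S (update s v p) + 1 ∧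
      comps S (update s v p) = comps S (update s v (St.turn k))) := by
  obtain ⟨o, C₀, h1, h2, -, -, h5, -⟩ := outer S s v
  rcases m2_invol o h1 h2 p hp k with ⟨e1, e2, e3⟩ | ⟨e1, e2, e3⟩ | ⟨e1, e2, e3⟩
  · left
    rw [(h5 _).1 e1, (h5 _).2 e2, (h5 _).2 e3]
    exact ⟨rfl, rfl⟩
  · right; left
    rw [(h5 _).2 e1, (h5 _).1 e2, (h5 _).2 e3]
    exact ⟨rfl, rfl⟩
  · right; right
    rw [(h5 _).2 e1, (h5 _).2 e2, (h5 _).1 e3]
    exact ⟨rfl, rfl⟩

omit [Fintype V] [DecidableEq V] in
/-- the kink at `w` after smoothing `v` -/
private theorem m2_kink {t u : V → St} {v w : V} {i j : ZMod 4} (h : Big S t v i w j)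
    (hu : Below u t) (huv : u v = St.turn (i + 1)) : Arc S u (w, j) (w, j + 1) :=
  m2_arc_trans (m2_arc_symm (m2_arc_below hu h.a2))
    (m2_arc_trans (m2_arc_mate huv (m2_isX_turn _) (m2_turn'1 i)) (m2_arc_below hu h.a1))

private theorem m2_comps_AA {t : V → St} {v w : V} {i j : ZMod 4} (h : Big S t v i w j) :
    comps S (update (update t v (St.turn (i + 1))) w (St.turn j)) =
      comps S (update (update t v (St.turn i)) w (St.turn (j + 1))) := by
  have b1 : Below (update t v (St.turn (i + 1))) t :=
    m2_below_update (m2_below_refl t) _ h.hv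
  have b2 : Below (update t w (St.turn (j + 1))) t :=
    m2_below_update (m2_below_refl t) _ h.hw
  have k1 := comps_kink S (update t v (St.turn (i + 1))) w j
    (by rw [update_of_ne h.ne.symm]; exact h.hw) (m2_kink h b1 (by rw [update_self]))
  have k2 := comps_kink S (update t w (St.turn (j + 1))) v i
    (by rw [update_of_ne h.ne]; exact h.hv) (m2_kink h.swap b2 (by rw [update_self]))
  rw [update_comm h.ne.symm] at k2
  have e2 : update (update t w (St.turn (j + 1))) v (St.turn (i + 1)) =
      update (update t v (St.turn (i + 1))) w (St.turn (j + 1)) := by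
    rw [update_comm h.ne.symm]
  rw [e2] at k2
  omega

private theorem m2_comps_CC {t : V → St} {v w : V} {i j : ZMod 4} (h : Big S t v i w j) :
    comps S (update t v (St.turn i)) =
      comps S (update (update t v (t v).sw) w (St.turn j)) := by
  have e0 := comps_bigon S t v w i j h.ne h.hv h.hw h.a1 h.a2
  have e1 := m2_comps_AA h
  have h1 := m2_three S (update t v (St.turn i)) w (t w) h.hw j
  have h2 := m2_three S (update t w (St.turn j)) v (t v).sw (m2_isX_sw h.hv) i
  have e3 : update (update t v (St.turn i)) w (t w) = update t v (St.turn i) := by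
    have : t w = update t v (St.turn i) w := by rw [update_of_ne h.ne.symm]
    rw [this]
    exact update_eq_self _ _
  rw [e3] at h1
  rw [update_comm h.ne.symm, update_comm h.ne.symm, update_comm h.ne.symm] at h2
  omega

/-! ### the double change -/

private theorem m2_skein {t : V → St} (hF : ∀ v, (t v).isX = true → SkeinAt z F t v) (v : V)
    (i : ZMod 4) (hv : (t v).isX = true) :
    F t + F (update t v (t v).sw) =
      z * (F (update t v (St.turn i)) + F (update t v (St.turn (i + 1)))) := by
  have h := hF v hv
  unfold SkeinAt at h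
  rcases m2_turn_cases i with ⟨h1, h2⟩ | ⟨h1, h2⟩
  · rw [h1, h2]; exact h
  · rw [h1, h2, h, add_comm (F (update t v St.smA))]

private theorem m2_double (hz : z * (mu + 1) = 2) {t : V → St} (hF : IsSkein z mu S t F Ok)
    {v w : V} {i j : ZMod 4} (h : Big S t v i w j) (hup : (t v).upper i = (t w).upper (j + 1)) :
    F t = F (update (update t v (t v).sw) w (t w).sw) := by
  have hne := h.ne
  set t' := update t v (t v).sw with ht'
  have ht'w : t' w = t w := by rw [ht', update_of_ne hne.symm]
  have hsame : SameShape t' t := m2_same_update (fun _ => rfl) (m2_isX_sw h.hv) h.hv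
  have hbt' : Below t' t := m2_below_of_same hsame
  have eq1 := m2_skein (t := t) (fun v hv => hF.skein t (m2_below_refl t) v hv) v i h.hv
  have eq2 := m2_skein (t := t') (fun v hv => hF.skein t' hbt' v hv) w j (by rw [ht'w]; exact h.hw)
  rw [ht'w] at eq2
  -- states
  set a1 := update (update t v (St.turn (i + 1))) w (St.turn j) with ha1
  set a2 := update (update t v (St.turn i)) w (St.turn (j + 1)) with ha2
  set c1 := update t v (St.turn i) with hc1
  set c2 := update t' w (St.turn j) with hc2
  have hXw : ∀ q : St, ((update t v q) w).isX = true := fun q => by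
    rw [update_of_ne hne.symm]; exact h.hw
  have hbv : ∀ q : St, Below (update t v q) t := fun q => m2_below_update (m2_below_refl t) _ h.hv
  have hbvw : ∀ q r : St, Below (update (update t v q) w r) t := fun q r =>
    m2_below_update (hbv q) _ h.hw
  have hn1 : ∀ k : ZMod 4, nX (update t v (St.turn k)) < nX t := fun k =>
    m2_nX_lt h.hv (m2_isX_turn k)
  have hn2 : ∀ (k l : ZMod 4), nX (update (update t v (St.turn k)) w (St.turn l)) < nX t :=
    fun k l => (m2_nX_lt (hXw _) (m2_isX_turn l)).trans (hn1 k)
  have hnX' : nX t' = nX t := (sweep_sameShape (S := S) hsame (fun _ => 0)).2.2.2.1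
  have hn3 : ∀ l : ZMod 4, nX (update t' w (St.turn l)) < nX t := fun l => by
    rw [← hnX']
    exact m2_nX_lt (by rw [ht'w]; exact h.hw) (m2_isX_turn l)
  -- first kink
  have r1 : F (update t v (St.turn (i + 1))) = F a1 :=
    skein_R1 hz (hF.restrict (hbv _) (hn1 _)) (by
      obtain ⟨g, hg⟩ := exists_sweep S (update t v (St.turn (i + 1)))
      exact ⟨g, hg, trivial⟩) w j (hXw _) (m2_kink h (hbv _) (by rw [update_self]))
  -- second kink
  have hb2 : Below (update t' w (St.turn (j + 1))) t := hbvw _ _
  have hx2 : ((update t' w (St.turn (j + 1))) v).isX = true := by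
    rw [update_of_ne hne, ht', update_self]; exact m2_isX_sw h.hv
  have r2 : F (update t' w (St.turn (j + 1))) = F a2 := by
    have := skein_R1 hz (hF.restrict hb2 (hn3 _)) (by
      obtain ⟨g, hg⟩ := exists_sweep S (update t' w (St.turn (j + 1)))
      exact ⟨g, hg, trivial⟩) v i hx2 (m2_kink h.swap hb2 (by rw [update_self]))
    rw [this]
    congr 1
    rw [ha2, ht', update_comm hne.symm, update_idem]
  -- the first isomorphism
  have hAa1 : Agr t a1 v w := fun x hx hx' => by rw [ha1, update_of_ne hx', update_of_ne hx]
  have hAa2 : Agr t a2 v w := fun x hx hx' => by rw [ha2, update_of_ne hx', hc1, update_of_ne hx]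
  have hAa1' : Agr t a1 w v := fun x hx hx' => hAa1 x hx' hx
  have hAa2' : Agr t a2 w v := fun x hx hx' => hAa2 x hx' hx
  have a1v : a1 v = St.turn (i + 1) := by rw [ha1, update_of_ne hne, update_self]
  have a1w : a1 w = St.turn j := by rw [ha1, update_self]
  have a2v : a2 v = St.turn i := by rw [ha2, update_of_ne hne, hc1, update_self]
  have a2w : a2 w = St.turn (j + 1) := by rw [ha2, update_self]
  have hiff : ∀ x : Dart V, isC a1 x ↔ isC a2 x := by
    intro x
    unfold isC
    by_cases hx : x.1 = v
    · rw [hx, a1v, a2v, m2_isX_turn, m2_isX_turn]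
    · by_cases hx' : x.1 = w
      · rw [hx', a1w, a2w, m2_isX_turn, m2_isX_turn]
      · rw [hAa1 _ hx hx', hAa2 _ hx hx']
  have iso1 : F a1 = F a2 := by
    let e : DMap S a1 S a2 :=
      { φ := Equiv.subtypeEquivRight hiff
        rot := fun x y hxy => hxy
        arc := fun x y => ⟨fun hxy => m2_AA h hAa1 hAa2 a1v a1w a2v a2w hxy x.2 y.2,
          fun hxy => m2_AA h.swap hAa2' hAa1' a2w a2v a1w a1v hxy ((hiff _).1 x.2) ((hiff _).1 y.2)⟩
        upper := fun x => by
          have hx := x.2
          have hx1 : x.1.1 ≠ v := by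
            intro e
            unfold isC at hx
            rw [e, a1v, m2_isX_turn] at hx
            exact absurd hx (by simp)
          have hx2 : x.1.1 ≠ w := by
            intro e
            unfold isC at hx
            rw [e, a1w, m2_isX_turn] at hx
            exact absurd hx (by simp)
          show (a1 x.1.1).upper x.1.2 = (a2 x.1.1).upper x.1.2
          rw [hAa1 _ hx1 hx2, hAa2 _ hx1 hx2] }
    have := iso_eq_true (z := z) (mu := mu) e (k := 0) (by rw [add_zero]; exact m2_comps_AA h)
      (Or.inl rfl) (hF.restrict (hbvw _ _) (hn2 _ _)) (hF.restrict (hbvw _ _) (hn2 _ _))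
    rw [this, pow_zero, one_mul]
  -- the second isomorphism
  have hAc1 : Agr t c1 v w := fun x hx _ => by rw [hc1, update_of_ne hx]
  have hAc2 : Agr t c2 v w := fun x hx hx' => by rw [hc2, update_of_ne hx', ht', update_of_ne hx]
  have hAc1' : Agr t c1 w v := fun x hx hx' => hAc1 x hx' hx
  have hAc2' : Agr t c2 w v := fun x hx hx' => hAc2 x hx' hx
  have c1v : c1 v = St.turn i := by rw [hc1, update_self]
  have c1w : c1 w = t w := by rw [hc1, update_of_ne hne.symm]
  have c2v : c2 v = (t v).sw := by rw [hc2, update_of_ne hne, ht', update_self]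
  have c2w : c2 w = St.turn j := by rw [hc2, update_self]
  have hc1ne : ∀ x : Dart V, isC c1 x → x.1 ≠ v := by
    intro x hx e
    unfold isC at hx
    rw [e, c1v, m2_isX_turn] at hx
    exact absurd hx (by simp)
  have hc2ne : ∀ x : Dart V, isC c2 x → x.1 ≠ w := by
    intro x hx e
    unfold isC at hx
    rw [e, c2w, m2_isX_turn] at hx
    exact absurd hx (by simp)
  have hto : ∀ x : Dart V, isC c1 x → isC c2 (flipD v i w j x) := by
    intro x hx
    by_cases hxw : x.1 = w
    · unfold flipD isC
      rw [if_pos hxw]
      show (c2 v).isX = true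
      rw [c2v]
      exact m2_isX_sw h.hv
    · rw [flipD_ne _ _ _ _ hxw]
      unfold isC at hx ⊢
      rw [hAc2 _ (hc1ne x hx) hxw]
      rwa [hAc1 _ (hc1ne x hx) hxw] at hx
  have hfrom : ∀ x : Dart V, isC c2 x → isC c1 (flipD w j v i x) := by
    intro x hx
    by_cases hxv : x.1 = v
    · unfold flipD isC
      rw [if_pos hxv]
      show (c1 w).isX = true
      rw [c1w]
      exact h.hw
    · rw [flipD_ne _ _ _ _ hxv]
      unfold isC at hx ⊢
      rw [hAc1 _ hxv (hc2ne x hx)]
      rwa [hAc2 _ hxv (hc2ne x hx)] at hx
  have iso2 : F c1 = F c2 := by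
    let e : DMap S c1 S c2 :=
      { φ :=
          { toFun := fun x => ⟨flipD v i w j x.1, hto x.1 x.2⟩
            invFun := fun x => ⟨flipD w j v i x.1, hfrom x.1 x.2⟩
            left_inv := fun x => Subtype.ext (flipD_flipD i j (hc1ne x.1 x.2))
            right_inv := fun x => Subtype.ext (flipD_flipD j i (hc2ne x.1 x.2)) }
        rot := fun x y hxy => by
          show flipD v i w j y.1 = sg (flipD v i w j x.1)
          rw [hxy]
          unfold flipD sg
          by_cases hxw : x.1.1 = w
          · rw [if_pos hxw, if_pos hxw]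
            show (v, x.1.2 + 1 - j + i + 2) = (v, x.1.2 - j + i + 2 + 1)
            congr 1
            ring
          · rw [if_neg hxw, if_neg hxw]
        arc := fun x y => ⟨fun hxy => m2_CC h hAc1 hAc2 c1v (by rw [c1w]; exact h.hw) c2w hxy x.2 y.2,
          fun hxy => by
            have h3 := m2_CC h.swap hAc2' hAc1' c2w (by rw [c2v]; exact m2_isX_sw h.hv) c1v hxy
              (hto _ x.2) (hto _ y.2)
            have e1 := flipD_flipD (v := v) (w := w) i j (hc1ne x.1 x.2)
            have e2 := flipD_flipD (v := v) (w := w) i j (hc1ne y.1 y.2)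
            change Arc S c1 (flipD w j v i (flipD v i w j x.1)) (flipD w j v i (flipD v i w j y.1))
              at h3
            rwa [e1, e2] at h3⟩
        upper := fun x => by
          show (c1 x.1.1).upper x.1.2 = (c2 (flipD v i w j x.1).1).upper (flipD v i w j x.1).2
          by_cases hxw : x.1.1 = w
          · have e1 : flipD v i w j x.1 = (v, x.1.2 - j + i + 2) := by
              unfold flipD
              rw [if_pos hxw]
            rw [e1, hxw, c1w]
            show (t w).upper x.1.2 = (c2 v).upper (x.1.2 - j + i + 2)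
            rw [c2v]
            exact m2_upper_map h.hv h.hw i j _ hup
          · have hxv := hc1ne x.1 x.2
            rw [flipD_ne _ _ _ _ hxw, hAc1 _ hxv hxw, hAc2 _ hxv hxw] }
    have := iso_eq_true (z := z) (mu := mu) e (k := 0) (by rw [add_zero]; exact m2_comps_CC h)
      (Or.inl rfl) (hF.restrict (hbv _) (hn1 _)) (hF.restrict (hbvw _ _) (hn3 _))
    rw [this, pow_zero, one_mul]
  rw [r1, iso1, iso2] at eq1
  rw [r2] at eq2
  have eq3 : F t + F t' = F t' + F (update t' w (t w).sw) := by
    rw [eq1, eq2, add_comm (F c2)]
  have eq4 : F t = F (update t' w (t w).sw) := by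
    have := eq3
    linear_combination this
  exact eq4

/-! ### the pattern of a sweep -/

private theorem m2_pat_upper {h : Dart V → ℕ} (hs : Sweep S s h) {v : V} (hv : (s v).isX = true)
    (i : ZMod 4) : (pat s h v).upper i = decide (h (v, i + 1) < h (v, i)) := by
  have hne : h (v, 0) ≠ h (v, 1) := by
    intro e
    have := hs.inj (v, 0) (v, 1) hv hv e
    rcases this with h1 | h1
    · have h2 : (1 : ZMod 4) = 0 := congrArg Prod.snd h1
      exact absurd h2 (by decide)
    · have h2 : (1 : ZMod 4) = (s v).mate 0 := congrArg Prod.snd h1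
      revert h2 hv
      cases s v <;> decide
  have hm : ∀ k : ZMod 4, (s v).mate k = k + 2 := by
    intro k
    revert k hv
    cases s v <;> decide
  have h2 : h (v, 2) = h (v, 0) := by
    have := hs.const (v, 0) hv
    have e : tau s (v, 0) = (v, 2) := by
      show (v, (s v).mate 0) = (v, 2)
      rw [hm]
      rfl
    rwa [e] at this
  have h3 : h (v, 3) = h (v, 1) := by
    have := hs.const (v, 1) hv
    have e : tau s (v, 1) = (v, 3) := by
      show (v, (s v).mate 1) = (v, 3)
      rw [hm]
      rfl
    rwa [e] at this
  unfold pat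
  rw [if_pos hv]
  have hi : i = 0 ∨ i = 1 ∨ i = 2 ∨ i = 3 := by revert i; decide
  have d1 : (0 : ZMod 4) + 1 = 1 := by decide
  have d2 : (1 : ZMod 4) + 1 = 2 := by decide
  have d3 : (2 : ZMod 4) + 1 = 3 := by decide
  have d4 : (3 : ZMod 4) + 1 = 0 := by decide
  have u1 : St.over1.upper 0 = false := by decide
  have u2 : St.over1.upper 1 = true := by decide
  have u3 : St.over1.upper 2 = false := by decide
  have u4 : St.over1.upper 3 = true := by decide
  have v1 : St.over0.upper 0 = true := by decide
  have v2 : St.over0.upper 1 = false := by decide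
  have v3 : St.over0.upper 2 = true := by decide
  have v4 : St.over0.upper 3 = false := by decide
  rcases hi with rfl | rfl | rfl | rfl
  · rw [d1]
    by_cases hlt : h (v, 0) < h (v, 1)
    · rw [if_pos hlt, u1, eq_comm, decide_eq_false_iff_not]; omega
    · rw [if_neg hlt, v1, eq_comm, decide_eq_true_iff]; omega
  · rw [d2, h2]
    by_cases hlt : h (v, 0) < h (v, 1)
    · rw [if_pos hlt, u2, eq_comm, decide_eq_true_iff]; omega
    · rw [if_neg hlt, v2, eq_comm, decide_eq_false_iff_not]; omega
  · rw [d3, h2, h3]
    by_cases hlt : h (v, 0) < h (v, 1)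
    · rw [if_pos hlt, u3, eq_comm, decide_eq_false_iff_not]; omega
    · rw [if_neg hlt, v3, eq_comm, decide_eq_true_iff]; omega
  · rw [d4, h3]
    by_cases hlt : h (v, 0) < h (v, 1)
    · rw [if_pos hlt, u4, eq_comm, decide_eq_true_iff]; omega
    · rw [if_neg hlt, v4, eq_comm, decide_eq_false_iff_not]; omega

/-- an admissible pattern on which the move is an equality -/
private theorem m2_start (hF : IsSkein z mu S s F Ok) (hN : Nice S s Ok) {v w : V} {i j : ZMod 4}
    (h : Big S s v i w j) : ∃ p, SameShape p s ∧ (p v).upper i = (p w).upper (j + 1) ∧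
      F p = F (update (update p v (St.turn i)) w (St.turn j)) := by
  have hm : ∀ (u : V), (s u).isX = true → ∀ k : ZMod 4, tau s (u, k) = (u, k + 2) := by
    intro u hu k
    show (u, (s u).mate k) = (u, k + 2)
    congr 1
    revert k hu
    cases s u <;> decide
  set B : Set (Dart V) := {x | ¬ (Arc S s x (v, i) ∨ Arc S s x (v, i + 1))} with hB
  have par : ∀ x, isC s x → Arc S s x (partner (Cr s) S s x) := fun x hx =>
    (partner_spec (Cr s) S s x hx).2.2.1
  have comp_tau : ∀ x, Comp S s x (tau s x) := fun x => Relation.EqvGen.rel _ _ (Or.inr rfl)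
  have pA : partner (Cr s) S s (v, i) = (w, j + 1) :=
    partner_eq (Cr s) S s (v, i) (w, j + 1) h.hv h.hw (fun e => h.ne.symm (congrArg Prod.fst e)) h.a1
  have pB : partner (Cr s) S s (v, i + 1) = (w, j) :=
    partner_eq (Cr s) S s (v, i + 1) (w, j) h.hv h.hw (fun e => h.ne.symm (congrArg Prod.fst e)) h.a2
  have outB : ∀ u, ¬ Arc S s u (v, i) ∧ ¬ Arc S s u (v, i + 1) → u ∈ B := fun u hu => by
    show ¬ (Arc S s u (v, i) ∨ Arc S s u (v, i + 1))
    tauto
  obtain ⟨g, hg, hok, hgB⟩ := hN B
    (by
      intro x hx hxB hp
      apply hxB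
      rcases hp with hp | hp
      · exact Or.inl (m2_arc_trans (par x hx) hp)
      · exact Or.inr (m2_arc_trans (par x hx) hp))
    (by
      intro x hx
      by_cases hxB : x ∈ B
      · exact ⟨x, hxB, hx, Relation.EqvGen.refl x⟩
      · have hx' : Arc S s x (v, i) ∨ Arc S s x (v, i + 1) := by
          by_contra hc
          exact hxB hc
        rcases hx' with hx' | hx'
        · rcases h.endsA hx hx' with rfl | rfl
          · refine ⟨(v, i + 2), outB _ h.out2, h.hv, ?_⟩
            rw [← hm v h.hv i]
            exact comp_tau _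
          · refine ⟨(w, j + 3), outB _ h.out3w, h.hw, ?_⟩
            have e : tau s (w, j + 1) = (w, j + 3) := by
              rw [hm w h.hw]
              congr 1
              ring
            rw [← e]
            exact comp_tau _
        · rcases h.endsB hx hx' with rfl | rfl
          · refine ⟨(v, i + 3), outB _ h.out3, h.hv, ?_⟩
            have e : tau s (v, i + 1) = (v, i + 3) := by
              rw [hm v h.hv]
              congr 1
              ring
            rw [← e]
            exact comp_tau _
          · refine ⟨(w, j + 2), outB _ h.out2w, h.hw, ?_⟩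
            rw [← hm w h.hw j]
            exact comp_tau _)
  have inA : (v, i) ∉ B := fun hc => hc (Or.inl (m2_arc_refl _ _))
  have inB : (v, i + 1) ∉ B := fun hc => hc (Or.inr (m2_arc_refl _ _))
  have gA := hgB (v, i) h.hv inA
  have gB := hgB (v, i + 1) h.hv inB
  rw [pA] at gA
  rw [pB] at gB
  have strand : ∀ (u : V) (k : ZMod 4), (s u).isX = true → g (u, k) ≠ g (u, k + 1) := by
    intro u k hu e
    rcases hg.inj (u, k) (u, k + 1) hu hu e with h1 | h1
    · exact m2_ne1 k (congrArg Prod.snd h1)
    · rw [hm u hu] at h1
      exact m2_ne12 k (congrArg Prod.snd h1)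
  have diffv : ∀ k l : ZMod 4, g (v, k) ≠ g (w, l) := by
    intro k l e
    rcases hg.inj (v, k) (w, l) h.hv h.hw e with h1 | h1
    · exact h.ne.symm (congrArg Prod.fst h1)
    · rw [hm v h.hv] at h1
      exact h.ne.symm (congrArg Prod.fst h1)
  have s1 := strand v i h.hv
  have s2 := strand w j h.hw
  have s3 := diffv i j
  have s4 := diffv i (j + 1)
  have s5 := diffv (i + 1) j
  have s6 := diffv (i + 1) (j + 1)
  have hw2 : g (w, j + 1 + 1) = g (w, j) := by
    have e := hg.const (w, j) h.hw
    rw [hm w h.hw] at e
    have e' : j + 1 + 1 = j + 2 := by ring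
    rw [e', e]
  refine ⟨pat s g, pat_sameShape s g, ?_, ?_⟩
  · rw [m2_pat_upper hg h.hv, m2_pat_upper hg h.hw, hw2, decide_eq_decide]
    omega
  · have hbig : Big S s v i w j := h
    have e1 : update (update (pat s g) v (St.turn i)) w (St.turn j) =
        pat (update (update s v (St.turn i)) w (St.turn j)) g := by
      funext x
      by_cases hxw : x = w
      · subst hxw
        rw [update_self]
        unfold pat
        rw [update_self, if_neg]
        rw [m2_isX_turn]
        simp
      · rw [update_of_ne hxw]
        by_cases hxv : x = v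
        · subst hxv
          rw [update_self]
          unfold pat
          rw [update_of_ne hxw, update_self, if_neg]
          rw [m2_isX_turn]
          simp
        · rw [update_of_ne hxv]
          unfold pat
          rw [update_of_ne hxw, update_of_ne hxv]
    have hb : Below (update (update s v (St.turn i)) w (St.turn j)) s :=
      m2_below_update (m2_below_update (m2_below_refl s) _ h.hv) _ h.hw
    have hn : nX (update (update s v (St.turn i)) w (St.turn j)) < nX s :=
      (m2_nX_lt (by rw [update_of_ne h.ne.symm]; exact h.hw) (m2_isX_turn j)).trans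
        (m2_nX_lt h.hv (m2_isX_turn i))
    rw [e1, hF.top g hg hok, hF.low _ hb hn g
      (sweep_bigon hg v w i j h.ne h.hv h.hw h.a1 h.a2),
      comps_bigon S s v w i j h.ne h.hv h.hw h.a1 h.a2]

private theorem m2_main (hz : z * (mu + 1) = 2) : ∀ (n : ℕ) (s : V → St)
    (Ok : (Dart V → ℕ) → Prop), nX s = n → IsSkein z mu S s F Ok → Nice S s Ok →
    ∀ (v w : V) (i j : ZMod 4), Big S s v i w j → (s v).upper i = (s w).upper (j + 1) →
    F s = F (update (update s v (St.turn i)) w (St.turn j)) := by
  intro n
  induction n using Nat.strong_induction_on with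
  | _ n ih =>
  intro s Ok hn hF hN v w i j h hup
  have hne := h.ne
  obtain ⟨p, hps, hpu, hpF⟩ := m2_start hF hN h
  have hpv : (p v).isX = true := by rw [m2_shape_isX (hps v)]; exact h.hv
  have hpw : (p w).isX = true := by rw [m2_shape_isX (hps w)]; exact h.hw
  -- the statement for all states with the values of `p` at `v` and `w`
  have key : ∀ t, SameShape t (update (update s v St.smA) w St.smA) →
      F (update (update t v (p v)) w (p w)) -
        F (update (update t v (St.turn i)) w (St.turn j)) = 0 := by
    intro t ht
    refine alt_zero (update (update s v St.smA) w St.smA)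
      (fun t => F (update (update t v (p v)) w (p w)) -
        F (update (update t v (St.turn i)) w (St.turn j))) ?_
      (update (update p v St.smA) w St.smA) ?_ ?_ t ht
    · intro r x hr hx
      have hrv : (r v).isX = false := by
        rw [m2_shape_isX (hr v), update_of_ne hne, update_self]; rfl
      have hrw : (r w).isX = false := by
        rw [m2_shape_isX (hr w), update_self]; rfl
      have hxv : x ≠ v := fun e => by rw [e, hrv] at hx; exact absurd hx (by simp)
      have hxw : x ≠ w := fun e => by rw [e, hrw] at hx; exact absurd hx (by simp)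
      set a := update (update r v (p v)) w (p w) with ha
      set b := update (update r v (St.turn i)) w (St.turn j) with hb
      have ca : ∀ q, update (update (update r x q) v (p v)) w (p w) = update a x q := by
        intro q
        rw [ha, update_comm hxv, update_comm hxw]
      have cb : ∀ q, update (update (update r x q) v (St.turn i)) w (St.turn j) = update b x q := by
        intro q
        rw [hb, update_comm hxv, update_comm hxw]
      rw [ca, cb]
      have hax : a x = r x := by rw [ha, update_of_ne hxw, update_of_ne hxv]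
      have hbx : b x = r x := by rw [hb, update_of_ne hxw, update_of_ne hxv]
      have has : SameShape a s := by
        intro y
        by_cases hyw : y = w
        · subst hyw
          rw [ha, update_self]
          exact hps y
        · by_cases hyv : y = v
          · subst hyv
            rw [ha, update_of_ne hyw, update_self]
            exact hps y
          · rw [ha, update_of_ne hyw, update_of_ne hyv, hr y, update_of_ne hyw, update_of_ne hyv]
      have hba : Below a s := m2_below_of_same has
      have hsx : (s x).isX = true := by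
        rw [← m2_shape_isX (has x), hax]; exact hx
      have hbb : Below b s := by
        intro y hy
        have hyv : y ≠ v := fun e => by rw [e, h.hv] at hy; exact absurd hy (by simp)
        have hyw : y ≠ w := fun e => by rw [e, h.hw] at hy; exact absurd hy (by simp)
        have := hba y hy
        rw [ha, update_of_ne hyw, update_of_ne hyv] at this
        rw [hb, update_of_ne hyw, update_of_ne hyv, this]
      have k1 := hF.skein a hba x (by rw [hax]; exact hx)
      have k2 := hF.skein b hbb x (by rw [hbx]; exact hx)
      unfold SkeinAt at k1 k2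
      rw [hax] at k1
      rw [hbx] at k2
      have nXa : nX a = nX s := (sweep_sameShape (S := S) has (fun _ => 0)).2.2.2.1
      have aux : ∀ q : St, q.isX = false → F (update a x q) = F (update b x q) := by
        intro q hq
        have hlt : nX (update a x q) < nX s := by
          rw [← nXa]
          exact m2_nX_lt (by rw [hax]; exact hx) hq
        have hbel : Below (update a x q) s := m2_below_update hba q hsx
        have hv' : (update a x q) v = p v := by
          rw [update_of_ne hxv.symm, ha, update_of_ne hne, update_self]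
        have hw' : (update a x q) w = p w := by
          rw [update_of_ne hxw.symm, ha, update_self]
        have hbig : Big S (update a x q) v i w j :=
          ⟨hne, by rw [hv']; exact hpv, by rw [hw']; exact hpw, m2_arc_below hbel h.a1,
            m2_arc_below hbel h.a2⟩
        have := ih (nX (update a x q)) (by rw [← hn]; exact hlt) (update a x q) (fun _ => True) rfl
          (hF.restrict hbel hlt) (nice_true S _) v w i j hbig (by rw [hv', hw']; exact hpu)
        rw [this]
        congr 1
        rw [ha, hb]
        funext y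
        by_cases hyw : y = w
        · subst hyw
          rw [update_self, update_of_ne hxw.symm, update_self]
        · rw [update_of_ne hyw]
          by_cases hyv : y = v
          · subst hyv
            rw [update_self, update_of_ne hxv.symm, update_of_ne hne, update_self]
          · rw [update_of_ne hyv]
            by_cases hyx : y = x
            · subst hyx
              rw [update_self, update_self]
            · rw [update_of_ne hyx, update_of_ne hyx, update_of_ne hyw, update_of_ne hyv,
                update_of_ne hyw, update_of_ne hyv]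
      have q1 := aux St.smA rfl
      have q2 := aux St.smB rfl
      linear_combination k1 - k2 + z * q1 + z * q2
    · intro y
      by_cases hyw : y = w
      · subst hyw
        rw [update_self, update_self]
      · rw [update_of_ne hyw, update_of_ne hyw]
        by_cases hyv : y = v
        · subst hyv
          rw [update_self, update_self]
        · rw [update_of_ne hyv, update_of_ne hyv]
          exact hps y
    · have e1 : update (update (update (update p v St.smA) w St.smA) v (p v)) w (p w) = p := by
        funext y
        by_cases hyw : y = w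
        · subst hyw
          rw [update_self]
        · rw [update_of_ne hyw]
          by_cases hyv : y = v
          · subst hyv
            rw [update_self]
          · rw [update_of_ne hyv, update_of_ne hyw, update_of_ne hyv]
      have e2 : update (update (update (update p v St.smA) w St.smA) v (St.turn i)) w (St.turn j) =
          update (update p v (St.turn i)) w (St.turn j) := by
        funext y
        by_cases hyw : y = w
        · subst hyw
          rw [update_self, update_self]
        · rw [update_of_ne hyw, update_of_ne hyw]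
          by_cases hyv : y = v
          · subst hyv
            rw [update_self, update_self]
          · rw [update_of_ne hyv, update_of_ne hyv, update_of_ne hyw, update_of_ne hyv]
      rw [e1, e2, hpF, sub_self]
  have key2 := key (update (update s v St.smA) w St.smA) (fun _ => rfl)
  set p3 := update (update s v (p v)) w (p w) with hp3
  have e1 : update (update (update (update s v St.smA) w St.smA) v (p v)) w (p w) = p3 := by
    funext y
    by_cases hyw : y = w
    · subst hyw
      rw [hp3, update_self, update_self]
    · rw [hp3, update_of_ne hyw, update_of_ne hyw]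
      by_cases hyv : y = v
      · subst hyv
        rw [update_self, update_self]
      · rw [update_of_ne hyv, update_of_ne hyw, update_of_ne hyv, update_of_ne hyv]
  have e2 : update (update (update (update s v St.smA) w St.smA) v (St.turn i)) w (St.turn j) =
      update (update s v (St.turn i)) w (St.turn j) := by
    funext y
    by_cases hyw : y = w
    · subst hyw
      rw [update_self, update_self]
    · rw [update_of_ne hyw, update_of_ne hyw]
      by_cases hyv : y = v
      · subst hyv
        rw [update_self, update_self]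
      · rw [update_of_ne hyv, update_of_ne hyw, update_of_ne hyv, update_of_ne hyv]
  rw [e1, e2, sub_eq_zero] at key2
  rw [← key2]
  by_cases hc : (s v).upper i = (p v).upper i
  · have h1 : s v = p v := m2_upper_eq h.hv hpv i hc
    have h2 : s w = p w := m2_upper_eq h.hw hpw (j + 1) (by rw [← hup, ← hpu, hc])
    congr 1
    rw [hp3, ← h1, ← h2]
    funext y
    by_cases hyw : y = w
    · subst hyw; rw [update_self]
    · rw [update_of_ne hyw]
      by_cases hyv : y = v
      · subst hyv; rw [update_self]
      · rw [update_of_ne hyv]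
  · have h1 : p v = (s v).sw := m2_upper_ne hpv h.hv i (fun e => hc e.symm)
    have h2 : p w = (s w).sw := m2_upper_ne hpw h.hw (j + 1) (by
      intro e
      apply hc
      rw [hup, ← e, ← hpu])
    rw [hp3, h1, h2]
    exact m2_double hz hF h hup

theorem skein_R2 (hz : z * (mu + 1) = 2) (hF : IsSkein z mu S s F Ok) (hN : Nice S s Ok)
    (v w : V) (i j : ZMod 4) (hvw : v ≠ w) (hv : (s v).isX = true) (hw : (s w).isX = true)
    (h1 : Arc S s (v, i) (w, j + 1)) (h2 : Arc S s (v, i + 1) (w, j))
    (hup : (s v).upper i = (s w).upper (j + 1)) :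
    F s = F (update (update s v (St.turn i)) w (St.turn j)) :=
  m2_main hz _ s Ok rfl hF hN v w i j ⟨hvw, hv, hw, h1, h2⟩ hup

end Pool.Agent.Helper65.LK
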