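import Pool.Agent.Helper65.LK.Side

/-!
# LK-33b. A diagram with a local bipolar orientation has no nugatory crossing

Let `LBO S o v₀`, `n ≥ 2`, and suppose that `(v, i)` and `(v, i + 2)` are in the same face.  Take `W, W'` from
`exists_side`.
If `v ≠ v₀`: `v₀` is in one of `W, W'`; replacing `i` by `i + 2` (and exchanging `W`, `W'`) if necessary we may
assume that `v₀ ∉ W`.  If `v = v₀`: `v₀ ∉ W`, `v₀ ∉ W'`, and `W ∪ W'` is not empty as `n ≥ 2`; again we may assume
that `W` is not empty.
Case `S.α (v, i) = (v, i + 1)` (then `W = ∅`, so `v ≠ v₀`): `faceP S (v, i + 1) = sg (v, i) = (v, i + 1)`, the face of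
the corner `(v, i + 1)` has only this corner, so the sign is constant on it, but it does not contain a
corner of `v₀`: contradiction to `LBO`.
Otherwise let `S₂` be the diagram of the side on `W`, `n₂ = card W`.  `o` restricted to `W` has exactly `2 n₂`
changes for `S₂` (`card_chg`), and `S₂` has `n₂ + 2` faces (`card_faces`).  Let `y₁ = S.α (v, i)`,
`y₂ = S.α (v, i+1)`, as darts of `S₂`.  A face of `S₂` which contains neither `y₁` nor `y₂` is a face of `S`
(on it `faceP S₂ = faceP S` by `far` and `only`), it contains no corner of `v₀` (`v₀ ∉ W`), so the sign is not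
constant and it contains at least two changes (`even_chg`, or go around the cycle).  There are at least
`n₂` such faces, with `2 n₂` changes in all.  But exactly one of `y₁`, `y₂ = S₂.α y₁` is a change of `S₂`
(`chg_iff`), in one of the other (at most two) faces: contradiction.
-/

namespace Pool.Agent.Helper65.LK

open Function

variable {V : Type} [Fintype V] [DecidableEq V] {S : Shadow V}

/-- a face with one corner -/
theorem nn_loop {o : V → Bool} {v₀ : V} (h : LBO S o v₀) {v : V} (hv : v₀ ≠ v) {i : ZMod 4}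
    (ha : S.α (v, i) = (v, i + 1)) : False := by
  have h1 : S.α (v, i + 1) = (v, i) := by rw [← ha, S.invol]
  have h2 : faceP S (v, i + 1) = (v, i + 1) := by
    rw [faceP_apply, h1]
    rfl
  have h3 : ∀ y, Face S (v, i + 1) y → y = (v, i + 1) := by
    intro y hy
    obtain ⟨k, hk⟩ := hy.exists_nat_pow_eq
    rw [← hk]
    clear hk hy
    induction k with
    | zero => rfl
    | succ k ih => rw [pow_succ', Equiv.Perm.mul_apply, ih, h2]
  rcases (h (v, i + 1)).1 (fun y hy => by rw [h3 y hy]) with h4 | h4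
  · exact hv (congrArg Prod.fst (h3 _ h4))
  · exact hv (congrArg Prod.fst (h3 _ h4))

/-- a side which does not contain the special crossing -/
theorem nn_side {o : V → Bool} {v₀ : V} (h : LBO S o v₀) {v : V} {i : ZMod 4} {W : Finset V}
    {S₂ : Shadow {w : V // w ∈ W}} (hs : Side S v i W S₂) (hW : v₀ ∉ W) : False := by
  classical
  let o₂ : {w : V // w ∈ W} → Bool := fun w => o w.1
  let up : Dart {w : V // w ∈ W} → Dart V := fun x => (x.1.1, x.2)
  have hup : Function.Injective up := by
    intro x y hxy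
    have h1 : x.1.1 = y.1.1 := congrArg (fun z : Dart V => z.1) hxy
    have h2 : x.2 = y.2 := congrArg (fun z : Dart V => z.2) hxy
    exact Prod.ext (Subtype.ext h1) h2
  let y₁ : Dart {w : V // w ∈ W} := (⟨(S.α (v, i)).1, hs.mem₁⟩, (S.α (v, i)).2)
  let y₂ : Dart {w : V // w ∈ W} := (⟨(S.α (v, i + 1)).1, hs.mem₂⟩, (S.α (v, i + 1)).2)
  have hy : S₂.α y₁ = y₂ := hs.arc
  have hup₁ : up y₁ = S.α (v, i) := rfl
  have hup₂ : up y₂ = S.α (v, i + 1) := rfl
  have hsgn : ∀ x, sgn o (up x) = sgn o₂ x := fun x => rfl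
  -- away from `y₁`, `y₂`
  have hfar : ∀ x, x ≠ y₁ → x ≠ y₂ → faceP S (up x) = up (faceP S₂ x) := by
    intro x h1 h2
    have h3 : (S.α (up x)).1 ≠ v := by
      intro h4
      rcases hs.only (up x) x.1.2 h4 with h5 | h5
      · apply h1
        apply hup
        rw [hup₁, ← h5, S.invol]
      · apply h2
        apply hup
        rw [hup₂, ← h5, S.invol]
    have h4 : up (S₂.α x) = S.α (up x) := hs.far x h3
    rw [faceP_apply, faceP_apply, ← h4]
    rfl
  -- faces away from `y₁`, `y₂`
  have hface : ∀ x, ¬ Face S₂ x y₁ → ¬ Face S₂ x y₂ →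
      2 ≤ {y : Dart {w : V // w ∈ W} | Face S₂ x y ∧ Chg S₂ o₂ y}.ncard := by
    intro x h1 h2
    have hpow : ∀ k : ℕ, (faceP S ^ k) (up x) = up ((faceP S₂ ^ k) x) := by
      intro k
      induction k with
      | zero => rfl
      | succ k ih =>
        rw [pow_succ', pow_succ', Equiv.Perm.mul_apply, Equiv.Perm.mul_apply, ih]
        have hk : Face S₂ x ((faceP S₂ ^ k) x) :=
          Equiv.Perm.sameCycle_pow_right.mpr (Equiv.Perm.SameCycle.refl _ _)
        apply hfar
        · intro h3
          exact h1 (h3 ▸ hk)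
        · intro h3
          exact h2 (h3 ▸ hk)
    have hex : ∃ y, Face S₂ x y ∧ Chg S₂ o₂ y := by
      by_contra hno
      push Not at hno
      have hc : ∀ k : ℕ, sgn o₂ ((faceP S₂ ^ k) x) = sgn o₂ x := by
        intro k
        induction k with
        | zero => rfl
        | succ k ih =>
          have hk : Face S₂ x ((faceP S₂ ^ k) x) :=
            Equiv.Perm.sameCycle_pow_right.mpr (Equiv.Perm.SameCycle.refl _ _)
          have h3 := hno _ hk
          unfold Chg at h3
          rw [not_not] at h3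
          rw [pow_succ', Equiv.Perm.mul_apply, ← h3, ih]
      have hall : ∀ y, Face S (up x) y → sgn o y = sgn o (up x) := by
        intro y hy
        obtain ⟨k, hk⟩ := hy.exists_nat_pow_eq
        rw [← hk, hpow k, hsgn, hsgn, hc]
      have hmem : ∀ y, Face S (up x) y → y.1 ∈ W := by
        intro y hy
        obtain ⟨k, hk⟩ := hy.exists_nat_pow_eq
        rw [← hk, hpow k]
        exact ((faceP S₂ ^ k) x).1.2
      rcases (h (up x)).1 hall with h3 | h3
      · exact hW (hmem _ h3)
      · exact hW (hmem _ h3)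
    obtain ⟨y, hy⟩ := hex
    have h3 : {y : Dart {w : V // w ∈ W} | Face S₂ x y ∧ Chg S₂ o₂ y}.ncard ≠ 0 := by
      intro h0
      rw [Set.ncard_eq_zero (Set.toFinite _)] at h0
      have h4 : y ∈ {y : Dart {w : V // w ∈ W} | Face S₂ x y ∧ Chg S₂ o₂ y} := hy
      rw [h0] at h4
      exact h4
    obtain ⟨k, hk⟩ := even_chg S₂ o₂ x
    omega
  -- counting
  let Q := Quotient (Equiv.Perm.SameCycle.setoid (faceP S₂))
  haveI : Fintype Q := Fintype.ofFinite Q
  let F : Finset (Dart {w : V // w ∈ W}) := Finset.univ.filter fun x => Chg S₂ o₂ x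
  let mk : Dart {w : V // w ∈ W} → Q := fun x => Quotient.mk _ x
  have hF : F.card = 2 * Fintype.card {w : V // w ∈ W} := by
    rw [← card_chg hs.apd o₂, ← Set.ncard_coe_finset]
    congr 1
    ext x
    simp [F]
  have hQ : Fintype.card Q = Fintype.card {w : V // w ∈ W} + 2 := by
    rw [← card_faces hs.apd, ← Nat.card_eq_fintype_card]
    rfl
  have hsum : F.card = ∑ q : Q, (F.filter fun x => mk x = q).card :=
    Finset.card_eq_sum_card_fiberwise (fun x _ => Finset.mem_coe.2 (Finset.mem_univ (mk x)))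
  have hq : ∀ q : Q, q ≠ mk y₁ → q ≠ mk y₂ → 2 ≤ (F.filter fun x => mk x = q).card := by
    intro q
    induction q using Quotient.inductionOn with
    | _ x =>
      intro h1 h2
      have h3 : ¬ Face S₂ x y₁ := fun h => h1 (Quotient.sound h)
      have h4 : ¬ Face S₂ x y₂ := fun h => h2 (Quotient.sound h)
      have h5 := hface x h3 h4
      rw [← Set.ncard_coe_finset]
      refine h5.trans (le_of_eq ?_)
      congr 1
      ext y
      simp only [Set.mem_ofPred_eq, Finset.coe_filter, Finset.mem_filter, Finset.mem_univ, F,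
        true_and]
      constructor
      · rintro ⟨h6, h7⟩
        exact ⟨h7, Quotient.sound h6.symm⟩
      · rintro ⟨h6, h7⟩
        exact ⟨(Quotient.exact h7 : Face S₂ y x).symm, h6⟩
  have hsp : ∃ q ∈ ({mk y₁, mk y₂} : Finset Q), 1 ≤ (F.filter fun x => mk x = q).card := by
    have h1 := chg_iff hs.apd o₂ y₁
    rw [hy] at h1
    by_cases h2 : Chg S₂ o₂ y₁
    · refine ⟨mk y₁, by simp, ?_⟩
      rw [Nat.one_le_iff_ne_zero, Finset.card_ne_zero]
      exact ⟨y₁, by simp [F, h2]⟩
    · refine ⟨mk y₂, by simp, ?_⟩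
      rw [Nat.one_le_iff_ne_zero, Finset.card_ne_zero]
      exact ⟨y₂, by simp [F, h1.2 h2]⟩
  obtain ⟨q₀, hq₀, hq₁⟩ := hsp
  have hsplit := Finset.sum_sdiff (f := fun q : Q => (F.filter fun x => mk x = q).card)
    (Finset.subset_univ ({mk y₁, mk y₂} : Finset Q))
  have hbig : (Finset.univ \ ({mk y₁, mk y₂} : Finset Q)).card * 2 ≤
      ∑ q ∈ Finset.univ \ ({mk y₁, mk y₂} : Finset Q), (F.filter fun x => mk x = q).card := by
    rw [← smul_eq_mul]
    refine Finset.card_nsmul_le_sum _ _ _ fun q hq' => ?_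
    have h1 := (Finset.mem_sdiff.1 hq').2
    rw [Finset.mem_insert, Finset.mem_singleton, not_or] at h1
    exact hq q h1.1 h1.2
  have hsmall : (F.filter fun x => mk x = q₀).card ≤
      ∑ q ∈ ({mk y₁, mk y₂} : Finset Q), (F.filter fun x => mk x = q).card :=
    Finset.single_le_sum (f := fun q : Q => (F.filter fun x => mk x = q).card)
      (fun _ _ => Nat.zero_le _) hq₀
  have hcard : Fintype.card Q ≤ (Finset.univ \ ({mk y₁, mk y₂} : Finset Q)).card + 2 := by
    have h1 := Finset.card_sdiff_add_card_eq_card (Finset.subset_univ ({mk y₁, mk y₂} : Finset Q))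
    have h2 : ({mk y₁, mk y₂} : Finset Q).card ≤ 2 := Finset.card_le_two
    rw [Finset.card_univ] at h1
    omega
  omega

theorem lbo_not_nugat (hS : APD S) (hn : 2 ≤ Fintype.card V) {o : V → Bool} {v₀ : V}
    (h : LBO S o v₀) (v : V) : ¬ Nugat S v := by
  rintro ⟨i, hi⟩
  obtain ⟨W, W', h1, h2, h3, h4, h5, h6, h7, h8⟩ := exists_side hS v i hi
  by_cases hv : v = v₀
  · subst hv
    obtain ⟨w, hw⟩ : ∃ w : V, w ≠ v := by
      haveI : Nontrivial V := Fintype.one_lt_card_iff_nontrivial.1 hn
      exact exists_ne v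
    rcases h4 w hw with hw1 | hw1
    · rcases h5 with h9 | ⟨S₂, h9⟩
      · rw [h6 h9] at hw1
        exact absurd hw1 (Finset.notMem_empty w)
      · exact nn_side h h9 h1
    · rcases h7 with h9 | ⟨S₂, h9⟩
      · rw [h8 h9] at hw1
        exact absurd hw1 (Finset.notMem_empty w)
      · exact nn_side h h9 h2
  · have hv' : v₀ ≠ v := fun h0 => hv h0.symm
    rcases h4 v₀ hv' with hw | hw
    · have hw2 : v₀ ∉ W' := fun h0 => Finset.disjoint_left.1 h3 hw h0
      rcases h7 with h9 | ⟨S₂, h9⟩
      · refine nn_loop h hv' (i := i + 2) ?_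
        rw [h9, add_assoc]
        rfl
      · exact nn_side h h9 hw2
    · have hw2 : v₀ ∉ W := fun h0 => Finset.disjoint_left.1 h3 h0 hw
      rcases h5 with h9 | ⟨S₂, h9⟩
      · exact nn_loop h hv' h9
      · exact nn_side h h9 hw2

end Pool.Agent.Helper65.LK
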