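import Pool.Agent.Helper65.LK.Ex

/-!
# Path-like expressions: definitions

`PW w`: start with one crossing and add crossings above (`0`), on the left (`1`), below (`2`) or on the
right (`3`); the head of the list is the outermost letter.
-/

namespace Pool.Agent.Helper65.LK

/-- the expression with one more crossing -/
def addLeaf (p : ZMod 4) (E : Ex) : Ex :=
  if p = 0 then Ex.v Ex.leaf E else if p = 1 then Ex.h Ex.leaf E
  else if p = 2 then Ex.v E Ex.leaf else Ex.h E Ex.leaf

/-- the expression of a word -/
def PW : List (ZMod 4) → Ex
  | [] => Ex.leaf
  | p :: w => addLeaf p (PW w)

/-- the lengths of the blocks of letters of the same parity, the innermost crossing being counted in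
the last block; the current block has `k` letters and is horizontal iff `b` -/
def blocks : List (ZMod 4) → Bool → ℕ → List ℕ
  | [], _, k => [k + 1]
  | p :: w, b, k => if b = par p then blocks w b (k + 1) else k :: blocks w (!b) 1

/-- the expansion `[a₁, ..., aₙ]` of the diagram `(PW w).dia leaf`: the closing crossing is counted as a
crossing on the right -/
def expansion (w : List (ZMod 4)) : List ℕ := blocks w true 1

end Pool.Agent.Helper65.LK
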