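import Pool.Agent.Helper65.LK.Dia
import Pool.Agent.Helper65.LK.Euler
import Pool.Agent.Helper65.LK.APD

/-!
# LK-52. Word diagrams are planar

First all vertices are considered as crossings: `PlanarP (wD w)`.  `n = 2 |w| + 2` vertices, `pieces = 1`
(every slot is connected with the inner part through the ports).  By `euler_le` it is enough to have at least
`n + 2 = 2 |w| + 4` faces.  Define recursively a function `L_w` from the darts of the tangle `wT w`
to the set `Lab w = ZMod 4 ⊕ (darts-free) Bool ⊕ ...` of labels (`4 + 2 |w|` elements) and a function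
`cur_w : ZMod 4 → Lab w` (the label of the gap between the strands `i` and `i + 1` outside the tangle):
for the empty word: `cur i = i`, `L (v, i) = i - 1`; for `(p, q) :: w`: two new labels `true`, `false`;
`cur p = true`, `cur (p + 2) = false`, `cur (p + 1)`, `cur (p + 3)` as before; at the new vertex `b` on the
strands `q₀ = sq p b` and `q₀ + 1`: `L (b, 3) = b` (the corner between the darts `2` and `3`), `L (b, 1) =`
old `cur q₀`, `L (b, 0) =` old `cur (q₀ + 1)`, `L (b, 2) =` old `cur (q₀ - 1)`.
(The corner `(v, i)` is the sector between the darts `i - 1` and `i`.)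
For the closing vertex (`glue T leafT`: the port `i` is joined with the dart `1 - i`):
`L (dart j) = cur (1 - j)`: the corner between the darts `j - 1` and `j`, i.e. between the strands `2 - j` and
`1 - j`.
Invariant for a tangle `T` with `L`, `cur`: if `T.link x = inl y` then `L (sg y) = L x`; if `T.link x = inr i`
(so `x = T.port i`): `L x = cur (i - 1)` and `L (sg x) = cur i`.  It is preserved by `app` (finite check), and it
implies `L (faceP (wD w) x) = L x` for the whole diagram.  All labels are attained.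
So `cycles (faceP (wD w)) ≥ 2 |w| + 4`.

Then `planar_word` by `Planar.below` (all states are below the constant state `over1`).
-/

namespace Pool.Agent.Helper65.LK

open Function

/-! ### connectedness -/

/-- the steps in a tangle, with the rotations -/
def pwRel {V : Type} (T : Tangle V) (x y : Dart V) : Prop := T.link x = Sum.inl y ∨ y = sg x

/-- a tangle is connected -/
def PwConn {V : Type} (T : Tangle V) : Prop := ∀ x y : Dart V, Relation.EqvGen (pwRel T) x y

theorem pw_map {X Y : Type} {r : X → X → Prop} {r' : Y → Y → Prop} (f : X → Y)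
    (h : ∀ x y, r x y → Relation.EqvGen r' (f x) (f y)) {x y : X} (hxy : Relation.EqvGen r x y) :
    Relation.EqvGen r' (f x) (f y) := by
  induction hxy with
  | rel x y hxy => exact h x y hxy
  | refl x => exact Relation.EqvGen.refl _
  | symm x y _ ih => exact ih.symm _ _
  | trans x y z _ _ ih1 ih2 => exact ih1.trans _ _ _ ih2

theorem pw_vertex {V : Type} {r : Dart V → Dart V → Prop} (h : ∀ x, Relation.EqvGen r x (sg x))
    (v : V) (i j : ZMod 4) : Relation.EqvGen r (v, i) (v, j) := by
  have hk : ∀ k : ℕ, Relation.EqvGen r (v, i) (v, i + k) := by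
    intro k
    induction k with
    | zero => simpa using Relation.EqvGen.refl _
    | succ k ih =>
      refine ih.trans _ _ _ ?_
      have h1 := h (v, i + k)
      have h2 : sg ((v, i + (k : ZMod 4)) : Dart V) = (v, i + ((k + 1 : ℕ) : ZMod 4)) := by
        unfold sg
        push_cast
        rw [add_assoc]
      rw [h2] at h1
      exact h1
  have := hk (j - i).val
  rw [ZMod.natCast_zmod_val] at this
  simpa using this

theorem pw_leaf : PwConn leafT := by
  rintro ⟨⟨⟩, i⟩ ⟨⟨⟩, j⟩
  exact pw_vertex (fun x => Relation.EqvGen.rel _ _ (Or.inr rfl)) _ _ _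

theorem pw_app {V : Type} {T : Tangle V} (h : PwConn T) (p : ZMod 4) : PwConn (app T p) := by
  have hl : ∀ x y : Dart V, Relation.EqvGen (pwRel (app T p)) (dl x) (dl y) := by
    intro x y
    refine pw_map (fun z : Dart V => (dl z : Dart (V ⊕ Bool))) ?_ (h x y)
    intro x y hxy
    rcases hxy with hxy | rfl
    · refine Relation.EqvGen.rel _ _ (Or.inl ?_)
      show (app T p).link (Sum.inl x.1, x.2) = _
      simp only [app, hxy]
    · exact Relation.EqvGen.rel _ _ (Or.inr rfl)
  have hb : ∀ b : Bool, ∃ i : ZMod 4, bq p i = b := by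
    have hb' : ∀ (p : ZMod 4) (b : Bool), ∃ i : ZMod 4, bq p i = b := by decide
    exact hb' p
  have hr : ∀ (b : Bool) (j : ZMod 4), Relation.EqvGen (pwRel (app T p)) (dl (T.port 0))
      (Sum.inr b, j) := by
    intro b j
    obtain ⟨i, hi⟩ := hb b
    have h1 : (app T p).link (dl (T.port i)) = Sum.inl (dr (inDart p i)) := by
      have h2 : T.link ((T.port i).1, (T.port i).2) = Sum.inr i := T.link_port i
      simp only [app, h2]
    have h2 : Relation.EqvGen (pwRel (app T p)) (dl (T.port i)) (dr (inDart p i)) :=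
      Relation.EqvGen.rel _ _ (Or.inl h1)
    have h3 : (dr (inDart p i) : Dart (V ⊕ Bool)) = (Sum.inr b, (inDart p i).2) := by
      unfold dr inDart
      rw [hi]
    rw [h3] at h2
    exact ((hl _ _).trans _ _ _ h2).trans _ _ _
      (pw_vertex (fun x => Relation.EqvGen.rel _ _ (Or.inr rfl)) _ _ _)
  have hall : ∀ x, Relation.EqvGen (pwRel (app T p)) (dl (T.port 0)) x := by
    rintro ⟨v | b, j⟩
    · exact hl _ (v, j)
    · exact hr b j
  intro x y
  exact ((hall x).symm _ _).trans _ _ _ (hall y)

theorem pw_word : ∀ w : List Letter, PwConn (wT w)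
  | [] => pw_leaf
  | l :: w => pw_app (pw_word w) l.1

theorem pw_glue {V W : Type} {T : Tangle V} {C : Tangle W} (h : PwConn T) (h' : PwConn C)
    (x y : Dart (V ⊕ W)) :
    Relation.EqvGen (fun x y => y = (glue T C).α x ∨ y = rot (ov (V ⊕ W)) x) x y := by
  have hsg : ∀ x : Dart (V ⊕ W), Relation.EqvGen
      (fun x y => y = (glue T C).α x ∨ y = rot (ov (V ⊕ W)) x) x (sg x) :=
    fun x => Relation.EqvGen.rel _ _ (Or.inr rfl)
  have hl : ∀ x y : Dart V, Relation.EqvGen
      (fun x y => y = (glue T C).α x ∨ y = rot (ov (V ⊕ W)) x) (dl x) (dl y) := by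
    intro x y
    refine pw_map (fun z : Dart V => (dl z : Dart (V ⊕ W))) ?_ (h x y)
    intro x y hxy
    rcases hxy with hxy | rfl
    · refine Relation.EqvGen.rel _ _ (Or.inl ?_)
      show dl y = glueα T C (Sum.inl x.1, x.2)
      simp only [glueα, hxy]
    · exact hsg _
  have hr : ∀ x y : Dart W, Relation.EqvGen
      (fun x y => y = (glue T C).α x ∨ y = rot (ov (V ⊕ W)) x) (dr x) (dr y) := by
    intro x y
    refine pw_map (fun z : Dart W => (dr z : Dart (V ⊕ W))) ?_ (h' x y)
    intro x y hxy
    rcases hxy with hxy | rfl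
    · refine Relation.EqvGen.rel _ _ (Or.inl ?_)
      show dr y = glueα T C (Sum.inr x.1, x.2)
      simp only [glueα, hxy]
    · exact hsg _
  have hlr : Relation.EqvGen
      (fun x y => y = (glue T C).α x ∨ y = rot (ov (V ⊕ W)) x) (dl (T.port 0))
      (dr (C.port (1 - 0))) := by
    refine Relation.EqvGen.rel _ _ (Or.inl ?_)
    show dr (C.port (1 - 0)) = glueα T C (Sum.inl (T.port 0).1, (T.port 0).2)
    have h2 : T.link ((T.port 0).1, (T.port 0).2) = Sum.inr 0 := T.link_port 0
    simp only [glueα, h2]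
  have hall : ∀ x, Relation.EqvGen
      (fun x y => y = (glue T C).α x ∨ y = rot (ov (V ⊕ W)) x) (dl (T.port 0)) x := by
    rintro ⟨v | b, j⟩
    · exact hl _ (v, j)
    · exact hlr.trans _ _ _ (hr _ (b, j))
  exact ((hall x).symm _ _).trans _ _ _ (hall y)

theorem conn_word (w : List Letter) : pieces (wD w) (ov _) = 1 := by
  unfold pieces classes
  rw [Nat.card_eq_one_iff_unique]
  constructor
  · constructor
    intro a b
    induction a using Quotient.inductionOn with
    | _ x =>
      induction b using Quotient.inductionOn with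
      | _ y => exact Quotient.sound (pw_glue (pw_word w) pw_leaf x y)
  · exact ⟨Quotient.mk _ (Sum.inr (), 0)⟩

/-! ### the labels of the faces -/

/-- an invariant labelling of the corners of a tangle; `cur i` is the label of the gap between the
strands `i`, `i + 1` -/
structure PwLab {V Λ : Type} (T : Tangle V) (L : Dart V → Λ) (cur : ZMod 4 → Λ) : Prop where
  inn : ∀ x y, T.link x = Sum.inl y → L (sg y) = L x
  out : ∀ x i, T.link x = Sum.inr i → L x = cur (i - 1) ∧ L (sg x) = cur i
  sur : Function.Surjective L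

/-- the labels of a word -/
def PwΛ : List Letter → Type
  | [] => ZMod 4
  | _ :: w => PwΛ w ⊕ Bool

/-- the labels at the new vertices -/
def pwNew {Λ : Type} (p : ZMod 4) (cur : ZMod 4 → Λ) (b : Bool) (j : ZMod 4) : Λ ⊕ Bool :=
  if j = 3 then Sum.inr b else if j = 1 then Sum.inl (cur (sq p b))
  else if j = 0 then Sum.inl (cur (sq p b + 1)) else Sum.inl (cur (sq p b - 1))

/-- the labels of the gaps -/
def pwCur {Λ : Type} (p : ZMod 4) (cur : ZMod 4 → Λ) (i : ZMod 4) : Λ ⊕ Bool :=
  if i = p then Sum.inr true else if i = p + 2 then Sum.inr false else Sum.inl (cur i)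

theorem pw_fin1 {Λ : Type} (cur : ZMod 4 → Λ) : ∀ p i : ZMod 4,
    pwNew p cur (inDart p i).1 ((inDart p i).2 + 1) = Sum.inl (cur (i - 1)) := by
  have h : ∀ p i : ZMod 4, pwNew p (id : ZMod 4 → ZMod 4) (inDart p i).1 ((inDart p i).2 + 1) =
    Sum.inl (i - 1) := by decide
  have hn : ∀ (p : ZMod 4) (b : Bool) (j : ZMod 4),
      pwNew p cur b j = Sum.map cur id (pwNew p (id : ZMod 4 → ZMod 4) b j) := by
    intro p b j
    unfold pwNew
    split_ifs <;> rfl
  intro p i
  rw [hn, h]
  rfl

theorem pw_fin2 {Λ : Type} (cur : ZMod 4 → Λ) : ∀ (p : ZMod 4) (b : Bool) (j : ZMod 4),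
    (strand p (b, j)).2 = true → pwNew p cur b j = Sum.inl (cur (strand p (b, j)).1) := by
  have h : ∀ (p : ZMod 4) (b : Bool) (j : ZMod 4), (strand p (b, j)).2 = true →
    pwNew p (id : ZMod 4 → ZMod 4) b j = Sum.inl (strand p (b, j)).1 := by decide
  have hn : ∀ (p : ZMod 4) (b : Bool) (j : ZMod 4),
      pwNew p cur b j = Sum.map cur id (pwNew p (id : ZMod 4 → ZMod 4) b j) := by
    intro p b j
    unfold pwNew
    split_ifs <;> rfl
  intro p b j hj
  rw [hn, h p b j hj]
  rfl

theorem pw_fin3 {Λ : Type} (cur : ZMod 4 → Λ) : ∀ (p : ZMod 4) (b : Bool) (j : ZMod 4),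
    (strand p (b, j)).2 = false →
      pwNew p cur b j = pwCur p cur ((strand p (b, j)).1 - 1) ∧
      pwNew p cur b (j + 1) = pwCur p cur (strand p (b, j)).1 := by
  have h : ∀ (p : ZMod 4) (b : Bool) (j : ZMod 4), (strand p (b, j)).2 = false →
    pwNew p (id : ZMod 4 → ZMod 4) b j = pwCur p id ((strand p (b, j)).1 - 1) ∧
    pwNew p (id : ZMod 4 → ZMod 4) b (j + 1) = pwCur p id (strand p (b, j)).1 := by decide
  have hn : ∀ (p : ZMod 4) (b : Bool) (j : ZMod 4),
      pwNew p cur b j = Sum.map cur id (pwNew p (id : ZMod 4 → ZMod 4) b j) := by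
    intro p b j
    unfold pwNew
    split_ifs <;> rfl
  have hc : ∀ (p i : ZMod 4),
      pwCur p cur i = Sum.map cur id (pwCur p (id : ZMod 4 → ZMod 4) i) := by
    intro p i
    unfold pwCur
    split_ifs <;> rfl
  intro p b j hj
  rw [hn, hn, hc, hc, (h p b j hj).1, (h p b j hj).2]
  exact ⟨rfl, rfl⟩

theorem PwLab.app {V Λ : Type} {T : Tangle V} {L : Dart V → Λ} {cur : ZMod 4 → Λ}
    (h : PwLab T L cur) (p : ZMod 4) :
    PwLab (app T p) (fun x => match x.1 with
      | Sum.inl v => Sum.inl (L (v, x.2))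
      | Sum.inr b => pwNew p cur b x.2) (pwCur p cur) := by
  constructor
  · rintro ⟨v | b, j⟩ y hy
    · cases hx : T.link (v, j) with
      | inl z =>
        simp only [LK.app, hx, Sum.inl.injEq] at hy
        subst hy
        show (Sum.inl (L (sg z)) : Λ ⊕ Bool) = Sum.inl (L (v, j))
        rw [h.inn _ _ hx]
      | inr k =>
        simp only [LK.app, hx, Sum.inl.injEq] at hy
        subst hy
        show pwNew p cur (inDart p k).1 ((inDart p k).2 + 1) = Sum.inl (L (v, j))
        rw [pw_fin1, (h.out _ _ hx).1]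
    · by_cases hs : (strand p (b, j)).2 = true
      · simp only [LK.app, hs, if_true, Sum.inl.injEq] at hy
        subst hy
        show (Sum.inl (L (sg (T.port (strand p (b, j)).1))) : Λ ⊕ Bool) = pwNew p cur b j
        rw [pw_fin2 cur p b j hs, (h.out _ _ (T.link_port _)).2]
      · simp [LK.app, hs] at hy
  · rintro ⟨v | b, j⟩ i hi
    · cases hx : T.link (v, j) with
      | inl z => simp [LK.app, hx] at hi
      | inr k => simp [LK.app, hx] at hi
    · by_cases hs : (strand p (b, j)).2 = true
      · simp [LK.app, hs] at hi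
      · have hs' : (strand p (b, j)).2 = false := by simpa using hs
        simp only [LK.app, hs', Bool.false_eq_true, if_false, Sum.inr.injEq] at hi
        subst hi
        exact pw_fin3 cur p b j hs'
  · rintro (l | b)
    · obtain ⟨x, hx⟩ := h.sur l
      exact ⟨(Sum.inl x.1, x.2), by rw [← hx]⟩
    · exact ⟨(Sum.inr b, 3), rfl⟩

theorem pw_lab : ∀ w : List Letter, ∃ (L : Dart (WV w) → PwΛ w) (cur : ZMod 4 → PwΛ w),
    PwLab (wT w) L cur
  | [] => by
    refine ⟨fun x => (x.2 - 1 : ZMod 4), fun i => (i : ZMod 4), ?_, ?_, ?_⟩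
    · intro x y h
      cases h
    · intro x i h
      have h1 : x.2 = i := Sum.inr.inj h
      refine ⟨?_, ?_⟩
      · show (x.2 - 1 : ZMod 4) = i - 1
        rw [h1]
      · show (x.2 + 1 - 1 : ZMod 4) = i
        rw [h1]
        ring
    · intro (l : ZMod 4)
      exact ⟨((), (l + 1 : ZMod 4)), by show (l + 1 - 1 : ZMod 4) = l; ring⟩
  | l :: w => by
    obtain ⟨L, cur, h⟩ := pw_lab w
    exact ⟨_, _, h.app l.1⟩

theorem pw_finite : ∀ w : List Letter, Finite (PwΛ w) ∧ Nat.card (PwΛ w) = 4 + 2 * w.length
  | [] => ⟨inferInstanceAs (Finite (ZMod 4)), by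
      show Nat.card (ZMod 4) = _
      rw [Nat.card_zmod]
      rfl⟩
  | l :: w => by
    obtain ⟨h1, h2⟩ := pw_finite w
    refine ⟨inferInstanceAs (Finite (PwΛ w ⊕ Bool)), ?_⟩
    show Nat.card (PwΛ w ⊕ Bool) = _
    rw [Nat.card_sum, h2, Nat.card_eq_fintype_card (α := Bool), Fintype.card_bool,
      List.length_cons]
    ring

theorem pw_card : ∀ w : List Letter, Nat.card (WV w) = 2 * w.length + 1
  | [] => by
    show Nat.card Unit = _
    simp
  | l :: w => by
    show Nat.card (WV w ⊕ Bool) = _
    rw [Nat.card_sum, pw_card w, Nat.card_eq_fintype_card (α := Bool), Fintype.card_bool,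
      List.length_cons]
    ring

theorem pw_cycles {X Λ : Type} [Finite X] (π : Equiv.Perm X) (L : X → Λ)
    (h : ∀ x, L (π x) = L x) (hs : Function.Surjective L) : Nat.card Λ ≤ cycles π := by
  unfold cycles
  let f : Quotient (Equiv.Perm.SameCycle.setoid π) → Λ := fun q => Quotient.liftOn q L (by
    intro x y hxy
    have h1 : Relation.EqvGen (fun x y => y = π x) x y := (e_sameCycle_iff π x y).1 hxy
    clear hxy
    induction h1 with
    | rel x y hxy => rw [hxy, h]
    | refl x => rfl
    | symm x y _ ih => exact ih.symm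
    | trans x y z _ _ ih1 ih2 => exact ih1.trans ih2)
  have hf : Function.Surjective f := by
    intro l
    obtain ⟨x, hx⟩ := hs l
    exact ⟨Quotient.mk _ x, hx⟩
  haveI : Finite (Quotient (Equiv.Perm.SameCycle.setoid π)) := Quotient.finite _
  exact Nat.card_le_card_of_surjective f hf

theorem pw_glueLab {V Λ : Type} {T : Tangle V} {L : Dart V → Λ} {cur : ZMod 4 → Λ}
    (h : PwLab T L cur) : ∃ L' : Dart (V ⊕ Unit) → Λ, Function.Surjective L' ∧
      ∀ x, L' (faceP (glue T leafT) x) = L' x := by
  refine ⟨fun x => match x.1 with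
      | Sum.inl v => L (v, x.2)
      | Sum.inr _ => cur (1 - x.2), ?_, ?_⟩
  · intro l
    obtain ⟨x, hx⟩ := h.sur l
    exact ⟨(Sum.inl x.1, x.2), hx⟩
  · rintro ⟨v | u, j⟩
    · rw [faceP_apply]
      cases hx : T.link (v, j) with
      | inl z =>
        have h1 : (glue T leafT).α (Sum.inl v, j) = dl z := by
          show glueα T leafT (Sum.inl v, j) = _
          simp only [glueα, hx]
        rw [h1]
        exact h.inn _ _ hx
      | inr i =>
        have h1 : (glue T leafT).α (Sum.inl v, j) = dr (leafT.port (1 - i)) := by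
          show glueα T leafT (Sum.inl v, j) = _
          simp only [glueα, hx]
        rw [h1]
        show cur (1 - (1 - i + 1)) = L (v, j)
        rw [(h.out _ _ hx).1]
        congr 1
        ring
    · rw [faceP_apply]
      have h1 : (glue T leafT).α (Sum.inr u, j) = dl (T.port (1 - j)) := rfl
      rw [h1]
      exact (h.out _ _ (T.link_port (1 - j))).2

theorem pw_nX (w : List Letter) : nX (ov (WV w ⊕ Unit)) = 2 * w.length + 2 := by
  have h1 : nX (ov (WV w ⊕ Unit)) = Fintype.card (WV w ⊕ Unit) := by
    unfold nX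
    rw [← Finset.card_univ]
    congr 1
    ext v
    simp [St.isX]
  rw [h1, ← Nat.card_eq_fintype_card, Nat.card_sum, pw_card]
  simp

theorem planarP_word (w : List Letter) : PlanarP (wD w) := by
  obtain ⟨L, cur, h⟩ := pw_lab w
  obtain ⟨L', h1, h2⟩ := pw_glueLab h
  have h3 : Nat.card (PwΛ w) ≤ cycles (faceP (wD w)) := pw_cycles (faceP (wD w)) L' h2 h1
  have h4 := euler_le (wD w) (ov (WV w ⊕ Unit))
  have h5 := conn_word w
  have h6 := pw_nX w
  have h7 := (pw_finite w).2
  have h8 : cycles (faceP (wD w)) = cycles (rot (ov (WV w ⊕ Unit)) * (wD w).α) := rfl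
  show cycles (rot (ov (WV w ⊕ Unit)) * (wD w).α) =
    nX (ov (WV w ⊕ Unit)) + 2 * pieces (wD w) (ov (WV w ⊕ Unit))
  omega

theorem planar_word (w : List Letter) (s : WV w ⊕ Unit → St) : Planar (wD w) s := by
  have h : Planar (wD w) (ov (WV w ⊕ Unit)) := planarP_word w
  refine h.below ?_
  intro v hv
  have h1 : true = false := hv
  exact absurd h1 (by decide)

theorem pw_nX_sum {V W : Type} [Fintype V] [Fintype W] (i : Fintype (V ⊕ W)) (f : V → St)
    (g : W → St) : @nX _ i (Sum.elim f g) = nX f + nX g := by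
  have hi : i = instFintypeSum V W := Subsingleton.elim _ _
  subst hi
  unfold nX
  rw [Finset.card_filter, Finset.card_filter, Finset.card_filter, Fintype.sum_sum_type]
  rfl

theorem pw_nX_word (q₀ : St) (h₀ : q₀.isX = false) : ∀ w : List Letter,
    (∀ l ∈ w, l.2.isX = true) → nX (wS q₀ w) = w.length
  | [], _ => by
    show nX (fun _ : Unit => q₀) = 0
    unfold nX
    rw [Finset.card_eq_zero, Finset.filter_eq_empty_iff]
    intro _ _
    simp [h₀]
  | l :: w, h => by
    have h1 : nX (wS q₀ (l :: w)) =
        nX (wS q₀ w) + nX (fun b : Bool => if b = true then l.2 else St.smB) :=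
      pw_nX_sum (WV.fintype (l :: w)) (wS q₀ w) (fun b : Bool => if b = true then l.2 else St.smB)
    have h2 : nX (fun b : Bool => if b = true then l.2 else St.smB) = 1 := by
      have h3 : l.2.isX = true := h l List.mem_cons_self
      unfold nX
      have h4 : (Finset.univ.filter fun b : Bool =>
          (if b = true then l.2 else St.smB).isX = true) = {true} := by
        ext b
        cases b
        · simp [St.isX]
        · simp [h3]
      rw [h4]
      rfl
    rw [h1, h2, pw_nX_word q₀ h₀ w (fun l' hl' => h l' (List.mem_cons_of_mem _ hl')),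
      List.length_cons]

/-- the number of crossings -/
theorem nX_word (w : List Letter) (q₀ q₁ : St) (h₀ : q₀.isX = false) (h₁ : q₁.isX = false)
    (hw : ∀ l ∈ w, l.2.isX = true) : nX (wDS q₀ w q₁) = w.length := by
  have h1 : nX (wDS q₀ w q₁) = nX (wS q₀ w) + nX (fun _ : Unit => q₁) :=
    pw_nX_sum _ (wS q₀ w) (fun _ : Unit => q₁)
  have h2 : nX (fun _ : Unit => q₁) = 0 := by
    unfold nX
    rw [Finset.card_eq_zero, Finset.filter_eq_empty_iff]
    intro _ _
    simp [h₁]
  rw [h1, h2, pw_nX_word q₀ h₀ w hw, add_zero]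

end Pool.Agent.Helper65.LK
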