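import Pool.Agent.Helper65.LK.Agree

/-!
# LK-26. The Q polynomial of a planar diagram

`exists_fun`: by `exists_skein` there is `F`; for `t` below `s` with `F_t` from `exists_skein`
(`Planar.below`), `F t = F_t t` by `IsSkein.unique` (with `restrict` if `nX t < nX s`, `sameShape`
otherwise; a sweep exists by `exists_sweep`).  The same argument shows `Q_eq`.
`Q_skein`, `Q_R1`, `Q_R2`, `Q_sweep`: from `exists_fun` and the corresponding statements for `F`
(`nice_true`, `exists_sweep`).  `Q_iso`: `iso_eq_true` with `k = 0`.  `Q_map`: `iso_eq_true`.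
`Q_R3`: `skein_R3` with `Ok = Ok' = fun _ => True`; the new diagram is planar (hypothesis).
`Q_empty`: a diagram without crossings: `pat s h = s` for every sweep `h`.
-/

namespace Pool.Agent.Helper65.LK

open Function

variable {R : Type} [CommRing R] {V : Type} [Fintype V] [DecidableEq V]

open Classical in
/-- the Q polynomial of a planar diagram -/
noncomputable def Q (z mu : R) (S : Shadow V) (s : V → St) : R :=
  if h : ∃ F : (V → St) → R, IsSkein z mu S s F (fun _ => True) then h.choose s else 0

variable {z mu : R} {S : Shadow V} {s : V → St}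

private theorem qp_below_refl (s : V → St) : Below s s := fun _ _ => rfl

private theorem qp_below_update {s : V → St} {t : V → St} (ht : Below t s) {v : V}
    (hv : (s v).isX = true) (q : St) : Below (update t v q) s := by
  intro u hu
  by_cases huv : u = v
  · subst huv
    rw [hv] at hu
    exact absurd hu (by simp)
  · rw [update_of_ne huv]
    exact ht u hu

private theorem qp_isX_of_below {s t : V → St} (ht : Below t s) {v : V} (hv : (t v).isX = true) :
    (s v).isX = true := by
  by_contra h
  have h1 : (s v).isX = false := by simpa using h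
  rw [ht v h1, h1] at hv
  exact absurd hv (by simp)

private theorem qp_shape_of_isX {a b : St} (ha : a.isX = true) (hb : b.isX = true) :
    a.shape = b.shape := by
  cases a <;> cases b <;> simp_all [St.isX, St.shape]

private theorem qp_lt_or_shape {s t : V → St} (ht : Below t s) :
    nX t < nX s ∨ SameShape t s := by
  classical
  have hsub : (Finset.univ.filter fun v => (t v).isX = true) ⊆
      (Finset.univ.filter fun v => (s v).isX = true) := by
    intro v hv
    rw [Finset.mem_filter] at hv ⊢
    exact ⟨hv.1, qp_isX_of_below ht hv.2⟩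
  by_cases h : nX t < nX s
  · exact Or.inl h
  · right
    have heq : (Finset.univ.filter fun v => (t v).isX = true) =
        (Finset.univ.filter fun v => (s v).isX = true) :=
      Finset.eq_of_subset_of_card_le hsub (not_lt.1 h)
    intro v
    by_cases hv : (s v).isX = true
    · have : v ∈ Finset.univ.filter fun v => (t v).isX = true := by
        rw [heq, Finset.mem_filter]
        exact ⟨Finset.mem_univ _, hv⟩
      exact qp_shape_of_isX (Finset.mem_filter.1 this).2 hv
    · rw [ht v (by simpa using hv)]

theorem Q_eq {F : (V → St) → R} (hF : IsSkein z mu S s F (fun _ => True)) :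
    Q z mu S s = F s := by
  have h : ∃ F : (V → St) → R, IsSkein z mu S s F (fun _ => True) := ⟨F, hF⟩
  obtain ⟨g, hg⟩ := exists_sweep S s
  unfold Q
  rw [dif_pos h]
  exact IsSkein.unique h.choose_spec hF hg trivial trivial (qp_below_refl s)

theorem exists_fun (hz : z * (mu + 1) = 2) (hp : Planar S s) :
    ∃ F : (V → St) → R, IsSkein z mu S s F (fun _ => True) ∧
      ∀ t, Below t s → Q z mu S t = F t := by
  obtain ⟨F, hF⟩ := exists_skein hz S s hp
  refine ⟨F, hF, fun t ht => Q_eq ?_⟩
  rcases qp_lt_or_shape ht with h | h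
  · exact hF.restrict ht h
  · exact hF.sameShape h

theorem Q_skein (hz : z * (mu + 1) = 2) (hp : Planar S s) (v : V) (hv : (s v).isX = true) :
    Q z mu S s + Q z mu S (update s v (s v).sw) =
      z * (Q z mu S (update s v St.smA) + Q z mu S (update s v St.smB)) := by
  obtain ⟨F, hF, hQ⟩ := exists_fun hz hp
  have hb := fun q => qp_below_update (qp_below_refl s) hv q
  rw [hQ s (qp_below_refl s), hQ _ (hb _), hQ _ (hb _), hQ _ (hb _)]
  exact hF.skein s (qp_below_refl s) v hv

theorem Q_sweep (hz : z * (mu + 1) = 2) (hp : Planar S s) {h : Dart V → ℕ}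
    (hs : Sweep S s h) : Q z mu S (pat s h) = mu ^ (comps S s - 1) := by
  obtain ⟨F, hF, hQ⟩ := exists_fun hz hp
  have hb : Below (pat s h) s := by
    intro v hv
    unfold pat
    rw [if_neg (by rw [hv]; simp)]
  rw [hQ _ hb]
  exact hF.top h hs trivial

theorem Q_empty (hz : z * (mu + 1) = 2) (h0 : nX s = 0) :
    Q z mu S s = mu ^ (comps S s - 1) := by
  obtain ⟨h, hs⟩ := exists_sweep S s
  have h1 := Q_sweep hz (planar_of_nX_eq_zero h0) hs
  have h2 : pat s h = s := by
    funext v
    unfold pat
    rw [if_neg]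
    intro hv
    unfold nX at h0
    rw [Finset.card_eq_zero, Finset.filter_eq_empty_iff] at h0
    exact h0 (Finset.mem_univ v) hv
  rwa [h2] at h1

theorem Q_R1 (hz : z * (mu + 1) = 2) (hp : Planar S s) (v : V) (i : ZMod 4)
    (hv : (s v).isX = true) (h1 : Arc S s (v, i) (v, i + 1)) :
    Q z mu S s = Q z mu S (update s v (St.turn i)) := by
  obtain ⟨F, hF, hQ⟩ := exists_fun hz hp
  obtain ⟨g, hg⟩ := exists_sweep S s
  rw [hQ s (qp_below_refl s), hQ _ (qp_below_update (qp_below_refl s) hv _)]
  exact skein_R1 hz hF ⟨g, hg, trivial⟩ v i hv h1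

theorem Q_R2 (hz : z * (mu + 1) = 2) (hp : Planar S s)
    (v w : V) (i j : ZMod 4) (hvw : v ≠ w) (hv : (s v).isX = true) (hw : (s w).isX = true)
    (h1 : Arc S s (v, i) (w, j + 1)) (h2 : Arc S s (v, i + 1) (w, j))
    (hup : (s v).upper i = (s w).upper (j + 1)) :
    Q z mu S s = Q z mu S (update (update s v (St.turn i)) w (St.turn j)) := by
  obtain ⟨F, hF, hQ⟩ := exists_fun hz hp
  rw [hQ s (qp_below_refl s),
    hQ _ (qp_below_update (qp_below_update (qp_below_refl s) hv _) hw _)]
  exact skein_R2 hz hF (nice_true S s) v w i j hvw hv hw h1 h2 hup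

theorem Q_R3 (hz : z * (mu + 1) = 2) (hp : Planar S s) {u v w : V} {i j k : ZMod 4}
    (T : Tri S s u i v j w k) (hp' : Planar (S.conj (tri u i v j w k)) s)
    (hadm : ¬ ((s u).upper (i + 1) = (s v).upper (j + 1) ∧
      (s v).upper (j + 1) = (s w).upper (k + 1))) :
    Q z mu S s = Q z mu (S.conj (tri u i v j w k)) s := by
  obtain ⟨F, hF⟩ := exists_skein hz S s hp
  obtain ⟨F', hF'⟩ := exists_skein hz (S.conj (tri u i v j w k)) s hp'
  obtain ⟨g, hg⟩ := exists_sweep S s
  rw [Q_eq hF, Q_eq hF']
  exact skein_R3 hz T hadm hg (fun _ _ => trivial) (fun _ _ => trivial) hF hF'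

theorem Q_map (hz : z * (mu + 1) = 2) {V' : Type} [Fintype V'] [DecidableEq V']
    {S' : Shadow V'} {s' : V' → St} (e : DMap S s S' s') {k : ℕ}
    (hk : comps S s = comps S' s' + k) (h0 : k = 0 ∨ comps S' s' ≠ 0) (hp : Planar S s) :
    Q z mu S s = mu ^ k * Q z mu S' s' := by
  obtain ⟨F, hF⟩ := exists_skein hz S s hp
  obtain ⟨F', hF'⟩ := exists_skein hz S' s' (Planar.iso e hp)
  rw [Q_eq hF, Q_eq hF']
  exact iso_eq_true e hk h0 hF hF'

theorem Q_iso (hz : z * (mu + 1) = 2) {V' : Type} [Fintype V'] [DecidableEq V']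
    {S' : Shadow V'} {s' : V' → St} (e : DIso S s S' s') (hp : Planar S s) :
    Q z mu S s = Q z mu S' s' := by
  have h := Q_map hz e.toDMap (k := 0) (by rw [add_zero]; exact e.comps) (Or.inl rfl) hp
  rwa [pow_zero, one_mul] at h

end Pool.Agent.Helper65.LK
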