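import Pool.Agent.Helper65.LK.NoNug
import Pool.Agent.Helper65.LK.Erase

/-!
# LK-34. Restricting a local bipolar orientation to a smoothing

`Sg S o x`: the corner `x` is the only one in its face with its sign (for faces with exactly two
changes): the edges on both sides of the corner are changes, i.e. `Chg S o x` and
`Chg S o (S.α (x.1, x.2 - 1))` (`faceP S (S.α (v, c - 1)) = (v, c)`), the latter being equivalent to
`¬ Chg S o (v, c - 1)` by `chg_iff`.  `not_Sg_succ` is clear.

`lbo_restrict`: `S'` is obtained by the smoothing at `v ≠ v₀` which merges the corners `c`, `c + 2` and cuts off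
`c + 1`, `c + 3`.  Hypothesis: not `Sg` at `(v, c+1)` and at `(v, c+3)`.  `S` has no nugatory crossing
(`lbo_not_nugat`), so `c, c+2` are in different faces, and so are `c+1, c+3`.
Use `Erase.face`.  A face of `S'` of one of the following kinds:
(1) without relation to `v`: a face of `S`.
(2) the face of `(v, c+1)` in `S` without this corner (or the same with `c+3`; `(v,c+3)` is not in it).
If it is special in `S` (then it contains a corner of `v₀`, which is not removed) it is constant and
special in `S'`.  Otherwise it has exactly two changes in `S` (`lbo_two`); since not `Sg (v, c+1)`,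
one of the neighbours of the corner in the face has the same sign, different from the corner
itself (a face with one corner is constant, hence special), and there are corners with the
other sign: it is not constant after the removal.
(3) the merged face, `(face of (v,c)) ∪ (face of (v,c+2))` without these corners.  The signs of `(v, c)`
and `(v, c+2)` are different.  If neither face is special, suppose the merged face is constant with
sign `p`: both faces are not constant, so `(v, c)` and `(v, c+2)` both have the sign `! p`,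
contradiction.  If the face of `(v, c)` is special (then `c` is even), with sign `p`: the edges at the corner
`(v, c)` are no changes in this face: `¬ Chg (v, c)`, `¬ Chg (α (v, c - 1))`, so `Chg (v, c-1)`, i.e.
`Chg (v, c+3)`, and from `¬ Chg (v, c)` we get that the edge of the dart `c` is a change for the face of
the corner `c + 1`: `Chg (α (v, c))`.  Since not `Sg (v, c+1)` (`Sg (v,c+1)` is
`Chg (v,c+1) ∧ ¬ Chg (v,c)`): `¬ Chg (v, c+1)`.  Since not `Sg (v, c+3)` (`Chg (v,c+3) ∧ ¬ Chg (v,c+2)`):
`Chg (v, c+2)`.  So `Sg (v, c+2)`: `Chg (v,c+2) ∧ ¬ Chg (v,c+1)`; hence the face of `(v, c+2)` is not special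
(`lbo_chg_special`) and `(v, c+2)` is its only corner with the sign `! p`, all the other ones have the sign
`p` (`lbo_two`: exactly two changes, both next to this corner).  So the merged face is constant
with sign `p`, and it contains the same corner of `v₀` as the face of `(v, c)`: constant and special.
The case that the face of `(v, c+2)` is special is the same with `c + 2` instead of `c`.

`lbo_good`: for every `v ≠ v₀`: if `Sg (v, c)` for an even `c` then not `Sg (v, c')` for both odd `c'`
(`not_Sg_succ`, and `Sg (v, c - 1)`: `Chg (v,c-1)`, while `Sg (v,c)` gives `¬ Chg (v,c-1)`).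
-/

namespace Pool.Agent.Helper65.LK

open Function

variable {V : Type} [Fintype V] [DecidableEq V] {S : Shadow V} {o : V → Bool} {v₀ : V}

/-- the corner is the only one in its face with its sign -/
def Sg (S : Shadow V) (o : V → Bool) (x : Dart V) : Prop :=
  Chg S o x ∧ ¬ Chg S o (x.1, x.2 - 1)

theorem not_Sg_succ {v : V} {c : ZMod 4} (h : Sg S o (v, c)) : ¬ Sg S o (v, c + 1) := by
  intro h2
  have h3 := h2.2
  have e : (c + 1) - 1 = c := by ring
  change ¬ Chg S o (v, (c + 1) - 1) at h3
  rw [e] at h3
  exact h3 h.1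

namespace L34

theorem z4 : ∀ c : ZMod 4, c + 1 - 1 = c ∧ c + 2 - 1 = c + 1 ∧ c + 3 - 1 = c + 2 ∧ c - 1 = c + 3 ∧
    c + 2 + 2 = c ∧ c + 2 + 1 = c + 3 ∧ c + 2 + 3 = c + 1 ∧ c + 1 + 2 = c + 3 ∧ c + 3 + 2 = c + 1 := by
  decide

theorem z4_ne : ∀ c : ZMod 4, c ≠ c + 1 ∧ c ≠ c + 2 ∧ c ≠ c + 3 ∧ c + 2 ≠ c + 1 ∧ c + 2 ≠ c + 3 ∧
    c + 3 ≠ c + 1 := by decide

theorem par_cases (i j : ZMod 4) (h : par i = par j) : i = j ∨ j = i + 2 := by
  revert i j; decide

omit [Fintype V] [DecidableEq V] in
theorem sgn_two (o : V → Bool) (v : V) (i : ZMod 4) : sgn o (v, i + 2) = !(sgn o (v, i)) := by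
  unfold sgn
  change (if i + 2 = 0 ∨ i + 2 = 1 then o v else !(o v)) =
    !(if i = 0 ∨ i = 1 then o v else !(o v))
  generalize o v = b
  revert b i
  decide

theorem face_inj (hS : APD S) {v : V} (hnug : ¬ Nugat S v) {i j : ZMod 4}
    (h : Face S (v, i) (v, j)) : i = j := by
  rcases par_cases i j (Face.par_eq hS h) with h1 | h1
  · exact h1
  · subst h1
    exact absurd ⟨i, h⟩ hnug

omit [Fintype V] [DecidableEq V] in
/-- the corner before `(v, i)` in its face -/
theorem pred_face (S : Shadow V) (v : V) (i : ZMod 4) :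
    faceP S (S.α (v, i - 1)) = (v, i) := by
  rw [faceP_apply, S.invol]
  unfold sg
  simp

/-- if the face of the corner is not constant, and the corner is not single, then the face is
not constant after the removal of the corner -/
theorem removal (hS : APD S) {X : Dart V} (hns : ∃ Y, Face S X Y ∧ sgn o Y ≠ sgn o X)
    (hSg : ¬ Sg S o X) : ∃ Y Z, Face S X Y ∧ Face S X Z ∧ Y ≠ X ∧ Z ≠ X ∧
      sgn o Y ≠ sgn o Z := by
  obtain ⟨Y, hY, hYX⟩ := hns
  have hYne : Y ≠ X := by
    rintro rfl
    exact hYX rfl
  have hfix : faceP S X ≠ X := by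
    intro h
    have : X = Y := (Equiv.Perm.SameCycle.eq_of_left hY h)
    exact hYne this.symm
  by_cases h1 : Chg S o X
  · have h2 : Chg S o (X.1, X.2 - 1) := by
      by_contra h2
      exact hSg ⟨h1, h2⟩
    have h3 : ¬ Chg S o (S.α (X.1, X.2 - 1)) := by
      rw [chg_iff hS]
      exact not_not.2 h2
    set Z := S.α (X.1, X.2 - 1) with hZ
    have h4 : faceP S Z = X := pred_face S X.1 X.2
    have h5 : Face S X Z := by
      have : Face S Z (faceP S Z) :=
        Equiv.Perm.sameCycle_apply_right.2 (Equiv.Perm.SameCycle.refl _ _)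
      rw [h4] at this
      exact this.symm
    refine ⟨Y, Z, hY, h5, hYne, ?_, ?_⟩
    · intro h6
      rw [h6] at h4
      exact hfix h4
    · have h7 : sgn o Z = sgn o X := by
        have := not_not.1 h3
        rwa [h4] at this
      rw [h7]
      exact hYX
  · refine ⟨Y, faceP S X, hY,
      Equiv.Perm.sameCycle_apply_right.2 (Equiv.Perm.SameCycle.refl _ _), hYne, hfix, ?_⟩
    have h7 : sgn o X = sgn o (faceP S X) := not_not.1 h1
    rw [← h7]
    exact hYX

omit [Fintype V] [DecidableEq V] in
theorem special_of_face {x y : Dart V} (h : Face S x y) (hx : Special S v₀ x) :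
    Special S v₀ y := by
  rcases hx with hx | hx
  · exact Or.inl (h.symm.trans hx)
  · exact Or.inr (h.symm.trans hx)

/-- the face of the opposite corner of a corner in a special face -/
theorem opposite (hS : APD S) (h : LBO S o v₀) {v : V} {c : ZMod 4}
    (h1 : ¬ Sg S o (v, c + 1)) (h3 : ¬ Sg S o (v, c + 3)) (hs : Special S v₀ (v, c)) :
    ∀ Y, Face S (v, c + 2) Y → Y ≠ (v, c + 2) → sgn o Y = sgn o (v, c) := by
  obtain ⟨z1, z2, z3, z4', z5, z6, z7, z8, z9⟩ := z4 c
  have n0 : ¬ Chg S o (v, c) := lbo_chg_special h hs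
  have n3 : Chg S o (v, c + 3) := by
    have hw : Special S v₀ (S.α (v, c - 1)) := by
      refine special_of_face ?_ hs
      have : Face S (S.α (v, c - 1)) (faceP S (S.α (v, c - 1))) :=
        Equiv.Perm.sameCycle_apply_right.2 (Equiv.Perm.SameCycle.refl _ _)
      rw [pred_face] at this
      exact this.symm
    have h4 := lbo_chg_special h hw
    rw [chg_iff hS, not_not, z4'] at h4
    exact h4
  have n1 : ¬ Chg S o (v, c + 1) := by
    intro h5
    apply h1
    refine ⟨h5, ?_⟩
    change ¬ Chg S o (v, c + 1 - 1)
    rw [z1]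
    exact n0
  have n2 : Chg S o (v, c + 2) := by
    by_contra h5
    apply h3
    refine ⟨n3, ?_⟩
    change ¬ Chg S o (v, c + 3 - 1)
    rw [z3]
    exact h5
  have hns : ¬ Special S v₀ (v, c + 2) := fun hs2 => lbo_chg_special h hs2 n2
  set X : Dart V := (v, c + 2) with hX
  set Z : Dart V := S.α (v, c + 2 - 1) with hZ
  have hfZ : faceP S Z = X := pred_face S v (c + 2)
  have hXZ : Face S X Z := by
    have : Face S Z (faceP S Z) :=
      Equiv.Perm.sameCycle_apply_right.2 (Equiv.Perm.SameCycle.refl _ _)
    rw [hfZ] at this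
    exact this.symm
  have hcZ : Chg S o Z := by
    rw [hZ, chg_iff hS, z2]
    exact n1
  have hne : X ≠ Z := by
    intro he
    rw [← he] at hfZ
    exact n2 (by rw [hfZ])
  have htwo := lbo_two hS h X hns
  have hset : {y : Dart V | Face S X y ∧ Chg S o y} = {X, Z} := by
    symm
    refine Set.eq_of_subset_of_ncard_le ?_ ?_ (Set.toFinite _)
    · rintro y (rfl | rfl)
      · exact ⟨Equiv.Perm.SameCycle.refl _ _, n2⟩
      · exact ⟨hXZ, hcZ⟩
    · rw [htwo, Set.ncard_pair hne]
  have hXs : sgn o X = !(sgn o (v, c)) := sgn_two o v c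
  intro Y hY hYX
  obtain ⟨k, hk⟩ := Equiv.Perm.SameCycle.exists_nat_pow_eq hY
  have key : ∀ k : ℕ, ((faceP S) ^ k) X = X ∨ sgn o (((faceP S) ^ k) X) = sgn o (v, c) := by
    intro k
    induction k with
    | zero => exact Or.inl rfl
    | succ k ih =>
      rw [pow_succ', Equiv.Perm.mul_apply]
      rcases ih with ih | ih
      · right
        rw [ih]
        have h5 : sgn o X ≠ sgn o (faceP S X) := n2
        rw [hXs] at h5
        revert h5
        generalize sgn o (faceP S X) = a
        generalize sgn o (v, c) = b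
        revert a b
        decide
      · by_cases hw : Chg S o (((faceP S) ^ k) X)
        · left
          have hmem : ((faceP S) ^ k) X ∈ ({X, Z} : Set (Dart V)) := by
            rw [← hset]
            exact ⟨⟨(k : ℤ), by rw [zpow_natCast]⟩, hw⟩
          rcases hmem with h6 | h6
          · exfalso
            rw [h6, hXs] at ih
            revert ih
            generalize sgn o (v, c) = b
            revert b
            decide
          · rw [h6]
            exact hfZ
        · right
          have h7 : sgn o (((faceP S) ^ k) X) = sgn o (faceP S (((faceP S) ^ k) X)) :=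
            not_not.1 hw
          rw [← h7]
          exact ih
  rcases key k with h8 | h8
  · rw [hk] at h8
    exact absurd h8 hYX
  · rwa [hk] at h8

/-- the dart of the smaller diagram -/
def dn {v : V} (X : Dart V) (h : X.1 ≠ v) : Dart {w : V // w ≠ v} := (⟨X.1, h⟩, X.2)

end L34

open L34

theorem lbo_restrict (hS : APD S) (hn : 2 ≤ Fintype.card V) (h : LBO S o v₀) {v : V}
    (hv : v₀ ≠ v) {c : ZMod 4} {S' : Shadow {w : V // w ≠ v}} (hE : Erase S v c S')
    (h1 : ¬ Sg S o (v, c + 1)) (h3 : ¬ Sg S o (v, c + 3)) :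
    LBO S' (fun w => o w.1) ⟨v₀, hv⟩ := by
  obtain ⟨z1, z2, z3, z4', z5, z6, z7, z8, z9⟩ := z4 c
  obtain ⟨y1, y2, y3, y4, y5, y6⟩ := L34.z4_ne c
  have hnug := lbo_not_nugat hS hn h v
  have hF := hE.face
  have hsg : ∀ x : Dart {w : V // w ≠ v}, sgn (fun w => o w.1) x = sgn o (up x) := fun x => rfl
  have hcorner : ∀ {Y : Dart V} {i : ZMod 4}, Face S (v, i) Y → Y.1 = v → Y = (v, i) := by
    intro Y i hY hYv
    have e1 : Y = (v, Y.2) := Prod.ext hYv rfl
    rw [e1] at hY ⊢
    rw [L34.face_inj hS hnug hY]
  have hncst : ∀ {X : Dart V}, ¬ Special S v₀ X → ∃ Y, Face S X Y ∧ sgn o Y ≠ sgn o X := by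
    intro X hX
    by_contra hcon
    push Not at hcon
    exact hX ((h X).1 hcon)
  intro x
  simp only [hsg]
  by_cases hx : Face S (up x) (v, c) ∨ Face S (up x) (v, c + 2)
  · -- the merged face
    have hmer : ∀ y, Face S' x y ↔ (Face S (up y) (v, c) ∨ Face S (up y) (v, c + 2)) := by
      intro y
      rw [hF x y]
      constructor
      · rintro (h4 | ⟨-, h4⟩ | ⟨-, h4⟩)
        · rcases hx with hx | hx
          · exact Or.inl (h4.symm.trans hx)
          · exact Or.inr (h4.symm.trans hx)
        · exact Or.inr h4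
        · exact Or.inl h4
      · rintro (h4 | h4)
        · rcases hx with hx | hx
          · exact Or.inl (hx.trans h4.symm)
          · exact Or.inr (Or.inr ⟨hx, h4⟩)
        · rcases hx with hx | hx
          · exact Or.inr (Or.inl ⟨hx, h4⟩)
          · exact Or.inl (hx.trans h4.symm)
    simp only [hmer]
    -- one of the faces is special
    have hone : ∀ d : ZMod 4, ¬ Sg S o (v, d + 1) → ¬ Sg S o (v, d + 3) →
        Special S v₀ (v, d) → ∀ y : Dart {w : V // w ≠ v},
          (Face S (up y) (v, d) ∨ Face S (up y) (v, d + 2)) → sgn o (up y) = sgn o (v, d) := by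
      intro d hd1 hd3 hd y hy
      rcases hy with hy | hy
      · exact (h (v, d)).2 hd (up y) hy.symm
      · refine opposite hS h hd1 hd3 hd (up y) hy.symm ?_
        intro he
        exact y.1.2 (congrArg Prod.fst he)
    constructor
    · intro hc
      by_contra hcon
      push Not at hcon
      obtain ⟨hc0, hc2⟩ := hcon
      have hs0 : ¬ Special S v₀ (v, c) := by
        rintro (h4 | h4)
        · exact hc0.1 h4.symm
        · exact hc2.1 h4.symm
      have hs2 : ¬ Special S v₀ (v, c + 2) := by
        rintro (h4 | h4)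
        · exact hc0.2 h4.symm
        · exact hc2.2 h4.symm
      obtain ⟨Y, hY, hY2⟩ := hncst hs0
      obtain ⟨Z, hZ, hZ2⟩ := hncst hs2
      have hYv : Y.1 ≠ v := fun h4 => hY2 (by rw [hcorner hY h4])
      have hZv : Z.1 ≠ v := fun h4 => hZ2 (by rw [hcorner hZ h4])
      have e1 := hc (dn Y hYv) (Or.inl hY.symm)
      have e2 := hc (dn Z hZv) (Or.inr hZ.symm)
      have e3 : sgn o Y = sgn o Z := e1.trans e2.symm
      rw [L34.sgn_two, ← e3] at hZ2
      revert hY2 hZ2
      generalize sgn o Y = a
      generalize sgn o (v, c) = b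
      revert a b
      decide
    · intro hs y hy
      have hs' : Special S v₀ (v, c) ∨ Special S v₀ (v, c + 2) := by
        rcases hs with (h4 | h4) | (h4 | h4)
        · exact Or.inl (Or.inl h4.symm)
        · exact Or.inr (Or.inl h4.symm)
        · exact Or.inl (Or.inr h4.symm)
        · exact Or.inr (Or.inr h4.symm)
      rcases hs' with h4 | h4
      · rw [hone c h1 h3 h4 y hy, hone c h1 h3 h4 x hx]
      · have h1' : ¬ Sg S o (v, c + 2 + 1) := by rwa [z6]
        have h3' : ¬ Sg S o (v, c + 2 + 3) := by rwa [z7]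
        have hy' : Face S (up y) (v, c + 2) ∨ Face S (up y) (v, c + 2 + 2) := by
          rw [z5]
          exact hy.symm
        have hx' : Face S (up x) (v, c + 2) ∨ Face S (up x) (v, c + 2 + 2) := by
          rw [z5]
          exact hx.symm
        rw [hone (c + 2) h1' h3' h4 y hy', hone (c + 2) h1' h3' h4 x hx']
  · -- the other faces
    push Not at hx
    have hmer : ∀ y, Face S' x y ↔ Face S (up x) (up y) := by
      intro y
      rw [hF x y]
      constructor
      · rintro (h4 | ⟨h4, -⟩ | ⟨h4, -⟩)
        · exact h4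
        · exact absurd h4 hx.1
        · exact absurd h4 hx.2
      · exact Or.inl
    simp only [hmer]
    constructor
    · intro hc
      by_contra hcon
      have hns : ¬ Special S v₀ (up x) := hcon
      by_cases hi : ∃ i, Face S (up x) (v, i)
      · obtain ⟨i, hi⟩ := hi
        have hns' : ¬ Special S v₀ (v, i) := fun h4 => hns (special_of_face hi.symm h4)
        have hSg : ¬ Sg S o (v, i) := by
          have hi4 : i = c ∨ i = c + 1 ∨ i = c + 2 ∨ i = c + 3 := by
            clear hns' hns hi hcon hx hc hcorner z1 z2 z3 z4' z5 z6 z7 z8 z9 y1 y2 y3 y4 y5 y6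
              h1 h3 hE hF hmer
            revert c i
            decide
          rcases hi4 with rfl | rfl | rfl | rfl
          · exact absurd hi hx.1
          · exact h1
          · exact absurd hi hx.2
          · exact h3
        obtain ⟨Y, Z, hY, hZ, hYne, hZne, hYZ⟩ := removal hS (hncst hns') hSg
        have hYv : Y.1 ≠ v := fun h4 => hYne (hcorner hY h4)
        have hZv : Z.1 ≠ v := fun h4 => hZne (hcorner hZ h4)
        have e1 := hc (dn Y hYv) (hi.trans hY)
        have e2 := hc (dn Z hZv) (hi.trans hZ)
        exact hYZ (e1.trans e2.symm)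
      · push Not at hi
        obtain ⟨Y, hY, hY2⟩ := hncst hns
        have hYv : Y.1 ≠ v := by
          intro h4
          have e1 : Y = (v, Y.2) := Prod.ext h4 rfl
          rw [e1] at hY
          exact hi _ hY
        exact hY2 (hc (dn Y hYv) hY)
    · intro hs y hy
      exact (h (up x)).2 hs (up y) hy

theorem lbo_good (h : LBO S o v₀) (v : V) :
    (¬ Sg S o (v, 0) ∧ ¬ Sg S o (v, 2)) ∨ (¬ Sg S o (v, 1) ∧ ¬ Sg S o (v, 3)) := by
  have e0 : (0 : ZMod 4) - 1 = 3 := by decide
  have e1 : (1 : ZMod 4) - 1 = 0 := by decide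
  have e2 : (2 : ZMod 4) - 1 = 1 := by decide
  have e3 : (3 : ZMod 4) - 1 = 2 := by decide
  unfold Sg
  simp only [e0, e1, e2, e3]
  tauto

end Pool.Agent.Helper65.LK
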