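import Pool.Agent.Helper65.LK.Dia

/-!
# LK-80. Colourings of diagrams by linear reflections

`Rf g`: `g` is an involution of `ℝ³` with `rank (g - 1) ≤ 1`, `Wr g` is the range of `g - 1`.
A colouring is constant along the edges, along the smoothed strands and along the upper strands; the two
ends of a lower strand have colours `b` and `a * b * a`, where `a` is the colour of the upper strand.
`Rich`: there is a colouring such that the spaces `Wr (c x)` generate `ℝ³`.

`Rf.conj`: `a b a - 1 = a (b - 1) a` (as `a a = 1`), so the rank is at most the rank of `b - 1`.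
`Wr_conj`: `a (b - 1) (a v) = y + (a - 1) y` with `y = (b - 1) (a v) ∈ Wr b`.
`Col.arc`: induction on `EqvGen`.
`TCol.glue`, `Col.left`, `Col.right`: by the definition of `glueα`, case by case.
-/

namespace Pool.Agent.Helper65.LK

open Function

/-- the linear maps of `ℝ³` -/
abbrev M3 : Type := Module.End ℝ (Fin 3 → ℝ)

/-- the range of `g - 1` -/
def Wr (g : M3) : Submodule ℝ (Fin 3 → ℝ) := LinearMap.range (g - 1)

/-- involutions with `rank (g - 1) ≤ 1` -/
def Rf (g : M3) : Prop := g * g = 1 ∧ Module.finrank ℝ (Wr g) ≤ 1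

/-- colourings of a diagram -/
structure Col {V : Type} (S : Shadow V) (s : V → St) (c : Dart V → M3) : Prop where
  rf : ∀ x, Rf (c x)
  edge : ∀ x, c (S.α x) = c x
  smooth : ∀ x, ¬ isC s x → c (tau s x) = c x
  ovr : ∀ x, (s x.1).upper x.2 = true → c (tau s x) = c x
  und : ∀ x, isC s x → (s x.1).upper x.2 = false → c (tau s x) = c (sg x) * c x * c (sg x)

/-- colourings of a tangle -/
structure TCol {V : Type} (T : Tangle V) (s : V → St) (c : Dart V → M3) : Prop where
  rf : ∀ x, Rf (c x)
  link : ∀ x y, T.link x = Sum.inl y → c y = c x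
  smooth : ∀ x, ¬ isC s x → c (tau s x) = c x
  ovr : ∀ x, (s x.1).upper x.2 = true → c (tau s x) = c x
  und : ∀ x, isC s x → (s x.1).upper x.2 = false → c (tau s x) = c (sg x) * c x * c (sg x)

/-- the diagram has a colouring which generates everything -/
def Rich {V : Type} (S : Shadow V) (s : V → St) : Prop :=
  ∃ c : Dart V → M3, Col S s c ∧ (⨆ x, Wr (c x)) = ⊤

private theorem conj_apply {a b : M3} (ha : a * a = 1) (v : Fin 3 → ℝ) :
    (a * b * a - 1) v = a ((b - 1) (a v)) := by
  have h1 : a (a v) = v := by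
    have := congrArg (fun g : M3 => g v) ha
    simpa using this
  simp only [LinearMap.sub_apply, Module.End.mul_apply, Module.End.one_apply, map_sub, h1]

theorem Rf.conj {a b : M3} (ha : Rf a) (hb : Rf b) : Rf (a * b * a) := by
  refine ⟨?_, ?_⟩
  · calc a * b * a * (a * b * a) = a * b * (a * a) * b * a := by simp only [mul_assoc]
      _ = a * (b * b) * a := by rw [ha.1]; simp only [mul_assoc, mul_one, one_mul]
      _ = 1 := by rw [hb.1, mul_one, ha.1]
  · have h1 : Wr (a * b * a) ≤ (Wr b).map a := by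
      rintro _ ⟨v, rfl⟩
      rw [conj_apply ha.1]
      exact ⟨_, ⟨a v, rfl⟩, rfl⟩
    exact ((Submodule.finrank_mono h1).trans (Submodule.finrank_map_le a (Wr b))).trans hb.2

theorem Wr_conj {a b : M3} (ha : a * a = 1) : Wr (a * b * a) ≤ Wr a ⊔ Wr b := by
  rintro _ ⟨v, rfl⟩
  rw [conj_apply ha]
  have h1 : a ((b - 1) (a v)) = (a - 1) ((b - 1) (a v)) + (b - 1) (a v) := by
    rw [LinearMap.sub_apply a 1, Module.End.one_apply, sub_add_cancel]
  rw [h1]
  exact Submodule.add_mem_sup ⟨_, rfl⟩ ⟨_, rfl⟩

theorem Col.arc {V : Type} {S : Shadow V} {s : V → St} {c : Dart V → M3} (h : Col S s c)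
    {x y : Dart V} (hxy : Arc S s x y) : c y = c x := by
  induction hxy with
  | rel a b hab =>
    rcases hab with rfl | ⟨h1, rfl⟩
    · exact h.edge a
    · exact h.smooth a h1
  | refl a => rfl
  | symm a b _ ih => exact ih.symm
  | trans a b d _ _ ih1 ih2 => exact ih2.trans ih1

/-- the union of two functions on the darts -/
def jn {V W X : Type} (c : Dart V → X) (c' : Dart W → X) (x : Dart (V ⊕ W)) : X :=
  Sum.elim (fun v => c (v, x.2)) (fun w => c' (w, x.2)) x.1

theorem TCol.glue {V W : Type} {T : Tangle V} {C : Tangle W} {s : V → St} {s' : W → St}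
    {c : Dart V → M3} {c' : Dart W → M3} (h : TCol T s c) (h' : TCol C s' c')
    (hp : ∀ i, c (T.port i) = c' (C.port (1 - i))) :
    Col (glue T C) (Sum.elim s s') (jn c c') := by
  refine ⟨?_, ?_, ?_, ?_, ?_⟩
  · rintro ⟨v | w, j⟩
    · exact h.rf (v, j)
    · exact h'.rf (w, j)
  · rintro ⟨v | w, j⟩
    · show jn c c' (glueα T C (Sum.inl v, j)) = c (v, j)
      cases hT : T.link (v, j) with
      | inl y =>
        simp only [glueα, hT]
        exact h.link _ _ hT
      | inr i =>
        simp only [glueα, hT]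
        have h1 := hp i
        rw [T.port_link _ _ hT] at h1
        exact h1.symm
    · show jn c c' (glueα T C (Sum.inr w, j)) = c' (w, j)
      cases hT : C.link (w, j) with
      | inl y =>
        simp only [glueα, hT]
        exact h'.link _ _ hT
      | inr i =>
        simp only [glueα, hT]
        have h1 := hp (1 - i)
        rw [z4_sub11, C.port_link _ _ hT] at h1
        exact h1
  · rintro ⟨v | w, j⟩ hx
    · exact h.smooth (v, j) hx
    · exact h'.smooth (w, j) hx
  · rintro ⟨v | w, j⟩ hx
    · exact h.ovr (v, j) hx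
    · exact h'.ovr (w, j) hx
  · rintro ⟨v | w, j⟩ hx hu
    · exact h.und (v, j) hx hu
    · exact h'.und (w, j) hx hu

theorem TCol.hsum {V W : Type} {T : Tangle V} {C : Tangle W} {s : V → St} {s' : W → St}
    {c : Dart V → M3} {c' : Dart W → M3} (h : TCol T s c) (h' : TCol C s' c')
    (h0 : c (T.port 0) = c' (C.port 1)) (h3 : c (T.port 3) = c' (C.port 2)) :
    TCol (hsum T C) (Sum.elim s s') (jn c c') := by
  have hport : ∀ k : ZMod 4, ¬ (k = 1 ∨ k = 2) → c (T.port k) = c' (C.port (1 - k)) := by
    have h4 : ∀ k : ZMod 4, ¬ (k = 1 ∨ k = 2) → (k = 0 ∧ 1 - k = 1) ∨ (k = 3 ∧ 1 - k = 2) := by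
      decide
    intro k hk
    rcases h4 k hk with ⟨h1, h2⟩ | ⟨h1, h2⟩
    · rw [h2, h1]
      exact h0
    · rw [h2, h1]
      exact h3
  refine ⟨?_, ?_, ?_, ?_, ?_⟩
  · rintro ⟨v | w, j⟩
    · exact h.rf (v, j)
    · exact h'.rf (w, j)
  · rintro ⟨v | w, j⟩ y hxy
    · show jn c c' y = c (v, j)
      cases hT : T.link (v, j) with
      | inl z =>
        simp only [LK.hsum, hT, Sum.inl.injEq] at hxy
        rw [← hxy]
        exact h.link _ _ hT
      | inr k =>
        by_cases hk : k = 1 ∨ k = 2
        · simp [LK.hsum, hT, hk] at hxy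
        · simp only [LK.hsum, hT, hk, if_false, Sum.inl.injEq] at hxy
          rw [← hxy]
          have h1 := hport k hk
          rw [T.port_link _ _ hT] at h1
          exact h1.symm
    · show jn c c' y = c' (w, j)
      cases hT : C.link (w, j) with
      | inl z =>
        simp only [LK.hsum, hT, Sum.inl.injEq] at hxy
        rw [← hxy]
        exact h'.link _ _ hT
      | inr k =>
        by_cases hk : k = 1 ∨ k = 2
        · simp only [LK.hsum, hT, hk, if_true, Sum.inl.injEq] at hxy
          rw [← hxy]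
          have h1 := hport (1 - k) (z4_n12 k hk)
          rw [z4_sub11, C.port_link _ _ hT] at h1
          exact h1
        · simp [LK.hsum, hT, hk] at hxy
  · rintro ⟨v | w, j⟩ hx
    · exact h.smooth (v, j) hx
    · exact h'.smooth (w, j) hx
  · rintro ⟨v | w, j⟩ hx
    · exact h.ovr (v, j) hx
    · exact h'.ovr (w, j) hx
  · rintro ⟨v | w, j⟩ hx hu
    · exact h.und (v, j) hx hu
    · exact h'.und (w, j) hx hu

theorem TCol.vsum {V W : Type} {T : Tangle V} {C : Tangle W} {s : V → St} {s' : W → St}
    {c : Dart V → M3} {c' : Dart W → M3} (h : TCol T s c) (h' : TCol C s' c')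
    (h2 : c (T.port 2) = c' (C.port 1)) (h3 : c (T.port 3) = c' (C.port 0)) :
    TCol (vsum T C) (Sum.elim s s') (jn c c') := by
  have hport : ∀ k : ZMod 4, ¬ (k = 0 ∨ k = 1) → c (T.port k) = c' (C.port (3 - k)) := by
    have h4 : ∀ k : ZMod 4, ¬ (k = 0 ∨ k = 1) → (k = 2 ∧ 3 - k = 1) ∨ (k = 3 ∧ 3 - k = 0) := by
      decide
    intro k hk
    rcases h4 k hk with ⟨h1, h5⟩ | ⟨h1, h5⟩
    · rw [h5, h1]
      exact h2
    · rw [h5, h1]
      exact h3
  refine ⟨?_, ?_, ?_, ?_, ?_⟩
  · rintro ⟨v | w, j⟩
    · exact h.rf (v, j)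
    · exact h'.rf (w, j)
  · rintro ⟨v | w, j⟩ y hxy
    · show jn c c' y = c (v, j)
      cases hT : T.link (v, j) with
      | inl z =>
        simp only [LK.vsum, hT, Sum.inl.injEq] at hxy
        rw [← hxy]
        exact h.link _ _ hT
      | inr k =>
        by_cases hk : k = 0 ∨ k = 1
        · simp [LK.vsum, hT, hk] at hxy
        · simp only [LK.vsum, hT, hk, if_false, Sum.inl.injEq] at hxy
          rw [← hxy]
          have h1 := hport k hk
          rw [T.port_link _ _ hT] at h1
          exact h1.symm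
    · show jn c c' y = c' (w, j)
      cases hT : C.link (w, j) with
      | inl z =>
        simp only [LK.vsum, hT, Sum.inl.injEq] at hxy
        rw [← hxy]
        exact h'.link _ _ hT
      | inr k =>
        by_cases hk : k = 0 ∨ k = 1
        · simp only [LK.vsum, hT, hk, if_true, Sum.inl.injEq] at hxy
          rw [← hxy]
          have h1 := hport (3 - k) (z4_n01 k hk)
          rw [z4_sub33, C.port_link _ _ hT] at h1
          exact h1
        · simp [LK.vsum, hT, hk] at hxy
  · rintro ⟨v | w, j⟩ hx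
    · exact h.smooth (v, j) hx
    · exact h'.smooth (w, j) hx
  · rintro ⟨v | w, j⟩ hx
    · exact h.ovr (v, j) hx
    · exact h'.ovr (w, j) hx
  · rintro ⟨v | w, j⟩ hx hu
    · exact h.und (v, j) hx hu
    · exact h'.und (w, j) hx hu

theorem Col.left {V W : Type} {T : Tangle V} {C : Tangle W} {s : V → St} {s' : W → St}
    {c : Dart (V ⊕ W) → M3} (h : Col (glue T C) (Sum.elim s s') c) :
    TCol T s (fun x => c (dl x)) := by
  refine ⟨fun x => h.rf _, ?_, fun x hx => h.smooth (dl x) hx, fun x hx => h.ovr (dl x) hx,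
    fun x hx hu => h.und (dl x) hx hu⟩
  intro x y hxy
  have h1 : (LK.glue T C).α (dl x) = dl y := by
    show glueα T C (dl x) = dl y
    have h2 : T.link (x.1, x.2) = Sum.inl y := hxy
    simp only [glueα, h2]
  have h3 := h.edge (dl x)
  rw [h1] at h3
  exact h3

end Pool.Agent.Helper65.LK
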