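import Pool.Agent.Helper65.LK.RichDefs
import Pool.Agent.Helper65.LK.IsoPlanar

/-!
# LK-81. Colourings and isomorphisms

`e : DIso S s S' s'`, `c` a colouring of `(S, s)`.  A loop is a class of `Arc` without crossing darts.
`comps S s = loops (Cr s) S s + classes (genU (Cr s) S s (tau s))` (`gen_classes`, `ip_comps`) and the same for `S'`; the two numbers
of classes are equal (the relation on the crossing darts is transported by `e.φ`: `tau s x = sg (sg x)` for
crossing darts, `e.rot`, `e.arc`), so the numbers of loops are equal, and there is a bijection `ψ` from the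
loops of `(S', s')` to the loops of `(S, s)` (finite sets).
Let `c' y = c (e.φ.symm x')` if there is a crossing dart `x'` with `Arc S' s' y x'` (independent of the choice by
`e.arc` and `Col.arc`), and otherwise the colour of the loop `ψ [y]`.  `c'` is constant on the classes of
`Arc S' s'`, so `edge` and `smooth` hold; on the crossing darts `c' y = c (e.φ.symm y)`, so `ovr`, `und` hold
(`tau s x = sg (sg x)` for crossing darts, `e.rot`, `e.upper`).  The values of `c` and `c'` are the same: every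
dart of `S` is on an arc with a crossing dart or on a loop.
-/

namespace Pool.Agent.Helper65.LK

open Function

variable {V V' : Type} [Fintype V] [Fintype V'] {S : Shadow V} {s : V → St} {S' : Shadow V'}
  {s' : V' → St}

omit [Fintype V] in
private theorem ri_isC_sg {x : Dart V} (h : isC s x) : isC s (sg x) := h

omit [Fintype V] in
private theorem ri_isC_tau {x : Dart V} (h : isC s x) : isC s (tau s x) := h

omit [Fintype V] in
private theorem ri_tau {x : Dart V} (h : isC s x) : tau s x = sg (sg x) := by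
  unfold isC at h
  show (x.1, (s x.1).mate x.2) = (x.1, x.2 + 1 + 1)
  have h2 : x.2 + 1 + 1 = x.2 + 2 := by ring
  rw [h2]
  rcases hs : s x.1 with _ | _ | _ | _
  · rfl
  · rfl
  · rw [hs] at h; exact absurd h (by decide)
  · rw [hs] at h; exact absurd h (by decide)

omit [Fintype V] in
private theorem ri_upper {x : Dart V} (h : (s x.1).upper x.2 = true) : isC s x := by
  unfold isC
  rcases hs : s x.1 with _ | _ | _ | _
  · rfl
  · rfl
  · rw [hs] at h; exact absurd h Bool.false_ne_true
  · rw [hs] at h; exact absurd h Bool.false_ne_true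

/-- the inverse isomorphism -/
private def riSymm (e : DIso S s S' s') : DIso S' s' S s where
  φ := e.φ.symm
  rot := by
    intro x y hxy
    have h1 := e.rot (e.φ.symm x) ⟨sg (e.φ.symm x).1, ri_isC_sg (e.φ.symm x).2⟩ rfl
    rw [Equiv.apply_symm_apply, ← hxy] at h1
    have h2 : e.φ ⟨sg (e.φ.symm x).1, ri_isC_sg (e.φ.symm x).2⟩ = y := Subtype.ext h1
    rw [← h2, Equiv.symm_apply_apply]
  arc := by
    intro x y
    have h := e.arc (e.φ.symm x) (e.φ.symm y)
    rw [Equiv.apply_symm_apply, Equiv.apply_symm_apply] at h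
    exact h.symm
  upper := by
    intro x
    have h := e.upper (e.φ.symm x)
    rw [Equiv.apply_symm_apply] at h
    exact h.symm
  comps := e.comps.symm

/-- the loops -/
private abbrev RL {V : Type} (S : Shadow V) (s : V → St) : Type :=
  {q : Quotient (Relation.EqvGen.setoid (arcRel (Cr s) S s)) //
    ∀ x : Dart V, Quotient.mk _ x = q → ¬ Cr s x.1}

private theorem ri_loops (e : DIso S s S' s') : Nonempty (RL S' s' ≃ RL S s) := by
  classical
  have h1 : classes (genU (Cr s) S s (tau s)) = classes (genU (Cr s') S' s' (tau s')) := by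
    apply ip_classes (X := {x : Dart V // Cr s x.1}) (Y := {x : Dart V' // Cr s' x.1}) e.φ
    intro x y
    unfold genU
    have htau : ∀ x : {x : Dart V // isC s x},
        (e.φ ⟨tau s x.1, ri_isC_tau x.2⟩).1 = tau s' (e.φ x).1 := by
      intro x
      rw [ri_tau (e.φ x).2]
      have h2 := e.rot x ⟨sg x.1, ri_isC_sg x.2⟩ rfl
      have h3 := e.rot ⟨sg x.1, ri_isC_sg x.2⟩ ⟨tau s x.1, ri_isC_tau x.2⟩ (ri_tau x.2)
      rw [h3, h2]
    apply or_congr
    · constructor
      · intro hy
        have h4 : y = ipBeta S s x := Subtype.ext hy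
        rw [h4]
        exact e.ip_partner x
      · intro hy
        have h4 : e.φ y = e.φ (ipBeta S s x) := Subtype.ext (Eq.trans hy (e.ip_partner x).symm)
        exact congrArg Subtype.val (e.φ.injective h4)
    · constructor
      · intro hy
        have h4 : y = ⟨tau s x.1, ri_isC_tau x.2⟩ := Subtype.ext hy
        rw [h4]
        exact htau x
      · intro hy
        have h4 : e.φ y = e.φ ⟨tau s x.1, ri_isC_tau x.2⟩ := Subtype.ext (Eq.trans hy (htau x).symm)
        exact congrArg Subtype.val (e.φ.injective h4)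
  have h2 := ip_comps S s
  have h3 := ip_comps S' s'
  have h4 := e.comps
  have h5 : loops (Cr s') S' s' = loops (Cr s) S s := by omega
  have : Finite (Quotient (Relation.EqvGen.setoid (arcRel (Cr s) S s))) := Quotient.finite _
  have : Finite (Quotient (Relation.EqvGen.setoid (arcRel (Cr s') S' s'))) := Quotient.finite _
  exact Finite.card_eq.1 h5

theorem rich_iso_mp (e : DIso S s S' s') (h : Rich S s) : Rich S' s' := by
  classical
  obtain ⟨c, hc, htop⟩ := h
  obtain ⟨ψ⟩ := ri_loops e
  -- a dart which is on no arc with a crossing dart is on a loop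
  have hloop : ∀ y : Dart V', (¬ ∃ x' : {x : Dart V' // isC s' x}, Arc S' s' y x'.1) →
      ∀ x : Dart V', (Quotient.mk (Relation.EqvGen.setoid (arcRel (Cr s') S' s')) x)
        = Quotient.mk _ y → ¬ Cr s' x.1 := by
    intro y hy x hx hx'
    have h1 : Relation.EqvGen (arcRel (Cr s') S' s') x y := Quotient.exact hx
    exact hy ⟨⟨x, hx'⟩, h1.symm⟩
  have hloop0 : ∀ y : Dart V, (¬ ∃ x' : {x : Dart V // isC s x}, Arc S s y x'.1) →
      ∀ x : Dart V, (Quotient.mk (Relation.EqvGen.setoid (arcRel (Cr s) S s)) x)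
        = Quotient.mk _ y → ¬ Cr s x.1 := by
    intro y hy x hx hx'
    have h1 : Relation.EqvGen (arcRel (Cr s) S s) x y := Quotient.exact hx
    exact hy ⟨⟨x, hx'⟩, h1.symm⟩
  obtain ⟨c', hc1, hc2⟩ : ∃ c' : Dart V' → M3,
      (∀ y (x' : {x : Dart V' // isC s' x}), Arc S' s' y x'.1 → c' y = c (e.φ.symm x').1) ∧
      ∀ y (hy : ¬ ∃ x' : {x : Dart V' // isC s' x}, Arc S' s' y x'.1),
        c' y = c (ψ ⟨Quotient.mk _ y, hloop y hy⟩).1.out := by
    refine ⟨fun y => if h : ∃ x' : {x : Dart V' // isC s' x}, Arc S' s' y x'.1 then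
      c (e.φ.symm h.choose).1 else c (ψ ⟨Quotient.mk _ y, hloop y h⟩).1.out, ?_, ?_⟩
    · intro y x' hx'
      have h : ∃ x' : {x : Dart V' // isC s' x}, Arc S' s' y x'.1 := ⟨x', hx'⟩
      simp only [dif_pos h]
      have h1 := h.choose_spec
      have h2 : Arc S' s' x'.1 h.choose.1 := (Relation.EqvGen.symm _ _ hx').trans _ _ _ h1
      have h3 := (e.arc (e.φ.symm x') (e.φ.symm h.choose)).2
        (by rw [Equiv.apply_symm_apply, Equiv.apply_symm_apply]; exact h2)
      exact hc.arc h3
    · intro y hy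
      simp only [dif_neg hy]
  -- constant on arcs
  have harc : ∀ y z, Arc S' s' y z → c' z = c' y := by
    intro y z hyz
    by_cases h : ∃ x' : {x : Dart V' // isC s' x}, Arc S' s' y x'.1
    · obtain ⟨x', hx'⟩ := h
      rw [hc1 y x' hx', hc1 z x' ((Relation.EqvGen.symm _ _ hyz).trans _ _ _ hx')]
    · have h' : ¬ ∃ x' : {x : Dart V' // isC s' x}, Arc S' s' z x'.1 := by
        rintro ⟨x', hx'⟩
        exact h ⟨x', hyz.trans _ _ _ hx'⟩
      rw [hc2 y h, hc2 z h']
      have h1 : (Quotient.mk (Relation.EqvGen.setoid (arcRel (Cr s') S' s')) z)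
          = Quotient.mk _ y := Quotient.sound (Relation.EqvGen.symm _ _ hyz)
      have h2 : (⟨Quotient.mk _ z, hloop z h'⟩ : RL S' s') = ⟨Quotient.mk _ y, hloop y h⟩ :=
        Subtype.ext h1
      rw [h2]
  have hcr : ∀ x' : {x : Dart V' // isC s' x}, c' x'.1 = c (e.φ.symm x').1 := fun x' =>
    hc1 _ x' (Relation.EqvGen.refl _)
  have hsg : ∀ x' : {x : Dart V' // isC s' x},
      (e.φ.symm ⟨sg x'.1, ri_isC_sg x'.2⟩).1 = sg (e.φ.symm x').1 := fun x' =>
    (riSymm e).rot x' ⟨sg x'.1, ri_isC_sg x'.2⟩ rfl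
  have htau : ∀ x' : {x : Dart V' // isC s' x},
      (e.φ.symm ⟨tau s' x'.1, ri_isC_tau x'.2⟩).1 = tau s (e.φ.symm x').1 := by
    intro x'
    rw [ri_tau (e.φ.symm x').2, ← hsg x', ← hsg ⟨sg x'.1, ri_isC_sg x'.2⟩]
    congr 2
    exact Subtype.ext (ri_tau x'.2)
  have hup : ∀ x' : {x : Dart V' // isC s' x},
      (s (e.φ.symm x').1.1).upper (e.φ.symm x').1.2 = (s' x'.1.1).upper x'.1.2 := fun x' =>
    ((riSymm e).upper x').symm
  refine ⟨c', ⟨?_, ?_, ?_, ?_, ?_⟩, ?_⟩
  · intro y
    by_cases h : ∃ x' : {x : Dart V' // isC s' x}, Arc S' s' y x'.1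
    · obtain ⟨x', hx'⟩ := h
      rw [hc1 y x' hx']
      exact hc.rf _
    · rw [hc2 y h]
      exact hc.rf _
  · intro x
    exact harc x _ (Relation.EqvGen.rel _ _ (Or.inl rfl))
  · intro x hx
    exact harc x _ (Relation.EqvGen.rel _ _ (Or.inr ⟨hx, rfl⟩))
  · intro x hx
    have hC := ri_upper hx
    have h1 := hcr ⟨x, hC⟩
    have h2 := hcr ⟨tau s' x, ri_isC_tau hC⟩
    have h3 := htau ⟨x, hC⟩
    have h4 := hup ⟨x, hC⟩
    simp only at h1 h2 h3 h4
    rw [h1, h2, h3]
    exact hc.ovr _ (h4.trans hx)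
  · intro x hC hx
    have h1 := hcr ⟨x, hC⟩
    have h2 := hcr ⟨tau s' x, ri_isC_tau hC⟩
    have h3 := htau ⟨x, hC⟩
    have h4 := hup ⟨x, hC⟩
    have h5 := hcr ⟨sg x, ri_isC_sg hC⟩
    have h6 := hsg ⟨x, hC⟩
    simp only at h1 h2 h3 h4 h5 h6
    rw [h1, h2, h3, h5, h6]
    exact hc.und _ (e.φ.symm ⟨x, hC⟩).2 (h4.trans hx)
  · rw [eq_top_iff, ← htop]
    refine iSup_le fun x => ?_
    obtain ⟨y, hy⟩ : ∃ y, c' y = c x := by
      by_cases h : ∃ x' : {x : Dart V // isC s x}, Arc S s x x'.1
      · obtain ⟨x', hx'⟩ := h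
        refine ⟨(e.φ x').1, ?_⟩
        rw [hcr, Equiv.symm_apply_apply]
        exact hc.arc hx'
      · set q : RL S s := ⟨Quotient.mk _ x, hloop0 x h⟩ with hq
        refine ⟨(ψ.symm q).1.out, ?_⟩
        have h1 : (Quotient.mk (Relation.EqvGen.setoid (arcRel (Cr s') S' s')) (ψ.symm q).1.out)
            = (ψ.symm q).1 := Quotient.out_eq _
        have h2 : ¬ ∃ x' : {x : Dart V' // isC s' x}, Arc S' s' (ψ.symm q).1.out x'.1 := by
          rintro ⟨x', hx'⟩
          refine (ψ.symm q).2 x'.1 ?_ x'.2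
          rw [← h1]
          exact Quotient.sound (Relation.EqvGen.symm _ _ hx')
        rw [hc2 _ h2]
        have h3 : (⟨Quotient.mk _ (ψ.symm q).1.out, hloop _ h2⟩ : RL S' s') = ψ.symm q :=
          Subtype.ext h1
        rw [h3, Equiv.apply_symm_apply]
        have h4 : Relation.EqvGen (arcRel (Cr s) S s) q.1.out x :=
          Quotient.exact (Quotient.out_eq q.1)
        exact hc.arc (Relation.EqvGen.symm _ _ h4)
    rw [← hy]
    exact le_iSup (fun y => Wr (c' y)) y

theorem rich_iso (e : DIso S s S' s') : Rich S s ↔ Rich S' s' :=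
  ⟨rich_iso_mp e, rich_iso_mp (riSymm e)⟩

end Pool.Agent.Helper65.LK
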