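import Pool.Agent.Helper65.LK.Two
import Pool.Agent.Helper65.LK.IsoPlanar

/-!
# LK-33. The two sides of a nugatory crossing

Let `S` be a connected alternating diagram, and let the corners `(v, i)` and `(v, i + 2)` be in the same face.
The smoothing `q = mrg i` joins the darts `(v, i), (v, i+1)` and `(v, i+2), (v, i+3)` (it cuts off the corners
`i + 1`, `i + 3` and merges the corners `i`, `i + 2`).  Let `s = update (ov V) v q`.
`rot s * S.α = swap (v,i) (v,i+2) * faceP S` (see `Euler.lean` (b)) has one cycle more than `faceP S`, and by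
planarity (`Planar.below`) `pieces S s = 2`.  The darts `(v, i), (v, i+1)` are in one piece, the darts
`(v, i+2), (v, i+3)` in the other one (else `Piece S s = Piece S (ov V)`), and every vertex `≠ v` is in exactly
one of the two pieces.  Let `W` be the set of the vertices `≠ v` in the piece of `(v, i)`, `W'` the set of the
other ones.  If `S.α (v, i) = (v, i + 1)` this piece is a loop and `W = ∅`.
Otherwise `S.α (v, i)` and `S.α (v, i+1)` are over `W` (they are not at `v`: by parity
`S.α (v, i)` could only be `(v, i+3)`, which is in the other piece).  Let `S₂` be the pure diagram on `W` with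
`α₂ = α` except that `S.α (v, i)` and `S.α (v, i + 1)` are joined.
`planar`: let `t` be `s` with all crossings outside `W` smoothed (in any way); `Planar S t` by
`Planar.below`, and `S₂` is isomorphic (`DMap`, identity on the crossing darts) to `(S, t)`: a path of
`(S, t)` which leaves `W` passes through `v` from `(v, i)` to `(v, i+1)` or back, since the other crossings are in the
other piece; `Planar.iso`.
`conn`: every dart over `W` is in the piece of `(v, i)` in `(S, s)`; where a path in this piece passes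
through `v`, use the arc through `v`.
`alt`: `par i ≠ par (i+1)`.
The second side is the same with `i + 2` instead of `i`.
-/

namespace Pool.Agent.Helper65.LK

open Function

variable {V : Type} [Fintype V] [DecidableEq V] {S : Shadow V}

/-- one side of a nugatory crossing -/
structure Side (S : Shadow V) (v : V) (i : ZMod 4) (W : Finset V)
    (S₂ : Shadow {w : V // w ∈ W}) : Prop where
  apd : APD S₂
  not_mem : v ∉ W
  far : ∀ x : Dart {w : V // w ∈ W}, (S.α (x.1.1, x.2)).1 ≠ v →
    ((S₂.α x).1.1, (S₂.α x).2) = S.α (x.1.1, x.2)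
  mem₁ : (S.α (v, i)).1 ∈ W
  mem₂ : (S.α (v, i + 1)).1 ∈ W
  arc : S₂.α (⟨(S.α (v, i)).1, mem₁⟩, (S.α (v, i)).2) =
    (⟨(S.α (v, i + 1)).1, mem₂⟩, (S.α (v, i + 1)).2)
  only : ∀ x : Dart V, x.1 ∈ W → (S.α x).1 = v → S.α x = (v, i) ∨ S.α x = (v, i + 1)

/-- the pure diagram on the set of the crossings, given as a predicate -/
private theorem sd_pure (S : Shadow V) (t : V → St) (p : V → Prop) [Fintype (Subtype p)]
    (hp : p = fun w => (t w).isX = true) (hov : ∀ w, p w → t w = St.over1) :
    ∃ S₂ : Shadow (Subtype p),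
      (∀ x : Dart (Subtype p), ((S₂.α x).1.1, (S₂.α x).2) = partner (Cr t) S t (x.1.1, x.2)) ∧
      (Planar S t → PlanarP S₂) := by
  subst hp
  refine ⟨ipPure S t, fun x => rfl, fun h => ?_⟩
  let eφ : XD t ≃ {x : Dart {v : V // (t v).isX = true} // isC (fun v => t v.1) x} :=
    { toFun := fun x => ⟨ipE t x, x.2⟩
      invFun := fun y => (ipE t).symm y.1
      left_inv := fun _ => rfl
      right_inv := fun _ => rfl }
  let e : DMap S t (ipPure S t) (fun v => t v.1) :=
    { φ := eφ
      rot := by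
        intro x y hxy
        have h1 : y = ipSg t x := Subtype.ext hxy
        rw [h1]
        rfl
      arc := fun x y => ipPure_arc S t x y
      upper := fun x => rfl }
  have h1 := Planar.iso e h
  have h2 : (fun v : {v : V // (t v).isX = true} => t v.1) = fun _ => St.over1 :=
    funext fun v => hov v.1 v.2
  rw [h2] at h1
  exact h1

omit [Fintype V] [DecidableEq V] in
private theorem sd_alpha (S : Shadow V) (s : V → St) (x : Dart V) : Piece S s x (S.α x) :=
  Relation.EqvGen.rel _ _ (Or.inl rfl)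

omit [Fintype V] [DecidableEq V] in
private theorem sd_rot (S : Shadow V) (s : V → St) (x : Dart V) : Piece S s x (rot s x) :=
  Relation.EqvGen.rel _ _ (Or.inr rfl)

private theorem sd_isX : ∀ i : ZMod 4, (mrg i).isX = false := by decide

private theorem sd_next : ∀ i : ZMod 4, (mrg i).next i = i + 1 := by decide

private theorem sd_next2 : ∀ i : ZMod 4, (mrg i).next (i + 2) = i + 3 := by decide

private theorem sd_mate : ∀ i : ZMod 4, (mrg i).mate i = i + 1 := by decide

private theorem sd_mrg2 : ∀ i : ZMod 4, mrg (i + 2) = mrg i := by decide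

private theorem sd_four : ∀ i j : ZMod 4, j = i ∨ j = i + 1 ∨ j = i + 2 ∨ j = i + 3 := by decide

/-- the state in which only `v` is smoothed -/
private abbrev sd_s (v : V) (i : ZMod 4) : V → St := update (ov V) v (mrg i)

omit [Fintype V] in
private theorem sd_rot_v (v : V) (i : ZMod 4) : rot (sd_s v i) (v, i) = (v, i + 1) := by
  change ((v, (update (ov V) v (mrg i) v).next i) : Dart V) = _
  rw [update_self, sd_next]

omit [Fintype V] in
private theorem sd_rot_v2 (v : V) (i : ZMod 4) : rot (sd_s v i) (v, i + 2) = (v, i + 3) := by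
  change ((v, (update (ov V) v (mrg i) v).next (i + 2)) : Dart V) = _
  rw [update_self, sd_next2]

omit [Fintype V] in
private theorem sd_rot_ne {v w : V} (i j : ZMod 4) (hw : w ≠ v) :
    rot (sd_s v i) (w, j) = (w, j + 1) := by
  change ((w, (update (ov V) v (mrg i) w).next j) : Dart V) = _
  rw [update_of_ne hw]
  rfl

omit [Fintype V] in
private theorem sd_v1 (S : Shadow V) (v : V) (i : ZMod 4) :
    Piece S (sd_s v i) (v, i) (v, i + 1) := by
  have h := sd_rot S (sd_s v i) (v, i)
  rwa [sd_rot_v] at h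

omit [Fintype V] in
private theorem sd_v2 (S : Shadow V) (v : V) (i : ZMod 4) :
    Piece S (sd_s v i) (v, i + 2) (v, i + 3) := by
  have h := sd_rot S (sd_s v i) (v, i + 2)
  rwa [sd_rot_v2] at h

omit [Fintype V] in
private theorem sd_w (S : Shadow V) {v w : V} (i : ZMod 4) (hw : w ≠ v) (j : ZMod 4) :
    Piece S (sd_s v i) (w, 0) (w, j) := by
  have hk : ∀ k : ℕ, Piece S (sd_s v i) (w, 0) (w, (k : ZMod 4)) := by
    intro k
    induction k with
    | zero => rw [Nat.cast_zero]; exact Relation.EqvGen.refl _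
    | succ k ih =>
      have h := sd_rot S (sd_s v i) (w, (k : ZMod 4))
      rw [sd_rot_ne i _ hw] at h
      rw [Nat.cast_add, Nat.cast_one]
      exact ih.trans _ _ _ h
  have h := hk j.val
  rwa [ZMod.natCast_zmod_val] at h

private theorem sd_key (v : V) (i : ZMod 4) :
    (e_a (mrg i) v = (v, i + 3) ∧ e_b (mrg i) v = (v, i + 1)) ∨
      (e_a (mrg i) v = (v, i + 1) ∧ e_b (mrg i) v = (v, i + 3)) := by
  have h1 : ∀ i : ZMod 4, ((if mrg i = St.smA then (1 : ZMod 4) else 0) = i + 3 ∧
      (if mrg i = St.smA then (3 : ZMod 4) else 2) = i + 1) ∨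
      ((if mrg i = St.smA then (1 : ZMod 4) else 0) = i + 1 ∧
      (if mrg i = St.smA then (3 : ZMod 4) else 2) = i + 3) := by decide
  have h2 : e_a (mrg i) v = (v, if mrg i = St.smA then (1 : ZMod 4) else 0) := by
    unfold e_a
    split_ifs <;> rfl
  have h3 : e_b (mrg i) v = (v, if mrg i = St.smA then (3 : ZMod 4) else 2) := by
    unfold e_b
    split_ifs <;> rfl
  rw [h2, h3]
  rcases h1 i with ⟨a, b⟩ | ⟨a, b⟩
  · left; rw [a, b]; exact ⟨rfl, rfl⟩
  · right; rw [a, b]; exact ⟨rfl, rfl⟩

/-- the two sides are in different pieces -/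
private theorem sd_not (hS : APD S) (v : V) (i : ZMod 4) (h : Face S (v, i) (v, i + 2)) :
    ¬ Piece S (sd_s v i) (v, i) (v, i + 2) := by
  have hv : (ov V v).isX = true := rfl
  have hq := sd_isX i
  have hα : S.α⁻¹ = S.α := by
    rw [inv_eq_iff_mul_eq_one]
    exact Equiv.ext S.invol
  have h1 : rot (update (ov V) v (mrg i)) * S.α =
      (rot (ov V) * S.α) * Equiv.swap (S.α (e_a (mrg i) v)) (S.α (e_b (mrg i) v)) := by
    rw [e_rot_update hv hq, mul_assoc, mul_assoc]
    congr 1
    have := Equiv.mul_swap_eq_swap_mul S.α (S.α (e_a (mrg i) v)) (S.α (e_b (mrg i) v))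
    rw [S.invol, S.invol] at this
    exact this.symm
  have hne : S.α (e_a (mrg i) v) ≠ S.α (e_b (mrg i) v) := fun h => e_ab (mrg i) v (S.α.injective h)
  have hA : ∀ x, Face S (S.α x) (sg x) := fun x => ⟨1, by
    rw [zpow_one, faceP_apply, S.invol]⟩
  have h31 : ∀ i : ZMod 4, i + 3 + 1 = i := by decide
  have h11 : ∀ i : ZMod 4, i + 1 + 1 = i + 2 := by decide
  have hA3 : Face S (S.α (v, i + 3)) (v, i) := by
    have h2 := hA (v, i + 3)
    have h3 : sg ((v, i + 3) : Dart V) = (v, i) := by
      change ((v, i + 3 + 1) : Dart V) = _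
      rw [h31]
    rwa [h3] at h2
  have hA1 : Face S (S.α (v, i + 1)) (v, i + 2) := by
    have h2 := hA (v, i + 1)
    have h3 : sg ((v, i + 1) : Dart V) = (v, i + 2) := by
      change ((v, i + 1 + 1) : Dart V) = _
      rw [h11]
    rwa [h3] at h2
  have hF : Face S (S.α (v, i + 3)) (S.α (v, i + 1)) := (hA3.trans h).trans hA1.symm
  have hs : (rot (ov V) * S.α).SameCycle (S.α (e_a (mrg i) v)) (S.α (e_b (mrg i) v)) := by
    rcases sd_key v i with ⟨a, b⟩ | ⟨a, b⟩
    · rw [a, b]; exact hF
    · rw [a, b]; exact hF.symm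
  have hc : cycles (rot (update (ov V) v (mrg i)) * S.α) = cycles (rot (ov V) * S.α) + 1 := by
    rw [h1]
    exact e_cycles_swap_of_same _ hne hs
  have hpl : Planar S (ov V) := hS.planar
  have hp := e_planar_update hpl hv hq
  have hn := e_nX_update hv hq
  have hco := hS.conn
  unfold Planar at hp hpl
  rcases e_pieces_update S hv hq with ⟨hp1, _⟩ | ⟨_, hp2⟩
  · omega
  · intro hcon
    apply hp2
    have h1 := sd_v1 S v i
    have h2 := sd_v2 S v i
    have h3 : Piece S (sd_s v i) (v, i + 1) (v, i + 3) :=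
      ((h1.symm _ _).trans _ _ _ hcon).trans _ _ _ h2
    rcases sd_key v i with ⟨a, b⟩ | ⟨a, b⟩
    · rw [a, b]; exact h3.symm _ _
    · rw [a, b]; exact h3

/-- every dart is in one of the two pieces -/
private theorem sd_cover (hS : APD S) (v : V) (i : ZMod 4) (x : Dart V) :
    Piece S (sd_s v i) x (v, i) ∨ Piece S (sd_s v i) x (v, i + 2) := by
  have hconn : ∀ x y : Dart V, Piece S (ov V) x y := by
    intro x y
    have h1 : Nat.card (Quotient (Relation.EqvGen.setoid
      (fun x y => y = S.α x ∨ y = rot (ov V) x))) = 1 := hS.conn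
    have h2 := (Nat.card_eq_one_iff_unique.1 h1).1
    exact Quotient.exact (h2.elim (Quotient.mk _ x) (Quotient.mk _ y))
  have hall : ∀ j : ZMod 4, Piece S (sd_s v i) (v, j) (v, i) ∨
      Piece S (sd_s v i) (v, j) (v, i + 2) := by
    intro j
    rcases sd_four i j with rfl | rfl | rfl | rfl
    · exact Or.inl (Relation.EqvGen.refl _)
    · exact Or.inl ((sd_v1 S v i).symm _ _)
    · exact Or.inr (Relation.EqvGen.refl _)
    · exact Or.inr ((sd_v2 S v i).symm _ _)
  have step : ∀ x y : Dart V, Relation.EqvGen (fun x y => y = S.α x ∨ y = rot (ov V) x) x y →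
      ((Piece S (sd_s v i) x (v, i) ∨ Piece S (sd_s v i) x (v, i + 2)) ↔
        (Piece S (sd_s v i) y (v, i) ∨ Piece S (sd_s v i) y (v, i + 2))) := by
    intro x y hxy
    induction hxy with
    | rel x y h =>
      have key : Piece S (sd_s v i) x y ∨ (x.1 = v ∧ y.1 = v) := by
        rcases h with h | h
        · left; rw [h]; exact sd_alpha S _ x
        · by_cases hx : x.1 = v
          · right
            exact ⟨hx, by rw [h]; exact hx⟩
          · left
            have h2 : y = rot (sd_s v i) x := by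
              rw [h]
              obtain ⟨w, j⟩ := x
              rw [sd_rot_ne i j hx]
              rfl
            rw [h2]
            exact sd_rot S _ x
      rcases key with key | ⟨hx, hy⟩
      · constructor
        · rintro (h1 | h1)
          · exact Or.inl ((key.symm _ _).trans _ _ _ h1)
          · exact Or.inr ((key.symm _ _).trans _ _ _ h1)
        · rintro (h1 | h1)
          · exact Or.inl (key.trans _ _ _ h1)
          · exact Or.inr (key.trans _ _ _ h1)
      · obtain ⟨a, b⟩ := x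
        obtain ⟨c, d⟩ := y
        simp only at hx hy
        subst hx
        subst hy
        exact ⟨fun _ => hall _, fun _ => hall _⟩
    | refl x => exact Iff.rfl
    | symm x y _ ih => exact ih.symm
    | trans x y z _ _ ih1 ih2 => exact ih1.trans ih2
  exact (step (v, i) x (hconn _ _)).1 (Or.inl (Relation.EqvGen.refl _))

omit [Fintype V] in
/-- a loop is a piece -/
private theorem sd_loop (v : V) (i : ZMod 4) (hl : S.α (v, i) = (v, i + 1)) (x : Dart V)
    (hx : Piece S (sd_s v i) x (v, i)) : x.1 = v := by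
  have hl' : S.α (v, i + 1) = (v, i) := by rw [← hl, S.invol]
  have hr' : rot (sd_s v i) (v, i + 1) = (v, i) := by
    have h1 : ∀ i : ZMod 4, (mrg i).next (i + 1) = i := by decide
    change ((v, (update (ov V) v (mrg i) v).next (i + 1)) : Dart V) = _
    rw [update_self, h1]
  have step : ∀ x y : Dart V, Relation.EqvGen (fun x y => y = S.α x ∨ y = rot (sd_s v i) x) x y →
      ((x = (v, i) ∨ x = (v, i + 1)) ↔ (y = (v, i) ∨ y = (v, i + 1))) := by
    intro x y hxy
    induction hxy with
    | rel x y h =>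
      constructor
      · rintro (rfl | rfl)
        · rcases h with h | h
          · right; rw [h, hl]
          · right; rw [h, sd_rot_v]
        · rcases h with h | h
          · left; rw [h, hl']
          · left; rw [h, hr']
      · intro hy
        rcases h with h | h
        · have h2 : x = S.α y := by rw [h, S.invol]
          rcases hy with hy | hy
          · right; rw [h2, hy, hl]
          · left; rw [h2, hy, hl']
        · rcases hy with hy | hy
          · right
            apply (rot (sd_s v i)).injective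
            rw [← h, hr', hy]
          · left
            apply (rot (sd_s v i)).injective
            rw [← h, sd_rot_v, hy]
    | refl x => exact Iff.rfl
    | symm x y _ ih => exact ih.symm
    | trans x y z _ _ ih1 ih2 => exact ih1.trans ih2
  rcases (step x (v, i) hx).2 (Or.inl rfl) with h | h
  · rw [h]
  · rw [h]

private theorem sd_one (hS : APD S) (v : V) (i : ZMod 4) (h : Face S (v, i) (v, i + 2))
    (W : Finset V) (hW : ∀ w, w ∈ W ↔ w ≠ v ∧ Piece S (sd_s v i) (w, 0) (v, i)) :
    (S.α (v, i) = (v, i + 1) ∨ ∃ S₂, Side S v i W S₂) ∧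
      (S.α (v, i) = (v, i + 1) → W = ∅) := by
  refine ⟨?_, ?_⟩
  swap
  · intro hl
    rw [Finset.eq_empty_iff_forall_notMem]
    intro w hw
    obtain ⟨h1, h2⟩ := (hW w).1 hw
    exact h1 (sd_loop v i hl (w, 0) h2)
  by_cases hl : S.α (v, i) = (v, i + 1)
  · exact Or.inl hl
  right
  have hnot := sd_not hS v i h
  have hvW : v ∉ W := fun hv => ((hW v).1 hv).1 rfl
  -- darts over `W` are in the piece of `(v, i)`
  have hWp : ∀ x : Dart V, x.1 ∈ W → Piece S (sd_s v i) x (v, i) := by
    rintro ⟨w, j⟩ hw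
    obtain ⟨h1, h2⟩ := (hW w).1 hw
    exact ((sd_w S i h1 j).symm _ _).trans _ _ _ h2
  have hWp' : ∀ x : Dart V, x.1 ≠ v → Piece S (sd_s v i) x (v, i) → x.1 ∈ W := by
    rintro ⟨w, j⟩ hw hp
    exact (hW w).2 ⟨hw, (sd_w S i hw j).trans _ _ _ hp⟩
  -- darts at `v` in the piece
  have hvp : ∀ j : ZMod 4, Piece S (sd_s v i) (v, j) (v, i) → j = i ∨ j = i + 1 := by
    intro j hj
    rcases sd_four i j with rfl | rfl | rfl | rfl
    · exact Or.inl rfl
    · exact Or.inr rfl
    · exact absurd (hj.symm _ _) hnot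
    · exact absurd (((sd_v2 S v i).trans _ _ _ hj).symm _ _) hnot
  have honly : ∀ x : Dart V, x.1 ∈ W → (S.α x).1 = v → S.α x = (v, i) ∨ S.α x = (v, i + 1) := by
    intro x hx hxv
    have h1 : Piece S (sd_s v i) (S.α x) (v, i) := ((sd_alpha S _ x).symm _ _).trans _ _ _ (hWp x hx)
    have h2 : S.α x = (v, (S.α x).2) := Prod.ext hxv rfl
    rw [h2] at h1
    rcases hvp _ h1 with h3 | h3
    · left; rw [h2, h3]
    · right; rw [h2, h3]
  have hmem₁ : (S.α (v, i)).1 ∈ W := by
    have h1 : Piece S (sd_s v i) (S.α (v, i)) (v, i) := (sd_alpha S _ _).symm _ _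
    apply hWp' _ _ h1
    intro hv
    have h2 : S.α (v, i) = (v, (S.α (v, i)).2) := Prod.ext hv rfl
    have h1' := h1
    rw [h2] at h1'
    rcases hvp _ h1' with h3 | h3
    · exact S.noFix (v, i) (by rw [h2, h3])
    · exact hl (by rw [h2, h3])
  have hmem₂ : (S.α (v, i + 1)).1 ∈ W := by
    have h1 : Piece S (sd_s v i) (S.α (v, i + 1)) (v, i) :=
      ((sd_alpha S _ _).symm _ _).trans _ _ _ ((sd_v1 S v i).symm _ _)
    apply hWp' _ _ h1
    intro hv
    have h2 : S.α (v, i + 1) = (v, (S.α (v, i + 1)).2) := Prod.ext hv rfl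
    have h1' := h1
    rw [h2] at h1'
    rcases hvp _ h1' with h3 | h3
    · apply hl
      have h4 : S.α (v, i + 1) = (v, i) := by rw [h2, h3]
      rw [← h4, S.invol]
    · exact S.noFix (v, i + 1) (by rw [h2, h3])
  have hfar : ∀ x : Dart V, x.1 ∈ W → (S.α x).1 ≠ v → (S.α x).1 ∈ W := by
    intro x hx hxv
    exact hWp' _ hxv (((sd_alpha S _ x).symm _ _).trans _ _ _ (hWp x hx))
  -- the state
  let t : V → St := fun w => if w ∈ W then St.over1 else if w = v then mrg i else St.smA
  have ht1 : ∀ w ∈ W, t w = St.over1 := fun w hw => if_pos hw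
  have htv : t v = mrg i := by
    change (if v ∈ W then St.over1 else if v = v then mrg i else St.smA) = mrg i
    rw [if_neg hvW, if_pos rfl]
  have htX : ∀ w, w ∈ W ↔ (t w).isX = true := by
    intro w
    constructor
    · intro hw; rw [ht1 w hw]; rfl
    · intro hw
      by_contra hcon
      have h1 : t w = if w = v then mrg i else St.smA := if_neg hcon
      rw [h1] at hw
      split_ifs at hw
      · rw [sd_isX] at hw; exact absurd hw (by simp)
      · exact absurd hw (by simp [St.isX])
  have hpt : Planar S t := by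
    have hpl : Planar S (ov V) := hS.planar
    apply hpl.below
    intro w hw
    exact absurd hw (by simp [St.isX])
  obtain ⟨S₂, hS₂, hpl₂⟩ := sd_pure S t (fun w => w ∈ W) (funext fun w => propext (htX w)) ht1
  have hCr : ∀ x : Dart V, x.1 ∈ W → Cr t x.1 := fun x hx => (htX x.1).1 hx
  have hS₂far : ∀ x : Dart {w : V // w ∈ W}, (S.α (x.1.1, x.2)).1 ≠ v →
      ((S₂.α x).1.1, (S₂.α x).2) = S.α (x.1.1, x.2) := by
    intro x hx
    rw [hS₂ x]
    exact partner_of_mem (Cr t) S t (x.1.1, x.2) (hCr (x.1.1, x.2) x.1.2)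
      (hCr _ (hfar (x.1.1, x.2) x.1.2 hx))
  have hS₂arc : S₂.α (⟨(S.α (v, i)).1, hmem₁⟩, (S.α (v, i)).2) =
    (⟨(S.α (v, i + 1)).1, hmem₂⟩, (S.α (v, i + 1)).2) := by
    have h1 := hS₂ (⟨(S.α (v, i)).1, hmem₁⟩, (S.α (v, i)).2)
    have h2 : partner (Cr t) S t (S.α (v, i)) = S.α (v, i + 1) := by
      apply partner_eq (Cr t) S t _ _ (hCr _ hmem₁) (hCr _ hmem₂)
      · intro hcon
        have h3 := congrArg Prod.snd (S.α.injective hcon)
        have h4 : ∀ i : ZMod 4, i + 1 ≠ i := by decide
        exact h4 i h3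
      · have a1 : Relation.EqvGen (arcRel (Cr t) S t) (S.α (v, i)) (v, i) :=
          Relation.EqvGen.rel _ _ (Or.inl (S.invol _).symm)
        have a2 : Relation.EqvGen (arcRel (Cr t) S t) (v, i) (v, i + 1) := by
          refine Relation.EqvGen.rel _ _ (Or.inr ⟨?_, ?_⟩)
          · intro hc
            exact hvW ((htX v).2 hc)
          · change ((v, i + 1) : Dart V) = (v, (t v).mate i)
            rw [htv, sd_mate]
        have a3 : Relation.EqvGen (arcRel (Cr t) S t) (v, i + 1) (S.α (v, i + 1)) :=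
          Relation.EqvGen.rel _ _ (Or.inl rfl)
        exact (a1.trans _ _ _ a2).trans _ _ _ a3
    have h3 : ((S₂.α (⟨(S.α (v, i)).1, hmem₁⟩, (S.α (v, i)).2)).1.1,
        (S₂.α (⟨(S.α (v, i)).1, hmem₁⟩, (S.α (v, i)).2)).2) = S.α (v, i + 1) := h1.trans h2
    exact Prod.ext (Subtype.ext (congrArg Prod.fst h3)) (congrArg Prod.snd h3 :)
  have hS₂arc' : S₂.α (⟨(S.α (v, i + 1)).1, hmem₂⟩, (S.α (v, i + 1)).2) =
      (⟨(S.α (v, i)).1, hmem₁⟩, (S.α (v, i)).2) := by
    rw [← hS₂arc, S₂.invol]
  -- darts over `W` whose edge goes to `v`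
  have hnear : ∀ x : Dart {w : V // w ∈ W}, (S.α (x.1.1, x.2)).1 = v →
      x = (⟨(S.α (v, i)).1, hmem₁⟩, (S.α (v, i)).2) ∨
      x = (⟨(S.α (v, i + 1)).1, hmem₂⟩, (S.α (v, i + 1)).2) := by
    intro x hx
    rcases honly (x.1.1, x.2) x.1.2 hx with h1 | h1
    · left
      have h2 : ((x.1.1, x.2) : Dart V) = S.α (v, i) := by rw [← h1, S.invol]
      exact Prod.ext (Subtype.ext (congrArg Prod.fst h2)) (congrArg Prod.snd h2 :)
    · right
      have h2 : ((x.1.1, x.2) : Dart V) = S.α (v, i + 1) := by rw [← h1, S.invol]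
      exact Prod.ext (Subtype.ext (congrArg Prod.fst h2)) (congrArg Prod.snd h2 :)
  refine ⟨S₂, ⟨⟨?_, hpl₂ hpt, ?_⟩, hvW, hS₂far, hmem₁, hmem₂, hS₂arc, honly⟩⟩
  · -- alternating
    have hpar : ∀ i : ZMod 4, par (i + 1) ≠ par i := by decide
    have h5 := hS.alt (v, i)
    have h6 := hS.alt (v, i + 1)
    have h7 := hpar i
    have hbool : ∀ a b c d : Bool, a ≠ c → b ≠ d → d ≠ c → b ≠ a := by decide
    have h8 : par (S.α (v, i + 1)).2 ≠ par (S.α (v, i)).2 := hbool _ _ _ _ h5 h6 h7
    intro x
    by_cases hx : (S.α (x.1.1, x.2)).1 = v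
    · rcases hnear x hx with h1 | h1
      · rw [h1, hS₂arc]
        exact h8
      · rw [h1, hS₂arc']
        exact h8.symm
    · have h1 := hS₂far x hx
      have h2 : (S₂.α x).2 = (S.α (x.1.1, x.2)).2 := congrArg Prod.snd h1
      rw [h2]
      exact hS.alt (x.1.1, x.2)
  · -- connected
    let a : Dart {w : V // w ∈ W} := (⟨(S.α (v, i)).1, hmem₁⟩, (S.α (v, i)).2)
    have hnearR : ∀ x : Dart {w : V // w ∈ W}, (S.α (x.1.1, x.2)).1 = v →
        Piece S₂ (ov {w : V // w ∈ W}) x a := by
      intro x hx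
      rcases hnear x hx with h1 | h1
      · rw [h1]; exact Relation.EqvGen.refl _
      · have h2 := sd_alpha S₂ (ov {w : V // w ∈ W}) x
        have h3 : S₂.α x = a := by rw [h1, hS₂arc']
        rwa [h3] at h2
    have step : ∀ x y : Dart V,
        Relation.EqvGen (fun x y => y = S.α x ∨ y = rot (sd_s v i) x) x y →
        ((∀ hx : x.1 ∈ W, Piece S₂ (ov {w : V // w ∈ W}) (⟨x.1, hx⟩, x.2) a) ↔
          (∀ hy : y.1 ∈ W, Piece S₂ (ov {w : V // w ∈ W}) (⟨y.1, hy⟩, y.2) a)) := by
      intro x y hxy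
      induction hxy with
      | rel x y h =>
        rcases h with h | h
        · -- an edge
          have hone : ∀ x y : Dart V, y = S.α x →
              (∀ hx : x.1 ∈ W, Piece S₂ (ov {w : V // w ∈ W}) (⟨x.1, hx⟩, x.2) a) →
              (∀ hy : y.1 ∈ W, Piece S₂ (ov {w : V // w ∈ W}) (⟨y.1, hy⟩, y.2) a) := by
            intro x y h hx hy
            have hyx : S.α y = x := by rw [h, S.invol]
            by_cases hc : (S.α y).1 = v
            · exact hnearR (⟨y.1, hy⟩, y.2) hc
            · have hxW : x.1 ∈ W := by rw [← hyx]; exact hfar y hy hc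
              have h2 := hS₂far (⟨y.1, hy⟩, y.2) hc
              have h3 : S₂.α (⟨y.1, hy⟩, y.2) = (⟨x.1, hxW⟩, x.2) := by
                have h4 : ((S₂.α (⟨y.1, hy⟩, y.2)).1.1, (S₂.α (⟨y.1, hy⟩, y.2)).2) = x :=
                  h2.trans hyx
                exact Prod.ext (Subtype.ext (congrArg Prod.fst h4)) (congrArg Prod.snd h4 :)
              have h5 := sd_alpha S₂ (ov {w : V // w ∈ W}) (⟨y.1, hy⟩, y.2)
              rw [h3] at h5
              exact h5.trans _ _ _ (hx hxW)
          exact ⟨hone x y h, hone y x (by rw [h, S.invol])⟩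
        · -- rotation
          have hyx : y.1 = x.1 := by rw [h]; rfl
          by_cases hxW : x.1 ∈ W
          · have hxv : x.1 ≠ v := fun hv => hvW (hv ▸ hxW)
            have hyW : y.1 ∈ W := by rw [hyx]; exact hxW
            have h2 : y = (x.1, x.2 + 1) := by
              rw [h]
              exact sd_rot_ne i x.2 hxv
            have h3 : ((⟨y.1, hyW⟩, y.2) : Dart {w : V // w ∈ W}) =
                rot (ov {w : V // w ∈ W}) (⟨x.1, hxW⟩, x.2) := by
              subst h2
              rfl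
            have h4 := sd_rot S₂ (ov {w : V // w ∈ W}) (⟨x.1, hxW⟩, x.2)
            rw [← h3] at h4
            constructor
            · intro g _
              exact (h4.symm _ _).trans _ _ _ (g hxW)
            · intro g _
              exact h4.trans _ _ _ (g hyW)
          · have hyW : y.1 ∉ W := by rw [hyx]; exact hxW
            exact ⟨fun _ hy => absurd hy hyW, fun _ hx => absurd hx hxW⟩
      | refl x => exact Iff.rfl
      | symm x y _ ih => exact ih.symm
      | trans x y z _ _ ih1 ih2 => exact ih1.trans ih2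
    have hall : ∀ x : Dart {w : V // w ∈ W}, Piece S₂ (ov {w : V // w ∈ W}) x a := by
      intro x
      exact (step (x.1.1, x.2) (v, i) (hWp (x.1.1, x.2) x.1.2)).2
        (fun hv => absurd hv hvW) x.1.2
    unfold pieces classes
    rw [Nat.card_eq_one_iff_unique]
    refine ⟨⟨fun p q => ?_⟩, ⟨Quotient.mk _ a⟩⟩
    obtain ⟨x, rfl⟩ := Quotient.exists_rep p
    obtain ⟨y, rfl⟩ := Quotient.exists_rep q
    exact Quotient.sound ((hall x).trans _ _ _ ((hall y).symm _ _))

theorem exists_side (hS : APD S) (v : V) (i : ZMod 4) (h : Face S (v, i) (v, i + 2)) :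
    ∃ W W' : Finset V, v ∉ W ∧ v ∉ W' ∧ Disjoint W W' ∧ (∀ w, w ≠ v → w ∈ W ∨ w ∈ W') ∧
      (S.α (v, i) = (v, i + 1) ∨ ∃ S₂, Side S v i W S₂) ∧
      (S.α (v, i) = (v, i + 1) → W = ∅) ∧
      (S.α (v, i + 2) = (v, i + 3) ∨ ∃ S₂, Side S v (i + 2) W' S₂) ∧
      (S.α (v, i + 2) = (v, i + 3) → W' = ∅) := by
  classical
  have h22 : ∀ i : ZMod 4, i + 2 + 2 = i := by decide
  have h21 : ∀ i : ZMod 4, i + 2 + 1 = i + 3 := by decide
  have h' : Face S (v, i + 2) (v, i + 2 + 2) := by
    rw [h22]
    exact h.symm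
  have hs : sd_s v (i + 2) = sd_s v i := by
    unfold sd_s
    rw [sd_mrg2]
  obtain ⟨W, hW⟩ : ∃ W : Finset V, ∀ w, w ∈ W ↔ w ≠ v ∧ Piece S (sd_s v i) (w, 0) (v, i) :=
    ⟨Finset.univ.filter (fun w => w ≠ v ∧ Piece S (sd_s v i) (w, 0) (v, i)), fun w => by
      rw [Finset.mem_filter]
      exact ⟨fun h => h.2, fun h => ⟨Finset.mem_univ _, h⟩⟩⟩
  obtain ⟨W', hW'⟩ : ∃ W' : Finset V, ∀ w, w ∈ W' ↔
      w ≠ v ∧ Piece S (sd_s v (i + 2)) (w, 0) (v, i + 2) :=
    ⟨Finset.univ.filter (fun w => w ≠ v ∧ Piece S (sd_s v (i + 2)) (w, 0) (v, i + 2)), fun w => by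
      rw [Finset.mem_filter]
      exact ⟨fun h => h.2, fun h => ⟨Finset.mem_univ _, h⟩⟩⟩
  obtain ⟨a1, a2⟩ := sd_one hS v i h W hW
  obtain ⟨b1, b2⟩ := sd_one hS v (i + 2) h' W' hW'
  rw [h21] at b1 b2
  refine ⟨W, W', ?_, ?_, ?_, ?_, a1, a2, b1, b2⟩
  · exact fun hv => ((hW v).1 hv).1 rfl
  · exact fun hv => ((hW' v).1 hv).1 rfl
  · rw [Finset.disjoint_left]
    intro w hw hw'
    have h1 := ((hW w).1 hw).2
    have h2 := ((hW' w).1 hw').2
    rw [hs] at h2
    exact sd_not hS v i h ((h1.symm _ _).trans _ _ _ h2)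
  · intro w hw
    rcases sd_cover hS v i (w, 0) with h1 | h1
    · exact Or.inl ((hW w).2 ⟨hw, h1⟩)
    · exact Or.inr ((hW' w).2 ⟨hw, by rw [hs]; exact h1⟩)

end Pool.Agent.Helper65.LK
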