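import Pool.Agent.Helper65.LK.Defs

/-!
# Arcs, sweeps and skein functions: definitions

A *sweep* is a height function on the strands through the crossings such that every sublevel set
is bounded by at most two arcs; the diagram in which the higher strand is the upper one is a diagram
of an unlink.
-/

namespace Pool.Agent.Helper65.LK

open Function

variable {V : Type}

/-- The relation which generates the arcs outside the set of vertices `U` (the strands run straight
through the crossings which do not belong to `U`). -/
def arcRel (U : V → Prop) (S : Shadow V) (s : V → St) (x y : Dart V) : Prop :=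
  y = S.α x ∨ (¬ U x.1 ∧ y = tau s x)

/-- the set of the crossings -/
def Cr (s : V → St) (v : V) : Prop := (s v).isX = true

theorem Arc_eq (S : Shadow V) (s : V → St) : Arc S s = Relation.EqvGen (arcRel (Cr s) S s) := rfl

open Classical in
/-- the other end of the arc outside `U` which starts with the dart `x` -/
noncomputable def partner (U : V → Prop) (S : Shadow V) (s : V → St) (x : Dart V) : Dart V :=
  if h : ∃ y : Dart V, U y.1 ∧ y ≠ x ∧ Relation.EqvGen (arcRel U S s) x y then h.choose else x

/-- the number of closed arcs outside `U` -/
noncomputable def loops (U : V → Prop) (S : Shadow V) (s : V → St) : ℕ :=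
  Nat.card {q : Quotient (Relation.EqvGen.setoid (arcRel U S s)) //
    ∀ x : Dart V, Quotient.mk _ x = q → ¬ U x.1}

/-- the relation generated by `α` and `θ` -/
def gen (S : Shadow V) (θ : Dart V → Dart V) (x y : Dart V) : Prop := y = S.α x ∨ y = θ x

/-- the relation on the darts in `U` generated by the arcs outside `U` and `θ` -/
def genU (U : V → Prop) (S : Shadow V) (s : V → St) (θ : Dart V → Dart V)
    (x y : {x : Dart V // U x.1}) : Prop :=
  y.1 = partner U S s x.1 ∨ y.1 = θ x.1

/-- `t` arises from `s` by changing and smoothing crossings -/
def Below (t s : V → St) : Prop := ∀ v, (s v).isX = false → t v = s v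

/-- `t` arises from `s` by changing crossings -/
def SameShape (t s : V → St) : Prop := ∀ v, (t v).shape = (s v).shape

/-- A height function on the strands through the crossings; every sublevel set is bounded by at
most two arcs, and the components are separated by their heights. -/
structure Sweep [Fintype V] (S : Shadow V) (s : V → St) (h : Dart V → ℕ) : Prop where
  const : ∀ x, isC s x → h (tau s x) = h x
  inj : ∀ x y, isC s x → isC s y → h x = h y → y = x ∨ y = tau s x
  cut : ∀ k, {x : Dart V | isC s x ∧ h x ≤ k ∧ k < h (partner (Cr s) S s x)}.ncard ≤ 2
  sep : ∀ x y z, isC s x → isC s y → isC s z → h x < h y → h y < h z → Comp S s x z →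
    Comp S s x y

/-- the crossing at `v` such that the higher strand is the upper one -/
def pat (s : V → St) (h : Dart V → ℕ) (v : V) : St :=
  if (s v).isX = true then (if h (v, 0) < h (v, 1) then St.over1 else St.over0) else s v

/-- the two height functions order the components with crossings in the same way -/
def SameOrd (S : Shadow V) (s : V → St) (h h' : Dart V → ℕ) : Prop :=
  ∀ x y, isC s x → isC s y → ¬ Comp S s x y → (h x < h y ↔ h' x < h' y)

/-- every set `B` of arcs which meets every component with crossings contains the base arcs of a
sweep with the property `Ok`: along the other arcs the height changes by one -/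
def Nice [Fintype V] (S : Shadow V) (s : V → St) (Ok : (Dart V → ℕ) → Prop) : Prop :=
  ∀ B : Set (Dart V), (∀ x, isC s x → x ∈ B → partner (Cr s) S s x ∈ B) →
    (∀ x, isC s x → ∃ y ∈ B, isC s y ∧ Comp S s x y) →
    ∃ h, Sweep S s h ∧ Ok h ∧ ∀ x, isC s x → x ∉ B →
      (h (partner (Cr s) S s x) = h x + 1 ∨ h x = h (partner (Cr s) S s x) + 1)

variable {R : Type} [CommRing R]

/-- The skein relation at the vertex `v`. -/
def SkeinAt [DecidableEq V] (z : R) (F : (V → St) → R) (t : V → St) (v : V) : Prop :=
  F t + F (update t v (t v).sw) = z * (F (update t v St.smA) + F (update t v St.smB))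

/-- `F` satisfies the skein relation on the states below `s`, is normalised on all swept diagrams
with fewer crossings, and on the swept diagrams of the same shape as `s` with the property `Ok`. -/
structure IsSkein [Fintype V] [DecidableEq V] (z mu : R) (S : Shadow V) (s : V → St)
    (F : (V → St) → R) (Ok : (Dart V → ℕ) → Prop) : Prop where
  skein : ∀ t, Below t s → ∀ v, (t v).isX = true → SkeinAt z F t v
  low : ∀ t, Below t s → nX t < nX s → ∀ h, Sweep S t h → F (pat t h) = mu ^ (comps S t - 1)
  top : ∀ h, Sweep S s h → Ok h → F (pat s h) = mu ^ (comps S s - 1)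

/-- A bijection between the darts of the crossings of two diagrams which respects the rotation, the
arcs and the upper strands. -/
structure DMap {V' : Type} (S : Shadow V) (s : V → St) (S' : Shadow V') (s' : V' → St) where
  /-- the bijection -/
  φ : {x : Dart V // isC s x} ≃ {x : Dart V' // isC s' x}
  rot : ∀ x y : {x : Dart V // isC s x}, (y : Dart V) = sg x.1 → (φ y : Dart V') = sg (φ x).1
  arc : ∀ x y : {x : Dart V // isC s x}, Arc S s x.1 y.1 ↔ Arc S' s' (φ x).1 (φ y).1
  upper : ∀ x : {x : Dart V // isC s x}, (s x.1.1).upper x.1.2 = (s' (φ x).1.1).upper (φ x).1.2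

/-- An isomorphism of diagrams (the components without crossings are counted). -/
structure DIso {V' : Type} (S : Shadow V) (s : V → St) (S' : Shadow V') (s' : V' → St) extends
    DMap S s S' s' where
  comps : LK.comps S s = LK.comps S' s'

/-- conjugation of `α` by a permutation of the darts -/
def Shadow.conj (S : Shadow V) (π : Equiv.Perm (Dart V)) : Shadow V where
  α := π * S.α * π⁻¹
  invol x := by simp [S.invol]
  noFix x := by
    intro h
    apply S.noFix (π⁻¹ x)
    apply π.injective
    simpa using h

/-- the permutation of the darts which describes the move of a strand across the crossing of two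
other strands; `(u, i + 1)`, `(v, j + 1)`, `(w, k + 1)` are the darts of the triangle -/
def tri [DecidableEq V] (u : V) (i : ZMod 4) (v : V) (j : ZMod 4) (w : V) (k : ZMod 4) :
    Equiv.Perm (Dart V) :=
  Equiv.swap (u, i) (w, k + 3) * Equiv.swap (u, i + 2) (w, k + 1) *
    Equiv.swap (v, j) (u, i + 3) * Equiv.swap (v, j + 2) (u, i + 1) *
    Equiv.swap (w, k) (v, j + 3) * Equiv.swap (w, k + 2) (v, j + 1)

end Pool.Agent.Helper65.LK
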