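import Pool.Agent.Helper65.LK.Conway

/-!
# The Conway normal form diagrams and mirror images: definitions for the final statement
-/

namespace Pool.Agent.Helper65.LK

theorem planar_conwayDia (a : List ℕ) :
    Planar (wD (cw a true)) (wDS (cq a) (cw a true) St.smA) := planar_word _ _

/-- The Conway normal form diagram `C(a₁, ..., aₙ)`: start with two horizontal arcs (`n` odd) or two
vertical arcs (`n` even), add `aₙ` crossings on the right (`n` odd) or below (`n` even), ..., then
`a₂` crossings below and `a₁` crossings on the right, all such that the diagram is alternating, and
join the two upper ends and the two lower ends. -/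
def conwayDia (a : List ℕ) : Dia where
  V := WV (cw a true) ⊕ Unit
  S := wD (cw a true)
  s := wDS (cq a) (cw a true) St.smA
  planar := planar_conwayDia a

theorem planar_mirrorDia (D : Dia) : Planar D.S (fun v => (D.s v).sw) := (mir D).planar

/-- the mirror image: all crossings are changed -/
def mirrorDia (D : Dia) : Dia where
  V := D.V
  S := D.S
  s := fun v => (D.s v).sw
  planar := planar_mirrorDia D

theorem conwayDia_eq (a : List ℕ) : conwayDia a = conway a := rfl

theorem mirrorDia_eq (D : Dia) : mirrorDia D = mir D := rfl

end Pool.Agent.Helper65.LK
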