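import Pool.Agent.Helper65.LK.Flip
import Pool.Agent.Helper65.LK.Good
import Pool.Agent.Helper65.LK.Labels

/-!
# LK-23. Induction over planar pure diagrams

Proof: `exists_label` gives a labelling; strong induction on `∑ x, l x` with `exists_good`,
`planar_conj` and `label_conj`.
-/

namespace Pool.Agent.Helper65.LK

variable {V : Type} [Fintype V] [DecidableEq V]

theorem steinitz [Nonempty V] (P : Shadow V → Prop)
    (h1 : ∀ S, PlanarP S → Monogon S → P S)
    (h2 : ∀ S, PlanarP S → Bigon S → P S)
    (h3 : ∀ S (u v w : V) (i j k : ZMod 4), PlanarP S → TriP S u i v j w k →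
      PlanarP (S.conj (tri u i v j w k)) → P (S.conj (tri u i v j w k)) → P S)
    (S : Shadow V) (hp : PlanarP S) : P S := by
  have key : ∀ (N : ℕ) (S : Shadow V) (l : Dart V → ℕ), PlanarP S → Label S l →
      ∑ x, l x = N → P S := by
    intro N
    induction N using Nat.strong_induction_on with
    | _ N ih =>
      intro S l hp hl hN
      rcases exists_good S hp l hl with h | h | ⟨u, v, w, i, j, k, T, hg⟩
      · exact h1 S hp h
      · exact h2 S hp h
      · obtain ⟨l', hl', hlt⟩ := label_conj hp T hl hg
        have hp' := planar_conj hp T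
        exact h3 S u v w i j k hp T hp' (ih _ (hN ▸ hlt) _ l' hp' hl' rfl)
  obtain ⟨l, hl⟩ := exists_label S hp
  exact key _ S l hp hl rfl

end Pool.Agent.Helper65.LK
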