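import Pool.Agent.Helper65.LK.Compress

/-!
# LK-06. Existence of sweeps

Write `β = partner (Cr s) S s` and `τ = tau s` on the darts of the crossings: two involutions
without fixed points (`partner_spec`, `partner_partner`, `St.mate_ne`), and `P x = β (τ x)`, a
permutation of the finite set `X` of the darts of the crossings.  `Comp S s x y` for `x, y ∈ X` is
the orbit relation of the group generated by `β, τ` on `X` (`gen_iff` of LK-02 gives this, or direct:
extend the orbit relation to all darts along the arcs).  The orbit of `x` is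
`{P ^ j x} ∪ {τ (P ^ j x)}`, and these two sets are disjoint: `P ^ (2 l) x = τ x` gives the fixed
point `P ^ l x` of `τ`, and `P ^ (2 l + 1) x = τ x` gives a fixed point of `τ β τ`
(`τ P ^ k = P ^ (-k) τ`).

For every component `c` choose a dart `b_c ∈ B` of a crossing in `c`; let `m_c` be its period under
`P`, `x_j = P ^ j b_c`, `0 ≤ j < m_c`.  The strands `{x_j, τ x_j}` are distinct and cover `c`; the
arcs are `{τ x_j, x_(j+1)}` (`j < m_c - 1`) and the base arc `{τ x_(m_c - 1), x_0} ⊆ B`.  Put
`h x_j = h (τ x_j) = N * r(c) + j`, `N` larger than the number of darts.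
`const`, `inj` are clear; the lower ends of the arcs which cross the level `k` are `τ x_j` for
`k = N r(c) + j`, `j < m_c - 1`, and `x_0` for `N r(c) ≤ k < N r(c) + m_c - 1`, at most two in
all; `sep` holds since the heights of `c` lie in `[N r(c), N r(c) + N)` and `r` is injective on
components.  Along the arcs which are not base arcs the height changes by one.

`nice_sameOrd`: apply this to `r x =` the number of darts `y` of crossings with `h₀ y < h₀ x'` for
all darts `x'` of crossings on the component of `x` (by `sep` and `inj` the components are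
linearly ordered by `h₀`: for two components `c ≠ c'` either all heights of `c` are smaller than all
heights of `c'` or conversely, except that a component with a single strand may sit in no gap: if
`h₀ x < h₀ y < h₀ z`, `x, z ∈ c`, then `y ∈ c` by `sep`).  `r` is constant on components and
distinct on distinct components, and `r x < r y ↔ h₀ x < h₀ y` for `x, y` in different components.
-/

namespace Pool.Agent.Helper65.LK

section TwoInv

variable {T : Type} {b t : T → T}

/-- the composition of the two involutions -/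
private def bt (b t : T → T) (x : T) : T := b (t x)

private theorem bt_inj (hb : ∀ x, b (b x) = x) (ht : ∀ x, t (t x) = x) :
    Function.Injective (bt b t) := by
  intro x y h
  have h1 : b (b (t x)) = b (b (t y)) := congrArg b h
  rw [hb, hb] at h1
  rw [← ht x, h1, ht]

private theorem bt_t (hb : ∀ x, b (b x) = x) (ht : ∀ x, t (t x) = x) (x : T) :
    bt b t (t (bt b t x)) = t x := by
  unfold bt
  rw [ht, hb]

private theorem iter_ne (hb : ∀ x, b (b x) = x) (ht : ∀ x, t (t x) = x) (hbn : ∀ x, b x ≠ x)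
    (htn : ∀ x, t x ≠ x) (n : ℕ) : ∀ x, (bt b t)^[n] x ≠ t x := by
  induction n using Nat.strong_induction_on with
  | _ n ih =>
    intro x h
    rcases n with _ | _ | n
    · exact htn x h.symm
    · exact hbn (t x) h
    · rw [Function.iterate_succ_apply', Function.iterate_succ_apply, ← bt_t hb ht x] at h
      exact ih n (by omega) _ (bt_inj hb ht h)

private theorem iter_ne_iter (hb : ∀ x, b (b x) = x) (ht : ∀ x, t (t x) = x)
    (hbn : ∀ x, b x ≠ x) (htn : ∀ x, t x ≠ x) (i j : ℕ) (p : T) :
    (bt b t)^[i] p ≠ t ((bt b t)^[j] p) := by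
  have key : ∀ i j : ℕ, j ≤ i → (bt b t)^[i] p ≠ t ((bt b t)^[j] p) := by
    intro i j hij h
    obtain ⟨d, rfl⟩ : ∃ d, i = d + j := ⟨i - j, by omega⟩
    rw [Function.iterate_add_apply] at h
    exact iter_ne hb ht hbn htn d _ h
  intro h
  rcases le_total j i with hij | hij
  · exact key i j hij h
  · apply key j i hij
    rw [h, ht]

/-- the label `j` of a point `z` of the orbit of `p` -/
private def Lab (b t : T → T) (p z : T) (j : ℕ) : Prop :=
  j < Function.minimalPeriod (bt b t) p ∧ (z = (bt b t)^[j] p ∨ z = t ((bt b t)^[j] p))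

private theorem Lab.unique (hb : ∀ x, b (b x) = x) (ht : ∀ x, t (t x) = x) (hbn : ∀ x, b x ≠ x)
    (htn : ∀ x, t x ≠ x) {p z : T} {i j : ℕ} (hi : Lab b t p z i) (hj : Lab b t p z j) :
    i = j := by
  have key : (bt b t)^[i] p = (bt b t)^[j] p := by
    rcases hi.2 with h1 | h1 <;> rcases hj.2 with h2 | h2
    · rw [← h1, ← h2]
    · exact absurd (h1.symm.trans h2) (iter_ne_iter hb ht hbn htn i j p)
    · exact absurd (h2.symm.trans h1) (iter_ne_iter hb ht hbn htn j i p)
    · have h3 := h1.symm.trans h2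
      have h4 := congrArg t h3
      rwa [ht, ht] at h4
  exact (Function.iterate_eq_iterate_iff_of_lt_minimalPeriod hi.1 hj.1).mp key

variable [Finite T]

private theorem period_pos (hb : ∀ x, b (b x) = x) (ht : ∀ x, t (t x) = x) (p : T) :
    0 < Function.minimalPeriod (bt b t) p :=
  Function.minimalPeriod_pos_of_mem_periodicPts
    (Function.Injective.mem_periodicPts (bt_inj hb ht) p)

private theorem exists_lab (hb : ∀ x, b (b x) = x) (ht : ∀ x, t (t x) = x) (p : T) (k : ℕ)
    (z : T) (hz : z = (bt b t)^[k] p ∨ z = t ((bt b t)^[k] p)) : ∃ j, Lab b t p z j := by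
  refine ⟨k % Function.minimalPeriod (bt b t) p, Nat.mod_lt _ (period_pos hb ht p), ?_⟩
  rwa [Function.iterate_mod_minimalPeriod_eq]

private theorem orbit_lab (hb : ∀ x, b (b x) = x) (ht : ∀ x, t (t x) = x) (p : T) {x y : T}
    (h : Relation.EqvGen (fun x y => y = b x ∨ y = t x) x y) :
    (∃ j, Lab b t p x j) ↔ ∃ j, Lab b t p y j := by
  have key_t : ∀ x, (∃ j, Lab b t p x j) → ∃ j, Lab b t p (t x) j := by
    rintro x ⟨j, -, h | h⟩
    · exact exists_lab hb ht p j _ (Or.inr (by rw [h]))
    · exact exists_lab hb ht p j _ (Or.inl (by rw [h, ht]))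
  have key_b : ∀ x, (∃ j, Lab b t p x j) → ∃ j, Lab b t p (b x) j := by
    rintro x ⟨j, hj, h | h⟩
    · rcases j with _ | j
      · obtain ⟨m, hm⟩ : ∃ m, Function.minimalPeriod (bt b t) p = m + 1 :=
          ⟨Function.minimalPeriod (bt b t) p - 1, by omega⟩
        have h1 : (bt b t)^[m + 1] p = p := by
          rw [← hm]; exact Function.iterate_minimalPeriod
        refine exists_lab hb ht p m _ (Or.inr ?_)
        rw [Function.iterate_succ_apply'] at h1
        have h2 : x = bt b t ((bt b t)^[m] p) := by rw [h1]; exact h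
        rw [h2]
        exact hb _
      · refine exists_lab hb ht p j _ (Or.inr ?_)
        rw [h, Function.iterate_succ_apply']
        exact hb _
    · refine exists_lab hb ht p (j + 1) _ (Or.inl ?_)
      rw [h, Function.iterate_succ_apply']
      rfl
  induction h with
  | rel x y hxy =>
    rcases hxy with rfl | rfl
    · exact ⟨key_b x, fun h => by have := key_b _ h; rwa [hb] at this⟩
    · exact ⟨key_t x, fun h => by have := key_t _ h; rwa [ht] at this⟩
  | refl x => exact Iff.rfl
  | symm x y _ ih => exact ih.symm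
  | trans x y z _ _ ih1 ih2 => exact ih1.trans ih2

/-- the heights for two involutions without fixed points -/
private theorem core (hb : ∀ x, b (b x) = x) (ht : ∀ x, t (t x) = x) (hbn : ∀ x, b x ≠ x)
    (htn : ∀ x, t x ≠ x) (r : T → ℕ)
    (hr : ∀ x y, Relation.EqvGen (fun x y => y = b x ∨ y = t x) x y ↔ r x = r y) (B : Set T)
    (hB1 : ∀ x ∈ B, b x ∈ B) (hB2 : ∀ x, ∃ y ∈ B, r x = r y) :
    ∃ h : T → ℕ, (∀ x, h (t x) = h x) ∧ (∀ x y, h x = h y → y = x ∨ y = t x) ∧
      (∀ k, {x | h x ≤ k ∧ k < h (b x)}.ncard ≤ 2) ∧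
      (∀ x y z, h x < h y → h y < h z → r x = r z → r x = r y) ∧
      (∀ x y, r x < r y → h x < h y) ∧
      ∀ x, x ∉ B → h (b x) = h x + 1 ∨ h x = h (b x) + 1 := by
  classical
  rcases isEmpty_or_nonempty T with hT | hT
  · refine ⟨fun _ => 0, fun _ => rfl, fun x => isEmptyElim x, fun k => ?_, fun x => isEmptyElim x,
      fun x => isEmptyElim x, fun x => isEmptyElim x⟩
    simp
  have hex : ∀ n, ∃ y : T, (∃ x, r x = n) → y ∈ B ∧ r y = n := by
    intro n
    by_cases hn : ∃ x, r x = n
    · obtain ⟨x, hx⟩ := hn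
      obtain ⟨y, hy1, hy2⟩ := hB2 x
      exact ⟨y, fun _ => ⟨hy1, by rw [← hy2, hx]⟩⟩
    · exact ⟨hT.some, fun h => absurd h hn⟩
  choose g hg using hex
  have hgB : ∀ x, g (r x) ∈ B := fun x => (hg (r x) ⟨x, rfl⟩).1
  have hgr : ∀ x, r (g (r x)) = r x := fun x => (hg (r x) ⟨x, rfl⟩).2
  obtain ⟨N, hN⟩ := (Set.finite_range fun p => Function.minimalPeriod (bt b t) p).bddAbove
  have hN' : ∀ p, Function.minimalPeriod (bt b t) p ≤ N := fun p => hN ⟨p, rfl⟩
  have hlab : ∀ x, ∃ j, Lab b t (g (r x)) x j := by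
    intro x
    have h1 := (hr (g (r x)) x).mpr (hgr x)
    rw [← orbit_lab hb ht (g (r x)) h1]
    exact exists_lab hb ht _ 0 _ (Or.inl rfl)
  choose J hJ using hlab
  have hrt : ∀ x, r (t x) = r x := fun x =>
    ((hr x (t x)).mp (Relation.EqvGen.rel _ _ (Or.inr rfl))).symm
  have hrb : ∀ x, r (b x) = r x := fun x =>
    ((hr x (b x)).mp (Relation.EqvGen.rel _ _ (Or.inl rfl))).symm
  have hJeq : ∀ x p j, p = g (r x) → Lab b t p x j → J x = j := by
    rintro x p j rfl h
    exact (hJ x).unique hb ht hbn htn h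
  have hJN : ∀ x, J x < N := fun x => lt_of_lt_of_le (hJ x).1 (hN' _)
  have hNpos : 0 < N := lt_of_le_of_lt (Nat.zero_le _) (hJN hT.some)
  have hlt : ∀ x y, r x < r y → N * r x + J x < N * r y + J y := by
    intro x y hxy
    have h1 := Nat.mul_le_mul_left N (Nat.succ_le_of_lt hxy)
    rw [Nat.mul_succ] at h1
    have h2 := hJN x
    omega
  -- the four kinds of arcs
  have hstep : ∀ x, (x = g (r x) ∧ J x = 0) ∨ (b x = g (r x) ∧ J (b x) = 0) ∨
      (x = t ((bt b t)^[J x] (g (r x))) ∧ J (b x) = J x + 1) ∨ J x = J (b x) + 1 := by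
    intro x
    have hp := period_pos hb ht (g (r x))
    obtain ⟨h1, h2 | h2⟩ := hJ x
    · rcases hj : J x with _ | j
      · left
        rw [hj] at h2
        exact ⟨h2, rfl⟩
      · right; right; right
        rw [hj] at h1 h2
        have h3 : J (b x) = j := by
          refine hJeq (b x) (g (r x)) j (by rw [hrb]) ⟨by omega, Or.inr ?_⟩
          conv_lhs => rw [h2, Function.iterate_succ_apply']
          exact hb _
        rw [h3]
    · have h3 : b x = (bt b t)^[J x + 1] (g (r x)) := by
        conv_lhs => rw [h2]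
        rw [Function.iterate_succ_apply']
        rfl
      by_cases h4 : J x + 1 < Function.minimalPeriod (bt b t) (g (r x))
      · right; right; left
        exact ⟨h2, hJeq (b x) (g (r x)) _ (by rw [hrb]) ⟨h4, Or.inl h3⟩⟩
      · right; left
        have h5 : J x + 1 = Function.minimalPeriod (bt b t) (g (r x)) := by omega
        rw [h5, Function.iterate_minimalPeriod] at h3
        exact ⟨h3, hJeq (b x) (g (r x)) _ (by rw [hrb]) ⟨hp, Or.inl h3⟩⟩
  refine ⟨fun x => N * r x + J x, ?_, ?_, ?_, ?_, ?_, ?_⟩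
  · intro x
    have h1 : J (t x) = J x := by
      refine hJeq (t x) (g (r x)) _ (by rw [hrt]) ⟨(hJ x).1, ?_⟩
      rcases (hJ x).2 with h2 | h2
      · right
        rw [← h2]
      · left
        conv_lhs => rw [h2]
        rw [ht]
    simp only [hrt, h1]
  · intro x y hxy
    simp only at hxy
    have h1 : r x = r y := by
      rcases lt_trichotomy (r x) (r y) with h | h | h
      · have := hlt x y h; omega
      · exact h
      · have := hlt y x h; omega
    have h2 : J x = J y := by rw [h1] at hxy; omega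
    have hx := (hJ x).2
    have hy := (hJ y).2
    rw [← h1, ← h2] at hy
    rcases hx with hx | hx <;> rcases hy with hy | hy
    · left; rw [hx, ← hy]
    · right; rw [← hx] at hy; exact hy
    · right
      rw [← hy] at hx
      rw [hx, ht]
    · left; rw [hx, ← hy]
  · intro k
    have hsub : {x | N * r x + J x ≤ k ∧ k < N * r (b x) + J (b x)} ⊆
        {g (k / N), t ((bt b t)^[k % N] (g (k / N)))} := by
      rintro x ⟨h1, h2⟩
      rw [hrb] at h2
      have h3 : k / N = r x := by
        apply Nat.div_eq_of_lt_le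
        · rw [mul_comm]; omega
        · have := hJN (b x)
          rw [Nat.succ_mul, mul_comm (r x)]
          omega
      have h4 : N * (k / N) + k % N = k := Nat.div_add_mod k N
      rw [h3] at h4
      rw [h3]
      rcases hstep x with h | h | h | h
      · left; exact h.1
      · exfalso; omega
      · right
        have h5 : k % N = J x := by omega
        rw [h5]
        exact h.1
      · exfalso; omega
    calc _ ≤ ({g (k / N), t ((bt b t)^[k % N] (g (k / N)))} : Set T).ncard :=
          Set.ncard_le_ncard hsub (Set.toFinite _)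
      _ ≤ 2 := by
          refine (Set.ncard_insert_le _ _).trans ?_
          rw [Set.ncard_singleton]
  · intro x y z hxy hyz hxz
    simp only at hxy hyz
    rcases lt_trichotomy (r x) (r y) with h | h | h
    · have := hlt z y (hxz ▸ h)
      omega
    · exact h
    · have := hlt y x h
      omega
  · exact hlt
  · intro x hx
    simp only [hrb]
    rcases hstep x with h | h | h | h
    · exact absurd (h.1 ▸ hgB x) hx
    · exfalso
      apply hx
      have h1 := hB1 _ (hgB x)
      rw [← h.1, hb] at h1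
      exact h1
    · left; omega
    · right; omega

end TwoInv

variable {V : Type} [Fintype V]

omit [Fintype V] in
private theorem tau_tau' (s : V → St) (x : Dart V) : tau s (tau s x) = x := by
  change (x.1, (s x.1).mate ((s x.1).mate x.2)) = x
  rw [St.mate_mate]

omit [Fintype V] in
private theorem tau_ne' (s : V → St) (x : Dart V) : tau s x ≠ x := by
  intro h
  have h2 := congrArg Prod.snd h
  exact St.mate_ne (s x.1) x.2 h2

theorem exists_sweep_order (S : Shadow V) (s : V → St) (r : Dart V → ℕ)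
    (hr : ∀ x y, isC s x → isC s y → (Comp S s x y ↔ r x = r y)) (B : Set (Dart V))
    (hB1 : ∀ x, isC s x → x ∈ B → partner (Cr s) S s x ∈ B)
    (hB2 : ∀ x, isC s x → ∃ y ∈ B, isC s y ∧ Comp S s x y) :
    ∃ h, Sweep S s h ∧ (∀ x y, isC s x → isC s y → r x < r y → h x < h y) ∧
      ∀ x, isC s x → x ∉ B →
        (h (partner (Cr s) S s x) = h x + 1 ∨ h x = h (partner (Cr s) S s x) + 1) := by
  classical
  have hp : ∀ x : {x : Dart V // Cr s x.1}, Cr s (partner (Cr s) S s x.1).1 := fun x =>
    (partner_spec (Cr s) S s x.1 x.2).1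
  let b : {x : Dart V // Cr s x.1} → {x : Dart V // Cr s x.1} := fun x =>
    ⟨partner (Cr s) S s x.1, hp x⟩
  let t : {x : Dart V // Cr s x.1} → {x : Dart V // Cr s x.1} := fun x => ⟨tau s x.1, x.2⟩
  have hb : ∀ x, b (b x) = x := fun x => Subtype.ext (partner_partner (Cr s) S s x.1 x.2)
  have ht : ∀ x, t (t x) = x := fun x => Subtype.ext (tau_tau' s x.1)
  have hbn : ∀ x, b x ≠ x := fun x h =>
    (partner_spec (Cr s) S s x.1 x.2).2.1 (congrArg Subtype.val h)
  have htn : ∀ x, t x ≠ x := fun x h => tau_ne' s x.1 (congrArg Subtype.val h)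
  have hgen : (fun x y : {x : Dart V // Cr s x.1} => y = b x ∨ y = t x) =
      genU (Cr s) S s (tau s) := by
    funext x y
    exact propext (or_congr Subtype.ext_iff Subtype.ext_iff)
  have hcomp : ∀ x y : {x : Dart V // Cr s x.1},
      Relation.EqvGen (fun x y : {x : Dart V // Cr s x.1} => y = b x ∨ y = t x) x y ↔
        Comp S s x.1 y.1 := by
    intro x y
    rw [hgen]
    exact (gen_iff (Cr s) S s (tau s) (fun _ => rfl) (fun _ _ => rfl) x y).symm
  obtain ⟨h, h1, h2, h3, h4, h5, h6⟩ := core hb ht hbn htn (fun x => r x.1)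
    (fun x y => (hcomp x y).trans (hr x.1 y.1 x.2 y.2)) {x | x.1 ∈ B}
    (fun x hx => hB1 x.1 x.2 hx) (fun x => by
      obtain ⟨y, hy1, hy2, hy3⟩ := hB2 x.1 x.2
      exact ⟨⟨y, hy2⟩, hy1, (hr x.1 y x.2 hy2).mp hy3⟩)
  let H : Dart V → ℕ := fun x => if hx : isC s x then h ⟨x, hx⟩ else 0
  have hH : ∀ x (hx : isC s x), H x = h ⟨x, hx⟩ := fun x hx => dif_pos hx
  have hHb : ∀ x (hx : isC s x), H (partner (Cr s) S s x) = h (b ⟨x, hx⟩) := fun x hx =>
    hH _ (hp ⟨x, hx⟩)
  refine ⟨H, ⟨?_, ?_, ?_, ?_⟩, ?_, ?_⟩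
  · intro x hx
    rw [hH x hx, hH (tau s x) hx]
    exact h1 ⟨x, hx⟩
  · intro x y hx hy hxy
    rw [hH x hx, hH y hy] at hxy
    rcases h2 _ _ hxy with h7 | h7
    · exact Or.inl (congrArg Subtype.val h7)
    · exact Or.inr (congrArg Subtype.val h7)
  · intro k
    have hset : {x : Dart V | isC s x ∧ H x ≤ k ∧ k < H (partner (Cr s) S s x)} =
        Subtype.val '' {x : {x : Dart V // Cr s x.1} | h x ≤ k ∧ k < h (b x)} := by
      ext x
      constructor
      · rintro ⟨hx, h7, h8⟩
        rw [hH x hx] at h7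
        rw [hHb x hx] at h8
        exact ⟨⟨x, hx⟩, ⟨h7, h8⟩, rfl⟩
      · rintro ⟨⟨y, hy⟩, ⟨h7, h8⟩, rfl⟩
        refine ⟨hy, ?_, ?_⟩
        · rw [hH y hy]; exact h7
        · rw [hHb y hy]; exact h8
    rw [hset, Set.ncard_image_of_injective _ Subtype.val_injective]
    exact h3 k
  · intro x y z hx hy hz hxy hyz hxz
    rw [hH x hx, hH y hy] at hxy
    rw [hH y hy, hH z hz] at hyz
    exact (hr x y hx hy).mpr (h4 ⟨x, hx⟩ ⟨y, hy⟩ ⟨z, hz⟩ hxy hyz ((hr x z hx hz).mp hxz))
  · intro x y hx hy hxy
    rw [hH x hx, hH y hy]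
    exact h5 ⟨x, hx⟩ ⟨y, hy⟩ hxy
  · intro x hx hxB
    rw [hHb x hx, hH x hx]
    exact h6 ⟨x, hx⟩ hxB

omit [Fintype V] in
private theorem comp_tau (S : Shadow V) (s : V → St) (x : Dart V) : Comp S s x (tau s x) :=
  Relation.EqvGen.rel _ _ (Or.inr rfl)

private theorem h_ne {S : Shadow V} {s : V → St} {h₀ : Dart V → ℕ} (h : Sweep S s h₀)
    {x y : Dart V} (hx : isC s x) (hy : isC s y) (hxy : ¬ Comp S s x y) : h₀ x ≠ h₀ y := by
  intro h1
  rcases h.inj x y hx hy h1 with h2 | h2
  · exact hxy (h2 ▸ Relation.EqvGen.refl _)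
  · exact hxy (h2 ▸ comp_tau S s x)

private theorem sep_lt {S : Shadow V} {s : V → St} {h₀ : Dart V → ℕ} (h : Sweep S s h₀)
    {x y x' y' : Dart V} (hx : isC s x) (hy : isC s y) (hx' : isC s x') (hy' : isC s y')
    (hxy : ¬ Comp S s x y) (hlt : h₀ x < h₀ y) (hxx' : Comp S s x x') (hyy' : Comp S s y y') :
    h₀ x' < h₀ y' := by
  have h1 : h₀ x' < h₀ y := by
    by_contra hcon
    have h2 : h₀ x' ≠ h₀ y := h_ne h hx' hy fun h3 =>
      hxy (Relation.EqvGen.trans _ _ _ hxx' h3)
    exact hxy (h.sep x y x' hx hy hx' hlt (by omega) hxx')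
  by_contra hcon
  have h2 : h₀ x' ≠ h₀ y' := h_ne h hx' hy' fun h3 =>
    hxy (Relation.EqvGen.trans _ _ _ hxx' (Relation.EqvGen.trans _ _ _ h3
      (Relation.EqvGen.symm _ _ hyy')))
  have h3 := h.sep y' x' y hy' hx' hy (by omega) h1 (Relation.EqvGen.symm _ _ hyy')
  exact hxy (Relation.EqvGen.trans _ _ _ hxx' (Relation.EqvGen.symm _ _
    (Relation.EqvGen.trans _ _ _ hyy' h3)))

theorem nice_sameOrd {S : Shadow V} {s : V → St} {h₀ : Dart V → ℕ} (h : Sweep S s h₀) :
    Nice S s (SameOrd S s h₀) := by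
  classical
  intro B hB1 hB2
  let A : Dart V → Set (Dart V) := fun x =>
    {y | isC s y ∧ ∀ x', isC s x' → Comp S s x x' → h₀ y < h₀ x'}
  let r : Dart V → ℕ := fun x => (A x).ncard
  have hlt : ∀ x y, isC s x → isC s y → ¬ Comp S s x y → h₀ x < h₀ y → r x < r y := by
    intro x y hx hy hxy hlt
    apply Set.ncard_lt_ncard _ (Set.toFinite _)
    refine ⟨?_, ?_⟩
    · rintro z ⟨hz1, hz2⟩
      refine ⟨hz1, fun y' hy' hyy' => ?_⟩
      exact lt_trans (hz2 x hx (Relation.EqvGen.refl _))
        (sep_lt h hx hy hx hy' hxy hlt (Relation.EqvGen.refl _) hyy')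
    · intro hsub
      have h1 : x ∈ A y := ⟨hx, fun y' hy' hyy' =>
        sep_lt h hx hy hx hy' hxy hlt (Relation.EqvGen.refl _) hyy'⟩
      exact lt_irrefl _ ((hsub h1).2 x hx (Relation.EqvGen.refl _))
  have hr : ∀ x y, isC s x → isC s y → (Comp S s x y ↔ r x = r y) := by
    intro x y hx hy
    constructor
    · intro hxy
      have h1 : A x = A y := by
        ext z
        constructor
        · rintro ⟨hz1, hz2⟩
          exact ⟨hz1, fun x' hx' hyx' => hz2 x' hx' (Relation.EqvGen.trans _ _ _ hxy hyx')⟩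
        · rintro ⟨hz1, hz2⟩
          exact ⟨hz1, fun x' hx' hxx' => hz2 x' hx'
            (Relation.EqvGen.trans _ _ _ (Relation.EqvGen.symm _ _ hxy) hxx')⟩
      change (A x).ncard = (A y).ncard
      rw [h1]
    · intro heq
      by_contra hxy
      rcases lt_or_gt_of_ne (h_ne h hx hy hxy) with h1 | h1
      · exact absurd heq (hlt x y hx hy hxy h1).ne
      · exact absurd heq (hlt y x hy hx (fun h2 => hxy (Relation.EqvGen.symm _ _ h2)) h1).ne'
  obtain ⟨H, h1, h2, h3⟩ := exists_sweep_order S s r hr B hB1 hB2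
  refine ⟨H, h1, ?_, h3⟩
  intro x y hx hy hxy
  constructor
  · intro h4
    exact h2 x y hx hy (hlt x y hx hy hxy h4)
  · intro h4
    by_contra h5
    have h6 := h_ne h hx hy hxy
    have h7 := h2 y x hy hx (hlt y x hy hx (fun h8 => hxy (Relation.EqvGen.symm _ _ h8)) (by omega))
    omega

theorem nice_true (S : Shadow V) (s : V → St) : Nice S s (fun _ => True) := by
  classical
  intro B hB1 hB2
  let Q := Quotient (Relation.EqvGen.setoid fun x y : Dart V => y = S.α x ∨ y = tau s x)
  let e : Q ≃ Fin (Nat.card Q) := Finite.equivFin Q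
  let r : Dart V → ℕ := fun x => (e (Quotient.mk _ x)).val
  have hr : ∀ x y, isC s x → isC s y → (Comp S s x y ↔ r x = r y) := by
    intro x y _ _
    constructor
    · intro hxy
      change (e (Quotient.mk _ x)).val = (e (Quotient.mk _ y)).val
      have h1 : (Quotient.mk _ x : Q) = Quotient.mk _ y := Quotient.sound hxy
      rw [h1]
    · intro hxy
      have h1 := e.injective (Fin.ext hxy)
      exact Quotient.exact h1
  obtain ⟨H, h1, -, h3⟩ := exists_sweep_order S s r hr B hB1 hB2
  exact ⟨H, h1, trivial, h3⟩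

theorem exists_sweep (S : Shadow V) (s : V → St) : ∃ h, Sweep S s h := by
  obtain ⟨h, h1, -, -⟩ := nice_true S s Set.univ (fun _ _ _ => Set.mem_univ _)
    (fun x hx => ⟨x, Set.mem_univ _, hx, Relation.EqvGen.refl _⟩)
  exact ⟨h, h1⟩

theorem SameOrd.refl (S : Shadow V) (s : V → St) (h : Dart V → ℕ) : SameOrd S s h h :=
  fun _ _ _ _ _ => Iff.rfl

end Pool.Agent.Helper65.LK
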