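import Pool.Agent.Helper65.LK.Dia
import Pool.Agent.Helper65.LK.TIso

/-!
# LK-50. Isomorphisms of tangles with states, and glueing

`ArcT T s` are the arcs inside the tangle (generated by the inner edges and the strands through
the smoothed vertices).  A `TMap` respects the darts of the crossings, the arcs between them, the
arcs to the ports and between ports, and the number of closed arcs.

`TMap.glue`: in `glue T C` with the state `Sum.elim s c`: two darts are on the same arc iff they are connected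
by a chain of arcs of `T`, arcs of `C` and edges `port i - port (1 - i)`.  Replacing `T` by `T'` along `φ`
replaces a chain by a chain (every maximal piece of the chain in `T` is an arc between crossing darts and
ports of `T`).  Formally: define the equivalence relation on
`{crossing darts of T} ⊕ ZMod 4 ⊕ Dart W` generated by the arcs of `T` between them (`ArcT`), the steps of `C`
and the edges `i - C.port (1 - i)`, and show that it describes `Arc (glue T C)`; the same for `T'`.
`comps`: the components of `glue T C` are: closed arcs inside `T` (`loopsT`), and the classes of the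
relation on `{crossing darts of T} ⊕ ZMod 4 ⊕ Dart W` generated by the arcs of `T`, `tau s`, the steps `α, tau` of
`C` and the edges between the ports.  (Compare `gen_classes`.)

`TMap.app`: the arcs of `app T p`: the new vertices are connected with `T` only through the ports of `T`.
The argument is the same as for `glue`.
`TMap.symm`, `TMap.trans`, `TMap.refl`: clear.
-/

namespace Pool.Agent.Helper65.LK

open Function

variable {V V' V'' W : Type}

/-- the steps inside a tangle -/
def relT (T : Tangle V) (s : V → St) (x y : Dart V) : Prop :=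
  T.link x = Sum.inl y ∨ (¬ isC s x ∧ y = tau s x)

/-- the arcs inside a tangle -/
def ArcT (T : Tangle V) (s : V → St) : Dart V → Dart V → Prop := Relation.EqvGen (relT T s)

/-- the number of closed arcs inside a tangle -/
noncomputable def loopsT (T : Tangle V) (s : V → St) : ℕ :=
  Nat.card {q : Quotient (Relation.EqvGen.setoid (relT T s)) //
    (∀ x : Dart V, Quotient.mk _ x = q → ¬ isC s x) ∧ ∀ i, Quotient.mk _ (T.port i) ≠ q}

/-- an isomorphism of tangles with states -/
structure TMap (T : Tangle V) (s : V → St) (T' : Tangle V') (s' : V' → St) where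
  /-- the bijection of the darts of the crossings -/
  φ : {x : Dart V // isC s x} ≃ {x : Dart V' // isC s' x}
  rot : ∀ x y : {x : Dart V // isC s x}, (y : Dart V) = sg x.1 → (φ y : Dart V') = sg (φ x).1
  arc : ∀ x y : {x : Dart V // isC s x}, ArcT T s x.1 y.1 ↔ ArcT T' s' (φ x).1 (φ y).1
  port : ∀ (x : {x : Dart V // isC s x}) (i : ZMod 4),
    ArcT T s x.1 (T.port i) ↔ ArcT T' s' (φ x).1 (T'.port i)
  pp : ∀ i j : ZMod 4, ArcT T s (T.port i) (T.port j) ↔ ArcT T' s' (T'.port i) (T'.port j)
  upper : ∀ x : {x : Dart V // isC s x}, (s x.1.1).upper x.1.2 = (s' (φ x).1.1).upper (φ x).1.2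
  loops : loopsT T s = loopsT T' s'

/-- two tangles with states are isomorphic -/
def TM (T : Tangle V) (s : V → St) (T' : Tangle V') (s' : V' → St) : Prop :=
  Nonempty (TMap T s T' s')

/-! ### Abstract glueing of relations -/

section Abstract

variable {X Y I Z : Type}

theorem tm_mk {r : X → X → Prop} {a b : X} :
    (Quotient.mk (Relation.EqvGen.setoid r) a = Quotient.mk (Relation.EqvGen.setoid r) b) ↔
      Relation.EqvGen r a b :=
  ⟨fun h => Quotient.exact h, fun h => Quotient.sound h⟩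

theorem tm_mono {r r' : X → X → Prop} (h : ∀ x y, r x y → Relation.EqvGen r' x y) {x y : X}
    (hxy : Relation.EqvGen r x y) : Relation.EqvGen r' x y := by
  induction hxy with
  | rel a b hab => exact h a b hab
  | refl a => exact Relation.EqvGen.refl a
  | symm a b _ ih => exact ih.symm
  | trans a b c _ _ ih1 ih2 => exact ih1.trans _ _ _ ih2

theorem tm_map {r : X → X → Prop} {R : Z → Z → Prop} (f : X → Z)
    (h : ∀ x y, r x y → Relation.EqvGen R (f x) (f y)) {x y : X}
    (hxy : Relation.EqvGen r x y) : Relation.EqvGen R (f x) (f y) := by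
  induction hxy with
  | rel a b hab => exact h a b hab
  | refl a => exact Relation.EqvGen.refl _
  | symm a b _ ih => exact ih.symm
  | trans a b c _ _ ih1 ih2 => exact ih1.trans _ _ _ ih2

theorem tm_equiv {r : X → X → Prop} {R : Z → Z → Prop} (d : X ≃ Z)
    (h : ∀ x y, R (d x) (d y) ↔ r x y) (x y : X) :
    Relation.EqvGen R (d x) (d y) ↔ Relation.EqvGen r x y := by
  constructor
  · intro hxy
    have := tm_map (R := r) d.symm (fun a b hab => by
      apply Relation.EqvGen.rel
      rw [← h, d.apply_symm_apply, d.apply_symm_apply]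
      exact hab) hxy
    simpa using this
  · exact tm_map d (fun a b hab => Relation.EqvGen.rel _ _ ((h a b).mpr hab))

/-- the number of classes which avoid a set -/
noncomputable def tmav (r : X → X → Prop) (B : Set X) : ℕ :=
  Nat.card {q : Quotient (Relation.EqvGen.setoid r) // ∀ b ∈ B, Quotient.mk _ b ≠ q}

theorem tmav_equiv {r : X → X → Prop} {R : Z → Z → Prop} (d : X ≃ Z)
    (h : ∀ x y, R (d x) (d y) ↔ r x y) (B : Set X) : tmav R (d '' B) = tmav r B := by
  have key := tm_equiv d h
  let E : Quotient (Relation.EqvGen.setoid r) ≃ Quotient (Relation.EqvGen.setoid R) :=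
    Quotient.congr d (fun a b => (key a b).symm)
  have hE : ∀ x, E (Quotient.mk _ x) = Quotient.mk _ (d x) := fun x => rfl
  unfold tmav
  symm
  apply Nat.card_congr
  refine E.subtypeEquiv ?_
  intro q
  constructor
  · rintro hq _ ⟨b, hb, rfl⟩ hbq
    apply hq b hb
    apply E.injective
    rw [hE, hbq]
  · intro hq b hb hbq
    apply hq (d b) ⟨b, hb, rfl⟩
    rw [← hE, hbq]

/-- glued relation -/
def tmG (r : X → X → Prop) (e : I → X) (K : I ⊕ Y → I ⊕ Y → Prop) (z z' : X ⊕ Y) : Prop :=
  (∃ x x', z = Sum.inl x ∧ z' = Sum.inl x' ∧ r x x') ∨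
    ∃ a b, z = Sum.map e id a ∧ z' = Sum.map e id b ∧ K a b

/-- relation between the marked points -/
def tmM (m : I → I → Prop) (K : I ⊕ Y → I ⊕ Y → Prop) (a b : I ⊕ Y) : Prop :=
  (∃ i j, a = Sum.inl i ∧ b = Sum.inl j ∧ m i j) ∨ K a b

/-- the relation between the marked points defined by `r` -/
def tmR (r : X → X → Prop) (e : I → X) (K : I ⊕ Y → I ⊕ Y → Prop) : I ⊕ Y → I ⊕ Y → Prop :=
  tmM (fun i j => Relation.EqvGen r (e i) (e j)) K

variable (r : X → X → Prop) (e : I → X) (K : I ⊕ Y → I ⊕ Y → Prop)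

open Classical in
/-- the class of a point -/
noncomputable def tmg (z : X ⊕ Y) :
    Quotient (Relation.EqvGen.setoid (tmR r e K)) ⊕ Quotient (Relation.EqvGen.setoid r) :=
  match z with
  | Sum.inl x => if h : ∃ i, Relation.EqvGen r x (e i) then
      Sum.inl (Quotient.mk _ (Sum.inl h.choose)) else Sum.inr (Quotient.mk _ x)
  | Sum.inr y => Sum.inl (Quotient.mk _ (Sum.inr y))

theorem tmg_of {x : X} {i : I} (h : Relation.EqvGen r x (e i)) :
    tmg r e K (Sum.inl x) = Sum.inl (Quotient.mk _ (Sum.inl i)) := by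
  have hex : ∃ i, Relation.EqvGen r x (e i) := ⟨i, h⟩
  unfold tmg
  simp only [dif_pos hex]
  congr 1
  rw [tm_mk]
  apply Relation.EqvGen.rel
  exact Or.inl ⟨_, _, rfl, rfl, hex.choose_spec.symm.trans _ _ _ h⟩

theorem tmg_not {x : X} (h : ¬ ∃ i, Relation.EqvGen r x (e i)) :
    tmg r e K (Sum.inl x) = Sum.inr (Quotient.mk _ x) := by
  unfold tmg
  simp only [dif_neg h]

theorem tmg_map (a : I ⊕ Y) : tmg r e K (Sum.map e id a) = Sum.inl (Quotient.mk _ a) := by
  rcases a with i | y
  · exact tmg_of r e K (Relation.EqvGen.refl _)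
  · rfl

theorem tmg_step {z z' : X ⊕ Y} (h : tmG r e K z z') : tmg r e K z = tmg r e K z' := by
  rcases h with ⟨x, x', rfl, rfl, h⟩ | ⟨a, b, rfl, rfl, h⟩
  · by_cases hx : ∃ i, Relation.EqvGen r x (e i)
    · obtain ⟨i, hi⟩ := hx
      rw [tmg_of r e K hi, tmg_of r e K ((Relation.EqvGen.rel _ _ h).symm.trans _ _ _ hi)]
    · have hx' : ¬ ∃ i, Relation.EqvGen r x' (e i) := by
        rintro ⟨i, hi⟩
        exact hx ⟨i, (Relation.EqvGen.rel _ _ h).trans _ _ _ hi⟩
      rw [tmg_not r e K hx, tmg_not r e K hx']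
      congr 1
      rw [tm_mk]
      exact Relation.EqvGen.rel _ _ h
  · rw [tmg_map, tmg_map]
    congr 1
    rw [tm_mk]
    exact Relation.EqvGen.rel _ _ (Or.inr h)

theorem tmg_eqv {z z' : X ⊕ Y} (h : Relation.EqvGen (tmG r e K) z z') :
    tmg r e K z = tmg r e K z' := by
  induction h with
  | rel a b hab => exact tmg_step r e K hab
  | refl a => rfl
  | symm a b _ ih => exact ih.symm
  | trans a b c _ _ ih1 ih2 => exact ih1.trans ih2

theorem tmG_inl {x x' : X} (h : Relation.EqvGen r x x') :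
    Relation.EqvGen (tmG r e K) (Sum.inl x) (Sum.inl x') :=
  tm_map Sum.inl (fun a b hab => Relation.EqvGen.rel _ _ (Or.inl ⟨a, b, rfl, rfl, hab⟩)) h

theorem tmG_of {a b : I ⊕ Y} (h : Relation.EqvGen (tmR r e K) a b) :
    Relation.EqvGen (tmG r e K) (Sum.map e id a) (Sum.map e id b) := by
  refine tm_map _ ?_ h
  rintro a b (⟨i, j, rfl, rfl, h⟩ | h)
  · exact tmG_inl r e K h
  · exact Relation.EqvGen.rel _ _ (Or.inr ⟨a, b, rfl, rfl, h⟩)

theorem tmG_iff (a b : I ⊕ Y) :
    Relation.EqvGen (tmG r e K) (Sum.map e id a) (Sum.map e id b) ↔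
      Relation.EqvGen (tmR r e K) a b := by
  refine ⟨fun h => ?_, tmG_of r e K⟩
  have := tmg_eqv r e K h
  rw [tmg_map, tmg_map, Sum.inl.injEq, tm_mk] at this
  exact this

/-- every point is equivalent to a marked point or not connected with the marked points -/
theorem tm_cases (z : X ⊕ Y) : (∃ a, Relation.EqvGen (tmG r e K) z (Sum.map e id a)) ∨
    ∃ x, z = Sum.inl x ∧ ¬ ∃ i, Relation.EqvGen r x (e i) := by
  rcases z with x | y
  · by_cases hx : ∃ i, Relation.EqvGen r x (e i)
    · obtain ⟨i, hi⟩ := hx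
      exact Or.inl ⟨Sum.inl i, tmG_inl r e K hi⟩
    · exact Or.inr ⟨x, rfl, hx⟩
  · exact Or.inl ⟨Sum.inr y, Relation.EqvGen.refl _⟩

theorem tmg_inj {z z' : X ⊕ Y} (h : tmg r e K z = tmg r e K z') :
    Relation.EqvGen (tmG r e K) z z' := by
  rcases tm_cases r e K z with ⟨a, ha⟩ | ⟨x, rfl, hx⟩ <;>
    rcases tm_cases r e K z' with ⟨b, hb⟩ | ⟨x', rfl, hx'⟩
  · rw [tmg_eqv r e K ha, tmg_eqv r e K hb, tmg_map, tmg_map, Sum.inl.injEq, tm_mk] at h
    exact (ha.trans _ _ _ (tmG_of r e K h)).trans _ _ _ hb.symm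
  · rw [tmg_eqv r e K ha, tmg_map, tmg_not r e K hx'] at h
    cases h
  · rw [tmg_eqv r e K hb, tmg_map, tmg_not r e K hx] at h
    cases h
  · rw [tmg_not r e K hx, tmg_not r e K hx', Sum.inr.injEq, tm_mk] at h
    exact tmG_inl r e K h

theorem tmav_G [Finite X] [Finite Y] [Finite I] (B : Set (I ⊕ Y)) :
    tmav (tmG r e K) (Sum.map e id '' B) = tmav (tmR r e K) B + tmav r (Set.range e) := by
  let P : Quotient (Relation.EqvGen.setoid (tmR r e K)) ⊕
      Quotient (Relation.EqvGen.setoid r) → Prop := fun t => match t with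
    | Sum.inl Q => ∀ a ∈ B, Quotient.mk _ a ≠ Q
    | Sum.inr q => ∀ x ∈ Set.range e, Quotient.mk _ x ≠ q
  let L : Quotient (Relation.EqvGen.setoid (tmG r e K)) →
      Quotient (Relation.EqvGen.setoid (tmR r e K)) ⊕ Quotient (Relation.EqvGen.setoid r) :=
    Quotient.lift (tmg r e K) (fun a b h => tmg_eqv r e K h)
  have hL : ∀ z, L (Quotient.mk _ z) = tmg r e K z := fun z => rfl
  have hLinj : Function.Injective L := by
    intro Q Q'
    induction Q using Quotient.inductionOn with
    | h z =>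
      induction Q' using Quotient.inductionOn with
      | h z' =>
        intro h
        rw [hL, hL] at h
        rw [tm_mk]
        exact tmg_inj r e K h
  have hLmap : ∀ a, L (Quotient.mk _ (Sum.map e id a)) = Sum.inl (Quotient.mk _ a) := fun a => by
    rw [hL, tmg_map]
  have hP : ∀ Q, (∀ b ∈ Sum.map e id '' B, Quotient.mk _ b ≠ Q) ↔
      (P (L Q)) := by
    intro Q
    induction Q using Quotient.inductionOn with
    | h z =>
      rcases tm_cases r e K z with ⟨a, ha⟩ | ⟨x, rfl, hx⟩
      · rw [tm_mk.mpr ha, hLmap]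
        constructor
        · intro h b hb hba
          apply h _ ⟨b, hb, rfl⟩
          rw [tm_mk, tmG_iff, ← tm_mk]
          exact hba
        · rintro h _ ⟨b, hb, rfl⟩ hba
          apply h b hb
          rw [tm_mk, tmG_iff, ← tm_mk] at hba
          exact hba
      · constructor
        · rintro _
          rw [hL, tmg_not r e K hx]
          rintro _ ⟨i, rfl⟩ h
          rw [tm_mk] at h
          exact hx ⟨i, h.symm⟩
        · rintro _ _ ⟨b, hb, rfl⟩ h
          rw [tm_mk] at h
          have := tmg_eqv r e K h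
          rw [tmg_map, tmg_not r e K hx] at this
          cases this
  have hsurj : ∀ t, P t → ∃ Q, L Q = t := by
    rintro (Q | q) ht
    · induction Q using Quotient.inductionOn with
      | h a => exact ⟨_, hLmap a⟩
    · induction q using Quotient.inductionOn with
      | h x =>
        refine ⟨Quotient.mk _ (Sum.inl x), ?_⟩
        rw [hL, tmg_not r e K]
        rintro ⟨i, hi⟩
        exact ht (e i) ⟨i, rfl⟩ (tm_mk.mpr hi.symm)
  have h1 : Nat.card {Q : Quotient (Relation.EqvGen.setoid (tmG r e K)) //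
      ∀ b ∈ Sum.map e id '' B, Quotient.mk _ b ≠ Q} = Nat.card {t // P t} := by
    apply Nat.card_congr
    refine Equiv.ofBijective (fun Q => ⟨L Q.1, (hP Q.1).mp Q.2⟩) ⟨?_, ?_⟩
    · intro Q Q' h
      exact Subtype.ext (hLinj (congrArg Subtype.val h))
    · rintro ⟨t, ht⟩
      obtain ⟨Q, hQ⟩ := hsurj t ht
      exact ⟨⟨Q, (hP Q).mpr (by rw [hQ]; exact ht)⟩, Subtype.ext hQ⟩
  unfold tmav
  rw [h1, Nat.card_congr (Equiv.subtypeSum (p := P)), Nat.card_sum]

end Abstract

variable {T : Tangle V} {s : V → St} {T' : Tangle V'} {s' : V' → St} {T'' : Tangle V''}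
  {s'' : V'' → St}

/-! ### Glueing of tangles -/

section Concrete

variable {J Z Z' : Type}

/-- the marked points of a tangle: the darts of the crossings and the ports -/
def tme (T : Tangle V) (s : V → St) (ψ : J ≃ {x : Dart V // isC s x}) : J ⊕ ZMod 4 → Dart V :=
  Sum.elim (fun j => (ψ j).1) T.port

/-- the links of the glued system -/
def tmL (T : Tangle V) (pl : ZMod 4 → Dart W ⊕ ZMod 4)
    (cl : Dart W → Dart W ⊕ (ZMod 4 ⊕ ZMod 4)) :
    Dart V ⊕ Dart W → (Dart V ⊕ Dart W) ⊕ ZMod 4
  | Sum.inl x => match T.link x with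
    | Sum.inl y => Sum.inl (Sum.inl y)
    | Sum.inr i => match pl i with
      | Sum.inl y => Sum.inl (Sum.inr y)
      | Sum.inr k => Sum.inr k
  | Sum.inr y => match cl y with
    | Sum.inl y' => Sum.inl (Sum.inr y')
    | Sum.inr (Sum.inl i) => Sum.inl (Sum.inl (T.port i))
    | Sum.inr (Sum.inr k) => Sum.inr k

/-- the connections outside the tangle -/
def tmK (c : W → St) (pl : ZMod 4 → Dart W ⊕ ZMod 4)
    (cl : Dart W → Dart W ⊕ (ZMod 4 ⊕ ZMod 4)) (full : Prop) (κ : J → J → Prop) :
    (J ⊕ ZMod 4) ⊕ Dart W → (J ⊕ ZMod 4) ⊕ Dart W → Prop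
  | Sum.inl (Sum.inl j), Sum.inl (Sum.inl j') => κ j j'
  | Sum.inl (Sum.inr i), Sum.inr y => pl i = Sum.inl y
  | Sum.inr y, Sum.inl (Sum.inr i) => cl y = Sum.inr (Sum.inl i)
  | Sum.inr y, Sum.inr y' => cl y = Sum.inl y' ∨ ((full ∨ ¬ isC c y) ∧ y' = tau c y)
  | _, _ => False

/-- the steps in a system of links -/
def stepL (L : Dart Z → Dart Z ⊕ ZMod 4) (u : Z → St) (full : Prop) (z z' : Dart Z) : Prop :=
  L z = Sum.inl z' ∨ ((full ∨ ¬ isC u z) ∧ z' = tau u z)

/-- the relation on the sum of the darts -/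
def tmC (T : Tangle V) (s : V → St) (c : W → St) (pl : ZMod 4 → Dart W ⊕ ZMod 4)
    (cl : Dart W → Dart W ⊕ (ZMod 4 ⊕ ZMod 4)) (full : Prop) (z z' : Dart V ⊕ Dart W) : Prop :=
  tmL T pl cl z = Sum.inl z' ∨
    ((full ∨ ¬ Sum.elim (isC s) (isC c) z) ∧ z' = Sum.map (tau s) (tau c) z)

/-- the strands through the crossings of the tangle -/
def tmκ (s : V → St) (full : Prop) (ψ : J ≃ {x : Dart V // isC s x}) (j j' : J) : Prop :=
  full ∧ (ψ j').1 = tau s (ψ j).1

theorem tmC_iff (T : Tangle V) (s : V → St) (c : W → St) (pl : ZMod 4 → Dart W ⊕ ZMod 4)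
    (cl : Dart W → Dart W ⊕ (ZMod 4 ⊕ ZMod 4)) (full : Prop)
    (ψ : J ≃ {x : Dart V // isC s x}) (z z' : Dart V ⊕ Dart W) :
    tmC T s c pl cl full z z' ↔
      tmG (relT T s) (tme T s ψ) (tmK c pl cl full (tmκ s full ψ)) z z' := by
  constructor
  · rintro (h | ⟨h, h'⟩)
    · rcases z with x | y
      · cases hT : T.link x with
        | inl x' =>
          simp only [tmL, hT, Sum.inl.injEq] at h
          exact Or.inl ⟨x, x', rfl, h.symm, Or.inl hT⟩
        | inr i =>
          cases hp : pl i with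
          | inl y =>
            simp only [tmL, hT, hp, Sum.inl.injEq] at h
            refine Or.inr ⟨Sum.inl (Sum.inr i), Sum.inr y, ?_, h.symm, hp⟩
            simp only [Sum.map_inl, tme, Sum.elim_inr, T.port_link x i hT]
          | inr k =>
            simp [tmL, hT, hp] at h
      · cases hc : cl y with
        | inl y' =>
          simp only [tmL, hc, Sum.inl.injEq] at h
          exact Or.inr ⟨Sum.inr y, Sum.inr y', rfl, h.symm, Or.inl hc⟩
        | inr t =>
          cases t with
          | inl i =>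
            simp only [tmL, hc, Sum.inl.injEq] at h
            exact Or.inr ⟨Sum.inr y, Sum.inl (Sum.inr i), rfl, h.symm, hc⟩
          | inr k => simp [tmL, hc] at h
    · rcases z with x | y
      · by_cases hx : isC s x
        · have hf : full := by
            rcases h with h | h
            · exact h
            · exact absurd hx h
          have hx' : isC s (tau s x) := hx
          refine Or.inr ⟨Sum.inl (Sum.inl (ψ.symm ⟨x, hx⟩)),
            Sum.inl (Sum.inl (ψ.symm ⟨tau s x, hx'⟩)), ?_, ?_, ?_⟩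
          · simp [tme]
          · simp [tme, h']
          · refine ⟨hf, ?_⟩
            simp
        · exact Or.inl ⟨x, tau s x, rfl, h', Or.inr ⟨hx, rfl⟩⟩
      · exact Or.inr ⟨Sum.inr y, Sum.inr (tau c y), rfl, h', Or.inr ⟨h, rfl⟩⟩
  · rintro (⟨x, x', rfl, rfl, h⟩ | ⟨a, b, rfl, rfl, h⟩)
    · rcases h with h | ⟨h, rfl⟩
      · exact Or.inl (by simp [tmL, h])
      · exact Or.inr ⟨Or.inr h, rfl⟩
    · rcases a with (j | i) | y
      · rcases b with (j' | i') | y'
        · obtain ⟨hf, h⟩ := h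
          refine Or.inr ⟨Or.inl hf, ?_⟩
          simp only [Sum.map_inl, tme, Sum.elim_inl]
          rw [h]
        · exact h.elim
        · exact h.elim
      · rcases b with (j' | i') | y'
        · exact h.elim
        · exact h.elim
        · have h1 : pl i = Sum.inl y' := h
          refine Or.inl ?_
          simp only [Sum.map_inl, tme, Sum.elim_inr, tmL, T.link_port, h1, Sum.map_inr, id]
      · rcases b with (j' | i') | y'
        · exact h.elim
        · have h1 : cl y = Sum.inr (Sum.inl i') := h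
          refine Or.inl ?_
          simp only [Sum.map_inl, tme, Sum.elim_inr, tmL, h1, Sum.map_inr, id]
        · rcases h with h | h
          · refine Or.inl ?_
            simp only [tmL, h, Sum.map_inr, id]
          · exact Or.inr ⟨h.1, by rw [Sum.map_inr, Sum.map_inr, Sum.map_inr, id, id, h.2]⟩

/-- the bijection of the darts defined by a bijection of the vertices -/
def tmd (d : V ⊕ W ≃ Z) : Dart V ⊕ Dart W ≃ Dart Z :=
  (Equiv.sumProdDistrib V W (ZMod 4)).symm.trans (Equiv.prodCongr d (Equiv.refl _))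

theorem tmd_inl (d : V ⊕ W ≃ Z) (x : Dart V) : tmd d (Sum.inl x) = (d (Sum.inl x.1), x.2) := rfl

theorem tmd_inr (d : V ⊕ W ≃ Z) (y : Dart W) : tmd d (Sum.inr y) = (d (Sum.inr y.1), y.2) := rfl

/-- a system of links glued from a tangle and an outer part -/
structure tmComb (T : Tangle V) (s : V → St) (c : W → St) (pl : ZMod 4 → Dart W ⊕ ZMod 4)
    (cl : Dart W → Dart W ⊕ (ZMod 4 ⊕ ZMod 4)) (L : Dart Z → Dart Z ⊕ ZMod 4) (u : Z → St) where
  /-- the bijection of the vertices -/
  d : V ⊕ W ≃ Z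
  st : ∀ v, u (d v) = Sum.elim s c v
  link : ∀ z, L (tmd d z) = Sum.map (tmd d) id (tmL T pl cl z)

section Comb

variable {T : Tangle V} {s : V → St} {c : W → St} {pl : ZMod 4 → Dart W ⊕ ZMod 4}
  {cl : Dart W → Dart W ⊕ (ZMod 4 ⊕ ZMod 4)} {L : Dart Z → Dart Z ⊕ ZMod 4} {u : Z → St}

theorem tmComb.isC_iff (A : tmComb T s c pl cl L u) (z : Dart V ⊕ Dart W) :
    isC u (tmd A.d z) ↔ Sum.elim (isC s) (isC c) z := by
  rcases z with x | y
  · simp only [isC, tmd_inl, A.st, Sum.elim_inl]
  · simp only [isC, tmd_inr, A.st, Sum.elim_inr]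

theorem tmComb.tau_eq (A : tmComb T s c pl cl L u) (z : Dart V ⊕ Dart W) :
    tau u (tmd A.d z) = tmd A.d (Sum.map (tau s) (tau c) z) := by
  rcases z with x | y
  · simp only [tau, tmd_inl, A.st, Sum.elim_inl, Equiv.coe_fn_mk, Sum.map_inl]
  · simp only [tau, tmd_inr, A.st, Sum.elim_inr, Equiv.coe_fn_mk, Sum.map_inr]

theorem tmComb.step_iff (A : tmComb T s c pl cl L u) (full : Prop) (z z' : Dart V ⊕ Dart W) :
    stepL L u full (tmd A.d z) (tmd A.d z') ↔ tmC T s c pl cl full z z' := by
  unfold stepL tmC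
  rw [A.link, A.isC_iff, A.tau_eq, (tmd A.d).apply_eq_iff_eq]
  apply or_congr _ Iff.rfl
  cases h : tmL T pl cl z with
  | inl t =>
    simp only [Sum.map_inl, Sum.inl.injEq]
    exact (tmd A.d).apply_eq_iff_eq
  | inr k => simp

/-- the marked points in the glued system -/
def tmComb.pt (A : tmComb T s c pl cl L u) (ψ : J ≃ {x : Dart V // isC s x})
    (a : (J ⊕ ZMod 4) ⊕ Dart W) : Dart Z := tmd A.d (Sum.map (tme T s ψ) id a)

theorem tmComb.iff (A : tmComb T s c pl cl L u) (ψ : J ≃ {x : Dart V // isC s x}) (full : Prop)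
    (a b : (J ⊕ ZMod 4) ⊕ Dart W) :
    Relation.EqvGen (stepL L u full) (A.pt ψ a) (A.pt ψ b) ↔
      Relation.EqvGen (tmR (relT T s) (tme T s ψ) (tmK c pl cl full (tmκ s full ψ))) a b := by
  rw [← tmG_iff]
  exact tm_equiv (tmd A.d) (fun z z' => (A.step_iff full z z').trans (tmC_iff T s c pl cl full ψ z z')) _ _

theorem tmComb.card (A : tmComb T s c pl cl L u) [Finite V] [Finite W] [Finite J]
    (ψ : J ≃ {x : Dart V // isC s x}) (full : Prop) (B : Set ((J ⊕ ZMod 4) ⊕ Dart W)) :
    tmav (stepL L u full) (A.pt ψ '' B) =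
      tmav (tmR (relT T s) (tme T s ψ) (tmK c pl cl full (tmκ s full ψ))) B +
        tmav (relT T s) (Set.range (tme T s ψ)) := by
  have h1 := tmav_G (relT T s) (tme T s ψ) (tmK c pl cl full (tmκ s full ψ)) B
  rw [← h1, ← tmav_equiv (tmd A.d)
    (fun z z' => (A.step_iff full z z').trans (tmC_iff T s c pl cl full ψ z z'))]
  congr 1
  rw [Set.image_image]
  rfl

theorem tm_loopsT (T : Tangle V) (s : V → St) (ψ : J ≃ {x : Dart V // isC s x}) :
    tmav (relT T s) (Set.range (tme T s ψ)) = loopsT T s := by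
  unfold tmav loopsT
  apply Nat.card_congr
  apply Equiv.subtypeEquivRight
  intro q
  constructor
  · intro h
    refine ⟨fun x hx hc => ?_, fun i => h _ ⟨Sum.inr i, rfl⟩⟩
    exact h x ⟨Sum.inl (ψ.symm ⟨x, hc⟩), by simp [tme]⟩ hx
  · rintro ⟨h1, h2⟩ _ ⟨j | i, rfl⟩
    · intro hq
      exact h1 _ hq (ψ j).2
    · exact h2 i

/-- the index of a dart of a crossing -/
def tmι : J ⊕ {y : Dart W // isC c y} → (J ⊕ ZMod 4) ⊕ Dart W :=
  Sum.elim (fun j => Sum.inl (Sum.inl j)) (fun y => Sum.inr y.1)

/-- the darts of the crossings of the glued system -/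
def tmComb.Ψ (A : tmComb T s c pl cl L u) (ψ : J ≃ {x : Dart V // isC s x}) :
    J ⊕ {y : Dart W // isC c y} ≃ {z : Dart Z // isC u z} :=
  (Equiv.sumCongr ψ (Equiv.refl _)).trans
    ((Equiv.subtypeSum (p := Sum.elim (isC s) (isC c))).symm.trans
      ((tmd A.d).subtypeEquiv (fun z => (A.isC_iff z).symm)))

theorem tmComb.Ψ_coe (A : tmComb T s c pl cl L u) (ψ : J ≃ {x : Dart V // isC s x})
    (k : J ⊕ {y : Dart W // isC c y}) : (A.Ψ ψ k).1 = A.pt ψ (tmι k) := by
  rcases k with j | y
  · rfl
  · rfl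

theorem tmComb.range_Ψ (A : tmComb T s c pl cl L u) (ψ : J ≃ {x : Dart V // isC s x}) :
    {z : Dart Z | isC u z} = A.pt ψ '' Set.range (tmι (J := J) (c := c)) := by
  ext z
  constructor
  · intro hz
    obtain ⟨k, hk⟩ := (A.Ψ ψ).surjective ⟨z, hz⟩
    refine ⟨tmι k, ⟨k, rfl⟩, ?_⟩
    rw [← A.Ψ_coe, hk]
  · rintro ⟨_, ⟨k, rfl⟩, rfl⟩
    rw [← A.Ψ_coe]
    exact (A.Ψ ψ k).2

end Comb

section Main

variable {T : Tangle V} {s : V → St} {T' : Tangle V'} {s' : V' → St} {c : W → St}
  {pl : ZMod 4 → Dart W ⊕ ZMod 4} {cl : Dart W → Dart W ⊕ (ZMod 4 ⊕ ZMod 4)}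
  {L : Dart Z → Dart Z ⊕ ZMod 4} {u : Z → St} {L' : Dart Z' → Dart Z' ⊕ ZMod 4} {u' : Z' → St}

theorem tm_tau {s : V → St} {x : Dart V} (hx : isC s x) : tau s x = sg (sg x) := by
  obtain ⟨v, i⟩ := x
  unfold isC at hx
  simp only [tau, sg, Equiv.coe_fn_mk, Prod.mk.injEq, true_and]
  simp only at hx
  cases hs : s v with
  | over1 => simp only [St.mate]; ring
  | over0 => simp only [St.mate]; ring
  | smA => rw [hs] at hx; simp [St.isX] at hx
  | smB => rw [hs] at hx; simp [St.isX] at hx

theorem TMap.rot_two (h : TMap T s T' s') (x y : {x : Dart V // isC s x}) :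
    y.1 = sg (sg x.1) ↔ (h.φ y).1 = sg (sg (h.φ x).1) := by
  have h1 : isC s (sg x.1) := x.2
  have h2 : isC s (sg (sg x.1)) := x.2
  have key : (h.φ ⟨_, h2⟩).1 = sg (sg (h.φ x).1) := by
    rw [h.rot ⟨_, h1⟩ ⟨_, h2⟩ rfl, h.rot x ⟨_, h1⟩ rfl]
  constructor
  · intro hy
    have : y = ⟨_, h2⟩ := Subtype.ext hy
    rw [this, key]
  · intro hy
    rw [← key] at hy
    have := h.φ.injective (Subtype.ext hy)
    rw [this]

theorem tm_same (h : TMap T s T' s') (c : W → St) (pl : ZMod 4 → Dart W ⊕ ZMod 4)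
    (cl : Dart W → Dart W ⊕ (ZMod 4 ⊕ ZMod 4)) (full : Prop) :
    tmR (relT T s) (tme T s (Equiv.refl _)) (tmK c pl cl full (tmκ s full (Equiv.refl _))) =
      tmR (relT T' s') (tme T' s' h.φ) (tmK c pl cl full (tmκ s' full h.φ)) := by
  have hm : (fun i j => Relation.EqvGen (relT T s) (tme T s (Equiv.refl _) i)
      (tme T s (Equiv.refl _) j)) = (fun i j => Relation.EqvGen (relT T' s') (tme T' s' h.φ i)
      (tme T' s' h.φ j)) := by
    funext i j
    apply propext
    rcases i with x | i <;> rcases j with y | j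
    · exact h.arc x y
    · exact h.port x j
    · constructor
      · intro hh
        exact ((h.port y i).mp hh.symm).symm
      · intro hh
        exact ((h.port y i).mpr hh.symm).symm
    · exact h.pp i j
  have hκ : tmκ s full (Equiv.refl _) = tmκ s' full h.φ := by
    funext x y
    apply propext
    unfold tmκ
    apply and_congr Iff.rfl
    rw [tm_tau (Subtype.prop _), tm_tau (Subtype.prop _)]
    exact h.rot_two x y
  unfold tmR
  rw [hm, hκ]

/-- the bijection of the darts of the crossings -/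
def tmφ (h : TMap T s T' s') (A : tmComb T s c pl cl L u) (A' : tmComb T' s' c pl cl L' u') :
    {z : Dart Z // isC u z} ≃ {z : Dart Z' // isC u' z} :=
  (A.Ψ (Equiv.refl _)).symm.trans (A'.Ψ h.φ)

theorem tmφ_apply (h : TMap T s T' s') (A : tmComb T s c pl cl L u)
    (A' : tmComb T' s' c pl cl L' u') (k : {x : Dart V // isC s x} ⊕ {y : Dart W // isC c y}) :
    tmφ h A A' (A.Ψ (Equiv.refl _) k) = A'.Ψ h.φ k := by
  simp [tmφ]

theorem tm_pp (h : TMap T s T' s') (A : tmComb T s c pl cl L u)
    (A' : tmComb T' s' c pl cl L' u') (full : Prop)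
    (a b : ({x : Dart V // isC s x} ⊕ ZMod 4) ⊕ Dart W) :
    Relation.EqvGen (stepL L u full) (A.pt (Equiv.refl _) a) (A.pt (Equiv.refl _) b) ↔
      Relation.EqvGen (stepL L' u' full) (A'.pt h.φ a) (A'.pt h.φ b) := by
  rw [A.iff, A'.iff, tm_same h]

theorem tm_card (h : TMap T s T' s') (A : tmComb T s c pl cl L u)
    (A' : tmComb T' s' c pl cl L' u') [Finite V] [Finite V'] [Finite W] (full : Prop)
    (B : Set (({x : Dart V // isC s x} ⊕ ZMod 4) ⊕ Dart W)) :
    tmav (stepL L u full) (A.pt (Equiv.refl _) '' B) =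
      tmav (stepL L' u' full) (A'.pt h.φ '' B) := by
  rw [A.card, A'.card, tm_same h, tm_loopsT, tm_loopsT, h.loops]

theorem tmφ_rot (h : TMap T s T' s') (A : tmComb T s c pl cl L u)
    (A' : tmComb T' s' c pl cl L' u') (x y : {z : Dart Z // isC u z}) (hxy : y.1 = sg x.1) :
    (tmφ h A A' y).1 = sg (tmφ h A A' x).1 := by
  obtain ⟨k, rfl⟩ := (A.Ψ (Equiv.refl _)).surjective x
  obtain ⟨l, rfl⟩ := (A.Ψ (Equiv.refl _)).surjective y
  rw [tmφ_apply, tmφ_apply]
  have hsg : ∀ {Z : Type} (d : V ⊕ W ≃ Z) (z : Dart V ⊕ Dart W),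
      sg (tmd d z) = tmd d (Sum.map sg sg z) := by
    rintro Z d (x | y) <;> rfl
  have hsg' : ∀ {Z : Type} (d : V' ⊕ W ≃ Z) (z : Dart V' ⊕ Dart W),
      sg (tmd d z) = tmd d (Sum.map sg sg z) := by
    rintro Z d (x | y) <;> rfl
  rw [A.Ψ_coe, A.Ψ_coe] at hxy
  rw [A'.Ψ_coe, A'.Ψ_coe]
  unfold tmComb.pt at hxy ⊢
  rw [hsg, (tmd A.d).apply_eq_iff_eq] at hxy
  rw [hsg', (tmd A'.d).apply_eq_iff_eq]
  rcases k with k | k <;> rcases l with l | l
  · simp only [tmι, Sum.elim_inl, Sum.map_inl, tme, Equiv.refl_apply, Sum.inl.injEq] at hxy ⊢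
    exact h.rot k l hxy
  · simp [tmι] at hxy
  · simp [tmι] at hxy
  · simp only [tmι, Sum.elim_inr, Sum.map_inr, id, Sum.inr.injEq] at hxy ⊢
    exact hxy

theorem tmφ_upper (h : TMap T s T' s') (A : tmComb T s c pl cl L u)
    (A' : tmComb T' s' c pl cl L' u') (x : {z : Dart Z // isC u z}) :
    (u x.1.1).upper x.1.2 = (u' (tmφ h A A' x).1.1).upper (tmφ h A A' x).1.2 := by
  obtain ⟨k, rfl⟩ := (A.Ψ (Equiv.refl _)).surjective x
  rw [tmφ_apply, A.Ψ_coe, A'.Ψ_coe]
  unfold tmComb.pt
  rcases k with k | k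
  · simp only [tmι, Sum.elim_inl, Sum.map_inl, tme, Equiv.refl_apply, tmd_inl, A.st, A'.st]
    exact h.upper k
  · simp only [tmι, Sum.elim_inr, Sum.map_inr, id, tmd_inr, A.st, A'.st]

/-- glueing of tangles to tangles -/
theorem tm_TM [Finite V] [Finite V'] [Finite W] {P : Tangle Z} {P' : Tangle Z'}
    (h : TMap T s T' s') (A : tmComb T s c pl cl P.link u)
    (A' : tmComb T' s' c pl cl P'.link u') (o : ZMod 4 → ZMod 4 ⊕ Dart W)
    (ho : ∀ k, P.port k = tmd A.d (Sum.map T.port id (o k)))
    (ho' : ∀ k, P'.port k = tmd A'.d (Sum.map T'.port id (o k))) : TM P u P' u' := by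
  have hr : relT P u = stepL P.link u False := by
    funext x y
    unfold relT stepL
    simp only [false_or]
  have hr' : relT P' u' = stepL P'.link u' False := by
    funext x y
    unfold relT stepL
    simp only [false_or]
  have hp : ∀ k, P.port k = A.pt (Equiv.refl _) (Sum.map Sum.inr id (o k)) := by
    intro k
    rw [ho]
    unfold tmComb.pt
    rcases o k with i | y <;> rfl
  have hp' : ∀ k, P'.port k = A'.pt h.φ (Sum.map Sum.inr id (o k)) := by
    intro k
    rw [ho']
    unfold tmComb.pt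
    rcases o k with i | y <;> rfl
  have hloops : ∀ {Z : Type} (P : Tangle Z) (u : Z → St),
      loopsT P u = tmav (relT P u) ({z | isC u z} ∪ Set.range P.port) := by
    intro Z P u
    unfold tmav loopsT
    apply Nat.card_congr
    apply Equiv.subtypeEquivRight
    intro q
    constructor
    · rintro ⟨h1, h2⟩ b (hb | ⟨i, rfl⟩)
      · intro hq
        exact h1 b hq hb
      · exact h2 i
    · intro h
      exact ⟨fun x hx hc => h x (Or.inl hc) hx, fun i => h _ (Or.inr ⟨i, rfl⟩)⟩
  refine ⟨⟨tmφ h A A', tmφ_rot h A A', ?_, ?_, ?_, tmφ_upper h A A', ?_⟩⟩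
  · intro x y
    obtain ⟨k, rfl⟩ := (A.Ψ (Equiv.refl _)).surjective x
    obtain ⟨l, rfl⟩ := (A.Ψ (Equiv.refl _)).surjective y
    unfold ArcT
    rw [tmφ_apply, tmφ_apply, A.Ψ_coe, A.Ψ_coe, A'.Ψ_coe, A'.Ψ_coe, hr, hr']
    exact tm_pp h A A' False _ _
  · intro x i
    obtain ⟨k, rfl⟩ := (A.Ψ (Equiv.refl _)).surjective x
    unfold ArcT
    rw [tmφ_apply, A.Ψ_coe, A'.Ψ_coe, hr, hr', hp, hp']
    exact tm_pp h A A' False _ _
  · intro i j
    unfold ArcT
    rw [hr, hr', hp, hp', hp, hp']
    exact tm_pp h A A' False _ _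
  · rw [hloops, hloops, hr, hr', A.range_Ψ (Equiv.refl _), A'.range_Ψ h.φ]
    have e1 : Set.range P.port =
        A.pt (Equiv.refl _) '' Set.range (fun k => Sum.map Sum.inr id (o k)) := by
      rw [← Set.range_comp]
      congr 1
      funext k
      exact hp k
    have e2 : Set.range P'.port =
        A'.pt h.φ '' Set.range (fun k => Sum.map Sum.inr id (o k)) := by
      rw [← Set.range_comp]
      congr 1
      funext k
      exact hp' k
    rw [e1, e2, ← Set.image_union, ← Set.image_union]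
    exact tm_card h A A' False _

/-- glueing of tangles to diagrams -/
theorem tm_DIso [Finite V] [Finite V'] [Finite W] {S : Shadow Z} {S' : Shadow Z'}
    (h : TMap T s T' s') (A : tmComb T s c pl cl (fun x => Sum.inl (S.α x)) u)
    (A' : tmComb T' s' c pl cl (fun x => Sum.inl (S'.α x)) u') : Nonempty (DIso S u S' u') := by
  have hr : ∀ {Z : Type} (S : Shadow Z) (u : Z → St), Arc S u =
      Relation.EqvGen (stepL (fun x => Sum.inl (S.α x)) u False) := by
    intro Z S u
    unfold Arc
    congr 1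
    funext x y
    unfold stepL
    simp only [false_or, Sum.inl.injEq]
    rw [eq_comm (a := y)]
  have hc : ∀ {Z : Type} (S : Shadow Z) (u : Z → St), comps S u =
      tmav (stepL (fun x => Sum.inl (S.α x)) u True) ∅ := by
    intro Z S u
    unfold comps classes tmav
    have : (fun x y : Dart Z => y = S.α x ∨ y = tau u x) =
        stepL (fun x => Sum.inl (S.α x)) u True := by
      funext x y
      unfold stepL
      simp only [true_or, true_and, Sum.inl.injEq]
      rw [eq_comm (a := y)]
    rw [this]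
    symm
    apply Nat.card_congr
    exact Equiv.subtypeUnivEquiv (by simp)
  refine ⟨⟨⟨tmφ h A A', tmφ_rot h A A', ?_, tmφ_upper h A A'⟩, ?_⟩⟩
  · intro x y
    obtain ⟨k, rfl⟩ := (A.Ψ (Equiv.refl _)).surjective x
    obtain ⟨l, rfl⟩ := (A.Ψ (Equiv.refl _)).surjective y
    rw [tmφ_apply, tmφ_apply, A.Ψ_coe, A.Ψ_coe, A'.Ψ_coe, A'.Ψ_coe, hr, hr]
    exact tm_pp h A A' False _ _
  · rw [hc, hc]
    have := tm_card h A A' True ∅
    rw [Set.image_empty, Set.image_empty] at this
    exact this

end Main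

end Concrete


theorem TM.refl (T : Tangle V) (s : V → St) : TM T s T s :=
  ⟨⟨Equiv.refl _, fun _ _ h => h, fun _ _ => Iff.rfl, fun _ _ => Iff.rfl, fun _ _ => Iff.rfl,
    fun _ => rfl, rfl⟩⟩

theorem TM.symm (h : TM T s T' s') : TM T' s' T s := by
  obtain ⟨h⟩ := h
  refine ⟨⟨h.φ.symm, ?_, ?_, ?_, ?_, ?_, h.loops.symm⟩⟩
  · intro x' y' hxy
    obtain ⟨x, rfl⟩ := h.φ.surjective x'
    obtain ⟨y, rfl⟩ := h.φ.surjective y'
    rw [h.φ.symm_apply_apply, h.φ.symm_apply_apply]
    have h1 : isC s (sg x.1) := x.2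
    have h2 := h.rot x ⟨_, h1⟩ rfl
    rw [← hxy] at h2
    have h3 := h.φ.injective (Subtype.ext h2)
    rw [← h3]
  · intro x' y'
    obtain ⟨x, rfl⟩ := h.φ.surjective x'
    obtain ⟨y, rfl⟩ := h.φ.surjective y'
    rw [h.φ.symm_apply_apply, h.φ.symm_apply_apply]
    exact (h.arc x y).symm
  · intro x' i
    obtain ⟨x, rfl⟩ := h.φ.surjective x'
    rw [h.φ.symm_apply_apply]
    exact (h.port x i).symm
  · intro i j
    exact (h.pp i j).symm
  · intro x'
    obtain ⟨x, rfl⟩ := h.φ.surjective x'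
    rw [h.φ.symm_apply_apply]
    exact (h.upper x).symm

theorem TM.trans (h : TM T s T' s') (h' : TM T' s' T'' s'') : TM T s T'' s'' := by
  obtain ⟨h⟩ := h
  obtain ⟨h'⟩ := h'
  exact ⟨⟨h.φ.trans h'.φ, fun x y hxy => h'.rot _ _ (h.rot x y hxy),
    fun x y => (h.arc x y).trans (h'.arc _ _), fun x i => (h.port x i).trans (h'.port _ _),
    fun i j => (h.pp i j).trans (h'.pp i j), fun x => (h.upper x).trans (h'.upper _),
    h.loops.trans h'.loops⟩⟩

theorem TM.app [Fintype V] [Fintype V'] (h : TM T s T' s') (p : ZMod 4) (q : Bool → St) :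
    TM (app T p) (Sum.elim s q) (LK.app T' p) (Sum.elim s' q) := by
  obtain ⟨h⟩ := h
  have A : ∀ {V : Type} (T : Tangle V) (s : V → St), ∃ A : tmComb T s q
      (fun i => Sum.inl (inDart p i))
      (fun y => if (strand p y).2 = true then Sum.inr (Sum.inl (strand p y).1)
        else Sum.inr (Sum.inr (strand p y).1)) (LK.app T p).link (Sum.elim s q),
      A.d = Equiv.refl _ := by
    intro V T s
    refine ⟨⟨Equiv.refl _, fun _ => rfl, ?_⟩, rfl⟩
    rintro (x | y)
    · simp only [tmd_inl, Equiv.refl_apply, LK.app, tmL]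
      cases hx : T.link (x.1, x.2) with
      | inl y =>
        have hx' : T.link x = Sum.inl y := hx
        simp only [hx', Sum.map_inl, tmd_inl, Equiv.refl_apply]
      | inr i =>
        have hx' : T.link x = Sum.inr i := hx
        simp only [hx', Sum.map_inl, tmd_inr, Equiv.refl_apply]
    · simp only [tmd_inr, Equiv.refl_apply, LK.app, tmL]
      by_cases hs : (strand p (y.1, y.2)).2 = true
      · have hs' : (strand p y).2 = true := hs
        simp only [hs', if_true, Sum.map_inl, tmd_inl, Equiv.refl_apply]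
      · have hs' : ¬ (strand p y).2 = true := hs
        rw [if_neg hs', if_neg hs']
        simp only [Sum.map_inr, id]
  obtain ⟨A1, hA1⟩ := A T s
  obtain ⟨A2, hA2⟩ := A T' s'
  refine tm_TM h A1 A2 (fun k => Sum.inr (outDart p k)) ?_ ?_
  · intro k
    rw [hA1]
    rfl
  · intro k
    rw [hA2]
    rfl

theorem TM.glue [Fintype V] [Fintype V'] [Fintype W] (h : TM T s T' s') (C : Tangle W)
    (c : W → St) :
    Nonempty (DIso (glue T C) (Sum.elim s c) (LK.glue T' C) (Sum.elim s' c)) := by
  obtain ⟨h⟩ := h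
  have A : ∀ {V : Type} (T : Tangle V) (s : V → St), ∃ A : tmComb T s c
      (fun i => Sum.inl (C.port (1 - i)))
      (fun y => match C.link y with
        | Sum.inl y' => Sum.inl y'
        | Sum.inr i => Sum.inr (Sum.inl (1 - i)))
      (fun x => Sum.inl ((LK.glue T C).α x)) (Sum.elim s c), A.d = Equiv.refl _ := by
    intro V T s
    refine ⟨⟨Equiv.refl _, fun _ => rfl, ?_⟩, rfl⟩
    rintro (x | y)
    · simp only [tmd_inl, Equiv.refl_apply, LK.glue, glueα, tmL, Equiv.coe_fn_mk]
      cases hx : T.link (x.1, x.2) with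
      | inl y =>
        have hx' : T.link x = Sum.inl y := hx
        simp only [hx', Sum.map_inl, tmd_inl, Equiv.refl_apply]
      | inr i =>
        have hx' : T.link x = Sum.inr i := hx
        simp only [hx', Sum.map_inl, tmd_inr, Equiv.refl_apply]
    · simp only [tmd_inr, Equiv.refl_apply, LK.glue, glueα, tmL, Equiv.coe_fn_mk]
      cases hx : C.link (y.1, y.2) with
      | inl z =>
        have hx' : C.link y = Sum.inl z := hx
        simp only [hx', Sum.map_inl, tmd_inr, Equiv.refl_apply]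
      | inr i =>
        have hx' : C.link y = Sum.inr i := hx
        simp only [hx', Sum.map_inl, tmd_inl, Equiv.refl_apply]
  obtain ⟨A1, -⟩ := A T s
  obtain ⟨A2, -⟩ := A T' s'
  exact tm_DIso h A1 A2

theorem TM.hsum_left [Fintype V] [Fintype V'] [Fintype W] (h : TM T s T' s') (C : Tangle W)
    (c : W → St) : TM (hsum T C) (Sum.elim s c) (hsum T' C) (Sum.elim s' c) := by
  obtain ⟨h⟩ := h
  have A : ∀ {V : Type} (T : Tangle V) (s : V → St), ∃ A : tmComb T s c
      (fun i => if i = 1 ∨ i = 2 then Sum.inr i else Sum.inl (C.port (1 - i)))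
      (fun y => match C.link y with
        | Sum.inl y' => Sum.inl y'
        | Sum.inr i => if i = 1 ∨ i = 2 then Sum.inr (Sum.inl (1 - i)) else Sum.inr (Sum.inr i))
      (LK.hsum T C).link (Sum.elim s c), A.d = Equiv.refl _ := by
    intro V T s
    refine ⟨⟨Equiv.refl _, fun _ => rfl, ?_⟩, rfl⟩
    rintro (x | y)
    · simp only [tmd_inl, Equiv.refl_apply, LK.hsum, tmL]
      cases hx : T.link (x.1, x.2) with
      | inl y =>
        have hx' : T.link x = Sum.inl y := hx
        simp only [hx', Sum.map_inl, tmd_inl, Equiv.refl_apply]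
      | inr i =>
        have hx' : T.link x = Sum.inr i := hx
        by_cases hi : i = 1 ∨ i = 2
        · simp only [hx', hi, if_true, Sum.map_inr, id]
        · simp only [hx', hi, if_false, Sum.map_inl, tmd_inr, Equiv.refl_apply]
    · simp only [tmd_inr, Equiv.refl_apply, LK.hsum, tmL]
      cases hx : C.link (y.1, y.2) with
      | inl z =>
        have hx' : C.link y = Sum.inl z := hx
        simp only [hx', Sum.map_inl, tmd_inr, Equiv.refl_apply]
      | inr i =>
        have hx' : C.link y = Sum.inr i := hx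
        by_cases hi : i = 1 ∨ i = 2
        · simp only [hx', hi, if_true, Sum.map_inl, tmd_inl, Equiv.refl_apply]
        · simp only [hx', hi, if_false, Sum.map_inr, id]
  obtain ⟨A1, hA1⟩ := A T s
  obtain ⟨A2, hA2⟩ := A T' s'
  have hport : ∀ {V : Type} (T : Tangle V) (k : ZMod 4), (LK.hsum T C).port k =
      tmd (Equiv.refl _) (Sum.map T.port id (if k = 1 ∨ k = 2 then
        (Sum.inl k : ZMod 4 ⊕ Dart W) else Sum.inr (C.port k))) := by
    intro V T k
    by_cases hk : k = 1 ∨ k = 2
    · simp only [LK.hsum, hk, if_true]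
      rfl
    · simp only [LK.hsum, hk, if_false]
      rfl
  refine tm_TM h A1 A2 (fun k => if k = 1 ∨ k = 2 then Sum.inl k else Sum.inr (C.port k)) ?_ ?_
  · intro k
    rw [hA1]
    exact hport T k
  · intro k
    rw [hA2]
    exact hport T' k

theorem TM.hsum_right [Fintype V] [Fintype V'] [Fintype W] (h : TM T s T' s') (C : Tangle W)
    (c : W → St) : TM (hsum C T) (Sum.elim c s) (hsum C T') (Sum.elim c s') := by
  obtain ⟨h⟩ := h
  have A : ∀ {V : Type} (T : Tangle V) (s : V → St), ∃ A : tmComb T s c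
      (fun i => if i = 1 ∨ i = 2 then Sum.inl (C.port (1 - i)) else Sum.inr i)
      (fun y => match C.link y with
        | Sum.inl y' => Sum.inl y'
        | Sum.inr i => if i = 1 ∨ i = 2 then Sum.inr (Sum.inr i) else Sum.inr (Sum.inl (1 - i)))
      (LK.hsum C T).link (Sum.elim c s), A.d = Equiv.sumComm _ _ := by
    intro V T s
    refine ⟨⟨Equiv.sumComm _ _, ?_, ?_⟩, rfl⟩
    · rintro (v | w) <;> rfl
    rintro (x | y)
    · simp only [tmd_inl, Equiv.sumComm_apply, Sum.swap_inl, LK.hsum, tmL]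
      cases hx : T.link (x.1, x.2) with
      | inl y =>
        have hx' : T.link x = Sum.inl y := hx
        simp only [hx', Sum.map_inl, tmd_inl, Equiv.sumComm_apply, Sum.swap_inl]
      | inr i =>
        have hx' : T.link x = Sum.inr i := hx
        by_cases hi : i = 1 ∨ i = 2
        · simp only [hx', hi, if_true, Sum.map_inl, tmd_inr, Equiv.sumComm_apply, Sum.swap_inr]
        · simp only [hx', hi, if_false, Sum.map_inr, id]
    · simp only [tmd_inr, Equiv.sumComm_apply, Sum.swap_inr, LK.hsum, tmL]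
      cases hx : C.link (y.1, y.2) with
      | inl z =>
        have hx' : C.link y = Sum.inl z := hx
        simp only [hx', Sum.map_inl, tmd_inr, Equiv.sumComm_apply, Sum.swap_inr]
      | inr i =>
        have hx' : C.link y = Sum.inr i := hx
        by_cases hi : i = 1 ∨ i = 2
        · simp only [hx', hi, if_true, Sum.map_inr, id]
        · simp only [hx', hi, if_false, Sum.map_inl, tmd_inl, Equiv.sumComm_apply, Sum.swap_inl]
  obtain ⟨A1, hA1⟩ := A T s
  obtain ⟨A2, hA2⟩ := A T' s'
  have hport : ∀ {V : Type} (T : Tangle V) (k : ZMod 4), (LK.hsum C T).port k =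
      tmd (Equiv.sumComm _ _) (Sum.map T.port id (if k = 1 ∨ k = 2 then
        (Sum.inr (C.port k) : ZMod 4 ⊕ Dart W) else Sum.inl k)) := by
    intro V T k
    by_cases hk : k = 1 ∨ k = 2
    · simp only [LK.hsum, hk, if_true]
      rfl
    · simp only [LK.hsum, hk, if_false]
      rfl
  refine tm_TM h A1 A2 (fun k => if k = 1 ∨ k = 2 then Sum.inr (C.port k) else Sum.inl k) ?_ ?_
  · intro k
    rw [hA1]
    exact hport T k
  · intro k
    rw [hA2]
    exact hport T' k

theorem TM.vsum_left [Fintype V] [Fintype V'] [Fintype W] (h : TM T s T' s') (C : Tangle W)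
    (c : W → St) : TM (vsum T C) (Sum.elim s c) (vsum T' C) (Sum.elim s' c) := by
  obtain ⟨h⟩ := h
  have A : ∀ {V : Type} (T : Tangle V) (s : V → St), ∃ A : tmComb T s c
      (fun i => if i = 0 ∨ i = 1 then Sum.inr i else Sum.inl (C.port (3 - i)))
      (fun y => match C.link y with
        | Sum.inl y' => Sum.inl y'
        | Sum.inr i => if i = 0 ∨ i = 1 then Sum.inr (Sum.inl (3 - i)) else Sum.inr (Sum.inr i))
      (LK.vsum T C).link (Sum.elim s c), A.d = Equiv.refl _ := by
    intro V T s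
    refine ⟨⟨Equiv.refl _, fun _ => rfl, ?_⟩, rfl⟩
    rintro (x | y)
    · simp only [tmd_inl, Equiv.refl_apply, LK.vsum, tmL]
      cases hx : T.link (x.1, x.2) with
      | inl y =>
        have hx' : T.link x = Sum.inl y := hx
        simp only [hx', Sum.map_inl, tmd_inl, Equiv.refl_apply]
      | inr i =>
        have hx' : T.link x = Sum.inr i := hx
        by_cases hi : i = 0 ∨ i = 1
        · simp only [hx', hi, if_true, Sum.map_inr, id]
        · simp only [hx', hi, if_false, Sum.map_inl, tmd_inr, Equiv.refl_apply]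
    · simp only [tmd_inr, Equiv.refl_apply, LK.vsum, tmL]
      cases hx : C.link (y.1, y.2) with
      | inl z =>
        have hx' : C.link y = Sum.inl z := hx
        simp only [hx', Sum.map_inl, tmd_inr, Equiv.refl_apply]
      | inr i =>
        have hx' : C.link y = Sum.inr i := hx
        by_cases hi : i = 0 ∨ i = 1
        · simp only [hx', hi, if_true, Sum.map_inl, tmd_inl, Equiv.refl_apply]
        · simp only [hx', hi, if_false, Sum.map_inr, id]
  obtain ⟨A1, hA1⟩ := A T s
  obtain ⟨A2, hA2⟩ := A T' s'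
  have hport : ∀ {V : Type} (T : Tangle V) (k : ZMod 4), (LK.vsum T C).port k =
      tmd (Equiv.refl _) (Sum.map T.port id (if k = 0 ∨ k = 1 then
        (Sum.inl k : ZMod 4 ⊕ Dart W) else Sum.inr (C.port k))) := by
    intro V T k
    by_cases hk : k = 0 ∨ k = 1
    · simp only [LK.vsum, hk, if_true]
      rfl
    · simp only [LK.vsum, hk, if_false]
      rfl
  refine tm_TM h A1 A2 (fun k => if k = 0 ∨ k = 1 then Sum.inl k else Sum.inr (C.port k)) ?_ ?_
  · intro k
    rw [hA1]
    exact hport T k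
  · intro k
    rw [hA2]
    exact hport T' k

theorem TM.vsum_right [Fintype V] [Fintype V'] [Fintype W] (h : TM T s T' s') (C : Tangle W)
    (c : W → St) : TM (vsum C T) (Sum.elim c s) (vsum C T') (Sum.elim c s') := by
  obtain ⟨h⟩ := h
  have A : ∀ {V : Type} (T : Tangle V) (s : V → St), ∃ A : tmComb T s c
      (fun i => if i = 0 ∨ i = 1 then Sum.inl (C.port (3 - i)) else Sum.inr i)
      (fun y => match C.link y with
        | Sum.inl y' => Sum.inl y'
        | Sum.inr i => if i = 0 ∨ i = 1 then Sum.inr (Sum.inr i) else Sum.inr (Sum.inl (3 - i)))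
      (LK.vsum C T).link (Sum.elim c s), A.d = Equiv.sumComm _ _ := by
    intro V T s
    refine ⟨⟨Equiv.sumComm _ _, ?_, ?_⟩, rfl⟩
    · rintro (v | w) <;> rfl
    rintro (x | y)
    · simp only [tmd_inl, Equiv.sumComm_apply, Sum.swap_inl, LK.vsum, tmL]
      cases hx : T.link (x.1, x.2) with
      | inl y =>
        have hx' : T.link x = Sum.inl y := hx
        simp only [hx', Sum.map_inl, tmd_inl, Equiv.sumComm_apply, Sum.swap_inl]
      | inr i =>
        have hx' : T.link x = Sum.inr i := hx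
        by_cases hi : i = 0 ∨ i = 1
        · simp only [hx', hi, if_true, Sum.map_inl, tmd_inr, Equiv.sumComm_apply, Sum.swap_inr]
        · simp only [hx', hi, if_false, Sum.map_inr, id]
    · simp only [tmd_inr, Equiv.sumComm_apply, Sum.swap_inr, LK.vsum, tmL]
      cases hx : C.link (y.1, y.2) with
      | inl z =>
        have hx' : C.link y = Sum.inl z := hx
        simp only [hx', Sum.map_inl, tmd_inr, Equiv.sumComm_apply, Sum.swap_inr]
      | inr i =>
        have hx' : C.link y = Sum.inr i := hx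
        by_cases hi : i = 0 ∨ i = 1
        · simp only [hx', hi, if_true, Sum.map_inr, id]
        · simp only [hx', hi, if_false, Sum.map_inl, tmd_inl, Equiv.sumComm_apply, Sum.swap_inl]
  obtain ⟨A1, hA1⟩ := A T s
  obtain ⟨A2, hA2⟩ := A T' s'
  have hport : ∀ {V : Type} (T : Tangle V) (k : ZMod 4), (LK.vsum C T).port k =
      tmd (Equiv.sumComm _ _) (Sum.map T.port id (if k = 0 ∨ k = 1 then
        (Sum.inr (C.port k) : ZMod 4 ⊕ Dart W) else Sum.inl k)) := by
    intro V T k
    by_cases hk : k = 0 ∨ k = 1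
    · simp only [LK.vsum, hk, if_true]
      rfl
    · simp only [LK.vsum, hk, if_false]
      rfl
  refine tm_TM h A1 A2 (fun k => if k = 0 ∨ k = 1 then Sum.inr (C.port k) else Sum.inl k) ?_ ?_
  · intro k
    rw [hA1]
    exact hport T k
  · intro k
    rw [hA2]
    exact hport T' k

end Pool.Agent.Helper65.LK
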