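import Pool.Agent.Helper65.LK.Skein

/-!
# Tangles: definitions

A tangle has four ports `0, 1, 2, 3` (north-east, north-west, south-west, south-east, in counterclockwise
order), which are attached to four different darts; the other darts are joined in pairs.
-/

namespace Pool.Agent.Helper65.LK

variable {V W : Type}

theorem z4_add22 : ∀ i : ZMod 4, i + 2 + 2 = i := by decide

theorem z4_sub11 : ∀ i : ZMod 4, 1 - (1 - i) = i := by decide

theorem z4_sub33 : ∀ i : ZMod 4, 3 - (3 - i) = i := by decide

theorem z4_p12 : ∀ k : ZMod 4, ¬ (k = 1 ∨ k = 2) → (1 - k = 1 ∨ 1 - k = 2) := by decide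

theorem z4_n12 : ∀ k : ZMod 4, (k = 1 ∨ k = 2) → ¬ (1 - k = 1 ∨ 1 - k = 2) := by decide

theorem z4_p01 : ∀ k : ZMod 4, ¬ (k = 0 ∨ k = 1) → (3 - k = 0 ∨ 3 - k = 1) := by decide

theorem z4_n01 : ∀ k : ZMod 4, (k = 0 ∨ k = 1) → ¬ (3 - k = 0 ∨ 3 - k = 1) := by decide

/-- a tangle on the vertices `V` -/
structure Tangle (V : Type) where
  /-- the dart at a port -/
  port : ZMod 4 → Dart V
  /-- the other end of the edge: a dart or a port -/
  link : Dart V → Dart V ⊕ ZMod 4
  link_port : ∀ i, link (port i) = Sum.inr i
  port_link : ∀ x i, link x = Sum.inr i → port i = x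
  invol : ∀ x y, link x = Sum.inl y → link y = Sum.inl x
  noFix : ∀ x, link x ≠ Sum.inl x

/-- a dart of the first summand -/
abbrev dl (x : Dart V) : Dart (V ⊕ W) := (Sum.inl x.1, x.2)

/-- a dart of the second summand -/
abbrev dr (x : Dart W) : Dart (V ⊕ W) := (Sum.inr x.1, x.2)

/-- the tangle with one vertex -/
def leafT : Tangle Unit where
  port i := ((), i)
  link x := Sum.inr x.2
  link_port _ := rfl
  port_link x i h := by
    obtain ⟨u, j⟩ := x
    simp only [Sum.inr.injEq] at h
    subst h
    rfl
  invol _ _ h := by cases h
  noFix _ h := by cases h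

/-- `T` rotated by a half turn -/
def Tangle.rot2 (T : Tangle V) : Tangle V where
  port i := T.port (i + 2)
  link x := match T.link x with
    | Sum.inl y => Sum.inl y
    | Sum.inr i => Sum.inr (i + 2)
  link_port i := by
    simp only [T.link_port, z4_add22]
  port_link x i h := by
    cases hx : T.link x with
    | inl y => simp [hx] at h
    | inr j =>
      simp only [hx, Sum.inr.injEq] at h
      rw [← h, z4_add22, T.port_link x j hx]
  invol x y h := by
    cases hx : T.link x with
    | inl z =>
      simp only [hx, Sum.inl.injEq] at h
      subst h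
      simp [T.invol x z hx]
    | inr j => simp [hx] at h
  noFix x h := by
    cases hx : T.link x with
    | inl z =>
      simp only [hx, Sum.inl.injEq] at h
      subst h
      exact T.noFix _ hx
    | inr j => simp [hx] at h

/-- The ports `i` of `T` are joined with the ports `1 - i` of `C`: numerator closure of the
horizontal sum. -/
def glueα (T : Tangle V) (C : Tangle W) (x : Dart (V ⊕ W)) : Dart (V ⊕ W) :=
  match x.1 with
  | Sum.inl v => match T.link (v, x.2) with
    | Sum.inl y => dl y
    | Sum.inr i => dr (C.port (1 - i))
  | Sum.inr w => match C.link (w, x.2) with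
    | Sum.inl y => dr y
    | Sum.inr i => dl (T.port (1 - i))

theorem glueα_invol (T : Tangle V) (C : Tangle W) (x : Dart (V ⊕ W)) :
    glueα T C (glueα T C x) = x := by
  obtain ⟨v | w, j⟩ := x
  · cases h : T.link (v, j) with
    | inl y =>
      have h2 := T.invol _ _ h
      simp [glueα, h, h2]
    | inr i =>
      have h2 := T.port_link _ _ h
      have h3 : T.port (1 - (1 - i)) = (v, j) := by rw [z4_sub11, h2]
      simp only [glueα, h, C.link_port, h3]
  · cases h : C.link (w, j) with
    | inl y =>
      have h2 := C.invol _ _ h
      simp [glueα, h, h2]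
    | inr i =>
      have h2 := C.port_link _ _ h
      have h3 : C.port (1 - (1 - i)) = (w, j) := by rw [z4_sub11, h2]
      simp only [glueα, h, T.link_port, h3]

theorem glueα_ne (T : Tangle V) (C : Tangle W) (x : Dart (V ⊕ W)) : glueα T C x ≠ x := by
  obtain ⟨v | w, j⟩ := x
  · cases h : T.link (v, j) with
    | inl y =>
      have h2 := T.noFix (v, j)
      intro h3
      apply h2
      rw [h]
      simp only [glueα, h, Prod.mk.injEq, Sum.inl.injEq] at h3
      rw [Sum.inl.injEq]
      exact Prod.ext h3.1 h3.2
    | inr i => simp [glueα, h]
  · cases h : C.link (w, j) with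
    | inl y =>
      have h2 := C.noFix (w, j)
      intro h3
      apply h2
      rw [h]
      simp only [glueα, h, Prod.mk.injEq, Sum.inr.injEq] at h3
      rw [Sum.inl.injEq]
      exact Prod.ext h3.1 h3.2
    | inr i => simp [glueα, h]

/-- the diagram obtained by glueing two tangles -/
def glue (T : Tangle V) (C : Tangle W) : Shadow (V ⊕ W) where
  α := ⟨glueα T C, glueα T C, glueα_invol T C, glueα_invol T C⟩
  invol := glueα_invol T C
  noFix := glueα_ne T C

/-- horizontal sum: `A` on the left, `B` on the right -/
def hsum (A : Tangle V) (B : Tangle W) : Tangle (V ⊕ W) where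
  port i := if i = 1 ∨ i = 2 then dl (A.port i) else dr (B.port i)
  link x := match x.1 with
    | Sum.inl v => match A.link (v, x.2) with
      | Sum.inl y => Sum.inl (dl y)
      | Sum.inr i => if i = 1 ∨ i = 2 then Sum.inr i else Sum.inl (dr (B.port (1 - i)))
    | Sum.inr w => match B.link (w, x.2) with
      | Sum.inl y => Sum.inl (dr y)
      | Sum.inr i => if i = 1 ∨ i = 2 then Sum.inl (dl (A.port (1 - i))) else Sum.inr i
  link_port i := by
    by_cases hi : i = 1 ∨ i = 2
    · simp [hi, A.link_port]
    · simp [hi, B.link_port]
  port_link x i h := by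
    obtain ⟨v | w, j⟩ := x
    · cases hx : A.link (v, j) with
      | inl y => simp [hx] at h
      | inr k =>
        by_cases hk : k = 1 ∨ k = 2
        · simp only [hx, hk, if_true, Sum.inr.injEq] at h
          subst h
          simp [hk, A.port_link _ _ hx]
        · simp [hx, hk] at h
    · cases hx : B.link (w, j) with
      | inl y => simp [hx] at h
      | inr k =>
        by_cases hk : k = 1 ∨ k = 2
        · simp [hx, hk] at h
        · simp only [hx, hk, if_false, Sum.inr.injEq] at h
          subst h
          simp [hk, B.port_link _ _ hx]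
  invol x y h := by
    obtain ⟨v | w, j⟩ := x
    · cases hx : A.link (v, j) with
      | inl z =>
        simp only [hx, Sum.inl.injEq] at h
        subst h
        simp [A.invol _ _ hx]
      | inr k =>
        by_cases hk : k = 1 ∨ k = 2
        · simp [hx, hk] at h
        · simp only [hx, hk, if_false, Sum.inl.injEq] at h
          subst h
          have h1 := z4_p12 k hk
          have h2 : A.port (1 - (1 - k)) = (v, j) := by rw [z4_sub11, A.port_link _ _ hx]
          simp only [B.link_port, h1, h2, if_true]
    · cases hx : B.link (w, j) with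
      | inl z =>
        simp only [hx, Sum.inl.injEq] at h
        subst h
        simp [B.invol _ _ hx]
      | inr k =>
        by_cases hk : k = 1 ∨ k = 2
        · simp only [hx, hk, if_true, Sum.inl.injEq] at h
          subst h
          have h1 := z4_n12 k hk
          have h2 : B.port (1 - (1 - k)) = (w, j) := by rw [z4_sub11, B.port_link _ _ hx]
          simp only [A.link_port, h1, h2, if_false]
        · simp [hx, hk] at h
  noFix x h := by
    obtain ⟨v | w, j⟩ := x
    · cases hx : A.link (v, j) with
      | inl z =>
        simp only [hx, Sum.inl.injEq, Prod.mk.injEq] at h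
        exact A.noFix (v, j) (by rw [hx, Sum.inl.injEq]; exact Prod.ext h.1 h.2)
      | inr k =>
        by_cases hk : k = 1 ∨ k = 2
        · simp [hx, hk] at h
        · simp [hx, hk] at h
    · cases hx : B.link (w, j) with
      | inl z =>
        simp only [hx, Sum.inl.injEq, Prod.mk.injEq, Sum.inr.injEq] at h
        exact B.noFix (w, j) (by rw [hx, Sum.inl.injEq]; exact Prod.ext h.1 h.2)
      | inr k =>
        by_cases hk : k = 1 ∨ k = 2
        · simp [hx, hk] at h
        · simp [hx, hk] at h

/-- vertical sum: `A` above `B` -/
def vsum (A : Tangle V) (B : Tangle W) : Tangle (V ⊕ W) where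
  port i := if i = 0 ∨ i = 1 then dl (A.port i) else dr (B.port i)
  link x := match x.1 with
    | Sum.inl v => match A.link (v, x.2) with
      | Sum.inl y => Sum.inl (dl y)
      | Sum.inr i => if i = 0 ∨ i = 1 then Sum.inr i else Sum.inl (dr (B.port (3 - i)))
    | Sum.inr w => match B.link (w, x.2) with
      | Sum.inl y => Sum.inl (dr y)
      | Sum.inr i => if i = 0 ∨ i = 1 then Sum.inl (dl (A.port (3 - i))) else Sum.inr i
  link_port i := by
    by_cases hi : i = 0 ∨ i = 1
    · simp [hi, A.link_port]
    · simp [hi, B.link_port]
  port_link x i h := by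
    obtain ⟨v | w, j⟩ := x
    · cases hx : A.link (v, j) with
      | inl y => simp [hx] at h
      | inr k =>
        by_cases hk : k = 0 ∨ k = 1
        · simp only [hx, hk, if_true, Sum.inr.injEq] at h
          subst h
          simp [hk, A.port_link _ _ hx]
        · simp [hx, hk] at h
    · cases hx : B.link (w, j) with
      | inl y => simp [hx] at h
      | inr k =>
        by_cases hk : k = 0 ∨ k = 1
        · simp [hx, hk] at h
        · simp only [hx, hk, if_false, Sum.inr.injEq] at h
          subst h
          simp [hk, B.port_link _ _ hx]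
  invol x y h := by
    obtain ⟨v | w, j⟩ := x
    · cases hx : A.link (v, j) with
      | inl z =>
        simp only [hx, Sum.inl.injEq] at h
        subst h
        simp [A.invol _ _ hx]
      | inr k =>
        by_cases hk : k = 0 ∨ k = 1
        · simp [hx, hk] at h
        · simp only [hx, hk, if_false, Sum.inl.injEq] at h
          subst h
          have h1 := z4_p01 k hk
          have h2 : A.port (3 - (3 - k)) = (v, j) := by rw [z4_sub33, A.port_link _ _ hx]
          simp only [B.link_port, h1, h2, if_true]
    · cases hx : B.link (w, j) with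
      | inl z =>
        simp only [hx, Sum.inl.injEq] at h
        subst h
        simp [B.invol _ _ hx]
      | inr k =>
        by_cases hk : k = 0 ∨ k = 1
        · simp only [hx, hk, if_true, Sum.inl.injEq] at h
          subst h
          have h1 := z4_n01 k hk
          have h2 : B.port (3 - (3 - k)) = (w, j) := by rw [z4_sub33, B.port_link _ _ hx]
          simp only [A.link_port, h1, h2, if_false]
        · simp [hx, hk] at h
  noFix x h := by
    obtain ⟨v | w, j⟩ := x
    · cases hx : A.link (v, j) with
      | inl z =>
        simp only [hx, Sum.inl.injEq, Prod.mk.injEq] at h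
        exact A.noFix (v, j) (by rw [hx, Sum.inl.injEq]; exact Prod.ext h.1 h.2)
      | inr k =>
        by_cases hk : k = 0 ∨ k = 1
        · simp [hx, hk] at h
        · simp [hx, hk] at h
    · cases hx : B.link (w, j) with
      | inl z =>
        simp only [hx, Sum.inl.injEq, Prod.mk.injEq, Sum.inr.injEq] at h
        exact B.noFix (w, j) (by rw [hx, Sum.inl.injEq]; exact Prod.ext h.1 h.2)
      | inr k =>
        by_cases hk : k = 0 ∨ k = 1
        · simp [hx, hk] at h
        · simp [hx, hk] at h

end Pool.Agent.Helper65.LK
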