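import Pool.Agent.Helper65.LK.APD

/-!
# LK-32. Sign changes of local bipolar orientations

`chg_iff`: `x = (v, i)`, `S.α x = (w, j)`, `par i ≠ par j`.  `faceP S x = (w, j + 1)`,
`faceP S (S.α x) = (v, i + 1)`.  For even `i`: `sgn o (v, i+1) = sgn o (v, i)`, and for odd `j`
`sgn o (w, j+1) = ! sgn o (w, j)`; so both sides say `sgn o (v,i) = sgn o (w,j)`.  The other case is
symmetric.

`lbo_two`: `n = card V`.  By `chg_iff` exactly half of the `4 n` darts `x` have `Chg S o x` (`α` exchanges
them with the others): `2 n`.  Each face (cycle of `faceP S`) contains an even number of them (going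
around the cycle), and at least two if the sign is not constant on the face.  There are `n + 2` faces
(`planar`, `conn`).  The faces of `(v₀, 0)` and `(v₀, 2)` are constant with different signs
(`sgn o (v₀, 2) = ! sgn o (v₀, 0)`), so they are two different faces, and all other faces are not constant.
So the `n` other faces contain at least `2 n` changes, hence exactly two each.

`lbo_chg_special`: the sign is constant on a special face.
`lbo_par`: all corners of a face have the same parity (`faceP` preserves the parity by `alt`), so a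
special face contains only even corners.
-/

namespace Pool.Agent.Helper65.LK

open Function

variable {V : Type} [Fintype V] [DecidableEq V] {S : Shadow V} {o : V → Bool} {v₀ : V}

private lemma app_inv {X : Type} (π : Equiv.Perm X) (x : X) : π (π⁻¹ x) = x :=
  π.apply_symm_apply x

private lemma inv_zpow {X β : Type} (π : Equiv.Perm X) (g : X → β) (h : ∀ x, g (π x) = g x)
    (i : ℤ) (x : X) : g ((π ^ i) x) = g x := by
  have h' : ∀ x, g (π⁻¹ x) = g x := by
    intro x
    have h1 := h (π⁻¹ x)
    rw [app_inv] at h1
    exact h1.symm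
  induction i using Int.induction_on with
  | zero => rfl
  | succ n ih => rw [add_comm, zpow_add, zpow_one, Equiv.Perm.mul_apply, h, ih]
  | pred n ih =>
    rw [sub_eq_add_neg, add_comm, zpow_add, zpow_neg, zpow_one, Equiv.Perm.mul_apply, h', ih]

omit [Fintype V] [DecidableEq V] in
private lemma faceP_mk (x : Dart V) : faceP S x = ((S.α x).1, (S.α x).2 + 1) := rfl

private lemma par_succ : ∀ i j : ZMod 4, par j ≠ par i → par (j + 1) = par i := by
  decide

theorem Face.par_eq (hS : APD S) {x y : Dart V} (h : Face S x y) : par x.2 = par y.2 := by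
  obtain ⟨i, hi⟩ := h
  have h1 : ∀ x : Dart V, par (faceP S x).2 = par x.2 := by
    intro x
    rw [faceP_mk]
    exact par_succ _ _ (hS.alt x)
  have h2 := inv_zpow (faceP S) (fun x : Dart V => par x.2) h1 i x
  rw [hi] at h2
  exact h2.symm

/-- the sign as a function of the orientation at the vertex -/
private def sg0 (a : Bool) (i : ZMod 4) : Bool := if i = 0 ∨ i = 1 then a else !a

omit [Fintype V] [DecidableEq V] in
private lemma sgn_eq (o : V → Bool) (x : Dart V) : sgn o x = sg0 (o x.1) x.2 := rfl

private lemma sg0_key : ∀ i j : ZMod 4, ∀ a b : Bool, par j ≠ par i →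
    ((sg0 b j ≠ sg0 a (i + 1)) ↔ ¬ (sg0 a i ≠ sg0 b (j + 1))) := by
  decide

theorem chg_iff (hS : APD S) (o : V → Bool) (x : Dart V) :
    Chg S o (S.α x) ↔ ¬ Chg S o x := by
  unfold Chg
  rw [faceP_mk, faceP_mk, S.invol]
  simp only [sgn_eq]
  exact sg0_key _ _ _ _ (hS.alt x)

/-- a face is special -/
def Special (S : Shadow V) (v₀ : V) (x : Dart V) : Prop := Face S x (v₀, 0) ∨ Face S x (v₀, 2)

omit [Fintype V] [DecidableEq V] in
private lemma face_refl (x : Dart V) : Face S x x := Equiv.Perm.SameCycle.refl _ _

omit [Fintype V] [DecidableEq V] in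
private lemma face_symm {x y : Dart V} (h : Face S x y) : Face S y x :=
  Equiv.Perm.SameCycle.symm h

omit [Fintype V] [DecidableEq V] in
private lemma face_trans {x y z : Dart V} (h : Face S x y) (h' : Face S y z) : Face S x z :=
  Equiv.Perm.SameCycle.trans h h'

omit [Fintype V] [DecidableEq V] in
private lemma face_step (x : Dart V) : Face S x (faceP S x) := ⟨1, by rw [zpow_one]⟩

theorem lbo_chg_special (h : LBO S o v₀) {x : Dart V} (hx : Special S v₀ x) :
    ¬ Chg S o x := by
  intro hc
  exact hc (((h x).mpr hx) _ (face_step x)).symm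

/-- the number of faces -/
theorem card_faces (hS : APD S) : cycles (faceP S) = Fintype.card V + 2 := by
  have h1 : cycles (faceP S) = nX (fun _ : V => St.over1) + 2 * pieces S (ov V) := hS.planar
  rw [hS.conn] at h1
  have h2 : nX (fun _ : V => St.over1) = Fintype.card V := by
    unfold nX
    simp [St.isX]
  rw [h1, h2]

/-- if `S` is a connected alternating diagram, the two special faces are different, and the sign
is not constant on the other faces, then it is constant on the special faces as soon as the number
of changes is at most `2 n` outside of them -/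
theorem card_chg (hS : APD S) (o : V → Bool) :
    {x : Dart V | Chg S o x}.ncard = 2 * Fintype.card V := by
  classical
  have h1 : {x : Dart V | Chg S o x}.ncard = {x : Dart V | ¬ Chg S o x}.ncard := by
    refine Set.ncard_congr (fun x _ => S.α x) ?_ ?_ ?_
    · intro x hx
      have hx' : Chg S o x := hx
      show ¬ Chg S o (S.α x)
      rw [chg_iff hS]
      exact fun h => h hx'
    · intro x y _ _ h
      exact S.α.injective h
    · intro y hy
      have hy' : ¬ Chg S o y := hy
      refine ⟨S.α y, ?_, S.invol y⟩
      show Chg S o (S.α y)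
      rw [chg_iff hS]
      exact hy'
  have h2 := Set.ncard_add_ncard_compl {x : Dart V | Chg S o x}
  have h3 : {x : Dart V | Chg S o x}ᶜ = {x : Dart V | ¬ Chg S o x} := rfl
  rw [h3, ← h1] at h2
  have h4 : Nat.card (Dart V) = Fintype.card V * 4 := by
    rw [Nat.card_eq_fintype_card, Fintype.card_prod, ZMod.card]
  omega

private lemma b2 : ∀ a b : Bool, (if a ≠ b then (1 : ZMod 2) else 0) =
    (if a = true then 1 else 0) + (if b = true then 1 else 0) := by
  decide

/-- the number of changes in a face is even -/
theorem even_chg (S : Shadow V) (o : V → Bool) (x : Dart V) :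
    Even {y : Dart V | Face S x y ∧ Chg S o y}.ncard := by
  classical
  have h1 : {y : Dart V | Face S x y ∧ Chg S o y}.ncard =
      ((Finset.univ.filter fun y => Face S x y).filter fun y => Chg S o y).card := by
    rw [Set.ncard_eq_toFinset_card']
    congr 1
    ext y
    simp
  rw [h1, ← ZMod.natCast_eq_zero_iff_even, Finset.card_filter]
  push_cast
  have h2 : ∀ y ∈ Finset.univ.filter (fun y => Face S x y),
      (if Chg S o y then (1 : ZMod 2) else 0) =
      (if sgn o y = true then 1 else 0) + (if sgn o (faceP S y) = true then 1 else 0) := by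
    intro y _
    have h4 := b2 (sgn o y) (sgn o (faceP S y))
    unfold Chg
    convert h4
  rw [Finset.sum_congr rfl h2, Finset.sum_add_distrib]
  have h3 : ∑ y ∈ Finset.univ.filter (fun y => Face S x y),
      (if sgn o (faceP S y) = true then (1 : ZMod 2) else 0) =
      ∑ y ∈ Finset.univ.filter (fun y => Face S x y),
        (if sgn o y = true then (1 : ZMod 2) else 0) := by
    refine Finset.sum_bij (fun y _ => faceP S y) ?_ ?_ ?_ ?_
    · intro y hy
      rw [Finset.mem_filter] at hy ⊢
      exact ⟨Finset.mem_univ _, face_trans hy.2 (face_step y)⟩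
    · intro a _ b _ h
      exact (faceP S).injective h
    · intro y hy
      rw [Finset.mem_filter] at hy
      refine ⟨(faceP S)⁻¹ y, ?_, app_inv _ _⟩
      rw [Finset.mem_filter]
      refine ⟨Finset.mem_univ _, face_trans hy.2 ?_⟩
      have h4 := face_step (S := S) ((faceP S)⁻¹ y)
      rw [app_inv] at h4
      exact face_symm h4
    · intro y _
      rfl
  rw [h3, ← two_mul]
  have h5 : (2 : ZMod 2) = 0 := rfl
  rw [h5, zero_mul]

theorem lbo_two (hS : APD S) (h : LBO S o v₀) (x : Dart V) (hx : ¬ Special S v₀ x) :
    {y : Dart V | Face S x y ∧ Chg S o y}.ncard = 2 := by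
  classical
  let st : Setoid (Dart V) := Equiv.Perm.SameCycle.setoid (faceP S)
  have hmk : ∀ x y : Dart V, (Quotient.mk st x = Quotient.mk st y) ↔ Face S x y := by
    intro x y
    exact Quotient.eq
  letI : Fintype (Quotient st) := Fintype.ofFinite _
  have hcard : Fintype.card (Quotient st) = Fintype.card V + 2 := by
    have h1 := card_faces hS
    unfold cycles at h1
    rw [Nat.card_eq_fintype_card] at h1
    rw [← h1]
  set C : Finset (Dart V) := Finset.univ.filter fun y => Chg S o y with hC
  have hCc : C.card = 2 * Fintype.card V := by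
    have h1 := card_chg hS o
    rw [Set.ncard_eq_toFinset_card'] at h1
    rw [← h1]
    congr 1
    ext y
    simp [hC]
  set cnt : Quotient st → ℕ := fun q => (C.filter fun y => Quotient.mk st y = q).card with hcnt
  have hsum : C.card = ∑ q : Quotient st, cnt q :=
    Finset.card_eq_sum_card_fiberwise (fun y _ => Finset.mem_univ _)
  have hcx : ∀ x : Dart V, cnt (Quotient.mk st x) =
      {y : Dart V | Face S x y ∧ Chg S o y}.ncard := by
    intro x
    rw [Set.ncard_eq_toFinset_card']
    simp only [hcnt]
    congr 1
    ext y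
    simp only [Finset.mem_filter, hC, Finset.mem_univ, true_and, Set.mem_toFinset,
      Set.mem_ofPred_eq, hmk]
    constructor
    · rintro ⟨h1, h2⟩
      exact ⟨face_symm h2, h1⟩
    · rintro ⟨h1, h2⟩
      exact ⟨h2, face_symm h1⟩
  -- special faces
  have hne : Quotient.mk st ((v₀, 0) : Dart V) ≠ Quotient.mk st ((v₀, 2) : Dart V) := by
    intro h1
    rw [hmk] at h1
    have h2 := (h (v₀, 0)).mpr (Or.inl (face_refl _)) _ h1
    have h3 : sgn o ((v₀, 2) : Dart V) = !(o v₀) := by
      unfold sgn
      rw [if_neg]
      show ¬ ((2 : ZMod 4) = 0 ∨ (2 : ZMod 4) = 1)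
      decide
    have h4 : sgn o ((v₀, 0) : Dart V) = o v₀ := by
      unfold sgn
      rw [if_pos]
      exact Or.inl rfl
    rw [h3, h4] at h2
    revert h2
    cases o v₀ <;> decide
  set N : Finset (Quotient st) := (Finset.univ.erase (Quotient.mk st ((v₀, 0) : Dart V))).erase
    (Quotient.mk st ((v₀, 2) : Dart V)) with hN
  have hNc : N.card = Fintype.card V := by
    rw [hN, Finset.card_erase_of_mem, Finset.card_erase_of_mem (Finset.mem_univ _),
      Finset.card_univ, hcard]
    · omega
    · rw [Finset.mem_erase]
      exact ⟨hne.symm, Finset.mem_univ _⟩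
  have h0 : cnt (Quotient.mk st ((v₀, 0) : Dart V)) = 0 := by
    rw [hcx, Set.ncard_eq_zero]
    rw [Set.eq_empty_iff_forall_notMem]
    rintro y ⟨h1, h2⟩
    exact lbo_chg_special h (Or.inl (face_symm h1)) h2
  have h2' : cnt (Quotient.mk st ((v₀, 2) : Dart V)) = 0 := by
    rw [hcx, Set.ncard_eq_zero]
    rw [Set.eq_empty_iff_forall_notMem]
    rintro y ⟨h1, h2⟩
    exact lbo_chg_special h (Or.inr (face_symm h1)) h2
  have hsumN : ∑ q ∈ N, cnt q = 2 * Fintype.card V := by
    rw [← hCc, hsum, ← Finset.add_sum_erase _ cnt (Finset.mem_univ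
      (Quotient.mk st ((v₀, 0) : Dart V))), h0, zero_add, hN,
      ← Finset.add_sum_erase _ cnt (show (Quotient.mk st ((v₀, 2) : Dart V)) ∈
        Finset.univ.erase (Quotient.mk st ((v₀, 0) : Dart V)) by
        rw [Finset.mem_erase]
        exact ⟨hne.symm, Finset.mem_univ _⟩), h2', zero_add]
  have hge : ∀ q ∈ N, 2 ≤ cnt q := by
    intro q hq
    obtain ⟨z, rfl⟩ := Quotient.exists_rep q
    rw [hN, Finset.mem_erase, Finset.mem_erase] at hq
    have hz : ¬ Special S v₀ z := by
      rintro (h1 | h1)
      · exact hq.2.1 ((hmk _ _).mpr h1)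
      · exact hq.1 ((hmk _ _).mpr h1)
    have h1 : ¬ ∀ y, Face S z y → sgn o y = sgn o z := fun h1 => hz ((h z).mp h1)
    have hev := even_chg S o z
    rw [← hcx] at hev
    have hpos : cnt (Quotient.mk st z) ≠ 0 := by
      intro h2
      rw [hcx, Set.ncard_eq_zero, Set.eq_empty_iff_forall_notMem] at h2
      apply h1
      rintro y ⟨i, hi⟩
      have h3 : ∀ i : ℤ, sgn o (((faceP S) ^ i) z) = sgn o z := by
        intro i
        induction i using Int.induction_on with
        | zero => rfl
        | succ n ih =>
          have h4 := h2 (((faceP S) ^ (n : ℤ)) z)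
          have h5 : ¬ Chg S o (((faceP S) ^ (n : ℤ)) z) := fun h6 => h4 ⟨⟨n, rfl⟩, h6⟩
          unfold Chg at h5
          rw [not_not] at h5
          rw [add_comm, zpow_add, zpow_one, Equiv.Perm.mul_apply, ← h5, ih]
        | pred n ih =>
          have h4 := h2 (((faceP S) ^ (-(n : ℤ) - 1)) z)
          have h5 : ¬ Chg S o (((faceP S) ^ (-(n : ℤ) - 1)) z) := fun h6 => h4 ⟨⟨_, rfl⟩, h6⟩
          unfold Chg at h5
          rw [not_not] at h5
          rw [h5, ← Equiv.Perm.mul_apply, ← zpow_one_add, ← ih]
          congr 3
          ring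
      rw [← hi]
      exact h3 i
    obtain ⟨k, hk⟩ := hev
    omega
  -- conclusion
  have hxN : Quotient.mk st x ∈ N := by
    rw [hN, Finset.mem_erase, Finset.mem_erase]
    refine ⟨fun h1 => hx (Or.inr ((hmk _ _).mp h1)), fun h1 => hx (Or.inl ((hmk _ _).mp h1)),
      Finset.mem_univ _⟩
  rw [← hcx]
  by_contra hne2
  have hlt : 2 < cnt (Quotient.mk st x) := lt_of_le_of_ne (hge _ hxN) (Ne.symm hne2)
  have h3 : ∑ q ∈ N, 2 < ∑ q ∈ N, cnt q := Finset.sum_lt_sum hge ⟨_, hxN, hlt⟩
  rw [hsumN, Finset.sum_const, hNc, smul_eq_mul] at h3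
  omega

/-- conversely: if the sign is constant on the special faces and changes exactly twice on the
others, or just is not constant on the others, then it is a local bipolar orientation -/
theorem lbo_of (h1 : ∀ x : Dart V, Special S v₀ x → ¬ Chg S o x)
    (h2 : ∀ x : Dart V, ¬ Special S v₀ x → ∃ y, Face S x y ∧ Chg S o y) : LBO S o v₀ := by
  intro x
  constructor
  · intro h
    by_contra hs
    obtain ⟨y, hy, hc⟩ := h2 x hs
    exact hc ((h y hy).trans (h _ (face_trans hy (face_step y))).symm)
  · intro hs y hy
    obtain ⟨i, hi⟩ := hy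
    have hn : ∀ z : Dart V, Face S x z → ¬ Chg S o z := by
      intro z hz
      apply h1
      rcases hs with hs | hs
      · exact Or.inl (face_trans (face_symm hz) hs)
      · exact Or.inr (face_trans (face_symm hz) hs)
    have h3 : ∀ i : ℤ, sgn o (((faceP S) ^ i) x) = sgn o x := by
      intro i
      induction i using Int.induction_on with
      | zero => rfl
      | succ n ih =>
        have h5 := hn (((faceP S) ^ (n : ℤ)) x) ⟨n, rfl⟩
        unfold Chg at h5
        rw [not_not] at h5
        rw [add_comm, zpow_add, zpow_one, Equiv.Perm.mul_apply, ← h5, ih]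
      | pred n ih =>
        have h5 := hn (((faceP S) ^ (-(n : ℤ) - 1)) x) ⟨_, rfl⟩
        unfold Chg at h5
        rw [not_not] at h5
        rw [h5, ← Equiv.Perm.mul_apply, ← zpow_one_add, ← ih]
        congr 3
        ring
    rw [← hi]
    exact h3 i

end Pool.Agent.Helper65.LK
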