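import Pool.Agent.Helper65.LK.SweepEx

/-!
# LK-04. Uniqueness of skein functions

`alt_zero`: two states of the same shape differ by crossing changes at finitely many vertices.

`skein_unique`: strong induction on `nX t`; for `t` of a given shape `G = F₁ - F₂` satisfies
`G t + G (update t v (t v).sw) = 0` by the skein relations at `v` for both functions and the
induction hypothesis (both smoothings have fewer crossings), so `alt_zero` applies.

`restrict`, `sameShape`: unfold; `Sweep S t h`, `pat t h`, `comps S t`, `SameOrd`, `Comp`, `isC`,
`tau`, `Arc` depend only on the shape of `t` (`St.mate`, `isX` are the same for `over1` and `over0`).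

`unique_low`: by `restrict` and `skein_unique`, with the sweeps of `exists_sweep`:
`F (pat t h) = mu ^ .. = F' (pat t h)`.
-/

namespace Pool.Agent.Helper65.LK

open Function

private lemma uq_cases {x y : St} (h : x.shape = y.shape) (hne : x ≠ y) :
    x.isX = true ∧ y = x.sw := by
  revert h hne
  cases x <;> cases y <;> decide

private lemma uq_isX {x y : St} (h : x.shape = y.shape) : x.isX = y.isX := by
  revert h
  cases x <;> cases y <;> decide

private lemma uq_mate {x y : St} (h : x.shape = y.shape) : x.mate = y.mate := by
  cases x <;> cases y <;> first | rfl | (exact absurd h (by decide))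

private lemma uq_next {x y : St} (h : x.shape = y.shape) : x.next = y.next ∧ x.prev = y.prev := by
  cases x <;> cases y <;> first | exact ⟨rfl, rfl⟩ | (exact absurd h (by decide))

private lemma uq_eq {x y : St} (h : x.shape = y.shape) (hx : x.isX = false) : x = y := by
  revert h hx
  cases x <;> cases y <;> decide

private lemma uq_shape {x y : St} (hx : x.isX = true) (hy : y.isX = true) : x.shape = y.shape := by
  revert hx hy
  cases x <;> cases y <;> decide

private lemma uq_sw_shape (x : St) : x.sw.shape = x.shape := by
  cases x <;> decide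

variable {V : Type} [Fintype V] [DecidableEq V] {R : Type} [CommRing R]

omit [Fintype V] [DecidableEq V] in
private lemma uq_symm {t s : V → St} (h : SameShape t s) : SameShape s t := fun v => (h v).symm

omit [Fintype V] [DecidableEq V] in
private lemma uq_below_trans {t' t s : V → St} (h : Below t' t) (h' : Below t s) : Below t' s := by
  intro v hv
  have h1 := h' v hv
  rw [h v (by rw [h1]; exact hv), h1]

omit [Fintype V] [DecidableEq V] in
private lemma uq_below_of_shape {t s : V → St} (h : SameShape t s) : Below t s := by
  intro v hv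
  exact (uq_eq (h v).symm hv).symm

omit [Fintype V] in
private lemma uq_below_update {t s : V → St} (h : Below t s) {v : V} (hv : (t v).isX = true)
    (x : St) : Below (update t v x) s := by
  intro w hw
  by_cases hwv : w = v
  · subst hwv
    have := h w hw
    rw [this, hw] at hv
    exact absurd hv (by decide)
  · rw [update_of_ne hwv]
    exact h w hw

omit [DecidableEq V] in
private lemma uq_nX_le {t s : V → St} (h : Below t s) : nX t ≤ nX s := by
  unfold nX
  refine Finset.card_le_card fun v hv => ?_
  rw [Finset.mem_filter] at hv ⊢
  refine ⟨hv.1, ?_⟩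
  by_contra hcon
  have h0 : (s v).isX = false := by simpa using hcon
  have := h v h0
  rw [this, h0] at hv
  exact absurd hv.2 (by decide)

private lemma uq_nX_update {t : V → St} {v : V} (hv : (t v).isX = true) {x : St}
    (hx : x.isX = false) : nX (update t v x) < nX t := by
  unfold nX
  refine Finset.card_lt_card ⟨fun w hw => ?_, fun hsub => ?_⟩
  · rw [Finset.mem_filter] at hw ⊢
    by_cases hwv : w = v
    · subst hwv
      exact ⟨hw.1, hv⟩
    · rw [update_of_ne hwv] at hw
      exact hw
  · have h1 : v ∈ Finset.univ.filter fun w => (t w).isX = true := by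
      rw [Finset.mem_filter]
      exact ⟨Finset.mem_univ v, hv⟩
    have h2 := hsub h1
    rw [Finset.mem_filter, update_self, hx] at h2
    exact absurd h2.2 (by decide)

omit [DecidableEq V] in
private lemma uq_sameShape_of {t s : V → St} (h : Below t s) (hn : nX s ≤ nX t) :
    SameShape t s := by
  have hsub : (Finset.univ.filter fun v => (t v).isX = true) ⊆
      Finset.univ.filter fun v => (s v).isX = true := by
    intro v hv
    rw [Finset.mem_filter] at hv ⊢
    refine ⟨hv.1, ?_⟩
    by_contra hcon
    have h0 : (s v).isX = false := by simpa using hcon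
    have := h v h0
    rw [this, h0] at hv
    exact absurd hv.2 (by decide)
  have heq := Finset.eq_of_subset_of_card_le hsub hn
  intro v
  by_cases hv : (s v).isX = true
  · have h1 : v ∈ Finset.univ.filter fun v => (s v).isX = true := by
      rw [Finset.mem_filter]
      exact ⟨Finset.mem_univ v, hv⟩
    rw [← heq, Finset.mem_filter] at h1
    exact uq_shape h1.2 hv
  · rw [h v (by simpa using hv)]

private lemma uq_update_shape {t s : V → St} (h : SameShape t s) (v : V) :
    SameShape (update t v (t v).sw) s := by
  intro w
  by_cases hwv : w = v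
  · subst hwv
    rw [update_self, uq_sw_shape, h w]
  · rw [update_of_ne hwv, h w]

theorem alt_zero (s : V → St) (G : (V → St) → R)
    (hG : ∀ t v, SameShape t s → (t v).isX = true → G t + G (update t v (t v).sw) = 0)
    (p : V → St) (hp : SameShape p s) (h0 : G p = 0) (t : V → St) (ht : SameShape t s) :
    G t = 0 := by
  classical
  have key : ∀ A : Finset V, ∀ t : V → St, SameShape t s → (∀ v, v ∉ A → t v = p v) →
      G t = 0 := by
    intro A
    induction A using Finset.induction_on with
    | empty =>
      intro t _ hout
      have : t = p := funext fun v => hout v (Finset.notMem_empty v)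
      rw [this, h0]
    | insert a A ha ih =>
      intro t ht hout
      by_cases hta : t a = p a
      · refine ih t ht fun w hw => ?_
        by_cases hwa : w = a
        · rw [hwa, hta]
        · exact hout w (by rw [Finset.mem_insert]; push Not; exact ⟨hwa, hw⟩)
      · obtain ⟨hX, hpa⟩ := uq_cases ((ht a).trans (hp a).symm) hta
        have h1 := hG t a ht hX
        have h2 := ih (update t a (t a).sw) (uq_update_shape ht a) (fun w hw => by
          by_cases hwa : w = a
          · rw [hwa, update_self, hpa]
          · rw [update_of_ne hwa]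
            exact hout w (by rw [Finset.mem_insert]; push Not; exact ⟨hwa, hw⟩))
        rw [h2, add_zero] at h1
        exact h1
  exact key Finset.univ t ht fun v hv => absurd (Finset.mem_univ v) hv

theorem skein_unique (z : R) (s : V → St) (F₁ F₂ : (V → St) → R)
    (h1 : ∀ t, Below t s → ∀ v, (t v).isX = true → SkeinAt z F₁ t v)
    (h2 : ∀ t, Below t s → ∀ v, (t v).isX = true → SkeinAt z F₂ t v)
    (h3 : ∀ t, Below t s → ∃ p, SameShape p t ∧ F₁ p = F₂ p) (t : V → St) (ht : Below t s) :
    F₁ t = F₂ t := by
  have key : ∀ n : ℕ, ∀ t, Below t s → nX t = n → F₁ t = F₂ t := by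
    intro n
    induction n using Nat.strong_induction_on with
    | _ n ih =>
      intro t ht hn
      obtain ⟨p, hp, hpe⟩ := h3 t ht
      have := alt_zero t (fun t => F₁ t - F₂ t) (fun t' v ht' hv => ?_) p hp
        (by simp only [hpe, sub_self]) t (fun _ => rfl)
      · exact sub_eq_zero.1 this
      · have hb : Below t' s := uq_below_trans (uq_below_of_shape ht') ht
        have e1 := h1 t' hb v hv
        have e2 := h2 t' hb v hv
        unfold SkeinAt at e1 e2
        have hle : nX t' ≤ n := by
          rw [← hn]
          exact uq_nX_le (uq_below_of_shape ht')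
        have e3 := ih _ (lt_of_lt_of_le (uq_nX_update hv (x := St.smA) rfl) hle)
          (update t' v St.smA) (uq_below_update hb hv _) rfl
        have e4 := ih _ (lt_of_lt_of_le (uq_nX_update hv (x := St.smB) rfl) hle)
          (update t' v St.smB) (uq_below_update hb hv _) rfl
        rw [e3, e4] at e1
        linear_combination e1 - e2
  exact key _ t ht rfl

omit [Fintype V] [DecidableEq V] in
private lemma uq_tau {t s : V → St} (h : SameShape t s) : tau t = tau s := by
  ext x : 1
  show (x.1, (t x.1).mate x.2) = (x.1, (s x.1).mate x.2)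
  rw [uq_mate (h x.1)]

omit [Fintype V] [DecidableEq V] in
private lemma uq_rot {t s : V → St} (h : SameShape t s) : rot t = rot s := by
  ext x : 1
  show (x.1, (t x.1).next x.2) = (x.1, (s x.1).next x.2)
  rw [(uq_next (h x.1)).1]

omit [Fintype V] [DecidableEq V] in
private lemma uq_isC {t s : V → St} (h : SameShape t s) : isC t = isC s := by
  funext x
  unfold isC
  rw [uq_isX (h x.1)]

omit [Fintype V] [DecidableEq V] in
private lemma uq_Cr {t s : V → St} (h : SameShape t s) : Cr t = Cr s := by
  funext v
  unfold Cr
  rw [uq_isX (h v)]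

omit [Fintype V] [DecidableEq V] in
private lemma uq_Comp {t s : V → St} (h : SameShape t s) (S : Shadow V) :
    Comp S t = Comp S s := by
  unfold Comp
  rw [uq_tau h]

omit [Fintype V] [DecidableEq V] in
private lemma uq_arcRel {t s : V → St} (h : SameShape t s) (U : V → Prop) (S : Shadow V) :
    arcRel U S t = arcRel U S s := by
  funext x y
  unfold arcRel
  rw [uq_tau h]

omit [Fintype V] [DecidableEq V] in
private lemma uq_partner {t s : V → St} (h : SameShape t s) (S : Shadow V) :
    partner (Cr t) S t = partner (Cr s) S s := by
  rw [uq_Cr h]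
  unfold partner
  rw [uq_arcRel h]

omit [DecidableEq V] in
private lemma uq_sweep {t s : V → St} (h : SameShape t s) {S : Shadow V} {g : Dart V → ℕ}
    (hS : Sweep S t g) : Sweep S s g where
  const := by
    rw [← uq_isC h, ← uq_tau h]
    exact hS.const
  inj := by
    rw [← uq_isC h, ← uq_tau h]
    exact hS.inj
  cut := by
    rw [← uq_isC h, ← uq_partner h]
    exact hS.cut
  sep := by
    rw [← uq_isC h, ← uq_Comp h]
    exact hS.sep

theorem sweep_sameShape {S : Shadow V} {s t : V → St} (h : SameShape t s) (g : Dart V → ℕ) :
    (Sweep S t g ↔ Sweep S s g) ∧ pat t g = pat s g ∧ comps S t = comps S s ∧ nX t = nX s ∧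
      (∀ g', SameOrd S t g g' ↔ SameOrd S s g g') ∧ tau t = tau s ∧ rot t = rot s := by
  refine ⟨⟨uq_sweep h, uq_sweep (uq_symm h)⟩, ?_, ?_, ?_, ?_, uq_tau h, uq_rot h⟩
  · funext v
    unfold pat
    rw [uq_isX (h v)]
    by_cases hv : (s v).isX = true
    · rw [if_pos hv, if_pos hv]
    · rw [if_neg hv, if_neg hv]
      exact (uq_eq (h v).symm (by simpa using hv)).symm
  · unfold comps
    rw [uq_tau h]
  · unfold nX
    congr 1
    ext v
    rw [Finset.mem_filter, Finset.mem_filter, uq_isX (h v)]
  · intro g'
    unfold SameOrd
    rw [uq_isC h, uq_Comp h]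

theorem pat_sameShape (s : V → St) (h : Dart V → ℕ) : SameShape (pat s h) s := by
  intro v
  unfold pat
  by_cases hv : (s v).isX = true
  · rw [if_pos hv]
    refine uq_shape ?_ hv
    split_ifs <;> rfl
  · rw [if_neg hv]

variable {z mu : R} {S : Shadow V} {s : V → St} {F F' : (V → St) → R}
  {Ok Ok' : (Dart V → ℕ) → Prop}

theorem IsSkein.restrict (hF : IsSkein z mu S s F Ok) {t : V → St} (ht : Below t s)
    (hn : nX t < nX s) : IsSkein z mu S t F (fun _ => True) where
  skein := fun t' ht' v hv => hF.skein t' (uq_below_trans ht' ht) v hv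
  low := fun t' ht' hn' h hS => hF.low t' (uq_below_trans ht' ht) (hn'.trans hn) h hS
  top := fun h hS _ => hF.low t ht hn h hS

theorem IsSkein.sameShape (hF : IsSkein z mu S s F Ok) {t : V → St} (ht : SameShape t s) :
    IsSkein z mu S t F Ok where
  skein := fun t' ht' v hv => hF.skein t' (uq_below_trans ht' (uq_below_of_shape ht)) v hv
  low := fun t' ht' hn' h hS => hF.low t' (uq_below_trans ht' (uq_below_of_shape ht))
    (by rw [← (sweep_sameShape (S := S) ht h).2.2.2.1]; exact hn') h hS
  top := fun h hS hOk => by
    obtain ⟨e1, e2, e3, -⟩ := sweep_sameShape (S := S) ht h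
    rw [e2, e3]
    exact hF.top h (e1.1 hS) hOk

theorem IsSkein.unique_low (hF : IsSkein z mu S s F Ok) (hF' : IsSkein z mu S s F' Ok')
    {t : V → St} (ht : Below t s) (hn : nX t < nX s) : F t = F' t := by
  refine skein_unique z t F F' (fun t' ht' => hF.skein t' (uq_below_trans ht' ht))
    (fun t' ht' => hF'.skein t' (uq_below_trans ht' ht)) (fun t' ht' => ?_) t (fun _ _ => rfl)
  obtain ⟨h, hS⟩ := exists_sweep S t'
  have hn' : nX t' < nX s := lt_of_le_of_lt (uq_nX_le ht') hn
  refine ⟨pat t' h, pat_sameShape t' h, ?_⟩
  rw [hF.low t' (uq_below_trans ht' ht) hn' h hS, hF'.low t' (uq_below_trans ht' ht) hn' h hS]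

/-- two skein functions agree on all states of the same shape as soon as they agree on one -/
theorem IsSkein.alt (hF : IsSkein z mu S s F Ok) (hF' : IsSkein z mu S s F' Ok')
    {p t : V → St} (hp : SameShape p s) (h0 : F p = F' p) (ht : SameShape t s) : F t = F' t := by
  have := alt_zero s (fun t => F t - F' t) (fun t' v ht' hv => ?_) p hp
    (by simp only [h0, sub_self]) t ht
  · exact sub_eq_zero.1 this
  · have hb : Below t' s := uq_below_of_shape ht'
    have e1 := hF.skein t' hb v hv
    have e2 := hF'.skein t' hb v hv
    unfold SkeinAt at e1 e2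
    have hle : nX t' ≤ nX s := uq_nX_le hb
    have e3 := hF.unique_low hF' (uq_below_update hb hv St.smA)
      (lt_of_lt_of_le (uq_nX_update hv rfl) hle)
    have e4 := hF.unique_low hF' (uq_below_update hb hv St.smB)
      (lt_of_lt_of_le (uq_nX_update hv rfl) hle)
    rw [e3, e4] at e1
    linear_combination e1 - e2

/-- two skein functions which are normalised on a common sweep are equal below `s` -/
theorem IsSkein.unique (hF : IsSkein z mu S s F Ok) (hF' : IsSkein z mu S s F' Ok')
    {h : Dart V → ℕ} (hs : Sweep S s h) (h1 : Ok h) (h2 : Ok' h) {t : V → St} (ht : Below t s) :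
    F t = F' t := by
  rcases lt_or_ge (nX t) (nX s) with hn | hn
  · exact hF.unique_low hF' ht hn
  · refine hF.alt hF' (pat_sameShape s h) ?_ (uq_sameShape_of ht hn)
    rw [hF.top h hs h1, hF'.top h hs h2]

end Pool.Agent.Helper65.LK
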