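import Pool.Agent.Helper65.LK.Local
import Pool.Agent.Helper65.LK.PlanarWord
import Pool.Agent.Helper65.LK.IsoPlanar

/-!
# LK-53. Moves of word diagrams

`Dg q₀ w q₁` is the word diagram as a planar diagram.  The head of the list is the outermost letter.
`dg_tm`: if the tangles of `w` and `w'` (with states) are isomorphic then the diagrams of `u ++ w` and `u ++ w'` are:
`TM.app` for every letter of `u`, then `TM.glue` with `C = leafT`.
`dg_straight`, `dg_comm`, `dg_base`: from `tm_straight`, `tm_comm`, `tm_base`.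
`dg_cancel`: the inner letter `x` with the state `q` and the outer letter `y` with the state `q.sw`, both at
`p`: the outer ends of `x` are joined with the inner ends of `y`: `(x, 2) - (y, 1)`, `(x, 3) - (y, 0)`.  `Step.r2` with
`v = x`, `i = 2`, `w = y`, `j = 0`: `upper (x, 2) = upper (y, 1)` because the states are different; the
new states are `turn 2 = turn 0 = smB`.  Then `dg_straight` twice.
`dg_kink`: the innermost letter at `p` on the base state which joins the ports `p, p + 1` (`bst (p + 1)`): the inner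
ends `(x, 0)` and `(x, 1)` of the letter are on one arc: `Step.r1` with `i = 0`, new state `turn 0 = smB`,
then `dg_straight`.
`dg_braid`: the letters `x` (inner, at `p`, state `qx`), `y` (at `p + 1`, `qy`), `z` (outer, at `p`, `qz`).
Arcs `(x, 3) - (y, 1)`, `(y, 2) - (z, 0)`, `(z, 1) - (x, 2)` (the last one through the straight vertex of the
middle slot).  `Step.r3` with `u = x, i = 2`, `v = y, j = 1`, `w = z, k = 0`; admissible:
`upper (x, 3)`, `upper (y, 2)`, `upper (z, 1)` are equal iff `qx = qz` and `qy = qx.sw`.  The new diagram has the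
inner arcs `(x, 1) - (y, 3)`, `(y, 0) - (z, 2)`, `(z, 3) - (x, 0)`, and the darts `(y, 1), (z, 1), (z, 0)` lead inside to the strands
`p, p+1, p+2`, the darts `(y, 2), (x, 2), (x, 3)` outside to the strands `p, p+1, p+2`.  It is isomorphic
to the word diagram with the letters (from inside) `z` at `p + 1`, `y` at `p`, `x` at `p + 1`, with the
same states and without rotation of the vertices.  (As a `DIso`: the crossing darts at the other vertices are
fixed.  It is convenient to do this first for tangles: for a permutation `π` of the darts of the tangle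
`T`, `link' x = π (link (π⁻¹ x))`, `port' i = π (port i)`; this commutes with `app` and `glue`, and for
`app (app (app T p) (p+1)) p` it is a `TMap`.)  The planarity of the new diagram: by `Planar.iso` (inverse map) from
`planar_word`.
-/

namespace Pool.Agent.Helper65.LK

open Function

theorem wm_map {V V' : Type} {r : Dart V → Dart V → Prop} {r' : Dart V' → Dart V' → Prop}
    (F : Dart V → Dart V') (h : ∀ x y, r x y → Relation.EqvGen r' (F x) (F y)) {x y : Dart V}
    (hxy : Relation.EqvGen r x y) : Relation.EqvGen r' (F x) (F y) := by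
  induction hxy with
  | rel a b hab => exact h a b hab
  | refl a => exact Relation.EqvGen.refl _
  | symm a b _ ih => exact Relation.EqvGen.symm _ _ ih
  | trans a b c _ _ ih1 ih2 => exact Relation.EqvGen.trans _ _ _ ih1 ih2

/-- an isomorphism of tangles with states from two maps of the darts -/
theorem TM.of_maps {V V' : Type} {T : Tangle V} {s : V → St} {T' : Tangle V'} {s' : V' → St}
    (F : Dart V → Dart V') (G : Dart V' → Dart V)
    (hF : ∀ x y, relT T s x y → ArcT T' s' (F x) (F y))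
    (hG : ∀ x y, relT T' s' x y → ArcT T s (G x) (G y))
    (hGF : ∀ x, ArcT T s (G (F x)) x) (hFG : ∀ y, ArcT T' s' (F (G y)) y)
    (cF : ∀ x, isC s x → isC s' (F x)) (cG : ∀ y, isC s' y → isC s (G y))
    (iGF : ∀ x, isC s x → G (F x) = x) (iFG : ∀ y, isC s' y → F (G y) = y)
    (hr : ∀ x, isC s x → F (sg x) = sg (F x))
    (hu : ∀ x, isC s x → (s x.1).upper x.2 = (s' (F x).1).upper (F x).2)
    (hp : ∀ i, ArcT T' s' (F (T.port i)) (T'.port i)) : TM T s T' s' := by
  have mF : ∀ {x y}, ArcT T s x y → ArcT T' s' (F x) (F y) := fun h => wm_map F hF h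
  have mG : ∀ {x y}, ArcT T' s' x y → ArcT T s (G x) (G y) := fun h => wm_map G hG h
  have tr := fun {x y z} (h : ArcT T s x y) (h' : ArcT T s y z) => Relation.EqvGen.trans x y z h h'
  have tr' := fun {x y z} (h : ArcT T' s' x y) (h' : ArcT T' s' y z) =>
    Relation.EqvGen.trans x y z h h'
  have sy := fun {x y} (h : ArcT T s x y) => Relation.EqvGen.symm x y h
  have sy' := fun {x y} (h : ArcT T' s' x y) => Relation.EqvGen.symm x y h
  have bk : ∀ {x y}, ArcT T' s' (F x) (F y) → ArcT T s x y := fun {x y} h =>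
    tr (sy (hGF x)) (tr (mG h) (hGF y))
  have hp' : ∀ i, ArcT T s (G (T'.port i)) (T.port i) := fun i =>
    tr (mG (sy' (hp i))) (hGF _)
  refine ⟨⟨⟨fun x => ⟨F x.1, cF _ x.2⟩, fun y => ⟨G y.1, cG _ y.2⟩, fun x => Subtype.ext (iGF _ x.2),
    fun y => Subtype.ext (iFG _ y.2)⟩, ?_, ?_, ?_, ?_, ?_, ?_⟩⟩
  · intro x y hxy
    show F y.1 = sg (F x.1)
    rw [hxy, hr _ x.2]
  · exact fun x y => ⟨mF, bk⟩
  · intro x i
    exact ⟨fun h => tr' (mF h) (hp i), fun h => bk (tr' h (sy' (hp i)))⟩
  · intro i j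
    exact ⟨fun h => tr' (sy' (hp i)) (tr' (mF h) (hp j)),
      fun h => bk (tr' (hp i) (tr' h (sy' (hp j))))⟩
  · exact fun x => hu _ x.2
  · unfold loopsT
    refine Nat.card_congr ?_
    let e : Quotient (Relation.EqvGen.setoid (relT T s)) ≃
        Quotient (Relation.EqvGen.setoid (relT T' s')) :=
      { toFun := Quotient.map F fun _ _ h => mF h
        invFun := Quotient.map G fun _ _ h => mG h
        left_inv := by
          rintro ⟨x⟩
          exact Quotient.sound (hGF x)
        right_inv := by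
          rintro ⟨y⟩
          exact Quotient.sound (hFG y) }
    refine e.subtypeEquiv ?_
    rintro ⟨x0⟩
    constructor
    · rintro ⟨h1, h2⟩
      refine ⟨fun y hy hc => ?_, fun i hi => ?_⟩
      · have h3 : ArcT T' s' y (F x0) := Quotient.exact hy
        exact h1 (G y) (Quotient.sound (tr (mG h3) (hGF x0))) (cG _ hc)
      · have h3 : ArcT T' s' (T'.port i) (F x0) := Quotient.exact hi
        exact h2 i (Quotient.sound (tr (sy (hp' i)) (tr (mG h3) (hGF x0))))
    · rintro ⟨h1, h2⟩
      refine ⟨fun x hx hc => ?_, fun i hi => ?_⟩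
      · have h3 : ArcT T s x x0 := Quotient.exact hx
        exact h1 (F x) (Quotient.sound (mF h3)) (cF _ hc)
      · have h3 : ArcT T s (T.port i) x0 := Quotient.exact hi
        exact h2 i (Quotient.sound (tr' (sy' (hp i)) (mF h3)))


/-- the word diagram -/
def Dg (q₀ : St) (w : List Letter) (q₁ : St) : Dia where
  V := WV w ⊕ Unit
  S := wD w
  s := wDS q₀ w q₁
  planar := planar_word w _

/-! ### contexts -/

namespace WM

section ctx

variable {V V' : Type}

/-- the vertices after adding the letters `u` -/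
def UV (V : Type) : List Letter → Type
  | [] => V
  | _ :: u => UV V u ⊕ Bool

instance UV.fintype [Fintype V] : ∀ u : List Letter, Fintype (UV V u)
  | [] => inferInstanceAs (Fintype V)
  | _ :: u => by
    have := UV.fintype u
    exact inferInstanceAs (Fintype (UV V u ⊕ Bool))

instance UV.decEq [DecidableEq V] : ∀ u : List Letter, DecidableEq (UV V u)
  | [] => inferInstanceAs (DecidableEq V)
  | _ :: u => by
    have := UV.decEq u
    exact inferInstanceAs (DecidableEq (UV V u ⊕ Bool))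

/-- the tangle after adding the letters `u` -/
def uT (T : Tangle V) : (u : List Letter) → Tangle (UV V u)
  | [] => T
  | l :: u => app (uT T u) l.1

/-- the state after adding the letters `u` -/
def uS (s : V → St) : (u : List Letter) → UV V u → St
  | [] => s
  | l :: u => Sum.elim (uS s u) (slot l.2)

/-- the inclusion of the inner vertices -/
def uE : (u : List Letter) → V → UV V u
  | [], v => v
  | _ :: u, v => Sum.inl (uE u v)

theorem uE_inj : ∀ (u : List Letter) {v w : V}, uE u v = uE u w → v = w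
  | [], _, _, h => h
  | _ :: u, _, _, h => uE_inj u (Sum.inl.inj h)

theorem uS_uE (s : V → St) (v : V) : ∀ u : List Letter, uS s u (uE u v) = s v
  | [] => rfl
  | _ :: u => uS_uE s v u

theorem uS_update [DecidableEq V] (s : V → St) (v : V) (q : St) : ∀ u : List Letter,
    update (uS s u) (uE u v) q = uS (update s v q) u
  | [] => rfl
  | l :: u => by
    show update (Sum.elim (uS s u) (slot l.2)) (Sum.inl (uE u v)) q =
      Sum.elim (uS (update s v q) u) (slot l.2)
    rw [← uS_update s v q u]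
    exact Sum.update_elim_inl

theorem _root_.Pool.Agent.Helper65.LK.TM.ctx [Fintype V] [Fintype V'] {T : Tangle V} {s : V → St} {T' : Tangle V'}
    {s' : V' → St} (h : TM T s T' s') : ∀ u : List Letter, TM (uT T u) (uS s u) (uT T' u) (uS s' u)
  | [] => h
  | l :: u => (TM.ctx h u).app l.1 (slot l.2)

/-- the shadow of the closed diagram -/
def uD (T : Tangle V) (u : List Letter) : Shadow (UV V u ⊕ Unit) := glue (uT T u) leafT

/-- the state of the closed diagram -/
def uDS (s : V → St) (u : List Letter) (q₁ : St) : UV V u ⊕ Unit → St :=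
  Sum.elim (uS s u) (fun _ => q₁)

theorem uDS_update [DecidableEq V] (s : V → St) (v : V) (q q₁ : St) (u : List Letter) :
    update (uDS s u q₁) (Sum.inl (uE u v)) q = uDS (update s v q) u q₁ := by
  unfold uDS
  rw [← uS_update s v q u]
  exact Sum.update_elim_inl

theorem tm_ctx_word (q₀ : St) (w : List Letter) : ∀ u : List Letter,
    TM (wT (u ++ w)) (wS q₀ (u ++ w)) (uT (wT w) u) (uS (wS q₀ w) u)
  | [] => TM.refl _ _
  | l :: u => (tm_ctx_word q₀ w u).app l.1 (slot l.2)

theorem diso_ctx_word (q₀ q₁ : St) (u w : List Letter) :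
    Nonempty (DIso (wD (u ++ w)) (wDS q₀ (u ++ w) q₁) (uD (wT w) u) (uDS (wS q₀ w) u q₁)) :=
  (tm_ctx_word q₀ w u).glue leafT (fun _ => q₁)

theorem diso_ctx [Fintype V] [Fintype V'] {T : Tangle V} {s : V → St} {T' : Tangle V'}
    {s' : V' → St} (h : TM T s T' s') (u : List Letter) (q₁ : St) :
    Nonempty (DIso (uD T u) (uDS s u q₁) (uD T' u) (uDS s' u q₁)) :=
  (TM.ctx h u).glue leafT (fun _ => q₁)

theorem planar_ctx (q₀ q₁ : St) (u w : List Letter) :
    Planar (uD (wT w) u) (uDS (wS q₀ w) u q₁) := by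
  obtain ⟨e⟩ := diso_ctx_word q₀ q₁ u w
  exact Planar.iso e.toDMap (planar_word (u ++ w) _)

/-- the diagram of a word in a context -/
def UDg (q₀ : St) (w u : List Letter) (q₁ : St) : Dia where
  V := UV (WV w) u ⊕ Unit
  S := uD (wT w) u
  s := uDS (wS q₀ w) u q₁
  planar := planar_ctx q₀ q₁ u w

theorem _root_.Pool.Agent.Helper65.LK.Same.rfl' (D : Dia) : Same D D := Relation.EqvGen.refl _

theorem _root_.Pool.Agent.Helper65.LK.Same.sym {D D' : Dia} (h : Same D D') : Same D' D := Relation.EqvGen.symm _ _ h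

theorem _root_.Pool.Agent.Helper65.LK.Same.tr {D D' D'' : Dia} (h : Same D D') (h' : Same D' D'') : Same D D'' :=
  Relation.EqvGen.trans _ _ _ h h'

theorem dg_udg (q₀ q₁ : St) (u w : List Letter) : Same (Dg q₀ (u ++ w) q₁) (UDg q₀ w u q₁) := by
  obtain ⟨e⟩ := diso_ctx_word q₀ q₁ u w
  exact Relation.EqvGen.rel _ _ (Step.iso _ _ e)

theorem relT_app {T : Tangle V} {s : V → St} (p : ZMod 4) (c : Bool → St) {x y : Dart V}
    (h : relT T s x y) : relT (app T p) (Sum.elim s c) (dl x) (dl y) := by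
  rcases h with h | ⟨h1, h2⟩
  · left
    show (match T.link (x.1, x.2) with
      | Sum.inl y => Sum.inl (dl y)
      | Sum.inr i => Sum.inl (dr (inDart p i))) = _
    rw [Prod.mk.eta, h]
  · right
    refine ⟨h1, ?_⟩
    rw [h2]
    rfl

theorem arcT_app {T : Tangle V} {s : V → St} (p : ZMod 4) (c : Bool → St) {x y : Dart V}
    (h : ArcT T s x y) : ArcT (app T p) (Sum.elim s c) (dl x) (dl y) :=
  wm_map (fun x => dl x) (fun _ _ h => Relation.EqvGen.rel _ _ (relT_app p c h)) h

theorem arcT_ctx {T : Tangle V} {s : V → St} {x y : Dart V} (h : ArcT T s x y) :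
    ∀ u : List Letter, ArcT (uT T u) (uS s u) (uE u x.1, x.2) (uE u y.1, y.2)
  | [] => h
  | l :: u => arcT_app l.1 (slot l.2) (arcT_ctx h u)

theorem arc_ctx {T : Tangle V} {s : V → St} {x y : Dart V} (h : ArcT T s x y)
    (u : List Letter) (q₁ : St) :
    Arc (uD T u) (uDS s u q₁) (Sum.inl (uE u x.1), x.2) (Sum.inl (uE u y.1), y.2) := by
  refine wm_map (F := fun x : Dart (UV V u) => (dl x : Dart (UV V u ⊕ Unit))) ?_ (arcT_ctx h u)
  intro a b hab
  apply Relation.EqvGen.rel
  rcases hab with h1 | ⟨h1, h2⟩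
  · left
    have h2 : (uD T u).α (dl a) = glueα (uT T u) leafT (dl a) := rfl
    rw [h2]
    obtain ⟨a1, a2⟩ := a
    simp only [glueα, h1]
  · right
    refine ⟨h1, ?_⟩
    rw [h2]
    rfl

end ctx

end WM

open WM

/-! ### the simple moves -/

theorem dg_tm {q₀ q₀' : St} {w w' : List Letter} (h : TM (wT w) (wS q₀ w) (wT w') (wS q₀' w'))
    (u : List Letter) (q₁ : St) : Same (Dg q₀ (u ++ w) q₁) (Dg q₀' (u ++ w') q₁) := by
  obtain ⟨e⟩ := diso_ctx h u q₁
  refine (dg_udg q₀ q₁ u w).tr (Same.tr ?_ (dg_udg q₀' q₁ u w').sym)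
  exact Relation.EqvGen.rel _ _ (Step.iso (UDg q₀ w u q₁) (UDg q₀' w' u q₁) e)

theorem dg_straight (q₀ q₁ : St) (u w : List Letter) (p : ZMod 4) :
    Same (Dg q₀ (u ++ (p, St.smB) :: w) q₁) (Dg q₀ (u ++ w) q₁) :=
  dg_tm (w := (p, St.smB) :: w) (w' := w) (tm_straight (wT w) (wS q₀ w) p) u q₁

theorem dg_comm (q₀ q₁ : St) (u w : List Letter) (p : ZMod 4) (q q' : St) :
    Same (Dg q₀ (u ++ (p + 2, q') :: (p, q) :: w) q₁)
      (Dg q₀ (u ++ (p, q) :: (p + 2, q') :: w) q₁) :=
  dg_tm (w := (p + 2, q') :: (p, q) :: w) (w' := (p, q) :: (p + 2, q') :: w)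
    (tm_comm (wT w) (wS q₀ w) p q q') u q₁

theorem dg_base (q₁ : St) (u : List Letter) (p p' : ZMod 4) (q : St) (hq : q.isX = true) :
    Same (Dg (bst p) (u ++ [(p, q)]) q₁)
      (Dg (bst p') (u ++ [(p', if p' = p ∨ p' = p + 2 then q else q.sw)]) q₁) :=
  dg_tm (w := [(p, q)]) (w' := [(p', if p' = p ∨ p' = p + 2 then q else q.sw)])
    (tm_base p p' q hq) u q₁

theorem wm_step {D : Dia} {s' : D.V → St} (hp : Planar D.S s') {s'' : D.V → St} (h : s' = s'')
    (hs : Step D ⟨D.V, D.S, s', hp⟩) (hp' : Planar D.S s'') : Step D ⟨D.V, D.S, s'', hp'⟩ := by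
  subst h
  exact hs

theorem wm_out0 : ∀ p : ZMod 4, outDart p p = (true, 2) := by decide
theorem wm_out1 : ∀ p : ZMod 4, outDart p (p + 1) = (true, 3) := by decide
theorem wm_in0 : ∀ p : ZMod 4, inDart p p = (true, 1) := by decide
theorem wm_in1 : ∀ p : ZMod 4, inDart p (p + 1) = (true, 0) := by decide

theorem wm_upd1 {V : Type} [DecidableEq V] (s : V → St) (q r : St) :
    update (Sum.elim s (slot q) : V ⊕ Bool → St) (Sum.inr true) r = Sum.elim s (slot r) := by
  funext v
  rcases v with v | b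
  · rw [update_of_ne (by simp)]
    rfl
  · cases b
    · rw [update_of_ne (by simp)]
      rfl
    · rw [update_self]
      rfl

theorem wm_upd0 {V : Type} [DecidableEq V] (s : V → St) (c : Bool → St) (v : V) (r : St) :
    update (Sum.elim s c : V ⊕ Bool → St) (Sum.inl v) r = Sum.elim (update s v r) c :=
  Sum.update_elim_inl

theorem wm_upd2 {V : Type} [DecidableEq V] (s : V → St) (q q' r r' : St) :
    update (update (Sum.elim (Sum.elim s (slot q)) (slot q') : (V ⊕ Bool) ⊕ Bool → St)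
      (Sum.inl (Sum.inr true)) r) (Sum.inr true) r' =
    Sum.elim (Sum.elim s (slot r)) (slot r') := by
  rw [wm_upd0, wm_upd1, wm_upd1]

theorem dg_cancel (q₀ q₁ : St) (u w : List Letter) (p : ZMod 4) (q : St) (hq : q.isX = true) :
    Same (Dg q₀ (u ++ (p, q.sw) :: (p, q) :: w) q₁) (Dg q₀ (u ++ w) q₁) := by
  set w' : List Letter := (p, q.sw) :: (p, q) :: w with hw'
  set w'' : List Letter := (p, St.smB) :: (p, St.smB) :: w with hw''
  let x : WV w' := (Sum.inl (Sum.inr true) : (WV w ⊕ Bool) ⊕ Bool)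
  let y : WV w' := (Sum.inr true : (WV w ⊕ Bool) ⊕ Bool)
  have hxy : x ≠ y := fun h => Sum.inl_ne_inr h
  have l1 : (wT w').link (x, 2) = Sum.inl (y, 1) := by
    have h := (app (wT w) p).link_port p
    have h2 : (app (wT w) p).port p = (Sum.inr true, 2) := by
      show dr (outDart p p) = _
      rw [wm_out0]
    rw [h2] at h
    show (match (app (wT w) p).link (Sum.inr true, 2) with
      | Sum.inl y => Sum.inl (dl y)
      | Sum.inr i => Sum.inl (dr (inDart p i))) = _
    rw [h]
    show Sum.inl (dr (inDart p p)) = _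
    rw [wm_in0]
    rfl
  have l2 : (wT w').link (x, 3) = Sum.inl (y, 0) := by
    have h := (app (wT w) p).link_port (p + 1)
    have h2 : (app (wT w) p).port (p + 1) = (Sum.inr true, 3) := by
      show dr (outDart p (p + 1)) = _
      rw [wm_out1]
    rw [h2] at h
    show (match (app (wT w) p).link (Sum.inr true, 3) with
      | Sum.inl y => Sum.inl (dl y)
      | Sum.inr i => Sum.inl (dr (inDart p i))) = _
    rw [h]
    show Sum.inl (dr (inDart p (p + 1))) = _
    rw [wm_in1]
    rfl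
  have sx : wS q₀ w' x = q := rfl
  have sy : wS q₀ w' y = q.sw := rfl
  have hs : update (update (UDg q₀ w' u q₁).s (Sum.inl (uE u x)) (St.turn 2))
      (Sum.inl (uE u y)) (St.turn 0) = (uDS (wS q₀ w'') u q₁ : UV (WV w') u ⊕ Unit → St) := by
    show update (update (uDS (wS q₀ w') u q₁) (Sum.inl (uE u x)) (St.turn 2))
      (Sum.inl (uE u y)) (St.turn 0) = _
    rw [uDS_update, uDS_update]
    exact congrArg (fun t => uDS t u q₁) (wm_upd2 (wS q₀ w) q q.sw St.smB St.smB)
  have hp : Planar (UDg q₀ w' u q₁).S (uDS (wS q₀ w'') u q₁ : UV (WV w') u ⊕ Unit → St) :=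
    planar_ctx q₀ q₁ u w''
  have hst := Step.r2 (UDg q₀ w' u q₁) (Sum.inl (uE u x)) (Sum.inl (uE u y)) 2 0
    (fun h => hxy (uE_inj u (Sum.inl.inj h)))
    (by
      show (uS (wS q₀ w') u (uE u x)).isX = true
      rw [uS_uE, sx, hq])
    (by
      show (uS (wS q₀ w') u (uE u y)).isX = true
      rw [uS_uE, sy]
      revert hq; cases q <;> decide)
    (arc_ctx (Relation.EqvGen.rel _ _ (Or.inl l1)) u q₁)
    (arc_ctx (Relation.EqvGen.rel _ _ (Or.inl l2)) u q₁)
    (by
      show (uS (wS q₀ w') u (uE u x)).upper 2 = (uS (wS q₀ w') u (uE u y)).upper (0 + 1)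
      rw [uS_uE, uS_uE, sx, sy]
      revert hq; cases q <;> decide)
    (by rw [hs]; exact hp)
  have h1 : Same (UDg q₀ w' u q₁) (UDg q₀ w'' u q₁) :=
    Relation.EqvGen.rel _ _ (wm_step _ hs hst hp)
  refine (dg_udg q₀ q₁ u w').tr (h1.tr ((dg_udg q₀ q₁ u w'').sym.tr ?_))
  exact (dg_straight q₀ q₁ u ((p, St.smB) :: w) p).tr (dg_straight q₀ q₁ u w p)

theorem dg_kink (q₁ : St) (u : List Letter) (p : ZMod 4) (q : St) (hq : q.isX = true) :
    Same (Dg (bst (p + 1)) (u ++ [(p, q)]) q₁) (Dg (bst (p + 1)) u q₁) := by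
  set w' : List Letter := [(p, q)] with hw'
  set w'' : List Letter := [(p, St.smB)] with hw''
  let x : WV w' := (Sum.inr true : Unit ⊕ Bool)
  let b : WV w' := (Sum.inl () : Unit ⊕ Bool)
  have l1 : (wT w').link (x, 1) = Sum.inl (b, p) := by
    show (if (strand p (true, 1)).2 = true then
        (Sum.inl (dl (leafT.port (strand p (true, 1)).1)) : Dart (Unit ⊕ Bool) ⊕ ZMod 4)
        else Sum.inr (strand p (true, 1)).1) = _
    have h : strand p (true, 1) = (p, true) := by rw [← wm_in0 p, strand_inDart]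
    rw [h]
    rfl
  have l2 : (wT w').link (x, 0) = Sum.inl (b, p + 1) := by
    show (if (strand p (true, 0)).2 = true then
        (Sum.inl (dl (leafT.port (strand p (true, 0)).1)) : Dart (Unit ⊕ Bool) ⊕ ZMod 4)
        else Sum.inr (strand p (true, 0)).1) = _
    have h : strand p (true, 0) = (p + 1, true) := by rw [← wm_in1 p, strand_inDart]
    rw [h]
    rfl
  have ha : ArcT (wT w') (wS (bst (p + 1)) w') (x, 0) (x, 1) := by
    have h1 : ArcT (wT w') (wS (bst (p + 1)) w') (x, 0) (b, p + 1) :=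
      Relation.EqvGen.rel _ _ (Or.inl l2)
    have h2 : ArcT (wT w') (wS (bst (p + 1)) w') (x, 1) (b, p) :=
      Relation.EqvGen.rel _ _ (Or.inl l1)
    have h3 : ArcT (wT w') (wS (bst (p + 1)) w') (b, p) (b, p + 1) := by
      apply Relation.EqvGen.rel
      right
      constructor
      · show ¬ (bst (p + 1)).isX = true
        have h : ∀ p : ZMod 4, ¬ (bst p).isX = true := by decide
        exact h _
      · show (b, p + 1) = (b, (bst (p + 1)).mate p)
        have h : ∀ p : ZMod 4, (bst (p + 1)).mate p = p + 1 := by decide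
        rw [h]
    exact Relation.EqvGen.trans _ _ _ h1 (Relation.EqvGen.symm _ _
      (Relation.EqvGen.trans _ _ _ h2 h3))
  have sx : wS (bst (p + 1)) w' x = q := rfl
  have hs : update (UDg (bst (p + 1)) w' u q₁).s (Sum.inl (uE u x)) (St.turn 0) =
      (uDS (wS (bst (p + 1)) w'') u q₁ : UV (WV w') u ⊕ Unit → St) := by
    show update (uDS (wS (bst (p + 1)) w') u q₁) (Sum.inl (uE u x)) (St.turn 0) = _
    rw [uDS_update]
    exact congrArg (fun t => uDS t u q₁) (wm_upd1 (fun _ => bst (p + 1)) q St.smB)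
  have hp : Planar (UDg (bst (p + 1)) w' u q₁).S
      (uDS (wS (bst (p + 1)) w'') u q₁ : UV (WV w') u ⊕ Unit → St) :=
    planar_ctx (bst (p + 1)) q₁ u w''
  have hst := Step.r1 (UDg (bst (p + 1)) w' u q₁) (Sum.inl (uE u x)) 0
    (by
      show (uS (wS (bst (p + 1)) w') u (uE u x)).isX = true
      rw [uS_uE, sx, hq])
    (arc_ctx ha u q₁)
    (by rw [hs]; exact hp)
  have h1 : Same (UDg (bst (p + 1)) w' u q₁) (UDg (bst (p + 1)) w'' u q₁) :=
    Relation.EqvGen.rel _ _ (wm_step _ hs hst hp)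
  refine (dg_udg (bst (p + 1)) q₁ u w').tr (h1.tr ((dg_udg (bst (p + 1)) q₁ u w'').sym.tr ?_))
  have h2 := dg_straight (bst (p + 1)) q₁ u [] p
  rw [List.append_nil] at h2
  exact h2


/-! ### conjugation of tangles -/

namespace WM

section conj

variable {V W : Type}

theorem tangle_ext {T T' : Tangle V} (h1 : ∀ i, T.port i = T'.port i)
    (h2 : ∀ x, T.link x = T'.link x) : T = T' := by
  obtain ⟨port, link, _, _, _, _⟩ := T
  obtain ⟨port', link', _, _, _, _⟩ := T'
  have e1 : port = port' := funext h1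
  have e2 : link = link' := funext h2
  subst e1
  subst e2
  rfl

/-- conjugation of a tangle by a permutation of the darts -/
def _root_.Pool.Agent.Helper65.LK.Tangle.conj (T : Tangle V) (π : Equiv.Perm (Dart V)) : Tangle V where
  port i := π (T.port i)
  link x := match T.link (π⁻¹ x) with
    | Sum.inl y => Sum.inl (π y)
    | Sum.inr i => Sum.inr i
  link_port i := by
    simp [T.link_port]
  port_link x i h := by
    cases hx : T.link (π⁻¹ x) with
    | inl y =>
      rw [hx] at h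
      cases h
    | inr j =>
      simp only [hx, Sum.inr.injEq] at h
      subst h
      rw [T.port_link _ _ hx]
      simp
  invol x y h := by
    cases hx : T.link (π⁻¹ x) with
    | inl z =>
      simp only [hx, Sum.inl.injEq] at h
      subst h
      simp [T.invol _ _ hx]
    | inr j =>
      rw [hx] at h
      cases h
  noFix x h := by
    cases hx : T.link (π⁻¹ x) with
    | inl z =>
      simp only [hx, Sum.inl.injEq] at h
      apply T.noFix (π⁻¹ x)
      rw [hx, ← h]
      simp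
    | inr j =>
      rw [hx] at h
      cases h

/-- the permutation on the darts of the first summand -/
def liftL (π : Equiv.Perm (Dart V)) : Equiv.Perm (Dart (V ⊕ W)) where
  toFun x := match x.1 with
    | Sum.inl v => dl (π (v, x.2))
    | Sum.inr _ => x
  invFun x := match x.1 with
    | Sum.inl v => dl (π⁻¹ (v, x.2))
    | Sum.inr _ => x
  left_inv x := by
    obtain ⟨v | w, j⟩ := x
    · simp
    · rfl
  right_inv x := by
    obtain ⟨v | w, j⟩ := x
    · simp
    · rfl

theorem liftL_dl (π : Equiv.Perm (Dart V)) (x : Dart V) :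
    (liftL π : Equiv.Perm (Dart (V ⊕ W))) (dl x) = dl (π x) := rfl

theorem liftL_dr (π : Equiv.Perm (Dart V)) (x : Dart W) :
    (liftL π : Equiv.Perm (Dart (V ⊕ W))) (dr x) = dr x := rfl

theorem liftL_inv_dl (π : Equiv.Perm (Dart V)) (x : Dart V) :
    (liftL π : Equiv.Perm (Dart (V ⊕ W)))⁻¹ (dl x) = dl (π⁻¹ x) := rfl

theorem liftL_inv_dr (π : Equiv.Perm (Dart V)) (x : Dart W) :
    (liftL π : Equiv.Perm (Dart (V ⊕ W)))⁻¹ (dr x) = dr x := rfl

theorem liftL_mul (π ρ : Equiv.Perm (Dart V)) :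
    (liftL (π * ρ) : Equiv.Perm (Dart (V ⊕ W))) = liftL π * liftL ρ := by
  apply Equiv.ext
  rintro ⟨v | w, j⟩ <;> rfl

theorem liftL_swap [DecidableEq V] [DecidableEq W] (a b : Dart V) :
    (liftL (Equiv.swap a b) : Equiv.Perm (Dart (V ⊕ W))) = Equiv.swap (dl a) (dl b) := by
  apply Equiv.ext
  rintro ⟨v | w, j⟩
  · show dl (Equiv.swap a b (v, j)) = Equiv.swap (dl a) (dl b) (dl (v, j))
    by_cases h1 : (v, j) = a
    · subst h1
      rw [Equiv.swap_apply_left, Equiv.swap_apply_left]
    · by_cases h2 : (v, j) = b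
      · subst h2
        rw [Equiv.swap_apply_right, Equiv.swap_apply_right]
      · have inj : ∀ x y : Dart V, (dl x : Dart (V ⊕ W)) = dl y → x = y := by
          intro x y h
          simp only [Prod.mk.injEq, Sum.inl.injEq] at h
          exact Prod.ext h.1 h.2
        rw [Equiv.swap_apply_of_ne_of_ne h1 h2, Equiv.swap_apply_of_ne_of_ne
          (fun h => h1 (inj _ _ h)) (fun h => h2 (inj _ _ h))]
  · show dr (w, j) = Equiv.swap (dl a) (dl b) (dr (w, j))
    rw [Equiv.swap_apply_of_ne_of_ne] <;> simp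

theorem liftL_tri [DecidableEq V] [DecidableEq W] (u v w : V) (i j k : ZMod 4) :
    (liftL (tri u i v j w k) : Equiv.Perm (Dart (V ⊕ W))) =
      tri (Sum.inl u) i (Sum.inl v) j (Sum.inl w) k := by
  unfold tri
  simp only [liftL_mul, liftL_swap]

theorem app_link_dl (T : Tangle V) (p : ZMod 4) (x : Dart V) :
    (app T p).link (dl x) = match T.link x with
      | Sum.inl y => Sum.inl (dl y)
      | Sum.inr i => Sum.inl (dr (inDart p i)) := by
  obtain ⟨v, j⟩ := x
  rfl

theorem app_link_dr (T : Tangle V) (p : ZMod 4) (x : Bool × ZMod 4) :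
    (app T p).link (dr x) = if (strand p x).2 = true then
        Sum.inl (dl (T.port (strand p x).1)) else Sum.inr (strand p x).1 := by
  obtain ⟨b, j⟩ := x
  rfl

theorem conj_link (T : Tangle V) (π : Equiv.Perm (Dart V)) (x : Dart V) :
    (T.conj π).link x = match T.link (π⁻¹ x) with
      | Sum.inl y => Sum.inl (π y)
      | Sum.inr i => Sum.inr i := rfl

theorem app_conj (T : Tangle V) (π : Equiv.Perm (Dart V)) (p : ZMod 4) :
    app (T.conj π) p = (app T p).conj (liftL π) := by
  apply tangle_ext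
  · intro i
    rfl
  · rintro ⟨v | b, j⟩
    · show (app (T.conj π) p).link (dl (v, j)) = ((app T p).conj (liftL π)).link (dl (v, j))
      rw [app_link_dl, conj_link, conj_link, liftL_inv_dl, app_link_dl]
      cases T.link (π⁻¹ (v, j)) with
      | inl y => rfl
      | inr i => rfl
    · show (app (T.conj π) p).link (dr (b, j)) = ((app T p).conj (liftL π)).link (dr (b, j))
      rw [app_link_dr, conj_link, liftL_inv_dr, app_link_dr]
      split_ifs
      · rfl
      · rfl

theorem glue_conj (T : Tangle V) (C : Tangle W) (π : Equiv.Perm (Dart V)) :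
    glue (T.conj π) C = (glue T C).conj (liftL π) := by
  apply lk17_ext
  apply Equiv.ext
  rintro ⟨v | w, j⟩
  · show (match (match T.link (π⁻¹ (v, j)) with
        | Sum.inl y => (Sum.inl (π y) : Dart V ⊕ ZMod 4)
        | Sum.inr i => Sum.inr i) with
        | Sum.inl y => (dl y : Dart (V ⊕ W))
        | Sum.inr i => dr (C.port (1 - i))) = liftL π (match T.link ((π⁻¹ (v, j)).1, (π⁻¹ (v, j)).2) with
          | Sum.inl y => (dl y : Dart (V ⊕ W))
          | Sum.inr i => dr (C.port (1 - i)))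
    rw [Prod.mk.eta]
    cases T.link (π⁻¹ (v, j)) with
    | inl y => rfl
    | inr i => rfl
  · show (match C.link (w, j) with
        | Sum.inl y => (dr y : Dart (V ⊕ W))
        | Sum.inr i => dl (π (T.port (1 - i)))) = liftL π (match C.link (w, j) with
          | Sum.inl y => (dr y : Dart (V ⊕ W))
          | Sum.inr i => dl (T.port (1 - i)))
    cases C.link (w, j) with
    | inl y => rfl
    | inr i => rfl

end conj


/-! ### three letters: finite data -/

/-- the darts of three slots: level, vertex, dart -/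
abbrev K3 : Type := Fin 3 × (Bool × ZMod 4)

/-- the other dart of a straight vertex -/
def tk (k : K3) : K3 := (k.1, k.2.1, St.smB.mate k.2.2)

/-- the next dart at the same vertex -/
def nk (k : K3) : K3 := (k.1, k.2.1, k.2.2 + 1)

/-- the links of three slots at the positions `p0, p1, p2` -/
def klink (p0 p1 p2 : ZMod 4) (k : K3) : K3 ⊕ (ZMod 4 × Bool) :=
  if k.1 = 0 then
    (if (strand p0 k.2).2 = true then Sum.inr ((strand p0 k.2).1, true)
      else Sum.inl (1, inDart p1 (strand p0 k.2).1))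
  else if k.1 = 1 then
    (if (strand p1 k.2).2 = true then Sum.inl (0, outDart p0 (strand p1 k.2).1)
      else Sum.inl (2, inDart p2 (strand p1 k.2).1))
  else
    (if (strand p2 k.2).2 = true then Sum.inl (1, outDart p1 (strand p2 k.2).1)
      else Sum.inr ((strand p2 k.2).1, false))

/-- conjugated links -/
def conjK (κ : K3 → K3) (lk : K3 → K3 ⊕ (ZMod 4 × Bool)) (k : K3) : K3 ⊕ (ZMod 4 × Bool) :=
  match lk (κ k) with
  | Sum.inl k' => Sum.inl (κ k')
  | Sum.inr z => Sum.inr z

/-- walk along the arc -/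
def wk (lk : K3 → K3 ⊕ (ZMod 4 × Bool)) : ℕ → K3 → K3
  | 0, k => k
  | n + 1, k => match lk k with
    | Sum.inl k' => if k'.2.1 = true then k' else wk lk n (tk k')
    | Sum.inr _ => k

/-- code -/
def cdk (k : K3) : ℕ := k.1.val * 8 + (if k.2.1 = true then 4 else 0) + k.2.2.val

/-- the representative of the arc -/
def rep (lk : K3 → K3 ⊕ (ZMod 4 × Bool)) (k : K3) : K3 :=
  if cdk (wk lk 4 k) ≤ cdk (if k.2.1 = true then k else wk lk 4 (tk k)) then wk lk 4 k
  else (if k.2.1 = true then k else wk lk 4 (tk k))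

/-- exchange of the first and the last slot -/
def rv (k : K3) : K3 := (2 - k.1, k.2)

/-- the map of the darts of the slots -/
def fm (lk1 : K3 → K3 ⊕ (ZMod 4 × Bool)) (inn2 out2 : ZMod 4 → K3) (k : K3) : K3 :=
  if k.2.1 = true then rv k
  else if (wk lk1 4 k).2.1 = true then rv (wk lk1 4 k)
  else match lk1 (wk lk1 4 k) with
    | Sum.inr z => if z.2 = true then inn2 z.1 else out2 z.1
    | Sum.inl k' => k'

/-- the permutation of the darts of the slots for the third Reidemeister move -/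
def kp (k : K3) : K3 :=
  if k.2.1 = false then k
  else if k.1 = 0 then
    (if k.2.2 = 0 then (2, true, 1) else if k.2.2 = 1 then (1, true, 1)
      else if k.2.2 = 2 then (2, true, 3) else (1, true, 3))
  else if k.1 = 1 then
    (if k.2.2 = 0 then (2, true, 0) else if k.2.2 = 1 then (0, true, 1)
      else if k.2.2 = 2 then (2, true, 2) else (0, true, 3))
  else
    (if k.2.2 = 0 then (1, true, 0) else if k.2.2 = 1 then (0, true, 0)
      else if k.2.2 = 2 then (1, true, 2) else (0, true, 2))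

/-- the conditions for one direction -/
def Chk (inn1 out1 : ZMod 4 → K3) (lk1 : K3 → K3 ⊕ (ZMod 4 × Bool)) (inn2 out2 : ZMod 4 → K3)
    (lk2 : K3 → K3 ⊕ (ZMod 4 × Bool)) (f : K3 → K3) : Prop :=
  (∀ i, rep lk2 (f (inn1 i)) = rep lk2 (inn2 i)) ∧
  (∀ k, match lk1 k with
    | Sum.inl k' => rep lk2 (f k) = rep lk2 (f k')
    | Sum.inr z => z.2 = true → rep lk2 (f k) = rep lk2 (inn2 z.1)) ∧
  (∀ k, k.2.1 = false → rep lk2 (f k) = rep lk2 (f (tk k))) ∧
  (∀ i, rep lk2 (f (out1 i)) = rep lk2 (out2 i)) ∧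
  (∀ k, k.2.1 = true → f k = rv k)

instance (inn1 out1 : ZMod 4 → K3) (lk1 : K3 → K3 ⊕ (ZMod 4 × Bool)) (inn2 out2 : ZMod 4 → K3)
    (lk2 : K3 → K3 ⊕ (ZMod 4 × Bool)) (f : K3 → K3) :
    Decidable (Chk inn1 out1 lk1 inn2 out2 lk2 f) := by
  unfold Chk
  have : ∀ k, Decidable (match lk1 k with
    | Sum.inl k' => rep lk2 (f k) = rep lk2 (f k')
    | Sum.inr z => z.2 = true → rep lk2 (f k) = rep lk2 (inn2 z.1)) := by
    intro k
    cases lk1 k with
    | inl k' => exact inferInstance
    | inr z => exact inferInstance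
  infer_instance

theorem chk1 : ∀ p : ZMod 4, Chk (fun i => kp (0, inDart p i)) (fun i => kp (2, outDart p i))
    (conjK kp (klink p (p + 1) p)) (fun i => (0, inDart (p + 1) i)) (fun i => (2, outDart (p + 1) i))
    (klink (p + 1) p (p + 1))
    (fm (conjK kp (klink p (p + 1) p)) (fun i => (0, inDart (p + 1) i))
      (fun i => (2, outDart (p + 1) i))) := by
  decide +kernel

theorem chk2 : ∀ p : ZMod 4, Chk (fun i => (0, inDart (p + 1) i)) (fun i => (2, outDart (p + 1) i))
    (klink (p + 1) p (p + 1)) (fun i => kp (0, inDart p i)) (fun i => kp (2, outDart p i))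
    (conjK kp (klink p (p + 1) p))
    (fm (klink (p + 1) p (p + 1)) (fun i => kp (0, inDart p i))
      (fun i => kp (2, outDart p i))) := by
  decide +kernel

theorem chk3 : ∀ (p : ZMod 4) (k : K3), rep (conjK kp (klink p (p + 1) p))
    ((fm (klink (p + 1) p (p + 1)) (fun i => kp (0, inDart p i)) (fun i => kp (2, outDart p i)))
    (fm (conjK kp (klink p (p + 1) p)) (fun i => (0, inDart (p + 1) i))
      (fun i => (2, outDart (p + 1) i)) k)) = rep (conjK kp (klink p (p + 1) p)) k := by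
  decide +kernel

theorem chk4 : ∀ (p : ZMod 4) (k : K3), rep (klink (p + 1) p (p + 1))
    (fm (conjK kp (klink p (p + 1) p)) (fun i => (0, inDart (p + 1) i))
      (fun i => (2, outDart (p + 1) i))
    ((fm (klink (p + 1) p (p + 1)) (fun i => kp (0, inDart p i)) (fun i => kp (2, outDart p i))) k)) =
      rep (klink (p + 1) p (p + 1)) k := by
  decide +kernel

theorem kp_kp : ∀ k : K3, kp (kp k) = k := by
  decide

theorem rv_rv : ∀ k : K3, rv (rv k) = k := by
  decide

theorem rv_nk : ∀ k : K3, rv (nk k) = nk (rv k) := by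
  decide


/-! ### three letters: tangles -/

section outer

variable {V : Type}

/-- the vertices of a tangle with three more letters -/
abbrev X3 (V : Type) : Type := ((V ⊕ Bool) ⊕ Bool) ⊕ Bool

/-- a dart of the slots -/
def kd (k : K3) : Dart (X3 V) :=
  if k.1 = 0 then (Sum.inl (Sum.inl (Sum.inr k.2.1)), k.2.2)
  else if k.1 = 1 then (Sum.inl (Sum.inr k.2.1), k.2.2)
  else (Sum.inr k.2.1, k.2.2)

/-- a dart of the inner tangle -/
abbrev vd (x : Dart V) : Dart (X3 V) := (Sum.inl (Sum.inl (Sum.inl x.1)), x.2)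

theorem kd0 (x : Bool × ZMod 4) : (kd (0, x) : Dart (X3 V)) =
    (Sum.inl (Sum.inl (Sum.inr x.1)), x.2) := rfl

theorem kd1 (x : Bool × ZMod 4) : (kd (1, x) : Dart (X3 V)) =
    (Sum.inl (Sum.inr x.1), x.2) := rfl

theorem kd2 (x : Bool × ZMod 4) : (kd (2, x) : Dart (X3 V)) = (Sum.inr x.1, x.2) := rfl

theorem k3_cases (k : K3) : (∃ x, k = (0, x)) ∨ (∃ x, k = (1, x)) ∨ ∃ x, k = (2, x) := by
  obtain ⟨l, x⟩ := k
  fin_cases l
  · exact Or.inl ⟨x, rfl⟩
  · exact Or.inr (Or.inl ⟨x, rfl⟩)
  · exact Or.inr (Or.inr ⟨x, rfl⟩)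

theorem x3_cases (x : Dart (X3 V)) : (∃ x0 : Dart V, x = vd x0) ∨ ∃ k : K3, x = kd k := by
  obtain ⟨((v | b) | b) | b, j⟩ := x
  · exact Or.inl ⟨(v, j), rfl⟩
  · exact Or.inr ⟨(0, b, j), rfl⟩
  · exact Or.inr ⟨(1, b, j), rfl⟩
  · exact Or.inr ⟨(2, b, j), rfl⟩

/-- the map of the darts which is given by `f` on the slots -/
def Fm (f : K3 → K3) (x : Dart (X3 V)) : Dart (X3 V) :=
  match x.1 with
  | Sum.inl (Sum.inl (Sum.inl _)) => x
  | Sum.inl (Sum.inl (Sum.inr b)) => kd (f (0, b, x.2))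
  | Sum.inl (Sum.inr b) => kd (f (1, b, x.2))
  | Sum.inr b => kd (f (2, b, x.2))

theorem Fm_vd (f : K3 → K3) (x : Dart V) : Fm f (vd x) = vd x := rfl

theorem Fm_kd (f : K3 → K3) (k : K3) : Fm f (kd k : Dart (X3 V)) = kd (f k) := by
  rcases k3_cases k with ⟨x, rfl⟩ | ⟨x, rfl⟩ | ⟨x, rfl⟩ <;> rfl

/-- the state of the tangle with three slots -/
def sS3 (s : V → St) (a b c : St) : X3 V → St :=
  Sum.elim (Sum.elim (Sum.elim s (slot a)) (slot b)) (slot c)

theorem sS3_vd (s : V → St) (a b c : St) (x : Dart V) : sS3 s a b c (vd x).1 = s x.1 := rfl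

theorem sS3_kd (s : V → St) (a b c : St) (k : K3) : sS3 s a b c (kd k).1 =
    slot (if k.1 = 0 then a else if k.1 = 1 then b else c) k.2.1 := by
  rcases k3_cases k with ⟨x, rfl⟩ | ⟨x, rfl⟩ | ⟨x, rfl⟩ <;> rfl

theorem kd_snd (k : K3) : (kd k : Dart (X3 V)).2 = k.2.2 := by
  rcases k3_cases k with ⟨x, rfl⟩ | ⟨x, rfl⟩ | ⟨x, rfl⟩ <;> rfl

theorem isC_kd (s : V → St) {a b c : St} (ha : a.isX = true) (hb : b.isX = true)
    (hc : c.isX = true) (k : K3) : isC (sS3 s a b c) (kd k) ↔ k.2.1 = true := by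
  unfold isC
  rw [sS3_kd]
  unfold slot
  by_cases h : k.2.1 = true
  · simp only [h, if_true, iff_true]
    split_ifs <;> assumption
  · rw [if_neg h]
    exact ⟨fun h' => absurd h' (by decide), fun h' => absurd h' h⟩

theorem sg_kd (k : K3) : sg (kd k : Dart (X3 V)) = kd (nk k) := by
  rcases k3_cases k with ⟨x, rfl⟩ | ⟨x, rfl⟩ | ⟨x, rfl⟩ <;> rfl

theorem tau_kd (s : V → St) (a b c : St) (k : K3) (hk : k.2.1 = false) :
    tau (sS3 s a b c) (kd k) = kd (tk k) := by
  have h : ∀ (x : X3 V) (i : ZMod 4), tau (sS3 s a b c) (x, i) = (x, (sS3 s a b c x).mate i) :=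
    fun _ _ => rfl
  obtain ⟨l, b, j⟩ := k
  simp only at hk
  subst hk
  fin_cases l <;> rfl

/-- A tangle on `X3 V` which consists of the tangle `T0` and three slots with the given links. -/
structure Outer (T0 : Tangle V) (T : Tangle (X3 V)) (inn out : ZMod 4 → K3)
    (lk : K3 → K3 ⊕ (ZMod 4 × Bool)) : Prop where
  port : ∀ i, T.port i = kd (out i)
  lv : ∀ x y, T0.link x = Sum.inl y → T.link (vd x) = Sum.inl (vd y)
  lp : ∀ i, T.link (vd (T0.port i)) = Sum.inl (kd (inn i))
  lk_in : ∀ k k', lk k = Sum.inl k' → T.link (kd k) = Sum.inl (kd k')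
  lk_p : ∀ k i, lk k = Sum.inr (i, true) → T.link (kd k) = Sum.inl (vd (T0.port i))
  lk_o : ∀ k i, lk k = Sum.inr (i, false) → T.link (kd k) = Sum.inr i

theorem Outer.arc_wk {T0 : Tangle V} {T : Tangle (X3 V)} {inn out : ZMod 4 → K3}
    {lk : K3 → K3 ⊕ (ZMod 4 × Bool)} (h : Outer T0 T inn out lk) (s : V → St) {a b c : St}
    (ha : a.isX = true) (hb : b.isX = true) (hc : c.isX = true) : ∀ (n : ℕ) (k : K3),
    ArcT T (sS3 s a b c) (kd k) (kd (wk lk n k))
  | 0, k => Relation.EqvGen.refl _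
  | n + 1, k => by
    unfold wk
    cases hk : lk k with
    | inr z => exact Relation.EqvGen.refl _
    | inl k' =>
      have h1 : ArcT T (sS3 s a b c) (kd k) (kd k') :=
        Relation.EqvGen.rel _ _ (Or.inl (h.lk_in k k' hk))
      show ArcT T (sS3 s a b c) (kd k) (kd (if k'.2.1 = true then k' else wk lk n (tk k')))
      by_cases hc' : k'.2.1 = true
      · rw [if_pos hc']
        exact h1
      · rw [if_neg hc']
        have hf : k'.2.1 = false := by simpa using hc'
        have h2 : ArcT T (sS3 s a b c) (kd k') (kd (tk k')) := by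
          apply Relation.EqvGen.rel
          right
          refine ⟨?_, (tau_kd s a b c k' hf).symm⟩
          rw [isC_kd s ha hb hc]
          exact hc'
        exact Relation.EqvGen.trans _ _ _ h1 (Relation.EqvGen.trans _ _ _ h2
          (h.arc_wk s ha hb hc n (tk k')))

theorem Outer.arc_rep {T0 : Tangle V} {T : Tangle (X3 V)} {inn out : ZMod 4 → K3}
    {lk : K3 → K3 ⊕ (ZMod 4 × Bool)} (h : Outer T0 T inn out lk) (s : V → St) {a b c : St}
    (ha : a.isX = true) (hb : b.isX = true) (hc : c.isX = true) (k : K3) :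
    ArcT T (sS3 s a b c) (kd k) (kd (rep lk k)) := by
  have h1 := h.arc_wk s ha hb hc 4 k
  have h2 : ArcT T (sS3 s a b c) (kd k) (kd (if k.2.1 = true then k else wk lk 4 (tk k))) := by
    by_cases hk : k.2.1 = true
    · rw [if_pos hk]
      exact Relation.EqvGen.refl _
    · rw [if_neg hk]
      have hf : k.2.1 = false := by simpa using hk
      have h3 : ArcT T (sS3 s a b c) (kd k) (kd (tk k)) := by
        apply Relation.EqvGen.rel
        right
        refine ⟨?_, (tau_kd s a b c k hf).symm⟩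
        rw [isC_kd s ha hb hc]
        exact hk
      exact Relation.EqvGen.trans _ _ _ h3 (h.arc_wk s ha hb hc 4 (tk k))
  unfold rep
  generalize (if k.2.1 = true then k else wk lk 4 (tk k)) = e2 at h2 ⊢
  split_ifs
  · exact h1
  · exact h2

theorem Outer.arc_of_rep {T0 : Tangle V} {T : Tangle (X3 V)} {inn out : ZMod 4 → K3}
    {lk : K3 → K3 ⊕ (ZMod 4 × Bool)} (h : Outer T0 T inn out lk) (s : V → St) {a b c : St}
    (ha : a.isX = true) (hb : b.isX = true) (hc : c.isX = true) {k k' : K3}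
    (hk : rep lk k = rep lk k') : ArcT T (sS3 s a b c) (kd k) (kd k') := by
  have h1 := h.arc_rep s ha hb hc k
  have h2 := h.arc_rep s ha hb hc k'
  rw [hk] at h1
  exact Relation.EqvGen.trans _ _ _ h1 (Relation.EqvGen.symm _ _ h2)

theorem Outer.map {T0 : Tangle V} {T1 T2 : Tangle (X3 V)} {inn1 out1 inn2 out2 : ZMod 4 → K3}
    {lk1 lk2 : K3 → K3 ⊕ (ZMod 4 × Bool)} (h1 : Outer T0 T1 inn1 out1 lk1)
    (h2 : Outer T0 T2 inn2 out2 lk2) (s : V → St) {a b c a' b' c' : St} (ha : a.isX = true)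
    (hb : b.isX = true) (hc : c.isX = true) (ha' : a'.isX = true)
    (hb' : b'.isX = true) (hc' : c'.isX = true) {f : K3 → K3}
    (hf : Chk inn1 out1 lk1 inn2 out2 lk2 f) (x y : Dart (X3 V))
    (hxy : relT T1 (sS3 s a b c) x y) : ArcT T2 (sS3 s a' b' c') (Fm f x) (Fm f y) := by
  obtain ⟨c1, c2, c3, c4, c5⟩ := hf
  have hlp : ∀ i, ArcT T2 (sS3 s a' b' c') (vd (T0.port i)) (kd (inn2 i)) := fun i =>
    Relation.EqvGen.rel _ _ (Or.inl (h2.lp i))
  rcases x3_cases x with ⟨x0, rfl⟩ | ⟨k, rfl⟩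
  · rcases hxy with h | ⟨hn, h⟩
    · cases hx : T0.link x0 with
      | inl y0 =>
        rw [h1.lv x0 y0 hx] at h
        have h3 := Sum.inl.inj h
        subst h3
        exact Relation.EqvGen.rel _ _ (Or.inl (h2.lv x0 y0 hx))
      | inr i =>
        have h4 := T0.port_link _ _ hx
        subst h4
        rw [h1.lp i] at h
        have h3 := Sum.inl.inj h
        subst h3
        rw [Fm_kd, Fm_vd]
        exact Relation.EqvGen.trans _ _ _ (hlp i)
          (h2.arc_of_rep s ha' hb' hc' (c1 i).symm)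
    · rw [h]
      exact Relation.EqvGen.rel _ _ (Or.inr ⟨hn, rfl⟩)
  · rcases hxy with h | ⟨hn, h⟩
    · have c2k := c2 k
      rw [Fm_kd]
      cases hk : lk1 k with
      | inl k' =>
        rw [h1.lk_in k k' hk] at h
        have h3 := Sum.inl.inj h
        subst h3
        rw [Fm_kd]
        rw [hk] at c2k
        exact h2.arc_of_rep s ha' hb' hc' c2k
      | inr z =>
        obtain ⟨i, e⟩ := z
        rw [hk] at c2k
        cases e with
        | true =>
          rw [h1.lk_p k i hk] at h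
          have h3 := Sum.inl.inj h
          subst h3
          rw [Fm_vd]
          exact Relation.EqvGen.trans _ _ _ (h2.arc_of_rep s ha' hb' hc' (c2k rfl))
            (Relation.EqvGen.symm _ _ (hlp i))
        | false =>
          rw [h1.lk_o k i hk] at h
          cases h
    · rw [isC_kd s ha hb hc] at hn
      have hk : k.2.1 = false := by simpa using hn
      rw [h, tau_kd s a b c k hk, Fm_kd, Fm_kd]
      exact h2.arc_of_rep s ha' hb' hc' (c3 k hk)

theorem Outer.tm {T0 : Tangle V} {T1 T2 : Tangle (X3 V)} {inn1 out1 inn2 out2 : ZMod 4 → K3}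
    {lk1 lk2 : K3 → K3 ⊕ (ZMod 4 × Bool)} (h1 : Outer T0 T1 inn1 out1 lk1)
    (h2 : Outer T0 T2 inn2 out2 lk2) (s : V → St) {a b c : St} (ha : a.isX = true)
    (hb : b.isX = true) (hc : c.isX = true) {f g : K3 → K3}
    (hf : Chk inn1 out1 lk1 inn2 out2 lk2 f) (hg : Chk inn2 out2 lk2 inn1 out1 lk1 g)
    (hgf : ∀ k, rep lk1 (g (f k)) = rep lk1 k) (hfg : ∀ k, rep lk2 (f (g k)) = rep lk2 k) :
    TM T1 (sS3 s a b c) T2 (sS3 s c b a) := by
  refine TM.of_maps (Fm f) (Fm g) (h1.map h2 s ha hb hc hc hb ha hf)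
    (h2.map h1 s hc hb ha ha hb hc hg) ?_ ?_ ?_ ?_ ?_ ?_ ?_ ?_ ?_
  · intro x
    rcases x3_cases x with ⟨x0, rfl⟩ | ⟨k, rfl⟩
    · exact Relation.EqvGen.refl _
    · rw [Fm_kd, Fm_kd]
      exact h1.arc_of_rep s ha hb hc (hgf k)
  · intro x
    rcases x3_cases x with ⟨x0, rfl⟩ | ⟨k, rfl⟩
    · exact Relation.EqvGen.refl _
    · rw [Fm_kd, Fm_kd]
      exact h2.arc_of_rep s hc hb ha (hfg k)
  · intro x hx
    rcases x3_cases x with ⟨x0, rfl⟩ | ⟨k, rfl⟩
    · exact hx
    · rw [isC_kd s ha hb hc] at hx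
      rw [Fm_kd, isC_kd s hc hb ha, hf.2.2.2.2 k hx]
      exact hx
  · intro x hx
    rcases x3_cases x with ⟨x0, rfl⟩ | ⟨k, rfl⟩
    · exact hx
    · rw [isC_kd s hc hb ha] at hx
      rw [Fm_kd, isC_kd s ha hb hc, hg.2.2.2.2 k hx]
      exact hx
  · intro x hx
    rcases x3_cases x with ⟨x0, rfl⟩ | ⟨k, rfl⟩
    · rfl
    · rw [isC_kd s ha hb hc] at hx
      rw [Fm_kd, Fm_kd, hf.2.2.2.2 k hx, hg.2.2.2.2 (rv k) hx, rv_rv]
  · intro x hx
    rcases x3_cases x with ⟨x0, rfl⟩ | ⟨k, rfl⟩
    · rfl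
    · rw [isC_kd s hc hb ha] at hx
      rw [Fm_kd, Fm_kd, hg.2.2.2.2 k hx, hf.2.2.2.2 (rv k) hx, rv_rv]
  · intro x hx
    rcases x3_cases x with ⟨x0, rfl⟩ | ⟨k, rfl⟩
    · rfl
    · rw [isC_kd s ha hb hc] at hx
      rw [Fm_kd, sg_kd, sg_kd, Fm_kd, hf.2.2.2.2 k hx, hf.2.2.2.2 (nk k) hx, rv_nk]
  · intro x hx
    rcases x3_cases x with ⟨x0, rfl⟩ | ⟨k, rfl⟩
    · rfl
    · rw [isC_kd s ha hb hc] at hx
      rw [Fm_kd, hf.2.2.2.2 k hx, sS3_kd, sS3_kd, kd_snd, kd_snd]
      rcases k3_cases k with ⟨x, rfl⟩ | ⟨x, rfl⟩ | ⟨x, rfl⟩ <;> rfl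
  · intro i
    rw [h1.port, h2.port, Fm_kd]
    exact h2.arc_of_rep s hc hb ha (hf.2.2.2.1 i)

theorem outer_app (T0 : Tangle V) (p0 p1 p2 : ZMod 4) :
    Outer T0 (app (app (app T0 p0) p1) p2) (fun i => (0, inDart p0 i)) (fun i => (2, outDart p2 i))
      (klink p0 p1 p2) := by
  have l0 : ∀ x : Bool × ZMod 4, (app (app (app T0 p0) p1) p2).link (kd (0, x)) =
      if (strand p0 x).2 = true then Sum.inl (vd (T0.port (strand p0 x).1))
      else Sum.inl (kd (1, inDart p1 (strand p0 x).1)) := by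
    intro x
    have e : (kd (0, x) : Dart (X3 V)) = dl (dl (dr x)) := rfl
    rw [e, app_link_dl, app_link_dl, app_link_dr]
    split_ifs <;> rfl
  have l1 : ∀ x : Bool × ZMod 4, (app (app (app T0 p0) p1) p2).link (kd (1, x)) =
      if (strand p1 x).2 = true then Sum.inl (kd (0, outDart p0 (strand p1 x).1))
      else Sum.inl (kd (2, inDart p2 (strand p1 x).1)) := by
    intro x
    have e : (kd (1, x) : Dart (X3 V)) = dl (dr x) := rfl
    rw [e, app_link_dl, app_link_dr]
    split_ifs <;> rfl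
  have l2 : ∀ x : Bool × ZMod 4, (app (app (app T0 p0) p1) p2).link (kd (2, x)) =
      if (strand p2 x).2 = true then Sum.inl (kd (1, outDart p1 (strand p2 x).1))
      else Sum.inr (strand p2 x).1 := by
    intro x
    have e : (kd (2, x) : Dart (X3 V)) = dr x := rfl
    rw [e, app_link_dr]
    split_ifs <;> rfl
  have k0 : ∀ x : Bool × ZMod 4, klink p0 p1 p2 (0, x) =
      if (strand p0 x).2 = true then Sum.inr ((strand p0 x).1, true)
      else Sum.inl (1, inDart p1 (strand p0 x).1) := fun x => rfl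
  have k1 : ∀ x : Bool × ZMod 4, klink p0 p1 p2 (1, x) =
      if (strand p1 x).2 = true then Sum.inl (0, outDart p0 (strand p1 x).1)
      else Sum.inl (2, inDart p2 (strand p1 x).1) := fun x => rfl
  have k2 : ∀ x : Bool × ZMod 4, klink p0 p1 p2 (2, x) =
      if (strand p2 x).2 = true then Sum.inl (1, outDart p1 (strand p2 x).1)
      else Sum.inr ((strand p2 x).1, false) := fun x => rfl
  refine ⟨fun i => rfl, ?_, ?_, ?_, ?_, ?_⟩
  · intro x y h
    have e : (vd x : Dart (X3 V)) = dl (dl (dl x)) := rfl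
    rw [e, app_link_dl, app_link_dl, app_link_dl, h]
  · intro i
    have e : (vd (T0.port i) : Dart (X3 V)) = dl (dl (dl (T0.port i))) := rfl
    rw [e, app_link_dl, app_link_dl, app_link_dl, T0.link_port]
    rfl
  · intro k k' h
    rcases k3_cases k with ⟨x, rfl⟩ | ⟨x, rfl⟩ | ⟨x, rfl⟩
    · rw [k0] at h
      rw [l0]
      split_ifs at h ⊢
      rw [← Sum.inl.inj h]
    · rw [k1] at h
      rw [l1]
      split_ifs at h ⊢
      · rw [← Sum.inl.inj h]
      · rw [← Sum.inl.inj h]
    · rw [k2] at h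
      rw [l2]
      split_ifs at h ⊢
      rw [← Sum.inl.inj h]
  · intro k i h
    rcases k3_cases k with ⟨x, rfl⟩ | ⟨x, rfl⟩ | ⟨x, rfl⟩
    · rw [k0] at h
      rw [l0]
      split_ifs at h ⊢
      have h' := Sum.inr.inj h
      rw [Prod.mk.injEq] at h'
      rw [h'.1]
    · rw [k1] at h
      split_ifs at h
    · rw [k2] at h
      split_ifs at h
      have h' := Sum.inr.inj h
      rw [Prod.mk.injEq] at h'
      exact absurd h'.2 (by decide)
  · intro k i h
    rcases k3_cases k with ⟨x, rfl⟩ | ⟨x, rfl⟩ | ⟨x, rfl⟩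
    · rw [k0] at h
      split_ifs at h
      have h' := Sum.inr.inj h
      rw [Prod.mk.injEq] at h'
      exact absurd h'.2 (by decide)
    · rw [k1] at h
      split_ifs at h
    · rw [k2] at h
      rw [l2]
      split_ifs at h ⊢
      have h' := Sum.inr.inj h
      rw [Prod.mk.injEq] at h'
      rw [h'.1]

theorem Outer.conj {T0 : Tangle V} {T : Tangle (X3 V)} {inn out : ZMod 4 → K3}
    {lk : K3 → K3 ⊕ (ZMod 4 × Bool)} (h : Outer T0 T inn out lk) (π : Equiv.Perm (Dart (X3 V)))
    (κ : K3 → K3) (hk : ∀ k, π (kd k) = kd (κ k)) (hv : ∀ x, π (vd x) = vd x)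
    (hκ : ∀ k, κ (κ k) = k) :
    Outer T0 (T.conj π) (fun i => κ (inn i)) (fun i => κ (out i)) (conjK κ lk) := by
  have hk' : ∀ k, π⁻¹ (kd k) = kd (κ k) := by
    intro k
    rw [Equiv.Perm.inv_eq_iff_eq, hk, hκ]
  have hv' : ∀ x, π⁻¹ (vd x) = vd x := by
    intro x
    rw [Equiv.Perm.inv_eq_iff_eq, hv]
  refine ⟨?_, ?_, ?_, ?_, ?_, ?_⟩
  · intro i
    show π (T.port i) = _
    rw [h.port, hk]
  · intro x y hx
    rw [conj_link, hv', h.lv x y hx]
    show Sum.inl (π (vd y)) = _
    rw [hv]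
  · intro i
    rw [conj_link, hv', h.lp]
    show Sum.inl (π (kd (inn i))) = _
    rw [hk]
  · intro k k' hkk
    unfold conjK at hkk
    rw [conj_link, hk']
    cases hc : lk (κ k) with
    | inl k'' =>
      rw [hc] at hkk
      rw [h.lk_in _ _ hc, ← Sum.inl.inj hkk]
      show Sum.inl (π (kd k'')) = _
      rw [hk]
    | inr z =>
      rw [hc] at hkk
      cases hkk
  · intro k i hkk
    unfold conjK at hkk
    rw [conj_link, hk']
    cases hc : lk (κ k) with
    | inl k'' =>
      rw [hc] at hkk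
      cases hkk
    | inr z =>
      rw [hc] at hkk
      have hz := Sum.inr.inj hkk
      subst hz
      rw [h.lk_p _ _ hc]
      show Sum.inl (π (vd (T0.port i))) = _
      rw [hv]
  · intro k i hkk
    unfold conjK at hkk
    rw [conj_link, hk']
    cases hc : lk (κ k) with
    | inl k'' =>
      rw [hc] at hkk
      cases hkk
    | inr z =>
      rw [hc] at hkk
      have hz := Sum.inr.inj hkk
      subst hz
      rw [h.lk_o _ _ hc]

/-- the permutation of the third move on the three slots -/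
theorem tri_kd [DecidableEq V] (k : K3) :
    tri (Sum.inl (Sum.inl (Sum.inr true)) : X3 V) 2 (Sum.inl (Sum.inr true)) 1 (Sum.inr true) 0
      (kd k) = kd (kp k) := by
  have huv : (Sum.inl (Sum.inl (Sum.inr true)) : X3 V) ≠ Sum.inl (Sum.inr true) := by simp
  have hvw : (Sum.inl (Sum.inr true) : X3 V) ≠ Sum.inr true := by simp
  have hwu : (Sum.inr true : X3 V) ≠ Sum.inl (Sum.inl (Sum.inr true)) := by simp
  obtain ⟨u0, u1, u2, u3, v0, v1, v2, v3, w0, w1, w2, w3, h⟩ := tri_apply 2 1 0 huv hvw hwu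
  have e1 : (2 : ZMod 4) + 1 = 3 := by decide
  have e2 : (2 : ZMod 4) + 2 = 0 := by decide
  have e3 : (2 : ZMod 4) + 3 = 1 := by decide
  have e4 : (1 : ZMod 4) + 1 = 2 := by decide
  have e5 : (1 : ZMod 4) + 2 = 3 := by decide
  have e6 : (1 : ZMod 4) + 3 = 0 := by decide
  simp only [e1, e2, e3, e4, e5, e6, zero_add] at u0 u1 u2 u3 v0 v1 v2 v3 w0 w1 w2 w3
  obtain ⟨l, b, j⟩ := k
  cases b with
  | false =>
    have e : kp (l, false, j) = (l, false, j) := rfl
    rw [e]
    apply h
    · fin_cases l <;> simp [kd]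
    · fin_cases l <;> simp [kd]
    · fin_cases l <;> simp [kd]
  | true =>
    have hj : j = 0 ∨ j = 1 ∨ j = 2 ∨ j = 3 := by revert j; decide
    fin_cases l
    · rcases hj with rfl | rfl | rfl | rfl
      · exact u2
      · exact u3
      · exact u0
      · exact u1
    · rcases hj with rfl | rfl | rfl | rfl
      · exact v3
      · exact v0
      · exact v1
      · exact v2
    · rcases hj with rfl | rfl | rfl | rfl
      · exact w0
      · exact w1
      · exact w2
      · exact w3

theorem tri_vd [DecidableEq V] (x : Dart V) :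
    tri (Sum.inl (Sum.inl (Sum.inr true)) : X3 V) 2 (Sum.inl (Sum.inr true)) 1 (Sum.inr true) 0
      (vd x) = vd x := by
  have huv : (Sum.inl (Sum.inl (Sum.inr true)) : X3 V) ≠ Sum.inl (Sum.inr true) := by simp
  have hvw : (Sum.inl (Sum.inr true) : X3 V) ≠ Sum.inr true := by simp
  have hwu : (Sum.inr true : X3 V) ≠ Sum.inl (Sum.inl (Sum.inr true)) := by simp
  have h := (tri_apply 2 1 0 huv hvw hwu).2.2.2.2.2.2.2.2.2.2.2.2
  apply h
  · simp
  · simp
  · simp

/-- the braid relation for tangles -/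
theorem tm_braid [DecidableEq V] (T0 : Tangle V) (s : V → St) (p : ZMod 4) {a b c : St}
    (ha : a.isX = true) (hb : b.isX = true) (hc : c.isX = true) :
    TM ((app (app (app T0 p) (p + 1)) p).conj
        (tri (Sum.inl (Sum.inl (Sum.inr true)) : X3 V) 2 (Sum.inl (Sum.inr true)) 1
          (Sum.inr true) 0)) (sS3 s a b c)
      (app (app (app T0 (p + 1)) p) (p + 1)) (sS3 s c b a) :=
  Outer.tm ((outer_app T0 p (p + 1) p).conj _ kp tri_kd tri_vd kp_kp)
    (outer_app T0 (p + 1) p (p + 1)) s ha hb hc (chk1 p) (chk2 p) (chk3 p) (chk4 p)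

end outer

/-! ### the third move -/

section lift

variable {V : Type}

/-- the permutation of the darts of a tangle in a context -/
def liftU (π : Equiv.Perm (Dart V)) : (u : List Letter) → Equiv.Perm (Dart (UV V u))
  | [] => π
  | _ :: u => liftL (liftU π u)

theorem uT_conj (T : Tangle V) (π : Equiv.Perm (Dart V)) : ∀ u : List Letter,
    uT (T.conj π) u = (uT T u).conj (liftU π u)
  | [] => rfl
  | l :: u => by
    show app (uT (T.conj π) u) l.1 = (app (uT T u) l.1).conj (liftL (liftU π u))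
    rw [uT_conj T π u, app_conj]

theorem uD_conj (T : Tangle V) (π : Equiv.Perm (Dart V)) (u : List Letter) :
    uD (T.conj π) u = (uD T u).conj (liftL (liftU π u)) := by
  unfold uD
  rw [uT_conj, glue_conj]

theorem liftU_tri [DecidableEq V] (x y z : V) (i j k : ZMod 4) : ∀ u : List Letter,
    liftU (tri x i y j z k) u = tri (uE u x) i (uE u y) j (uE u z) k
  | [] => rfl
  | _ :: u => by
    show liftL (liftU (tri x i y j z k) u) = _
    rw [liftU_tri x y z i j k u, liftL_tri]
    rfl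

theorem uD_tri [DecidableEq V] (T : Tangle V) (x y z : V) (i j k : ZMod 4) (u : List Letter) :
    uD (T.conj (tri x i y j z k)) u =
      (uD T u).conj (tri (Sum.inl (uE u x)) i (Sum.inl (uE u y)) j (Sum.inl (uE u z)) k) := by
  rw [uD_conj, liftU_tri, liftL_tri]

end lift

theorem chk5 : ∀ p : ZMod 4, rep (klink p (p + 1) p) (0, true, 3) =
    rep (klink p (p + 1) p) (1, true, 1) := by
  decide +kernel

theorem chk6 : ∀ p : ZMod 4, rep (klink p (p + 1) p) (1, true, 2) =
    rep (klink p (p + 1) p) (2, true, 0) := by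
  decide +kernel

theorem chk7 : ∀ p : ZMod 4, rep (klink p (p + 1) p) (2, true, 1) =
    rep (klink p (p + 1) p) (0, true, 2) := by
  decide +kernel

theorem chk8 : ∀ a b c : St, a.isX = true → b.isX = true → c.isX = true →
    a.upper 3 = b.upper 2 → b.upper 2 = c.upper 1 → a = c ∧ b = a.sw := by
  intro a b c
  cases a <;> cases b <;> cases c <;> decide

end WM

theorem dg_braid (q₀ q₁ : St) (u w : List Letter) (p : ZMod 4) (qx qy qz : St)
    (hx : qx.isX = true) (hy : qy.isX = true) (hz : qz.isX = true)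
    (h : ¬ (qx = qz ∧ qy = qx.sw)) :
    Same (Dg q₀ (u ++ (p, qz) :: (p + 1, qy) :: (p, qx) :: w) q₁)
      (Dg q₀ (u ++ (p + 1, qx) :: (p, qy) :: (p + 1, qz) :: w) q₁) := by
  set w' : List Letter := (p, qz) :: (p + 1, qy) :: (p, qx) :: w with hw'
  set w'' : List Letter := (p + 1, qx) :: (p, qy) :: (p + 1, qz) :: w with hw''
  let x : WV w' := (Sum.inl (Sum.inl (Sum.inr true)) : X3 (WV w))
  let y : WV w' := (Sum.inl (Sum.inr true) : X3 (WV w))
  let z : WV w' := (Sum.inr true : X3 (WV w))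
  have hxy : x ≠ y := fun e => Sum.inl_ne_inr (Sum.inl.inj e)
  have hyz : y ≠ z := fun e => Sum.inl_ne_inr e
  have hzx : z ≠ x := fun e => Sum.inr_ne_inl e
  have o := outer_app (wT w) p (p + 1) p
  have a1 : ArcT (wT w') (wS q₀ w') (x, 3) (y, 1) :=
    o.arc_of_rep (wS q₀ w) hx hy hz (k := (0, true, 3)) (k' := (1, true, 1)) (chk5 p)
  have a2 : ArcT (wT w') (wS q₀ w') (y, 2) (z, 0) :=
    o.arc_of_rep (wS q₀ w) hx hy hz (k := (1, true, 2)) (k' := (2, true, 0)) (chk6 p)
  have a3 : ArcT (wT w') (wS q₀ w') (z, 1) (x, 2) :=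
    o.arc_of_rep (wS q₀ w) hx hy hz (k := (2, true, 1)) (k' := (0, true, 2)) (chk7 p)
  have sx : wS q₀ w' x = qx := rfl
  have sy : wS q₀ w' y = qy := rfl
  have sz : wS q₀ w' z = qz := rfl
  have tm : TM ((wT w').conj (tri x 2 y 1 z 0)) (wS q₀ w') (wT w'') (wS q₀ w'') :=
    tm_braid (wT w) (wS q₀ w) p hx hy hz
  have hS : uD ((wT w').conj (tri x 2 y 1 z 0)) u = (uD (wT w') u).conj
      (tri (Sum.inl (uE u x)) 2 (Sum.inl (uE u y)) 1 (Sum.inl (uE u z)) 0) :=
    uD_tri (wT w') x y z 2 1 0 u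
  obtain ⟨e⟩ := diso_ctx tm u q₁
  rw [hS] at e
  have hp : Planar ((UDg q₀ w' u q₁).S.conj
      (tri (Sum.inl (uE u x)) 2 (Sum.inl (uE u y)) 1 (Sum.inl (uE u z)) 0))
      (UDg q₀ w' u q₁).s := Planar.iso e.toDMap.symm (planar_ctx q₀ q₁ u w'')
  have hst := Step.r3 (UDg q₀ w' u q₁) (Sum.inl (uE u x)) (Sum.inl (uE u y)) (Sum.inl (uE u z))
    2 1 0 (fun e => hxy (uE_inj u (Sum.inl.inj e))) (fun e => hyz (uE_inj u (Sum.inl.inj e)))
    (fun e => hzx (uE_inj u (Sum.inl.inj e)))
    (by
      show (uS (wS q₀ w') u (uE u x)).isX = true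
      rw [uS_uE, sx, hx])
    (by
      show (uS (wS q₀ w') u (uE u y)).isX = true
      rw [uS_uE, sy, hy])
    (by
      show (uS (wS q₀ w') u (uE u z)).isX = true
      rw [uS_uE, sz, hz])
    (arc_ctx a1 u q₁) (arc_ctx a2 u q₁) (arc_ctx a3 u q₁)
    (by
      show ¬ ((uS (wS q₀ w') u (uE u x)).upper 3 = (uS (wS q₀ w') u (uE u y)).upper 2 ∧
        (uS (wS q₀ w') u (uE u y)).upper 2 = (uS (wS q₀ w') u (uE u z)).upper 1)
      rw [uS_uE, uS_uE, uS_uE, sx, sy, sz]
      rintro ⟨h1, h2⟩
      exact h (chk8 qx qy qz hx hy hz h1 h2))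
    hp
  have hiso : Step ⟨(UDg q₀ w' u q₁).V, (UDg q₀ w' u q₁).S.conj
      (tri (Sum.inl (uE u x)) 2 (Sum.inl (uE u y)) 1 (Sum.inl (uE u z)) 0),
      (UDg q₀ w' u q₁).s, hp⟩ (UDg q₀ w'' u q₁) := Step.iso _ _ e
  exact (dg_udg q₀ q₁ u w').tr (Same.tr (Relation.EqvGen.rel _ _ hst)
    (Same.tr (Relation.EqvGen.rel _ _ hiso) (dg_udg q₀ q₁ u w'').sym))

end Pool.Agent.Helper65.LK
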