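import Pool.Agent.Helper65.LK.Tangle

/-!
# Word diagrams: definitions

`app T p` adds two vertices to the tangle `T`: the vertex `true` on the strands `p, p + 1` (a crossing) and
the vertex `false` on the strands `p + 2, p + 3` (it will get the state `smB`, so that these two
strands run straight through).  The darts of a new vertex on the strands `q, q + 1` are: `0`, `1` the inner
ends of the strands `q + 1` and `q`, `2`, `3` the outer ends of the strands `q` and `q + 1`.
-/

namespace Pool.Agent.Helper65.LK

variable {V : Type}

/-- the strands of the new vertices -/
def sq (p : ZMod 4) (b : Bool) : ZMod 4 := if b then p else p + 2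

/-- the new vertex on the strand `i` -/
def bq (p i : ZMod 4) : Bool := decide (i = p ∨ i = p + 1)

/-- the inner dart on the strand `i` -/
def inDart (p i : ZMod 4) : Bool × ZMod 4 :=
  (bq p i, if i = sq p (bq p i) then 1 else 0)

/-- the outer dart on the strand `i` -/
def outDart (p i : ZMod 4) : Bool × ZMod 4 :=
  (bq p i, if i = sq p (bq p i) then 2 else 3)

/-- the strand and the side (`true`: inner) of a dart of the new vertices -/
def strand (p : ZMod 4) (x : Bool × ZMod 4) : ZMod 4 × Bool :=
  if x.2 = 0 then (sq p x.1 + 1, true) else if x.2 = 1 then (sq p x.1, true)
  else if x.2 = 2 then (sq p x.1, false) else (sq p x.1 + 1, false)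

theorem strand_inDart : ∀ p i : ZMod 4, strand p (inDart p i) = (i, true) := by decide

theorem strand_outDart : ∀ p i : ZMod 4, strand p (outDart p i) = (i, false) := by decide

theorem inDart_strand : ∀ (p : ZMod 4) (x : Bool × ZMod 4), (strand p x).2 = true →
    inDart p (strand p x).1 = x := by decide

theorem outDart_strand : ∀ (p : ZMod 4) (x : Bool × ZMod 4), (strand p x).2 = false →
    outDart p (strand p x).1 = x := by decide

/-- the tangle `T` with the two new vertices outside -/
def app (T : Tangle V) (p : ZMod 4) : Tangle (V ⊕ Bool) where
  port i := dr (outDart p i)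
  link x := match x.1 with
    | Sum.inl v => match T.link (v, x.2) with
      | Sum.inl y => Sum.inl (dl y)
      | Sum.inr i => Sum.inl (dr (inDart p i))
    | Sum.inr b => if (strand p (b, x.2)).2 = true then
        Sum.inl (dl (T.port (strand p (b, x.2)).1)) else Sum.inr (strand p (b, x.2)).1
  link_port i := by
    have h : strand p ((outDart p i).1, (outDart p i).2) = (i, false) := strand_outDart p i
    simp [h]
  port_link x i h := by
    obtain ⟨v | b, j⟩ := x
    · cases hx : T.link (v, j) with
      | inl y => simp [hx] at h
      | inr k => simp [hx] at h
    · by_cases hs : (strand p (b, j)).2 = true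
      · simp [hs] at h
      · have hs' : (strand p (b, j)).2 = false := by simpa using hs
        simp only [hs', Bool.false_eq_true, if_false, Sum.inr.injEq] at h
        rw [← h]
        have h2 := outDart_strand p (b, j) hs'
        simp only [dr, h2]
  invol x y h := by
    obtain ⟨v | b, j⟩ := x
    · cases hx : T.link (v, j) with
      | inl z =>
        simp only [hx, Sum.inl.injEq] at h
        subst h
        simp [T.invol _ _ hx]
      | inr k =>
        simp only [hx, Sum.inl.injEq] at h
        subst h
        have h1 : strand p ((inDart p k).1, (inDart p k).2) = (k, true) := strand_inDart p k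
        simp [h1, T.port_link _ _ hx]
    · by_cases hs : (strand p (b, j)).2 = true
      · simp only [hs, if_true, Sum.inl.injEq] at h
        subst h
        have h2 := inDart_strand p (b, j) hs
        simp [T.link_port, h2]
      · simp [hs] at h
  noFix x h := by
    obtain ⟨v | b, j⟩ := x
    · cases hx : T.link (v, j) with
      | inl z =>
        simp only [hx, Sum.inl.injEq, Prod.mk.injEq] at h
        exact T.noFix (v, j) (by rw [hx, Sum.inl.injEq]; exact Prod.ext h.1 h.2)
      | inr k => simp [hx] at h
    · by_cases hs : (strand p (b, j)).2 = true
      · simp [hs] at h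
      · simp [hs] at h

/-- a letter: the position and the state of the crossing -/
abbrev Letter : Type := ZMod 4 × St

/-- the vertices of a word tangle; the head of the list is the outermost letter -/
def WV : List Letter → Type
  | [] => Unit
  | _ :: w => WV w ⊕ Bool

instance WV.fintype : ∀ w : List Letter, Fintype (WV w)
  | [] => inferInstanceAs (Fintype Unit)
  | _ :: w => by
    have := WV.fintype w
    exact inferInstanceAs (Fintype (WV w ⊕ Bool))

instance WV.decEq : ∀ w : List Letter, DecidableEq (WV w)
  | [] => inferInstanceAs (DecidableEq Unit)
  | _ :: w => by
    have := WV.decEq w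
    exact inferInstanceAs (DecidableEq (WV w ⊕ Bool))

/-- the tangle of a word -/
def wT : (w : List Letter) → Tangle (WV w)
  | [] => leafT
  | l :: w => app (wT w) l.1

/-- the state of the tangle of a word; `q₀` is the state of the innermost vertex -/
def wS (q₀ : St) : (w : List Letter) → WV w → St
  | [] => fun _ => q₀
  | l :: w => Sum.elim (wS q₀ w) (fun b => if b = true then l.2 else St.smB)

/-- the word diagram: innermost vertex with the state `q₀`, the letters `w`, and an outermost vertex
with the state `q₁` -/
def wD (w : List Letter) : Shadow (WV w ⊕ Unit) := glue (wT w) leafT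

/-- the state of the word diagram -/
def wDS (q₀ : St) (w : List Letter) (q₁ : St) : WV w ⊕ Unit → St :=
  Sum.elim (wS q₀ w) (fun _ => q₁)

/-- the alternating letter at the position `p` -/
def alt (p : ZMod 4) : Letter := (p, if p = 0 ∨ p = 2 then St.over1 else St.over0)

/-- The letters of the Conway diagram `C(a₁, ..., aₙ)`: `a₁` crossings on the right, `a₂` crossings
below, `a₃` crossings on the right, ... -/
def cw : List ℕ → Bool → List Letter
  | [], _ => []
  | x :: l, b => List.replicate x (alt (if b = true then 3 else 2)) ++ cw l (!b)

/-- the innermost state: two horizontal arcs if `n` is odd, two vertical arcs if `n` is even -/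
def cq (a : List ℕ) : St := if a.length % 2 = 1 then St.smA else St.smB

end Pool.Agent.Helper65.LK
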